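import Mathlib

/-!
Powers of the Beurling transform: statements of the parts of the proof of a sharp asymptotic bound for
the truncations of the kernel of `T ^ n` to an annulus, for even exponents `p = 2 m`.
-/

set_option autoImplicit false

open MeasureTheory ENNReal Filter Topology Complex
open scoped ComplexConjugate

namespace Pool.Agent.N892.BW

/-- the kernel of the `n`-th power of the Beurling transform -/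
noncomputable def Kn (n : ℕ) (x : ℂ) : ℂ :=
  (-1) ^ n * ((n : ℂ) / (Real.pi : ℂ)) * (conj x) ^ (n - 1) / x ^ (n + 1)

/-- `exp (i Im (x conj v))` -/
noncomputable def ex (x v : ℂ) : ℂ := Complex.exp (Complex.I * (((x * conj v).im : ℝ) : ℂ))

/-- bounded measurable functions with bounded support -/
def Nice (g : ℂ → ℂ) : Prop :=
  Measurable g ∧ (∃ M : ℝ, ∀ x, ‖g x‖ ≤ M) ∧ ∃ R : ℝ, ∀ x, R < ‖x‖ → g x = 0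

/-- `Γ(1/p) / Γ(1-1/p)` for `p = 2 m` -/
noncomputable def GA (m : ℕ) : ℝ :=
  Real.Gamma (1 / (2 * (m : ℝ))) / Real.Gamma (1 - 1 / (2 * (m : ℝ)))

/-- the conjugate exponent of `2 m` -/
noncomputable def qq (m : ℕ) : ℝ := 2 * (m : ℝ) / (2 * (m : ℝ) - 1)

/-- `n ^ (1 - 2/p) Γ(1/p) / Γ(1-1/p)` for `p = 2 m` -/
noncomputable def AA (m n : ℕ) : ℝ := (n : ℝ) ^ (1 - 1 / (m : ℝ)) * GA m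

/-- convolution of nonnegative functions -/
noncomputable def cv (f g : ℂ → ℝ≥0∞) (x : ℂ) : ℝ≥0∞ := ∫⁻ y, f y * g (x - y)

/-- the `(j+1)`-fold convolution power -/
noncomputable def it (f : ℂ → ℝ≥0∞) : ℕ → ℂ → ℝ≥0∞
  | 0 => f
  | j + 1 => cv f (it f j)

/-- constant of the composition formula of Riesz -/
noncomputable def RB (a b : ℝ) : ℝ :=
  Real.pi * (Real.Gamma (a / 2) * Real.Gamma (b / 2) * Real.Gamma (1 - (a + b) / 2)) /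
    (Real.Gamma (1 - a / 2) * Real.Gamma (1 - b / 2) * Real.Gamma ((a + b) / 2))

/-- RZ: composition formula of Riesz potentials in the plane -/
def S_RZ : Prop := ∀ a b : ℝ, 0 < a → 0 < b → a + b < 2 → ∀ x : ℂ, x ≠ 0 →
  ∫⁻ y : ℂ, ENNReal.ofReal (‖y‖ ^ (a - 2)) * ENNReal.ofReal (‖x - y‖ ^ (b - 2)) =
    ENNReal.ofReal (RB a b * ‖x‖ ^ (a + b - 2))

/-- CONV: the weighted inequality for the `m`-fold convolution -/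
def S_CONV : Prop := ∀ m : ℕ, 2 ≤ m → ∀ f : ℂ → ℝ≥0∞, Measurable f →
  ∫⁻ x, (it f (m - 1) x) ^ 2 ≤
    ENNReal.ofReal (Real.pi ^ (2 * m - 2) * GA m ^ (2 * m)) * ∫⁻ u, f u ^ (2 * m) * ‖u‖ₑ ^ (4 * m - 4)

/-- the Fourier integral -/
noncomputable def hat (g : ℂ → ℂ) (v : ℂ) : ℂ := ∫ x, g x * ex x v

/-- FOUR: Plancherel for the `m`-th power of a Fourier integral -/
def S_FOUR : Prop := ∀ m : ℕ, 1 ≤ m → ∀ F : ℂ → ℂ, Nice F →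
  ∫⁻ x, ‖∫ u, F u * ex x u‖ₑ ^ (2 * m) ≤
    ENNReal.ofReal ((2 * Real.pi) ^ 2) * ∫⁻ x, (it (fun u => ‖F u‖ₑ) (m - 1) x) ^ 2

/-- PIT: Pitt's inequality with the sharp constant, even exponents -/
def S_PIT : Prop := ∀ m : ℕ, 2 ≤ m → ∀ F : ℂ → ℂ, Nice F →
  ∫⁻ x, ‖∫ u, F u * ex x u‖ₑ ^ (2 * m) ≤
    ENNReal.ofReal (4 * Real.pi ^ (2 * m) * GA m ^ (2 * m)) * ∫⁻ u, ‖F u‖ₑ ^ (2 * m) * ‖u‖ₑ ^ (4 * m - 4)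

/-- absolute value of the kernel -/
noncomputable def ker (n : ℕ) (w : ℂ) : ℝ := (n : ℝ) / (Real.pi * ‖w‖ ^ 2)

/-- inversion -/
noncomputable def iv (n : ℕ) (w : ℂ) : ℂ := (2 * (n : ℂ)) / conj w

/-- PAL: the dual inequality (Paley) in inverted coordinates -/
def S_PAL : Prop := ∀ m n : ℕ, 2 ≤ m → 1 ≤ n → ∀ g : ℂ → ℂ, Nice g →
  ∫⁻ w, (ENNReal.ofReal (ker n w) * ‖hat g (iv n w)‖ₑ) ^ (qq m) ≤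
    ENNReal.ofReal (AA m n ^ (qq m)) * ∫⁻ x, ‖g x‖ₑ ^ (qq m)

/-- MZF: Marcinkiewicz-Zygmund, finite families, complex scalars, constant one -/
def S_MZF : Prop := ∀ k : ℂ → ℂ → ℂ, Measurable (Function.uncurry k) →
  (∀ w, ∃ C : ℝ, ∀ x, ‖k w x‖ ≤ C) → ∀ q : ℝ, 1 ≤ q → ∀ A : ℝ≥0∞,
  (∀ g, Nice g → ∫⁻ w, ‖∫ x, k w x * g x‖ₑ ^ q ≤ A * ∫⁻ x, ‖g x‖ₑ ^ q) →
  ∀ (N : ℕ) (g : Fin N → ℂ → ℂ), (∀ j, Nice (g j)) →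
  ∫⁻ w, (∑ j, ‖∫ x, k w x * g j x‖ₑ ^ 2) ^ (q / 2) ≤ A * ∫⁻ x, (∑ j, ‖g j x‖ₑ ^ 2) ^ (q / 2)

/-- average over the ball of radius `T` around `v` -/
noncomputable def av (T : ℝ) (X : ℂ → ℝ≥0∞) (v : ℂ) : ℝ≥0∞ :=
  (volume (Metric.ball (0 : ℂ) T))⁻¹ * ∫⁻ u in Metric.ball (0 : ℂ) T, X (v + u)

/-- MZC: Paley's inequality with local square averages -/
def S_MZC : Prop := ∀ m n : ℕ, 2 ≤ m → 1 ≤ n → ∀ T : ℝ, 0 < T → ∀ g : ℂ → ℂ, Nice g →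
  ∫⁻ w, (ENNReal.ofReal (ker n w ^ 2) * av T (fun v => ‖hat g v‖ₑ ^ 2) (iv n w)) ^ (qq m / 2) ≤
    ENNReal.ofReal (AA m n ^ (qq m)) * ∫⁻ x, ‖g x‖ₑ ^ (qq m)

/-- mollifiers: probability densities on the disc of radius `l` -/
def Mol (l : ℝ) (χ : ℂ → ℝ≥0∞) : Prop :=
  Measurable χ ∧ (∀ y, l < ‖y‖ → χ y = 0) ∧ ∫⁻ y, χ y = 1

/-- AVG: averages over small discs in the plane of `w` against averages in the inverted plane -/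
def S_AVG : Prop := ∀ ε : ℝ, 0 < ε → ∃ η : ℝ, 0 < η ∧ ∀ (c l T D : ℝ), 0 < c → 0 < l → l ≤ η →
  1 ≤ D → 0 < T → T * D ≤ η * c → c * l ≤ η * T → ∀ χ : ℂ → ℝ≥0∞, Mol l χ →
  ∀ s : ℝ, 1 / 2 ≤ s → s ≤ 1 → ∀ X : ℂ → ℝ≥0∞, Measurable X →
  ∫⁻ w in {w : ℂ | 1 / 2 ≤ ‖w‖ ∧ ‖w‖ ≤ D},
      (∫⁻ y, χ y * (ENNReal.ofReal ((c / (2 * Real.pi * ‖w + y‖ ^ 2)) ^ 2) * X ((c : ℂ) / conj (w + y)))) ^ s ≤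
    ENNReal.ofReal (1 + ε) * ∫⁻ w, (ENNReal.ofReal ((c / (2 * Real.pi * ‖w‖ ^ 2)) ^ 2) *
      av (T + 8 * c * l) X ((c : ℂ) / conj w)) ^ s

/-- LIN: the kernel near a far point is a plane wave -/
def S_LIN : Prop := ∀ n : ℕ, 1 ≤ n → ∀ w z : ℂ, w ≠ 0 → ‖z‖ ≤ ‖w‖ / 4 → (n : ℝ) * ‖z‖ ^ 2 ≤ ‖w‖ ^ 2 →
  ‖Kn n (w - z) - Kn n w * ex z (iv n w)‖ ≤
    100 * ker n w * (‖z‖ / ‖w‖ + n * (‖z‖ / ‖w‖) ^ 2)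

/-- the Laplace operator -/
noncomputable def lap (Θ : ℂ → ℝ) (w : ℂ) : ℝ :=
  iteratedFDeriv ℝ 2 Θ w ![1, 1] + iteratedFDeriv ℝ 2 Θ w ![Complex.I, Complex.I]

/-- IBP: the product of two kernels is a Laplacian -/
def S_IBP : Prop := ∀ n : ℕ, 1 ≤ n → ∀ z z' : ℂ, z ≠ z' → ∀ Θ : ℂ → ℝ, ContDiff ℝ 2 Θ →
  HasCompactSupport Θ → z ∉ tsupport Θ → z' ∉ tsupport Θ →
  ‖∫ w, (Θ w : ℂ) * (Kn n (w - z) * conj (Kn n (w - z')))‖ ≤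
    1 / (4 * Real.pi ^ 2 * ‖z - z'‖ ^ 2) * ∫ w, |lap Θ w|

/-- cut-off functions of the annulus `r ≤ ‖x‖ ≤ s` with constant `B` -/
def Cut (B r s : ℝ) (ψ : ℂ → ℝ) : Prop :=
  ContDiff ℝ 2 ψ ∧ (∀ x, 0 ≤ ψ x ∧ ψ x ≤ 1) ∧ (∀ x, ψ x ≠ 0 → r ≤ ‖x‖ ∧ ‖x‖ ≤ s) ∧
  ∀ x, ‖fderiv ℝ ψ x‖ * ‖x‖ ≤ B ∧ ‖iteratedFDeriv ℝ 2 ψ x‖ * ‖x‖ ^ 2 ≤ B

/-- the truncated kernel -/
noncomputable def kk (n : ℕ) (ψ : ℂ → ℝ) (x : ℂ) : ℂ := Kn n x * (ψ x : ℂ)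

/-- the operator with the truncated kernel -/
noncomputable def So (n : ℕ) (ψ : ℂ → ℝ) (g : ℂ → ℂ) (w : ℂ) : ℂ := ∫ z, kk n ψ (w - z) * g z

/-- rescaled density -/
noncomputable def sc (χ : ℂ → ℝ) (l : ℝ) (y : ℂ) : ℝ := (l ^ 2)⁻¹ * χ (((l⁻¹ : ℝ) : ℂ) * y)

/-- JJ: almost orthogonality of the truncated kernels of different points -/
def S_JJ : Prop := ∃ χ : ℂ → ℝ, ContDiff ℝ 2 χ ∧ (∀ y, 0 ≤ χ y) ∧ (∀ y, 1 < ‖y‖ → χ y = 0) ∧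
  (∫ y, χ y = 1) ∧ ∀ B : ℝ, ∃ C : ℝ, 0 < C ∧ ∀ (n : ℕ) (l D : ℝ) (ψ : ℂ → ℝ), 1 ≤ n → 0 < l → l ≤ 1 →
    Cut B 1 D ψ → ∀ z z' w : ℂ, z ≠ z' →
    ‖∫ y, (sc χ l y : ℂ) * (kk n ψ (w + y - z) * conj (kk n ψ (w + y - z')))‖ ≤ C / (l ^ 2 * ‖z - z'‖ ^ 2)

/-- YNG: Young's inequality for the truncated kernel `‖x‖ ^ (-2)` -/
def S_YNG : Prop := ∀ m : ℕ, 2 ≤ m → ∃ C : ℝ, 0 < C ∧ ∀ δ : ℝ, 0 < δ → ∀ g : ℂ → ℝ≥0∞, Measurable g →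
  ∫⁻ z, ∫⁻ z', (if δ ≤ ‖z - z'‖ then g z * g z' * ENNReal.ofReal ((‖z - z'‖ ^ 2)⁻¹) else 0) ≤
    ENNReal.ofReal (C * δ ^ (-2 + 2 / (m : ℝ))) * (∫⁻ z, g z ^ (qq m)) ^ (2 / qq m)

/-- the part of `g` on the cell `Q` -/
noncomputable def pc (cell : ℂ → ℤ × ℤ) (g : ℂ → ℂ) (Q : ℤ × ℤ) (z : ℂ) : ℂ :=
  {z | cell z = Q}.indicator g z

/-- DEC: decomposition into cells, pointwise -/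
def S_DEC : Prop := ∀ (n : ℕ) (ψ : ℂ → ℝ) (l D CJ δ : ℝ) (χ : ℂ → ℝ) (cell : ℂ → ℤ × ℤ) (g : ℂ → ℂ),
  1 ≤ n → 0 < l → l ≤ 1 → 1 ≤ D → 0 ≤ CJ → 0 < δ → Measurable χ → (∀ y, 0 ≤ χ y) → (∀ y, l < ‖y‖ → χ y = 0) →
  (∫ y, χ y = 1) → (∃ B, Cut B 1 D ψ) → Measurable cell → Nice g →
  (∀ z z', g z ≠ 0 → g z' ≠ 0 → cell z ≠ cell z' → δ ≤ ‖z - z'‖) →
  (∀ z z' w : ℂ, z ≠ z' →
    ‖∫ y, (χ y : ℂ) * (kk n ψ (w + y - z) * conj (kk n ψ (w + y - z')))‖ ≤ CJ * (‖z - z'‖ ^ 2)⁻¹) →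
  ∀ w : ℂ, ∫⁻ y, ENNReal.ofReal (χ y) * ‖So n ψ g (w + y)‖ₑ ^ 2 ≤
    ∑' Q : ℤ × ℤ, ∫⁻ y, ENNReal.ofReal (χ y) * ‖So n ψ (pc cell g Q) (w + y)‖ₑ ^ 2 +
    ENNReal.ofReal CJ * ∫⁻ z, ∫⁻ z', (if δ ≤ ‖z - z'‖ then
      (Metric.closedBall w (2 * D)).indicator (fun z => ‖g z‖ₑ) z *
      (Metric.closedBall w (2 * D)).indicator (fun z => ‖g z‖ₑ) z' *
        ENNReal.ofReal ((‖z - z'‖ ^ 2)⁻¹) else 0)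

/-- INT: the same, integrated -/
def S_INT : Prop := ∀ m : ℕ, 2 ≤ m → ∃ C : ℝ, 0 < C ∧
  ∀ (n : ℕ) (ψ : ℂ → ℝ) (l D CJ δ : ℝ) (χ : ℂ → ℝ) (cell : ℂ → ℤ × ℤ) (g : ℂ → ℂ),
  1 ≤ n → 0 < l → l ≤ 1 → 1 ≤ D → 0 ≤ CJ → 0 < δ → Measurable χ → (∀ y, 0 ≤ χ y) → (∀ y, l < ‖y‖ → χ y = 0) →
  (∫ y, χ y = 1) → (∃ B, Cut B 1 D ψ) → Measurable cell → Nice g →
  (∀ z z', g z ≠ 0 → g z' ≠ 0 → cell z ≠ cell z' → δ ≤ ‖z - z'‖) →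
  (∀ z z' w : ℂ, z ≠ z' →
    ‖∫ y, (χ y : ℂ) * (kk n ψ (w + y - z) * conj (kk n ψ (w + y - z')))‖ ≤ CJ * (‖z - z'‖ ^ 2)⁻¹) →
  ∫⁻ w, (∫⁻ y, ENNReal.ofReal (χ y) * ‖So n ψ g (w + y)‖ₑ ^ 2) ^ (qq m / 2) ≤
    ∑' Q : ℤ × ℤ, ∫⁻ w, (∫⁻ y, ENNReal.ofReal (χ y) * ‖So n ψ (pc cell g Q) (w + y)‖ₑ ^ 2) ^ (qq m / 2) +
    ENNReal.ofReal (C * CJ ^ (qq m / 2) * (δ ^ (-2 + 2 / (m : ℝ))) ^ (qq m / 2) * D ^ 2) *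
      ∫⁻ z, ‖g z‖ₑ ^ (qq m)

/-- JEN: local averages -/
def S_JEN : Prop := ∀ (q l : ℝ) (χ : ℂ → ℝ≥0∞) (h : ℂ → ℂ), 0 < q → q ≤ 2 → Mol l χ → Measurable h →
  ∫⁻ w, ‖h w‖ₑ ^ q ≤ ∫⁻ w, (∫⁻ y, χ y * ‖h (w + y)‖ₑ ^ 2) ^ (q / 2)

/-- CELL: the bound for one cell -/
def S_CELL : Prop := ∀ (m : ℕ) (B : ℝ), 2 ≤ m → ∃ C : ℝ, 0 < C ∧ ∀ ε : ℝ, 0 < ε → ∃ η : ℝ, 0 < η ∧
  ∀ (n : ℕ) (R l T D : ℝ) (ψ : ℂ → ℝ) (χ : ℂ → ℝ≥0∞) (a : ℂ) (g : ℂ → ℂ),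
  1 ≤ n → 0 < R → R ≤ 1 / 8 → (n : ℝ) * R ^ 2 ≤ 1 / 4 → 0 < l → l ≤ η → 1 ≤ D → 0 < T →
  T * D ≤ η * n → (n : ℝ) * l ≤ η * T → Cut B 1 D ψ → Mol l χ → Nice g → (∀ z, g z ≠ 0 → ‖z - a‖ ≤ R) →
  (∫⁻ w, (∫⁻ y, χ y * ‖So n ψ g (w + y)‖ₑ ^ 2) ^ (qq m / 2)) ^ (1 / qq m) ≤
    ENNReal.ofReal ((1 + ε) * AA m n + C * n * (R + n * R ^ 2) * R ^ (1 / (m : ℝ))) *
      (∫⁻ z, ‖g z‖ₑ ^ (qq m)) ^ (1 / qq m)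

/-- LAY: a grid with little mass near the boundaries of the cells -/
def S_LAY : Prop := ∀ (q a η : ℝ) (g : ℂ → ℂ), 0 < q → 0 < a → 0 < η → η < 1 → Nice g →
  ∃ (cell : ℂ → ℤ × ℤ) (I : Set ℂ), Measurable cell ∧ MeasurableSet I ∧
    (∫⁻ z in Iᶜ, ‖g z‖ₑ ^ q ≤ ENNReal.ofReal (2 * η) * ∫⁻ z, ‖g z‖ₑ ^ q) ∧
    (∀ z ∈ I, ∀ z' ∈ I, cell z ≠ cell z' → η * a ≤ ‖z - z'‖) ∧
    (∀ z z', cell z = cell z' → ‖z - z'‖ ≤ 2 * a)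

/-- FIN: a finite bound -/
def S_FIN : Prop := ∀ (m n : ℕ) (B D : ℝ) (ψ : ℂ → ℝ), 2 ≤ m → 1 ≤ n → 1 ≤ D → Cut B 1 D ψ →
  ∃ K : ℝ, 0 ≤ K ∧ ∀ g : ℂ → ℂ, Nice g →
    ∫⁻ w, ‖So n ψ g w‖ₑ ^ (qq m) ≤ ENNReal.ofReal (K ^ (qq m)) * ∫⁻ z, ‖g z‖ₑ ^ (qq m)

/-- LQ: the bound on the dual side, for the unit scale -/
def S_LQ : Prop := ∀ (m : ℕ) (c B : ℝ), 2 ≤ m → 0 < c →
  c < (m : ℝ) * (m - 1) / ((2 * m + 1) * (3 * m - 1)) →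
  ∀ ε : ℝ, 0 < ε → ∃ n₀ : ℕ, ∀ n : ℕ, n₀ ≤ n → ∀ ψ : ℂ → ℝ, Cut B 1 ((n : ℝ) ^ c) ψ → ∀ g : ℂ → ℂ, Nice g →
  ∫⁻ w, ‖So n ψ g w‖ₑ ^ (qq m) ≤ ENNReal.ofReal (((1 + ε) * AA m n) ^ (qq m)) * ∫⁻ z, ‖g z‖ₑ ^ (qq m)

/-- DUA: duality and scaling -/
def S_DUA : Prop := ∀ (m n : ℕ) (B r s A : ℝ), 2 ≤ m → 1 ≤ n → 0 < r → 0 ≤ A →
  (∀ ψ : ℂ → ℝ, Cut B 1 s ψ → ∀ g : ℂ → ℂ, Nice g →
    ∫⁻ w, ‖So n ψ g w‖ₑ ^ (qq m) ≤ ENNReal.ofReal (A ^ (qq m)) * ∫⁻ z, ‖g z‖ₑ ^ (qq m)) →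
  ∀ ψ : ℂ → ℝ, Cut B r (r * s) ψ → ∀ f : ℂ → ℂ, Measurable f → (∫⁻ z, ‖f z‖ₑ ^ (2 * m) < ∞) →
    ∫⁻ w, ‖So n ψ f w‖ₑ ^ (2 * m) ≤ ENNReal.ofReal (A ^ (2 * m)) * ∫⁻ z, ‖f z‖ₑ ^ (2 * m)

/-- the constant of the conjecture -/
noncomputable def Cn (p : ℝ) (n : ℕ) : ℝ :=
  ∏ j ∈ Finset.range n, ((1 - 1 / p + j) / (1 / p + j))

/-- ASY: asymptotics of the constant -/
def S_ASY : Prop := ∀ m : ℕ, 2 ≤ m → Tendsto (fun n : ℕ => AA m n / Cn (2 * m) n) atTop (𝓝 1)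

/-- GAM: the constant of the weaker conjecture is strictly larger -/
def S_GAM : Prop := ∀ m : ℕ, 2 ≤ m → GA m < 2 * m - 1

/-- CUX: existence of cut-off functions -/
def S_CUX : Prop := ∃ B : ℝ, ∀ r s : ℝ, 0 < r → r ≤ s → ∃ ψ : ℂ → ℝ, Cut B (r / 2) (2 * s) ψ ∧
  ∀ x, r ≤ ‖x‖ → ‖x‖ ≤ s → ψ x = 1

/-- the Fourier multiplier operator with symbol `(conj ξ / ξ) ^ n` -/
noncomputable def TT (n : ℕ) (f : ℂ → ℂ) (z : ℂ) : ℂ :=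
  ∫ ξ : ℂ, Complex.exp (2 * (Real.pi : ℂ) * Complex.I * ((z.re * ξ.re + z.im * ξ.im : ℝ) : ℂ)) *
    ((starRingEnd ℂ ξ / ξ) ^ n *
      ∫ w : ℂ, Complex.exp (-(2 * (Real.pi : ℂ) * Complex.I *
        ((w.re * ξ.re + w.im * ξ.im : ℝ) : ℂ))) * f w)

/-- KER: the kernel of the multiplier off the support -/
def S_KER : Prop := ∀ n : ℕ, 1 ≤ n → ∀ (f : SchwartzMap ℂ ℂ) (z : ℂ), z ∉ tsupport f →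
  TT n f z = ∫ w, Kn n (z - w) * f w

end Pool.Agent.N892.BW
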