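import Mathlib
import Pool.Agent.N892.BW.Stm

/-!
Powers of the Beurling transform, second part: functions whose spectrum lies in an annulus of ratio `n ^ K`.
Statements of the parts of the proof.
-/

set_option autoImplicit false

open MeasureTheory ENNReal Filter Topology Complex
open scoped ComplexConjugate ContDiff

namespace Pool.Agent.N892.BW

/-- the character `exp (2 π i Re (x conj ξ))` -/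
noncomputable def e2 (x ξ : ℂ) : ℂ :=
  Complex.exp (2 * (Real.pi : ℂ) * Complex.I * ((x.re * ξ.re + x.im * ξ.im : ℝ) : ℂ))

/-- inverse Fourier integral -/
noncomputable def Fi (h : ℂ → ℂ) (x : ℂ) : ℂ := ∫ ξ, e2 x ξ * h ξ

/-- smooth functions supported in the annulus `a ≤ ‖ξ‖ ≤ b` -/
def Bd (a b : ℝ) (h : ℂ → ℂ) : Prop := ContDiff ℝ ∞ h ∧ ∀ ξ, h ξ ≠ 0 → a ≤ ‖ξ‖ ∧ ‖ξ‖ ≤ b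

/-- the symbol of `T ^ n` -/
noncomputable def sy (n : ℕ) (ξ : ℂ) : ℂ := (conj ξ / ξ) ^ n

/-- `T ^ n` on the Fourier side -/
noncomputable def Tn (n : ℕ) (h : ℂ → ℂ) (ξ : ℂ) : ℂ := sy n ξ * h ξ

/-- the integral of the power `2 m` -/
noncomputable def Nm (m : ℕ) (f : ℂ → ℂ) : ℝ≥0∞ := ∫⁻ x, ‖f x‖ₑ ^ (2 * m)

/-- the integral of the power `m` of the local square averages -/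
noncomputable def Ls (m : ℕ) (χ : ℂ → ℝ) (ρ : ℝ) (f : ℂ → ℂ) : ℝ≥0∞ :=
  ∫⁻ z, (∫⁻ y, ENNReal.ofReal (sc χ ρ y) * ‖f (z + y)‖ₑ ^ 2) ^ m

/-- bounded integrable functions -/
def Nic2 (g : ℂ → ℂ) : Prop := Measurable g ∧ Integrable g ∧ ∃ M : ℝ, ∀ x, ‖g x‖ ≤ M

/-- BAS: Fourier inversion, Plancherel, decay, for smooth functions with compact support -/
def S_BAS : Prop := ∀ (b : ℝ) (h : ℂ → ℂ), Bd 0 b h →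
  Continuous (Fi h) ∧ (∀ N : ℕ, ∃ C : ℝ, ∀ x, ‖Fi h x‖ * (1 + ‖x‖) ^ N ≤ C) ∧ Nic2 (Fi h) ∧
  (∀ ξ, h ξ = ∫ x, conj (e2 x ξ) * Fi h x) ∧ ((∫⁻ x, ‖Fi h x‖ₑ ^ 2) = ∫⁻ ξ, ‖h ξ‖ₑ ^ 2)

/-- CNV: products of symbols are convolutions -/
def S_CNV : Prop := ∀ (b : ℝ) (μ h : ℂ → ℂ), Bd 0 b μ → Bd 0 b h → ∀ x,
  Integrable (fun z => Fi μ (x - z) * Fi h z) ∧ Fi (fun ξ => μ ξ * h ξ) x = ∫ z, Fi μ (x - z) * Fi h z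

/-- PRD: products and conjugates of band-limited functions -/
def S_PRD : Prop :=
  (∀ (a₁ b₁ b₂ : ℝ) (h₁ h₂ : ℂ → ℂ), Bd a₁ b₁ h₁ → Bd 0 b₂ h₂ → ∃ h₃ : ℂ → ℂ,
    Bd (a₁ - b₂) (b₁ + b₂) h₃ ∧ ∀ x, Fi h₁ x * Fi h₂ x = Fi h₃ x) ∧
  ∀ (a b : ℝ) (h : ℂ → ℂ), Bd a b h → ∃ h' : ℂ → ℂ, Bd a b h' ∧ ∀ x, conj (Fi h x) = Fi h' x

/-- PLT: the bound in the square mean -/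
def S_PLT : Prop := ∀ (b : ℝ) (L : ℕ) (μ : ℕ → ℂ → ℂ) (C : ℝ), (∀ i, Bd 0 b (μ i)) →
  (∀ ξ, ∑ i ∈ Finset.range L, ‖μ i ξ‖ ^ 2 ≤ C) → ∀ g, Nic2 g →
  (∑ i ∈ Finset.range L, (∫⁻ x, ‖∫ z, Fi (μ i) (x - z) * g z‖ₑ ^ 2)) ≤ ENNReal.ofReal C * ∫⁻ x, ‖g x‖ₑ ^ 2

/-- NUM: a numerical inequality -/
def S_NUM : Prop := ∀ (m : ℕ) (ε : ℝ), 1 ≤ m → 0 < ε → ∃ C : ℝ, 0 ≤ C ∧ ∀ a b : ℂ,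
  ‖b + a‖ ^ (2 * m) ≤ ‖b‖ ^ (2 * m) + 2 * m * (‖b‖ ^ (2 * m - 2) * (conj b * a).re) +
    (1 + ε) * ‖a‖ ^ (2 * m) + C * (‖a‖ ^ 2 * ‖b‖ ^ (2 * m - 2))

/-- VAN: orthogonality of high frequencies to low frequencies -/
def S_VAN : Prop := ∀ (m : ℕ) (b a' b' : ℝ) (h₁ h₂ : ℂ → ℂ), 1 ≤ m → 0 ≤ b → (2 * (m : ℝ) - 1) * b < a' →
  Bd 0 b h₁ → Bd a' b' h₂ →
  ∫ x, ‖Fi h₁ x‖ ^ (2 * m - 2) * (conj (Fi h₁ x) * Fi h₂ x).re = 0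

/-- ENU: upper energy inequality -/
def S_ENU : Prop := ∀ (m : ℕ) (ε : ℝ), 1 ≤ m → 0 < ε → ∃ C : ℝ, 0 ≤ C ∧
  ∀ (b a' b' : ℝ) (h₁ h₂ : ℂ → ℂ), 0 ≤ b → (2 * (m : ℝ) - 1) * b < a' → Bd 0 b h₁ → Bd a' b' h₂ →
  Nm m (Fi (fun ξ => h₁ ξ + h₂ ξ)) ≤ (Nm m (Fi h₁) + ENNReal.ofReal (1 + ε) * Nm m (Fi h₂)) +
    ENNReal.ofReal C * ∫⁻ x, ‖Fi h₂ x‖ₑ ^ 2 * ‖Fi h₁ x‖ₑ ^ (2 * m - 2)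

/-- probability densities with a first moment -/
def Den (χ : ℂ → ℝ) : Prop := Measurable χ ∧ (∀ y, 0 ≤ χ y) ∧ (∫ y, χ y = 1) ∧ Integrable (fun y => ‖y‖ * χ y)

/-- bump functions -/
def Bump (χ : ℂ → ℝ) : Prop := ContDiff ℝ 2 χ ∧ (∀ y, 0 ≤ χ y) ∧ (∀ y, 1 < ‖y‖ → χ y = 0) ∧ ∫ y, χ y = 1

/-- SUP: lower energy inequality -/
def S_SUP : Prop := ∃ χ' : ℂ → ℝ, Den χ' ∧ ∀ m : ℕ, 1 ≤ m → ∃ C : ℝ, 0 ≤ C ∧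
  ∀ (ρ b a' b' : ℝ) (h₁ h₂ : ℂ → ℂ), 0 < ρ → 0 ≤ b → b + 1 / ρ < a' → Bd 0 b h₁ → Bd a' b' h₂ →
  Nm m (Fi h₁) + Ls m χ' ρ (Fi h₂) ≤
    Nm m (Fi (fun ξ => h₁ ξ + h₂ ξ)) + ENNReal.ofReal (C * (ρ * b)) * Nm m (Fi h₁)

/-- CMP: comparison of local averages -/
def S_CMP : Prop := ∀ χ₀ χ' : ℂ → ℝ, Bump χ₀ → Den χ' → ∃ C : ℝ, 0 ≤ C ∧ ∀ (m : ℕ) (ρ l : ℝ) (f : ℂ → ℂ),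
  1 ≤ m → 0 < ρ → 0 < l → Measurable f →
  (Ls m χ₀ l f) ^ (1 / (m : ℝ)) ≤
    (Ls m χ' ρ f) ^ (1 / (m : ℝ)) + ENNReal.ofReal (C * (ρ / l)) * (Nm m f) ^ (1 / (m : ℝ))

/-- MUL: Fourier multipliers with smooth symbols on an annulus -/
def S_MUL : Prop := ∃ (E : ℕ) (C : ℝ), 0 ≤ C ∧ ∀ (n : ℕ) (a b δ : ℝ) (μ : ℂ → ℂ), 1 ≤ n → 0 < a → a ≤ b →
  b ≤ a * n → 0 ≤ δ → ContDiffOn ℝ ∞ μ {ξ | ξ ≠ 0} →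
  (∀ k : ℕ, k ≤ 4 → ∀ ξ : ℂ, a / 2 ≤ ‖ξ‖ → ‖ξ‖ ≤ 2 * b →
    ‖iteratedFDeriv ℝ k μ ξ‖ ≤ δ * ((n : ℝ) ^ 2 / a) ^ k) →
  ∀ h, Bd a b h → ∀ m : ℕ, 1 ≤ m →
    Nm m (Fi (fun ξ => μ ξ * h ξ)) ≤ ENNReal.ofReal ((C * (n : ℝ) ^ E * δ) ^ (2 * m)) * Nm m (Fi h)

/-- smooth cut-off functions of the unit disc -/
def Cap (Θ : ℂ → ℝ) : Prop := ContDiff ℝ ∞ Θ ∧ (∀ x, 0 ≤ Θ x ∧ Θ x ≤ 1) ∧ (∀ x, ‖x‖ ≤ 1 → Θ x = 1) ∧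
  ∀ x, 2 ≤ ‖x‖ → Θ x = 0

/-- Fourier transform of a cut-off function -/
noncomputable def Ft (Θ : ℂ → ℝ) (ζ : ℂ) : ℂ := ∫ x, conj (e2 x ζ) * (Θ x : ℂ)

/-- the symbol of the operator with the kernel `Kn n x * Θ (x / s)` -/
noncomputable def mu (n : ℕ) (Θ : ℂ → ℝ) (s : ℝ) (ξ : ℂ) : ℂ :=
  ∫ ζ, ((s : ℂ) ^ 2 * Ft Θ ((s : ℂ) * ζ)) * sy n (ξ - ζ)

/-- REP: the symbol of the truncated kernel -/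
def S_REP : Prop := ∀ Θ : ℂ → ℝ, Cap Θ → ∀ (n : ℕ) (r s a b : ℝ) (h : ℂ → ℂ), 1 ≤ n → 0 < r → 2 * r ≤ s →
  0 < a → Bd a b h → ∀ x,
  So n (fun x => Θ (((s⁻¹ : ℝ) : ℂ) * x) - Θ (((r⁻¹ : ℝ) : ℂ) * x)) (Fi h) x =
    Fi (fun ξ => (mu n Θ s ξ - mu n Θ r ξ) * h ξ) x

/-- NEA: the part of the kernel near the origin does not see the frequencies `‖ξ‖ ≤ 2 b` -/
def S_NEA : Prop := ∀ Θ : ℂ → ℝ, Cap Θ → (∀ (n : ℕ) (s : ℝ), 0 < s → ContDiff ℝ ∞ (mu n Θ s)) ∧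
  ∀ N : ℕ, ∃ C : ℝ, 0 ≤ C ∧ ∀ (n : ℕ) (a b : ℝ), 1 ≤ n → 0 < a → a ≤ b → b ≤ a * n →
  ∀ k : ℕ, k ≤ 4 → ∀ ξ : ℂ, ‖ξ‖ ≤ 2 * b →
    ‖iteratedFDeriv ℝ k (mu n Θ ((n : ℝ) ^ (99 / 100 : ℝ) / b)) ξ‖ ≤
      C * ((n : ℝ) ^ N)⁻¹ * ((n : ℝ) ^ 2 / a) ^ k

/-- FAR: the part of the kernel far from the origin does not see the frequencies `a / 2 ≤ ‖ξ‖` -/
def S_FAR : Prop := ∀ Θ : ℂ → ℝ, Cap Θ →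
  ∀ N : ℕ, ∃ C : ℝ, 0 ≤ C ∧ ∀ (n : ℕ) (a : ℝ), 1 ≤ n → 0 < a →
  ∀ k : ℕ, k ≤ 4 → ∀ ξ : ℂ, a / 2 ≤ ‖ξ‖ →
    ‖iteratedFDeriv ℝ k (fun ξ => sy n ξ - mu n Θ ((n : ℝ) ^ (101 / 100 : ℝ) / a) ξ) ξ‖ ≤
      C * ((n : ℝ) ^ N)⁻¹ * ((n : ℝ) ^ 2 / a) ^ k

/-- LOC: on functions with spectrum in an annulus, `T ^ n` is given by the truncated kernel -/
def S_LOC : Prop := ∃ B : ℝ, ∀ N : ℕ, ∃ (C : ℝ) (n₁ : ℕ), 0 ≤ C ∧ ∀ (n : ℕ) (a b : ℝ), n₁ ≤ n → 0 < a →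
  a ≤ b → b ≤ a * n → ∃ ψ : ℂ → ℝ,
  Cut B ((n : ℝ) ^ (99 / 100 : ℝ) / b) (2 * (n : ℝ) ^ (101 / 100 : ℝ) / a) ψ ∧
  ∀ h, Bd a b h → ∀ m : ℕ, 1 ≤ m →
    Nm m (fun x => Fi (Tn n h) x - So n ψ (Fi h) x) ≤
      ENNReal.ofReal ((C * ((n : ℝ) ^ N)⁻¹) ^ (2 * m)) * Nm m (Fi h)

/-- LQT: the dual bound with local square averages -/
def S_LQT : Prop := ∃ χ₀ : ℂ → ℝ, Bump χ₀ ∧ ∀ (m : ℕ) (B ε : ℝ), 2 ≤ m → 0 < ε →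
  ∃ n₀ : ℕ, ∀ n : ℕ, n₀ ≤ n → ∀ ψ : ℂ → ℝ, Cut B 1 ((n : ℝ) ^ (1 / 20 : ℝ)) ψ → ∀ g : ℂ → ℂ, Nice g →
  ∫⁻ w, (∫⁻ y, ENNReal.ofReal (sc χ₀ ((n : ℝ) ^ (-(1 / 10) : ℝ)) y) * ‖So n ψ g (w + y)‖ₑ ^ 2) ^ (qq m / 2) ≤
    ENNReal.ofReal (((1 + ε) * AA m n) ^ (qq m)) * ∫⁻ z, ‖g z‖ₑ ^ (qq m)

/-- DUT: duality and scaling for the bound with local square averages -/
def S_DUT : Prop := ∀ (χ₀ : ℂ → ℝ) (m n : ℕ) (B r s A l : ℝ), Bump χ₀ → 2 ≤ m → 1 ≤ n → 0 < r → 0 ≤ A → 0 < l →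
  (∀ ψ : ℂ → ℝ, Cut B 1 s ψ → ∀ g : ℂ → ℂ, Nice g →
    ∫⁻ w, (∫⁻ y, ENNReal.ofReal (sc χ₀ l y) * ‖So n ψ g (w + y)‖ₑ ^ 2) ^ (qq m / 2) ≤
      ENNReal.ofReal (A ^ (qq m)) * ∫⁻ z, ‖g z‖ₑ ^ (qq m)) →
  ∀ ψ : ℂ → ℝ, Cut B r (r * s) ψ → ∀ f : ℂ → ℂ, Measurable f → Nm m f < ⊤ →
    Nm m (So n ψ f) ≤ ENNReal.ofReal (A ^ (2 * m)) * Ls m χ₀ (l * r) f

/-- STR: the sharp bound for narrow windows, with local square averages -/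
def S_STR : Prop := ∃ χ₀ : ℂ → ℝ, Bump χ₀ ∧ ∀ (m : ℕ) (ε : ℝ), 2 ≤ m → 0 < ε →
  ∃ n₀ : ℕ, ∀ (n : ℕ) (a b : ℝ), n₀ ≤ n → 0 < a → a ≤ b → b ≤ a * (n : ℝ) ^ (1 / 50 : ℝ) → ∀ h, Bd a b h →
  (Nm m (Fi (Tn n h))) ^ (1 / (2 * (m : ℝ))) ≤
    ENNReal.ofReal ((1 + ε) * AA m n) * (Ls m χ₀ ((n : ℝ) ^ (89 / 100 : ℝ) / b) (Fi h)) ^ (1 / (2 * (m : ℝ))) +
      (Nm m (Fi h)) ^ (1 / (2 * (m : ℝ)))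

/-- HKD: decay of the kernel of `T ^ n` restricted to an annulus of frequencies -/
def S_HKD : Prop := ∀ N : ℕ, ∃ C : ℝ, 0 ≤ C ∧ ∀ (n : ℕ) (a b : ℝ), 1 ≤ n → 0 < a → a ≤ b →
  ∃ η : ℂ → ℂ, Bd (a / 2) (2 * b) η ∧ (∀ ξ, ‖η ξ‖ ≤ 1) ∧ (∀ ξ, a ≤ ‖ξ‖ → ‖ξ‖ ≤ b → η ξ = 1) ∧
    ∀ x, ‖Fi (Tn n η) x‖ * ‖x‖ ^ N ≤ C * (b ^ 2 * ((n : ℝ) / a) ^ N)

/-- GAA: gain for averages of `T ^ n f` over discs -/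
def S_GAA : Prop := ∀ (m : ℕ) (σ : ℝ), 2 ≤ m → 0 < σ → ∃ C : ℝ, 0 ≤ C ∧ ∀ (n : ℕ) (a b ρ : ℝ) (h : ℂ → ℂ),
  1 ≤ n → 0 < a → a ≤ b → b ≤ a * n → 1 / a ≤ ρ → ρ ≤ (n : ℝ) ^ (1 + σ) / a → Bd a b h →
  ∫⁻ x, (av ρ (fun z => ‖Fi (Tn n h) z‖ₑ ^ 2) x) ^ m ≤
    ENNReal.ofReal (C * ((n : ℝ) ^ (1 + σ) / (a * ρ)) ^ (2 * m - 2)) * Nm m (Fi h)

/-- GAB: low frequencies are nearly constant -/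
def S_GAB : Prop := ∀ m : ℕ, 2 ≤ m → ∃ C : ℝ, 0 ≤ C ∧ ∀ (b ρ : ℝ) (v h : ℂ → ℂ), 0 < b → 0 < ρ → ρ * b ≤ 1 →
  Continuous v → Bd 0 b h →
  ∫⁻ x, ‖v x‖ₑ ^ 2 * ‖Fi h x‖ₑ ^ (2 * m - 2) ≤
    ENNReal.ofReal C * (∫⁻ x, (av ρ (fun z => ‖v z‖ₑ ^ 2) x) ^ m) ^ (1 / (m : ℝ)) *
      (Nm m (Fi h)) ^ (1 - 1 / (m : ℝ))

/-- GAI: the interaction of two windows is small -/
def S_GAI : Prop := ∀ (m : ℕ) (τ : ℝ), 2 ≤ m → 0 < τ → ∃ (δ C : ℝ) (n₀ : ℕ), 0 < δ ∧ 0 ≤ C ∧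
  ∀ (n : ℕ) (a b b' : ℝ) (h h' : ℂ → ℂ), n₀ ≤ n → 0 < a → a ≤ b → b ≤ a * n → 0 < b' → b' * (n : ℝ) ^ τ ≤ a →
  Bd a b h → Bd 0 b' h' →
  ∫⁻ x, ‖Fi (Tn n h) x‖ₑ ^ 2 * ‖Fi h' x‖ₑ ^ (2 * m - 2) ≤
    ENNReal.ofReal (C * (n : ℝ) ^ (2 * (1 - 1 / (m : ℝ)) - δ)) * (Nm m (Fi h)) ^ (1 / (m : ℝ)) *
      (Nm m (Fi h')) ^ (1 - 1 / (m : ℝ))

/-- PGL: interpolation for families of convolution operators -/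
def S_PGL : Prop := ∀ (m : ℕ) (C : ℝ), 1 ≤ m → 0 ≤ C → ∃ C' : ℝ, 0 ≤ C' ∧ ∀ (L : ℕ) (G : ℕ → ℂ → ℂ),
  (∀ i, i < L → Continuous (G i) ∧ Integrable (G i) ∧ ∫ x, ‖G i x‖ ≤ C) →
  (∀ g, Nic2 g →
    (∑ i ∈ Finset.range L, (∫⁻ x, ‖∫ z, G i (x - z) * g z‖ₑ ^ 2)) ≤ ENNReal.ofReal C * ∫⁻ x, ‖g x‖ₑ ^ 2) →
  ∀ f, Nic2 f →
    (∑ i ∈ Finset.range L, Nm m (fun x => ∫ z, G i (x - z) * f z)) ≤ ENNReal.ofReal C' * Nm m f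

/-- SPL: splitting into separated windows and a small rest -/
def S_SPL : Prop := ∀ (m : ℕ) (K κ : ℝ), 1 ≤ m → 0 < K → 0 < κ → ∃ (τ C : ℝ) (M n₀ : ℕ), 0 < τ ∧ 0 < C ∧
  ∀ (n : ℕ) (h : ℂ → ℂ), n₀ ≤ n → Bd 1 ((n : ℝ) ^ K) h →
  ∃ (H : ℕ → ℂ → ℂ) (a b : ℕ → ℝ) (g : ℂ → ℂ),
    (∀ ξ, h ξ = g ξ + ∑ k ∈ Finset.range M, H k ξ) ∧ Bd 1 ((n : ℝ) ^ K) g ∧
    Nm m (Fi g) ≤ ENNReal.ofReal (κ ^ (2 * m)) * Nm m (Fi h) ∧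
    ∀ k, k < M → Bd 1 ((n : ℝ) ^ K) (H k) ∧ Bd (a k) (b k) (H k) ∧ 0 < a k ∧ a k ≤ b k ∧
      b k ≤ a k * (n : ℝ) ^ (1 / 50 : ℝ) ∧ b k * (n : ℝ) ^ τ ≤ a (k + 1) ∧
      Nm m (Fi (H k)) ≤ ENNReal.ofReal (C ^ (2 * m)) * Nm m (Fi h)

/-- FNT: a finite bound -/
def S_FNT : Prop := ∀ (m n : ℕ) (a b : ℝ), 1 ≤ m → 1 ≤ n → 0 < a → ∃ C : ℝ, 0 ≤ C ∧ ∀ h, Bd a b h →
  Nm m (Fi (Tn n h)) ≤ ENNReal.ofReal C * Nm m (Fi h)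

/-- KTH: the sharp asymptotic bound for functions with spectrum in `1 ≤ ‖ξ‖ ≤ n ^ K` -/
def S_KTH : Prop := ∀ (m : ℕ) (K ε : ℝ), 2 ≤ m → 0 < K → 0 < ε → ∃ n₀ : ℕ, ∀ n : ℕ, n₀ ≤ n →
  ∀ h, Bd 1 ((n : ℝ) ^ K) h →
    Nm m (Fi (Tn n h)) ≤ ENNReal.ofReal (((1 + ε) * AA m n) ^ (2 * m)) * Nm m (Fi h)

/-- the operator of the frozen statements -/
noncomputable def TS (n : ℕ) (f : SchwartzMap ℂ ℂ) (z : ℂ) : ℂ :=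
  ∫ ξ : ℂ, Complex.exp (2 * (Real.pi : ℂ) * Complex.I * ((z.re * ξ.re + z.im * ξ.im : ℝ) : ℂ)) *
    ((starRingEnd ℂ ξ / ξ) ^ n *
      ∫ w : ℂ, Complex.exp (-(2 * (Real.pi : ℂ) * Complex.I *
        ((w.re * ξ.re + w.im * ξ.im : ℝ) : ℂ))) * f w)

/-- Schwartz functions with spectrum in `lam ≤ ‖ξ‖ ≤ lam * t` -/
def Spec (lam t : ℝ) (f : SchwartzMap ℂ ℂ) : Prop := ∀ ξ : ℂ,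
  (∫ w : ℂ, Complex.exp (-(2 * (Real.pi : ℂ) * Complex.I *
    ((w.re * ξ.re + w.im * ξ.im : ℝ) : ℂ))) * f w) ≠ 0 → lam ≤ ‖ξ‖ ∧ ‖ξ‖ ≤ lam * t

/-- WRA: final theorem for `MP_dd244f_an` -/
def S_WRA : Prop := ∀ (m : ℕ) (K ε : ℝ), 2 ≤ m → 0 < K → 0 < ε → ∃ n₀ : ℕ, ∀ n : ℕ, n₀ ≤ n →
  ∀ (lam : ℝ) (f : SchwartzMap ℂ ℂ), 0 < lam → Spec lam ((n : ℝ) ^ K) f →
    eLpNorm (TS n f) (ENNReal.ofReal (2 * m)) volume ≤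
      ENNReal.ofReal ((1 + ε) * ∏ j ∈ Finset.range n, ((1 - 1 / (2 * (m : ℝ)) + j) / (1 / (2 * (m : ℝ)) + j))) *
        eLpNorm (fun z : ℂ => f z) (ENNReal.ofReal (2 * m)) volume

/-- WRB: final theorem for `MP_3dd6d4_an` -/
def S_WRB : Prop := ∀ (m : ℕ) (K : ℝ), 2 ≤ m → 0 < K → ∃ n₀ : ℕ, ∀ n : ℕ, n₀ ≤ n →
  ∀ (lam : ℝ) (f : SchwartzMap ℂ ℂ), 0 < lam → Spec lam ((n : ℝ) ^ K) f →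
    eLpNorm (TS n f) (ENNReal.ofReal (2 * m)) volume ≤
      ENNReal.ofReal ((n : ℝ) ^ (1 - 2 / (2 * (m : ℝ))) * (2 * (m : ℝ) - 1)) *
        eLpNorm (fun z : ℂ => f z) (ENNReal.ofReal (2 * m)) volume

end Pool.Agent.N892.BW
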