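import Mathlib
import Pool.Agent.N892.BW.Stm
import Pool.Agent.N892.BW.Stm2

/-!
Powers of the Beurling transform, third part: all functions (no condition on the spectrum).
Statements of the parts of the proof.
-/

set_option autoImplicit false

open MeasureTheory ENNReal Filter Topology Complex
open scoped ComplexConjugate ContDiff

namespace Pool.Agent.N892.BW

/-- maximal function of Hardy and Littlewood (centred discs) -/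
noncomputable def mx (w : ℂ → ℝ≥0∞) (x : ℂ) : ℝ≥0∞ := ⨆ r : {r : ℝ // 0 < r}, av r w x

/-- the kernel `β² (1 + β ‖x‖) ^ (-4)` -/
noncomputable def PP (β : ℝ) (x : ℂ) : ℝ≥0∞ := ENNReal.ofReal (β ^ 2 * ((1 + β * ‖x‖) ^ 4)⁻¹)

/-- a fixed bump function: `1` on the unit disc, `0` for `2 ≤ ‖ξ‖` -/
noncomputable def thb : ContDiffBump (0 : ℂ) := ⟨1, 2, zero_lt_one, one_lt_two⟩

/-- low-pass symbol: `1` for `‖ξ‖ ≤ β`, `0` for `2 β ≤ ‖ξ‖` -/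
noncomputable def lp (β : ℝ) (ξ : ℂ) : ℂ := ((thb (((β⁻¹ : ℝ) : ℂ) * ξ) : ℝ) : ℂ)

/-- band-pass symbol -/
noncomputable def bp (β : ℕ → ℝ) (i : ℕ) (ξ : ℂ) : ℂ := lp (β (i + 1)) ξ - lp (β i) ξ

/-- separated families of windows -/
def Sep (m M : ℕ) (a b : ℕ → ℝ) (H : ℕ → ℂ → ℂ) : Prop :=
  ∀ k, k < M → 0 < a k ∧ a k ≤ b k ∧ Bd (a k) (b k) (H k) ∧ 4 * (m : ℝ) * b k ≤ a (k + 1)

/-- sums of the first symbols -/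
noncomputable def sm (H : ℕ → ℂ → ℂ) (k : ℕ) (ξ : ℂ) : ℂ := ∑ j ∈ Finset.range k, H j ξ

/-- the integral of the power `m` of the square function -/
noncomputable def Sq (m M : ℕ) (H : ℕ → ℂ → ℂ) : ℝ≥0∞ :=
  ∫⁻ x, (∑ k ∈ Finset.range M, ‖Fi (H k) x‖ₑ ^ 2) ^ m

/-- HLM: the maximal theorem -/
def S_HLM : Prop := ∀ q : ℝ, 1 < q → ∃ C : ℝ, 0 ≤ C ∧ ∀ w : ℂ → ℝ≥0∞, Measurable w →
  Measurable (mx w) ∧ ∫⁻ x, mx w x ^ q ≤ ENNReal.ofReal C * ∫⁻ x, w x ^ q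

/-- RDM: convolution with a radially decreasing kernel -/
def S_RDM : Prop := ∃ C : ℝ, 0 ≤ C ∧ ∀ (β : ℝ) (w : ℂ → ℝ≥0∞) (x : ℂ), 0 < β → Measurable w →
  cv (PP β) w x ≤ ENNReal.ofReal C * mx w x

/-- DMX: the dual form -/
def S_DMX : Prop := ∀ m : ℕ, 1 ≤ m → ∃ C : ℝ, 0 < C ∧ ∀ (L : ℕ) (β : ℕ → ℝ) (g : ℕ → ℂ → ℝ≥0∞),
  (∀ i, 0 < β i) → (∀ i, Measurable (g i)) →
  ∫⁻ x, (∑ i ∈ Finset.range L, cv (PP (β i)) (g i) x) ^ m ≤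
    ENNReal.ofReal C * ∫⁻ x, (∑ i ∈ Finset.range L, g i x) ^ m

/-- MAJ: pointwise bounds for band-limited functions -/
def S_MAJ : Prop := ∃ C : ℝ, 0 ≤ C ∧ ∀ (b : ℝ) (h : ℂ → ℂ) (x y : ℂ), 0 < b → Bd 0 b h →
  ‖Fi h (x + y)‖ₑ ≤ ENNReal.ofReal (C * (1 + b * ‖y‖) ^ 4) * cv (PP b) (fun z => ‖Fi h z‖ₑ) x ∧
  ‖Fi h (x + y) - Fi h x‖ₑ ≤
    ENNReal.ofReal (C * (b * ‖y‖) * (1 + b * ‖y‖) ^ 4) * cv (PP b) (fun z => ‖Fi h z‖ₑ) x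

/-- LOW: the low frequency part is bounded by the maximal function -/
def S_LOW : Prop := ∃ C : ℝ, 0 ≤ C ∧ ∀ (b b' : ℝ) (h₁ h₂ : ℂ → ℂ) (x y : ℂ), 0 < b → Bd 0 b h₁ →
  Bd (2 * b) b' h₂ →
  ‖Fi h₁ (x + y)‖ₑ ≤ ENNReal.ofReal (C * (1 + b * ‖y‖) ^ 4) *
    mx (fun z => ‖Fi (fun ξ => h₁ ξ + h₂ ξ) z‖ₑ) x

/-- WLT: square functions in the mean with slowly varying weights -/
def S_WLT : Prop := ∀ (N : ℕ) (K₀ : ℝ), 0 ≤ K₀ → ∃ C : ℝ, 0 ≤ C ∧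
  ∀ (β₀ : ℝ) (L : ℕ) (β : ℕ → ℝ) (V : ℂ → ℝ≥0∞) (b : ℝ) (h : ℂ → ℂ), 0 < β₀ → β₀ ≤ β 0 →
  (∀ i, 2 * β i ≤ β (i + 1)) → Measurable V →
  (∀ x y, V (x + y) ≤ ENNReal.ofReal (K₀ * (1 + β₀ * ‖y‖) ^ N) * V x) → Bd 0 b h →
  (∑ i ∈ Finset.range L, (∫⁻ x, ‖Fi (fun ξ => bp β i ξ * h ξ) x‖ₑ ^ 2 * V x)) ≤
    ENNReal.ofReal C * ∫⁻ x, ‖Fi h x‖ₑ ^ 2 * V x

/-- LPS: the square function inequality of Littlewood and Paley, even exponents -/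
def S_LPS : Prop := ∀ m : ℕ, 1 ≤ m → ∃ C : ℝ, 0 ≤ C ∧ ∀ (L : ℕ) (β : ℕ → ℝ) (b : ℝ) (h : ℂ → ℂ),
  0 < β 0 → (∀ i, 2 * β i ≤ β (i + 1)) → Bd 0 b h →
  ∫⁻ x, (∑ i ∈ Finset.range L, ‖Fi (fun ξ => bp β i ξ * h ξ) x‖ₑ ^ 2) ^ m ≤
    ENNReal.ofReal C * Nm m (Fi h)

/-- LPF: the same for separated families -/
def S_LPF : Prop := ∀ m : ℕ, 1 ≤ m → ∃ C : ℝ, 0 ≤ C ∧ ∀ (M : ℕ) (a b : ℕ → ℝ) (H : ℕ → ℂ → ℂ),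
  Sep m M a b H → Sq m M H ≤ ENNReal.ofReal C * Nm m (Fi (sm H M))

/-- REV: the reverse inequality for separated families -/
def S_REV : Prop := ∀ m : ℕ, 1 ≤ m → ∃ C : ℝ, 0 ≤ C ∧ ∀ (M : ℕ) (a b : ℕ → ℝ) (H : ℕ → ℂ → ℂ),
  Sep m M a b H → Nm m (Fi (sm H M)) ≤ ENNReal.ofReal C * Sq m M H

/-- GWT: gain for averages, with weights -/
def S_GWT : Prop := ∀ σ t : ℝ, 0 < σ → 1 ≤ t → ∃ C : ℝ, 0 ≤ C ∧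
  ∀ (n : ℕ) (a b ρ : ℝ) (h : ℂ → ℂ) (w : ℂ → ℝ≥0∞),
  1 ≤ n → 0 < a → a ≤ b → b ≤ a * n → 1 / a ≤ ρ → ρ ≤ (n : ℝ) ^ (1 + σ) / a → Bd a b h → Measurable w →
  ∫⁻ x, av ρ (fun z => ‖Fi (Tn n h) z‖ₑ ^ 2) x * w x ≤
    ENNReal.ofReal (C * ((n : ℝ) ^ (1 + σ) / (a * ρ)) ^ (2 / t)) *
      ∫⁻ x, ‖Fi h x‖ₑ ^ 2 * (mx (fun z => w z ^ t) x) ^ (1 / t)

/-- GSM: gain for averages, for square functions -/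
def S_GSM : Prop := ∀ (m : ℕ) (τ : ℝ), 2 ≤ m → 0 < τ → τ ≤ 1 → ∃ δ C : ℝ, 0 < δ ∧ 0 ≤ C ∧
  ∀ (n M : ℕ) (a b : ℕ → ℝ) (H : ℕ → ℂ → ℂ), 1 ≤ n →
  (∀ k, k < M → 0 < a k ∧ a k ≤ b k ∧ b k ≤ a k * n ∧ Bd (a k) (b k) (H k)) →
  ∫⁻ x, (∑ k ∈ Finset.range M, av ((n : ℝ) ^ (τ / 2) / a k) (fun z => ‖Fi (Tn n (H k)) z‖ₑ ^ 2) x) ^ m ≤
    ENNReal.ofReal ((C * (n : ℝ) ^ (2 * (1 - 1 / (m : ℝ)) - δ)) ^ m) * Sq m M H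

/-- INR: all interactions are small -/
def S_INR : Prop := ∀ (m : ℕ) (τ : ℝ), 2 ≤ m → 0 < τ → τ ≤ 1 → ∃ δ C : ℝ, 0 < δ ∧ 0 ≤ C ∧
  ∀ (n M : ℕ) (a b : ℕ → ℝ) (H : ℕ → ℂ → ℂ), 1 ≤ n → Sep m M a b H →
  (∀ k, k < M → b k ≤ a k * n ∧ b k * (n : ℝ) ^ τ ≤ a (k + 1)) →
  (∑ k ∈ Finset.range M,
      (∫⁻ x, ‖Fi (Tn n (H k)) x‖ₑ ^ 2 * ‖Fi (Tn n (sm H k)) x‖ₑ ^ (2 * m - 2))) ≤
    ENNReal.ofReal (C * (n : ℝ) ^ (2 * (1 - 1 / (m : ℝ)) - δ)) * (Sq m M H) ^ (1 / (m : ℝ)) *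
      (Nm m (Fi (Tn n (sm H M)))) ^ (1 - 1 / (m : ℝ))

/-- SUQ: lower energy inequality for separated families -/
def S_SUQ : Prop := ∃ χ' : ℂ → ℝ, Den χ' ∧ ∀ m : ℕ, 1 ≤ m → ∃ C : ℝ, 0 ≤ C ∧
  ∀ (M : ℕ) (a b ρ : ℕ → ℝ) (H : ℕ → ℂ → ℂ) (η : ℝ), 0 ≤ η → η ≤ 1 → Sep m M a b H →
  (∀ k, 0 < ρ k) → 1 / ρ 0 < a 0 →
  (∀ k, k + 1 < M → ρ (k + 1) * b k ≤ η ∧ b k + 1 / ρ (k + 1) < a (k + 1)) →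
  (∑ k ∈ Finset.range M, Ls m χ' (ρ k) (Fi (H k))) ≤ ENNReal.ofReal (1 + C * η) * Nm m (Fi (sm H M))

/-- SPT: splitting into separated windows and a small rest, any number of windows -/
def S_SPT : Prop := ∀ (m : ℕ) (κ : ℝ), 2 ≤ m → 0 < κ → ∃ (τ : ℝ) (n₀ : ℕ), 0 < τ ∧ τ ≤ 1 / 10 ∧
  ∀ (n : ℕ) (lam : ℝ) (h : ℂ → ℂ), n₀ ≤ n → Bd 1 lam h →
  ∃ (M : ℕ) (H : ℕ → ℂ → ℂ) (a b : ℕ → ℝ) (g : ℂ → ℂ),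
    (∀ ξ, h ξ = g ξ + sm H M ξ) ∧ Bd 1 lam g ∧
    Nm m (Fi g) ≤ ENNReal.ofReal (κ ^ (2 * m)) * Nm m (Fi h) ∧ Sep m M a b H ∧
    ∀ k, k < M → Bd 1 lam (H k) ∧ b k ≤ a k * (n : ℝ) ^ (1 / 50 : ℝ) ∧ b k * (n : ℝ) ^ τ ≤ a (k + 1)

/-- FTH: the sharp asymptotic bound for functions with spectrum in an arbitrary annulus -/
def S_FTH : Prop := ∀ (m : ℕ) (ε : ℝ), 2 ≤ m → 0 < ε → ∃ n₀ : ℕ, ∀ (n : ℕ) (lam : ℝ), n₀ ≤ n →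
  ∀ h, Bd 1 lam h →
    Nm m (Fi (Tn n h)) ≤ ENNReal.ofReal (((1 + ε) * AA m n) ^ (2 * m)) * Nm m (Fi h)

/-- FUL: final theorem for `MP_dd244f_an` -/
def S_FUL : Prop := ∀ (m : ℕ) (ε : ℝ), 2 ≤ m → 0 < ε → ∃ n₀ : ℕ, ∀ n : ℕ, n₀ ≤ n →
  ∀ f : SchwartzMap ℂ ℂ,
    eLpNorm (TS n f) (ENNReal.ofReal (2 * m)) volume ≤
      ENNReal.ofReal ((1 + ε) * ∏ j ∈ Finset.range n, ((1 - 1 / (2 * (m : ℝ)) + j) / (1 / (2 * (m : ℝ)) + j))) *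
        eLpNorm (fun z : ℂ => f z) (ENNReal.ofReal (2 * m)) volume

/-- FUB: final theorem for `MP_3dd6d4_an` -/
def S_FUB : Prop := ∀ m : ℕ, 2 ≤ m → ∃ n₀ : ℕ, ∀ n : ℕ, n₀ ≤ n → ∀ f : SchwartzMap ℂ ℂ,
    eLpNorm (TS n f) (ENNReal.ofReal (2 * m)) volume ≤
      ENNReal.ofReal ((n : ℝ) ^ (1 - 2 / (2 * (m : ℝ))) * (2 * (m : ℝ) - 1)) *
        eLpNorm (fun z : ℂ => f z) (ENNReal.ofReal (2 * m)) volume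

end Pool.Agent.N892.BW
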