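import Mathlib
import Pool.Agent.N892.BW.Stm
import Pool.Agent.N892.BW.Stm2
import Pool.Agent.N892.BW.Stm3

/-!
Powers of the Beurling transform, fourth part: real exponents by interpolation. Statements.
-/

set_option autoImplicit false

open MeasureTheory ENNReal Filter Topology Complex

namespace Pool.Agent.N892.BW

/-- the constant of the question as a function of `s = 1/p` -/
noncomputable def Qn (n : ℕ) (s : ℝ) : ℝ := ∏ j ∈ Finset.range n, ((1 - s + j) / (s + j))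

/-- `Γ(s) / Γ(1-s)` -/
noncomputable def Gs (s : ℝ) : ℝ := Real.Gamma s / Real.Gamma (1 - s)

/-- AMG: the constants are nearly log-concave from above -/
def S_AMG : Prop := ∀ (n : ℕ) (s₀ s₁ θ : ℝ), 0 < s₁ → s₁ ≤ s₀ → s₀ ≤ 1 / 2 → 0 ≤ θ → θ ≤ 1 →
  Qn n s₀ ^ (1 - θ) * Qn n s₁ ^ θ ≤
    Qn n ((1 - θ) * s₀ + θ * s₁) * (((1 - θ) * s₀ + θ * s₁) / (s₀ ^ (1 - θ) * s₁ ^ θ))

/-- ASR: asymptotics of the constants, real exponents -/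
def S_ASR : Prop := ∀ s : ℝ, 0 < s → s < 1 →
  Tendsto (fun n : ℕ => (n : ℝ) ^ (1 - 2 * s) * Gs s / Qn n s) atTop (𝓝 1)

/-- GLC: the limiting inequality -/
def S_GLC : Prop := ∀ s₀ s₁ θ : ℝ, 0 < s₁ → s₁ ≤ s₀ → s₀ ≤ 1 / 2 → 0 ≤ θ → θ ≤ 1 →
  Gs s₀ ^ (1 - θ) * Gs s₁ ^ θ ≤
    Gs ((1 - θ) * s₀ + θ * s₁) * (((1 - θ) * s₀ + θ * s₁) / (s₀ ^ (1 - θ) * s₁ ^ θ))

/-- HOE: arithmetic and geometric means (Hoeffding) -/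
def S_HOE : Prop := ∀ r t : ℝ, 1 ≤ r → 0 ≤ t → t ≤ 1 →
  1 + t * (r - 1) ≤ r ^ t * Real.exp (Real.log r ^ 2 / 8)

/-- NUI: numerical inequality for the weaker conjecture -/
def S_NUI : Prop := ∀ p : ℝ, ((77 / 20 ≤ p ∧ p ≤ 43 / 10) ∨ 11 / 2 ≤ p) →
  ∃ (m : ℕ) (θ : ℝ), 1 ≤ m ∧ 0 ≤ θ ∧ θ ≤ 1 ∧ 1 / p = (1 - θ) / (2 * m) + θ / (2 * (m + 1)) ∧
    GA m ^ (1 - θ) * GA (m + 1) ^ θ < p - 1

/-- PLZ: the case `p = 2` -/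
def S_PLZ : Prop := ∀ (n : ℕ) (f : SchwartzMap ℂ ℂ),
  eLpNorm (TS n f) (ENNReal.ofReal 2) volume ≤ eLpNorm (fun z : ℂ => f z) (ENNReal.ofReal 2) volume

/-- RTT: interpolation of Riesz and Thorin for `T ^ n` on Schwartz functions -/
def S_RTT : Prop := ∀ (n : ℕ) (p₀ p₁ p θ K₀ K₁ : ℝ), 2 ≤ p₀ → p₀ < p₁ → 0 ≤ θ → θ ≤ 1 →
  1 / p = (1 - θ) / p₀ + θ / p₁ → 0 < K₀ → 0 < K₁ →
  (∀ f : SchwartzMap ℂ ℂ, eLpNorm (TS n f) (ENNReal.ofReal p₀) volume ≤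
    ENNReal.ofReal K₀ * eLpNorm (fun z : ℂ => f z) (ENNReal.ofReal p₀) volume) →
  (∀ f : SchwartzMap ℂ ℂ, eLpNorm (TS n f) (ENNReal.ofReal p₁) volume ≤
    ENNReal.ofReal K₁ * eLpNorm (fun z : ℂ => f z) (ENNReal.ofReal p₁) volume) →
  ∀ f : SchwartzMap ℂ ℂ, eLpNorm (TS n f) (ENNReal.ofReal p) volume ≤
    ENNReal.ofReal (K₀ ^ (1 - θ) * K₁ ^ θ) * eLpNorm (fun z : ℂ => f z) (ENNReal.ofReal p) volume

/-- REA: real exponents, `MP_dd244f_an` -/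
def S_REA : Prop := ∀ p ε : ℝ, 2 ≤ p → 0 < ε → ∃ n₀ : ℕ, ∀ n : ℕ, n₀ ≤ n → ∀ f : SchwartzMap ℂ ℂ,
  eLpNorm (TS n f) (ENNReal.ofReal p) volume ≤
    ENNReal.ofReal ((1 + ε) * Real.exp (Real.log (1 + 1 / (⌊p / 2⌋₊ : ℝ)) ^ 2 / 8) *
      ∏ j ∈ Finset.range n, ((1 - 1 / p + j) / (1 / p + j))) *
      eLpNorm (fun z : ℂ => f z) (ENNReal.ofReal p) volume

/-- REB: real exponents, `MP_3dd6d4_an` -/
def S_REB : Prop := ∀ p : ℝ, ((77 / 20 ≤ p ∧ p ≤ 43 / 10) ∨ 11 / 2 ≤ p) → ∃ n₀ : ℕ, ∀ n : ℕ, n₀ ≤ n →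
  ∀ f : SchwartzMap ℂ ℂ,
    eLpNorm (TS n f) (ENNReal.ofReal p) volume ≤
      ENNReal.ofReal ((n : ℝ) ^ (1 - 2 / p) * (p - 1)) *
        eLpNorm (fun z : ℂ => f z) (ENNReal.ofReal p) volume

/-- LWB: the lower bound, all `p ≥ 2` and all `n ≥ 1` -/
def S_LWB : Prop := ∀ (n : ℕ) (p c : ℝ), 1 ≤ n → 2 ≤ p → 0 ≤ c →
  (∀ f : SchwartzMap ℂ ℂ, eLpNorm (TS n f) (ENNReal.ofReal p) volume ≤
    ENNReal.ofReal c * eLpNorm (fun z : ℂ => f z) (ENNReal.ofReal p) volume) →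
  ∏ j ∈ Finset.range n, ((1 - 1 / p + j) / (1 / p + j)) ≤ c

end Pool.Agent.N892.BW
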