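import Mathlib
import Pool.Agent.N892.BW.Stm4

set_option autoImplicit false

open Set

namespace Pool.Agent.N892.BW.AMG

/-- the interval -/
def D : Set ℝ := Set.Ioc 0 (1 / 2)

lemma D_convex : Convex ℝ D := convex_Ioc 0 (1 / 2)

lemma D_int : interior D = Set.Ioo 0 (1 / 2) := interior_Ioc

lemma conc_top (c : ℝ) (hc : 1 ≤ c) : ConcaveOn ℝ D (fun s : ℝ => Real.log (c - s)) := by
  have hd : ∀ s ∈ D, HasDerivAt (fun s : ℝ => Real.log (c - s)) (-1 / (c - s)) s := by
    intro s hs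
    have h1 : HasDerivAt (fun s : ℝ => c - s) (-1) s := by
      simpa using (hasDerivAt_id s).const_sub c
    exact h1.log (by have := hs.2; linarith)
  have hsub : ∀ s ∈ Set.Ioo (0 : ℝ) (1 / 2), s ∈ D := fun s hs => ⟨hs.1, hs.2.le⟩
  refine AntitoneOn.concaveOn_of_deriv D_convex (fun s hs => (hd s hs).continuousAt.continuousWithinAt) ?_ ?_
  · rw [D_int]
    exact fun s hs => (hd s (hsub s hs)).differentiableAt.differentiableWithinAt
  · rw [D_int]
    intro x hx y hy hxy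
    rw [(hd x (hsub x hx)).deriv, (hd y (hsub y hy)).deriv]
    have h1 : 0 < c - y := by linarith [hy.2]
    have h2 : 0 < c - x := by linarith
    rw [div_le_div_iff₀ h1 h2]
    linarith

lemma conc_pair (c : ℝ) (hc : 1 ≤ c) : ConcaveOn ℝ D (fun s : ℝ => Real.log (c - s) - Real.log (c + s)) := by
  have hd : ∀ s ∈ D, HasDerivAt (fun s : ℝ => Real.log (c - s) - Real.log (c + s))
      (-1 / (c - s) - 1 / (c + s)) s := by
    intro s hs
    have h1 : HasDerivAt (fun s : ℝ => c - s) (-1) s := by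
      simpa using (hasDerivAt_id s).const_sub c
    have h2 : HasDerivAt (fun s : ℝ => c + s) 1 s := by
      simpa using (hasDerivAt_id s).const_add c
    exact (h1.log (by have := hs.2; linarith)).sub (h2.log (by have := hs.1; linarith))
  have hsub : ∀ s ∈ Set.Ioo (0 : ℝ) (1 / 2), s ∈ D := fun s hs => ⟨hs.1, hs.2.le⟩
  refine AntitoneOn.concaveOn_of_deriv D_convex (fun s hs => (hd s hs).continuousAt.continuousWithinAt) ?_ ?_
  · rw [D_int]
    exact fun s hs => (hd s (hsub s hs)).differentiableAt.differentiableWithinAt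
  · rw [D_int]
    intro x hx y hy hxy
    rw [(hd x (hsub x hx)).deriv, (hd y (hsub y hy)).deriv]
    have hx0 := hx.1
    have hy2 := hy.2
    have e : ∀ s : ℝ, 0 < c - s → 0 < c + s → -1 / (c - s) - 1 / (c + s) = -(2 * c) / ((c - s) * (c + s)) := by
      intro s h1 h2
      field_simp
      ring
    have a1 : 0 < c - x := by linarith
    have a2 : 0 < c + x := by linarith
    have b1 : 0 < c - y := by linarith
    have b2 : 0 < c + y := by linarith
    rw [e x a1 a2, e y b1 b2, div_le_div_iff₀ (mul_pos b1 b2) (mul_pos a1 a2)]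
    have h3 : (c - y) * (c + y) ≤ (c - x) * (c + x) := by nlinarith
    have h4 : 0 ≤ 2 * c := by linarith
    nlinarith

lemma conc_sum (m : ℕ) : ConcaveOn ℝ D (fun s : ℝ => Real.log (((m : ℝ) + 1) - s) +
    ∑ j ∈ Finset.range m, (Real.log (((j : ℝ) + 1) - s) - Real.log (((j : ℝ) + 1) + s))) := by
  refine (conc_top ((m : ℝ) + 1) (by have : (0 : ℝ) ≤ m := Nat.cast_nonneg m; linarith)).add ?_
  induction m with
  | zero =>
    simp only [Finset.range_zero, Finset.sum_empty]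
    exact concaveOn_const 0 D_convex
  | succ m ih =>
    simp only [Finset.sum_range_succ]
    exact ih.add (conc_pair ((m : ℝ) + 1) (by have : (0 : ℝ) ≤ m := Nat.cast_nonneg m; linarith))

lemma Qn_pos (n : ℕ) (s : ℝ) (hs : s ∈ D) : 0 < Qn n s := by
  unfold Qn
  refine Finset.prod_pos fun j _ => ?_
  have hj : (0 : ℝ) ≤ j := Nat.cast_nonneg j
  have h1 := hs.1
  have h2 := hs.2
  exact div_pos (by linarith) (by linarith)

lemma Qn_mul (m : ℕ) (s : ℝ) (hs : s ∈ D) :
    Qn (m + 1) s * s = (((m : ℝ) + 1) - s) * ∏ j ∈ Finset.range m, ((((j : ℝ) + 1) - s) / (((j : ℝ) + 1) + s)) := by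
  have h1 := hs.1
  have h2 := hs.2
  unfold Qn
  rw [Finset.prod_div_distrib, Finset.prod_div_distrib, Finset.prod_range_succ, Finset.prod_range_succ' (fun j : ℕ => s + (j : ℝ))]
  have e1 : ∏ x ∈ Finset.range m, (1 - s + (x : ℝ)) = ∏ x ∈ Finset.range m, (((x : ℝ) + 1) - s) :=
    Finset.prod_congr rfl fun x _ => by ring
  have e2 : ∏ x ∈ Finset.range m, (s + ((x + 1 : ℕ) : ℝ)) = ∏ x ∈ Finset.range m, (((x : ℝ) + 1) + s) :=
    Finset.prod_congr rfl fun x _ => by push_cast; ring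
  rw [e1, e2]
  have h3 : 0 < ∏ x ∈ Finset.range m, (((x : ℝ) + 1) + s) :=
    Finset.prod_pos fun x _ => by have : (0 : ℝ) ≤ x := Nat.cast_nonneg x; linarith
  have h4 : s + ((0 : ℕ) : ℝ) = s := by simp
  rw [h4]
  field_simp
  ring

lemma conc (n : ℕ) : ConcaveOn ℝ D (fun s : ℝ => Real.log (Qn n s * s)) := by
  cases n with
  | zero =>
    have h1 : ConcaveOn ℝ D Real.log := strictConcaveOn_log_Ioi.concaveOn.subset (fun s hs => hs.1) D_convex
    refine h1.congr fun s hs => ?_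
    unfold Qn
    simp
  | succ m =>
    refine (conc_sum m).congr fun s hs => ?_
    have h1 := hs.1
    have h2 := hs.2
    simp only
    have hm : (0 : ℝ) ≤ m := Nat.cast_nonneg m
    have hpos : ∀ j ∈ Finset.range m, (0 : ℝ) < (((j : ℝ) + 1) - s) / (((j : ℝ) + 1) + s) := fun j _ => by
      have : (0 : ℝ) ≤ j := Nat.cast_nonneg j
      exact div_pos (by linarith) (by linarith)
    rw [Qn_mul m s hs, Real.log_mul (by linarith) (Finset.prod_pos hpos).ne', Real.log_prod (fun j hj => (hpos j hj).ne')]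
    congr 1
    refine Finset.sum_congr rfl fun j _ => ?_
    have : (0 : ℝ) ≤ j := Nat.cast_nonneg j
    rw [Real.log_div (by linarith) (by linarith)]

theorem t : Pool.Agent.N892.BW.S_AMG := by
  intro n s₀ s₁ θ h1 h10 h0 hθ0 hθ1
  have hs0 : s₀ ∈ D := ⟨by linarith, h0⟩
  have hs1 : s₁ ∈ D := ⟨h1, by linarith⟩
  have hs : (1 - θ) * s₀ + θ * s₁ ∈ D := by
    have := D_convex hs0 hs1 (show 0 ≤ 1 - θ by linarith) hθ0 (by ring)
    simpa [smul_eq_mul] using this
  have hF := (conc n).2 hs0 hs1 (show 0 ≤ 1 - θ by linarith) hθ0 (by ring)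
  simp only [smul_eq_mul] at hF
  set s := (1 - θ) * s₀ + θ * s₁ with hsdef
  have p0 : 0 < Qn n s₀ * s₀ := mul_pos (Qn_pos n s₀ hs0) hs0.1
  have p1 : 0 < Qn n s₁ * s₁ := mul_pos (Qn_pos n s₁ hs1) hs1.1
  have p : 0 < Qn n s * s := mul_pos (Qn_pos n s hs) hs.1
  have h2 : (Qn n s₀ * s₀) ^ (1 - θ) * (Qn n s₁ * s₁) ^ θ ≤ Qn n s * s := by
    rw [Real.rpow_def_of_pos p0, Real.rpow_def_of_pos p1, ← Real.exp_add]
    calc _ ≤ Real.exp (Real.log (Qn n s * s)) := Real.exp_le_exp.2 (by linarith)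
      _ = _ := Real.exp_log p
  rw [Real.mul_rpow (Qn_pos n s₀ hs0).le hs0.1.le, Real.mul_rpow (Qn_pos n s₁ hs1).le hs1.1.le] at h2
  have q0 : 0 < s₀ ^ (1 - θ) := Real.rpow_pos_of_pos hs0.1 _
  have q1 : 0 < s₁ ^ θ := Real.rpow_pos_of_pos hs1.1 _
  rw [← mul_div_assoc, le_div_iff₀ (mul_pos q0 q1)]
  refine le_trans (le_of_eq ?_) h2
  ring

end Pool.Agent.N892.BW.AMG
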