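import Pool.Agent.N892.BW.Stm

/-! # Project BW, part ASY (helper391): asymptotics of the Pochhammer ratio -/

set_option autoImplicit false

namespace Pool.Agent.N892.BW.ASY

open Filter Topology Pool.Agent.N892.BW

theorem prod_pos (s : ℝ) (hs : 0 < s) (n : ℕ) : 0 < ∏ j ∈ Finset.range (n + 1), (s + j) :=
  Finset.prod_pos fun j _ => by positivity

/-- the constant in terms of the Gamma sequences -/
theorem key (s : ℝ) (hs : 0 < s) (hs1 : s < 1) (n : ℕ) (hn : 0 < n) :
    (n : ℝ) ^ (1 - 2 * s) / (∏ j ∈ Finset.range (n + 1), ((1 - s + j) / (s + j))) =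
      Real.GammaSeq (1 - s) n / Real.GammaSeq s n := by
  have h1 := prod_pos s hs n
  have h2 := prod_pos (1 - s) (by linarith) n
  have hn0 : (0 : ℝ) < n := by exact_mod_cast hn
  have hf : (0 : ℝ) < (n.factorial : ℝ) := by exact_mod_cast Nat.factorial_pos n
  have h3 : (0 : ℝ) < (n : ℝ) ^ s := by positivity
  unfold Real.GammaSeq
  rw [Finset.prod_div_distrib]
  have h4 : (n : ℝ) ^ (1 - s) = (n : ℝ) ^ (1 - 2 * s) * (n : ℝ) ^ s := by
    rw [← Real.rpow_add hn0]
    congr 1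
    ring
  rw [h4]
  field_simp

theorem t : S_ASY := by
  intro m hm
  set s : ℝ := 1 / (2 * (m : ℝ)) with hs
  have hm2 : (2 : ℝ) ≤ m := by exact_mod_cast hm
  have hs0 : 0 < s := by positivity
  have hs1 : s < 1 := by
    rw [hs, div_lt_one (by positivity)]
    linarith
  have he : 1 - 1 / (m : ℝ) = 1 - 2 * s := by
    rw [hs]
    field_simp
  rw [← tendsto_add_atTop_iff_nat 1]
  have hG1 : 0 < Real.Gamma s := Real.Gamma_pos_of_pos hs0
  have hG2 : 0 < Real.Gamma (1 - s) := Real.Gamma_pos_of_pos (by linarith)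
  have h1 : Tendsto (fun n : ℕ => Real.GammaSeq (1 - s) n / Real.GammaSeq s n) atTop
      (𝓝 (Real.Gamma (1 - s) / Real.Gamma s)) :=
    (Real.GammaSeq_tendsto_Gamma (1 - s)).div (Real.GammaSeq_tendsto_Gamma s) hG1.ne'
  have h2 : Tendsto (fun n : ℕ => (1 + 1 / (n : ℝ)) ^ (1 - 2 * s)) atTop (𝓝 1) := by
    have h3 : Tendsto (fun n : ℕ => 1 + 1 / (n : ℝ)) atTop (𝓝 (1 + 0)) :=
      tendsto_const_nhds.add (tendsto_const_div_atTop_nhds_zero_nat 1)
    rw [add_zero] at h3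
    have h4 := h3.rpow_const (p := 1 - 2 * s) (Or.inl one_ne_zero)
    rwa [Real.one_rpow] at h4
  have h5 := (h2.mul_const (GA m)).mul h1
  have h6 : 1 * GA m * (Real.Gamma (1 - s) / Real.Gamma s) = 1 := by
    unfold GA
    rw [← hs]
    field_simp
  rw [h6] at h5
  refine h5.congr' ?_
  filter_upwards [eventually_gt_atTop 0] with n hn
  have hn0 : (0 : ℝ) < n := by exact_mod_cast hn
  rw [← key s hs0 hs1 n hn]
  unfold AA Cn
  rw [he]
  have h7 : ((n + 1 : ℕ) : ℝ) ^ (1 - 2 * s) =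
      (1 + 1 / (n : ℝ)) ^ (1 - 2 * s) * (n : ℝ) ^ (1 - 2 * s) := by
    rw [← Real.mul_rpow (by positivity) hn0.le]
    congr 1
    push_cast
    field_simp
  rw [h7, ← hs]
  ring

end Pool.Agent.N892.BW.ASY
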