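import Pool.Agent.N892.BW.Stm4
import Pool.Agent.N892.BW.ASY

/-! # Project BW4, part ASR (helper776): asymptotics of the constants, real exponents -/

set_option autoImplicit false

namespace Pool.Agent.N892.BW.ASR

open Filter Topology Pool.Agent.N892.BW

theorem t : Pool.Agent.N892.BW.S_ASR := by
  intro s hs0 hs1
  rw [← tendsto_add_atTop_iff_nat 1]
  have hG1 : 0 < Real.Gamma s := Real.Gamma_pos_of_pos hs0
  have hG2 : 0 < Real.Gamma (1 - s) := Real.Gamma_pos_of_pos (by linarith)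
  have h1 : Tendsto (fun n : ℕ => Real.GammaSeq (1 - s) n / Real.GammaSeq s n) atTop
      (𝓝 (Real.Gamma (1 - s) / Real.Gamma s)) :=
    (Real.GammaSeq_tendsto_Gamma (1 - s)).div (Real.GammaSeq_tendsto_Gamma s) hG1.ne'
  have h2 : Tendsto (fun n : ℕ => (1 + 1 / (n : ℝ)) ^ (1 - 2 * s)) atTop (𝓝 1) := by
    have h3 : Tendsto (fun n : ℕ => 1 + 1 / (n : ℝ)) atTop (𝓝 (1 + 0)) :=
      tendsto_const_nhds.add (tendsto_const_div_atTop_nhds_zero_nat 1)
    rw [add_zero] at h3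
    have h4 := h3.rpow_const (p := 1 - 2 * s) (Or.inl one_ne_zero)
    rwa [Real.one_rpow] at h4
  have h5 := (h2.mul_const (Gs s)).mul h1
  have h6 : 1 * Gs s * (Real.Gamma (1 - s) / Real.Gamma s) = 1 := by
    unfold Gs
    field_simp
  rw [h6] at h5
  refine h5.congr' ?_
  filter_upwards [eventually_gt_atTop 0] with n hn
  have hn0 : (0 : ℝ) < n := by exact_mod_cast hn
  rw [← ASY.key s hs0 hs1 n hn]
  unfold Qn
  have h7 : ((n + 1 : ℕ) : ℝ) ^ (1 - 2 * s) =
      (1 + 1 / (n : ℝ)) ^ (1 - 2 * s) * (n : ℝ) ^ (1 - 2 * s) := by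
    rw [← Real.mul_rpow (by positivity) hn0.le]
    congr 1
    push_cast
    field_simp
  rw [h7]
  ring

end Pool.Agent.N892.BW.ASR
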