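import Pool.Agent.N892.BW.Stm2

/-!
# Comparison of local averages (helper439)
-/

set_option autoImplicit false

open MeasureTheory ENNReal Filter Topology Complex
open scoped ComplexConjugate ContDiff

namespace Pool.Agent.N892.BW.CMP

/-! ### Inequality of Young -/

theorem hold {α : Type*} [MeasurableSpace α] (ν : Measure α) {g : α → ℝ≥0∞}
    (hg : AEMeasurable g ν) (m : ℕ) (hm : 1 ≤ m) :
    (∫⁻ y, g y ∂ν) ^ m ≤ (ν Set.univ) ^ (m - 1) * ∫⁻ y, g y ^ m ∂ν := by
  rcases eq_or_lt_of_le hm with h | h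
  · rw [← h]
    simp
  · have hm1 : (1 : ℝ) < m := by exact_mod_cast h
    have hm0 : (0 : ℝ) < m := by linarith
    have hc : (m : ℝ).HolderConjugate ((m : ℝ) / (m - 1)) := Real.HolderConjugate.conjExponent hm1
    have h1 := ENNReal.lintegral_mul_le_Lp_mul_Lq ν hc hg
      (aemeasurable_const (b := (1 : ℝ≥0∞)))
    simp only [Pi.mul_apply, mul_one, ENNReal.one_rpow, lintegral_const, one_mul,
      ENNReal.rpow_natCast] at h1
    have h2 : (∫⁻ y, g y ∂ν) ^ m ≤ ((∫⁻ y, g y ^ m ∂ν) ^ (1 / (m : ℝ)) *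
        (ν Set.univ) ^ (1 / ((m : ℝ) / (m - 1)))) ^ m := pow_le_pow_left' h1 m
    refine h2.trans (le_of_eq ?_)
    rw [mul_pow, ← ENNReal.rpow_natCast (_ ^ (1 / (m : ℝ))), ← ENNReal.rpow_mul,
      ← ENNReal.rpow_natCast (_ ^ (1 / ((m : ℝ) / (m - 1)))), ← ENNReal.rpow_mul, mul_comm]
    congr 1
    · rw [← ENNReal.rpow_natCast]
      congr 1
      rw [Nat.cast_sub hm]
      push_cast
      have : (m : ℝ) - 1 ≠ 0 := by linarith
      field_simp
    · have : 1 / (m : ℝ) * m = 1 := by field_simp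
      rw [this, ENNReal.rpow_one]

/-- the average -/
noncomputable def A (k F : ℂ → ℝ≥0∞) (z : ℂ) : ℝ≥0∞ := ∫⁻ y, k y * F (z + y)

theorem A_meas {k F : ℂ → ℝ≥0∞} (hk : Measurable k) (hF : Measurable F) : Measurable (A k F) := by
  unfold A
  exact Measurable.lintegral_prod_right' (f := fun p : ℂ × ℂ => k p.2 * F (p.1 + p.2))
    ((hk.comp measurable_snd).mul (hF.comp (measurable_fst.add measurable_snd)))

theorem young {k G : ℂ → ℝ≥0∞} (hk : Measurable k) (hG : Measurable G) (m : ℕ) (hm : 1 ≤ m) :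
    ∫⁻ z, (A k G z) ^ m ≤ (∫⁻ y, k y) ^ m * ∫⁻ z, G z ^ m := by
  have h1 : ∀ z, (A k G z) ^ m ≤ (∫⁻ y, k y) ^ (m - 1) * ∫⁻ y, k y * G (z + y) ^ m := by
    intro z
    have hGz : Measurable fun y => G (z + y) := hG.comp (measurable_const.add measurable_id)
    have h2 := hold (volume.withDensity k) hGz.aemeasurable m hm
    rw [lintegral_withDensity_eq_lintegral_mul _ hk hGz,
      lintegral_withDensity_eq_lintegral_mul _ hk (hGz.pow_const m),
      withDensity_apply _ MeasurableSet.univ, Measure.restrict_univ] at h2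
    exact h2
  have hjoint : Measurable (Function.uncurry fun z y : ℂ => k y * G (z + y) ^ m) :=
    (hk.comp measurable_snd).mul ((hG.comp (measurable_fst.add measurable_snd)).pow_const m)
  calc ∫⁻ z, (A k G z) ^ m
      ≤ ∫⁻ z, (∫⁻ y, k y) ^ (m - 1) * ∫⁻ y, k y * G (z + y) ^ m := lintegral_mono h1
    _ = (∫⁻ y, k y) ^ (m - 1) * ∫⁻ z, ∫⁻ y, k y * G (z + y) ^ m :=
        lintegral_const_mul _ hjoint.lintegral_prod_right
    _ = (∫⁻ y, k y) ^ (m - 1) * ∫⁻ y, ∫⁻ z, k y * G (z + y) ^ m := by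
        rw [lintegral_lintegral_swap hjoint.aemeasurable]
    _ = (∫⁻ y, k y) ^ (m - 1) * ∫⁻ y, k y * ∫⁻ z, G z ^ m := by
        congr 1
        refine lintegral_congr fun y => ?_
        have h5 : Measurable fun z => G (z + y) ^ m :=
          (hG.comp (measurable_id.add_const y)).pow_const m
        rw [lintegral_const_mul _ h5]
        congr 1
        exact lintegral_add_right_eq_self (fun z => G z ^ m) y
    _ = (∫⁻ y, k y) ^ (m - 1) * ((∫⁻ y, k y) * ∫⁻ z, G z ^ m) := by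
        rw [lintegral_mul_const _ hk]
    _ = _ := by
        rw [← mul_assoc, ← pow_succ, Nat.sub_add_cancel hm]

theorem young' {k G : ℂ → ℝ≥0∞} (hk : Measurable k) (hG : Measurable G) (m : ℕ) (hm : 1 ≤ m) :
    (∫⁻ z, (A k G z) ^ m) ^ (1 / (m : ℝ)) ≤ (∫⁻ y, k y) * (∫⁻ z, G z ^ m) ^ (1 / (m : ℝ)) := by
  have hm0 : (m : ℝ) ≠ 0 := by
    have : m ≠ 0 := by omega
    exact_mod_cast this
  refine (ENNReal.rpow_le_rpow (young hk hG m hm) (by positivity)).trans (le_of_eq ?_)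
  rw [ENNReal.mul_rpow_of_nonneg _ _ (by positivity), ← ENNReal.rpow_natCast,
    ← ENNReal.rpow_mul]
  congr 1
  have : (m : ℝ) * (1 / (m : ℝ)) = 1 := by field_simp
  rw [this, ENNReal.rpow_one]

/-- an average of averages -/
theorem A_conv {k1 k2 F : ℂ → ℝ≥0∞} (h1 : Measurable k1) (h2 : Measurable k2)
    (hF : Measurable F) (z : ℂ) : A (fun y => ∫⁻ u, k2 u * k1 (y - u)) F z = A k1 (A k2 F) z := by
  have j1 : Measurable (Function.uncurry fun y u : ℂ => k2 u * k1 (y - u) * F (z + y)) :=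
    ((h2.comp measurable_snd).mul (h1.comp (measurable_fst.sub measurable_snd))).mul
      (hF.comp (measurable_const.add measurable_fst))
  have j2 : Measurable (Function.uncurry fun u w : ℂ => k2 u * k1 w * F (z + (w + u))) :=
    ((h2.comp measurable_fst).mul (h1.comp measurable_snd)).mul
      (hF.comp (measurable_const.add (measurable_snd.add measurable_fst)))
  calc A (fun y => ∫⁻ u, k2 u * k1 (y - u)) F z
      = ∫⁻ y, ∫⁻ u, k2 u * k1 (y - u) * F (z + y) := by
        unfold A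
        refine lintegral_congr fun y => ?_
        have h5 : Measurable fun u => k2 u * k1 (y - u) :=
          h2.mul (h1.comp (measurable_const.sub measurable_id))
        rw [lintegral_mul_const _ h5]
    _ = ∫⁻ u, ∫⁻ y, k2 u * k1 (y - u) * F (z + y) := lintegral_lintegral_swap j1.aemeasurable
    _ = ∫⁻ u, ∫⁻ w, k2 u * k1 w * F (z + (w + u)) := by
        refine lintegral_congr fun u => ?_
        rw [← lintegral_add_right_eq_self (fun y => k2 u * k1 (y - u) * F (z + y)) u]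
        refine lintegral_congr fun w => ?_
        rw [add_sub_cancel_right]
    _ = ∫⁻ w, ∫⁻ u, k2 u * k1 w * F (z + (w + u)) := lintegral_lintegral_swap j2.aemeasurable
    _ = A k1 (A k2 F) z := by
        unfold A
        refine lintegral_congr fun w => ?_
        have h5 : Measurable fun u => k2 u * F (z + w + u) :=
          h2.mul (hF.comp (measurable_const.add measurable_id))
        rw [← lintegral_const_mul _ h5]
        refine lintegral_congr fun u => ?_
        rw [add_assoc]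
        ring

/-! ### Scaling -/

theorem lint_scale {t : ℝ} (ht : t ≠ 0) (F : ℂ → ℝ≥0∞) :
    ∫⁻ w : ℂ, F ((t : ℂ) * w) = ENNReal.ofReal ((t ^ 2)⁻¹) * ∫⁻ w, F w := by
  have h1 : Measure.map (fun w : ℂ => t • w) volume =
      ENNReal.ofReal |(t ^ (Module.finrank ℝ ℂ))⁻¹| • (volume : Measure ℂ) :=
    Measure.map_addHaar_smul volume ht
  have h2 : MeasurableEmbedding (fun w : ℂ => t • w) :=
    (Homeomorph.smulOfNeZero t ht).measurableEmbedding
  have h3 := h2.lintegral_map F (μ := (volume : Measure ℂ))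
  rw [h1, lintegral_smul_measure] at h3
  have h4 : |(t ^ (Module.finrank ℝ ℂ))⁻¹| = (t ^ 2)⁻¹ := by
    rw [Complex.finrank_real_complex]
    exact abs_of_nonneg (by positivity)
  rw [h4] at h3
  rw [smul_eq_mul] at h3
  rw [h3]
  refine lintegral_congr fun w => ?_
  rw [Complex.real_smul]

/-- integrals of rescaled densities -/
theorem sc_int {χ : ℂ → ℝ} {l : ℝ} (hl : 0 < l) (g : ℂ → ℝ≥0∞) :
    ∫⁻ y, ENNReal.ofReal (sc χ l y) * g (((l⁻¹ : ℝ) : ℂ) * y) =
      ∫⁻ y, ENNReal.ofReal (χ y) * g y := by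
  have h1 := lint_scale (t := l⁻¹) (inv_ne_zero hl.ne')
    (fun y => ENNReal.ofReal ((l ^ 2)⁻¹) * (ENNReal.ofReal (χ y) * g y))
  have e1 : ∀ y : ℂ, ENNReal.ofReal (sc χ l y) * g (((l⁻¹ : ℝ) : ℂ) * y) =
      ENNReal.ofReal ((l ^ 2)⁻¹) * (ENNReal.ofReal (χ (((l⁻¹ : ℝ) : ℂ) * y)) *
        g (((l⁻¹ : ℝ) : ℂ) * y)) := by
    intro y
    unfold sc
    rw [ENNReal.ofReal_mul (by positivity), mul_assoc]
  rw [lintegral_congr e1, h1, lintegral_const_mul' _ _ ENNReal.ofReal_ne_top, ← mul_assoc,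
    ← ENNReal.ofReal_mul (by positivity)]
  have e2 : ((l⁻¹ ^ 2)⁻¹ * (l ^ 2)⁻¹ : ℝ) = 1 := by
    field_simp
  rw [e2, ENNReal.ofReal_one, one_mul]

theorem sc_meas {χ : ℂ → ℝ} (hχ : Measurable χ) (l : ℝ) : Measurable (sc χ l) := by
  unfold sc
  exact (hχ.comp (measurable_const.mul measurable_id)).const_mul _

theorem sc_one {χ : ℂ → ℝ} (h0 : ∀ y, 0 ≤ χ y) (h1 : ∫ y, χ y = 1) {l : ℝ} (hl : 0 < l) :
    ∫⁻ y, ENNReal.ofReal (sc χ l y) = 1 := by
  have h2 := sc_int (χ := χ) hl (fun _ => 1)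
  simp only [mul_one] at h2
  have h3 : Integrable χ := by
    by_contra h
    rw [integral_undef h] at h1
    exact zero_ne_one h1
  rw [h2, ← ofReal_integral_eq_lintegral_ofReal h3 (Eventually.of_forall h0), h1,
    ENNReal.ofReal_one]

/-- the first moment -/
theorem sc_mom {χ : ℂ → ℝ} (h0 : ∀ y, 0 ≤ χ y) (h1 : Integrable fun y => ‖y‖ * χ y) {ρ : ℝ}
    (hρ : 0 < ρ) : ∫⁻ y, ENNReal.ofReal (sc χ ρ y) * ENNReal.ofReal ‖y‖ =
      ENNReal.ofReal (ρ * ∫ y, ‖y‖ * χ y) := by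
  have h2 := sc_int (χ := χ) hρ (fun y => ENNReal.ofReal (ρ * ‖y‖))
  have e1 : ∀ y : ℂ, ENNReal.ofReal (ρ * ‖((ρ⁻¹ : ℝ) : ℂ) * y‖) = ENNReal.ofReal ‖y‖ := by
    intro y
    congr 1
    rw [norm_mul, Complex.norm_real, Real.norm_of_nonneg (by positivity)]
    field_simp
  simp only [e1] at h2
  rw [h2, ENNReal.ofReal_mul hρ.le, ofReal_integral_eq_lintegral_ofReal h1
    (Eventually.of_forall fun y => mul_nonneg (norm_nonneg _) (h0 y)),
    ← lintegral_const_mul' _ _ ENNReal.ofReal_ne_top]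
  refine lintegral_congr fun y => ?_
  rw [ENNReal.ofReal_mul hρ.le, ENNReal.ofReal_mul (norm_nonneg _)]
  ring

/-! ### The modulus of continuity in the mean -/

theorem dif {χ : ℂ → ℝ} (hs : ∀ y, 1 < ‖y‖ → χ y = 0) {Lip : ℝ} (hL0 : 0 ≤ Lip)
    (hL : ∀ x y, |χ x - χ y| ≤ Lip * ‖x - y‖) {l : ℝ} (hl : 0 < l) (u : ℂ) :
    ∫⁻ y, ENNReal.ofReal |sc χ l y - sc χ l (y - u)| ≤
      ENNReal.ofReal (2 * Real.pi * Lip / l) * ENNReal.ofReal ‖u‖ := by
  have hb : ∀ y, ENNReal.ofReal |sc χ l y - sc χ l (y - u)| ≤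
      (Metric.closedBall (0 : ℂ) l).indicator (fun _ => ENNReal.ofReal (Lip / l ^ 3 * ‖u‖)) y +
      (Metric.closedBall u l).indicator (fun _ => ENNReal.ofReal (Lip / l ^ 3 * ‖u‖)) y := by
    intro y
    have hbd : |sc χ l y - sc χ l (y - u)| ≤ Lip / l ^ 3 * ‖u‖ := by
      unfold sc
      rw [← mul_sub, abs_mul, abs_of_nonneg (by positivity : (0 : ℝ) ≤ (l ^ 2)⁻¹)]
      have h1 := hL (((l⁻¹ : ℝ) : ℂ) * y) (((l⁻¹ : ℝ) : ℂ) * (y - u))
      have h2 : ((l⁻¹ : ℝ) : ℂ) * y - ((l⁻¹ : ℝ) : ℂ) * (y - u) = ((l⁻¹ : ℝ) : ℂ) * u := by ring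
      rw [h2, norm_mul, Complex.norm_real, Real.norm_of_nonneg (by positivity)] at h1
      calc (l ^ 2)⁻¹ * |χ (((l⁻¹ : ℝ) : ℂ) * y) - χ (((l⁻¹ : ℝ) : ℂ) * (y - u))|
          ≤ (l ^ 2)⁻¹ * (Lip * (l⁻¹ * ‖u‖)) := mul_le_mul_of_nonneg_left h1 (by positivity)
        _ = _ := by field_simp
    have hz : ∀ v : ℂ, l < ‖v‖ → sc χ l v = 0 := by
      intro v hv
      unfold sc
      rw [hs _ ?_, mul_zero]
      rw [norm_mul, Complex.norm_real, Real.norm_of_nonneg (by positivity)]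
      rw [← div_eq_inv_mul, lt_div_iff₀ hl, one_mul]
      exact hv
    by_cases h1 : y ∈ Metric.closedBall (0 : ℂ) l
    · rw [Set.indicator_of_mem h1]
      exact (ENNReal.ofReal_le_ofReal hbd).trans le_self_add
    · by_cases h2 : y ∈ Metric.closedBall u l
      · rw [Set.indicator_of_mem h2]
        exact (ENNReal.ofReal_le_ofReal hbd).trans le_add_self
      · rw [mem_closedBall_zero_iff, not_le] at h1
        rw [Metric.mem_closedBall, dist_eq_norm, not_le] at h2
        rw [hz _ h1, hz _ h2, sub_zero, abs_zero, ENNReal.ofReal_zero]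
        exact zero_le
  refine (lintegral_mono hb).trans (le_of_eq ?_)
  rw [lintegral_add_left (measurable_const.indicator Metric.isClosed_closedBall.measurableSet),
    lintegral_indicator Metric.isClosed_closedBall.measurableSet,
    lintegral_indicator Metric.isClosed_closedBall.measurableSet, setLIntegral_const,
    setLIntegral_const, Complex.volume_closedBall, Complex.volume_closedBall, ← mul_add,
    ← two_mul]
  have e1 : (NNReal.pi : ℝ≥0∞) = ENNReal.ofReal Real.pi := by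
    rw [ENNReal.ofReal, ENNReal.coe_inj]
    ext
    rw [Real.coe_toNNReal _ Real.pi_pos.le]
    rfl
  have e2 : (2 : ℝ≥0∞) = ENNReal.ofReal 2 := by simp
  rw [e1, e2, ← ENNReal.ofReal_pow hl.le, ← ENNReal.ofReal_mul (by positivity),
    ← ENNReal.ofReal_mul (by positivity), ← ENNReal.ofReal_mul (by positivity),
    ← ENNReal.ofReal_mul (by positivity)]
  congr 1
  field_simp

theorem t : Pool.Agent.N892.BW.S_CMP := by
  intro χ₀ χ' hB hD
  obtain ⟨hsm, h0, hs, h1⟩ := hB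
  obtain ⟨hm', h0', h1', hmom⟩ := hD
  have hcs : HasCompactSupport χ₀ := HasCompactSupport.intro (isCompact_closedBall (0 : ℂ) 1)
    (fun x hx => hs x (by
      rw [mem_closedBall_zero_iff, not_le] at hx
      exact hx))
  obtain ⟨L, hL⟩ := ContDiff.lipschitzWith_of_hasCompactSupport hcs hsm (by norm_num)
  have hL' : ∀ x y, |χ₀ x - χ₀ y| ≤ (L : ℝ) * ‖x - y‖ := fun x y => by
    have := hL.dist_le_mul x y
    rwa [Real.dist_eq, dist_eq_norm] at this
  have hM0 : 0 ≤ ∫ y, ‖y‖ * χ' y :=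
    integral_nonneg fun y => mul_nonneg (norm_nonneg _) (h0' y)
  have hL0 : (0 : ℝ) ≤ L := L.coe_nonneg
  refine ⟨2 * Real.pi * L * ∫ y, ‖y‖ * χ' y, by positivity, ?_⟩
  intro m ρ l f hm hρ hl hf
  set k1 : ℂ → ℝ≥0∞ := fun y => ENNReal.ofReal (sc χ₀ l y) with hk1
  set k2 : ℂ → ℝ≥0∞ := fun y => ENNReal.ofReal (sc χ' ρ y) with hk2
  set F : ℂ → ℝ≥0∞ := fun z => ‖f z‖ₑ ^ 2 with hF
  have ms : Measurable (sc χ₀ l) := sc_meas hsm.continuous.measurable l
  have mk1 : Measurable k1 := ms.ennreal_ofReal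
  have mk2 : Measurable k2 := (sc_meas hm' ρ).ennreal_ofReal
  have mF : Measurable F := hf.enorm.pow_const 2
  set D : ℂ → ℝ≥0∞ := fun y =>
    ∫⁻ u, k2 u * ENNReal.ofReal |sc χ₀ l y - sc χ₀ l (y - u)| with hDd
  have jd : Measurable (fun p : ℂ × ℂ => |sc χ₀ l p.1 - sc χ₀ l (p.1 - p.2)|) :=
    ((ms.comp measurable_fst).sub (ms.comp (measurable_fst.sub measurable_snd))).norm
  have jD : Measurable (Function.uncurry fun y u : ℂ =>
      k2 u * ENNReal.ofReal |sc χ₀ l y - sc χ₀ l (y - u)|) :=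
    (mk2.comp measurable_snd).mul jd.ennreal_ofReal
  have mD : Measurable D := jD.lintegral_prod_right
  have jc : Measurable (Function.uncurry fun y u : ℂ => k2 u * k1 (y - u)) :=
    (mk2.comp measurable_snd).mul (mk1.comp (measurable_fst.sub measurable_snd))
  have mc : Measurable fun y => ∫⁻ u, k2 u * k1 (y - u) := jc.lintegral_prod_right
  have i1 : ∫⁻ y, k1 y = 1 := sc_one h0 h1 hl
  have i2 : ∫⁻ y, k2 y = 1 := sc_one h0' h1' hρ
  -- the integral of `D`
  have iD : ∫⁻ y, D y ≤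
      ENNReal.ofReal (2 * Real.pi * L * (∫ y, ‖y‖ * χ' y) * (ρ / l)) := by
    calc ∫⁻ y, D y = ∫⁻ u, ∫⁻ y, k2 u * ENNReal.ofReal |sc χ₀ l y - sc χ₀ l (y - u)| :=
          lintegral_lintegral_swap jD.aemeasurable
      _ ≤ ∫⁻ u, k2 u * (ENNReal.ofReal (2 * Real.pi * L / l) * ENNReal.ofReal ‖u‖) := by
          refine lintegral_mono fun u => ?_
          have h5 : Measurable fun y => ENNReal.ofReal |sc χ₀ l y - sc χ₀ l (y - u)| :=
            (jd.comp (measurable_id.prodMk measurable_const)).ennreal_ofReal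
          rw [lintegral_const_mul _ h5]
          exact mul_le_mul' le_rfl (dif hs hL0 hL' hl u)
      _ = ENNReal.ofReal (2 * Real.pi * L / l) * ∫⁻ u, k2 u * ENNReal.ofReal ‖u‖ := by
          rw [← lintegral_const_mul' _ _ ENNReal.ofReal_ne_top]
          refine lintegral_congr fun u => ?_
          ring
      _ = _ := by
          rw [hk2, sc_mom h0' hmom hρ, ← ENNReal.ofReal_mul (by positivity)]
          congr 1
          field_simp
  -- pointwise
  have hnn : ∀ v, 0 ≤ sc χ₀ l v := fun v => mul_nonneg (by positivity) (h0 _)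
  have pt : ∀ y, k1 y ≤ (∫⁻ u, k2 u * k1 (y - u)) + D y := by
    intro y
    have h6 : Measurable fun u => k2 u * k1 (y - u) :=
      mk2.mul (mk1.comp (measurable_const.sub measurable_id))
    calc k1 y = ∫⁻ u, k2 u * k1 y := by rw [lintegral_mul_const _ mk2, i2, one_mul]
      _ ≤ ∫⁻ u, (k2 u * k1 (y - u) +
          k2 u * ENNReal.ofReal |sc χ₀ l y - sc χ₀ l (y - u)|) := by
          refine lintegral_mono fun u => ?_
          rw [← mul_add]
          refine mul_le_mul' le_rfl ?_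
          change ENNReal.ofReal _ ≤ ENNReal.ofReal _ + _
          rw [← ENNReal.ofReal_add (hnn _) (abs_nonneg _)]
          exact ENNReal.ofReal_le_ofReal
            (by linarith [le_abs_self (sc χ₀ l y - sc χ₀ l (y - u))])
      _ = _ := lintegral_add_left h6 _
  -- the averages
  have av : ∀ z, A k1 F z ≤ A k1 (A k2 F) z + A D F z := by
    intro z
    have h6 : Measurable fun y => (∫⁻ u, k2 u * k1 (y - u)) * F (z + y) :=
      mc.mul (mF.comp (measurable_const.add measurable_id))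
    calc A k1 F z ≤ ∫⁻ y, ((∫⁻ u, k2 u * k1 (y - u)) * F (z + y) + D y * F (z + y)) := by
          unfold A
          refine lintegral_mono fun y => ?_
          rw [← add_mul]
          exact mul_le_mul' (pt y) le_rfl
      _ = A (fun y => ∫⁻ u, k2 u * k1 (y - u)) F z + A D F z := lintegral_add_left h6 _
      _ = _ := by rw [A_conv mk1 mk2 mF z]
  have eL1 : Ls m χ₀ l f = ∫⁻ z, (A k1 F z) ^ m := rfl
  have eL2 : Ls m χ' ρ f = ∫⁻ z, (A k2 F z) ^ m := rfl
  have eN : Nm m f = ∫⁻ z, F z ^ m := by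
    unfold Nm
    refine lintegral_congr fun z => ?_
    change _ = (‖f z‖ₑ ^ 2) ^ m
    rw [← pow_mul]
  have hm1 : (1 : ℝ) ≤ m := by exact_mod_cast hm
  rw [eL1, eL2, eN]
  calc (∫⁻ z, (A k1 F z) ^ m) ^ (1 / (m : ℝ))
      ≤ (∫⁻ z, (A k1 (A k2 F) + A D F) z ^ (m : ℝ)) ^ (1 / (m : ℝ)) := by
        refine ENNReal.rpow_le_rpow (lintegral_mono fun z => ?_) (by positivity)
        rw [ENNReal.rpow_natCast]
        exact pow_le_pow_left' (av z) m
    _ ≤ (∫⁻ z, (A k1 (A k2 F) z) ^ (m : ℝ)) ^ (1 / (m : ℝ)) +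
          (∫⁻ z, (A D F z) ^ (m : ℝ)) ^ (1 / (m : ℝ)) :=
        ENNReal.lintegral_Lp_add_le (A_meas mk1 (A_meas mk2 mF)).aemeasurable
          (A_meas mD mF).aemeasurable hm1
    _ ≤ _ := by
        simp only [ENNReal.rpow_natCast]
        refine add_le_add ?_ ?_
        · refine (young' mk1 (A_meas mk2 mF) m hm).trans (le_of_eq ?_)
          rw [i1, one_mul]
        · exact (young' mD mF m hm).trans (mul_le_mul' iD le_rfl)

end Pool.Agent.N892.BW.CMP
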