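import Pool.Agent.N892.BW.Stm2

/-!
BW, part 2, CNV: products of symbols are convolutions.
-/

set_option autoImplicit false

open MeasureTheory ENNReal Filter Topology Complex
open scoped ComplexConjugate ContDiff

namespace Pool.Agent.N892.BW.CNV

open Pool.Agent.N892.BW

theorem norm_e2 (x ξ : ℂ) : ‖e2 x ξ‖ = 1 := by
  unfold e2
  rw [show (2 * (Real.pi : ℂ) * Complex.I * ((x.re * ξ.re + x.im * ξ.im : ℝ) : ℂ)) =
    ((2 * Real.pi * (x.re * ξ.re + x.im * ξ.im) : ℝ) : ℂ) * Complex.I by push_cast; ring]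
  exact Complex.norm_exp_ofReal_mul_I _

theorem e2_sub (x z ξ : ℂ) : e2 (x - z) ξ = e2 x ξ * conj (e2 z ξ) := by
  unfold e2
  rw [← Complex.exp_conj, ← Complex.exp_add]
  congr 1
  simp only [map_mul, Complex.conj_I, Complex.conj_ofReal, map_ofNat, Complex.sub_re,
    Complex.sub_im]
  push_cast
  ring

theorem cont_e2 : Continuous fun p : ℂ × ℂ => e2 p.1 p.2 := by
  unfold e2
  fun_prop

theorem Bd.integrable {a b : ℝ} {h : ℂ → ℂ} (H : Bd a b h) : Integrable h := by
  refine H.1.continuous.integrable_of_hasCompactSupport ?_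
  refine HasCompactSupport.intro (isCompact_closedBall (0 : ℂ) b) fun ξ hξ => ?_
  by_contra hne
  apply hξ
  rw [mem_closedBall_zero_iff]
  exact (H.2 ξ hne).2

theorem t (hB : S_BAS) : Pool.Agent.N892.BW.S_CNV := by
  intro b μ h hμ hh x
  obtain ⟨hc1, -, ⟨hm1, hi1, M, hM⟩, -, -⟩ := hB b μ hμ
  obtain ⟨hc2, -, ⟨hm2, hi2, -⟩, hinv, -⟩ := hB b h hh
  refine ⟨?_, ?_⟩
  · refine hi2.bdd_mul (c := M) ?_ ?_
    · exact (hc1.comp (continuous_const.sub continuous_id)).aestronglyMeasurable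
    · exact Eventually.of_forall fun z => hM _
  · have e1 : Fi (fun ξ => μ ξ * h ξ) x =
        ∫ ξ, ∫ z, (e2 x ξ * μ ξ) * (conj (e2 z ξ) * Fi h z) := by
      refine integral_congr_ae (Eventually.of_forall fun ξ => ?_)
      show e2 x ξ * (μ ξ * h ξ) = ∫ z, (e2 x ξ * μ ξ) * (conj (e2 z ξ) * Fi h z)
      rw [integral_const_mul, ← hinv ξ]
      ring
    have e2' : (∫ z, Fi μ (x - z) * Fi h z) =
        ∫ z, ∫ ξ, (e2 x ξ * μ ξ) * (conj (e2 z ξ) * Fi h z) := by
      refine integral_congr_ae (Eventually.of_forall fun z => ?_)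
      show Fi μ (x - z) * Fi h z = ∫ ξ, (e2 x ξ * μ ξ) * (conj (e2 z ξ) * Fi h z)
      have : (fun ξ => (e2 x ξ * μ ξ) * (conj (e2 z ξ) * Fi h z)) =
          fun ξ => (e2 (x - z) ξ * μ ξ) * Fi h z := by
        funext ξ
        rw [e2_sub]
        ring
      rw [this, integral_mul_const]
      rfl
    rw [e1, e2']
    refine integral_integral_swap ?_
    have hμi : Integrable μ := Bd.integrable hμ
    refine Integrable.mono' (g := fun p : ℂ × ℂ => ‖μ p.1‖ * ‖Fi h p.2‖)
      (hμi.norm.mul_prod hi2.norm) ?_ ?_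
    · refine Continuous.aestronglyMeasurable ?_
      have c1 : Continuous fun p : ℂ × ℂ => e2 x p.1 :=
        cont_e2.comp (continuous_const.prodMk continuous_fst)
      have c2 : Continuous fun p : ℂ × ℂ => e2 p.2 p.1 :=
        cont_e2.comp (continuous_snd.prodMk continuous_fst)
      have c3 : Continuous fun p : ℂ × ℂ => μ p.1 := hμ.1.continuous.comp continuous_fst
      have c4 : Continuous fun p : ℂ × ℂ => Fi h p.2 := hc2.comp continuous_snd
      exact (c1.mul c3).mul ((Complex.continuous_conj.comp c2).mul c4)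
    · refine Eventually.of_forall fun p => ?_
      show ‖(e2 x p.1 * μ p.1) * (conj (e2 p.2 p.1) * Fi h p.2)‖ ≤ _
      rw [norm_mul, norm_mul, norm_mul, RCLike.norm_conj, norm_e2, norm_e2, one_mul, one_mul]

end Pool.Agent.N892.BW.CNV
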