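import Pool.Agent.N892.BW.Stm

/-!
# Project BW, part CONV: weighted inequality for m-fold convolutions (helper547)
-/

set_option autoImplicit false
set_option linter.all false

open MeasureTheory ENNReal Filter Topology Complex Set
open scoped ComplexConjugate

namespace Pool.Agent.N892.BW.CONV

theorem cv_meas {f g : ℂ → ℝ≥0∞} (hf : Measurable f) (hg : Measurable g) : Measurable (cv f g) := by
  unfold cv
  have : Measurable fun p : ℂ × ℂ => f p.2 * g (p.1 - p.2) :=
    (hf.comp measurable_snd).mul (hg.comp (measurable_fst.sub measurable_snd))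
  exact this.lintegral_prod_right'

theorem it_meas {f : ℂ → ℝ≥0∞} (hf : Measurable f) (j : ℕ) : Measurable (it f j) := by
  induction j with
  | zero => exact hf
  | succ j ih => exact cv_meas hf ih

theorem cv_comm (f g : ℂ → ℝ≥0∞) : cv f g = cv g f := by
  funext x
  unfold cv
  rw [← lintegral_sub_left_eq_self (fun y => g y * f (x - y)) x]
  refine lintegral_congr fun y => ?_
  rw [_root_.sub_sub_cancel, mul_comm]

theorem cv_left_comm {f g h : ℂ → ℝ≥0∞} (hf : Measurable f) (hg : Measurable g)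
    (hh : Measurable h) : cv f (cv g h) = cv g (cv f h) := by
  funext x
  unfold cv
  have h1 : ∀ a, f a * ∫⁻ b, g b * h (x - a - b) = ∫⁻ b, f a * (g b * h (x - a - b)) := fun a =>
    (lintegral_const_mul _ (by fun_prop)).symm
  have h2 : ∀ b, g b * ∫⁻ a, f a * h (x - b - a) = ∫⁻ a, g b * (f a * h (x - b - a)) := fun a =>
    (lintegral_const_mul _ (by fun_prop)).symm
  simp_rw [h1, h2]
  rw [lintegral_lintegral_swap]
  · refine lintegral_congr fun b => lintegral_congr fun a => ?_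
    rw [sub_right_comm x a b]
    ring
  · apply Measurable.aemeasurable
    unfold Function.uncurry
    fun_prop

theorem amgm (x y : ℝ) (hx : 0 ≤ x) (hy : 0 ≤ y) (n : ℕ) :
    (n + 1) * (x * y ^ n) ≤ x ^ (n + 1) + n * y ^ (n + 1) := by
  induction n with
  | zero => simp
  | succ n ih =>
    have h1 := mul_le_mul_of_nonneg_right ih hy
    have h2 : 0 ≤ (x ^ (n + 1) - y ^ (n + 1)) * (x - y) := by
      rcases le_total x y with h | h
      · have := pow_le_pow_left₀ hx h (n + 1)
        nlinarith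
      · have := pow_le_pow_left₀ hy h (n + 1)
        nlinarith
    push_cast
    have e1 : y ^ (n + 1) = y ^ n * y := pow_succ _ _
    have e2 : y ^ (n + 1 + 1) = y ^ n * y * y := by rw [pow_succ, pow_succ]
    have e3 : x ^ (n + 1 + 1) = x ^ (n + 1) * x := pow_succ _ _
    rw [e2, e3, e1]
    rw [e1] at h1 h2
    nlinarith

theorem young (x y : ℝ≥0∞) (n : ℕ) :
    ((n : ℝ≥0∞) + 2) * (x * y ^ (n + 1)) ≤ x ^ (n + 2) + ((n : ℝ≥0∞) + 1) * y ^ (n + 2) := by
  by_cases hx : x = ⊤
  · rw [hx]; simp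
  by_cases hy : y = ⊤
  · rw [hy]; simp
  lift x to NNReal using hx
  lift y to NNReal using hy
  have h := amgm x y x.2 y.2 (n + 1)
  have h' : ((n : NNReal) + 2) * (x * y ^ (n + 1)) ≤ x ^ (n + 2) + ((n : NNReal) + 1) * y ^ (n + 2) := by
    rw [← NNReal.coe_le_coe]
    push_cast
    push_cast at h
    linarith
  exact_mod_cast h'

theorem stepA {φ k Q : ℂ → ℝ≥0∞} (hφ : Measurable φ) (hk : Measurable k) (hQ : Measurable Q)
    (n : ℕ) (u : ℂ) :
    cv (fun a => φ a * k a) (cv (fun a => φ a * k a ^ (n + 1)) Q) u ≤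
      cv (fun a => φ a * k a ^ (n + 2)) (cv φ Q) u := by
  have hn : ((n : ℝ≥0∞) + 2) ≠ 0 := by positivity
  have hn' : ((n : ℝ≥0∞) + 2) ≠ ⊤ := by
    exact ENNReal.add_ne_top.2 ⟨ENNReal.natCast_ne_top _, by norm_num⟩
  have hn1 : ((n : ℝ≥0∞) + 1) ≠ ⊤ := by
    exact ENNReal.add_ne_top.2 ⟨ENNReal.natCast_ne_top _, by norm_num⟩
  rw [← ENNReal.mul_le_mul_iff_right hn hn']
  have e1 : ((n : ℝ≥0∞) + 2) * cv (fun a => φ a * k a) (cv (fun a => φ a * k a ^ (n + 1)) Q) u =
      ∫⁻ a, ∫⁻ b, φ a * φ b * Q (u - a - b) * (((n : ℝ≥0∞) + 2) * (k a * k b ^ (n + 1))) := by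
    unfold cv
    rw [← lintegral_const_mul' _ _ hn']
    refine lintegral_congr fun a => ?_
    rw [← lintegral_const_mul _ (by fun_prop), ← lintegral_const_mul _ (by fun_prop)]
    refine lintegral_congr fun b => ?_
    ring
  have e2 : ((n : ℝ≥0∞) + 2) * cv (fun a => φ a * k a ^ (n + 2)) (cv φ Q) u =
      (∫⁻ a, ∫⁻ b, φ a * φ b * Q (u - a - b) * (k a ^ (n + 2))) +
        ∫⁻ a, ∫⁻ b, φ a * φ b * Q (u - a - b) * (((n : ℝ≥0∞) + 1) * k b ^ (n + 2)) := by
    have e3 : cv (fun a => φ a * k a ^ (n + 2)) (cv φ Q) u =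
        ∫⁻ a, ∫⁻ b, φ a * φ b * Q (u - a - b) * (k a ^ (n + 2)) := by
      unfold cv
      refine lintegral_congr fun a => ?_
      rw [← lintegral_const_mul _ (by fun_prop)]
      refine lintegral_congr fun b => ?_
      ring
    have e4 : ((n : ℝ≥0∞) + 1) * cv (fun a => φ a * k a ^ (n + 2)) (cv φ Q) u =
        ∫⁻ a, ∫⁻ b, φ a * φ b * Q (u - a - b) * (((n : ℝ≥0∞) + 1) * k b ^ (n + 2)) := by
      rw [cv_left_comm (f := fun a => φ a * k a ^ (n + 2)) (hφ.mul (hk.pow_const _)) hφ hQ]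
      unfold cv
      rw [← lintegral_const_mul' _ _ hn1]
      refine lintegral_congr fun a => ?_
      rw [← lintegral_const_mul _ (by fun_prop), ← lintegral_const_mul _ (by fun_prop)]
      refine lintegral_congr fun b => ?_
      ring
    rw [← e3, ← e4]
    ring
  rw [e1, e2, ← lintegral_add_left]
  · refine lintegral_mono fun a => ?_
    rw [← lintegral_add_left (by fun_prop)]
    refine lintegral_mono fun b => ?_
    rw [← mul_add]
    exact mul_le_mul_right (young _ _ _) _
  · have : Measurable fun p : ℂ × ℂ => φ p.1 * φ p.2 * Q (u - p.1 - p.2) * (k p.1 ^ (n + 2)) := by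
      fun_prop
    exact this.lintegral_prod_right'

theorem stepB {φ k : ℂ → ℝ≥0∞} (hφ : Measurable φ) (hk : Measurable k) (u : ℂ) :
    cv (fun a => φ a * k a) (fun a => φ a * k a) u ≤ cv (fun a => φ a * k a ^ 2) φ u := by
  rw [← ENNReal.mul_le_mul_iff_right (a := 2) (by norm_num) (by norm_num)]
  have e1 : 2 * cv (fun a => φ a * k a) (fun a => φ a * k a) u =
      ∫⁻ a, φ a * φ (u - a) * (2 * (k a * k (u - a))) := by
    unfold cv
    rw [← lintegral_const_mul' _ _ (by norm_num)]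
    refine lintegral_congr fun a => ?_
    ring
  have e2 : 2 * cv (fun a => φ a * k a ^ 2) φ u =
      (∫⁻ a, φ a * φ (u - a) * k a ^ 2) + ∫⁻ a, φ a * φ (u - a) * k (u - a) ^ 2 := by
    rw [two_mul]
    congr 1
    · unfold cv
      refine lintegral_congr fun a => ?_
      ring
    · rw [cv_comm]
      unfold cv
      refine lintegral_congr fun a => ?_
      ring
  rw [e1, e2, ← lintegral_add_left (by fun_prop)]
  refine lintegral_mono fun a => ?_
  rw [← mul_add]
  refine mul_le_mul_right ?_ _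
  have := young (k a) (k (u - a)) 0
  simpa using this

theorem stepI {φ k : ℂ → ℝ≥0∞} (hφ : Measurable φ) (hk : Measurable k) (j : ℕ) : ∀ u : ℂ,
    it (fun a => φ a * k a) (j + 1) u ≤ cv (fun a => φ a * k a ^ (j + 2)) (it φ j) u := by
  induction j with
  | zero => intro u; exact stepB hφ hk u
  | succ j ih =>
    intro u
    refine le_trans ?_ (stepA hφ hk (it_meas hφ j) (j + 1) u)
    show cv (fun a => φ a * k a) (it (fun a => φ a * k a) (j + 1)) u ≤ _
    unfold cv
    refine lintegral_mono fun a => ?_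
    exact mul_le_mul_right (ih (u - a)) _

theorem cs {w g : ℂ → ℝ≥0∞} (hw : Measurable w) (hg : Measurable g) :
    (∫⁻ a, w a * g a) ^ 2 ≤ (∫⁻ a, w a * g a ^ 2) * ∫⁻ a, w a := by
  have h1 := ENNReal.lintegral_mul_le_Lp_mul_Lq (volume.withDensity w) Real.HolderConjugate.two_two
    hg.aemeasurable (measurable_const (a := (1 : ℝ≥0∞))).aemeasurable
  have e1 : ∫⁻ a, (g * (fun _ : ℂ => (1 : ℝ≥0∞)) : ℂ → ℝ≥0∞) a ∂(volume.withDensity w) = ∫⁻ a, w a * g a := by
    rw [lintegral_withDensity_eq_lintegral_mul _ hw (by fun_prop)]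
    simp
  have e2 : ∫⁻ a, g a ^ (2 : ℝ) ∂(volume.withDensity w) = ∫⁻ a, w a * g a ^ 2 := by
    rw [lintegral_withDensity_eq_lintegral_mul _ hw (by fun_prop)]
    simp
  have e3 : ∫⁻ a, (1 : ℝ≥0∞) ^ (2 : ℝ) ∂(volume.withDensity w) = ∫⁻ a, w a := by
    rw [lintegral_withDensity_eq_lintegral_mul _ hw (by fun_prop)]
    simp
  rw [e1, e2, e3] at h1
  have h2 := pow_le_pow_left' h1 2
  refine h2.trans (le_of_eq ?_)
  rw [mul_pow, ← ENNReal.rpow_natCast, ← ENNReal.rpow_natCast, ← ENNReal.rpow_mul,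
    ← ENNReal.rpow_mul]
  norm_num

/-! ### constants -/

/-- `Γ(x/2) / Γ(1-x/2)` -/
noncomputable def G (x : ℝ) : ℝ := Real.Gamma (x / 2) / Real.Gamma (1 - x / 2)

theorem G_pos {x : ℝ} (h0 : 0 < x) (h2 : x < 2) : 0 < G x :=
  div_pos (Real.Gamma_pos_of_pos (by linarith)) (Real.Gamma_pos_of_pos (by linarith))

theorem RB_eq {a b : ℝ} (ha : 0 < a) (hb : 0 < b) (hab : a + b < 2) :
    RB a b = Real.pi * G a * G b / G (a + b) := by
  have h1 := Real.Gamma_pos_of_pos (show 0 < 1 - a / 2 by linarith)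
  have h2 := Real.Gamma_pos_of_pos (show 0 < 1 - b / 2 by linarith)
  have h3 := Real.Gamma_pos_of_pos (show 0 < (a + b) / 2 by linarith)
  have h4 := Real.Gamma_pos_of_pos (show 0 < 1 - (a + b) / 2 by linarith)
  rw [RB, G, G, G]
  field_simp

theorem G_one : G 1 = 1 := by
  rw [G, show (1 : ℝ) - 1 / 2 = 1 / 2 by norm_num]
  exact div_self (Real.Gamma_pos_of_pos (by norm_num)).ne'

theorem G_refl {x : ℝ} (h0 : 0 < x) (h2 : x < 2) : G (2 - x) = 1 / G x := by
  have h1 := Real.Gamma_pos_of_pos (show 0 < 1 - x / 2 by linarith)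
  have h3 := Real.Gamma_pos_of_pos (show 0 < x / 2 by linarith)
  rw [G, G, show (2 - x) / 2 = 1 - x / 2 by ring, show 1 - (1 - x / 2) = x / 2 by ring]
  field_simp

/-- the constants of the convolution powers -/
noncomputable def CC (al : ℝ) (j : ℕ) : ℝ := Real.pi ^ j * G al ^ (j + 1) / G ((j + 1) * al)

/-- the Riesz kernel -/
noncomputable def ph (al : ℝ) (u : ℂ) : ℝ≥0∞ := ENNReal.ofReal (‖u‖ ^ (al - 2))

theorem ph_meas (al : ℝ) : Measurable (ph al) := by
  unfold ph
  fun_prop

theorem ae_ne (x : ℂ) : ∀ᵐ y : ℂ, y ≠ x := by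
  rw [ae_iff]; simp

theorem CC_pos {al : ℝ} (ha : 0 < al) (j : ℕ) (hj : (j + 1) * al < 2) : 0 < CC al j := by
  have h1 : al < 2 := by
    have : (0 : ℝ) ≤ j := Nat.cast_nonneg j
    nlinarith
  have := G_pos ha h1
  have := G_pos (x := (j + 1) * al) (by positivity) hj
  have := Real.pi_pos
  unfold CC
  positivity

theorem it_ph (hR : S_RZ) {al : ℝ} (ha : 0 < al) (j : ℕ) : (j + 1) * al < 2 → ∀ u : ℂ, u ≠ 0 →
    it (ph al) j u = ENNReal.ofReal (CC al j * ‖u‖ ^ ((j + 1) * al - 2)) := by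
  induction j with
  | zero =>
    intro h u hu
    have h0 := G_pos (x := al) ha (by simpa using h)
    show ph al u = _
    rw [ph, CC]
    simp only [Nat.cast_zero, zero_add, one_mul, pow_zero, pow_one, div_self h0.ne']
  | succ j ih =>
    intro h u hu
    push_cast at h
    have h1 : ((j : ℝ) + 1) * al < 2 := by nlinarith
    have h2 : al < 2 := by
      have : (0 : ℝ) ≤ j := Nat.cast_nonneg j
      nlinarith
    have hC := CC_pos ha j h1
    show cv (ph al) (it (ph al) j) u = _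
    unfold cv
    have e1 : ∫⁻ y, ph al y * it (ph al) j (u - y) =
        ∫⁻ y, ENNReal.ofReal (CC al j) * (ENNReal.ofReal (‖y‖ ^ (al - 2)) *
          ENNReal.ofReal (‖u - y‖ ^ ((j + 1) * al - 2))) := by
      apply lintegral_congr_ae
      filter_upwards [ae_ne u] with y hy
      rw [ih h1 (u - y) (sub_ne_zero.2 (Ne.symm hy)), ph, ENNReal.ofReal_mul hC.le]
      ring
    rw [e1, lintegral_const_mul' _ _ ENNReal.ofReal_ne_top,
      hR al ((j + 1) * al) ha (by positivity) (by linarith) u hu, ← ENNReal.ofReal_mul hC.le]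
    congr 1
    rw [RB_eq ha (by positivity) (by linarith)]
    have h3 := G_pos (x := ((j : ℝ) + 1) * al) (by positivity) h1
    have h4 := G_pos (x := al + ((j : ℝ) + 1) * al) (by positivity) (by linarith)
    rw [CC, CC]
    push_cast
    have e2 : ((j : ℝ) + 1 + 1) * al = al + (j + 1) * al := by ring
    rw [e2]
    have h5 := G_pos ha h2
    field_simp
    ring

/-! ### a.e. invariance -/

theorem cv_congr {f f' g g' : ℂ → ℝ≥0∞} (h : f =ᵐ[volume] f') (h' : g =ᵐ[volume] g') :
    cv f g = cv f' g' := by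
  funext x
  unfold cv
  apply lintegral_congr_ae
  have h2 : (fun y => g (x - y)) =ᵐ[volume] fun y => g' (x - y) :=
    (quasiMeasurePreserving_sub_left volume x).ae_eq_comp h'
  filter_upwards [h, h2] with y hy hy'
  rw [hy, hy']

theorem it_congr {f f' : ℂ → ℝ≥0∞} (h : f =ᵐ[volume] f') (j : ℕ) :
    it f j =ᵐ[volume] it f' j ∧ it f (j + 1) = it f' (j + 1) := by
  induction j with
  | zero => exact ⟨h, cv_congr h h⟩
  | succ j ih =>
    refine ⟨by rw [ih.2], ?_⟩
    show cv f (it f (j + 1)) = cv f' (it f' (j + 1))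
    exact cv_congr h (by rw [ih.2])

/-! ### the theorem -/

theorem t (hR : Pool.Agent.N892.BW.S_RZ) : Pool.Agent.N892.BW.S_CONV := by
  intro m hm f hf
  obtain ⟨M, rfl⟩ : ∃ M, m = M + 2 := ⟨m - 2, by omega⟩
  set al : ℝ := 1 / ((M : ℝ) + 2) with hal
  have hM : (0 : ℝ) ≤ M := Nat.cast_nonneg M
  have hal0 : 0 < al := by positivity
  have hal1 : ((M : ℝ) + 2) * al = 1 := by rw [hal]; field_simp
  have hal1' : ((M : ℝ) + 1) * al = 1 - al := by linarith
  have hal2 : al ≤ 1 / 2 := by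
    rw [hal]
    apply one_div_le_one_div_of_le (by norm_num)
    linarith
  set φ := ph al with hφ
  have hφm : Measurable φ := ph_meas al
  set k : ℂ → ℝ≥0∞ := fun u => f u * ENNReal.ofReal (‖u‖ ^ (2 - al)) with hk
  have hkm : Measurable k := by
    rw [hk]; fun_prop
  have hf0 : f =ᵐ[volume] fun u => φ u * k u := by
    filter_upwards [ae_ne 0] with u hu
    have hu' : 0 < ‖u‖ := norm_pos_iff.2 hu
    have e1 : ENNReal.ofReal (‖u‖ ^ (al - 2)) * ENNReal.ofReal (‖u‖ ^ (2 - al)) = 1 := by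
      rw [← ENNReal.ofReal_mul (by positivity), ← Real.rpow_add hu']
      rw [show al - 2 + (2 - al) = 0 by ring, Real.rpow_zero, ENNReal.ofReal_one]
    rw [hk, hφ, ph]
    simp only
    calc f u = f u * 1 := (mul_one _).symm
      _ = _ := by rw [← e1]; ring
  have h1 : it f (M + 2 - 1) = it (fun u => φ u * k u) (M + 1) := (it_congr hf0 M).2
  rw [h1]
  set P := it φ M with hP
  set R := it φ (M + 1) with hRdef
  have hPm : Measurable P := it_meas hφm M
  have hRm : Measurable R := it_meas hφm (M + 1)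
  set H : ℂ → ℝ≥0∞ := fun a => φ a * k a ^ (2 * (M + 2)) with hH
  have hHm : Measurable H := hφm.mul (hkm.pow_const _)
  -- pointwise
  have h2 : ∀ u, it (fun u => φ u * k u) (M + 1) u ^ 2 ≤ cv H P u * R u := by
    intro u
    refine (pow_le_pow_left' (stepI hφm hkm M u) 2).trans ?_
    have h3 := cs (w := fun a => φ a * P (u - a)) (g := fun a => k a ^ (M + 2)) (by fun_prop)
      (by fun_prop)
    have e1 : ∫⁻ a, φ a * P (u - a) * k a ^ (M + 2) =
        cv (fun a => φ a * k a ^ (M + 2)) (it φ M) u := by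
      unfold cv
      refine lintegral_congr fun a => ?_
      rw [hP]; ring
    have e2 : ∫⁻ a, φ a * P (u - a) * (k a ^ (M + 2)) ^ 2 = cv H P u := by
      unfold cv
      refine lintegral_congr fun a => ?_
      rw [hH]; ring
    rw [e1, e2] at h3
    exact h3
  have hCM : 0 < CC al M := CC_pos hal0 M (by rw [hal1']; linarith)
  have hCM1 : 0 < CC al (M + 1) := CC_pos hal0 (M + 1) (by push_cast; linarith)
  have hPf : ∀ u : ℂ, u ≠ 0 → P u = ENNReal.ofReal (CC al M * ‖u‖ ^ ((1 - al) - 2)) := by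
    intro u hu
    rw [hP, it_ph hR hal0 M (by rw [hal1']; linarith) u hu, hal1']
  have hRf : ∀ u : ℂ, u ≠ 0 → R u = ENNReal.ofReal (CC al (M + 1) * ‖u‖ ^ ((1 : ℝ) - 2)) := by
    intro u hu
    rw [hRdef, it_ph hR hal0 (M + 1) (by push_cast; linarith) u hu]
    push_cast
    rw [show ((M : ℝ) + 1 + 1) * al = 1 by linarith]
  -- the inner integral
  have h5 : ∀ v : ℂ, v ≠ 0 → ∫⁻ u, P (u - v) * R u =
      ENNReal.ofReal (CC al M * CC al (M + 1) * (RB 1 (1 - al) * ‖v‖ ^ (1 + (1 - al) - 2))) := by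
    intro v hv
    have e1 : ∫⁻ u, P (u - v) * R u = ∫⁻ u, ENNReal.ofReal (CC al M * CC al (M + 1)) *
        (ENNReal.ofReal (‖u‖ ^ ((1 : ℝ) - 2)) * ENNReal.ofReal (‖v - u‖ ^ ((1 - al) - 2))) := by
      apply lintegral_congr_ae
      filter_upwards [ae_ne 0, ae_ne v] with u hu hu'
      rw [hPf _ (sub_ne_zero.2 hu'), hRf u hu, ENNReal.ofReal_mul hCM.le,
        ENNReal.ofReal_mul hCM1.le, ENNReal.ofReal_mul hCM.le, norm_sub_rev v u]
      ring
    rw [e1, lintegral_const_mul' _ _ ENNReal.ofReal_ne_top,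
      hR 1 (1 - al) one_pos (by linarith) (by linarith) v hv, ← ENNReal.ofReal_mul (by positivity)]
  have hGa := G_pos hal0 (show al < 2 by linarith)
  have hconst : CC al M * CC al (M + 1) * RB 1 (1 - al) =
      Real.pi ^ (2 * (M + 2) - 2) * GA (M + 2) ^ (2 * (M + 2)) := by
    rw [RB_eq one_pos (by linarith) (by linarith), G_one, CC, CC, hal1']
    push_cast
    rw [show ((M : ℝ) + 1 + 1) * al = 1 by linarith, G_one,
      show (1 : ℝ) + (1 - al) = 2 - al by ring, G_refl hal0 (by linarith)]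
    have hG1 := G_pos (x := 1 - al) (by linarith) (by linarith)
    have hGA : GA (M + 2) = G al := by
      rw [GA, G]
      have e2 : 1 / (2 * ((M + 2 : ℕ) : ℝ)) = al / 2 := by
        rw [hal]; push_cast; field_simp
      rw [e2]
    rw [hGA, show 2 * (M + 2) - 2 = M + (M + 1) + 1 by omega]
    field_simp
    ring
  -- assembling
  calc ∫⁻ x, it (fun u => φ u * k u) (M + 1) x ^ 2 ≤ ∫⁻ u, cv H P u * R u := lintegral_mono h2
    _ = ∫⁻ u, ∫⁻ v, H v * (P (u - v) * R u) := by
        refine lintegral_congr fun u => ?_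
        unfold cv
        rw [← lintegral_mul_const _ (by fun_prop)]
        refine lintegral_congr fun v => ?_
        ring
    _ = ∫⁻ v, ∫⁻ u, H v * (P (u - v) * R u) := by
        rw [lintegral_lintegral_swap]
        apply Measurable.aemeasurable
        unfold Function.uncurry
        fun_prop
    _ = ∫⁻ v, H v * ∫⁻ u, P (u - v) * R u := by
        refine lintegral_congr fun v => ?_
        rw [lintegral_const_mul _ (by fun_prop)]
    _ = ∫⁻ v, ENNReal.ofReal (Real.pi ^ (2 * (M + 2) - 2) * GA (M + 2) ^ (2 * (M + 2))) *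
          (f v ^ (2 * (M + 2)) * ‖v‖ₑ ^ (4 * (M + 2) - 4)) := by
        apply lintegral_congr_ae
        filter_upwards [ae_ne 0] with v hv
        have hv' : 0 < ‖v‖ := norm_pos_iff.2 hv
        have hRB : 0 < CC al M * CC al (M + 1) * RB 1 (1 - al) := by
          rw [hconst]
          have : 0 < GA (M + 2) := by
            rw [GA]
            have h7 : 1 / (2 * ((M + 2 : ℕ) : ℝ)) = al / 2 := by
              rw [hal]; push_cast; field_simp
            rw [h7]
            exact hGa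
          have := Real.pi_pos
          positivity
        rw [h5 v hv, ← hconst, ← mul_assoc (CC al M * CC al (M + 1)), ENNReal.ofReal_mul hRB.le]
        have hHv : H v = ENNReal.ofReal (‖v‖ ^ (al - 2)) *
          (f v * ENNReal.ofReal (‖v‖ ^ (2 - al))) ^ (2 * (M + 2)) := rfl
        rw [hHv, mul_pow, ← ofReal_norm, ← ENNReal.ofReal_pow (by positivity),
          ← ENNReal.ofReal_pow (by positivity)]
        have e3 : ‖v‖ ^ (al - 2) * (‖v‖ ^ (2 - al)) ^ (2 * (M + 2)) * ‖v‖ ^ (1 + (1 - al) - 2) =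
            ‖v‖ ^ (4 * (M + 2) - 4) := by
          rw [← Real.rpow_natCast (‖v‖ ^ (2 - al)), ← Real.rpow_mul hv'.le,
            ← Real.rpow_natCast (‖v‖), ← Real.rpow_add hv', ← Real.rpow_add hv']
          congr 1
          rw [show 4 * (M + 2) - 4 = 4 * M + 4 by omega]
          push_cast
          linear_combination (-2) * hal1
        have e4 : ENNReal.ofReal (‖v‖ ^ (4 * (M + 2) - 4)) = ENNReal.ofReal (‖v‖ ^ (al - 2)) *
            ENNReal.ofReal ((‖v‖ ^ (2 - al)) ^ (2 * (M + 2))) *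
            ENNReal.ofReal (‖v‖ ^ (1 + (1 - al) - 2)) := by
          rw [← e3, ENNReal.ofReal_mul (by positivity), ENNReal.ofReal_mul (by positivity)]
        rw [e4]
        generalize ENNReal.ofReal (CC al M * CC al (M + 1) * RB 1 (1 - al)) = Z
        generalize ENNReal.ofReal ((‖v‖ ^ (2 - al)) ^ (2 * (M + 2))) = Z1
        generalize ENNReal.ofReal (‖v‖ ^ (1 + (1 - al) - 2)) = Z2
        generalize ENNReal.ofReal (‖v‖ ^ (al - 2)) = Z3
        ring
    _ = _ := lintegral_const_mul' _ _ ENNReal.ofReal_ne_top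

end Pool.Agent.N892.BW.CONV
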