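import Pool.Agent.N892.BW.Stm3
import Pool.Agent.N892.BW.CONV

/-!
# Project BW, part 3, DMX: dual maximal inequality for sums (helper300)
-/

set_option autoImplicit false
set_option linter.all false

open MeasureTheory ENNReal Filter Topology Complex Set
open scoped ComplexConjugate

namespace Pool.Agent.N892.BW.DMX

theorem PP_meas (β : ℝ) : Measurable (PP β) := by
  unfold PP
  fun_prop

theorem PP_neg (β : ℝ) (x : ℂ) : PP β (-x) = PP β x := by
  unfold PP
  rw [norm_neg]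

/-- duality -/
theorem dual {k g w : ℂ → ℝ≥0∞} (hk : Measurable k) (hg : Measurable g) (hw : Measurable w)
    (he : ∀ x, k (-x) = k x) : ∫⁻ x, cv k g x * w x = ∫⁻ x, g x * cv k w x := by
  rw [CONV.cv_comm k g, CONV.cv_comm k w]
  unfold cv
  have h1 : ∀ x, (∫⁻ y, g y * k (x - y)) * w x = ∫⁻ y, g y * k (x - y) * w x := fun x =>
    (lintegral_mul_const _ (by fun_prop)).symm
  have h2 : ∀ x, g x * ∫⁻ y, w y * k (x - y) = ∫⁻ y, g x * (w y * k (x - y)) := fun x =>
    (lintegral_const_mul _ (by fun_prop)).symm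
  simp_rw [h1, h2]
  rw [lintegral_lintegral_swap]
  · refine lintegral_congr fun a => lintegral_congr fun b => ?_
    rw [← he (a - b), neg_sub]
    ring
  · apply Measurable.aemeasurable
    unfold Function.uncurry
    fun_prop

/-- the integral of the kernel -/
theorem PP_int : ∫⁻ x, PP 1 x < ∞ := by
  have h := finite_integral_one_add_norm (E := ℂ) (μ := volume) (r := 4)
    (by rw [Complex.finrank_real_complex]; norm_num)
  refine lt_of_le_of_lt (lintegral_mono fun x => ?_) h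
  unfold PP
  apply ENNReal.ofReal_le_ofReal
  have hx : (0 : ℝ) < 1 + ‖x‖ := by positivity
  rw [one_pow, one_mul, one_mul, Real.rpow_neg hx.le]
  norm_cast

theorem PP_eq {β : ℝ} (hβ : 0 < β) : ∫⁻ x, PP β x = ∫⁻ x, PP 1 x := by
  have hi : Integrable (fun x : ℂ => ((1 + ‖x‖) ^ 4)⁻¹) volume := by
    have h := integrable_one_add_norm (E := ℂ) (μ := volume) (r := 4)
      (by rw [Complex.finrank_real_complex]; norm_num)
    refine h.congr (Eventually.of_forall fun x => ?_)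
    have hx : (0 : ℝ) < 1 + ‖x‖ := by positivity
    show (1 + ‖x‖) ^ (-(4 : ℝ)) = ((1 + ‖x‖) ^ 4)⁻¹
    rw [Real.rpow_neg hx.le]
    norm_cast
  have e1 : ∫⁻ x, PP 1 x = ENNReal.ofReal (∫ x : ℂ, ((1 + ‖x‖) ^ 4)⁻¹) := by
    rw [ofReal_integral_eq_lintegral_ofReal hi (Eventually.of_forall fun x => by positivity)]
    refine lintegral_congr fun x => ?_
    unfold PP
    rw [one_pow, one_mul, one_mul]
  have hi2 : Integrable (fun x : ℂ => β ^ 2 * ((1 + β * ‖x‖) ^ 4)⁻¹) volume := by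
    have h := (hi.comp_smul hβ.ne').const_mul (β ^ 2)
    refine h.congr (Eventually.of_forall fun x => ?_)
    show β ^ 2 * ((1 + ‖β • x‖) ^ 4)⁻¹ = _
    rw [norm_smul, Real.norm_eq_abs, abs_of_pos hβ]
  have e2 : ∫⁻ x, PP β x = ENNReal.ofReal (∫ x : ℂ, β ^ 2 * ((1 + β * ‖x‖) ^ 4)⁻¹) := by
    rw [ofReal_integral_eq_lintegral_ofReal hi2 (Eventually.of_forall fun x => by positivity)]
    rfl
  rw [e1, e2]
  congr 1
  have h3 := Measure.integral_comp_smul (volume : Measure ℂ) (fun x : ℂ => ((1 + ‖x‖) ^ 4)⁻¹) β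
  rw [Complex.finrank_real_complex, abs_of_nonneg (by positivity)] at h3
  rw [integral_const_mul]
  have h4 : ∫ x : ℂ, ((1 + β * ‖x‖) ^ 4)⁻¹ = ∫ x : ℂ, ((1 + ‖β • x‖) ^ 4)⁻¹ := by
    congr 1
    ext x
    rw [norm_smul, Real.norm_eq_abs, abs_of_pos hβ]
  rw [h4, h3, smul_eq_mul, ← mul_assoc, mul_inv_cancel₀ (by positivity), one_mul]

theorem t1 : ∃ C : ℝ, 0 < C ∧ ∀ (L : ℕ) (β : ℕ → ℝ) (g : ℕ → ℂ → ℝ≥0∞),
    (∀ i, 0 < β i) → (∀ i, Measurable (g i)) →
    ∫⁻ x, (∑ i ∈ Finset.range L, cv (PP (β i)) (g i) x) ≤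
      ENNReal.ofReal C * ∫⁻ x, (∑ i ∈ Finset.range L, g i x) := by
  refine ⟨(∫⁻ x, PP 1 x).toReal + 1, by positivity, ?_⟩
  intro L β g hβ hg
  have h0 : ∫⁻ x, PP 1 x ≤ ENNReal.ofReal ((∫⁻ x, PP 1 x).toReal + 1) := by
    rw [← ENNReal.ofReal_toReal PP_int.ne]
    apply ENNReal.ofReal_le_ofReal
    rw [ENNReal.toReal_ofReal ENNReal.toReal_nonneg]
    linarith
  rw [lintegral_finset_sum _ fun i _ => CONV.cv_meas (PP_meas _) (hg i),
    lintegral_finset_sum _ fun i _ => hg i, Finset.mul_sum]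
  refine Finset.sum_le_sum fun i _ => ?_
  have h1 := dual (w := fun _ => 1) (PP_meas (β i)) (hg i) measurable_const (PP_neg (β i))
  have h2 : ∀ x, cv (PP (β i)) (fun _ => 1) x = ∫⁻ x, PP 1 x := by
    intro x
    unfold cv
    simp only [mul_one]
    exact PP_eq (hβ i)
  simp only [h2, mul_one] at h1
  rw [h1, lintegral_mul_const _ (hg i), mul_comm]
  exact mul_le_mul_left h0 _

theorem sum_pow_le (L m : ℕ) (a : ℕ → ℝ≥0∞) (hm : 1 ≤ m) :
    (∑ i ∈ Finset.range L, a i) ^ m ≤ (L : ℝ≥0∞) ^ m * ∑ i ∈ Finset.range L, a i ^ m := by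
  rcases Nat.eq_zero_or_pos L with h | h
  · subst h
    simp
    omega
  · obtain ⟨j, hj, hmax⟩ := Finset.exists_max_image (Finset.range L) a ⟨0, Finset.mem_range.2 h⟩
    have h1 : ∑ i ∈ Finset.range L, a i ≤ (L : ℝ≥0∞) * a j := by
      refine (Finset.sum_le_card_nsmul _ _ _ hmax).trans ?_
      rw [Finset.card_range, nsmul_eq_mul]
    calc (∑ i ∈ Finset.range L, a i) ^ m ≤ ((L : ℝ≥0∞) * a j) ^ m := by gcongr
      _ = (L : ℝ≥0∞) ^ m * a j ^ m := mul_pow _ _ _
      _ ≤ _ := by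
        gcongr
        exact Finset.single_le_sum (f := fun i => a i ^ m) (fun _ _ => zero_le) hj

theorem t (h1 : Pool.Agent.N892.BW.S_HLM) (h2 : Pool.Agent.N892.BW.S_RDM) :
    Pool.Agent.N892.BW.S_DMX := by
  intro m hm
  rcases Nat.lt_or_ge 1 m with hm2 | hm2
  swap
  · have hm1 : m = 1 := by omega
    subst hm1
    obtain ⟨C, hC, h⟩ := t1
    refine ⟨C, hC, ?_⟩
    simpa using h
  obtain ⟨C1, hC1, hR⟩ := h2
  have hmR : (1 : ℝ) < m := by exact_mod_cast hm2
  obtain ⟨q, hq⟩ : ∃ q : ℝ, q = (m : ℝ) / (m - 1) := ⟨_, rfl⟩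
  have hq1 : 1 < q := by
    rw [hq, lt_div_iff₀ (by linarith)]
    linarith
  have hpq : (m : ℝ).HolderConjugate q := by
    rw [Real.holderConjugate_iff]
    refine ⟨hmR, ?_⟩
    rw [hq]
    have : (m : ℝ) - 1 ≠ 0 := by linarith
    field_simp
    ring
  obtain ⟨C2, hC2, hH⟩ := h1 q hq1
  obtain ⟨C3, hC3, hM⟩ := h1 m hmR
  refine ⟨C1 ^ m * C2 ^ (m - 1) + 1, by positivity, ?_⟩
  intro L β g hβ hg
  set S : ℂ → ℝ≥0∞ := fun x => ∑ i ∈ Finset.range L, cv (PP (β i)) (g i) x with hS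
  set G : ℂ → ℝ≥0∞ := fun x => ∑ i ∈ Finset.range L, g i x with hG
  have hSm : Measurable S := Finset.measurable_sum _ fun i _ => CONV.cv_meas (PP_meas _) (hg i)
  have hGm : Measurable G := Finset.measurable_sum _ fun i _ => hg i
  show ∫⁻ x, S x ^ m ≤ ENNReal.ofReal (C1 ^ m * C2 ^ (m - 1) + 1) * ∫⁻ x, G x ^ m
  set X := ∫⁻ x, S x ^ m with hX
  set Y := ∫⁻ x, G x ^ m with hY
  by_cases hYt : Y = ∞
  · rw [hYt, ENNReal.mul_top]
    · exact le_top
    · rw [Ne, ENNReal.ofReal_eq_zero, not_le]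
      positivity
  -- finiteness
  have hXt : X ≠ ∞ := by
    have b1 : ∀ i ∈ Finset.range L, ∫⁻ x, cv (PP (β i)) (g i) x ^ m < ∞ := by
      intro i hi
      have b2 : ∫⁻ x, g i x ^ m ≤ Y := by
        refine lintegral_mono fun x => ?_
        have : g i x ≤ G x := Finset.single_le_sum (f := fun i => g i x) (fun _ _ => zero_le) hi
        gcongr
      have b3 := (hM (g i) (hg i)).2
      simp only [ENNReal.rpow_natCast] at b3
      calc ∫⁻ x, cv (PP (β i)) (g i) x ^ m ≤ ∫⁻ x, (ENNReal.ofReal C1 * mx (g i) x) ^ m := by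
            refine lintegral_mono fun x => ?_
            have := hR (β i) (g i) x (hβ i) (hg i)
            gcongr
        _ = ENNReal.ofReal C1 ^ m * ∫⁻ x, mx (g i) x ^ m := by
            simp_rw [mul_pow]
            exact lintegral_const_mul' _ _ (ENNReal.pow_ne_top ENNReal.ofReal_ne_top)
        _ ≤ ENNReal.ofReal C1 ^ m * (ENNReal.ofReal C3 * Y) := by
            gcongr
            exact b3.trans (by gcongr)
        _ < ∞ := ENNReal.mul_lt_top (ENNReal.pow_lt_top ENNReal.ofReal_lt_top)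
            (ENNReal.mul_lt_top ENNReal.ofReal_lt_top (lt_top_iff_ne_top.2 hYt))
    have b4 : X ≤ (L : ℝ≥0∞) ^ m * ∑ i ∈ Finset.range L, ∫⁻ x, cv (PP (β i)) (g i) x ^ m := by
      rw [← lintegral_finset_sum _ fun i _ =>
        (CONV.cv_meas (PP_meas _) (hg i)).pow_const m, ← lintegral_const_mul']
      · exact lintegral_mono fun x => sum_pow_le L m _ hm
      · exact ENNReal.pow_ne_top (ENNReal.natCast_ne_top _)
    refine ne_top_of_le_ne_top ?_ b4
    refine ENNReal.mul_ne_top (ENNReal.pow_ne_top (ENNReal.natCast_ne_top _)) ?_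
    exact (ENNReal.sum_lt_top.2 b1).ne
  by_cases hX0 : X = 0
  · rw [hX0]
    exact zero_le
  -- the main estimate
  set w : ℂ → ℝ≥0∞ := fun x => S x ^ (m - 1) with hw
  have hwm : Measurable w := hSm.pow_const _
  have k1 : X = ∑ i ∈ Finset.range L, ∫⁻ x, cv (PP (β i)) (g i) x * w x := by
    have k0 : ∀ i ∈ Finset.range L, Measurable fun x => cv (PP (β i)) (g i) x * w x := fun i _ =>
      (CONV.cv_meas (PP_meas _) (hg i)).mul hwm
    rw [← lintegral_finset_sum _ k0]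
    refine lintegral_congr fun x => ?_
    rw [← Finset.sum_mul]
    show S x ^ m = S x * S x ^ (m - 1)
    rw [← pow_succ', Nat.sub_add_cancel hm]
  have k2 : X ≤ ENNReal.ofReal C1 * ∫⁻ x, G x * mx w x := by
    rw [k1, ← lintegral_const_mul' _ _ ENNReal.ofReal_ne_top]
    have k3 : ∀ x, ENNReal.ofReal C1 * (G x * mx w x) =
        ∑ i ∈ Finset.range L, g i x * (ENNReal.ofReal C1 * mx w x) := by
      intro x
      rw [← Finset.sum_mul]
      ring
    simp_rw [k3]
    have hmx := (hH w hwm).1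
    have k0 : ∀ i ∈ Finset.range L, Measurable fun x => g i x * (ENNReal.ofReal C1 * mx w x) :=
      fun i _ => (hg i).mul (hmx.const_mul _)
    rw [lintegral_finset_sum _ k0]
    refine Finset.sum_le_sum fun i _ => ?_
    rw [dual (PP_meas _) (hg i) hwm (PP_neg _)]
    refine lintegral_mono fun x => ?_
    have := hR (β i) w x (hβ i) hwm
    gcongr
  have hmx := (hH w hwm).1
  have k4 : ∫⁻ x, G x * mx w x ≤ Y ^ (1 / (m : ℝ)) * (ENNReal.ofReal C2 * X) ^ (1 / q) := by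
    have k5 := ENNReal.lintegral_mul_le_Lp_mul_Lq volume hpq hGm.aemeasurable hmx.aemeasurable
    have k6 : ∫⁻ x, mx w x ^ q ≤ ENNReal.ofReal C2 * X := by
      refine (hH w hwm).2.trans (le_of_eq ?_)
      congr 1
      refine lintegral_congr fun x => ?_
      show (S x ^ (m - 1)) ^ q = S x ^ m
      rw [← ENNReal.rpow_natCast, ← ENNReal.rpow_natCast, ← ENNReal.rpow_mul]
      congr 1
      rw [hq, Nat.cast_sub hm, Nat.cast_one]
      have : (m : ℝ) - 1 ≠ 0 := by linarith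
      field_simp
    simp only [ENNReal.rpow_natCast] at k5
    refine k5.trans ?_
    have : (0 : ℝ) ≤ 1 / q := by positivity
    gcongr
  have hq2 : 1 / (m : ℝ) + 1 / q = 1 := by
    have := hpq.inv_add_inv_eq_one
    simpa [one_div] using this
  have hmp : (0 : ℝ) < 1 / (m : ℝ) := by positivity
  have hqp : (0 : ℝ) < 1 / q := by positivity
  have k7 : X ^ (1 / (m : ℝ)) * X ^ (1 / q) ≤
      (ENNReal.ofReal C1 * (ENNReal.ofReal C2) ^ (1 / q) * Y ^ (1 / (m : ℝ))) * X ^ (1 / q) := by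
    rw [← ENNReal.rpow_add _ _ hX0 hXt, hq2, ENNReal.rpow_one]
    refine k2.trans ?_
    refine (mul_le_mul_right k4 _).trans (le_of_eq ?_)
    rw [ENNReal.mul_rpow_of_nonneg _ _ hqp.le]
    ring
  have k8 : X ^ (1 / (m : ℝ)) ≤
      ENNReal.ofReal C1 * (ENNReal.ofReal C2) ^ (1 / q) * Y ^ (1 / (m : ℝ)) := by
    have c0 : X ^ (1 / q) ≠ 0 := by
      rw [Ne, ENNReal.rpow_eq_zero_iff]
      rintro (h | h)
      · exact hX0 h.1
      · exact hXt h.1
    have ct : X ^ (1 / q) ≠ ∞ := ENNReal.rpow_ne_top_of_nonneg hqp.le hXt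
    exact (ENNReal.mul_le_mul_iff_left c0 ct).1 k7
  have k9 : X ≤ ENNReal.ofReal C1 ^ m * ENNReal.ofReal C2 ^ (m - 1) * Y := by
    have d1 : (X ^ (1 / (m : ℝ))) ^ m = X := by
      rw [← ENNReal.rpow_natCast, ← ENNReal.rpow_mul, one_div, inv_mul_cancel₀ (by positivity),
        ENNReal.rpow_one]
    have d2 : (Y ^ (1 / (m : ℝ))) ^ m = Y := by
      rw [← ENNReal.rpow_natCast, ← ENNReal.rpow_mul, one_div, inv_mul_cancel₀ (by positivity),
        ENNReal.rpow_one]
    have d3 : ((ENNReal.ofReal C2) ^ (1 / q)) ^ m = ENNReal.ofReal C2 ^ (m - 1) := by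
      rw [← ENNReal.rpow_natCast, ← ENNReal.rpow_mul, ← ENNReal.rpow_natCast]
      congr 1
      rw [hq, Nat.cast_sub hm, Nat.cast_one]
      have : (m : ℝ) - 1 ≠ 0 := by linarith
      field_simp
    calc X = (X ^ (1 / (m : ℝ))) ^ m := d1.symm
      _ ≤ (ENNReal.ofReal C1 * (ENNReal.ofReal C2) ^ (1 / q) * Y ^ (1 / (m : ℝ))) ^ m := by gcongr
      _ = _ := by rw [mul_pow, mul_pow, d2, d3]
  refine k9.trans ?_
  gcongr
  rw [← ENNReal.ofReal_pow hC1, ← ENNReal.ofReal_pow hC2, ← ENNReal.ofReal_mul (by positivity)]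
  apply ENNReal.ofReal_le_ofReal
  linarith

end Pool.Agent.N892.BW.DMX
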