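import Pool.Agent.N892.BW.Stm

/-!
Powers of the Beurling transform: duality and scaling (BW/DUA, helper907).
-/

set_option autoImplicit false

open MeasureTheory ENNReal Filter Topology Complex
open scoped ComplexConjugate

namespace Pool.Agent.N892.BW.DUA

open Pool.Agent.N892.BW

/-! ### the kernel -/

theorem Kn_smul {n : ℕ} (hn : 1 ≤ n) {t : ℝ} (ht : t ≠ 0) (x : ℂ) :
    Kn n ((t : ℂ) * x) = ((t : ℂ) ^ 2)⁻¹ * Kn n x := by
  unfold Kn
  rw [map_mul, Complex.conj_ofReal, mul_pow, mul_pow]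
  have ht' : (t : ℂ) ≠ 0 := by exact_mod_cast ht
  have h : (t : ℂ) ^ (n + 1) = (t : ℂ) ^ (n - 1) * (t : ℂ) ^ 2 := by
    rw [← pow_add]
    congr 1
    omega
  rw [h]
  by_cases hx : x = 0
  · subst hx
    simp
  · field_simp

theorem measurable_Kn (n : ℕ) : Measurable (Kn n) := by
  unfold Kn
  have h : Measurable (fun x : ℂ => (starRingEnd ℂ) x) := Complex.continuous_conj.measurable
  exact ((measurable_const.mul (h.pow_const _)).div (measurable_id.pow_const _))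

theorem norm_Kn {n : ℕ} (hn : 1 ≤ n) {x : ℂ} (hx : x ≠ 0) :
    ‖Kn n x‖ = (n : ℝ) / Real.pi / ‖x‖ ^ 2 := by
  unfold Kn
  have h0 : ‖x‖ ≠ 0 := norm_ne_zero_iff.2 hx
  rw [norm_div, norm_mul, norm_mul, norm_pow, norm_neg, norm_one, one_pow, one_mul, norm_div,
    Complex.norm_natCast, Complex.norm_real, Real.norm_of_nonneg Real.pi_pos.le, norm_pow,
    norm_pow, RCLike.norm_conj]
  have h : ‖x‖ ^ (n + 1) = ‖x‖ ^ (n - 1) * ‖x‖ ^ 2 := by
    rw [← pow_add]
    congr 1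
    omega
  rw [h]
  field_simp

theorem measurable_kk (n : ℕ) {ψ : ℂ → ℝ} (hψ : Continuous ψ) : Measurable (kk n ψ) := by
  unfold kk
  exact (measurable_Kn n).mul (Complex.measurable_ofReal.comp hψ.measurable)

theorem kk_bd {n : ℕ} (hn : 1 ≤ n) {B r s : ℝ} (hr : 0 < r) {ψ : ℂ → ℝ} (hψ : Cut B r s ψ) (x : ℂ) :
    ‖kk n ψ x‖ ≤ (n : ℝ) / Real.pi / r ^ 2 := by
  have hpi := Real.pi_pos
  unfold kk
  by_cases h : ψ x = 0
  · rw [h]
    simp
    positivity
  · have h1 := hψ.2.2.1 x h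
    have hx : x ≠ 0 := by
      rintro rfl
      rw [norm_zero] at h1
      linarith [h1.1]
    rw [norm_mul, norm_Kn hn hx, Complex.norm_real, Real.norm_eq_abs, abs_of_nonneg (hψ.2.1 x).1]
    calc (n : ℝ) / Real.pi / ‖x‖ ^ 2 * ψ x ≤ (n : ℝ) / Real.pi / ‖x‖ ^ 2 * 1 := by
          have := (hψ.2.1 x).2
          gcongr
      _ = (n : ℝ) / Real.pi / ‖x‖ ^ 2 := mul_one _
      _ ≤ _ := by
          have := h1.1
          gcongr

theorem kk_supp (n : ℕ) {B r s : ℝ} {ψ : ℂ → ℝ} (hψ : Cut B r s ψ) {x : ℂ} (hx : s < ‖x‖) :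
    kk n ψ x = 0 := by
  unfold kk
  by_cases h : ψ x = 0
  · rw [h]
    simp
  · have h1 := hψ.2.2.1 x h
    linarith [h1.2]

/-- the linear map `x ↦ t x` -/
noncomputable def Lt (t : ℝ) : ℂ →L[ℝ] ℂ := t • ContinuousLinearMap.id ℝ ℂ

theorem Lt_apply (t : ℝ) (x : ℂ) : Lt t x = (t : ℂ) * x := by
  simp [Lt]

theorem norm_Lt (t : ℝ) : ‖Lt t‖ ≤ |t| := by
  refine ContinuousLinearMap.opNorm_le_bound _ (abs_nonneg _) fun x => ?_
  rw [Lt_apply, norm_mul, Complex.norm_real, Real.norm_eq_abs]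

theorem cut_scale {B r s t : ℝ} (hr : 0 < r) (ht : |t| = r) {ψ : ℂ → ℝ} (hψ : Cut B r (r * s) ψ) :
    Cut B 1 s (fun x => ψ ((t : ℂ) * x)) := by
  have e : (fun x => ψ ((t : ℂ) * x)) = ψ ∘ (Lt t) := by
    funext x
    show ψ _ = ψ (Lt t x)
    rw [Lt_apply]
  have hn : ∀ x : ℂ, ‖(t : ℂ) * x‖ = r * ‖x‖ := by
    intro x
    rw [norm_mul, Complex.norm_real, Real.norm_eq_abs, ht]
  obtain ⟨h1, h2, h3, h4⟩ := hψ
  refine ⟨?_, fun x => h2 _, ?_, ?_⟩
  · rw [e]
    exact h1.comp (Lt t).contDiff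
  · intro x hx
    have h5 := h3 _ hx
    rw [hn] at h5
    constructor
    · have := h5.1
      by_contra hcon
      push Not at hcon
      nlinarith
    · exact le_of_mul_le_mul_left h5.2 hr
  · intro x
    rw [e]
    have hL := norm_Lt t
    rw [ht] at hL
    have h5 := h4 ((t : ℂ) * x)
    rw [hn] at h5
    constructor
    · have h6 : fderiv ℝ (ψ ∘ (Lt t)) x = (fderiv ℝ ψ (Lt t x)).comp (Lt t) := by
        rw [fderiv_comp x (h1.differentiable (by norm_num) _) (Lt t).differentiableAt,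
          ContinuousLinearMap.fderiv]
      rw [h6, Lt_apply]
      have h7 := ContinuousLinearMap.opNorm_comp_le (fderiv ℝ ψ ((t : ℂ) * x)) (Lt t)
      calc ‖(fderiv ℝ ψ ((t : ℂ) * x)).comp (Lt t)‖ * ‖x‖
          ≤ (‖fderiv ℝ ψ ((t : ℂ) * x)‖ * r) * ‖x‖ := by
            refine mul_le_mul_of_nonneg_right (h7.trans ?_) (norm_nonneg _)
            gcongr
        _ = ‖fderiv ℝ ψ ((t : ℂ) * x)‖ * (r * ‖x‖) := by ring
        _ ≤ B := h5.1
    · have h6 : iteratedFDeriv ℝ 2 (ψ ∘ (Lt t)) x =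
          (iteratedFDeriv ℝ 2 ψ (Lt t x)).compContinuousLinearMap fun _ => Lt t :=
        (Lt t).iteratedFDeriv_comp_right h1 x (by norm_num)
      rw [h6, Lt_apply]
      have h7 := ContinuousMultilinearMap.norm_compContinuousLinearMap_le
        (iteratedFDeriv ℝ 2 ψ ((t : ℂ) * x)) (fun _ => Lt t)
      rw [Fin.prod_univ_two] at h7
      calc ‖(iteratedFDeriv ℝ 2 ψ ((t : ℂ) * x)).compContinuousLinearMap fun _ => Lt t‖ * ‖x‖ ^ 2
          ≤ (‖iteratedFDeriv ℝ 2 ψ ((t : ℂ) * x)‖ * (r * r)) * ‖x‖ ^ 2 := by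
            refine mul_le_mul_of_nonneg_right (h7.trans ?_) (by positivity)
            gcongr
        _ = ‖iteratedFDeriv ℝ 2 ψ ((t : ℂ) * x)‖ * (r * ‖x‖) ^ 2 := by ring
        _ ≤ B := h5.2

/-! ### scaling of integrals -/

theorem lint_scale {t : ℝ} (ht : t ≠ 0) (F : ℂ → ℝ≥0∞) :
    ∫⁻ w : ℂ, F ((t : ℂ) * w) = ENNReal.ofReal ((t ^ 2)⁻¹) * ∫⁻ w, F w := by
  have h1 : Measure.map (fun w : ℂ => t • w) volume =
      ENNReal.ofReal |(t ^ (Module.finrank ℝ ℂ))⁻¹| • (volume : Measure ℂ) :=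
    Measure.map_addHaar_smul volume ht
  have h2 : MeasurableEmbedding (fun w : ℂ => t • w) :=
    (Homeomorph.smulOfNeZero t ht).measurableEmbedding
  have h3 := h2.lintegral_map F (μ := (volume : Measure ℂ))
  rw [h1, lintegral_smul_measure] at h3
  have h4 : |(t ^ (Module.finrank ℝ ℂ))⁻¹| = (t ^ 2)⁻¹ := by
    rw [Complex.finrank_real_complex]
    exact abs_of_nonneg (by positivity)
  rw [h4] at h3
  rw [smul_eq_mul] at h3
  rw [h3]
  refine lintegral_congr fun w => ?_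
  rw [Complex.real_smul]

theorem int_scale {t : ℝ} (F : ℂ → ℂ) :
    ∫ w : ℂ, F ((t : ℂ) * w) = ((t : ℂ) ^ 2)⁻¹ * ∫ w, F w := by
  have h := Measure.integral_comp_smul (volume : Measure ℂ) F t
  rw [Complex.finrank_real_complex, abs_of_nonneg (by positivity)] at h
  simp only [Complex.real_smul] at h
  rw [h]
  push_cast
  rfl

/-- the hypothesis for the dual operator -/
theorem dual_hyp {m n : ℕ} {B r s A : ℝ} (hn : 1 ≤ n) (hr : 0 < r)
    (H : ∀ ψ : ℂ → ℝ, Cut B 1 s ψ → ∀ g : ℂ → ℂ, Nice g →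
      ∫⁻ w, ‖So n ψ g w‖ₑ ^ (qq m) ≤ ENNReal.ofReal (A ^ (qq m)) * ∫⁻ z, ‖g z‖ₑ ^ (qq m))
    {ψ : ℂ → ℝ} (hψ : Cut B r (r * s) ψ) (φ : ℂ → ℂ) (hφ : Nice φ) :
    ∫⁻ z, ‖∫ w, kk n ψ (w - z) * φ w‖ₑ ^ (qq m) ≤
      ENNReal.ofReal (A ^ (qq m)) * ∫⁻ w, ‖φ w‖ₑ ^ (qq m) := by
  have hcut : Cut B 1 s (fun x => ψ (((-r : ℝ) : ℂ) * x)) :=
    cut_scale hr (by rw [abs_neg, abs_of_pos hr]) hψ
  have hnice : Nice (fun z => φ ((r : ℂ) * z)) := by
    obtain ⟨h1, ⟨M, hM⟩, ⟨R, hR⟩⟩ := hφ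
    refine ⟨h1.comp (measurable_const.mul measurable_id), ⟨M, fun x => hM _⟩, ⟨R / r, fun x hx => ?_⟩⟩
    apply hR
    rw [norm_mul, Complex.norm_real, Real.norm_eq_abs, abs_of_pos hr]
    rwa [div_lt_iff₀ hr, mul_comm] at hx
  have hS : ∀ z : ℂ, (∫ w, kk n ψ (w - (r : ℂ) * z) * φ w) =
      So n (fun x => ψ (((-r : ℝ) : ℂ) * x)) (fun z => φ ((r : ℂ) * z)) z := by
    intro z
    have h1 := int_scale (t := r) (fun w => kk n ψ (w - (r : ℂ) * z) * φ w)
    have hr2 : ((r : ℂ) ^ 2) ≠ 0 := pow_ne_zero _ (by exact_mod_cast hr.ne')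
    have h2 : (∫ w, kk n ψ (w - (r : ℂ) * z) * φ w) =
        (r : ℂ) ^ 2 * ∫ w, kk n ψ ((r : ℂ) * w - (r : ℂ) * z) * φ ((r : ℂ) * w) := by
      rw [h1, mul_inv_cancel_left₀ hr2]
    rw [h2, So, ← integral_const_mul]
    refine integral_congr_ae (Filter.Eventually.of_forall fun w => ?_)
    show (r : ℂ) ^ 2 * (kk n ψ ((r : ℂ) * w - (r : ℂ) * z) * φ ((r : ℂ) * w)) =
      kk n (fun x => ψ (((-r : ℝ) : ℂ) * x)) (z - w) * φ ((r : ℂ) * w)
    have h3 : (r : ℂ) * w - (r : ℂ) * z = ((-r : ℝ) : ℂ) * (z - w) := by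
      push_cast
      ring
    rw [h3]
    unfold kk
    rw [Kn_smul hn (neg_ne_zero.2 hr.ne')]
    have h4 : (((-r : ℝ) : ℂ)) ^ 2 = (r : ℂ) ^ 2 := by
      push_cast
      ring
    rw [h4]
    have hr0 : (r : ℂ) ≠ 0 := by exact_mod_cast hr.ne'
    field_simp
  have h1 := H _ hcut _ hnice
  have h2 := lint_scale hr.ne' (fun z => ‖∫ w, kk n ψ (w - z) * φ w‖ₑ ^ (qq m))
  have h3 := lint_scale hr.ne' (fun z => ‖φ z‖ₑ ^ (qq m))
  rw [h3] at h1
  have h4 : ∫⁻ w, ‖So n (fun x => ψ (((-r : ℝ) : ℂ) * x)) (fun z => φ ((r : ℂ) * z)) w‖ₑ ^ (qq m) =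
      ENNReal.ofReal ((r ^ 2)⁻¹) * ∫⁻ z, ‖∫ w, kk n ψ (w - z) * φ w‖ₑ ^ (qq m) := by
    rw [← h2]
    refine lintegral_congr fun z => ?_
    rw [hS]
  rw [h4, mul_left_comm] at h1
  have h5 : ENNReal.ofReal ((r ^ 2)⁻¹) ≠ 0 := by
    rw [Ne, ENNReal.ofReal_eq_zero, not_le]
    positivity
  exact (ENNReal.mul_le_mul_iff_right h5 ENNReal.ofReal_ne_top).1 h1

/-! ### duality -/

theorem holder (m : ℕ) (hm : 2 ≤ m) : (2 * (m : ℝ)).HolderConjugate (qq m) := by
  have hm' : (2 : ℝ) ≤ m := by exact_mod_cast hm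
  rw [Real.holderConjugate_iff]
  refine ⟨by linarith, ?_⟩
  unfold qq
  have h1 : (2 * (m : ℝ) - 1) ≠ 0 := by linarith
  field_simp
  ring

theorem dual_main {m : ℕ} (hm : 2 ≤ m) {k : ℂ → ℂ} (hk : Measurable k) {K0 R0 : ℝ}
    (hK : ∀ x, ‖k x‖ ≤ K0) (hR : ∀ x, R0 < ‖x‖ → k x = 0) {A : ℝ} (hA : 0 ≤ A)
    (H : ∀ φ, Nice φ → ∫⁻ z, ‖∫ w, k (w - z) * φ w‖ₑ ^ (qq m) ≤
      ENNReal.ofReal (A ^ (qq m)) * ∫⁻ w, ‖φ w‖ₑ ^ (qq m))
    {f : ℂ → ℂ} (hf : Measurable f) (hfp : ∫⁻ z, ‖f z‖ₑ ^ (2 * m) < ∞) :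
    ∫⁻ w, ‖∫ z, k (w - z) * f z‖ₑ ^ (2 * m) ≤
      ENNReal.ofReal (A ^ (2 * m)) * ∫⁻ z, ‖f z‖ₑ ^ (2 * m) := by
  have hK0 : 0 ≤ K0 := (norm_nonneg _).trans (hK 0)
  have hpq := holder m hm
  have hq0 : 0 < qq m := hpq.symm.pos
  have hp0 : (0 : ℝ) < 2 * (m : ℝ) := hpq.pos
  -- the function `h`
  obtain ⟨h, hh⟩ : ∃ h : ℂ → ℂ, h = fun w => ∫ z, k (w - z) * f z := ⟨_, rfl⟩
  have hjoint : StronglyMeasurable (Function.uncurry fun w z : ℂ => k (w - z) * f z) :=
    ((hk.comp (measurable_fst.sub measurable_snd)).mul (hf.comp measurable_snd)).stronglyMeasurable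
  have hmeas : Measurable h := by
    rw [hh]
    exact hjoint.integral_prod_right.measurable
  show ∫⁻ w, ‖(fun w => ∫ z, k (w - z) * f z) w‖ₑ ^ (2 * m) ≤ _
  rw [← hh]
  -- the sets
  let E : ℕ → Set ℂ := fun M => {w | ‖w‖ ≤ M ∧ ‖h w‖ ≤ M}
  have hEm : ∀ M, MeasurableSet (E M) := fun M =>
    (measurableSet_le measurable_norm measurable_const).inter
      (measurableSet_le hmeas.norm measurable_const)
  have hEmono : Monotone E := by
    intro M M' hM w hw
    have h1 : (M : ℝ) ≤ M' := by exact_mod_cast hM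
    exact ⟨hw.1.trans h1, hw.2.trans h1⟩
  have hEu : ⋃ M, E M = Set.univ := by
    rw [Set.eq_univ_iff_forall]
    intro w
    obtain ⟨M, hM⟩ := exists_nat_ge (max ‖w‖ ‖h w‖)
    exact Set.mem_iUnion.2 ⟨M, (le_max_left _ _).trans hM, (le_max_right _ _).trans hM⟩
  -- the bound on every set
  have key : ∀ M : ℕ, ∫⁻ w in E M, ‖h w‖ₑ ^ (2 * m) ≤
      ENNReal.ofReal (A ^ (2 * m)) * ∫⁻ z, ‖f z‖ₑ ^ (2 * m) := by
    intro M
    obtain ⟨φ, hφdef⟩ : ∃ φ : ℂ → ℂ, φ = (E M).indicator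
        (fun w => (starRingEnd ℂ) (h w) * ((‖h w‖ : ℝ) : ℂ) ^ (2 * m - 2)) := ⟨_, rfl⟩
    have hφm : Measurable φ := by
      rw [hφdef]
      refine Measurable.indicator ?_ (hEm M)
      exact (Complex.continuous_conj.measurable.comp hmeas).mul
        ((Complex.measurable_ofReal.comp hmeas.norm).pow_const _)
    have hφn : ∀ w ∈ E M, ‖φ w‖ = ‖h w‖ ^ (2 * m - 1) := by
      intro w hw
      rw [hφdef, Set.indicator_of_mem hw, norm_mul, norm_pow, Complex.norm_real, norm_norm,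
        RCLike.norm_conj, ← pow_succ']
      congr 1
      omega
    have hφ0 : ∀ w, w ∉ E M → φ w = 0 := fun w hw => by rw [hφdef, Set.indicator_of_notMem hw]
    have hφb : ∀ w, ‖φ w‖ ≤ (M : ℝ) ^ (2 * m - 1) := by
      intro w
      by_cases hw : w ∈ E M
      · rw [hφn w hw]
        exact pow_le_pow_left₀ (norm_nonneg _) hw.2 _
      · rw [hφ0 w hw, norm_zero]
        positivity
    have hφs : ∀ w, (M : ℝ) < ‖w‖ → φ w = 0 := fun w hw => hφ0 w fun h => absurd h.1 (not_le.2 hw)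
    have hnice : Nice φ := ⟨hφm, ⟨_, hφb⟩, ⟨M, hφs⟩⟩
    have hprod : ∀ w, h w * φ w = (((E M).indicator (fun w => ‖h w‖ ^ (2 * m)) w : ℝ) : ℂ) := by
      intro w
      by_cases hw : w ∈ E M
      · rw [hφdef, Set.indicator_of_mem hw, Set.indicator_of_mem hw, ← mul_assoc,
          Complex.mul_conj, Complex.normSq_eq_norm_sq]
        push_cast
        rw [← pow_add]
        congr 1
        omega
      · rw [hφ0 w hw, Set.indicator_of_notMem hw]
        simp
    -- the integral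
    obtain ⟨J, hJ⟩ : ∃ J, J = ∫⁻ w in E M, ‖h w‖ₑ ^ (2 * m) := ⟨_, rfl⟩
    rw [← hJ]
    have hEvol : volume (E M) < ∞ := by
      refine lt_of_le_of_lt (measure_mono (t := Metric.closedBall 0 (M : ℝ)) fun w hw => ?_)
        measure_closedBall_lt_top
      rw [mem_closedBall_zero_iff]
      exact hw.1
    have hJlt : J < ∞ := by
      rw [hJ]
      calc ∫⁻ w in E M, ‖h w‖ₑ ^ (2 * m) ≤ ∫⁻ w in E M, (ENNReal.ofReal M) ^ (2 * m) := by
            refine setLIntegral_mono measurable_const fun w hw => ?_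
            refine pow_le_pow_left' ?_ _
            rw [← ofReal_norm]
            exact ENNReal.ofReal_le_ofReal hw.2
        _ = (ENNReal.ofReal M) ^ (2 * m) * volume (E M) := setLIntegral_const _ _
        _ < ∞ := ENNReal.mul_lt_top (ENNReal.pow_lt_top ENNReal.ofReal_lt_top) hEvol
    have hJe : J = ‖∫ w, h w * φ w‖ₑ := by
      have e1 : ∫ w, h w * φ w = ((∫ w, (E M).indicator (fun w => ‖h w‖ ^ (2 * m)) w : ℝ) : ℂ) := by
        rw [← integral_complex_ofReal]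
        exact integral_congr_ae (Filter.Eventually.of_forall hprod)
      have hnn : ∀ w, 0 ≤ (E M).indicator (fun w => ‖h w‖ ^ (2 * m)) w := fun w =>
        Set.indicator_nonneg (fun w _ => by positivity) w
      have e2 : ∫ w, (E M).indicator (fun w => ‖h w‖ ^ (2 * m)) w = J.toReal := by
        rw [integral_eq_lintegral_of_nonneg_ae (Filter.Eventually.of_forall hnn)
          ((hmeas.norm.pow_const _).indicator (hEm M)).aestronglyMeasurable, hJ,
          ← lintegral_indicator (hEm M)]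
        congr 1
        refine lintegral_congr fun w => ?_
        by_cases hw : w ∈ E M
        · rw [Set.indicator_of_mem hw, Set.indicator_of_mem hw, ENNReal.ofReal_pow (norm_nonneg _),
            ofReal_norm]
        · rw [Set.indicator_of_notMem hw, Set.indicator_of_notMem hw, ENNReal.ofReal_zero]
      rw [e1, e2, ← ofReal_norm, Complex.norm_real, Real.norm_eq_abs,
        abs_of_nonneg ENNReal.toReal_nonneg, ENNReal.ofReal_toReal hJlt.ne]
    -- Fubini
    have hφint : Integrable φ := by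
      have h1 : IntegrableOn φ (Metric.closedBall 0 (M : ℝ)) :=
        Measure.integrableOn_of_bounded measure_closedBall_lt_top.ne hφm.aestronglyMeasurable
          (Filter.Eventually.of_forall hφb)
      refine h1.integrable_of_forall_notMem_eq_zero fun w hw => hφs w ?_
      rw [mem_closedBall_zero_iff, not_le] at hw
      exact hw
    obtain ⟨g, hg⟩ : ∃ g : ℂ → ℂ, g = (Metric.closedBall 0 ((M : ℝ) + R0)).indicator f := ⟨_, rfl⟩
    have hgint : Integrable g := by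
      rw [hg, integrable_indicator_iff measurableSet_closedBall]
      refine ⟨hf.aestronglyMeasurable, ?_⟩
      show ∫⁻ z in Metric.closedBall 0 ((M : ℝ) + R0), ‖f z‖ₑ < ∞
      calc ∫⁻ z in Metric.closedBall 0 ((M : ℝ) + R0), ‖f z‖ₑ
          ≤ ∫⁻ z in Metric.closedBall 0 ((M : ℝ) + R0), (1 + ‖f z‖ₑ ^ (2 * m)) := by
            refine lintegral_mono fun z => ?_
            show ‖f z‖ₑ ≤ 1 + ‖f z‖ₑ ^ (2 * m)
            rcases le_total ‖f z‖ₑ 1 with h1 | h1
            · exact h1.trans le_self_add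
            · refine le_trans ?_ le_add_self
              exact le_self_pow h1 (by omega)
        _ = volume (Metric.closedBall (0 : ℂ) ((M : ℝ) + R0)) +
            ∫⁻ z in Metric.closedBall 0 ((M : ℝ) + R0), ‖f z‖ₑ ^ (2 * m) := by
            rw [lintegral_add_left measurable_const]
            simp
        _ < ∞ := ENNReal.add_lt_top.2 ⟨measure_closedBall_lt_top,
            lt_of_le_of_lt (setLIntegral_le_lintegral _ _) hfp⟩
    have hFint : Integrable (Function.uncurry fun w z : ℂ => k (w - z) * f z * φ w)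
        (volume.prod volume) := by
      refine Integrable.mono' ((hφint.norm.const_mul K0).mul_prod hgint.norm) ?_ ?_
      · exact (((hk.comp (measurable_fst.sub measurable_snd)).mul
          (hf.comp measurable_snd)).mul (hφm.comp measurable_fst)).aestronglyMeasurable
      · refine Filter.Eventually.of_forall ?_
        rintro ⟨w, z⟩
        show ‖k (w - z) * f z * φ w‖ ≤ K0 * ‖φ w‖ * ‖g z‖
        by_cases h1 : (M : ℝ) < ‖w‖
        · rw [hφs w h1, mul_zero, norm_zero]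
          positivity
        by_cases h2 : R0 < ‖w - z‖
        · rw [hR _ h2, zero_mul, zero_mul, norm_zero]
          positivity
        have h3 : z ∈ Metric.closedBall (0 : ℂ) ((M : ℝ) + R0) := by
          rw [mem_closedBall_zero_iff]
          push Not at h1 h2
          calc ‖z‖ = ‖w - (w - z)‖ := by congr 1; ring
            _ ≤ ‖w‖ + ‖w - z‖ := norm_sub_le _ _
            _ ≤ M + R0 := add_le_add h1 h2
        rw [hg, Set.indicator_of_mem h3, norm_mul, norm_mul]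
        have := hK (w - z)
        calc ‖k (w - z)‖ * ‖f z‖ * ‖φ w‖ ≤ K0 * ‖f z‖ * ‖φ w‖ := by gcongr
          _ = K0 * ‖φ w‖ * ‖f z‖ := by ring
    obtain ⟨Φ, hΦ⟩ : ∃ Φ : ℂ → ℂ, Φ = fun z => ∫ w, k (w - z) * φ w := ⟨_, rfl⟩
    have hΦm : Measurable Φ := by
      have h1 : StronglyMeasurable (Function.uncurry fun z w : ℂ => k (w - z) * φ w) :=
        ((hk.comp (measurable_snd.sub measurable_fst)).mul
          (hφm.comp measurable_snd)).stronglyMeasurable
      rw [hΦ]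
      exact h1.integral_prod_right.measurable
    have hfub : ∫ w, h w * φ w = ∫ z, f z * Φ z := by
      calc ∫ w, h w * φ w = ∫ w, ∫ z, k (w - z) * f z * φ w := by
            refine integral_congr_ae (Filter.Eventually.of_forall fun w => ?_)
            show h w * φ w = ∫ z, k (w - z) * f z * φ w
            rw [integral_mul_const, hh]
        _ = ∫ z, ∫ w, k (w - z) * f z * φ w := integral_integral_swap hFint
        _ = ∫ z, f z * Φ z := by
            refine integral_congr_ae (Filter.Eventually.of_forall fun z => ?_)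
            show ∫ w, k (w - z) * f z * φ w = f z * Φ z
            rw [hΦ, ← integral_const_mul]
            refine integral_congr_ae (Filter.Eventually.of_forall fun w => ?_)
            show k (w - z) * f z * φ w = f z * (k (w - z) * φ w)
            ring
    -- the inequality of Hoelder
    obtain ⟨N, hN⟩ : ∃ N, N = ∫⁻ z, ‖f z‖ₑ ^ (2 * m) := ⟨_, rfl⟩
    rw [← hN]
    have hNr : N = ∫⁻ z, ‖f z‖ₑ ^ (2 * (m : ℝ)) := by
      rw [hN]
      refine lintegral_congr fun z => ?_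
      rw [← ENNReal.rpow_natCast]
      push_cast
      rfl
    have hφq : ∫⁻ w, ‖φ w‖ₑ ^ (qq m) = J := by
      rw [hJ, ← lintegral_indicator (hEm M)]
      refine lintegral_congr fun w => ?_
      by_cases hw : w ∈ E M
      · rw [Set.indicator_of_mem hw, ← ofReal_norm, hφn w hw,
          ENNReal.ofReal_pow (norm_nonneg _), ofReal_norm, ← ENNReal.rpow_natCast,
          ← ENNReal.rpow_mul, ← ENNReal.rpow_natCast]
        congr 1
        rw [Nat.cast_sub (by omega)]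
        unfold qq
        push_cast
        have hm' : (2 : ℝ) ≤ m := by exact_mod_cast hm
        have h1 : (2 * (m : ℝ) - 1) ≠ 0 := by linarith
        field_simp
      · rw [Set.indicator_of_notMem hw, hφ0 w hw, enorm_zero, ENNReal.zero_rpow_of_pos hq0]
    have hH := H φ hnice
    rw [hφq] at hH
    have hmain : J ≤ N ^ (1 / (2 * (m : ℝ))) * (ENNReal.ofReal A * J ^ (1 / qq m)) := by
      calc J = ‖∫ z, f z * Φ z‖ₑ := by rw [hJe, hfub]
        _ ≤ ∫⁻ z, ‖f z * Φ z‖ₑ := enorm_integral_le_lintegral_enorm _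
        _ = ∫⁻ z, ((fun z => ‖f z‖ₑ) * (fun z => ‖Φ z‖ₑ)) z := by
            refine lintegral_congr fun z => ?_
            rw [enorm_mul]
            rfl
        _ ≤ (∫⁻ z, ‖f z‖ₑ ^ (2 * (m : ℝ))) ^ (1 / (2 * (m : ℝ))) *
            (∫⁻ z, ‖Φ z‖ₑ ^ (qq m)) ^ (1 / qq m) :=
            ENNReal.lintegral_mul_le_Lp_mul_Lq _ hpq hf.enorm.aemeasurable hΦm.enorm.aemeasurable
        _ ≤ N ^ (1 / (2 * (m : ℝ))) * (ENNReal.ofReal (A ^ (qq m)) * J) ^ (1 / qq m) := by
            rw [← hNr]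
            refine mul_le_mul_right ?_ _
            refine ENNReal.rpow_le_rpow ?_ (by positivity)
            rw [hΦ]
            exact hH
        _ = _ := by
            rw [ENNReal.mul_rpow_of_nonneg _ _ (by positivity),
              ← ENNReal.ofReal_rpow_of_nonneg hA hq0.le, ← ENNReal.rpow_mul,
              mul_one_div_cancel hq0.ne', ENNReal.rpow_one]
    by_cases hJ0 : J = 0
    · rw [hJ0]
      exact zero_le
    have hJq0 : J ^ (1 / qq m) ≠ 0 := by
      rw [Ne, ENNReal.rpow_eq_zero_iff]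
      push Not
      exact ⟨fun h => absurd h hJ0, fun h => absurd h hJlt.ne⟩
    have hJqt : J ^ (1 / qq m) ≠ ∞ := ENNReal.rpow_ne_top_of_nonneg (by positivity) hJlt.ne
    have hsplit : J = J ^ (1 / (2 * (m : ℝ))) * J ^ (1 / qq m) := by
      rw [← ENNReal.rpow_add _ _ hJ0 hJlt.ne]
      have h1 : 1 / (2 * (m : ℝ)) + 1 / qq m = 1 := by
        have := hpq.inv_add_inv_eq_one
        rw [one_div, one_div]
        exact this
      rw [h1, ENNReal.rpow_one]
    have h2 : J ^ (1 / (2 * (m : ℝ))) * J ^ (1 / qq m) ≤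
        (N ^ (1 / (2 * (m : ℝ))) * ENNReal.ofReal A) * J ^ (1 / qq m) := by
      rw [← hsplit, mul_assoc]
      exact hmain
    have h3 : J ^ (1 / (2 * (m : ℝ))) ≤ N ^ (1 / (2 * (m : ℝ))) * ENNReal.ofReal A :=
      (ENNReal.mul_le_mul_iff_left hJq0 hJqt).1 h2
    have h4 := ENNReal.rpow_le_rpow h3 hp0.le
    rw [ENNReal.mul_rpow_of_nonneg _ _ hp0.le, ← ENNReal.rpow_mul, ← ENNReal.rpow_mul,
      one_div_mul_cancel hp0.ne', ENNReal.rpow_one, ENNReal.rpow_one] at h4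
    have h5 : ENNReal.ofReal A ^ (2 * (m : ℝ)) = ENNReal.ofReal (A ^ (2 * m)) := by
      rw [ENNReal.ofReal_pow hA, ← ENNReal.rpow_natCast]
      push_cast
      rfl
    rw [h5] at h4
    rw [mul_comm]
    exact h4
  have h1 : ∫⁻ w, ‖h w‖ₑ ^ (2 * m) = ⨆ M, ∫⁻ w in E M, ‖h w‖ₑ ^ (2 * m) := by
    rw [← setLIntegral_univ, ← hEu]
    exact setLIntegral_iUnion_of_directed _ hEmono.directed_le
  rw [h1]
  exact iSup_le key

/-- BW/DUA -/
theorem t : Pool.Agent.N892.BW.S_DUA := by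
  intro m n B r s A hm hn hr hA H ψ hψ f hf hfp
  exact dual_main hm (measurable_kk n hψ.1.continuous) (kk_bd hn hr hψ)
    (fun x hx => kk_supp n hψ hx) hA (dual_hyp hn hr H hψ) hf hfp

end Pool.Agent.N892.BW.DUA
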