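import Pool.Agent.N892.BW.Stm2

/-!
The upper energy inequality: integration of the numerical inequality, the linear term vanishes by the
orthogonality of high and low frequencies.
-/

set_option autoImplicit false

open MeasureTheory ENNReal Filter Topology Complex
open scoped ComplexConjugate ContDiff

namespace Pool.Agent.N892.BW.ENU

open Pool.Agent.N892.BW

lemma cont_e2 (x : ℂ) : Continuous (fun ξ : ℂ => e2 x ξ) := by
  unfold e2
  fun_prop

lemma int_e2 {a b : ℝ} {h : ℂ → ℂ} (hh : Bd a b h) (x : ℂ) : Integrable (fun ξ => e2 x ξ * h ξ) := by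
  apply Continuous.integrable_of_hasCompactSupport
  · exact (cont_e2 x).mul hh.1.continuous
  · apply HasCompactSupport.intro (isCompact_closedBall (0 : ℂ) b)
    intro ξ hξ
    by_cases h0 : h ξ = 0
    · rw [h0, mul_zero]
    · exact absurd (mem_closedBall_zero_iff.2 (hh.2 ξ h0).2) hξ

lemma Fi_add {a b a' b' : ℝ} {h₁ h₂ : ℂ → ℂ} (hh₁ : Bd a b h₁) (hh₂ : Bd a' b' h₂) (x : ℂ) :
    Fi (fun ξ => h₁ ξ + h₂ ξ) x = Fi h₁ x + Fi h₂ x := by
  unfold Fi
  rw [← integral_add (int_e2 hh₁ x) (int_e2 hh₂ x)]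
  refine integral_congr_ae (ae_of_all _ fun ξ => ?_)
  simp only [mul_add]

/-- conversion -/
lemma conv {G : ℂ → ℝ} {F : ℂ → ℝ≥0∞} (h0 : ∀ x, 0 ≤ G x) (hG : Integrable G)
    (h : ∀ x, F x = ENNReal.ofReal (G x)) : ∫⁻ x, F x = ENNReal.ofReal (∫ x, G x) := by
  rw [ofReal_integral_eq_lintegral_ofReal hG (ae_of_all _ h0)]
  exact lintegral_congr h

lemma enorm_pow (z : ℂ) (k : ℕ) : ‖z‖ₑ ^ k = ENNReal.ofReal (‖z‖ ^ k) := by
  rw [ENNReal.ofReal_pow (norm_nonneg z), ofReal_norm]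

lemma int_of_le {w : ℂ → ℂ} {G : ℂ → ℝ} {K : ℝ} (hw : Integrable w) (hG : Continuous G)
    (h : ∀ x, |G x| ≤ K * ‖w x‖) : Integrable G := by
  refine Integrable.mono' (hw.norm.const_mul K) hG.aestronglyMeasurable (ae_of_all _ fun x => ?_)
  rw [Real.norm_eq_abs]
  exact h x

lemma int4 {f g h k : ℂ → ℝ} (hf : Integrable f) (hg : Integrable g) (hh : Integrable h)
    (hk : Integrable k) (c d e : ℝ) :
    Integrable (fun x => f x + c * g x + d * h x + e * k x) ∧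
    ∫ x, (f x + c * g x + d * h x + e * k x) =
      (∫ x, f x) + c * (∫ x, g x) + d * (∫ x, h x) + e * ∫ x, k x := by
  have i1 : Integrable (fun x => f x + c * g x) := hf.add (hg.const_mul c)
  have i2 : Integrable (fun x => f x + c * g x + d * h x) := i1.add (hh.const_mul d)
  refine ⟨i2.add (hk.const_mul e), ?_⟩
  rw [integral_add i2 (hk.const_mul e), integral_add i1 (hh.const_mul d), integral_add hf (hg.const_mul c),
    integral_const_mul, integral_const_mul, integral_const_mul]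

theorem t (h1 : S_BAS) (h2 : S_NUM) (h3 : S_VAN) : S_ENU := by
  intro m ε hm hε
  obtain ⟨C, hC0, hC⟩ := h2 m ε hm hε
  refine ⟨C, hC0, ?_⟩
  intro b a' b' h₁ h₂ hb hba hh₁ hh₂
  obtain ⟨c1, -, ⟨-, i1, M1, b1⟩, -, -⟩ := h1 b h₁ hh₁
  obtain ⟨c2, -, ⟨-, i2, M2, b2⟩, -, -⟩ :=
    h1 b' h₂ ⟨hh₂.1, fun ξ hξ => ⟨norm_nonneg ξ, (hh₂.2 ξ hξ).2⟩⟩
  have hvan := h3 m b a' b' h₁ h₂ hm hb hba hh₁ hh₂
  have hadd : Fi (fun ξ => h₁ ξ + h₂ ξ) = fun x => Fi h₁ x + Fi h₂ x := funext (Fi_add hh₁ hh₂)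
  rw [hadd]
  generalize Fi h₁ = u at *
  generalize Fi h₂ = v at *
  obtain ⟨k, rfl⟩ : ∃ k, m = k + 1 := ⟨m - 1, by omega⟩
  have e2k : 2 * (k + 1) - 2 = 2 * k := by omega
  simp only [e2k] at hC hvan ⊢
  have hM1 : 0 ≤ M1 := (norm_nonneg _).trans (b1 0)
  have hM2 : 0 ≤ M2 := (norm_nonneg _).trans (b2 0)
  -- integrability
  have j1 : Integrable (fun x => ‖u x‖ ^ (2 * (k + 1))) := by
    refine int_of_le (K := M1 ^ (2 * k + 1)) i1 (by fun_prop) fun x => ?_
    rw [abs_of_nonneg (by positivity), show 2 * (k + 1) = (2 * k + 1) + 1 by ring, pow_succ]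
    exact mul_le_mul_of_nonneg_right (pow_le_pow_left₀ (norm_nonneg _) (b1 x) _) (norm_nonneg _)
  have j3 : Integrable (fun x => ‖v x‖ ^ (2 * (k + 1))) := by
    refine int_of_le (K := M2 ^ (2 * k + 1)) i2 (by fun_prop) fun x => ?_
    rw [abs_of_nonneg (by positivity), show 2 * (k + 1) = (2 * k + 1) + 1 by ring, pow_succ]
    exact mul_le_mul_of_nonneg_right (pow_le_pow_left₀ (norm_nonneg _) (b2 x) _) (norm_nonneg _)
  have j0 : Integrable (fun x => ‖u x + v x‖ ^ (2 * (k + 1))) := by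
    refine int_of_le (K := (M1 + M2) ^ (2 * k + 1)) (i1.add i2) (by fun_prop) fun x => ?_
    rw [abs_of_nonneg (by positivity), show 2 * (k + 1) = (2 * k + 1) + 1 by ring, pow_succ, Pi.add_apply]
    exact mul_le_mul_of_nonneg_right (pow_le_pow_left₀ (norm_nonneg _)
      ((norm_add_le _ _).trans (add_le_add (b1 x) (b2 x))) _) (norm_nonneg _)
  have j2 : Integrable (fun x => ‖u x‖ ^ (2 * k) * (conj (u x) * v x).re) := by
    refine int_of_le (K := M1 ^ (2 * k) * M1) i2 ?_ fun x => ?_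
    · refine (c1.norm.pow _).mul ?_
      exact Complex.continuous_re.comp ((Complex.continuous_conj.comp c1).mul c2)
    · rw [abs_mul, abs_of_nonneg (pow_nonneg (norm_nonneg _) _)]
      have e1 : |(conj (u x) * v x).re| ≤ ‖u x‖ * ‖v x‖ := by
        refine (Complex.abs_re_le_norm _).trans ?_
        rw [norm_mul, RCLike.norm_conj]
      calc ‖u x‖ ^ (2 * k) * |(conj (u x) * v x).re| ≤ M1 ^ (2 * k) * (M1 * ‖v x‖) := by
            refine mul_le_mul (pow_le_pow_left₀ (norm_nonneg _) (b1 x) _) (e1.trans ?_) (abs_nonneg _)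
              (by positivity)
            exact mul_le_mul_of_nonneg_right (b1 x) (norm_nonneg _)
        _ = _ := by ring
  have j4 : Integrable (fun x => ‖v x‖ ^ 2 * ‖u x‖ ^ (2 * k)) := by
    refine int_of_le (K := M2 * M1 ^ (2 * k)) i2 (by fun_prop) fun x => ?_
    rw [abs_of_nonneg (by positivity)]
    calc ‖v x‖ ^ 2 * ‖u x‖ ^ (2 * k) = (‖v x‖ * ‖u x‖ ^ (2 * k)) * ‖v x‖ := by ring
      _ ≤ (M2 * M1 ^ (2 * k)) * ‖v x‖ := by
        refine mul_le_mul_of_nonneg_right ?_ (norm_nonneg _)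
        exact mul_le_mul (b2 x) (pow_le_pow_left₀ (norm_nonneg _) (b1 x) _) (by positivity) hM2
  -- integration
  have key : ∫ x, ‖u x + v x‖ ^ (2 * (k + 1)) ≤
      (∫ x, ‖u x‖ ^ (2 * (k + 1))) + (1 + ε) * (∫ x, ‖v x‖ ^ (2 * (k + 1))) +
        C * ∫ x, ‖v x‖ ^ 2 * ‖u x‖ ^ (2 * k) := by
    have e1 := int4 j1 j2 j3 j4 (2 * ((k + 1 : ℕ) : ℝ)) (1 + ε) C
    obtain ⟨e0, e1⟩ := e1
    rw [hvan, mul_zero, add_zero] at e1
    rw [← e1]
    refine integral_mono j0 e0 fun x => ?_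
    exact hC (v x) (u x)
  have n0 : ∀ f : ℂ → ℂ, Integrable (fun x => ‖f x‖ ^ (2 * (k + 1))) →
      Nm (k + 1) f = ENNReal.ofReal (∫ x, ‖f x‖ ^ (2 * (k + 1))) := by
    intro f hf
    exact conv (fun x => by positivity) hf fun x => enorm_pow _ _
  have n4 : ∫⁻ x, ‖v x‖ₑ ^ 2 * ‖u x‖ₑ ^ (2 * k) =
      ENNReal.ofReal (∫ x, ‖v x‖ ^ 2 * ‖u x‖ ^ (2 * k)) := by
    refine conv (fun x => by positivity) j4 fun x => ?_
    rw [enorm_pow, enorm_pow, ENNReal.ofReal_mul (by positivity)]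
  rw [n0 _ j0, n0 _ j1, n0 _ j3, n4, ← ENNReal.ofReal_mul (by positivity), ← ENNReal.ofReal_mul hC0,
    ← ENNReal.ofReal_add (integral_nonneg fun x => by positivity)
      (mul_nonneg (by positivity) (integral_nonneg fun x => by positivity)),
    ← ENNReal.ofReal_add (add_nonneg (integral_nonneg fun x => by positivity)
      (mul_nonneg (by positivity) (integral_nonneg fun x => by positivity)))
      (mul_nonneg hC0 (integral_nonneg fun x => by positivity))]
  exact ENNReal.ofReal_le_ofReal key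

end Pool.Agent.N892.BW.ENU
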