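import Mathlib
import Pool.Agent.N892.BW.Stm2

/-!
FAR, first part: bounds for the derivatives of the symbol, cut off near a point of the unit circle.
-/

set_option autoImplicit false

open MeasureTheory Filter Topology Complex Metric
open scoped ComplexConjugate ContDiff

namespace Pool.Agent.N892.BW.FAR

theorem pow_bound (i : ℕ) : ∀ (n : ℕ) (z : ℂ), ‖z‖ = 1 →
    ‖iteratedFDeriv ℝ i (fun z : ℂ => z ^ n) z‖ ≤ (n : ℝ) ^ i := by
  induction i with
  | zero =>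
    intro n z hz
    rw [norm_iteratedFDeriv_zero, norm_pow, hz, one_pow, pow_zero]
  | succ i ih =>
    intro n z hz
    rw [← norm_iteratedFDeriv_fderiv]
    have e : fderiv ℝ (fun z : ℂ => z ^ n) =
        (((n : ℝ) • (ContinuousLinearMap.mul ℝ ℂ)) : ℂ →L[ℝ] ℂ →L[ℝ] ℂ) ∘ (fun z : ℂ => z ^ (n - 1)) := by
      funext w
      have h1 : HasDerivAt (fun z : ℂ => z ^ n) ((n : ℂ) * w ^ (n - 1)) w := hasDerivAt_pow n w
      have h2 := h1.hasFDerivAt.restrictScalars ℝ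
      rw [h2.fderiv]
      ext <;> simp <;> ring
    rw [e]
    refine (ContinuousLinearMap.norm_iteratedFDeriv_comp_left _ (N := ∞)
      (contDiff_id.pow (n - 1)).contDiffAt (mod_cast le_top)).trans ?_
    have h3 : ‖((n : ℝ) • (ContinuousLinearMap.mul ℝ ℂ) : ℂ →L[ℝ] ℂ →L[ℝ] ℂ)‖ ≤ (n : ℝ) := by
      refine ContinuousLinearMap.opNorm_le_bound _ (Nat.cast_nonneg n) fun x => ?_
      refine ContinuousLinearMap.opNorm_le_bound _ (by positivity) fun y => ?_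
      simp [mul_assoc]
    have h4 : ‖iteratedFDeriv ℝ i (fun z : ℂ => z ^ (n - 1)) z‖ ≤ (n : ℝ) ^ i := by
      refine (ih (n - 1) z hz).trans ?_
      gcongr
      exact Nat.sub_le n 1
    calc _ ≤ (n : ℝ) * (n : ℝ) ^ i := mul_le_mul h3 h4 (norm_nonneg _) (Nat.cast_nonneg _)
      _ = (n : ℝ) ^ (i + 1) := by rw [pow_succ']

/-- the punctured plane -/
def Pc : Set ℂ := {v | v ≠ 0}

theorem Pc_open : IsOpen Pc := isOpen_ne

/-- the closed annulus -/
def An : Set ℂ := closedBall 0 2 \ ball 0 (1 / 4)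

theorem An_compact : IsCompact An := (isCompact_closedBall 0 2).diff isOpen_ball

theorem An_sub : An ⊆ Pc := by
  intro v hv h0
  apply hv.2
  rw [h0]
  simp

theorem h_cd : ContDiffOn ℝ ∞ (fun v : ℂ => conj v / v) Pc := by
  have h1 : ContDiffOn ℝ ∞ (fun v : ℂ => conj v) Pc := Complex.conjCLE.contDiff.contDiffOn
  have h2 : ContDiffOn ℝ ∞ (fun v : ℂ => v⁻¹) Pc :=
    ContDiffOn.inv (𝕜' := ℂ) contDiffOn_id fun v hv => hv
  simp only [div_eq_mul_inv]
  exact h1.mul h2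

theorem h_bound (j : ℕ) : ∃ D : ℝ, 0 ≤ D ∧ ∀ i, 1 ≤ i → i ≤ j → ∀ v ∈ An,
    ‖iteratedFDerivWithin ℝ i (fun v : ℂ => conj v / v) Pc v‖ ≤ D ^ i := by
  have h1 : ∀ i : ℕ, ∃ D : ℝ, ∀ v ∈ An,
      ‖iteratedFDerivWithin ℝ i (fun v : ℂ => conj v / v) Pc v‖ ≤ D := by
    intro i
    have := (h_cd.continuousOn_iteratedFDerivWithin (m := i) (mod_cast le_top)
      Pc_open.uniqueDiffOn).mono An_sub
    exact An_compact.exists_bound_of_continuousOn this
  choose D hD using h1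
  refine ⟨1 + ∑ i ∈ Finset.range (j + 1), |D i|, by positivity, fun i hi hij v hv => ?_⟩
  have h2 : |D i| ≤ ∑ i ∈ Finset.range (j + 1), |D i| :=
    Finset.single_le_sum (f := fun i => |D i|) (fun _ _ => abs_nonneg _)
      (Finset.mem_range.2 (by omega))
  calc _ ≤ D i := hD i v hv
    _ ≤ |D i| := le_abs_self _
    _ ≤ 1 + ∑ i ∈ Finset.range (j + 1), |D i| := by linarith
    _ ≤ _ := le_self_pow₀ (by
        have : 0 ≤ ∑ i ∈ Finset.range (j + 1), |D i| := Finset.sum_nonneg fun _ _ => abs_nonneg _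
        linarith) (by omega)

theorem sy_norm_one {v : ℂ} (hv : v ≠ 0) : ‖conj v / v‖ = 1 := by
  rw [norm_div, RCLike.norm_conj, div_self (norm_ne_zero_iff.2 hv)]

theorem sy_cd (n : ℕ) : ContDiffOn ℝ ∞ (sy n) Pc := by
  unfold sy
  exact h_cd.pow n

theorem sy_bound (j : ℕ) : ∃ C : ℝ, 0 ≤ C ∧ ∀ n : ℕ, 1 ≤ n → ∀ i ≤ j, ∀ v ∈ An,
    ‖iteratedFDerivWithin ℝ i (sy n) Pc v‖ ≤ C * (n : ℝ) ^ j := by
  obtain ⟨D, hD0, hD⟩ := h_bound j
  refine ⟨j.factorial * (1 + D) ^ j, by positivity, fun n hn i hi v hv => ?_⟩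
  have hn' : (1 : ℝ) ≤ n := by exact_mod_cast hn
  have e : sy n = (fun z : ℂ => z ^ n) ∘ (fun v : ℂ => conj v / v) := rfl
  rw [e]
  have h1 := norm_iteratedFDerivWithin_comp_le (𝕜 := ℝ) (g := fun z : ℂ => z ^ n)
    (f := fun v : ℂ => conj v / v) (n := i) (s := Pc) (t := Set.univ) (x := v) (N := ∞)
    (contDiff_id.pow n).contDiffOn h_cd (mod_cast le_top) uniqueDiffOn_univ Pc_open.uniqueDiffOn
    (Set.mapsTo_univ _ _) (An_sub hv) (C := (n : ℝ) ^ j) (D := D) (by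
      intro i' hi'
      rw [iteratedFDerivWithin_univ]
      refine (pow_bound i' n _ (sy_norm_one (An_sub hv))).trans ?_
      exact pow_le_pow_right₀ hn' (by omega)) (by
      intro i' h1 h2
      exact hD i' h1 (by omega) v hv)
  refine h1.trans ?_
  have h2 : (i.factorial : ℝ) ≤ j.factorial := by exact_mod_cast Nat.factorial_le hi
  have h3 : D ^ i ≤ (1 + D) ^ j :=
    (pow_le_pow_left₀ hD0 (by linarith) i).trans (pow_le_pow_right₀ (by linarith) hi)
  calc (i.factorial : ℝ) * (n : ℝ) ^ j * D ^ i ≤ j.factorial * (n : ℝ) ^ j * (1 + D) ^ j := by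
        gcongr
    _ = _ := by ring

/-- a fixed bump function -/
noncomputable def ch : ContDiffBump (0 : ℂ) := ⟨1 / 4, 1 / 2, by norm_num, by norm_num⟩

/-- the symbol, cut off near `q` -/
noncomputable def gg (n : ℕ) (q v : ℂ) : ℂ := ((ch (v - q) : ℝ) : ℂ) * sy n v

theorem ch_cd (q : ℂ) : ContDiff ℝ ∞ (fun v : ℂ => ((ch (v - q) : ℝ) : ℂ)) := by
  have h1 : ContDiff ℝ ∞ (fun v : ℂ => ch (v - q)) :=
    ch.contDiff.comp (contDiff_id.sub contDiff_const)
  exact Complex.ofRealCLM.contDiff.comp h1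

theorem ch_zero {q v : ℂ} (h : 1 / 2 ≤ ‖v - q‖) : ch (v - q) = 0 := by
  apply ch.zero_of_le_dist
  rw [dist_zero_right]
  exact h

theorem ch_one {q v : ℂ} (h : ‖v - q‖ ≤ 1 / 4) : ch (v - q) = 1 := by
  apply ch.one_of_mem_closedBall
  rw [mem_closedBall, dist_zero_right]
  exact h

theorem gg_tsupport (n : ℕ) (q : ℂ) : tsupport (gg n q) ⊆ closedBall q (1 / 2) := by
  apply closure_minimal _ isClosed_closedBall
  intro v hv
  by_contra h
  rw [mem_closedBall, dist_eq_norm, not_le] at h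
  apply hv
  unfold gg
  rw [ch_zero h.le]
  simp

theorem ball_An {q : ℂ} (hq : ‖q‖ = 1) : closedBall q (1 / 2) ⊆ An := by
  intro v hv
  rw [mem_closedBall, dist_eq_norm] at hv
  refine ⟨?_, ?_⟩
  · rw [mem_closedBall, dist_zero_right]
    have := norm_sub_norm_le v q
    linarith
  · rw [mem_ball, dist_zero_right, not_lt]
    have := norm_sub_norm_le q v
    rw [norm_sub_rev] at this
    linarith

theorem gg_cd (n : ℕ) {q : ℂ} (hq : ‖q‖ = 1) : ContDiff ℝ ∞ (gg n q) := by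
  rw [contDiff_iff_contDiffAt]
  intro v
  by_cases hv : v ∈ Pc
  · exact ((ch_cd q).contDiffAt).mul ((sy_cd n).contDiffAt (Pc_open.mem_nhds hv))
  · have h1 : v ∉ tsupport (gg n q) := fun h => hv (An_sub (ball_An hq (gg_tsupport n q h)))
    have h2 : gg n q =ᶠ[𝓝 v] fun _ => 0 := notMem_tsupport_iff_eventuallyEq.1 h1
    exact contDiffAt_const.congr_of_eventuallyEq h2

theorem gg_cs (n : ℕ) (q : ℂ) : HasCompactSupport (gg n q) :=
  HasCompactSupport.of_support_subset_isCompact (isCompact_closedBall q (1 / 2))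
    ((subset_tsupport _).trans (gg_tsupport n q))

theorem ch_bound (i : ℕ) : ∃ C : ℝ, 0 ≤ C ∧ ∀ q v : ℂ,
    ‖iteratedFDeriv ℝ i (fun v : ℂ => ((ch (v - q) : ℝ) : ℂ)) v‖ ≤ C := by
  have h0 : ContDiff ℝ ∞ (fun v : ℂ => ((ch v : ℝ) : ℂ)) :=
    Complex.ofRealCLM.contDiff.comp ch.contDiff
  have hs : HasCompactSupport (fun v : ℂ => ((ch v : ℝ) : ℂ)) :=
    ch.hasCompactSupport.comp_left (g := fun x : ℝ => (x : ℂ)) (by simp)
  have h1 : Continuous (iteratedFDeriv ℝ i (fun v : ℂ => ((ch v : ℝ) : ℂ))) :=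
    h0.continuous_iteratedFDeriv (mod_cast le_top)
  obtain ⟨C, hC⟩ := (hs.iteratedFDeriv (𝕜 := ℝ) i).exists_bound_of_continuous h1
  refine ⟨C, (norm_nonneg _).trans (hC 0), fun q v => ?_⟩
  have e : iteratedFDeriv ℝ i (fun v : ℂ => ((ch (v - q) : ℝ) : ℂ)) v =
      iteratedFDeriv ℝ i (fun v : ℂ => ((ch v : ℝ) : ℂ)) (v - q) :=
    iteratedFDeriv_comp_sub (𝕜 := ℝ) (f := fun v : ℂ => ((ch v : ℝ) : ℂ)) i q v
  rw [e]
  exact hC _

theorem gg_bound (j : ℕ) : ∃ C : ℝ, 0 ≤ C ∧ ∀ n : ℕ, 1 ≤ n → ∀ q : ℂ, ‖q‖ = 1 → ∀ i ≤ j, ∀ v : ℂ,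
    ‖iteratedFDeriv ℝ i (gg n q) v‖ ≤ C * (n : ℝ) ^ j := by
  obtain ⟨C₁, hC₁0, hC₁⟩ := sy_bound j
  choose C₂ hC₂0 hC₂ using ch_bound
  refine ⟨(2 : ℝ) ^ j * (∑ i ∈ Finset.range (j + 1), C₂ i) * C₁, ?_, ?_⟩
  · have := Finset.sum_nonneg fun i (_ : i ∈ Finset.range (j + 1)) => hC₂0 i
    positivity
  intro n hn q hq i hi v
  have hn' : (1 : ℝ) ≤ n := by exact_mod_cast hn
  have hS : 0 ≤ ∑ i ∈ Finset.range (j + 1), C₂ i :=
    Finset.sum_nonneg fun i (_ : i ∈ Finset.range (j + 1)) => hC₂0 i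
  by_cases hv : v ∈ closedBall q (1 / 2)
  · have hP : v ∈ Pc := An_sub (ball_An hq hv)
    rw [← iteratedFDerivWithin_of_isOpen i Pc_open hP]
    have h1 := norm_iteratedFDerivWithin_mul_le (𝕜 := ℝ) (A := ℂ) (N := ∞) (ch_cd q).contDiffOn
      (sy_cd n) Pc_open.uniqueDiffOn hP (n := i) (mod_cast le_top)
    refine h1.trans ?_
    have h2 : ∀ i' ∈ Finset.range (i + 1), (i.choose i' : ℝ) *
        ‖iteratedFDerivWithin ℝ i' (fun v : ℂ => ((ch (v - q) : ℝ) : ℂ)) Pc v‖ *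
          ‖iteratedFDerivWithin ℝ (i - i') (sy n) Pc v‖ ≤
        (i.choose i' : ℝ) * ((∑ i ∈ Finset.range (j + 1), C₂ i) * (C₁ * (n : ℝ) ^ j)) := by
      intro i' hi'
      have hi'' := Finset.mem_range.1 hi'
      rw [mul_assoc]
      refine mul_le_mul_of_nonneg_left ?_ (Nat.cast_nonneg _)
      refine mul_le_mul ?_ (hC₁ n hn (i - i') (by omega) v (ball_An hq hv)) (norm_nonneg _) hS
      rw [iteratedFDerivWithin_of_isOpen i' Pc_open hP]
      exact (hC₂ i' q v).trans (Finset.single_le_sum (f := fun i => C₂ i) (fun i _ => hC₂0 i)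
        (Finset.mem_range.2 (by omega)))
    refine (Finset.sum_le_sum h2).trans ?_
    rw [← Finset.sum_mul]
    have h3 : ∑ i' ∈ Finset.range (i + 1), (i.choose i' : ℝ) ≤ 2 ^ j := by
      have := Nat.sum_range_choose i
      have h4 : ∑ i' ∈ Finset.range (i + 1), (i.choose i' : ℝ) = (2 : ℝ) ^ i := by
        exact_mod_cast this
      rw [h4]
      exact pow_le_pow_right₀ (by norm_num) hi
    calc _ ≤ (2 : ℝ) ^ j * ((∑ i ∈ Finset.range (j + 1), C₂ i) * (C₁ * (n : ℝ) ^ j)) := by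
          gcongr
      _ = _ := by ring
  · have h1 : v ∉ tsupport (gg n q) := fun h => hv (gg_tsupport n q h)
    have h2 : v ∉ Function.support (iteratedFDeriv ℝ i (gg n q)) :=
      fun h => h1 (support_iteratedFDeriv_subset i h)
    rw [Function.notMem_support.1 h2, norm_zero]
    positivity

end Pool.Agent.N892.BW.FAR
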