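import Mathlib
import Pool.Agent.N892.BW.FAR_a

/-!
FAR, second part: decay of the Fourier transform of the symbol, cut off near a point of the unit circle.
-/

set_option autoImplicit false

open MeasureTheory Filter Topology Complex Metric FourierTransform
open scoped ComplexConjugate ContDiff

namespace Pool.Agent.N892.BW.FAR

theorem gg_int (J : ℕ) : ∃ C : ℝ, 0 ≤ C ∧ ∀ n : ℕ, 1 ≤ n → ∀ q : ℂ, ‖q‖ = 1 → ∀ i ≤ J,
    ∫ v, ‖iteratedFDeriv ℝ i (gg n q) v‖ ≤ C * (n : ℝ) ^ J := by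
  obtain ⟨C, hC0, hC⟩ := gg_bound J
  refine ⟨C * volume.real (closedBall (0 : ℂ) 2), by positivity, fun n hn q hq i hi => ?_⟩
  have h1 : ∫ v, ‖iteratedFDeriv ℝ i (gg n q) v‖ =
      ∫ v in closedBall (0 : ℂ) 2, ‖iteratedFDeriv ℝ i (gg n q) v‖ := by
    rw [setIntegral_eq_integral_of_forall_compl_eq_zero]
    intro v hv
    have h1 : v ∉ tsupport (gg n q) :=
      fun h => hv (ball_An hq (gg_tsupport n q h)).1
    have h2 : v ∉ Function.support (iteratedFDeriv ℝ i (gg n q)) :=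
      fun h => h1 (support_iteratedFDeriv_subset i h)
    rw [Function.notMem_support.1 h2, norm_zero]
  rw [h1]
  have h2 := norm_setIntegral_le_of_norm_le_const (μ := volume) (s := closedBall (0 : ℂ) 2)
    (f := fun v => ‖iteratedFDeriv ℝ i (gg n q) v‖) (C := C * (n : ℝ) ^ J)
    measure_closedBall_lt_top (fun v _ => by
      rw [norm_norm]
      exact hC n hn q hq i hi v)
  refine (le_abs_self _).trans ((Real.norm_eq_abs _ ▸ h2).trans (le_of_eq ?_))
  ring

theorem gg_four (J : ℕ) : ∃ C : ℝ, 0 ≤ C ∧ ∀ n : ℕ, 1 ≤ n → ∀ q : ℂ, ‖q‖ = 1 → ∀ τ : ℂ,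
    ‖τ‖ ^ J * ‖𝓕⁻ (gg n q) τ‖ ≤ C * (n : ℝ) ^ J := by
  obtain ⟨C, hC0, hC⟩ := gg_int J
  refine ⟨2 ^ J * ((J + 1) * C), by positivity, fun n hn q hq τ => ?_⟩
  have hcd := gg_cd n hq
  have h1 := Real.pow_mul_norm_iteratedFDeriv_fourier_le (K := 0) (N := J) (f := gg n q)
    (hcd.of_le (mod_cast le_top)) (by
      intro k i hk hi
      have hk0 : k = 0 := by simpa using hk
      subst hk0
      have h2 : Continuous (fun v => ‖v‖ ^ 0 * ‖iteratedFDeriv ℝ i (gg n q) v‖) := by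
        have := hcd.continuous_iteratedFDeriv (m := i) (mod_cast le_top)
        fun_prop
      refine h2.integrable_of_hasCompactSupport ?_
      exact ((gg_cs n q).iteratedFDeriv i).norm.mul_left) (k := 0) (n := J) le_rfl le_rfl (-τ)
  rw [norm_iteratedFDeriv_zero, norm_neg] at h1
  rw [Real.fourierInv_eq_fourier_neg]
  refine h1.trans ?_
  have h3 : ∀ p ∈ Finset.range (0 + 1) ×ˢ Finset.range (J + 1),
      ∫ v, ‖v‖ ^ p.1 * ‖iteratedFDeriv ℝ p.2 (gg n q) v‖ ≤ C * (n : ℝ) ^ J := by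
    intro p hp
    rw [Finset.mem_product, Finset.mem_range, Finset.mem_range] at hp
    have hp1 : p.1 = 0 := by omega
    rw [hp1]
    simp only [pow_zero, one_mul]
    exact hC n hn q hq p.2 (by omega)
  have h4 := Finset.sum_le_sum h3
  rw [Finset.sum_const, Finset.card_product, Finset.card_range, Finset.card_range, nsmul_eq_mul] at h4
  have h5 : ((2 * Real.pi) ^ 0 * (2 * ((0 : ℕ) : ℝ) + 2) ^ J : ℝ) = 2 ^ J := by
    rw [pow_zero, one_mul, Nat.cast_zero, mul_zero, zero_add]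
  rw [h5]
  calc _ ≤ (2 : ℝ) ^ J * (((0 + 1) * (J + 1) : ℕ) * (C * (n : ℝ) ^ J)) :=
        mul_le_mul_of_nonneg_left h4 (by positivity)
    _ = _ := by push_cast; ring

end Pool.Agent.N892.BW.FAR
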