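import Mathlib
import Pool.Agent.N892.BW.Stm2

/-!
FAR, third part: convolution of a bounded function with a Schwartz function.
-/

set_option autoImplicit false

open MeasureTheory Filter Topology Complex Metric
open scoped ComplexConjugate ContDiff SchwartzMap

namespace Pool.Agent.N892.BW.FAR

/-- an integrable weight -/
noncomputable def wt (x : ℂ) : ℝ := ((1 + ‖x‖) ^ 4)⁻¹

theorem wt_nonneg (x : ℂ) : 0 ≤ wt x := by unfold wt; positivity

theorem wt_int : Integrable wt := by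
  have h := integrable_one_add_norm (E := ℂ) (μ := volume) (r := 4) (by
    rw [Complex.finrank_real_complex]; norm_num)
  refine h.congr (Eventually.of_forall fun x => ?_)
  unfold wt
  have h1 : (0 : ℝ) ≤ 1 + ‖x‖ := by positivity
  simp only
  rw [Real.rpow_neg h1]
  congr 1
  exact_mod_cast Real.rpow_natCast (1 + ‖x‖) 4

theorem wt_shift {x x₀ : ℂ} (h : ‖x - x₀‖ ≤ 1) (u : ℂ) : wt (x - u) ≤ 16 * wt (x₀ - u) := by
  unfold wt
  have h1 : ‖x₀ - u‖ ≤ ‖x - u‖ + 1 := by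
    have : x₀ - u = (x - u) - (x - x₀) := by ring
    rw [this]
    exact (norm_sub_le _ _).trans (by linarith)
  have h2 : (1 + ‖x₀ - u‖) ^ 4 ≤ 16 * (1 + ‖x - u‖) ^ 4 := by
    calc (1 + ‖x₀ - u‖) ^ 4 ≤ (2 * (1 + ‖x - u‖)) ^ 4 := by
          apply pow_le_pow_left₀ (by positivity)
          linarith [norm_nonneg (x - u)]
      _ = 16 * (1 + ‖x - u‖) ^ 4 := by ring
  rw [inv_le_comm₀ (by positivity) (by positivity), mul_inv, inv_inv]
  rw [inv_mul_le_iff₀ (by norm_num)]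
  exact h2

section

variable {F : Type} [NormedAddCommGroup F] [NormedSpace ℝ F]

theorem sch_decay (Φ : 𝓢(ℂ, F)) (M k : ℕ) : ∃ C : ℝ, 0 ≤ C ∧
    ∀ x, ‖iteratedFDeriv ℝ k Φ x‖ ≤ C * ((1 + ‖x‖) ^ M)⁻¹ := by
  refine ⟨2 ^ M * (Finset.Iic (M, k)).sup (fun m => SchwartzMap.seminorm ℝ m.1 m.2) Φ,
    by positivity, fun x => ?_⟩
  have h := SchwartzMap.one_add_le_sup_seminorm_apply (𝕜 := ℝ) (m := (M, k)) (k := M) (n := k)
    le_rfl le_rfl Φ x
  rw [← div_eq_mul_inv, le_div_iff₀ (by positivity), mul_comm]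
  exact h

theorem sch_decay' (Φ : 𝓢(ℂ, F)) : ∃ C : ℝ, 0 ≤ C ∧ ∀ x, ‖Φ x‖ ≤ C * wt x := by
  obtain ⟨C, h0, h⟩ := sch_decay Φ 4 0
  refine ⟨C, h0, fun x => ?_⟩
  have := h x
  rwa [norm_iteratedFDeriv_zero] at this

/-- convolution of a bounded function with a Schwartz function -/
noncomputable def cb (w : ℂ → ℝ) (Φ : 𝓢(ℂ, F)) (x : ℂ) : F := ∫ u, w u • Φ (x - u)

theorem cb_meas {w : ℂ → ℝ} (hw : Measurable w) (Φ : 𝓢(ℂ, F)) (x : ℂ) :
    AEStronglyMeasurable (fun u => w u • Φ (x - u)) volume := by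
  have h1 : Continuous (fun u => Φ (x - u)) := Φ.continuous.comp (by fun_prop)
  exact hw.stronglyMeasurable.aestronglyMeasurable.smul h1.aestronglyMeasurable

theorem cb_integrable {w : ℂ → ℝ} (hw : Measurable w) (hb : ∀ u, |w u| ≤ 1) (Φ : 𝓢(ℂ, F)) (x : ℂ) :
    Integrable (fun u => w u • Φ (x - u)) := by
  obtain ⟨C, h0, h⟩ := sch_decay' Φ
  have h1 : Integrable (fun u => C * wt (x - u)) := (wt_int.comp_sub_left x).const_mul C
  refine h1.mono' (cb_meas hw Φ x) (Eventually.of_forall fun u => ?_)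
  rw [norm_smul, Real.norm_eq_abs]
  calc |w u| * ‖Φ (x - u)‖ ≤ 1 * (C * wt (x - u)) :=
        mul_le_mul (hb u) (h _) (norm_nonneg _) zero_le_one
    _ = _ := one_mul _

theorem cb_hasFDerivAt {w : ℂ → ℝ} (hw : Measurable w) (hb : ∀ u, |w u| ≤ 1) (Φ : 𝓢(ℂ, F)) (x : ℂ) :
    HasFDerivAt (cb w Φ) (cb w (SchwartzMap.fderivCLM ℝ ℂ F Φ) x) x := by
  obtain ⟨C, h0, h⟩ := sch_decay' (SchwartzMap.fderivCLM ℝ ℂ F Φ)
  have h1 : Integrable (fun u => C * (16 * wt (x - u))) :=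
    ((wt_int.comp_sub_left x).const_mul 16).const_mul C
  refine hasFDerivAt_integral_of_dominated_of_fderiv_le (𝕜 := ℝ) (s := ball x 1)
    (F := fun x u => w u • Φ (x - u)) (F' := fun x u => w u • SchwartzMap.fderivCLM ℝ ℂ F Φ (x - u))
    (bound := fun u => C * (16 * wt (x - u))) (ball_mem_nhds x one_pos)
    (Eventually.of_forall fun x => cb_meas hw Φ x) (cb_integrable hw hb Φ x)
    (cb_meas hw (SchwartzMap.fderivCLM ℝ ℂ F Φ) x) ?_ h1 ?_
  · refine Eventually.of_forall fun u y hy => ?_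
    rw [norm_smul, Real.norm_eq_abs]
    have hy' : ‖y - x‖ ≤ 1 := by
      rw [mem_ball, dist_eq_norm] at hy
      exact hy.le
    calc |w u| * ‖SchwartzMap.fderivCLM ℝ ℂ F Φ (y - u)‖ ≤ 1 * (C * (16 * wt (x - u))) :=
          mul_le_mul (hb u) ((h _).trans (mul_le_mul_of_nonneg_left (wt_shift hy' u) h0))
            (norm_nonneg _) zero_le_one
      _ = _ := one_mul _
  · refine Eventually.of_forall fun u y _ => ?_
    rw [SchwartzMap.fderivCLM_apply]
    have h2 : HasFDerivAt Φ (fderiv ℝ Φ (y - u)) (y - u) := Φ.differentiableAt.hasFDerivAt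
    have h3 : HasFDerivAt (fun y : ℂ => Φ (y - u)) (fderiv ℝ Φ (y - u)) y :=
      (hasFDerivAt_comp_sub (f := Φ) u).2 h2
    exact h3.const_smul (w u)

theorem cb_fderiv {w : ℂ → ℝ} (hw : Measurable w) (hb : ∀ u, |w u| ≤ 1) (Φ : 𝓢(ℂ, F)) :
    fderiv ℝ (cb w Φ) = cb w (SchwartzMap.fderivCLM ℝ ℂ F Φ) := by
  funext x
  exact (cb_hasFDerivAt hw hb Φ x).fderiv

end

theorem cb_main (k : ℕ) : ∀ (F : Type) [NormedAddCommGroup F] [NormedSpace ℝ F] (w : ℂ → ℝ),
    Measurable w → (∀ u, |w u| ≤ 1) → ∀ Φ : 𝓢(ℂ, F), ContDiff ℝ k (cb w Φ) ∧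
      ∀ x, ‖iteratedFDeriv ℝ k (cb w Φ) x‖ ≤ ∫ u, |w u| * ‖iteratedFDeriv ℝ k Φ (x - u)‖ := by
  induction k with
  | zero =>
    intro F _ _ w hw hb Φ
    constructor
    · rw [Nat.cast_zero, contDiff_zero]
      exact continuous_iff_continuousAt.2 fun x => (cb_hasFDerivAt hw hb Φ x).continuousAt
    · intro x
      rw [norm_iteratedFDeriv_zero]
      unfold cb
      refine (norm_integral_le_integral_norm _).trans (le_of_eq ?_)
      refine integral_congr_ae (Eventually.of_forall fun u => ?_)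
      simp only [norm_smul, Real.norm_eq_abs, norm_iteratedFDeriv_zero]
  | succ k ih =>
    intro F _ _ w hw hb Φ
    obtain ⟨h1, h2⟩ := ih (ℂ →L[ℝ] F) w hw hb (SchwartzMap.fderivCLM ℝ ℂ F Φ)
    constructor
    · rw [Nat.cast_succ, contDiff_succ_iff_fderiv]
      refine ⟨fun x => (cb_hasFDerivAt hw hb Φ x).differentiableAt, fun h => ?_, ?_⟩
      · exact absurd h (by simp)
      · rw [cb_fderiv hw hb]
        exact h1
    · intro x
      rw [← norm_iteratedFDeriv_fderiv, cb_fderiv hw hb]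
      refine (h2 x).trans (le_of_eq ?_)
      refine integral_congr_ae (Eventually.of_forall fun u => ?_)
      have e : (⇑(SchwartzMap.fderivCLM ℝ ℂ F Φ) : ℂ → ℂ →L[ℝ] F) = fderiv ℝ Φ := by
        funext y
        exact SchwartzMap.fderivCLM_apply ℝ Φ y
      simp only [e, norm_iteratedFDeriv_fderiv]

/-- the value at `y` of the derivatives of the convolution with a function which vanishes near `y` -/
theorem cb_far (Φ : 𝓢(ℂ, ℂ)) (k N : ℕ) : ∃ C : ℝ, 0 ≤ C ∧ ∀ w : ℂ → ℝ, Measurable w →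
    (∀ u, |w u| ≤ 1) → ∀ (y : ℂ) (r : ℝ), 0 < r → (∀ u, ‖u - y‖ ≤ r / 4 → w u = 0) →
      ‖iteratedFDeriv ℝ k (cb w Φ) y‖ ≤ C * (r ^ N)⁻¹ := by
  obtain ⟨C, h0, h⟩ := sch_decay Φ (N + 4) k
  refine ⟨C * 4 ^ N * ∫ u, wt u, mul_nonneg (by positivity) (integral_nonneg wt_nonneg),
    fun w hw hb y r hr hz => ?_⟩
  refine ((cb_main k ℂ w hw hb Φ).2 y).trans ?_
  have h1 : ∀ u, |w u| * ‖iteratedFDeriv ℝ k Φ (y - u)‖ ≤ C * 4 ^ N * (r ^ N)⁻¹ * wt (y - u) := by
    intro u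
    by_cases hu : ‖u - y‖ ≤ r / 4
    · rw [hz u hu, abs_zero, zero_mul]
      have := wt_nonneg (y - u)
      positivity
    · rw [not_le, norm_sub_rev] at hu
      have h2 := h (y - u)
      have h3 : ((1 + ‖y - u‖) ^ (N + 4))⁻¹ ≤ 4 ^ N * (r ^ N)⁻¹ * wt (y - u) := by
        unfold wt
        rw [pow_add, mul_inv]
        refine mul_le_mul_of_nonneg_right ?_ (by positivity)
        rw [← div_eq_mul_inv, ← div_pow]
        rw [← inv_div r 4, inv_pow]
        apply inv_anti₀ (by positivity)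
        exact pow_le_pow_left₀ (by positivity) (by linarith) N
      calc |w u| * ‖iteratedFDeriv ℝ k Φ (y - u)‖ ≤ 1 * (C * (4 ^ N * (r ^ N)⁻¹ * wt (y - u))) :=
            mul_le_mul (hb u) (h2.trans (mul_le_mul_of_nonneg_left h3 h0)) (norm_nonneg _) zero_le_one
        _ = _ := by ring
  have h2 : Integrable (fun u => C * 4 ^ N * (r ^ N)⁻¹ * wt (y - u)) :=
    (wt_int.comp_sub_left y).const_mul _
  refine (integral_mono_of_nonneg (Eventually.of_forall fun u => by positivity) h2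
    (Eventually.of_forall h1)).trans (le_of_eq ?_)
  rw [integral_const_mul, integral_sub_left_eq_self wt volume y]
  ring

end Pool.Agent.N892.BW.FAR
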