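import Mathlib
import Pool.Agent.N892.BW.FAR_b
import Pool.Agent.N892.BW.FAR_c

/-!
FAR, fourth part: the part of the symbol near the point.
-/

set_option autoImplicit false

open MeasureTheory Filter Topology Complex Metric FourierTransform
open scoped ComplexConjugate ContDiff SchwartzMap RealInnerProductSpace

namespace Pool.Agent.N892.BW.FAR

theorem gen_fub (f g : ℂ → ℂ) (hf : Integrable f) (hg : Integrable g) :
    ∫ x, 𝓕 f x * g x = ∫ x, f x * 𝓕 g x := by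
  simpa using! VectorFourier.integral_bilin_fourierIntegral_eq_flip (ContinuousLinearMap.mul ℂ ℂ)
    (L := innerₗ ℂ) Real.continuous_fourierChar continuous_inner hf hg

/-- the cut-off function as a Schwartz function -/
noncomputable def Ts (Θ : ℂ → ℝ) (h : Cap Θ) : 𝓢(ℂ, ℂ) :=
  HasCompactSupport.toSchwartzMap (f := fun x : ℂ => (Θ x : ℂ))
    (HasCompactSupport.of_support_subset_isCompact (isCompact_closedBall (0 : ℂ) 2) (by
      intro x hx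
      by_contra hc
      rw [mem_closedBall, dist_zero_right, not_le] at hc
      apply hx
      simp [h.2.2.2 x hc.le]))
    (Complex.ofRealCLM.contDiff.comp h.1)

theorem Ts_apply (Θ : ℂ → ℝ) (h : Cap Θ) (x : ℂ) : Ts Θ h x = (Θ x : ℂ) := rfl

theorem Ft_eq (Θ : ℂ → ℝ) (h : Cap Θ) (ζ : ℂ) : Ft Θ ζ = 𝓕 (Ts Θ h) ζ := by
  rw [SchwartzMap.fourier_coe, Real.fourier_eq']
  unfold Ft
  refine integral_congr_ae (Eventually.of_forall fun x => ?_)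
  simp only [Ts_apply, smul_eq_mul]
  congr 1
  unfold e2
  rw [← Complex.exp_conj]
  congr 1
  simp only [map_mul, Complex.conj_I, Complex.conj_ofReal, map_ofNat, Complex.inner, mul_re,
    conj_re, conj_im]
  push_cast
  ring

theorem four_shift (B : ℂ → ℂ) (x t : ℂ) :
    𝓕 (fun v => B (x - v)) t = Real.fourierChar (-⟪t, x⟫) • 𝓕⁻ B t := by
  rw [Real.fourier_eq, Real.fourierInv_eq,
    ← integral_sub_left_eq_self (fun v => Real.fourierChar (-⟪v, t⟫) • B (x - v)) volume x,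
    Circle.smul_def, ← integral_smul]
  refine integral_congr_ae (Eventually.of_forall fun u => ?_)
  simp only [sub_sub_cancel, Circle.smul_def, smul_eq_mul]
  have e : -⟪x - u, t⟫ = -⟪t, x⟫ + ⟪u, t⟫ := by
    rw [inner_sub_left, real_inner_comm x t]
    ring
  rw [e, AddChar.map_add_eq_mul, Circle.coe_mul, mul_assoc]

theorem rep (Θ : ℂ → ℝ) (h : Cap Θ) (B : 𝓢(ℂ, ℂ)) (x : ℂ) :
    B x - ∫ u, B u * 𝓕 (Ts Θ h) (x - u) = 𝓕 (fun t => (1 - (Θ t : ℂ)) * (𝓕⁻ B) t) x := by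
  have h1 : ∫ u, B u * 𝓕 (Ts Θ h) (x - u) =
      ∫ t, (Θ t : ℂ) * (Real.fourierChar (-⟪t, x⟫) • (𝓕⁻ B) t) := by
    rw [← integral_sub_left_eq_self (fun u => B u * 𝓕 (Ts Θ h) (x - u)) volume x]
    simp only [sub_sub_cancel]
    have h2 := gen_fub (Ts Θ h) (fun v => B (x - v)) (Ts Θ h).integrable
      (B.integrable.comp_sub_left x)
    have h3 : ∫ v, B (x - v) * 𝓕 (Ts Θ h) v = ∫ v, 𝓕 (⇑(Ts Θ h)) v * B (x - v) := by
      refine integral_congr_ae (Eventually.of_forall fun u => ?_)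
      simp only
      rw [SchwartzMap.fourier_coe, mul_comm]
    rw [h3, h2]
    refine integral_congr_ae (Eventually.of_forall fun t => ?_)
    simp only
    rw [four_shift, Ts_apply, SchwartzMap.fourierInv_coe]
  have h4 : B x = ∫ t, Real.fourierChar (-⟪t, x⟫) • (𝓕⁻ B) t := by
    have h5 : 𝓕 (𝓕⁻ B) = B := FourierTransform.fourier_fourierInv_eq B
    conv_lhs => rw [← h5]
    rw [SchwartzMap.fourier_coe, Real.fourier_eq]
  have hi : Integrable (fun t => Real.fourierChar (-⟪t, x⟫) • (𝓕⁻ B) t) :=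
    (Real.fourierIntegral_convergent_iff x).2 (𝓕⁻ B).integrable
  have hi2 : Integrable (fun t => (Θ t : ℂ) * (Real.fourierChar (-⟪t, x⟫) • (𝓕⁻ B) t)) := by
    refine hi.bdd_mul (c := 1) ?_ ?_
    · exact (Complex.continuous_ofReal.comp h.1.continuous).aestronglyMeasurable
    · refine Eventually.of_forall fun t => ?_
      rw [Complex.norm_real, Real.norm_eq_abs, abs_le]
      have := h.2.1 t
      constructor <;> linarith
  rw [h1]
  nth_rewrite 1 [h4]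
  rw [← integral_sub hi hi2, Real.fourier_eq]
  refine integral_congr_ae (Eventually.of_forall fun t => ?_)
  simp only [Circle.smul_def, smul_eq_mul]
  ring

/-- the symbol, cut off near `y` -/
noncomputable def Bf (n : ℕ) (y u : ℂ) : ℂ := gg n (‖y‖⁻¹ • y) (‖y‖⁻¹ • u)

theorem unit_norm {y : ℂ} (hy : y ≠ 0) : ‖‖y‖⁻¹ • y‖ = 1 := by
  rw [norm_smul, norm_inv, norm_norm, inv_mul_cancel₀ (norm_ne_zero_iff.2 hy)]

theorem Bf_cd (n : ℕ) {y : ℂ} (hy : y ≠ 0) : ContDiff ℝ ∞ (Bf n y) :=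
  (gg_cd n (unit_norm hy)).comp (contDiff_const_smul _)

theorem Bf_cs (n : ℕ) {y : ℂ} (hy : y ≠ 0) : HasCompactSupport (Bf n y) :=
  (gg_cs n (‖y‖⁻¹ • y)).comp_smul (inv_ne_zero (norm_ne_zero_iff.2 hy))

/-- the same, as a Schwartz function -/
noncomputable def Bs (n : ℕ) {y : ℂ} (hy : y ≠ 0) : 𝓢(ℂ, ℂ) :=
  (Bf_cs n hy).toSchwartzMap (Bf_cd n hy)

theorem Bs_apply (n : ℕ) {y : ℂ} (hy : y ≠ 0) (x : ℂ) : Bs n hy x = Bf n y x := rfl

theorem Bs_four (n : ℕ) {y : ℂ} (hy : y ≠ 0) (t : ℂ) :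
    ‖(𝓕⁻ (Bs n hy)) t‖ = ‖y‖ ^ 2 * ‖𝓕⁻ (gg n (‖y‖⁻¹ • y)) (‖y‖ • t)‖ := by
  have hy' : ‖y‖ ≠ 0 := norm_ne_zero_iff.2 hy
  have h1 : (𝓕⁻ (Bs n hy)) t = ‖y‖ ^ 2 • 𝓕⁻ (gg n (‖y‖⁻¹ • y)) (‖y‖ • t) := by
    rw [SchwartzMap.fourierInv_coe, Real.fourierInv_eq, Real.fourierInv_eq]
    have h2 := Measure.integral_comp_smul (volume : Measure ℂ)
      (fun v => Real.fourierChar ⟪v, ‖y‖ • t⟫ • gg n (‖y‖⁻¹ • y) v) ‖y‖⁻¹
    rw [Complex.finrank_real_complex] at h2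
    have h3 : |((‖y‖⁻¹) ^ 2)⁻¹| = ‖y‖ ^ 2 := by
      rw [inv_pow, inv_inv, abs_of_nonneg (by positivity)]
    rw [h3] at h2
    rw [← h2]
    refine integral_congr_ae (Eventually.of_forall fun v => ?_)
    simp only
    rw [real_inner_smul_left, real_inner_smul_right, inv_mul_cancel_left₀ hy']
    rfl
  rw [h1, norm_smul, Real.norm_eq_abs, abs_of_nonneg (by positivity)]

theorem near_pt (J : ℕ) : ∃ C : ℝ, 0 ≤ C ∧ ∀ Θ : ℂ → ℝ, Cap Θ → ∀ n : ℕ, 1 ≤ n → ∀ (y : ℂ) (hy : y ≠ 0),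
    ∀ p : ℕ, p + 4 ≤ J → ∀ t : ℂ, ‖t‖ ^ p * ‖(1 - (Θ t : ℂ)) * (𝓕⁻ (Bs n hy)) t‖ ≤
      C * (‖y‖ ^ 2 * ((n : ℝ) / ‖y‖) ^ J) * wt t := by
  obtain ⟨C, hC0, hC⟩ := gg_four J
  refine ⟨16 * C, by positivity, fun Θ hΘ n hn y hy p hp t => ?_⟩
  have hy' : 0 < ‖y‖ := norm_pos_iff.2 hy
  have hw := wt_nonneg t
  by_cases ht : ‖t‖ ≤ 1
  · rw [hΘ.2.2.1 t ht]
    simp only [ofReal_one, sub_self, zero_mul, norm_zero, mul_zero]
    positivity
  · rw [not_le] at ht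
    have h1 : ‖(1 - (Θ t : ℂ))‖ ≤ 1 := by
      rw [← Complex.ofReal_one, ← Complex.ofReal_sub, Complex.norm_real, Real.norm_eq_abs, abs_le]
      have := hΘ.2.1 t
      constructor <;> linarith
    have h2 := hC n hn (‖y‖⁻¹ • y) (unit_norm hy) (‖y‖ • t)
    rw [norm_smul, norm_norm, mul_pow] at h2
    have h3 : ‖(𝓕⁻ (Bs n hy)) t‖ ≤ ‖y‖ ^ 2 * (C * (n : ℝ) ^ J / (‖y‖ ^ J * ‖t‖ ^ J)) := by
      rw [Bs_four]
      refine mul_le_mul_of_nonneg_left ?_ (by positivity)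
      rw [le_div_iff₀ (by positivity), mul_comm]
      exact h2
    have h4 : ‖t‖ ^ p / ‖t‖ ^ J ≤ 16 * wt t := by
      unfold wt
      rw [div_le_iff₀ (by positivity), mul_assoc, inv_mul_eq_div, mul_div_assoc']
      rw [le_div_iff₀ (by positivity)]
      have h5 : (1 + ‖t‖) ^ 4 ≤ 16 * ‖t‖ ^ 4 := by
        calc (1 + ‖t‖) ^ 4 ≤ (2 * ‖t‖) ^ 4 := pow_le_pow_left₀ (by positivity) (by linarith) 4
          _ = _ := by ring
      calc ‖t‖ ^ p * (1 + ‖t‖) ^ 4 ≤ ‖t‖ ^ p * (16 * ‖t‖ ^ 4) := by gcongr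
        _ = 16 * ‖t‖ ^ (p + 4) := by ring
        _ ≤ 16 * ‖t‖ ^ J := by
          gcongr
          exact ht.le
    rw [norm_mul]
    calc ‖t‖ ^ p * (‖(1 - (Θ t : ℂ))‖ * ‖(𝓕⁻ (Bs n hy)) t‖) ≤
        ‖t‖ ^ p * (1 * (‖y‖ ^ 2 * (C * (n : ℝ) ^ J / (‖y‖ ^ J * ‖t‖ ^ J)))) := by
          gcongr
      _ = C * (‖y‖ ^ 2 * ((n : ℝ) / ‖y‖) ^ J) * (‖t‖ ^ p / ‖t‖ ^ J) := by
          rw [div_pow]
          field_simp
      _ ≤ C * (‖y‖ ^ 2 * ((n : ℝ) / ‖y‖) ^ J) * (16 * wt t) :=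
          mul_le_mul_of_nonneg_left h4 (by positivity)
      _ = _ := by ring

theorem near_main (k J : ℕ) (hJ : k + 4 ≤ J) : ∃ C : ℝ, 0 ≤ C ∧ ∀ (Θ : ℂ → ℝ) (hΘ : Cap Θ), ∀ n : ℕ,
    1 ≤ n → ∀ y : ℂ, y ≠ 0 → ∀ x : ℂ,
      ContDiff ℝ k (fun x => Bf n y x - ∫ u, Bf n y u * 𝓕 (Ts Θ hΘ) (x - u)) ∧
      ‖iteratedFDeriv ℝ k (fun x => Bf n y x - ∫ u, Bf n y u * 𝓕 (Ts Θ hΘ) (x - u)) x‖ ≤
        C * (‖y‖ ^ 2 * ((n : ℝ) / ‖y‖) ^ J) := by
  obtain ⟨C, hC0, hC⟩ := near_pt J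
  refine ⟨(2 * Real.pi) ^ k * ((k + 1) * (C * ∫ t, wt t)),
    mul_nonneg (by positivity) (mul_nonneg (by positivity) (mul_nonneg hC0 (integral_nonneg wt_nonneg))),
    fun Θ hΘ n hn y hy x => ?_⟩
  have e : (fun x => Bf n y x - ∫ u, Bf n y u * 𝓕 (Ts Θ hΘ) (x - u)) =
      𝓕 (fun t => (1 - (Θ t : ℂ)) * (𝓕⁻ (Bs n hy)) t) := by
    funext x
    exact rep Θ hΘ (Bs n hy) x
  rw [e]
  have hc : Continuous (fun t => (1 - (Θ t : ℂ)) * (𝓕⁻ (Bs n hy)) t) := by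
    have h1 : Continuous (fun t => (Θ t : ℂ)) := Complex.continuous_ofReal.comp hΘ.1.continuous
    exact (continuous_const.sub h1).mul (𝓕⁻ (Bs n hy)).continuous
  have hint : ∀ p : ℕ, Integrable (fun t => ‖t‖ ^ p * ‖(1 - (Θ t : ℂ)) * (𝓕⁻ (Bs n hy)) t‖) := by
    intro p
    refine ((𝓕⁻ (Bs n hy)).integrable_pow_mul volume p).mono'
      (by fun_prop) (Eventually.of_forall fun t => ?_)
    have h1 : ‖(1 - (Θ t : ℂ))‖ ≤ 1 := by
      rw [← Complex.ofReal_one, ← Complex.ofReal_sub, Complex.norm_real, Real.norm_eq_abs, abs_le]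
      have := hΘ.2.1 t
      constructor <;> linarith
    rw [norm_mul, norm_pow, norm_norm, norm_norm, norm_mul]
    calc ‖t‖ ^ p * (‖(1 - (Θ t : ℂ))‖ * ‖(𝓕⁻ (Bs n hy)) t‖) ≤
        ‖t‖ ^ p * (1 * ‖(𝓕⁻ (Bs n hy)) t‖) := by gcongr
      _ = _ := by rw [one_mul]
  constructor
  · exact Real.contDiff_fourier (N := (k : ℕ∞)) fun p _ => hint p
  · have h1 := Real.pow_mul_norm_iteratedFDeriv_fourier_le (K := (k : ℕ∞)) (N := 0)
      (f := fun t => (1 - (Θ t : ℂ)) * (𝓕⁻ (Bs n hy)) t) (contDiff_zero.2 hc) (by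
        intro p i _ hi
        have hi0 : i = 0 := by simpa using hi
        subst hi0
        simp only [norm_iteratedFDeriv_zero]
        exact hint p) (k := k) (n := 0) le_rfl le_rfl x
    rw [pow_zero, one_mul, pow_zero, mul_one] at h1
    refine h1.trans ?_
    rw [mul_assoc ((2 * Real.pi) ^ k)]
    refine mul_le_mul_of_nonneg_left ?_ (by positivity)
    have h3 : ∀ p ∈ Finset.range (k + 1) ×ˢ Finset.range (0 + 1),
        ∫ t, ‖t‖ ^ p.1 * ‖iteratedFDeriv ℝ p.2 (fun t => (1 - (Θ t : ℂ)) * (𝓕⁻ (Bs n hy)) t) t‖ ≤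
          C * (‖y‖ ^ 2 * ((n : ℝ) / ‖y‖) ^ J) * ∫ t, wt t := by
      intro p hp
      rw [Finset.mem_product, Finset.mem_range, Finset.mem_range] at hp
      have hp1 : p.2 = 0 := by omega
      rw [hp1]
      simp only [norm_iteratedFDeriv_zero]
      rw [← integral_const_mul]
      exact integral_mono (hint p.1) (wt_int.const_mul _)
        fun t => hC Θ hΘ n hn y hy p.1 (by omega) t
    have h4 := Finset.sum_le_sum h3
    rw [Finset.sum_const, Finset.card_product, Finset.card_range, Finset.card_range,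
      nsmul_eq_mul] at h4
    refine h4.trans (le_of_eq ?_)
    push_cast
    ring

end Pool.Agent.N892.BW.FAR
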