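import Mathlib
import Pool.Agent.N892.BW.FAR_d

/-!
FAR, fifth part: the bound after scaling.
-/

set_option autoImplicit false

open MeasureTheory Filter Topology Complex Metric FourierTransform
open scoped ComplexConjugate ContDiff SchwartzMap RealInnerProductSpace

namespace Pool.Agent.N892.BW.FAR

theorem scale_bound (f : ℂ → ℂ) {s : ℝ} (hs : 0 < s) (k : ℕ) (x : ℂ) :
    ‖iteratedFDeriv ℝ k (fun x => f (s • x)) x‖ ≤ ‖iteratedFDeriv ℝ k f (s • x)‖ * s ^ k := by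
  let g : ℂ ≃L[ℝ] ℂ := ContinuousLinearEquiv.equivOfInverse (s • ContinuousLinearMap.id ℝ ℂ)
    (s⁻¹ • ContinuousLinearMap.id ℝ ℂ) (fun x => by simp [hs.ne']) (fun x => by simp [hs.ne'])
  have hg : ∀ x, g x = s • x := fun x => rfl
  have h1 := g.iteratedFDerivWithin_comp_right f uniqueDiffOn_univ (x := x) (Set.mem_univ _) k
  rw [Set.preimage_univ, iteratedFDerivWithin_univ, iteratedFDerivWithin_univ] at h1
  have e : (fun x => f (s • x)) = f ∘ g := rfl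
  rw [e, h1]
  refine (ContinuousMultilinearMap.norm_compContinuousLinearMap_le _ _).trans ?_
  rw [Finset.prod_const, Finset.card_univ, Fintype.card_fin]
  refine mul_le_mul_of_nonneg_left ?_ (norm_nonneg _)
  refine pow_le_pow_left₀ (norm_nonneg _) ?_ k
  refine ContinuousLinearMap.opNorm_le_bound _ hs.le fun y => ?_
  change ‖s • y‖ ≤ _
  rw [norm_smul, Real.norm_eq_abs, abs_of_pos hs]

theorem sy_smul {n : ℕ} {s : ℝ} (hs : 0 < s) (v : ℂ) : sy n (s • v) = sy n v := by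
  unfold sy
  rw [Complex.real_smul, map_mul, Complex.conj_ofReal, mul_div_mul_left]
  exact_mod_cast hs.ne'

theorem sy_le {n : ℕ} (v : ℂ) : ‖sy n v‖ ≤ 1 := by
  unfold sy
  rw [norm_pow, norm_div, RCLike.norm_conj]
  exact pow_le_one₀ (by positivity) (div_self_le_one _)

theorem sy_meas (n : ℕ) : Measurable (sy n) := by
  unfold sy
  have h1 : Measurable (fun v : ℂ => conj v) := Complex.continuous_conj.measurable
  exact (h1.div measurable_id).pow_const n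

/-- convolution of the symbol with the Fourier transform of the cut-off function -/
theorem mu_eq (Θ : ℂ → ℝ) (h : Cap Θ) (n : ℕ) {s : ℝ} (hs : 0 < s) (ξ : ℂ) :
    mu n Θ s ξ = ∫ u, sy n u * 𝓕 (Ts Θ h) (s • ξ - u) := by
  unfold mu
  have h1 := Measure.integral_comp_smul (volume : Measure ℂ)
    (fun u => sy n u * 𝓕 (Ts Θ h) (s • ξ - u)) s
  rw [Complex.finrank_real_complex, ← integral_sub_left_eq_self
    (fun v => sy n (s • v) * 𝓕 (Ts Θ h) (s • ξ - s • v)) volume ξ] at h1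
  have h2 : ∫ u, sy n u * 𝓕 (Ts Θ h) (s • ξ - u) =
      (s ^ 2) • ∫ v, sy n (s • (ξ - v)) * 𝓕 (Ts Θ h) (s • ξ - s • (ξ - v)) := by
    rw [h1, smul_smul, abs_of_nonneg (by positivity), mul_inv_cancel₀ (by positivity), one_smul]
  rw [h2, ← integral_smul]
  refine integral_congr_ae (Eventually.of_forall fun v => ?_)
  simp only
  rw [sy_smul hs, Ft_eq Θ h, ← smul_sub, sub_sub_cancel, Complex.real_smul, Complex.real_smul]
  push_cast
  ring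

/-- the symbol away from `y` -/
noncomputable def Af (n : ℕ) (y u : ℂ) : ℂ := sy n u - Bf n y u

theorem Af_eq (n : ℕ) {y : ℂ} (hy : y ≠ 0) (u : ℂ) :
    Af n y u = ((1 - ch (‖y‖⁻¹ • u - ‖y‖⁻¹ • y) : ℝ) : ℂ) * sy n u := by
  unfold Af Bf gg
  rw [sy_smul (inv_pos.2 (norm_pos_iff.2 hy))]
  push_cast
  ring

theorem Af_le (n : ℕ) {y : ℂ} (hy : y ≠ 0) (u : ℂ) : ‖Af n y u‖ ≤ 1 := by
  rw [Af_eq n hy, norm_mul, Complex.norm_real, Real.norm_eq_abs]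
  have h1 : 0 ≤ ch (‖y‖⁻¹ • u - ‖y‖⁻¹ • y) := ch.nonneg
  have h2 : ch (‖y‖⁻¹ • u - ‖y‖⁻¹ • y) ≤ 1 := ch.le_one
  have h3 : |1 - ch (‖y‖⁻¹ • u - ‖y‖⁻¹ • y)| ≤ 1 := by
    rw [abs_le]; constructor <;> linarith
  calc _ ≤ (1 : ℝ) * 1 := mul_le_mul h3 (sy_le u) (norm_nonneg _) zero_le_one
    _ = 1 := one_mul 1

theorem Af_zero (n : ℕ) {y : ℂ} (hy : y ≠ 0) (u : ℂ) (hu : ‖u - y‖ ≤ ‖y‖ / 4) : Af n y u = 0 := by
  rw [Af_eq n hy, ch_one, sub_self, ofReal_zero, zero_mul]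
  rw [← smul_sub, norm_smul, norm_inv, norm_norm, inv_mul_le_iff₀ (norm_pos_iff.2 hy)]
  linarith

theorem Bf_meas (n : ℕ) {y : ℂ} (hy : y ≠ 0) : Measurable (Bf n y) := (Bf_cd n hy).continuous.measurable

theorem Af_meas (n : ℕ) {y : ℂ} (hy : y ≠ 0) : Measurable (Af n y) :=
  (sy_meas n).sub (Bf_meas n hy)

theorem conv_int {b : ℂ → ℂ} (hm : Measurable b) {C : ℝ} (hb : ∀ u, ‖b u‖ ≤ C) (Φ : 𝓢(ℂ, ℂ)) (x : ℂ) :
    Integrable (fun u => b u * Φ (x - u)) :=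
  (Φ.integrable.comp_sub_left x).bdd_mul (c := C) hm.aestronglyMeasurable (Eventually.of_forall hb)

theorem conv_split {b : ℂ → ℂ} (hm : Measurable b) (hb : ∀ u, ‖b u‖ ≤ 1) (Φ : 𝓢(ℂ, ℂ)) (x : ℂ) :
    ∫ u, b u * Φ (x - u) = cb (fun u => (b u).re) Φ x + cb (fun u => (b u).im) (Complex.I • Φ) x := by
  have h1 : ∀ u, |(b u).re| ≤ 1 := fun u => (Complex.abs_re_le_norm _).trans (hb u)
  have h2 : ∀ u, |(b u).im| ≤ 1 := fun u => (Complex.abs_im_le_norm _).trans (hb u)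
  have m1 : Measurable (fun u => (b u).re) := Complex.measurable_re.comp hm
  have m2 : Measurable (fun u => (b u).im) := Complex.measurable_im.comp hm
  unfold cb
  rw [← integral_add (cb_integrable m1 h1 Φ x) (cb_integrable m2 h2 (Complex.I • Φ) x)]
  refine integral_congr_ae (Eventually.of_forall fun u => ?_)
  simp only [Complex.real_smul, _root_.smul_apply, smul_eq_mul]
  conv_lhs => rw [← Complex.re_add_im (b u)]
  ring

/-- the error for a fixed `k` -/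
theorem main_bound (Θ : ℂ → ℝ) (h : Cap Θ) (k N : ℕ) : ∃ C : ℝ, 0 ≤ C ∧ ∀ n : ℕ, 1 ≤ n → ∀ y : ℂ, y ≠ 0 →
    ‖iteratedFDeriv ℝ k (fun x => sy n x - ∫ u, sy n u * 𝓕 (Ts Θ h) (x - u)) y‖ ≤
      C * ((‖y‖ ^ N)⁻¹ + ‖y‖ ^ 2 * ((n : ℝ) / ‖y‖) ^ (100 * (N + 2) + (k + 2))) := by
  obtain ⟨C₁, h10, h1⟩ := cb_far (𝓕 (Ts Θ h)) k N
  obtain ⟨C₂, h20, h2⟩ := cb_far (Complex.I • 𝓕 (Ts Θ h)) k N
  obtain ⟨C₃, h30, h3⟩ := near_main k (100 * (N + 2) + (k + 2)) (by omega)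
  refine ⟨C₁ + C₂ + C₃, by positivity, fun n hn y hy => ?_⟩
  have hy' : 0 < ‖y‖ := norm_pos_iff.2 hy
  set w₁ : ℂ → ℝ := fun u => (Af n y u).re with hw₁
  set w₂ : ℂ → ℝ := fun u => (Af n y u).im with hw₂
  have b1 : ∀ u, |w₁ u| ≤ 1 := fun u => (Complex.abs_re_le_norm _).trans (Af_le n hy u)
  have b2 : ∀ u, |w₂ u| ≤ 1 := fun u => (Complex.abs_im_le_norm _).trans (Af_le n hy u)
  have m1 : Measurable w₁ := Complex.measurable_re.comp (Af_meas n hy)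
  have m2 : Measurable w₂ := Complex.measurable_im.comp (Af_meas n hy)
  set G : ℂ → ℂ := fun x => Bf n y x - ∫ u, Bf n y u * 𝓕 (Ts Θ h) (x - u) with hG
  set H₁ : ℂ → ℂ := cb w₁ (𝓕 (Ts Θ h)) with hH₁
  set H₂ : ℂ → ℂ := cb w₂ (Complex.I • 𝓕 (Ts Θ h)) with hH₂
  have hBb : ∀ u, ‖Bf n y u‖ ≤ 2 := by
    intro u
    have h5 : Bf n y u = sy n u - Af n y u := by unfold Af; ring
    rw [h5]
    have h6 := norm_sub_le (sy n u) (Af n y u)
    have h7 := sy_le (n := n) u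
    have h8 := Af_le n hy u
    linarith
  have e : (fun x => sy n x - ∫ u, sy n u * 𝓕 (Ts Θ h) (x - u)) =ᶠ[𝓝 y] (G - (H₁ + H₂)) := by
    filter_upwards [ball_mem_nhds y (show 0 < ‖y‖ / 4 by positivity)] with x hx
    rw [mem_ball, dist_eq_norm] at hx
    have h5 : sy n x = Bf n y x := by
      have := Af_zero n hy x hx.le
      unfold Af at this
      exact sub_eq_zero.1 this
    have h6 : ∫ u, sy n u * 𝓕 (Ts Θ h) (x - u) = (∫ u, Bf n y u * 𝓕 (Ts Θ h) (x - u)) +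
        ∫ u, Af n y u * 𝓕 (Ts Θ h) (x - u) := by
      rw [← integral_add (conv_int (Bf_meas n hy) hBb _ x) (conv_int (Af_meas n hy) (Af_le n hy) _ x)]
      refine integral_congr_ae (Eventually.of_forall fun u => ?_)
      simp only [Af]
      ring
    have h7 := conv_split (Af_meas n hy) (Af_le n hy) (𝓕 (Ts Θ h)) x
    rw [h6, h7, h5]
    simp only [Pi.sub_apply, Pi.add_apply, hG, hH₁, hH₂, hw₁, hw₂]
    ring
  rw [(e.iteratedFDeriv ℝ k).eq_of_nhds]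
  have c0 : ContDiff ℝ k G := (h3 Θ h n hn y hy y).1
  have c1 : ContDiff ℝ k H₁ := (cb_main k ℂ w₁ m1 b1 (𝓕 (Ts Θ h))).1
  have c2 : ContDiff ℝ k H₂ := (cb_main k ℂ w₂ m2 b2 (Complex.I • 𝓕 (Ts Θ h))).1
  have c12 : ContDiff ℝ k (H₁ + H₂) := c1.add c2
  rw [iteratedFDeriv_sub_apply c0.contDiffAt c12.contDiffAt,
    iteratedFDeriv_add_apply c1.contDiffAt c2.contDiffAt]
  have n0 := (h3 Θ h n hn y hy y).2
  have n1 := h1 w₁ m1 b1 y ‖y‖ hy' (fun u hu => by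
    simp only [hw₁, Af_zero n hy u hu, zero_re])
  have n2 := h2 w₂ m2 b2 y ‖y‖ hy' (fun u hu => by
    simp only [hw₂, Af_zero n hy u hu, zero_im])
  have n3 := norm_sub_le (iteratedFDeriv ℝ k G y) (iteratedFDeriv ℝ k H₁ y + iteratedFDeriv ℝ k H₂ y)
  have n4 := norm_add_le (iteratedFDeriv ℝ k H₁ y) (iteratedFDeriv ℝ k H₂ y)
  have p1 : 0 ≤ (‖y‖ ^ N)⁻¹ := by positivity
  have p2 : 0 ≤ ‖y‖ ^ 2 * ((n : ℝ) / ‖y‖) ^ (100 * (N + 2) + (k + 2)) := by positivity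
  nlinarith [mul_nonneg h10 p2, mul_nonneg h20 p2, mul_nonneg h30 p1]

/-- the numerical part -/
theorem numer (N k n : ℕ) (hn : 1 ≤ n) (Y : ℝ) (hY : (n : ℝ) ^ (101 / 100 : ℝ) / 2 ≤ Y) :
    (Y ^ N)⁻¹ + Y ^ 2 * ((n : ℝ) / Y) ^ (100 * (N + 2) + (k + 2)) ≤
      (2 ^ N + 2 ^ (100 * (N + 2)) * 2 ^ k) * ((n : ℝ) ^ N)⁻¹ := by
  have hn' : (1 : ℝ) ≤ n := by exact_mod_cast hn
  have h1 : (n : ℝ) ≤ (n : ℝ) ^ (101 / 100 : ℝ) := by
    have := Real.rpow_le_rpow_of_exponent_le hn' (show (1 : ℝ) ≤ 101 / 100 by norm_num)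
    rwa [Real.rpow_one] at this
  have hYn : (n : ℝ) / 2 ≤ Y := by linarith
  have hY0 : 0 < Y := by linarith
  have hA : (Y ^ N)⁻¹ ≤ 2 ^ N * ((n : ℝ) ^ N)⁻¹ := by
    rw [← div_eq_mul_inv, ← div_pow, ← inv_div (n : ℝ) 2, inv_pow]
    apply inv_anti₀ (by positivity)
    exact pow_le_pow_left₀ (by positivity) hYn N
  have hq : (n : ℝ) / Y ≤ 2 := by
    rw [div_le_iff₀ hY0]
    linarith
  have hq0 : 0 ≤ (n : ℝ) / Y := by positivity
  have h100 : ((n : ℝ) / Y) ^ 100 ≤ 2 ^ 100 * (n : ℝ)⁻¹ := by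
    have h2 : ((n : ℝ) ^ (101 / 100 : ℝ) / 2) ^ 100 ≤ Y ^ 100 :=
      pow_le_pow_left₀ (by positivity) hY 100
    have h3 : ((n : ℝ) ^ (101 / 100 : ℝ)) ^ 100 = (n : ℝ) ^ 101 := by
      rw [← Real.rpow_natCast, ← Real.rpow_mul (by positivity)]
      norm_num
    rw [div_pow, h3] at h2
    rw [div_pow, div_le_iff₀ (by positivity)]
    have h4 : (n : ℝ) ^ 101 = (n : ℝ) ^ 100 * n := by ring
    have h5 : (n : ℝ) ^ 100 * n ≤ 2 ^ 100 * Y ^ 100 := by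
      rw [← h4]
      rw [div_le_iff₀ (by positivity)] at h2
      linarith
    have h6 : (2 : ℝ) ^ 100 * (n : ℝ)⁻¹ * Y ^ 100 = (2 ^ 100 * Y ^ 100) / n := by
      field_simp
    rw [h6, le_div_iff₀ (by positivity)]
    exact h5
  have hB : Y ^ 2 * ((n : ℝ) / Y) ^ (100 * (N + 2) + (k + 2)) ≤
      2 ^ (100 * (N + 2)) * 2 ^ k * ((n : ℝ) ^ N)⁻¹ := by
    have h2 : ((n : ℝ) / Y) ^ (100 * (N + 2)) ≤ (2 ^ 100 * (n : ℝ)⁻¹) ^ (N + 2) := by
      rw [pow_mul]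
      exact pow_le_pow_left₀ (by positivity) h100 _
    have h3 : ((n : ℝ) / Y) ^ k ≤ 2 ^ k := pow_le_pow_left₀ hq0 hq k
    calc Y ^ 2 * ((n : ℝ) / Y) ^ (100 * (N + 2) + (k + 2)) =
        ((n : ℝ) / Y) ^ (100 * (N + 2)) * ((n : ℝ) / Y) ^ k * (n : ℝ) ^ 2 := by
          rw [pow_add, pow_add]
          have : Y ^ 2 * ((n : ℝ) / Y) ^ 2 = (n : ℝ) ^ 2 := by
            rw [div_pow]; field_simp
          rw [← this]
          ring
      _ ≤ (2 ^ 100 * (n : ℝ)⁻¹) ^ (N + 2) * 2 ^ k * (n : ℝ) ^ 2 := by gcongr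
      _ = _ := by
          rw [mul_pow, ← pow_mul, inv_pow, pow_add (n : ℝ)]
          field_simp
  linarith

theorem main2 (Θ : ℂ → ℝ) (h : Cap Θ) (k N : ℕ) : ∃ C : ℝ, 0 ≤ C ∧ ∀ n : ℕ, 1 ≤ n → ∀ y : ℂ,
    (n : ℝ) ^ (101 / 100 : ℝ) / 2 ≤ ‖y‖ →
    ‖iteratedFDeriv ℝ k (fun x => sy n x - ∫ u, sy n u * 𝓕 (Ts Θ h) (x - u)) y‖ ≤ C * ((n : ℝ) ^ N)⁻¹ := by
  obtain ⟨C, hC0, hC⟩ := main_bound Θ h k N
  refine ⟨C * (2 ^ N + 2 ^ (100 * (N + 2)) * 2 ^ k), by positivity, fun n hn y hy => ?_⟩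
  have hn0 : (0 : ℝ) < n := by
    have : (1 : ℝ) ≤ n := by exact_mod_cast hn
    linarith
  have hy0 : 0 < ‖y‖ := lt_of_lt_of_le (by positivity) hy
  refine (hC n hn y (norm_pos_iff.1 hy0)).trans ?_
  rw [mul_assoc]
  exact mul_le_mul_of_nonneg_left (numer N k n hn _ hy) hC0

end Pool.Agent.N892.BW.FAR
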