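import Mathlib
import Pool.Agent.N892.BW.FAR_e

/-!
FAR: the part of the kernel far from the origin does not see the frequencies `a / 2 ≤ ‖ξ‖`.
-/

set_option autoImplicit false

open MeasureTheory Filter Topology Complex Metric FourierTransform
open scoped ComplexConjugate ContDiff SchwartzMap RealInnerProductSpace

namespace Pool.Agent.N892.BW.FAR

theorem t : Pool.Agent.N892.BW.S_FAR := by
  intro Θ h N
  choose C hC0 hC using fun k => main2 Θ h k N
  refine ⟨∑ k ∈ Finset.range 5, C k, Finset.sum_nonneg fun k _ => hC0 k, ?_⟩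
  intro n a hn ha k hk ξ hξ
  have hn' : (1 : ℝ) ≤ n := by exact_mod_cast hn
  have hn0 : (0 : ℝ) < n := by linarith
  set s : ℝ := (n : ℝ) ^ (101 / 100 : ℝ) / a with hs
  have hs0 : 0 < s := by positivity
  have hξ0 : 0 < ‖ξ‖ := by linarith
  have e : (fun ξ => sy n ξ - mu n Θ s ξ) =
      fun ξ => (fun x => sy n x - ∫ u, sy n u * 𝓕 (Ts Θ h) (x - u)) (s • ξ) := by
    funext ξ
    simp only
    rw [mu_eq Θ h n hs0, sy_smul hs0]
  rw [e]
  have h0 := scale_bound (fun x => sy n x - ∫ u, sy n u * 𝓕 (Ts Θ h) (x - u)) hs0 k ξ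
  refine h0.trans ?_
  have hY : (n : ℝ) ^ (101 / 100 : ℝ) / 2 ≤ ‖s • ξ‖ := by
    rw [norm_smul, Real.norm_eq_abs, abs_of_pos hs0, hs]
    have : (n : ℝ) ^ (101 / 100 : ℝ) / 2 = (n : ℝ) ^ (101 / 100 : ℝ) / a * (a / 2) := by
      field_simp
    rw [this]
    exact mul_le_mul_of_nonneg_left hξ (by positivity)
  have h1 := hC k n hn _ hY
  have h2 : s ^ k ≤ ((n : ℝ) ^ 2 / a) ^ k := by
    refine pow_le_pow_left₀ hs0.le ?_ k
    rw [hs]
    have := Real.rpow_le_rpow_of_exponent_le hn' (show (101 / 100 : ℝ) ≤ 2 by norm_num)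
    rw [Real.rpow_two] at this
    exact div_le_div_of_nonneg_right this ha.le
  have h3 : C k ≤ ∑ k ∈ Finset.range 5, C k :=
    Finset.single_le_sum (f := fun k => C k) (fun k _ => hC0 k) (Finset.mem_range.2 (by omega))
  have h5 : C k * ((n : ℝ) ^ N)⁻¹ ≤ (∑ k ∈ Finset.range 5, C k) * ((n : ℝ) ^ N)⁻¹ :=
    mul_le_mul_of_nonneg_right h3 (by positivity)
  have h6 : 0 ≤ C k * ((n : ℝ) ^ N)⁻¹ := mul_nonneg (hC0 k) (by positivity)
  have h7 : 0 ≤ s ^ k := pow_nonneg hs0.le k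
  refine (mul_le_mul_of_nonneg_right (h1.trans h5) h7).trans ?_
  exact mul_le_mul_of_nonneg_left h2 (h6.trans h5)

end Pool.Agent.N892.BW.FAR
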