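import Pool.Agent.N892.BW.Stm

/-!
Project BW (helper892), part GAM: the strict inequality for the quotient of Gamma values.
-/

set_option autoImplicit false

open Filter Topology Finset

namespace Pool.Agent.N892.BW.GAM

/-- the products -/
noncomputable def s (x : ℝ) (n : ℕ) : ℝ := ∏ j ∈ range n, (1 - x + j) / (x + j)

/-- the normalised products -/
noncomputable def tt (x : ℝ) (n : ℕ) : ℝ := s x n / (n : ℝ) ^ (1 - 2 * x)

lemma log_lt {a θ : ℝ} (ha : 1 / 2 < a) (h0 : 0 < θ) (h1 : θ < 1) :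
    Real.log ((a + θ / 2) / (a - θ / 2)) < θ * Real.log ((a + 1 / 2) / (a - 1 / 2)) := by
  have ha0 : 0 < a := by linarith
  set v : ℝ := 1 / (2 * a) with hv
  have hv0 : 0 < v := by positivity
  have hv1 : v < 1 := by
    rw [hv, div_lt_one (by positivity)]
    linarith
  have hu0 : 0 < θ * v := by positivity
  have hu1 : θ * v < 1 := by nlinarith
  have e1 : Real.log ((a + θ / 2) / (a - θ / 2)) = Real.log (1 + θ * v) - Real.log (1 - θ * v) := by
    rw [← Real.log_div (by linarith) (by linarith)]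
    congr 1
    rw [div_eq_div_iff (by linarith) (by linarith), hv]
    field_simp
  have e2 : Real.log ((a + 1 / 2) / (a - 1 / 2)) = Real.log (1 + v) - Real.log (1 - v) := by
    rw [← Real.log_div (by linarith) (by linarith)]
    congr 1
    rw [div_eq_div_iff (by linarith) (by linarith), hv]
    field_simp
  rw [e1, e2]
  have hs1 := Real.hasSum_log_sub_log_of_abs_lt_one (x := θ * v) (by rw [abs_of_pos hu0]; exact hu1)
  have hs2 := (Real.hasSum_log_sub_log_of_abs_lt_one (x := v)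
    (by rw [abs_of_pos hv0]; exact hv1)).mul_left θ
  refine hasSum_lt (i := 1) ?_ ?_ hs1 hs2
  · intro k
    show (2 : ℝ) * (1 / (2 * k + 1)) * (θ * v) ^ (2 * k + 1) ≤
      θ * ((2 : ℝ) * (1 / (2 * k + 1)) * v ^ (2 * k + 1))
    have h2 : θ ^ (2 * k + 1) ≤ θ := pow_le_of_le_one h0.le h1.le (by omega)
    rw [mul_pow]
    calc (2 : ℝ) * (1 / (2 * k + 1)) * (θ ^ (2 * k + 1) * v ^ (2 * k + 1))
        ≤ (2 : ℝ) * (1 / (2 * k + 1)) * (θ * v ^ (2 * k + 1)) := by gcongr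
      _ = θ * ((2 : ℝ) * (1 / (2 * k + 1)) * v ^ (2 * k + 1)) := by ring
  · have h2 : θ ^ (2 * 1 + 1) < θ := by
      have : θ ^ (2 * 1 + 1) = θ * (θ * θ) := by ring
      rw [this]
      have h3 : θ * θ < 1 := by nlinarith
      nlinarith
    show (2 : ℝ) * (1 / (2 * (1 : ℕ) + 1)) * (θ * v) ^ (2 * 1 + 1) <
      θ * ((2 : ℝ) * (1 / (2 * (1 : ℕ) + 1)) * v ^ (2 * 1 + 1))
    rw [mul_pow]
    calc (2 : ℝ) * (1 / (2 * (1 : ℕ) + 1)) * (θ ^ (2 * 1 + 1) * v ^ (2 * 1 + 1))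
        < (2 : ℝ) * (1 / (2 * (1 : ℕ) + 1)) * (θ * v ^ (2 * 1 + 1)) := by gcongr
      _ = θ * ((2 : ℝ) * (1 / (2 * (1 : ℕ) + 1)) * v ^ (2 * 1 + 1)) := by ring

lemma s_pos {x : ℝ} (h0 : 0 < x) (h1 : x < 1 / 2) (n : ℕ) : 0 < s x n := by
  unfold s
  refine Finset.prod_pos fun j _ => ?_
  have : (0 : ℝ) ≤ j := Nat.cast_nonneg j
  have h2 : 0 < 1 - x + j := by linarith
  positivity

lemma tt_succ_lt {x : ℝ} (h0 : 0 < x) (h1 : x < 1 / 2) {n : ℕ} (hn : 1 ≤ n) :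
    tt x (n + 1) < tt x n := by
  have hn0 : (1 : ℝ) ≤ n := by exact_mod_cast hn
  have hlog := log_lt (a := (n : ℝ) + 1 / 2) (θ := 1 - 2 * x) (by linarith) (by linarith)
    (by linarith)
  have e1 : ((n : ℝ) + 1 / 2 + (1 - 2 * x) / 2) / ((n : ℝ) + 1 / 2 - (1 - 2 * x) / 2) =
      (1 - x + n) / (x + n) := by
    congr 1 <;> ring
  have e2 : ((n : ℝ) + 1 / 2 + 1 / 2) / ((n : ℝ) + 1 / 2 - 1 / 2) = ((n : ℝ) + 1) / n := by
    congr 1 <;> ring
  rw [e1, e2] at hlog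
  have hA : 0 < (1 - x + n) / (x + (n : ℝ)) := by
    have : 0 < 1 - x + (n : ℝ) := by linarith
    positivity
  have hB : 0 < ((n : ℝ) + 1) / n := by positivity
  have h2 : (1 - x + n) / (x + (n : ℝ)) < (((n : ℝ) + 1) / n) ^ (1 - 2 * x) := by
    rw [← Real.log_lt_log_iff hA (Real.rpow_pos_of_pos hB _), Real.log_rpow hB]
    exact hlog
  rw [Real.div_rpow (by linarith) (by linarith)] at h2
  have hp1 : 0 < ((n : ℝ) + 1) ^ (1 - 2 * x) := Real.rpow_pos_of_pos (by linarith) _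
  have hp2 : 0 < (n : ℝ) ^ (1 - 2 * x) := Real.rpow_pos_of_pos (by linarith) _
  have hs := s_pos h0 h1 n
  unfold tt
  have hs1 : s x (n + 1) = s x n * ((1 - x + n) / (x + n)) := by
    unfold s
    rw [Finset.prod_range_succ]
  rw [hs1]
  push_cast
  rw [div_lt_div_iff₀ hp1 hp2]
  rw [lt_div_iff₀ hp2] at h2
  calc s x n * ((1 - x + n) / (x + n)) * (n : ℝ) ^ (1 - 2 * x)
      = s x n * ((1 - x + n) / (x + n) * (n : ℝ) ^ (1 - 2 * x)) := by ring
    _ < s x n * ((n : ℝ) + 1) ^ (1 - 2 * x) := by gcongr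

lemma tt_le {x : ℝ} (h0 : 0 < x) (h1 : x < 1 / 2) (n : ℕ) : tt x (n + 2) ≤ tt x 2 := by
  induction n with
  | zero => exact le_rfl
  | succ n ih => exact ((tt_succ_lt h0 h1 (n := n + 2) (by omega)).le).trans ih

lemma gamma_le {x : ℝ} (h0 : 0 < x) (h1 : x < 1 / 2) :
    Real.Gamma x / Real.Gamma (1 - x) ≤ tt x 2 := by
  have hlim : Tendsto (fun n : ℕ => Real.GammaSeq x n / Real.GammaSeq (1 - x) n) atTop
      (𝓝 (Real.Gamma x / Real.Gamma (1 - x))) :=
    (Real.GammaSeq_tendsto_Gamma x).div (Real.GammaSeq_tendsto_Gamma (1 - x))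
      (Real.Gamma_pos_of_pos (by linarith)).ne'
  have hlim2 : Tendsto (fun n : ℕ => tt x 2 * (1 + 1 / (n : ℝ)) ^ (1 - 2 * x)) atTop
      (𝓝 (tt x 2 * (1 + 0) ^ (1 - 2 * x))) := by
    refine Tendsto.const_mul _ ?_
    refine Tendsto.rpow_const ?_ (Or.inl (by norm_num))
    exact tendsto_const_nhds.add tendsto_one_div_atTop_nhds_zero_nat
  rw [add_zero, Real.one_rpow, mul_one] at hlim2
  refine le_of_tendsto_of_tendsto hlim hlim2 ?_
  filter_upwards [eventually_ge_atTop 1] with n hn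
  have hn0 : (1 : ℝ) ≤ n := by exact_mod_cast hn
  have hnp : (0 : ℝ) < n := by linarith
  have hp2 : 0 < (n : ℝ) ^ (1 - 2 * x) := Real.rpow_pos_of_pos hnp _
  have hp1 : 0 < ((n : ℝ) + 1) ^ (1 - 2 * x) := Real.rpow_pos_of_pos (by linarith) _
  have e1 : Real.GammaSeq x n / Real.GammaSeq (1 - x) n = s x (n + 1) / (n : ℝ) ^ (1 - 2 * x) := by
    unfold Real.GammaSeq s
    rw [Finset.prod_div_distrib]
    have hq1 : 0 < ∏ j ∈ range (n + 1), (x + (j : ℝ)) :=
      Finset.prod_pos fun j _ => by positivity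
    have hq2 : 0 < ∏ j ∈ range (n + 1), (1 - x + (j : ℝ)) :=
      Finset.prod_pos fun j _ => by
        have : (0 : ℝ) ≤ j := Nat.cast_nonneg j
        linarith
    have hf : (0 : ℝ) < (n.factorial : ℝ) := by exact_mod_cast Nat.factorial_pos n
    have e3 : (n : ℝ) ^ (1 - x) = (n : ℝ) ^ x * (n : ℝ) ^ (1 - 2 * x) := by
      rw [← Real.rpow_add hnp]
      congr 1
      ring
    have hp3 : 0 < (n : ℝ) ^ x := Real.rpow_pos_of_pos hnp _
    rw [e3]
    field_simp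
  have e2 : s x (n + 1) / (n : ℝ) ^ (1 - 2 * x) =
      tt x (n + 1) * (1 + 1 / (n : ℝ)) ^ (1 - 2 * x) := by
    have e4 : 1 + 1 / (n : ℝ) = ((n : ℝ) + 1) / n := by field_simp
    rw [e4, Real.div_rpow (by linarith) hnp.le]
    unfold tt
    push_cast
    field_simp
  rw [e1, e2]
  have h3 : tt x (n + 1) ≤ tt x 2 := by
    obtain ⟨m, rfl⟩ : ∃ m, n = m + 1 := ⟨n - 1, by omega⟩
    exact tt_le h0 h1 m
  have h4 : 0 ≤ (1 + 1 / (n : ℝ)) ^ (1 - 2 * x) := Real.rpow_nonneg (by positivity) _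
  exact mul_le_mul_of_nonneg_right h3 h4

theorem t : Pool.Agent.N892.BW.S_GAM := by
  intro m hm
  have hm2 : (2 : ℝ) ≤ m := by exact_mod_cast hm
  have h0 : (0 : ℝ) < 1 / (2 * (m : ℝ)) := by positivity
  have h1 : 1 / (2 * (m : ℝ)) < 1 / 2 := by
    rw [div_lt_div_iff₀ (by positivity) (by norm_num)]
    linarith
  have h2 := gamma_le h0 h1
  have h3 := tt_succ_lt h0 h1 (n := 1) le_rfl
  have h4 : tt (1 / (2 * (m : ℝ))) 1 = 2 * m - 1 := by
    unfold tt s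
    rw [Finset.prod_range_one]
    simp only [Nat.cast_one, Real.one_rpow, div_one, Nat.cast_zero, add_zero]
    field_simp
  unfold GA
  rw [← h4]
  exact lt_of_le_of_lt h2 h3

end Pool.Agent.N892.BW.GAM
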