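import Pool.Agent.N892.BW.Stm2
import Pool.Agent.N892.BW.ASY
import Pool.Agent.N892.BW.GAM

/-!
Project BW, part 2 (helper892), WR: scaling and the final theorems (helper712)
-/

set_option autoImplicit false

open MeasureTheory ENNReal Filter Topology Complex
open scoped ComplexConjugate ContDiff FourierTransform SchwartzMap

namespace Pool.Agent.N892.BW.WR

/-! ### scaling of integrals -/

theorem lint_scale {t : ℝ} (ht : t ≠ 0) (F : ℂ → ℝ≥0∞) :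
    ∫⁻ w : ℂ, F ((t : ℂ) * w) = ENNReal.ofReal ((t ^ 2)⁻¹) * ∫⁻ w, F w := by
  have h1 : Measure.map (fun w : ℂ => t • w) volume =
      ENNReal.ofReal |(t ^ (Module.finrank ℝ ℂ))⁻¹| • (volume : Measure ℂ) :=
    Measure.map_addHaar_smul volume ht
  have h2 : MeasurableEmbedding (fun w : ℂ => t • w) :=
    (Homeomorph.smulOfNeZero t ht).measurableEmbedding
  have h3 := h2.lintegral_map F (μ := (volume : Measure ℂ))
  rw [h1, lintegral_smul_measure] at h3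
  have h4 : |(t ^ (Module.finrank ℝ ℂ))⁻¹| = (t ^ 2)⁻¹ := by
    rw [Complex.finrank_real_complex]
    exact abs_of_nonneg (by positivity)
  rw [h4] at h3
  rw [smul_eq_mul] at h3
  rw [h3]
  refine lintegral_congr fun w => ?_
  rw [Complex.real_smul]

theorem int_scale {t : ℝ} (F : ℂ → ℂ) :
    ∫ w : ℂ, F ((t : ℂ) * w) = ((t : ℂ) ^ 2)⁻¹ * ∫ w, F w := by
  have h := Measure.integral_comp_smul (volume : Measure ℂ) F t
  rw [Complex.finrank_real_complex, abs_of_nonneg (by positivity)] at h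
  simp only [Complex.real_smul] at h
  rw [h]
  push_cast
  rfl

theorem inner_eq (x ξ : ℂ) : (inner ℝ x ξ : ℝ) = x.re * ξ.re + x.im * ξ.im := by
  rw [Complex.inner]
  simp
  ring

/-- the Fourier transform -/
noncomputable def FF (f : 𝓢(ℂ, ℂ)) (ξ : ℂ) : ℂ :=
  ∫ w : ℂ, Complex.exp (-(2 * (Real.pi : ℂ) * Complex.I *
    ((w.re * ξ.re + w.im * ξ.im : ℝ) : ℂ))) * f w

theorem FF_eq (f : 𝓢(ℂ, ℂ)) (ξ : ℂ) : FF f ξ = (𝓕 f : 𝓢(ℂ, ℂ)) ξ := by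
  unfold FF
  rw [SchwartzMap.fourier_coe, Real.fourier_eq']
  refine integral_congr_ae (Eventually.of_forall fun x => ?_)
  simp only [smul_eq_mul]
  rw [inner_eq]
  congr 2
  push_cast
  ring

theorem FF_smooth (f : 𝓢(ℂ, ℂ)) : ContDiff ℝ ∞ (FF f) := by
  have : FF f = fun ξ => (𝓕 f : 𝓢(ℂ, ℂ)) ξ := funext fun ξ => FF_eq f ξ
  rw [this]
  exact (𝓕 f : 𝓢(ℂ, ℂ)).smooth'

theorem Fi_FF (f : 𝓢(ℂ, ℂ)) (x : ℂ) : Fi (FF f) x = f x := by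
  have h1 : (𝓕⁻ (𝓕 f) : 𝓢(ℂ, ℂ)) x = f x := by
    rw [FourierPair.fourierInv_fourier_eq f]
  rw [← h1, SchwartzMap.fourierInv_coe, Real.fourierInv_eq']
  unfold Fi
  refine integral_congr_ae (Eventually.of_forall fun ξ => ?_)
  simp only [smul_eq_mul]
  rw [FF_eq, inner_eq]
  unfold e2
  congr 2
  push_cast
  ring

/-! ### scaling of the transforms -/

theorem e2_scale {lam : ℝ} (hlam : 0 < lam) (x ξ : ℂ) :
    e2 (((lam⁻¹ : ℝ) : ℂ) * x) ((lam : ℂ) * ξ) = e2 x ξ := by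
  unfold e2
  congr 3
  rw [Complex.re_ofReal_mul, Complex.im_ofReal_mul, Complex.re_ofReal_mul, Complex.im_ofReal_mul]
  field_simp

theorem sy_scale {lam : ℝ} (hlam : 0 < lam) (n : ℕ) (ξ : ℂ) : sy n ((lam : ℂ) * ξ) = sy n ξ := by
  unfold sy
  have h : (lam : ℂ) ≠ 0 := by exact_mod_cast hlam.ne'
  rw [map_mul, Complex.conj_ofReal, mul_div_mul_left _ _ h]

theorem Fi_h {lam : ℝ} (hlam : 0 < lam) (f : 𝓢(ℂ, ℂ)) (x : ℂ) :
    Fi (fun ξ => FF f ((lam : ℂ) * ξ)) x = ((lam : ℂ) ^ 2)⁻¹ * f (((lam⁻¹ : ℝ) : ℂ) * x) := by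
  rw [← Fi_FF f (((lam⁻¹ : ℝ) : ℂ) * x)]
  unfold Fi
  rw [← int_scale (fun η => e2 (((lam⁻¹ : ℝ) : ℂ) * x) η * FF f η)]
  refine integral_congr_ae (Eventually.of_forall fun ξ => ?_)
  simp only
  rw [e2_scale hlam]

theorem Fi_Tn {lam : ℝ} (hlam : 0 < lam) (n : ℕ) (f : 𝓢(ℂ, ℂ)) (x : ℂ) :
    Fi (Tn n (fun ξ => FF f ((lam : ℂ) * ξ))) x =
      ((lam : ℂ) ^ 2)⁻¹ * TS n f (((lam⁻¹ : ℝ) : ℂ) * x) := by
  have e : TS n f (((lam⁻¹ : ℝ) : ℂ) * x) =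
      ∫ η, e2 (((lam⁻¹ : ℝ) : ℂ) * x) η * (sy n η * FF f η) := rfl
  rw [e, ← int_scale (fun η => e2 (((lam⁻¹ : ℝ) : ℂ) * x) η * (sy n η * FF f η))]
  unfold Fi Tn
  refine integral_congr_ae (Eventually.of_forall fun ξ => ?_)
  simp only
  rw [e2_scale hlam, sy_scale hlam]

/-- the factor in the scaling of the norms -/
noncomputable def kap (m : ℕ) (lam : ℝ) : ℝ≥0∞ :=
  ‖((lam : ℂ) ^ 2)⁻¹‖ₑ ^ (2 * m) * ENNReal.ofReal (((lam⁻¹) ^ 2)⁻¹)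

theorem kap_ne_zero (m : ℕ) {lam : ℝ} (hlam : 0 < lam) : kap m lam ≠ 0 := by
  unfold kap
  refine mul_ne_zero (pow_ne_zero _ ?_) ?_
  · rw [enorm_ne_zero]
    have h : (lam : ℂ) ≠ 0 := by exact_mod_cast hlam.ne'
    exact inv_ne_zero (pow_ne_zero _ h)
  · have : 0 < ((lam⁻¹) ^ 2)⁻¹ := by positivity
    exact (ENNReal.ofReal_pos.2 this).ne'

theorem kap_ne_top (m : ℕ) (lam : ℝ) : kap m lam ≠ ⊤ := by
  unfold kap
  exact ENNReal.mul_ne_top (ENNReal.pow_ne_top enorm_ne_top) ENNReal.ofReal_ne_top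

theorem Nm_scale (m : ℕ) {lam : ℝ} (hlam : 0 < lam) (g : ℂ → ℂ) :
    Nm m (fun x => ((lam : ℂ) ^ 2)⁻¹ * g (((lam⁻¹ : ℝ) : ℂ) * x)) = kap m lam * Nm m g := by
  unfold Nm kap
  have h1 : ∀ x : ℂ, ‖((lam : ℂ) ^ 2)⁻¹ * g (((lam⁻¹ : ℝ) : ℂ) * x)‖ₑ ^ (2 * m) =
      ‖((lam : ℂ) ^ 2)⁻¹‖ₑ ^ (2 * m) * ‖g (((lam⁻¹ : ℝ) : ℂ) * x)‖ₑ ^ (2 * m) := by
    intro x
    rw [enorm_mul, mul_pow]
  simp_rw [h1]
  rw [lintegral_const_mul' _ _ (ENNReal.pow_ne_top enorm_ne_top),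
    lint_scale (t := lam⁻¹) (inv_ne_zero hlam.ne') (fun x => ‖g x‖ₑ ^ (2 * m)), mul_assoc]

theorem eLp_eq {m : ℕ} (hm : 1 ≤ m) (g : ℂ → ℂ) :
    eLpNorm g (ENNReal.ofReal (2 * m)) volume = (Nm m g) ^ (((2 * m : ℕ) : ℝ))⁻¹ := by
  have h0 : (0 : ℝ) < 2 * m := by
    have : (1 : ℝ) ≤ m := by exact_mod_cast hm
    linarith
  rw [eLpNorm_eq_lintegral_rpow_enorm_toReal (ENNReal.ofReal_pos.2 h0).ne' ENNReal.ofReal_ne_top,
    ENNReal.toReal_ofReal h0.le]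
  unfold Nm
  have e : (2 * (m : ℝ)) = ((2 * m : ℕ) : ℝ) := by push_cast; rfl
  rw [e, one_div]
  congr 1
  refine lintegral_congr fun x => ?_
  rw [ENNReal.rpow_natCast]

/-- from the integrals to the norms -/
theorem le_of_Nm {m : ℕ} (hm : 1 ≤ m) {g f : ℂ → ℂ} {B B' : ℝ} (hB : 0 ≤ B) (hBB : B ≤ B')
    (h : Nm m g ≤ ENNReal.ofReal (B ^ (2 * m)) * Nm m f) :
    eLpNorm g (ENNReal.ofReal (2 * m)) volume ≤
      ENNReal.ofReal B' * eLpNorm f (ENNReal.ofReal (2 * m)) volume := by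
  have h2m : 2 * m ≠ 0 := by omega
  rw [eLp_eq hm, eLp_eq hm]
  have h0 : (0 : ℝ) ≤ (((2 * m : ℕ) : ℝ))⁻¹ := by positivity
  calc (Nm m g) ^ (((2 * m : ℕ) : ℝ))⁻¹
      ≤ (ENNReal.ofReal (B ^ (2 * m)) * Nm m f) ^ (((2 * m : ℕ) : ℝ))⁻¹ :=
        ENNReal.rpow_le_rpow h h0
    _ = ENNReal.ofReal B * (Nm m f) ^ (((2 * m : ℕ) : ℝ))⁻¹ := by
        rw [ENNReal.mul_rpow_of_nonneg _ _ h0, ENNReal.ofReal_pow hB,
          ENNReal.pow_rpow_inv_natCast h2m]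
    _ ≤ _ := by
        gcongr

/-! ### asymptotics -/

theorem Cn_pos {m : ℕ} (hm : 2 ≤ m) (n : ℕ) : 0 < Cn (2 * m) n := by
  unfold Cn
  have h1 : (2 : ℝ) ≤ m := by exact_mod_cast hm
  refine Finset.prod_pos fun j _ => ?_
  have h2 : (1 : ℝ) / (2 * m) ≤ 1 / 4 := one_div_le_one_div_of_le (by norm_num) (by linarith)
  have h3 : (0 : ℝ) < 1 / (2 * m) := by positivity
  have h4 : (0 : ℝ) ≤ j := Nat.cast_nonneg j
  exact div_pos (by linarith) (by linarith)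

theorem GA_pos {m : ℕ} (hm : 2 ≤ m) : 0 < GA m := by
  unfold GA
  have h1 : (2 : ℝ) ≤ m := by exact_mod_cast hm
  have h2 : (1 : ℝ) / (2 * m) ≤ 1 / 4 := one_div_le_one_div_of_le (by norm_num) (by linarith)
  have h3 : (0 : ℝ) < 1 / (2 * m) := by positivity
  exact div_pos (Real.Gamma_pos_of_pos h3) (Real.Gamma_pos_of_pos (by linarith))

theorem asy {m : ℕ} (hm : 2 ≤ m) {ε : ℝ} (hε : 0 < ε) : ∃ n₀ : ℕ, ∀ n : ℕ, n₀ ≤ n →
    AA m n ≤ (1 + ε) * Cn (2 * m) n ∧ Cn (2 * m) n ≤ (1 + ε) * AA m n := by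
  have h1 := ASY.t m hm
  have h2 := h1.eventually_le_const (u := 1 + ε) (by linarith)
  have h3 := h1.eventually_const_le (u := 1 / (1 + ε)) (by
    rw [div_lt_one (by linarith)]
    linarith)
  obtain ⟨n₀, hn₀⟩ := eventually_atTop.1 (h2.and h3)
  refine ⟨n₀, fun n hn => ?_⟩
  obtain ⟨h4, h5⟩ := hn₀ n hn
  have h6 := Cn_pos hm n
  rw [div_le_iff₀ h6] at h4
  rw [le_div_iff₀ h6, div_mul_eq_mul_div, one_mul, div_le_iff₀ (by linarith)] at h5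
  exact ⟨h4, by linarith⟩

theorem ta (_h1 : S_BAS) (h2 : S_KTH) : S_WRA := by
  intro m K ε hm hK hε
  obtain ⟨ε₁, hε₁⟩ : ∃ ε₁ : ℝ, ε₁ = min (ε / 3) 1 := ⟨_, rfl⟩
  have h1 : 0 < ε₁ := by
    rw [hε₁]
    exact lt_min (by linarith) one_pos
  have h3 : ε₁ ≤ ε / 3 := by rw [hε₁]; exact min_le_left _ _
  have h4 : ε₁ ≤ 1 := by rw [hε₁]; exact min_le_right _ _
  obtain ⟨n₀, hn₀⟩ := h2 m K ε₁ hm hK h1
  obtain ⟨n₁, hn₁⟩ := asy hm h1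
  refine ⟨max n₀ n₁, fun n hn lam f hlam hspec => ?_⟩
  have hC := Cn_pos hm n
  obtain ⟨hA, -⟩ := hn₁ n ((le_max_right _ _).trans hn)
  have hA0 : 0 ≤ AA m n := by
    unfold AA
    exact mul_nonneg (Real.rpow_nonneg (Nat.cast_nonneg n) _) (GA_pos hm).le
  have hbd : Bd 1 ((n : ℝ) ^ K) (fun ξ => FF f ((lam : ℂ) * ξ)) := by
    refine ⟨(FF_smooth f).comp (contDiff_const.mul contDiff_id), fun ξ hξ => ?_⟩
    obtain ⟨h5, h6⟩ := hspec ((lam : ℂ) * ξ) hξ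
    have e : ‖(lam : ℂ) * ξ‖ = lam * ‖ξ‖ := by
      rw [norm_mul, Complex.norm_real, Real.norm_eq_abs, abs_of_pos hlam]
    rw [e] at h5 h6
    refine ⟨?_, le_of_mul_le_mul_left h6 hlam⟩
    have h7 : lam * 1 ≤ lam * ‖ξ‖ := by linarith
    exact le_of_mul_le_mul_left h7 hlam
  have h5 := hn₀ n ((le_max_left _ _).trans hn) _ hbd
  have e1 : (Fi (Tn n (fun ξ => FF f ((lam : ℂ) * ξ)))) =
      fun x => ((lam : ℂ) ^ 2)⁻¹ * TS n f (((lam⁻¹ : ℝ) : ℂ) * x) :=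
    funext fun x => Fi_Tn hlam n f x
  have e2 : (Fi (fun ξ => FF f ((lam : ℂ) * ξ))) =
      fun x => ((lam : ℂ) ^ 2)⁻¹ * (fun z : ℂ => f z) (((lam⁻¹ : ℝ) : ℂ) * x) :=
    funext fun x => Fi_h hlam f x
  rw [e1, e2, Nm_scale m hlam, Nm_scale m hlam, mul_left_comm] at h5
  have h6 : Nm m (TS n f) ≤ ENNReal.ofReal (((1 + ε₁) * AA m n) ^ (2 * m)) *
      Nm m (fun z : ℂ => f z) :=
    (ENNReal.mul_le_mul_iff_right (kap_ne_zero m hlam) (kap_ne_top m lam)).1 h5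
  refine le_of_Nm (by omega) (by positivity) ?_ h6
  have h7 : (1 + ε₁) * AA m n ≤ (1 + ε) * Cn (2 * m) n := by
    calc (1 + ε₁) * AA m n ≤ (1 + ε₁) * ((1 + ε₁) * Cn (2 * m) n) :=
          mul_le_mul_of_nonneg_left hA (by linarith)
      _ = ((1 + ε₁) * (1 + ε₁)) * Cn (2 * m) n := by ring
      _ ≤ (1 + ε) * Cn (2 * m) n := by
          refine mul_le_mul_of_nonneg_right ?_ hC.le
          nlinarith
  exact h7

theorem tb (h : S_WRA) : S_WRB := by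
  intro m K hm hK
  have hG := GA_pos hm
  have hG2 := GAM.t m hm
  obtain ⟨r, hr⟩ : ∃ r : ℝ, r = (2 * m - 1) / GA m := ⟨_, rfl⟩
  have hr1 : 1 < r := by
    rw [hr, lt_div_iff₀ hG]
    linarith
  obtain ⟨ε, hε⟩ : ∃ ε : ℝ, ε = min ((r - 1) / 3) 1 := ⟨_, rfl⟩
  have h1 : 0 < ε := by
    rw [hε]
    exact lt_min (by linarith) one_pos
  have h3 : ε ≤ (r - 1) / 3 := by rw [hε]; exact min_le_left _ _
  have h4 : ε ≤ 1 := by rw [hε]; exact min_le_right _ _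
  obtain ⟨n₀, hn₀⟩ := h m K ε hm hK h1
  obtain ⟨n₁, hn₁⟩ := asy hm h1
  refine ⟨max n₀ n₁, fun n hn lam f hlam hspec => ?_⟩
  obtain ⟨-, hA⟩ := hn₁ n ((le_max_right _ _).trans hn)
  have h5 := hn₀ n ((le_max_left _ _).trans hn) lam f hlam hspec
  refine h5.trans (mul_le_mul' (ENNReal.ofReal_le_ofReal ?_) le_rfl)
  have h6 : (1 + ε) * Cn (2 * m) n ≤
      (n : ℝ) ^ (1 - 2 / (2 * (m : ℝ))) * (2 * (m : ℝ) - 1) := by
    have hm0 : (0 : ℝ) < m := by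
      have : (2 : ℝ) ≤ m := by exact_mod_cast hm
      linarith
    have e : (1 : ℝ) - 2 / (2 * m) = 1 - 1 / m := by
      field_simp
    rw [e]
    have h7 : 0 ≤ (n : ℝ) ^ (1 - 1 / (m : ℝ)) := Real.rpow_nonneg (Nat.cast_nonneg n) _
    calc (1 + ε) * Cn (2 * m) n ≤ (1 + ε) * ((1 + ε) * AA m n) :=
          mul_le_mul_of_nonneg_left hA (by linarith)
      _ = (n : ℝ) ^ (1 - 1 / (m : ℝ)) * (((1 + ε) * (1 + ε)) * GA m) := by
          unfold AA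
          ring
      _ ≤ (n : ℝ) ^ (1 - 1 / (m : ℝ)) * (r * GA m) := by
          refine mul_le_mul_of_nonneg_left ?_ h7
          refine mul_le_mul_of_nonneg_right ?_ hG.le
          nlinarith
      _ = _ := by
          rw [hr, div_mul_cancel₀ _ hG.ne']
  exact h6

end Pool.Agent.N892.BW.WR
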