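import Pool.Agent.N892.BW.Stm3
import Pool.Agent.N892.BW.WR

/-!
Project BW, part 3 (helper892), FIN3 (helper700): density, scaling and the final theorems
-/

set_option autoImplicit false

open MeasureTheory ENNReal Filter Topology Complex
open scoped ComplexConjugate ContDiff FourierTransform SchwartzMap

namespace Pool.Agent.N892.BW.FIN3

open Pool.Agent.N892.BW.WR

/-! ### low-pass symbols -/

theorem lp_smooth (β : ℝ) : ContDiff ℝ ∞ (lp β) := by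
  unfold lp
  exact Complex.ofRealCLM.contDiff.comp (thb.contDiff.comp (contDiff_const.mul contDiff_id))

theorem lp_val (β : ℝ) (ξ : ℂ) : ∃ t : ℝ, 0 ≤ t ∧ t ≤ 1 ∧ lp β ξ = (t : ℂ) :=
  ⟨_, thb.nonneg, thb.le_one, rfl⟩

theorem norm_sc {β : ℝ} (hβ : 0 < β) (ξ : ℂ) : ‖((β⁻¹ : ℝ) : ℂ) * ξ‖ = ‖ξ‖ / β := by
  rw [norm_mul, Complex.norm_real, Real.norm_of_nonneg (by positivity), inv_mul_eq_div]

theorem lp_one {β : ℝ} (hβ : 0 < β) {ξ : ℂ} (h : ‖ξ‖ ≤ β) : lp β ξ = 1 := by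
  unfold lp
  rw [thb.one_of_mem_closedBall]
  · simp
  · rw [mem_closedBall_zero_iff, norm_sc hβ]
    show ‖ξ‖ / β ≤ 1
    rwa [div_le_one hβ]

theorem lp_zero {β : ℝ} (hβ : 0 < β) {ξ : ℂ} (h : 2 * β ≤ ‖ξ‖) : lp β ξ = 0 := by
  unfold lp
  rw [thb.zero_of_le_dist]
  · simp
  · rw [dist_zero_right, norm_sc hβ]
    show 2 ≤ ‖ξ‖ / β
    rwa [le_div_iff₀ hβ]

/-- the cut-off symbols -/
noncomputable def cj (j : ℕ) (ξ : ℂ) : ℂ := lp ((j : ℝ) + 1) ξ - lp (((j : ℝ) + 1)⁻¹) ξ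

theorem cj_smooth (j : ℕ) : ContDiff ℝ ∞ (cj j) := (lp_smooth _).sub (lp_smooth _)

theorem cj_le (j : ℕ) (ξ : ℂ) : ‖cj j ξ‖ ≤ 1 := by
  obtain ⟨t, t0, t1, ht⟩ := lp_val ((j : ℝ) + 1) ξ
  obtain ⟨s, s0, s1, hs⟩ := lp_val (((j : ℝ) + 1)⁻¹) ξ
  rw [cj, ht, hs, ← Complex.ofReal_sub, Complex.norm_real, Real.norm_eq_abs, abs_le]
  constructor <;> linarith

theorem cj_one {ξ : ℂ} (h : ξ ≠ 0) : ∀ᶠ j : ℕ in atTop, cj j ξ = 1 := by
  have h0 : 0 < ‖ξ‖ := norm_pos_iff.2 h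
  obtain ⟨J, hJ⟩ := exists_nat_ge (max ‖ξ‖ (2 / ‖ξ‖))
  filter_upwards [eventually_ge_atTop J] with j hj
  have hj' : (J : ℝ) ≤ j := by exact_mod_cast hj
  have h1 : ‖ξ‖ ≤ (j : ℝ) + 1 := by linarith [le_max_left ‖ξ‖ (2 / ‖ξ‖)]
  have h2 : 2 / ‖ξ‖ ≤ (j : ℝ) + 1 := by linarith [le_max_right ‖ξ‖ (2 / ‖ξ‖)]
  have h3 : 2 * ((j : ℝ) + 1)⁻¹ ≤ ‖ξ‖ := by
    rw [div_le_iff₀ h0] at h2
    rw [← div_eq_mul_inv, div_le_iff₀ (by positivity)]
    linarith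
  rw [cj, lp_one (by positivity) h1, lp_zero (by positivity) h3, sub_zero]

theorem cj_bd (j : ℕ) (ξ : ℂ) (h : cj j ξ ≠ 0) :
    ((j : ℝ) + 1)⁻¹ ≤ ‖ξ‖ ∧ ‖ξ‖ ≤ 2 * ((j : ℝ) + 1) := by
  have hj : (1 : ℝ) ≤ (j : ℝ) + 1 := by
    have : (0 : ℝ) ≤ j := Nat.cast_nonneg j
    linarith
  have h1 : ((j : ℝ) + 1)⁻¹ ≤ (j : ℝ) + 1 := (inv_le_one_of_one_le₀ hj).trans hj
  constructor
  · by_contra hcon
    push Not at hcon
    apply h
    rw [cj, lp_one (by positivity) (hcon.le.trans h1), lp_one (by positivity) hcon.le, sub_self]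
  · by_contra hcon
    push Not at hcon
    apply h
    rw [cj, lp_zero (by positivity) hcon.le, lp_zero (by positivity) (by linarith), sub_self]

/-! ### scaling -/

theorem Fi_sc {lam : ℝ} (hlam : 0 < lam) (H : ℂ → ℂ) (x : ℂ) :
    Fi (fun ξ => H ((lam : ℂ) * ξ)) x = ((lam : ℂ) ^ 2)⁻¹ * Fi H (((lam⁻¹ : ℝ) : ℂ) * x) := by
  unfold Fi
  rw [← int_scale (fun η => e2 (((lam⁻¹ : ℝ) : ℂ) * x) η * H η)]
  refine integral_congr_ae (Eventually.of_forall fun ξ => ?_)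
  simp only
  rw [e2_scale hlam]

theorem step {m n : ℕ} {B : ℝ≥0∞} {lam b : ℝ} (hlam : 0 < lam) {H : ℂ → ℂ} (hH : Bd lam b H)
    (h : ∀ h, Bd 1 (b / lam) h → Nm m (Fi (Tn n h)) ≤ B * Nm m (Fi h)) :
    Nm m (Fi (Tn n H)) ≤ B * Nm m (Fi H) := by
  have hbd : Bd 1 (b / lam) (fun ξ => H ((lam : ℂ) * ξ)) := by
    refine ⟨hH.1.comp (contDiff_const.mul contDiff_id), fun ξ hξ => ?_⟩
    obtain ⟨h5, h6⟩ := hH.2 _ hξ
    rw [norm_mul, Complex.norm_real, Real.norm_of_nonneg hlam.le] at h5 h6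
    refine ⟨le_of_mul_le_mul_left (by linarith) hlam, ?_⟩
    rw [le_div_iff₀ hlam]
    linarith
  have h5 := h _ hbd
  have e0 : Tn n (fun ξ => H ((lam : ℂ) * ξ)) = fun ξ => Tn n H ((lam : ℂ) * ξ) := by
    funext ξ
    unfold Tn
    rw [sy_scale hlam]
  rw [e0, funext (Fi_sc hlam (Tn n H)), funext (Fi_sc hlam H), Nm_scale m hlam, Nm_scale m hlam,
    mul_left_comm] at h5
  exact (ENNReal.mul_le_mul_iff_right (kap_ne_zero m hlam) (kap_ne_top m lam)).1 h5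

/-! ### measurability and limits -/

theorem e2_cont : Continuous (fun p : ℂ × ℂ => e2 p.1 p.2) := by
  unfold e2
  fun_prop

theorem e2_cont' (x : ℂ) : Continuous (e2 x) := e2_cont.comp (continuous_const.prodMk continuous_id)

theorem e2_norm (x ξ : ℂ) : ‖e2 x ξ‖ = 1 := by
  unfold e2
  have : 2 * (Real.pi : ℂ) * Complex.I * ((x.re * ξ.re + x.im * ξ.im : ℝ) : ℂ) =
      ((2 * Real.pi * (x.re * ξ.re + x.im * ξ.im) : ℝ) : ℂ) * Complex.I := by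
    push_cast
    ring
  rw [this, Complex.norm_exp_ofReal_mul_I]

theorem sy_meas (n : ℕ) : Measurable (sy n) := by
  unfold sy
  exact (Complex.continuous_conj.measurable.div measurable_id).pow_const n

theorem sy_le (n : ℕ) (ξ : ℂ) : ‖sy n ξ‖ ≤ 1 := by
  unfold sy
  rw [norm_pow, norm_div, Complex.norm_conj]
  exact pow_le_one₀ (by positivity) (div_self_le_one _)

theorem Fi_meas {g : ℂ → ℂ} (hg : Measurable g) : StronglyMeasurable (Fi g) := by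
  unfold Fi
  apply StronglyMeasurable.integral_prod_right
  apply Measurable.stronglyMeasurable
  exact e2_cont.measurable.mul (hg.comp measurable_snd)

theorem ae_ne0 : ∀ᵐ ξ : ℂ, ξ ≠ 0 := by
  have h : (volume : Measure ℂ) {0} = 0 := measure_singleton 0
  exact compl_mem_ae_iff.2 h

theorem lim_Fi {g : ℂ → ℂ} (hg : Integrable g) (x : ℂ) :
    Tendsto (fun j : ℕ => Fi (fun ξ => cj j ξ * g ξ) x) atTop (𝓝 (Fi g x)) := by
  unfold Fi
  refine tendsto_integral_of_dominated_convergence (fun ξ => ‖g ξ‖) (fun j => ?_) hg.norm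
    (fun j => Eventually.of_forall fun ξ => ?_) ?_
  · exact (e2_cont' x).aestronglyMeasurable.mul
      ((cj_smooth j).continuous.aestronglyMeasurable.mul hg.aestronglyMeasurable)
  · rw [norm_mul, norm_mul, e2_norm, one_mul]
    exact mul_le_of_le_one_left (norm_nonneg _) (cj_le j ξ)
  · filter_upwards [ae_ne0] with ξ hξ
    refine tendsto_const_nhds.congr' ?_
    filter_upwards [cj_one hξ] with j hj
    rw [hj, one_mul]

/-- the distance in the supremum norm -/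
noncomputable def dl (g : ℂ → ℂ) (j : ℕ) : ℝ := ∫ ξ, ‖cj j ξ - 1‖ * ‖g ξ‖

theorem dl_nonneg (g : ℂ → ℂ) (j : ℕ) : 0 ≤ dl g j := integral_nonneg fun ξ => by positivity

theorem cj_sub (j : ℕ) (ξ : ℂ) : ‖cj j ξ - 1‖ ≤ 2 := by
  refine (norm_sub_le _ _).trans ?_
  rw [norm_one]
  linarith [cj_le j ξ]

theorem dl_lim {g : ℂ → ℂ} (hg : Integrable g) : Tendsto (dl g) atTop (𝓝 0) := by
  have h : Tendsto (dl g) atTop (𝓝 (∫ _ : ℂ, (0 : ℝ))) := by
    unfold dl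
    refine tendsto_integral_of_dominated_convergence (fun ξ => 2 * ‖g ξ‖) (fun j => ?_)
      (hg.norm.const_mul 2) (fun j => Eventually.of_forall fun ξ => ?_) ?_
    · exact (((cj_smooth j).continuous.sub continuous_const).norm.aestronglyMeasurable).mul
        hg.aestronglyMeasurable.norm
    · rw [Real.norm_of_nonneg (by positivity)]
      exact mul_le_mul_of_nonneg_right (cj_sub j ξ) (norm_nonneg _)
    · filter_upwards [ae_ne0] with ξ hξ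
      refine tendsto_const_nhds.congr' ?_
      filter_upwards [cj_one hξ] with j hj
      rw [hj, sub_self, norm_zero, zero_mul]
  simpa using h

theorem int_cj {g : ℂ → ℂ} (hg : Integrable g) (j : ℕ) : Integrable (fun ξ => cj j ξ * g ξ) :=
  hg.bdd_mul (c := 1) (cj_smooth j).continuous.aestronglyMeasurable
    (Eventually.of_forall fun ξ => cj_le j ξ)

theorem int_e2 {g : ℂ → ℂ} (hg : Integrable g) (x : ℂ) : Integrable (fun ξ => e2 x ξ * g ξ) :=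
  hg.bdd_mul (c := 1) (e2_cont' x).aestronglyMeasurable
    (Eventually.of_forall fun ξ => (e2_norm x ξ).le)

theorem sup_le {g : ℂ → ℂ} (hg : Integrable g) (j : ℕ) (x : ℂ) :
    ‖Fi (fun ξ => cj j ξ * g ξ) x - Fi g x‖ ≤ dl g j := by
  unfold Fi dl
  rw [← integral_sub (int_e2 (int_cj hg j) x) (int_e2 hg x)]
  refine (norm_integral_le_integral_norm _).trans (le_of_eq ?_)
  refine integral_congr_ae (Eventually.of_forall fun ξ => ?_)
  simp only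
  have : e2 x ξ * (cj j ξ * g ξ) - e2 x ξ * g ξ = e2 x ξ * ((cj j ξ - 1) * g ξ) := by ring
  rw [this, norm_mul, norm_mul, e2_norm, one_mul]

theorem sq_le (a b : ℂ) : ‖a - b‖ₑ ^ 2 ≤ 2 * ‖a‖ₑ ^ 2 + 2 * ‖b‖ₑ ^ 2 := by
  have h1 : ‖a - b‖ ^ 2 ≤ 2 * ‖a‖ ^ 2 + 2 * ‖b‖ ^ 2 := by
    have h2 := norm_sub_le a b
    have h3 := norm_nonneg (a - b)
    nlinarith [sq_nonneg (‖a‖ - ‖b‖), norm_nonneg a, norm_nonneg b]
  have h4 := ENNReal.ofReal_le_ofReal h1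
  rw [ENNReal.ofReal_add (by positivity) (by positivity), ENNReal.ofReal_mul (by norm_num),
    ENNReal.ofReal_mul (by norm_num), ENNReal.ofReal_pow (norm_nonneg _),
    ENNReal.ofReal_pow (norm_nonneg _), ENNReal.ofReal_pow (norm_nonneg _), ofReal_norm,
    ofReal_norm, ofReal_norm] at h4
  simpa using h4

theorem Nm_one_lt (f : 𝓢(ℂ, ℂ)) : ∫⁻ x, ‖f x‖ₑ ^ 2 < ⊤ := by
  have h1 : MemLp (fun z : ℂ => f z) (ENNReal.ofReal (2 * (1 : ℕ))) volume := f.memLp _ _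
  have h2 := h1.eLpNorm_lt_top
  rw [eLp_eq le_rfl] at h2
  by_contra hcon
  rw [not_lt, top_le_iff] at hcon
  have h3 : Nm 1 (fun z : ℂ => f z) = ⊤ := by
    unfold Nm
    simpa using hcon
  rw [h3] at h2
  simp at h2

theorem FF_int (f : 𝓢(ℂ, ℂ)) : Integrable (FF f) := by
  have : FF f = fun ξ => (𝓕 f : 𝓢(ℂ, ℂ)) ξ := funext fun ξ => FF_eq f ξ
  rw [this]
  exact (𝓕 f : 𝓢(ℂ, ℂ)).integrable

theorem FF_sq (f : 𝓢(ℂ, ℂ)) : ∫⁻ ξ, ‖FF f ξ‖ₑ ^ 2 < ⊤ := by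
  have : FF f = fun ξ => (𝓕 f : 𝓢(ℂ, ℂ)) ξ := funext fun ξ => FF_eq f ξ
  rw [this]
  exact Nm_one_lt (𝓕 f : 𝓢(ℂ, ℂ))

theorem bdj (f : 𝓢(ℂ, ℂ)) (j : ℕ) :
    Bd (((j : ℝ) + 1)⁻¹) (2 * ((j : ℝ) + 1)) (fun ξ => cj j ξ * FF f ξ) :=
  ⟨(cj_smooth j).mul (FF_smooth f), fun ξ hξ => cj_bd j ξ (left_ne_zero_of_mul hξ)⟩

theorem rest_lim (h1 : S_BAS) {m : ℕ} (hm : 2 ≤ m) (f : 𝓢(ℂ, ℂ)) :
    Tendsto (fun j : ℕ => Nm m (fun x => Fi (fun ξ => cj j ξ * FF f ξ) x - f x)) atTop (𝓝 0) := by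
  obtain ⟨C, hC⟩ : ∃ C : ℝ≥0∞, C = 2 * (∫⁻ ξ, ‖FF f ξ‖ₑ ^ 2) + 2 * ∫⁻ x, ‖f x‖ₑ ^ 2 := ⟨_, rfl⟩
  have hCt : C ≠ ⊤ := by
    rw [hC]
    exact ENNReal.add_ne_top.2 ⟨ENNReal.mul_ne_top (by simp) (FF_sq f).ne,
      ENNReal.mul_ne_top (by simp) (Nm_one_lt f).ne⟩
  have hFi := FF_int f
  have hlim : Tendsto (fun j : ℕ => (ENNReal.ofReal (dl (FF f) j)) ^ (2 * m - 2) * C) atTop
      (𝓝 0) := by
    have h2 := ENNReal.tendsto_ofReal (dl_lim hFi)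
    rw [ENNReal.ofReal_zero] at h2
    have h4 := ((ENNReal.continuous_pow (2 * m - 2)).tendsto 0).comp h2
    have h3 := ENNReal.Tendsto.mul_const h4 (Or.inr hCt)
    rwa [zero_pow (by omega), zero_mul] at h3
  refine tendsto_of_tendsto_of_tendsto_of_le_of_le tendsto_const_nhds hlim
    (fun j => zero_le) (fun j => ?_)
  have hb0 : Bd 0 (2 * ((j : ℝ) + 1)) (fun ξ => cj j ξ * FF f ξ) :=
    ⟨(bdj f j).1, fun ξ hξ => ⟨norm_nonneg _, ((bdj f j).2 ξ hξ).2⟩⟩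
  obtain ⟨hcont, -, -, -, hpl⟩ := h1 _ _ hb0
  have hL2 : ∫⁻ x, ‖Fi (fun ξ => cj j ξ * FF f ξ) x - f x‖ₑ ^ 2 ≤ C := by
    have h2 : ∫⁻ x, ‖Fi (fun ξ => cj j ξ * FF f ξ) x‖ₑ ^ 2 ≤ ∫⁻ ξ, ‖FF f ξ‖ₑ ^ 2 := by
      rw [hpl]
      refine lintegral_mono fun ξ => ?_
      refine pow_le_pow_left' ?_ 2
      rw [← ofReal_norm, ← ofReal_norm]
      refine ENNReal.ofReal_le_ofReal ?_
      rw [norm_mul]
      exact mul_le_of_le_one_left (norm_nonneg _) (cj_le j ξ)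
    calc ∫⁻ x, ‖Fi (fun ξ => cj j ξ * FF f ξ) x - f x‖ₑ ^ 2
        ≤ ∫⁻ x, (2 * ‖Fi (fun ξ => cj j ξ * FF f ξ) x‖ₑ ^ 2 + 2 * ‖f x‖ₑ ^ 2) :=
          lintegral_mono fun x => sq_le _ _
      _ = 2 * (∫⁻ x, ‖Fi (fun ξ => cj j ξ * FF f ξ) x‖ₑ ^ 2) + 2 * ∫⁻ x, ‖f x‖ₑ ^ 2 := by
          rw [lintegral_add_left' (by
            exact ((hcont.measurable.enorm.pow_const 2).const_mul 2).aemeasurable),
            lintegral_const_mul' _ _ (by simp), lintegral_const_mul' _ _ (by simp)]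
      _ ≤ C := by
          rw [hC]
          gcongr
  unfold Nm
  calc ∫⁻ x, ‖Fi (fun ξ => cj j ξ * FF f ξ) x - f x‖ₑ ^ (2 * m)
      ≤ ∫⁻ x, (ENNReal.ofReal (dl (FF f) j)) ^ (2 * m - 2) *
          ‖Fi (fun ξ => cj j ξ * FF f ξ) x - f x‖ₑ ^ 2 := by
        refine lintegral_mono fun x => ?_
        have e : 2 * m = (2 * m - 2) + 2 := by omega
        have h2 : ‖Fi (fun ξ => cj j ξ * FF f ξ) x - f x‖ₑ ^ (2 * m) =
            ‖Fi (fun ξ => cj j ξ * FF f ξ) x - f x‖ₑ ^ (2 * m - 2) *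
              ‖Fi (fun ξ => cj j ξ * FF f ξ) x - f x‖ₑ ^ 2 := by
          rw [← pow_add, ← e]
        rw [h2]
        refine mul_le_mul_left ?_ _
        refine pow_le_pow_left' ?_ _
        rw [← ofReal_norm]
        refine ENNReal.ofReal_le_ofReal ?_
        have h3 := sup_le hFi j x
        rwa [Fi_FF] at h3
    _ = (ENNReal.ofReal (dl (FF f) j)) ^ (2 * m - 2) *
          ∫⁻ x, ‖Fi (fun ξ => cj j ξ * FF f ξ) x - f x‖ₑ ^ 2 :=
        lintegral_const_mul' _ _ (ENNReal.pow_ne_top ENNReal.ofReal_ne_top)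
    _ ≤ _ := by gcongr

theorem main (h1 : S_BAS) {m n : ℕ} (hm : 2 ≤ m) {B : ℝ} (hB : 0 ≤ B)
    (h : ∀ (lam : ℝ) (h : ℂ → ℂ), Bd 1 lam h →
      Nm m (Fi (Tn n h)) ≤ ENNReal.ofReal (B ^ (2 * m)) * Nm m (Fi h)) (f : 𝓢(ℂ, ℂ)) :
    eLpNorm (TS n f) (ENNReal.ofReal (2 * m)) volume ≤
      ENNReal.ofReal B * eLpNorm (fun z : ℂ => f z) (ENNReal.ofReal (2 * m)) volume := by
  have hm1 : 1 ≤ m := by omega
  have hFi := FF_int f
  have hFm : Measurable (FF f) := (FF_smooth f).continuous.measurable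
  have hp : (1 : ℝ≥0∞) ≤ ENNReal.ofReal (2 * m) := by
    rw [← ENNReal.ofReal_one]
    refine ENNReal.ofReal_le_ofReal ?_
    have : (2 : ℝ) ≤ m := by exact_mod_cast hm
    linarith
  -- Fatou
  have hTS : TS n f = Fi (fun ξ => sy n ξ * FF f ξ) := rfl
  have hgi : Integrable (fun ξ => sy n ξ * FF f ξ) :=
    hFi.bdd_mul (c := 1) (sy_meas n).aestronglyMeasurable (Eventually.of_forall fun ξ => sy_le n ξ)
  have hTn : ∀ j : ℕ, Tn n (fun ξ => cj j ξ * FF f ξ) = fun ξ => cj j ξ * (sy n ξ * FF f ξ) := by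
    intro j
    funext ξ
    unfold Tn
    ring
  have hfat : eLpNorm (TS n f) (ENNReal.ofReal (2 * m)) volume ≤
      liminf (fun j : ℕ => eLpNorm (Fi (Tn n (fun ξ => cj j ξ * FF f ξ)))
        (ENNReal.ofReal (2 * m)) volume) atTop := by
    refine Lp.eLpNorm_lim_le_liminf_eLpNorm (fun j => ?_) _ (Eventually.of_forall fun x => ?_)
    · rw [hTn]
      exact (Fi_meas ((cj_smooth j).continuous.measurable.mul
        ((sy_meas n).mul hFm))).aestronglyMeasurable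
    · rw [hTS]
      simp only [hTn]
      exact lim_Fi hgi x
  -- the bound for each term
  have hterm : ∀ j : ℕ, eLpNorm (Fi (Tn n (fun ξ => cj j ξ * FF f ξ)))
      (ENNReal.ofReal (2 * m)) volume ≤ ENNReal.ofReal B *
        (eLpNorm (fun x => Fi (fun ξ => cj j ξ * FF f ξ) x - f x) (ENNReal.ofReal (2 * m)) volume +
          eLpNorm (fun z : ℂ => f z) (ENNReal.ofReal (2 * m)) volume) := by
    intro j
    have h2 := step (lam := ((j : ℝ) + 1)⁻¹) (by positivity) (bdj f j) (h _)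
    have h3 := le_of_Nm hm1 hB le_rfl h2
    refine h3.trans (mul_le_mul_right ?_ _)
    have h4 : (Fi (fun ξ => cj j ξ * FF f ξ)) =
        (fun x => Fi (fun ξ => cj j ξ * FF f ξ) x - f x) + (fun z : ℂ => f z) := by
      funext x
      simp
    have hmj : StronglyMeasurable (Fi (fun ξ => cj j ξ * FF f ξ)) :=
      Fi_meas ((cj_smooth j).continuous.measurable.mul hFm)
    have hmf : AEStronglyMeasurable (fun z : ℂ => f z) volume := f.continuous.aestronglyMeasurable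
    conv_lhs => rw [h4]
    exact eLpNorm_add_le (hmj.aestronglyMeasurable.sub hmf) hmf hp
  have hrest : Tendsto (fun j : ℕ => ENNReal.ofReal B *
        (eLpNorm (fun x => Fi (fun ξ => cj j ξ * FF f ξ) x - f x) (ENNReal.ofReal (2 * m)) volume +
          eLpNorm (fun z : ℂ => f z) (ENNReal.ofReal (2 * m)) volume)) atTop
      (𝓝 (ENNReal.ofReal B * (0 + eLpNorm (fun z : ℂ => f z) (ENNReal.ofReal (2 * m)) volume))) := by
    refine ENNReal.Tendsto.const_mul (Tendsto.add ?_ tendsto_const_nhds)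
      (Or.inr ENNReal.ofReal_ne_top)
    simp only [eLp_eq hm1]
    have h2 := rest_lim h1 hm f
    have h3 : (0 : ℝ) < (((2 * m : ℕ) : ℝ))⁻¹ := by
      have : (0 : ℝ) < ((2 * m : ℕ) : ℝ) := by exact_mod_cast (show 0 < 2 * m by omega)
      positivity
    have h4 := (ENNReal.continuous_rpow_const (y := (((2 * m : ℕ) : ℝ))⁻¹)).tendsto 0
    rw [ENNReal.zero_rpow_of_pos h3] at h4
    exact h4.comp h2
  rw [zero_add] at hrest
  refine hfat.trans ?_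
  rw [← hrest.liminf_eq]
  exact liminf_le_liminf (Eventually.of_forall hterm)

theorem ta (h1 : S_BAS) (_h2 : S_CNV) (h3 : S_FTH) : S_FUL := by
  intro m ε hm hε
  obtain ⟨ε₁, hε₁⟩ : ∃ ε₁ : ℝ, ε₁ = min (ε / 3) 1 := ⟨_, rfl⟩
  have h4 : 0 < ε₁ := by
    rw [hε₁]
    exact lt_min (by linarith) one_pos
  have h5 : ε₁ ≤ ε / 3 := by rw [hε₁]; exact min_le_left _ _
  have h6 : ε₁ ≤ 1 := by rw [hε₁]; exact min_le_right _ _
  obtain ⟨n₀, hn₀⟩ := h3 m ε₁ hm h4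
  obtain ⟨n₁, hn₁⟩ := asy hm h4
  refine ⟨max n₀ n₁, fun n hn f => ?_⟩
  have hC := Cn_pos hm n
  obtain ⟨hA, -⟩ := hn₁ n ((le_max_right _ _).trans hn)
  have hA0 : 0 ≤ AA m n := by
    unfold AA
    exact mul_nonneg (Real.rpow_nonneg (Nat.cast_nonneg n) _) (GA_pos hm).le
  have h7 := main h1 hm (n := n) (B := (1 + ε₁) * AA m n) (by positivity)
    (fun lam h hh => hn₀ n lam ((le_max_left _ _).trans hn) h hh) f
  refine h7.trans (mul_le_mul_left (ENNReal.ofReal_le_ofReal ?_) _)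
  have h8 : (1 + ε₁) * AA m n ≤ (1 + ε) * Cn (2 * m) n := by
    calc (1 + ε₁) * AA m n ≤ (1 + ε₁) * ((1 + ε₁) * Cn (2 * m) n) :=
          mul_le_mul_of_nonneg_left hA (by linarith)
      _ = ((1 + ε₁) * (1 + ε₁)) * Cn (2 * m) n := by ring
      _ ≤ (1 + ε) * Cn (2 * m) n := by
          refine mul_le_mul_of_nonneg_right ?_ hC.le
          nlinarith
  exact h8

theorem tb (h : S_FUL) : S_FUB := by
  intro m hm
  have hG := GA_pos hm
  have hG2 := GAM.t m hm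
  obtain ⟨r, hr⟩ : ∃ r : ℝ, r = (2 * m - 1) / GA m := ⟨_, rfl⟩
  have hr1 : 1 < r := by
    rw [hr, lt_div_iff₀ hG]
    linarith
  obtain ⟨ε, hε⟩ : ∃ ε : ℝ, ε = min ((r - 1) / 3) 1 := ⟨_, rfl⟩
  have h1 : 0 < ε := by
    rw [hε]
    exact lt_min (by linarith) one_pos
  have h3 : ε ≤ (r - 1) / 3 := by rw [hε]; exact min_le_left _ _
  have h4 : ε ≤ 1 := by rw [hε]; exact min_le_right _ _
  obtain ⟨n₀, hn₀⟩ := h m ε hm h1
  obtain ⟨n₁, hn₁⟩ := asy hm h1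
  refine ⟨max n₀ n₁, fun n hn f => ?_⟩
  obtain ⟨-, hA⟩ := hn₁ n ((le_max_right _ _).trans hn)
  have h5 := hn₀ n ((le_max_left _ _).trans hn) f
  refine h5.trans (mul_le_mul' (ENNReal.ofReal_le_ofReal ?_) le_rfl)
  have h6 : (1 + ε) * Cn (2 * m) n ≤
      (n : ℝ) ^ (1 - 2 / (2 * (m : ℝ))) * (2 * (m : ℝ) - 1) := by
    have hm0 : (0 : ℝ) < m := by
      have : (2 : ℝ) ≤ m := by exact_mod_cast hm
      linarith
    have e : (1 : ℝ) - 2 / (2 * m) = 1 - 1 / m := by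
      field_simp
    rw [e]
    have h7 : 0 ≤ (n : ℝ) ^ (1 - 1 / (m : ℝ)) := Real.rpow_nonneg (Nat.cast_nonneg n) _
    calc (1 + ε) * Cn (2 * m) n ≤ (1 + ε) * ((1 + ε) * AA m n) :=
          mul_le_mul_of_nonneg_left hA (by linarith)
      _ = (n : ℝ) ^ (1 - 1 / (m : ℝ)) * (((1 + ε) * (1 + ε)) * GA m) := by
          unfold AA
          ring
      _ ≤ (n : ℝ) ^ (1 - 1 / (m : ℝ)) * (r * GA m) := by
          refine mul_le_mul_of_nonneg_left ?_ h7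
          refine mul_le_mul_of_nonneg_right ?_ hG.le
          nlinarith
      _ = _ := by
          rw [hr, div_mul_cancel₀ _ hG.ne']
  exact h6

end Pool.Agent.N892.BW.FIN3
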