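import Pool.Agent.N892.BW.Stm2

/-!
FNT: a finite bound for the powers of the Beurling transform on functions with spectrum in a compact
annulus.
-/

set_option autoImplicit false

open MeasureTheory ENNReal Filter Topology Complex
open scoped ComplexConjugate ContDiff

namespace Pool.Agent.N892.BW.FNT

theorem smooth_at (n : ℕ) {ξ : ℂ} (hξ : ξ ≠ 0) : ContDiffAt ℝ ∞ (sy n) ξ := by
  have h1 : ContDiffAt ℝ ∞ (fun z : ℂ => conj z) ξ := Complex.conjCLE.contDiff.contDiffAt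
  have h2 : ContDiffAt ℝ ∞ (fun z : ℂ => z⁻¹) ξ := ContDiffAt.inv contDiffAt_id hξ
  have h3 : ContDiffAt ℝ ∞ (fun z : ℂ => conj z * z⁻¹) ξ := h1.mul h2
  have h4 : ContDiffAt ℝ ∞ (fun z : ℂ => (conj z * z⁻¹) ^ n) ξ := h3.pow n
  exact h4

theorem cont_iter (n k : ℕ) {ξ : ℂ} (hξ : ξ ≠ 0) : ContinuousAt (iteratedFDeriv ℝ k (sy n)) ξ := by
  have h1 : ContDiffAt ℝ 0 (iteratedFDeriv ℝ k (sy n)) ξ :=
    (smooth_at n hξ).iteratedFDeriv_right (by exact_mod_cast le_top)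
  exact h1.continuousAt

theorem bounded (n k : ℕ) {a b : ℝ} (ha : 0 < a) :
    ∃ M : ℝ, ∀ ξ : ℂ, a / 2 ≤ ‖ξ‖ → ‖ξ‖ ≤ 2 * b → ‖iteratedFDeriv ℝ k (sy n) ξ‖ ≤ M := by
  have hK : IsCompact (Metric.closedBall (0 : ℂ) (2 * b) ∩ {ξ : ℂ | a / 2 ≤ ‖ξ‖}) :=
    (isCompact_closedBall _ _).inter_right (isClosed_le continuous_const continuous_norm)
  have hc : ContinuousOn (iteratedFDeriv ℝ k (sy n))
      (Metric.closedBall (0 : ℂ) (2 * b) ∩ {ξ : ℂ | a / 2 ≤ ‖ξ‖}) := by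
    intro ξ hξ
    refine (cont_iter n k ?_).continuousWithinAt
    intro h0
    have h1 : a / 2 ≤ ‖ξ‖ := hξ.2
    rw [h0, norm_zero] at h1
    linarith
  obtain ⟨M, hM⟩ := hK.exists_bound_of_continuousOn hc
  refine ⟨M, fun ξ h1 h2 => hM ξ ⟨?_, h1⟩⟩
  rw [Metric.mem_closedBall, dist_zero_right]
  exact h2

theorem t (hM : Pool.Agent.N892.BW.S_MUL) : Pool.Agent.N892.BW.S_FNT := by
  intro m n a b hm hn ha
  rcases lt_or_ge b a with hba | hab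
  · refine ⟨0, le_rfl, fun h hh => ?_⟩
    have h0 : ∀ ξ, h ξ = 0 := by
      intro ξ
      by_contra hne
      have h1 := hh.2 ξ hne
      linarith [h1.1, h1.2]
    have h1 : ∀ x, Fi (Tn n h) x = 0 := by
      intro x
      unfold Fi Tn
      simp [h0]
    have h2 : Nm m (Fi (Tn n h)) = 0 := by
      unfold Nm
      have h3 : ∀ x, ‖Fi (Tn n h) x‖ₑ ^ (2 * m) = 0 := by
        intro x
        rw [h1 x, enorm_zero, zero_pow (by omega)]
      simp [h3]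
    rw [h2]
    exact bot_le
  · obtain ⟨E, C₀, hC₀, H⟩ := hM
    obtain ⟨N, hN⟩ : ∃ N : ℕ, N = ⌈b / a⌉₊ := ⟨_, rfl⟩
    have h1 : 1 ≤ b / a := by rwa [one_le_div ha]
    have h2 : b / a ≤ (N : ℝ) := by rw [hN]; exact Nat.le_ceil _
    have hN1 : 1 ≤ N := by
      have h3 : (1 : ℝ) ≤ (N : ℝ) := h1.trans h2
      exact_mod_cast h3
    have hNpos : (0 : ℝ) < (N : ℝ) := by exact_mod_cast hN1
    have hbN : b ≤ a * (N : ℝ) := by
      rw [div_le_iff₀ ha] at h2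
      linarith
    choose M hMb using fun k : ℕ => bounded n k (a := a) (b := b) ha
    have hq : (0 : ℝ) < (N : ℝ) ^ 2 / a := by positivity
    obtain ⟨δ, hδ⟩ : ∃ δ : ℝ, δ = ∑ k ∈ Finset.range 5, |M k| / ((N : ℝ) ^ 2 / a) ^ k := ⟨_, rfl⟩
    have hterm : ∀ k : ℕ, 0 ≤ |M k| / ((N : ℝ) ^ 2 / a) ^ k := fun k =>
      div_nonneg (abs_nonneg _) (pow_pos hq k).le
    have hδ0 : 0 ≤ δ := by
      rw [hδ]
      exact Finset.sum_nonneg fun k _ => hterm k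
    have hder : ∀ k : ℕ, k ≤ 4 → ∀ ξ : ℂ, a / 2 ≤ ‖ξ‖ → ‖ξ‖ ≤ 2 * b →
        ‖iteratedFDeriv ℝ k (sy n) ξ‖ ≤ δ * ((N : ℝ) ^ 2 / a) ^ k := by
      intro k hk ξ h3 h4
      have h5 : |M k| / ((N : ℝ) ^ 2 / a) ^ k ≤ δ := by
        rw [hδ]
        exact Finset.single_le_sum (f := fun k => |M k| / ((N : ℝ) ^ 2 / a) ^ k)
          (fun j _ => hterm j) (Finset.mem_range.2 (by omega))
      rw [div_le_iff₀ (pow_pos hq k)] at h5
      exact (hMb k ξ h3 h4).trans ((le_abs_self _).trans h5)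
    have hsm : ContDiffOn ℝ ∞ (sy n) {ξ : ℂ | ξ ≠ 0} := fun ξ hξ =>
      (smooth_at n hξ).contDiffWithinAt
    refine ⟨(C₀ * (N : ℝ) ^ E * δ) ^ (2 * m), by positivity, fun h hh => ?_⟩
    exact H N a b δ (sy n) hN1 ha hab hbN hδ0 hsm hder h hh m hm

end Pool.Agent.N892.BW.FNT
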