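import Pool.Agent.N892.BW.KTH_A

/-!
# FTH: final assembly of part 3 (helper123), numerical part
-/

set_option autoImplicit false

open MeasureTheory ENNReal Filter Topology Complex
open scoped ComplexConjugate ContDiff

namespace Pool.Agent.N892.BW.FTH

open Pool.Agent.N892.BW.KTH (pow_add_le mink_fin)

/-- the numerical core -/
theorem numcore {m M : ℕ} (hm : 1 ≤ m) {e P S U A c D r t B : ℝ} {v z y f : ℕ → ℝ}
    (he : 0 < e) (hP : 0 ≤ P) (hS : 0 ≤ S) (hU0 : 0 ≤ U) (hA : 0 ≤ A) (hc : 0 ≤ c) (hD : 0 ≤ D)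
    (hr : 0 ≤ r) (hB0 : 0 ≤ B) (hte : t ≤ e)
    (hvn : ∀ k, k < M → 0 ≤ v k) (hzn : ∀ k, k < M → 0 ≤ z k) (hfn : ∀ k, k < M → 0 ≤ f k)
    (hv : ∀ k, k < M → v k ≤ (1 + e) * A * y k + f k)
    (hy : ∀ k, k < M → y k ≤ z k + r * f k)
    (hz : ∑ k ∈ Finset.range M, z k ^ (2 * m) ≤ (1 + t) * P ^ (2 * m))
    (hf : ∑ k ∈ Finset.range M, f k ^ (2 * m) ≤ S ^ (2 * m)) (hSD : S ≤ D * P)
    (hsm : ((1 + e) * A * r + 1) * D ≤ e * A)
    (hU : U ^ (2 * m) ≤ (1 + e) * ∑ k ∈ Finset.range M, v k ^ (2 * m) + B * S ^ 2 * U ^ (2 * m - 2))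
    (hUc : U ≤ c * P) (hB : B * D ^ 2 ≤ e ^ (2 * m) * c ^ 2) :
    U ≤ ((1 + e) * ((1 + e) * (1 + e) + e) * A + e * c) * P := by
  have hp1 : 1 ≤ 2 * m := by omega
  have hsv : ∑ k ∈ Finset.range M, v k ^ (2 * m) ≤
      ((1 + e) * A * ((1 + e) * P) + e * A * P) ^ (2 * m) := by
    refine mink_fin hp1 (w := fun k => (1 + e) * A * z k)
      (g := fun k => ((1 + e) * A * r + 1) * f k)
      (by positivity) (by positivity) hvn (fun k hk => mul_nonneg (by positivity) (hzn k hk))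
      (fun k hk => mul_nonneg (by positivity) (hfn k hk)) ?_ ?_ ?_
    · intro k hk
      have a1 := hv k hk
      have a2 : (1 + e) * A * y k ≤ (1 + e) * A * (z k + r * f k) :=
        mul_le_mul_of_nonneg_left (hy k hk) (by positivity)
      linarith
    · have : ∀ k, ((1 + e) * A * z k) ^ (2 * m) = ((1 + e) * A) ^ (2 * m) * z k ^ (2 * m) :=
        fun k => mul_pow _ _ _
      simp only [this]
      rw [← Finset.mul_sum, mul_pow ((1 + e) * A)]
      refine mul_le_mul_of_nonneg_left (hz.trans ?_) (by positivity)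
      rw [mul_pow]
      refine mul_le_mul_of_nonneg_right ?_ (by positivity)
      have : 1 + e ≤ (1 + e) ^ (2 * m) := le_self_pow₀ (by linarith) (by omega)
      linarith
    · have : ∀ k, (((1 + e) * A * r + 1) * f k) ^ (2 * m) =
          ((1 + e) * A * r + 1) ^ (2 * m) * f k ^ (2 * m) := fun k => mul_pow _ _ _
      simp only [this]
      rw [← Finset.mul_sum]
      calc _ ≤ ((1 + e) * A * r + 1) ^ (2 * m) * S ^ (2 * m) :=
            mul_le_mul_of_nonneg_left hf (by positivity)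
        _ = (((1 + e) * A * r + 1) * S) ^ (2 * m) := by rw [mul_pow]
        _ ≤ (e * A * P) ^ (2 * m) := by
            refine pow_le_pow_left₀ (by positivity) ?_ _
            calc ((1 + e) * A * r + 1) * S ≤ ((1 + e) * A * r + 1) * (D * P) :=
                  mul_le_mul_of_nonneg_left hSD (by positivity)
              _ = (((1 + e) * A * r + 1) * D) * P := by ring
              _ ≤ e * A * P := mul_le_mul_of_nonneg_right hsm hP
  have h6 : B * S ^ 2 * U ^ (2 * m - 2) ≤ (e * c * P) ^ (2 * m) := by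
    have b1 : P ^ (2 * m) = P ^ 2 * P ^ (2 * m - 2) := by
      rw [← pow_add]
      congr 1
      omega
    have b2 : c ^ (2 * m) = c ^ 2 * c ^ (2 * m - 2) := by
      rw [← pow_add]
      congr 1
      omega
    have c1 : S ^ 2 ≤ (D * P) ^ 2 := pow_le_pow_left₀ hS hSD 2
    have c3 : U ^ (2 * m - 2) ≤ (c * P) ^ (2 * m - 2) := pow_le_pow_left₀ hU0 hUc _
    calc B * S ^ 2 * U ^ (2 * m - 2) ≤ B * (D * P) ^ 2 * (c * P) ^ (2 * m - 2) :=
          mul_le_mul (mul_le_mul_of_nonneg_left c1 hB0) c3 (pow_nonneg hU0 _) (by positivity)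
      _ = (B * D ^ 2) * (c ^ (2 * m - 2) * (P ^ 2 * P ^ (2 * m - 2))) := by
          rw [mul_pow c, mul_pow D]
          ring
      _ ≤ (e ^ (2 * m) * c ^ 2) * (c ^ (2 * m - 2) * (P ^ 2 * P ^ (2 * m - 2))) :=
          mul_le_mul_of_nonneg_right hB (by positivity)
      _ = (e * c * P) ^ (2 * m) := by
          rw [mul_pow, mul_pow, b1, b2]
          ring
  have h7 : (1 + e) * ∑ k ∈ Finset.range M, v k ^ (2 * m) ≤
      ((1 + e) * ((1 + e) * A * ((1 + e) * P) + e * A * P)) ^ (2 * m) := by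
    rw [mul_pow (1 + e)]
    have : 1 + e ≤ (1 + e) ^ (2 * m) := le_self_pow₀ (by linarith) (by omega)
    exact mul_le_mul this hsv
      (Finset.sum_nonneg fun k hk => pow_nonneg (hvn k (Finset.mem_range.1 hk)) _) (by positivity)
  have h8 := pow_add_le hp1
    (a := (1 + e) * ((1 + e) * A * ((1 + e) * P) + e * A * P)) (b := e * c * P)
    (by positivity) (by positivity)
  have h9 : U ^ (2 * m) ≤
      ((1 + e) * ((1 + e) * A * ((1 + e) * P) + e * A * P) + e * c * P) ^ (2 * m) := by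
    linarith
  have h10 : U ≤ (1 + e) * ((1 + e) * A * ((1 + e) * P) + e * A * P) + e * c * P :=
    le_of_pow_le_pow_left₀ (by omega) (by positivity) h9
  refine h10.trans (le_of_eq ?_)
  ring

theorem sum_pow_le {m : ℕ} (hm : 1 ≤ m) (s : Finset ℕ) (g : ℕ → ℝ≥0∞) :
    ∑ k ∈ s, g k ^ m ≤ (∑ k ∈ s, g k) ^ m := by
  classical
  induction s using Finset.induction_on with
  | empty =>
    rw [Finset.sum_empty]
    exact bot_le
  | insert k s hk ih =>
    rw [Finset.sum_insert hk, Finset.sum_insert hk]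
    obtain ⟨j, rfl⟩ : ∃ j, m = j + 1 := ⟨m - 1, by omega⟩
    calc g k ^ (j + 1) + ∑ i ∈ s, g i ^ (j + 1) ≤ g k ^ (j + 1) + (∑ i ∈ s, g i) ^ (j + 1) := by
          gcongr
      _ = g k ^ j * g k + (∑ i ∈ s, g i) ^ j * ∑ i ∈ s, g i := by rw [pow_succ, pow_succ]
      _ ≤ (g k + ∑ i ∈ s, g i) ^ j * g k + (g k + ∑ i ∈ s, g i) ^ j * ∑ i ∈ s, g i := by
          gcongr
          · exact le_self_add
          · exact le_add_self
      _ = (g k + ∑ i ∈ s, g i) ^ (j + 1) := by rw [pow_succ, mul_add]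

end Pool.Agent.N892.BW.FTH
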