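import Pool.Agent.N892.BW.Stm2

/-!
# KTH: final assembly of part 2 (helper595), preliminaries
-/

set_option autoImplicit false

open MeasureTheory ENNReal Filter Topology Complex
open scoped ComplexConjugate ContDiff

namespace Pool.Agent.N892.BW.KTH

theorem bd_mono {a b a' b' : ℝ} {h : ℂ → ℂ} (hB : Bd a b h) (h1 : a' ≤ a) (h2 : b ≤ b') :
    Bd a' b' h :=
  ⟨hB.1, fun ξ hξ => ⟨h1.trans (hB.2 ξ hξ).1, (hB.2 ξ hξ).2.trans h2⟩⟩

theorem bd_zero (a b : ℝ) : Bd a b (fun _ => (0 : ℂ)) :=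
  ⟨contDiff_const, fun _ h => absurd rfl h⟩

theorem bd_add {a b : ℝ} {h₁ h₂ : ℂ → ℂ} (hB₁ : Bd a b h₁) (hB₂ : Bd a b h₂) :
    Bd a b (fun ξ => h₁ ξ + h₂ ξ) := by
  refine ⟨hB₁.1.add hB₂.1, fun ξ hξ => ?_⟩
  by_cases h : h₁ ξ = 0
  · apply hB₂.2 ξ
    intro h'
    apply hξ
    simp [h, h']
  · exact hB₁.2 ξ h

theorem bd_Tn {a b : ℝ} {h : ℂ → ℂ} (n : ℕ) (ha : 0 < a) (hB : Bd a b h) : Bd a b (Tn n h) := by
  constructor
  · rw [contDiff_iff_contDiffAt]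
    intro ξ
    by_cases h0 : ξ = 0
    · have : Tn n h =ᶠ[𝓝 ξ] fun _ => 0 := by
        rw [h0]
        have h1 : {ξ : ℂ | ‖ξ‖ < a} ∈ 𝓝 (0 : ℂ) :=
          (isOpen_lt continuous_norm continuous_const).mem_nhds (by simpa using ha)
        filter_upwards [h1] with ξ hξ
        have : h ξ = 0 := by
          by_contra hc
          exact absurd (hB.2 ξ hc).1 (not_le.2 hξ)
        simp [Tn, this]
      exact contDiffAt_const.congr_of_eventuallyEq this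
    · have h1 : ContDiffAt ℝ ∞ (fun ξ : ℂ => conj ξ) ξ := Complex.conjCLE.contDiff.contDiffAt
      have h2 : ContDiffAt ℝ ∞ (fun ξ : ℂ => ξ⁻¹) ξ := contDiffAt_inv ℝ h0
      have h3 : ContDiffAt ℝ ∞ (fun ξ : ℂ => (conj ξ * ξ⁻¹) ^ n * h ξ) ξ :=
        ((h1.mul h2).pow n).mul hB.1.contDiffAt
      exact h3
  · intro ξ hξ
    apply hB.2 ξ
    intro h0
    apply hξ
    simp [Tn, h0]

theorem norm_e2 (x ξ : ℂ) : ‖e2 x ξ‖ = 1 := by
  unfold e2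
  rw [Complex.norm_exp]
  simp

theorem integ {b : ℝ} {h : ℂ → ℂ} (hB : Bd 0 b h) (x : ℂ) : Integrable (fun ξ => e2 x ξ * h ξ) := by
  have hc : Continuous fun ξ => e2 x ξ * h ξ := by
    have h1 := hB.1.continuous
    unfold e2
    fun_prop
  have hs : HasCompactSupport fun ξ => e2 x ξ * h ξ := by
    apply HasCompactSupport.of_support_subset_isCompact (isCompact_closedBall (0 : ℂ) b)
    intro ξ hξ
    rw [mem_closedBall_zero_iff]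
    apply (hB.2 ξ _).2
    intro h0
    apply hξ
    simp [h0]
  exact hc.integrable_of_hasCompactSupport hs

theorem Fi_add {b : ℝ} {h₁ h₂ : ℂ → ℂ} (hB₁ : Bd 0 b h₁) (hB₂ : Bd 0 b h₂) :
    Fi (fun ξ => h₁ ξ + h₂ ξ) = fun x => Fi h₁ x + Fi h₂ x := by
  funext x
  unfold Fi
  rw [← integral_add (integ hB₁ x) (integ hB₂ x)]
  congr 1
  funext ξ
  ring

theorem Fi_zero : Fi (fun _ => 0) = fun _ => 0 := by
  funext x
  unfold Fi
  simp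

theorem Nm_zero {m : ℕ} (hm : 1 ≤ m) : Nm m (fun _ => 0) = 0 := by
  unfold Nm
  simp
  omega

theorem fin {b : ℝ} {h : ℂ → ℂ} (hBAS : S_BAS) (hB : Bd 0 b h) {m : ℕ} (hm : 1 ≤ m) :
    Nm m (Fi h) ≠ ⊤ := by
  obtain ⟨-, -, ⟨h1, h2, M, hM⟩, -, -⟩ := hBAS b h hB
  unfold Nm
  have hle : ∀ x, ‖Fi h x‖ₑ ^ (2 * m) ≤ ENNReal.ofReal M ^ (2 * m - 1) * ‖Fi h x‖ₑ := by
    intro x
    have e : 2 * m = (2 * m - 1) + 1 := by omega
    conv_lhs => rw [e, pow_succ]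
    gcongr
    rw [← ofReal_norm]
    exact ENNReal.ofReal_le_ofReal (hM x)
  refine ne_top_of_le_ne_top ?_ (lintegral_mono hle)
  rw [lintegral_const_mul' _ _ (ENNReal.pow_ne_top ENNReal.ofReal_ne_top)]
  exact ENNReal.mul_ne_top (ENNReal.pow_ne_top ENNReal.ofReal_ne_top) h2.2.ne

/-- the root -/
noncomputable def rt (m : ℕ) (t : ℝ≥0∞) : ℝ := t.toReal ^ (1 / (2 * (m : ℝ)))

theorem rt_nonneg (m : ℕ) (t : ℝ≥0∞) : 0 ≤ rt m t := Real.rpow_nonneg toReal_nonneg _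

theorem rt_pow {m : ℕ} (hm : 1 ≤ m) {t : ℝ≥0∞} (ht : t ≠ ⊤) :
    t = ENNReal.ofReal (rt m t ^ (2 * m)) := by
  unfold rt
  have h0 : (m : ℝ) ≠ 0 := by
    have : m ≠ 0 := by omega
    exact_mod_cast this
  rw [← Real.rpow_natCast, ← Real.rpow_mul toReal_nonneg]
  have : 1 / (2 * (m : ℝ)) * ((2 * m : ℕ) : ℝ) = 1 := by
    push_cast
    field_simp
  rw [this, Real.rpow_one, ENNReal.ofReal_toReal ht]

theorem pw {r : ℝ} (hr : 0 ≤ r) (j k : ℕ) {s : ℝ} (hs : (k : ℝ) * s = j) (hs0 : 0 ≤ s) :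
    (ENNReal.ofReal (r ^ k)) ^ s = ENNReal.ofReal (r ^ j) := by
  rw [ENNReal.ofReal_rpow_of_nonneg (pow_nonneg hr _) hs0]
  congr 1
  rw [← Real.rpow_natCast, ← Real.rpow_mul hr, hs, Real.rpow_natCast]

theorem pw1 {m : ℕ} (hm : 1 ≤ m) {r : ℝ} (hr : 0 ≤ r) :
    (ENNReal.ofReal (r ^ (2 * m))) ^ (1 / (2 * (m : ℝ))) = ENNReal.ofReal r := by
  have h0 : (m : ℝ) ≠ 0 := by
    have : m ≠ 0 := by omega
    exact_mod_cast this
  have := pw hr 1 (2 * m) (s := 1 / (2 * (m : ℝ))) (by push_cast; field_simp) (by positivity)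
  rwa [pow_one] at this

theorem pw2 {m : ℕ} (hm : 1 ≤ m) {r : ℝ} (hr : 0 ≤ r) :
    (ENNReal.ofReal (r ^ (2 * m))) ^ (1 / (m : ℝ)) = ENNReal.ofReal (r ^ 2) := by
  have h0 : (m : ℝ) ≠ 0 := by
    have : m ≠ 0 := by omega
    exact_mod_cast this
  exact pw hr 2 (2 * m) (by push_cast; field_simp) (by positivity)

theorem pw3 {m : ℕ} (hm : 1 ≤ m) {r : ℝ} (hr : 0 ≤ r) :
    (ENNReal.ofReal (r ^ (2 * m))) ^ (1 - 1 / (m : ℝ)) = ENNReal.ofReal (r ^ (2 * m - 2)) := by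
  have h1 : (1 : ℝ) ≤ m := by exact_mod_cast hm
  have h0 : (m : ℝ) ≠ 0 := by linarith
  refine pw hr (2 * m - 2) (2 * m) ?_ ?_
  · rw [Nat.cast_sub (by omega)]
    push_cast
    field_simp
  · rw [sub_nonneg, div_le_one (by linarith)]
    exact h1

theorem mink {m : ℕ} (hm : 1 ≤ m) {f g : ℂ → ℂ} (hf : Measurable f) (hg : Measurable g)
    (hf1 : Nm m f ≠ ⊤) (hg1 : Nm m g ≠ ⊤) (hfg : Nm m (fun x => f x + g x) ≠ ⊤) :
    rt m (Nm m (fun x => f x + g x)) ≤ rt m (Nm m f) + rt m (Nm m g) := by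
  have hp1 : (1 : ℝ) ≤ ((2 * m : ℕ) : ℝ) := by
    have : 1 ≤ 2 * m := by omega
    exact_mod_cast this
  have h1 := ENNReal.lintegral_Lp_add_le (μ := volume) hf.enorm.aemeasurable
    hg.enorm.aemeasurable hp1
  have h2 : (∫⁻ x, ‖f x + g x‖ₑ ^ ((2 * m : ℕ) : ℝ)) ^ (1 / ((2 * m : ℕ) : ℝ)) ≤
      (∫⁻ x, ((fun x => ‖f x‖ₑ) + fun x => ‖g x‖ₑ) x ^ ((2 * m : ℕ) : ℝ)) ^
        (1 / ((2 * m : ℕ) : ℝ)) := by
    refine ENNReal.rpow_le_rpow (lintegral_mono fun x => ?_) (by positivity)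
    exact ENNReal.rpow_le_rpow (enorm_add_le _ _) (by positivity)
  have h3 := h2.trans h1
  simp only [ENNReal.rpow_natCast] at h3
  change (Nm m (fun x => f x + g x)) ^ (1 / ((2 * m : ℕ) : ℝ)) ≤
    (Nm m f) ^ (1 / ((2 * m : ℕ) : ℝ)) + (Nm m g) ^ (1 / ((2 * m : ℕ) : ℝ)) at h3
  rw [rt_pow hm hf1, rt_pow hm hg1, rt_pow hm hfg] at h3
  push_cast at h3
  rw [pw1 hm (rt_nonneg _ _), pw1 hm (rt_nonneg _ _), pw1 hm (rt_nonneg _ _),
    ← ENNReal.ofReal_add (rt_nonneg _ _) (rt_nonneg _ _)] at h3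
  exact (ENNReal.ofReal_le_ofReal_iff (add_nonneg (rt_nonneg _ _) (rt_nonneg _ _))).1 h3

/-- from an inequality of integrals to one of roots -/
theorem rt_le {m : ℕ} (hm : 1 ≤ m) {s t : ℝ≥0∞} {c : ℝ} (hc : 0 ≤ c) (ht : t ≠ ⊤)
    (h : s ≤ ENNReal.ofReal (c ^ (2 * m)) * t) : rt m s ≤ c * rt m t := by
  have hs : s ≠ ⊤ := ne_top_of_le_ne_top (ENNReal.mul_ne_top ENNReal.ofReal_ne_top ht) h
  rw [rt_pow hm hs, rt_pow hm ht, ← ENNReal.ofReal_mul (by positivity), ← mul_pow,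
    ENNReal.ofReal_le_ofReal_iff (by have := rt_nonneg m t; positivity)] at h
  exact le_of_pow_le_pow_left₀ (by omega) (mul_nonneg hc (rt_nonneg _ _)) h

theorem le_rt {m : ℕ} (hm : 1 ≤ m) {s t : ℝ≥0∞} {c : ℝ} (hc : 0 ≤ c) (hs : s ≠ ⊤) (ht : t ≠ ⊤)
    (h : rt m s ≤ c * rt m t) : s ≤ ENNReal.ofReal (c ^ (2 * m)) * t := by
  rw [rt_pow hm hs, rt_pow hm ht, ← ENNReal.ofReal_mul (by positivity), ← mul_pow]
  exact ENNReal.ofReal_le_ofReal (pow_le_pow_left₀ (rt_nonneg _ _) h _)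

/-- negative powers tend to zero -/
theorem ev (D α ε' : ℝ) (hα : 0 < α) (hε : 0 < ε') :
    ∃ n₀ : ℕ, ∀ n : ℕ, n₀ ≤ n → D * (n : ℝ) ^ (-α) ≤ ε' := by
  have h1 : Tendsto (fun n : ℕ => D * (n : ℝ) ^ (-α)) atTop (𝓝 (D * 0)) :=
    ((tendsto_rpow_neg_atTop hα).comp tendsto_natCast_atTop_atTop).const_mul D
  rw [mul_zero] at h1
  obtain ⟨n₀, hn₀⟩ := eventually_atTop.1 (h1.eventually (gt_mem_nhds hε))
  exact ⟨n₀, fun n hn => (hn₀ n hn).le⟩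

theorem GA_pos {m : ℕ} (hm : 1 ≤ m) : 0 < GA m := by
  unfold GA
  have h1 : (1 : ℝ) ≤ m := by exact_mod_cast hm
  apply div_pos (Real.Gamma_pos_of_pos (by positivity)) (Real.Gamma_pos_of_pos _)
  rw [sub_pos, div_lt_one (by positivity)]
  linarith

end Pool.Agent.N892.BW.KTH
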