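import Pool.Agent.N892.BW.KTH_A
import Pool.Agent.N892.BW.KTH_B

/-!
# KTH: final assembly of part 2 (helper595)
-/

set_option autoImplicit false

open MeasureTheory ENNReal Filter Topology Complex
open scoped ComplexConjugate ContDiff

namespace Pool.Agent.N892.BW.KTH

theorem bd_Tn' {a b a' b' : ℝ} {h : ℂ → ℂ} (n : ℕ) (ha : 0 < a) (hB : Bd a b h)
    (hB' : Bd a' b' h) : Bd a' b' (Tn n h) := by
  refine ⟨(bd_Tn n ha hB).1, fun ξ hξ => hB'.2 ξ fun h0 => hξ ?_⟩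
  simp [Tn, h0]

theorem bd_neg {a b : ℝ} {h : ℂ → ℂ} (hB : Bd a b h) : Bd a b (fun ξ => -h ξ) :=
  ⟨hB.1.neg, fun ξ hξ => hB.2 ξ fun h0 => hξ (by simp [h0])⟩

theorem Nm_neg {m : ℕ} {h : ℂ → ℂ} : Nm m (Fi (fun ξ => -h ξ)) = Nm m (Fi h) := by
  have : Fi (fun ξ => -h ξ) = fun x => -Fi h x := by
    funext x
    unfold Fi
    rw [← integral_neg]
    congr 1
    funext ξ
    ring
  rw [this]
  unfold Nm
  simp only [enorm_neg]

theorem rt_zero {m : ℕ} (hm : 1 ≤ m) : rt m 0 = 0 := by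
  unfold rt
  have h1 : (1 : ℝ) ≤ m := by exact_mod_cast hm
  rw [toReal_zero, Real.zero_rpow]
  positivity

theorem meas {b : ℝ} {h : ℂ → ℂ} (hBAS : S_BAS) (hB : Bd 0 b h) : Measurable (Fi h) :=
  (hBAS b h hB).2.2.1.1

/-- Minkowski for `Fi` -/
theorem minkF {m : ℕ} (hm : 1 ≤ m) (hBAS : S_BAS) {b : ℝ} {h₁ h₂ h₃ : ℂ → ℂ} (hB₁ : Bd 0 b h₁)
    (hB₂ : Bd 0 b h₂) (h : h₃ = fun ξ => h₁ ξ + h₂ ξ) :
    rt m (Nm m (Fi h₃)) ≤ rt m (Nm m (Fi h₁)) + rt m (Nm m (Fi h₂)) := by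
  have h4 : Fi h₃ = fun x => Fi h₁ x + Fi h₂ x := by rw [h, Fi_add hB₁ hB₂]
  have h5 : Nm m (fun x => Fi h₁ x + Fi h₂ x) ≠ ⊤ := by
    rw [← Fi_add hB₁ hB₂]
    exact fin hBAS (bd_add hB₁ hB₂) hm
  rw [h4]
  exact mink hm (meas hBAS hB₁) (meas hBAS hB₂) (fin hBAS hB₁ hm) (fin hBAS hB₂ hm) h5

/-- one step of the improvement -/
theorem step (hBAS : S_BAS) (hENU : S_ENU) (hSUP : S_SUP) (hCMP : S_CMP) (hSTR : S_STR)
    (hGAI : S_GAI) (hSPL : S_SPL) (m : ℕ) (K e : ℝ) (hm : 2 ≤ m) (hK : 0 < K) (he : 0 < e)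
    (he1 : e ≤ 1 / 10) :
    ∃ n₀ : ℕ, ∀ n : ℕ, n₀ ≤ n → 0 < AA m n ∧ ∀ c : ℝ, AA m n ≤ c →
      (∀ h, Bd 1 ((n : ℝ) ^ K) h →
        Nm m (Fi (Tn n h)) ≤ ENNReal.ofReal (c ^ (2 * m)) * Nm m (Fi h)) →
      ∀ h, Bd 1 ((n : ℝ) ^ K) h →
        Nm m (Fi (Tn n h)) ≤
          ENNReal.ofReal (((1 + 7 * e) * AA m n + 2 * e * c) ^ (2 * m)) * Nm m (Fi h) := by
  have hm1 : 1 ≤ m := by omega
  have hmr : (2 : ℝ) ≤ m := by exact_mod_cast hm
  obtain ⟨τ₀, C, M, n₁, hτ₀, hC, hsp⟩ := hSPL m K e hm1 hK he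
  obtain ⟨τ, hτd⟩ : ∃ τ, τ = min τ₀ (1 / 10) := ⟨_, rfl⟩
  have hτ : 0 < τ := by rw [hτd]; positivity
  have hττ : τ ≤ τ₀ := by rw [hτd]; exact min_le_left _ _
  have hτ1 : τ ≤ 1 / 10 := by rw [hτd]; exact min_le_right _ _
  obtain ⟨C1, hC1, hen⟩ := hENU m e hm1 he
  obtain ⟨χ', hDen, hsup'⟩ := hSUP
  obtain ⟨C5, hC5, hsu⟩ := hsup' m hm1
  obtain ⟨χ₀, hBump, hstr'⟩ := hSTR
  obtain ⟨n₂, hst⟩ := hstr' m e hm he
  obtain ⟨C4, hC4, hcm⟩ := hCMP χ₀ χ' hBump hDen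
  obtain ⟨δ, C2, n₃, hδ, hC2, hga⟩ := hGAI m τ hm hτ
  obtain ⟨e₁, he₁d⟩ : ∃ e₁, e₁ = e / (3 * M + 1) := ⟨_, rfl⟩
  have hM0 : (0 : ℝ) ≤ M := Nat.cast_nonneg _
  have he₁ : 0 < e₁ := by rw [he₁d]; positivity
  have he₁e : e₁ ≤ e := by
    rw [he₁d, div_le_iff₀ (by positivity)]
    nlinarith
  have heM : 3 * M * e₁ ≤ e := by
    rw [he₁d, mul_div_assoc', div_le_iff₀ (by positivity)]
    nlinarith
  have hGA := GA_pos hm1
  have hθ : 0 < 1 - 1 / (m : ℝ) := by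
    rw [sub_pos, div_lt_one (by linarith)]
    linarith
  obtain ⟨k1, hk1⟩ := ev (C4 * C ^ 2) (89 / 100 - 1 / 50 - τ / 2) (e₁ ^ 2) (by linarith)
    (by positivity)
  obtain ⟨k2, hk2⟩ := ev (C / GA m) (1 - 1 / (m : ℝ)) e₁ hθ he₁
  obtain ⟨k3, hk3⟩ := ev (C5 * (M * (M * C) ^ (2 * m))) (τ / 2) (e₁ ^ (2 * m)) (by linarith)
    (by positivity)
  obtain ⟨k4, hk4⟩ := ev (C1 * C2 * C ^ 2 * (M * C) ^ (2 * m - 2) * M) δ
    (e₁ ^ (2 * m) * GA m ^ 2) hδ (by positivity)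
  obtain ⟨k5, hk5⟩ := ev (2 * (m : ℝ) - 1) τ (1 / 2) hτ (by norm_num)
  obtain ⟨k6, hk6⟩ := ev 1 τ (1 / 4) hτ (by norm_num)
  obtain ⟨k7, hk7⟩ := ev 1 (τ / 2) (1 / 4) (by linarith) (by norm_num)
  refine ⟨n₁ + n₂ + n₃ + k1 + k2 + k3 + k4 + k5 + k6 + k7 + 1, ?_⟩
  intro n hn
  have hn1 : (1 : ℝ) ≤ n := by
    have : 1 ≤ n := by omega
    exact_mod_cast this
  have hn0 : (0 : ℝ) < n := by linarith
  have hk1 := hk1 n (by omega)
  have hk2 := hk2 n (by omega)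
  have hk3 := hk3 n (by omega)
  have hk4 := hk4 n (by omega)
  have hk5 := hk5 n (by omega)
  have hk6 := hk6 n (by omega)
  have hk7 := hk7 n (by omega)
  obtain ⟨A, hA⟩ : ∃ A, A = AA m n := ⟨_, rfl⟩
  have hAd : A = (n : ℝ) ^ (1 - 1 / (m : ℝ)) * GA m := hA
  have hA0 : 0 < A := by rw [hAd]; positivity
  rw [← hA]
  refine ⟨hA0, ?_⟩
  intro c hAc hyp h hB
  have hc : 0 < c := hA0.trans_le hAc
  obtain ⟨H, a, b, g, hdec, hg, hgN, hk⟩ := hsp n h (by omega) hB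
  -- powers of `n`
  obtain ⟨T, hT⟩ : ∃ T, T = (n : ℝ) ^ τ := ⟨_, rfl⟩
  obtain ⟨T2, hT2⟩ : ∃ T2, T2 = (n : ℝ) ^ (τ / 2) := ⟨_, rfl⟩
  have hT20 : 0 < T2 := by rw [hT2]; positivity
  have hTT : T = T2 * T2 := by
    rw [hT, hT2, ← Real.rpow_add hn0]
    congr 1
    ring
  have hT0 : 0 < T := by rw [hTT]; positivity
  have hT1 : 1 ≤ T := by rw [hT]; exact Real.one_le_rpow hn1 hτ.le
  have hTi : (n : ℝ) ^ (-τ) = T⁻¹ := by rw [hT, Real.rpow_neg hn0.le]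
  have hT2i : (n : ℝ) ^ (-(τ / 2)) = T2⁻¹ := by rw [hT2, Real.rpow_neg hn0.le]
  rw [hTi] at hk5 hk6
  rw [hT2i] at hk3 hk7
  rw [one_mul] at hk6 hk7
  -- the auxiliary bounds
  obtain ⟨bb, hbb0, hbbs⟩ : ∃ bb : ℕ → ℝ, bb 0 = a 0 / T ∧ ∀ k, bb (k + 1) = b k :=
    ⟨fun k => Nat.casesOn k (a 0 / T) (fun j => b j), rfl, fun _ => rfl⟩
  have hbb : ∀ k, k < M → 0 < bb k ∧ bb k * T ≤ a k := by
    intro k hkM
    cases k with
    | zero =>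
      obtain ⟨-, -, p1, -⟩ := hk 0 hkM
      rw [hbb0]
      exact ⟨div_pos p1 hT0, le_of_eq (div_mul_cancel₀ _ hT0.ne')⟩
    | succ k =>
      obtain ⟨-, -, p1, p2, -, p3, -⟩ := hk k (by omega)
      rw [hbbs]
      have hbk : 0 < b k := p1.trans_le p2
      refine ⟨hbk, le_trans ?_ p3⟩
      rw [hT]
      exact mul_le_mul_of_nonneg_left (Real.rpow_le_rpow_of_exponent_le hn1 hττ) hbk.le
  have hbbb : ∀ k, k < M → bb k ≤ b k := by
    intro k hkM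
    obtain ⟨p1, p2⟩ := hbb k hkM
    obtain ⟨-, -, -, p3, -⟩ := hk k hkM
    nlinarith
  obtain ⟨h', hh'⟩ : ∃ h' : ℕ → ℂ → ℂ, ∀ k, h' k = fun ξ => ∑ j ∈ Finset.range k, H j ξ :=
    ⟨fun k ξ => ∑ j ∈ Finset.range k, H j ξ, fun _ => rfl⟩
  have hh0 : h' 0 = fun _ => 0 := by
    rw [hh']
    simp
  have hhs : ∀ k, h' (k + 1) = fun ξ => h' k ξ + H k ξ := by
    intro k
    rw [hh', hh']
    funext ξ
    rw [Finset.sum_range_succ]
  have hB0 : ∀ k, k ≤ M → Bd 1 ((n : ℝ) ^ K) (h' k) := by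
    intro k
    induction k with
    | zero => intro _; rw [hh0]; exact bd_zero _ _
    | succ k ih =>
      intro hkM
      rw [hhs]
      exact bd_add (ih (by omega)) (hk k (by omega)).1
  have hB1 : ∀ k, k < M → Bd 0 (bb k) (h' k) := by
    intro k
    induction k with
    | zero => intro _; rw [hh0]; exact bd_zero _ _
    | succ k ih =>
      intro hkM
      rw [hhs, hbbs]
      obtain ⟨-, p0, p1, -⟩ := hk k (by omega)
      exact bd_add (bd_mono (ih (by omega)) le_rfl (hbbb k (by omega)))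
        (bd_mono p0 p1.le le_rfl)
  have z1 : ∀ {g : ℂ → ℂ}, Bd 1 ((n : ℝ) ^ K) g → Bd 0 ((n : ℝ) ^ K) g :=
    fun hg => bd_mono hg zero_le_one le_rfl
  have tz : ∀ {g : ℂ → ℂ}, Bd 1 ((n : ℝ) ^ K) g → Bd 0 ((n : ℝ) ^ K) (Tn n g) :=
    fun hg => z1 (bd_Tn n one_pos hg)
  -- the real sequences
  obtain ⟨x, hx⟩ : ∃ x, x = rt m (Nm m (Fi h)) := ⟨_, rfl⟩
  obtain ⟨f, hf⟩ : ∃ f : ℕ → ℝ, ∀ k, f k = rt m (Nm m (Fi (H k))) := ⟨_, fun _ => rfl⟩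
  obtain ⟨v, hv⟩ : ∃ v : ℕ → ℝ, ∀ k, v k = rt m (Nm m (Fi (Tn n (H k)))) := ⟨_, fun _ => rfl⟩
  obtain ⟨P, hP⟩ : ∃ P : ℕ → ℝ, ∀ k, P k = rt m (Nm m (Fi (h' k))) := ⟨_, fun _ => rfl⟩
  obtain ⟨u, hu⟩ : ∃ u : ℕ → ℝ, ∀ k, u k = rt m (Nm m (Fi (Tn n (h' k)))) := ⟨_, fun _ => rfl⟩
  obtain ⟨ρ, hρ⟩ : ∃ ρ : ℕ → ℝ, ∀ k, ρ k = T2 / a k := ⟨_, fun _ => rfl⟩
  obtain ⟨l, hl⟩ : ∃ l : ℕ → ℝ, ∀ k, l k = (n : ℝ) ^ (89 / 100 : ℝ) / b k := ⟨_, fun _ => rfl⟩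
  obtain ⟨z, hz⟩ : ∃ z : ℕ → ℝ, ∀ k, z k = rt m (Ls m χ' (ρ k) (Fi (H k))) := ⟨_, fun _ => rfl⟩
  obtain ⟨y, hy⟩ : ∃ y : ℕ → ℝ, ∀ k, y k = rt m (Ls m χ₀ (l k) (Fi (H k))) := ⟨_, fun _ => rfl⟩
  have hx0 : 0 ≤ x := by rw [hx]; exact rt_nonneg _ _
  have hf0 : ∀ k, 0 ≤ f k := fun k => by rw [hf]; exact rt_nonneg _ _
  have hv0 : ∀ k, 0 ≤ v k := fun k => by rw [hv]; exact rt_nonneg _ _
  have hP0 : ∀ k, 0 ≤ P k := fun k => by rw [hP]; exact rt_nonneg _ _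
  have hu0 : ∀ k, 0 ≤ u k := fun k => by rw [hu]; exact rt_nonneg _ _
  have hz0 : ∀ k, 0 ≤ z k := fun k => by rw [hz]; exact rt_nonneg _ _
  have hy0 : ∀ k, 0 ≤ y k := fun k => by rw [hy]; exact rt_nonneg _ _
  -- finiteness
  have eX : Nm m (Fi h) = ENNReal.ofReal (x ^ (2 * m)) := by
    rw [hx]
    exact rt_pow hm1 (fin hBAS (z1 hB) hm1)
  have eF : ∀ k, k < M → Nm m (Fi (H k)) = ENNReal.ofReal (f k ^ (2 * m)) := by
    intro k hkM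
    rw [hf]
    exact rt_pow hm1 (fin hBAS (z1 (hk k hkM).1) hm1)
  have eV : ∀ k, k < M → Nm m (Fi (Tn n (H k))) = ENNReal.ofReal (v k ^ (2 * m)) := by
    intro k hkM
    rw [hv]
    exact rt_pow hm1 (fin hBAS (tz (hk k hkM).1) hm1)
  have eP : ∀ k, k ≤ M → Nm m (Fi (h' k)) = ENNReal.ofReal (P k ^ (2 * m)) := by
    intro k hkM
    rw [hP]
    exact rt_pow hm1 (fin hBAS (z1 (hB0 k hkM)) hm1)
  have eU : ∀ k, k ≤ M → Nm m (Fi (Tn n (h' k))) = ENNReal.ofReal (u k ^ (2 * m)) := by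
    intro k hkM
    rw [hu]
    exact rt_pow hm1 (fin hBAS (tz (hB0 k hkM)) hm1)
  -- SUP
  have sup0 : ∀ k, k < M → Nm m (Fi (h' k)) + Ls m χ' (ρ k) (Fi (H k)) ≤
      Nm m (Fi (h' (k + 1))) + ENNReal.ofReal (C5 * (ρ k * bb k)) * Nm m (Fi (h' k)) := by
    intro k hkM
    obtain ⟨-, p0, p1, p2, -⟩ := hk k hkM
    obtain ⟨q1, q2⟩ := hbb k hkM
    have h1 := hsu (ρ k) (bb k) (a k) (b k) (h' k) (H k) (by rw [hρ]; positivity) q1.le (by
      rw [hρ, one_div_div]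
      have r1 : bb k ≤ a k * T⁻¹ := by
        rw [← div_eq_mul_inv, le_div_iff₀ hT0]
        exact q2
      have r2 : a k * T⁻¹ ≤ a k * (1 / 4) := mul_le_mul_of_nonneg_left hk6 p1.le
      have r3 : a k / T2 ≤ a k * (1 / 4) := by
        rw [div_eq_mul_inv]
        exact mul_le_mul_of_nonneg_left hk7 p1.le
      linarith) (hB1 k hkM) p0
    rw [← hhs] at h1
    exact h1
  have finZ : ∀ k, k < M → Ls m χ' (ρ k) (Fi (H k)) ≠ ⊤ := by
    intro k hkM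
    refine ne_top_of_le_ne_top ?_ (le_trans le_add_self (sup0 k hkM))
    refine ENNReal.add_ne_top.2 ⟨?_, ENNReal.mul_ne_top ENNReal.ofReal_ne_top ?_⟩
    · rw [eP (k + 1) hkM]; exact ENNReal.ofReal_ne_top
    · rw [eP k hkM.le]; exact ENNReal.ofReal_ne_top
  have eZ : ∀ k, k < M → Ls m χ' (ρ k) (Fi (H k)) = ENNReal.ofReal (z k ^ (2 * m)) := by
    intro k hkM
    rw [hz]
    exact rt_pow hm1 (finZ k hkM)
  -- CMP
  have cmp0 : ∀ k, k < M → (Ls m χ₀ (l k) (Fi (H k))) ^ (1 / (m : ℝ)) ≤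
      ENNReal.ofReal (z k ^ 2 + C4 * (ρ k / l k) * f k ^ 2) := by
    intro k hkM
    obtain ⟨p, p0, p1, p2, -⟩ := hk k hkM
    have hbk : 0 < b k := p1.trans_le p2
    have hρ0 : 0 < ρ k := by rw [hρ]; positivity
    have hl0 : 0 < l k := by rw [hl]; positivity
    have h1 := hcm m (ρ k) (l k) (Fi (H k)) hm1 hρ0 hl0 (meas hBAS (z1 p))
    rw [eZ k hkM, eF k hkM, pw2 hm1 (hz0 k), pw2 hm1 (hf0 k),
      ← ENNReal.ofReal_mul (by positivity),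
      ← ENNReal.ofReal_add (by positivity) (by positivity)] at h1
    exact h1
  have finY : ∀ k, k < M → Ls m χ₀ (l k) (Fi (H k)) ≠ ⊤ := by
    intro k hkM
    have h1 := ne_top_of_le_ne_top ENNReal.ofReal_ne_top (cmp0 k hkM)
    intro h2
    rw [h2, ENNReal.top_rpow_of_pos (by positivity)] at h1
    exact h1 rfl
  have eY : ∀ k, k < M → Ls m χ₀ (l k) (Fi (H k)) = ENNReal.ofReal (y k ^ (2 * m)) := by
    intro k hkM
    rw [hy]
    exact rt_pow hm1 (finY k hkM)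
  -- the hypotheses of the numerical core
  have a_f : ∀ k, k < M → f k ≤ C * x := by
    intro k hkM
    obtain ⟨-, -, -, -, -, -, p⟩ := hk k hkM
    rw [hf, hx]
    exact rt_le hm1 hC.le (fin hBAS (z1 hB) hm1) p
  have a_Pk : ∀ k, k ≤ M → P k ≤ k * (C * x) := by
    intro k
    induction k with
    | zero =>
      intro _
      rw [hP, hh0, Fi_zero, Nm_zero hm1, rt_zero hm1]
      simp
    | succ k ih =>
      intro hkM
      have h1 := minkF hm1 hBAS (z1 (hB0 k (by omega))) (z1 (hk k (by omega)).1) (hhs k)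
      rw [← hP, ← hP, ← hf] at h1
      have h2 := ih (by omega)
      have h3 := a_f k (by omega)
      push_cast
      linarith
  have a_P : ∀ k, k ≤ M → P k ≤ M * C * x := by
    intro k hkM
    refine (a_Pk k hkM).trans ?_
    rw [mul_assoc]
    apply mul_le_mul_of_nonneg_right (by exact_mod_cast hkM) (by positivity)
  have a_u : ∀ k, k ≤ M → u k ≤ c * P k := by
    intro k hkM
    rw [hu, hP]
    exact rt_le hm1 hc.le (fin hBAS (z1 (hB0 k hkM)) hm1) (hyp _ (hB0 k hkM))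
  have a_g : rt m (Nm m (Fi g)) ≤ e * x := by
    rw [hx]
    exact rt_le hm1 he.le (fin hBAS (z1 hB) hm1) hgN
  have a_PM : P M ≤ (1 + e) * x := by
    have h1 : h' M = fun ξ => h ξ + (fun ξ => -g ξ) ξ := by
      funext ξ
      rw [hdec ξ, hh']
      ring
    have h2 := minkF hm1 hBAS (z1 hB) (bd_neg (z1 hg)) h1
    rw [Nm_neg, ← hP, ← hx] at h2
    linarith
  have a_u0 : u 0 = 0 := by
    have : Tn n (h' 0) = fun _ => 0 := by
      rw [hh0]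
      funext ξ
      simp [Tn]
    rw [hu, this, Fi_zero, Nm_zero hm1, rt_zero hm1]
  obtain ⟨q, hq⟩ : ∃ q, q = C2 * (n : ℝ) ^ (2 * (1 - 1 / (m : ℝ)) - δ) := ⟨_, rfl⟩
  have hq0 : 0 ≤ q := by rw [hq]; positivity
  have a_un : ∀ k, k < M → u (k + 1) ^ (2 * m) ≤ u k ^ (2 * m) + (1 + e) * v k ^ (2 * m) +
      (C1 * q) * f k ^ 2 * u k ^ (2 * m - 2) := by
    intro k hkM
    obtain ⟨p, p0, p1, p2, p3, -⟩ := hk k hkM
    obtain ⟨q1, q2⟩ := hbb k hkM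
    have bd1 : Bd 0 (bb k) (Tn n (h' k)) := bd_Tn' n one_pos (hB0 k hkM.le) (hB1 k hkM)
    have bd2 : Bd (a k) (b k) (Tn n (H k)) := bd_Tn n p1 p0
    have h1 := hen (bb k) (a k) (b k) (Tn n (h' k)) (Tn n (H k)) q1.le (by
      have r1 : bb k ≤ a k * T⁻¹ := by
        rw [← div_eq_mul_inv, le_div_iff₀ hT0]
        exact q2
      have r2 : (2 * (m : ℝ) - 1) * bb k ≤ (2 * (m : ℝ) - 1) * (a k * T⁻¹) :=
        mul_le_mul_of_nonneg_left r1 (by linarith)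
      have r3 : (2 * (m : ℝ) - 1) * (a k * T⁻¹) = a k * ((2 * (m : ℝ) - 1) * T⁻¹) := by ring
      have r4 : a k * ((2 * (m : ℝ) - 1) * T⁻¹) ≤ a k * (1 / 2) :=
        mul_le_mul_of_nonneg_left hk5 p1.le
      linarith) bd1 bd2
    have h2 : (fun ξ => Tn n (h' k) ξ + Tn n (H k) ξ) = Tn n (h' (k + 1)) := by
      rw [hhs]
      funext ξ
      simp only [Tn]
      ring
    rw [h2] at h1
    have h3 := hga n (a k) (b k) (bb k) (H k) (Tn n (h' k)) (by omega) p1 p2 (by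
      refine p3.trans (mul_le_mul_of_nonneg_left ?_ p1.le)
      calc (n : ℝ) ^ (1 / 50 : ℝ) ≤ (n : ℝ) ^ (1 : ℝ) :=
            Real.rpow_le_rpow_of_exponent_le hn1 (by norm_num)
        _ = n := Real.rpow_one _) q1 (by rw [← hT]; exact q2) p0 bd1
    rw [eF k hkM, eU k hkM.le, pw2 hm1 (hf0 k), pw3 hm1 (hu0 k), ← hq,
      ← ENNReal.ofReal_mul hq0,
      ← ENNReal.ofReal_mul (by have := hf0 k; positivity)] at h3
    have h4 : Nm m (Fi (Tn n (h' (k + 1)))) ≤ (Nm m (Fi (Tn n (h' k))) +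
        ENNReal.ofReal (1 + e) * Nm m (Fi (Tn n (H k)))) +
        ENNReal.ofReal C1 * ENNReal.ofReal (q * f k ^ 2 * u k ^ (2 * m - 2)) :=
      h1.trans (add_le_add le_rfl (mul_le_mul_right h3 _))
    have n1 : 0 ≤ u k ^ (2 * m) := pow_nonneg (hu0 k) _
    have n2 : 0 ≤ v k ^ (2 * m) := pow_nonneg (hv0 k) _
    have n3 : 0 ≤ f k ^ 2 := sq_nonneg _
    have n4 : 0 ≤ u k ^ (2 * m - 2) := pow_nonneg (hu0 k) _
    rw [eU (k + 1) hkM, eU k hkM.le, eV k hkM, ← ENNReal.ofReal_mul (by linarith),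
      ← ENNReal.ofReal_mul hC1, ← ENNReal.ofReal_add n1 (by positivity),
      ← ENNReal.ofReal_add (by positivity) (by positivity),
      ENNReal.ofReal_le_ofReal_iff (by positivity)] at h4
    linarith
  have a_v : ∀ k, k < M → v k ≤ (1 + e) * A * y k + f k := by
    intro k hkM
    obtain ⟨p, p0, p1, p2, p3, -⟩ := hk k hkM
    have h1 := hst n (a k) (b k) (by omega) p1 p2 p3 (H k) p0
    rw [← hl, ← hA, eV k hkM, eF k hkM, eY k hkM, pw1 hm1 (hv0 k), pw1 hm1 (hf0 k),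
      pw1 hm1 (hy0 k), ← ENNReal.ofReal_mul (by positivity),
      ← ENNReal.ofReal_add (by have := hy0 k; positivity) (hf0 k),
      ENNReal.ofReal_le_ofReal_iff (by have := hy0 k; have := hf0 k; positivity)] at h1
    exact h1
  obtain ⟨s, hs⟩ : ∃ s, s = C4 * (n : ℝ) ^ (-(89 / 100 - 1 / 50 - τ / 2)) := ⟨_, rfl⟩
  have hs0 : 0 ≤ s := by rw [hs]; positivity
  have a_y : ∀ k, k < M → y k ^ 2 ≤ z k ^ 2 + s * f k ^ 2 := by
    intro k hkM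
    obtain ⟨p, p0, p1, p2, p3, -⟩ := hk k hkM
    have hbk : 0 < b k := p1.trans_le p2
    have hρ0 : 0 < ρ k := by rw [hρ]; positivity
    have hl0 : 0 < l k := by rw [hl]; positivity
    have h1 := cmp0 k hkM
    rw [eY k hkM, pw2 hm1 (hy0 k), ENNReal.ofReal_le_ofReal_iff (by positivity)] at h1
    refine h1.trans ?_
    have h2 : C4 * (ρ k / l k) ≤ s := by
      rw [hs]
      apply mul_le_mul_of_nonneg_left _ hC4
      rw [hρ, hl]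
      have r1 : T2 / a k / ((n : ℝ) ^ (89 / 100 : ℝ) / b k) =
          (T2 / (n : ℝ) ^ (89 / 100 : ℝ)) * (b k / a k) := by
        field_simp
      have r2 : b k / a k ≤ (n : ℝ) ^ (1 / 50 : ℝ) := by
        rw [div_le_iff₀ p1, mul_comm]
        exact p3
      have r3 : (n : ℝ) ^ (-(89 / 100 - 1 / 50 - τ / 2)) =
          (T2 / (n : ℝ) ^ (89 / 100 : ℝ)) * (n : ℝ) ^ (1 / 50 : ℝ) := by
        rw [hT2, ← Real.rpow_sub hn0, ← Real.rpow_add hn0]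
        congr 1
        ring
      rw [r1, r3]
      exact mul_le_mul_of_nonneg_left r2 (by positivity)
    have h3 := mul_le_mul_of_nonneg_right h2 (sq_nonneg (f k))
    linarith
  obtain ⟨t, ht⟩ : ∃ t, t = C5 * T2⁻¹ := ⟨_, rfl⟩
  have ht0 : 0 ≤ t := by rw [ht]; positivity
  have a_Pz : ∀ k, k < M → P k ^ (2 * m) + z k ^ (2 * m) ≤
      P (k + 1) ^ (2 * m) + t * P k ^ (2 * m) := by
    intro k hkM
    obtain ⟨p, p0, p1, p2, p3, -⟩ := hk k hkM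
    obtain ⟨q1, q2⟩ := hbb k hkM
    have hρ0 : 0 < ρ k := by rw [hρ]; positivity
    have n1 : 0 ≤ P k ^ (2 * m) := pow_nonneg (hP0 k) _
    have n2 : 0 ≤ z k ^ (2 * m) := pow_nonneg (hz0 k) _
    have n3 : 0 ≤ P (k + 1) ^ (2 * m) := pow_nonneg (hP0 _) _
    have h1 := sup0 k hkM
    rw [eP k hkM.le, eP (k + 1) hkM, eZ k hkM, ← ENNReal.ofReal_mul (by positivity),
      ← ENNReal.ofReal_add n1 n2, ← ENNReal.ofReal_add n3 (by positivity),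
      ENNReal.ofReal_le_ofReal_iff (by positivity)] at h1
    refine h1.trans ?_
    have h2 : C5 * (ρ k * bb k) ≤ t := by
      rw [ht]
      apply mul_le_mul_of_nonneg_left _ hC5
      rw [hρ]
      have r1 : bb k / a k ≤ T⁻¹ := by
        rw [div_le_iff₀ p1, ← div_eq_inv_mul, le_div_iff₀ hT0]
        exact q2
      have r2 : T2⁻¹ = T2 * T⁻¹ := by
        rw [hTT]
        field_simp
      have r3 : T2 / a k * bb k = T2 * (bb k / a k) := by ring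
      rw [r2, r3]
      exact mul_le_mul_of_nonneg_left r1 hT20.le
    have h3 := mul_le_mul_of_nonneg_right h2 n1
    linarith
  have hfin := numcore (m := m) (M := M) hm1 he he1 he₁.le he₁e heM hx0 hA0.le hAc hC.le hs0 ht0
    (mul_nonneg hC1 hq0) a_u0 hu0 (fun k _ => hv0 k) (fun k _ => hz0 k) (fun k _ => hy0 k)
    (fun k _ => hf0 k) hP0 a_un a_v a_y a_Pz a_f a_P a_u a_PM
    (by rw [hs]; linarith)
    (by
      have r1 : (n : ℝ) ^ (-(1 - 1 / (m : ℝ))) = ((n : ℝ) ^ (1 - 1 / (m : ℝ)))⁻¹ :=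
        Real.rpow_neg hn0.le _
      rw [r1, ← div_eq_mul_inv, div_div, div_le_iff₀ (by positivity)] at hk2
      rw [hAd, mul_comm ((n : ℝ) ^ (1 - 1 / (m : ℝ)))]
      exact hk2)
    (by rw [ht]; linarith)
    (by
      have r1 : (n : ℝ) ^ (2 * (1 - 1 / (m : ℝ)) - δ) =
          ((n : ℝ) ^ (1 - 1 / (m : ℝ))) ^ 2 * (n : ℝ) ^ (-δ) := by
        rw [← Real.rpow_natCast ((n : ℝ) ^ (1 - 1 / (m : ℝ))), ← Real.rpow_mul hn0.le,
          ← Real.rpow_add hn0]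
        congr 1
        push_cast
        ring
      have r2 : A ^ 2 ≤ c ^ 2 := pow_le_pow_left₀ hA0.le hAc 2
      have r3 : C1 * q * C ^ 2 * (M * C) ^ (2 * m - 2) * M =
          (C1 * C2 * C ^ 2 * (M * C) ^ (2 * m - 2) * M * (n : ℝ) ^ (-δ)) *
            ((n : ℝ) ^ (1 - 1 / (m : ℝ))) ^ 2 := by
        rw [hq, r1]
        ring
      rw [r3]
      calc _ ≤ (e₁ ^ (2 * m) * GA m ^ 2) * ((n : ℝ) ^ (1 - 1 / (m : ℝ))) ^ 2 :=
            mul_le_mul_of_nonneg_right hk4 (sq_nonneg _)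
        _ = e₁ ^ (2 * m) * A ^ 2 := by rw [hAd]; ring
        _ ≤ e₁ ^ (2 * m) * c ^ 2 := mul_le_mul_of_nonneg_left r2 (by positivity))
  -- the end
  have hTg : rt m (Nm m (Fi (Tn n g))) ≤ c * (e * x) :=
    (rt_le hm1 hc.le (fin hBAS (z1 hg) hm1) (hyp g hg)).trans
      (mul_le_mul_of_nonneg_left a_g hc.le)
  have hTh : Tn n h = fun ξ => Tn n (h' M) ξ + Tn n g ξ := by
    funext ξ
    simp only [Tn]
    rw [hdec ξ, hh']
    ring
  have hlast := minkF hm1 hBAS (tz (hB0 M le_rfl)) (tz hg) hTh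
  rw [← hu] at hlast
  apply le_rt hm1 (by positivity) (fin hBAS (tz hB) hm1) (fin hBAS (z1 hB) hm1)
  rw [← hx]
  linarith

theorem t (h1 : S_BAS) (h2 : S_ENU) (h3 : S_SUP) (h4 : S_CMP) (h5 : S_STR) (h6 : S_GAI)
    (h7 : S_SPL) (h8 : S_FNT) : S_KTH := by
  intro m K ε hm hK hε
  have hm1 : 1 ≤ m := by omega
  obtain ⟨e, he⟩ : ∃ e, e = min ε 1 / 40 := ⟨_, rfl⟩
  have he0 : 0 < e := by rw [he]; positivity
  have he1 : e ≤ ε / 40 := by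
    rw [he]
    have := min_le_left ε 1
    linarith
  have he2 : e ≤ 1 / 40 := by
    rw [he]
    have := min_le_right ε 1
    linarith
  obtain ⟨n₀, hn₀⟩ := step h1 h2 h3 h4 h5 h6 h7 m K e hm hK he0 (by linarith)
  refine ⟨max n₀ 1, ?_⟩
  intro n hn
  obtain ⟨hA, hstep⟩ := hn₀ n (le_of_max_le_left hn)
  have hn1 : 1 ≤ n := le_of_max_le_right hn
  obtain ⟨A, hAd⟩ : ∃ A, A = AA m n := ⟨_, rfl⟩
  rw [← hAd] at hA hstep ⊢
  obtain ⟨S, hS⟩ : ∃ S : Set ℝ, S = {c | A ≤ c ∧ ∀ h, Bd 1 ((n : ℝ) ^ K) h →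
      Nm m (Fi (Tn n h)) ≤ ENNReal.ofReal (c ^ (2 * m)) * Nm m (Fi h)} := ⟨_, rfl⟩
  have hne : S.Nonempty := by
    obtain ⟨C, hC, hF⟩ := h8 m n 1 ((n : ℝ) ^ K) hm1 hn1 one_pos
    refine ⟨max A (max 1 C), ?_⟩
    rw [hS]
    refine ⟨le_max_left _ _, fun h hB => (hF h hB).trans ?_⟩
    refine mul_le_mul_left (ENNReal.ofReal_le_ofReal ?_) _
    have c1 : (1 : ℝ) ≤ max A (max 1 C) := (le_max_left _ _).trans (le_max_right _ _)
    have c2 : C ≤ max A (max 1 C) := (le_max_right _ _).trans (le_max_right _ _)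
    exact c2.trans (le_self_pow₀ c1 (by omega))
  have hbdd : BddBelow S := ⟨A, fun c hc => by rw [hS] at hc; exact hc.1⟩
  have hF : ∀ c ∈ S, (1 + 7 * e) * A + 2 * e * c ∈ S := by
    intro c hc
    rw [hS] at hc ⊢
    have hc0 : 0 < c := hA.trans_le hc.1
    refine ⟨?_, hstep c hc.1 hc.2⟩
    nlinarith [mul_pos he0 hA, mul_pos he0 hc0]
  have hN : sInf S * (1 - 2 * e) ≤ (1 + 7 * e) * A := by
    have h9 : (sInf S - (1 + 7 * e) * A) / (2 * e) ≤ sInf S := by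
      apply le_csInf hne
      intro c hc
      rw [div_le_iff₀ (by linarith)]
      have := csInf_le hbdd (hF c hc)
      linarith
    rw [div_le_iff₀ (by linarith)] at h9
    linarith
  have hlt : sInf S < (1 + ε) * A := by
    by_contra hcon
    push Not at hcon
    have h9 : (1 + ε) * A * (1 - 2 * e) ≤ sInf S * (1 - 2 * e) :=
      mul_le_mul_of_nonneg_right hcon (by linarith)
    have h10 : (1 + ε) * (1 - 2 * e) * A ≤ (1 + 7 * e) * A := by linarith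
    have h11 := le_of_mul_le_mul_right h10 hA
    nlinarith [mul_nonneg hε.le (sub_nonneg.2 he2)]
  obtain ⟨c, hc, hclt⟩ := exists_lt_of_csInf_lt hne hlt
  rw [hS] at hc
  intro h hB
  refine (hc.2 h hB).trans (mul_le_mul_left (ENNReal.ofReal_le_ofReal ?_) _)
  exact pow_le_pow_left₀ (hA.le.trans hc.1) hclt.le _

end Pool.Agent.N892.BW.KTH
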