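import Pool.Agent.N892.BW.Stm4

/-!
Powers of the Beurling transform, fourth part: GLC, the limiting inequality (by helper234).
-/

set_option autoImplicit false

open Filter Topology

namespace Pool.Agent.N892.BW.GLC

theorem Qn_pos {n : ℕ} {s : ℝ} (h0 : 0 < s) (h1 : s < 1) : 0 < Qn n s := by
  unfold Qn
  apply Finset.prod_pos
  intro j _
  have hj : (0 : ℝ) ≤ j := Nat.cast_nonneg j
  exact div_pos (by linarith) (by linarith)

theorem Gs_pos {s : ℝ} (h0 : 0 < s) (h1 : s < 1) : 0 < Gs s := by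
  unfold Gs
  exact div_pos (Real.Gamma_pos_of_pos h0) (Real.Gamma_pos_of_pos (by linarith))

theorem t (h1 : S_AMG) (h2 : S_ASR) : S_GLC := by
  intro s₀ s₁ θ hs1 hs10 hs0 hθ0 hθ1
  have hs0p : 0 < s₀ := lt_of_lt_of_le hs1 hs10
  obtain ⟨s, hs⟩ : ∃ s, s = (1 - θ) * s₀ + θ * s₁ := ⟨_, rfl⟩
  have hsp : 0 < s := by
    rw [hs]
    have a1 : 0 ≤ (1 - θ) * (s₀ - s₁) := mul_nonneg (by linarith) (by linarith)
    nlinarith
  have hs2 : s ≤ 1 / 2 := by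
    rw [hs]
    nlinarith [mul_nonneg hθ0 (sub_nonneg.2 hs10)]
  rw [← hs]
  obtain ⟨c, hc⟩ : ∃ c, c = s / (s₀ ^ (1 - θ) * s₁ ^ θ) := ⟨_, rfl⟩
  have hcpos : 0 < c := by
    rw [hc]
    exact div_pos hsp (mul_pos (Real.rpow_pos_of_pos hs0p _) (Real.rpow_pos_of_pos hs1 _))
  rw [← hc]
  have hG0 := Gs_pos hs0p (by linarith : s₀ < 1)
  have hG1 := Gs_pos hs1 (by linarith : s₁ < 1)
  have hG := Gs_pos hsp (by linarith : s < 1)
  have t0 := h2 s₀ hs0p (by linarith)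
  have t1 := h2 s₁ hs1 (by linarith)
  have ts := h2 s hsp (by linarith)
  have tA : Tendsto (fun n : ℕ => Gs s₀ ^ (1 - θ) * Gs s₁ ^ θ *
      ((n : ℝ) ^ (1 - 2 * s) * Gs s / Qn n s)) atTop
      (𝓝 (Gs s₀ ^ (1 - θ) * Gs s₁ ^ θ * 1)) := ts.const_mul _
  have t0' := t0.rpow_const (p := 1 - θ) (Or.inl one_ne_zero)
  have t1' := t1.rpow_const (p := θ) (Or.inl one_ne_zero)
  rw [Real.one_rpow] at t0' t1'
  have tB : Tendsto (fun n : ℕ => Gs s * c *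
      (((n : ℝ) ^ (1 - 2 * s₀) * Gs s₀ / Qn n s₀) ^ (1 - θ) *
        ((n : ℝ) ^ (1 - 2 * s₁) * Gs s₁ / Qn n s₁) ^ θ)) atTop
      (𝓝 (Gs s * c * (1 * 1))) := (t0'.mul t1').const_mul _
  rw [mul_one] at tA
  rw [mul_one, mul_one] at tB
  refine le_of_tendsto_of_tendsto tA tB ?_
  filter_upwards [eventually_ge_atTop 1] with n hn
  have hN : (0 : ℝ) < n := by exact_mod_cast hn
  have q0 := Qn_pos (n := n) hs0p (by linarith : s₀ < 1)
  have q1 := Qn_pos (n := n) hs1 (by linarith : s₁ < 1)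
  have q := Qn_pos (n := n) hsp (by linarith : s < 1)
  have key := h1 n s₀ s₁ θ hs1 hs10 hs0 hθ0 hθ1
  rw [← hs, ← hc] at key
  have e0 : ((n : ℝ) ^ (1 - 2 * s₀) * Gs s₀ / Qn n s₀) ^ (1 - θ)
      = (n : ℝ) ^ ((1 - 2 * s₀) * (1 - θ)) * Gs s₀ ^ (1 - θ) / Qn n s₀ ^ (1 - θ) := by
    rw [Real.div_rpow (by positivity) q0.le, Real.mul_rpow (by positivity) hG0.le,
      ← Real.rpow_mul hN.le]
  have e1 : ((n : ℝ) ^ (1 - 2 * s₁) * Gs s₁ / Qn n s₁) ^ θ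
      = (n : ℝ) ^ ((1 - 2 * s₁) * θ) * Gs s₁ ^ θ / Qn n s₁ ^ θ := by
    rw [Real.div_rpow (by positivity) q1.le, Real.mul_rpow (by positivity) hG1.le,
      ← Real.rpow_mul hN.le]
  have e2 : (n : ℝ) ^ (1 - 2 * s) = (n : ℝ) ^ ((1 - 2 * s₀) * (1 - θ)) *
      (n : ℝ) ^ ((1 - 2 * s₁) * θ) := by
    rw [← Real.rpow_add hN]
    congr 1
    rw [hs]
    ring
  rw [e0, e1, e2]
  have p0 := Real.rpow_pos_of_pos q0 (1 - θ)
  have p1 := Real.rpow_pos_of_pos q1 θ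
  have g0 := Real.rpow_pos_of_pos hG0 (1 - θ)
  have g1 := Real.rpow_pos_of_pos hG1 θ
  have n0 := Real.rpow_pos_of_pos hN ((1 - 2 * s₀) * (1 - θ))
  have n1 := Real.rpow_pos_of_pos hN ((1 - 2 * s₁) * θ)
  generalize (n : ℝ) ^ ((1 - 2 * s₀) * (1 - θ)) = N0 at *
  generalize (n : ℝ) ^ ((1 - 2 * s₁) * θ) = N1 at *
  generalize Qn n s₀ ^ (1 - θ) = Q0 at *
  generalize Qn n s₁ ^ θ = Q1 at *
  generalize Gs s₀ ^ (1 - θ) = G0 at *
  generalize Gs s₁ ^ θ = G1 at *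
  generalize Qn n s = Q at *
  generalize Gs s = G at *
  have f1 : G0 * G1 * (N0 * N1 * G / Q) = (G0 * G1 * N0 * N1 * G) * (1 / Q) := by ring
  have f2 : G * c * (N0 * G0 / Q0 * (N1 * G1 / Q1)) = (G0 * G1 * N0 * N1 * G) * (c / (Q0 * Q1)) := by
    field_simp
  rw [f1, f2]
  apply mul_le_mul_of_nonneg_left _ (by positivity)
  rw [div_le_div_iff₀ q (by positivity), one_mul]
  linarith

end Pool.Agent.N892.BW.GLC
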