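import Pool.Agent.N892.BW.Stm2

/-!
Powers of the Beurling transform, part GAA: gain for averages over discs (helper591).
-/

set_option autoImplicit false

open MeasureTheory ENNReal Filter Topology Complex
open scoped ComplexConjugate ContDiff

namespace Pool.Agent.N892.BW.GAA

/-! ### General inequalities -/

theorem holder {α : Type*} [MeasurableSpace α] (μ : Measure α) {g : α → ℝ≥0∞}
    (hg : Measurable g) (p : ℕ) (hp : 1 ≤ p) :
    (∫⁻ x, g x ∂μ) ^ p ≤ (μ Set.univ) ^ (p - 1) * ∫⁻ x, g x ^ p ∂μ := by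
  rcases Nat.lt_or_ge 1 p with h | h
  · have hp1 : (1 : ℝ) < p := by exact_mod_cast h
    have hp0 : (0 : ℝ) < p := by linarith
    obtain ⟨q, hq⟩ : ∃ q : ℝ, q = p / (p - 1) := ⟨_, rfl⟩
    have hqi : q⁻¹ * p = ((p - 1 : ℕ) : ℝ) := by
      rw [hq, inv_div, Nat.cast_sub hp, Nat.cast_one]
      field_simp
    have hpq : (p : ℝ).HolderConjugate q := by
      rw [Real.holderConjugate_iff]
      refine ⟨hp1, ?_⟩
      have : (p : ℝ) - 1 ≠ 0 := by linarith
      rw [hq, inv_div]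
      field_simp
      ring
    have h1 := ENNReal.lintegral_mul_le_Lp_mul_Lq μ hpq hg.aemeasurable
      (aemeasurable_const (b := (1 : ℝ≥0∞)))
    simp only [Pi.mul_apply, mul_one, ENNReal.one_rpow, lintegral_const, one_mul] at h1
    have h2 := ENNReal.rpow_le_rpow h1 hp0.le
    rw [ENNReal.mul_rpow_of_nonneg _ _ hp0.le, ← ENNReal.rpow_mul, ← ENNReal.rpow_mul, one_div,
      one_div, inv_mul_cancel₀ hp0.ne', hqi, ENNReal.rpow_one, ENNReal.rpow_natCast,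
      ENNReal.rpow_natCast, mul_comm] at h2
    simp only [ENNReal.rpow_natCast] at h2
    exact h2
  · have : p = 1 := by omega
    subst this
    simp

theorem young {k g : ℂ → ℝ≥0∞} (hk : Measurable k) (hg : Measurable g) (p : ℕ) (hp : 1 ≤ p) :
    ∫⁻ x, (∫⁻ w, k (x - w) * g w) ^ p ≤ (∫⁻ x, k x) ^ p * ∫⁻ x, g x ^ p := by
  have h1 : ∀ x, (∫⁻ w, k (x - w) * g w) ^ p ≤
      (∫⁻ x, k x) ^ (p - 1) * ∫⁻ w, k (x - w) * g w ^ p := by
    intro x
    have hm : Measurable fun w => k (x - w) := hk.comp (measurable_const.sub measurable_id)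
    have h2 := holder (volume.withDensity fun w => k (x - w)) hg p hp
    rw [lintegral_withDensity_eq_lintegral_mul _ hm hg,
      lintegral_withDensity_eq_lintegral_mul _ hm (hg.pow_const p),
      withDensity_apply _ MeasurableSet.univ, Measure.restrict_univ,
      lintegral_sub_left_eq_self] at h2
    exact h2
  have hm2 : Measurable (Function.uncurry fun x w : ℂ => k (x - w) * g w ^ p) :=
    (hk.comp (measurable_fst.sub measurable_snd)).mul ((hg.comp measurable_snd).pow_const p)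
  calc ∫⁻ x, (∫⁻ w, k (x - w) * g w) ^ p
      ≤ ∫⁻ x, (∫⁻ x, k x) ^ (p - 1) * ∫⁻ w, k (x - w) * g w ^ p := lintegral_mono h1
    _ = (∫⁻ x, k x) ^ (p - 1) * ∫⁻ x, ∫⁻ w, k (x - w) * g w ^ p :=
        lintegral_const_mul _ hm2.lintegral_prod_right'
    _ = (∫⁻ x, k x) ^ (p - 1) * ∫⁻ w, ∫⁻ x, k (x - w) * g w ^ p := by
        rw [lintegral_lintegral_swap hm2.aemeasurable]
    _ = (∫⁻ x, k x) ^ (p - 1) * ∫⁻ w, (∫⁻ x, k x) * g w ^ p := by
        congr 1
        refine lintegral_congr fun w => ?_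
        have hm3 : Measurable fun x => k (x - w) := hk.comp (measurable_id.sub measurable_const)
        rw [lintegral_mul_const _ hm3, lintegral_sub_right_eq_self]
    _ = (∫⁻ x, k x) ^ (p - 1) * ((∫⁻ x, k x) * ∫⁻ w, g w ^ p) := by
        rw [lintegral_const_mul _ (hg.pow_const p)]
    _ = (∫⁻ x, k x) ^ p * ∫⁻ w, g w ^ p := by
        rw [← mul_assoc, ← pow_succ, Nat.sub_add_cancel hp]

theorem avgball {G : ℂ → ℝ≥0∞} (hG : Measurable G) (r : ℝ) :
    ∫⁻ y, ∫⁻ x in Metric.ball y r, G x = volume (Metric.ball (0 : ℂ) r) * ∫⁻ x, G x := by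
  have h1 : ∀ y, ∫⁻ x in Metric.ball y r, G x = ∫⁻ x, (if dist x y < r then G x else 0) := by
    intro y
    rw [← lintegral_indicator Metric.isOpen_ball.measurableSet]
    refine lintegral_congr fun x => ?_
    by_cases h : dist x y < r
    · rw [if_pos h, Set.indicator_of_mem (Metric.mem_ball.2 h)]
    · rw [if_neg h, Set.indicator_of_notMem (fun h' => h (Metric.mem_ball.1 h'))]
  have hm : Measurable (Function.uncurry fun y x : ℂ => if dist x y < r then G x else 0) := by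
    refine Measurable.ite ?_ (hG.comp measurable_snd) measurable_const
    exact measurableSet_lt (measurable_snd.dist measurable_fst) measurable_const
  calc ∫⁻ y, ∫⁻ x in Metric.ball y r, G x
      = ∫⁻ y, ∫⁻ x, (if dist x y < r then G x else 0) := lintegral_congr h1
    _ = ∫⁻ x, ∫⁻ y, (if dist x y < r then G x else 0) :=
        lintegral_lintegral_swap hm.aemeasurable
    _ = ∫⁻ x, volume (Metric.ball (0 : ℂ) r) * G x := by
        refine lintegral_congr fun x => ?_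
        have h2 : (fun y => if dist x y < r then G x else 0) =
            (Metric.ball x r).indicator (fun _ => G x) := by
          funext y
          by_cases h : dist x y < r
          · rw [if_pos h, Set.indicator_of_mem (by rwa [Metric.mem_ball, dist_comm])]
          · rw [if_neg h, Set.indicator_of_notMem (by rwa [Metric.mem_ball, dist_comm])]
        rw [h2, lintegral_indicator Metric.isOpen_ball.measurableSet, setLIntegral_const,
          Measure.addHaar_ball_center, mul_comm]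
    _ = _ := lintegral_const_mul _ hG

/-! ### Averages -/

theorem V_ne_zero {T : ℝ} (hT : 0 < T) : volume (Metric.ball (0 : ℂ) T) ≠ 0 :=
  (Metric.measure_ball_pos volume 0 hT).ne'

theorem V_ne_top (T : ℝ) : volume (Metric.ball (0 : ℂ) T) ≠ ⊤ := measure_ball_lt_top.ne

theorem av_meas2 {X : ℂ → ℝ≥0∞} (hX : Measurable X) (T : ℝ) :
    Measurable fun x => ∫⁻ u in Metric.ball (0 : ℂ) T, X (x + u) :=
  Measurable.lintegral_prod_right' (f := fun p : ℂ × ℂ => X (p.1 + p.2))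
    (hX.comp (measurable_fst.add measurable_snd))

theorem av_meas {X : ℂ → ℝ≥0∞} (hX : Measurable X) (T : ℝ) : Measurable (av T X) := by
  unfold av
  exact measurable_const.mul (av_meas2 hX T)

theorem av_int {X : ℂ → ℝ≥0∞} (hX : Measurable X) {T : ℝ} (hT : 0 < T) :
    ∫⁻ x, av T X x = ∫⁻ x, X x := by
  unfold av
  rw [lintegral_const_mul _ (av_meas2 hX T)]
  have hm : Measurable (Function.uncurry fun x u : ℂ => X (x + u)) :=
    hX.comp (measurable_fst.add measurable_snd)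
  rw [lintegral_lintegral_swap hm.aemeasurable]
  have : ∀ u, ∫⁻ x, X (x + u) = ∫⁻ x, X x := fun u => lintegral_add_right_eq_self X u
  simp_rw [this]
  rw [setLIntegral_const, mul_comm (∫⁻ x, X x), ← mul_assoc,
    ENNReal.inv_mul_cancel (V_ne_zero hT) (V_ne_top T), one_mul]

theorem av_pow {X : ℂ → ℝ≥0∞} (hX : Measurable X) {T : ℝ} (hT : 0 < T) (p : ℕ) (hp : 1 ≤ p)
    (x : ℂ) : (av T X x) ^ p ≤ av T (fun z => X z ^ p) x := by
  unfold av
  have h1 := holder (volume.restrict (Metric.ball (0 : ℂ) T))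
    (hX.comp (measurable_const.add measurable_id) : Measurable fun u => X (x + u)) p hp
  rw [Measure.restrict_apply_univ] at h1
  rw [mul_pow]
  refine (mul_le_mul_right h1 _).trans (le_of_eq ?_)
  rw [← mul_assoc]
  congr 1
  have h2 : (volume (Metric.ball (0 : ℂ) T))⁻¹ ^ p =
      (volume (Metric.ball (0 : ℂ) T))⁻¹ * (volume (Metric.ball (0 : ℂ) T))⁻¹ ^ (p - 1) := by
    rw [← pow_succ', Nat.sub_add_cancel hp]
  rw [h2, mul_assoc, ← mul_pow, ENNReal.inv_mul_cancel (V_ne_zero hT) (V_ne_top T), one_pow,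
    mul_one]

theorem av_le {X : ℂ → ℝ≥0∞} (T : ℝ) (x : ℂ) :
    av T X x ≤ (volume (Metric.ball (0 : ℂ) T))⁻¹ * ∫⁻ z, X z := by
  unfold av
  refine mul_le_mul_right ?_ _
  calc ∫⁻ u in Metric.ball (0 : ℂ) T, X (x + u) ≤ ∫⁻ u, X (x + u) :=
        setLIntegral_le_lintegral _ _
    _ = ∫⁻ z, X z := lintegral_add_left_eq_self X x

theorem two_pow (a b : ℝ≥0∞) (k : ℕ) : (a + b) ^ k ≤ 2 ^ k * (a ^ k + b ^ k) := by
  rcases le_total a b with h | h
  · calc (a + b) ^ k ≤ (2 * b) ^ k := by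
          apply pow_le_pow_left' 
          rw [two_mul]
          exact add_le_add_left h _
      _ = 2 ^ k * b ^ k := mul_pow _ _ _
      _ ≤ _ := mul_le_mul_right le_add_self _
  · calc (a + b) ^ k ≤ (2 * a) ^ k := by
          apply pow_le_pow_left' 
          rw [two_mul]
          exact add_le_add_right h _
      _ = 2 ^ k * a ^ k := mul_pow _ _ _
      _ ≤ _ := mul_le_mul_right le_self_add _

/-- bound for the part of the kernel far from the origin -/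
theorem tail {H : ℂ → ℂ} {N : ℕ} {D s : ℝ} (hs : 0 < s) (hN : 3 ≤ N) (hD : 0 ≤ D)
    (hH : ∀ x, ‖H x‖ * ‖x‖ ^ N ≤ D) :
    ∫⁻ x, (if s ≤ ‖x‖ then ‖H x‖ₑ else 0) ≤
      ENNReal.ofReal (8 * D * (s ^ N)⁻¹ * s ^ 2) *
        ∫⁻ x : ℂ, ENNReal.ofReal ((1 + ‖x‖) ^ (-(3 : ℝ))) := by
  have h1 : ∀ x, (if s ≤ ‖x‖ then ‖H x‖ₑ else 0) ≤ ENNReal.ofReal (8 * D * (s ^ N)⁻¹) *
      ENNReal.ofReal ((1 + ‖s⁻¹ • x‖) ^ (-(3 : ℝ))) := by
    intro x
    by_cases hx : s ≤ ‖x‖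
    · rw [if_pos hx, ← ofReal_norm, ← ENNReal.ofReal_mul (by positivity)]
      apply ENNReal.ofReal_le_ofReal
      rw [norm_smul, norm_inv, Real.norm_of_nonneg hs.le]
      have e : (1 + s⁻¹ * ‖x‖) ^ (-(3 : ℝ)) = ((1 + s⁻¹ * ‖x‖) ^ 3)⁻¹ := by
        rw [Real.rpow_neg (by positivity)]
        norm_cast
      rw [e]
      have hx0 : 0 < ‖x‖ := hs.trans_le hx
      have h3 : s ^ N * (1 + s⁻¹ * ‖x‖) ^ 3 ≤ 8 * ‖x‖ ^ N := by
        obtain ⟨M, rfl⟩ : ∃ M, N = M + 3 := ⟨N - 3, by omega⟩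
        have e2 : s ^ (M + 3) * (1 + s⁻¹ * ‖x‖) ^ 3 = s ^ M * (s + ‖x‖) ^ 3 := by
          rw [pow_add, mul_assoc, ← mul_pow]
          congr 2
          field_simp
        rw [e2, pow_add]
        calc s ^ M * (s + ‖x‖) ^ 3 ≤ ‖x‖ ^ M * (‖x‖ + ‖x‖) ^ 3 := by gcongr
          _ = 8 * (‖x‖ ^ M * ‖x‖ ^ 3) := by ring
      have h4 : ‖H x‖ * (s ^ N * (1 + s⁻¹ * ‖x‖) ^ 3) ≤ 8 * D := by
        calc ‖H x‖ * (s ^ N * (1 + s⁻¹ * ‖x‖) ^ 3) ≤ ‖H x‖ * (8 * ‖x‖ ^ N) := by gcongr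
          _ = 8 * (‖H x‖ * ‖x‖ ^ N) := by ring
          _ ≤ 8 * D := by linarith [hH x]
      rw [mul_assoc (8 * D), ← mul_inv, ← div_eq_mul_inv, le_div_iff₀ (by positivity)]
      exact h4
    · rw [if_neg hx]
      exact zero_le
  have hm : Measurable fun x : ℂ => ENNReal.ofReal ((1 + ‖x‖) ^ (-(3 : ℝ))) := by
    fun_prop
  have h2 : ∫⁻ x : ℂ, ENNReal.ofReal ((1 + ‖s⁻¹ • x‖) ^ (-(3 : ℝ))) =
      ENNReal.ofReal (s ^ 2) * ∫⁻ x : ℂ, ENNReal.ofReal ((1 + ‖x‖) ^ (-(3 : ℝ))) := by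
    have e1 := Measure.map_addHaar_smul (volume : Measure ℂ) (inv_ne_zero hs.ne')
    have e2 : ∫⁻ x : ℂ, ENNReal.ofReal ((1 + ‖s⁻¹ • x‖) ^ (-(3 : ℝ))) =
        ∫⁻ x : ℂ, ENNReal.ofReal ((1 + ‖x‖) ^ (-(3 : ℝ)))
          ∂(Measure.map (fun x : ℂ => s⁻¹ • x) volume) := by
      rw [lintegral_map hm (measurable_const_smul s⁻¹)]
    rw [e2, e1, lintegral_smul_measure, Complex.finrank_real_complex, smul_eq_mul]
    congr 2
    rw [inv_pow, inv_inv, abs_of_pos (by positivity)]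
  refine (lintegral_mono h1).trans (le_of_eq ?_)
  rw [lintegral_const_mul _ (by fun_prop), h2, ← mul_assoc, ← ENNReal.ofReal_mul (by positivity)]

theorem ball_meas {G : ℂ → ℝ≥0∞} (hG : Measurable G) (r : ℝ) :
    Measurable fun y => ∫⁻ x in Metric.ball y r, G x := by
  have hm : Measurable (Function.uncurry fun y x : ℂ => if dist x y < r then G x else 0) := by
    refine Measurable.ite ?_ (hG.comp measurable_snd) measurable_const
    exact measurableSet_lt (measurable_snd.dist measurable_fst) measurable_const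
  have h1 : (fun y => ∫⁻ x in Metric.ball y r, G x) =
      fun y => ∫⁻ x, (if dist x y < r then G x else 0) := by
    funext y
    rw [← lintegral_indicator Metric.isOpen_ball.measurableSet]
    refine lintegral_congr fun x => ?_
    by_cases h : dist x y < r
    · rw [if_pos h, Set.indicator_of_mem (Metric.mem_ball.2 h)]
    · rw [if_neg h, Set.indicator_of_notMem (fun h' => h (Metric.mem_ball.1 h'))]
  rw [h1]
  exact hm.lintegral_prod_right'

/-! ### The main estimate -/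

theorem core {m : ℕ} (hm : 1 ≤ m) {H f F : ℂ → ℂ} {s ρ : ℝ} (hρ : 0 < ρ) (hρs : ρ ≤ s)
    (hH : Measurable H) (hf : Measurable f)
    (hint : ∀ z, Integrable (fun w => H (z - w) * f w))
    (hF : ∀ z, F z = ∫ w, H (z - w) * f w)
    (hpl : ∀ y, ∫⁻ z, ‖∫ w, H (z - w) * (Metric.ball y (3 * s)).indicator f w‖ₑ ^ 2 ≤
      ∫⁻ w in Metric.ball y (3 * s), ‖f w‖ₑ ^ 2) :
    ∫⁻ x, (av ρ (fun z => ‖F z‖ₑ ^ 2) x) ^ m ≤
      8 ^ m * ((volume (Metric.ball (0 : ℂ) s))⁻¹ * ((volume (Metric.ball (0 : ℂ) ρ))⁻¹ ^ (m - 1) *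
        volume (Metric.ball (0 : ℂ) (3 * s)) ^ m) * Nm m f +
        (∫⁻ x, (if s ≤ ‖x‖ then ‖H x‖ₑ else 0)) ^ (2 * m) * Nm m f) := by
  have hs : 0 < s := hρ.trans_le hρs
  have hf2 : Measurable fun z => ‖f z‖ₑ := hf.enorm
  obtain ⟨k, hkdef⟩ : ∃ k : ℂ → ℝ≥0∞, k = fun x => if s ≤ ‖x‖ then ‖H x‖ₑ else 0 := ⟨_, rfl⟩
  have hk : Measurable k := by
    rw [hkdef]
    exact Measurable.ite (measurableSet_le measurable_const measurable_norm) hH.enorm
      measurable_const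
  obtain ⟨E, hEdef⟩ : ∃ E : ℂ → ℝ≥0∞, E = fun z => ∫⁻ w, k (z - w) * ‖f w‖ₑ := ⟨_, rfl⟩
  have hE : Measurable E := by
    rw [hEdef]
    exact Measurable.lintegral_prod_right' (f := fun p : ℂ × ℂ => k (p.1 - p.2) * ‖f p.2‖ₑ)
      ((hk.comp (measurable_fst.sub measurable_snd)).mul (hf2.comp measurable_snd))
  obtain ⟨Ny, hNdef⟩ : ∃ Ny : ℂ → ℂ → ℂ, Ny = fun y z =>
    ∫ w, H (z - w) * (Metric.ball y (3 * s)).indicator f w := ⟨_, rfl⟩
  have hpar : ∀ g : ℂ → ℂ, Measurable g → Measurable fun z => ∫ w, H (z - w) * g w := by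
    intro g hg
    have h1 : Measurable (Function.uncurry fun z w : ℂ => H (z - w) * g w) :=
      (hH.comp (measurable_fst.sub measurable_snd)).mul (hg.comp measurable_snd)
    exact h1.stronglyMeasurable.integral_prod_right.measurable
  have hNy : ∀ y, Measurable (Ny y) := by
    intro y
    rw [hNdef]
    exact hpar _ (hf.indicator Metric.isOpen_ball.measurableSet)
  have hFm : Measurable F := by
    have : F = fun z => ∫ w, H (z - w) * f w := funext hF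
    rw [this]
    exact hpar f hf
  have hA : ∀ y z, dist z y < 2 * s → ‖F z‖ₑ ≤ ‖Ny y z‖ₑ + E z := by
    intro y z hyz
    have hb : MeasurableSet (Metric.ball y (3 * s)) := Metric.isOpen_ball.measurableSet
    have e1 : (fun w => H (z - w) * (Metric.ball y (3 * s)).indicator f w) =
        (Metric.ball y (3 * s)).indicator (fun w => H (z - w) * f w) := by
      funext w
      by_cases hw : w ∈ Metric.ball y (3 * s)
      · rw [Set.indicator_of_mem hw, Set.indicator_of_mem hw]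
      · rw [Set.indicator_of_notMem hw, Set.indicator_of_notMem hw, mul_zero]
    have e2 : F z = Ny y z + ∫ w in (Metric.ball y (3 * s))ᶜ, H (z - w) * f w := by
      rw [hF, hNdef]
      simp only
      rw [e1, integral_indicator hb, integral_add_compl hb (hint z)]
    rw [e2]
    refine (enorm_add_le _ _).trans (add_le_add le_rfl ?_)
    calc ‖∫ w in (Metric.ball y (3 * s))ᶜ, H (z - w) * f w‖ₑ
        ≤ ∫⁻ w in (Metric.ball y (3 * s))ᶜ, ‖H (z - w) * f w‖ₑ :=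
          enorm_integral_le_lintegral_enorm _
      _ ≤ ∫⁻ w in (Metric.ball y (3 * s))ᶜ, k (z - w) * ‖f w‖ₑ := by
          refine setLIntegral_mono' hb.compl fun w hw => ?_
          have h1 : 3 * s ≤ dist w y := by
            by_contra h
            exact hw (Metric.mem_ball.2 (not_le.1 h))
          have h2 : s ≤ ‖z - w‖ := by
            have h3 := dist_triangle w z y
            rw [dist_comm w z, dist_eq_norm z w] at h3
            linarith
          rw [enorm_mul, hkdef]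
          simp only
          rw [if_pos h2]
      _ ≤ E z := by
          rw [hEdef]
          exact setLIntegral_le_lintegral _ _
  have hB : ∀ y x, x ∈ Metric.ball y s → (av ρ (fun z => ‖F z‖ₑ ^ 2) x) ^ m ≤
      8 ^ m * ((av ρ (fun z => ‖Ny y z‖ₑ ^ 2) x) ^ m + (av ρ (fun z => E z ^ 2) x) ^ m) := by
    intro y x hx
    have h1 : av ρ (fun z => ‖F z‖ₑ ^ 2) x ≤
        4 * (av ρ (fun z => ‖Ny y z‖ₑ ^ 2) x + av ρ (fun z => E z ^ 2) x) := by
      have h2 : ∫⁻ u in Metric.ball (0 : ℂ) ρ, ‖F (x + u)‖ₑ ^ 2 ≤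
          4 * ((∫⁻ u in Metric.ball (0 : ℂ) ρ, ‖Ny y (x + u)‖ₑ ^ 2) +
            ∫⁻ u in Metric.ball (0 : ℂ) ρ, E (x + u) ^ 2) := by
        have hadd : Measurable fun u : ℂ => x + u := measurable_const.add measurable_id
        have m1 : Measurable fun u => ‖Ny y (x + u)‖ₑ ^ 2 :=
          (((hNy y).comp hadd).enorm).pow_const 2
        have m2 : Measurable fun u => E (x + u) ^ 2 := (hE.comp hadd).pow_const 2
        have m12 : Measurable fun u => ‖Ny y (x + u)‖ₑ ^ 2 + E (x + u) ^ 2 := m1.add m2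
        rw [← lintegral_add_left m1, ← lintegral_const_mul _ m12]
        refine setLIntegral_mono' Metric.isOpen_ball.measurableSet fun u hu => ?_
        have h3 : dist (x + u) y < 2 * s := by
          have h4 : dist (x + u) y ≤ ‖u‖ + dist x y := by
            rw [dist_eq_norm, dist_eq_norm]
            have : x + u - y = u + (x - y) := by ring
            rw [this]
            exact norm_add_le _ _
          rw [mem_ball_zero_iff] at hu
          rw [Metric.mem_ball] at hx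
          linarith
        calc ‖F (x + u)‖ₑ ^ 2 ≤ (‖Ny y (x + u)‖ₑ + E (x + u)) ^ 2 :=
              pow_le_pow_left' (hA y (x + u) h3) 2
          _ ≤ 2 ^ 2 * (‖Ny y (x + u)‖ₑ ^ 2 + E (x + u) ^ 2) := two_pow _ _ 2
          _ = 4 * (‖Ny y (x + u)‖ₑ ^ 2 + E (x + u) ^ 2) := by norm_num
      unfold av
      calc (volume (Metric.ball (0 : ℂ) ρ))⁻¹ * ∫⁻ u in Metric.ball (0 : ℂ) ρ, ‖F (x + u)‖ₑ ^ 2
          ≤ (volume (Metric.ball (0 : ℂ) ρ))⁻¹ *
            (4 * ((∫⁻ u in Metric.ball (0 : ℂ) ρ, ‖Ny y (x + u)‖ₑ ^ 2) +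
            ∫⁻ u in Metric.ball (0 : ℂ) ρ, E (x + u) ^ 2)) := mul_le_mul_right h2 _
        _ = _ := by ring
    calc (av ρ (fun z => ‖F z‖ₑ ^ 2) x) ^ m
        ≤ (4 * (av ρ (fun z => ‖Ny y z‖ₑ ^ 2) x + av ρ (fun z => E z ^ 2) x)) ^ m :=
          pow_le_pow_left' h1 m
      _ = 4 ^ m * (av ρ (fun z => ‖Ny y z‖ₑ ^ 2) x + av ρ (fun z => E z ^ 2) x) ^ m :=
          mul_pow _ _ _
      _ ≤ 4 ^ m * (2 ^ m * ((av ρ (fun z => ‖Ny y z‖ₑ ^ 2) x) ^ m +
          (av ρ (fun z => E z ^ 2) x) ^ m)) := mul_le_mul_right (two_pow _ _ m) _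
      _ = _ := by
          rw [← mul_assoc, ← mul_pow]
          norm_num
  have hC : ∀ y, ∫⁻ x, (av ρ (fun z => ‖Ny y z‖ₑ ^ 2) x) ^ m ≤
      (volume (Metric.ball (0 : ℂ) ρ))⁻¹ ^ (m - 1) *
        (volume (Metric.ball (0 : ℂ) (3 * s)) ^ (m - 1) *
          ∫⁻ w in Metric.ball y (3 * s), ‖f w‖ₑ ^ (2 * m)) := by
    intro y
    obtain ⟨I, hI⟩ : ∃ I, I = ∫⁻ w in Metric.ball y (3 * s), ‖f w‖ₑ ^ 2 := ⟨_, rfl⟩
    have hp : ∫⁻ z, ‖Ny y z‖ₑ ^ 2 ≤ I := by
      rw [hI, hNdef]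
      exact hpl y
    have mN : Measurable fun z => ‖Ny y z‖ₑ ^ 2 := ((hNy y).enorm).pow_const 2
    have h1 : ∀ x, av ρ (fun z => ‖Ny y z‖ₑ ^ 2) x ≤ (volume (Metric.ball (0 : ℂ) ρ))⁻¹ * I :=
      fun x => (av_le ρ x).trans (mul_le_mul_right hp _)
    have hmm : m - 1 + 1 = m := Nat.sub_add_cancel hm
    calc ∫⁻ x, (av ρ (fun z => ‖Ny y z‖ₑ ^ 2) x) ^ m
        ≤ ∫⁻ x, ((volume (Metric.ball (0 : ℂ) ρ))⁻¹ * I) ^ (m - 1) *
          av ρ (fun z => ‖Ny y z‖ₑ ^ 2) x := by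
          refine lintegral_mono fun x => ?_
          have : (av ρ (fun z => ‖Ny y z‖ₑ ^ 2) x) ^ m =
              (av ρ (fun z => ‖Ny y z‖ₑ ^ 2) x) ^ (m - 1) * av ρ (fun z => ‖Ny y z‖ₑ ^ 2) x := by
            rw [← pow_succ, hmm]
          rw [this]
          exact mul_le_mul_left (pow_le_pow_left' (h1 x) _) _
      _ = ((volume (Metric.ball (0 : ℂ) ρ))⁻¹ * I) ^ (m - 1) * ∫⁻ z, ‖Ny y z‖ₑ ^ 2 := by
          rw [lintegral_const_mul _ (av_meas mN ρ), av_int mN hρ]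
      _ ≤ ((volume (Metric.ball (0 : ℂ) ρ))⁻¹ * I) ^ (m - 1) * I := mul_le_mul_right hp _
      _ = (volume (Metric.ball (0 : ℂ) ρ))⁻¹ ^ (m - 1) * I ^ m := by
          rw [mul_pow, mul_assoc, ← pow_succ, hmm]
      _ ≤ _ := by
          refine mul_le_mul_right ?_ _
          have h2 := holder (volume.restrict (Metric.ball y (3 * s))) (hf2.pow_const 2) m hm
          rw [Measure.restrict_apply_univ, Measure.addHaar_ball_center, ← hI] at h2
          simp only [← pow_mul] at h2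
          exact h2
  have hD : ∫⁻ x, (av ρ (fun z => E z ^ 2) x) ^ m ≤ (∫⁻ x, k x) ^ (2 * m) * Nm m f := by
    calc ∫⁻ x, (av ρ (fun z => E z ^ 2) x) ^ m
        ≤ ∫⁻ x, av ρ (fun z => (E z ^ 2) ^ m) x :=
          lintegral_mono fun x => av_pow (hE.pow_const 2) hρ m hm x
      _ = ∫⁻ z, (E z ^ 2) ^ m := av_int ((hE.pow_const 2).pow_const m) hρ
      _ = ∫⁻ z, (∫⁻ w, k (z - w) * ‖f w‖ₑ) ^ (2 * m) := by
          refine lintegral_congr fun z => ?_
          rw [← pow_mul, hEdef]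
      _ ≤ _ := young hk hf2 (2 * m) (by omega)
  -- conclusion
  have hG : Measurable fun x => (av ρ (fun z => ‖F z‖ₑ ^ 2) x) ^ m :=
    (av_meas ((hFm.enorm).pow_const 2) ρ).pow_const m
  have hG2 : Measurable fun x => (av ρ (fun z => E z ^ 2) x) ^ m :=
    (av_meas (hE.pow_const 2) ρ).pow_const m
  have hG3 : Measurable fun w => ‖f w‖ₑ ^ (2 * m) := hf2.pow_const _
  have hV : (volume (Metric.ball (0 : ℂ) s))⁻¹ * volume (Metric.ball (0 : ℂ) s) = 1 :=
    ENNReal.inv_mul_cancel (V_ne_zero hs) (V_ne_top s)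
  have hst : ∀ y, ∫⁻ x in Metric.ball y s, (av ρ (fun z => ‖F z‖ₑ ^ 2) x) ^ m ≤
      8 ^ m * ((volume (Metric.ball (0 : ℂ) ρ))⁻¹ ^ (m - 1) *
        (volume (Metric.ball (0 : ℂ) (3 * s)) ^ (m - 1) *
          ∫⁻ w in Metric.ball y (3 * s), ‖f w‖ₑ ^ (2 * m)) +
        ∫⁻ x in Metric.ball y s, (av ρ (fun z => E z ^ 2) x) ^ m) := by
    intro y
    have m1 : Measurable fun x => (av ρ (fun z => ‖Ny y z‖ₑ ^ 2) x) ^ m :=
      (av_meas (((hNy y).enorm).pow_const 2) ρ).pow_const m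
    calc ∫⁻ x in Metric.ball y s, (av ρ (fun z => ‖F z‖ₑ ^ 2) x) ^ m
        ≤ ∫⁻ x in Metric.ball y s, 8 ^ m * ((av ρ (fun z => ‖Ny y z‖ₑ ^ 2) x) ^ m +
          (av ρ (fun z => E z ^ 2) x) ^ m) :=
          setLIntegral_mono' Metric.isOpen_ball.measurableSet fun x hx => hB y x hx
      _ = 8 ^ m * ((∫⁻ x in Metric.ball y s, (av ρ (fun z => ‖Ny y z‖ₑ ^ 2) x) ^ m) +
          ∫⁻ x in Metric.ball y s, (av ρ (fun z => E z ^ 2) x) ^ m) := by
          have m12 : Measurable fun x => (av ρ (fun z => ‖Ny y z‖ₑ ^ 2) x) ^ m +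
            (av ρ (fun z => E z ^ 2) x) ^ m := m1.add hG2
          rw [lintegral_const_mul _ m12, lintegral_add_left m1]
      _ ≤ _ := by
          refine mul_le_mul_right (add_le_add ?_ le_rfl) _
          exact (setLIntegral_le_lintegral _ _).trans (hC y)
  calc ∫⁻ x, (av ρ (fun z => ‖F z‖ₑ ^ 2) x) ^ m
      = (volume (Metric.ball (0 : ℂ) s))⁻¹ *
        ∫⁻ y, ∫⁻ x in Metric.ball y s, (av ρ (fun z => ‖F z‖ₑ ^ 2) x) ^ m := by
        rw [avgball hG, ← mul_assoc, hV, one_mul]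
    _ ≤ (volume (Metric.ball (0 : ℂ) s))⁻¹ *
        ∫⁻ y, 8 ^ m * ((volume (Metric.ball (0 : ℂ) ρ))⁻¹ ^ (m - 1) *
        (volume (Metric.ball (0 : ℂ) (3 * s)) ^ (m - 1) *
          ∫⁻ w in Metric.ball y (3 * s), ‖f w‖ₑ ^ (2 * m)) +
        ∫⁻ x in Metric.ball y s, (av ρ (fun z => E z ^ 2) x) ^ m) :=
        mul_le_mul_right (lintegral_mono hst) _
    _ = (volume (Metric.ball (0 : ℂ) s))⁻¹ *
        (8 ^ m * ((volume (Metric.ball (0 : ℂ) ρ))⁻¹ ^ (m - 1) *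
        (volume (Metric.ball (0 : ℂ) (3 * s)) ^ (m - 1) *
          (volume (Metric.ball (0 : ℂ) (3 * s)) * Nm m f)) +
        volume (Metric.ball (0 : ℂ) s) * ∫⁻ x, (av ρ (fun z => E z ^ 2) x) ^ m)) := by
        have m3 := ball_meas hG3 (3 * s)
        have m4 := ball_meas hG2 s
        have m5 : Measurable fun y => volume (Metric.ball (0 : ℂ) (3 * s)) ^ (m - 1) *
          ∫⁻ w in Metric.ball y (3 * s), ‖f w‖ₑ ^ (2 * m) := m3.const_mul _
        have m6 : Measurable fun y => (volume (Metric.ball (0 : ℂ) ρ))⁻¹ ^ (m - 1) *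
          (volume (Metric.ball (0 : ℂ) (3 * s)) ^ (m - 1) *
          ∫⁻ w in Metric.ball y (3 * s), ‖f w‖ₑ ^ (2 * m)) := m5.const_mul _
        have m7 : Measurable fun y => (volume (Metric.ball (0 : ℂ) ρ))⁻¹ ^ (m - 1) *
          (volume (Metric.ball (0 : ℂ) (3 * s)) ^ (m - 1) *
          ∫⁻ w in Metric.ball y (3 * s), ‖f w‖ₑ ^ (2 * m)) +
          ∫⁻ x in Metric.ball y s, (av ρ (fun z => E z ^ 2) x) ^ m := m6.add m4
        rw [lintegral_const_mul _ m7, lintegral_add_left m6, lintegral_const_mul _ m5,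
          lintegral_const_mul _ m3, avgball hG3, avgball hG2]
        rfl
    _ = 8 ^ m * ((volume (Metric.ball (0 : ℂ) s))⁻¹ *
        ((volume (Metric.ball (0 : ℂ) ρ))⁻¹ ^ (m - 1) *
          (volume (Metric.ball (0 : ℂ) (3 * s)) ^ (m - 1) *
          volume (Metric.ball (0 : ℂ) (3 * s)))) * Nm m f +
        ((volume (Metric.ball (0 : ℂ) s))⁻¹ * volume (Metric.ball (0 : ℂ) s)) *
          ∫⁻ x, (av ρ (fun z => E z ^ 2) x) ^ m) := by ring
    _ ≤ _ := by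
        rw [hV, one_mul, ← pow_succ, Nat.sub_add_cancel hm, ← hkdef]
        exact mul_le_mul_right (add_le_add le_rfl hD) _

theorem bd_Tn {a b : ℝ} {h : ℂ → ℂ} (ha : 0 < a) (hh : Bd a b h) (n : ℕ) : Bd 0 b (Tn n h) := by
  refine ⟨?_, fun ξ hξ => ⟨norm_nonneg _, ?_⟩⟩
  · rw [contDiff_iff_contDiffAt]
    intro ξ
    by_cases h0 : ξ = 0
    · have h1 : Tn n h =ᶠ[𝓝 ξ] fun _ => 0 := by
        rw [h0]
        filter_upwards [Metric.ball_mem_nhds (0 : ℂ) ha] with z hz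
        unfold Tn
        have h2 : h z = 0 := by
          by_contra hne
          have := (hh.2 z hne).1
          rw [mem_ball_zero_iff] at hz
          linarith
        rw [h2, mul_zero]
      exact contDiffAt_const.congr_of_eventuallyEq h1
    · have hc : ContDiffAt ℝ ∞ (fun z : ℂ => conj z) ξ := Complex.conjCLE.contDiff.contDiffAt
      have hi : ContDiffAt ℝ ∞ (fun z : ℂ => z⁻¹) ξ := contDiffAt_id.inv h0
      have hd : ContDiffAt ℝ ∞ (fun z : ℂ => (conj z / z) ^ n) ξ := by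
        simp only [div_eq_mul_inv]
        exact (hc.mul hi).pow n
      exact hd.mul hh.1.contDiffAt
  · have h1 : h ξ ≠ 0 := fun h0 => hξ (by unfold Tn; rw [h0, mul_zero])
    exact (hh.2 ξ h1).2

theorem vol {T : ℝ} (hT : 0 < T) :
    volume (Metric.ball (0 : ℂ) T) = ENNReal.ofReal (Real.pi * T ^ 2) := by
  rw [Complex.volume_ball, ENNReal.ofReal_mul Real.pi_pos.le, ENNReal.ofReal_pow hT.le, mul_comm]
  congr 1
  rw [← NNReal.coe_real_pi, ENNReal.ofReal_coe_nnreal]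

theorem vol_num {s ρ : ℝ} (hs : 0 < s) (hρ : 0 < ρ) {m : ℕ} (hm : 1 ≤ m) :
    (volume (Metric.ball (0 : ℂ) s))⁻¹ * ((volume (Metric.ball (0 : ℂ) ρ))⁻¹ ^ (m - 1) *
      volume (Metric.ball (0 : ℂ) (3 * s)) ^ m) =
      ENNReal.ofReal (9 ^ m * (s / ρ) ^ (2 * m - 2)) := by
  have hpi := Real.pi_pos
  obtain ⟨M, rfl⟩ : ∃ M, m = M + 1 := ⟨m - 1, by omega⟩
  have e1 : M + 1 - 1 = M := by omega
  have e2 : 2 * (M + 1) - 2 = 2 * M := by omega
  rw [e1, e2, vol hs, vol hρ, vol (by positivity : 0 < 3 * s),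
    ← ENNReal.ofReal_inv_of_pos (by positivity), ← ENNReal.ofReal_inv_of_pos (by positivity),
    ← ENNReal.ofReal_pow (by positivity), ← ENNReal.ofReal_pow (by positivity),
    ← ENNReal.ofReal_mul (by positivity), ← ENNReal.ofReal_mul (by positivity)]
  congr 1
  have e3 : (Real.pi * (3 * s) ^ 2) ^ (M + 1) =
      9 ^ (M + 1) * (Real.pi * s ^ 2) ^ M * (Real.pi * s ^ 2) := by
    have : Real.pi * (3 * s) ^ 2 = 9 * (Real.pi * s ^ 2) := by ring
    rw [this, mul_pow]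
    ring
  have e4 : (Real.pi * ρ ^ 2)⁻¹ ^ M * (Real.pi * s ^ 2) ^ M = (s / ρ) ^ (2 * M) := by
    rw [← mul_pow, pow_mul]
    congr 1
    field_simp
  have e5 : (Real.pi * s ^ 2)⁻¹ * (Real.pi * s ^ 2) = 1 := inv_mul_cancel₀ (by positivity)
  rw [e3, ← e4]
  calc (Real.pi * s ^ 2)⁻¹ * ((Real.pi * ρ ^ 2)⁻¹ ^ M *
        (9 ^ (M + 1) * (Real.pi * s ^ 2) ^ M * (Real.pi * s ^ 2)))
      = ((Real.pi * s ^ 2)⁻¹ * (Real.pi * s ^ 2)) *
        (9 ^ (M + 1) * ((Real.pi * ρ ^ 2)⁻¹ ^ M * (Real.pi * s ^ 2) ^ M)) := by ring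
    _ = _ := by rw [e5, one_mul]

theorem num {n N : ℕ} {a b s σ C : ℝ} (hn : 1 ≤ n) (ha : 0 < a) (hb : 0 < b) (hbn : b ≤ a * n)
    (hσ : 0 < σ) (hs : s = (n : ℝ) ^ (1 + σ) / a) (hN : (4 + 2 * σ) / σ + 3 ≤ N) (hC : 0 ≤ C) :
    8 * (C * (b ^ 2 * ((n : ℝ) / a) ^ N)) * (s ^ N)⁻¹ * s ^ 2 ≤ 8 * C := by
  have hn0 : (1 : ℝ) ≤ n := by exact_mod_cast hn
  have hnp : (0 : ℝ) < n := by linarith
  obtain ⟨x, hx⟩ : ∃ x, x = (n : ℝ) ^ σ := ⟨_, rfl⟩
  have hx0 : 0 < x := by rw [hx]; positivity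
  have hsx : s = (n : ℝ) / a * x := by
    rw [hs, hx, Real.rpow_add hnp, Real.rpow_one]
    ring
  have hN2 : 2 ≤ N := by
    have h1 : 0 ≤ (4 + 2 * σ) / σ := by positivity
    have h2 : (2 : ℝ) ≤ N := by linarith
    exact_mod_cast h2
  obtain ⟨M, rfl⟩ : ∃ M, N = M + 2 := ⟨N - 2, by omega⟩
  have hM : (n : ℝ) ^ 4 ≤ x ^ M := by
    have h1 : (4 : ℝ) ≤ σ * M := by
      push_cast at hN
      have h2 : (4 + 2 * σ) / σ ≤ M := by linarith
      rw [div_le_iff₀ hσ] at h2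
      linarith
    have h3 : (n : ℝ) ^ (4 : ℝ) ≤ (n : ℝ) ^ (σ * M) := Real.rpow_le_rpow_of_exponent_le hn0 h1
    rw [Real.rpow_mul hnp.le, ← hx, Real.rpow_natCast] at h3
    have h4 : (n : ℝ) ^ (4 : ℝ) = (n : ℝ) ^ 4 := by
      rw [← Real.rpow_natCast]
      norm_num
    rw [← h4]
    exact h3
  have e1 : ((n : ℝ) / a) ^ (M + 2) * (s ^ (M + 2))⁻¹ = (x ^ (M + 2))⁻¹ := by
    rw [hsx, mul_pow, mul_inv, ← mul_assoc, mul_inv_cancel₀ (by positivity), one_mul]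
  have e2 : b ^ 2 * s ^ 2 ≤ x ^ (M + 2) := by
    have h1 : b * s ≤ (n : ℝ) ^ 2 * x := by
      calc b * s ≤ (a * n) * ((n : ℝ) / a * x) := by
            rw [hsx]
            exact mul_le_mul_of_nonneg_right hbn (by positivity)
        _ = (n : ℝ) ^ 2 * x := by
            field_simp
    have h2 : 0 ≤ b * s := by
      rw [hsx]
      positivity
    calc b ^ 2 * s ^ 2 = (b * s) ^ 2 := by ring
      _ ≤ ((n : ℝ) ^ 2 * x) ^ 2 := pow_le_pow_left₀ h2 h1 2
      _ = (n : ℝ) ^ 4 * x ^ 2 := by ring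
      _ ≤ x ^ M * x ^ 2 := mul_le_mul_of_nonneg_right hM (by positivity)
      _ = x ^ (M + 2) := by rw [pow_add]
  have e3 : b ^ 2 * s ^ 2 * (x ^ (M + 2))⁻¹ ≤ 1 := by
    rw [← div_eq_mul_inv, div_le_one (by positivity)]
    exact e2
  calc 8 * (C * (b ^ 2 * ((n : ℝ) / a) ^ (M + 2))) * (s ^ (M + 2))⁻¹ * s ^ 2
      = 8 * C * (b ^ 2 * s ^ 2 * (((n : ℝ) / a) ^ (M + 2) * (s ^ (M + 2))⁻¹)) := by ring
    _ = 8 * C * (b ^ 2 * s ^ 2 * (x ^ (M + 2))⁻¹) := by rw [e1]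
    _ ≤ 8 * C * 1 := mul_le_mul_of_nonneg_left e3 (by positivity)
    _ = 8 * C := mul_one _

theorem t (h1 : Pool.Agent.N892.BW.S_BAS) (h2 : Pool.Agent.N892.BW.S_CNV)
    (h3 : Pool.Agent.N892.BW.S_PLT) (h4 : Pool.Agent.N892.BW.S_HKD) :
    Pool.Agent.N892.BW.S_GAA := by
  intro m σ hm hσ
  obtain ⟨N, hN⟩ := exists_nat_ge ((4 + 2 * σ) / σ + 3)
  obtain ⟨C, hC, hHK⟩ := h4 N
  obtain ⟨K, hK⟩ : ∃ K : ℝ≥0∞, K = ∫⁻ x : ℂ, ENNReal.ofReal ((1 + ‖x‖) ^ (-(3 : ℝ))) := ⟨_, rfl⟩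
  have hKtop : K ≠ ⊤ := by
    rw [hK]
    exact (finite_integral_one_add_norm (by rw [Complex.finrank_real_complex]; norm_num)).ne
  refine ⟨8 ^ m * (9 ^ m + (8 * C * K.toReal) ^ (2 * m)), by positivity, ?_⟩
  intro n a b ρ h hn ha hab hbn hρ1 hρ2 hh
  have hb : 0 < b := ha.trans_le hab
  have hρ : 0 < ρ := (by positivity : 0 < 1 / a).trans_le hρ1
  obtain ⟨s, hs⟩ : ∃ s, s = (n : ℝ) ^ (1 + σ) / a := ⟨_, rfl⟩
  rw [← hs] at hρ2
  have hs0 : 0 < s := hρ.trans_le hρ2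
  obtain ⟨η, hη1, hη2, hη3, hη4⟩ := hHK n a b hn ha hab
  have hμ : Bd 0 (2 * b) (Tn n η) := bd_Tn (by positivity) hη1 n
  have hh2 : Bd 0 (2 * b) h :=
    ⟨hh.1, fun ξ hξ => ⟨norm_nonneg _, ((hh.2 ξ hξ).2).trans (by linarith)⟩⟩
  obtain ⟨bH1, -, bH3, -, -⟩ := h1 (2 * b) (Tn n η) hμ
  obtain ⟨bf1, -, bf3, -, -⟩ := h1 (2 * b) h hh2
  have hTn : Tn n h = fun ξ => Tn n η ξ * h ξ := by
    funext ξ
    unfold Tn
    by_cases h0 : h ξ = 0
    · rw [h0, mul_zero, mul_zero]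
    · have := hh.2 ξ h0
      rw [hη3 ξ this.1 this.2, mul_one]
  have hcv := h2 (2 * b) (Tn n η) h hμ hh2
  have hpl : ∀ y, ∫⁻ z, ‖∫ w, Fi (Tn n η) (z - w) *
      (Metric.ball y (3 * s)).indicator (Fi h) w‖ₑ ^ 2 ≤
      ∫⁻ w in Metric.ball y (3 * s), ‖Fi h w‖ₑ ^ 2 := by
    intro y
    have hb' : MeasurableSet (Metric.ball y (3 * s)) := Metric.isOpen_ball.measurableSet
    have hnic : Nic2 ((Metric.ball y (3 * s)).indicator (Fi h)) := by
      obtain ⟨M, hM⟩ := bf3.2.2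
      exact ⟨bf3.1.indicator hb', bf3.2.1.indicator hb', M, fun x =>
        (norm_indicator_le_norm_self _ _).trans (hM x)⟩
    have h6 : ∀ ξ, ∑ i ∈ Finset.range 1, ‖(fun _ : ℕ => Tn n η) i ξ‖ ^ 2 ≤ (1 : ℝ) := by
      intro ξ
      rw [Finset.sum_range_one]
      have h7 : ‖Tn n η ξ‖ ≤ 1 := by
        unfold Tn sy
        rw [norm_mul, norm_pow, norm_div, RCLike.norm_conj]
        have h8 : ‖ξ‖ / ‖ξ‖ ≤ 1 := div_self_le_one _
        calc (‖ξ‖ / ‖ξ‖) ^ n * ‖η ξ‖ ≤ 1 * 1 :=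
              mul_le_mul (pow_le_one₀ (by positivity) h8) (hη2 ξ) (norm_nonneg _) zero_le_one
          _ = 1 := one_mul 1
      exact pow_le_one₀ (norm_nonneg _) h7
    have h5 := h3 (2 * b) 1 (fun _ => Tn n η) 1 (fun _ => hμ) h6 _ hnic
    rw [Finset.sum_range_one, ENNReal.ofReal_one, one_mul] at h5
    refine h5.trans (le_of_eq ?_)
    rw [← lintegral_indicator hb']
    refine lintegral_congr fun x => ?_
    by_cases hx : x ∈ Metric.ball y (3 * s)
    · rw [Set.indicator_of_mem hx, Set.indicator_of_mem hx]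
    · rw [Set.indicator_of_notMem hx, Set.indicator_of_notMem hx, enorm_zero,
        zero_pow two_ne_zero]
  have hcore := core (m := m) (by omega) (H := Fi (Tn n η)) (f := Fi h) (F := Fi (Tn n h)) hρ hρ2
    bH1.measurable bf3.1 (fun z => (hcv z).1) (fun z => by rw [hTn]; exact (hcv z).2) hpl
  have hN3 : 3 ≤ N := by
    have h5 : 0 ≤ (4 + 2 * σ) / σ := by positivity
    have h6 : (3 : ℝ) ≤ N := by linarith
    exact_mod_cast h6
  have htail := tail (H := Fi (Tn n η)) hs0 hN3 (D := C * (b ^ 2 * ((n : ℝ) / a) ^ N))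
    (by positivity) hη4
  rw [← hK] at htail
  have htail2 : ∫⁻ x, (if s ≤ ‖x‖ then ‖Fi (Tn n η) x‖ₑ else 0) ≤
      ENNReal.ofReal (8 * C * K.toReal) := by
    refine htail.trans ?_
    rw [ENNReal.ofReal_mul (by positivity : 0 ≤ 8 * C), ENNReal.ofReal_toReal hKtop]
    exact mul_le_mul_left (ENNReal.ofReal_le_ofReal (num hn ha hb hbn hσ hs hN hC)) _
  refine hcore.trans ?_
  rw [vol_num hs0 hρ (by omega : 1 ≤ m)]
  have hr : 1 ≤ (s / ρ) ^ (2 * m - 2) := one_le_pow₀ ((one_le_div hρ).2 hρ2)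
  have e8 : (8 : ℝ≥0∞) ^ m = ENNReal.ofReal (8 ^ m) := by
    rw [ENNReal.ofReal_pow (by norm_num)]
    norm_num
  have hsr : (n : ℝ) ^ (1 + σ) / (a * ρ) = s / ρ := by rw [hs, div_div]
  rw [hsr, e8, ← add_mul, ← mul_assoc]
  refine mul_le_mul_left ?_ _
  calc ENNReal.ofReal (8 ^ m) * (ENNReal.ofReal (9 ^ m * (s / ρ) ^ (2 * m - 2)) +
        (∫⁻ x, (if s ≤ ‖x‖ then ‖Fi (Tn n η) x‖ₑ else 0)) ^ (2 * m))
      ≤ ENNReal.ofReal (8 ^ m) * (ENNReal.ofReal (9 ^ m * (s / ρ) ^ (2 * m - 2)) +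
        ENNReal.ofReal ((8 * C * K.toReal) ^ (2 * m))) := by
        refine mul_le_mul_right (add_le_add le_rfl ?_) _
        rw [ENNReal.ofReal_pow (by positivity)]
        exact pow_le_pow_left' htail2 _
    _ = ENNReal.ofReal (8 ^ m * (9 ^ m * (s / ρ) ^ (2 * m - 2) +
        (8 * C * K.toReal) ^ (2 * m))) := by
        rw [← ENNReal.ofReal_add (by positivity) (by positivity),
          ← ENNReal.ofReal_mul (by positivity)]
    _ ≤ _ := by
        apply ENNReal.ofReal_le_ofReal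
        have hq : 0 ≤ (8 * C * K.toReal) ^ (2 * m) := by positivity
        calc (8 : ℝ) ^ m * (9 ^ m * (s / ρ) ^ (2 * m - 2) + (8 * C * K.toReal) ^ (2 * m))
            ≤ 8 ^ m * (9 ^ m * (s / ρ) ^ (2 * m - 2) +
              (8 * C * K.toReal) ^ (2 * m) * (s / ρ) ^ (2 * m - 2)) := by
              gcongr
              exact le_mul_of_one_le_right hq hr
          _ = _ := by ring

end Pool.Agent.N892.BW.GAA
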