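import Pool.Agent.N892.BW.Stm3
import Pool.Agent.N892.BW.GAA

/-!
Powers of the Beurling transform, part GWT: gain for averages, with weights (helper562; the tiling and
several lemmas are those of GAA of helper591).
-/

set_option autoImplicit false

open MeasureTheory ENNReal Filter Topology Complex
open scoped ComplexConjugate ContDiff

namespace Pool.Agent.N892.BW.GWT

open Pool.Agent.N892.BW.GAA

theorem jensen {α : Type*} [MeasurableSpace α] (μ : Measure α) {w : α → ℝ≥0∞}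
    (hw : Measurable w) {t : ℝ} (ht : 1 ≤ t) {V : ℝ≥0∞} (hV0 : V ≠ 0) (hVt : V ≠ ⊤)
    (hμ : μ Set.univ ≤ V) :
    V⁻¹ * ∫⁻ x, w x ∂μ ≤ (V⁻¹ * ∫⁻ x, w x ^ t ∂μ) ^ (1 / t) := by
  rcases eq_or_lt_of_le ht with h | h
  · subst h
    simp
  · have ht0 : (0 : ℝ) < t := by linarith
    obtain ⟨q, hq⟩ : ∃ q : ℝ, q = t / (t - 1) := ⟨_, rfl⟩
    have hqi : 1 / q = 1 - 1 / t := by
      rw [hq, one_div, inv_div]
      field_simp
    have hq0 : 0 ≤ 1 / q := by
      rw [hqi, sub_nonneg, div_le_one ht0]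
      exact ht
    have hpq : t.HolderConjugate q := by
      rw [Real.holderConjugate_iff]
      refine ⟨h, ?_⟩
      rw [← one_div q, hqi]
      simp
    have h1 := ENNReal.lintegral_mul_le_Lp_mul_Lq μ hpq hw.aemeasurable
      (aemeasurable_const (b := (1 : ℝ≥0∞)))
    simp only [Pi.mul_apply, mul_one, ENNReal.one_rpow, lintegral_const, one_mul] at h1
    have h2 : (∫⁻ x, w x ^ t ∂μ) ^ (1 / t) * (μ Set.univ) ^ (1 / q) ≤
        (∫⁻ x, w x ^ t ∂μ) ^ (1 / t) * V ^ (1 / q) :=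
      mul_le_mul_right (ENNReal.rpow_le_rpow hμ hq0) _
    have h3 : V⁻¹ * V ^ (1 / q) = (V⁻¹) ^ (1 / t) := by
      rw [← ENNReal.rpow_neg_one, ← ENNReal.rpow_add _ _ hV0 hVt, ← ENNReal.rpow_mul, hqi]
      congr 1
      ring
    calc V⁻¹ * ∫⁻ x, w x ∂μ ≤ V⁻¹ * ((∫⁻ x, w x ^ t ∂μ) ^ (1 / t) * V ^ (1 / q)) :=
          mul_le_mul_right (h1.trans h2) _
      _ = (V⁻¹ * V ^ (1 / q)) * (∫⁻ x, w x ^ t ∂μ) ^ (1 / t) := by ring
      _ = _ := by rw [h3, ENNReal.mul_rpow_of_nonneg _ _ (by positivity : (0 : ℝ) ≤ 1 / t)]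

theorem av_jensen {w : ℂ → ℝ≥0∞} (hw : Measurable w) {t : ℝ} (ht : 1 ≤ t) {r : ℝ} (hr : 0 < r)
    (x : ℂ) : av r w x ≤ (av r (fun z => w z ^ t) x) ^ (1 / t) := by
  unfold av
  exact jensen (volume.restrict (Metric.ball (0 : ℂ) r))
    (hw.comp (measurable_const.add measurable_id) : Measurable fun u => w (x + u)) ht
    (V_ne_zero hr) (V_ne_top r) (by rw [Measure.restrict_apply_univ])

theorem mx_jensen {w : ℂ → ℝ≥0∞} (hw : Measurable w) {t : ℝ} (ht : 1 ≤ t) (x : ℂ) :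
    mx w x ≤ (mx (fun z => w z ^ t) x) ^ (1 / t) := by
  unfold mx
  refine iSup_le fun r => ?_
  refine (av_jensen hw ht r.2 x).trans (ENNReal.rpow_le_rpow ?_ (by positivity))
  exact le_iSup (fun r : {r : ℝ // 0 < r} => av r (fun z => w z ^ t) x) r

theorem trans_ball (X : ℂ → ℝ≥0∞) (z : ℂ) (r : ℝ) :
    ∫⁻ u in Metric.ball (0 : ℂ) r, X (z + u) = ∫⁻ x in Metric.ball z r, X x := by
  rw [← lintegral_indicator Metric.isOpen_ball.measurableSet,
    ← lintegral_indicator Metric.isOpen_ball.measurableSet,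
    ← lintegral_add_left_eq_self (fun x => (Metric.ball z r).indicator X x) z]
  refine lintegral_congr fun u => ?_
  by_cases hu : u ∈ Metric.ball (0 : ℂ) r
  · have : z + u ∈ Metric.ball z r := by
      rw [mem_ball_iff_norm, add_sub_cancel_left]
      rwa [mem_ball_zero_iff] at hu
    rw [Set.indicator_of_mem hu, Set.indicator_of_mem this]
  · have : z + u ∉ Metric.ball z r := by
      rw [mem_ball_iff_norm, add_sub_cancel_left]
      rwa [mem_ball_zero_iff] at hu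
    rw [Set.indicator_of_notMem hu, Set.indicator_of_notMem this]

/-- local bound of the weight -/
theorem loc {w : ℂ → ℝ≥0∞} {t s ρ : ℝ} (ht : 1 ≤ t) (hs : 0 < s)
    {y z' : ℂ} (hz : z' ∈ Metric.ball y (3 * s)) :
    ((volume (Metric.ball (0 : ℂ) ρ))⁻¹ * ∫⁻ x in Metric.ball y s, w x ^ t) ^ (1 / t) ≤
      ((volume (Metric.ball (0 : ℂ) ρ))⁻¹ * volume (Metric.ball (0 : ℂ) (4 * s)) *
        av (4 * s) (fun z => w z ^ t) z') ^ (1 / t) := by
  refine ENNReal.rpow_le_rpow ?_ (by positivity)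
  unfold av
  rw [mul_assoc, ← mul_assoc (volume (Metric.ball (0 : ℂ) (4 * s))),
    ENNReal.mul_inv_cancel (V_ne_zero (by positivity)) (V_ne_top _), one_mul,
    trans_ball (fun z => w z ^ t)]
  refine mul_le_mul_right (lintegral_mono_set ?_) _
  intro x hx
  rw [Metric.mem_ball] at hx hz ⊢
  have := dist_triangle x y z'
  rw [dist_comm y z'] at this
  linarith

/-- the local part -/
theorem near {g w : ℂ → ℝ≥0∞} (hg : Measurable g) (hw : Measurable w) {t ρ s : ℝ}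
    (ht : 1 ≤ t) (hρ : 0 < ρ) (y : ℂ) :
    ∫⁻ x in Metric.ball y s, av ρ g x * w x ≤
      ((volume (Metric.ball (0 : ℂ) ρ))⁻¹ * ∫⁻ x in Metric.ball y s, w x ^ t) ^ (1 / t) *
        ∫⁻ z, g z := by
  obtain ⟨V, hV⟩ : ∃ V, V = volume (Metric.ball (0 : ℂ) ρ) := ⟨_, rfl⟩
  have hV0 : V ≠ 0 := by rw [hV]; exact V_ne_zero hρ
  have hVt : V ≠ ⊤ := by rw [hV]; exact V_ne_top ρ
  have hm : Measurable (Function.uncurry fun x z : ℂ => if dist z x < ρ then g z else 0) := by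
    refine Measurable.ite ?_ (hg.comp measurable_snd) measurable_const
    exact measurableSet_lt (measurable_snd.dist measurable_fst) measurable_const
  have hm' : ∀ x, Measurable fun z : ℂ => if dist z x < ρ then g z else 0 := fun x =>
    hm.comp (measurable_const.prodMk measurable_id)
  have h1 : ∀ x, av ρ g x * w x =
      ∫⁻ z, V⁻¹ * ((if dist z x < ρ then g z else 0) * w x) := by
    intro x
    have e1 : av ρ g x = V⁻¹ * ∫⁻ z, (if dist z x < ρ then g z else 0) := by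
      unfold av
      have e2 : ∫⁻ z in Metric.ball x ρ, g z = ∫⁻ z, (if dist z x < ρ then g z else 0) := by
        rw [← lintegral_indicator Metric.isOpen_ball.measurableSet]
        refine lintegral_congr fun z => ?_
        by_cases h : dist z x < ρ
        · rw [if_pos h, Set.indicator_of_mem (Metric.mem_ball.2 h)]
        · rw [if_neg h, Set.indicator_of_notMem (fun h' => h (Metric.mem_ball.1 h'))]
      rw [trans_ball g, ← hV, e2]
    rw [e1, lintegral_const_mul _ ((hm' x).mul_const _), lintegral_mul_const _ (hm' x), mul_assoc]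
  have hm2 : Measurable (Function.uncurry fun x z : ℂ =>
      V⁻¹ * ((if dist z x < ρ then g z else 0) * w x)) :=
    (hm.mul (hw.comp measurable_fst)).const_mul _
  calc ∫⁻ x in Metric.ball y s, av ρ g x * w x
      = ∫⁻ x in Metric.ball y s, ∫⁻ z, V⁻¹ * ((if dist z x < ρ then g z else 0) * w x) :=
        lintegral_congr h1
    _ = ∫⁻ z, ∫⁻ x in Metric.ball y s, V⁻¹ * ((if dist z x < ρ then g z else 0) * w x) :=
        lintegral_lintegral_swap hm2.aemeasurable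
    _ ≤ ∫⁻ z, (V⁻¹ * ∫⁻ x in Metric.ball y s, w x ^ t) ^ (1 / t) * g z := by
        refine lintegral_mono fun z => ?_
        have h2 : ∀ x, V⁻¹ * ((if dist z x < ρ then g z else 0) * w x) =
            g z * (V⁻¹ * (Metric.ball z ρ).indicator w x) := by
          intro x
          by_cases h : dist z x < ρ
          · rw [if_pos h, Set.indicator_of_mem (by rwa [Metric.mem_ball, dist_comm])]
            ring
          · rw [if_neg h, Set.indicator_of_notMem (by rwa [Metric.mem_ball, dist_comm])]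
            simp
        have hb : MeasurableSet (Metric.ball z ρ) := Metric.isOpen_ball.measurableSet
        have hwi : Measurable fun x => (Metric.ball z ρ).indicator w x := hw.indicator hb
        simp_rw [h2]
        rw [lintegral_const_mul _ (hwi.const_mul _), lintegral_const_mul _ hwi, mul_comm]
        refine mul_le_mul_left ?_ _
        rw [lintegral_indicator hb, Measure.restrict_restrict hb]
        refine (jensen (volume.restrict (Metric.ball z ρ ∩ Metric.ball y s)) hw ht hV0 hVt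
          ?_).trans ?_
        · rw [Measure.restrict_apply_univ, hV]
          refine (measure_mono Set.inter_subset_left).trans ?_
          rw [Measure.addHaar_ball_center]
        · refine ENNReal.rpow_le_rpow (mul_le_mul_right (lintegral_mono_set ?_) _) (by positivity)
          exact Set.inter_subset_right
    _ = _ := by rw [lintegral_const_mul _ hg, hV]

/-! ### The kernel `PP` -/

theorem PP_meas (β : ℝ) : Measurable (PP β) := by
  unfold PP
  fun_prop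

theorem PP_neg (β : ℝ) (x : ℂ) : PP β (-x) = PP β x := by
  unfold PP
  rw [norm_neg]

theorem PP_shift {s : ℝ} (hs : 0 < s) {x u : ℂ} (hu : ‖u‖ ≤ s) :
    PP (1 / s) (x + u) ≤ 16 * PP (1 / s) x := by
  unfold PP
  have e : (16 : ℝ≥0∞) = ENNReal.ofReal 16 := by norm_num
  rw [e, ← ENNReal.ofReal_mul (by norm_num)]
  apply ENNReal.ofReal_le_ofReal
  have h1 : 1 + 1 / s * ‖x‖ ≤ 2 * (1 + 1 / s * ‖x + u‖) := by
    have h2 : ‖x‖ ≤ ‖x + u‖ + ‖u‖ := by
      calc ‖x‖ = ‖(x + u) - u‖ := by rw [add_sub_cancel_right]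
        _ ≤ _ := norm_sub_le _ _
    have h3 : 1 / s * ‖x‖ ≤ 1 / s * (‖x + u‖ + s) := by gcongr; linarith
    have h4 : 1 / s * (‖x + u‖ + s) = 1 / s * ‖x + u‖ + 1 := by
      field_simp
    have h5 : 0 ≤ 1 / s * ‖x + u‖ := by positivity
    linarith
  have h6 : (1 + 1 / s * ‖x‖) ^ 4 ≤ 16 * (1 + 1 / s * ‖x + u‖) ^ 4 := by
    calc (1 + 1 / s * ‖x‖) ^ 4 ≤ (2 * (1 + 1 / s * ‖x + u‖)) ^ 4 :=
          pow_le_pow_left₀ (by positivity) h1 4
      _ = _ := by ring
  have h7 : ((1 + 1 / s * ‖x + u‖) ^ 4)⁻¹ ≤ 16 * ((1 + 1 / s * ‖x‖) ^ 4)⁻¹ := by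
    rw [← div_eq_mul_inv, inv_eq_one_div, div_le_div_iff₀ (by positivity) (by positivity)]
    linarith
  calc (1 / s) ^ 2 * ((1 + 1 / s * ‖x + u‖) ^ 4)⁻¹
      ≤ (1 / s) ^ 2 * (16 * ((1 + 1 / s * ‖x‖) ^ 4)⁻¹) := by gcongr
    _ = _ := by ring

theorem PP_int {s : ℝ} (hs : 0 < s) :
    ∫⁻ x, PP (1 / s) x = ∫⁻ x : ℂ, ENNReal.ofReal ((1 + ‖x‖) ^ (-(4 : ℝ))) := by
  have hm : Measurable fun x : ℂ => ENNReal.ofReal ((1 + ‖x‖) ^ (-(4 : ℝ))) := by
    fun_prop
  have h1 : ∀ x : ℂ, PP (1 / s) x = ENNReal.ofReal ((s ^ 2)⁻¹) *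
      ENNReal.ofReal ((1 + ‖s⁻¹ • x‖) ^ (-(4 : ℝ))) := by
    intro x
    unfold PP
    rw [← ENNReal.ofReal_mul (by positivity), norm_smul, norm_inv, Real.norm_of_nonneg hs.le]
    have e : (1 + s⁻¹ * ‖x‖) ^ (-(4 : ℝ)) = ((1 + s⁻¹ * ‖x‖) ^ 4)⁻¹ := by
      rw [Real.rpow_neg (by positivity)]
      norm_cast
    rw [e, one_div, inv_pow]
  have h2 : ∫⁻ x : ℂ, ENNReal.ofReal ((1 + ‖s⁻¹ • x‖) ^ (-(4 : ℝ))) =
      ENNReal.ofReal (s ^ 2) * ∫⁻ x : ℂ, ENNReal.ofReal ((1 + ‖x‖) ^ (-(4 : ℝ))) := by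
    have e1 := Measure.map_addHaar_smul (volume : Measure ℂ) (inv_ne_zero hs.ne')
    have e2 : ∫⁻ x : ℂ, ENNReal.ofReal ((1 + ‖s⁻¹ • x‖) ^ (-(4 : ℝ))) =
        ∫⁻ x : ℂ, ENNReal.ofReal ((1 + ‖x‖) ^ (-(4 : ℝ)))
          ∂(Measure.map (fun x : ℂ => s⁻¹ • x) volume) := by
      rw [lintegral_map hm (measurable_const_smul s⁻¹)]
    rw [e2, e1, lintegral_smul_measure, Complex.finrank_real_complex, smul_eq_mul]
    congr 2
    rw [inv_pow, inv_inv, abs_of_pos (by positivity)]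
  simp_rw [h1]
  rw [lintegral_const_mul _ (by fun_prop), h2, ← mul_assoc, ← ENNReal.ofReal_mul (by positivity),
    inv_mul_cancel₀ (by positivity), ENNReal.ofReal_one, one_mul]

/-! ### The far part -/

theorem far {P g w : ℂ → ℝ≥0∞} (hP : Measurable P) (hPn : ∀ x, P (-x) = P x)
    (hg : Measurable g) (hw : Measurable w) :
    ∫⁻ x, (∫⁻ z, P (x - z) * g z) * w x = ∫⁻ z, g z * cv P w z := by
  have hm : Measurable (Function.uncurry fun x z : ℂ => P (x - z) * g z * w x) :=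
    ((hP.comp (measurable_fst.sub measurable_snd)).mul (hg.comp measurable_snd)).mul
      (hw.comp measurable_fst)
  have hPx : ∀ x, Measurable fun z => P (x - z) := fun x =>
    hP.comp (measurable_const.sub measurable_id)
  have hPz : ∀ z, Measurable fun x => P (x - z) := fun z =>
    hP.comp (measurable_id.sub measurable_const)
  calc ∫⁻ x, (∫⁻ z, P (x - z) * g z) * w x
      = ∫⁻ x, ∫⁻ z, P (x - z) * g z * w x := by
        refine lintegral_congr fun x => ?_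
        have m1 : Measurable fun z => P (x - z) * g z := (hPx x).mul hg
        rw [lintegral_mul_const _ m1]
    _ = ∫⁻ z, ∫⁻ x, P (x - z) * g z * w x := lintegral_lintegral_swap hm.aemeasurable
    _ = ∫⁻ z, g z * cv P w z := by
        refine lintegral_congr fun z => ?_
        have e1 : ∀ x, P (x - z) * g z * w x = g z * (P (x - z) * w x) := fun x => by ring
        simp_rw [e1]
        have m1 : Measurable fun x => P (x - z) * w x := (hPz z).mul hw
        rw [lintegral_const_mul _ m1]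
        congr 1
        unfold cv
        rw [← lintegral_sub_left_eq_self (fun x => P (x - z) * w x) z]
        refine lintegral_congr fun y => ?_
        have : z - y - z = -y := by ring
        rw [this, hPn]

theorem sq_conv {P f : ℂ → ℝ≥0∞} (hP : Measurable P) (hf : Measurable f) (C' : ℝ≥0∞) (z : ℂ) :
    (∫⁻ w, C' * P (z - w) * f w) ^ 2 ≤
      C' ^ 2 * (∫⁻ x, P x) * ∫⁻ w, P (z - w) * f w ^ 2 := by
  have hm : Measurable fun w => P (z - w) := hP.comp (measurable_const.sub measurable_id)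
  have h2 := holder (volume.withDensity fun w => P (z - w)) hf 2 one_le_two
  rw [lintegral_withDensity_eq_lintegral_mul _ hm hf,
    lintegral_withDensity_eq_lintegral_mul _ hm (hf.pow_const 2),
    withDensity_apply _ MeasurableSet.univ, Measure.restrict_univ,
    lintegral_sub_left_eq_self] at h2
  have e1 : ∀ w, C' * P (z - w) * f w = C' * (P (z - w) * f w) := fun w => by ring
  simp_rw [e1]
  have m1 : Measurable fun w => P (z - w) * f w := hm.mul hf
  rw [lintegral_const_mul _ m1, mul_pow, mul_assoc]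
  refine mul_le_mul_right ?_ _
  simpa using h2

/-- the part of the kernel far from the origin -/
theorem farpart {f : ℂ → ℝ≥0∞} {w : ℂ → ℝ≥0∞} {s ρ t : ℝ} (hρ : 0 < ρ) (hρs : ρ ≤ s)
    (ht : 1 ≤ t) (hw : Measurable w) (hf : Measurable f) (C' C4 : ℝ≥0∞) (hC4 : C4 ≠ ⊤)
    (hr : ∀ x, cv (PP (1 / s)) w x ≤ C4 * mx w x) :
    ∫⁻ x, av ρ (fun z => (∫⁻ v, C' * PP (1 / s) (z - v) * f v) ^ 2) x * w x ≤
      C' ^ 2 * (∫⁻ x, PP (1 / s) x) * 16 * C4 *
        ∫⁻ x, f x ^ 2 * (mx (fun z => w z ^ t) x) ^ (1 / t) := by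
  have hs : 0 < s := hρ.trans_le hρs
  obtain ⟨K, hK⟩ : ∃ K, K = ∫⁻ x, PP (1 / s) x := ⟨_, rfl⟩
  obtain ⟨G, hG⟩ : ∃ G : ℂ → ℝ≥0∞, G = fun z => ∫⁻ v, PP (1 / s) (z - v) * f v ^ 2 := ⟨_, rfl⟩
  have hGm : Measurable G := by
    rw [hG]
    exact Measurable.lintegral_prod_right' (f := fun p : ℂ × ℂ => PP (1 / s) (p.1 - p.2) * f p.2 ^ 2)
      (((PP_meas _).comp (measurable_fst.sub measurable_snd)).mul
        ((hf.comp measurable_snd).pow_const 2))
  have h1 : ∀ x, av ρ (fun z => (∫⁻ v, C' * PP (1 / s) (z - v) * f v) ^ 2) x ≤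
      C' ^ 2 * K * 16 * G x := by
    intro x
    unfold av
    have h2 : ∀ u ∈ Metric.ball (0 : ℂ) ρ,
        (∫⁻ v, C' * PP (1 / s) (x + u - v) * f v) ^ 2 ≤ C' ^ 2 * K * 16 * G x := by
      intro u hu
      refine (sq_conv (PP_meas _) hf C' (x + u)).trans ?_
      rw [← hK, mul_assoc (C' ^ 2 * K)]
      refine mul_le_mul_right ?_ _
      have hPm : Measurable fun v => PP (1 / s) (x - v) :=
        (PP_meas _).comp (measurable_const.sub measurable_id)
      have m1 : Measurable fun v => PP (1 / s) (x - v) * f v ^ 2 := hPm.mul (hf.pow_const 2)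
      rw [hG]
      simp only
      rw [← lintegral_const_mul _ m1]
      refine lintegral_mono fun v => ?_
      have e : x + u - v = (x - v) + u := by ring
      simp only
      rw [e, ← mul_assoc]
      refine mul_le_mul_left (PP_shift hs ?_) _
      rw [mem_ball_zero_iff] at hu
      linarith
    calc (volume (Metric.ball (0 : ℂ) ρ))⁻¹ *
          ∫⁻ u in Metric.ball (0 : ℂ) ρ, (∫⁻ v, C' * PP (1 / s) (x + u - v) * f v) ^ 2
        ≤ (volume (Metric.ball (0 : ℂ) ρ))⁻¹ *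
          ∫⁻ u in Metric.ball (0 : ℂ) ρ, C' ^ 2 * K * 16 * G x :=
          mul_le_mul_right (setLIntegral_mono' Metric.isOpen_ball.measurableSet h2) _
      _ = _ := by
          rw [setLIntegral_const, mul_comm (C' ^ 2 * K * 16 * G x), ← mul_assoc,
            ENNReal.inv_mul_cancel (V_ne_zero hρ) (V_ne_top ρ), one_mul]
  have hK16 : Measurable fun x => G x * w x := hGm.mul hw
  calc ∫⁻ x, av ρ (fun z => (∫⁻ v, C' * PP (1 / s) (z - v) * f v) ^ 2) x * w x
      ≤ ∫⁻ x, C' ^ 2 * K * 16 * (G x * w x) := by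
        refine lintegral_mono fun x => ?_
        rw [← mul_assoc]
        exact mul_le_mul_left (h1 x) _
    _ = C' ^ 2 * K * 16 * ∫⁻ z, f z ^ 2 * cv (PP (1 / s)) w z := by
        rw [lintegral_const_mul _ hK16, hG]
        simp only
        rw [far (PP_meas _) (PP_neg _) (hf.pow_const 2) hw]
    _ ≤ C' ^ 2 * K * 16 * ∫⁻ z, C4 * (f z ^ 2 * (mx (fun z => w z ^ t) z) ^ (1 / t)) := by
        refine mul_le_mul_right (lintegral_mono fun z => ?_) _
        calc f z ^ 2 * cv (PP (1 / s)) w z ≤ f z ^ 2 * (C4 * (mx (fun z => w z ^ t) z) ^ (1 / t)) :=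
              mul_le_mul_right ((hr z).trans (mul_le_mul_right (mx_jensen hw ht z) _)) _
          _ = _ := by ring
    _ = _ := by
        rw [lintegral_const_mul' _ _ hC4, ← hK, ← mul_assoc]

/-! ### The main estimate -/

theorem core {H f F : ℂ → ℂ} {w : ℂ → ℝ≥0∞} {s ρ t : ℝ} (hρ : 0 < ρ) (hρs : ρ ≤ s)
    (ht : 1 ≤ t) (hw : Measurable w)
    (hH : Measurable H) (hf : Measurable f)
    (hint : ∀ z, Integrable (fun v => H (z - v) * f v))
    (hF : ∀ z, F z = ∫ v, H (z - v) * f v)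
    (hpl : ∀ y, ∫⁻ z, ‖∫ v, H (z - v) * (Metric.ball y (3 * s)).indicator f v‖ₑ ^ 2 ≤
      ∫⁻ v in Metric.ball y (3 * s), ‖f v‖ₑ ^ 2)
    (C' C4 : ℝ≥0∞) (hC4 : C4 ≠ ⊤)
    (hr : ∀ x, cv (PP (1 / s)) w x ≤ C4 * mx w x)
    (hk : ∀ x, s ≤ ‖x‖ → ‖H x‖ₑ ≤ C' * PP (1 / s) x) :
    ∫⁻ x, av ρ (fun z => ‖F z‖ₑ ^ 2) x * w x ≤
      (4 * ((volume (Metric.ball (0 : ℂ) s))⁻¹ * volume (Metric.ball (0 : ℂ) (3 * s)) *
        ((volume (Metric.ball (0 : ℂ) ρ))⁻¹ * volume (Metric.ball (0 : ℂ) (4 * s))) ^ (1 / t)) +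
      4 * (C' ^ 2 * (∫⁻ x, PP (1 / s) x) * 16 * C4)) *
        ∫⁻ x, ‖f x‖ₑ ^ 2 * (mx (fun z => w z ^ t) x) ^ (1 / t) := by
  have hs : 0 < s := hρ.trans_le hρs
  have hf2 : Measurable fun z => ‖f z‖ₑ := hf.enorm
  obtain ⟨E, hEdef⟩ : ∃ E : ℂ → ℝ≥0∞,
    E = fun z => ∫⁻ v, C' * PP (1 / s) (z - v) * ‖f v‖ₑ := ⟨_, rfl⟩
  have hE : Measurable E := by
    rw [hEdef]
    exact Measurable.lintegral_prod_right'
      (f := fun p : ℂ × ℂ => C' * PP (1 / s) (p.1 - p.2) * ‖f p.2‖ₑ)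
      ((((PP_meas _).comp (measurable_fst.sub measurable_snd)).const_mul _).mul
        (hf2.comp measurable_snd))
  obtain ⟨Ny, hNdef⟩ : ∃ Ny : ℂ → ℂ → ℂ, Ny = fun y z =>
    ∫ v, H (z - v) * (Metric.ball y (3 * s)).indicator f v := ⟨_, rfl⟩
  have hpar : ∀ g : ℂ → ℂ, Measurable g → Measurable fun z => ∫ v, H (z - v) * g v := by
    intro g hg
    have h1 : Measurable (Function.uncurry fun z v : ℂ => H (z - v) * g v) :=
      (hH.comp (measurable_fst.sub measurable_snd)).mul (hg.comp measurable_snd)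
    exact h1.stronglyMeasurable.integral_prod_right.measurable
  have hNy : ∀ y, Measurable (Ny y) := by
    intro y
    rw [hNdef]
    exact hpar _ (hf.indicator Metric.isOpen_ball.measurableSet)
  have hFm : Measurable F := by
    have : F = fun z => ∫ v, H (z - v) * f v := funext hF
    rw [this]
    exact hpar f hf
  have hA : ∀ y z, dist z y < 2 * s → ‖F z‖ₑ ≤ ‖Ny y z‖ₑ + E z := by
    intro y z hyz
    have hb : MeasurableSet (Metric.ball y (3 * s)) := Metric.isOpen_ball.measurableSet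
    have e1 : (fun v => H (z - v) * (Metric.ball y (3 * s)).indicator f v) =
        (Metric.ball y (3 * s)).indicator (fun v => H (z - v) * f v) := by
      funext v
      by_cases hv : v ∈ Metric.ball y (3 * s)
      · rw [Set.indicator_of_mem hv, Set.indicator_of_mem hv]
      · rw [Set.indicator_of_notMem hv, Set.indicator_of_notMem hv, mul_zero]
    have e2 : F z = Ny y z + ∫ v in (Metric.ball y (3 * s))ᶜ, H (z - v) * f v := by
      rw [hF, hNdef]
      simp only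
      rw [e1, integral_indicator hb, integral_add_compl hb (hint z)]
    rw [e2]
    refine (enorm_add_le _ _).trans (add_le_add le_rfl ?_)
    calc ‖∫ v in (Metric.ball y (3 * s))ᶜ, H (z - v) * f v‖ₑ
        ≤ ∫⁻ v in (Metric.ball y (3 * s))ᶜ, ‖H (z - v) * f v‖ₑ :=
          enorm_integral_le_lintegral_enorm _
      _ ≤ ∫⁻ v in (Metric.ball y (3 * s))ᶜ, C' * PP (1 / s) (z - v) * ‖f v‖ₑ := by
          refine setLIntegral_mono' hb.compl fun v hv => ?_
          have h1 : 3 * s ≤ dist v y := by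
            by_contra h
            exact hv (Metric.mem_ball.2 (not_le.1 h))
          have h2 : s ≤ ‖z - v‖ := by
            have h3 := dist_triangle v z y
            rw [dist_comm v z, dist_eq_norm z v] at h3
            linarith
          rw [enorm_mul]
          exact mul_le_mul_left (hk _ h2) _
      _ ≤ E z := by
          rw [hEdef]
          exact setLIntegral_le_lintegral _ _
  have hB : ∀ y x, x ∈ Metric.ball y s → av ρ (fun z => ‖F z‖ₑ ^ 2) x ≤
      4 * (av ρ (fun z => ‖Ny y z‖ₑ ^ 2) x + av ρ (fun z => E z ^ 2) x) := by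
    intro y x hx
    have h2 : ∫⁻ u in Metric.ball (0 : ℂ) ρ, ‖F (x + u)‖ₑ ^ 2 ≤
        4 * ((∫⁻ u in Metric.ball (0 : ℂ) ρ, ‖Ny y (x + u)‖ₑ ^ 2) +
          ∫⁻ u in Metric.ball (0 : ℂ) ρ, E (x + u) ^ 2) := by
      have hadd : Measurable fun u : ℂ => x + u := measurable_const.add measurable_id
      have m1 : Measurable fun u => ‖Ny y (x + u)‖ₑ ^ 2 :=
        (((hNy y).comp hadd).enorm).pow_const 2
      have m2 : Measurable fun u => E (x + u) ^ 2 := (hE.comp hadd).pow_const 2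
      have m12 : Measurable fun u => ‖Ny y (x + u)‖ₑ ^ 2 + E (x + u) ^ 2 := m1.add m2
      rw [← lintegral_add_left m1, ← lintegral_const_mul _ m12]
      refine setLIntegral_mono' Metric.isOpen_ball.measurableSet fun u hu => ?_
      have h3 : dist (x + u) y < 2 * s := by
        have h4 : dist (x + u) y ≤ ‖u‖ + dist x y := by
          rw [dist_eq_norm, dist_eq_norm]
          have : x + u - y = u + (x - y) := by ring
          rw [this]
          exact norm_add_le _ _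
        rw [mem_ball_zero_iff] at hu
        rw [Metric.mem_ball] at hx
        linarith
      calc ‖F (x + u)‖ₑ ^ 2 ≤ (‖Ny y (x + u)‖ₑ + E (x + u)) ^ 2 :=
            pow_le_pow_left' (hA y (x + u) h3) 2
        _ ≤ 2 ^ 2 * (‖Ny y (x + u)‖ₑ ^ 2 + E (x + u) ^ 2) := two_pow _ _ 2
        _ = 4 * (‖Ny y (x + u)‖ₑ ^ 2 + E (x + u) ^ 2) := by norm_num
    unfold av
    calc (volume (Metric.ball (0 : ℂ) ρ))⁻¹ * ∫⁻ u in Metric.ball (0 : ℂ) ρ, ‖F (x + u)‖ₑ ^ 2
        ≤ (volume (Metric.ball (0 : ℂ) ρ))⁻¹ *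
          (4 * ((∫⁻ u in Metric.ball (0 : ℂ) ρ, ‖Ny y (x + u)‖ₑ ^ 2) +
          ∫⁻ u in Metric.ball (0 : ℂ) ρ, E (x + u) ^ 2)) := mul_le_mul_right h2 _
      _ = _ := by ring
  obtain ⟨A, hAdef⟩ : ∃ A, A = (volume (Metric.ball (0 : ℂ) ρ))⁻¹ *
    volume (Metric.ball (0 : ℂ) (4 * s)) := ⟨_, rfl⟩
  obtain ⟨W, hWdef⟩ : ∃ W : ℂ → ℝ≥0∞,
    W = fun z' => (A * av (4 * s) (fun z => w z ^ t) z') ^ (1 / t) := ⟨_, rfl⟩
  have hwt : Measurable fun z => w z ^ t := hw.pow_const t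
  have hWm : Measurable W := by
    rw [hWdef]
    exact (((av_meas hwt (4 * s)).const_mul A)).pow_const _
  have hfW : Measurable fun z => ‖f z‖ₑ ^ 2 * W z := (hf2.pow_const 2).mul hWm
  have hC : ∀ y, ∫⁻ x in Metric.ball y s, av ρ (fun z => ‖Ny y z‖ₑ ^ 2) x * w x ≤
      ∫⁻ z in Metric.ball y (3 * s), ‖f z‖ₑ ^ 2 * W z := by
    intro y
    have mN : Measurable fun z => ‖Ny y z‖ₑ ^ 2 := ((hNy y).enorm).pow_const 2
    refine (near mN hw ht hρ y).trans ?_
    have hp : ∫⁻ z, ‖Ny y z‖ₑ ^ 2 ≤ ∫⁻ v in Metric.ball y (3 * s), ‖f v‖ₑ ^ 2 := by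
      rw [hNdef]
      exact hpl y
    refine (mul_le_mul_right hp _).trans ?_
    rw [← lintegral_const_mul _ (hf2.pow_const 2)]
    refine setLIntegral_mono' Metric.isOpen_ball.measurableSet fun z hz => ?_
    rw [mul_comm, hWdef, hAdef]
    exact mul_le_mul_right (loc ht hs hz) _
  have hW : ∀ z, W z ≤ A ^ (1 / t) * (mx (fun z => w z ^ t) z) ^ (1 / t) := by
    intro z
    rw [hWdef]
    simp only
    rw [ENNReal.mul_rpow_of_nonneg _ _ (by positivity : (0 : ℝ) ≤ 1 / t)]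
    refine mul_le_mul_right (ENNReal.rpow_le_rpow ?_ (by positivity)) _
    exact le_iSup (fun r : {r : ℝ // 0 < r} => av r (fun z => w z ^ t) z)
      (⟨4 * s, by positivity⟩ : {r : ℝ // 0 < r})
  -- conclusion
  have hG : Measurable fun x => av ρ (fun z => ‖F z‖ₑ ^ 2) x * w x :=
    (av_meas ((hFm.enorm).pow_const 2) ρ).mul hw
  have hG2 : Measurable fun x => av ρ (fun z => E z ^ 2) x * w x :=
    (av_meas (hE.pow_const 2) ρ).mul hw
  have hV : (volume (Metric.ball (0 : ℂ) s))⁻¹ * volume (Metric.ball (0 : ℂ) s) = 1 :=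
    ENNReal.inv_mul_cancel (V_ne_zero hs) (V_ne_top s)
  have hst : ∀ y, ∫⁻ x in Metric.ball y s, av ρ (fun z => ‖F z‖ₑ ^ 2) x * w x ≤
      4 * ((∫⁻ z in Metric.ball y (3 * s), ‖f z‖ₑ ^ 2 * W z) +
        ∫⁻ x in Metric.ball y s, av ρ (fun z => E z ^ 2) x * w x) := by
    intro y
    have m1 : Measurable fun x => av ρ (fun z => ‖Ny y z‖ₑ ^ 2) x * w x :=
      (av_meas (((hNy y).enorm).pow_const 2) ρ).mul hw
    calc ∫⁻ x in Metric.ball y s, av ρ (fun z => ‖F z‖ₑ ^ 2) x * w x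
        ≤ ∫⁻ x in Metric.ball y s, 4 * (av ρ (fun z => ‖Ny y z‖ₑ ^ 2) x * w x +
          av ρ (fun z => E z ^ 2) x * w x) := by
          refine setLIntegral_mono' Metric.isOpen_ball.measurableSet fun x hx => ?_
          rw [← add_mul, ← mul_assoc]
          exact mul_le_mul_left (hB y x hx) _
      _ = 4 * ((∫⁻ x in Metric.ball y s, av ρ (fun z => ‖Ny y z‖ₑ ^ 2) x * w x) +
          ∫⁻ x in Metric.ball y s, av ρ (fun z => E z ^ 2) x * w x) := by
          have m12 : Measurable fun x => av ρ (fun z => ‖Ny y z‖ₑ ^ 2) x * w x +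
            av ρ (fun z => E z ^ 2) x * w x := m1.add hG2
          rw [lintegral_const_mul _ m12, lintegral_add_left m1]
      _ ≤ _ := mul_le_mul_right (add_le_add (hC y) le_rfl) _
  have hfar := farpart (f := fun v => ‖f v‖ₑ) hρ hρs ht hw hf2 C' C4 hC4 hr
  calc ∫⁻ x, av ρ (fun z => ‖F z‖ₑ ^ 2) x * w x
      = (volume (Metric.ball (0 : ℂ) s))⁻¹ *
        ∫⁻ y, ∫⁻ x in Metric.ball y s, av ρ (fun z => ‖F z‖ₑ ^ 2) x * w x := by
        rw [avgball hG, ← mul_assoc, hV, one_mul]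
    _ ≤ (volume (Metric.ball (0 : ℂ) s))⁻¹ *
        ∫⁻ y, 4 * ((∫⁻ z in Metric.ball y (3 * s), ‖f z‖ₑ ^ 2 * W z) +
        ∫⁻ x in Metric.ball y s, av ρ (fun z => E z ^ 2) x * w x) :=
        mul_le_mul_right (lintegral_mono hst) _
    _ = (volume (Metric.ball (0 : ℂ) s))⁻¹ *
        (4 * (volume (Metric.ball (0 : ℂ) (3 * s)) * (∫⁻ z, ‖f z‖ₑ ^ 2 * W z) +
        volume (Metric.ball (0 : ℂ) s) * ∫⁻ x, av ρ (fun z => E z ^ 2) x * w x)) := by
        have m3 := ball_meas hfW (3 * s)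
        have m4 := ball_meas hG2 s
        have m5 : Measurable fun y => (∫⁻ z in Metric.ball y (3 * s), ‖f z‖ₑ ^ 2 * W z) +
            ∫⁻ x in Metric.ball y s, av ρ (fun z => E z ^ 2) x * w x := m3.add m4
        rw [lintegral_const_mul _ m5, lintegral_add_left m3, avgball hfW, avgball hG2]
    _ = 4 * ((volume (Metric.ball (0 : ℂ) s))⁻¹ * volume (Metric.ball (0 : ℂ) (3 * s)) *
          (∫⁻ z, ‖f z‖ₑ ^ 2 * W z)) +
        4 * (((volume (Metric.ball (0 : ℂ) s))⁻¹ * volume (Metric.ball (0 : ℂ) s)) *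
          ∫⁻ x, av ρ (fun z => E z ^ 2) x * w x) := by ring
    _ ≤ 4 * ((volume (Metric.ball (0 : ℂ) s))⁻¹ * volume (Metric.ball (0 : ℂ) (3 * s)) *
          (A ^ (1 / t) * ∫⁻ x, ‖f x‖ₑ ^ 2 * (mx (fun z => w z ^ t) x) ^ (1 / t))) +
        4 * (C' ^ 2 * (∫⁻ x, PP (1 / s) x) * 16 * C4 *
          ∫⁻ x, ‖f x‖ₑ ^ 2 * (mx (fun z => w z ^ t) x) ^ (1 / t)) := by
        rw [hV, one_mul]
        refine add_le_add ?_ ?_
        · refine mul_le_mul_right (mul_le_mul_right ?_ _) _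
          have hAt : A ^ (1 / t) ≠ ⊤ := by
            refine ENNReal.rpow_ne_top_of_nonneg (by positivity) ?_
            rw [hAdef]
            exact ENNReal.mul_ne_top (ENNReal.inv_ne_top.2 (V_ne_zero hρ)) (V_ne_top _)
          rw [← lintegral_const_mul' _ _ hAt]
          refine lintegral_mono fun z => ?_
          calc ‖f z‖ₑ ^ 2 * W z ≤ ‖f z‖ₑ ^ 2 * (A ^ (1 / t) *
                (mx (fun z => w z ^ t) z) ^ (1 / t)) := mul_le_mul_right (hW z) _
            _ = _ := by ring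
        · refine mul_le_mul_right ?_ _
          rw [hEdef]
          exact hfar
    _ = _ := by rw [← hAdef]; ring

theorem num2 {s ρ t : ℝ} (hs : 0 < s) (hρ : 0 < ρ) (ht : 1 ≤ t) :
    (volume (Metric.ball (0 : ℂ) s))⁻¹ * volume (Metric.ball (0 : ℂ) (3 * s)) *
        ((volume (Metric.ball (0 : ℂ) ρ))⁻¹ * volume (Metric.ball (0 : ℂ) (4 * s))) ^ (1 / t) ≤
      ENNReal.ofReal (144 * (s / ρ) ^ (2 / t)) := by
  have hpi := Real.pi_pos
  have ht0 : 0 < t := by linarith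
  rw [vol hs, vol hρ, vol (by positivity : 0 < 3 * s), vol (by positivity : 0 < 4 * s),
    ← ENNReal.ofReal_inv_of_pos (by positivity), ← ENNReal.ofReal_inv_of_pos (by positivity),
    ← ENNReal.ofReal_mul (by positivity), ← ENNReal.ofReal_mul (by positivity),
    ENNReal.ofReal_rpow_of_nonneg (by positivity) (by positivity),
    ← ENNReal.ofReal_mul (by positivity)]
  apply ENNReal.ofReal_le_ofReal
  have e1 : (Real.pi * s ^ 2)⁻¹ * (Real.pi * (3 * s) ^ 2) = 9 := by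
    field_simp
    norm_num
  have e2 : (Real.pi * ρ ^ 2)⁻¹ * (Real.pi * (4 * s) ^ 2) = 16 * (s / ρ) ^ 2 := by
    field_simp
    norm_num
  have e3 : ((s / ρ) ^ 2) ^ (1 / t) = (s / ρ) ^ (2 / t) := by
    rw [← Real.rpow_natCast, ← Real.rpow_mul (by positivity)]
    congr 1
    push_cast
    ring
  have e4 : (16 : ℝ) ^ (1 / t) ≤ 16 := by
    calc (16 : ℝ) ^ (1 / t) ≤ (16 : ℝ) ^ (1 : ℝ) := by
          refine Real.rpow_le_rpow_of_exponent_le (by norm_num) ?_
          rw [div_le_one ht0]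
          exact ht
      _ = 16 := Real.rpow_one _
  rw [e1, e2, Real.mul_rpow (by positivity) (by positivity), e3]
  have h5 : 0 ≤ (s / ρ) ^ (2 / t) := by positivity
  nlinarith [mul_le_mul_of_nonneg_right e4 h5]

theorem t (h1 : Pool.Agent.N892.BW.S_BAS) (h2 : Pool.Agent.N892.BW.S_CNV)
    (h3 : Pool.Agent.N892.BW.S_PLT) (h4 : Pool.Agent.N892.BW.S_HKD)
    (h5 : Pool.Agent.N892.BW.S_RDM) :
    Pool.Agent.N892.BW.S_GWT := by
  intro σ t hσ ht
  obtain ⟨N, hN⟩ := exists_nat_ge ((4 + 2 * σ) / σ + 4)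
  obtain ⟨C, hC, hHK⟩ := h4 N
  obtain ⟨C4, hC4, hRD⟩ := h5
  obtain ⟨K, hK⟩ : ∃ K : ℝ≥0∞, K = ∫⁻ x : ℂ, ENNReal.ofReal ((1 + ‖x‖) ^ (-(4 : ℝ))) := ⟨_, rfl⟩
  have hKtop : K ≠ ⊤ := by
    rw [hK]
    exact (finite_integral_one_add_norm (by rw [Complex.finrank_real_complex]; norm_num)).ne
  refine ⟨576 + 64 * ((16 * C) ^ 2 * K.toReal * C4), by positivity, ?_⟩
  intro n a b ρ h w hn ha hab hbn hρ1 hρ2 hh hw
  have hb : 0 < b := ha.trans_le hab
  have hρ : 0 < ρ := (by positivity : 0 < 1 / a).trans_le hρ1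
  obtain ⟨s, hs⟩ : ∃ s, s = (n : ℝ) ^ (1 + σ) / a := ⟨_, rfl⟩
  rw [← hs] at hρ2
  have hs0 : 0 < s := hρ.trans_le hρ2
  obtain ⟨η, hη1, hη2, hη3, hη4⟩ := hHK n a b hn ha hab
  have hμ : Bd 0 (2 * b) (Tn n η) := bd_Tn (by positivity) hη1 n
  have hh2 : Bd 0 (2 * b) h :=
    ⟨hh.1, fun ξ hξ => ⟨norm_nonneg _, ((hh.2 ξ hξ).2).trans (by linarith)⟩⟩
  obtain ⟨bH1, -, bH3, -, -⟩ := h1 (2 * b) (Tn n η) hμ
  obtain ⟨bf1, -, bf3, -, -⟩ := h1 (2 * b) h hh2
  have hTn : Tn n h = fun ξ => Tn n η ξ * h ξ := by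
    funext ξ
    unfold Tn
    by_cases h0 : h ξ = 0
    · rw [h0, mul_zero, mul_zero]
    · have := hh.2 ξ h0
      rw [hη3 ξ this.1 this.2, mul_one]
  have hcv := h2 (2 * b) (Tn n η) h hμ hh2
  have hpl : ∀ y, ∫⁻ z, ‖∫ w, Fi (Tn n η) (z - w) *
      (Metric.ball y (3 * s)).indicator (Fi h) w‖ₑ ^ 2 ≤
      ∫⁻ w in Metric.ball y (3 * s), ‖Fi h w‖ₑ ^ 2 := by
    intro y
    have hb' : MeasurableSet (Metric.ball y (3 * s)) := Metric.isOpen_ball.measurableSet
    have hnic : Nic2 ((Metric.ball y (3 * s)).indicator (Fi h)) := by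
      obtain ⟨M, hM⟩ := bf3.2.2
      exact ⟨bf3.1.indicator hb', bf3.2.1.indicator hb', M, fun x =>
        (norm_indicator_le_norm_self _ _).trans (hM x)⟩
    have h6 : ∀ ξ, ∑ i ∈ Finset.range 1, ‖(fun _ : ℕ => Tn n η) i ξ‖ ^ 2 ≤ (1 : ℝ) := by
      intro ξ
      rw [Finset.sum_range_one]
      have h7 : ‖Tn n η ξ‖ ≤ 1 := by
        unfold Tn sy
        rw [norm_mul, norm_pow, norm_div, RCLike.norm_conj]
        have h8 : ‖ξ‖ / ‖ξ‖ ≤ 1 := div_self_le_one _
        calc (‖ξ‖ / ‖ξ‖) ^ n * ‖η ξ‖ ≤ 1 * 1 :=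
              mul_le_mul (pow_le_one₀ (by positivity) h8) (hη2 ξ) (norm_nonneg _) zero_le_one
          _ = 1 := one_mul 1
      exact pow_le_one₀ (norm_nonneg _) h7
    have h5 := h3 (2 * b) 1 (fun _ => Tn n η) 1 (fun _ => hμ) h6 _ hnic
    rw [Finset.sum_range_one, ENNReal.ofReal_one, one_mul] at h5
    refine h5.trans (le_of_eq ?_)
    rw [← lintegral_indicator hb']
    refine lintegral_congr fun x => ?_
    by_cases hx : x ∈ Metric.ball y (3 * s)
    · rw [Set.indicator_of_mem hx, Set.indicator_of_mem hx]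
    · rw [Set.indicator_of_notMem hx, Set.indicator_of_notMem hx, enorm_zero,
        zero_pow two_ne_zero]
  have hN4 : 4 ≤ N := by
    have h5 : 0 ≤ (4 + 2 * σ) / σ := by positivity
    have h6 : (4 : ℝ) ≤ N := by linarith
    exact_mod_cast h6
  have hnum := num hn ha hb hbn hσ hs (by linarith : (4 + 2 * σ) / σ + 3 ≤ N) hC
  obtain ⟨D, hD⟩ : ∃ D, D = C * (b ^ 2 * ((n : ℝ) / a) ^ N) := ⟨_, rfl⟩
  have hD0 : 0 ≤ D := by rw [hD]; positivity
  rw [← hD] at hnum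
  have hk : ∀ x, s ≤ ‖x‖ → ‖Fi (Tn n η) x‖ₑ ≤ ENNReal.ofReal (16 * C) * PP (1 / s) x := by
    intro x hx
    unfold PP
    rw [← ofReal_norm, ← ENNReal.ofReal_mul (by positivity)]
    apply ENNReal.ofReal_le_ofReal
    have hx0 : 0 < ‖x‖ := hs0.trans_le hx
    have hHx := hη4 x
    rw [← hD] at hHx
    obtain ⟨M, rfl⟩ : ∃ M, N = M + 4 := ⟨N - 4, by omega⟩
    have h3 : s ^ (M + 4) * (1 + 1 / s * ‖x‖) ^ 4 ≤ 16 * ‖x‖ ^ (M + 4) := by
      have e2 : s ^ (M + 4) * (1 + 1 / s * ‖x‖) ^ 4 = s ^ M * (s + ‖x‖) ^ 4 := by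
        rw [pow_add, mul_assoc, ← mul_pow]
        congr 2
        field_simp
      rw [e2, pow_add]
      calc s ^ M * (s + ‖x‖) ^ 4 ≤ ‖x‖ ^ M * (‖x‖ + ‖x‖) ^ 4 := by gcongr
        _ = 16 * (‖x‖ ^ M * ‖x‖ ^ 4) := by ring
    have h4 : ‖Fi (Tn n η) x‖ * (s ^ (M + 4) * (1 + 1 / s * ‖x‖) ^ 4) ≤ 16 * D := by
      calc ‖Fi (Tn n η) x‖ * (s ^ (M + 4) * (1 + 1 / s * ‖x‖) ^ 4)
          ≤ ‖Fi (Tn n η) x‖ * (16 * ‖x‖ ^ (M + 4)) := by gcongr
        _ = 16 * (‖Fi (Tn n η) x‖ * ‖x‖ ^ (M + 4)) := by ring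
        _ ≤ 16 * D := by linarith
    have h5 : D ≤ C * (s ^ (M + 4) * (1 / s) ^ 2) := by
      have e5 : 8 * D * (s ^ (M + 4))⁻¹ * s ^ 2 = 8 * D / (s ^ (M + 4) * (1 / s) ^ 2) := by
        field_simp
      rw [e5, div_le_iff₀ (by positivity)] at hnum
      nlinarith
    have h6 : ‖Fi (Tn n η) x‖ * (s ^ (M + 4) * (1 + 1 / s * ‖x‖) ^ 4) ≤
        16 * C * (1 / s) ^ 2 * s ^ (M + 4) := by
      calc _ ≤ 16 * D := h4
        _ ≤ 16 * (C * (s ^ (M + 4) * (1 / s) ^ 2)) := by gcongr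
        _ = _ := by ring
    have h7 : ‖Fi (Tn n η) x‖ * (1 + 1 / s * ‖x‖) ^ 4 ≤ 16 * C * (1 / s) ^ 2 := by
      have hsp : 0 < s ^ (M + 4) := by positivity
      refine le_of_mul_le_mul_right ?_ hsp
      calc ‖Fi (Tn n η) x‖ * (1 + 1 / s * ‖x‖) ^ 4 * s ^ (M + 4)
          = ‖Fi (Tn n η) x‖ * (s ^ (M + 4) * (1 + 1 / s * ‖x‖) ^ 4) := by ring
        _ ≤ _ := h6
    rw [← mul_assoc, ← div_eq_mul_inv, le_div_iff₀ (by positivity)]
    exact h7
  have hcore := core (H := Fi (Tn n η)) (f := Fi h) (F := Fi (Tn n h)) hρ hρ2 ht hw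
    bH1.measurable bf3.1 (fun z => (hcv z).1) (fun z => by rw [hTn]; exact (hcv z).2) hpl
    (ENNReal.ofReal (16 * C)) (ENNReal.ofReal C4) ENNReal.ofReal_ne_top
    (fun x => hRD (1 / s) w x (by positivity) hw) hk
  refine hcore.trans (mul_le_mul_left ?_ _)
  have hsr : (n : ℝ) ^ (1 + σ) / (a * ρ) = s / ρ := by rw [hs, div_div]
  rw [hsr, PP_int hs0, ← hK]
  have ht0 : 0 < t := by linarith
  have hr : 1 ≤ (s / ρ) ^ (2 / t) :=
    Real.one_le_rpow ((one_le_div hρ).2 hρ2) (by positivity)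
  have e4 : (4 : ℝ≥0∞) = ENNReal.ofReal 4 := by norm_num
  have e16 : (16 : ℝ≥0∞) = ENNReal.ofReal 16 := by norm_num
  calc 4 * ((volume (Metric.ball (0 : ℂ) s))⁻¹ * volume (Metric.ball (0 : ℂ) (3 * s)) *
        ((volume (Metric.ball (0 : ℂ) ρ))⁻¹ * volume (Metric.ball (0 : ℂ) (4 * s))) ^ (1 / t)) +
      4 * (ENNReal.ofReal (16 * C) ^ 2 * K * 16 * ENNReal.ofReal C4)
      ≤ 4 * ENNReal.ofReal (144 * (s / ρ) ^ (2 / t)) +
      4 * (ENNReal.ofReal (16 * C) ^ 2 * K * 16 * ENNReal.ofReal C4) :=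
        add_le_add (mul_le_mul_right (num2 hs0 hρ ht) _) le_rfl
    _ = ENNReal.ofReal (4 * (144 * (s / ρ) ^ (2 / t)) +
        4 * ((16 * C) ^ 2 * K.toReal * 16 * C4)) := by
        have g1 : ENNReal.ofReal (4 * (144 * (s / ρ) ^ (2 / t))) =
            4 * ENNReal.ofReal (144 * (s / ρ) ^ (2 / t)) := by
          rw [ENNReal.ofReal_mul (by norm_num : (0 : ℝ) ≤ 4), ← e4]
        have g2 : ENNReal.ofReal (4 * ((16 * C) ^ 2 * K.toReal * 16 * C4)) =
            4 * (ENNReal.ofReal (16 * C) ^ 2 * K * 16 * ENNReal.ofReal C4) := by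
          rw [ENNReal.ofReal_mul (by norm_num : (0 : ℝ) ≤ 4), ← e4,
            ENNReal.ofReal_mul (by positivity : 0 ≤ (16 * C) ^ 2 * K.toReal * 16),
            ENNReal.ofReal_mul (by positivity : 0 ≤ (16 * C) ^ 2 * K.toReal),
            ENNReal.ofReal_mul (by positivity : 0 ≤ (16 * C) ^ 2),
            ENNReal.ofReal_pow (by positivity), ENNReal.ofReal_toReal hKtop, ← e16]
        rw [ENNReal.ofReal_add (by positivity) (by positivity), g1, g2]
    _ ≤ _ := by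
        apply ENNReal.ofReal_le_ofReal
        have hq : 0 ≤ (16 * C) ^ 2 * K.toReal * C4 := by positivity
        nlinarith [mul_le_mul_of_nonneg_left hr hq]

end Pool.Agent.N892.BW.GWT
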