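import Pool.Agent.N892.BW.Stm2

/-!
HKD: decay of the kernel of `T ^ n` restricted to an annulus of frequencies (helper433).
-/

set_option autoImplicit false

open MeasureTheory Filter Topology Complex Set
open scoped ComplexConjugate ContDiff Nat FourierTransform

namespace Pool.Agent.N892.BW.HKD

/-! ### functions with bounded derivatives -/

/-- derivatives up to the order `N` bounded by `K R ^ i` -/
def HB (N : ℕ) (s : Set ℂ) (K R : ℝ) (f : ℂ → ℂ) : Prop :=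
  ∀ i ≤ N, ∀ x ∈ s, ‖iteratedFDerivWithin ℝ i f s x‖ ≤ K * R ^ i

lemma HB.mul {N : ℕ} {s : Set ℂ} {K K' R : ℝ} {f g : ℂ → ℂ} (hs : IsOpen s) (hf : ContDiffOn ℝ ∞ f s)
    (hg : ContDiffOn ℝ ∞ g s) (hK : 0 ≤ K) (hK' : 0 ≤ K') (hR : 0 ≤ R) (h1 : HB N s K R f)
    (h2 : HB N s K' R g) : HB N s (2 ^ N * K * K') R (fun x => f x * g x) := by
  intro i hi x hx
  have h3 := norm_iteratedFDerivWithin_mul_le hf hg hs.uniqueDiffOn hx (n := i) (by exact_mod_cast le_top)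
  refine h3.trans ?_
  have h4 : ∑ j ∈ Finset.range (i + 1), (i.choose j : ℝ) * ‖iteratedFDerivWithin ℝ j f s x‖ *
      ‖iteratedFDerivWithin ℝ (i - j) g s x‖ ≤
      ∑ j ∈ Finset.range (i + 1), (i.choose j : ℝ) * (K * K' * R ^ i) := by
    refine Finset.sum_le_sum fun j hj => ?_
    have hj' : j ≤ i := Nat.lt_succ_iff.1 (Finset.mem_range.1 hj)
    have a1 := h1 j (hj'.trans hi) x hx
    have a2 := h2 (i - j) ((Nat.sub_le _ _).trans hi) x hx
    have a3 : R ^ i = R ^ j * R ^ (i - j) := by rw [← pow_add, Nat.add_sub_cancel' hj']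
    calc (i.choose j : ℝ) * ‖iteratedFDerivWithin ℝ j f s x‖ * ‖iteratedFDerivWithin ℝ (i - j) g s x‖
        ≤ (i.choose j : ℝ) * (K * R ^ j) * (K' * R ^ (i - j)) := by gcongr
      _ = (i.choose j : ℝ) * (K * K' * R ^ i) := by rw [a3]; ring
  refine h4.trans ?_
  rw [← Finset.sum_mul]
  have h5 : ∑ j ∈ Finset.range (i + 1), (i.choose j : ℝ) = 2 ^ i := by
    exact_mod_cast Nat.sum_range_choose i
  rw [h5]
  have h6 : (2 : ℝ) ^ i ≤ 2 ^ N := pow_le_pow_right₀ (by norm_num) hi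
  calc (2 : ℝ) ^ i * (K * K' * R ^ i) ≤ 2 ^ N * (K * K' * R ^ i) := by gcongr
    _ = 2 ^ N * K * K' * R ^ i := by ring

/-! ### the symbol -/

/-- the phase of the symbol near `1` -/
noncomputable def ph (ξ : ℂ) : ℂ := conj (Complex.log ξ) - Complex.log ξ

lemma ph_smooth : ContDiffOn ℝ ∞ ph slitPlane := by
  intro x hx
  have h1 : ContDiffAt ℝ ∞ Complex.log x := (Complex.contDiffAt_log hx).restrict_scalars ℝ
  have h2 : ContDiffAt ℝ ∞ (fun ξ : ℂ => conj (Complex.log ξ)) x :=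
    (Complex.conjCLE.contDiff.contDiffAt (x := Complex.log x)).comp x h1
  exact (h2.sub h1).contDiffWithinAt

lemma sy_eq {ξ : ℂ} (h : ξ ∈ slitPlane) (n : ℕ) : sy n ξ = Complex.exp (((n : ℝ) • ph) ξ) := by
  have h0 : ξ ≠ 0 := slitPlane_ne_zero h
  have e1 : ((n : ℝ) • ph) ξ = (n : ℂ) * ph ξ := by
    simp [Pi.smul_apply, Complex.real_smul]
  rw [e1, Complex.exp_nat_mul]
  unfold sy ph
  rw [Complex.exp_sub, Complex.exp_conj, Complex.exp_log h0]

lemma sy_one (N : ℕ) : ∃ K D : ℝ, 0 ≤ K ∧ 1 ≤ D ∧ ∀ n : ℕ, 1 ≤ n → ∀ i ≤ N,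
    ‖iteratedFDerivWithin ℝ i (sy n) slitPlane 1‖ ≤ K * ((n : ℝ) * D) ^ i := by
  set C : ℝ := ∑ i ∈ Finset.range (N + 1), ‖iteratedFDerivWithin ℝ i Complex.exp univ 0‖ with hC
  set D : ℝ := 1 + ∑ i ∈ Finset.range (N + 1), ‖iteratedFDerivWithin ℝ i ph slitPlane 1‖ with hD
  have hC0 : 0 ≤ C := Finset.sum_nonneg fun i _ => norm_nonneg _
  have hS0 : 0 ≤ ∑ i ∈ Finset.range (N + 1), ‖iteratedFDerivWithin ℝ i ph slitPlane 1‖ :=
    Finset.sum_nonneg fun i _ => norm_nonneg _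
  have hD1 : 1 ≤ D := by linarith
  refine ⟨(N ! : ℝ) * C, D, by positivity, hD1, fun n hn i hi => ?_⟩
  have hn1 : (1 : ℝ) ≤ n := by exact_mod_cast hn
  have h1 : (1 : ℂ) ∈ slitPlane := one_mem_slitPlane
  have hop : IsOpen slitPlane := isOpen_slitPlane
  have hcg : iteratedFDerivWithin ℝ i (sy n) slitPlane 1 =
      iteratedFDerivWithin ℝ i (Complex.exp ∘ ((n : ℝ) • ph)) slitPlane 1 :=
    iteratedFDerivWithin_congr (fun ξ hξ => sy_eq hξ n) h1 i
  rw [hcg]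
  have hph : ContDiffOn ℝ ∞ ((n : ℝ) • ph) slitPlane := contDiffOn_const.smul ph_smooth
  have hexp : ContDiffOn ℝ ∞ Complex.exp univ := Complex.contDiff_exp.contDiffOn
  have h0 : ((n : ℝ) • ph) 1 = 0 := by simp [ph]
  have hmain := norm_iteratedFDerivWithin_comp_le (n := i) (x := (1 : ℂ)) hexp hph
    (by exact_mod_cast le_top) uniqueDiffOn_univ hop.uniqueDiffOn (mapsTo_univ _ _) h1 (C := C)
    (D := (n : ℝ) * D) (by
      intro j hj
      rw [h0]
      exact Finset.single_le_sum (f := fun j => ‖iteratedFDerivWithin ℝ j Complex.exp univ 0‖)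
        (fun _ _ => norm_nonneg _) (Finset.mem_range.2 (by omega))) (by
      intro j hj1 hj
      rw [iteratedFDerivWithin_const_smul_apply
        ((ph_smooth 1 h1).of_le (by exact_mod_cast le_top)) hop.uniqueDiffOn h1, norm_smul]
      have h2 : ‖iteratedFDerivWithin ℝ j ph slitPlane 1‖ ≤ D := by
        have := Finset.single_le_sum (f := fun j => ‖iteratedFDerivWithin ℝ j ph slitPlane 1‖)
          (s := Finset.range (N + 1)) (fun _ _ => norm_nonneg _) (Finset.mem_range.2 (by omega : j < N + 1))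
        linarith
      rw [Real.norm_of_nonneg (by linarith : (0 : ℝ) ≤ n)]
      have h3 : (n : ℝ) * D ≤ ((n : ℝ) * D) ^ j := by
        refine le_self_pow₀ ?_ (by omega)
        nlinarith
      exact (mul_le_mul_of_nonneg_left h2 (by linarith)).trans h3)
  refine hmain.trans ?_
  have h4 : ((i ! : ℕ) : ℝ) ≤ ((N ! : ℕ) : ℝ) := by exact_mod_cast Nat.factorial_le hi
  have h5 : 0 ≤ ((n : ℝ) * D) ^ i := by positivity
  gcongr

lemma sy_split (n : ℕ) (u ξ : ℂ) (hu : u ≠ 0) : sy n ξ = sy n u * sy n (u⁻¹ * ξ) := by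
  unfold sy
  rw [← mul_pow]
  congr 1
  have hu' : conj u ≠ 0 := by simpa using hu
  rw [map_mul, map_inv₀, div_eq_mul_inv, div_eq_mul_inv, div_eq_mul_inv, mul_inv, inv_inv]
  field_simp

lemma sy_norm (n : ℕ) (u : ℂ) (hu : u ≠ 0) : ‖sy n u‖ = 1 := by
  unfold sy
  rw [norm_pow, norm_div, RCLike.norm_conj, div_self (norm_ne_zero_iff.2 hu), one_pow]

lemma sy_smooth (n : ℕ) {ξ : ℂ} (h : ξ ≠ 0) : ContDiffAt ℝ ∞ (sy n) ξ := by
  unfold sy
  simp only [div_eq_mul_inv]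
  have h1 : ContDiffAt ℝ ∞ (fun z : ℂ => conj z) ξ := Complex.conjCLE.contDiff.contDiffAt
  exact (h1.mul (contDiffAt_id.inv h)).pow n

lemma sy_bound (N : ℕ) : ∃ K D : ℝ, 0 ≤ K ∧ 1 ≤ D ∧ ∀ n : ℕ, 1 ≤ n → ∀ i ≤ N, ∀ u : ℂ, u ≠ 0 →
    ‖iteratedFDeriv ℝ i (sy n) u‖ ≤ K * ((n : ℝ) * D * ‖u‖⁻¹) ^ i := by
  obtain ⟨K, D, hK, hD, h⟩ := sy_one N
  refine ⟨K, D, hK, hD, fun n hn i hi u hu => ?_⟩
  set g : ℂ →L[ℝ] ℂ := ContinuousLinearMap.mul ℝ ℂ u⁻¹ with hg
  have hgu : g u = 1 := by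
    rw [hg, ContinuousLinearMap.mul_apply', inv_mul_cancel₀ hu]
  have hop : IsOpen (g ⁻¹' slitPlane) := isOpen_slitPlane.preimage g.continuous
  have hmem : u ∈ g ⁻¹' slitPlane := by
    rw [mem_preimage, hgu]
    exact one_mem_slitPlane
  have hsm : ContDiffOn ℝ ∞ (sy n) slitPlane := fun ξ hξ => (sy_smooth n (slitPlane_ne_zero hξ)).contDiffWithinAt
  have h1 : iteratedFDerivWithin ℝ i (sy n ∘ g) (g ⁻¹' slitPlane) u =
      (iteratedFDerivWithin ℝ i (sy n) slitPlane (g u)).compContinuousLinearMap fun _ => g :=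
    g.iteratedFDerivWithin_comp_right hsm isOpen_slitPlane.uniqueDiffOn hop.uniqueDiffOn hmem
      (by exact_mod_cast le_top)
  have h2 : sy n = (sy n u) • (sy n ∘ g) := by
    funext ξ
    rw [Pi.smul_apply, smul_eq_mul, Function.comp, hg, ContinuousLinearMap.mul_apply']
    exact sy_split n u ξ hu
  have hsm2 : ContDiffWithinAt ℝ i (sy n ∘ g) (g ⁻¹' slitPlane) u := by
    have h3 : ContDiffOn ℝ ∞ (sy n ∘ g) (g ⁻¹' slitPlane) := hsm.comp_continuousLinearMap g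
    exact (h3 u hmem).of_le (by exact_mod_cast le_top)
  have h3 : iteratedFDeriv ℝ i (sy n) u = (sy n u) • iteratedFDerivWithin ℝ i (sy n ∘ g) (g ⁻¹' slitPlane) u := by
    rw [← iteratedFDerivWithin_of_isOpen i hop hmem]
    conv_lhs => rw [h2]
    exact iteratedFDerivWithin_const_smul_apply hsm2 hop.uniqueDiffOn hmem
  rw [h3, norm_smul, sy_norm n u hu, one_mul, h1, hgu]
  refine (ContinuousMultilinearMap.norm_compContinuousLinearMap_le _ _).trans ?_
  rw [Finset.prod_const, Finset.card_univ, Fintype.card_fin]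
  have hgn : ‖g‖ ≤ ‖u‖⁻¹ := by
    rw [hg, ← norm_inv]
    exact ContinuousLinearMap.opNorm_mul_apply_le ℝ ℂ u⁻¹
  calc ‖iteratedFDerivWithin ℝ i (sy n) slitPlane 1‖ * ‖g‖ ^ i ≤ (K * ((n : ℝ) * D) ^ i) * (‖u‖⁻¹) ^ i := by
        gcongr
        exact h n hn i hi
    _ = K * ((n : ℝ) * D * ‖u‖⁻¹) ^ i := by rw [mul_pow ((n : ℝ) * D)]; ring

/-! ### the cut-off function -/

/-- a smooth bump function on the disc of radius `2` -/
noncomputable def bump : ContDiffBump (0 : ℂ) := ⟨1, 2, by norm_num, by norm_num⟩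

/-- the bump function as a complex valued function -/
noncomputable def th (x : ℂ) : ℂ := ((bump x : ℝ) : ℂ)

lemma th_smooth : ContDiff ℝ ∞ th := Complex.ofRealCLM.contDiff.comp bump.contDiff

lemma th_one {x : ℂ} (h : ‖x‖ ≤ 1) : th x = 1 := by
  have h1 : bump x = 1 := by
    apply bump.one_of_mem_closedBall
    rw [mem_closedBall_zero_iff]
    exact h
  simp [th, h1]

lemma th_zero {x : ℂ} (h : 2 ≤ ‖x‖) : th x = 0 := by
  have h1 : bump x = 0 := by
    apply bump.zero_of_le_dist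
    rw [dist_zero_right]
    exact h
  simp [th, h1]

lemma th_norm (x : ℂ) : ‖th x‖ ≤ 1 := by
  unfold th
  rw [Complex.norm_real, Real.norm_of_nonneg bump.nonneg]
  exact bump.le_one

lemma one_sub_th_norm (x : ℂ) : ‖1 - th x‖ ≤ 1 := by
  unfold th
  have h1 : (1 : ℂ) - ((bump x : ℝ) : ℂ) = ((1 - bump x : ℝ) : ℂ) := by push_cast; ring
  rw [h1, Complex.norm_real, Real.norm_of_nonneg (by linarith [bump.le_one (x := x)])]
  linarith [bump.nonneg (x := x)]

lemma th_supp : HasCompactSupport th := by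
  refine HasCompactSupport.of_support_subset_isCompact (isCompact_closedBall (0 : ℂ) 2) ?_
  intro x hx
  rw [mem_closedBall_zero_iff]
  by_contra h
  exact hx (th_zero (not_le.1 h).le)

lemma th_bound (N : ℕ) : ∃ M : ℝ, 1 ≤ M ∧ ∀ i ≤ N, ∀ x : ℂ, ‖iteratedFDeriv ℝ i th x‖ ≤ M := by
  have h : ∀ i : ℕ, ∃ M : ℝ, ∀ x : ℂ, ‖iteratedFDeriv ℝ i th x‖ ≤ M := by
    intro i
    have hc : Continuous (iteratedFDeriv ℝ i th) :=
      th_smooth.continuous_iteratedFDeriv (by exact_mod_cast le_top)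
    obtain ⟨M, hM⟩ := (th_supp.iteratedFDeriv i).exists_bound_of_continuous hc
    exact ⟨M, hM⟩
  choose M hM using h
  refine ⟨1 + ∑ i ∈ Finset.range (N + 1), |M i|, ?_, fun i hi x => ?_⟩
  · have := Finset.sum_nonneg fun i (_ : i ∈ Finset.range (N + 1)) => abs_nonneg (M i)
    linarith
  · have h1 := Finset.single_le_sum (f := fun i => |M i|) (s := Finset.range (N + 1))
      (fun _ _ => abs_nonneg _) (Finset.mem_range.2 (by omega : i < N + 1))
    have h2 := hM i x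
    have h3 := le_abs_self (M i)
    linarith

/-- the dilated bump function -/
noncomputable def dl (c : ℝ) (x : ℂ) : ℂ := th ((c : ℂ) * x)

lemma dl_smooth (c : ℝ) : ContDiff ℝ ∞ (dl c) :=
  th_smooth.comp (contDiff_const.mul contDiff_id)

lemma dl_bound {N : ℕ} {M : ℝ} (hM0 : 0 ≤ M) (hM : ∀ i ≤ N, ∀ x : ℂ, ‖iteratedFDeriv ℝ i th x‖ ≤ M) {c : ℝ}
    (hc : 0 ≤ c) : ∀ i ≤ N, ∀ x : ℂ, ‖iteratedFDeriv ℝ i (dl c) x‖ ≤ M * c ^ i := by
  intro i hi x
  set g : ℂ →L[ℝ] ℂ := ContinuousLinearMap.mul ℝ ℂ (c : ℂ) with hg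
  have h1 : dl c = th ∘ g := rfl
  rw [h1, g.iteratedFDeriv_comp_right th_smooth x (i := i) (by exact_mod_cast le_top)]
  refine (ContinuousMultilinearMap.norm_compContinuousLinearMap_le _ _).trans ?_
  rw [Finset.prod_const, Finset.card_univ, Fintype.card_fin]
  have hgn : ‖g‖ ≤ c := by
    have := ContinuousLinearMap.opNorm_mul_apply_le ℝ ℂ (c : ℂ)
    rwa [Complex.norm_real, Real.norm_of_nonneg hc] at this
  have := hM i hi (g x)
  gcongr

lemma one_sub_dl_bound {N : ℕ} {M : ℝ} (hM0 : 1 ≤ M)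
    (hM : ∀ i ≤ N, ∀ x : ℂ, ‖iteratedFDeriv ℝ i th x‖ ≤ M) {c : ℝ}
    (hc : 0 ≤ c) : ∀ i ≤ N, ∀ x : ℂ, ‖iteratedFDeriv ℝ i (fun x => 1 - dl c x) x‖ ≤ M * c ^ i := by
  intro i hi x
  rcases Nat.eq_zero_or_pos i with h | h
  · subst h
    rw [norm_iteratedFDeriv_zero, pow_zero, mul_one]
    exact (one_sub_th_norm _).trans hM0
  · have h1 : iteratedFDeriv ℝ i (fun x => 1 - dl c x) x = - iteratedFDeriv ℝ i (dl c) x := by
      rw [fun_iteratedFDeriv_sub_apply (contDiffAt_const)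
        ((dl_smooth c).contDiffAt.of_le (by exact_mod_cast le_top)), iteratedFDeriv_const_of_ne (by omega)]
      simp
    rw [h1, norm_neg]
    exact dl_bound (by linarith) hM hc i hi x

/-! ### the Fourier integral -/

lemma Fi_eq (f : ℂ → ℂ) (x : ℂ) : Fi f x = 𝓕 f (-x) := by
  rw [Real.fourier_eq']
  unfold Fi e2
  refine integral_congr_ae (Eventually.of_forall fun ξ => ?_)
  simp only
  rw [smul_eq_mul]
  congr 2
  rw [inner_neg_right, Complex.inner]
  simp only [Complex.mul_re, Complex.conj_re, Complex.conj_im]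
  push_cast
  ring

lemma Fi_bound (f : ℂ → ℂ) (hf : ContDiff ℝ ∞ f) (hs : HasCompactSupport f) (N : ℕ) (x : ℂ) :
    ‖Fi f x‖ * ‖x‖ ^ N ≤ ∫ ξ, ‖iteratedFDeriv ℝ N f ξ‖ := by
  have hint : ∀ n : ℕ, (n : ℕ∞) ≤ (⊤ : ℕ∞) → Integrable (iteratedFDeriv ℝ n f) := fun n _ =>
    (hf.continuous_iteratedFDeriv (by exact_mod_cast le_top)).integrable_of_hasCompactSupport
      (hs.iteratedFDeriv n)
  have h0 : 0 ≤ ∫ ξ, ‖iteratedFDeriv ℝ N f ξ‖ := integral_nonneg fun _ => norm_nonneg _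
  have h1 := congrFun (Real.fourier_iteratedFDeriv (N := ⊤) hf hint (n := N) le_top) (-x)
  have h2 : ‖𝓕 (iteratedFDeriv ℝ N f) (-x)‖ ≤ ∫ ξ, ‖iteratedFDeriv ℝ N f ξ‖ :=
    VectorFourier.norm_fourierIntegral_le_integral_norm _ _ _ _ _
  have h3 : ‖(𝓕 (iteratedFDeriv ℝ N f) (-x)) (fun _ => -x)‖ ≤
      (∫ ξ, ‖iteratedFDeriv ℝ N f ξ‖) * ‖x‖ ^ N := by
    refine (ContinuousMultilinearMap.le_opNorm _ _).trans ?_
    rw [Finset.prod_const, Finset.card_univ, Fintype.card_fin, norm_neg]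
    gcongr
  rw [h1, VectorFourier.fourierPowSMulRight_apply, norm_smul, norm_smul, ← Fi_eq] at h3
  have h4 : ‖(-(2 * (Real.pi : ℂ) * I)) ^ N‖ = (2 * Real.pi) ^ N := by
    rw [norm_pow, norm_neg, norm_mul, norm_mul, Complex.norm_I, Complex.norm_real,
      Real.norm_of_nonneg Real.pi_nonneg]
    simp
  have h5 : ‖∏ _i : Fin N, ((-innerSL ℝ) (-x)) (-x)‖ = ‖x‖ ^ N * ‖x‖ ^ N := by
    rw [Finset.prod_const, Finset.card_univ, Fintype.card_fin, norm_pow, ← mul_pow]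
    congr 1
    simp only [neg_apply, innerSL_apply_apply, norm_neg]
    rw [real_inner_self_eq_norm_sq, norm_neg, Real.norm_of_nonneg (by positivity)]
    ring
  rw [h4, h5] at h3
  rcases (pow_nonneg (norm_nonneg x) N).eq_or_lt with h | h
  · rw [← h, mul_zero]
    exact h0
  · have h6 : (1 : ℝ) ≤ (2 * Real.pi) ^ N := one_le_pow₀ (by linarith [Real.pi_gt_three])
    have h7 : (‖Fi f x‖ * ‖x‖ ^ N) * ‖x‖ ^ N ≤ (∫ ξ, ‖iteratedFDeriv ℝ N f ξ‖) * ‖x‖ ^ N := by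
      refine le_trans ?_ h3
      have h8 : 0 ≤ ‖x‖ ^ N * ‖x‖ ^ N * ‖Fi f x‖ := by positivity
      calc (‖Fi f x‖ * ‖x‖ ^ N) * ‖x‖ ^ N = 1 * (‖x‖ ^ N * ‖x‖ ^ N * ‖Fi f x‖) := by ring
        _ ≤ (2 * Real.pi) ^ N * (‖x‖ ^ N * ‖x‖ ^ N * ‖Fi f x‖) := by gcongr
    exact le_of_mul_le_mul_right h7 h

/-! ### the main estimate -/

lemma vol (b : ℝ) (hb : 0 < b) : (volume : Measure ℂ).real (Metric.closedBall 0 (2 * b)) = 4 * Real.pi * b ^ 2 := by
  rw [Measure.real, Complex.volume_closedBall, ENNReal.toReal_mul, ENNReal.toReal_pow,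
    ENNReal.toReal_ofReal (by linarith)]
  simp only [ENNReal.coe_toReal, NNReal.coe_real_pi]
  ring

/-- the cut-off function of the annulus -/
noncomputable def et (a b : ℝ) (ξ : ℂ) : ℂ := dl b⁻¹ ξ * (1 - dl (2 / a) ξ)

lemma et_smooth (a b : ℝ) : ContDiff ℝ ∞ (et a b) :=
  (dl_smooth _).mul (contDiff_const.sub (dl_smooth _))

lemma et_supp {a b : ℝ} (ha : 0 < a) (hab : a ≤ b) {ξ : ℂ} (h : et a b ξ ≠ 0) : a / 2 ≤ ‖ξ‖ ∧ ‖ξ‖ ≤ 2 * b := by
  have hb : 0 < b := lt_of_lt_of_le ha hab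
  constructor
  · by_contra hc
    push Not at hc
    apply h
    unfold et dl
    rw [th_one (x := ((2 / a : ℝ) : ℂ) * ξ), sub_self, mul_zero]
    rw [norm_mul, Complex.norm_real, Real.norm_of_nonneg (by positivity), div_mul_eq_mul_div, div_le_one ha]
    linarith
  · by_contra hc
    push Not at hc
    apply h
    unfold et dl
    rw [th_zero (x := ((b⁻¹ : ℝ) : ℂ) * ξ), zero_mul]
    rw [norm_mul, Complex.norm_real, Real.norm_of_nonneg (by positivity), inv_mul_eq_div, le_div_iff₀ hb]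
    exact hc.le

lemma et_norm (a b : ℝ) (ξ : ℂ) : ‖et a b ξ‖ ≤ 1 := by
  unfold et
  rw [norm_mul]
  exact mul_le_one₀ (th_norm _) (norm_nonneg _) (one_sub_th_norm _)

lemma et_one {a b : ℝ} (ha : 0 < a) (hab : a ≤ b) {ξ : ℂ} (h1 : a ≤ ‖ξ‖) (h2 : ‖ξ‖ ≤ b) : et a b ξ = 1 := by
  have hb : 0 < b := lt_of_lt_of_le ha hab
  unfold et dl
  rw [th_zero (x := ((2 / a : ℝ) : ℂ) * ξ), th_one, sub_zero, mul_one]
  · rw [norm_mul, Complex.norm_real, Real.norm_of_nonneg (by positivity), inv_mul_eq_div, div_le_one hb]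
    exact h2
  · rw [norm_mul, Complex.norm_real, Real.norm_of_nonneg (by positivity), div_mul_eq_mul_div, le_div_iff₀ ha]
    linarith

lemma Tn_smooth {n : ℕ} {η : ℂ → ℂ} {a b : ℝ} (ha : 0 < a) (h : Bd a b η) : ContDiff ℝ ∞ (Tn n η) := by
  rw [contDiff_iff_contDiffAt]
  intro ξ
  by_cases hξ : ξ = 0
  · subst hξ
    have h1 : Tn n η =ᶠ[𝓝 (0 : ℂ)] fun _ => 0 := by
      filter_upwards [Metric.ball_mem_nhds (0 : ℂ) ha] with x hx
      rw [mem_ball_zero_iff] at hx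
      have h2 : η x = 0 := by
        by_contra hc
        exact absurd (h.2 x hc).1 (not_le.2 hx)
      unfold Tn
      rw [h2, mul_zero]
    exact contDiffAt_const.congr_of_eventuallyEq h1
  · exact (sy_smooth n hξ).mul h.1.contDiffAt

theorem t : Pool.Agent.N892.BW.S_HKD := by
  intro N
  obtain ⟨K, D, hK, hD, hsy⟩ := sy_bound N
  obtain ⟨M, hM1, hM⟩ := th_bound N
  have hM0 : 0 ≤ M := by linarith
  have hD0 : 0 ≤ D := by linarith
  refine ⟨(2 ^ N * (K * (4 * D) ^ N) * (2 ^ N * M * (M * 2 ^ N))) * (4 * Real.pi), by positivity,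
    fun n a b hn ha hab => ?_⟩
  have hb : 0 < b := lt_of_lt_of_le ha hab
  have hbd : Bd (a / 2) (2 * b) (et a b) := ⟨et_smooth a b, fun ξ h => et_supp ha hab h⟩
  refine ⟨et a b, hbd, et_norm a b, fun ξ h1 h2 => et_one ha hab h1 h2, fun x => ?_⟩
  have hn1 : (1 : ℝ) ≤ n := by exact_mod_cast hn
  set R : ℝ := (n : ℝ) / a with hR
  have hR0 : 0 ≤ R := by positivity
  have hRa : 1 / a ≤ R := by
    rw [hR]
    gcongr
  set s : Set ℂ := {ξ : ℂ | a / 4 < ‖ξ‖} with hs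
  have hso : IsOpen s := isOpen_lt continuous_const continuous_norm
  have hs0 : ∀ ξ ∈ s, ξ ≠ 0 := by
    intro ξ hξ h0
    have hξ' : a / 4 < ‖ξ‖ := hξ
    rw [h0, norm_zero] at hξ'
    linarith
  have b1 : HB N s (K * (4 * D) ^ N) R (sy n) := by
    intro i hi y hy
    rw [iteratedFDerivWithin_of_isOpen i hso hy]
    refine (hsy n hn i hi y (hs0 y hy)).trans ?_
    have hy' : a / 4 < ‖y‖ := hy
    have h1 : ‖y‖⁻¹ ≤ 4 * (1 / a) := by
      rw [inv_le_comm₀ (by linarith) (by positivity)]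
      have : (4 * (1 / a))⁻¹ = a / 4 := by field_simp
      rw [this]
      exact hy'.le
    have h2 : (n : ℝ) * D * ‖y‖⁻¹ ≤ (4 * D) * R := by
      calc (n : ℝ) * D * ‖y‖⁻¹ ≤ (n : ℝ) * D * (4 * (1 / a)) := by gcongr
        _ = (4 * D) * R := by rw [hR]; ring
    calc K * ((n : ℝ) * D * ‖y‖⁻¹) ^ i ≤ K * ((4 * D) * R) ^ i := by gcongr
      _ = K * (4 * D) ^ i * R ^ i := by rw [mul_pow (4 * D)]; ring
      _ ≤ K * (4 * D) ^ N * R ^ i := by
        gcongr
        linarith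
  have b2 : HB N s M R (dl b⁻¹) := by
    intro i hi y hy
    rw [iteratedFDerivWithin_of_isOpen i hso hy]
    refine (dl_bound hM0 hM (by positivity) i hi y).trans ?_
    have h1 : b⁻¹ ≤ R := by
      refine le_trans ?_ hRa
      rw [one_div]
      exact inv_anti₀ ha hab
    gcongr
  have b3 : HB N s (M * 2 ^ N) R (fun y => 1 - dl (2 / a) y) := by
    intro i hi y hy
    rw [iteratedFDerivWithin_of_isOpen i hso hy]
    refine (one_sub_dl_bound hM1 hM (by positivity) i hi y).trans ?_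
    have h1 : 2 / a ≤ 2 * R := by
      have : 2 / a = 2 * (1 / a) := by ring
      rw [this]
      gcongr
    calc M * (2 / a) ^ i ≤ M * (2 * R) ^ i := by gcongr
      _ = M * 2 ^ i * R ^ i := by rw [mul_pow]; ring
      _ ≤ M * 2 ^ N * R ^ i := by
        gcongr
        norm_num
  have c1 : ContDiffOn ℝ ∞ (sy n) s := fun ξ hξ => (sy_smooth n (hs0 ξ hξ)).contDiffWithinAt
  have b4 : HB N s (2 ^ N * M * (M * 2 ^ N)) R (et a b) :=
    HB.mul hso (dl_smooth _).contDiffOn (contDiff_const.sub (dl_smooth _)).contDiffOn hM0 (by positivity) hR0 b2 b3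
  have b5 : HB N s (2 ^ N * (K * (4 * D) ^ N) * (2 ^ N * M * (M * 2 ^ N))) R (Tn n (et a b)) :=
    HB.mul hso c1 (et_smooth a b).contDiffOn (by positivity) (by positivity) hR0 b1 b4
  set C : ℝ := 2 ^ N * (K * (4 * D) ^ N) * (2 ^ N * M * (M * 2 ^ N)) with hC
  have hC0 : 0 ≤ C := by positivity
  have hT : ContDiff ℝ ∞ (Tn n (et a b)) := Tn_smooth (by positivity : (0 : ℝ) < a / 2) hbd
  have hTs : ∀ ξ, Tn n (et a b) ξ ≠ 0 → a / 2 ≤ ‖ξ‖ ∧ ‖ξ‖ ≤ 2 * b := fun ξ h =>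
    et_supp ha hab (right_ne_zero_of_mul h)
  have hts : tsupport (Tn n (et a b)) ⊆ {ξ : ℂ | a / 2 ≤ ‖ξ‖ ∧ ‖ξ‖ ≤ 2 * b} :=
    closure_minimal (fun ξ h => hTs ξ h)
      ((isClosed_le continuous_const continuous_norm).inter (isClosed_le continuous_norm continuous_const))
  have hTc : HasCompactSupport (Tn n (et a b)) := by
    refine HasCompactSupport.of_support_subset_isCompact (isCompact_closedBall (0 : ℂ) (2 * b)) ?_
    intro ξ hξ
    rw [mem_closedBall_zero_iff]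
    exact (hTs ξ hξ).2
  refine (Fi_bound _ hT hTc N x).trans ?_
  have hpt : ∀ ξ, ‖iteratedFDeriv ℝ N (Tn n (et a b)) ξ‖ ≤
      (Metric.closedBall (0 : ℂ) (2 * b)).indicator (fun _ => C * R ^ N) ξ := by
    intro ξ
    by_cases h : iteratedFDeriv ℝ N (Tn n (et a b)) ξ = 0
    · rw [h, norm_zero]
      exact indicator_nonneg (fun _ _ => by positivity) ξ
    · have h1 := hts (support_iteratedFDeriv_subset N h)
      have h2 : ξ ∈ s := by
        have := h1.1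
        show a / 4 < ‖ξ‖
        linarith
      rw [indicator_of_mem (mem_closedBall_zero_iff.2 h1.2)]
      have h3 := b5 N le_rfl ξ h2
      rwa [iteratedFDerivWithin_of_isOpen N hso h2] at h3
  calc ∫ ξ, ‖iteratedFDeriv ℝ N (Tn n (et a b)) ξ‖
      ≤ ∫ ξ, (Metric.closedBall (0 : ℂ) (2 * b)).indicator (fun _ => C * R ^ N) ξ := by
        refine integral_mono_of_nonneg (Eventually.of_forall fun _ => norm_nonneg _) ?_
          (Eventually.of_forall hpt)
        rw [integrable_indicator_iff Metric.isClosed_closedBall.measurableSet]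
        exact integrableOn_const (isCompact_closedBall (0 : ℂ) (2 * b)).measure_lt_top.ne
    _ = (4 * Real.pi * b ^ 2) * (C * R ^ N) := by
        rw [integral_indicator_const _ Metric.isClosed_closedBall.measurableSet, vol b hb, smul_eq_mul]
    _ = C * (4 * Real.pi) * (b ^ 2 * R ^ N) := by ring

end Pool.Agent.N892.BW.HKD
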