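import Mathlib
import Pool.Agent.N892.BW.Stm3

/-!
The maximal theorem of Hardy and Littlewood on the complex plane, strong type (helper128; the
discrete version follows the file `Pool/Agent/Y7/Hl.lean` of helper7).
-/

set_option autoImplicit false

open MeasureTheory Set Metric
open scoped ENNReal

namespace Pool.Agent.N892.BW.HLM

/-- The radii. -/
noncomputable def Rr (R₀ : ℝ) (m : ℕ) : ℝ := R₀ / 2 ^ m

/-- averages over discs -/
noncomputable def Av (g : ℂ → ℝ≥0∞) (r : ℝ) (x : ℂ) : ℝ≥0∞ :=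
  (volume (ball x r))⁻¹ * ∫⁻ y in ball x r, g y

/-- The discrete maximal function. -/
noncomputable def Mx (R₀ : ℝ) (g : ℂ → ℝ≥0∞) (x : ℂ) : ℝ≥0∞ := ⨆ m : ℕ, Av g (Rr R₀ m) x

variable {R₀ : ℝ}

lemma Rr_pos (h : 0 < R₀) (m : ℕ) : 0 < Rr R₀ m := by
  unfold Rr
  positivity

lemma Rr_le (h : 0 < R₀) (m : ℕ) : Rr R₀ m ≤ R₀ := by
  unfold Rr
  exact div_le_self h.le (one_le_pow₀ (by norm_num))

lemma vol_ball (x : ℂ) (r : ℝ) : volume (ball x r) = ENNReal.ofReal r ^ 2 * NNReal.pi :=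
  Complex.volume_ball x r

lemma vol_ne_top (x : ℂ) (r : ℝ) : volume (ball x r) ≠ ⊤ := measure_ball_lt_top.ne

lemma vol_ne_zero (x : ℂ) {r : ℝ} (hr : 0 < r) : volume (ball x r) ≠ 0 :=
  (measure_ball_pos volume x hr).ne'

lemma vol5 (x : ℂ) {r : ℝ} (_hr : 0 < r) :
    volume (closedBall x (5 * r)) = 25 * volume (ball x r) := by
  rw [Complex.volume_closedBall, vol_ball, ENNReal.ofReal_mul (by norm_num), mul_pow]
  have e : (ENNReal.ofReal 5) ^ 2 = 25 := by
    rw [← ENNReal.ofReal_pow (by norm_num)]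
    norm_num
  rw [e, mul_assoc]

lemma meas_avg {g : ℂ → ℝ≥0∞} (hg : Measurable g) (r : ℝ) :
    Measurable fun x : ℂ => ∫⁻ y in ball x r, g y := by
  have e : (fun x : ℂ => ∫⁻ y in ball x r, g y)
      = fun x : ℂ => ∫⁻ y, ({p : ℂ × ℂ | dist p.2 p.1 < r}.indicator (fun p => g p.2)) (x, y) := by
    funext x
    rw [← lintegral_indicator measurableSet_ball]
    rfl
  rw [e]
  apply Measurable.lintegral_prod_right' (f := {p : ℂ × ℂ | dist p.2 p.1 < r}.indicator
    (fun p => g p.2))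
  exact (hg.comp measurable_snd).indicator
    (measurableSet_lt (measurable_snd.dist measurable_fst) measurable_const)

lemma meas_Av {g : ℂ → ℝ≥0∞} (hg : Measurable g) (r : ℝ) : Measurable (Av g r) := by
  unfold Av
  have e : (fun x : ℂ => (volume (ball x r))⁻¹ * ∫⁻ y in ball x r, g y) =
      fun x : ℂ => (ENNReal.ofReal r ^ 2 * NNReal.pi)⁻¹ * ∫⁻ y in ball x r, g y := by
    funext x
    rw [vol_ball]
  rw [e]
  exact (meas_avg hg r).const_mul _

lemma meas_Mx {g : ℂ → ℝ≥0∞} (hg : Measurable g) : Measurable (Mx R₀ g) := by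
  unfold Mx
  exact Measurable.iSup fun m => meas_Av hg _

/-- The weak type inequality. -/
theorem weak (h : 0 < R₀) {g : ℂ → ℝ≥0∞} {l : ℝ≥0∞} :
    l * volume {x | l < Mx R₀ g x} ≤ 25 * ∫⁻ y, g y := by
  classical
  obtain ⟨S, hS⟩ : ∃ S : Set ℂ, S = {x | l < Mx R₀ g x} := ⟨_, rfl⟩
  have hch : ∀ x : ℂ, ∃ m : ℕ, x ∈ S →
      l * volume (ball x (Rr R₀ m)) ≤ ∫⁻ y in ball x (Rr R₀ m), g y := by
    intro x
    by_cases hx : x ∈ S
    · rw [hS] at hx
      obtain ⟨m, hm⟩ := lt_iSup_iff.1 (show l < Mx R₀ g x from hx)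
      refine ⟨m, fun _ => ?_⟩
      have hR := Rr_pos h m
      unfold Av at hm
      have h1 : l * volume (ball x (Rr R₀ m)) ≤ ((volume (ball x (Rr R₀ m)))⁻¹ *
          ∫⁻ y in ball x (Rr R₀ m), g y) * volume (ball x (Rr R₀ m)) :=
        mul_le_mul_left hm.le _
      refine h1.trans (le_of_eq ?_)
      rw [mul_comm (volume (ball x (Rr R₀ m)))⁻¹, mul_assoc,
        ENNReal.inv_mul_cancel (vol_ne_zero x hR) (vol_ne_top x _), mul_one]
    · exact ⟨0, fun h => absurd h hx⟩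
  choose m hm using hch
  rw [← hS]
  obtain ⟨u, huS, hud, huc⟩ := Vitali.exists_disjoint_subfamily_covering_enlargement_closedBall
    S (fun x : ℂ => x) (fun x => Rr R₀ (m x)) R₀ (fun x _ => Rr_le h _) 5 (by norm_num)
  have hRp : ∀ x, 0 < Rr R₀ (m x) := fun x => Rr_pos h _
  have hcount : u.Countable := hud.countable_of_nonempty_interior fun x _ => by
    rw [interior_closedBall _ (hRp x).ne']
    exact ⟨x, mem_ball_self (hRp x)⟩
  have hcov : S ⊆ ⋃ b ∈ u, closedBall b (5 * Rr R₀ (m b)) := by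
    intro x hx
    obtain ⟨b, hb, hsub⟩ := huc x hx
    exact mem_biUnion hb (hsub (mem_closedBall_self (hRp x).le))
  have h1 : volume S ≤ ∑' b : u, volume (closedBall (b : ℂ) (5 * Rr R₀ (m b))) :=
    (measure_mono hcov).trans (measure_biUnion_le volume hcount _)
  have h2 : ∀ b : u, l * volume (closedBall (b : ℂ) (5 * Rr R₀ (m b)))
      ≤ 25 * ∫⁻ y in closedBall (b : ℂ) (Rr R₀ (m b)), g y := by
    intro b
    have hb := hm b (huS b.2)
    rw [vol5 _ (hRp b)]
    calc l * (25 * volume (ball (b : ℂ) (Rr R₀ (m b))))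
        = 25 * (l * volume (ball (b : ℂ) (Rr R₀ (m b)))) := by ring
      _ ≤ 25 * ∫⁻ y in ball (b : ℂ) (Rr R₀ (m b)), g y := by gcongr
      _ ≤ _ := by
          gcongr
          exact ball_subset_closedBall
  calc l * volume S ≤ l * ∑' b : u, volume (closedBall (b : ℂ) (5 * Rr R₀ (m b))) := by gcongr
    _ = ∑' b : u, l * volume (closedBall (b : ℂ) (5 * Rr R₀ (m b))) := ENNReal.tsum_mul_left.symm
    _ ≤ ∑' b : u, 25 * ∫⁻ y in closedBall (b : ℂ) (Rr R₀ (m b)), g y :=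
        ENNReal.tsum_le_tsum h2
    _ = 25 * ∑' b : u, ∫⁻ y in closedBall (b : ℂ) (Rr R₀ (m b)), g y := ENNReal.tsum_mul_left
    _ = 25 * ∫⁻ y in ⋃ b ∈ u, closedBall b (Rr R₀ (m b)), g y := by
        rw [lintegral_biUnion hcount (fun b _ => measurableSet_closedBall) hud]
    _ ≤ 25 * ∫⁻ y, g y := by
        gcongr
        exact Measure.restrict_le_self

lemma Av_const (x : ℂ) {r : ℝ} (hr : 0 < r) (B : ℝ≥0∞) :
    (volume (ball x r))⁻¹ * ∫⁻ _ in ball x r, B = B := by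
  rw [setLIntegral_const, mul_comm B, ← mul_assoc,
    ENNReal.inv_mul_cancel (vol_ne_zero x hr) (vol_ne_top x _), one_mul]

/-- The maximal function of a bounded function. -/
lemma Mx_le (h : 0 < R₀) {g : ℂ → ℝ≥0∞} {B : ℝ≥0∞} (hB : ∀ x, g x ≤ B) (x : ℂ) :
    Mx R₀ g x ≤ B := by
  refine iSup_le fun m => ?_
  have hR := Rr_pos h m
  calc Av g (Rr R₀ m) x ≤ (volume (ball x (Rr R₀ m)))⁻¹ * ∫⁻ _ in ball x (Rr R₀ m), B :=
        mul_le_mul_right (lintegral_mono fun y => hB y) _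
    _ = B := Av_const x hR B

/-- Sub-additivity. -/
lemma Mx_add (h : 0 < R₀) {g g1 : ℂ → ℝ≥0∞} {B : ℝ≥0∞} (hg : ∀ x, g x ≤ g1 x + B) (x : ℂ) :
    Mx R₀ g x ≤ Mx R₀ g1 x + B := by
  refine iSup_le fun m => ?_
  have hR := Rr_pos h m
  have h1 : (∫⁻ y in ball x (Rr R₀ m), g y)
      ≤ (∫⁻ y in ball x (Rr R₀ m), g1 y) + ∫⁻ _ in ball x (Rr R₀ m), B := by
    refine (lintegral_mono fun y => hg y).trans ?_
    rw [lintegral_add_right _ measurable_const]
  unfold Av
  refine (mul_le_mul_right h1 _).trans ?_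
  rw [mul_add, Av_const x hR B]
  exact add_le_add (le_iSup (fun m : ℕ => Av g1 (Rr R₀ m) x) m) le_rfl

/-- The strong type inequality. -/
theorem strong {p : ℝ} (hp : 1 < p) (h : 0 < R₀) {g : ℂ → ℝ≥0∞} (hg : Measurable g) {B : ℝ≥0∞}
    (hBt : B ≠ ⊤) (hB : ∀ x, g x ≤ B) :
    ∫⁻ x, Mx R₀ g x ^ p ≤ ENNReal.ofReal p * (50 * (ENNReal.ofReal (2 ^ (p - 1)) *
      ((ENNReal.ofReal (p - 1))⁻¹ * ∫⁻ x, g x ^ p))) := by
  have hp0 : 0 < p := by linarith
  have hp1 : 0 < p - 1 := by linarith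
  have hMt : ∀ x, Mx R₀ g x ≠ ⊤ := fun x => ((Mx_le h hB x).trans_lt hBt.lt_top).ne
  have hgt : ∀ x, g x ≠ ⊤ := fun x => ((hB x).trans_lt hBt.lt_top).ne
  obtain ⟨f, hf⟩ : ∃ f : ℂ → ℝ, f = fun x => (Mx R₀ g x).toReal := ⟨_, rfl⟩
  obtain ⟨G, hG⟩ : ∃ G : ℂ → ℝ, G = fun x => 2 * (g x).toReal := ⟨_, rfl⟩
  have hfm : Measurable f := by rw [hf]; exact (meas_Mx hg).ennreal_toReal
  have hGm : Measurable G := by rw [hG]; exact hg.ennreal_toReal.const_mul 2
  have e1 : ∫⁻ x, Mx R₀ g x ^ p = ∫⁻ x, ENNReal.ofReal (f x ^ p) := by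
    refine lintegral_congr fun x => ?_
    rw [← ENNReal.ofReal_rpow_of_nonneg (by rw [hf]; exact ENNReal.toReal_nonneg) hp0.le, hf,
      ENNReal.ofReal_toReal (hMt x)]
  rw [e1, lintegral_rpow_eq_lintegral_meas_lt_mul volume
    (Filter.Eventually.of_forall fun x => by rw [hf]; exact ENNReal.toReal_nonneg)
    hfm.aemeasurable hp0]
  refine mul_le_mul_right ?_ _
  obtain ⟨ν, hν⟩ : ∃ ν : Measure ℂ, ν = volume.withDensity g := ⟨_, rfl⟩
  -- the level sets
  have key : ∀ t ∈ Ioi (0 : ℝ), volume {a : ℂ | t < f a} * ENNReal.ofReal (t ^ (p - 1))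
      ≤ 50 * (ν {a : ℂ | t < G a} * ENNReal.ofReal (t ^ (p - 1 - 1))) := by
    intro t ht
    have ht0 : (0 : ℝ) < t := ht
    obtain ⟨A, hA⟩ : ∃ A : Set ℂ, A = {a : ℂ | t < G a} := ⟨_, rfl⟩
    have hAm : MeasurableSet A := by rw [hA]; exact measurableSet_lt measurable_const hGm
    have hsub : {a : ℂ | t < f a} ⊆ {x | ENNReal.ofReal (t / 2) < Mx R₀ (A.indicator g) x} := by
      intro x hx
      have hx' : t < f x := hx
      have h1 : ∀ y, g y ≤ A.indicator g y + ENNReal.ofReal (t / 2) := by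
        intro y
        by_cases hy : y ∈ A
        · rw [indicator_of_mem hy]
          exact le_self_add
        · rw [indicator_of_notMem hy, zero_add]
          rw [hA, hG] at hy
          have hy' : ¬ t < 2 * (g y).toReal := hy
          rw [← ENNReal.ofReal_toReal (hgt y)]
          apply ENNReal.ofReal_le_ofReal
          linarith
      have h2 := Mx_add h h1 x
      have h3 : ENNReal.ofReal t < Mx R₀ g x := by
        rw [hf] at hx'
        exact (ENNReal.ofReal_lt_iff_lt_toReal ht0.le (hMt x)).2 hx'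
      show ENNReal.ofReal (t / 2) < Mx R₀ (A.indicator g) x
      by_contra h5
      push Not at h5
      have h6 : Mx R₀ g x ≤ ENNReal.ofReal t := by
        refine h2.trans ((add_le_add h5 le_rfl).trans (le_of_eq ?_))
        rw [← ENNReal.ofReal_add (by positivity) (by positivity)]
        congr 1
        ring
      exact absurd h3 (not_lt.2 h6)
    have hw := weak h (g := A.indicator g) (l := ENNReal.ofReal (t / 2))
    rw [lintegral_indicator hAm] at hw
    have hν' : ν A = ∫⁻ y in A, g y := by rw [hν, withDensity_apply _ hAm]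
    rw [← hν'] at hw
    have h7 : ENNReal.ofReal (t / 2) * volume {a : ℂ | t < f a} ≤ 25 * ν A :=
      (mul_le_mul_right (measure_mono hsub) _).trans hw
    have h8 : ENNReal.ofReal (t ^ (p - 1))
        = 2 * (ENNReal.ofReal (t / 2) * ENNReal.ofReal (t ^ (p - 1 - 1))) := by
      have : (2 : ℝ≥0∞) = ENNReal.ofReal 2 := by simp
      rw [this, ← ENNReal.ofReal_mul (by positivity), ← ENNReal.ofReal_mul (by norm_num)]
      congr 1
      rw [Real.rpow_sub_one ht0.ne' (p - 1)]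
      field_simp
    rw [h8, ← hA]
    calc volume {a : ℂ | t < f a} * (2 * (ENNReal.ofReal (t / 2) * ENNReal.ofReal (t ^ (p - 1 - 1))))
        = 2 * ENNReal.ofReal (t ^ (p - 1 - 1)) *
            (ENNReal.ofReal (t / 2) * volume {a : ℂ | t < f a}) := by ring
      _ ≤ 2 * ENNReal.ofReal (t ^ (p - 1 - 1)) * (25 * ν A) := by gcongr
      _ = 50 * (ν A * ENNReal.ofReal (t ^ (p - 1 - 1))) := by
          rw [show (50 : ℝ≥0∞) = 2 * 25 by norm_num]
          ring
  refine (setLIntegral_mono' measurableSet_Ioi key).trans ?_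
  rw [lintegral_const_mul' _ _ (by norm_num)]
  refine mul_le_mul_right ?_ _
  have e2 := lintegral_rpow_eq_lintegral_meas_lt_mul ν (f := G)
    (Filter.Eventually.of_forall fun x => by
      rw [hG]
      exact mul_nonneg (by norm_num) ENNReal.toReal_nonneg)
    hGm.aemeasurable hp1
  have e3 : ∫⁻ x, ENNReal.ofReal (G x ^ (p - 1)) ∂ν
      = ENNReal.ofReal (2 ^ (p - 1)) * ∫⁻ x, g x ^ p := by
    rw [hν, lintegral_withDensity_eq_lintegral_mul _ hg
      ((hGm.pow_const (p - 1)).ennreal_ofReal), ← lintegral_const_mul' _ _ ENNReal.ofReal_ne_top]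
    refine lintegral_congr fun x => ?_
    simp only [Pi.mul_apply]
    rw [hG]
    simp only
    rw [Real.mul_rpow (by norm_num) ENNReal.toReal_nonneg, ENNReal.ofReal_mul (by positivity),
      ← ENNReal.ofReal_rpow_of_nonneg ENNReal.toReal_nonneg hp1.le, ENNReal.ofReal_toReal (hgt x)]
    have e4 : g x ^ p = g x * g x ^ (p - 1) := by
      have : p = 1 + (p - 1) := by ring
      conv_lhs => rw [this]
      rw [ENNReal.rpow_add_of_nonneg _ _ (by norm_num) hp1.le, ENNReal.rpow_one]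
    rw [e4]
    ring
  rw [e3] at e2
  have h9 : ENNReal.ofReal (p - 1) ≠ 0 := by
    rw [Ne, ENNReal.ofReal_eq_zero, not_le]
    exact hp1
  rw [mul_left_comm, e2, ← mul_assoc, ENNReal.inv_mul_cancel h9 ENNReal.ofReal_ne_top, one_mul]

/-! ### all radii -/

lemma av_eq (r : ℝ) (w : ℂ → ℝ≥0∞) (x : ℂ) : av r w x = Av w r x := by
  unfold av Av
  have e1 : ∫⁻ u in ball (0 : ℂ) r, w (x + u) = ∫⁻ y in ball x r, w y := by
    rw [← lintegral_indicator measurableSet_ball, ← lintegral_indicator measurableSet_ball,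
      ← lintegral_add_left_eq_self (μ := volume) ((ball x r).indicator w) x]
    refine lintegral_congr fun u => ?_
    by_cases hu : u ∈ ball (0 : ℂ) r
    · have hu' : x + u ∈ ball x r := by
        rw [mem_ball, dist_eq_norm] at hu ⊢
        simpa using hu
      rw [indicator_of_mem hu, indicator_of_mem hu']
    · have hu' : x + u ∉ ball x r := by
        rw [mem_ball, dist_eq_norm] at hu ⊢
        simpa using hu
      rw [indicator_of_notMem hu, indicator_of_notMem hu']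
  rw [e1, vol_ball, vol_ball]

lemma open_level (w : ℂ → ℝ≥0∞) (t : ℝ≥0∞) : IsOpen {x | t < mx w x} := by
  rw [Metric.isOpen_iff]
  intro x hx
  obtain ⟨⟨r, hr⟩, hxr⟩ := lt_iSup_iff.1 (show t < mx w x from hx)
  simp only at hxr
  rw [av_eq] at hxr
  unfold Av at hxr
  obtain ⟨I, hI⟩ : ∃ I : ℝ≥0∞, I = ∫⁻ y in ball x r, w y := ⟨_, rfl⟩
  rw [← hI, vol_ball] at hxr
  have hcont : Filter.Tendsto (fun s : ℝ => (ENNReal.ofReal s ^ 2 * NNReal.pi)⁻¹ * I) (nhds r)
      (nhds ((ENNReal.ofReal r ^ 2 * NNReal.pi)⁻¹ * I)) := by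
    apply ENNReal.Tendsto.mul_const
    · have h1 : Filter.Tendsto (fun s : ℝ => ENNReal.ofReal s ^ 2 * (NNReal.pi : ℝ≥0∞)) (nhds r)
          (nhds (ENNReal.ofReal r ^ 2 * NNReal.pi)) := by
        apply ENNReal.Tendsto.mul_const
        · exact ((ENNReal.continuous_pow 2).comp ENNReal.continuous_ofReal).tendsto r
        · exact Or.inr ENNReal.coe_ne_top
      exact tendsto_inv_iff.2 h1
    · left
      rw [← vol_ball x r]
      exact ENNReal.inv_ne_zero.2 (vol_ne_top x r)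
  have hev : ∀ᶠ s in nhds r, t < (ENNReal.ofReal s ^ 2 * NNReal.pi)⁻¹ * I :=
    hcont.eventually (lt_mem_nhds hxr)
  obtain ⟨ε, hε, hball⟩ := Metric.eventually_nhds_iff.1 hev
  refine ⟨ε / 2, by positivity, fun y hy => ?_⟩
  have h1 := hball (show dist (r + ε / 2) r < ε by
    rw [Real.dist_eq, add_sub_cancel_left, abs_of_pos (by positivity)]
    linarith)
  show t < mx w y
  refine h1.trans_le ?_
  have h2 : (ENNReal.ofReal (r + ε / 2) ^ 2 * NNReal.pi)⁻¹ * I ≤ av (r + ε / 2) w y := by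
    rw [av_eq]
    unfold Av
    rw [vol_ball, hI]
    refine mul_le_mul_right (lintegral_mono_set ?_) _
    intro z hz
    rw [mem_ball] at hz hy ⊢
    calc dist z y ≤ dist z x + dist x y := dist_triangle _ _ _
      _ < r + ε / 2 := by
        rw [dist_comm x y]
        exact add_lt_add hz hy
  exact h2.trans (le_iSup (fun r : {r : ℝ // 0 < r} => av r w y) ⟨r + ε / 2, by positivity⟩)

lemma meas_mx (w : ℂ → ℝ≥0∞) : Measurable (mx w) :=
  measurable_of_Ioi fun t => (open_level w t).measurableSet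

/-- truncation -/
noncomputable def tr (w : ℂ → ℝ≥0∞) (J : ℕ) (x : ℂ) : ℝ≥0∞ := min (w x) J

lemma meas_tr {w : ℂ → ℝ≥0∞} (hw : Measurable w) (J : ℕ) : Measurable (tr w J) :=
  hw.min measurable_const

lemma tr_mono (w : ℂ → ℝ≥0∞) (x : ℂ) : Monotone fun J => tr w J x := by
  intro a b hab
  exact min_le_min le_rfl (by exact_mod_cast hab)

lemma tr_sup (w : ℂ → ℝ≥0∞) (x : ℂ) : ⨆ J, tr w J x = w x := by
  refine le_antisymm (iSup_le fun J => min_le_left _ _) ?_
  refine le_of_forall_lt fun c hc => ?_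
  obtain ⟨n, hn⟩ := ENNReal.exists_nat_gt (ne_top_of_lt hc)
  exact (lt_min hc hn).trans_le (le_iSup (fun J => tr w J x) n)

lemma Av_tr {w : ℂ → ℝ≥0∞} (hw : Measurable w) (r : ℝ) (x : ℂ) :
    Av w r x = ⨆ J, Av (tr w J) r x := by
  unfold Av
  rw [← ENNReal.mul_iSup]
  congr 1
  rw [← lintegral_iSup (fun J => meas_tr hw J) (fun a b hab z => tr_mono w z hab)]
  exact lintegral_congr fun y => (tr_sup w y).symm

lemma Av_mono {g g1 : ℂ → ℝ≥0∞} (h : ∀ x, g x ≤ g1 x) (r : ℝ) (x : ℂ) : Av g r x ≤ Av g1 r x :=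
  mul_le_mul_right (lintegral_mono fun y => h y) _

/-- the approximations -/
noncomputable def FF (w : ℂ → ℝ≥0∞) (J : ℕ) (x : ℂ) : ℝ≥0∞ := Mx (2 ^ J) (tr w J) x

lemma meas_FF {w : ℂ → ℝ≥0∞} (hw : Measurable w) (J : ℕ) : Measurable (FF w J) :=
  meas_Mx (meas_tr hw J)

lemma FF_mono (w : ℂ → ℝ≥0∞) (x : ℂ) : Monotone fun J => FF w J x := by
  refine monotone_nat_of_le_succ fun J => ?_
  refine iSup_le fun m => ?_
  have e : Rr (2 ^ J) m = Rr (2 ^ (J + 1)) (m + 1) := by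
    unfold Rr
    rw [pow_succ, pow_succ]
    field_simp
  rw [e]
  exact (Av_mono (fun y => tr_mono w y (Nat.le_succ J)) _ x).trans
    (le_iSup (fun m : ℕ => Av (tr w (J + 1)) (Rr (2 ^ (J + 1)) m) x) (m + 1))

lemma Av_le_FF {w : ℂ → ℝ≥0∞} (hw : Measurable w) (n : ℤ) (x : ℂ) :
    Av w (2 ^ n) x ≤ ⨆ J, FF w J x := by
  rw [Av_tr hw]
  refine iSup_le fun J => ?_
  obtain ⟨K, hK⟩ : ∃ K : ℕ, K = max J n.natAbs := ⟨_, rfl⟩
  have h1 : J ≤ K := by rw [hK]; exact le_max_left _ _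
  have h2 : n ≤ K := by
    have : n.natAbs ≤ K := by rw [hK]; exact le_max_right _ _
    omega
  obtain ⟨m, hm⟩ : ∃ m : ℕ, (m : ℤ) = K - n := ⟨(K - n : ℤ).toNat, by omega⟩
  have e : (2 : ℝ) ^ n = Rr (2 ^ K) m := by
    unfold Rr
    have : n = (K : ℤ) - m := by omega
    rw [this, zpow_sub₀ (by norm_num), zpow_natCast, zpow_natCast]
  rw [e]
  refine (Av_mono (fun y => tr_mono w y h1) _ x).trans ?_
  exact (le_iSup (fun m : ℕ => Av (tr w K) (Rr (2 ^ K) m) x) m).trans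
    (le_iSup (fun J => FF w J x) K)

lemma mx_le_FF {w : ℂ → ℝ≥0∞} (hw : Measurable w) (x : ℂ) : mx w x ≤ 4 * ⨆ J, FF w J x := by
  refine iSup_le fun r => ?_
  obtain ⟨r, hr⟩ := r
  simp only
  rw [av_eq]
  obtain ⟨n, hn1, hn2⟩ := exists_mem_Ioc_zpow hr (one_lt_two : (1 : ℝ) < 2)
  have h1 : (2 : ℝ) ^ (n + 1) ≤ 2 * r := by
    rw [zpow_add_one₀ (by norm_num)]
    linarith
  refine le_trans ?_ (mul_le_mul_right (Av_le_FF hw (n + 1) x) 4)
  unfold Av
  rw [← mul_assoc]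
  refine mul_le_mul' ?_ (lintegral_mono_set (ball_subset_ball hn2))
  have h2 : volume (ball x (2 ^ (n + 1))) ≤ 4 * volume (ball x r) := by
    rw [vol_ball, vol_ball, ← mul_assoc]
    refine mul_le_mul_left ?_ _
    have e : (4 : ℝ≥0∞) * ENNReal.ofReal r ^ 2 = ENNReal.ofReal (2 * r) ^ 2 := by
      rw [ENNReal.ofReal_mul (by norm_num), mul_pow]
      congr 1
      rw [← ENNReal.ofReal_pow (by norm_num)]
      norm_num
    rw [e]
    exact pow_le_pow_left' (ENNReal.ofReal_le_ofReal h1) 2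
  have h3 : (4 * volume (ball x r))⁻¹ ≤ (volume (ball x (2 ^ (n + 1))))⁻¹ := ENNReal.inv_le_inv.2 h2
  calc (volume (ball x r))⁻¹ = 4 * (4 * volume (ball x r))⁻¹ := by
        rw [ENNReal.mul_inv (Or.inl (by norm_num)) (Or.inl (by norm_num)), ← mul_assoc,
          ENNReal.mul_inv_cancel (by norm_num) (by norm_num), one_mul]
    _ ≤ 4 * (volume (ball x (2 ^ (n + 1))))⁻¹ := mul_le_mul_right h3 _

theorem t : Pool.Agent.N892.BW.S_HLM := by
  intro q hq
  have hq0 : 0 < q := by linarith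
  have hq1 : 0 < q - 1 := by linarith
  refine ⟨4 ^ q * (q * (50 * (2 ^ (q - 1) * (q - 1)⁻¹))), by positivity, fun w hw =>
    ⟨meas_mx w, ?_⟩⟩
  have hconst : ENNReal.ofReal (4 ^ q * (q * (50 * (2 ^ (q - 1) * (q - 1)⁻¹)))) =
      (4 : ℝ≥0∞) ^ q * (ENNReal.ofReal q * (50 * (ENNReal.ofReal (2 ^ (q - 1)) *
        (ENNReal.ofReal (q - 1))⁻¹))) := by
    rw [ENNReal.ofReal_mul (by positivity), ENNReal.ofReal_mul (by positivity),
      ENNReal.ofReal_mul (by positivity), ENNReal.ofReal_mul (by positivity),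
      ENNReal.ofReal_inv_of_pos hq1, ← ENNReal.ofReal_rpow_of_nonneg (by norm_num) hq0.le]
    norm_num
  have h1 : ∀ x, mx w x ^ q ≤ 4 ^ q * ⨆ J, FF w J x ^ q := by
    intro x
    refine (ENNReal.rpow_le_rpow (mx_le_FF hw x) hq0.le).trans (le_of_eq ?_)
    rw [ENNReal.mul_rpow_of_nonneg _ _ hq0.le]
    congr 1
    have := (ENNReal.orderIsoRpow q hq0).map_iSup (fun J => FF w J x)
    simpa only [ENNReal.orderIsoRpow_apply] using this
  have h2 : ∫⁻ x, mx w x ^ q ≤ 4 ^ q * ⨆ J, ∫⁻ x, FF w J x ^ q := by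
    refine (lintegral_mono h1).trans ?_
    rw [lintegral_const_mul' _ _ (ENNReal.rpow_ne_top_of_nonneg hq0.le (by norm_num))]
    rw [lintegral_iSup (f := fun J x => FF w J x ^ q) (fun J => (meas_FF hw J).pow_const q)
      (fun a b hab x => ENNReal.rpow_le_rpow (FF_mono w x hab) hq0.le)]
  refine h2.trans ?_
  rw [hconst, mul_assoc]
  refine mul_le_mul_right (iSup_le fun J => ?_) _
  have h3 := strong hq (R₀ := 2 ^ J) (by positivity) (g := tr w J) (hw.min measurable_const)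
    (B := J) (ENNReal.natCast_ne_top J) (fun x => min_le_right _ _)
  refine h3.trans ?_
  have h4 : ∫⁻ x, tr w J x ^ q ≤ ∫⁻ x, w x ^ q :=
    lintegral_mono fun x => ENNReal.rpow_le_rpow (min_le_left _ _) hq0.le
  rw [mul_assoc, mul_assoc, mul_assoc]
  gcongr

end Pool.Agent.N892.BW.HLM
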