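import Pool.Agent.N892.BW.Stm4

set_option autoImplicit false

/-!
Project BW, leaf HOE: the arithmetic-geometric mean inequality with the constant of Hoeffding.
-/

namespace Pool.Agent.N892.BW.HOE

private lemma Dpos {t : ℝ} (h0 : 0 ≤ t) (h1 : t ≤ 1) (x : ℝ) : 0 < 1 - t + t * Real.exp x := by
  have := Real.exp_pos x
  rcases eq_or_lt_of_le h1 with h | h
  · subst h; simpa using this
  · have : 0 ≤ t * Real.exp x := by positivity
    linarith

private lemma dU {t : ℝ} (h0 : 0 ≤ t) (h1 : t ≤ 1) (x : ℝ) :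
    HasDerivAt (fun x => x / 4 - (t * Real.exp x / (1 - t + t * Real.exp x) - t))
      (1 / 4 - (t * Real.exp x * (1 - t)) / (1 - t + t * Real.exp x) ^ 2) x := by
  have hD := Dpos h0 h1 x
  have e1 : HasDerivAt (fun x => t * Real.exp x) (t * Real.exp x) x := (Real.hasDerivAt_exp x).const_mul t
  have e2 : HasDerivAt (fun x => 1 - t + t * Real.exp x) (t * Real.exp x) x := by
    simpa using e1.const_add (1 - t)
  have e3 := ((hasDerivAt_id x).div_const 4).sub ((e1.div e2 hD.ne').sub_const t)
  refine e3.congr_deriv ?_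
  field_simp
  ring

private lemma dH {t : ℝ} (h0 : 0 ≤ t) (h1 : t ≤ 1) (x : ℝ) :
    HasDerivAt (fun x => x ^ 2 / 8 - (Real.log (1 - t + t * Real.exp x) - t * x))
      (x / 4 - (t * Real.exp x / (1 - t + t * Real.exp x) - t)) x := by
  have hD := Dpos h0 h1 x
  have e1 : HasDerivAt (fun x => t * Real.exp x) (t * Real.exp x) x := (Real.hasDerivAt_exp x).const_mul t
  have e2 : HasDerivAt (fun x => 1 - t + t * Real.exp x) (t * Real.exp x) x := by
    simpa using e1.const_add (1 - t)
  have e3 := ((hasDerivAt_pow 2 x).div_const 8).sub ((e2.log hD.ne').sub ((hasDerivAt_id x).const_mul t))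
  refine e3.congr_deriv ?_
  simp
  ring

private lemma main {t : ℝ} (h0 : 0 ≤ t) (h1 : t ≤ 1) {x : ℝ} (hx : 0 ≤ x) :
    Real.log (1 - t + t * Real.exp x) ≤ t * x + x ^ 2 / 8 := by
  have mk : Monotone (fun x => x / 4 - (t * Real.exp x / (1 - t + t * Real.exp x) - t)) := by
    refine monotone_of_deriv_nonneg (fun y => (dU h0 h1 y).differentiableAt) fun y => ?_
    rw [(dU h0 h1 y).deriv]
    have hD := Dpos h0 h1 y
    rw [sub_nonneg, div_le_div_iff₀ (by positivity) (by norm_num)]
    nlinarith [sq_nonneg (1 - t - t * Real.exp y)]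
  have mh : MonotoneOn (fun x => x ^ 2 / 8 - (Real.log (1 - t + t * Real.exp x) - t * x)) (Set.Ici 0) := by
    refine monotoneOn_of_deriv_nonneg (convex_Ici 0)
      (fun y _ => (dH h0 h1 y).continuousAt.continuousWithinAt)
      (fun y _ => (dH h0 h1 y).differentiableAt.differentiableWithinAt) fun y hy => ?_
    rw [(dH h0 h1 y).deriv]
    rw [interior_Ici] at hy
    have := mk (le_of_lt hy)
    simpa using this
  have := mh (Set.mem_Ici.2 le_rfl) (Set.mem_Ici.2 hx) hx
  simp at this
  linarith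

theorem t : Pool.Agent.N892.BW.S_HOE := by
  intro r t hr h0 h1
  have hr0 : 0 < r := by linarith
  have hm := main h0 h1 (Real.log_nonneg hr)
  rw [Real.exp_log hr0] at hm
  have hD : 0 < 1 - t + t * r := by
    have := Dpos h0 h1 (Real.log r)
    rwa [Real.exp_log hr0] at this
  have e : 1 + t * (r - 1) = 1 - t + t * r := by ring
  rw [e, Real.rpow_def_of_pos hr0, ← Real.exp_add]
  rw [Real.log_le_iff_le_exp hD] at hm
  refine hm.trans_eq ?_
  congr 1
  ring

end Pool.Agent.N892.BW.HOE
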