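import Pool.Agent.N892.BW.Stm2

/-!
LOC: on functions with spectrum in an annulus, the power of the Beurling transform is given by the
truncated kernel, up to a small error.
-/

set_option autoImplicit false

open MeasureTheory ENNReal Filter Topology Complex
open scoped ComplexConjugate ContDiff

namespace Pool.Agent.N892.BW.LOC

open Pool.Agent.N892.BW

/-- a smooth bump function, one on the unit disc, zero outside of the disc of radius two -/
noncomputable def bump : ContDiffBump (0 : ℂ) := ⟨1, 2, by norm_num, by norm_num⟩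

/-- the bump function as a function -/
noncomputable def th : ℂ → ℝ := bump

lemma th_inf : ContDiff ℝ ∞ th := bump.contDiff

lemma th_smooth (n : ℕ) : ContDiff ℝ n th := bump.contDiff

lemma th_one (x : ℂ) (h : ‖x‖ ≤ 1) : th x = 1 := by
  apply bump.one_of_mem_closedBall
  rw [mem_closedBall_zero_iff]
  exact h

lemma th_zero (x : ℂ) (h : 2 ≤ ‖x‖) : th x = 0 := by
  apply bump.zero_of_le_dist
  rw [dist_zero_right]
  exact h

lemma th_nonneg (x : ℂ) : 0 ≤ th x := bump.nonneg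

lemma th_le_one (x : ℂ) : th x ≤ 1 := bump.le_one

lemma th_cap : Cap th := ⟨th_inf, fun x => ⟨th_nonneg x, th_le_one x⟩, th_one, th_zero⟩

lemma bound (j : ℕ) : ∃ B : ℝ, ∀ x : ℂ, ‖iteratedFDeriv ℝ j th x‖ * ‖x‖ ^ j ≤ B := by
  have hc : Continuous (iteratedFDeriv ℝ j th) := (th_smooth j).continuous_iteratedFDeriv le_rfl
  have hs : HasCompactSupport (iteratedFDeriv ℝ j th) :=
    HasCompactSupport.iteratedFDeriv bump.hasCompactSupport j
  have hc2 : Continuous fun x : ℂ => ‖iteratedFDeriv ℝ j th x‖ * ‖x‖ ^ j :=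
    hc.norm.mul (continuous_norm.pow j)
  have hs2 : HasCompactSupport fun x : ℂ => ‖iteratedFDeriv ℝ j th x‖ * ‖x‖ ^ j :=
    hs.norm.mul_right
  obtain ⟨B, hB⟩ := hc2.bounded_above_of_compact_support hs2
  exact ⟨B, fun x => (le_abs_self _).trans (hB x)⟩

/-- the rescaled bump function -/
noncomputable def tr (r : ℝ) (x : ℂ) : ℝ := th (r⁻¹ • x)

lemma tr_smooth (r : ℝ) (n : ℕ) : ContDiff ℝ n (tr r) :=
  (th_smooth n).comp (contDiff_const_smul _)

lemma norm_sm {r : ℝ} (hr : 0 < r) (x : ℂ) : ‖r⁻¹ • x‖ = ‖x‖ / r := by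
  rw [norm_smul, norm_inv, Real.norm_eq_abs, abs_of_pos hr, div_eq_inv_mul]

lemma tr_bound {r : ℝ} (hr : 0 < r) (j : ℕ) (B : ℝ)
    (hB : ∀ x : ℂ, ‖iteratedFDeriv ℝ j th x‖ * ‖x‖ ^ j ≤ B) (x : ℂ) :
    ‖iteratedFDeriv ℝ j (tr r) x‖ * ‖x‖ ^ j ≤ B := by
  have h1 := congrFun (iteratedFDeriv_comp_const_smul (𝕜 := ℝ) (i := j) (f := th) r⁻¹ (th_smooth j)) x
  have h2 : iteratedFDeriv ℝ j (tr r) x = iteratedFDeriv ℝ j (fun x => th (r⁻¹ • x)) x := rfl
  rw [h2, h1]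
  refine le_trans (le_of_eq ?_) (hB (r⁻¹ • x))
  rw [norm_sm hr, norm_smul, norm_pow, norm_inv, Real.norm_eq_abs, abs_of_pos hr, div_pow, inv_pow]
  ring

/-- the cut-off functions -/
lemma cut_tr (B1 B2 : ℝ) (hB1 : ∀ x : ℂ, ‖iteratedFDeriv ℝ 1 th x‖ * ‖x‖ ^ 1 ≤ B1)
    (hB2 : ∀ x : ℂ, ‖iteratedFDeriv ℝ 2 th x‖ * ‖x‖ ^ 2 ≤ B2) (r s : ℝ) (hr : 0 < r)
    (hrs : 2 * r ≤ s) :
    Cut (max (B1 + B1) (B2 + B2)) r (2 * s) (fun x => tr s x - tr r x) := by
  have hs : 0 < s := by linarith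
  have hz : ∀ t : ℝ, 0 < t → ∀ x : ℂ, 2 * t ≤ ‖x‖ → tr t x = 0 := by
    intro t ht x hx
    apply th_zero
    rw [norm_sm ht, le_div_iff₀ ht]
    exact hx
  have ho : ∀ t : ℝ, 0 < t → ∀ x : ℂ, ‖x‖ ≤ t → tr t x = 1 := by
    intro t ht x hx
    apply th_one
    rw [norm_sm ht, div_le_iff₀ ht]
    linarith
  have hder : ∀ (j : ℕ) (x : ℂ), ‖iteratedFDeriv ℝ j (fun x => tr s x - tr r x) x‖ ≤
      ‖iteratedFDeriv ℝ j (tr s) x‖ + ‖iteratedFDeriv ℝ j (tr r) x‖ := by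
    intro j x
    have h1 : iteratedFDeriv ℝ j (fun x => tr s x - tr r x) x =
        iteratedFDeriv ℝ j (tr s) x - iteratedFDeriv ℝ j (tr r) x :=
      iteratedFDeriv_sub_apply (tr_smooth s j).contDiffAt (tr_smooth r j).contDiffAt
    rw [h1]
    exact norm_sub_le _ _
  have hder2 : ∀ (j : ℕ) (B : ℝ) (_ : ∀ x : ℂ, ‖iteratedFDeriv ℝ j th x‖ * ‖x‖ ^ j ≤ B) (x : ℂ),
      ‖iteratedFDeriv ℝ j (fun x => tr s x - tr r x) x‖ * ‖x‖ ^ j ≤ B + B := by
    intro j B hB x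
    have h1 := tr_bound hs j B hB x
    have h2 := tr_bound hr j B hB x
    have h3 := mul_le_mul_of_nonneg_right (hder j x) (pow_nonneg (norm_nonneg x) j)
    rw [add_mul] at h3
    linarith
  refine ⟨?_, ?_, ?_, ?_⟩
  · exact (tr_smooth s 2).sub (tr_smooth r 2)
  · intro x
    beta_reduce
    by_cases hx : 2 * r ≤ ‖x‖
    · rw [hz r hr x hx, sub_zero]
      exact ⟨th_nonneg _, th_le_one _⟩
    · push Not at hx
      rw [ho s hs x (by linarith)]
      have h1 : 0 ≤ tr r x := th_nonneg _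
      have h2 : tr r x ≤ 1 := th_le_one _
      constructor <;> linarith
  · intro x hx
    constructor
    · by_contra hcon
      push Not at hcon
      apply hx
      simp only
      rw [ho r hr x hcon.le, ho s hs x (by linarith), sub_self]
    · by_contra hcon
      push Not at hcon
      apply hx
      simp only
      rw [hz s hs x hcon.le, hz r hr x (by linarith), sub_self]
  · intro x
    constructor
    · have h1 := hder2 1 B1 hB1 x
      rw [norm_iteratedFDeriv_one, pow_one] at h1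
      exact h1.trans (le_max_left _ _)
    · exact (hder2 2 B2 hB2 x).trans (le_max_right _ _)

/-- the symbol of the power is smooth away from the origin -/
lemma sy_smooth (n : ℕ) (ξ : ℂ) (hξ : ξ ≠ 0) : ContDiffAt ℝ ∞ (sy n) ξ := by
  have h1 : ContDiffAt ℝ ∞ (fun ξ : ℂ => (conj ξ * ξ⁻¹) ^ n) ξ := by
    apply ContDiffAt.pow
    apply ContDiffAt.mul
    · exact Complex.conjCLE.contDiff.contDiffAt
    · exact contDiffAt_id.inv hξ
  refine h1.congr_of_eventuallyEq (Eventually.of_forall fun ζ => ?_)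
  simp only [sy, div_eq_mul_inv]

/-- products with symbols which are smooth away from the origin -/
lemma bd_mul {a b : ℝ} (ha : 0 < a) {μ h : ℂ → ℂ} (hμ : ∀ ξ : ℂ, ξ ≠ 0 → ContDiffAt ℝ ∞ μ ξ)
    (hh : Bd a b h) : Bd a b (fun ξ => μ ξ * h ξ) := by
  refine ⟨?_, ?_⟩
  · rw [contDiff_iff_contDiffAt]
    intro ξ
    by_cases hξ : ξ = 0
    · subst hξ
      have h0 : (fun ξ => μ ξ * h ξ) =ᶠ[𝓝 (0 : ℂ)] fun _ => (0 : ℂ) := by
        filter_upwards [Metric.ball_mem_nhds (0 : ℂ) ha] with ζ hζ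
        rw [mem_ball_zero_iff] at hζ
        by_cases h1 : h ζ = 0
        · rw [h1, mul_zero]
        · exact absurd (hh.2 ζ h1).1 (not_le.mpr hζ)
      exact contDiffAt_const.congr_of_eventuallyEq h0
    · exact (hμ ξ hξ).mul hh.1.contDiffAt
  · intro ξ hξ
    exact hh.2 ξ (right_ne_zero_of_mul hξ)

lemma e2_cont (x : ℂ) : Continuous (e2 x) := by
  unfold e2
  fun_prop

/-- integrability -/
lemma bd_int {a b : ℝ} {h : ℂ → ℂ} (hh : Bd a b h) (x : ℂ) : Integrable (fun ξ => e2 x ξ * h ξ) := by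
  apply Continuous.integrable_of_hasCompactSupport
  · exact (e2_cont x).mul hh.1.continuous
  · apply HasCompactSupport.mul_left
    apply HasCompactSupport.intro (isCompact_closedBall (0 : ℂ) b)
    intro ξ hξ
    by_contra h1
    apply hξ
    rw [mem_closedBall_zero_iff]
    exact (hh.2 ξ h1).2

theorem t (_h1 : S_BAS) (h2 : S_MUL) (h3 : S_REP) (h4 : S_NEA) (h5 : S_FAR) : S_LOC := by
  obtain ⟨B1, hB1⟩ := bound 1
  obtain ⟨B2, hB2⟩ := bound 2
  obtain ⟨E, Cm, hCm, hmul⟩ := h2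
  obtain ⟨hsm, hnea⟩ := h4 th th_cap
  refine ⟨max (B1 + B1) (B2 + B2), ?_⟩
  intro N
  obtain ⟨C2, hC2, hnea2⟩ := hnea (N + E)
  obtain ⟨C1, hC1, hfar⟩ := h5 th th_cap (N + E)
  refine ⟨Cm * (C1 + C2), 2 ^ 50, by positivity, ?_⟩
  intro n a b hn ha hab hbn
  have hb : 0 < b := lt_of_lt_of_le ha hab
  have hn1 : 1 ≤ n := le_trans (by norm_num) hn
  have hn0 : (0 : ℝ) < n := by exact_mod_cast hn1
  set r : ℝ := (n : ℝ) ^ (99 / 100 : ℝ) / b with hrdef
  set s : ℝ := (n : ℝ) ^ (101 / 100 : ℝ) / a with hsdef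
  have hr : 0 < r := by positivity
  have hs : 0 < s := by positivity
  have hrs : 2 * r ≤ s := by
    have e1 : (n : ℝ) ^ (101 / 100 : ℝ) = (n : ℝ) ^ (99 / 100 : ℝ) * (n : ℝ) ^ (1 / 50 : ℝ) := by
      rw [← Real.rpow_add hn0]
      norm_num
    have e2 : (2 : ℝ) ≤ (n : ℝ) ^ (1 / 50 : ℝ) := by
      have e3 : ((2 : ℝ) ^ (50 : ℕ)) ≤ (n : ℝ) := by exact_mod_cast hn
      have e4 : ((2 : ℝ) ^ (50 : ℕ)) ^ (1 / 50 : ℝ) ≤ (n : ℝ) ^ (1 / 50 : ℝ) :=
        Real.rpow_le_rpow (by positivity) e3 (by norm_num)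
      have e5 : ((2 : ℝ) ^ (50 : ℕ)) ^ (1 / 50 : ℝ) = 2 := by
        rw [← Real.rpow_natCast, ← Real.rpow_mul (by norm_num)]
        norm_num
      rwa [e5] at e4
    have e6 : r ≤ (n : ℝ) ^ (99 / 100 : ℝ) / a := by
      rw [hrdef]
      exact div_le_div_of_nonneg_left (by positivity) ha hab
    calc 2 * r ≤ 2 * ((n : ℝ) ^ (99 / 100 : ℝ) / a) := by linarith
      _ = (n : ℝ) ^ (99 / 100 : ℝ) * 2 / a := by ring
      _ ≤ (n : ℝ) ^ (99 / 100 : ℝ) * (n : ℝ) ^ (1 / 50 : ℝ) / a := by gcongr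
      _ = s := by rw [hsdef, e1]
  have hψ : (fun x => tr s x - tr r x) =
      fun x => th (((s⁻¹ : ℝ) : ℂ) * x) - th (((r⁻¹ : ℝ) : ℂ) * x) := by
    funext x
    simp only [tr, Complex.real_smul]
  refine ⟨fun x => th (((s⁻¹ : ℝ) : ℂ) * x) - th (((r⁻¹ : ℝ) : ℂ) * x), ?_, ?_⟩
  · rw [← hψ, mul_div_assoc]
    exact cut_tr B1 B2 hB1 hB2 r s hr hrs
  intro h hh m hm
  have hμs : ContDiff ℝ ∞ (mu n th s) := hsm n s hs
  have hμr : ContDiff ℝ ∞ (mu n th r) := hsm n r hr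
  -- the symbol of the difference
  have hA : ∀ ξ : ℂ, ξ ≠ 0 → ContDiffAt ℝ ∞ (fun ξ => sy n ξ - mu n th s ξ) ξ := fun ξ hξ =>
    (sy_smooth n ξ hξ).sub hμs.contDiffAt
  have hν : ∀ ξ : ℂ, ξ ≠ 0 → ContDiffAt ℝ ∞ (fun ξ => (sy n ξ - mu n th s ξ) + mu n th r ξ) ξ :=
    fun ξ hξ => (hA ξ hξ).add hμr.contDiffAt
  have hid : ∀ x, Fi (Tn n h) x -
      So n (fun x => th (((s⁻¹ : ℝ) : ℂ) * x) - th (((r⁻¹ : ℝ) : ℂ) * x)) (Fi h) x =
      Fi (fun ξ => ((sy n ξ - mu n th s ξ) + mu n th r ξ) * h ξ) x := by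
    intro x
    rw [h3 th th_cap n r s a b h hn1 hr hrs ha hh x]
    have i1 : Integrable (fun ξ => e2 x ξ * Tn n h ξ) :=
      bd_int (bd_mul ha (fun ξ hξ => sy_smooth n ξ hξ) hh) x
    have i2 : Integrable (fun ξ => e2 x ξ * ((mu n th s ξ - mu n th r ξ) * h ξ)) :=
      bd_int (bd_mul ha (μ := fun ξ => mu n th s ξ - mu n th r ξ)
        (fun ξ _ => hμs.contDiffAt.sub hμr.contDiffAt) hh) x
    unfold Fi
    rw [← integral_sub i1 i2]
    congr 1
    funext ξ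
    simp only [Tn]
    ring
  have hfun : (fun x => Fi (Tn n h) x -
      So n (fun x => th (((s⁻¹ : ℝ) : ℂ) * x) - th (((r⁻¹ : ℝ) : ℂ) * x)) (Fi h) x) =
      Fi (fun ξ => ((sy n ξ - mu n th s ξ) + mu n th r ξ) * h ξ) := funext hid
  rw [hfun]
  have hδ : 0 ≤ (C1 + C2) * ((n : ℝ) ^ (N + E))⁻¹ := by positivity
  have key := hmul n a b ((C1 + C2) * ((n : ℝ) ^ (N + E))⁻¹)
    (fun ξ => (sy n ξ - mu n th s ξ) + mu n th r ξ) hn1 ha hab hbn hδ
    (fun ξ hξ => (hν ξ hξ).contDiffWithinAt) ?_ h hh m hm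
  · refine key.trans (le_of_eq ?_)
    congr 2
    have : Cm * (n : ℝ) ^ E * ((C1 + C2) * ((n : ℝ) ^ (N + E))⁻¹) =
        Cm * (C1 + C2) * ((n : ℝ) ^ N)⁻¹ := by
      rw [pow_add]
      field_simp
    rw [this]
  · intro k hk ξ hξ1 hξ2
    have hξ0 : ξ ≠ 0 := by
      intro h0
      rw [h0, norm_zero] at hξ1
      linarith
    have b1 := hfar n a hn1 ha k hk ξ hξ1
    have b2 := hnea2 n a b hn1 ha hab hbn k hk ξ hξ2
    rw [← hsdef] at b1
    rw [← hrdef] at b2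
    have e1 : iteratedFDeriv ℝ k (fun ξ => (sy n ξ - mu n th s ξ) + mu n th r ξ) ξ =
        iteratedFDeriv ℝ k (fun ξ => sy n ξ - mu n th s ξ) ξ + iteratedFDeriv ℝ k (mu n th r) ξ := by
      have hk' : (k : WithTop ℕ∞) ≤ ((⊤ : ℕ∞) : WithTop ℕ∞) := by exact_mod_cast le_top
      exact iteratedFDeriv_add_apply (f := fun ξ => sy n ξ - mu n th s ξ) (g := mu n th r)
        ((hA ξ hξ0).of_le hk') (hμr.contDiffAt.of_le hk')
    rw [e1]
    refine (norm_add_le _ _).trans ?_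
    refine (add_le_add b1 b2).trans (le_of_eq ?_)
    ring

end Pool.Agent.N892.BW.LOC
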