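import Mathlib
import Pool.Agent.N892.BW.Stm3

/-!
Project BW, part 3 (helper892), LOW (helper946): the low frequency part and the maximal function
-/

set_option autoImplicit false

open MeasureTheory ENNReal Filter Topology Complex
open scoped ComplexConjugate ContDiff

namespace Pool.Agent.N892.BW.LOW

open Pool.Agent.N892.BW

/-- the smooth cut-off function -/
theorem exists_cut : ∃ θ : ℂ → ℂ, ContDiff ℝ ∞ θ ∧ (∀ ξ, ‖ξ‖ ≤ 1 → θ ξ = 1) ∧
    ∀ ξ, 2 ≤ ‖ξ‖ → θ ξ = 0 := by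
  let f : ContDiffBump (0 : ℂ) := ⟨1, 2, one_pos, one_lt_two⟩
  refine ⟨fun ξ => ((f ξ : ℝ) : ℂ), Complex.ofRealCLM.contDiff.comp f.contDiff, fun ξ h => ?_,
    fun ξ h => ?_⟩
  · have h1 : f ξ = 1 := f.one_of_mem_closedBall (by
      rw [Metric.mem_closedBall, dist_zero_right]
      exact h)
    change ((f ξ : ℝ) : ℂ) = 1
    rw [h1, Complex.ofReal_one]
  · have h1 : f ξ = 0 := f.zero_of_le_dist (by
      rw [dist_zero_right]
      exact h)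
    change ((f ξ : ℝ) : ℂ) = 0
    rw [h1, Complex.ofReal_zero]

theorem Fi_scale (θ : ℂ → ℂ) (b : ℝ) (hb : 0 < b) (x : ℂ) :
    Fi (fun ξ => θ (b⁻¹ • ξ)) x = ((b ^ 2 : ℝ) : ℂ) * Fi θ (b • x) := by
  unfold Fi
  have h1 := MeasureTheory.Measure.integral_comp_smul (volume : Measure ℂ)
    (fun η => e2 (b • x) η * θ η) b⁻¹
  rw [Complex.finrank_real_complex] at h1
  have h2 : ∀ ξ : ℂ, e2 (b • x) (b⁻¹ • ξ) = e2 x ξ := by
    intro ξ
    unfold e2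
    congr 3
    rw [Complex.smul_re, Complex.smul_im, Complex.smul_re, Complex.smul_im, smul_eq_mul,
      smul_eq_mul, smul_eq_mul, smul_eq_mul]
    field_simp
  simp only [h2] at h1
  rw [h1]
  have h3 : |((b⁻¹) ^ 2)⁻¹| = b ^ 2 := by
    rw [inv_pow, inv_inv, abs_of_nonneg (by positivity)]
  rw [h3, Complex.real_smul]

theorem t (h1 : S_BAS) (h2 : S_CNV) (h3 : S_RDM) : Pool.Agent.N892.BW.S_LOW := by
  obtain ⟨θ, hθ1, hθ2, hθ3⟩ := exists_cut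
  have hBθ : Bd 0 2 θ := ⟨hθ1, fun ξ hξ => ⟨norm_nonneg _, by
    by_contra hc
    exact hξ (hθ3 ξ (not_le.1 hc).le)⟩⟩
  obtain ⟨-, hdec, -, -, -⟩ := h1 2 θ hBθ
  obtain ⟨C0, hC0⟩ := hdec 4
  have hC0' : 0 ≤ C0 := le_trans (by positivity) (hC0 0)
  obtain ⟨C1, hC1, hR⟩ := h3
  refine ⟨C0 * C1, by positivity, ?_⟩
  intro b b' g₁ g₂ x y hb hg₁ hg₂
  obtain ⟨h, hh⟩ : ∃ h : ℂ → ℂ, h = fun ξ => g₁ ξ + g₂ ξ := ⟨_, rfl⟩
  obtain ⟨B, hB⟩ : ∃ B : ℝ, B = max (2 * b) b' := ⟨_, rfl⟩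
  have hB1 : 2 * b ≤ B := by
    rw [hB]
    exact le_max_left _ _
  have hB2 : b' ≤ B := by
    rw [hB]
    exact le_max_right _ _
  have hBh : Bd 0 B h := by
    rw [hh]
    refine ⟨hg₁.1.add hg₂.1, fun ξ hξ => ⟨norm_nonneg _, ?_⟩⟩
    by_cases h0 : g₁ ξ = 0
    · have h4 : g₂ ξ ≠ 0 := fun h5 => hξ (by simp only [h0, h5, add_zero])
      exact (hg₂.2 ξ h4).2.trans hB2
    · have := (hg₁.2 ξ h0).2
      linarith
  have hBb : Bd 0 B (fun ξ => θ (b⁻¹ • ξ)) := by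
    refine ⟨hθ1.comp (contDiff_id.const_smul b⁻¹), fun ξ hξ => ⟨norm_nonneg _, ?_⟩⟩
    have h4 : ‖b⁻¹ • ξ‖ ≤ 2 := by
      by_contra hc
      exact hξ (hθ3 _ (not_le.1 hc).le)
    rw [norm_smul, norm_inv, Real.norm_of_nonneg hb.le, inv_mul_le_iff₀ hb] at h4
    linarith
  have hprod : (fun ξ => θ (b⁻¹ • ξ) * h ξ) = g₁ := by
    rw [hh]
    funext ξ
    by_cases h0 : g₁ ξ = 0
    · by_cases h4 : g₂ ξ = 0
      · simp only [h0, h4, add_zero, mul_zero]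
      · have h5 := (hg₂.2 ξ h4).1
        simp only [h0]
        rw [hθ3, zero_mul]
        rw [norm_smul, norm_inv, Real.norm_of_nonneg hb.le, le_inv_mul_iff₀ hb]
        linarith
    · have h5 := (hg₁.2 ξ h0).2
      have h4 : g₂ ξ = 0 := by
        by_contra hc
        have := (hg₂.2 ξ hc).1
        linarith
      simp only [h4, add_zero]
      rw [hθ2, one_mul]
      rw [norm_smul, norm_inv, Real.norm_of_nonneg hb.le, inv_mul_le_iff₀ hb]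
      linarith
  have h4 := (h2 B _ h hBb hBh (x + y)).2
  rw [hprod] at h4
  have hmeas : Measurable (fun z => ‖Fi h z‖ₑ) := (h1 B h hBh).1.measurable.enorm
  have hkey : ‖Fi g₁ (x + y)‖ₑ ≤
      ENNReal.ofReal (C0 * (1 + b * ‖y‖) ^ 4) * cv (PP b) (fun z => ‖Fi h z‖ₑ) x := by
    have e1 : cv (PP b) (fun z => ‖Fi h z‖ₑ) x = ∫⁻ z, PP b (x - z) * ‖Fi h z‖ₑ := by
      unfold cv
      rw [← lintegral_sub_left_eq_self (fun z => PP b z * ‖Fi h (x - z)‖ₑ) x]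
      refine lintegral_congr fun z => ?_
      have e2 : x - (x - z) = z := by ring
      rw [e2]
    rw [e1, h4, ← lintegral_const_mul' _ _ ENNReal.ofReal_ne_top]
    refine (enorm_integral_le_lintegral_enorm _).trans (lintegral_mono fun z => ?_)
    rw [enorm_mul, ← mul_assoc]
    refine mul_le_mul_left ?_ _
    rw [Fi_scale θ b hb, ← ofReal_norm, norm_mul, Complex.norm_real,
      Real.norm_of_nonneg (by positivity : (0 : ℝ) ≤ b ^ 2)]
    unfold PP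
    rw [← ENNReal.ofReal_mul (by positivity)]
    refine ENNReal.ofReal_le_ofReal ?_
    have h5 := hC0 (b • (x + y - z))
    rw [norm_smul, Real.norm_of_nonneg hb.le] at h5
    have h6 : 1 + b * ‖x - z‖ ≤ (1 + b * ‖y‖) * (1 + b * ‖x + y - z‖) := by
      have h7 : ‖x - z‖ ≤ ‖x + y - z‖ + ‖y‖ := by
        have e2 : x - z = (x + y - z) - y := by ring
        rw [e2]
        exact norm_sub_le _ _
      have h8 : b * ‖x - z‖ ≤ b * (‖x + y - z‖ + ‖y‖) := mul_le_mul_of_nonneg_left h7 hb.le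
      have h9 : 0 ≤ b * ‖y‖ * (b * ‖x + y - z‖) := by positivity
      nlinarith
    have h7 : (1 + b * ‖x - z‖) ^ 4 ≤ (1 + b * ‖y‖) ^ 4 * (1 + b * ‖x + y - z‖) ^ 4 := by
      rw [← mul_pow]
      exact pow_le_pow_left₀ (by positivity) h6 4
    have h8 : ‖Fi θ (b • (x + y - z))‖ ≤
        C0 * (1 + b * ‖y‖) ^ 4 * ((1 + b * ‖x - z‖) ^ 4)⁻¹ := by
      rw [← div_eq_mul_inv, le_div_iff₀ (by positivity)]
      calc ‖Fi θ (b • (x + y - z))‖ * (1 + b * ‖x - z‖) ^ 4 ≤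
          ‖Fi θ (b • (x + y - z))‖ * ((1 + b * ‖y‖) ^ 4 * (1 + b * ‖x + y - z‖) ^ 4) :=
            mul_le_mul_of_nonneg_left h7 (norm_nonneg _)
        _ = (‖Fi θ (b • (x + y - z))‖ * (1 + b * ‖x + y - z‖) ^ 4) * (1 + b * ‖y‖) ^ 4 := by ring
        _ ≤ C0 * (1 + b * ‖y‖) ^ 4 := mul_le_mul_of_nonneg_right h5 (by positivity)
    calc b ^ 2 * ‖Fi θ (b • (x + y - z))‖ ≤
        b ^ 2 * (C0 * (1 + b * ‖y‖) ^ 4 * ((1 + b * ‖x - z‖) ^ 4)⁻¹) :=
          mul_le_mul_of_nonneg_left h8 (by positivity)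
      _ = C0 * (1 + b * ‖y‖) ^ 4 * (b ^ 2 * ((1 + b * ‖x - z‖) ^ 4)⁻¹) := by ring
  refine (hkey.trans (mul_le_mul_right (hR b _ x hb hmeas) _)).trans (le_of_eq ?_)
  rw [← mul_assoc, ← ENNReal.ofReal_mul (by positivity), hh]
  congr 2
  ring

end Pool.Agent.N892.BW.LOW
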