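import Mathlib
import Pool.Agent.N892.BW.Stm
import Pool.Agent.N892.BW.Stm2
import Pool.Agent.N892.BW.Stm3

/-!
LPF: the square function inequality for separated families, from S_LPS.
-/

set_option autoImplicit false

open MeasureTheory ENNReal Filter Topology Complex
open scoped ComplexConjugate ContDiff

namespace Pool.Agent.N892.BW.LPF

open Pool.Agent.N892.BW

theorem lp_one (β : ℝ) (ξ : ℂ) (hβ : 0 < β) (h : ‖ξ‖ ≤ β) : lp β ξ = 1 := by
  have h1 : thb (((β⁻¹ : ℝ) : ℂ) * ξ) = 1 := by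
    apply thb.one_of_mem_closedBall
    rw [Metric.mem_closedBall, dist_zero_right, norm_mul, Complex.norm_real, Real.norm_eq_abs,
      abs_of_pos (inv_pos.mpr hβ)]
    change β⁻¹ * ‖ξ‖ ≤ 1
    rw [inv_mul_le_iff₀ hβ, mul_one]
    exact h
  unfold lp
  rw [h1]
  norm_num

theorem lp_zero (β : ℝ) (ξ : ℂ) (hβ : 0 < β) (h : 2 * β ≤ ‖ξ‖) : lp β ξ = 0 := by
  have h1 : thb (((β⁻¹ : ℝ) : ℂ) * ξ) = 0 := by
    apply thb.zero_of_le_dist
    rw [dist_zero_right, norm_mul, Complex.norm_real, Real.norm_eq_abs,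
      abs_of_pos (inv_pos.mpr hβ)]
    change 2 ≤ β⁻¹ * ‖ξ‖
    rw [← div_eq_inv_mul, le_div_iff₀ hβ]
    exact h
  unfold lp
  rw [h1]
  norm_num

/-- the sequence of cut-off radii -/
noncomputable def bt (M : ℕ) (a b : ℕ → ℝ) : ℕ → ℝ
  | 0 => a 0 / 4
  | k + 1 => 2 ^ (k - (M - 1)) * b (min k (M - 1))

theorem bt_succ (M : ℕ) (a b : ℕ → ℝ) (k : ℕ) (hk : k < M) : bt M a b (k + 1) = b k := by
  change 2 ^ (k - (M - 1)) * b (min k (M - 1)) = b k
  rw [Nat.sub_eq_zero_of_le (by omega), min_eq_left (by omega)]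
  norm_num

theorem bt_dbl (m M : ℕ) (a b : ℕ → ℝ) (H : ℕ → ℂ → ℂ) (hm : 1 ≤ m) (hM : 1 ≤ M)
    (hS : Sep m M a b H) (i : ℕ) : 2 * bt M a b i ≤ bt M a b (i + 1) := by
  have hm' : (1 : ℝ) ≤ m := by exact_mod_cast hm
  rcases i with _ | k
  · rw [bt_succ M a b 0 (by omega)]
    change 2 * (a 0 / 4) ≤ b 0
    obtain ⟨h1, h2, -, -⟩ := hS 0 (by omega)
    linarith
  · by_cases hk : k + 1 < M
    · rw [bt_succ M a b k (by omega), bt_succ M a b (k + 1) hk]
      obtain ⟨h1, h2, -, h4⟩ := hS k (by omega)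
      obtain ⟨h5, h6, -, -⟩ := hS (k + 1) hk
      nlinarith
    · change 2 * (2 ^ (k - (M - 1)) * b (min k (M - 1))) ≤
        2 ^ (k + 1 - (M - 1)) * b (min (k + 1) (M - 1))
      rw [min_eq_right (by omega : M - 1 ≤ k), min_eq_right (by omega : M - 1 ≤ k + 1),
        show k + 1 - (M - 1) = (k - (M - 1)) + 1 by omega, pow_succ]
      exact le_of_eq (by ring)

theorem bt_pos (m M : ℕ) (a b : ℕ → ℝ) (H : ℕ → ℂ → ℂ) (hM : 1 ≤ M)
    (hS : Sep m M a b H) (i : ℕ) : 0 < bt M a b i := by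
  rcases i with _ | k
  · change 0 < a 0 / 4
    obtain ⟨h1, -, -, -⟩ := hS 0 (by omega)
    linarith
  · change 0 < 2 ^ (k - (M - 1)) * b (min k (M - 1))
    obtain ⟨h1, h2, -, -⟩ := hS (min k (M - 1)) (by omega)
    have : 0 < b (min k (M - 1)) := lt_of_lt_of_le h1 h2
    positivity

theorem bt_mono (m M : ℕ) (a b : ℕ → ℝ) (H : ℕ → ℂ → ℂ) (hm : 1 ≤ m) (hM : 1 ≤ M)
    (hS : Sep m M a b H) : Monotone (bt M a b) := by
  apply monotone_nat_of_le_succ
  intro i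
  have h1 := bt_dbl m M a b H hm hM hS i
  have h2 := bt_pos m M a b H hM hS i
  linarith

theorem bt_le (m M : ℕ) (a b : ℕ → ℝ) (H : ℕ → ℂ → ℂ) (hm : 1 ≤ m)
    (hS : Sep m M a b H) (j : ℕ) (hj : j < M) : 2 * bt M a b j ≤ a j := by
  have hm' : (1 : ℝ) ≤ m := by exact_mod_cast hm
  rcases j with _ | k
  · change 2 * (a 0 / 4) ≤ a 0
    obtain ⟨h1, -, -, -⟩ := hS 0 hj
    linarith
  · rw [bt_succ M a b k (by omega)]
    obtain ⟨h1, h2, -, h4⟩ := hS k (by omega)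
    nlinarith

theorem key (m M : ℕ) (a b : ℕ → ℝ) (H : ℕ → ℂ → ℂ) (hm : 1 ≤ m) (hM : 1 ≤ M)
    (hS : Sep m M a b H) (j k : ℕ) (hj : j < M) (ξ : ℂ) :
    bp (bt M a b) k ξ * H j ξ = if j = k then H j ξ else 0 := by
  by_cases h0 : H j ξ = 0
  · rw [h0]
    simp
  · obtain ⟨h1, h2, h3, -⟩ := hS j hj
    obtain ⟨h5, h6⟩ := h3.2 ξ h0
    have hone : ∀ i, j + 1 ≤ i → lp (bt M a b i) ξ = 1 := by
      intro i hi
      apply lp_one _ _ (bt_pos m M a b H hM hS i)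
      have h7 := bt_mono m M a b H hm hM hS hi
      rw [bt_succ M a b j hj] at h7
      linarith
    have hzero : ∀ i, i ≤ j → lp (bt M a b i) ξ = 0 := by
      intro i hi
      apply lp_zero _ _ (bt_pos m M a b H hM hS i)
      have h7 := bt_mono m M a b H hm hM hS hi
      have h8 := bt_le m M a b H hm hS j hj
      linarith
    unfold bp
    rcases lt_trichotomy j k with h | h | h
    · rw [hone (k + 1) (by omega), hone k (by omega), if_neg (by omega)]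
      ring
    · rw [hone (k + 1) (by omega), hzero k (by omega), if_pos h]
      ring
    · rw [hzero (k + 1) (by omega), hzero k (by omega), if_neg (by omega)]
      ring

theorem key2 (m M : ℕ) (a b : ℕ → ℝ) (H : ℕ → ℂ → ℂ) (hm : 1 ≤ m) (hM : 1 ≤ M)
    (hS : Sep m M a b H) (k : ℕ) (hk : k < M) :
    (fun ξ => bp (bt M a b) k ξ * sm H M ξ) = H k := by
  funext ξ
  unfold sm
  rw [Finset.mul_sum]
  rw [Finset.sum_congr rfl (fun j hj =>
    key m M a b H hm hM hS j k (Finset.mem_range.mp hj) ξ)]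
  rw [Finset.sum_ite_eq']
  rw [if_pos (Finset.mem_range.mpr hk)]

theorem b_mono (m M : ℕ) (a b : ℕ → ℝ) (H : ℕ → ℂ → ℂ) (hm : 1 ≤ m) (hM : 1 ≤ M)
    (hS : Sep m M a b H) (j : ℕ) (hj : j < M) : b j ≤ b (M - 1) := by
  have h := bt_mono m M a b H hm hM hS (show j + 1 ≤ (M - 1) + 1 by omega)
  rw [bt_succ M a b j hj, bt_succ M a b (M - 1) (by omega)] at h
  exact h

theorem sm_Bd (m M : ℕ) (a b : ℕ → ℝ) (H : ℕ → ℂ → ℂ) (hm : 1 ≤ m) (hM : 1 ≤ M)
    (hS : Sep m M a b H) : Bd 0 (b (M - 1)) (sm H M) := by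
  refine ⟨?_, ?_⟩
  · have : ContDiff ℝ ∞ (fun ξ => ∑ j ∈ Finset.range M, H j ξ) := by
      apply ContDiff.sum
      intro j hj
      exact (hS j (Finset.mem_range.mp hj)).2.2.1.1
    exact this
  · intro ξ hξ
    refine ⟨norm_nonneg ξ, ?_⟩
    unfold sm at hξ
    obtain ⟨j, hj, hj2⟩ := Finset.exists_ne_zero_of_sum_ne_zero hξ
    have hj' := Finset.mem_range.mp hj
    have h1 := ((hS j hj').2.2.1.2 ξ hj2).2
    have h2 := b_mono m M a b H hm hM hS j hj'
    linarith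

theorem t (hL : Pool.Agent.N892.BW.S_LPS) : Pool.Agent.N892.BW.S_LPF := by
  intro m hm
  obtain ⟨C, hC, hC2⟩ := hL m hm
  refine ⟨C, hC, ?_⟩
  intro M a b H hS
  rcases Nat.eq_zero_or_pos M with hM | hM
  · subst hM
    have : Sq m 0 H = 0 := by
      unfold Sq
      simp [show m ≠ 0 by omega]
    rw [this]
    exact zero_le
  · have h1 := hC2 M (bt M a b) (b (M - 1)) (sm H M) (bt_pos m M a b H hM hS 0)
      (bt_dbl m M a b H hm hM hS) (sm_Bd m M a b H hm hM hS)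
    have h2 : Sq m M H = ∫⁻ x, (∑ i ∈ Finset.range M,
        ‖Fi (fun ξ => bp (bt M a b) i ξ * sm H M ξ) x‖ₑ ^ 2) ^ m := by
      unfold Sq
      apply lintegral_congr
      intro x
      congr 1
      apply Finset.sum_congr rfl
      intro i hi
      rw [key2 m M a b H hm hM hS i (Finset.mem_range.mp hi)]
    rw [h2]
    exact h1

end Pool.Agent.N892.BW.LPF
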