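import Mathlib
import Pool.Agent.N892.BW.Stm
import Pool.Agent.N892.BW.Stm2
import Pool.Agent.N892.BW.Stm3

/-!
Convolution with a radially decreasing kernel is bounded by the maximal function.
-/

set_option autoImplicit false

open MeasureTheory ENNReal Filter Topology Complex

namespace Pool.Agent.N892.BW.RDM

theorem pp_le (β : ℝ) (hβ : 0 < β) (y : ℂ) :
    PP β y ≤ ∑' j : ℕ, (Metric.ball (0 : ℂ) (2 ^ j / β)).indicator
      (fun _ => ENNReal.ofReal (16 * β ^ 2 * (1 / 16) ^ j)) y := by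
  have hex : ∃ j : ℕ, β * ‖y‖ < 2 ^ j := pow_unbounded_of_one_lt _ one_lt_two
  classical
  obtain ⟨hj1, hj2⟩ : β * ‖y‖ < 2 ^ (Nat.find hex) ∧
      ∀ k < Nat.find hex, ¬ β * ‖y‖ < 2 ^ k :=
    ⟨Nat.find_spec hex, fun k hk => Nat.find_min hex hk⟩
  generalize Nat.find hex = j at hj1 hj2
  refine le_trans ?_ (ENNReal.le_tsum j)
  have hmem : y ∈ Metric.ball (0 : ℂ) (2 ^ j / β) := by
    rw [mem_ball_zero_iff, lt_div_iff₀ hβ]
    linarith [mul_comm β ‖y‖]
  rw [Set.indicator_of_mem hmem]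
  unfold PP
  apply ENNReal.ofReal_le_ofReal
  have hb2 : 0 < β ^ 2 := by positivity
  have hn : 0 ≤ β * ‖y‖ := by positivity
  rcases j with _ | k
  · have h1 : ((1 + β * ‖y‖) ^ 4)⁻¹ ≤ 1 := by
      apply inv_le_one_of_one_le₀
      exact one_le_pow₀ (by linarith)
    calc β ^ 2 * ((1 + β * ‖y‖) ^ 4)⁻¹ ≤ β ^ 2 * 1 :=
          mul_le_mul_of_nonneg_left h1 hb2.le
      _ ≤ 16 * β ^ 2 * (1 / 16) ^ 0 := by
          rw [pow_zero]
          linarith
  · have h0 := not_lt.1 (hj2 k (Nat.lt_succ_self k))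
    have h2 : (2 : ℝ) ^ k ≤ 1 + β * ‖y‖ := by linarith
    have h3 : ((2 : ℝ) ^ k) ^ 4 ≤ (1 + β * ‖y‖) ^ 4 :=
      pow_le_pow_left₀ (by positivity) h2 4
    have h4 : ((1 + β * ‖y‖) ^ 4)⁻¹ ≤ (((2 : ℝ) ^ k) ^ 4)⁻¹ :=
      inv_anti₀ (by positivity) h3
    have h5 : (((2 : ℝ) ^ k) ^ 4)⁻¹ = (1 / 16) ^ k := by
      rw [← pow_mul, mul_comm k 4, pow_mul, one_div, inv_pow]
      norm_num
    rw [h5] at h4
    calc β ^ 2 * ((1 + β * ‖y‖) ^ 4)⁻¹ ≤ β ^ 2 * (1 / 16) ^ k :=
          mul_le_mul_of_nonneg_left h4 hb2.le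
      _ = 16 * β ^ 2 * (1 / 16) ^ (k + 1) := by
          rw [pow_succ]
          ring

theorem ball_le (w : ℂ → ℝ≥0∞) (x : ℂ) (R : ℝ) (hR : 0 < R) :
    ∫⁻ y in Metric.ball (0 : ℂ) R, w (x - y) ≤
      volume (Metric.ball (0 : ℂ) R) * mx w x := by
  have h1 : ∫⁻ y in Metric.ball (0 : ℂ) R, w (x - y) =
      ∫⁻ y in Metric.ball (0 : ℂ) R, w (x + y) := by
    rw [← lintegral_indicator Metric.isOpen_ball.measurableSet,
      ← lintegral_indicator Metric.isOpen_ball.measurableSet,
      ← lintegral_neg_eq_self]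
    apply lintegral_congr
    intro y
    by_cases hy : y ∈ Metric.ball (0 : ℂ) R
    · have hy' : -y ∈ Metric.ball (0 : ℂ) R := by
        rw [mem_ball_zero_iff] at hy ⊢
        rwa [norm_neg]
      rw [Set.indicator_of_mem hy, Set.indicator_of_mem hy', sub_neg_eq_add]
    · have hy' : -y ∉ Metric.ball (0 : ℂ) R := by
        rw [mem_ball_zero_iff] at hy ⊢
        rwa [norm_neg]
      rw [Set.indicator_of_notMem hy, Set.indicator_of_notMem hy']
  have hv0 : volume (Metric.ball (0 : ℂ) R) ≠ 0 := (Metric.measure_ball_pos volume 0 hR).ne'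
  have hvt : volume (Metric.ball (0 : ℂ) R) ≠ ⊤ := measure_ball_lt_top.ne
  have h2 : ∫⁻ y in Metric.ball (0 : ℂ) R, w (x + y) =
      volume (Metric.ball (0 : ℂ) R) * av R w x := by
    unfold av
    rw [← mul_assoc, ENNReal.mul_inv_cancel hv0 hvt, one_mul]
  rw [h1, h2]
  have h3 : av R w x ≤ mx w x := le_iSup (fun r : {r : ℝ // 0 < r} => av r w x) ⟨R, hR⟩
  gcongr

theorem t : Pool.Agent.N892.BW.S_RDM := by
  have hs : Summable (fun j : ℕ => 16 * Real.pi * (1 / 4 : ℝ) ^ j) :=
    (summable_geometric_of_lt_one (by norm_num) (by norm_num)).mul_left _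
  have hnn : ∀ j : ℕ, 0 ≤ 16 * Real.pi * (1 / 4 : ℝ) ^ j := fun j => by positivity
  refine ⟨∑' j : ℕ, 16 * Real.pi * (1 / 4 : ℝ) ^ j, tsum_nonneg hnn, ?_⟩
  intro β w x hβ hw
  rw [ENNReal.ofReal_tsum_of_nonneg hnn hs, ← ENNReal.tsum_mul_right]
  unfold cv
  have hwx : Measurable fun y => w (x - y) := hw.comp (measurable_const.sub measurable_id)
  calc ∫⁻ y, PP β y * w (x - y)
      ≤ ∫⁻ y, ∑' j : ℕ, ENNReal.ofReal (16 * β ^ 2 * (1 / 16) ^ j) *
          (Metric.ball (0 : ℂ) (2 ^ j / β)).indicator (fun y => w (x - y)) y := by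
        apply lintegral_mono
        intro y
        have h1 := pp_le β hβ y
        calc PP β y * w (x - y) ≤ (∑' j : ℕ, (Metric.ball (0 : ℂ) (2 ^ j / β)).indicator
              (fun _ => ENNReal.ofReal (16 * β ^ 2 * (1 / 16) ^ j)) y) * w (x - y) := by
              gcongr
          _ = ∑' j : ℕ, (Metric.ball (0 : ℂ) (2 ^ j / β)).indicator
              (fun _ => ENNReal.ofReal (16 * β ^ 2 * (1 / 16) ^ j)) y * w (x - y) :=
              ENNReal.tsum_mul_right.symm
          _ = _ := by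
              apply tsum_congr
              intro j
              by_cases hy : y ∈ Metric.ball (0 : ℂ) (2 ^ j / β)
              · rw [Set.indicator_of_mem hy, Set.indicator_of_mem hy]
              · rw [Set.indicator_of_notMem hy, Set.indicator_of_notMem hy, zero_mul, mul_zero]
    _ = ∑' j : ℕ, ENNReal.ofReal (16 * β ^ 2 * (1 / 16) ^ j) *
          ∫⁻ y in Metric.ball (0 : ℂ) (2 ^ j / β), w (x - y) := by
        rw [lintegral_tsum]
        · apply tsum_congr
          intro j
          rw [lintegral_const_mul _ (hwx.indicator Metric.isOpen_ball.measurableSet),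
            lintegral_indicator Metric.isOpen_ball.measurableSet]
        · intro j
          exact ((hwx.indicator Metric.isOpen_ball.measurableSet).const_mul _).aemeasurable
    _ ≤ ∑' j : ℕ, ENNReal.ofReal (16 * Real.pi * (1 / 4 : ℝ) ^ j) * mx w x := by
        apply ENNReal.tsum_le_tsum
        intro j
        have hR : (0 : ℝ) < 2 ^ j / β := by positivity
        have h1 := ball_le w x (2 ^ j / β) hR
        calc ENNReal.ofReal (16 * β ^ 2 * (1 / 16) ^ j) *
            ∫⁻ y in Metric.ball (0 : ℂ) (2 ^ j / β), w (x - y)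
            ≤ ENNReal.ofReal (16 * β ^ 2 * (1 / 16) ^ j) *
              (volume (Metric.ball (0 : ℂ) (2 ^ j / β)) * mx w x) := by gcongr
          _ = ENNReal.ofReal (16 * Real.pi * (1 / 4 : ℝ) ^ j) * mx w x := by
              rw [← mul_assoc]
              congr 1
              have hpi : (NNReal.pi : ℝ≥0∞) = ENNReal.ofReal Real.pi := by
                rw [ENNReal.ofReal, ← NNReal.coe_real_pi, Real.toNNReal_coe]
              rw [Complex.volume_ball, hpi, ← ENNReal.ofReal_pow hR.le,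
                ← ENNReal.ofReal_mul (by positivity), ← ENNReal.ofReal_mul (by positivity)]
              congr 1
              have hβ0 : β ≠ 0 := hβ.ne'
              have h4 : ((1 : ℝ) / 16) ^ j * (2 ^ j) ^ 2 = (1 / 4) ^ j := by
                rw [← pow_mul, mul_comm j 2, pow_mul, ← mul_pow]
                norm_num
              calc 16 * β ^ 2 * (1 / 16) ^ j * ((2 ^ j / β) ^ 2 * Real.pi)
                  = 16 * Real.pi * ((1 / 16) ^ j * (2 ^ j) ^ 2) * (β ^ 2 / β ^ 2) := by
                    rw [div_pow]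
                    ring
                _ = 16 * Real.pi * (1 / 4) ^ j := by
                    rw [h4, div_self (by positivity), mul_one]

end Pool.Agent.N892.BW.RDM
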