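import Mathlib
import Pool.Agent.N892.BW.Stm3
import Pool.Agent.N892.BW.RDM
import Pool.Agent.N892.BW.LOW
import Pool.Agent.N892.BW.LPF

/-!
Project BW, part 3 (helper892), LPS (helper368): auxiliary inequalities
-/

set_option autoImplicit false

open MeasureTheory ENNReal Filter Topology Complex
open scoped ComplexConjugate ContDiff

namespace Pool.Agent.N892.BW.LPS

open Pool.Agent.N892.BW

/-! ### algebra -/

theorem add_pow_le (m : ℕ) (x y : ℝ≥0∞) :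
    (x + y) ^ m ≤ y ^ m + (m : ℝ≥0∞) * 2 ^ m * (x * y ^ (m - 1) + x ^ m) := by
  have hid : (∑ i ∈ Finset.range m, (x + y) ^ i * y ^ (m - 1 - i)) * x + y ^ m = (x + y) ^ m :=
    (Commute.all x y).geom_sum₂_mul_add m
  rw [← hid, add_comm]
  refine add_le_add le_rfl ?_
  have h2 : ∀ z : ℝ≥0∞, x ≤ z → y ≤ z → ∀ i ∈ Finset.range m,
      (x + y) ^ i * y ^ (m - 1 - i) ≤ 2 ^ m * z ^ (m - 1) := by
    intro z hxz hyz i hi
    have hi' := Finset.mem_range.1 hi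
    have h3 : x + y ≤ 2 * z := by
      rw [two_mul]
      exact add_le_add hxz hyz
    calc (x + y) ^ i * y ^ (m - 1 - i) ≤ (2 * z) ^ i * z ^ (m - 1 - i) :=
          mul_le_mul' (pow_le_pow_left' h3 i) (pow_le_pow_left' hyz _)
      _ = 2 ^ i * (z ^ i * z ^ (m - 1 - i)) := by rw [mul_pow, mul_assoc]
      _ = 2 ^ i * z ^ (m - 1) := by rw [← pow_add]; congr 2; omega
      _ ≤ 2 ^ m * z ^ (m - 1) :=
          mul_le_mul' (pow_le_pow_right₀ one_le_two hi'.le) le_rfl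
  have h4 : ∀ z : ℝ≥0∞, x ≤ z → y ≤ z →
      (∑ i ∈ Finset.range m, (x + y) ^ i * y ^ (m - 1 - i)) * x ≤
        (m : ℝ≥0∞) * 2 ^ m * (x * z ^ (m - 1)) := by
    intro z hxz hyz
    calc (∑ i ∈ Finset.range m, (x + y) ^ i * y ^ (m - 1 - i)) * x
        ≤ (∑ i ∈ Finset.range m, 2 ^ m * z ^ (m - 1)) * x :=
          mul_le_mul' (Finset.sum_le_sum (h2 z hxz hyz)) le_rfl
      _ = (m : ℝ≥0∞) * 2 ^ m * (x * z ^ (m - 1)) := by
          rw [Finset.sum_const, Finset.card_range, nsmul_eq_mul]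
          ring
  by_cases h : x ≤ y
  · exact (h4 y h le_rfl).trans (mul_le_mul' le_rfl le_self_add)
  · have h' : y ≤ x := (not_le.1 h).le
    rcases Nat.eq_zero_or_pos m with h0 | h0
    · subst h0
      simp
    refine (h4 x le_rfl h').trans ?_
    rw [← pow_succ', Nat.sub_add_cancel h0]
    exact mul_le_mul' le_rfl le_add_self

theorem pow_sum (m : ℕ) (hm : 1 ≤ m) (G : ℕ → ℝ≥0∞) (L : ℕ) :
    (∑ k ∈ Finset.range L, G k) ^ m ≤ (m : ℝ≥0∞) * 2 ^ m *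
      ∑ k ∈ Finset.range L, (G k * (∑ j ∈ Finset.range k, G j) ^ (m - 1) + G k ^ m) := by
  induction L with
  | zero => simp [show m ≠ 0 by omega]
  | succ L ih =>
    rw [Finset.sum_range_succ, Finset.sum_range_succ, mul_add, add_comm (∑ k ∈ Finset.range L, G k)]
    refine (add_pow_le m _ _).trans ?_
    exact add_le_add ih le_rfl

/-- telescoping of the powers of the partial sums -/
theorem pow_tel (r : ℕ) (hr : 1 ≤ r) (G : ℕ → ℝ≥0∞) (k : ℕ) :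
    (∑ j ∈ Finset.range k, G j) ^ r = ∑ i ∈ Finset.range k,
      G i * ∑ j ∈ Finset.range r, (∑ l ∈ Finset.range (i + 1), G l) ^ j *
        (∑ l ∈ Finset.range i, G l) ^ (r - 1 - j) := by
  induction k with
  | zero => simp [show r ≠ 0 by omega]
  | succ k ih =>
    rw [Finset.sum_range_succ (fun i => G i * ∑ j ∈ Finset.range r,
      (∑ l ∈ Finset.range (i + 1), G l) ^ j * (∑ l ∈ Finset.range i, G l) ^ (r - 1 - j)), ← ih]
    have hid := (Commute.all (G k) (∑ l ∈ Finset.range k, G l)).geom_sum₂_mul_add r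
    rw [Finset.sum_range_succ G k, add_comm (∑ l ∈ Finset.range k, G l) (G k), ← hid]
    rw [add_comm]
    congr 1
    rw [mul_comm]

/-- exchange of the order of summation -/
theorem sum_swap (a : ℕ → ℕ → ℝ≥0∞) (L : ℕ) :
    ∑ k ∈ Finset.range L, ∑ i ∈ Finset.range k, a k i =
      ∑ i ∈ Finset.range L, ∑ j ∈ Finset.range (L - (i + 1)), a (i + 1 + j) i := by
  have h1 : ∑ k ∈ Finset.range L, ∑ i ∈ Finset.range k, a k i =
      ∑ i ∈ Finset.range L, ∑ k ∈ Finset.Ico (i + 1) L, a k i := by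
    refine Finset.sum_comm' ?_
    intro k i
    simp only [Finset.mem_range, Finset.mem_Ico]
    omega
  rw [h1]
  refine Finset.sum_congr rfl fun i _ => ?_
  rw [Finset.sum_Ico_eq_sum_range]

/-- real form of the absorption -/
theorem absorb_real (m : ℕ) (hm : 1 ≤ m) (A B x y : ℝ) (hA : 0 ≤ A) (hB : 0 ≤ B) (hx : 0 ≤ x)
    (hy : 0 ≤ y) (h : y ≤ A * x ^ (1 / (m : ℝ)) * y ^ (1 - 1 / (m : ℝ)) + B * x) :
    y ≤ ((2 * A) ^ m + 2 * B) * x := by
  have hm0 : (0 : ℝ) < m := by exact_mod_cast hm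
  by_cases hc : y ≤ 2 * B * x
  · have : 0 ≤ (2 * A) ^ m * x := by positivity
    nlinarith
  have hc' : 2 * B * x < y := not_le.1 hc
  have hy0 : 0 < y := lt_of_le_of_lt (by positivity) hc'
  have h1 : y / 2 ≤ A * x ^ (1 / (m : ℝ)) * y ^ (1 - 1 / (m : ℝ)) := by linarith
  have h2 : y = y ^ (1 / (m : ℝ)) * y ^ (1 - 1 / (m : ℝ)) := by
    rw [← Real.rpow_add hy0]
    simp
  have hyp : 0 < y ^ (1 - 1 / (m : ℝ)) := Real.rpow_pos_of_pos hy0 _
  have h3 : y ^ (1 / (m : ℝ)) ≤ 2 * A * x ^ (1 / (m : ℝ)) := by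
    have h4 : y ^ (1 / (m : ℝ)) * y ^ (1 - 1 / (m : ℝ)) ≤
        (2 * A * x ^ (1 / (m : ℝ))) * y ^ (1 - 1 / (m : ℝ)) := by
      rw [← h2]
      linarith
    exact le_of_mul_le_mul_right h4 hyp
  have h5 : (y ^ (1 / (m : ℝ))) ^ m ≤ (2 * A * x ^ (1 / (m : ℝ))) ^ m :=
    pow_le_pow_left₀ (Real.rpow_nonneg hy _) h3 m
  have h6 : ∀ z : ℝ, 0 ≤ z → (z ^ (1 / (m : ℝ))) ^ m = z := by
    intro z hz
    rw [← Real.rpow_natCast, ← Real.rpow_mul hz]
    rw [one_div, inv_mul_cancel₀ hm0.ne', Real.rpow_one]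
  rw [mul_pow, h6 y hy, h6 x hx] at h5
  nlinarith [mul_nonneg hB hx]

theorem absorb (m : ℕ) (hm : 1 ≤ m) (A B : ℝ) (X Y : ℝ≥0∞) (hA : 0 ≤ A) (hB : 0 ≤ B) (hX : X ≠ ⊤)
    (hY : Y ≠ ⊤)
    (h : Y ≤ ENNReal.ofReal A * (X ^ (1 / (m : ℝ)) * Y ^ (1 - 1 / (m : ℝ))) + ENNReal.ofReal B * X) :
    Y ≤ ENNReal.ofReal ((2 * A) ^ m + 2 * B) * X := by
  have hm1 : (1 : ℝ) ≤ m := by exact_mod_cast hm
  have hθ : 0 ≤ 1 - 1 / (m : ℝ) := by
    have : 1 / (m : ℝ) ≤ 1 := by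
      rw [div_le_one (by linarith)]
      exact hm1
    linarith
  obtain ⟨x, hx, rfl⟩ : ∃ x : ℝ, 0 ≤ x ∧ X = ENNReal.ofReal x :=
    ⟨X.toReal, ENNReal.toReal_nonneg, (ENNReal.ofReal_toReal hX).symm⟩
  obtain ⟨y, hy, rfl⟩ : ∃ y : ℝ, 0 ≤ y ∧ Y = ENNReal.ofReal y :=
    ⟨Y.toReal, ENNReal.toReal_nonneg, (ENNReal.ofReal_toReal hY).symm⟩
  rw [ENNReal.ofReal_rpow_of_nonneg hx (by positivity), ENNReal.ofReal_rpow_of_nonneg hy hθ,
    ← ENNReal.ofReal_mul (by positivity), ← ENNReal.ofReal_mul hA, ← ENNReal.ofReal_mul hB,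
    ← ENNReal.ofReal_add (by positivity) (by positivity),
    ENNReal.ofReal_le_ofReal_iff (by positivity)] at h
  rw [← ENNReal.ofReal_mul (by positivity)]
  refine ENNReal.ofReal_le_ofReal (absorb_real m hm A B x y hA hB hx hy ?_)
  linarith

/-! ### integrals -/

theorem holder (m : ℕ) (hm : 2 ≤ m) (u w : ℂ → ℝ≥0∞) (hu : Measurable u) (hw : Measurable w) :
    ∫⁻ x, u x * w x ^ (m - 1) ≤
      (∫⁻ x, u x ^ m) ^ (1 / (m : ℝ)) * (∫⁻ x, w x ^ m) ^ (1 - 1 / (m : ℝ)) := by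
  have hm1 : (1 : ℝ) < m := by exact_mod_cast (show 1 < m by omega)
  have hm0 : (m : ℝ) ≠ 0 := by linarith
  have hm10 : (m : ℝ) - 1 ≠ 0 := by linarith
  have hpq : (m : ℝ).HolderConjugate ((m : ℝ) / (m - 1)) := Real.HolderConjugate.conjExponent hm1
  have h1 := ENNReal.lintegral_mul_le_Lp_mul_Lq volume hpq hu.aemeasurable
    (hw.pow_const (m - 1)).aemeasurable
  refine h1.trans (le_of_eq ?_)
  congr 1
  · simp only [ENNReal.rpow_natCast]
  · have h2 : ∀ x, (w x ^ (m - 1)) ^ ((m : ℝ) / (m - 1)) = w x ^ m := by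
      intro x
      rw [← ENNReal.rpow_natCast, ← ENNReal.rpow_mul, ← ENNReal.rpow_natCast]
      congr 1
      rw [Nat.cast_sub (by omega), Nat.cast_one]
      field_simp
    simp only [h2]
    congr 1
    field_simp

end Pool.Agent.N892.BW.LPS
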