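import Mathlib
import Pool.Agent.N892.BW.LPS_A

/-!
Project BW, part 3 (helper892), LPS (helper368): kernels and symbols
-/

set_option autoImplicit false

open MeasureTheory ENNReal Filter Topology Complex
open scoped ComplexConjugate ContDiff

namespace Pool.Agent.N892.BW.LPS

open Pool.Agent.N892.BW

/-! ### the kernel `PP` -/

theorem PP_meas (β : ℝ) : Measurable (PP β) := by
  unfold PP
  refine ENNReal.measurable_ofReal.comp ?_
  exact ((((measurable_norm.const_mul β).const_add 1).pow_const 4).inv).const_mul _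

theorem PP_mass : ∃ K : ℝ, 0 ≤ K ∧ ∀ β : ℝ, 0 < β → ∫⁻ y, PP β y ≤ ENNReal.ofReal K := by
  obtain ⟨C, hC, h⟩ := RDM.t
  refine ⟨C, hC, fun β hβ => ?_⟩
  have h1 := h β (fun _ => 1) 0 hβ measurable_const
  have h2 : mx (fun _ : ℂ => (1 : ℝ≥0∞)) 0 ≤ 1 := by
    unfold mx
    refine iSup_le fun r => ?_
    unfold av
    rw [setLIntegral_const, one_mul]
    exact ENNReal.inv_mul_le_one _
  unfold cv at h1
  simp only [mul_one] at h1
  exact h1.trans ((mul_le_mul' le_rfl h2).trans (by rw [mul_one]))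

theorem cv_eq (f g : ℂ → ℝ≥0∞) (x : ℂ) : cv f g x = ∫⁻ u, f (x - u) * g u := by
  unfold cv
  rw [← lintegral_sub_left_eq_self (fun z => f z * g (x - z)) x]
  refine lintegral_congr fun z => ?_
  have e2 : x - (x - z) = z := by ring
  rw [e2]

theorem cv_meas (β : ℝ) (g : ℂ → ℝ≥0∞) (hg : Measurable g) : Measurable (cv (PP β) g) := by
  have h1 : cv (PP β) g = fun x => ∫⁻ u, PP β (x - u) * g u := funext fun x => cv_eq _ _ x
  rw [h1]
  have h2 : Measurable (Function.uncurry fun (x u : ℂ) => PP β (x - u) * g u) :=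
    ((PP_meas β).comp (measurable_fst.sub measurable_snd)).mul (hg.comp measurable_snd)
  exact h2.lintegral_prod_right

theorem cs {K : ℝ} (hK : ∀ β : ℝ, 0 < β → ∫⁻ y, PP β y ≤ ENNReal.ofReal K) (β : ℝ) (hβ : 0 < β)
    (u : ℂ → ℝ≥0∞) (hu : Measurable u) (x : ℂ) :
    (cv (PP β) u x) ^ 2 ≤ ENNReal.ofReal K * cv (PP β) (fun z => u z ^ 2) x := by
  have hux : Measurable fun y => u (x - y) := hu.comp (measurable_const.sub measurable_id)
  have h22 : (2 : ℝ).HolderConjugate 2 := Real.HolderConjugate.two_two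
  have h1 := ENNReal.lintegral_mul_le_Lp_mul_Lq (volume.withDensity (PP β)) h22
    (f := fun _ => 1) (g := fun y => u (x - y)) aemeasurable_const hux.aemeasurable
  have e1 : ∫⁻ y, ((fun _ : ℂ => (1 : ℝ≥0∞)) * fun y => u (x - y)) y ∂(volume.withDensity (PP β)) =
      cv (PP β) u x := by
    rw [lintegral_withDensity_eq_lintegral_mul _ (PP_meas β) (measurable_const.mul hux)]
    unfold cv
    refine lintegral_congr fun y => ?_
    simp
  have e2 : ∫⁻ y, (1 : ℝ≥0∞) ^ (2 : ℝ) ∂(volume.withDensity (PP β)) = ∫⁻ y, PP β y := by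
    simp only [ENNReal.one_rpow]
    rw [lintegral_withDensity_eq_lintegral_mul _ (PP_meas β) measurable_const]
    refine lintegral_congr fun y => ?_
    simp
  have e3 : ∫⁻ y, (u (x - y)) ^ (2 : ℝ) ∂(volume.withDensity (PP β)) =
      cv (PP β) (fun z => u z ^ 2) x := by
    rw [lintegral_withDensity_eq_lintegral_mul _ (PP_meas β) (hux.pow_const (2 : ℝ))]
    unfold cv
    refine lintegral_congr fun y => ?_
    simp
  rw [e1] at h1
  have h3 : cv (PP β) u x ≤ (∫⁻ y, PP β y) ^ (1 / (2 : ℝ)) *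
      (cv (PP β) (fun z => u z ^ 2) x) ^ (1 / (2 : ℝ)) := by
    refine h1.trans (le_of_eq ?_)
    rw [← e2, ← e3]
  have h4 : ∀ a : ℝ≥0∞, (a ^ (1 / (2 : ℝ))) ^ 2 = a := by
    intro a
    rw [← ENNReal.rpow_natCast, ← ENNReal.rpow_mul]
    simp
  calc (cv (PP β) u x) ^ 2 ≤ ((∫⁻ y, PP β y) ^ (1 / (2 : ℝ)) *
      (cv (PP β) (fun z => u z ^ 2) x) ^ (1 / (2 : ℝ))) ^ 2 := pow_le_pow_left' h3 2
    _ = (∫⁻ y, PP β y) * cv (PP β) (fun z => u z ^ 2) x := by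
        rw [mul_pow, h4, h4]
    _ ≤ _ := mul_le_mul' (hK β hβ) le_rfl

theorem slow (b : ℝ) (hb : 0 < b) (w : ℂ → ℝ≥0∞) (x y : ℂ) :
    cv (PP b) w (x + y) ≤ ENNReal.ofReal ((1 + b * ‖y‖) ^ 4) * cv (PP b) w x := by
  rw [cv_eq, cv_eq, ← lintegral_const_mul' _ _ ENNReal.ofReal_ne_top]
  refine lintegral_mono fun z => ?_
  show PP b (x + y - z) * w z ≤ ENNReal.ofReal ((1 + b * ‖y‖) ^ 4) * (PP b (x - z) * w z)
  rw [← mul_assoc]
  refine mul_le_mul' ?_ le_rfl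
  unfold PP
  rw [← ENNReal.ofReal_mul (by positivity)]
  refine ENNReal.ofReal_le_ofReal ?_
  have h6 : 1 + b * ‖x - z‖ ≤ (1 + b * ‖y‖) * (1 + b * ‖x + y - z‖) := by
    have h7 : ‖x - z‖ ≤ ‖x + y - z‖ + ‖y‖ := by
      have e2 : x - z = (x + y - z) - y := by ring
      rw [e2]
      exact norm_sub_le _ _
    have h8 : b * ‖x - z‖ ≤ b * (‖x + y - z‖ + ‖y‖) := mul_le_mul_of_nonneg_left h7 hb.le
    have h9 : 0 ≤ b * ‖y‖ * (b * ‖x + y - z‖) := by positivity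
    nlinarith
  have h7 : (1 + b * ‖x - z‖) ^ 4 ≤ (1 + b * ‖y‖) ^ 4 * (1 + b * ‖x + y - z‖) ^ 4 := by
    rw [← mul_pow]
    exact pow_le_pow_left₀ (by positivity) h6 4
  have h8 : ((1 + b * ‖x + y - z‖) ^ 4)⁻¹ ≤ (1 + b * ‖y‖) ^ 4 * ((1 + b * ‖x - z‖) ^ 4)⁻¹ := by
    rw [inv_le_iff_one_le_mul₀ (by positivity), mul_assoc, mul_comm, mul_assoc, ← div_eq_inv_mul,
      one_le_div (by positivity)]
    linarith
  calc b ^ 2 * ((1 + b * ‖x + y - z‖) ^ 4)⁻¹ ≤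
      b ^ 2 * ((1 + b * ‖y‖) ^ 4 * ((1 + b * ‖x - z‖) ^ 4)⁻¹) :=
        mul_le_mul_of_nonneg_left h8 (by positivity)
    _ = _ := by ring

/-! ### the symbols -/

/-- the fixed symbol -/
noncomputable def th0 (ξ : ℂ) : ℂ := ((thb ξ : ℝ) : ℂ)

theorem lp_eq (β : ℝ) : lp β = fun ξ => th0 (β⁻¹ • ξ) := by
  funext ξ
  unfold lp th0
  rw [Complex.real_smul]

theorem th0_smooth : ContDiff ℝ ∞ th0 := Complex.ofRealCLM.contDiff.comp thb.contDiff

theorem lp_Bd (β : ℝ) (hβ : 0 < β) : Bd 0 (2 * β) (lp β) := by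
  refine ⟨?_, fun ξ hξ => ⟨norm_nonneg _, ?_⟩⟩
  · rw [lp_eq]
    exact th0_smooth.comp (contDiff_id.const_smul β⁻¹)
  · by_contra hc
    exact hξ (LPF.lp_zero β ξ hβ (not_le.1 hc).le)

theorem lp_norm (β : ℝ) (ξ : ℂ) : 0 ≤ (lp β ξ).re ∧ (lp β ξ).re ≤ 1 ∧ (lp β ξ).im = 0 := by
  unfold lp
  refine ⟨?_, ?_, ?_⟩
  · rw [Complex.ofReal_re]
    exact thb.nonneg
  · rw [Complex.ofReal_re]
    exact thb.le_one
  · exact Complex.ofReal_im _

section
variable (β : ℕ → ℝ)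

theorem bpos (h0 : 0 < β 0) (h : ∀ i, 2 * β i ≤ β (i + 1)) (i : ℕ) : 0 < β i := by
  induction i with
  | zero => exact h0
  | succ i ih => linarith [h i]

theorem bmono (h0 : 0 < β 0) (h : ∀ i, 2 * β i ≤ β (i + 1)) : Monotone β :=
  monotone_nat_of_le_succ fun i => by linarith [h i, bpos β h0 h i]

theorem bp_zero_high (h0 : 0 < β 0) (h : ∀ i, 2 * β i ≤ β (i + 1)) (i : ℕ) (ξ : ℂ)
    (hξ : 2 * β (i + 1) ≤ ‖ξ‖) : bp β i ξ = 0 := by
  unfold bp
  rw [LPF.lp_zero _ ξ (bpos β h0 h _) hξ, LPF.lp_zero _ ξ (bpos β h0 h _)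
    (le_trans (by linarith [bmono β h0 h (Nat.le_succ i)]) hξ), sub_zero]

theorem bp_zero_low (h0 : 0 < β 0) (h : ∀ i, 2 * β i ≤ β (i + 1)) (i : ℕ) (ξ : ℂ)
    (hξ : ‖ξ‖ ≤ β i) : bp β i ξ = 0 := by
  unfold bp
  rw [LPF.lp_one _ ξ (bpos β h0 h _) hξ, LPF.lp_one _ ξ (bpos β h0 h _)
    (hξ.trans (bmono β h0 h (Nat.le_succ i))), sub_self]

theorem bp_Bd (h0 : 0 < β 0) (h : ∀ i, 2 * β i ≤ β (i + 1)) (i : ℕ) :
    Bd 0 (2 * β (i + 1)) (bp β i) := by
  refine ⟨?_, fun ξ hξ => ⟨norm_nonneg _, ?_⟩⟩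
  · exact (lp_Bd _ (bpos β h0 h _)).1.sub (lp_Bd _ (bpos β h0 h _)).1
  · by_contra hc
    exact hξ (bp_zero_high β h0 h i ξ (not_le.1 hc).le)

theorem bp_norm (i : ℕ) (ξ : ℂ) : ‖bp β i ξ‖ ≤ 1 := by
  unfold bp
  obtain ⟨a1, a2, a3⟩ := lp_norm (β (i + 1)) ξ
  obtain ⟨b1, b2, b3⟩ := lp_norm (β i) ξ
  have e : lp (β (i + 1)) ξ - lp (β i) ξ = (((lp (β (i + 1)) ξ).re - (lp (β i) ξ).re : ℝ) : ℂ) := by
    apply Complex.ext
    · simp
    · simp [a3, b3]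
  rw [e, Complex.norm_real, Real.norm_eq_abs, abs_le]
  constructor <;> linarith

theorem bp_sum (h0 : 0 < β 0) (h : ∀ i, 2 * β i ≤ β (i + 1)) (L : ℕ) (ξ : ℂ) :
    ∑ i ∈ Finset.range L, ‖bp β i ξ‖ ^ 2 ≤ 4 := by
  classical
  set S := (Finset.range L).filter fun i => bp β i ξ ≠ 0 with hS
  have h1 : ∑ i ∈ Finset.range L, ‖bp β i ξ‖ ^ 2 = ∑ i ∈ S, ‖bp β i ξ‖ ^ 2 := by
    rw [hS, Finset.sum_filter]
    refine Finset.sum_congr rfl fun i _ => ?_
    split_ifs with hc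
    · rfl
    · rw [not_not] at hc
      rw [hc]
      simp
  have hcard : S.card ≤ 2 := by
    rcases S.eq_empty_or_nonempty with he | hne
    · rw [he]
      simp
    · have hsub : S ⊆ Finset.Icc (S.min' hne) (S.min' hne + 1) := by
        intro j hj
        have hmin := S.min'_le j hj
        have hmem := S.min'_mem hne
        generalize S.min' hne = i at hmin hmem
        rw [Finset.mem_Icc]
        refine ⟨hmin, ?_⟩
        by_contra hc
        have hj2 : i + 2 ≤ j := by omega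
        have hi0 : bp β i ξ ≠ 0 := (Finset.mem_filter.1 hmem).2
        have hj0 : bp β j ξ ≠ 0 := (Finset.mem_filter.1 hj).2
        have h3 : ‖ξ‖ < 2 * β (i + 1) := by
          by_contra hc2
          exact hi0 (bp_zero_high β h0 h i ξ (not_lt.1 hc2))
        have h4 : β j < ‖ξ‖ := by
          by_contra hc2
          exact hj0 (bp_zero_low β h0 h j ξ (not_lt.1 hc2))
        have h5 := bmono β h0 h hj2
        have h6 := h (i + 1)
        have e : i + 1 + 1 = i + 2 := rfl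
        rw [e] at h6
        linarith
      refine (Finset.card_le_card hsub).trans ?_
      rw [Nat.card_Icc]
      omega
  rw [h1]
  calc ∑ i ∈ S, ‖bp β i ξ‖ ^ 2 ≤ ∑ i ∈ S, (1 : ℝ) := by
        refine Finset.sum_le_sum fun i _ => ?_
        exact pow_le_one₀ (norm_nonneg _) (bp_norm β i ξ)
    _ = S.card := by simp
    _ ≤ 2 := by exact_mod_cast hcard
    _ ≤ 4 := by norm_num

end

/-- the mass of the kernels of the low-pass symbols -/
theorem lp_mass (h1 : S_BAS) (b : ℝ) (hb : 0 < b) :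
    Integrable (Fi (lp b)) ∧ ∫ x, ‖Fi (lp b) x‖ = ∫ x, ‖Fi th0 x‖ := by
  refine ⟨(h1 _ _ (lp_Bd b hb)).2.2.1.2.1, ?_⟩
  have e : ∀ x, Fi (lp b) x = ((b ^ 2 : ℝ) : ℂ) * Fi th0 (b • x) := by
    intro x
    rw [lp_eq]
    exact LOW.Fi_scale th0 b hb x
  have h2 : ∀ x, ‖Fi (lp b) x‖ = b ^ 2 * ‖Fi th0 (b • x)‖ := by
    intro x
    rw [e x, norm_mul, Complex.norm_real, Real.norm_of_nonneg (by positivity)]
  simp only [h2]
  rw [integral_const_mul, MeasureTheory.Measure.integral_comp_smul (volume : Measure ℂ)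
    (fun η => ‖Fi th0 η‖) b, Complex.finrank_real_complex, abs_of_nonneg (by positivity),
    smul_eq_mul, ← mul_assoc, mul_inv_cancel₀ (by positivity), one_mul]

/-- continuous functions with bounded support are integrable against characters -/
theorem e2_int (b : ℝ) (h : ℂ → ℂ) (hh : Bd 0 b h) (x : ℂ) : Integrable fun ξ => e2 x ξ * h ξ := by
  have hc : HasCompactSupport h := by
    refine HasCompactSupport.of_support_subset_isCompact (isCompact_closedBall (0 : ℂ) b) ?_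
    intro ξ hξ
    rw [Metric.mem_closedBall, dist_zero_right]
    exact (hh.2 ξ hξ).2
  have hcont : Continuous fun ξ => e2 x ξ * h ξ := by
    refine Continuous.mul ?_ hh.1.continuous
    unfold e2
    fun_prop
  exact hcont.integrable_of_hasCompactSupport hc.mul_left

theorem bp_mass (h1 : S_BAS) (β : ℕ → ℝ) (h0 : 0 < β 0) (h : ∀ i, 2 * β i ≤ β (i + 1)) (i : ℕ) :
    ∫ x, ‖Fi (bp β i) x‖ ≤ 2 * ∫ x, ‖Fi th0 x‖ := by
  obtain ⟨ha1, ha2⟩ := lp_mass h1 (β (i + 1)) (bpos β h0 h _)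
  obtain ⟨hb1, hb2⟩ := lp_mass h1 (β i) (bpos β h0 h _)
  have e : ∀ x, Fi (bp β i) x = Fi (lp (β (i + 1))) x - Fi (lp (β i)) x := by
    intro x
    unfold Fi
    rw [← integral_sub (e2_int _ _ (lp_Bd _ (bpos β h0 h _)) x)
      (e2_int _ _ (lp_Bd _ (bpos β h0 h _)) x)]
    refine integral_congr_ae (Eventually.of_forall fun ξ => ?_)
    show e2 x ξ * bp β i ξ = _
    unfold bp
    ring
  have hint : Integrable fun x => ‖Fi (bp β i) x‖ := (h1 _ _ (bp_Bd β h0 h i)).2.2.1.2.1.norm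
  calc ∫ x, ‖Fi (bp β i) x‖ ≤ ∫ x, (‖Fi (lp (β (i + 1))) x‖ + ‖Fi (lp (β i)) x‖) := by
        refine integral_mono hint (ha1.norm.add hb1.norm) fun x => ?_
        show ‖Fi (bp β i) x‖ ≤ _
        rw [e x]
        exact norm_sub_le _ _
    _ = 2 * ∫ x, ‖Fi th0 x‖ := by
        rw [integral_add ha1.norm hb1.norm, ha2, hb2]
        ring

theorem Bd_mono {a b b' : ℝ} {h : ℂ → ℂ} (hh : Bd a b h) (hb : b ≤ b') : Bd a b' h :=
  ⟨hh.1, fun ξ hξ => ⟨(hh.2 ξ hξ).1, (hh.2 ξ hξ).2.trans hb⟩⟩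

theorem mul_Bd {b b' : ℝ} {μ h : ℂ → ℂ} (hμ : Bd 0 b μ) (hh : Bd 0 b' h) :
    Bd 0 b (fun ξ => μ ξ * h ξ) :=
  ⟨hμ.1.mul hh.1, fun ξ hξ => hμ.2 ξ (left_ne_zero_of_mul hξ)⟩

/-- the sum of the powers of the pieces -/
theorem zero (h1 : S_BAS) (h2 : S_CNV) (h3 : S_PLT) (h4 : S_PGL) (m : ℕ) (hm : 1 ≤ m) :
    ∃ C : ℝ, 0 ≤ C ∧ ∀ (L : ℕ) (β : ℕ → ℝ) (b : ℝ) (h : ℂ → ℂ), 0 < β 0 →
      (∀ i, 2 * β i ≤ β (i + 1)) → Bd 0 b h →
      ∑ i ∈ Finset.range L, Nm m (Fi (fun ξ => bp β i ξ * h ξ)) ≤ ENNReal.ofReal C * Nm m (Fi h) := by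
  have hC1 : 0 ≤ ∫ x, ‖Fi th0 x‖ := integral_nonneg fun _ => norm_nonneg _
  obtain ⟨C', hC', hP⟩ := h4 m (4 + 2 * ∫ x, ‖Fi th0 x‖) hm (by positivity)
  refine ⟨C', hC', ?_⟩
  intro L β b h h0 hβ hh
  set B : ℝ := max b (2 * β L) with hB
  have hBL : 2 * β L ≤ B := le_max_right _ _
  have hbB : b ≤ B := le_max_left _ _
  set μ : ℕ → ℂ → ℂ := fun i => if i < L then bp β i else 0 with hμdef
  have hμ1 : ∀ i, i < L → μ i = bp β i := fun i hi => by rw [hμdef]; simp [hi]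
  have hμB : ∀ i, Bd 0 B (μ i) := by
    intro i
    by_cases hi : i < L
    · rw [hμ1 i hi]
      refine Bd_mono (bp_Bd β h0 hβ i) (le_trans ?_ hBL)
      linarith [bmono β h0 hβ (show i + 1 ≤ L from hi)]
    · have : μ i = 0 := by rw [hμdef]; simp [hi]
      rw [this]
      exact ⟨contDiff_const, fun ξ hξ => absurd rfl hξ⟩
  have hhB : Bd 0 B h := Bd_mono hh hbB
  have hres := hP L (fun i => Fi (μ i)) (fun i hi => ⟨(h1 B _ (hμB i)).1, (h1 B _ (hμB i)).2.2.1.2.1, ?_⟩)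
    ?_ (Fi h) (h1 B h hhB).2.2.1
  · refine le_trans (le_of_eq ?_) hres
    refine Finset.sum_congr rfl fun i hi => ?_
    have hi' := Finset.mem_range.1 hi
    congr 1
    funext x
    have h5 := (h2 B (μ i) h (hμB i) hhB x).2
    rw [← h5, hμ1 i hi']
  · show ∫ x, ‖Fi (μ i) x‖ ≤ _
    rw [hμ1 i hi]
    have := bp_mass h1 β h0 hβ i
    linarith
  · intro g hg
    refine h3 B L μ _ hμB (fun ξ => ?_) g hg
    have h5 : ∑ i ∈ Finset.range L, ‖μ i ξ‖ ^ 2 = ∑ i ∈ Finset.range L, ‖bp β i ξ‖ ^ 2 := by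
      refine Finset.sum_congr rfl fun i hi => ?_
      rw [hμ1 i (Finset.mem_range.1 hi)]
    rw [h5]
    have := bp_sum β h0 hβ L ξ
    linarith

end Pool.Agent.N892.BW.LPS
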