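import Mathlib
import Pool.Agent.N892.BW.LPS_B

/-!
Project BW, part 3 (helper892), LPS (helper368): the square function inequality of Littlewood and
Paley, even exponents
-/

set_option autoImplicit false

open MeasureTheory ENNReal Filter Topology Complex
open scoped ComplexConjugate ContDiff

namespace Pool.Agent.N892.BW.LPS

open Pool.Agent.N892.BW

/-- finiteness -/
theorem fin (m : ℕ) (hm : 1 ≤ m) (f : ℂ → ℂ) (hf : Nic2 f) : Nm m f ≠ ⊤ := by
  obtain ⟨hmeas, hint, M, hM⟩ := hf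
  unfold Nm
  have h1 : ∀ x, ‖f x‖ₑ ^ (2 * m) ≤ ENNReal.ofReal M ^ (2 * m - 1) * ‖f x‖ₑ := by
    intro x
    have e : 2 * m = (2 * m - 1) + 1 := by omega
    rw [show ‖f x‖ₑ ^ (2 * m) = ‖f x‖ₑ ^ (2 * m - 1) * ‖f x‖ₑ by rw [← pow_succ, ← e]]
    refine mul_le_mul' (pow_le_pow_left' ?_ _) le_rfl
    rw [← ofReal_norm]
    exact ENNReal.ofReal_le_ofReal (hM x)
  refine ne_top_of_le_ne_top ?_ (lintegral_mono h1)
  rw [lintegral_const_mul _ hmeas.enorm]
  exact ENNReal.mul_ne_top (ENNReal.pow_ne_top ENNReal.ofReal_ne_top) hint.2.ne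

/-- the increments of the powers of the partial sums -/
noncomputable def VV (m : ℕ) (gt : ℕ → ℂ → ℝ≥0∞) (i : ℕ) (x : ℂ) : ℝ≥0∞ :=
  gt i x * ∑ j ∈ Finset.range (m - 1), (∑ l ∈ Finset.range (i + 1), gt l x) ^ j *
    (∑ l ∈ Finset.range i, gt l x) ^ (m - 1 - 1 - j)

theorem VV_meas (m : ℕ) (gt : ℕ → ℂ → ℝ≥0∞) (hgt : ∀ i, Measurable (gt i)) (i : ℕ) :
    Measurable (VV m gt i) := by
  unfold VV
  refine (hgt i).mul (Finset.measurable_fun_sum _ fun j _ => ?_)
  exact ((Finset.measurable_fun_sum _ fun l _ => hgt l).pow_const _).mul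
    ((Finset.measurable_fun_sum _ fun l _ => hgt l).pow_const _)

theorem VV_slow (m : ℕ) (hm : 2 ≤ m) (gt : ℕ → ℂ → ℝ≥0∞) (i : ℕ) (x y : ℂ) (E : ℝ≥0∞)
    (h : ∀ l, l ≤ i → gt l (x + y) ≤ E * gt l x) :
    VV m gt i (x + y) ≤ E ^ (m - 1) * VV m gt i x := by
  have hs : ∀ k, k ≤ i + 1 → ∑ l ∈ Finset.range k, gt l (x + y) ≤
      E * ∑ l ∈ Finset.range k, gt l x := by
    intro k hk
    rw [Finset.mul_sum]
    refine Finset.sum_le_sum fun l hl => h l ?_
    have := Finset.mem_range.1 hl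
    omega
  unfold VV
  calc gt i (x + y) * ∑ j ∈ Finset.range (m - 1), (∑ l ∈ Finset.range (i + 1), gt l (x + y)) ^ j *
        (∑ l ∈ Finset.range i, gt l (x + y)) ^ (m - 1 - 1 - j)
      ≤ (E * gt i x) * ∑ j ∈ Finset.range (m - 1), (E * ∑ l ∈ Finset.range (i + 1), gt l x) ^ j *
        (E * ∑ l ∈ Finset.range i, gt l x) ^ (m - 1 - 1 - j) := by
        refine mul_le_mul' (h i le_rfl) (Finset.sum_le_sum fun j _ => ?_)
        exact mul_le_mul' (pow_le_pow_left' (hs _ le_rfl) _)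
          (pow_le_pow_left' (hs _ (Nat.le_succ i)) _)
    _ = (E * gt i x) * ∑ j ∈ Finset.range (m - 1), E ^ (m - 1 - 1) *
        ((∑ l ∈ Finset.range (i + 1), gt l x) ^ j *
        (∑ l ∈ Finset.range i, gt l x) ^ (m - 1 - 1 - j)) := by
        congr 1
        refine Finset.sum_congr rfl fun j hj => ?_
        have hj' := Finset.mem_range.1 hj
        have e : E ^ (m - 1 - 1) = E ^ j * E ^ (m - 1 - 1 - j) := by
          rw [← pow_add]
          congr 1
          omega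
        rw [mul_pow, mul_pow, e]
        ring
    _ = _ := by
        rw [← Finset.mul_sum]
        have e : E ^ (m - 1) = E * E ^ (m - 1 - 1) := by
          rw [← pow_succ']
          congr 1
          omega
        rw [e]
        ring

theorem t (h1 : S_BAS) (h2 : S_CNV) (h3 : S_PLT) (h4 : S_PGL) (h5 : S_DMX) (h6 : S_MAJ)
    (h7 : S_WLT) : Pool.Agent.N892.BW.S_LPS := by
  intro m hm
  obtain ⟨C0, hC0, hzero⟩ := zero h1 h2 h3 h4 m hm
  by_cases hm1 : m = 1
  · subst hm1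
    refine ⟨C0, hC0, fun L β b h h0 hβ hh => ?_⟩
    refine le_trans (le_of_eq ?_) (hzero L β b h h0 hβ hh)
    simp only [pow_one]
    rw [lintegral_finsetSum]
    · refine Finset.sum_congr rfl fun i _ => ?_
      unfold Nm
      simp only [mul_one]
    · intro i _
      exact (h1 _ _ (mul_Bd (bp_Bd β h0 hβ i) hh)).1.measurable.enorm.pow_const 2
  have hm2 : 2 ≤ m := by omega
  have hmR : (2 : ℝ) ≤ m := by exact_mod_cast hm2
  have hθ : 0 ≤ 1 - 1 / (m : ℝ) := by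
    have : 1 / (m : ℝ) ≤ 1 := by
      rw [div_le_one (by linarith)]
      linarith
    linarith
  obtain ⟨K, hK, hmass⟩ := PP_mass
  obtain ⟨CM, hCM, hmaj⟩ := h6
  obtain ⟨CD, hCD, hdmx⟩ := h5 m hm
  obtain ⟨CW, hCW, hwlt⟩ := h7 (4 * (m - 1)) (16 ^ (m - 1)) (by positivity)
  set D : ℝ := CM ^ 2 * K with hD
  have hD0 : 0 ≤ D := by positivity
  clear_value D
  set A : ℝ := m * 2 ^ m * (D ^ (m - 1) * (CW * CD ^ (1 - 1 / (m : ℝ)))) with hA
  set B : ℝ := m * 2 ^ m * C0 with hB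
  have hA0 : 0 ≤ A := by
    have := Real.rpow_nonneg hCD.le (1 - 1 / (m : ℝ))
    positivity
  have hB0 : 0 ≤ B := by positivity
  clear_value A B
  refine ⟨(2 * A) ^ m + 2 * B, by positivity, fun L β b h h0 hβ hh => ?_⟩
  have hbp : ∀ i, 0 < β i := bpos β h0 hβ
  have hbm : Monotone β := bmono β h0 hβ
  -- notation
  set g : ℕ → ℂ → ℂ := fun i => Fi (fun ξ => bp β i ξ * h ξ) with hg
  have hBd : ∀ i, Bd 0 (2 * β (i + 1)) (fun ξ => bp β i ξ * h ξ) := fun i =>
    mul_Bd (bp_Bd β h0 hβ i) hh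
  set G : ℕ → ℂ → ℝ≥0∞ := fun i x => ‖g i x‖ₑ ^ 2 with hG
  have hGm : ∀ i, Measurable (G i) := fun i => (h1 _ _ (hBd i)).1.measurable.enorm.pow_const 2
  have hgm : ∀ i, Measurable fun x => ‖g i x‖ₑ := fun i => (h1 _ _ (hBd i)).1.measurable.enorm
  set gt : ℕ → ℂ → ℝ≥0∞ := fun i => cv (PP (2 * β (i + 1))) (G i) with hgt
  have hgtm : ∀ i, Measurable (gt i) := fun i => cv_meas _ _ (hGm i)
  have h2b : ∀ i, 0 < 2 * β (i + 1) := fun i => by linarith [hbp (i + 1)]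
  set F : ℂ → ℝ≥0∞ := fun x => ‖Fi h x‖ₑ ^ 2 with hF
  have hFm : Measurable F := (h1 _ _ hh).1.measurable.enorm.pow_const 2
  set X : ℝ≥0∞ := Nm m (Fi h) with hX
  have hXt : X ≠ ⊤ := fin m hm _ (h1 _ _ hh).2.2.1
  have hXF : ∫⁻ x, F x ^ m = X := by
    rw [hX, hF]
    unfold Nm
    refine lintegral_congr fun x => ?_
    show (‖Fi h x‖ₑ ^ 2) ^ m = _
    rw [← pow_mul]
  set Y : ℝ≥0∞ := ∫⁻ x, (∑ i ∈ Finset.range L, G i x) ^ m with hY
  show Y ≤ _
  -- the pieces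
  have hpieces : ∑ i ∈ Finset.range L, ∫⁻ x, G i x ^ m ≤ ENNReal.ofReal C0 * X := by
    refine le_trans (le_of_eq ?_) (hzero L β b h h0 hβ hh)
    refine Finset.sum_congr rfl fun i _ => ?_
    unfold Nm
    refine lintegral_congr fun x => ?_
    show (‖g i x‖ₑ ^ 2) ^ m = _
    rw [← pow_mul]
  have hYt : Y ≠ ⊤ := by
    have hb : ∀ x, (∑ i ∈ Finset.range L, G i x) ^ m ≤
        ((L : ℝ≥0∞) ^ ((m : ℝ) - 1)) * ∑ i ∈ Finset.range L, G i x ^ m := by
      intro x
      have := ENNReal.rpow_sum_le_const_mul_sum_rpow (Finset.range L) (fun i => G i x)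
        (show (1 : ℝ) ≤ m by linarith)
      simp only [ENNReal.rpow_natCast, Finset.card_range] at this
      exact this
    refine ne_top_of_le_ne_top ?_ (lintegral_mono hb)
    rw [lintegral_const_mul _ (Finset.measurable_fun_sum _ fun i _ => (hGm i).pow_const m),
      lintegral_finsetSum _ fun i _ => (hGm i).pow_const m]
    refine ENNReal.mul_ne_top ?_ (ne_top_of_le_ne_top
      (ENNReal.mul_ne_top ENNReal.ofReal_ne_top hXt) hpieces)
    exact ENNReal.rpow_ne_top_of_nonneg (by linarith) (ENNReal.natCast_ne_top L)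
  -- majorants
  have hmajo : ∀ i x, G i x ≤ ENNReal.ofReal D * gt i x := by
    intro i x
    have e1 := (hmaj (2 * β (i + 1)) _ x 0 (h2b i) (hBd i)).1
    rw [add_zero, norm_zero, mul_zero, add_zero, one_pow, mul_one] at e1
    have e2 := cs hmass (2 * β (i + 1)) (h2b i) (fun z => ‖g i z‖ₑ) (hgm i) x
    calc G i x = ‖g i x‖ₑ ^ 2 := rfl
      _ ≤ (ENNReal.ofReal CM * cv (PP (2 * β (i + 1))) (fun z => ‖g i z‖ₑ) x) ^ 2 :=
          pow_le_pow_left' e1 2
      _ = ENNReal.ofReal CM ^ 2 * (cv (PP (2 * β (i + 1))) (fun z => ‖g i z‖ₑ) x) ^ 2 := mul_pow _ _ _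
      _ ≤ ENNReal.ofReal CM ^ 2 * (ENNReal.ofReal K * gt i x) := mul_le_mul' le_rfl e2
      _ = ENNReal.ofReal D * gt i x := by
          rw [hD, ENNReal.ofReal_mul (by positivity), ENNReal.ofReal_pow hCM, mul_assoc]
  -- the weights
  set W : ℕ → ℂ → ℝ≥0∞ := fun k x => (∑ j ∈ Finset.range k, gt j x) ^ (m - 1) with hW
  have hWm : ∀ k, Measurable (W k) := fun k =>
    (Finset.measurable_fun_sum _ fun l _ => hgtm l).pow_const _
  have hWV : ∀ k x, W k x = ∑ i ∈ Finset.range k, VV m gt i x := by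
    intro k x
    exact pow_tel (m - 1) (by omega) (fun j => gt j x) k
  have hVm : ∀ i, Measurable (VV m gt i) := VV_meas m gt hgtm
  have hVs : ∀ i x y, VV m gt i (x + y) ≤
      ENNReal.ofReal (16 ^ (m - 1) * (1 + β (i + 1) * ‖y‖) ^ (4 * (m - 1))) * VV m gt i x := by
    intro i x y
    have e1 := VV_slow m hm2 gt i x y (ENNReal.ofReal ((1 + 2 * β (i + 1) * ‖y‖) ^ 4)) (by
      intro l hl
      refine (slow (2 * β (l + 1)) (h2b l) (G l) x y).trans (mul_le_mul' ?_ le_rfl)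
      refine ENNReal.ofReal_le_ofReal ?_
      have e2 : β (l + 1) ≤ β (i + 1) := hbm (by omega)
      have e3 := h2b l
      have e4 : 2 * β (l + 1) * ‖y‖ ≤ 2 * β (i + 1) * ‖y‖ :=
        mul_le_mul_of_nonneg_right (by linarith) (norm_nonneg y)
      have e5 : 0 ≤ 2 * β (l + 1) * ‖y‖ := by positivity
      exact pow_le_pow_left₀ (by linarith) (by linarith) 4)
    refine e1.trans (mul_le_mul' ?_ le_rfl)
    have e3 := hbp (i + 1)
    rw [← ENNReal.ofReal_pow (by positivity)]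
    refine ENNReal.ofReal_le_ofReal ?_
    have e4 : (1 + 2 * β (i + 1) * ‖y‖) ^ 4 ≤ 16 * (1 + β (i + 1) * ‖y‖) ^ 4 := by
      have e5 : (1 + 2 * β (i + 1) * ‖y‖) ≤ 2 * (1 + β (i + 1) * ‖y‖) := by linarith
      calc (1 + 2 * β (i + 1) * ‖y‖) ^ 4 ≤ (2 * (1 + β (i + 1) * ‖y‖)) ^ 4 :=
            pow_le_pow_left₀ (by positivity) e5 4
        _ = 16 * (1 + β (i + 1) * ‖y‖) ^ 4 := by
            rw [mul_pow]
            norm_num
    calc ((1 + 2 * β (i + 1) * ‖y‖) ^ 4) ^ (m - 1) ≤ (16 * (1 + β (i + 1) * ‖y‖) ^ 4) ^ (m - 1) :=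
          pow_le_pow_left₀ (by positivity) e4 _
      _ = 16 ^ (m - 1) * (1 + β (i + 1) * ‖y‖) ^ (4 * (m - 1)) := by
          rw [mul_pow, ← pow_mul]
  have hwl : ∀ i, ∑ j ∈ Finset.range (L - (i + 1)), ∫⁻ x, G (i + 1 + j) x * VV m gt i x ≤
      ENNReal.ofReal CW * ∫⁻ x, F x * VV m gt i x := by
    intro i
    exact hwlt (β (i + 1)) (L - (i + 1)) (fun k => β (i + 1 + k)) (VV m gt i) b h (hbp _) le_rfl
      (fun k => hβ (i + 1 + k)) (hVm i) (hVs i) hh
  have hsum : ∑ k ∈ Finset.range L, ∫⁻ x, G k x * W k x ≤ ENNReal.ofReal CW * ∫⁻ x, F x * W L x := by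
    have e1 : ∀ k, ∫⁻ x, G k x * W k x = ∑ i ∈ Finset.range k, ∫⁻ x, G k x * VV m gt i x := by
      intro k
      have e := lintegral_finsetSum (μ := volume) (Finset.range k)
        (f := fun i x => G k x * VV m gt i x) fun i _ => (hGm k).mul (hVm i)
      rw [← e]
      refine lintegral_congr fun x => ?_
      rw [hWV k x, Finset.mul_sum]
    have e2 : ∫⁻ x, F x * W L x = ∑ i ∈ Finset.range L, ∫⁻ x, F x * VV m gt i x := by
      have e := lintegral_finsetSum (μ := volume) (Finset.range L)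
        (f := fun i x => F x * VV m gt i x) fun i _ => hFm.mul (hVm i)
      rw [← e]
      refine lintegral_congr fun x => ?_
      rw [hWV L x, Finset.mul_sum]
    calc ∑ k ∈ Finset.range L, ∫⁻ x, G k x * W k x
        = ∑ k ∈ Finset.range L, ∑ i ∈ Finset.range k, ∫⁻ x, G k x * VV m gt i x :=
          Finset.sum_congr rfl fun k _ => e1 k
      _ = ∑ i ∈ Finset.range L, ∑ j ∈ Finset.range (L - (i + 1)),
            ∫⁻ x, G (i + 1 + j) x * VV m gt i x :=
          sum_swap (fun k i => ∫⁻ x, G k x * VV m gt i x) L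
      _ ≤ ∑ i ∈ Finset.range L, ENNReal.ofReal CW * ∫⁻ x, F x * VV m gt i x :=
          Finset.sum_le_sum fun i _ => hwl i
      _ = _ := by rw [← Finset.mul_sum, e2]
  have hhol : ∫⁻ x, F x * W L x ≤ ENNReal.ofReal (CD ^ (1 - 1 / (m : ℝ))) *
      (X ^ (1 / (m : ℝ)) * Y ^ (1 - 1 / (m : ℝ))) := by
    have e1 := holder m hm2 F (fun x => ∑ j ∈ Finset.range L, gt j x) hFm
      (Finset.measurable_fun_sum _ fun l _ => hgtm l)
    rw [hXF] at e1
    have e2 : ∫⁻ x, (∑ j ∈ Finset.range L, gt j x) ^ m ≤ ENNReal.ofReal CD * Y :=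
      hdmx L (fun i => 2 * β (i + 1)) G h2b hGm
    have e3 : (∫⁻ x, (∑ j ∈ Finset.range L, gt j x) ^ m) ^ (1 - 1 / (m : ℝ)) ≤
        ENNReal.ofReal (CD ^ (1 - 1 / (m : ℝ))) * Y ^ (1 - 1 / (m : ℝ)) := by
      refine (ENNReal.rpow_le_rpow e2 hθ).trans (le_of_eq ?_)
      rw [ENNReal.mul_rpow_of_nonneg _ _ hθ, ENNReal.ofReal_rpow_of_nonneg hCD.le hθ]
    refine e1.trans ((mul_le_mul' le_rfl e3).trans (le_of_eq ?_))
    ring
  -- the square function
  have hpt : ∀ x, (∑ i ∈ Finset.range L, G i x) ^ m ≤ (m : ℝ≥0∞) * 2 ^ m *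
      ∑ k ∈ Finset.range L, (ENNReal.ofReal D ^ (m - 1) * (G k x * W k x) + G k x ^ m) := by
    intro x
    refine (pow_sum m hm (fun i => G i x) L).trans (mul_le_mul' le_rfl ?_)
    refine Finset.sum_le_sum fun k _ => add_le_add ?_ le_rfl
    have e1 : ∑ j ∈ Finset.range k, G j x ≤ ENNReal.ofReal D * ∑ j ∈ Finset.range k, gt j x := by
      rw [Finset.mul_sum]
      exact Finset.sum_le_sum fun j _ => hmajo j x
    calc G k x * (∑ j ∈ Finset.range k, G j x) ^ (m - 1)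
        ≤ G k x * (ENNReal.ofReal D * ∑ j ∈ Finset.range k, gt j x) ^ (m - 1) :=
          mul_le_mul' le_rfl (pow_le_pow_left' e1 _)
      _ = ENNReal.ofReal D ^ (m - 1) * (G k x * W k x) := by
          rw [mul_pow, hW]
          ring
  have hYle : Y ≤ ENNReal.ofReal A * (X ^ (1 / (m : ℝ)) * Y ^ (1 - 1 / (m : ℝ))) +
      ENNReal.ofReal B * X := by
    have hmeas1 : ∀ k, Measurable fun x => ENNReal.ofReal D ^ (m - 1) * (G k x * W k x) := fun k =>
      ((hGm k).mul (hWm k)).const_mul _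
    have hmeas2 : ∀ k ∈ Finset.range L, Measurable fun x =>
        ENNReal.ofReal D ^ (m - 1) * (G k x * W k x) + G k x ^ m := fun k _ =>
      (hmeas1 k).add ((hGm k).pow_const m)
    have e1 : ∫⁻ x, (m : ℝ≥0∞) * 2 ^ m *
        ∑ k ∈ Finset.range L, (ENNReal.ofReal D ^ (m - 1) * (G k x * W k x) + G k x ^ m) =
        (m : ℝ≥0∞) * 2 ^ m * ∑ k ∈ Finset.range L,
          (ENNReal.ofReal D ^ (m - 1) * (∫⁻ x, G k x * W k x) + ∫⁻ x, G k x ^ m) := by
      rw [lintegral_const_mul _ (Finset.measurable_fun_sum _ hmeas2)]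
      have e2 := lintegral_finsetSum (μ := volume) (Finset.range L)
        (f := fun k x => ENNReal.ofReal D ^ (m - 1) * (G k x * W k x) + G k x ^ m) hmeas2
      rw [e2]
      congr 1
      refine Finset.sum_congr rfl fun k _ => ?_
      rw [lintegral_add_left (hmeas1 k)]
      congr 1
      exact lintegral_const_mul _ ((hGm k).mul (hWm k))
    have e3 : Y ≤ (m : ℝ≥0∞) * 2 ^ m * (ENNReal.ofReal D ^ (m - 1) *
        (∑ k ∈ Finset.range L, ∫⁻ x, G k x * W k x) + ∑ k ∈ Finset.range L, ∫⁻ x, G k x ^ m) := by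
      refine (lintegral_mono hpt).trans (le_of_eq ?_)
      rw [e1]
      congr 1
      rw [Finset.mul_sum, ← Finset.sum_add_distrib]
    have e4 : ENNReal.ofReal D ^ (m - 1) *
        (∑ k ∈ Finset.range L, ∫⁻ x, G k x * W k x) ≤
        ENNReal.ofReal D ^ (m - 1) * (ENNReal.ofReal CW *
            (ENNReal.ofReal (CD ^ (1 - 1 / (m : ℝ))) *
              (X ^ (1 / (m : ℝ)) * Y ^ (1 - 1 / (m : ℝ))))) :=
      mul_le_mul' le_rfl (hsum.trans (mul_le_mul' le_rfl hhol))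
    refine e3.trans ((mul_le_mul' le_rfl (add_le_add e4 hpieces)).trans (le_of_eq ?_))
    have hcd := Real.rpow_nonneg hCD.le (1 - 1 / (m : ℝ))
    have e5 : ENNReal.ofReal A = (m : ℝ≥0∞) * 2 ^ m * (ENNReal.ofReal D ^ (m - 1) *
        (ENNReal.ofReal CW * ENNReal.ofReal (CD ^ (1 - 1 / (m : ℝ))))) := by
      rw [hA, ENNReal.ofReal_mul (by positivity), ENNReal.ofReal_mul (by positivity),
        ENNReal.ofReal_mul (by positivity), ENNReal.ofReal_mul (by positivity),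
        ENNReal.ofReal_pow hD0, ENNReal.ofReal_pow (by norm_num), ENNReal.ofReal_natCast,
        ENNReal.ofReal_ofNat]
    have e6 : ENNReal.ofReal B = (m : ℝ≥0∞) * 2 ^ m * ENNReal.ofReal C0 := by
      rw [hB, ENNReal.ofReal_mul (by positivity), ENNReal.ofReal_mul (by positivity),
        ENNReal.ofReal_pow (by norm_num), ENNReal.ofReal_natCast, ENNReal.ofReal_ofNat]
    rw [e5, e6]
    ring
  exact absorb m hm A B X Y hA0 hB0 hXt hYt hYle

end Pool.Agent.N892.BW.LPS
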