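import Pool.Agent.N892.BW.Stm

set_option autoImplicit false

open MeasureTheory ENNReal Filter Topology Complex
open scoped ComplexConjugate

namespace Pool.Agent.N892.BW.AVG

/-- inversion -/
noncomputable def iw (c : ℝ) (w : ℂ) : ℂ := (c : ℂ) / conj w

theorem iw_iw {c : ℝ} (hc : 0 < c) (w : ℂ) : iw c (iw c w) = w := by
  unfold iw
  by_cases hw : w = 0
  · simp [hw]
  · have h1 : conj w ≠ 0 := (map_ne_zero _).2 hw
    have h2 : (c : ℂ) ≠ 0 := by exact_mod_cast hc.ne'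
    rw [map_div₀, Complex.conj_conj, Complex.conj_ofReal]
    field_simp

theorem norm_iw {c : ℝ} (hc : 0 < c) (w : ℂ) : ‖iw c w‖ = c / ‖w‖ := by
  unfold iw
  rw [norm_div, Complex.norm_conj, Complex.norm_real, Real.norm_of_nonneg hc.le]

theorem iw_ne {c : ℝ} (hc : 0 < c) {w : ℂ} (hw : w ≠ 0) : iw c w ≠ 0 := by
  rw [← norm_ne_zero_iff, norm_iw hc]
  exact (div_pos hc (norm_pos_iff.2 hw)).ne'

theorem iw_meas (c : ℝ) : Measurable (iw c) := by
  unfold iw
  exact measurable_const.div (Complex.continuous_conj.measurable)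

theorem iw_sub {c : ℝ} (hc : 0 < c) {a b : ℂ} (ha : a ≠ 0) (hb : b ≠ 0) :
    ‖iw c a - iw c b‖ = c * ‖a - b‖ / (‖a‖ * ‖b‖) := by
  have h1 : conj a ≠ 0 := (map_ne_zero _).2 ha
  have h2 : conj b ≠ 0 := (map_ne_zero _).2 hb
  have e : iw c a - iw c b = (c : ℂ) * (conj (b - a)) / (conj a * conj b) := by
    unfold iw
    rw [map_sub]
    field_simp
  rw [e, norm_div, norm_mul, norm_mul, Complex.norm_conj, Complex.norm_conj, Complex.norm_conj,
    Complex.norm_real, Real.norm_of_nonneg hc.le, norm_sub_rev]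

/-- the Jacobian of the inversion -/
noncomputable def J (c : ℝ) (w : ℂ) : ℝ≥0∞ := ENNReal.ofReal (c ^ 2 / ‖w‖ ^ 4)

theorem J_meas (c : ℝ) : Measurable (J c) := by
  unfold J
  exact (measurable_const.div (measurable_norm.pow_const 4)).ennreal_ofReal

theorem J_top (c : ℝ) (w : ℂ) : J c w ≠ ⊤ := ENNReal.ofReal_ne_top

theorem J_iw {c : ℝ} (hc : 0 < c) {w : ℂ} (hw : w ≠ 0) : J c w * J c (iw c w) = 1 := by
  have hn : 0 < ‖w‖ := norm_pos_iff.2 hw
  unfold J
  rw [norm_iw hc, ← ENNReal.ofReal_mul (by positivity), ← ENNReal.ofReal_one]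
  congr 1
  field_simp

/-- the derivative of the inversion -/
noncomputable def dinv (c : ℝ) (w : ℂ) : ℂ →L[ℝ] ℂ :=
  (Complex.conjCLE : ℂ →L[ℝ] ℂ).comp
    ((ContinuousLinearMap.smulRight (1 : ℂ →L[ℂ] ℂ) ((c : ℂ) * (-(w ^ 2)⁻¹))).restrictScalars ℝ)

theorem has_dinv (c : ℝ) {w : ℂ} (hw : w ≠ 0) : HasFDerivAt (iw c) (dinv c w) w := by
  have h1 : HasDerivAt (fun z : ℂ => (c : ℂ) * z⁻¹) ((c : ℂ) * (-(w ^ 2)⁻¹)) w :=
    (hasDerivAt_inv hw).const_mul _
  have h2 := (h1.hasFDerivAt.restrictScalars ℝ)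
  have h3 := ((Complex.conjCLE : ℂ →L[ℝ] ℂ).hasFDerivAt).comp w h2
  have e : iw c = (⇑(Complex.conjCLE : ℂ →L[ℝ] ℂ)) ∘ fun z : ℂ => (c : ℂ) * z⁻¹ := by
    funext z
    simp [iw, div_eq_mul_inv]
  rw [e]
  exact h3

theorem det_dinv (c : ℝ) (w : ℂ) : |(dinv c w).det| = c ^ 2 / ‖w‖ ^ 4 := by
  have e1 : ((dinv c w : ℂ →L[ℝ] ℂ) : ℂ →ₗ[ℝ] ℂ) = (Complex.conjAe.toLinearMap) ∘ₗ
      (LinearMap.mulLeft ℝ ((c : ℂ) * (-(w ^ 2)⁻¹))) := by
    ext x
    simp [dinv]
    ring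
  have e2 : (dinv c w).det = LinearMap.det ((dinv c w : ℂ →L[ℝ] ℂ) : ℂ →ₗ[ℝ] ℂ) := rfl
  have e3 : LinearMap.mulLeft ℝ ((c : ℂ) * (-(w ^ 2)⁻¹)) =
      Algebra.lmul ℝ ℂ ((c : ℂ) * (-(w ^ 2)⁻¹)) := rfl
  rw [e2, e1, e3, LinearMap.det_comp, Complex.det_conjAe, ← Algebra.norm_apply,
    Algebra.norm_complex_apply, Complex.normSq_eq_norm_sq]
  simp only [norm_mul, norm_neg, _root_.norm_inv, norm_pow, Complex.norm_real]
  rw [neg_one_mul, abs_neg, abs_of_nonneg (by positivity), mul_pow, Real.norm_eq_abs, sq_abs]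
  field_simp

/-- change of variables -/
theorem cov {c : ℝ} (hc : 0 < c) (F : ℂ → ℝ≥0∞) : ∫⁻ w, F w = ∫⁻ v, J c v * F (iw c v) := by
  have hs : MeasurableSet ({0}ᶜ : Set ℂ) := (measurableSet_singleton 0).compl
  have h1 := lintegral_image_eq_lintegral_abs_det_fderiv_mul volume hs
    (f := iw c) (f' := dinv c) (fun w hw => (has_dinv c hw).hasFDerivWithinAt)
    (fun a _ b _ h => by rw [← iw_iw hc a, ← iw_iw hc b, h]) F
  have h2 : iw c '' ({0}ᶜ : Set ℂ) = {0}ᶜ := by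
    ext z
    constructor
    · rintro ⟨w, hw, rfl⟩
      exact iw_ne hc hw
    · intro hz
      exact ⟨iw c z, iw_ne hc hz, iw_iw hc z⟩
  have h3 : (volume : Measure ℂ).restrict {0}ᶜ = volume := by
    rw [Measure.restrict_eq_self_of_ae_mem]
    exact compl_mem_ae_iff.2 (measure_singleton 0)
  rw [h2, h3] at h1
  rw [h1]
  refine lintegral_congr fun w => ?_
  rw [det_dinv]
  rfl

/-- Jensen's inequality for a concave power -/
theorem jen0 (μ : Measure ℂ) [IsProbabilityMeasure μ] {s : ℝ} (hs : 0 < s) (hs1 : s ≤ 1)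
    {f : ℂ → ℝ≥0∞} (hf : Measurable f) : ∫⁻ x, f x ^ s ∂μ ≤ (∫⁻ x, f x ∂μ) ^ s := by
  have h4 := eLpNorm'_le_eLpNorm'_of_exponent_le hs hs1 μ hf.aestronglyMeasurable
  unfold eLpNorm' at h4
  simp only [enorm_eq_self, ENNReal.rpow_one, one_div_one] at h4
  have h5 := ENNReal.rpow_le_rpow h4 hs.le
  rw [← ENNReal.rpow_mul, one_div_mul_cancel hs.ne', ENNReal.rpow_one] at h5
  exact h5

theorem vol_ball (T : ℝ) : volume (Metric.ball (0 : ℂ) T) = ENNReal.ofReal T ^ 2 * NNReal.pi :=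
  Complex.volume_ball 0 T

theorem vol_ne {T : ℝ} (hT : 0 < T) : volume (Metric.ball (0 : ℂ) T) ≠ 0 :=
  (Metric.measure_ball_pos volume 0 hT).ne'

theorem vol_top (T : ℝ) : volume (Metric.ball (0 : ℂ) T) ≠ ⊤ := measure_ball_lt_top.ne

/-- averaging over translations -/
theorem jen {T : ℝ} (hT : 0 < T) {s : ℝ} (hs : 0 < s) (hs1 : s ≤ 1)
    {B : ℂ → ℝ≥0∞} (hB : Measurable B) : ∫⁻ v, B v ^ s ≤ ∫⁻ v, (av T B v) ^ s := by
  obtain ⟨V, hV⟩ : ∃ V : ℝ≥0∞, V = volume (Metric.ball (0 : ℂ) T) := ⟨_, rfl⟩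
  have hV0 : V ≠ 0 := by rw [hV]; exact vol_ne hT
  have hV1 : V ≠ ⊤ := by rw [hV]; exact vol_top T
  have hp : IsProbabilityMeasure (V⁻¹ • (volume : Measure ℂ).restrict (Metric.ball (0 : ℂ) T)) := by
    constructor
    rw [Measure.smul_apply, Measure.restrict_apply MeasurableSet.univ, Set.univ_inter, smul_eq_mul,
      ← hV]
    exact ENNReal.inv_mul_cancel hV0 hV1
  have hm : Measurable fun p : ℂ × ℂ => B (p.1 + p.2) ^ s :=
    (hB.comp (measurable_fst.add measurable_snd)).pow_const s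
  have h1 : ∫⁻ v, V⁻¹ * ∫⁻ u in Metric.ball (0 : ℂ) T, B (v + u) ^ s = ∫⁻ v, B v ^ s := by
    rw [lintegral_const_mul' _ _ (ENNReal.inv_ne_top.2 hV0), lintegral_lintegral_swap
      (by exact hm.aemeasurable)]
    have h2 : ∀ u : ℂ, ∫⁻ v, B (v + u) ^ s = ∫⁻ v, B v ^ s := fun u =>
      lintegral_add_right_eq_self (fun v => B v ^ s) u
    simp only [h2]
    rw [lintegral_const, Measure.restrict_apply MeasurableSet.univ, Set.univ_inter, ← hV, mul_comm,
      mul_assoc, ENNReal.mul_inv_cancel hV0 hV1, mul_one]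
  rw [← h1]
  refine lintegral_mono fun v => ?_
  have h3 := jen0 (V⁻¹ • (volume : Measure ℂ).restrict (Metric.ball (0 : ℂ) T)) hs hs1
    (f := fun u => B (v + u)) (hB.comp (measurable_const_add v))
  rw [lintegral_smul_measure, lintegral_smul_measure, smul_eq_mul, smul_eq_mul] at h3
  unfold av
  rw [← hV]
  exact h3

/-- the square of the kernel -/
noncomputable def k2 (c : ℝ) (w : ℂ) : ℝ≥0∞ :=
  ENNReal.ofReal ((c / (2 * Real.pi * ‖w‖ ^ 2)) ^ 2)

theorem k2_meas (c : ℝ) : Measurable (k2 c) := by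
  unfold k2
  exact ((measurable_const.div (measurable_const.mul (measurable_norm.pow_const 2))).pow_const
    2).ennreal_ofReal

theorem k2_iw {c : ℝ} (hc : 0 < c) (v : ℂ) :
    k2 c (iw c v) = ENNReal.ofReal ((‖v‖ ^ 2 / (2 * Real.pi * c)) ^ 2) := by
  unfold k2
  rw [norm_iw hc]
  congr 2
  by_cases hv : ‖v‖ = 0
  · rw [hv]
    simp
  · have := Real.pi_pos
    field_simp

theorem k2_le {c b : ℝ} (hc : 0 < c) (hb : 0 ≤ b) {x y : ℂ} (h : ‖x‖ ≤ b * ‖y‖) :
    k2 c (iw c x) ≤ ENNReal.ofReal b ^ 4 * k2 c (iw c y) := by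
  rw [k2_iw hc, k2_iw hc, ← ENNReal.ofReal_pow hb, ← ENNReal.ofReal_mul (by positivity)]
  apply ENNReal.ofReal_le_ofReal
  have hp := Real.pi_pos
  have h1 : ‖x‖ ^ 2 ≤ (b * ‖y‖) ^ 2 := pow_le_pow_left₀ (norm_nonneg _) h 2
  calc (‖x‖ ^ 2 / (2 * Real.pi * c)) ^ 2 ≤ ((b * ‖y‖) ^ 2 / (2 * Real.pi * c)) ^ 2 := by
        refine pow_le_pow_left₀ (by positivity) ?_ 2
        exact div_le_div_of_nonneg_right h1 (by positivity)
    _ = b ^ 4 * (‖y‖ ^ 2 / (2 * Real.pi * c)) ^ 2 := by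
        field_simp

theorem J_le {c b : ℝ} (hb : 0 ≤ b) {x y : ℂ} (hx : x ≠ 0) (hy : y ≠ 0)
    (h : ‖y‖ ≤ b * ‖x‖) : J c x ≤ ENNReal.ofReal b ^ 4 * J c y := by
  unfold J
  rw [← ENNReal.ofReal_pow hb, ← ENNReal.ofReal_mul (by positivity)]
  apply ENNReal.ofReal_le_ofReal
  have hx' : 0 < ‖x‖ := norm_pos_iff.2 hx
  have hy' : 0 < ‖y‖ := norm_pos_iff.2 hy
  rw [← mul_div_assoc, div_le_div_iff₀ (by positivity) (by positivity)]
  have h1 : ‖y‖ ^ 4 ≤ (b * ‖x‖) ^ 4 := pow_le_pow_left₀ hy'.le h 4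
  calc c ^ 2 * ‖y‖ ^ 4 ≤ c ^ 2 * (b * ‖x‖) ^ 4 := mul_le_mul_of_nonneg_left h1 (by positivity)
    _ = b ^ 4 * c ^ 2 * ‖x‖ ^ 4 := by ring

/-- the relations between the parameters -/
structure Par (c l T D η : ℝ) : Prop where
  hc : 0 < c
  hl : 0 < l
  hlη : l ≤ η
  hD : 1 ≤ D
  hT : 0 < T
  hTD : T * D ≤ η * c
  hcl : c * l ≤ η * T
  hη : 0 < η
  hη1 : η ≤ 1 / 16

theorem facts {c l T D η : ℝ} (H : Par c l T D η) {t v v' : ℂ} (ht1 : 1 / 2 ≤ ‖iw c t‖)
    (ht2 : ‖iw c t‖ ≤ D) (htv : ‖t - v‖ < T) (hl : ‖iw c v' - iw c t‖ ≤ l) :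
    t ≠ 0 ∧ v ≠ 0 ∧ v' ≠ 0 ∧ ‖v' - v‖ < T + 8 * c * l ∧ ‖v'‖ ≤ (1 + 8 * η) * ‖v‖ ∧
      1 / 4 ≤ ‖iw c v'‖ ∧ ‖v‖ ≤ (1 + 8 * η) * ‖t‖ := by
  obtain ⟨hc, hl0, hlη, hD, hT, hTD, hcl, hη, hη1⟩ := H
  have z0 : iw c 0 = 0 := by simp [iw]
  have t0 : t ≠ 0 := by
    rintro rfl
    rw [z0, norm_zero] at ht1
    norm_num at ht1
  have tp : 0 < ‖t‖ := norm_pos_iff.2 t0
  have a1 : c ≤ D * ‖t‖ := by
    rw [norm_iw hc, div_le_iff₀ tp] at ht2
    exact ht2
  have a2 : T ≤ η * ‖t‖ := by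
    have h1 : T * D ≤ (η * ‖t‖) * D := by
      calc T * D ≤ η * c := hTD
        _ ≤ η * (D * ‖t‖) := mul_le_mul_of_nonneg_left a1 hη.le
        _ = _ := by ring
    exact le_of_mul_le_mul_right h1 (by linarith)
  have a3 : 1 / 4 ≤ ‖iw c v'‖ := by
    have h1 := norm_sub_norm_le (iw c t) (iw c v')
    rw [norm_sub_rev] at h1
    linarith
  have v0' : v' ≠ 0 := by
    rintro rfl
    rw [z0, norm_zero] at a3
    norm_num at a3
  have a4 : ‖v' - t‖ ≤ 8 * c * l := by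
    have h1 := iw_sub hc (iw_ne hc v0') (iw_ne hc t0)
    rw [iw_iw hc, iw_iw hc] at h1
    rw [h1, div_le_iff₀ (by positivity)]
    have h2 : (1 / 8 : ℝ) ≤ ‖iw c v'‖ * ‖iw c t‖ := by
      calc (1 / 8 : ℝ) = 1 / 4 * (1 / 2) := by norm_num
        _ ≤ _ := mul_le_mul a3 ht1 (by norm_num) (norm_nonneg _)
    calc c * ‖iw c v' - iw c t‖ ≤ c * l := mul_le_mul_of_nonneg_left hl hc.le
      _ = 8 * c * l * (1 / 8) := by ring
      _ ≤ _ := mul_le_mul_of_nonneg_left h2 (by positivity)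
  have a5 : ‖v' - v‖ < T + 8 * c * l := by
    have h1 : v' - v = (v' - t) + (t - v) := by ring
    rw [h1]
    refine (norm_add_le _ _).trans_lt ?_
    linarith
  have a6 : ‖t‖ ≤ ‖v‖ + T := by
    have h1 := norm_sub_norm_le t v
    linarith
  have a6' : ‖v‖ ≤ ‖t‖ + T := by
    have h1 := norm_sub_norm_le v t
    rw [norm_sub_rev] at h1
    linarith
  have a7 : ‖t‖ ≤ 2 * ‖v‖ := by nlinarith
  have v0 : v ≠ 0 := by
    rintro rfl
    rw [norm_zero] at a7
    linarith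
  have a8 : ‖v'‖ ≤ ‖v‖ + (T + 8 * c * l) := by
    have h1 := norm_sub_norm_le v' v
    linarith
  have a9 : 8 * c * l ≤ T := by
    have : 8 * c * l ≤ 8 * (η * T) := by linarith
    nlinarith
  refine ⟨t0, v0, v0', a5, ?_, a3, ?_⟩
  · nlinarith
  · nlinarith

/-- the integral of the density in the inverted plane -/
theorem int_chi {c l T D η : ℝ} (H : Par c l T D η) {χ : ℂ → ℝ≥0∞} (hχ : Mol l χ) {a : ℂ}
    (ha : 1 / 4 ≤ ‖a‖) : ∫⁻ t, χ (a - iw c t) ≤ ENNReal.ofReal (1 + 8 * η) ^ 4 * J c a := by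
  have hc := H.hc
  have hη := H.hη
  have a0 : a ≠ 0 := by
    rintro rfl
    rw [norm_zero] at ha
    norm_num at ha
  have h1 : ∫⁻ t, χ (a - iw c t) = ∫⁻ w, J c w * χ (a - w) := by
    rw [cov hc (fun w => J c w * χ (a - w))]
    refine lintegral_congr_ae ?_
    have h2 : ({0}ᶜ : Set ℂ) ∈ ae (volume : Measure ℂ) := compl_mem_ae_iff.2 (measure_singleton 0)
    filter_upwards [h2] with t ht
    rw [← mul_assoc, J_iw hc ht, one_mul]
  rw [h1]
  calc ∫⁻ w, J c w * χ (a - w) ≤ ∫⁻ w, (ENNReal.ofReal (1 + 8 * η) ^ 4 * J c a) * χ (a - w) := by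
        refine lintegral_mono fun w => ?_
        by_cases h0 : χ (a - w) = 0
        · simp [h0]
        · have h2 : ‖a - w‖ ≤ l := by
            by_contra h3
            exact h0 (hχ.2.1 _ (not_le.1 h3))
          have h3 : ‖a‖ ≤ ‖w‖ + l := by
            have := norm_sub_norm_le a w
            linarith
          have h4 : ‖a‖ ≤ 2 * ‖w‖ := by linarith [H.hlη, H.hη1]
          have w0 : w ≠ 0 := by
            rintro rfl
            rw [norm_zero] at h4
            linarith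
          have h5 : ‖a‖ ≤ (1 + 8 * η) * ‖w‖ := by
            have h6 : l ≤ 4 * η * ‖a‖ := by nlinarith [H.hlη]
            have h7 : (1 - 4 * η) * ‖a‖ ≤ ‖w‖ := by linarith
            have h8 : (1 : ℝ) ≤ (1 + 8 * η) * (1 - 4 * η) := by nlinarith [H.hη1]
            calc ‖a‖ = 1 * ‖a‖ := (one_mul _).symm
              _ ≤ ((1 + 8 * η) * (1 - 4 * η)) * ‖a‖ :=
                mul_le_mul_of_nonneg_right h8 (norm_nonneg _)
              _ = (1 + 8 * η) * ((1 - 4 * η) * ‖a‖) := by ring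
              _ ≤ _ := mul_le_mul_of_nonneg_left h7 (by linarith)
          exact mul_le_mul_left (J_le (by linarith) w0 a0 h5) _
    _ = ENNReal.ofReal (1 + 8 * η) ^ 4 * J c a := by
        rw [lintegral_const_mul', lintegral_sub_left_eq_self (fun y => χ y) a, hχ.2.2, mul_one]
        exact ENNReal.mul_ne_top (ENNReal.pow_ne_top ENNReal.ofReal_ne_top) (J_top c a)

/-- the inner integral -/
noncomputable def Af (c : ℝ) (χ X : ℂ → ℝ≥0∞) (w : ℂ) : ℝ≥0∞ :=
  ∫⁻ y, χ y * (k2 c (w + y) * X (iw c (w + y)))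

theorem Af_meas (c : ℝ) {χ X : ℂ → ℝ≥0∞} (hχ : Measurable χ) (hX : Measurable X) :
    Measurable (Af c χ X) := by
  unfold Af
  have h : Measurable fun p : ℂ × ℂ => χ p.2 * (k2 c (p.1 + p.2) * X (iw c (p.1 + p.2))) :=
    (hχ.comp measurable_snd).mul (((k2_meas c).comp (measurable_fst.add measurable_snd)).mul
      (hX.comp ((iw_meas c).comp (measurable_fst.add measurable_snd))))
  exact h.lintegral_prod_right'

theorem Af_eq {c : ℝ} (hc : 0 < c) (χ X : ℂ → ℝ≥0∞) (t : ℂ) : Af c χ X (iw c t) =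
    ∫⁻ v', J c v' * (χ (iw c v' - iw c t) * (k2 c (iw c v') * X v')) := by
  have h1 : Af c χ X (iw c t) = ∫⁻ w, χ (w - iw c t) * (k2 c w * X (iw c w)) := by
    unfold Af
    rw [← lintegral_sub_right_eq_self
      (fun y => χ y * (k2 c (iw c t + y) * X (iw c (iw c t + y)))) (iw c t)]
    refine lintegral_congr fun w => ?_
    rw [add_sub_cancel]
  rw [h1, cov hc]
  refine lintegral_congr fun v' => ?_
  rw [iw_iw hc]

/-- the annulus -/
def Wd (D : ℝ) : Set ℂ := {w : ℂ | 1 / 2 ≤ ‖w‖ ∧ ‖w‖ ≤ D}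

theorem Wd_meas (D : ℝ) : MeasurableSet (Wd D) :=
  (measurableSet_le measurable_const measurable_norm).inter
    (measurableSet_le measurable_norm measurable_const)

/-- the function to be averaged -/
noncomputable def Bf (c s D : ℝ) (χ X : ℂ → ℝ≥0∞) (v : ℂ) : ℝ≥0∞ :=
  (Wd D).indicator (Af c χ X) (iw c v) * J c v ^ (1 / s)

theorem Bf_meas (c s D : ℝ) {χ X : ℂ → ℝ≥0∞} (hχ : Measurable χ) (hX : Measurable X) :
    Measurable (Bf c s D χ X) :=
  (((Af_meas c hχ hX).indicator (Wd_meas D)).comp (iw_meas c)).mul ((J_meas c).pow_const _)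

/-- the relevant points of the small disc -/
def Ps (c T D : ℝ) (v : ℂ) : Set ℂ := Metric.ball v T ∩ iw c ⁻¹' Wd D

theorem Ps_meas (c T D : ℝ) (v : ℂ) : MeasurableSet (Ps c T D v) :=
  measurableSet_ball.inter (iw_meas c (Wd_meas D))

/-- the weight on the small disc -/
noncomputable def Sf (c s T D : ℝ) (v t : ℂ) : ℝ≥0∞ :=
  (Ps c T D v).indicator (fun t => J c t ^ (1 / s)) t

theorem Sf_meas (c s T D : ℝ) (v : ℂ) : Measurable (Sf c s T D v) :=
  ((J_meas c).pow_const _).indicator (Ps_meas c T D v)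

theorem claim {c l T D η s : ℝ} (H : Par c l T D η) {χ : ℂ → ℝ≥0∞} (hχ : Mol l χ)
    (hs : 1 / 2 ≤ s) (v v' : ℂ) :
    J c v' * k2 c (iw c v') * ∫⁻ t, Sf c s T D v t * χ (iw c v' - iw c t) ≤
      (Metric.ball v (T + 8 * c * l)).indicator (fun _ => ENNReal.ofReal (1 + 8 * η) ^ 16 *
        (J c v ^ (1 / s) * k2 c (iw c v))) v' := by
  have hc := H.hc
  have hη := H.hη
  have hs0 : 0 < s := by linarith
  obtain ⟨β, hβ⟩ : ∃ β : ℝ≥0∞, β = ENNReal.ofReal (1 + 8 * η) := ⟨_, rfl⟩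
  have hβ1 : 1 ≤ β := by
    rw [hβ, ← ENNReal.ofReal_one]
    exact ENNReal.ofReal_le_ofReal (by linarith)
  have hβt : β ≠ ⊤ := by rw [hβ]; exact ENNReal.ofReal_ne_top
  by_cases hex : ∃ t, t ∈ Ps c T D v ∧ χ (iw c v' - iw c t) ≠ 0
  · obtain ⟨t0, ⟨hb, hw1, hw2⟩, h0⟩ := hex
    have hf : ∀ t, t ∈ Ps c T D v → χ (iw c v' - iw c t) ≠ 0 → _ := fun t ht h =>
      facts H (t := t) (v := v) (v' := v') ht.2.1 ht.2.2
        (by have h1 := ht.1; rwa [Metric.mem_ball, dist_eq_norm] at h1)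
        (by
          by_contra h3
          exact h (hχ.2.1 _ (not_le.1 h3)))
    obtain ⟨f1, f2, f3, f4, f5, f6, f7⟩ := hf t0 ⟨hb, hw1, hw2⟩ h0
    rw [Set.indicator_of_mem (by rwa [Metric.mem_ball, dist_eq_norm])]
    rw [← hβ]
    have hJt : J c v ^ (1 / s) ≠ ⊤ :=
      ENNReal.rpow_ne_top_of_nonneg (by positivity) (J_top c v)
    have hI : ∫⁻ t, Sf c s T D v t * χ (iw c v' - iw c t) ≤
        (β ^ 8 * J c v ^ (1 / s)) * (β ^ 4 * J c (iw c v')) := by
      calc ∫⁻ t, Sf c s T D v t * χ (iw c v' - iw c t)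
          ≤ ∫⁻ t, (β ^ 8 * J c v ^ (1 / s)) * χ (iw c v' - iw c t) := by
            refine lintegral_mono fun t => ?_
            by_cases h1 : χ (iw c v' - iw c t) = 0
            · simp [h1]
            · by_cases h2 : t ∈ Ps c T D v
              · obtain ⟨g1, g2, g3, g4, g5, g6, g7⟩ := hf t h2 h1
                refine mul_le_mul_left ?_ _
                unfold Sf
                rw [Set.indicator_of_mem h2]
                have h3 : J c t ≤ β ^ 4 * J c v := by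
                  rw [hβ]
                  exact J_le (by linarith) g1 g2 g7
                calc J c t ^ (1 / s) ≤ (β ^ 4 * J c v) ^ (1 / s) :=
                      ENNReal.rpow_le_rpow h3 (by positivity)
                  _ = (β ^ 4) ^ (1 / s) * J c v ^ (1 / s) :=
                      ENNReal.mul_rpow_of_nonneg _ _ (by positivity)
                  _ ≤ (β ^ 4) ^ (2 : ℝ) * J c v ^ (1 / s) := by
                      refine mul_le_mul_left ?_ _
                      refine ENNReal.rpow_le_rpow_of_exponent_le (one_le_pow₀ hβ1) ?_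
                      rw [div_le_iff₀ hs0]
                      linarith
                  _ = β ^ 8 * J c v ^ (1 / s) := by
                      rw [ENNReal.rpow_two, ← pow_mul]
              · unfold Sf
                rw [Set.indicator_of_notMem h2]
                simp
        _ = (β ^ 8 * J c v ^ (1 / s)) * ∫⁻ t, χ (iw c v' - iw c t) :=
            lintegral_const_mul' _ _ (ENNReal.mul_ne_top (ENNReal.pow_ne_top hβt) hJt)
        _ ≤ _ := by
            refine mul_le_mul_right ?_ _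
            rw [hβ]
            exact int_chi H hχ f6
    have hk : k2 c (iw c v') ≤ β ^ 4 * k2 c (iw c v) := by
      rw [hβ]
      exact k2_le hc (by linarith) f5
    calc J c v' * k2 c (iw c v') * ∫⁻ t, Sf c s T D v t * χ (iw c v' - iw c t)
        ≤ J c v' * (β ^ 4 * k2 c (iw c v)) *
          ((β ^ 8 * J c v ^ (1 / s)) * (β ^ 4 * J c (iw c v'))) :=
          mul_le_mul' (mul_le_mul_right hk _) hI
      _ = β ^ 16 * (J c v ^ (1 / s) * k2 c (iw c v)) * (J c v' * J c (iw c v')) := by ring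
      _ = _ := by rw [J_iw hc f3, mul_one]
  · have h1 : ∀ t, Sf c s T D v t * χ (iw c v' - iw c t) = 0 := by
      intro t
      by_cases h2 : t ∈ Ps c T D v
      · by_cases h3 : χ (iw c v' - iw c t) = 0
        · rw [h3, mul_zero]
        · exact absurd ⟨t, h2, h3⟩ hex
      · unfold Sf
        rw [Set.indicator_of_notMem h2, zero_mul]
    simp only [h1, lintegral_zero, mul_zero]
    exact zero_le

/-- the pointwise bound -/
theorem ptw {c l T D η s : ℝ} (H : Par c l T D η) {χ : ℂ → ℝ≥0∞} (hχ : Mol l χ)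
    (hs : 1 / 2 ≤ s) {X : ℂ → ℝ≥0∞} (hX : Measurable X) (v : ℂ) :
    av T (Bf c s D χ X) v ≤ ENNReal.ofReal (1 + 8 * η) ^ 18 *
      (J c v ^ (1 / s) * (k2 c (iw c v) * av (T + 8 * c * l) X v)) := by
  have hc := H.hc
  have hη := H.hη
  have hT := H.hT
  have hs0 : 0 < s := by linarith
  obtain ⟨β, hβ⟩ : ∃ β : ℝ≥0∞, β = ENNReal.ofReal (1 + 8 * η) := ⟨_, rfl⟩
  obtain ⟨T', hT'⟩ : ∃ T' : ℝ, T' = T + 8 * c * l := ⟨_, rfl⟩
  have hl := H.hl
  have hT'0 : 0 < T' := by rw [hT']; positivity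
  have h1 : ∫⁻ u in Metric.ball (0 : ℂ) T, Bf c s D χ X (v + u) =
      ∫⁻ t, Sf c s T D v t * Af c χ X (iw c t) := by
    rw [← lintegral_indicator measurableSet_ball,
      ← lintegral_add_left_eq_self (fun t => Sf c s T D v t * Af c χ X (iw c t)) v]
    refine lintegral_congr fun u => ?_
    have hiff : u ∈ Metric.ball (0 : ℂ) T ↔ v + u ∈ Metric.ball v T := by
      rw [Metric.mem_ball, Metric.mem_ball, dist_eq_norm, dist_eq_norm, sub_zero,
        add_sub_cancel_left]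
    by_cases hu : u ∈ Metric.ball (0 : ℂ) T
    · rw [Set.indicator_of_mem hu]
      unfold Bf Sf
      by_cases hw : iw c (v + u) ∈ Wd D
      · have h2 : v + u ∈ Ps c T D v := ⟨hiff.1 hu, hw⟩
        rw [Set.indicator_of_mem hw, Set.indicator_of_mem h2, mul_comm]
      · have h2 : v + u ∉ Ps c T D v := fun h => hw h.2
        rw [Set.indicator_of_notMem hw, Set.indicator_of_notMem h2, zero_mul, zero_mul]
    · rw [Set.indicator_of_notMem hu]
      unfold Sf
      have h2 : v + u ∉ Ps c T D v := fun h => hu (hiff.2 h.1)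
      rw [Set.indicator_of_notMem h2, zero_mul]
  have mF : Measurable fun p : ℂ × ℂ => Sf c s T D v p.1 *
      (J c p.2 * (χ (iw c p.2 - iw c p.1) * (k2 c (iw c p.2) * X p.2))) :=
    ((Sf_meas c s T D v).comp measurable_fst).mul (((J_meas c).comp measurable_snd).mul
      ((hχ.1.comp (((iw_meas c).comp measurable_snd).sub ((iw_meas c).comp measurable_fst))).mul
        (((k2_meas c).comp ((iw_meas c).comp measurable_snd)).mul (hX.comp measurable_snd))))
  have h2 : ∫⁻ t, Sf c s T D v t * Af c χ X (iw c t) = ∫⁻ v', (J c v' * k2 c (iw c v') *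
      ∫⁻ t, Sf c s T D v t * χ (iw c v' - iw c t)) * X v' := by
    have h3 : ∀ t, Sf c s T D v t * Af c χ X (iw c t) = ∫⁻ v', Sf c s T D v t *
        (J c v' * (χ (iw c v' - iw c t) * (k2 c (iw c v') * X v'))) := by
      intro t
      rw [Af_eq hc, lintegral_const_mul]
      exact (J_meas c).mul ((hχ.1.comp ((iw_meas c).sub measurable_const)).mul
        (((k2_meas c).comp (iw_meas c)).mul hX))
    simp only [h3]
    rw [lintegral_lintegral_swap (by exact mF.aemeasurable)]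
    refine lintegral_congr fun v' => ?_
    have h4 : ∀ t, Sf c s T D v t * (J c v' * (χ (iw c v' - iw c t) *
        (k2 c (iw c v') * X v'))) = (J c v' * k2 c (iw c v') * X v') *
          (Sf c s T D v t * χ (iw c v' - iw c t)) := fun t => by ring
    simp only [h4]
    rw [lintegral_const_mul]
    · ring
    · exact (Sf_meas c s T D v).mul (hχ.1.comp (measurable_const.sub (iw_meas c)))
  have h5 : ∫⁻ v', (J c v' * k2 c (iw c v') *
      ∫⁻ t, Sf c s T D v t * χ (iw c v' - iw c t)) * X v' ≤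
      (β ^ 16 * (J c v ^ (1 / s) * k2 c (iw c v))) *
        ∫⁻ u in Metric.ball (0 : ℂ) T', X (v + u) := by
    calc _ ≤ ∫⁻ v', (Metric.ball v T').indicator (fun _ => β ^ 16 *
        (J c v ^ (1 / s) * k2 c (iw c v))) v' * X v' := by
          refine lintegral_mono fun v' => mul_le_mul_left ?_ _
          rw [hT', hβ]
          exact claim H hχ hs v v'
      _ = ∫⁻ u, (Metric.ball (0 : ℂ) T').indicator (fun u => (β ^ 16 *
        (J c v ^ (1 / s) * k2 c (iw c v))) * X (v + u)) u := by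
          rw [← lintegral_add_left_eq_self _ v]
          refine lintegral_congr fun u => ?_
          have hiff : u ∈ Metric.ball (0 : ℂ) T' ↔ v + u ∈ Metric.ball v T' := by
            rw [Metric.mem_ball, Metric.mem_ball, dist_eq_norm, dist_eq_norm, sub_zero,
              add_sub_cancel_left]
          by_cases hu : u ∈ Metric.ball (0 : ℂ) T'
          · rw [Set.indicator_of_mem hu, Set.indicator_of_mem (hiff.1 hu)]
          · rw [Set.indicator_of_notMem hu, Set.indicator_of_notMem fun h => hu (hiff.2 h),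
              zero_mul]
      _ = _ := by
          rw [lintegral_indicator measurableSet_ball, lintegral_const_mul]
          exact hX.comp (measurable_const_add v)
  obtain ⟨V, hV⟩ : ∃ V : ℝ≥0∞, V = volume (Metric.ball (0 : ℂ) T) := ⟨_, rfl⟩
  obtain ⟨V', hV'⟩ : ∃ V' : ℝ≥0∞, V' = volume (Metric.ball (0 : ℂ) T') := ⟨_, rfl⟩
  have h6 : ∫⁻ u in Metric.ball (0 : ℂ) T', X (v + u) = V' * av T' X v := by
    unfold av
    rw [← hV', ← mul_assoc, ENNReal.mul_inv_cancel, one_mul]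
    · rw [hV']; exact vol_ne hT'0
    · rw [hV']; exact vol_top T'
  have h7 : V' ≤ β ^ 2 * V := by
    rw [hV', hV, vol_ball, vol_ball, ← mul_assoc, ← mul_pow]
    refine mul_le_mul_left ?_ _
    refine pow_le_pow_left' ?_ 2
    rw [hβ, ← ENNReal.ofReal_mul (by linarith)]
    apply ENNReal.ofReal_le_ofReal
    rw [hT']
    have := H.hcl
    nlinarith
  have h8 : V⁻¹ * V' ≤ β ^ 2 := by
    calc V⁻¹ * V' ≤ V⁻¹ * (β ^ 2 * V) := mul_le_mul_right h7 _
      _ = β ^ 2 * (V⁻¹ * V) := by ring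
      _ = β ^ 2 := by
          rw [ENNReal.inv_mul_cancel, mul_one]
          · rw [hV]; exact vol_ne hT
          · rw [hV]; exact vol_top T
  have h9 : av T (Bf c s D χ X) v = V⁻¹ * ∫⁻ u in Metric.ball (0 : ℂ) T, Bf c s D χ X (v + u) := by
    rw [hV]
    rfl
  rw [h9, h1, h2, ← hβ, ← hT']
  calc _ ≤ V⁻¹ * ((β ^ 16 * (J c v ^ (1 / s) * k2 c (iw c v))) * (V' * av T' X v)) := by
        refine mul_le_mul_right ?_ _
        rw [← h6]
        exact h5
    _ = (V⁻¹ * V') * (β ^ 16 * (J c v ^ (1 / s) * (k2 c (iw c v) * av T' X v))) := by ring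
    _ ≤ β ^ 2 * (β ^ 16 * (J c v ^ (1 / s) * (k2 c (iw c v) * av T' X v))) :=
        mul_le_mul_left h8 _
    _ = _ := by ring

/-- **AVG.** -/
theorem t : Pool.Agent.N892.BW.S_AVG := by
  intro ε hε
  obtain ⟨η, hη, hη1, hηε⟩ : ∃ η : ℝ, 0 < η ∧ η ≤ 1 / 16 ∧ (1 + 8 * η) ^ 18 ≤ 1 + ε := by
    have hc : ContinuousAt (fun η : ℝ => (1 + 8 * η) ^ 18) 0 := by fun_prop
    have h1 : ∀ᶠ η in 𝓝 (0 : ℝ), (1 + 8 * η) ^ 18 < 1 + ε := by
      refine hc.eventually_lt continuousAt_const ?_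
      simp only [mul_zero, add_zero, one_pow]
      linarith
    obtain ⟨r, hr, h⟩ := Metric.eventually_nhds_iff.1 h1
    refine ⟨min (r / 2) (1 / 16), by positivity, min_le_right _ _, ?_⟩
    refine (h ?_).le
    rw [Real.dist_eq, sub_zero, abs_of_pos (by positivity)]
    exact (min_le_left _ _).trans_lt (by linarith)
  refine ⟨η, hη, ?_⟩
  intro c l T D hc hl hlη hD hT hTD hcl χ hχ s hs hs1 X hX
  have H : Par c l T D η := ⟨hc, hl, hlη, hD, hT, hTD, hcl, hη, hη1⟩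
  have hs0 : 0 < s := by linarith
  obtain ⟨β, hβ⟩ : ∃ β : ℝ≥0∞, β = ENNReal.ofReal (1 + 8 * η) := ⟨_, rfl⟩
  have hβ1 : 1 ≤ β := by
    rw [hβ, ← ENNReal.ofReal_one]
    exact ENNReal.ofReal_le_ofReal (by linarith)
  have e1 : ∫⁻ w in Wd D, (Af c χ X w) ^ s = ∫⁻ v, (Bf c s D χ X v) ^ s := by
    rw [← lintegral_indicator (Wd_meas D), cov hc]
    refine lintegral_congr fun v => ?_
    unfold Bf
    by_cases hv : iw c v ∈ Wd D
    · rw [Set.indicator_of_mem hv, Set.indicator_of_mem hv,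
        ENNReal.mul_rpow_of_nonneg _ _ hs0.le, ← ENNReal.rpow_mul, one_div_mul_cancel hs0.ne',
        ENNReal.rpow_one, mul_comm]
    · rw [Set.indicator_of_notMem hv, Set.indicator_of_notMem hv, zero_mul, mul_zero,
        ENNReal.zero_rpow_of_pos hs0]
  have e2 : (β ^ 18) ^ s ≤ ENNReal.ofReal (1 + ε) := by
    calc (β ^ 18) ^ s ≤ (β ^ 18) ^ (1 : ℝ) :=
          ENNReal.rpow_le_rpow_of_exponent_le (one_le_pow₀ hβ1) hs1
      _ = β ^ 18 := ENNReal.rpow_one _
      _ ≤ _ := by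
          rw [hβ, ← ENNReal.ofReal_pow (by linarith)]
          exact ENNReal.ofReal_le_ofReal hηε
  have e3 : ∫⁻ v, (av T (Bf c s D χ X) v) ^ s ≤ ENNReal.ofReal (1 + ε) *
      ∫⁻ w, (k2 c w * av (T + 8 * c * l) X (iw c w)) ^ s := by
    rw [cov hc (fun w => (k2 c w * av (T + 8 * c * l) X (iw c w)) ^ s),
      ← lintegral_const_mul' _ _ ENNReal.ofReal_ne_top]
    refine lintegral_mono fun v => ?_
    rw [iw_iw hc]
    have h1 := ptw H hχ hs hX v
    rw [← hβ] at h1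
    calc (av T (Bf c s D χ X) v) ^ s ≤ (β ^ 18 * (J c v ^ (1 / s) *
          (k2 c (iw c v) * av (T + 8 * c * l) X v))) ^ s := ENNReal.rpow_le_rpow h1 hs0.le
      _ = (β ^ 18) ^ s * (J c v * (k2 c (iw c v) * av (T + 8 * c * l) X v) ^ s) := by
          rw [ENNReal.mul_rpow_of_nonneg _ _ hs0.le,
            ENNReal.mul_rpow_of_nonneg (J c v ^ (1 / s)) _ hs0.le, ← ENNReal.rpow_mul,
            one_div_mul_cancel hs0.ne', ENNReal.rpow_one]
      _ ≤ _ := mul_le_mul_left e2 _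
  calc _ = ∫⁻ w in Wd D, (Af c χ X w) ^ s := rfl
    _ = ∫⁻ v, (Bf c s D χ X v) ^ s := e1
    _ ≤ ∫⁻ v, (av T (Bf c s D χ X) v) ^ s := jen hT hs0 hs1 (Bf_meas c s D hχ.1 hX)
    _ ≤ _ := e3
    _ = _ := rfl

end Pool.Agent.N892.BW.AVG
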