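import Mathlib
import Pool.Agent.N892.BW.Stm

/-!
BW/CELL: the bound for one cell.
-/

set_option autoImplicit false

open MeasureTheory ENNReal Filter Topology Complex
open scoped ComplexConjugate

namespace Pool.Agent.N892.BW.CELL

open Pool.Agent.N892.BW

/-! ### Minkowski -/

/-- the norm -/
noncomputable def NN (χ : ℂ → ℝ≥0∞) (q : ℝ) (h : ℂ → ℂ) : ℝ≥0∞ :=
  (∫⁻ w, (∫⁻ y, χ y * ‖h (w + y)‖ₑ ^ 2) ^ (q / 2)) ^ (1 / q)

theorem meas_in (χ : ℂ → ℝ≥0∞) (hχ : Measurable χ) (h : ℂ → ℂ) (hh : Measurable h) :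
    Measurable fun w => ∫⁻ y, χ y * ‖h (w + y)‖ₑ ^ 2 := by
  have : Measurable fun p : ℂ × ℂ => χ p.2 * ‖h (p.1 + p.2)‖ₑ ^ 2 :=
    (hχ.comp measurable_snd).mul ((hh.comp (measurable_fst.add measurable_snd)).enorm.pow_const 2)
  exact this.lintegral_prod_right'

theorem mink (χ : ℂ → ℝ≥0∞) (hχ : Measurable χ) (q : ℝ) (hq : 1 ≤ q) (h₁ h₂ : ℂ → ℂ)
    (m₁ : Measurable h₁) (m₂ : Measurable h₂) :
    NN χ q (fun w => h₁ w + h₂ w) ≤ NN χ q h₁ + NN χ q h₂ := by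
  have hq0 : 0 < q := by linarith
  obtain ⟨A, hAdef⟩ : ∃ A : (ℂ → ℂ) → ℂ → ℝ≥0∞,
      A = fun h w => (∫⁻ y, χ y * ‖h (w + y)‖ₑ ^ 2) ^ (1 / 2 : ℝ) := ⟨_, rfl⟩
  have hA : ∀ h, NN χ q h = (∫⁻ w, A h w ^ q) ^ (1 / q) := by
    intro h
    unfold NN
    congr 1
    refine lintegral_congr fun w => ?_
    rw [hAdef]
    simp only
    rw [← ENNReal.rpow_mul]
    congr 1
    ring
  have hAm : ∀ h, Measurable h → Measurable (A h) := by
    intro h hh
    rw [hAdef]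
    exact (meas_in χ hχ h hh).pow_const _
  have hsub : ∀ w, A (fun w => h₁ w + h₂ w) w ≤ A h₁ w + A h₂ w := by
    intro w
    have e : ∀ h : ℂ → ℂ, Measurable h → (∫⁻ y, χ y * ‖h (w + y)‖ₑ ^ 2) =
        ∫⁻ y, ‖h (w + y)‖ₑ ^ (2 : ℝ) ∂(volume.withDensity χ) := by
      intro h hh
      have hm : Measurable fun y => ‖h (w + y)‖ₑ ^ (2 : ℝ) :=
        (hh.comp (measurable_const.add measurable_id)).enorm.pow_const _
      rw [lintegral_withDensity_eq_lintegral_mul _ hχ hm]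
      refine lintegral_congr fun y => ?_
      simp only [Pi.mul_apply, ENNReal.rpow_two]
    have n₁ : Measurable fun y => ‖h₁ (w + y)‖ₑ := (m₁.comp (measurable_const.add measurable_id)).enorm
    have n₂ : Measurable fun y => ‖h₂ (w + y)‖ₑ := (m₂.comp (measurable_const.add measurable_id)).enorm
    rw [hAdef]
    simp only
    rw [e h₁ m₁, e h₂ m₂, e (fun v => h₁ v + h₂ v) (m₁.add m₂)]
    refine le_trans ?_ (ENNReal.lintegral_Lp_add_le n₁.aemeasurable n₂.aemeasurable (by norm_num))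
    refine ENNReal.rpow_le_rpow (lintegral_mono fun y => ?_) (by norm_num)
    exact ENNReal.rpow_le_rpow (enorm_add_le _ _) (by norm_num)
  rw [hA, hA, hA]
  refine le_trans ?_ (ENNReal.lintegral_Lp_add_le (hAm _ m₁).aemeasurable (hAm _ m₂).aemeasurable hq)
  refine ENNReal.rpow_le_rpow (lintegral_mono fun w => ?_) (by positivity)
  exact ENNReal.rpow_le_rpow (hsub w) hq0.le

/-! ### The kernel -/

theorem norm_Kn (n : ℕ) (hn : 1 ≤ n) (v : ℂ) : ‖Kn n v‖ = ker n v := by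
  unfold Kn ker
  rcases eq_or_ne v 0 with h0 | h0
  · subst h0
    simp
  · have hv : 0 < ‖v‖ := norm_pos_iff.2 h0
    obtain ⟨k, rfl⟩ : ∃ k, n = k + 1 := ⟨n - 1, by omega⟩
    rw [norm_div, norm_mul, norm_mul, norm_div, norm_pow, norm_pow, norm_pow, norm_neg, norm_one, one_pow,
      one_mul, RCLike.norm_conj]
    have h1 : ‖((k + 1 : ℕ) : ℂ)‖ = ((k + 1 : ℕ) : ℝ) := by
      rw [Complex.norm_natCast]
    have h2 : ‖(Real.pi : ℂ)‖ = Real.pi := by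
      rw [Complex.norm_real, Real.norm_of_nonneg Real.pi_pos.le]
    rw [h1, h2, Nat.add_sub_cancel]
    have hpi := Real.pi_pos
    field_simp
    ring

theorem ker_nonneg (n : ℕ) (v : ℂ) : 0 ≤ ker n v := by
  unfold ker
  have := Real.pi_pos
  positivity

theorem norm_ex (x v : ℂ) : ‖ex x v‖ = 1 := by
  unfold ex
  rw [mul_comm, Complex.norm_exp_ofReal_mul_I]

theorem meas_Kn (n : ℕ) : Measurable (Kn n) := by
  unfold Kn
  have h1 : Measurable fun x : ℂ => conj x := Complex.continuous_conj.measurable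
  exact (measurable_const.mul (h1.pow_const _)).div (measurable_id.pow_const _)

theorem meas_kk (n : ℕ) (ψ : ℂ → ℝ) (hψ : Continuous ψ) : Measurable (kk n ψ) :=
  (meas_Kn n).mul (Complex.measurable_ofReal.comp hψ.measurable)

theorem norm_kk_le (n : ℕ) (hn : 1 ≤ n) (ψ : ℂ → ℝ) (hψ : ∀ x, 0 ≤ ψ x ∧ ψ x ≤ 1) (v : ℂ) :
    ‖kk n ψ v‖ ≤ ker n v := by
  unfold kk
  rw [norm_mul, norm_Kn n hn, Complex.norm_real, Real.norm_of_nonneg (hψ v).1]
  exact mul_le_of_le_one_right (ker_nonneg n v) (hψ v).2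

theorem meas_ex : Measurable fun p : ℂ × ℂ => ex p.1 p.2 := by
  have : Continuous fun p : ℂ × ℂ => ex p.1 p.2 := by
    unfold ex
    have h1 : Continuous fun p : ℂ × ℂ => conj p.2 := Complex.continuous_conj.comp continuous_snd
    exact Complex.continuous_exp.comp (continuous_const.mul
      (Complex.continuous_ofReal.comp (Complex.continuous_im.comp (continuous_fst.mul h1))))
  exact this.measurable

theorem meas_hat (g : ℂ → ℂ) (hg : Measurable g) : Measurable (hat g) := by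
  have h1 : StronglyMeasurable fun p : ℂ × ℂ => g p.2 * ex p.2 p.1 :=
    ((hg.comp measurable_snd).mul (meas_ex.comp (measurable_snd.prodMk measurable_fst))).stronglyMeasurable
  exact h1.integral_prod_right.measurable

theorem meas_iv (n : ℕ) : Measurable (iv n) := by
  unfold iv
  exact measurable_const.div Complex.continuous_conj.measurable

theorem meas_So (n : ℕ) (ψ : ℂ → ℝ) (hψ : Continuous ψ) (g : ℂ → ℂ) (hg : Measurable g) :
    Measurable (So n ψ g) := by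
  have h1 : StronglyMeasurable fun p : ℂ × ℂ => kk n ψ (p.1 - p.2) * g p.2 :=
    (((meas_kk n ψ hψ).comp (measurable_fst.sub measurable_snd)).mul
      (hg.comp measurable_snd)).stronglyMeasurable
  exact h1.integral_prod_right.measurable

theorem nice_int (g : ℂ → ℂ) (hg : Nice g) : Integrable g := by
  obtain ⟨hm, ⟨M, hM⟩, R, hR⟩ := hg
  have h1 : IntegrableOn g (Metric.closedBall (0 : ℂ) R) := by
    refine Measure.integrableOn_of_bounded (M := M) measure_closedBall_lt_top.ne hm.aestronglyMeasurable ?_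
    exact Eventually.of_forall hM
  refine (integrableOn_iff_integrable_of_support_subset ?_).1 h1
  intro x hx
  rw [Metric.mem_closedBall, dist_zero_right]
  by_contra hcon
  exact hx (hR x (not_le.1 hcon))

/-! ### The main part -/

theorem qq_facts (m : ℕ) (hm : 2 ≤ m) : 1 < qq m ∧ qq m ≤ 2 ∧ (qq m).HolderConjugate (2 * (m : ℝ)) := by
  have h1 : (2 : ℝ) ≤ m := by exact_mod_cast hm
  unfold qq
  have h2 : 0 < 2 * (m : ℝ) - 1 := by linarith
  have h3 : 1 < 2 * (m : ℝ) / (2 * m - 1) := by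
    rw [lt_div_iff₀ h2]
    linarith
  refine ⟨h3, ?_, ?_⟩
  · rw [div_le_iff₀ h2]
    linarith
  · rw [Real.holderConjugate_iff]
    refine ⟨h3, ?_⟩
    field_simp
    ring

theorem AA_nonneg (m n : ℕ) (hm : 2 ≤ m) : 0 ≤ AA m n := by
  have h1 : (2 : ℝ) ≤ m := by exact_mod_cast hm
  unfold AA GA
  have h2 : 0 < Real.Gamma (1 / (2 * (m : ℝ))) := Real.Gamma_pos_of_pos (by positivity)
  have h3 : 0 < Real.Gamma (1 - 1 / (2 * (m : ℝ))) := by
    apply Real.Gamma_pos_of_pos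
    have : 1 / (2 * (m : ℝ)) < 1 := by
      rw [div_lt_one (by positivity)]
      linarith
    linarith
  positivity

/-- the main part -/
theorem hl (h1 : S_MZC) (m n : ℕ) (hm : 2 ≤ m) (hn : 1 ≤ n) (ε η : ℝ) (hε : 0 < ε)
    (hav : ∀ (c l T D : ℝ), 0 < c → 0 < l → l ≤ η →
      1 ≤ D → 0 < T → T * D ≤ η * c → c * l ≤ η * T → ∀ χ : ℂ → ℝ≥0∞, Mol l χ →
      ∀ s : ℝ, 1 / 2 ≤ s → s ≤ 1 → ∀ X : ℂ → ℝ≥0∞, Measurable X →
      ∫⁻ w in {w : ℂ | 1 / 2 ≤ ‖w‖ ∧ ‖w‖ ≤ D},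
          (∫⁻ y, χ y * (ENNReal.ofReal ((c / (2 * Real.pi * ‖w + y‖ ^ 2)) ^ 2) *
            X ((c : ℂ) / conj (w + y)))) ^ s ≤
        ENNReal.ofReal (1 + ε) * ∫⁻ w, (ENNReal.ofReal ((c / (2 * Real.pi * ‖w‖ ^ 2)) ^ 2) *
          av (T + 8 * c * l) X ((c : ℂ) / conj w)) ^ s)
    (B l T D : ℝ) (ψ : ℂ → ℝ) (χ : ℂ → ℝ≥0∞) (g : ℂ → ℂ) (hl0 : 0 < l) (hl : l ≤ η) (hl2 : l ≤ 1 / 8)
    (hD : 1 ≤ D) (hT : 0 < T) (hTD : T * D ≤ η * n) (hnl : (n : ℝ) * l ≤ η / 2 * T)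
    (hψ : Cut B 1 D ψ) (hχ : Mol l χ) (hg : Nice g) :
    NN χ (qq m) (fun w => kk n ψ w * hat g (iv n w)) ≤
      ENNReal.ofReal ((1 + ε) * AA m n) * (∫⁻ z, ‖g z‖ₑ ^ (qq m)) ^ (1 / qq m) := by
  obtain ⟨q1, q2, -⟩ := qq_facts m hm
  have hn' : (1 : ℝ) ≤ n := by exact_mod_cast hn
  have hpi := Real.pi_pos
  have hX : Measurable fun v => ‖hat g v‖ₑ ^ 2 := (meas_hat g hg.1).enorm.pow_const 2
  have key := hav (2 * n) l T (2 * D) (by positivity) hl0 hl (by linarith) hT (by linarith) (by linarith)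
    χ hχ (qq m / 2) (by linarith) (by linarith) (fun v => ‖hat g v‖ₑ ^ 2) hX
  have key2 := h1 m n hm hn (T + 8 * (2 * n) * l) (by positivity) g hg
  have e1 : ∀ w : ℂ, (2 * (n : ℝ)) / (2 * Real.pi * ‖w‖ ^ 2) = ker n w := by
    intro w
    unfold ker
    rw [mul_assoc 2 Real.pi, mul_div_mul_left _ _ (by norm_num : (2 : ℝ) ≠ 0)]
  have e2 : ∀ w : ℂ, ((2 * (n : ℝ) : ℝ) : ℂ) / conj w = iv n w := by
    intro w
    unfold iv
    push_cast
    rfl
  simp only [e1, e2] at key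
  have hS : MeasurableSet {w : ℂ | 1 / 2 ≤ ‖w‖ ∧ ‖w‖ ≤ 2 * D} :=
    (measurableSet_le measurable_const measurable_norm).inter (measurableSet_le measurable_norm measurable_const)
  have main : ∫⁻ w, (∫⁻ y, χ y * ‖kk n ψ (w + y) * hat g (iv n (w + y))‖ₑ ^ 2) ^ (qq m / 2) ≤
      ∫⁻ w in {w : ℂ | 1 / 2 ≤ ‖w‖ ∧ ‖w‖ ≤ 2 * D},
        (∫⁻ y, χ y * (ENNReal.ofReal (ker n (w + y) ^ 2) * ‖hat g (iv n (w + y))‖ₑ ^ 2)) ^ (qq m / 2) := by
    rw [← lintegral_indicator hS]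
    refine lintegral_mono fun w => ?_
    by_cases hw : w ∈ {w : ℂ | 1 / 2 ≤ ‖w‖ ∧ ‖w‖ ≤ 2 * D}
    · rw [Set.indicator_of_mem hw]
      refine ENNReal.rpow_le_rpow (lintegral_mono fun y => ?_) (by linarith)
      have h3 : ‖kk n ψ (w + y)‖ₑ ≤ ENNReal.ofReal (ker n (w + y)) := by
        rw [← ofReal_norm]
        exact ENNReal.ofReal_le_ofReal (norm_kk_le n hn ψ hψ.2.1 _)
      rw [enorm_mul, mul_pow, ENNReal.ofReal_pow (ker_nonneg _ _)]
      gcongr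
    · rw [Set.indicator_of_notMem hw]
      have h3 : ∀ y, χ y * ‖kk n ψ (w + y) * hat g (iv n (w + y))‖ₑ ^ 2 = 0 := by
        intro y
        by_cases hy : l < ‖y‖
        · rw [hχ.2.1 y hy, zero_mul]
        · have h4 : ψ (w + y) = 0 := by
            by_contra h5
            obtain ⟨h6, h7⟩ := hψ.2.2.1 _ h5
            apply hw
            have h8 : ‖w + y‖ ≤ ‖w‖ + ‖y‖ := norm_add_le _ _
            have h9 : ‖w‖ ≤ ‖w + y‖ + ‖y‖ := by
              calc ‖w‖ = ‖(w + y) - y‖ := by rw [add_sub_cancel_right]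
                _ ≤ _ := norm_sub_le _ _
            exact ⟨by linarith, by linarith⟩
          rw [kk, h4]
          simp
      simp only [h3, lintegral_zero]
      rw [ENNReal.zero_rpow_of_pos (by linarith)]
  have tot : ∫⁻ w, (∫⁻ y, χ y * ‖kk n ψ (w + y) * hat g (iv n (w + y))‖ₑ ^ 2) ^ (qq m / 2) ≤
      ENNReal.ofReal (1 + ε) * (ENNReal.ofReal (AA m n ^ (qq m)) * ∫⁻ x, ‖g x‖ₑ ^ (qq m)) :=
    main.trans (key.trans (by gcongr))
  unfold NN
  have hA := AA_nonneg m n hm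
  calc (∫⁻ w, (∫⁻ y, χ y * ‖kk n ψ (w + y) * hat g (iv n (w + y))‖ₑ ^ 2) ^ (qq m / 2)) ^ (1 / qq m)
      ≤ (ENNReal.ofReal (1 + ε) * (ENNReal.ofReal (AA m n ^ (qq m)) * ∫⁻ x, ‖g x‖ₑ ^ (qq m))) ^ (1 / qq m) :=
        ENNReal.rpow_le_rpow tot (by positivity)
    _ = ENNReal.ofReal (1 + ε) ^ (1 / qq m) * (ENNReal.ofReal (AA m n) *
          (∫⁻ x, ‖g x‖ₑ ^ (qq m)) ^ (1 / qq m)) := by
        have hpow : ENNReal.ofReal (AA m n ^ (qq m)) ^ (1 / qq m) = ENNReal.ofReal (AA m n) := by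
          rw [ENNReal.ofReal_rpow_of_nonneg (by positivity) (by positivity), ← Real.rpow_mul hA,
            mul_one_div_cancel (by linarith), Real.rpow_one]
        rw [ENNReal.mul_rpow_of_nonneg _ _ (by positivity), ENNReal.mul_rpow_of_nonneg _ _ (by positivity),
          hpow]
    _ ≤ ENNReal.ofReal (1 + ε) ^ (1 : ℝ) * (ENNReal.ofReal (AA m n) *
          (∫⁻ x, ‖g x‖ₑ ^ (qq m)) ^ (1 / qq m)) := by
        gcongr
        · rw [← ENNReal.ofReal_one]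
          exact ENNReal.ofReal_le_ofReal (by linarith)
        · rw [div_le_one (by linarith)]
          exact q1.le
    _ = _ := by
        rw [ENNReal.rpow_one, ← mul_assoc, ← ENNReal.ofReal_mul (by linarith)]

/-! ### The error -/

theorem cut_B (B s : ℝ) (ψ : ℂ → ℝ) (hψ : Cut B 1 s ψ) : 0 ≤ B :=
  le_trans (by positivity) (hψ.2.2.2 0).1

theorem cut_lip (B s : ℝ) (ψ : ℂ → ℝ) (hψ : Cut B 1 s ψ) (x y : ℂ) : |ψ x - ψ y| ≤ B * ‖x - y‖ := by
  have hd : ∀ z : ℂ, DifferentiableAt ℝ ψ z := fun z =>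
    (hψ.1.differentiable (by norm_num)).differentiableAt
  have hb : ∀ z : ℂ, ‖fderiv ℝ ψ z‖ ≤ B := by
    intro z
    rcases lt_or_ge ‖z‖ 1 with hz | hz
    · have h1 : ψ =ᶠ[𝓝 z] fun _ => (0 : ℝ) := by
        have h2 : Metric.ball (0 : ℂ) 1 ∈ 𝓝 z := Metric.isOpen_ball.mem_nhds (by
          rw [Metric.mem_ball, dist_zero_right]
          exact hz)
        filter_upwards [h2] with v hv
        rw [Metric.mem_ball, dist_zero_right] at hv
        by_contra h3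
        have := (hψ.2.2.1 v h3).1
        linarith
      rw [h1.fderiv_eq, fderiv_const_apply, norm_zero]
      exact cut_B B s ψ hψ
    · calc ‖fderiv ℝ ψ z‖ ≤ ‖fderiv ℝ ψ z‖ * ‖z‖ := le_mul_of_one_le_right (norm_nonneg _) hz
        _ ≤ B := (hψ.2.2.2 z).1
  have := Convex.norm_image_sub_le_of_norm_fderiv_le (𝕜 := ℝ) (f := ψ) (s := Set.univ)
    (fun z _ => hd z) (fun z _ => hb z) convex_univ (Set.mem_univ y) (Set.mem_univ x)
  rwa [Real.norm_eq_abs] at this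

/-- the integrand of the error -/
theorem err_pt (h3 : S_LIN) (n : ℕ) (hn : 1 ≤ n) (R B D : ℝ) (hR : 0 < R) (hR2 : R ≤ 1 / 8)
    (hnR : (n : ℝ) * R ^ 2 ≤ 1 / 4) (ψ : ℂ → ℝ) (hψ : Cut B 1 D ψ) (w z : ℂ) (hw : 7 / 8 ≤ ‖w‖)
    (hz : ‖z‖ ≤ R) :
    ‖kk n ψ (w - z) - kk n ψ w * ex z (iv n w)‖ ≤ (200 + B) * ker n w * (R + n * R ^ 2) := by
  have hB := cut_B B D ψ hψ
  have hn' : (1 : ℝ) ≤ n := by exact_mod_cast hn
  have hw0 : w ≠ 0 := by
    intro h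
    rw [h, norm_zero] at hw
    linarith
  have hwp : 0 < ‖w‖ := norm_pos_iff.2 hw0
  have hz2 : ‖z‖ ^ 2 ≤ R ^ 2 := by
    have := norm_nonneg z
    gcongr
  have l1 := h3 n hn w z hw0 (by linarith) (by nlinarith)
  have hk := ker_nonneg n w
  have l2 : ‖z‖ / ‖w‖ ≤ 8 / 7 * R := by
    rw [div_le_iff₀ hwp]
    nlinarith
  have l0 : 0 ≤ ‖z‖ / ‖w‖ := by positivity
  have l3 : (‖z‖ / ‖w‖) ^ 2 ≤ 2 * R ^ 2 := by
    calc (‖z‖ / ‖w‖) ^ 2 ≤ (8 / 7 * R) ^ 2 := by gcongr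
      _ ≤ 2 * R ^ 2 := by nlinarith [sq_nonneg R]
  have l4 : 100 * ker n w * (‖z‖ / ‖w‖ + n * (‖z‖ / ‖w‖) ^ 2) ≤ 200 * ker n w * (R + n * R ^ 2) := by
    have l5 : ‖z‖ / ‖w‖ + n * (‖z‖ / ‖w‖) ^ 2 ≤ 2 * (R + n * R ^ 2) := by
      have : (n : ℝ) * (‖z‖ / ‖w‖) ^ 2 ≤ n * (2 * R ^ 2) := by gcongr
      nlinarith
    calc 100 * ker n w * (‖z‖ / ‖w‖ + n * (‖z‖ / ‖w‖) ^ 2) ≤ 100 * ker n w * (2 * (R + n * R ^ 2)) := by
          gcongr
      _ = _ := by ring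
  have e : kk n ψ (w - z) - kk n ψ w * ex z (iv n w) =
      (Kn n (w - z) - Kn n w * ex z (iv n w)) * (ψ (w - z) : ℂ) +
        Kn n w * ex z (iv n w) * ((ψ (w - z) - ψ w : ℝ) : ℂ) := by
    unfold kk
    push_cast
    ring
  rw [e]
  refine (norm_add_le _ _).trans ?_
  have t1 : ‖(Kn n (w - z) - Kn n w * ex z (iv n w)) * (ψ (w - z) : ℂ)‖ ≤
      200 * ker n w * (R + n * R ^ 2) := by
    rw [norm_mul, Complex.norm_real, Real.norm_of_nonneg (hψ.2.1 _).1]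
    exact (mul_le_of_le_one_right (norm_nonneg _) (hψ.2.1 _).2).trans (l1.trans l4)
  have t2 : ‖Kn n w * ex z (iv n w) * ((ψ (w - z) - ψ w : ℝ) : ℂ)‖ ≤ ker n w * (B * R) := by
    rw [norm_mul, norm_mul, norm_ex, mul_one, norm_Kn n hn, Complex.norm_real, Real.norm_eq_abs]
    have := cut_lip B D ψ hψ (w - z) w
    have h4 : ‖w - z - w‖ = ‖z‖ := by
      rw [show w - z - w = -z by ring, norm_neg]
    rw [h4] at this
    have h5 : B * ‖z‖ ≤ B * R := by gcongr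
    gcongr
    linarith
  have t3 : ker n w * (B * R) ≤ B * ker n w * (R + n * R ^ 2) := by
    have : 0 ≤ B * ker n w * (n * R ^ 2) := by positivity
    nlinarith
  linarith

theorem err_zero (n : ℕ) (R B D : ℝ) (hR2 : R ≤ 1 / 8)
    (ψ : ℂ → ℝ) (hψ : Cut B 1 D ψ) (w z : ℂ) (hw : ‖w‖ < 7 / 8) (hz : ‖z‖ ≤ R) :
    kk n ψ (w - z) - kk n ψ w * ex z (iv n w) = 0 := by
  have h1 : ∀ v : ℂ, ‖v‖ < 1 → ψ v = 0 := by
    intro v hv
    by_contra h
    have := (hψ.2.2.1 v h).1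
    linarith
  have h2 : ψ (w - z) = 0 := by
    apply h1
    have := norm_sub_le w z
    linarith
  have h3 : ψ w = 0 := h1 w (by linarith)
  simp [kk, h2, h3]

/-- the error as an integral -/
theorem err_int (n : ℕ) (hn : 1 ≤ n) (B D : ℝ) (ψ : ℂ → ℝ) (hψ : Cut B 1 D ψ) (g : ℂ → ℂ) (hg : Nice g)
    (w : ℂ) : So n ψ g w - kk n ψ w * hat g (iv n w) =
      ∫ z, (kk n ψ (w - z) - kk n ψ w * ex z (iv n w)) * g z := by
  have hgi := nice_int g hg
  have hn' : (0 : ℝ) ≤ n := Nat.cast_nonneg n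
  have hpi := Real.pi_pos
  have hkb : ∀ v, ‖kk n ψ v‖ ≤ n / Real.pi := by
    intro v
    by_cases hv : ψ v = 0
    · rw [kk, hv]
      simp only [Complex.ofReal_zero, mul_zero, norm_zero]
      positivity
    · have h1 := (hψ.2.2.1 v hv).1
      refine (norm_kk_le n hn ψ hψ.2.1 v).trans ?_
      unfold ker
      have h2 : (1 : ℝ) ≤ ‖v‖ ^ 2 := one_le_pow₀ h1
      gcongr
      nlinarith
  have hkm := meas_kk n ψ hψ.1.continuous
  have i1 : Integrable fun z => kk n ψ (w - z) * g z := by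
    refine hgi.bdd_mul (c := n / Real.pi) (hkm.comp (measurable_const.sub measurable_id)).aestronglyMeasurable ?_
    exact Eventually.of_forall fun z => hkb _
  have i2 : Integrable fun z => kk n ψ w * (g z * ex z (iv n w)) := by
    have h1 : Integrable fun z => ex z (iv n w) * g z := by
      refine hgi.bdd_mul (c := 1) (meas_ex.comp (measurable_id.prodMk measurable_const)).aestronglyMeasurable ?_
      exact Eventually.of_forall fun z => (norm_ex _ _).le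
    have h2 : (fun z => kk n ψ w * (g z * ex z (iv n w))) = fun z => kk n ψ w * (ex z (iv n w) * g z) := by
      funext z
      ring
    rw [h2]
    exact h1.const_mul _
  unfold So hat
  rw [← integral_const_mul, ← integral_sub i1 i2]
  refine integral_congr_ae (Eventually.of_forall fun z => ?_)
  simp only
  ring

/-- the size of the error -/
theorem err_size (h3 : S_LIN) (n : ℕ) (hn : 1 ≤ n) (R B D : ℝ) (hR : 0 < R) (hR2 : R ≤ 1 / 8)
    (hnR : (n : ℝ) * R ^ 2 ≤ 1 / 4) (ψ : ℂ → ℝ) (hψ : Cut B 1 D ψ) (g : ℂ → ℂ) (hg : Nice g)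
    (hgR : ∀ z, g z ≠ 0 → ‖z‖ ≤ R) (w y : ℂ) (hy : ‖y‖ ≤ 1 / 8) :
    ‖So n ψ g (w + y) - kk n ψ (w + y) * hat g (iv n (w + y))‖ₑ ≤
      ENNReal.ofReal (6 * (200 + B) * (n / Real.pi) * (R + n * R ^ 2)) *
        (∫⁻ z, ‖g z‖ₑ) * ENNReal.ofReal ((1 + ‖w‖) ^ (-2 : ℝ)) := by
  have hB := cut_B B D ψ hψ
  have hpi := Real.pi_pos
  rw [err_int n hn B D ψ hψ g hg]
  rcases lt_or_ge ‖w + y‖ (7 / 8) with hw | hw
  · have : ∀ z, (kk n ψ (w + y - z) - kk n ψ (w + y) * ex z (iv n (w + y))) * g z = 0 := by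
      intro z
      by_cases hz : g z = 0
      · rw [hz, mul_zero]
      · rw [err_zero n R B D hR2 ψ hψ (w + y) z hw (hgR z hz), zero_mul]
    simp only [this, integral_zero, enorm_zero]
    exact zero_le
  · refine (enorm_integral_le_lintegral_enorm _).trans ?_
    have hker : ker n (w + y) ≤ 6 * (n / Real.pi) * (1 + ‖w‖) ^ (-2 : ℝ) := by
      have hw' : 0 < 1 + ‖w‖ := by positivity
      have h1 : ‖w‖ ≤ ‖w + y‖ + ‖y‖ := by
        calc ‖w‖ = ‖(w + y) - y‖ := by rw [add_sub_cancel_right]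
          _ ≤ _ := norm_sub_le _ _
      have h2 : 1 + ‖w‖ ≤ 16 / 7 * ‖w + y‖ := by linarith
      have h3 : (1 + ‖w‖) ^ 2 ≤ 6 * ‖w + y‖ ^ 2 := by
        calc (1 + ‖w‖) ^ 2 ≤ (16 / 7 * ‖w + y‖) ^ 2 := by gcongr
          _ ≤ _ := by nlinarith [sq_nonneg ‖w + y‖]
      rw [Real.rpow_neg hw'.le, Real.rpow_two]
      unfold ker
      have h4 : 0 < ‖w + y‖ ^ 2 := by
        have : 0 < ‖w + y‖ := by linarith
        positivity
      rw [div_le_iff₀ (by positivity)]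
      have h5 : 6 * ((n : ℝ) / Real.pi) * ((1 + ‖w‖) ^ 2)⁻¹ * (Real.pi * ‖w + y‖ ^ 2) =
          n * ((6 * ‖w + y‖ ^ 2) / (1 + ‖w‖) ^ 2) := by
        field_simp
      rw [h5]
      have h6 : 1 ≤ (6 * ‖w + y‖ ^ 2) / (1 + ‖w‖) ^ 2 := by
        rw [one_le_div (by positivity)]
        exact h3
      have hn0 : (0 : ℝ) ≤ n := Nat.cast_nonneg n
      nlinarith
    have hpt : ∀ z, ‖(kk n ψ (w + y - z) - kk n ψ (w + y) * ex z (iv n (w + y))) * g z‖ₑ ≤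
        ENNReal.ofReal (6 * (200 + B) * (n / Real.pi) * (R + n * R ^ 2)) *
          ENNReal.ofReal ((1 + ‖w‖) ^ (-2 : ℝ)) * ‖g z‖ₑ := by
      intro z
      rw [enorm_mul]
      by_cases hz : g z = 0
      · rw [hz]
        simp
      · have h1 := err_pt h3 n hn R B D hR hR2 hnR ψ hψ (w + y) z hw (hgR z hz)
        gcongr
        rw [← ofReal_norm, ← ENNReal.ofReal_mul (by positivity)]
        apply ENNReal.ofReal_le_ofReal
        refine h1.trans ?_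
        calc (200 + B) * ker n (w + y) * (R + n * R ^ 2)
            ≤ (200 + B) * (6 * (n / Real.pi) * (1 + ‖w‖) ^ (-2 : ℝ)) * (R + n * R ^ 2) := by gcongr
          _ = _ := by ring
    refine (lintegral_mono hpt).trans ?_
    rw [lintegral_const_mul _ hg.1.enorm]
    apply le_of_eq
    ring

/-- the norm of the error -/
theorem he (h3 : S_LIN) (m n : ℕ) (hm : 2 ≤ m) (hn : 1 ≤ n) (R l B D : ℝ) (hR : 0 < R) (hR2 : R ≤ 1 / 8)
    (hl : l ≤ 1 / 8)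
    (hnR : (n : ℝ) * R ^ 2 ≤ 1 / 4) (ψ : ℂ → ℝ) (hψ : Cut B 1 D ψ) (χ : ℂ → ℝ≥0∞) (hχ : Mol l χ)
    (g : ℂ → ℂ) (hg : Nice g) (hgR : ∀ z, g z ≠ 0 → ‖z‖ ≤ R) :
    NN χ (qq m) (fun w => So n ψ g w - kk n ψ w * hat g (iv n w)) ≤
      ENNReal.ofReal (6 * (200 + B) * (n / Real.pi) * (R + n * R ^ 2)) * (∫⁻ z, ‖g z‖ₑ) *
        (∫⁻ w : ℂ, ENNReal.ofReal ((1 + ‖w‖) ^ (-2 : ℝ)) ^ (qq m)) ^ (1 / qq m) := by
  obtain ⟨q1, q2, -⟩ := qq_facts m hm
  set M : ℝ≥0∞ := ENNReal.ofReal (6 * (200 + B) * (n / Real.pi) * (R + n * R ^ 2)) * (∫⁻ z, ‖g z‖ₑ)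
    with hM
  unfold NN
  have hpt : ∀ w, (∫⁻ y, χ y * ‖So n ψ g (w + y) - kk n ψ (w + y) * hat g (iv n (w + y))‖ₑ ^ 2) ^
      (qq m / 2) ≤ M ^ (qq m) * ENNReal.ofReal ((1 + ‖w‖) ^ (-2 : ℝ)) ^ (qq m) := by
    intro w
    have h1 : ∫⁻ y, χ y * ‖So n ψ g (w + y) - kk n ψ (w + y) * hat g (iv n (w + y))‖ₑ ^ 2 ≤
        (M * ENNReal.ofReal ((1 + ‖w‖) ^ (-2 : ℝ))) ^ 2 := by
      calc ∫⁻ y, χ y * ‖So n ψ g (w + y) - kk n ψ (w + y) * hat g (iv n (w + y))‖ₑ ^ 2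
          ≤ ∫⁻ y, χ y * (M * ENNReal.ofReal ((1 + ‖w‖) ^ (-2 : ℝ))) ^ 2 := by
            refine lintegral_mono fun y => ?_
            rcases lt_or_ge l ‖y‖ with hy | hy
            · rw [hχ.2.1 y hy, zero_mul, zero_mul]
            · have := err_size h3 n hn R B D hR hR2 hnR ψ hψ g hg hgR w y (by linarith)
              gcongr
        _ = (M * ENNReal.ofReal ((1 + ‖w‖) ^ (-2 : ℝ))) ^ 2 := by
            rw [lintegral_mul_const _ hχ.1, hχ.2.2, one_mul]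
    refine (ENNReal.rpow_le_rpow h1 (by linarith)).trans (le_of_eq ?_)
    rw [← ENNReal.rpow_two, ← ENNReal.rpow_mul, mul_div_cancel₀ _ (by norm_num : (2 : ℝ) ≠ 0),
      ENNReal.mul_rpow_of_nonneg _ _ (by linarith)]
  refine (ENNReal.rpow_le_rpow (lintegral_mono hpt) (by positivity)).trans ?_
  have hme : Measurable fun w : ℂ => ENNReal.ofReal ((1 + ‖w‖) ^ (-2 : ℝ)) ^ (qq m) := by fun_prop
  rw [lintegral_const_mul _ hme, ENNReal.mul_rpow_of_nonneg _ _ (by positivity), ← ENNReal.rpow_mul,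
    mul_one_div_cancel (by linarith), ENNReal.rpow_one]

theorem Iq_fin (m : ℕ) (hm : 2 ≤ m) :
    ∫⁻ w : ℂ, ENNReal.ofReal ((1 + ‖w‖) ^ (-2 : ℝ)) ^ (qq m) < ∞ := by
  obtain ⟨q1, q2, -⟩ := qq_facts m hm
  have h1 : Integrable (fun w : ℂ => (1 + ‖w‖) ^ (-(2 * qq m))) := by
    apply integrable_one_add_norm
    rw [Complex.finrank_real_complex]
    push_cast
    linarith
  have h2 : ∀ w : ℂ, ENNReal.ofReal ((1 + ‖w‖) ^ (-2 : ℝ)) ^ (qq m) =
      ENNReal.ofReal ((1 + ‖w‖) ^ (-(2 * qq m))) := by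
    intro w
    rw [ENNReal.ofReal_rpow_of_nonneg (by positivity) (by linarith), ← Real.rpow_mul (by positivity)]
    congr 2
    ring
  simp only [h2]
  exact h1.lintegral_lt_top

/-- Hoelder -/
theorem hoe (m : ℕ) (hm : 2 ≤ m) (R : ℝ) (hR : 0 < R) (g : ℂ → ℂ) (hg : Nice g)
    (hgR : ∀ z, g z ≠ 0 → ‖z‖ ≤ R) :
    ∫⁻ z, ‖g z‖ₑ ≤ (∫⁻ z, ‖g z‖ₑ ^ (qq m)) ^ (1 / qq m) *
      ENNReal.ofReal (Real.pi ^ (1 / (2 * (m : ℝ))) * R ^ (1 / (m : ℝ))) := by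
  obtain ⟨q1, q2, hq⟩ := qq_facts m hm
  have hpi := Real.pi_pos
  have hm' : (2 : ℝ) ≤ m := by exact_mod_cast hm
  have h1 := ENNReal.lintegral_mul_le_Lp_mul_Lq volume hq hg.1.enorm.aemeasurable
    (measurable_const.indicator (Metric.isClosed_closedBall (x := (0 : ℂ)) (ε := R)).measurableSet
      : Measurable ((Metric.closedBall (0 : ℂ) R).indicator fun _ => (1 : ℝ≥0∞))).aemeasurable
  have e1 : ∫⁻ a, ((fun z => ‖g z‖ₑ) * (Metric.closedBall (0 : ℂ) R).indicator fun _ => (1 : ℝ≥0∞)) a =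
      ∫⁻ z, ‖g z‖ₑ := by
    refine lintegral_congr fun z => ?_
    rw [Pi.mul_apply]
    by_cases hz : g z = 0
    · rw [hz]
      simp
    · rw [Set.indicator_of_mem, mul_one]
      rw [Metric.mem_closedBall, dist_zero_right]
      exact hgR z hz
  have e2 : ∫⁻ a, ((Metric.closedBall (0 : ℂ) R).indicator (fun _ => (1 : ℝ≥0∞)) a) ^ (2 * (m : ℝ)) =
      ENNReal.ofReal (Real.pi * R ^ 2) := by
    have : ∀ a, ((Metric.closedBall (0 : ℂ) R).indicator (fun _ => (1 : ℝ≥0∞)) a) ^ (2 * (m : ℝ)) =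
        (Metric.closedBall (0 : ℂ) R).indicator (fun _ => (1 : ℝ≥0∞)) a := by
      intro a
      by_cases ha : a ∈ Metric.closedBall (0 : ℂ) R
      · rw [Set.indicator_of_mem ha, ENNReal.one_rpow]
      · rw [Set.indicator_of_notMem ha, ENNReal.zero_rpow_of_pos (by positivity)]
    simp only [this]
    rw [lintegral_indicator (Metric.isClosed_closedBall).measurableSet, setLIntegral_one,
      Complex.volume_closedBall, mul_comm, ENNReal.ofReal_mul hpi.le, ENNReal.ofReal_pow hR.le]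
    congr 1
    rw [← ENNReal.ofReal_coe_nnreal, NNReal.coe_real_pi]
  have e3 : ENNReal.ofReal (Real.pi * R ^ 2) ^ (1 / (2 * (m : ℝ))) =
      ENNReal.ofReal (Real.pi ^ (1 / (2 * (m : ℝ))) * R ^ (1 / (m : ℝ))) := by
    rw [ENNReal.ofReal_rpow_of_nonneg (by positivity) (by positivity),
      Real.mul_rpow hpi.le (by positivity), ← Real.rpow_natCast R 2, ← Real.rpow_mul hR.le]
    congr 3
    push_cast
    field_simp
  rw [e1, e2, e3] at h1
  exact h1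

/-! ### The theorem -/

/-- the constant -/
noncomputable def CC (m : ℕ) (B : ℝ) : ℝ :=
  6 * (200 + |B|) / Real.pi *
    ((∫⁻ w : ℂ, ENNReal.ofReal ((1 + ‖w‖) ^ (-2 : ℝ)) ^ (qq m)) ^ (1 / qq m)).toReal *
    Real.pi ^ (1 / (2 * (m : ℝ))) + 1

theorem CC_pos (m : ℕ) (B : ℝ) : 0 < CC m B := by
  unfold CC
  have := Real.pi_pos
  positivity

/-- the case `a = 0` -/
theorem cell0 (h1 : S_MZC) (h3 : S_LIN) (m n : ℕ) (hm : 2 ≤ m) (hn : 1 ≤ n) (ε η : ℝ) (hε : 0 < ε)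
    (hav : ∀ (c l T D : ℝ), 0 < c → 0 < l → l ≤ η →
      1 ≤ D → 0 < T → T * D ≤ η * c → c * l ≤ η * T → ∀ χ : ℂ → ℝ≥0∞, Mol l χ →
      ∀ s : ℝ, 1 / 2 ≤ s → s ≤ 1 → ∀ X : ℂ → ℝ≥0∞, Measurable X →
      ∫⁻ w in {w : ℂ | 1 / 2 ≤ ‖w‖ ∧ ‖w‖ ≤ D},
          (∫⁻ y, χ y * (ENNReal.ofReal ((c / (2 * Real.pi * ‖w + y‖ ^ 2)) ^ 2) *
            X ((c : ℂ) / conj (w + y)))) ^ s ≤
        ENNReal.ofReal (1 + ε) * ∫⁻ w, (ENNReal.ofReal ((c / (2 * Real.pi * ‖w‖ ^ 2)) ^ 2) *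
          av (T + 8 * c * l) X ((c : ℂ) / conj w)) ^ s)
    (B R l T D : ℝ) (ψ : ℂ → ℝ) (χ : ℂ → ℝ≥0∞) (g : ℂ → ℂ) (hR : 0 < R) (hR2 : R ≤ 1 / 8)
    (hnR : (n : ℝ) * R ^ 2 ≤ 1 / 4) (hl0 : 0 < l) (hl' : l ≤ η) (hl2 : l ≤ 1 / 8)
    (hD : 1 ≤ D) (hT : 0 < T) (hTD : T * D ≤ η * n) (hnl : (n : ℝ) * l ≤ η / 2 * T)
    (hψ : Cut B 1 D ψ) (hχ : Mol l χ) (hg : Nice g) (hgR : ∀ z, g z ≠ 0 → ‖z‖ ≤ R) :
    NN χ (qq m) (So n ψ g) ≤
      ENNReal.ofReal ((1 + ε) * AA m n + CC m B * n * (R + n * R ^ 2) * R ^ (1 / (m : ℝ))) *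
        (∫⁻ z, ‖g z‖ₑ ^ (qq m)) ^ (1 / qq m) := by
  obtain ⟨q1, q2, -⟩ := qq_facts m hm
  have hpi := Real.pi_pos
  have hB := cut_B B D ψ hψ
  have hc := hψ.1.continuous
  have hA := AA_nonneg m n hm
  have hn0 : (0 : ℝ) ≤ n := Nat.cast_nonneg n
  have m1 : Measurable fun w => kk n ψ w * hat g (iv n w) :=
    (meas_kk n ψ hc).mul ((meas_hat g hg.1).comp (meas_iv n))
  have m2 : Measurable (So n ψ g) := meas_So n ψ hc g hg.1
  have e0 : So n ψ g = fun w => kk n ψ w * hat g (iv n w) + (So n ψ g w - kk n ψ w * hat g (iv n w)) := by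
    funext w
    ring
  have s1 := hl h1 m n hm hn ε η hε hav B l T D ψ χ g hl0 hl' hl2 hD hT hTD hnl hψ hχ hg
  have s2 := he h3 m n hm hn R l B D hR hR2 hl2 hnR ψ hψ χ hχ g hg hgR
  have s3 := hoe m hm R hR g hg hgR
  have s0 := mink χ hχ.1 (qq m) q1.le (fun w => kk n ψ w * hat g (iv n w))
    (fun w => So n ψ g w - kk n ψ w * hat g (iv n w)) m1 (m2.sub m1)
  rw [← e0] at s0
  set G : ℝ≥0∞ := (∫⁻ z, ‖g z‖ₑ ^ (qq m)) ^ (1 / qq m) with hG
  set I : ℝ≥0∞ := (∫⁻ w : ℂ, ENNReal.ofReal ((1 + ‖w‖) ^ (-2 : ℝ)) ^ (qq m)) ^ (1 / qq m) with hI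
  have hIfin : I ≠ ∞ := (ENNReal.rpow_lt_top_of_nonneg (by positivity) (Iq_fin m hm).ne).ne
  have s4 : NN χ (qq m) (fun w => So n ψ g w - kk n ψ w * hat g (iv n w)) ≤
      ENNReal.ofReal (CC m B * n * (R + n * R ^ 2) * R ^ (1 / (m : ℝ))) * G := by
    refine s2.trans ?_
    obtain ⟨K, hK⟩ : ∃ K : ℝ, K = 6 * (200 + B) * (n / Real.pi) * (R + n * R ^ 2) := ⟨_, rfl⟩
    obtain ⟨P, hP⟩ : ∃ P : ℝ, P = Real.pi ^ (1 / (2 * (m : ℝ))) * R ^ (1 / (m : ℝ)) := ⟨_, rfl⟩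
    have hK0 : 0 ≤ K := by
      rw [hK]
      positivity
    have hP0 : 0 ≤ P := by
      rw [hP]
      positivity
    rw [← hK]
    rw [← hP] at s3
    calc ENNReal.ofReal K * (∫⁻ z, ‖g z‖ₑ) * I
        ≤ ENNReal.ofReal K * (G * ENNReal.ofReal P) * ENNReal.ofReal I.toReal := by
          rw [ENNReal.ofReal_toReal hIfin]
          gcongr
      _ = ENNReal.ofReal (K * P * I.toReal) * G := by
          rw [ENNReal.ofReal_mul (mul_nonneg hK0 hP0), ENNReal.ofReal_mul hK0]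
          ring
      _ ≤ _ := by
          refine mul_le_mul' (ENNReal.ofReal_le_ofReal ?_) le_rfl
          rw [hK, hP]
          unfold CC
          rw [← hI, abs_of_nonneg hB]
          have h5 : 0 ≤ (n : ℝ) * (R + n * R ^ 2) * R ^ (1 / (m : ℝ)) := by positivity
          have h6 : 6 * (200 + B) * (n / Real.pi) * (R + n * R ^ 2) *
            (Real.pi ^ (1 / (2 * (m : ℝ))) * R ^ (1 / (m : ℝ))) * I.toReal =
            (6 * (200 + B) / Real.pi * I.toReal * Real.pi ^ (1 / (2 * (m : ℝ)))) *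
              ((n : ℝ) * (R + n * R ^ 2) * R ^ (1 / (m : ℝ))) := by
            ring
          rw [h6]
          nlinarith
  calc NN χ (qq m) (So n ψ g) ≤ _ := s0
    _ ≤ ENNReal.ofReal ((1 + ε) * AA m n) * G +
        ENNReal.ofReal (CC m B * n * (R + n * R ^ 2) * R ^ (1 / (m : ℝ))) * G := add_le_add s1 s4
    _ = _ := by
      have := CC_pos m B
      rw [← add_mul, ← ENNReal.ofReal_add (by positivity) (by positivity)]

theorem t (h1 : S_MZC) (h2 : S_AVG) (h3 : S_LIN) : S_CELL := by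
  intro m B hm
  refine ⟨CC m B, CC_pos m B, fun ε hε => ?_⟩
  obtain ⟨η, hη, hav⟩ := h2 ε hε
  refine ⟨min (η / 2) (1 / 8), by positivity, ?_⟩
  intro n R l T D ψ χ a g hn hR hR2 hnR hl0 hl' hD hT hTD hnl hψ hχ hg hga
  have hη1 : min (η / 2) (1 / 8) ≤ η / 2 := min_le_left _ _
  have hη2 : min (η / 2) (1 / 8) ≤ 1 / 8 := min_le_right _ _
  have hn0 : (0 : ℝ) ≤ n := Nat.cast_nonneg n
  -- translation
  have hg' : Nice fun z => g (z + a) := by
    obtain ⟨g1, ⟨M, g2⟩, R', g3⟩ := hg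
    refine ⟨g1.comp (measurable_id.add measurable_const), ⟨M, fun x => g2 _⟩, R' + ‖a‖, fun x hx => ?_⟩
    apply g3
    have : ‖x‖ ≤ ‖x + a‖ + ‖a‖ := by
      calc ‖x‖ = ‖(x + a) - a‖ := by rw [add_sub_cancel_right]
        _ ≤ _ := norm_sub_le _ _
    linarith
  have hgR : ∀ z, (fun z => g (z + a)) z ≠ 0 → ‖z‖ ≤ R := by
    intro z hz
    have := hga (z + a) hz
    rwa [add_sub_cancel_right] at this
  have key := cell0 h1 h3 m n hm hn ε η hε hav B R l T D ψ χ (fun z => g (z + a)) hR hR2 hnR hl0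
    (by linarith) (by linarith) hD hT (by nlinarith) (by nlinarith) hψ hχ hg' hgR
  have e1 : ∫⁻ z, ‖g (z + a)‖ₑ ^ (qq m) = ∫⁻ z, ‖g z‖ₑ ^ (qq m) :=
    lintegral_add_right_eq_self (fun z => ‖g z‖ₑ ^ (qq m)) a
  have e2 : ∀ v, So n ψ (fun z => g (z + a)) v = So n ψ g (v + a) := by
    intro v
    unfold So
    rw [← integral_add_right_eq_self (fun z => kk n ψ (v + a - z) * g z) a]
    refine integral_congr_ae (Eventually.of_forall fun z => ?_)
    simp only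
    rw [show v + a - (z + a) = v - z by ring]
  have e3 : NN χ (qq m) (So n ψ fun z => g (z + a)) =
      (∫⁻ w, (∫⁻ y, χ y * ‖So n ψ g (w + y)‖ₑ ^ 2) ^ (qq m / 2)) ^ (1 / qq m) := by
    unfold NN
    rw [← lintegral_add_right_eq_self
      (fun w => (∫⁻ y, χ y * ‖So n ψ g (w + y)‖ₑ ^ 2) ^ (qq m / 2)) a]
    congr 1
    refine lintegral_congr fun w => ?_
    congr 1
    refine lintegral_congr fun y => ?_
    rw [e2, show w + y + a = w + a + y by ring]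
  rw [e1, e3] at key
  exact key

end Pool.Agent.N892.BW.CELL
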