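import Pool.Agent.N892.BW.Stm

set_option autoImplicit false

open MeasureTheory ENNReal Filter Topology Complex
open scoped ComplexConjugate

namespace Pool.Agent.N892.BW.FIN

theorem qq_conj (m : ℕ) (hm : 2 ≤ m) : (2 * (m : ℝ)).HolderConjugate (qq m) := by
  have h2 : (2 : ℝ) ≤ m := by exact_mod_cast hm
  have h1 : (1 : ℝ) < 2 * (m : ℝ) := by linarith
  have : qq m = Real.conjExponent (2 * (m : ℝ)) := by
    unfold qq Real.conjExponent
    rfl
  rw [this]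
  exact Real.HolderConjugate.conjExponent h1

theorem meas_Kn (n : ℕ) : Measurable (Kn n) := by
  unfold Kn
  have hc : Measurable (fun x : ℂ => (starRingEnd ℂ) x) := Complex.continuous_conj.measurable
  exact ((measurable_const).mul (hc.pow_const _)).div (measurable_id.pow_const _)

theorem norm_Kn (n : ℕ) (hn : 1 ≤ n) (x : ℂ) (hx : 1 ≤ ‖x‖) : ‖Kn n x‖ ≤ (n : ℝ) / Real.pi := by
  unfold Kn
  obtain ⟨k, rfl⟩ := Nat.exists_eq_add_of_le hn
  have h0 : 0 < ‖x‖ := by linarith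
  have hpi := Real.pi_pos
  rw [norm_div, norm_mul, norm_mul, norm_pow, norm_pow, norm_neg, norm_one, one_pow, one_mul, norm_div,
    norm_pow, Complex.norm_conj]
  have e1 : ‖(((1 + k : ℕ) : ℝ) : ℂ)‖ = ((1 + k : ℕ) : ℝ) := by
    rw [Complex.norm_real, Real.norm_of_nonneg (by positivity)]
  have e1' : ‖(((1 + k : ℕ) : ℂ))‖ = ((1 + k : ℕ) : ℝ) := by
    rw [← e1]; simp
  have e2 : ‖(Real.pi : ℂ)‖ = Real.pi := by
    rw [Complex.norm_real, Real.norm_of_nonneg hpi.le]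
  rw [e1', e2]
  have e3 : (1 + k - 1 : ℕ) = k := by omega
  rw [e3, mul_div_assoc]
  have h3 : ‖x‖ ^ k / ‖x‖ ^ (1 + k + 1) ≤ 1 := by
    rw [div_le_one (by positivity)]
    exact pow_le_pow_right₀ hx (by omega)
  calc ((1 + k : ℕ) : ℝ) / Real.pi * (‖x‖ ^ k / ‖x‖ ^ (1 + k + 1))
      ≤ ((1 + k : ℕ) : ℝ) / Real.pi * 1 := by
        apply mul_le_mul_of_nonneg_left h3 (by positivity)
    _ = _ := mul_one _

theorem meas_kk (n : ℕ) (ψ : ℂ → ℝ) (hψ : Continuous ψ) : Measurable (kk n ψ) := by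
  unfold kk
  exact (meas_Kn n).mul (Complex.continuous_ofReal.comp hψ).measurable

theorem K1_fin (n : ℕ) (hn : 1 ≤ n) (B D : ℝ) (ψ : ℂ → ℝ) (h : Cut B 1 D ψ) :
    ∫⁻ z, ‖kk n ψ z‖ₑ < ∞ := by
  obtain ⟨h1, h2, h3, h4⟩ := h
  have key : ∀ z, ‖kk n ψ z‖ₑ ≤
      (Metric.closedBall (0 : ℂ) D).indicator (fun _ => ENNReal.ofReal ((n : ℝ) / Real.pi)) z := by
    intro z
    by_cases hz : ψ z = 0
    · simp [kk, hz]
    · obtain ⟨ha, hb⟩ := h3 z hz
      rw [Set.indicator_of_mem (by simpa using hb)]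
      rw [← ofReal_norm]
      apply ENNReal.ofReal_le_ofReal
      unfold kk
      rw [norm_mul, Complex.norm_real, Real.norm_of_nonneg (h2 z).1]
      calc ‖Kn n z‖ * ψ z ≤ ‖Kn n z‖ * 1 := mul_le_mul_of_nonneg_left (h2 z).2 (norm_nonneg _)
        _ = ‖Kn n z‖ := mul_one _
        _ ≤ _ := norm_Kn n hn z ha
  calc ∫⁻ z, ‖kk n ψ z‖ₑ ≤
      ∫⁻ z, (Metric.closedBall (0 : ℂ) D).indicator (fun _ => ENNReal.ofReal ((n : ℝ) / Real.pi)) z :=
        lintegral_mono key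
    _ = ENNReal.ofReal ((n : ℝ) / Real.pi) * volume (Metric.closedBall (0 : ℂ) D) := by
        rw [lintegral_indicator Metric.isClosed_closedBall.measurableSet, setLIntegral_const]
    _ < ∞ := ENNReal.mul_lt_top ENNReal.ofReal_lt_top
        (isCompact_closedBall (0 : ℂ) D).measure_lt_top

/-- Hölder inequality with a kernel -/
theorem hold (p q : ℝ) (hpq : p.HolderConjugate q) (k g : ℂ → ℝ≥0∞) (hk : Measurable k) (hg : Measurable g) :
    (∫⁻ z, k z * g z) ^ q ≤ (∫⁻ z, k z) ^ (q - 1) * ∫⁻ z, k z * g z ^ q := by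
  have hp0 : 0 < p := hpq.pos
  have hq0 : 0 < q := hpq.symm.pos
  have hsum : 1 / p + 1 / q = 1 := by
    have := hpq.inv_add_inv_eq_one
    simpa [one_div] using this
  have h1 := ENNReal.lintegral_mul_le_Lp_mul_Lq (volume : Measure ℂ) hpq
    (f := fun z => k z ^ (1 / p)) (g := fun z => k z ^ (1 / q) * g z)
    (hk.pow_const _).aemeasurable ((hk.pow_const _).mul hg).aemeasurable
  have e1 : ∀ z, ((fun z => k z ^ (1 / p)) * (fun z => k z ^ (1 / q) * g z)) z = k z * g z := by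
    intro z
    simp only [Pi.mul_apply]
    rw [← mul_assoc, ← ENNReal.rpow_add_of_nonneg _ _ (by positivity) (by positivity), hsum,
      ENNReal.rpow_one]
  have e2 : ∀ z, (k z ^ (1 / p)) ^ p = k z := by
    intro z
    rw [← ENNReal.rpow_mul, one_div_mul_cancel hp0.ne', ENNReal.rpow_one]
  have e3 : ∀ z, (k z ^ (1 / q) * g z) ^ q = k z * g z ^ q := by
    intro z
    rw [ENNReal.mul_rpow_of_nonneg _ _ hq0.le, ← ENNReal.rpow_mul, one_div_mul_cancel hq0.ne',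
      ENNReal.rpow_one]
  simp only [e1, e2, e3] at h1
  have h2 := ENNReal.rpow_le_rpow h1 hq0.le
  rw [ENNReal.mul_rpow_of_nonneg _ _ hq0.le, ← ENNReal.rpow_mul, ← ENNReal.rpow_mul,
    one_div_mul_cancel hq0.ne', ENNReal.rpow_one] at h2
  have e4 : 1 / p * q = q - 1 := by
    have : 1 / p = 1 - 1 / q := by linarith
    rw [this, sub_mul, one_mul, one_div_mul_cancel hq0.ne']
  rw [e4] at h2
  exact h2

theorem t : Pool.Agent.N892.BW.S_FIN := by
  intro m n B D ψ hm hn hD hcut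
  have hpq := qq_conj m hm
  have hq0 : 0 < qq m := hpq.symm.pos
  have hq1 : 1 < qq m := hpq.symm.lt
  have hK1 := K1_fin n hn B D ψ hcut
  have hkm : Measurable (kk n ψ) := meas_kk n ψ hcut.1.continuous
  set K1 : ℝ≥0∞ := ∫⁻ z, ‖kk n ψ z‖ₑ with hK1def
  refine ⟨K1.toReal, ENNReal.toReal_nonneg, ?_⟩
  intro g hg
  obtain ⟨hgm, -, -⟩ := hg
  have hK : ENNReal.ofReal (K1.toReal ^ (qq m)) = K1 ^ (qq m) := by
    rw [← ENNReal.ofReal_rpow_of_nonneg ENNReal.toReal_nonneg hq0.le, ENNReal.ofReal_toReal hK1.ne]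
  rw [hK]
  have hs : ∀ w, ∫⁻ z, ‖kk n ψ (w - z)‖ₑ = K1 := by
    intro w
    exact lintegral_sub_left_eq_self (μ := (volume : Measure ℂ)) (fun z => ‖kk n ψ z‖ₑ) w
  have hs' : ∀ z, ∫⁻ w, ‖kk n ψ (w - z)‖ₑ = K1 := by
    intro z
    exact lintegral_sub_right_eq_self (μ := (volume : Measure ℂ)) (fun z => ‖kk n ψ z‖ₑ) z
  have h1 : ∀ w, ‖So n ψ g w‖ₑ ^ (qq m) ≤
      K1 ^ (qq m - 1) * ∫⁻ z, ‖kk n ψ (w - z)‖ₑ * ‖g z‖ₑ ^ (qq m) := by
    intro w
    have ha : ‖So n ψ g w‖ₑ ≤ ∫⁻ z, ‖kk n ψ (w - z)‖ₑ * ‖g z‖ₑ := by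
      unfold So
      refine (enorm_integral_le_lintegral_enorm _).trans (le_of_eq ?_)
      apply lintegral_congr
      intro z
      rw [enorm_mul]
    refine (ENNReal.rpow_le_rpow ha hq0.le).trans ?_
    have := hold (2 * (m : ℝ)) (qq m) hpq (fun z => ‖kk n ψ (w - z)‖ₑ) (fun z => ‖g z‖ₑ)
      (hkm.comp (measurable_const.sub measurable_id)).enorm hgm.enorm
    rw [hs w] at this
    exact this
  have hmeas2 : Measurable (Function.uncurry fun w z : ℂ => ‖kk n ψ (w - z)‖ₑ * ‖g z‖ₑ ^ (qq m)) := by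
    apply Measurable.mul
    · exact (hkm.comp (measurable_fst.sub measurable_snd)).enorm
    · exact ((hgm.comp measurable_snd).enorm).pow_const _
  calc ∫⁻ w, ‖So n ψ g w‖ₑ ^ (qq m)
      ≤ ∫⁻ w, K1 ^ (qq m - 1) * ∫⁻ z, ‖kk n ψ (w - z)‖ₑ * ‖g z‖ₑ ^ (qq m) := lintegral_mono h1
    _ = K1 ^ (qq m - 1) * ∫⁻ w, ∫⁻ z, ‖kk n ψ (w - z)‖ₑ * ‖g z‖ₑ ^ (qq m) := by
        rw [lintegral_const_mul]
        exact hmeas2.lintegral_prod_right
    _ = K1 ^ (qq m - 1) * ∫⁻ z, ∫⁻ w, ‖kk n ψ (w - z)‖ₑ * ‖g z‖ₑ ^ (qq m) := by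
        rw [lintegral_lintegral_swap hmeas2.aemeasurable]
    _ = K1 ^ (qq m - 1) * ∫⁻ z, K1 * ‖g z‖ₑ ^ (qq m) := by
        congr 1
        apply lintegral_congr
        intro z
        have hmz : Measurable (fun w : ℂ => ‖kk n ψ (w - z)‖ₑ) :=
          (hkm.comp (measurable_id.sub measurable_const)).enorm
        rw [lintegral_mul_const _ hmz, hs' z]
    _ = K1 ^ (qq m - 1) * (K1 * ∫⁻ z, ‖g z‖ₑ ^ (qq m)) := by
        rw [lintegral_const_mul _ (hgm.enorm.pow_const _)]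
    _ = K1 ^ (qq m) * ∫⁻ z, ‖g z‖ₑ ^ (qq m) := by
        rw [← mul_assoc]
        congr 1
        conv_lhs => rw [← ENNReal.rpow_one K1, ← ENNReal.rpow_mul, one_mul]
        rw [← ENNReal.rpow_add_of_nonneg _ _ (by linarith) (by norm_num)]
        congr 1
        ring

end Pool.Agent.N892.BW.FIN
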