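import Pool.Agent.N892.BW.Stm
import Pool.Agent.H153R4.Pl

/-!
# Project BW, part FOUR: Plancherel for the m-th power of a Fourier integral (helper547)
-/

set_option autoImplicit false
set_option linter.all false

open MeasureTheory ENNReal Filter Topology Complex Set
open scoped ComplexConjugate FourierTransform Convolution

namespace Pool.Agent.N892.BW.FOUR

theorem nice_supp {g : ℂ → ℂ} (hg : Nice g) : ∃ R : ℝ, g = (Metric.closedBall (0 : ℂ) R).indicator g := by
  obtain ⟨hm, ⟨M, hM⟩, ⟨R, hR⟩⟩ := hg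
  refine ⟨R, ?_⟩
  funext x
  by_cases hx : x ∈ Metric.closedBall (0 : ℂ) R
  · rw [indicator_of_mem hx]
  · rw [indicator_of_notMem hx]
    rw [mem_closedBall_zero_iff, not_le] at hx
    exact hR x hx

theorem nice_memLp {g : ℂ → ℂ} (hg : Nice g) (p : ℝ≥0∞) : MemLp g p := by
  obtain ⟨R, hR⟩ := nice_supp hg
  obtain ⟨hm, ⟨M, hM⟩, _⟩ := hg
  rw [hR, memLp_indicator_iff_restrict Metric.isClosed_closedBall.measurableSet]
  haveI : IsFiniteMeasure (volume.restrict (Metric.closedBall (0 : ℂ) R)) :=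
    isFiniteMeasure_restrict.2 (measure_closedBall_lt_top).ne
  exact MemLp.of_bound hm.aestronglyMeasurable M (Eventually.of_forall hM)

theorem nice_int {g : ℂ → ℂ} (hg : Nice g) : Integrable g :=
  memLp_one_iff_integrable.1 (nice_memLp hg 1)

theorem conv_apply (F H : ℂ → ℂ) (x : ℂ) :
    (F ⋆[ContinuousLinearMap.mul ℂ ℂ] H) x = ∫ y, F y * H (x - y) := rfl

theorem nice_conv {F H : ℂ → ℂ} (hF : Nice F) (hH : Nice H) :
    Nice (F ⋆[ContinuousLinearMap.mul ℂ ℂ] H) := by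
  have hFi := nice_int hF
  obtain ⟨hFm, ⟨M, hM⟩, ⟨R, hR⟩⟩ := hF
  obtain ⟨hHm, ⟨N, hN⟩, ⟨S, hS⟩⟩ := hH
  refine ⟨?_, ⟨∫ y, ‖F y‖ * N, fun x => ?_⟩, ⟨R + S, fun x hx => ?_⟩⟩
  · have h1 : Measurable fun p : ℂ × ℂ => F p.2 * H (p.1 - p.2) := by fun_prop
    exact h1.stronglyMeasurable.integral_prod_right'.measurable
  · rw [conv_apply]
    refine (norm_integral_le_integral_norm _).trans ?_
    refine integral_mono_of_nonneg (Eventually.of_forall fun y => norm_nonneg _)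
      (hFi.norm.mul_const _) (Eventually.of_forall fun y => ?_)
    simp only
    rw [norm_mul]
    exact mul_le_mul_of_nonneg_left (hN _) (norm_nonneg _)
  · rw [conv_apply]
    have : (fun y => F y * H (x - y)) = fun _ => 0 := by
      funext y
      rcases le_or_gt ‖y‖ R with hy | hy
      · rw [hS (x - y), mul_zero]
        have := norm_sub_norm_le x y
        linarith
      · rw [hR y hy, zero_mul]
    rw [this, integral_zero]

/-- the convolution powers -/
noncomputable def Hp (F : ℂ → ℂ) : ℕ → ℂ → ℂ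
  | 0 => F
  | j + 1 => F ⋆[ContinuousLinearMap.mul ℂ ℂ] (Hp F j)

theorem Hp_nice {F : ℂ → ℂ} (hF : Nice F) (j : ℕ) : Nice (Hp F j) := by
  induction j with
  | zero => exact hF
  | succ j ih => exact nice_conv hF ih

theorem Hp_four {F : ℂ → ℂ} (hF : Nice F) (j : ℕ) (ξ : ℂ) : 𝓕 (Hp F j) ξ = (𝓕 F ξ) ^ (j + 1) := by
  induction j with
  | zero => rw [zero_add, pow_one]; rfl
  | succ j ih =>
    show 𝓕 (F ⋆[ContinuousLinearMap.mul ℂ ℂ] (Hp F j)) ξ = _
    rw [Real.fourier_mul_convolution_eq (nice_int hF) (nice_int (Hp_nice hF j)), ih]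
    ring

theorem Hp_le (F : ℂ → ℂ) (j : ℕ) : ∀ u, ‖Hp F j u‖ₑ ≤ it (fun u => ‖F u‖ₑ) j u := by
  induction j with
  | zero => intro u; exact le_rfl
  | succ j ih =>
    intro u
    show ‖∫ y, F y * Hp F j (u - y)‖ₑ ≤ ∫⁻ y, ‖F y‖ₑ * it (fun u => ‖F u‖ₑ) j (u - y)
    refine (enorm_integral_le_lintegral_enorm _).trans (lintegral_mono fun y => ?_)
    rw [enorm_mul]
    exact mul_le_mul_right (ih _) _

/-- the rotation by a right angle -/
noncomputable def rt : ℂ ≃ₗᵢ[ℝ] ℂ := rotation (Circle.exp (Real.pi / 2))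

theorem rt_apply (x : ℂ) : rt x = Complex.I * x := by
  rw [rt, rotation_apply, Circle.coe_exp]
  push_cast
  rw [Complex.exp_pi_div_two_mul_I]

theorem ex_four (F : ℂ → ℂ) (x : ℂ) :
    ∫ u, F u * ex x u = 𝓕 F ((2 * Real.pi)⁻¹ • rt x) := by
  rw [Real.fourier_eq']
  refine integral_congr_ae (Eventually.of_forall fun u => ?_)
  simp only [smul_eq_mul]
  rw [mul_comm, ex]
  congr 2
  rw [mul_comm Complex.I]
  congr 2
  rw [rt_apply, real_inner_smul_right, Complex.inner]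
  simp only [Complex.mul_re, Complex.mul_im, Complex.conj_re, Complex.conj_im, Complex.I_re,
    Complex.I_im]
  have := Real.pi_pos
  field_simp
  ring

theorem scale (φ : ℂ → ℝ≥0∞) (hφ : Measurable φ) :
    ∫⁻ x : ℂ, φ ((2 * Real.pi)⁻¹ • rt x) = ENNReal.ofReal ((2 * Real.pi) ^ 2) * ∫⁻ x, φ x := by
  have h1 : MeasurePreserving rt volume volume := rt.measurePreserving
  have h2 : Measurable fun y : ℂ => φ ((2 * Real.pi)⁻¹ • y) := by
    exact hφ.comp (measurable_const_smul _)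
  have e1 := h1.lintegral_comp h2
  rw [e1]
  have h3 : (2 * Real.pi)⁻¹ ≠ 0 := by positivity
  have h4 := Measure.map_addHaar_smul (volume : Measure ℂ) h3
  have e2 : ∫⁻ y : ℂ, φ ((2 * Real.pi)⁻¹ • y) =
      ∫⁻ y, φ y ∂(Measure.map ((2 * Real.pi)⁻¹ • ·) (volume : Measure ℂ)) :=
    (lintegral_map hφ (measurable_const_smul _)).symm
  rw [e2, h4, lintegral_smul_measure, Complex.finrank_real_complex, inv_pow, inv_inv,
    abs_of_nonneg (by positivity)]
  rfl

theorem t : Pool.Agent.N892.BW.S_FOUR := by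
  intro m hm F hF
  obtain ⟨j, rfl⟩ : ∃ j, m = j + 1 := ⟨m - 1, by omega⟩
  have hH := Hp_nice hF j
  have hc : Continuous (𝓕 (Hp F j)) :=
    VectorFourier.fourierIntegral_continuous (L := innerₗ ℂ) Real.continuous_fourierChar
      continuous_inner (nice_int hH)
  calc ∫⁻ x, ‖∫ u, F u * ex x u‖ₑ ^ (2 * (j + 1)) =
      ∫⁻ x, (fun ξ => ‖𝓕 (Hp F j) ξ‖ₑ ^ 2) ((2 * Real.pi)⁻¹ • rt x) := by
        refine lintegral_congr fun x => ?_
        simp only
        rw [ex_four, Hp_four hF, enorm_pow, ← pow_mul]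
        congr 1
        ring
    _ = ENNReal.ofReal ((2 * Real.pi) ^ 2) * ∫⁻ ξ, ‖𝓕 (Hp F j) ξ‖ₑ ^ 2 :=
        scale _ (hc.enorm.measurable.pow_const _)
    _ = ENNReal.ofReal ((2 * Real.pi) ^ 2) * ∫⁻ u, ‖Hp F j u‖ₑ ^ 2 := by
        rw [Pool.Agent.H153R4.plancherel _ (nice_int hH) (nice_memLp hH 2)]
    _ ≤ _ := by
        refine mul_le_mul_right (lintegral_mono fun u => ?_) _
        exact pow_le_pow_left' (Hp_le F j u) 2

end Pool.Agent.N892.BW.FOUR
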