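import Pool.Agent.N892.BW.Stm

set_option autoImplicit false

/-! # The product of two kernels is a Laplacian -/

open MeasureTheory ENNReal Filter Topology Complex
open scoped ComplexConjugate

namespace Pool.Agent.N892.BW.IBP

/-- line derivative of an analytic function -/
lemma ld {a : ℂ → ℂ} {a' w : ℂ} (h : HasDerivAt a a' w) (e : ℂ) :
    HasLineDerivAt ℝ a (a' * e) w e := by
  have h1 := h.complexToReal_fderiv.hasLineDerivAt e
  simpa [mul_comm] using h1

/-- line derivative of the conjugate of an analytic function -/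
lemma ldc {b : ℂ → ℂ} {b' w : ℂ} (h : HasDerivAt b b' w) (e : ℂ) :
    HasLineDerivAt ℝ (fun w => conj (b w)) (conj (b' * e)) w e := by
  have h1 : HasDerivAt (fun t : ℝ => b (w + t • e)) (b' * e) 0 := ld h e
  exact h1.star

lemma ldmul {f g : ℂ → ℂ} {f' g' w e : ℂ} (hf : HasLineDerivAt ℝ f f' w e)
    (hg : HasLineDerivAt ℝ g g' w e) :
    HasLineDerivAt ℝ (fun w => f w * g w) (f' * g w + f w * g') w e := by
  have h1 : HasDerivAt (fun t : ℝ => f (w + t • e)) f' 0 := hf
  have h2 : HasDerivAt (fun t : ℝ => g (w + t • e)) g' 0 := hg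
  have := h1.fun_mul h2
  simpa [HasLineDerivAt] using this

/-- partial integration twice -/
lemma parts (Θ : ℂ → ℝ) (hΘ : ContDiff ℝ 2 Θ) (hc : HasCompactSupport Θ) (e : ℂ)
    (U U1 U2 : ℂ → ℂ) (h1 : ∀ w ∈ tsupport Θ, HasLineDerivAt ℝ U (U1 w) w e)
    (h2 : ∀ w ∈ tsupport Θ, HasLineDerivAt ℝ U1 (U2 w) w e)
    (c0 : ∀ w ∈ tsupport Θ, ContinuousAt U w)
    (c1 : ∀ w ∈ tsupport Θ, ContinuousAt U1 w) (c2 : ∀ w ∈ tsupport Θ, ContinuousAt U2 w) :
    ∫ w, (Θ w : ℂ) * U2 w = ∫ w, ((iteratedFDeriv ℝ 2 Θ w ![e, e] : ℝ) : ℂ) * U w := by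
  have hd : ∀ w, HasFDerivAt Θ (fderiv ℝ Θ w) w := fun w =>
    (hΘ.differentiable (by norm_num) w).hasFDerivAt
  have hC1 : ContDiff ℝ 1 (fderiv ℝ Θ) := hΘ.fderiv_right (by norm_num)
  have hd2 : ∀ w, HasFDerivAt (fderiv ℝ Θ) (fderiv ℝ (fderiv ℝ Θ) w) w := fun w =>
    (hC1.differentiable (by norm_num) w).hasFDerivAt
  have d0 : ∀ w, HasLineDerivAt ℝ (fun w => (Θ w : ℂ)) ((fderiv ℝ Θ w e : ℝ) : ℂ) w e := by
    intro w
    have h : HasDerivAt (fun t : ℝ => Θ (w + t • e)) (fderiv ℝ Θ w e) 0 := (hd w).hasLineDerivAt e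
    exact h.ofReal_comp
  have d1 : ∀ w, HasLineDerivAt ℝ (fun w => ((fderiv ℝ Θ w e : ℝ) : ℂ))
      ((iteratedFDeriv ℝ 2 Θ w ![e, e] : ℝ) : ℂ) w e := by
    intro w
    have h0 : HasFDerivAt (fun w => fderiv ℝ Θ w e)
        ((fderiv ℝ (fderiv ℝ Θ) w).flip e) w := by
      have := (hd2 w).clm_apply (hasFDerivAt_const e w)
      simpa using this
    have h : HasDerivAt (fun t : ℝ => fderiv ℝ Θ (w + t • e) e)
        ((fderiv ℝ (fderiv ℝ Θ) w).flip e e) 0 := h0.hasLineDerivAt e
    have h' := h.ofReal_comp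
    rw [iteratedFDeriv_two_apply]
    simpa [HasLineDerivAt] using h'
  have ts0 : tsupport (fun w => (Θ w : ℂ)) = tsupport Θ := by
    unfold tsupport
    congr 1
    ext w
    simp
  have ts1 : tsupport (fun w => ((fderiv ℝ Θ w e : ℝ) : ℂ)) ⊆ tsupport Θ := by
    refine closure_minimal (fun w hw => ?_) (isClosed_tsupport Θ)
    by_contra h
    have h1 : w ∉ tsupport (fderiv ℝ Θ) := fun h' => h (tsupport_fderiv_subset ℝ h')
    have h2 : fderiv ℝ Θ w = 0 := image_eq_zero_of_notMem_tsupport h1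
    rw [Function.mem_support, h2] at hw
    simp at hw
  have ts2 : ∀ w, w ∉ tsupport Θ → ((iteratedFDeriv ℝ 2 Θ w ![e, e] : ℝ) : ℂ) = 0 := by
    intro w hw
    rw [iteratedFDeriv_two_apply]
    have h1 : w ∉ tsupport (fderiv ℝ (fderiv ℝ Θ)) := fun h' =>
      hw (tsupport_fderiv_subset ℝ (tsupport_fderiv_subset ℝ h'))
    rw [image_eq_zero_of_notMem_tsupport h1]
    simp
  have k0 : Continuous (fun w => (Θ w : ℂ)) := Complex.continuous_ofReal.comp hΘ.continuous
  have k1 : Continuous (fun w => ((fderiv ℝ Θ w e : ℝ) : ℂ)) :=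
    Complex.continuous_ofReal.comp (hC1.continuous.clm_apply continuous_const)
  have k2 : Continuous (fun w => ((iteratedFDeriv ℝ 2 Θ w ![e, e] : ℝ) : ℂ)) := by
    refine Complex.continuous_ofReal.comp ?_
    have h : Continuous (fun w => fderiv ℝ (fderiv ℝ Θ) w e e) :=
      ((hC1.continuous_fderiv (by norm_num)).clm_apply continuous_const).clm_apply continuous_const
    have h' : (fun w => iteratedFDeriv ℝ 2 Θ w ![e, e]) = fun w => fderiv ℝ (fderiv ℝ Θ) w e e := by
      funext w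
      rw [iteratedFDeriv_two_apply]
      rfl
    rw [h']
    exact h
  have key : ∀ (g V : ℂ → ℂ), Continuous g → (∀ w, w ∉ tsupport Θ → g w = 0) →
      (∀ w ∈ tsupport Θ, ContinuousAt V w) → Integrable (fun w => g w * V w) := by
    intro g V hg hg0 hV
    have hsub : tsupport (fun w => g w * V w) ⊆ tsupport Θ := by
      refine closure_minimal (fun w hw => ?_) (isClosed_tsupport Θ)
      by_contra h
      rw [Function.mem_support, hg0 w h] at hw
      simp at hw
    have hcont : Continuous (fun w => g w * V w) := by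
      refine continuous_of_tsupport fun w hw => ?_
      exact hg.continuousAt.mul (hV w (hsub hw))
    exact hcont.integrable_of_hasCompactSupport
      (IsCompact.of_isClosed_subset hc (isClosed_tsupport _) hsub)
  have z0 : ∀ w, w ∉ tsupport Θ → (Θ w : ℂ) = 0 := fun w hw => by
    rw [image_eq_zero_of_notMem_tsupport hw]
    simp
  have z1 : ∀ w, w ∉ tsupport Θ → ((fderiv ℝ Θ w e : ℝ) : ℂ) = 0 := fun w hw =>
    image_eq_zero_of_notMem_tsupport (f := fun w => ((fderiv ℝ Θ w e : ℝ) : ℂ))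
      (fun h => hw (ts1 h))
  have e1 := integral_bilinear_hasLineDerivAt_right_eq_neg_left_of_integrable (μ := volume)
    (f := fun w => (Θ w : ℂ)) (f' := fun w => ((fderiv ℝ Θ w e : ℝ) : ℂ)) (g := U1) (g' := U2)
    (v := e) (B := ContinuousLinearMap.mul ℝ ℂ) (key _ _ k1 z1 c1) (key _ _ k0 z0 c2)
    (key _ _ k0 z0 c1) (fun w _ => d0 w) (fun w hw => h2 w (ts0 ▸ hw))
  have e2 := integral_bilinear_hasLineDerivAt_right_eq_neg_left_of_integrable (μ := volume)
    (f := fun w => ((fderiv ℝ Θ w e : ℝ) : ℂ))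
    (f' := fun w => ((iteratedFDeriv ℝ 2 Θ w ![e, e] : ℝ) : ℂ)) (g := U) (g' := U1)
    (v := e) (B := ContinuousLinearMap.mul ℝ ℂ) (key _ _ k2 ts2 c0) (key _ _ k1 z1 c1)
    (key _ _ k1 z1 c0) (fun w _ => d1 w) (fun w hw => h1 w (ts1 hw))
  simp only [ContinuousLinearMap.mul_apply'] at e1 e2
  rw [e1, e2, neg_neg]

/-- derivative of a power of a Moebius map -/
lemma dmob (n : ℕ) (hn : 1 ≤ n) (z z' w : ℂ) (hw : w ≠ z) :
    HasDerivAt (fun w : ℂ => ((w - z') / (w - z)) ^ n)
      ((n : ℂ) * (z' - z) * (w - z') ^ (n - 1) / (w - z) ^ (n + 1)) w := by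
  have h0 : w - z ≠ 0 := sub_ne_zero.2 hw
  have h1 : HasDerivAt (fun w : ℂ => (w - z') / (w - z)) ((1 * (w - z) - (w - z') * 1) / (w - z) ^ 2) w :=
    ((hasDerivAt_id w).sub_const z').div ((hasDerivAt_id w).sub_const z) h0
  have h2 := h1.fun_pow n
  obtain ⟨k, rfl⟩ : ∃ k, n = k + 1 := ⟨n - 1, by omega⟩
  have e : ((k + 1 : ℕ) : ℂ) * (z' - z) * (w - z') ^ (k + 1 - 1) / (w - z) ^ (k + 1 + 1) =
      ((k + 1 : ℕ) : ℂ) * ((w - z') / (w - z)) ^ (k + 1 - 1) *
        ((1 * (w - z) - (w - z') * 1) / (w - z) ^ 2) := by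
    rw [show k + 1 - 1 = k from rfl, div_pow]
    field_simp
    ring
  rw [e]
  exact h2

theorem t : S_IBP := by
  intro n hn z z' hz Θ hΘ hc hz1 hz2
  set a : ℂ → ℂ := fun w => ((w - z') / (w - z)) ^ n with ha
  set b : ℂ → ℂ := fun w => ((w - z) / (w - z')) ^ n with hb
  set a1 : ℂ → ℂ := fun w => (n : ℂ) * (z' - z) * (w - z') ^ (n - 1) / (w - z) ^ (n + 1) with ha1
  set b1 : ℂ → ℂ := fun w => (n : ℂ) * (z - z') * (w - z) ^ (n - 1) / (w - z') ^ (n + 1) with hb1
  have hne : ∀ w ∈ tsupport Θ, w ≠ z ∧ w ≠ z' := fun w hw =>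
    ⟨fun h => hz1 (h ▸ hw), fun h => hz2 (h ▸ hw)⟩
  have A0 : ∀ w, w ≠ z → HasDerivAt a (a1 w) w := fun w hw => dmob n hn z z' w hw
  have B0 : ∀ w, w ≠ z' → HasDerivAt b (b1 w) w := fun w hw => dmob n hn z' z w hw
  have dA1 : ∀ w, w ≠ z → AnalyticAt ℂ a1 w := by
    intro w hw
    have h0 : (w - z) ^ (n + 1) ≠ 0 := pow_ne_zero _ (sub_ne_zero.2 hw)
    rw [ha1]
    refine AnalyticAt.div ?_ ?_ h0 <;> fun_prop
  have dB1 : ∀ w, w ≠ z' → AnalyticAt ℂ b1 w := by
    intro w hw
    have h0 : (w - z') ^ (n + 1) ≠ 0 := pow_ne_zero _ (sub_ne_zero.2 hw)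
    rw [hb1]
    refine AnalyticAt.div ?_ ?_ h0 <;> fun_prop
  have A1 : ∀ w, w ≠ z → HasDerivAt a1 (deriv a1 w) w := fun w hw =>
    (dA1 w hw).differentiableAt.hasDerivAt
  have B1 : ∀ w, w ≠ z' → HasDerivAt b1 (deriv b1 w) w := fun w hw =>
    (dB1 w hw).differentiableAt.hasDerivAt
  have cA2 : ∀ w, w ≠ z → ContinuousAt (deriv a1) w := fun w hw => (dA1 w hw).deriv.continuousAt
  have cB2 : ∀ w, w ≠ z' → ContinuousAt (deriv b1) w := fun w hw => (dB1 w hw).deriv.continuousAt
  have cc : ∀ {f : ℂ → ℂ} {w : ℂ}, ContinuousAt f w → ContinuousAt (fun w => conj (f w)) w :=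
    fun h => Complex.continuous_conj.continuousAt.comp h
  -- the second derivatives in the direction e
  have main : ∀ e : ℂ, ∫ w, (Θ w : ℂ) * ((deriv a1 w * e * e) * conj (b w) +
      (a1 w * e) * conj (b1 w * e) + ((a1 w * e) * conj (b1 w * e) + a w * conj (deriv b1 w * e * e))) =
      ∫ w, ((iteratedFDeriv ℝ 2 Θ w ![e, e] : ℝ) : ℂ) * (a w * conj (b w)) := by
    intro e
    refine parts Θ hΘ hc e (fun w => a w * conj (b w))
      (fun w => (a1 w * e) * conj (b w) + a w * conj (b1 w * e)) _ ?_ ?_ ?_ ?_ ?_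
    · intro w hw
      exact ldmul (ld (A0 w (hne w hw).1) e) (ldc (B0 w (hne w hw).2) e)
    · intro w hw
      have h1 : HasLineDerivAt ℝ (fun w => (a1 w * e) * conj (b w))
          ((deriv a1 w * e * e) * conj (b w) + (a1 w * e) * conj (b1 w * e)) w e :=
        ldmul (ld ((A1 w (hne w hw).1).mul_const e) e) (ldc (B0 w (hne w hw).2) e)
      have h2 : HasLineDerivAt ℝ (fun w => a w * conj (b1 w * e))
          ((a1 w * e) * conj (b1 w * e) + a w * conj (deriv b1 w * e * e)) w e :=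
        ldmul (ld (A0 w (hne w hw).1) e) (ldc ((B1 w (hne w hw).2).mul_const e) e)
      have h1' : HasDerivAt (fun t : ℝ => (a1 (w + t • e) * e) * conj (b (w + t • e)))
          ((deriv a1 w * e * e) * conj (b w) + (a1 w * e) * conj (b1 w * e)) 0 := h1
      have h2' : HasDerivAt (fun t : ℝ => a (w + t • e) * conj (b1 (w + t • e) * e))
          ((a1 w * e) * conj (b1 w * e) + a w * conj (deriv b1 w * e * e)) 0 := h2
      exact h1'.fun_add h2'
    · intro w hw
      exact (A0 w (hne w hw).1).continuousAt.mul (cc (B0 w (hne w hw).2).continuousAt)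
    · intro w hw
      exact (((A1 w (hne w hw).1).continuousAt.mul continuousAt_const).mul
        (cc (B0 w (hne w hw).2).continuousAt)).add ((A0 w (hne w hw).1).continuousAt.mul
        (cc ((B1 w (hne w hw).2).continuousAt.mul continuousAt_const)))
    · intro w hw
      obtain ⟨w1, w2⟩ := hne w hw
      exact (((((cA2 w w1).mul continuousAt_const).mul continuousAt_const).mul
        (cc (B0 w w2).continuousAt)).add
        (((A1 w w1).continuousAt.mul continuousAt_const).mul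
          (cc ((B1 w w2).continuousAt.mul continuousAt_const)))).add
        ((((A1 w w1).continuousAt.mul continuousAt_const).mul
          (cc ((B1 w w2).continuousAt.mul continuousAt_const))).add
          ((A0 w w1).continuousAt.mul
            (cc (((cB2 w w2).mul continuousAt_const).mul continuousAt_const))))
  have m1 := main 1
  have mI := main Complex.I
  have hkey : ∀ (g V : ℂ → ℂ), Continuous g → (∀ w, w ∉ tsupport Θ → g w = 0) →
      (∀ w ∈ tsupport Θ, ContinuousAt V w) → Integrable (fun w => g w * V w) := by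
    intro g V hg hg0 hV
    have hsub : tsupport (fun w => g w * V w) ⊆ tsupport Θ := by
      refine closure_minimal (fun w hw => ?_) (isClosed_tsupport Θ)
      by_contra h
      rw [Function.mem_support, hg0 w h] at hw
      simp at hw
    have hcont : Continuous (fun w => g w * V w) := by
      refine continuous_of_tsupport fun w hw => ?_
      exact hg.continuousAt.mul (hV w (hsub hw))
    exact hcont.integrable_of_hasCompactSupport
      (IsCompact.of_isClosed_subset hc (isClosed_tsupport _) hsub)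
  have hC1 : ContDiff ℝ 1 (fderiv ℝ Θ) := hΘ.fderiv_right (by norm_num)
  have k0 : Continuous (fun w => (Θ w : ℂ)) := Complex.continuous_ofReal.comp hΘ.continuous
  have z0 : ∀ w, w ∉ tsupport Θ → (Θ w : ℂ) = 0 := fun w hw => by
    rw [image_eq_zero_of_notMem_tsupport hw]
    simp
  have z2 : ∀ e w, w ∉ tsupport Θ → iteratedFDeriv ℝ 2 Θ w ![e, e] = 0 := by
    intro e w hw
    rw [iteratedFDeriv_two_apply]
    have h1 : w ∉ tsupport (fderiv ℝ (fderiv ℝ Θ)) := fun h' =>
      hw (tsupport_fderiv_subset ℝ (tsupport_fderiv_subset ℝ h'))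
    rw [image_eq_zero_of_notMem_tsupport h1]
    simp
  have k2 : ∀ e : ℂ, Continuous (fun w => iteratedFDeriv ℝ 2 Θ w ![e, e]) := by
    intro e
    have h : Continuous (fun w => fderiv ℝ (fderiv ℝ Θ) w e e) :=
      ((hC1.continuous_fderiv (by norm_num)).clm_apply continuous_const).clm_apply continuous_const
    have h' : (fun w => iteratedFDeriv ℝ 2 Θ w ![e, e]) = fun w => fderiv ℝ (fderiv ℝ Θ) w e e := by
      funext w
      rw [iteratedFDeriv_two_apply]
      rfl
    rw [h']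
    exact h
  have cV : ∀ e : ℂ, ∀ w ∈ tsupport Θ, ContinuousAt (fun w => (deriv a1 w * e * e) * conj (b w) +
      (a1 w * e) * conj (b1 w * e) + ((a1 w * e) * conj (b1 w * e) + a w * conj (deriv b1 w * e * e))) w := by
    intro e w hw
    obtain ⟨w1, w2⟩ := hne w hw
    exact (((((cA2 w w1).mul continuousAt_const).mul continuousAt_const).mul
      (cc (B0 w w2).continuousAt)).add
      (((A1 w w1).continuousAt.mul continuousAt_const).mul
        (cc ((B1 w w2).continuousAt.mul continuousAt_const)))).add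
      ((((A1 w w1).continuousAt.mul continuousAt_const).mul
        (cc ((B1 w w2).continuousAt.mul continuousAt_const))).add
        ((A0 w w1).continuousAt.mul
          (cc (((cB2 w w2).mul continuousAt_const).mul continuousAt_const))))
  have cU : ∀ w ∈ tsupport Θ, ContinuousAt (fun w => a w * conj (b w)) w := fun w hw =>
    (A0 w (hne w hw).1).continuousAt.mul (cc (B0 w (hne w hw).2).continuousAt)
  have kc : ∀ e : ℂ, Continuous (fun w => ((iteratedFDeriv ℝ 2 Θ w ![e, e] : ℝ) : ℂ)) := fun e =>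
    Complex.continuous_ofReal.comp (k2 e)
  have zc : ∀ e : ℂ, ∀ w, w ∉ tsupport Θ → ((iteratedFDeriv ℝ 2 Θ w ![e, e] : ℝ) : ℂ) = 0 :=
    fun e w hw => by rw [z2 e w hw]; simp
  -- the sum of the two identities
  have sum : ∫ w, (Θ w : ℂ) * (4 * (a1 w * conj (b1 w))) = ∫ w, (lap Θ w : ℂ) * (a w * conj (b w)) := by
    have l1 := integral_add (hkey _ _ k0 z0 (cV 1)) (hkey _ _ k0 z0 (cV Complex.I))
    have l2 := integral_add (hkey _ _ (kc 1) (zc 1) cU) (hkey _ _ (kc Complex.I) (zc Complex.I) cU)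
    rw [m1, mI, ← l2] at l1
    have r1 : (fun w => (Θ w : ℂ) * (4 * (a1 w * conj (b1 w)))) = fun w => (Θ w : ℂ) *
        ((deriv a1 w * 1 * 1) * conj (b w) + (a1 w * 1) * conj (b1 w * 1) + ((a1 w * 1) *
        conj (b1 w * 1) + a w * conj (deriv b1 w * 1 * 1))) + (Θ w : ℂ) *
        ((deriv a1 w * Complex.I * Complex.I) * conj (b w) + (a1 w * Complex.I) *
        conj (b1 w * Complex.I) + ((a1 w * Complex.I) *
        conj (b1 w * Complex.I) + a w * conj (deriv b1 w * Complex.I * Complex.I))) := by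
      funext w
      simp only [map_mul, Complex.conj_I, mul_one]
      linear_combination (-(Θ w : ℂ) * (deriv a1 w * conj (b w) - 2 * (a1 w * conj (b1 w)) +
        a w * conj (deriv b1 w))) * Complex.I_sq
    have r2 : (fun w => (lap Θ w : ℂ) * (a w * conj (b w))) = fun w =>
        ((iteratedFDeriv ℝ 2 Θ w ![1, 1] : ℝ) : ℂ) * (a w * conj (b w)) +
        ((iteratedFDeriv ℝ 2 Θ w ![Complex.I, Complex.I] : ℝ) : ℂ) * (a w * conj (b w)) := by
      funext w
      unfold lap
      push_cast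
      ring
    rw [r1, r2]
    exact l1
  have hzz : ‖z - z'‖ ≠ 0 := norm_ne_zero_iff.2 (sub_ne_zero.2 hz)
  have hpi : (Real.pi : ℂ) ≠ 0 := by exact_mod_cast Real.pi_ne_zero
  have pt : ∀ w, (Θ w : ℂ) * (4 * (a1 w * conj (b1 w))) =
      (-(4 * Real.pi ^ 2 * ‖z - z'‖ ^ 2 : ℝ) : ℂ) *
        ((Θ w : ℂ) * (Kn n (w - z) * conj (Kn n (w - z')))) := by
    intro w
    by_cases hw : w ∈ tsupport Θ
    · obtain ⟨w1, w2⟩ := hne w hw
      have h1 : w - z ≠ 0 := sub_ne_zero.2 w1
      have h2 : w - z' ≠ 0 := sub_ne_zero.2 w2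
      have h3 : conj (w - z') ≠ 0 := (map_ne_zero _).2 h2
      have hn2 : ((‖z - z'‖ ^ 2 : ℝ) : ℂ) = (z - z') * conj (z - z') := by
        rw [Complex.mul_conj, Complex.normSq_eq_norm_sq]
      have sg : ((-1 : ℂ) ^ n) * (-1) ^ n = 1 := by
        rw [← mul_pow]
        norm_num
      simp only [ha1, hb1, Kn, map_mul, map_div₀, map_pow, map_neg, map_one, Complex.conj_conj,
        Complex.conj_ofReal, map_natCast]
      push_cast
      push_cast at hn2
      rw [hn2]
      field_simp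
      linear_combination ((Θ w : ℂ) * (n : ℂ) ^ 2 * (z - z') * conj (z - z') *
        conj (w - z) ^ (n - 1)) * sg
    · rw [z0 w hw]
      ring
  have cst : (4 * Real.pi ^ 2 * ‖z - z'‖ ^ 2 : ℝ) ≠ 0 := by
    have := Real.pi_pos
    positivity
  have eqn : (-(4 * Real.pi ^ 2 * ‖z - z'‖ ^ 2 : ℝ) : ℂ) *
      ∫ w, (Θ w : ℂ) * (Kn n (w - z) * conj (Kn n (w - z'))) =
      ∫ w, (lap Θ w : ℂ) * (a w * conj (b w)) := by
    rw [← sum, ← integral_const_mul]
    congr 1
    funext w
    exact (pt w).symm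
  have nU : ∀ w, ‖a w * conj (b w)‖ ≤ 1 := by
    intro w
    rw [norm_mul, RCLike.norm_conj]
    simp only [ha, hb, norm_pow, norm_div]
    rw [← mul_pow]
    refine pow_le_one₀ (by positivity) ?_
    by_cases h1 : ‖w - z‖ = 0
    · rw [h1]
      simp
    · by_cases h2 : ‖w - z'‖ = 0
      · rw [h2]
        simp
      · rw [div_mul_div_comm, mul_comm ‖w - z'‖, div_self (mul_ne_zero h1 h2)]
  have iL : Integrable (fun w => |lap Θ w|) := by
    have hl : Continuous (lap Θ) := (k2 1).add (k2 Complex.I)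
    have hs : HasCompactSupport (lap Θ) := by
      refine IsCompact.of_isClosed_subset hc (isClosed_tsupport _) ?_
      refine closure_minimal (fun w hw => ?_) (isClosed_tsupport Θ)
      by_contra h
      rw [Function.mem_support] at hw
      apply hw
      unfold lap
      rw [z2 1 w h, z2 Complex.I w h, add_zero]
    exact (hl.integrable_of_hasCompactSupport hs).abs
  have nrm : (4 * Real.pi ^ 2 * ‖z - z'‖ ^ 2) *
      ‖∫ w, (Θ w : ℂ) * (Kn n (w - z) * conj (Kn n (w - z')))‖ ≤ ∫ w, |lap Θ w| := by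
    have h1 : (4 * Real.pi ^ 2 * ‖z - z'‖ ^ 2) *
        ‖∫ w, (Θ w : ℂ) * (Kn n (w - z) * conj (Kn n (w - z')))‖ =
        ‖∫ w, (lap Θ w : ℂ) * (a w * conj (b w))‖ := by
      rw [← eqn, norm_mul, norm_neg, Complex.norm_real, Real.norm_of_nonneg (by positivity)]
    rw [h1]
    refine (norm_integral_le_integral_norm _).trans ?_
    refine integral_mono_of_nonneg (Eventually.of_forall fun w => norm_nonneg _) iL
      (Eventually.of_forall fun w => ?_)
    simp only
    rw [norm_mul, Complex.norm_real, Real.norm_eq_abs]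
    exact mul_le_of_le_one_right (abs_nonneg _) (nU w)
  have hpos : 0 < 4 * Real.pi ^ 2 * ‖z - z'‖ ^ 2 := lt_of_le_of_ne (by positivity) cst.symm
  rw [one_div, inv_mul_eq_div, le_div_iff₀ hpos]
  linarith

end Pool.Agent.N892.BW.IBP
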