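import Pool.Agent.N892.BW.StmFix

/-!
Project BW, part INT: the decomposition into cells, integrated. By helper106.
-/

set_option autoImplicit false

open MeasureTheory ENNReal Filter Topology Complex
open scoped ComplexConjugate

namespace Pool.Agent.N892.BW.INT

lemma rpow_tsum_le {ι : Type} (x : ι → ℝ≥0∞) {s : ℝ} (hs0 : 0 < s) (hs1 : s ≤ 1) :
    (∑' i, x i) ^ s ≤ ∑' i, x i ^ s := by
  classical
  have h1 : Tendsto (fun F : Finset ι => (∑ i ∈ F, x i) ^ s) atTop (𝓝 ((∑' i, x i) ^ s)) :=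
    (ENNReal.continuous_rpow_const.tendsto _).comp ENNReal.summable.hasSum
  refine le_of_tendsto' h1 fun F => ?_
  refine le_trans ?_ (ENNReal.sum_le_tsum F)
  induction F using Finset.induction_on with
  | empty => simp [ENNReal.zero_rpow_of_pos hs0]
  | insert a F ha ih =>
    rw [Finset.sum_insert ha, Finset.sum_insert ha]
    exact (ENNReal.rpow_add_le_add_rpow _ _ hs0.le hs1).trans (by gcongr)

lemma Kn_meas (n : ℕ) : Measurable (Kn n) := by
  unfold Kn
  have h1 : Measurable fun x : ℂ => conj x := Complex.continuous_conj.measurable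
  exact ((h1.pow_const _).const_mul _).div (measurable_id.pow_const _)

lemma So_meas (n : ℕ) {ψ : ℂ → ℝ} (hψ : Measurable ψ) {h : ℂ → ℂ} (hh : Measurable h) :
    Measurable (So n ψ h) := by
  have h0 : Measurable (kk n ψ) := by
    unfold kk
    exact (Kn_meas n).mul (Complex.measurable_ofReal.comp hψ)
  have h1 : Measurable (Function.uncurry fun w z : ℂ => kk n ψ (w - z) * h z) :=
    (h0.comp (measurable_fst.sub measurable_snd)).mul (hh.comp measurable_snd)
  exact (h1.stronglyMeasurable.integral_prod_right (ν := (volume : Measure ℂ))).measurable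

lemma X_meas (n : ℕ) {ψ : ℂ → ℝ} (hψ : Measurable ψ) {h : ℂ → ℂ} (hh : Measurable h)
    {χ : ℂ → ℝ} (hχ : Measurable χ) :
    Measurable fun w : ℂ => ∫⁻ y, ENNReal.ofReal (χ y) * ‖So n ψ h (w + y)‖ₑ ^ 2 := by
  have h1 : Measurable fun p : ℂ × ℂ => ENNReal.ofReal (χ p.2) * ‖So n ψ h (p.1 + p.2)‖ₑ ^ 2 :=
    (hχ.comp measurable_snd).ennreal_ofReal.mul
      (((So_meas n hψ hh).comp (measurable_fst.add measurable_snd)).enorm.pow_const 2)
  exact h1.lintegral_prod_right'

lemma G_joint {F : ℂ → ℝ≥0∞} (hF : Measurable F) (r : ℝ) :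
    Measurable fun p : ℂ × ℂ => (Metric.closedBall p.1 r).indicator F p.2 := by
  have e : (fun p : ℂ × ℂ => (Metric.closedBall p.1 r).indicator F p.2) =
      {p : ℂ × ℂ | dist p.2 p.1 ≤ r}.indicator fun p => F p.2 := by
    funext p
    by_cases h : dist p.2 p.1 ≤ r
    · rw [Set.indicator_of_mem (show p.2 ∈ Metric.closedBall p.1 r from h),
        Set.indicator_of_mem (show p ∈ {p : ℂ × ℂ | dist p.2 p.1 ≤ r} from h)]
    · rw [Set.indicator_of_notMem (show p.2 ∉ Metric.closedBall p.1 r from h),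
        Set.indicator_of_notMem (show p ∉ {p : ℂ × ℂ | dist p.2 p.1 ≤ r} from h)]
  rw [e]
  exact (hF.comp measurable_snd).indicator
    (measurableSet_le (measurable_snd.dist measurable_fst) measurable_const)

lemma G_int {F : ℂ → ℝ≥0∞} (hF : Measurable F) (r : ℝ) :
    ∫⁻ w, ∫⁻ z, (Metric.closedBall w r).indicator F z =
      ENNReal.ofReal r ^ 2 * NNReal.pi * ∫⁻ z, F z := by
  rw [lintegral_lintegral_swap (G_joint hF r).aemeasurable, ← lintegral_const_mul _ hF]
  refine lintegral_congr fun z => ?_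
  have e : ∀ w : ℂ, (Metric.closedBall w r).indicator F z =
      (Metric.closedBall z r).indicator (fun _ => F z) w := by
    intro w
    by_cases h : dist z w ≤ r
    · rw [Set.indicator_of_mem (show z ∈ Metric.closedBall w r from h),
        Set.indicator_of_mem (show w ∈ Metric.closedBall z r from by
          rw [Metric.mem_closedBall, dist_comm]; exact h)]
    · rw [Set.indicator_of_notMem (show z ∉ Metric.closedBall w r from h),
        Set.indicator_of_notMem (show w ∉ Metric.closedBall z r from by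
          rw [Metric.mem_closedBall, dist_comm]; exact h)]
  rw [lintegral_congr e, lintegral_indicator Metric.isClosed_closedBall.measurableSet,
    setLIntegral_const, Complex.volume_closedBall, mul_comm]

theorem t (h1 : Pool.Agent.N892.BW.S_DEC2) (h2 : Pool.Agent.N892.BW.S_YNG) :
    Pool.Agent.N892.BW.S_INT2 := by
  intro m hm
  obtain ⟨C0, hC0, hY⟩ := h2 m hm
  have hmR : (2 : ℝ) ≤ m := by exact_mod_cast hm
  obtain ⟨q, hq⟩ : ∃ q, q = qq m := ⟨_, rfl⟩
  have hq0 : 0 < q := by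
    rw [hq]; unfold qq
    exact div_pos (by linarith) (by linarith)
  have hq2 : q ≤ 2 := by
    rw [hq]; unfold qq
    rw [div_le_iff₀ (by linarith)]
    linarith
  obtain ⟨s, hs⟩ : ∃ s, s = q / 2 := ⟨_, rfl⟩
  have hs0 : 0 < s := by rw [hs]; linarith
  have hs1 : s ≤ 1 := by rw [hs]; linarith
  refine ⟨4 * Real.pi * C0 ^ (qq m / 2), by positivity, ?_⟩
  intro n ψ l D CJ δ χ cell g hn hl hl1 hD hCJ hδ hχm hχ0 hχl hχ1 hψ hcell hg hsep hker
  have hdec := h1 n ψ l D CJ δ χ cell g hn hl hl1 hD hCJ hδ hχm hχ0 hχl hχ1 hψ hcell hg hsep hker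
  rw [← hq, ← hs]
  have hψm : Measurable ψ := by
    obtain ⟨B, hB⟩ := hψ
    exact hB.1.continuous.measurable
  have hgm : Measurable g := hg.1
  have hFm : Measurable fun z => ‖g z‖ₑ ^ q := hgm.enorm.pow_const q
  have hδp : 0 ≤ δ ^ (-2 + 2 / (m : ℝ)) := Real.rpow_nonneg hδ.le _
  -- the pointwise bound
  have hpt : ∀ w, (∫⁻ y, ENNReal.ofReal (χ y) * ‖So n ψ g (w + y)‖ₑ ^ 2) ^ s ≤
      (∑' Q : ℤ × ℤ, (∫⁻ y, ENNReal.ofReal (χ y) * ‖So n ψ (pc cell g Q) (w + y)‖ₑ ^ 2) ^ s) +
      (ENNReal.ofReal CJ * ENNReal.ofReal (C0 * δ ^ (-2 + 2 / (m : ℝ)))) ^ s *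
        ∫⁻ z, (Metric.closedBall w (2 * D)).indicator (fun z => ‖g z‖ₑ ^ q) z := by
    intro w
    refine (ENNReal.rpow_le_rpow (hdec w) hs0.le).trans ?_
    refine (ENNReal.rpow_add_le_add_rpow _ _ hs0.le hs1).trans ?_
    refine add_le_add (rpow_tsum_le _ hs0 hs1) ?_
    have hgw : Measurable ((Metric.closedBall w (2 * D)).indicator fun z => ‖g z‖ₑ) :=
      hgm.enorm.indicator Metric.isClosed_closedBall.measurableSet
    have hy := hY δ hδ _ hgw
    refine (ENNReal.rpow_le_rpow (mul_le_mul_right hy _) hs0.le).trans ?_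
    rw [← mul_assoc, ENNReal.mul_rpow_of_nonneg _ _ hs0.le, ← hq, ← ENNReal.rpow_mul,
      show 2 / q * s = 1 by rw [hs]; field_simp, ENNReal.rpow_one]
    refine mul_le_mul_right (le_of_eq (lintegral_congr fun z => ?_)) _
    by_cases hz : z ∈ Metric.closedBall w (2 * D)
    · rw [Set.indicator_of_mem hz, Set.indicator_of_mem hz]
    · rw [Set.indicator_of_notMem hz, Set.indicator_of_notMem hz, ENNReal.zero_rpow_of_pos hq0]
  refine (lintegral_mono hpt).trans ?_
  have hGm : Measurable fun w : ℂ => ∫⁻ z, (Metric.closedBall w (2 * D)).indicator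
      (fun z => ‖g z‖ₑ ^ q) z := (G_joint hFm (2 * D)).lintegral_prod_right'
  have hXm : ∀ Q : ℤ × ℤ, AEMeasurable (fun w : ℂ =>
      (∫⁻ y, ENNReal.ofReal (χ y) * ‖So n ψ (pc cell g Q) (w + y)‖ₑ ^ 2) ^ s) volume := by
    intro Q
    have hp : Measurable (pc cell g Q) := hgm.indicator (hcell (measurableSet_singleton Q))
    exact ((X_meas n hψm hp hχm).pow_const s).aemeasurable
  rw [lintegral_add_right _ (hGm.const_mul _), lintegral_const_mul _ hGm, G_int hFm,
    lintegral_tsum hXm]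
  refine add_le_add le_rfl ?_
  rw [← mul_assoc]
  refine mul_le_mul_left (le_of_eq ?_) _
  rw [ENNReal.mul_rpow_of_nonneg _ _ hs0.le, ENNReal.ofReal_rpow_of_nonneg hCJ hs0.le,
    ENNReal.ofReal_rpow_of_nonneg (by positivity) hs0.le, Real.mul_rpow hC0.le hδp,
    ← ENNReal.ofReal_pow (by linarith), show ((NNReal.pi : NNReal) : ℝ≥0∞) = ENNReal.ofReal Real.pi
      from (ENNReal.ofReal_eq_coe_nnreal Real.pi_pos.le).symm ▸ rfl,
    ← ENNReal.ofReal_mul (by positivity), ← ENNReal.ofReal_mul (by positivity),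
    ← ENNReal.ofReal_mul (by positivity)]
  congr 1
  ring

end Pool.Agent.N892.BW.INT
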