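import Pool.Agent.N892.BW.Stm

/-!
Project BW, part JEN: local averages (helper521).
-/

set_option autoImplicit false

open MeasureTheory ENNReal

namespace Pool.Agent.N892.BW.JEN

/-- Jensen for one point -/
theorem jen (q l : ℝ) (χ : ℂ → ℝ≥0∞) (h : ℂ → ℂ) (hq : 0 < q) (hq2 : q ≤ 2)
    (hχ : Pool.Agent.N892.BW.Mol l χ) (hh : Measurable h) (w : ℂ) :
    ∫⁻ y, χ y * ‖h (w + y)‖ₑ ^ q ≤ (∫⁻ y, χ y * ‖h (w + y)‖ₑ ^ 2) ^ (q / 2) := by
  obtain ⟨h1, -, h3⟩ := hχ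
  set μ : Measure ℂ := volume.withDensity χ with hμ
  have : IsProbabilityMeasure μ := ⟨by rw [hμ, withDensity_apply _ MeasurableSet.univ,
    Measure.restrict_univ, h3]⟩
  have hm : Measurable fun y => h (w + y) := hh.comp (measurable_const_add w)
  have e1 : ∫⁻ y, χ y * ‖h (w + y)‖ₑ ^ q = ∫⁻ y, ‖h (w + y)‖ₑ ^ q ∂μ := by
    rw [hμ, lintegral_withDensity_eq_lintegral_mul _ h1 (hm.enorm.pow_const q)]
    rfl
  have e2 : ∫⁻ y, χ y * ‖h (w + y)‖ₑ ^ 2 = ∫⁻ y, ‖h (w + y)‖ₑ ^ (2 : ℝ) ∂μ := by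
    rw [hμ, lintegral_withDensity_eq_lintegral_mul _ h1 (hm.enorm.pow_const (2 : ℝ))]
    refine lintegral_congr fun y => ?_
    rw [Pi.mul_apply, ENNReal.rpow_two]
  rw [e1, e2]
  have h4 := eLpNorm'_le_eLpNorm'_of_exponent_le hq hq2 μ hm.aestronglyMeasurable
  unfold eLpNorm' at h4
  have h5 := ENNReal.rpow_le_rpow h4 hq.le
  rw [← ENNReal.rpow_mul, ← ENNReal.rpow_mul, one_div_mul_cancel hq.ne', ENNReal.rpow_one,
    one_div_mul_eq_div] at h5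
  exact h5

/-- **JEN.** -/
theorem t : Pool.Agent.N892.BW.S_JEN := by
  intro q l χ h hq hq2 hχ hh
  have h1 : ∫⁻ w, ∫⁻ y, χ y * ‖h (w + y)‖ₑ ^ q = ∫⁻ w, ‖h w‖ₑ ^ q := by
    rw [lintegral_lintegral_swap]
    · have h2 : ∀ y : ℂ, ∫⁻ w, χ y * ‖h (w + y)‖ₑ ^ q = χ y * ∫⁻ w, ‖h w‖ₑ ^ q := by
        intro y
        have h4 : Measurable fun w => ‖h (w + y)‖ₑ ^ q :=
          (hh.comp (measurable_add_const y)).enorm.pow_const q
        rw [lintegral_const_mul _ h4]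
        rw [lintegral_add_right_eq_self (fun w => ‖h w‖ₑ ^ q) y]
      rw [lintegral_congr h2, lintegral_mul_const _ hχ.1, hχ.2.2, one_mul]
    · refine Measurable.aemeasurable ?_
      have h3 : Measurable fun p : ℂ × ℂ => χ p.2 * ‖h (p.1 + p.2)‖ₑ ^ q :=
        (hχ.1.comp measurable_snd).mul
          (((hh.comp (measurable_fst.add measurable_snd)).enorm).pow_const q)
      exact h3
  rw [← h1]
  exact lintegral_mono fun w => jen q l χ h hq hq2 hχ hh w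

end Pool.Agent.N892.BW.JEN
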