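import Pool.Agent.N892.BW.Stm

/-!
Almost orthogonality of the truncated kernels.
-/

set_option autoImplicit false

open MeasureTheory ENNReal Filter Topology Complex
open scoped ComplexConjugate

namespace Pool.Agent.N892.BW.JJ

open Pool.Agent.N892.BW

/-- Bounds for the derivatives of a product. -/
lemma mul_bd {f g : ℂ → ℝ} (hf : ContDiff ℝ 2 f) (hg : ContDiff ℝ 2 g) {x : ℂ} {F G : ℝ}
    (hF : ∀ j ≤ 2, ‖iteratedFDeriv ℝ j f x‖ ≤ F) (hG : ∀ j ≤ 2, ‖iteratedFDeriv ℝ j g x‖ ≤ G) :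
    ∀ j ≤ 2, ‖iteratedFDeriv ℝ j (fun x => f x * g x) x‖ ≤ 4 * F * G := by
  intro j hj
  have hF0 : 0 ≤ F := (norm_nonneg _).trans (hF 0 (by norm_num))
  have hG0 : 0 ≤ G := (norm_nonneg _).trans (hG 0 (by norm_num))
  refine (norm_iteratedFDeriv_mul_le hf hg x (n := j) (by exact_mod_cast hj)).trans ?_
  calc ∑ i ∈ Finset.range (j + 1), (j.choose i : ℝ) * ‖iteratedFDeriv ℝ i f x‖ *
        ‖iteratedFDeriv ℝ (j - i) g x‖
      ≤ ∑ i ∈ Finset.range (j + 1), (j.choose i : ℝ) * F * G := by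
        refine Finset.sum_le_sum fun i hi => ?_
        have hi' := Finset.mem_range.1 hi
        have h1 := hF i (by omega)
        have h2 := hG (j - i) (by omega)
        gcongr
    _ = (2 : ℝ) ^ j * F * G := by
        rw [← Finset.sum_mul, ← Finset.sum_mul]
        congr 2
        exact_mod_cast Nat.sum_range_choose j
    _ ≤ 4 * F * G := by
        have h3 : (2 : ℝ) ^ j ≤ 4 := by interval_cases j <;> norm_num
        gcongr

/-- The derivatives vanish off the support. -/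
lemma zero_of {f : ℂ → ℝ} {S : Set ℂ} (hS : IsClosed S) (hf : ∀ x, f x ≠ 0 → x ∈ S) {x : ℂ}
    (hx : x ∉ S) (j : ℕ) : iteratedFDeriv ℝ j f x = 0 := by
  have h1 : tsupport f ⊆ S := closure_minimal (fun x hx => hf x hx) hS
  by_contra h
  exact hx (h1 (support_iteratedFDeriv_subset (𝕜 := ℝ) j h))

lemma psi_bd {B D : ℝ} {ψ : ℂ → ℝ} (h : Cut B 1 D ψ) (x : ℂ) :
    ∀ j ≤ 2, ‖iteratedFDeriv ℝ j ψ x‖ ≤ max 1 B := by
  intro j hj
  by_cases hx : 1 ≤ ‖x‖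
  · obtain ⟨h1, h2, h3, h4⟩ := h
    interval_cases j
    · rw [norm_iteratedFDeriv_zero, Real.norm_eq_abs, abs_of_nonneg (h2 x).1]
      exact (h2 x).2.trans (le_max_left _ _)
    · rw [norm_iteratedFDeriv_one]
      refine le_trans ?_ ((h4 x).1.trans (le_max_right _ _))
      exact le_mul_of_one_le_right (norm_nonneg _) hx
    · refine le_trans ?_ ((h4 x).2.trans (le_max_right _ _))
      exact le_mul_of_one_le_right (norm_nonneg _) (one_le_pow₀ hx)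
  · have h5 : iteratedFDeriv ℝ j ψ x = 0 := zero_of (S := {x | 1 ≤ ‖x‖})
      (isClosed_le continuous_const continuous_norm) (fun y hy => (h.2.2.1 y hy).1) hx j
    rw [h5, norm_zero]
    exact zero_le_one.trans (le_max_left _ _)

lemma sc_bd {χ : ℂ → ℝ} (hχ : ContDiff ℝ 2 χ) {M : ℝ} (hM0 : 0 ≤ M)
    (hM : ∀ j ≤ 2, ∀ x, ‖iteratedFDeriv ℝ j χ x‖ ≤ M) {l : ℝ} (hl : 0 < l) (hl1 : l ≤ 1)
    (x : ℂ) : ContDiff ℝ 2 (sc χ l) ∧ ∀ j ≤ 2, ‖iteratedFDeriv ℝ j (sc χ l) x‖ ≤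
      M * (l⁻¹) ^ 4 := by
  set g : ℂ →L[ℝ] ℂ := (l⁻¹ : ℝ) • ContinuousLinearMap.id ℝ ℂ with hg
  have h1 : sc χ l = (l ^ 2)⁻¹ • (χ ∘ g) := by
    funext y
    have h2 : g y = ((l⁻¹ : ℝ) : ℂ) * y := by
      rw [hg]
      simp
    rw [Pi.smul_apply, Function.comp_apply, h2, smul_eq_mul, sc]
  have hcomp : ContDiff ℝ 2 (χ ∘ g) := hχ.comp g.contDiff
  have hcd : ContDiff ℝ 2 ((l ^ 2)⁻¹ • (χ ∘ g)) := by
    have h9 : ContDiff ℝ 2 fun y => (l ^ 2)⁻¹ * (χ ∘ g) y := contDiff_const.mul hcomp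
    exact h9
  refine ⟨by rw [h1]; exact hcd, fun j hj => ?_⟩
  have hj' : (j : WithTop ℕ∞) ≤ 2 := by exact_mod_cast hj
  have h3 : ‖g‖ ≤ l⁻¹ := by
    refine ContinuousLinearMap.opNorm_le_bound _ (inv_pos.2 hl).le fun y => ?_
    have h9 : g y = (l⁻¹ : ℝ) • y := rfl
    rw [h9, norm_smul, Real.norm_eq_abs, abs_of_pos (inv_pos.2 hl)]
  rw [h1, iteratedFDeriv_const_smul_apply (hcomp.contDiffAt.of_le hj'),
    g.iteratedFDeriv_comp_right hχ x hj', norm_smul]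
  have h4 := ContinuousMultilinearMap.norm_compContinuousLinearMap_le
    (iteratedFDeriv ℝ j χ (g x)) (fun _ => g)
  rw [Finset.prod_const, Finset.card_univ, Fintype.card_fin] at h4
  have h5 : 1 ≤ l⁻¹ := (one_le_inv₀ hl).2 hl1
  have h6 : ‖g‖ ^ j ≤ (l⁻¹) ^ 2 :=
    (pow_le_pow_left₀ (norm_nonneg _) h3 j).trans (pow_le_pow_right₀ h5 hj)
  have h7 : ‖(l ^ 2)⁻¹‖ = (l⁻¹) ^ 2 := by
    rw [norm_inv, norm_pow, Real.norm_eq_abs, abs_of_pos hl, inv_pow]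
  rw [h7]
  calc (l⁻¹) ^ 2 * ‖(iteratedFDeriv ℝ j χ (g x)).compContinuousLinearMap fun _ => g‖
      ≤ (l⁻¹) ^ 2 * (M * (l⁻¹) ^ 2) := by
        have h8 : ‖(iteratedFDeriv ℝ j χ (g x)).compContinuousLinearMap fun _ => g‖ ≤
            M * (l⁻¹) ^ 2 := h4.trans (mul_le_mul (hM j hj _) h6 (by positivity) hM0)
        gcongr
    _ = M * (l⁻¹) ^ 4 := by ring

lemma lap_bd (Θ : ℂ → ℝ) (x : ℂ) : |lap Θ x| ≤ 2 * ‖iteratedFDeriv ℝ 2 Θ x‖ := by
  have h1 := (iteratedFDeriv ℝ 2 Θ x).le_opNorm ![1, 1]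
  have h2 := (iteratedFDeriv ℝ 2 Θ x).le_opNorm ![Complex.I, Complex.I]
  rw [Fin.prod_univ_two] at h1 h2
  simp only [Matrix.cons_val_zero, Matrix.cons_val_one, norm_one, Complex.norm_I, mul_one,
    Real.norm_eq_abs] at h1 h2
  rw [lap]
  refine (abs_add_le _ _).trans ?_
  linarith

lemma ibp_int {Θ : ℂ → ℝ} {w : ℂ} {l Q : ℝ} (hl : 0 < l)
    (h0 : ∀ x, x ∉ Metric.closedBall w l → iteratedFDeriv ℝ 2 Θ x = 0)
    (h1 : ∀ x, ‖iteratedFDeriv ℝ 2 Θ x‖ ≤ Q) :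
    ∫ x, |lap Θ x| ≤ 2 * Q * (Real.pi * l ^ 2) := by
  have hfin : volume (Metric.closedBall w l) ≠ ∞ := measure_closedBall_lt_top.ne
  have h2 : ∫ x, |lap Θ x| ≤
      ∫ x, (Metric.closedBall w l).indicator (fun _ => 2 * Q) x := by
    refine integral_mono_of_nonneg (Eventually.of_forall fun x => abs_nonneg _) ?_
      (Eventually.of_forall fun x => ?_)
    · exact (integrable_indicator_iff measurableSet_closedBall).2
        (integrableOn_const hfin)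
    · beta_reduce
      by_cases hx : x ∈ Metric.closedBall w l
      · rw [Set.indicator_of_mem hx]
        exact (lap_bd Θ x).trans (by linarith [h1 x])
      · rw [Set.indicator_of_notMem hx]
        have h3 := lap_bd Θ x
        rw [h0 x hx, norm_zero, mul_zero] at h3
        exact h3
  refine h2.trans ?_
  rw [integral_indicator_const _ measurableSet_closedBall, Measure.real,
    Complex.volume_closedBall, ENNReal.toReal_mul, ENNReal.toReal_pow,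
    ENNReal.toReal_ofReal hl.le, ENNReal.coe_toReal, NNReal.coe_real_pi, smul_eq_mul]
  linarith

/-- **Almost orthogonality.** -/
theorem t (h : Pool.Agent.N892.BW.S_IBP) : Pool.Agent.N892.BW.S_JJ := by
  let χ₀ : ContDiffBump (0 : ℂ) := ⟨1 / 2, 1, by norm_num, by norm_num⟩
  let χ : ℂ → ℝ := χ₀.normed volume
  have hχc : ContDiff ℝ 2 χ := χ₀.contDiff_normed
  have hχ0 : ∀ y, 0 ≤ χ y := fun y => χ₀.nonneg_normed y
  have hχs : ∀ y, 1 < ‖y‖ → χ y = 0 := by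
    intro y hy
    by_contra hne
    have h1 : y ∈ Function.support χ := hne
    rw [χ₀.support_normed_eq, mem_ball_zero_iff] at h1
    have h2 : ‖y‖ < 1 := h1
    linarith
  have hχi : ∫ y, χ y = 1 := χ₀.integral_normed
  have hχcs : HasCompactSupport χ := χ₀.hasCompactSupport_normed
  obtain ⟨M, hM0, hM⟩ : ∃ M : ℝ, 0 ≤ M ∧ ∀ j ≤ 2, ∀ x, ‖iteratedFDeriv ℝ j χ x‖ ≤ M := by
    have h1 : ∀ j ≤ 2, ∃ M, ∀ x, ‖iteratedFDeriv ℝ j χ x‖ ≤ M := fun j hj =>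
      (hχcs.iteratedFDeriv j).exists_bound_of_continuous
        (hχc.continuous_iteratedFDeriv (by exact_mod_cast hj))
    choose! M hM using h1
    refine ⟨max 0 (max (M 0) (max (M 1) (M 2))), le_max_left _ _, fun j hj x =>
      (hM j hj x).trans ?_⟩
    interval_cases j <;> simp
  refine ⟨χ, hχc, hχ0, hχs, hχi, fun B => ?_⟩
  set P : ℝ := max 1 B with hPd
  have hP : 0 < P := zero_lt_one.trans_le (le_max_left _ _)
  refine ⟨1 / (4 * Real.pi ^ 2) * (32 * Real.pi * (M + 1) * P ^ 2), by positivity, ?_⟩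
  intro n l D ψ hn hl hl1 hψ z z' w hzz
  have hsc : ContDiff ℝ 2 (sc χ l) := (sc_bd hχc hM0 hM hl hl1 0).1
  have hsc0 : ∀ y, l < ‖y‖ → sc χ l y = 0 := by
    intro y hy
    rw [sc, hχs, mul_zero]
    rw [norm_mul, Complex.norm_real, Real.norm_eq_abs, abs_of_pos (inv_pos.2 hl)]
    rw [inv_mul_eq_div, one_lt_div hl]
    exact hy
  set Θ : ℂ → ℝ := fun x => sc χ l (x - w) * (ψ (x - z) * ψ (x - z')) with hΘd
  have c1 : ContDiff ℝ 2 fun x => sc χ l (x - w) := hsc.comp (contDiff_id.sub contDiff_const)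
  have c2 : ∀ a : ℂ, ContDiff ℝ 2 fun x => ψ (x - a) := fun a =>
    hψ.1.comp (contDiff_id.sub contDiff_const)
  have hΘ : ContDiff ℝ 2 Θ := c1.mul ((c2 z).mul (c2 z'))
  have b1 : ∀ x, ∀ j ≤ 2, ‖iteratedFDeriv ℝ j (fun x => sc χ l (x - w)) x‖ ≤ M * (l⁻¹) ^ 4 := by
    intro x j hj
    rw [iteratedFDeriv_comp_sub]
    exact (sc_bd hχc hM0 hM hl hl1 _).2 j hj
  have b2 : ∀ a x : ℂ, ∀ j ≤ 2, ‖iteratedFDeriv ℝ j (fun x => ψ (x - a)) x‖ ≤ P := by
    intro a x j hj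
    rw [iteratedFDeriv_comp_sub]
    exact psi_bd hψ _ j hj
  have b3 : ∀ x, ‖iteratedFDeriv ℝ 2 Θ x‖ ≤ 4 * (M * (l⁻¹) ^ 4) * (4 * P * P) := fun x =>
    mul_bd c1 ((c2 z).mul (c2 z')) (b1 x) (mul_bd (c2 z) (c2 z') (b2 z x) (b2 z' x)) 2 le_rfl
  have hz0 : ∀ x, x ∉ Metric.closedBall w l → Θ x = 0 := by
    intro x hx
    rw [mem_closedBall_iff_norm, not_le] at hx
    rw [hΘd]
    beta_reduce
    rw [hsc0 _ hx, zero_mul]
  have hsupp : ∀ x, Θ x ≠ 0 → x ∈ Metric.closedBall w l := fun x hx => by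
    by_contra h1
    exact hx (hz0 x h1)
  have hcs : HasCompactSupport Θ := HasCompactSupport.intro (isCompact_closedBall w l) hz0
  have hts : ∀ a : ℂ, (∀ x, Θ x ≠ 0 → ψ (x - a) ≠ 0) → a ∉ tsupport Θ := by
    intro a ha hmem
    have h1 : tsupport Θ ⊆ {x | 1 ≤ ‖x - a‖} :=
      closure_minimal (fun x hx => (hψ.2.2.1 _ (ha x hx)).1)
        (isClosed_le continuous_const (by fun_prop))
    have h2 := h1 hmem
    rw [Set.mem_ofPred_eq, sub_self, norm_zero] at h2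
    linarith
  have h1 := h n hn z z' hzz Θ hΘ hcs
    (hts z fun x hx => left_ne_zero_of_mul (right_ne_zero_of_mul hx))
    (hts z' fun x hx => right_ne_zero_of_mul (right_ne_zero_of_mul hx))
  have h2 : ∫ y, (sc χ l y : ℂ) * (kk n ψ (w + y - z) * conj (kk n ψ (w + y - z'))) =
      ∫ x, (Θ x : ℂ) * (Kn n (x - z) * conj (Kn n (x - z'))) := by
    rw [← integral_add_left_eq_self (fun x => (Θ x : ℂ) * (Kn n (x - z) *
      conj (Kn n (x - z')))) w]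
    congr 1
    funext y
    rw [hΘd]
    simp only [kk, map_mul, Complex.conj_ofReal, add_sub_cancel_left, Complex.ofReal_mul]
    ring
  rw [h2]
  refine h1.trans ?_
  have h3 := ibp_int (Θ := Θ) (w := w) hl (Q := 4 * (M * (l⁻¹) ^ 4) * (4 * P * P))
    (fun x hx => zero_of Metric.isClosed_closedBall hsupp hx 2) b3
  have hzz' : 0 < ‖z - z'‖ := norm_pos_iff.2 (sub_ne_zero.2 hzz)
  calc 1 / (4 * Real.pi ^ 2 * ‖z - z'‖ ^ 2) * ∫ w, |lap Θ w|
      ≤ 1 / (4 * Real.pi ^ 2 * ‖z - z'‖ ^ 2) *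
        (2 * (4 * (M * (l⁻¹) ^ 4) * (4 * P * P)) * (Real.pi * l ^ 2)) := by gcongr
    _ = 1 / (4 * Real.pi ^ 2) * (32 * Real.pi * M * P ^ 2) / (l ^ 2 * ‖z - z'‖ ^ 2) := by
        field_simp
        ring
    _ ≤ 1 / (4 * Real.pi ^ 2) * (32 * Real.pi * (M + 1) * P ^ 2) / (l ^ 2 * ‖z - z'‖ ^ 2) := by
        gcongr
        linarith

end Pool.Agent.N892.BW.JJ
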