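import Pool.Agent.N892.BW.Stm

/-!
# BW/LAY (helper456): a grid with little mass near the boundaries of the cells
-/

set_option autoImplicit false

open MeasureTheory ENNReal Filter Topology Complex

namespace Pool.Agent.N892.BW.LAY

/-- the point `x` is near the boundary of the cells with offset `o` -/
def Bad (a η x o : ℝ) : Prop :=
  Int.fract ((x - o) / a) < η / 2 ∨ 1 - η / 2 < Int.fract ((x - o) / a)

theorem bad_vol (a η x : ℝ) (ha : 0 < a) (hη : 0 < η) (hη1 : η < 1) :
    volume ({o | Bad a η x o} ∩ Set.Ico 0 a) ≤ ENNReal.ofReal (η * a) := by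
  set m : ℤ := ⌊x / a⌋ with hm
  set φ : ℝ := Int.fract (x / a) with hφ
  have hφ0 : 0 ≤ φ := Int.fract_nonneg _
  have hφ1 : φ < 1 := Int.fract_lt_one _
  have hx : x / a = m + φ := by
    have := Int.floor_add_fract (x / a)
    rw [← hm, ← hφ] at this
    exact this.symm
  have hx' : x = a * (m + φ) := by
    rw [← hx]
    field_simp
  -- the description of the bad offsets
  have key : ∀ o ∈ {o | Bad a η x o} ∩ Set.Ico 0 a,
      (φ - η / 2 < o / a ∧ o / a < φ + η / 2) ∨ o / a < φ - 1 + η / 2 ∨ φ + 1 - η / 2 < o / a := by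
    rintro o ⟨ho, ho0, hoa⟩
    have t0 : 0 ≤ o / a := div_nonneg ho0 ha.le
    have t1 : o / a < 1 := (div_lt_one ha).2 hoa
    have e : (x - o) / a = m + (φ - o / a) := by
      rw [sub_div, hx]
      ring
    change Int.fract ((x - o) / a) < η / 2 ∨ 1 - η / 2 < Int.fract ((x - o) / a) at ho
    rw [e, Int.fract_intCast_add] at ho
    rcases le_or_gt (o / a) φ with h | h
    · have e2 : Int.fract (φ - o / a) = φ - o / a :=
        Int.fract_eq_self.2 ⟨by linarith, by linarith⟩
      rw [e2] at ho
      rcases ho with ho | ho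
      · left
        constructor <;> linarith
      · right
        left
        linarith
    · have e2 : Int.fract (φ - o / a) = φ - o / a + 1 := by
        rw [Int.fract_eq_iff]
        exact ⟨by linarith, by linarith, -1, by push_cast; ring⟩
      rw [e2] at ho
      rcases ho with ho | ho
      · right
        right
        linarith
      · left
        constructor <;> linarith
  have hmul : ∀ o c : ℝ, o / a < c ↔ o < c * a := fun o c => div_lt_iff₀ ha
  have hmul' : ∀ o c : ℝ, c < o / a ↔ c * a < o := fun o c => lt_div_iff₀ ha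
  rcases lt_or_ge φ (η / 2) with h1 | h1
  · have hsub : {o | Bad a η x o} ∩ Set.Ico 0 a ⊆
        Set.Icc 0 ((φ + η / 2) * a) ∪ Set.Icc ((φ + 1 - η / 2) * a) a := by
      intro o ho
      have h2 := key o ho
      obtain ⟨-, ho0, hoa⟩ := ho
      have t0 : 0 ≤ o / a := div_nonneg ho0 ha.le
      rcases h2 with h2 | h2 | h2
      · left
        exact ⟨ho0, ((hmul _ _).1 h2.2).le⟩
      · exfalso
        linarith
      · right
        exact ⟨((hmul' _ _).1 h2).le, hoa.le⟩
    refine (measure_mono hsub).trans ((measure_union_le _ _).trans ?_)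
    rw [Real.volume_Icc, Real.volume_Icc, ← ENNReal.ofReal_add]
    · refine ENNReal.ofReal_le_ofReal ?_
      nlinarith
    · have : 0 ≤ (φ + η / 2) * a := by positivity
      linarith
    · nlinarith
  · rcases lt_or_ge (1 - η / 2) φ with h3 | h3
    · have hsub : {o | Bad a η x o} ∩ Set.Ico 0 a ⊆
          Set.Icc 0 ((φ - 1 + η / 2) * a) ∪ Set.Icc ((φ - η / 2) * a) a := by
        intro o ho
        have h2 := key o ho
        obtain ⟨-, ho0, hoa⟩ := ho
        have t1 : o / a < 1 := (div_lt_one ha).2 hoa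
        rcases h2 with h2 | h2 | h2
        · right
          exact ⟨((hmul' _ _).1 h2.1).le, hoa.le⟩
        · left
          exact ⟨ho0, ((hmul _ _).1 h2).le⟩
        · exfalso
          linarith
      refine (measure_mono hsub).trans ((measure_union_le _ _).trans ?_)
      rw [Real.volume_Icc, Real.volume_Icc, ← ENNReal.ofReal_add]
      · refine ENNReal.ofReal_le_ofReal ?_
        nlinarith
      · have : 0 ≤ (φ - 1 + η / 2) * a := mul_nonneg (by linarith) ha.le
        linarith
      · nlinarith
    · have hsub : {o | Bad a η x o} ∩ Set.Ico 0 a ⊆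
          Set.Icc ((φ - η / 2) * a) ((φ + η / 2) * a) := by
        intro o ho
        have h2 := key o ho
        obtain ⟨-, ho0, hoa⟩ := ho
        have t0 : 0 ≤ o / a := div_nonneg ho0 ha.le
        have t1 : o / a < 1 := (div_lt_one ha).2 hoa
        rcases h2 with h2 | h2 | h2
        · exact ⟨((hmul' _ _).1 h2.1).le, ((hmul _ _).1 h2.2).le⟩
        · exfalso
          linarith
        · exfalso
          linarith
      refine (measure_mono hsub).trans ?_
      rw [Real.volume_Icc]
      refine ENNReal.ofReal_le_ofReal ?_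
      nlinarith

theorem bad_meas (a η : ℝ) : MeasurableSet {p : ℝ × ℝ | Bad a η p.1 p.2} := by
  have hf : Measurable fun p : ℝ × ℝ => Int.fract ((p.1 - p.2) / a) :=
    measurable_fract.comp ((measurable_fst.sub measurable_snd).div_const a)
  exact (measurableSet_lt hf measurable_const).union (measurableSet_lt measurable_const hf)

/-- one coordinate -/
theorem strip (a η : ℝ) (ha : 0 < a) (hη : 0 < η) (hη1 : η < 1) (h : ℂ → ℝ≥0∞) (hh : Measurable h)
    (X : ℂ → ℝ) (hX : Measurable X) :
    ∃ o : ℝ, ∫⁻ z in {z | Bad a η (X z) o}, h z ≤ ENNReal.ofReal η * ∫⁻ z, h z := by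
  set B : Set (ℝ × ℂ) := {p | Bad a η (X p.2) p.1} with hB
  have hBm : MeasurableSet B :=
    (bad_meas a η).preimage ((hX.comp measurable_snd).prodMk measurable_fst)
  set F : ℝ × ℂ → ℝ≥0∞ := B.indicator fun p => h p.2 with hF
  have hFm : Measurable F := (hh.comp measurable_snd).indicator hBm
  have hva : volume (Set.Ico 0 a) = ENNReal.ofReal a := by
    rw [Real.volume_Ico, sub_zero]
  have hm : AEMeasurable (fun o => ∫⁻ z, F (o, z)) (volume.restrict (Set.Ico 0 a)) :=
    (hFm.lintegral_prod_right').aemeasurable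
  obtain ⟨o, -, ho⟩ := exists_le_setLAverage (μ := volume) (s := Set.Ico 0 a)
    (by rw [hva]; simpa using ha) (by rw [hva]; exact ENNReal.ofReal_ne_top) hm
  refine ⟨o, ?_⟩
  have e1 : ∫⁻ z in {z | Bad a η (X z) o}, h z = ∫⁻ z, F (o, z) := by
    have hs : MeasurableSet {z | Bad a η (X z) o} :=
      (bad_meas a η).preimage (hX.prodMk measurable_const)
    rw [← lintegral_indicator hs]
    rfl
  rw [e1]
  refine ho.trans ?_
  rw [setLAverage_eq, hva]
  have e2 : ∫⁻ o in Set.Ico 0 a, ∫⁻ z, F (o, z) ≤ ENNReal.ofReal (η * a) * ∫⁻ z, h z := by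
    have hsw : ∫⁻ o in Set.Ico 0 a, ∫⁻ z, F (o, z) = ∫⁻ z, ∫⁻ o in Set.Ico 0 a, F (o, z) :=
      lintegral_lintegral_swap (f := fun o z => F (o, z)) (by exact hFm.aemeasurable)
    rw [hsw, ← lintegral_const_mul _ hh]
    refine lintegral_mono fun z => ?_
    have hs : MeasurableSet {o | Bad a η (X z) o} :=
      (bad_meas a η).preimage (measurable_const.prodMk measurable_id)
    have e3 : (fun o => F (o, z)) = {o | Bad a η (X z) o}.indicator fun _ => h z := rfl
    rw [e3, lintegral_indicator hs, setLIntegral_const, Measure.restrict_apply hs, mul_comm]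
    exact mul_le_mul_left (bad_vol a η (X z) ha hη hη1) (h z)
  refine (ENNReal.div_le_div_right e2 _).trans (le_of_eq ?_)
  rw [ENNReal.ofReal_mul hη.le, mul_assoc, mul_comm (ENNReal.ofReal a), ← mul_assoc,
    mul_div_assoc, ENNReal.div_self (by simpa using ha) ENNReal.ofReal_ne_top, mul_one]

theorem sep (a η x x' o : ℝ) (ha : 0 < a) (h : ¬ Bad a η x o) (h' : ¬ Bad a η x' o)
    (hne : ⌊(x - o) / a⌋ ≠ ⌊(x' - o) / a⌋) : η * a ≤ |x - x'| := by
  unfold Bad at h h'
  push Not at h h'
  have e : (x - o) / a = ⌊(x - o) / a⌋ + Int.fract ((x - o) / a) := (Int.floor_add_fract _).symm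
  have e' : (x' - o) / a = ⌊(x' - o) / a⌋ + Int.fract ((x' - o) / a) :=
    (Int.floor_add_fract _).symm
  have e2 : x - x' = a * ((x - o) / a - (x' - o) / a) := by
    field_simp
    ring
  have key : η ≤ |(x - o) / a - (x' - o) / a| := by
    rcases lt_or_gt_of_ne hne with h3 | h3
    · have h4 : ((⌊(x - o) / a⌋ : ℤ) : ℝ) + 1 ≤ (⌊(x' - o) / a⌋ : ℤ) := by exact_mod_cast h3
      rw [abs_sub_comm]
      refine le_trans ?_ (le_abs_self _)
      rw [e, e']
      simp only [Int.floor_add_fract]
      linarith [h.1, h.2, h'.1, h'.2]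
    · have h4 : ((⌊(x' - o) / a⌋ : ℤ) : ℝ) + 1 ≤ (⌊(x - o) / a⌋ : ℤ) := by exact_mod_cast h3
      refine le_trans ?_ (le_abs_self _)
      rw [e, e']
      simp only [Int.floor_add_fract]
      linarith [h.1, h.2, h'.1, h'.2]
  rw [e2, abs_mul, abs_of_pos ha, mul_comm η]
  exact mul_le_mul_of_nonneg_left key ha.le

theorem same (a x x' o : ℝ) (ha : 0 < a) (he : ⌊(x - o) / a⌋ = ⌊(x' - o) / a⌋) :
    |x - x'| ≤ a := by
  have e2 : x - x' = a * ((x - o) / a - (x' - o) / a) := by
    field_simp
    ring
  have h1 := Int.abs_sub_lt_one_of_floor_eq_floor he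
  rw [e2, abs_mul, abs_of_pos ha]
  nlinarith

theorem t : Pool.Agent.N892.BW.S_LAY := by
  intro q a η g hq ha hη hη1 hg
  have hh : Measurable fun z => ‖g z‖ₑ ^ q := hg.1.enorm.pow_const q
  obtain ⟨o1, h1⟩ := strip a η ha hη hη1 _ hh Complex.re Complex.measurable_re
  obtain ⟨o2, h2⟩ := strip a η ha hη hη1 _ hh Complex.im Complex.measurable_im
  have m1 : MeasurableSet {z : ℂ | Bad a η z.re o1} :=
    (bad_meas a η).preimage (Complex.measurable_re.prodMk measurable_const)
  have m2 : MeasurableSet {z : ℂ | Bad a η z.im o2} :=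
    (bad_meas a η).preimage (Complex.measurable_im.prodMk measurable_const)
  refine ⟨fun z => (⌊(z.re - o1) / a⌋, ⌊(z.im - o2) / a⌋),
    ({z | Bad a η z.re o1} ∪ {z | Bad a η z.im o2})ᶜ, ?_, (m1.union m2).compl, ?_, ?_, ?_⟩
  · exact (Int.measurable_floor.comp ((Complex.measurable_re.sub_const _).div_const _)).prodMk
      (Int.measurable_floor.comp ((Complex.measurable_im.sub_const _).div_const _))
  · rw [compl_compl]
    refine (lintegral_union_le _ _ _).trans ((add_le_add h1 h2).trans (le_of_eq ?_))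
    rw [two_mul, ENNReal.ofReal_add hη.le hη.le, add_mul]
  · intro z hz z' hz' hne
    simp only [Set.mem_compl_iff, Set.mem_union, Set.mem_setOf_eq, not_or] at hz hz'
    by_cases hc : ⌊(z.re - o1) / a⌋ = ⌊(z'.re - o1) / a⌋
    · have hd : ⌊(z.im - o2) / a⌋ ≠ ⌊(z'.im - o2) / a⌋ := fun hd => hne (Prod.ext hc hd)
      refine (sep a η z.im z'.im o2 ha hz.2 hz'.2 hd).trans ?_
      rw [← Complex.sub_im]
      exact Complex.abs_im_le_norm _
    · refine (sep a η z.re z'.re o1 ha hz.1 hz'.1 hc).trans ?_
      rw [← Complex.sub_re]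
      exact Complex.abs_re_le_norm _
  · intro z z' he
    have e1 := congrArg Prod.fst he
    have e2 := congrArg Prod.snd he
    refine (Complex.norm_le_abs_re_add_abs_im _).trans ?_
    rw [Complex.sub_re, Complex.sub_im]
    have := same a z.re z'.re o1 ha e1
    have := same a z.im z'.im o2 ha e2
    linarith

end Pool.Agent.N892.BW.LAY
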