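import Pool.Agent.N892.BW.Stm

/-!
Powers of the Beurling transform, part LIN: the kernel near a far point is a plane wave.
-/

set_option autoImplicit false

open MeasureTheory ENNReal Filter Topology Complex
open scoped ComplexConjugate

namespace Pool.Agent.N892.BW.LIN

open Pool.Agent.N892.BW

theorem log_est (x : ℂ) (hx : ‖x‖ ≤ 1 / 4) : ‖Complex.log (1 - x) + x‖ ≤ 2 / 3 * ‖x‖ ^ 2 := by
  have h := Complex.norm_log_one_add_sub_self_le (z := -x) (by rw [norm_neg]; linarith)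
  rw [norm_neg, sub_neg_eq_add, ← sub_eq_add_neg] at h
  refine h.trans ?_
  have h1 : (1 - ‖x‖)⁻¹ ≤ 4 / 3 := by
    rw [inv_le_comm₀ (by linarith) (by norm_num)]
    linarith
  have h2 := mul_le_mul_of_nonneg_left h1 (sq_nonneg ‖x‖)
  linarith

theorem exp_est (E : ℂ) (hE : ‖E‖ ≤ 2) : ‖Complex.exp E - 1‖ ≤ 8 * ‖E‖ := by
  have h := Complex.norm_exp_sub_sum_le_norm_mul_exp E 1
  simp only [Finset.sum_range_one, pow_zero, Nat.factorial_zero, Nat.cast_one, div_one,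
    pow_one] at h
  have h2 : Real.exp ‖E‖ ≤ 8 := by
    refine (Real.exp_le_exp.2 hE).trans ?_
    have h3 : Real.exp 2 = Real.exp 1 * Real.exp 1 := by rw [← Real.exp_add]; norm_num
    have h4 := Real.exp_one_lt_d9
    have h5 := Real.exp_pos 1
    rw [h3]
    nlinarith
  have h3 := mul_le_mul_of_nonneg_left h2 (norm_nonneg E)
  linarith

theorem main_est (n : ℕ) (hn : 1 ≤ n) (ζ : ℂ) (h1 : ‖ζ‖ ≤ 1 / 4) (h2 : n * ‖ζ‖ ^ 2 ≤ 1) :
    ‖(1 - conj ζ) ^ (n - 1) / (1 - ζ) ^ (n + 1) - Complex.exp (n * (ζ - conj ζ))‖ ≤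
      100 * (‖ζ‖ + n * ‖ζ‖ ^ 2) := by
  have hc : ‖conj ζ‖ = ‖ζ‖ := Complex.norm_conj ζ
  have n1 : 1 - ζ ≠ 0 := by
    intro h
    have h3 : ζ = 1 := (sub_eq_zero.1 h).symm
    rw [h3, norm_one] at h1
    norm_num at h1
  have n2 : 1 - conj ζ ≠ 0 := by
    intro h
    have h3 : conj ζ = 1 := (sub_eq_zero.1 h).symm
    rw [← hc, h3, norm_one] at h1
    norm_num at h1
  set L1 := Complex.log (1 - conj ζ) with hL1
  set L2 := Complex.log (1 - ζ) with hL2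
  have e1 : (1 - conj ζ) ^ (n - 1) = Complex.exp (((n - 1 : ℕ) : ℂ) * L1) := by
    rw [Complex.exp_nat_mul, hL1, Complex.exp_log n2]
  have e2 : (1 - ζ) ^ (n + 1) = Complex.exp (((n + 1 : ℕ) : ℂ) * L2) := by
    rw [Complex.exp_nat_mul, hL2, Complex.exp_log n1]
  set E : ℂ := ((n - 1 : ℕ) : ℂ) * (L1 + conj ζ) - ((n + 1 : ℕ) : ℂ) * (L2 + ζ) + (conj ζ + ζ) with hE
  have hcast : (((n - 1 : ℕ) : ℂ)) = n - 1 := by
    rw [Nat.cast_sub hn]
    simp
  have e3 : (1 - conj ζ) ^ (n - 1) / (1 - ζ) ^ (n + 1) =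
      Complex.exp (n * (ζ - conj ζ)) * Complex.exp E := by
    rw [e1, e2, ← Complex.exp_sub, ← Complex.exp_add]
    congr 1
    rw [hE, hcast]
    push_cast
    ring
  have e4 : ‖Complex.exp (n * (ζ - conj ζ))‖ = 1 := by
    rw [Complex.norm_exp]
    have : ((n : ℂ) * (ζ - conj ζ)).re = 0 := by
      simp
    rw [this, Real.exp_zero]
  have hE1 : ‖E‖ ≤ 4 / 3 * (n * ‖ζ‖ ^ 2) + 2 * ‖ζ‖ := by
    have g1 : ‖((n - 1 : ℕ) : ℂ) * (L1 + conj ζ)‖ ≤ ((n : ℝ) - 1) * (2 / 3 * ‖ζ‖ ^ 2) := by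
      rw [norm_mul, Complex.norm_natCast, Nat.cast_sub hn, Nat.cast_one]
      have h3 := log_est (conj ζ) (by rw [hc]; exact h1)
      rw [hc] at h3
      exact mul_le_mul_of_nonneg_left h3 (by
        have : (1 : ℝ) ≤ n := by exact_mod_cast hn
        linarith)
    have g2 : ‖((n + 1 : ℕ) : ℂ) * (L2 + ζ)‖ ≤ ((n : ℝ) + 1) * (2 / 3 * ‖ζ‖ ^ 2) := by
      rw [norm_mul, Complex.norm_natCast, Nat.cast_add, Nat.cast_one]
      exact mul_le_mul_of_nonneg_left (log_est ζ h1) (by positivity)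
    have g3 : ‖conj ζ + ζ‖ ≤ ‖ζ‖ + ‖ζ‖ := (norm_add_le _ _).trans (by rw [hc])
    have g4 := norm_add_le (((n - 1 : ℕ) : ℂ) * (L1 + conj ζ) - ((n + 1 : ℕ) : ℂ) * (L2 + ζ))
      (conj ζ + ζ)
    have g5 := norm_sub_le (((n - 1 : ℕ) : ℂ) * (L1 + conj ζ)) (((n + 1 : ℕ) : ℂ) * (L2 + ζ))
    rw [← hE] at g4
    linarith
  have hE2 : ‖E‖ ≤ 2 := by linarith
  have e5 := exp_est E hE2
  have e6 : (1 - conj ζ) ^ (n - 1) / (1 - ζ) ^ (n + 1) - Complex.exp (n * (ζ - conj ζ)) =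
      Complex.exp (n * (ζ - conj ζ)) * (Complex.exp E - 1) := by
    rw [e3]
    ring
  rw [e6, norm_mul, e4, one_mul]
  have h3 : 0 ≤ (n : ℝ) * ‖ζ‖ ^ 2 := by positivity
  have h4 := norm_nonneg ζ
  linarith

theorem t : S_LIN := by
  intro n hn w z hw hz hnz
  have hw' : 0 < ‖w‖ := norm_pos_iff.2 hw
  obtain ⟨ζ, hζ⟩ : ∃ ζ : ℂ, z = w * ζ := ⟨z / w, by field_simp⟩
  have hζn : ‖z‖ / ‖w‖ = ‖ζ‖ := by
    rw [hζ, norm_mul]
    field_simp
  have h1 : ‖ζ‖ ≤ 1 / 4 := by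
    rw [← hζn, div_le_iff₀ hw']
    linarith
  have h2 : n * ‖ζ‖ ^ 2 ≤ 1 := by
    rw [← hζn, div_pow, mul_div_assoc', div_le_one (by positivity)]
    exact hnz
  have hmain := main_est n hn ζ h1 h2
  have n1 : 1 - ζ ≠ 0 := by
    intro h
    have h3 : ζ = 1 := (sub_eq_zero.1 h).symm
    rw [h3, norm_one] at h1
    norm_num at h1
  have hcw : conj w ≠ 0 := (map_ne_zero _).2 hw
  have e1 : Kn n (w - z) = Kn n w * ((1 - conj ζ) ^ (n - 1) / (1 - ζ) ^ (n + 1)) := by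
    unfold Kn
    have g1 : w - z = w * (1 - ζ) := by rw [hζ]; ring
    rw [g1, map_mul, mul_pow, mul_pow, map_sub, map_one]
    field_simp
  have e2 : ex z (iv n w) = Complex.exp (n * (ζ - conj ζ)) := by
    unfold ex iv
    congr 1
    have g1 : z * conj (2 * (n : ℂ) / conj w) = 2 * n * ζ := by
      rw [map_div₀, Complex.conj_conj, hζ, map_mul, Complex.conj_natCast]
      have : conj (2 : ℂ) = 2 := Complex.conj_ofNat 2
      rw [this]
      field_simp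
    rw [g1]
    apply Complex.ext
    · simp
    · simp
      ring
  have e3 : ‖Kn n w‖ = ker n w := by
    unfold Kn ker
    rw [norm_div, norm_mul, norm_mul, norm_pow, norm_neg, norm_one, one_pow, one_mul, norm_div,
      Complex.norm_natCast, Complex.norm_real, Real.norm_of_nonneg Real.pi_pos.le, norm_pow,
      norm_pow, Complex.norm_conj]
    obtain ⟨m, rfl⟩ : ∃ m, n = m + 1 := ⟨n - 1, by omega⟩
    rw [Nat.add_sub_cancel]
    have := Real.pi_pos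
    field_simp
    ring
  rw [e1, e2, ← mul_sub, norm_mul, e3, hζn]
  have hk : 0 ≤ ker n w := by
    rw [← e3]
    exact norm_nonneg _
  calc ker n w * _ ≤ ker n w * (100 * (‖ζ‖ + n * ‖ζ‖ ^ 2)) := mul_le_mul_of_nonneg_left hmain hk
    _ = _ := by ring

end Pool.Agent.N892.BW.LIN
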