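import Mathlib
import Pool.Agent.N892.BW.Stm

/-!
LQ, part A: measurability, additivity, the estimate of the inner part and the self-improvement.
(helper615)
-/

set_option autoImplicit false

open MeasureTheory ENNReal Filter Topology Complex
open scoped ComplexConjugate

namespace Pool.Agent.N892.BW.LQ

theorem nice_ind {g : ℂ → ℂ} (hg : Nice g) {I : Set ℂ} (hI : MeasurableSet I) :
    Nice (I.indicator g) := by
  obtain ⟨h1, ⟨M, hM⟩, R, hR⟩ := hg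
  refine ⟨h1.indicator hI, ⟨M, fun x => ?_⟩, R, fun x hx => ?_⟩
  · by_cases h : x ∈ I
    · rw [Set.indicator_of_mem h]
      exact hM x
    · rw [Set.indicator_of_notMem h, norm_zero]
      exact (norm_nonneg _).trans (hM x)
  · by_cases h : x ∈ I
    · rw [Set.indicator_of_mem h]
      exact hR x hx
    · rw [Set.indicator_of_notMem h]

theorem kk_meas (n : ℕ) {ψ : ℂ → ℝ} (hψ : Continuous ψ) : Measurable (kk n ψ) := by
  unfold kk Kn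
  have h1 : Measurable fun x : ℂ => (starRingEnd ℂ) x := Complex.continuous_conj.measurable
  have h2 : Measurable ψ := hψ.measurable
  fun_prop

theorem kk_bd {n : ℕ} (hn : 1 ≤ n) {B D : ℝ} {ψ : ℂ → ℝ} (hψ : Cut B 1 D ψ) (x : ℂ) :
    ‖kk n ψ x‖ ≤ n / Real.pi := by
  have hn0 : (0 : ℝ) ≤ n / Real.pi := by positivity
  by_cases h : ψ x = 0
  · unfold kk
    rw [h, Complex.ofReal_zero, mul_zero, norm_zero]
    exact hn0
  · have h1 : 1 ≤ ‖x‖ := (hψ.2.2.1 x h).1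
    have h2 := hψ.2.1 x
    unfold kk Kn
    rw [norm_mul, norm_div, norm_mul, norm_mul, norm_pow, norm_neg, norm_one, one_pow, one_mul,
      norm_div, norm_pow, norm_pow, Complex.norm_natCast, RCLike.norm_conj, Complex.norm_real,
      Complex.norm_real, Real.norm_eq_abs, Real.norm_eq_abs, abs_of_pos Real.pi_pos,
      abs_of_nonneg h2.1, mul_div_assoc, mul_assoc]
    refine mul_le_of_le_one_right hn0 (mul_le_one₀ ?_ h2.1 h2.2)
    rw [div_le_one (by positivity)]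
    exact pow_le_pow_right₀ h1 (by omega)

theorem integ {n : ℕ} (hn : 1 ≤ n) {B D : ℝ} {ψ : ℂ → ℝ} (hψ : Cut B 1 D ψ) {g : ℂ → ℂ}
    (hg : Nice g) (w : ℂ) : Integrable fun z => kk n ψ (w - z) * g z := by
  have hc : Continuous ψ := hψ.1.continuous
  obtain ⟨h1, ⟨M, hM⟩, R, hR⟩ := hg
  have hmeas : Measurable fun z => kk n ψ (w - z) * g z :=
    ((kk_meas n hc).comp (measurable_const.sub measurable_id)).mul h1
  have hsupp : Function.support (fun z => kk n ψ (w - z) * g z) ⊆ Metric.closedBall (0 : ℂ) R := by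
    intro z hz
    rw [mem_closedBall_zero_iff]
    by_contra hcon
    refine hz ?_
    change kk n ψ (w - z) * g z = 0
    rw [hR z (not_le.1 hcon), mul_zero]
  rw [← integrableOn_iff_integrable_of_support_subset hsupp]
  refine Measure.integrableOn_of_bounded (M := n / Real.pi * M) measure_closedBall_lt_top.ne
    hmeas.aestronglyMeasurable (Eventually.of_forall fun z => ?_)
  rw [norm_mul]
  exact mul_le_mul (kk_bd hn hψ _) (hM z) (norm_nonneg _) (by positivity)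

theorem So_meas {n : ℕ} {ψ : ℂ → ℝ} (hψ : Continuous ψ) {g : ℂ → ℂ} (hg : Nice g) :
    Measurable (So n ψ g) := by
  have h1 : Measurable (Function.uncurry fun w z : ℂ => kk n ψ (w - z) * g z) :=
    ((kk_meas n hψ).comp (measurable_fst.sub measurable_snd)).mul (hg.1.comp measurable_snd)
  exact (h1.stronglyMeasurable.integral_prod_right).measurable

theorem So_add {n : ℕ} (hn : 1 ≤ n) {B D : ℝ} {ψ : ℂ → ℝ} (hψ : Cut B 1 D ψ) {g : ℂ → ℂ}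
    (hg : Nice g) {I : Set ℂ} (hI : MeasurableSet I) (w : ℂ) :
    So n ψ g w = So n ψ (I.indicator g) w + So n ψ (Iᶜ.indicator g) w := by
  unfold So
  rw [← integral_add (integ hn hψ (nice_ind hg hI) w) (integ hn hψ (nice_ind hg hI.compl) w)]
  refine integral_congr_ae (Eventually.of_forall fun z => ?_)
  beta_reduce
  rw [← mul_add]
  congr 1
  exact (congrFun (Set.indicator_self_add_compl I g) z).symm

/-- the estimate of the inner part -/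
theorem inner {m n : ℕ} {ψ : ℂ → ℝ} {χ : ℂ → ℝ} {R δ E off : ℝ} (hq : 1 ≤ qq m)
    (hE : 0 ≤ E) (hoff : 0 ≤ off) (hψ : Continuous ψ)
    (hcell : ∀ (a : ℂ) (g : ℂ → ℂ), Nice g → (∀ z, g z ≠ 0 → ‖z - a‖ ≤ R) →
      (∫⁻ w, (∫⁻ y, ENNReal.ofReal (χ y) * ‖So n ψ g (w + y)‖ₑ ^ 2) ^ (qq m / 2)) ^ (1 / qq m) ≤
        ENNReal.ofReal E * (∫⁻ z, ‖g z‖ₑ ^ (qq m)) ^ (1 / qq m))
    (hint : ∀ (cell : ℂ → ℤ × ℤ) (g : ℂ → ℂ), Measurable cell → Nice g →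
      (∀ z z', g z ≠ 0 → g z' ≠ 0 → cell z ≠ cell z' → δ ≤ ‖z - z'‖) →
      ∫⁻ w, (∫⁻ y, ENNReal.ofReal (χ y) * ‖So n ψ g (w + y)‖ₑ ^ 2) ^ (qq m / 2) ≤
        (∑' Q : ℤ × ℤ, ∫⁻ w, (∫⁻ y, ENNReal.ofReal (χ y) *
          ‖So n ψ (pc cell g Q) (w + y)‖ₑ ^ 2) ^ (qq m / 2)) +
        ENNReal.ofReal off * ∫⁻ z, ‖g z‖ₑ ^ (qq m))
    (hjen : ∀ h : ℂ → ℂ, Measurable h → ∫⁻ w, ‖h w‖ₑ ^ (qq m) ≤
      ∫⁻ w, (∫⁻ y, ENNReal.ofReal (χ y) * ‖h (w + y)‖ₑ ^ 2) ^ (qq m / 2))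
    {g : ℂ → ℂ} (hg : Nice g) {cell : ℂ → ℤ × ℤ} {I : Set ℂ} (hcm : Measurable cell)
    (hI : MeasurableSet I) (hsep : ∀ z ∈ I, ∀ z' ∈ I, cell z ≠ cell z' → δ ≤ ‖z - z'‖)
    (hdiam : ∀ z z', cell z = cell z' → ‖z - z'‖ ≤ R) :
    ∫⁻ w, ‖So n ψ (I.indicator g) w‖ₑ ^ (qq m) ≤
      ENNReal.ofReal ((E + off ^ (1 / qq m)) ^ (qq m)) * ∫⁻ z, ‖g z‖ₑ ^ (qq m) := by
  have hq0 : 0 < qq m := by linarith
  obtain ⟨q, hqe⟩ : ∃ q, q = qq m := ⟨_, rfl⟩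
  rw [← hqe] at hq hq0 hcell hint hjen ⊢
  obtain ⟨gi, hgi⟩ : ∃ gi, gi = I.indicator g := ⟨_, rfl⟩
  have hgiN : Nice gi := hgi ▸ nice_ind hg hI
  rw [← hgi]
  have hgi0 : ∀ z, gi z ≠ 0 → z ∈ I := by
    intro z hz
    rw [hgi] at hz
    exact Set.mem_of_indicator_ne_zero hz
  refine (hjen (So n ψ gi) (So_meas hψ hgiN)).trans ?_
  refine (hint cell gi hcm hgiN fun z z' h1 h2 h3 => hsep z (hgi0 z h1) z' (hgi0 z' h2) h3).trans ?_
  have hpc : ∀ Q, Nice (pc cell gi Q) := fun Q =>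
    nice_ind hgiN (hcm (measurableSet_singleton Q))
  have hQ : ∀ Q : ℤ × ℤ, ∫⁻ w, (∫⁻ y, ENNReal.ofReal (χ y) *
      ‖So n ψ (pc cell gi Q) (w + y)‖ₑ ^ 2) ^ (q / 2) ≤
        ENNReal.ofReal E ^ q * ∫⁻ z, ‖pc cell gi Q z‖ₑ ^ q := by
    intro Q
    have h1 : ∃ a : ℂ, ∀ z, pc cell gi Q z ≠ 0 → ‖z - a‖ ≤ R := by
      by_cases h : ∃ z0, pc cell gi Q z0 ≠ 0
      · obtain ⟨z0, h0⟩ := h
        refine ⟨z0, fun z hz => hdiam z z0 ?_⟩
        have e1 : z ∈ {z' | cell z' = Q} := Set.mem_of_indicator_ne_zero (f := gi) hz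
        have e2 : z0 ∈ {z' | cell z' = Q} := Set.mem_of_indicator_ne_zero (f := gi) h0
        have e1' : cell z = Q := e1
        have e2' : cell z0 = Q := e2
        rw [e1', e2']
      · exact ⟨0, fun z hz => absurd ⟨z, hz⟩ h⟩
    obtain ⟨a, ha⟩ := h1
    have h2 := ENNReal.rpow_le_rpow (hcell a _ (hpc Q) ha) hq0.le
    rw [one_div, ENNReal.rpow_inv_rpow hq0.ne', ENNReal.mul_rpow_of_nonneg _ _ hq0.le,
      ENNReal.rpow_inv_rpow hq0.ne'] at h2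
    exact h2
  have hsum : ∑' Q : ℤ × ℤ, ∫⁻ z, ‖pc cell gi Q z‖ₑ ^ q = ∫⁻ z, ‖gi z‖ₑ ^ q := by
    rw [← lintegral_tsum fun Q => ((hpc Q).1.enorm.pow_const q).aemeasurable]
    refine lintegral_congr fun z => ?_
    rw [tsum_eq_single (cell z)]
    · unfold pc
      rw [Set.indicator_of_mem (show z ∈ {z' | cell z' = cell z} from rfl)]
    · intro Q hQ
      unfold pc
      rw [Set.indicator_of_notMem (show z ∉ {z' | cell z' = Q} from fun h => hQ h.symm),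
        enorm_zero, ENNReal.zero_rpow_of_pos hq0]
  have hle : ∫⁻ z, ‖gi z‖ₑ ^ q ≤ ∫⁻ z, ‖g z‖ₑ ^ q := by
    refine lintegral_mono fun z => ENNReal.rpow_le_rpow ?_ hq0.le
    rw [hgi]
    by_cases h : z ∈ I
    · rw [Set.indicator_of_mem h]
    · rw [Set.indicator_of_notMem h, enorm_zero]
      exact zero_le
  calc _ ≤ (∑' Q : ℤ × ℤ, ENNReal.ofReal E ^ q * ∫⁻ z, ‖pc cell gi Q z‖ₑ ^ q) +
        ENNReal.ofReal off * ∫⁻ z, ‖gi z‖ₑ ^ q := add_le_add (ENNReal.tsum_le_tsum hQ) le_rfl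
    _ = (ENNReal.ofReal E ^ q + ENNReal.ofReal off) * ∫⁻ z, ‖gi z‖ₑ ^ q := by
        rw [ENNReal.tsum_mul_left, hsum, add_mul]
    _ ≤ ENNReal.ofReal ((E + off ^ (1 / q)) ^ q) * ∫⁻ z, ‖g z‖ₑ ^ q := by
        refine mul_le_mul' ?_ hle
        rw [ENNReal.ofReal_rpow_of_nonneg hE hq0.le, ← ENNReal.ofReal_add (by positivity) hoff]
        refine ENNReal.ofReal_le_ofReal ?_
        have h1 := Real.add_rpow_le_rpow_add hE (Real.rpow_nonneg hoff (1 / q)) hq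
        have h2 : (off ^ (1 / q)) ^ q = off := by
          rw [← Real.rpow_mul hoff, one_div, inv_mul_cancel₀ hq0.ne', Real.rpow_one]
        rwa [h2] at h1

/-- self-improvement -/
theorem improve {n : ℕ} {ψ : ℂ → ℝ} {q M η K' : ℝ} (hq : 1 ≤ q) (hM : 0 ≤ M) (hη : 0 < η)
    (hadd : ∀ g, Nice g → ∀ I, MeasurableSet I → ∀ w,
      So n ψ g w = So n ψ (I.indicator g) w + So n ψ (Iᶜ.indicator g) w)
    (hmeas : ∀ g, Nice g → Measurable (So n ψ g))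
    (hin : ∀ g, Nice g → ∃ I, MeasurableSet I ∧
      ∫⁻ z in Iᶜ, ‖g z‖ₑ ^ q ≤ ENNReal.ofReal (2 * η) * ∫⁻ z, ‖g z‖ₑ ^ q ∧
      ∫⁻ w, ‖So n ψ (I.indicator g) w‖ₑ ^ q ≤ ENNReal.ofReal (M ^ q) * ∫⁻ z, ‖g z‖ₑ ^ q)
    (hfin : ∃ K, 0 ≤ K ∧ ∀ g, Nice g →
      ∫⁻ w, ‖So n ψ g w‖ₑ ^ q ≤ ENNReal.ofReal (K ^ q) * ∫⁻ z, ‖g z‖ₑ ^ q)
    (hρ : (2 * η) ^ (1 / q) < 1) (hK' : M + K' * (2 * η) ^ (1 / q) < K') :
    ∀ g, Nice g → ∫⁻ w, ‖So n ψ g w‖ₑ ^ q ≤ ENNReal.ofReal (K' ^ q) * ∫⁻ z, ‖g z‖ₑ ^ q := by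
  have hq0 : 0 < q := by linarith
  obtain ⟨ρ, hρe⟩ : ∃ ρ, ρ = (2 * η) ^ (1 / q) := ⟨_, rfl⟩
  have hρ0 : 0 < ρ := by rw [hρe]; positivity
  rw [← hρe] at hρ hK'
  obtain ⟨S, hS⟩ : ∃ S : Set ℝ, S = {K | 0 ≤ K ∧ ∀ g, Nice g →
      ∫⁻ w, ‖So n ψ g w‖ₑ ^ q ≤ ENNReal.ofReal (K ^ q) * ∫⁻ z, ‖g z‖ₑ ^ q} := ⟨_, rfl⟩
  have hne : S.Nonempty := by
    obtain ⟨K, hK⟩ := hfin
    exact ⟨K, hS ▸ hK⟩
  have hbdd : BddBelow S := ⟨0, fun K hK => by rw [hS] at hK; exact hK.1⟩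
  have hstep : ∀ K ∈ S, M + K * ρ ∈ S := by
    intro K hK
    rw [hS] at hK ⊢
    obtain ⟨hK0, hK⟩ := hK
    refine ⟨by positivity, fun g hg => ?_⟩
    obtain ⟨I, hI, h1, h2⟩ := hin g hg
    have h3 := hK _ (nice_ind hg hI.compl)
    have h4 : ∫⁻ z, ‖(Iᶜ.indicator g) z‖ₑ ^ q = ∫⁻ z in Iᶜ, ‖g z‖ₑ ^ q := by
      rw [← lintegral_indicator hI.compl]
      refine lintegral_congr fun z => ?_
      by_cases h : z ∈ Iᶜ
      · rw [Set.indicator_of_mem h, Set.indicator_of_mem h]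
      · rw [Set.indicator_of_notMem h, Set.indicator_of_notMem h, enorm_zero,
          ENNReal.zero_rpow_of_pos hq0]
    obtain ⟨G, hG⟩ : ∃ G, G = ∫⁻ z, ‖g z‖ₑ ^ q := ⟨_, rfl⟩
    rw [h4] at h3
    rw [← hG] at h1 h2 ⊢
    have h5 : (∫⁻ w, ‖So n ψ g w‖ₑ ^ q) ^ (1 / q) ≤
        (∫⁻ w, ‖So n ψ (I.indicator g) w‖ₑ ^ q) ^ (1 / q) +
          (∫⁻ w, ‖So n ψ (Iᶜ.indicator g) w‖ₑ ^ q) ^ (1 / q) := by
      refine le_trans ?_ (ENNReal.lintegral_Lp_add_le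
        (hmeas _ (nice_ind hg hI)).enorm.aemeasurable
        (hmeas _ (nice_ind hg hI.compl)).enorm.aemeasurable hq)
      refine ENNReal.rpow_le_rpow (lintegral_mono fun w => ENNReal.rpow_le_rpow ?_ hq0.le)
        (by positivity)
      rw [hadd g hg I hI w]
      exact enorm_add_le _ _
    have h6 : (∫⁻ w, ‖So n ψ (I.indicator g) w‖ₑ ^ q) ^ (1 / q) ≤
        ENNReal.ofReal M * G ^ (1 / q) := by
      refine (ENNReal.rpow_le_rpow h2 (by positivity)).trans (le_of_eq ?_)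
      rw [ENNReal.mul_rpow_of_nonneg _ _ (by positivity), ← ENNReal.ofReal_rpow_of_nonneg hM hq0.le,
        one_div, ENNReal.rpow_rpow_inv hq0.ne']
    have h7 : (∫⁻ w, ‖So n ψ (Iᶜ.indicator g) w‖ₑ ^ q) ^ (1 / q) ≤
        ENNReal.ofReal (K * ρ) * G ^ (1 / q) := by
      have h8 : ∫⁻ w, ‖So n ψ (Iᶜ.indicator g) w‖ₑ ^ q ≤
          ENNReal.ofReal (K ^ q) * (ENNReal.ofReal (2 * η) * G) :=
        h3.trans (mul_le_mul' le_rfl h1)
      refine (ENNReal.rpow_le_rpow h8 (by positivity)).trans (le_of_eq ?_)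
      rw [ENNReal.mul_rpow_of_nonneg _ _ (by positivity), ENNReal.mul_rpow_of_nonneg _ _
        (by positivity), ← ENNReal.ofReal_rpow_of_nonneg hK0 hq0.le,
        ENNReal.ofReal_rpow_of_nonneg (show (0 : ℝ) ≤ 2 * η by positivity)
          (show (0 : ℝ) ≤ 1 / q by positivity), ← hρe, one_div,
        ENNReal.rpow_rpow_inv hq0.ne', ENNReal.ofReal_mul hK0, mul_assoc]
    have h9 : (∫⁻ w, ‖So n ψ g w‖ₑ ^ q) ^ (1 / q) ≤ ENNReal.ofReal (M + K * ρ) * G ^ (1 / q) := by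
      rw [ENNReal.ofReal_add hM (by positivity), add_mul]
      exact h5.trans (add_le_add h6 h7)
    have h10 := ENNReal.rpow_le_rpow h9 hq0.le
    rw [one_div, ENNReal.rpow_inv_rpow hq0.ne', ENNReal.mul_rpow_of_nonneg _ _ hq0.le,
      ENNReal.rpow_inv_rpow hq0.ne', ENNReal.ofReal_rpow_of_nonneg (by positivity) hq0.le] at h10
    exact h10
  obtain ⟨K0, hK0⟩ : ∃ K0, K0 = sInf S := ⟨_, rfl⟩
  have h1 : K0 ≤ M + K0 * ρ := by
    have h2 : (K0 - M) / ρ ≤ K0 := by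
      rw [hK0]
      refine le_csInf hne fun K hK => ?_
      rw [div_le_iff₀ hρ0]
      have := csInf_le hbdd (hstep K hK)
      linarith
    rw [div_le_iff₀ hρ0] at h2
    linarith
  have h2 : K0 < K' := by
    have h3 : K0 * (1 - ρ) < K' * (1 - ρ) := by nlinarith
    exact lt_of_mul_lt_mul_right h3 (by linarith)
  rw [hK0] at h2
  obtain ⟨K, hK, hKK⟩ := exists_lt_of_csInf_lt hne h2
  rw [hS] at hK
  intro g hg
  refine (hK.2 g hg).trans (mul_le_mul' (ENNReal.ofReal_le_ofReal ?_) le_rfl)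
  exact Real.rpow_le_rpow hK.1 hKK.le hq0.le

end Pool.Agent.N892.BW.LQ
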