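import Mathlib
import Pool.Agent.N892.BW.Stm

/-!
LQ, part B: rescaled densities, exponents. (helper615)
-/

set_option autoImplicit false

open MeasureTheory ENNReal Filter Topology Complex
open scoped ComplexConjugate

namespace Pool.Agent.N892.BW.LQ

theorem sc_cont {χ : ℂ → ℝ} (hχ : Continuous χ) (l : ℝ) : Continuous (sc χ l) := by
  unfold sc
  exact continuous_const.mul (hχ.comp (continuous_const.mul continuous_id))

theorem sc_nonneg {χ : ℂ → ℝ} (hχ : ∀ y, 0 ≤ χ y) (l : ℝ) (y : ℂ) : 0 ≤ sc χ l y :=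
  mul_nonneg (by positivity) (hχ _)

theorem sc_supp {χ : ℂ → ℝ} (hχ : ∀ y, 1 < ‖y‖ → χ y = 0) {l : ℝ} (hl : 0 < l) (y : ℂ)
    (hy : l < ‖y‖) : sc χ l y = 0 := by
  unfold sc
  rw [hχ, mul_zero]
  rw [norm_mul, Complex.norm_real, norm_inv, Real.norm_eq_abs, abs_of_pos hl, ← div_eq_inv_mul,
    lt_div_iff₀ hl, one_mul]
  exact hy

theorem sc_int {χ : ℂ → ℝ} (hχ : ∫ y, χ y = 1) {l : ℝ} (hl : 0 < l) : ∫ y, sc χ l y = 1 := by
  have h1 : ∀ y : ℂ, sc χ l y = (l ^ 2)⁻¹ * χ (l⁻¹ • y) := by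
    intro y
    unfold sc
    rw [Complex.real_smul]
  simp only [h1]
  rw [integral_const_mul, Measure.integral_comp_smul, hχ, Complex.finrank_real_complex,
    smul_eq_mul, mul_one, inv_pow, inv_inv, abs_of_pos (by positivity)]
  field_simp

theorem sc_mol {χ : ℂ → ℝ} (h1 : Continuous χ) (h2 : ∀ y, 0 ≤ χ y) (h3 : ∀ y, 1 < ‖y‖ → χ y = 0)
    (h4 : ∫ y, χ y = 1) {l : ℝ} (hl : 0 < l) : Mol l fun y => ENNReal.ofReal (sc χ l y) := by
  refine ⟨(sc_cont h1 l).measurable.ennreal_ofReal, fun y hy => ?_, ?_⟩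
  · beta_reduce
    rw [sc_supp h3 hl y hy, ENNReal.ofReal_zero]
  · have h5 := sc_int h4 hl
    rw [← ofReal_integral_eq_lintegral_ofReal (integrable_of_integral_eq_one h5)
      (Eventually.of_forall fun y => sc_nonneg h2 l y), h5, ENNReal.ofReal_one]

theorem qq_facts {m : ℕ} (hm : 2 ≤ m) : 1 ≤ qq m ∧ qq m ≤ 2 ∧
    2 / qq m = (2 * (m : ℝ) - 1) / m := by
  have h1 : (2 : ℝ) ≤ m := by exact_mod_cast hm
  have h2 : (0 : ℝ) < 2 * m - 1 := by linarith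
  unfold qq
  refine ⟨?_, ?_, ?_⟩
  · rw [le_div_iff₀ h2]
    linarith
  · rw [div_le_iff₀ h2]
    linarith
  · field_simp

theorem GA_pos {m : ℕ} (hm : 2 ≤ m) : 0 < GA m := by
  have h1 : (2 : ℝ) ≤ m := by exact_mod_cast hm
  unfold GA
  refine div_pos (Real.Gamma_pos_of_pos (by positivity)) (Real.Gamma_pos_of_pos ?_)
  rw [sub_pos, div_lt_one (by positivity)]
  linarith

/-- the choice of the exponents -/
theorem num {m : ℕ} (hm : 2 ≤ m) {c : ℝ} (hc : 0 < c)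
    (hcm : c < (m : ℝ) * (m - 1) / ((2 * m + 1) * (3 * m - 1))) :
    ∃ τ c1 : ℝ, 0 < τ ∧ 0 < c1 ∧ c1 ≤ 1 / 2 ∧
      1 - 2 * c1 - (1 / 2 + c1) / m ≤ (1 - 1 / (m : ℝ)) - τ ∧
      c + 2 * τ + (τ + 1 / 2 + c1) * (1 - 1 / (m : ℝ)) + 2 * c / qq m ≤
        (1 - 1 / (m : ℝ)) - τ := by
  have h1 : (2 : ℝ) ≤ m := by exact_mod_cast hm
  have hm0 : (0 : ℝ) < m := by linarith
  obtain ⟨-, -, h2⟩ := qq_facts hm
  obtain ⟨Δ, hΔ⟩ : ∃ Δ : ℝ, Δ = (m - 1) / (2 * m + 1) - c * (3 * m - 1) / m := ⟨_, rfl⟩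
  have hΔ0 : 0 < Δ := by
    rw [hΔ, sub_pos, div_lt_div_iff₀ hm0 (by positivity)]
    rw [lt_div_iff₀ (mul_pos (by positivity) (by linarith))] at hcm
    nlinarith
  have hΔ1 : Δ ≤ 1 / 2 := by
    have h3 : (m - 1 : ℝ) / (2 * m + 1) ≤ 1 / 2 := by
      rw [div_le_div_iff₀ (by positivity) (by norm_num)]
      linarith
    have h4 : 0 ≤ c * (3 * m - 1) / m := by
      refine div_nonneg (mul_nonneg hc.le (by linarith)) hm0.le
    rw [hΔ]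
    linarith
  refine ⟨Δ / 8, 1 / (2 * (2 * m + 1)) + Δ / 8, by positivity, by positivity, ?_, ?_, ?_⟩
  · have h3 : 1 / (2 * (2 * (m : ℝ) + 1)) ≤ 1 / 4 := by
      rw [div_le_div_iff₀ (by positivity) (by norm_num)]
      linarith
    linarith
  · have h3 : 1 - 2 * (1 / (2 * (2 * (m : ℝ) + 1)) + Δ / 8) -
        (1 / 2 + (1 / (2 * (2 * (m : ℝ) + 1)) + Δ / 8)) / m =
        (1 - 1 / (m : ℝ)) - Δ / 8 * (2 + 1 / m) := by
      field_simp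
      ring
    rw [h3]
    have h4 : 0 < 1 / (m : ℝ) := by positivity
    nlinarith
  · have h3 : 2 * c / qq m = c * ((2 * m - 1) / m) := by
      rw [mul_comm 2 c, mul_div_assoc, h2]
    have h4 : c + 2 * (Δ / 8) + (Δ / 8 + 1 / 2 + (1 / (2 * (2 * (m : ℝ) + 1)) + Δ / 8)) *
        (1 - 1 / (m : ℝ)) + c * ((2 * m - 1) / m) =
        (1 - 1 / (m : ℝ)) - ((m - 1) / (2 * m + 1) - c * (3 * m - 1) / m) + Δ / 4 +
          Δ / 4 * (1 - 1 / m) := by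
      field_simp
      ring
    rw [h3, h4, ← hΔ]
    have h5 : 0 < 1 / (m : ℝ) := by positivity
    nlinarith

theorem err_bd {N : ℝ} (hN : 1 ≤ N) {m : ℕ} (hm : 2 ≤ m) {c1 τ C R : ℝ} (hC : 0 ≤ C)
    (hc1 : c1 ≤ 1 / 2)
    (h : 1 - 2 * c1 - (1 / 2 + c1) / m ≤ (1 - 1 / (m : ℝ)) - τ)
    (hR : R = N ^ (-(1 / 2) - c1) / 8) :
    C * N * (R + N * R ^ 2) * R ^ (1 / (m : ℝ)) ≤ C * (N ^ (1 - 1 / (m : ℝ)) * N ^ (-τ)) := by
  have hN0 : 0 < N := by linarith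
  obtain ⟨u, hu⟩ : ∃ u, u = N ^ (-(1 / 2) - c1) := ⟨_, rfl⟩
  have hu0 : 0 < u := by rw [hu]; positivity
  have h1 : u ≤ N ^ (-(2 * c1)) := by
    rw [hu]
    exact Real.rpow_le_rpow_of_exponent_le hN (by linarith)
  have h2 : N * u ^ 2 = N ^ (-(2 * c1)) := by
    rw [hu, ← Real.rpow_natCast, ← Real.rpow_mul hN0.le]
    conv_lhs => rw [← Real.rpow_one N, ← Real.rpow_mul hN0.le, ← Real.rpow_add hN0]
    congr 1
    push_cast
    ring
  have h3 : R + N * R ^ 2 ≤ N ^ (-(2 * c1)) := by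
    rw [hR, ← hu, div_pow, ← mul_div_assoc, h2]
    have : 0 < N ^ (-(2 * c1)) := by positivity
    linarith
  have hR0 : 0 ≤ R := by rw [hR]; positivity
  have h4 : R ^ (1 / (m : ℝ)) ≤ N ^ ((-(1 / 2) - c1) * (1 / m)) := by
    rw [Real.rpow_mul hN0.le, ← hu]
    refine Real.rpow_le_rpow hR0 ?_ (by positivity)
    rw [hR, ← hu]
    linarith
  calc C * N * (R + N * R ^ 2) * R ^ (1 / (m : ℝ))
      ≤ C * N * N ^ (-(2 * c1)) * N ^ ((-(1 / 2) - c1) * (1 / m)) := by gcongr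
    _ = C * N ^ (1 - 2 * c1 - (1 / 2 + c1) / m) := by
        rw [mul_assoc, mul_assoc, ← Real.rpow_add hN0]
        congr 1
        conv_lhs => rw [← Real.rpow_one N, ← Real.rpow_mul hN0.le, ← Real.rpow_add hN0]
        congr 1
        ring
    _ ≤ C * (N ^ (1 - 1 / (m : ℝ)) * N ^ (-τ)) := by
        rw [← Real.rpow_add hN0]
        refine mul_le_mul_of_nonneg_left (Real.rpow_le_rpow_of_exponent_le hN ?_) hC
        linarith

theorem off_bd {N : ℝ} (hN : 1 ≤ N) {m : ℕ} (hm : 2 ≤ m) {c c1 τ CI CJ q : ℝ} (hCI : 0 < CI)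
    (hCJ : 0 < CJ) (hq : 1 ≤ q)
    (h : c + 2 * τ + (τ + 1 / 2 + c1) * (1 - 1 / (m : ℝ)) + 2 * c / q ≤ (1 - 1 / (m : ℝ)) - τ) :
    (CI * (CJ / (N ^ (-(c + 2 * τ))) ^ 2) ^ (q / 2) *
      ((N ^ (-τ) * (N ^ (-(1 / 2) - c1) / 16)) ^ (-2 + 2 / (m : ℝ))) ^ (q / 2) *
        (N ^ c) ^ 2) ^ (1 / q) ≤
      (CI ^ (1 / q) * CJ ^ (1 / 2 : ℝ) * 16) * (N ^ (1 - 1 / (m : ℝ)) * N ^ (-τ)) := by
  have hN0 : 0 < N := by linarith
  have hq0 : 0 < q := by linarith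
  have hm1 : (2 : ℝ) ≤ m := by exact_mod_cast hm
  have hP : ∀ x : ℝ, 0 < N ^ x := fun x => Real.rpow_pos_of_pos hN0 x
  have e1 : ∀ X : ℝ, 0 ≤ X → (X ^ (q / 2)) ^ (1 / q) = X ^ (1 / 2 : ℝ) := by
    intro X hX
    rw [← Real.rpow_mul hX]
    congr 1
    field_simp
  have e2 : (CJ / (N ^ (-(c + 2 * τ))) ^ 2) ^ (1 / 2 : ℝ) = CJ ^ (1 / 2 : ℝ) * N ^ (c + 2 * τ) := by
    rw [Real.div_rpow hCJ.le (by positivity), ← Real.rpow_natCast, ← Real.rpow_mul hN0.le,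
      ← Real.rpow_mul hN0.le, div_eq_mul_inv, ← Real.rpow_neg hN0.le]
    congr 2
    push_cast
    ring
  have e3 : ((N ^ (-τ) * (N ^ (-(1 / 2) - c1) / 16)) ^ (-2 + 2 / (m : ℝ))) ^ (1 / 2 : ℝ) ≤
      16 * N ^ ((τ + 1 / 2 + c1) * (1 - 1 / (m : ℝ))) := by
    have f1 : N ^ (-τ) * (N ^ (-(1 / 2) - c1) / 16) = N ^ (-(τ + 1 / 2 + c1)) * 16⁻¹ := by
      rw [← mul_div_assoc, ← Real.rpow_add hN0, div_eq_mul_inv]
      congr 2
      ring
    have f2 : (-2 + 2 / (m : ℝ)) * (1 / 2) = -(1 - 1 / (m : ℝ)) := by ring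
    rw [f1, ← Real.rpow_mul (by positivity), f2, Real.mul_rpow (hP _).le (by norm_num),
      ← Real.rpow_mul hN0.le, Real.inv_rpow (by norm_num), ← Real.rpow_neg (by norm_num), neg_neg,
      neg_mul_neg, mul_comm]
    refine mul_le_mul_of_nonneg_right ?_ (hP _).le
    have f3 : (16 : ℝ) ^ (1 - 1 / (m : ℝ)) ≤ (16 : ℝ) ^ (1 : ℝ) := by
      refine Real.rpow_le_rpow_of_exponent_le (by norm_num) ?_
      have : 0 < 1 / (m : ℝ) := by positivity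
      linarith
    rwa [Real.rpow_one] at f3
  have e4 : ((N ^ c) ^ 2) ^ (1 / q) = N ^ (2 * c / q) := by
    rw [← Real.rpow_natCast, ← Real.rpow_mul hN0.le, ← Real.rpow_mul hN0.le]
    congr 1
    push_cast
    ring
  rw [Real.mul_rpow (by positivity) (by positivity), Real.mul_rpow (by positivity) (by positivity),
    Real.mul_rpow (by positivity) (by positivity), e1 _ (by positivity), e1 _ (by positivity), e2,
    e4]
  calc CI ^ (1 / q) * (CJ ^ (1 / 2 : ℝ) * N ^ (c + 2 * τ)) *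
        ((N ^ (-τ) * (N ^ (-(1 / 2) - c1) / 16)) ^ (-2 + 2 / (m : ℝ))) ^ (1 / 2 : ℝ) *
          N ^ (2 * c / q)
      ≤ CI ^ (1 / q) * (CJ ^ (1 / 2 : ℝ) * N ^ (c + 2 * τ)) *
        (16 * N ^ ((τ + 1 / 2 + c1) * (1 - 1 / (m : ℝ)))) * N ^ (2 * c / q) := by gcongr
    _ = (CI ^ (1 / q) * CJ ^ (1 / 2 : ℝ) * 16) *
        N ^ (c + 2 * τ + (τ + 1 / 2 + c1) * (1 - 1 / (m : ℝ)) + 2 * c / q) := by
        rw [Real.rpow_add hN0 (c + 2 * τ + _), Real.rpow_add hN0 (c + 2 * τ)]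
        ring
    _ ≤ _ := by
        rw [← Real.rpow_add hN0]
        refine mul_le_mul_of_nonneg_left (Real.rpow_le_rpow_of_exponent_le hN ?_) (by positivity)
        linarith

end Pool.Agent.N892.BW.LQ
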