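import Mathlib
import Pool.Agent.N892.BW.Stm

/-!
The statements DEC and INT with the correct parentheses: the sum over the cells does not contain the
error term.
-/

set_option autoImplicit false

open MeasureTheory ENNReal Filter Topology Complex
open scoped ComplexConjugate

namespace Pool.Agent.N892.BW

/-- DEC: decomposition into cells, pointwise -/
def S_DEC2 : Prop := ∀ (n : ℕ) (ψ : ℂ → ℝ) (l D CJ δ : ℝ) (χ : ℂ → ℝ) (cell : ℂ → ℤ × ℤ) (g : ℂ → ℂ),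
  1 ≤ n → 0 < l → l ≤ 1 → 1 ≤ D → 0 ≤ CJ → 0 < δ → Measurable χ → (∀ y, 0 ≤ χ y) → (∀ y, l < ‖y‖ → χ y = 0) →
  (∫ y, χ y = 1) → (∃ B, Cut B 1 D ψ) → Measurable cell → Nice g →
  (∀ z z', g z ≠ 0 → g z' ≠ 0 → cell z ≠ cell z' → δ ≤ ‖z - z'‖) →
  (∀ z z' w : ℂ, z ≠ z' →
    ‖∫ y, (χ y : ℂ) * (kk n ψ (w + y - z) * conj (kk n ψ (w + y - z')))‖ ≤ CJ * (‖z - z'‖ ^ 2)⁻¹) →
  ∀ w : ℂ, ∫⁻ y, ENNReal.ofReal (χ y) * ‖So n ψ g (w + y)‖ₑ ^ 2 ≤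
    (∑' Q : ℤ × ℤ, ∫⁻ y, ENNReal.ofReal (χ y) * ‖So n ψ (pc cell g Q) (w + y)‖ₑ ^ 2) +
    ENNReal.ofReal CJ * ∫⁻ z, ∫⁻ z', (if δ ≤ ‖z - z'‖ then
      (Metric.closedBall w (2 * D)).indicator (fun z => ‖g z‖ₑ) z *
      (Metric.closedBall w (2 * D)).indicator (fun z => ‖g z‖ₑ) z' *
        ENNReal.ofReal ((‖z - z'‖ ^ 2)⁻¹) else 0)

/-- INT: the same, integrated -/
def S_INT2 : Prop := ∀ m : ℕ, 2 ≤ m → ∃ C : ℝ, 0 < C ∧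
  ∀ (n : ℕ) (ψ : ℂ → ℝ) (l D CJ δ : ℝ) (χ : ℂ → ℝ) (cell : ℂ → ℤ × ℤ) (g : ℂ → ℂ),
  1 ≤ n → 0 < l → l ≤ 1 → 1 ≤ D → 0 ≤ CJ → 0 < δ → Measurable χ → (∀ y, 0 ≤ χ y) → (∀ y, l < ‖y‖ → χ y = 0) →
  (∫ y, χ y = 1) → (∃ B, Cut B 1 D ψ) → Measurable cell → Nice g →
  (∀ z z', g z ≠ 0 → g z' ≠ 0 → cell z ≠ cell z' → δ ≤ ‖z - z'‖) →
  (∀ z z' w : ℂ, z ≠ z' →
    ‖∫ y, (χ y : ℂ) * (kk n ψ (w + y - z) * conj (kk n ψ (w + y - z')))‖ ≤ CJ * (‖z - z'‖ ^ 2)⁻¹) →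
  ∫⁻ w, (∫⁻ y, ENNReal.ofReal (χ y) * ‖So n ψ g (w + y)‖ₑ ^ 2) ^ (qq m / 2) ≤
    (∑' Q : ℤ × ℤ, ∫⁻ w, (∫⁻ y, ENNReal.ofReal (χ y) * ‖So n ψ (pc cell g Q) (w + y)‖ₑ ^ 2) ^ (qq m / 2)) +
    ENNReal.ofReal (C * CJ ^ (qq m / 2) * (δ ^ (-2 + 2 / (m : ℝ))) ^ (qq m / 2) * D ^ 2) *
      ∫⁻ z, ‖g z‖ₑ ^ (qq m)

end Pool.Agent.N892.BW
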