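import Mathlib
import Pool.Agent.N892.BW.StmFix
import Pool.Agent.N892.BW.LQ_A
import Pool.Agent.N892.BW.LQ_B

/-!
LQ: assembly of the bound on the dual side. (helper615)
-/

set_option autoImplicit false

open MeasureTheory ENNReal Filter Topology Complex
open scoped ComplexConjugate

namespace Pool.Agent.N892.BW.LQ

/-- the choice of the small constant -/
theorem kappa {η e G A q : ℝ} (hη : 0 < η) (he : 0 < e) (hG : 0 < G) (hA : 0 < A) :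
    ∃ κ : ℝ, 0 < κ ∧ κ ≤ η ∧ κ ≤ 1 / 2 ∧ A * κ ≤ e / 8 * G ∧ 2 * κ ≤ (e / 8) ^ q := by
  have h1 : 0 < e / 8 * G / A := by positivity
  have h2 : 0 < (e / 8) ^ q / 2 := by positivity
  refine ⟨min (min η (1 / 2)) (min (e / 8 * G / A) ((e / 8) ^ q / 2)),
    lt_min (lt_min hη (by norm_num)) (lt_min h1 h2),
    (min_le_left _ _).trans (min_le_left _ _), (min_le_left _ _).trans (min_le_right _ _), ?_, ?_⟩
  · have h3 := (min_le_right (min η (1 / 2)) (min (e / 8 * G / A) ((e / 8) ^ q / 2))).trans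
      (min_le_left _ _)
    rw [le_div_iff₀ hA] at h3
    linarith
  · have h3 := (min_le_right (min η (1 / 2)) (min (e / 8 * G / A) ((e / 8) ^ q / 2))).trans
      (min_le_right _ _)
    linarith

/-- the final theorem, for one `n` -/
theorem one (hL : S_LAY) (hJ : S_JEN) (hF : S_FIN) {m : ℕ} (hm : 2 ≤ m) {c B : ℝ} (hc : 0 < c)
    {χ : ℂ → ℝ} (hχd : ContDiff ℝ 2 χ) (hχ0 : ∀ y, 0 ≤ χ y) (hχs : ∀ y, 1 < ‖y‖ → χ y = 0)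
    (hχi : ∫ y, χ y = 1) {CJ CI CC e η τ c1 κ : ℝ} (hCJ : 0 < CJ) (hCI : 0 < CI) (hCC : 0 < CC)
    (he0 : 0 < e) (he1 : e ≤ 1)
    (hJJ : ∀ (n : ℕ) (l D : ℝ) (ψ : ℂ → ℝ), 1 ≤ n → 0 < l → l ≤ 1 →
      Cut B 1 D ψ → ∀ z z' w : ℂ, z ≠ z' →
      ‖∫ y, (sc χ l y : ℂ) * (kk n ψ (w + y - z) * conj (kk n ψ (w + y - z')))‖ ≤
        CJ / (l ^ 2 * ‖z - z'‖ ^ 2))
    (hINT : ∀ (n : ℕ) (ψ : ℂ → ℝ) (l D CJ δ : ℝ) (χ : ℂ → ℝ) (cell : ℂ → ℤ × ℤ) (g : ℂ → ℂ),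
      1 ≤ n → 0 < l → l ≤ 1 → 1 ≤ D → 0 ≤ CJ → 0 < δ → Measurable χ → (∀ y, 0 ≤ χ y) →
      (∀ y, l < ‖y‖ → χ y = 0) →
      (∫ y, χ y = 1) → (∃ B, Cut B 1 D ψ) → Measurable cell → Nice g →
      (∀ z z', g z ≠ 0 → g z' ≠ 0 → cell z ≠ cell z' → δ ≤ ‖z - z'‖) →
      (∀ z z' w : ℂ, z ≠ z' →
        ‖∫ y, (χ y : ℂ) * (kk n ψ (w + y - z) * conj (kk n ψ (w + y - z')))‖ ≤
          CJ * (‖z - z'‖ ^ 2)⁻¹) →
      ∫⁻ w, (∫⁻ y, ENNReal.ofReal (χ y) * ‖So n ψ g (w + y)‖ₑ ^ 2) ^ (qq m / 2) ≤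
        (∑' Q : ℤ × ℤ, ∫⁻ w, (∫⁻ y, ENNReal.ofReal (χ y) *
          ‖So n ψ (pc cell g Q) (w + y)‖ₑ ^ 2) ^ (qq m / 2)) +
        ENNReal.ofReal (CI * CJ ^ (qq m / 2) * (δ ^ (-2 + 2 / (m : ℝ))) ^ (qq m / 2) * D ^ 2) *
          ∫⁻ z, ‖g z‖ₑ ^ (qq m))
    (hCELL : ∀ (n : ℕ) (R l T D : ℝ) (ψ : ℂ → ℝ) (χ : ℂ → ℝ≥0∞) (a : ℂ) (g : ℂ → ℂ),
      1 ≤ n → 0 < R → R ≤ 1 / 8 → (n : ℝ) * R ^ 2 ≤ 1 / 4 → 0 < l → l ≤ η → 1 ≤ D → 0 < T →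
      T * D ≤ η * n → (n : ℝ) * l ≤ η * T → Cut B 1 D ψ → Mol l χ → Nice g →
      (∀ z, g z ≠ 0 → ‖z - a‖ ≤ R) →
      (∫⁻ w, (∫⁻ y, χ y * ‖So n ψ g (w + y)‖ₑ ^ 2) ^ (qq m / 2)) ^ (1 / qq m) ≤
        ENNReal.ofReal ((1 + e / 8) * AA m n + CC * n * (R + n * R ^ 2) * R ^ (1 / (m : ℝ))) *
          (∫⁻ z, ‖g z‖ₑ ^ (qq m)) ^ (1 / qq m))
    (hτ : 0 < τ) (hc1 : 0 < c1) (hc1' : c1 ≤ 1 / 2)
    (hx1 : 1 - 2 * c1 - (1 / 2 + c1) / m ≤ (1 - 1 / (m : ℝ)) - τ)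
    (hx2 : c + 2 * τ + (τ + 1 / 2 + c1) * (1 - 1 / (m : ℝ)) + 2 * c / qq m ≤
        (1 - 1 / (m : ℝ)) - τ)
    (hκη : κ ≤ η) (hκ1 : κ ≤ 1 / 2)
    (hκA : (CC + CI ^ (1 / qq m) * CJ ^ (1 / 2 : ℝ) * 16) * κ ≤ e / 8 * GA m)
    (hκe : 2 * κ ≤ (e / 8) ^ qq m)
    {n : ℕ} (hn : 1 ≤ n) (hnκ : (n : ℝ) ^ (-τ) ≤ κ) (ψ : ℂ → ℝ) (hψ : Cut B 1 ((n : ℝ) ^ c) ψ) :
    ∀ g : ℂ → ℂ, Nice g → ∫⁻ w, ‖So n ψ g w‖ₑ ^ (qq m) ≤
      ENNReal.ofReal (((1 + e) * AA m n) ^ (qq m)) * ∫⁻ z, ‖g z‖ₑ ^ (qq m) := by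
  obtain ⟨hq1, hq2, -⟩ := qq_facts hm
  have hq0 : 0 < qq m := by linarith
  have hGA := GA_pos hm
  have hN : (1 : ℝ) ≤ n := by exact_mod_cast hn
  have hN0 : (0 : ℝ) < n := by linarith
  have hP : ∀ x : ℝ, 0 < (n : ℝ) ^ x := fun x => Real.rpow_pos_of_pos hN0 x
  have hcont : Continuous ψ := hψ.1.continuous
  obtain ⟨x, hx⟩ : ∃ x : ℝ, x = (n : ℝ) ^ (-τ) := ⟨_, rfl⟩
  have hx0 : 0 < x := by rw [hx]; exact hP _
  have hxκ : x ≤ κ := hx ▸ hnκ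
  obtain ⟨l, hl⟩ : ∃ l : ℝ, l = (n : ℝ) ^ (-(c + 2 * τ)) := ⟨_, rfl⟩
  have hl0 : 0 < l := by rw [hl]; exact hP _
  have hlx : l ≤ x := by
    rw [hl, hx]
    exact Real.rpow_le_rpow_of_exponent_le hN (by linarith)
  obtain ⟨T, hT⟩ : ∃ T : ℝ, T = (n : ℝ) ^ (1 - (c + τ)) := ⟨_, rfl⟩
  have hT0 : 0 < T := by rw [hT]; exact hP _
  obtain ⟨u, hu⟩ : ∃ u : ℝ, u = (n : ℝ) ^ (-(1 / 2) - c1) := ⟨_, rfl⟩
  have hu0 : 0 < u := by rw [hu]; exact hP _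
  have hu1 : u ≤ 1 := by
    rw [hu]
    exact Real.rpow_le_one_of_one_le_of_nonpos hN (by linarith)
  obtain ⟨D, hD⟩ : ∃ D : ℝ, D = (n : ℝ) ^ c := ⟨_, rfl⟩
  have hD1 : 1 ≤ D := by
    rw [hD]
    exact Real.one_le_rpow hN hc.le
  rw [← hD] at hψ
  -- the conditions of CELL
  have hnR : (n : ℝ) * (u / 8) ^ 2 ≤ 1 / 4 := by
    have h1 : (n : ℝ) * u ^ 2 ≤ 1 := by
      have h2 : (n : ℝ) * u ^ 2 = (n : ℝ) ^ (-(2 * c1)) := by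
        rw [hu, ← Real.rpow_natCast ((n : ℝ) ^ (-(1 / 2) - c1)), ← Real.rpow_mul hN0.le]
        conv_lhs => rw [← Real.rpow_one (n : ℝ), ← Real.rpow_mul hN0.le, ← Real.rpow_add hN0]
        congr 1
        push_cast
        ring
      rw [h2]
      exact Real.rpow_le_one_of_one_le_of_nonpos hN (by linarith)
    rw [div_pow, ← mul_div_assoc]
    linarith
  have hTD : T * D ≤ η * n := by
    have h1 : T * D = x * n := by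
      rw [hT, hD, hx, ← Real.rpow_add hN0]
      conv_rhs => rw [mul_comm, ← Real.rpow_one (n : ℝ), ← Real.rpow_mul hN0.le,
        ← Real.rpow_add hN0]
      congr 1
      ring
    rw [h1]
    exact mul_le_mul_of_nonneg_right (hxκ.trans hκη) hN0.le
  have hnl : (n : ℝ) * l ≤ η * T := by
    have h1 : (n : ℝ) * l = x * T := by
      rw [hT, hl, hx, ← Real.rpow_add hN0]
      conv_lhs => rw [← Real.rpow_one (n : ℝ), ← Real.rpow_mul hN0.le, ← Real.rpow_add hN0]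
      congr 1
      ring
    rw [h1]
    exact mul_le_mul_of_nonneg_right (hxκ.trans hκη) hT0.le
  -- the constants
  obtain ⟨E, hE⟩ : ∃ E : ℝ, E = (1 + e / 8) * AA m n +
      CC * n * (u / 8 + n * (u / 8) ^ 2) * (u / 8) ^ (1 / (m : ℝ)) := ⟨_, rfl⟩
  have hAA : 0 < AA m n := mul_pos (hP _) hGA
  have hE0 : 0 ≤ E := by rw [hE]; positivity
  obtain ⟨off, hoff⟩ : ∃ off : ℝ, off = CI * (CJ / l ^ 2) ^ (qq m / 2) *
      ((x * (u / 16)) ^ (-2 + 2 / (m : ℝ))) ^ (qq m / 2) * D ^ 2 := ⟨_, rfl⟩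
  have hoff0 : 0 ≤ off := by rw [hoff]; positivity
  have hM : E + off ^ (1 / qq m) ≤ (1 + e / 4) * AA m n := by
    have h1 : CC * n * (u / 8 + n * (u / 8) ^ 2) * (u / 8) ^ (1 / (m : ℝ)) ≤
        CC * ((n : ℝ) ^ (1 - 1 / (m : ℝ)) * (n : ℝ) ^ (-τ)) :=
      err_bd hN hm hCC.le hc1' hx1 (by rw [hu])
    have h2 : off ^ (1 / qq m) ≤ (CI ^ (1 / qq m) * CJ ^ (1 / 2 : ℝ) * 16) *
        ((n : ℝ) ^ (1 - 1 / (m : ℝ)) * (n : ℝ) ^ (-τ)) := by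
      rw [hoff, hl, hx, hu, hD]
      exact off_bd hN hm hCI hCJ hq1 hx2
    have h3 : (CC + CI ^ (1 / qq m) * CJ ^ (1 / 2 : ℝ) * 16) * x ≤ e / 8 * GA m :=
      (mul_le_mul_of_nonneg_left hxκ (by positivity)).trans hκA
    have h4 := mul_le_mul_of_nonneg_left h3 (hP (1 - 1 / (m : ℝ))).le
    have h5 : (n : ℝ) ^ (1 - 1 / (m : ℝ)) * (e / 8 * GA m) = e / 8 * AA m n := by
      unfold AA
      ring
    rw [h5] at h4
    rw [← hx] at h1 h2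
    rw [hE]
    linarith
  have hMol : Mol l fun y => ENNReal.ofReal (sc χ l y) :=
    sc_mol hχd.continuous hχ0 hχs hχi hl0
  -- the inner part
  have hinner : ∀ g : ℂ → ℂ, Nice g → ∃ I, MeasurableSet I ∧
      ∫⁻ z in Iᶜ, ‖g z‖ₑ ^ (qq m) ≤ ENNReal.ofReal (2 * x) * ∫⁻ z, ‖g z‖ₑ ^ (qq m) ∧
      ∫⁻ w, ‖So n ψ (I.indicator g) w‖ₑ ^ (qq m) ≤
        ENNReal.ofReal (((1 + e / 4) * AA m n) ^ (qq m)) * ∫⁻ z, ‖g z‖ₑ ^ (qq m) := by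
    intro g hg
    obtain ⟨cell, I, hcm, hI, h1, h2, h3⟩ := hL (qq m) (u / 16) x g hq0 (by positivity) hx0
      (by linarith) hg
    refine ⟨I, hI, h1, ?_⟩
    refine (inner (χ := sc χ l) (R := u / 8) (δ := x * (u / 16)) (E := E) (off := off) hq1 hE0 hoff0
      hcont ?_ ?_ ?_ hg hcm hI h2 ?_).trans ?_
    · intro a g' hg' ha
      rw [hE]
      exact hCELL n (u / 8) l T D ψ _ a g' hn (by positivity) (by linarith) hnR hl0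
        (hlx.trans (hxκ.trans hκη)) hD1 hT0 hTD hnl hψ hMol hg' ha
    · intro cell' g' hcm' hg' hsep'
      rw [hoff]
      refine hINT n ψ l D (CJ / l ^ 2) (x * (u / 16)) (sc χ l) cell' g' hn hl0
        (by linarith) hD1 (by positivity) (by positivity) (sc_cont hχd.continuous l).measurable
        (sc_nonneg hχ0 l) (sc_supp hχs hl0) (sc_int hχi hl0) ⟨B, hψ⟩ hcm' hg' hsep' ?_
      intro z z' w hzz
      refine (hJJ n l D ψ hn hl0 (by linarith) hψ z z' w hzz).trans (le_of_eq ?_)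
      rw [div_mul_eq_div_div, div_eq_mul_inv]
    · intro h hh
      exact hJ (qq m) l _ h hq0 hq2 hMol hh
    · intro z z' hzz
      have := h3 z z' hzz
      linarith
    · refine mul_le_mul' (ENNReal.ofReal_le_ofReal ?_) le_rfl
      exact Real.rpow_le_rpow (by positivity) hM hq0.le
  have hρ : (2 * x) ^ (1 / qq m) ≤ e / 8 := by
    have h1 : (2 * x) ^ (1 / qq m) ≤ ((e / 8) ^ qq m) ^ (1 / qq m) :=
      Real.rpow_le_rpow (by positivity) (by linarith) (by positivity)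
    rwa [← Real.rpow_mul (by positivity), mul_one_div_cancel hq0.ne', Real.rpow_one] at h1
  refine improve (M := (1 + e / 4) * AA m n) (η := x) hq1 (by positivity) hx0
    (fun g hg I hI w => So_add hn hψ hg hI w) (fun g hg => So_meas hcont hg) hinner
    (hF m n B D ψ hm hn hD1 hψ) (by linarith) ?_
  have h1 : (1 + e) * AA m n * (2 * x) ^ (1 / qq m) ≤ (1 + e) * AA m n * (e / 8) :=
    mul_le_mul_of_nonneg_left hρ (by positivity)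
  have h2 : (1 + e / 4) + (1 + e) * (e / 8) < 1 + e := by nlinarith
  nlinarith

/-- LQ -/
theorem t (hC : S_CELL) (hI : S_INT2) (hL : S_LAY) (hJ : S_JEN) (hO : S_JJ) (hF : S_FIN) :
    S_LQ := by
  intro m c B hm hc hcm ε hε
  obtain ⟨χ, hχd, hχ0, hχs, hχi, hJJ⟩ := hO
  obtain ⟨CJ, hCJ, hJJ⟩ := hJJ B
  obtain ⟨CI, hCI, hINT⟩ := hI m hm
  obtain ⟨CC, hCC, hCELL⟩ := hC m B hm
  obtain ⟨e, he⟩ : ∃ e, e = min ε 1 := ⟨_, rfl⟩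
  have he0 : 0 < e := by rw [he]; exact lt_min hε one_pos
  have he1 : e ≤ 1 := by rw [he]; exact min_le_right _ _
  have heε : e ≤ ε := by rw [he]; exact min_le_left _ _
  obtain ⟨η, hη, hCELL⟩ := hCELL (e / 8) (by positivity)
  obtain ⟨τ, c1, hτ, hc1, hc1', hx1, hx2⟩ := num hm hc hcm
  have hGA := GA_pos hm
  obtain ⟨hq1, hq2, -⟩ := qq_facts hm
  obtain ⟨κ, hκ0, hκη, hκ1, hκA, hκe⟩ := kappa (η := η) (e := e) (G := GA m)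
    (A := CC + CI ^ (1 / qq m) * CJ ^ (1 / 2 : ℝ) * 16) (q := qq m) hη he0 hGA (by positivity)
  have hlim : ∀ᶠ n : ℕ in atTop, (n : ℝ) ^ (-τ) ≤ κ :=
    ((tendsto_rpow_neg_atTop hτ).comp tendsto_natCast_atTop_atTop).eventually_le_const hκ0
  obtain ⟨n₀, hn₀⟩ := eventually_atTop.1 (hlim.and (eventually_ge_atTop 1))
  refine ⟨n₀, fun n hn ψ hψ g hg => ?_⟩
  obtain ⟨h1, h2⟩ := hn₀ n hn
  have h3 := one hL hJ hF hm hc hχd hχ0 hχs hχi hCJ hCI hCC he0 he1 hJJ hINT hCELL hτ hc1 hc1' hx1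
    hx2 hκη hκ1 hκA hκe h2 h1 ψ hψ g hg
  refine h3.trans (mul_le_mul' (ENNReal.ofReal_le_ofReal ?_) le_rfl)
  have hAA : 0 ≤ AA m n := mul_nonneg (Real.rpow_nonneg (Nat.cast_nonneg n) _) hGA.le
  refine Real.rpow_le_rpow (by positivity) ?_ (by linarith)
  exact mul_le_mul_of_nonneg_right (by linarith) hAA

end Pool.Agent.N892.BW.LQ
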