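import Pool.Agent.N892.BW.Stm

/-!
Paley's inequality with local square averages, from Paley's inequality and the theorem of
Marcinkiewicz and Zygmund (Riemann sums and the lemma of Fatou).
-/

set_option autoImplicit false

open MeasureTheory ENNReal Filter Topology Complex
open scoped ComplexConjugate

namespace Pool.Agent.N892.BW.MZC

theorem continuous_ex : Continuous (fun p : ℂ × ℂ => ex p.1 p.2) := by
  unfold ex
  fun_prop

theorem norm_ex (x v : ℂ) : ‖ex x v‖ = 1 := by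
  unfold ex
  rw [mul_comm, Complex.norm_exp_ofReal_mul_I]

theorem ex_add (x u v : ℂ) : ex x (u + v) = ex x u * ex x v := by
  unfold ex
  rw [← Complex.exp_add]
  congr 1
  rw [map_add, mul_add, Complex.add_im]
  push_cast
  ring

theorem nice_integrable {g : ℂ → ℂ} (hg : Nice g) : Integrable g := by
  obtain ⟨hm, ⟨M, hM⟩, ⟨R, hR⟩⟩ := hg
  have h1 : IntegrableOn g (Metric.closedBall 0 R) := by
    refine Measure.integrableOn_of_bounded (M := M) ?_ hm.aestronglyMeasurable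
      (Filter.Eventually.of_forall hM)
    exact measure_closedBall_lt_top.ne
  refine (integrableOn_iff_integrable_of_support_subset ?_).1 h1
  intro x hx
  rw [Metric.mem_closedBall, dist_zero_right]
  by_contra h
  exact hx (hR x (not_le.1 h))

theorem continuous_hat {g : ℂ → ℂ} (hg : Nice g) : Continuous (hat g) := by
  unfold hat
  refine continuous_of_dominated (bound := fun x => ‖g x‖) ?_ ?_ (nice_integrable hg).norm ?_
  · intro v
    refine (hg.1.mul ?_).aestronglyMeasurable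
    exact (continuous_ex.comp (continuous_id.prodMk continuous_const)).measurable
  · intro v
    refine Filter.Eventually.of_forall fun x => ?_
    rw [norm_mul, norm_ex, mul_one]
  · refine Filter.Eventually.of_forall fun x => ?_
    exact continuous_const.mul (continuous_ex.comp (continuous_const.prodMk continuous_id))

theorem measurable_iv (n : ℕ) : Measurable (iv n) := by
  unfold iv
  exact measurable_const.div (Complex.continuous_conj.measurable)

theorem measurable_ker (n : ℕ) : Measurable (ker n) := by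
  unfold ker
  exact measurable_const.div ((measurable_norm.pow_const 2).const_mul _)

theorem ker_nonneg (n : ℕ) (w : ℂ) : 0 ≤ ker n w := by
  unfold ker
  positivity

/-- the kernel of Paley's operator -/
noncomputable def kp (n : ℕ) (w x : ℂ) : ℂ := (ker n w : ℂ) * ex x (iv n w)

theorem measurable_kp (n : ℕ) : Measurable (Function.uncurry (kp n)) := by
  unfold kp Function.uncurry
  refine Measurable.mul ?_ ?_
  · exact Complex.measurable_ofReal.comp ((measurable_ker n).comp measurable_fst)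
  · exact continuous_ex.measurable.comp
      (measurable_snd.prodMk ((measurable_iv n).comp measurable_fst))

theorem kp_bdd (n : ℕ) (w : ℂ) : ∃ C : ℝ, ∀ x, ‖kp n w x‖ ≤ C := by
  refine ⟨‖(ker n w : ℂ)‖, fun x => ?_⟩
  unfold kp
  rw [norm_mul, norm_ex, mul_one]

theorem kp_int (n : ℕ) (w : ℂ) (g : ℂ → ℂ) :
    ∫ x, kp n w x * g x = (ker n w : ℂ) * hat g (iv n w) := by
  unfold kp hat
  rw [← integral_const_mul]
  congr 1
  ext x
  ring

theorem enorm_ker (n : ℕ) (w : ℂ) : ‖(ker n w : ℂ)‖ₑ = ENNReal.ofReal (ker n w) := by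
  rw [← ofReal_norm, Complex.norm_real, Real.norm_of_nonneg (ker_nonneg n w)]

/-- Marcinkiewicz-Zygmund for families indexed by a finite set -/
theorem mzf_fin (h2 : S_MZF) (k : ℂ → ℂ → ℂ) (hk : Measurable (Function.uncurry k))
    (hb : ∀ w, ∃ C : ℝ, ∀ x, ‖k w x‖ ≤ C) (q : ℝ) (hq : 1 ≤ q) (A : ℝ≥0∞)
    (hA : ∀ g, Nice g → ∫⁻ w, ‖∫ x, k w x * g x‖ₑ ^ q ≤ A * ∫⁻ x, ‖g x‖ₑ ^ q)
    (S : Finset ℂ) (G : ℂ → ℂ → ℂ) (hG : ∀ y, Nice (G y)) :
    ∫⁻ w, (∑ y ∈ S, ‖∫ x, k w x * G y x‖ₑ ^ 2) ^ (q / 2) ≤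
      A * ∫⁻ x, (∑ y ∈ S, ‖G y x‖ₑ ^ 2) ^ (q / 2) := by
  have h := h2 k hk hb q hq A hA S.card (fun i => G (S.equivFin.symm i)) (fun i => hG _)
  have e1 : ∀ F : ℂ → ℝ≥0∞, ∑ i : Fin S.card, F (S.equivFin.symm i) = ∑ y ∈ S, F y := by
    intro F
    rw [← Finset.sum_coe_sort S F]
    exact Equiv.sum_comp S.equivFin.symm (fun y : S => F y)
  have e2 : ∀ w, ∑ i : Fin S.card, ‖∫ x, k w x * G (S.equivFin.symm i) x‖ₑ ^ 2 =
      ∑ y ∈ S, ‖∫ x, k w x * G y x‖ₑ ^ 2 := fun w => e1 (fun y => ‖∫ x, k w x * G y x‖ₑ ^ 2)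
  have e3 : ∀ x, ∑ i : Fin S.card, ‖G (S.equivFin.symm i) x‖ₑ ^ 2 =
      ∑ y ∈ S, ‖G y x‖ₑ ^ 2 := fun x => e1 (fun y => ‖G y x‖ₑ ^ 2)
  simp only [e2, e3] at h
  exact h

theorem nice_shift {g : ℂ → ℂ} (hg : Nice g) (c : ℂ) (y : ℂ) :
    Nice (fun x => c * (g x * ex x y)) := by
  obtain ⟨hm, ⟨M, hM⟩, ⟨R, hR⟩⟩ := hg
  refine ⟨?_, ⟨‖c‖ * M, fun x => ?_⟩, ⟨R, fun x hx => ?_⟩⟩
  · refine (hm.mul ?_).const_mul c
    exact (continuous_ex.comp (continuous_id.prodMk continuous_const)).measurable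
  · rw [norm_mul, norm_mul, norm_ex, mul_one]
    exact mul_le_mul_of_nonneg_left (hM x) (norm_nonneg _)
  · show c * (g x * ex x y) = 0
    rw [hR x hx, zero_mul, mul_zero]

theorem hat_shift (g : ℂ → ℂ) (c y v : ℂ) :
    hat (fun x => c * (g x * ex x y)) v = c * hat g (v + y) := by
  unfold hat
  rw [← integral_const_mul]
  congr 1
  ext x
  rw [ex_add]
  ring

theorem enorm_sqrt (c : ℝ≥0∞) (hc : c ≠ ∞) :
    ‖((Real.sqrt c.toReal : ℝ) : ℂ)‖ₑ ^ 2 = c := by
  rw [← ofReal_norm, Complex.norm_real, Real.norm_of_nonneg (Real.sqrt_nonneg _),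
    ← ENNReal.ofReal_pow (Real.sqrt_nonneg _), Real.sq_sqrt ENNReal.toReal_nonneg,
    ENNReal.ofReal_toReal hc]

/-- the inequality for weighted finite sums -/
theorem finite_av (h1 : S_PAL) (h2 : S_MZF) (m n : ℕ) (hm : 2 ≤ m) (hn : 1 ≤ n) (g : ℂ → ℂ)
    (hg : Nice g) (S : Finset ℂ) (c : ℂ → ℝ≥0∞) (hc : ∀ y, c y ≠ ∞) (hc1 : ∑ y ∈ S, c y ≤ 1) :
    ∫⁻ w, (ENNReal.ofReal (ker n w ^ 2) *
        ∑ y ∈ S, ‖hat g (iv n w + y)‖ₑ ^ 2 * c y) ^ (qq m / 2) ≤
      ENNReal.ofReal (AA m n ^ (qq m)) * ∫⁻ x, ‖g x‖ₑ ^ (qq m) := by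
  have hm' : (2 : ℝ) ≤ m := by exact_mod_cast hm
  have hq : 1 ≤ qq m := by
    unfold qq
    rw [le_div_iff₀ (by linarith)]
    linarith
  have hA : ∀ g, Nice g → ∫⁻ w, ‖∫ x, kp n w x * g x‖ₑ ^ (qq m) ≤
      ENNReal.ofReal (AA m n ^ (qq m)) * ∫⁻ x, ‖g x‖ₑ ^ (qq m) := by
    intro g hg
    refine le_trans (le_of_eq ?_) (h1 m n hm hn g hg)
    refine lintegral_congr fun w => ?_
    rw [kp_int, enorm_mul, enorm_ker]
  have h3 := mzf_fin h2 (kp n) (measurable_kp n) (kp_bdd n) (qq m) hq _ hA S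
    (fun y x => ((Real.sqrt (c y).toReal : ℝ) : ℂ) * (g x * ex x y))
    (fun y => nice_shift hg _ y)
  refine le_trans (le_of_eq ?_) (h3.trans ?_)
  · refine lintegral_congr fun w => ?_
    congr 1
    rw [Finset.mul_sum]
    refine Finset.sum_congr rfl fun y _ => ?_
    rw [kp_int, hat_shift, enorm_mul, enorm_mul, mul_pow, mul_pow, enorm_ker,
      enorm_sqrt _ (hc y), ENNReal.ofReal_pow (ker_nonneg n w)]
    ring
  · refine mul_le_mul_right ?_ _
    refine lintegral_mono fun x => ?_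
    have h4 : ∀ y, ‖((Real.sqrt (c y).toReal : ℝ) : ℂ) * (g x * ex x y)‖ₑ ^ 2 =
        c y * ‖g x‖ₑ ^ 2 := by
      intro y
      rw [enorm_mul, enorm_mul, mul_pow, mul_pow, enorm_sqrt _ (hc y)]
      have : ‖ex x y‖ₑ = 1 := by
        rw [← ofReal_norm, norm_ex, ENNReal.ofReal_one]
      rw [this, one_pow, mul_one]
    simp only [h4]
    rw [← Finset.sum_mul]
    calc ((∑ y ∈ S, c y) * ‖g x‖ₑ ^ 2) ^ (qq m / 2) ≤ (1 * ‖g x‖ₑ ^ 2) ^ (qq m / 2) := by
          refine ENNReal.rpow_le_rpow (mul_le_mul_left hc1 _) (by linarith)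
      _ = ‖g x‖ₑ ^ (qq m) := by
          rw [one_mul, ← ENNReal.rpow_natCast, ← ENNReal.rpow_mul]
          congr 1
          push_cast
          ring

theorem t (h1 : S_PAL) (h2 : S_MZF) : S_MZC := by
  intro m n hm hn T hT g hg
  have hm' : (2 : ℝ) ≤ m := by exact_mod_cast hm
  have hq : 1 ≤ qq m := by
    unfold qq
    rw [le_div_iff₀ (by linarith)]
    linarith
  set ν : Measure ℂ := (volume (Metric.ball (0 : ℂ) T))⁻¹ • volume.restrict (Metric.ball (0 : ℂ) T)
    with hν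
  have hball0 : volume (Metric.ball (0 : ℂ) T) ≠ 0 := (Metric.measure_ball_pos _ _ hT).ne'
  have hballt : volume (Metric.ball (0 : ℂ) T) ≠ ∞ := measure_ball_lt_top.ne
  have hν1 : ν Set.univ = 1 := by
    rw [hν, Measure.smul_apply, Measure.restrict_apply_univ, smul_eq_mul]
    exact ENNReal.inv_mul_cancel hball0 hballt
  have hav : ∀ (X : ℂ → ℝ≥0∞) (v : ℂ), av T X v = ∫⁻ u, X (v + u) ∂ν := by
    intro X v
    rw [hν, lintegral_smul_measure]
    rfl
  set X : ℂ → ℝ≥0∞ := fun v => ‖hat g v‖ₑ ^ 2 with hX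
  have hXc : Continuous X := (ENNReal.continuous_pow 2).comp (continuous_enorm.comp (continuous_hat hg))
  -- the simple functions
  let s : ℕ → SimpleFunc ℂ ℂ := fun N =>
    SimpleFunc.approxOn (id : ℂ → ℂ) measurable_id Set.univ 0 (Set.mem_univ _) N
  have hs : ∀ u, Tendsto (fun N => s N u) atTop (𝓝 u) := by
    intro u
    exact SimpleFunc.tendsto_approxOn (f := (id : ℂ → ℂ)) measurable_id (Set.mem_univ 0)
      (subset_closure (Set.mem_univ _))
  have hsum : ∀ N v, ∫⁻ u, X (v + s N u) ∂ν =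
      ∑ y ∈ (s N).range, X (v + y) * ν (s N ⁻¹' {y}) := by
    intro N v
    rw [← SimpleFunc.map_lintegral (fun y => X (v + y)) (s N),
      ← SimpleFunc.lintegral_eq_lintegral]
    rfl
  have hle : ∀ v, av T X v ≤ liminf (fun N => ∑ y ∈ (s N).range, X (v + y) * ν (s N ⁻¹' {y}))
      atTop := by
    intro v
    rw [hav]
    have h3 : ∀ u, liminf (fun N => X (v + s N u)) atTop = X (v + u) := by
      intro u
      refine Tendsto.liminf_eq ?_
      exact (hXc.tendsto _).comp ((hs u).const_add v)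
    calc ∫⁻ u, X (v + u) ∂ν = ∫⁻ u, liminf (fun N => X (v + s N u)) atTop ∂ν := by
          refine lintegral_congr fun u => (h3 u).symm
      _ ≤ liminf (fun N => ∫⁻ u, X (v + s N u) ∂ν) atTop := by
          refine lintegral_liminf_le fun N => ?_
          exact hXc.measurable.comp ((s N).measurable.const_add v)
      _ = _ := by
          congr 1
          ext N
          exact hsum N v
  -- the monotone continuous function
  have hmap : ∀ (a : ℝ≥0∞), a ≠ ∞ → ∀ b : ℕ → ℝ≥0∞,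
      (a * liminf b atTop) ^ (qq m / 2) = liminf (fun N => (a * b N) ^ (qq m / 2)) atTop := by
    intro a ha b
    have hmono : Monotone (fun y : ℝ≥0∞ => (a * y) ^ (qq m / 2)) := by
      intro y z hyz
      exact ENNReal.rpow_le_rpow (mul_le_mul_right hyz _) (by linarith)
    have hcont : Continuous (fun y : ℝ≥0∞ => (a * y) ^ (qq m / 2)) :=
      ENNReal.continuous_rpow_const.comp (ENNReal.continuous_const_mul ha)
    exact hmono.map_liminf_of_continuousAt b hcont.continuousAt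
  have hfin : ∀ N, ∫⁻ w, (ENNReal.ofReal (ker n w ^ 2) *
      ∑ y ∈ (s N).range, X (iv n w + y) * ν (s N ⁻¹' {y})) ^ (qq m / 2) ≤
      ENNReal.ofReal (AA m n ^ (qq m)) * ∫⁻ x, ‖g x‖ₑ ^ (qq m) := by
    intro N
    refine finite_av h1 h2 m n hm hn g hg (s N).range (fun y => ν (s N ⁻¹' {y})) ?_ ?_
    · intro y
      refine ne_of_lt (lt_of_le_of_lt (measure_mono (Set.subset_univ _)) ?_)
      rw [hν1]
      exact ENNReal.one_lt_top
    · rw [SimpleFunc.sum_range_measure_preimage_singleton, hν1]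
  calc ∫⁻ w, (ENNReal.ofReal (ker n w ^ 2) * av T X (iv n w)) ^ (qq m / 2)
      ≤ ∫⁻ w, liminf (fun N => (ENNReal.ofReal (ker n w ^ 2) *
          ∑ y ∈ (s N).range, X (iv n w + y) * ν (s N ⁻¹' {y})) ^ (qq m / 2)) atTop := by
        refine lintegral_mono fun w => ?_
        rw [← hmap _ ENNReal.ofReal_ne_top]
        exact ENNReal.rpow_le_rpow (mul_le_mul_right (hle _) _) (by linarith)
    _ ≤ liminf (fun N => ∫⁻ w, (ENNReal.ofReal (ker n w ^ 2) *
          ∑ y ∈ (s N).range, X (iv n w + y) * ν (s N ⁻¹' {y})) ^ (qq m / 2)) atTop := by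
        refine lintegral_liminf_le fun N => ?_
        refine Measurable.pow_const ?_ _
        refine Measurable.mul ?_ ?_
        · exact ENNReal.measurable_ofReal.comp ((measurable_ker n).pow_const 2)
        · refine Finset.measurable_sum _ fun y _ => ?_
          exact (hXc.measurable.comp ((measurable_iv n).add_const y)).mul_const _
    _ ≤ liminf (fun _ : ℕ => ENNReal.ofReal (AA m n ^ (qq m)) * ∫⁻ x, ‖g x‖ₑ ^ (qq m)) atTop :=
        liminf_le_liminf (Filter.Eventually.of_forall hfin)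
    _ = _ := liminf_const _

end Pool.Agent.N892.BW.MZC
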