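import Pool.Agent.N892.BW.Stm

/-!
# MZF: the inequality of Marcinkiewicz and Zygmund for finite families (helper595)
-/

set_option autoImplicit false

open MeasureTheory ENNReal Filter Topology Complex
open scoped ComplexConjugate

namespace Pool.Agent.N892.BW.MZF

/-- complex Euclidean space -/
abbrev EE (N : ℕ) := EuclideanSpace ℂ (Fin N)

/-- two unit vectors are exchanged by an isometry -/
theorem exU {N : ℕ} {a b : EE N} (ha : ‖a‖ = 1) (hb : ‖b‖ = 1) :
    ∃ U : EE N ≃ₗᵢ[ℂ] EE N, U a = b := by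
  let L : (Submodule.span ℂ {a}) →ₗᵢ[ℂ] EE N :=
    (LinearIsometry.toSpanSingleton ℂ (EE N) hb).comp
      (LinearIsometryEquiv.toSpanUnitSingleton (𝕜 := ℂ) a ha).symm.toLinearIsometry
  refine ⟨L.extend.toLinearIsometryEquiv rfl, ?_⟩
  have h1 : L.extend a = L ⟨a, Submodule.mem_span_singleton_self a⟩ :=
    LinearIsometry.extend_apply L ⟨a, Submodule.mem_span_singleton_self a⟩
  show L.extend a = b
  rw [h1]
  have h2 : (LinearIsometryEquiv.toSpanUnitSingleton (𝕜 := ℂ) a ha).symm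
      ⟨a, Submodule.mem_span_singleton_self a⟩ = 1 := by
    rw [LinearIsometryEquiv.symm_apply_eq]
    simp
  simp [L, h2]

/-- a complex isometry as a real isometry -/
noncomputable def rU {N : ℕ} (U : EE N ≃ₗᵢ[ℂ] EE N) : EE N ≃ₗᵢ[ℝ] EE N where
  toLinearEquiv := U.toLinearEquiv.restrictScalars ℝ
  norm_map' := U.norm_map

theorem mpU {N : ℕ} (U : EE N ≃ₗᵢ[ℂ] EE N) :
    MeasurePreserving (fun x => U x) (volume : Measure (EE N)) volume :=
  (rU U).measurePreserving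

/-- the restriction of the volume to the unit ball -/
noncomputable def mu (N : ℕ) : Measure (EE N) :=
  (volume : Measure (EE N)).restrict (Metric.ball 0 1)

instance (N : ℕ) : IsFiniteMeasure (mu N) := by
  unfold mu
  exact ⟨by rw [Measure.restrict_apply_univ]; exact measure_ball_lt_top⟩

/-- isometries preserve the restricted measure -/
theorem lintU {N : ℕ} (U : EE N ≃ₗᵢ[ℂ] EE N) (f : EE N → ℝ≥0∞) :
    ∫⁻ x, f (U x) ∂(mu N) = ∫⁻ x, f x ∂(mu N) := by
  unfold mu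
  have h := (mpU U).setLIntegral_comp_preimage_emb
    (rU U).toHomeomorph.measurableEmbedding f (Metric.ball 0 1)
  rw [← h]
  congr 2
  ext x
  simp

/-- the moment of a unit vector -/
noncomputable def cq (N : ℕ) (q : ℝ) (b : EE N) : ℝ≥0∞ := ∫⁻ x, ‖inner ℂ b x‖ₑ ^ q ∂(mu N)

theorem cq_pos {N : ℕ} {q : ℝ} (hq : 0 < q) {b : EE N} (hb : ‖b‖ = 1) : cq N q b ≠ 0 := by
  unfold cq
  intro h
  rw [lintegral_eq_zero_iff (by fun_prop)] at h
  unfold mu at h
  rw [Filter.EventuallyEq, ae_restrict_iff' measurableSet_ball, ae_iff] at h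
  have ho : IsOpen {x : EE N | x ∈ Metric.ball (0 : EE N) 1 ∧ inner ℂ b x ≠ 0} := by
    apply IsOpen.inter Metric.isOpen_ball
    exact isOpen_ne_fun (by fun_prop) (by fun_prop)
  have hn : {x : EE N | x ∈ Metric.ball (0 : EE N) 1 ∧ inner ℂ b x ≠ 0}.Nonempty := by
    refine ⟨(1 / 2 : ℂ) • b, ?_, ?_⟩
    · rw [mem_ball_zero_iff, norm_smul, hb]
      norm_num
    · rw [inner_smul_right, inner_self_eq_norm_sq_to_K, hb]
      norm_num
  have hp := ho.measure_pos (volume : Measure (EE N)) hn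
  refine absurd (measure_mono_null ?_ h) hp.ne'
  rintro x ⟨h1, h2⟩
  simp only [Set.mem_setOf_eq, Classical.not_imp]
  refine ⟨h1, ?_⟩
  simp only [Pi.zero_apply]
  intro h3
  rw [ENNReal.rpow_eq_zero_iff_of_pos hq] at h3
  exact h2 (by simpa using h3)

theorem cq_lt {N : ℕ} {q : ℝ} (hq : 0 < q) {b : EE N} (hb : ‖b‖ = 1) : cq N q b ≠ ∞ := by
  unfold cq
  have : ∫⁻ x, ‖inner ℂ b x‖ₑ ^ q ∂(mu N) ≤ ∫⁻ x, 1 ∂(mu N) := by
    unfold mu
    apply setLIntegral_mono' measurableSet_ball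
    intro x hx
    rw [mem_ball_zero_iff] at hx
    have h1 : ‖inner ℂ b x‖ ≤ 1 := by
      calc _ ≤ ‖b‖ * ‖x‖ := norm_inner_le_norm b x
        _ ≤ 1 := by rw [hb]; linarith
    have h2 : ‖inner ℂ b x‖ₑ ≤ 1 := by
      rw [← ofReal_norm_eq_enorm]
      exact ENNReal.ofReal_le_one.2 h1
    calc _ ≤ (1 : ℝ≥0∞) ^ q := ENNReal.rpow_le_rpow h2 hq.le
      _ = 1 := ENNReal.one_rpow q
  refine ne_top_of_le_ne_top ?_ this
  rw [lintegral_one]
  exact measure_ne_top _ _

/-- the key identity -/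
theorem key {N : ℕ} {q : ℝ} (hq : 0 < q) {b : EE N} (hb : ‖b‖ = 1) (a : Fin N → ℂ) :
    ∫⁻ x, ‖∑ j, x j * a j‖ₑ ^ q ∂(mu N) = cq N q b * (∑ j, ‖a j‖ₑ ^ 2) ^ (q / 2) := by
  obtain ⟨v, hv⟩ : ∃ v : EE N, v = WithLp.toLp 2 (fun j => conj (a j)) := ⟨_, rfl⟩
  have hin : ∀ x : EE N, ∑ j, x j * a j = inner ℂ v x := by
    intro x
    rw [hv, PiLp.inner_apply]
    refine Finset.sum_congr rfl fun j _ => ?_
    simp [mul_comm]
  have hnv : ‖v‖ₑ ^ q = (∑ j, ‖a j‖ₑ ^ 2) ^ (q / 2) := by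
    have h1 : ‖v‖ₑ ^ 2 = ∑ j, ‖a j‖ₑ ^ 2 := by
      have h2 : ‖v‖ ^ 2 = ∑ j, ‖a j‖ ^ 2 := by
        rw [EuclideanSpace.norm_sq_eq, hv]
        simp
      calc ‖v‖ₑ ^ 2 = ENNReal.ofReal (‖v‖ ^ 2) := by
            rw [ENNReal.ofReal_pow (norm_nonneg _), ofReal_norm_eq_enorm]
        _ = ENNReal.ofReal (∑ j, ‖a j‖ ^ 2) := by rw [h2]
        _ = ∑ j, ‖a j‖ₑ ^ 2 := by
            rw [ENNReal.ofReal_sum_of_nonneg fun j _ => sq_nonneg _]
            refine Finset.sum_congr rfl fun j _ => ?_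
            rw [ENNReal.ofReal_pow (norm_nonneg _), ofReal_norm_eq_enorm]
    rw [← h1, ← ENNReal.rpow_natCast, ← ENNReal.rpow_mul]
    congr 1
    push_cast
    ring
  simp only [hin]
  rw [← hnv]
  by_cases h0 : v = 0
  · rw [h0]
    simp [hq, hq.ne']
  · have hn : 0 < ‖v‖ := norm_pos_iff.2 h0
    obtain ⟨u, hu⟩ : ∃ u : EE N, u = ((‖v‖⁻¹ : ℝ) : ℂ) • v := ⟨_, rfl⟩
    have hu1 : ‖u‖ = 1 := by
      rw [hu, norm_smul, Complex.norm_real, norm_inv, norm_norm, inv_mul_cancel₀ hn.ne']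
    have hvu : v = ((‖v‖ : ℝ) : ℂ) • u := by
      rw [hu, smul_smul, ← Complex.ofReal_mul, mul_inv_cancel₀ hn.ne']
      simp
    obtain ⟨U, hU⟩ := exU hu1 hb
    have h1 : ∀ x, ‖inner ℂ v x‖ₑ ^ q = ‖v‖ₑ ^ q * ‖inner ℂ b (U x)‖ₑ ^ q := by
      intro x
      have h2 : ‖inner ℂ v x‖ₑ = ‖v‖ₑ * ‖inner ℂ b (U x)‖ₑ := by
        rw [← hU, U.inner_map_map]
        conv_lhs => rw [hvu]
        rw [inner_smul_left, enorm_mul]
        congr 1
        rw [Complex.conj_ofReal, ← ofReal_norm_eq_enorm, Complex.norm_real, norm_norm,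
          ofReal_norm_eq_enorm]
      rw [h2, ENNReal.mul_rpow_of_nonneg _ _ hq.le]
    simp only [h1]
    rw [lintegral_const_mul' _ _ (ENNReal.rpow_ne_top_of_nonneg hq.le enorm_ne_top),
      lintU U (fun y => ‖inner ℂ b y‖ₑ ^ q), mul_comm]
    rfl

/-- linear combinations -/
theorem nice_sum {N : ℕ} {g : Fin N → ℂ → ℂ} (hg : ∀ j, Nice (g j)) (x : Fin N → ℂ) :
    Nice fun y => ∑ j, x j * g j y := by
  choose h1 h2 h3 using hg
  choose M hM using h2
  choose R hR using h3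
  refine ⟨?_, ⟨∑ j, ‖x j‖ * M j, fun y => ?_⟩, ⟨∑ j, |R j|, fun y hy => ?_⟩⟩
  · exact Finset.measurable_fun_sum _ fun j _ => (h1 j).const_mul _
  · refine (norm_sum_le _ _).trans (Finset.sum_le_sum fun j _ => ?_)
    rw [norm_mul]
    exact mul_le_mul_of_nonneg_left (hM j y) (norm_nonneg _)
  · refine Finset.sum_eq_zero fun j _ => ?_
    rw [hR j y, mul_zero]
    refine lt_of_le_of_lt ?_ hy
    exact (le_abs_self _).trans
      (Finset.single_le_sum (f := fun j => |R j|) (fun i _ => abs_nonneg _) (Finset.mem_univ j))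

theorem integ {k : ℂ → ℂ} (hk : Measurable k) (hb : ∃ C : ℝ, ∀ x, ‖k x‖ ≤ C) {g : ℂ → ℂ}
    (hg : Nice g) : Integrable fun x => k x * g x := by
  obtain ⟨C, hC⟩ := hb
  obtain ⟨h1, ⟨M, hM⟩, ⟨R, hR⟩⟩ := hg
  have hs : Function.support (fun x => k x * g x) ⊆ Metric.closedBall (0 : ℂ) R := by
    intro x hx
    rw [mem_closedBall_zero_iff]
    by_contra h
    rw [not_le] at h
    exact hx (by simp [hR x h])
  rw [← integrableOn_iff_integrable_of_support_subset hs]
  refine Measure.integrableOn_of_bounded (M := C * M) ?_ ?_ ?_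
  · exact measure_closedBall_lt_top.ne
  · exact (hk.mul h1).aestronglyMeasurable
  · refine Eventually.of_forall fun x => ?_
    rw [norm_mul]
    exact mul_le_mul (hC x) (hM x) (norm_nonneg _) ((norm_nonneg _).trans (hC x))

theorem t : S_MZF := by
  intro k hk hkb q hq A hA N g hg
  have hq0 : 0 < q := by linarith
  rcases Nat.eq_zero_or_pos N with hN | hN
  · subst hN
    simp [hq0]
  obtain ⟨b, hb⟩ : ∃ b : EE N, ‖b‖ = 1 :=
    ⟨EuclideanSpace.single ⟨0, hN⟩ 1, by simp⟩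
  have hc0 := cq_pos hq0 hb
  have hc1 := cq_lt hq0 hb
  obtain ⟨P, hP⟩ : ∃ P : Fin N → ℂ → ℂ, ∀ j w, P j w = ∫ x, k w x * g j x :=
    ⟨fun j w => ∫ x, k w x * g j x, fun _ _ => rfl⟩
  have hPm : ∀ j, Measurable (P j) := by
    intro j
    have h1 : Measurable (Function.uncurry fun w x => k w x * g j x) :=
      hk.mul ((hg j).1.comp measurable_snd)
    have h2 := h1.stronglyMeasurable.integral_prod_right (ν := (volume : Measure ℂ))
    have h3 : P j = fun w => ∫ x, k w x * g j x := by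
      funext w
      exact hP j w
    rw [h3]
    exact h2.measurable
  have hlin : ∀ (x : Fin N → ℂ) w, ∫ y, k w y * ∑ j, x j * g j y = ∑ j, x j * P j w := by
    intro x w
    simp only [Finset.mul_sum]
    rw [integral_finset_sum]
    · refine Finset.sum_congr rfl fun j _ => ?_
      rw [hP, ← integral_const_mul]
      congr 1
      funext y
      ring
    · intro j _
      have := (integ (hk.comp measurable_prodMk_left) (hkb w) (hg j)).const_mul (x j)
      refine this.congr (Eventually.of_forall fun y => ?_)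
      simp only [Function.comp_apply, Function.uncurry_apply_pair]
      ring
  have hmx : ∀ j, Measurable fun x : EE N => x j := fun j =>
    (EuclideanSpace.proj (𝕜 := ℂ) j).continuous.measurable
  have hT : ∀ G : Fin N → ℂ → ℂ, (∀ j, Measurable (G j)) →
      ∫⁻ x, ∫⁻ w, ‖∑ j, x j * G j w‖ₑ ^ q ∂volume ∂(mu N) =
        cq N q b * ∫⁻ w, (∑ j, ‖G j w‖ₑ ^ 2) ^ (q / 2) := by
    intro G hG
    rw [lintegral_lintegral_swap, ← lintegral_const_mul' _ _ hc1]
    · refine lintegral_congr fun w => ?_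
      exact key hq0 hb fun j => G j w
    · refine Measurable.aemeasurable ?_
      refine Measurable.pow_const (Measurable.enorm ?_) q
      exact Finset.measurable_fun_sum _ fun j _ =>
        ((hmx j).comp measurable_fst).mul ((hG j).comp measurable_snd)
  have h1 := hT P hPm
  have h2 := hT g fun j => (hg j).1
  have h3 : ∫⁻ x, ∫⁻ w, ‖∑ j, x j * P j w‖ₑ ^ q ∂volume ∂(mu N) ≤
      A * ∫⁻ x, ∫⁻ w, ‖∑ j, x j * g j w‖ₑ ^ q ∂volume ∂(mu N) := by
    refine le_trans (lintegral_mono (g := fun x : EE N =>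
      A * ∫⁻ w, ‖∑ j, x j * g j w‖ₑ ^ q) fun x => ?_) ?_
    · have := hA _ (nice_sum hg fun j => x j)
      simp only [hlin] at this
      exact this
    · refine le_of_eq (lintegral_const_mul _ ?_)
      refine Measurable.lintegral_prod_right' (f := fun p : EE N × ℂ =>
        ‖∑ j, p.1 j * g j p.2‖ₑ ^ q) ?_
      refine Measurable.pow_const (Measurable.enorm ?_) q
      exact Finset.measurable_fun_sum _ fun j _ =>
        ((hmx j).comp measurable_fst).mul ((hg j).1.comp measurable_snd)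
  rw [h1, h2] at h3
  have h4 : cq N q b * ∫⁻ w, (∑ j, ‖P j w‖ₑ ^ 2) ^ (q / 2) ≤
      cq N q b * (A * ∫⁻ w, (∑ j, ‖g j w‖ₑ ^ 2) ^ (q / 2)) := by
    refine h3.trans (le_of_eq ?_)
    ring
  have h5 := (ENNReal.mul_le_mul_iff_right hc0 hc1).1 h4
  simpa only [hP] using h5

end Pool.Agent.N892.BW.MZF
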