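import Pool.Agent.N892.BW.PAL_a

/-!
Project BW (helper892), subtask 9843 (PAL), by helper832: Paley's inequality in inverted coordinates.
-/

set_option autoImplicit false

open MeasureTheory ENNReal Filter Topology Complex
open scoped ComplexConjugate

namespace Pool.Agent.N892.BW.PAL

theorem nice_int {g : ℂ → ℂ} (hg : Nice g) : Integrable g := by
  obtain ⟨h1, ⟨M, hM⟩, R, hR⟩ := hg
  have hsub : Function.support g ⊆ Metric.closedBall 0 R := by
    intro x hx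
    rw [Metric.mem_closedBall, dist_zero_right]
    by_contra h
    exact hx (hR x (not_le.1 h))
  rw [← integrableOn_iff_integrable_of_support_subset hsub]
  exact Measure.integrableOn_of_bounded measure_closedBall_lt_top.ne h1.aestronglyMeasurable
    (Eventually.of_forall hM)

theorem hat_meas {g : ℂ → ℂ} (hg : Measurable g) : Measurable (hat g) := by
  have h : StronglyMeasurable (Function.uncurry fun (v x : ℂ) => g x * ex x v) := by
    refine Measurable.stronglyMeasurable ?_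
    exact (hg.comp measurable_snd).mul (ex_cont.measurable.comp measurable_swap)
  exact h.integral_prod_right.measurable

theorem hat_le (g : ℂ → ℂ) (v : ℂ) : ‖hat g v‖ ≤ ∫ x, ‖g x‖ := by
  unfold hat
  refine (norm_integral_le_integral_norm _).trans (le_of_eq ?_)
  refine integral_congr_ae (Eventually.of_forall fun x => ?_)
  simp only [norm_mul, ex_norm, mul_one]

/-- the function on the left side -/
noncomputable def hh (n : ℕ) (g : ℂ → ℂ) (w : ℂ) : ℂ := ((ker n w : ℝ) : ℂ) * hat g (iv n w)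

theorem hh_meas (n : ℕ) {g : ℂ → ℂ} (hg : Measurable g) : Measurable (hh n g) :=
  (Complex.measurable_ofReal.comp (ker_meas n)).mul ((hat_meas hg).comp (iv_meas n))

/-- annulus -/
def An (ρ D : ℝ) : Set ℂ := {w | ρ ≤ ‖w‖ ∧ ‖w‖ ≤ D}

theorem An_meas (ρ D : ℝ) : MeasurableSet (An ρ D) :=
  (measurableSet_le measurable_const measurable_norm).inter
    (measurableSet_le measurable_norm measurable_const)

theorem An_fin (ρ D : ℝ) : volume (An ρ D) ≠ ∞ := by
  have h : An ρ D ⊆ Metric.closedBall 0 D := by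
    intro w hw
    rw [Metric.mem_closedBall, dist_zero_right]
    exact hw.2
  exact ((measure_mono h).trans_lt measure_closedBall_lt_top).ne

theorem ker_bd (n : ℕ) {ρ D : ℝ} (hρ : 0 < ρ) {w : ℂ} (hw : w ∈ An ρ D) :
    ker n w ≤ n / (Real.pi * ρ ^ 2) := by
  have hpi := Real.pi_pos
  unfold ker
  have := hw.1
  gcongr

theorem hh_bd (n : ℕ) (g : ℂ → ℂ) {ρ D : ℝ} (hρ : 0 < ρ) {w : ℂ} (hw : w ∈ An ρ D) :
    ‖hh n g w‖ ≤ n / (Real.pi * ρ ^ 2) * ∫ x, ‖g x‖ := by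
  unfold hh
  rw [norm_mul, Complex.norm_real, Real.norm_of_nonneg (ker_nonneg n w)]
  have hpi := Real.pi_pos
  exact mul_le_mul (ker_bd n hρ hw) (hat_le g _) (norm_nonneg _) (by positivity)

theorem qq_gt (m : ℕ) (hm : 2 ≤ m) : 1 < qq m := by
  have hm0 : (2 : ℝ) ≤ m := by exact_mod_cast hm
  unfold qq
  rw [lt_div_iff₀ (by linarith)]
  linarith

theorem qq_conj (m : ℕ) (hm : 2 ≤ m) : (qq m).HolderConjugate (2 * (m : ℝ)) := by
  have hm0 : (2 : ℝ) ≤ m := by exact_mod_cast hm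
  rw [Real.holderConjugate_iff]
  refine ⟨qq_gt m hm, ?_⟩
  unfold qq
  have h1 : (2 * (m : ℝ) - 1) ≠ 0 := by linarith
  have h2 : (2 * (m : ℝ)) ≠ 0 := by linarith
  rw [inv_div]
  field_simp
  ring

theorem qq_eq (m : ℕ) (hm : 2 ≤ m) : (qq m - 1) * ((2 * m : ℕ) : ℝ) = qq m := by
  have hm0 : (2 : ℝ) ≤ m := by exact_mod_cast hm
  unfold qq
  have h1 : (2 * (m : ℝ) - 1) ≠ 0 := by linarith
  push_cast
  field_simp
  ring

theorem pt1 {q : ℝ} (hq : 1 < q) (z : ℂ) :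
    z * (conj z * ((‖z‖ ^ (q - 2) : ℝ) : ℂ)) = ((‖z‖ ^ q : ℝ) : ℂ) := by
  by_cases hz : z = 0
  · rw [hz, norm_zero, Real.zero_rpow (by linarith : q ≠ 0)]
    simp
  · have h0 : 0 < ‖z‖ := norm_pos_iff.2 hz
    rw [← mul_assoc, Complex.mul_conj, Complex.normSq_eq_norm_sq, ← Complex.ofReal_mul]
    congr 1
    rw [← Real.rpow_natCast, ← Real.rpow_add h0]
    congr 1
    push_cast
    ring

theorem pt2 {q : ℝ} (hq : 1 < q) (z : ℂ) :
    ‖conj z * ((‖z‖ ^ (q - 2) : ℝ) : ℂ)‖ = ‖z‖ ^ (q - 1) := by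
  rw [norm_mul, Complex.norm_conj, Complex.norm_real,
    Real.norm_of_nonneg (Real.rpow_nonneg (norm_nonneg _) _)]
  by_cases hz : z = 0
  · rw [hz, norm_zero, Real.zero_rpow (by linarith : q - 1 ≠ 0)]
    simp
  · have h0 : 0 < ‖z‖ := norm_pos_iff.2 hz
    calc ‖z‖ * ‖z‖ ^ (q - 2) = ‖z‖ ^ (1 : ℝ) * ‖z‖ ^ (q - 2) := by rw [Real.rpow_one]
      _ = ‖z‖ ^ (q - 1) := by
        rw [← Real.rpow_add h0]
        congr 1
        ring

/-- the test function -/
noncomputable def ph (q : ℝ) (n : ℕ) (g : ℂ → ℂ) (ρ D : ℝ) : ℂ → ℂ :=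
  (An ρ D).indicator fun w => conj (hh n g w) * ((‖hh n g w‖ ^ (q - 2) : ℝ) : ℂ)

theorem ph_supp (q : ℝ) (n : ℕ) (g : ℂ → ℂ) (ρ D : ℝ) (w : ℂ) (h : ph q n g ρ D w ≠ 0) :
    w ∈ An ρ D := by
  by_contra hw
  exact h (Set.indicator_of_notMem hw _)

theorem ph_meas (q : ℝ) (n : ℕ) {g : ℂ → ℂ} (hg : Measurable g) (ρ D : ℝ) :
    Measurable (ph q n g ρ D) := by
  refine Measurable.indicator ?_ (An_meas ρ D)
  refine (Complex.continuous_conj.measurable.comp (hh_meas n hg)).mul ?_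
  exact Complex.measurable_ofReal.comp ((hh_meas n hg).norm.pow_const _)

theorem ph_nice {q : ℝ} (hq : 1 < q) (n : ℕ) {g : ℂ → ℂ} (hg : Nice g) {ρ D : ℝ} (hρ : 0 < ρ) :
    Nice (ph q n g ρ D) := by
  refine ⟨ph_meas q n hg.1 ρ D, ⟨(n / (Real.pi * ρ ^ 2) * ∫ x, ‖g x‖) ^ (q - 1), ?_⟩, D, ?_⟩
  · intro w
    by_cases hw : w ∈ An ρ D
    · unfold ph
      rw [Set.indicator_of_mem hw, pt2 hq]
      exact Real.rpow_le_rpow (norm_nonneg _) (hh_bd n g hρ hw) (by linarith)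
    · unfold ph
      rw [Set.indicator_of_notMem hw, norm_zero]
      have hpi := Real.pi_pos
      have : 0 ≤ ∫ x, ‖g x‖ := integral_nonneg fun x => norm_nonneg _
      positivity
  · intro w hw
    by_contra h
    exact absurd (ph_supp _ _ _ _ _ _ h).2 (not_le.2 hw)

theorem kph_nice {q : ℝ} (hq : 1 < q) (n : ℕ) {g : ℂ → ℂ} (hg : Nice g) {ρ D : ℝ} (hρ : 0 < ρ) :
    Nice fun w => ((ker n w : ℝ) : ℂ) * ph q n g ρ D w := by
  obtain ⟨h1, ⟨M, hM⟩, R, hR⟩ := ph_nice hq n hg (D := D) hρ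
  have hpi := Real.pi_pos
  refine ⟨(Complex.measurable_ofReal.comp (ker_meas n)).mul h1,
    ⟨n / (Real.pi * ρ ^ 2) * M, fun w => ?_⟩, R, fun w hw => ?_⟩
  · have hM0 : 0 ≤ M := (norm_nonneg _).trans (hM 0)
    by_cases hw : w ∈ An ρ D
    · rw [norm_mul, Complex.norm_real, Real.norm_of_nonneg (ker_nonneg n w)]
      exact mul_le_mul (ker_bd n hρ hw) (hM w) (norm_nonneg _) (by positivity)
    · have h0 : ph q n g ρ D w = 0 := Set.indicator_of_notMem hw _
      show ‖((ker n w : ℝ) : ℂ) * ph q n g ρ D w‖ ≤ _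
      rw [h0, mul_zero, norm_zero]
      positivity
  · show _ * ph q n g ρ D w = 0
    rw [hR w hw, mul_zero]

/-- Fubini -/
theorem fub {q : ℝ} (hq : 1 < q) (n : ℕ) {g : ℂ → ℂ} (hg : Nice g) {ρ D : ℝ} (hρ : 0 < ρ) :
    ∫ w, hh n g w * ph q n g ρ D w =
      ∫ x, g x * ∫ w, ((ker n w : ℝ) : ℂ) * ph q n g ρ D w * ex x (iv n w) := by
  have hk := kph_nice hq n hg (D := D) hρ
  have hint : Integrable (Function.uncurry fun (w x : ℂ) =>
      (((ker n w : ℝ) : ℂ) * ph q n g ρ D w) * (g x * ex x (iv n w)))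
      ((volume : Measure ℂ).prod volume) := by
    have h1 := (nice_int hk).mul_prod (nice_int hg)
    refine h1.mono ?_ (Eventually.of_forall fun z => ?_)
    · refine Measurable.aestronglyMeasurable ?_
      exact (hk.1.comp measurable_fst).mul ((hg.1.comp measurable_snd).mul
        (ex_cont.measurable.comp (measurable_snd.prodMk ((iv_meas n).comp measurable_fst))))
    · simp only [Function.uncurry, norm_mul, ex_norm, mul_one]
      exact le_refl _
  have h2 := integral_integral_swap hint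
  have e1 : ∀ w, ∫ x, (((ker n w : ℝ) : ℂ) * ph q n g ρ D w) * (g x * ex x (iv n w)) =
      hh n g w * ph q n g ρ D w := by
    intro w
    rw [integral_const_mul]
    unfold hh hat
    ring
  have e2 : ∀ x, ∫ w, (((ker n w : ℝ) : ℂ) * ph q n g ρ D w) * (g x * ex x (iv n w)) =
      g x * ∫ w, ((ker n w : ℝ) : ℂ) * ph q n g ρ D w * ex x (iv n w) := by
    intro x
    rw [← integral_const_mul]
    refine integral_congr_ae (Eventually.of_forall fun w => ?_)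
    show _ = _
    ring
  simp only [e1, e2] at h2
  exact h2

theorem en_pow {q : ℝ} (hq : 0 ≤ q) (z : ℂ) : ENNReal.ofReal (‖z‖ ^ q) = ‖z‖ₑ ^ q := by
  rw [← ENNReal.ofReal_rpow_of_nonneg (norm_nonneg _) hq, ofReal_norm]

theorem ph_pow (m : ℕ) (hm : 2 ≤ m) (n : ℕ) (g : ℂ → ℂ) (ρ D : ℝ) :
    ∫⁻ w, ‖ph (qq m) n g ρ D w‖ₑ ^ (2 * m) = ∫⁻ w in An ρ D, ‖hh n g w‖ₑ ^ (qq m) := by
  rw [← lintegral_indicator (An_meas ρ D)]
  refine lintegral_congr fun w => ?_
  have hq := qq_gt m hm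
  by_cases hw : w ∈ An ρ D
  · rw [Set.indicator_of_mem hw]
    unfold ph
    rw [Set.indicator_of_mem hw, ← ofReal_norm, pt2 hq, en_pow (by linarith), ← ENNReal.rpow_natCast,
      ← ENNReal.rpow_mul, qq_eq m hm]
  · rw [Set.indicator_of_notMem hw]
    unfold ph
    rw [Set.indicator_of_notMem hw, enorm_zero, zero_pow (by omega)]

theorem J_fin (m : ℕ) (hm : 2 ≤ m) (n : ℕ) (g : ℂ → ℂ) {ρ D : ℝ} (hρ : 0 < ρ) :
    ∫⁻ w in An ρ D, ‖hh n g w‖ₑ ^ (qq m) ≠ ∞ := by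
  have hq := qq_gt m hm
  have h1 : ∫⁻ w in An ρ D, ‖hh n g w‖ₑ ^ (qq m) ≤
      ∫⁻ _w in An ρ D, ENNReal.ofReal ((n / (Real.pi * ρ ^ 2) * ∫ x, ‖g x‖) ^ (qq m)) := by
    refine setLIntegral_mono' (An_meas ρ D) fun w hw => ?_
    rw [← en_pow (by linarith)]
    exact ENNReal.ofReal_le_ofReal (Real.rpow_le_rpow (norm_nonneg _) (hh_bd n g hρ hw) (by linarith))
  refine ne_top_of_le_ne_top ?_ h1
  rw [setLIntegral_const]
  exact ENNReal.mul_ne_top ENNReal.ofReal_ne_top (An_fin ρ D)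

theorem J_eq (m : ℕ) (hm : 2 ≤ m) (n : ℕ) {g : ℂ → ℂ} (hg : Nice g) {ρ D : ℝ} (hρ : 0 < ρ) :
    ‖∫ w, hh n g w * ph (qq m) n g ρ D w‖ₑ = ∫⁻ w in An ρ D, ‖hh n g w‖ₑ ^ (qq m) := by
  have hq := qq_gt m hm
  have e1 : ∫ w, hh n g w * ph (qq m) n g ρ D w =
      ((∫ w in An ρ D, ‖hh n g w‖ ^ (qq m) : ℝ) : ℂ) := by
    rw [← integral_complex_ofReal, ← integral_indicator (An_meas ρ D)]
    refine integral_congr_ae (Eventually.of_forall fun w => ?_)
    show hh n g w * ph (qq m) n g ρ D w = _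
    by_cases hw : w ∈ An ρ D
    · rw [Set.indicator_of_mem hw]
      unfold ph
      rw [Set.indicator_of_mem hw, pt1 hq]
    · rw [Set.indicator_of_notMem hw]
      unfold ph
      rw [Set.indicator_of_notMem hw, mul_zero]
  have hnn : 0 ≤ ∫ w in An ρ D, ‖hh n g w‖ ^ (qq m) :=
    integral_nonneg fun w => Real.rpow_nonneg (norm_nonneg _) _
  have hint : Integrable (fun w => ‖hh n g w‖ ^ (qq m)) (volume.restrict (An ρ D)) := by
    refine Measure.integrableOn_of_bounded (M := (n / (Real.pi * ρ ^ 2) * ∫ x, ‖g x‖) ^ (qq m))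
      (An_fin ρ D) ((hh_meas n hg.1).norm.pow_const _).aestronglyMeasurable ?_
    refine (ae_restrict_iff' (An_meas ρ D)).2 (Eventually.of_forall fun w hw => ?_)
    rw [Real.norm_of_nonneg (Real.rpow_nonneg (norm_nonneg _) _)]
    exact Real.rpow_le_rpow (norm_nonneg _) (hh_bd n g hρ hw) (by linarith)
  rw [e1, ← ofReal_norm, Complex.norm_real, Real.norm_of_nonneg hnn,
    ofReal_integral_eq_lintegral_ofReal hint
      (Eventually.of_forall fun w => Real.rpow_nonneg (norm_nonneg _) _)]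
  refine lintegral_congr fun w => ?_
  exact en_pow (by linarith) _

/-- the inequality on an annulus -/
theorem ann (hP : S_PIT) (m n : ℕ) (hm : 2 ≤ m) (hn : 1 ≤ n) {g : ℂ → ℂ} (hg : Nice g) {ρ D : ℝ}
    (hρ : 0 < ρ) (hD : 0 < D) :
    ∫⁻ w in An ρ D, ‖hh n g w‖ₑ ^ (qq m) ≤
      ENNReal.ofReal (AA m n ^ (qq m)) * ∫⁻ x, ‖g x‖ₑ ^ (qq m) := by
  have hq := qq_gt m hm
  have hconj := qq_conj m hm
  have hm0 : (2 : ℝ) ≤ m := by exact_mod_cast hm
  have hAA := AA_pos m n hm hn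
  obtain ⟨J, hJ⟩ : ∃ J, J = ∫⁻ w in An ρ D, ‖hh n g w‖ₑ ^ (qq m) := ⟨_, rfl⟩
  obtain ⟨G, hG⟩ : ∃ G, G = ∫⁻ x, ‖g x‖ₑ ^ (qq m) := ⟨_, rfl⟩
  have hJt : J ≠ ∞ := by
    rw [hJ]
    exact J_fin m hm n g hρ
  -- the dual function
  obtain ⟨Φ, hΦ⟩ : ∃ Φ : ℂ → ℂ, Φ = fun x =>
    ∫ w, ((ker n w : ℝ) : ℂ) * ph (qq m) n g ρ D w * ex x (iv n w) := ⟨_, rfl⟩
  have hΦm : Measurable Φ := by
    rw [hΦ]
    have h : StronglyMeasurable (Function.uncurry fun (x w : ℂ) =>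
        ((ker n w : ℝ) : ℂ) * ph (qq m) n g ρ D w * ex x (iv n w)) := by
      refine Measurable.stronglyMeasurable ?_
      refine ((kph_nice hq n hg (D := D) hρ).1.comp measurable_snd).mul ?_
      exact ex_cont.measurable.comp (measurable_fst.prodMk ((iv_meas n).comp measurable_snd))
    exact h.integral_prod_right.measurable
  have h1 : ∫⁻ x, ‖Φ x‖ₑ ^ (2 * (m : ℝ)) ≤ ENNReal.ofReal (AA m n ^ (2 * m)) * J := by
    have h := bound hP m n hm hn hρ hD (ph_nice hq n hg (D := D) hρ)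
      (fun w hw => ph_supp _ _ _ _ _ _ hw)
    rw [ph_pow m hm] at h
    rw [hJ, hΦ]
    refine le_trans (le_of_eq ?_) h
    refine lintegral_congr fun x => ?_
    rw [← ENNReal.rpow_natCast]
    congr 1
    push_cast
    rfl
  have h2 : J ≤ G ^ (1 / qq m) * (ENNReal.ofReal (AA m n ^ (2 * m)) * J) ^ (1 / (2 * (m : ℝ))) := by
    have h3 : J = ‖∫ x, g x * Φ x‖ₑ := by
      rw [hJ, ← J_eq m hm n hg hρ, fub hq n hg hρ, hΦ]
    rw [h3]
    refine (enorm_integral_le_lintegral_enorm _).trans ?_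
    have h4 : ∫⁻ x, ‖g x * Φ x‖ₑ = ∫⁻ x, ((fun x => ‖g x‖ₑ) * fun x => ‖Φ x‖ₑ) x := by
      refine lintegral_congr fun x => ?_
      rw [enorm_mul]
      rfl
    rw [h4]
    refine (ENNReal.lintegral_mul_le_Lp_mul_Lq volume hconj hg.1.enorm.aemeasurable
      hΦm.enorm.aemeasurable).trans ?_
    rw [← hG, ← h3]
    gcongr
  have h5 : (ENNReal.ofReal (AA m n ^ (2 * m)) * J) ^ (1 / (2 * (m : ℝ))) =
      ENNReal.ofReal (AA m n) * J ^ (1 / (2 * (m : ℝ))) := by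
    rw [ENNReal.mul_rpow_of_nonneg _ _ (by positivity),
      ENNReal.ofReal_rpow_of_nonneg (by positivity) (by positivity), ← Real.rpow_natCast,
      ← Real.rpow_mul hAA.le]
    congr 2
    have : ((2 * m : ℕ) : ℝ) * (1 / (2 * (m : ℝ))) = 1 := by
      push_cast
      field_simp
    rw [this, Real.rpow_one]
  rw [h5, ← mul_assoc] at h2
  rw [← hJ, ← hG]
  by_cases hJ0 : J = 0
  · rw [hJ0]
    exact bot_le
  have h6 : J = J ^ (1 / qq m) * J ^ (1 / (2 * (m : ℝ))) := by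
    rw [← ENNReal.rpow_add _ _ hJ0 hJt, one_div, one_div, hconj.inv_add_inv_eq_one, ENNReal.rpow_one]
  have h7 : J ^ (1 / qq m) * J ^ (1 / (2 * (m : ℝ))) ≤
      G ^ (1 / qq m) * ENNReal.ofReal (AA m n) * J ^ (1 / (2 * (m : ℝ))) := by
    rw [← h6]
    exact h2
  have h8 : J ^ (1 / (2 * (m : ℝ))) ≠ 0 := by
    rw [Ne, ENNReal.rpow_eq_zero_iff]
    push Not
    exact ⟨fun h => absurd h hJ0, fun h => absurd h hJt⟩
  have h9 : J ^ (1 / (2 * (m : ℝ))) ≠ ∞ := ENNReal.rpow_ne_top_of_nonneg (by positivity) hJt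
  have h10 := (ENNReal.mul_le_mul_iff_left h8 h9).1 h7
  have h11 := ENNReal.rpow_le_rpow h10 (by linarith : (0 : ℝ) ≤ qq m)
  rw [← ENNReal.rpow_mul, one_div, inv_mul_cancel₀ (by linarith : qq m ≠ 0), ENNReal.rpow_one,
    ENNReal.mul_rpow_of_nonneg _ _ (by linarith), ← ENNReal.rpow_mul,
    inv_mul_cancel₀ (by linarith : qq m ≠ 0), ENNReal.rpow_one,
    ENNReal.ofReal_rpow_of_nonneg hAA.le (by linarith)] at h11
  rw [mul_comm]
  exact h11

/-- **PAL.** -/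
theorem t (h : Pool.Agent.N892.BW.S_PIT) : Pool.Agent.N892.BW.S_PAL := by
  intro m n hm hn g hg
  have e1 : ∀ w : ℂ, (ENNReal.ofReal (ker n w) * ‖hat g (iv n w)‖ₑ) ^ (qq m) =
      ‖hh n g w‖ₑ ^ (qq m) := by
    intro w
    unfold hh
    rw [enorm_mul, ← ofReal_norm ((ker n w : ℝ) : ℂ), Complex.norm_real,
      Real.norm_of_nonneg (ker_nonneg n w)]
  simp only [e1]
  have hdir : Directed (· ⊆ ·) fun k : ℕ => An (1 / ((k : ℝ) + 1)) ((k : ℝ) + 1) := by
    refine Monotone.directed_le (f := fun k : ℕ => An (1 / ((k : ℝ) + 1)) ((k : ℝ) + 1)) ?_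
    intro i j hij w hw
    have hij' : (i : ℝ) ≤ j := by exact_mod_cast hij
    refine ⟨le_trans ?_ hw.1, hw.2.trans (by linarith)⟩
    apply one_div_le_one_div_of_le
    · positivity
    · linarith
  have hun : (⋃ k : ℕ, An (1 / ((k : ℝ) + 1)) ((k : ℝ) + 1)) = {0}ᶜ := by
    ext w
    rw [Set.mem_iUnion]
    constructor
    · rintro ⟨k, hk⟩ hw
      have hw0 : w = 0 := hw
      have h1 := hk.1
      rw [hw0, norm_zero] at h1
      have : (0 : ℝ) < 1 / ((k : ℝ) + 1) := by positivity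
      linarith
    · intro hw
      have hw0 : 0 < ‖w‖ := norm_pos_iff.2 hw
      obtain ⟨k, hk⟩ := exists_nat_ge (max ‖w‖ (1 / ‖w‖))
      refine ⟨k, ?_, ?_⟩
      · have h1 := (le_max_right _ _).trans hk
        rw [div_le_iff₀ (by positivity)]
        rw [div_le_iff₀ hw0] at h1
        nlinarith
      · have h1 := (le_max_left _ _).trans hk
        linarith
  have h2 : ∫⁻ w, ‖hh n g w‖ₑ ^ (qq m) =
      ⨆ k : ℕ, ∫⁻ w in An (1 / ((k : ℝ) + 1)) ((k : ℝ) + 1), ‖hh n g w‖ₑ ^ (qq m) := by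
    rw [← setLIntegral_iUnion_of_directed _ hdir, hun, restrict_compl_singleton]
  rw [h2]
  refine iSup_le fun k => ?_
  exact ann h m n hm hn hg (by positivity) (by positivity)

end Pool.Agent.N892.BW.PAL
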