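import Pool.Agent.N892.BW.Stm

/-!
# Project BW, part RZ: composition formula of Riesz potentials in the plane (helper547)
-/

set_option autoImplicit false
set_option linter.all false

open MeasureTheory ENNReal Filter Topology Complex Set
open scoped ComplexConjugate

namespace Pool.Agent.N892.BW.RZ

/-- Gamma integrals -/
theorem gam (s ρ : ℝ) (hs : 0 < s) (hρ : 0 < ρ) :
    ∫⁻ t in Ioi (0 : ℝ), ENNReal.ofReal (t ^ (s - 1) * Real.exp (-(ρ * t))) =
      ENNReal.ofReal (Real.Gamma s * ρ ^ (-s)) := by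
  have h1 := Real.integral_rpow_mul_exp_neg_mul_Ioi hs hρ
  have h2 : (1 / ρ) ^ s * Real.Gamma s = Real.Gamma s * ρ ^ (-s) := by
    rw [one_div, Real.inv_rpow hρ.le, Real.rpow_neg hρ.le, mul_comm]
  rw [h2] at h1
  have h3 : Integrable (fun t : ℝ => t ^ (s - 1) * Real.exp (-(ρ * t)))
      (volume.restrict (Ioi 0)) := by
    apply Integrable.of_integral_ne_zero
    rw [h1]
    have := Real.Gamma_pos_of_pos hs
    positivity
  rw [← h1, ofReal_integral_eq_lintegral_ofReal h3]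
  refine (ae_restrict_iff' measurableSet_Ioi).2 (Eventually.of_forall fun t ht => ?_)
  rw [mem_Ioi] at ht
  simp only [Pi.zero_apply]
  positivity

/-- Gaussian integral -/
theorem gau (c : ℝ) (hc : 0 < c) :
    ∫⁻ y : ℂ, ENNReal.ofReal (Real.exp (-c * ‖y‖ ^ 2)) = ENNReal.ofReal (Real.pi / c) := by
  have h1 := GaussianFourier.integral_rexp_neg_mul_sq_norm (V := ℂ) hc
  have h2 : (Real.pi / c) ^ (Module.finrank ℝ ℂ / 2 : ℝ) = Real.pi / c := by
    rw [Complex.finrank_real_complex]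
    norm_num
  rw [h2] at h1
  have h3 : Integrable (fun y : ℂ => Real.exp (-c * ‖y‖ ^ 2)) := by
    apply Integrable.of_integral_ne_zero
    rw [h1]
    have := Real.pi_pos
    positivity
  rw [← h1, ofReal_integral_eq_lintegral_ofReal h3]
  exact Eventually.of_forall fun y => (Real.exp_pos _).le

theorem sqr (v : ℝ) (hv : 0 < v) (x y : ℂ) :
    ‖y‖ ^ 2 + v * ‖x - y‖ ^ 2 =
      (1 + v) * ‖y - ((v / (1 + v) : ℝ) : ℂ) * x‖ ^ 2 + v / (1 + v) * ‖x‖ ^ 2 := by
  rw [← Complex.normSq_eq_norm_sq, ← Complex.normSq_eq_norm_sq, ← Complex.normSq_eq_norm_sq,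
    ← Complex.normSq_eq_norm_sq]
  simp only [Complex.normSq_apply, Complex.sub_re, Complex.sub_im, Complex.mul_re, Complex.mul_im,
    Complex.ofReal_re, Complex.ofReal_im]
  field_simp
  ring

/-- Gaussian integral with two centres -/
theorem gau2 (t v : ℝ) (ht : 0 < t) (hv : 0 < v) (x : ℂ) :
    ∫⁻ y : ℂ, ENNReal.ofReal (Real.exp (-(t * (‖y‖ ^ 2 + v * ‖x - y‖ ^ 2)))) =
      ENNReal.ofReal (Real.pi / (t * (1 + v)) * Real.exp (-(v * ‖x‖ ^ 2 / (1 + v) * t))) := by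
  have h1 : ∀ y : ℂ, ENNReal.ofReal (Real.exp (-(t * (‖y‖ ^ 2 + v * ‖x - y‖ ^ 2)))) =
      ENNReal.ofReal (Real.exp (-(v * ‖x‖ ^ 2 / (1 + v) * t))) *
        (fun z : ℂ => ENNReal.ofReal (Real.exp (-(t * (1 + v)) * ‖z‖ ^ 2)))
          (y - ((v / (1 + v) : ℝ) : ℂ) * x) := by
    intro y
    simp only
    rw [← ENNReal.ofReal_mul (Real.exp_pos _).le, ← Real.exp_add, sqr v hv]
    congr 2
    ring
  simp_rw [h1]
  rw [lintegral_const_mul' _ _ ENNReal.ofReal_ne_top, lintegral_sub_right_eq_self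
    (fun z : ℂ => ENNReal.ofReal (Real.exp (-(t * (1 + v)) * ‖z‖ ^ 2))),
    gau _ (by positivity), ← ENNReal.ofReal_mul (Real.exp_pos _).le, mul_comm]

/-- Beta integral -/
theorem bet (a b : ℝ) (ha : 0 < a) (hb : 0 < b) :
    ENNReal.ofReal (Real.Gamma (a + b)) *
      ∫⁻ v in Ioi (0 : ℝ), ENNReal.ofReal (v ^ (a - 1) * (1 + v) ^ (-(a + b))) =
      ENNReal.ofReal (Real.Gamma a * Real.Gamma b) := by
  rw [← lintegral_const_mul' _ _ ENNReal.ofReal_ne_top]
  have hG := Real.Gamma_pos_of_pos (add_pos ha hb)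
  have h1 : ∀ v ∈ Ioi (0 : ℝ), ENNReal.ofReal (Real.Gamma (a + b)) *
      ENNReal.ofReal (v ^ (a - 1) * (1 + v) ^ (-(a + b))) =
      ∫⁻ r in Ioi (0 : ℝ), ENNReal.ofReal (v ^ (a - 1) * (r ^ (a + b - 1) *
        Real.exp (-((1 + v) * r)))) := by
    intro v hv
    rw [mem_Ioi] at hv
    have e1 : ∀ r : ℝ, ENNReal.ofReal (v ^ (a - 1) * (r ^ (a + b - 1) *
        Real.exp (-((1 + v) * r)))) = ENNReal.ofReal (v ^ (a - 1)) *
          ENNReal.ofReal (r ^ (a + b - 1) * Real.exp (-((1 + v) * r))) := fun r =>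
      ENNReal.ofReal_mul (by positivity)
    simp_rw [e1]
    rw [lintegral_const_mul' _ _ ENNReal.ofReal_ne_top, gam _ _ (by positivity) (by positivity),
      ← ENNReal.ofReal_mul (by positivity), ← ENNReal.ofReal_mul (by positivity)]
    congr 1
    ring
  rw [setLIntegral_congr_fun measurableSet_Ioi h1]
  rw [lintegral_lintegral_swap]
  · have h2 : ∀ r ∈ Ioi (0 : ℝ), ∫⁻ v in Ioi (0 : ℝ), ENNReal.ofReal (v ^ (a - 1) *
        (r ^ (a + b - 1) * Real.exp (-((1 + v) * r)))) =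
        ENNReal.ofReal (Real.Gamma a) * ENNReal.ofReal (r ^ (b - 1) * Real.exp (-(1 * r))) := by
      intro r hr
      rw [mem_Ioi] at hr
      have e1 : ∀ v : ℝ, ENNReal.ofReal (v ^ (a - 1) * (r ^ (a + b - 1) *
          Real.exp (-((1 + v) * r)))) = ENNReal.ofReal (r ^ (a + b - 1) * Real.exp (-(1 * r))) *
          ENNReal.ofReal (v ^ (a - 1) * Real.exp (-(r * v))) := by
        intro v
        rw [← ENNReal.ofReal_mul (by positivity)]
        congr 1
        rw [show -((1 + v) * r) = -(1 * r) + -(r * v) by ring, Real.exp_add]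
        ring
      simp_rw [e1]
      rw [lintegral_const_mul' _ _ ENNReal.ofReal_ne_top, gam _ _ ha hr,
        ← ENNReal.ofReal_mul (by positivity), ← ENNReal.ofReal_mul (Real.Gamma_pos_of_pos ha).le]
      congr 1
      have e2 : r ^ (a + b - 1) * r ^ (-a) = r ^ (b - 1) := by
        rw [← Real.rpow_add hr]; congr 1; ring
      calc r ^ (a + b - 1) * Real.exp (-(1 * r)) * (Real.Gamma a * r ^ (-a)) =
          Real.Gamma a * ((r ^ (a + b - 1) * r ^ (-a)) * Real.exp (-(1 * r))) := by ring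
        _ = _ := by rw [e2]
    rw [setLIntegral_congr_fun measurableSet_Ioi h2, lintegral_const_mul' _ _ ENNReal.ofReal_ne_top,
      gam _ _ hb one_pos, ← ENNReal.ofReal_mul (Real.Gamma_pos_of_pos ha).le, Real.one_rpow, mul_one]
  · apply Measurable.aemeasurable
    apply Measurable.ennreal_ofReal
    fun_prop

/-- the integrand -/
noncomputable def K (a b : ℝ) (x y : ℂ) (t v : ℝ) : ℝ :=
  t ^ (1 - (a + b) / 2) * v ^ (-(b / 2)) * Real.exp (-(t * (‖y‖ ^ 2 + v * ‖x - y‖ ^ 2)))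

theorem step1 (a b : ℝ) (ha : 0 < a) (hb : 0 < b) (hab : a + b < 2) (x y : ℂ) (hy : y ≠ 0)
    (hxy : x - y ≠ 0) :
    ENNReal.ofReal (Real.Gamma (1 - a / 2) * Real.Gamma (1 - b / 2)) *
      (ENNReal.ofReal (‖y‖ ^ (a - 2)) * ENNReal.ofReal (‖x - y‖ ^ (b - 2))) =
      ∫⁻ t in Ioi (0 : ℝ), ∫⁻ v in Ioi (0 : ℝ), ENNReal.ofReal (K a b x y t v) := by
  have hy' : 0 < ‖y‖ := norm_pos_iff.2 hy
  have hxy' : 0 < ‖x - y‖ := norm_pos_iff.2 hxy
  have hGa : 0 < Real.Gamma (1 - a / 2) := Real.Gamma_pos_of_pos (by linarith)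
  have hGb : 0 < Real.Gamma (1 - b / 2) := Real.Gamma_pos_of_pos (by linarith)
  have h1 : ∀ t ∈ Ioi (0 : ℝ), ∫⁻ v in Ioi (0 : ℝ), ENNReal.ofReal (K a b x y t v) =
      ENNReal.ofReal (Real.Gamma (1 - b / 2) * ‖x - y‖ ^ (b - 2)) *
        ENNReal.ofReal (t ^ ((1 - a / 2) - 1) * Real.exp (-(‖y‖ ^ 2 * t))) := by
    intro t ht
    rw [mem_Ioi] at ht
    have e1 : ∀ v : ℝ, ENNReal.ofReal (K a b x y t v) =
        ENNReal.ofReal (t ^ (1 - (a + b) / 2) * Real.exp (-(‖y‖ ^ 2 * t))) *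
        ENNReal.ofReal (v ^ ((1 - b / 2) - 1) * Real.exp (-((t * ‖x - y‖ ^ 2) * v))) := by
      intro v
      rw [← ENNReal.ofReal_mul (by positivity), K]
      congr 1
      rw [show -(t * (‖y‖ ^ 2 + v * ‖x - y‖ ^ 2)) = -(‖y‖ ^ 2 * t) + -((t * ‖x - y‖ ^ 2) * v) by
        ring, Real.exp_add, show (1 - b / 2) - 1 = -(b / 2) by ring]
      ring
    simp_rw [e1]
    rw [lintegral_const_mul' _ _ ENNReal.ofReal_ne_top, gam _ _ (by linarith) (by positivity),
      ← ENNReal.ofReal_mul (by positivity), ← ENNReal.ofReal_mul (by positivity)]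
    congr 1
    rw [Real.mul_rpow ht.le (by positivity)]
    have e2 : (‖x - y‖ ^ 2) ^ (-(1 - b / 2)) = ‖x - y‖ ^ (b - 2) := by
      rw [← Real.rpow_natCast, ← Real.rpow_mul hxy'.le]
      congr 1
      push_cast
      ring
    have e3 : t ^ (1 - (a + b) / 2) * t ^ (-(1 - b / 2)) = t ^ ((1 - a / 2) - 1) := by
      rw [← Real.rpow_add ht]; congr 1; ring
    rw [e2, ← e3]
    ring
  rw [setLIntegral_congr_fun measurableSet_Ioi h1, lintegral_const_mul' _ _ ENNReal.ofReal_ne_top,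
    gam _ _ (by linarith) (by positivity), ← ENNReal.ofReal_mul (by positivity),
    ← ENNReal.ofReal_mul (by positivity), ← ENNReal.ofReal_mul (by positivity)]
  congr 1
  have e2 : (‖y‖ ^ 2) ^ (-(1 - a / 2)) = ‖y‖ ^ (a - 2) := by
    rw [← Real.rpow_natCast, ← Real.rpow_mul hy'.le]
    congr 1
    push_cast
    ring
  rw [e2]
  ring

theorem step2 (a b : ℝ) (x : ℂ) (t v : ℝ) (ht : 0 < t) (hv : 0 < v) :
    ∫⁻ y : ℂ, ENNReal.ofReal (K a b x y t v) =
      ENNReal.ofReal (v ^ (-(b / 2)) * (Real.pi / (1 + v)) * (t ^ ((1 - (a + b) / 2) - 1) *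
        Real.exp (-(v * ‖x‖ ^ 2 / (1 + v) * t)))) := by
  have e1 : ∀ y : ℂ, ENNReal.ofReal (K a b x y t v) =
      ENNReal.ofReal (t ^ (1 - (a + b) / 2) * v ^ (-(b / 2))) *
        ENNReal.ofReal (Real.exp (-(t * (‖y‖ ^ 2 + v * ‖x - y‖ ^ 2)))) := by
    intro y
    rw [← ENNReal.ofReal_mul (by positivity), K]
  simp_rw [e1]
  rw [lintegral_const_mul' _ _ ENNReal.ofReal_ne_top, gau2 t v ht hv,
    ← ENNReal.ofReal_mul (by positivity)]
  congr 1
  have e3 : t ^ (1 - (a + b) / 2) = t ^ ((1 - (a + b) / 2) - 1) * t := by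
    nth_rewrite 3 [← Real.rpow_one t]
    rw [← Real.rpow_add ht]; congr 1; ring
  rw [e3]
  field_simp

theorem step3 (a b : ℝ) (ha : 0 < a) (hb : 0 < b) (hab : a + b < 2) (x : ℂ) (hx : x ≠ 0) (v : ℝ)
    (hv : 0 < v) :
    ∫⁻ t in Ioi (0 : ℝ), ENNReal.ofReal (v ^ (-(b / 2)) * (Real.pi / (1 + v)) *
      (t ^ ((1 - (a + b) / 2) - 1) * Real.exp (-(v * ‖x‖ ^ 2 / (1 + v) * t)))) =
      ENNReal.ofReal (Real.pi * Real.Gamma (1 - (a + b) / 2) * ‖x‖ ^ (a + b - 2)) *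
        ENNReal.ofReal (v ^ (a / 2 - 1) * (1 + v) ^ (-(a / 2 + b / 2))) := by
  have hx' : 0 < ‖x‖ := norm_pos_iff.2 hx
  have hG : 0 < Real.Gamma (1 - (a + b) / 2) := Real.Gamma_pos_of_pos (by linarith)
  have hpi := Real.pi_pos
  have e1 : ∀ t : ℝ, ENNReal.ofReal (v ^ (-(b / 2)) * (Real.pi / (1 + v)) *
      (t ^ ((1 - (a + b) / 2) - 1) * Real.exp (-(v * ‖x‖ ^ 2 / (1 + v) * t)))) =
      ENNReal.ofReal (v ^ (-(b / 2)) * (Real.pi / (1 + v))) *
      ENNReal.ofReal (t ^ ((1 - (a + b) / 2) - 1) *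
        Real.exp (-(v * ‖x‖ ^ 2 / (1 + v) * t))) := fun t => ENNReal.ofReal_mul (by positivity)
  simp_rw [e1]
  rw [lintegral_const_mul' _ _ ENNReal.ofReal_ne_top, gam _ _ (by linarith) (by positivity),
    ← ENNReal.ofReal_mul (by positivity), ← ENNReal.ofReal_mul (by positivity)]
  congr 1
  rw [Real.div_rpow (by positivity) (by positivity), Real.mul_rpow hv.le (by positivity)]
  have e2 : (‖x‖ ^ 2) ^ (-(1 - (a + b) / 2)) = ‖x‖ ^ (a + b - 2) := by
    rw [← Real.rpow_natCast, ← Real.rpow_mul hx'.le]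
    congr 1
    push_cast
    ring
  have e3 : v ^ (-(b / 2)) * v ^ (-(1 - (a + b) / 2)) = v ^ (a / 2 - 1) := by
    rw [← Real.rpow_add hv]; congr 1; ring
  have e4 : (1 + v) ^ (-(a / 2 + b / 2)) * ((1 + v) * (1 + v) ^ (-(1 - (a + b) / 2))) = 1 := by
    nth_rewrite 2 [← Real.rpow_one (1 + v)]
    rw [← Real.rpow_add (by positivity), ← Real.rpow_add (by positivity)]
    rw [show -(a / 2 + b / 2) + (1 + -(1 - (a + b) / 2)) = 0 by ring, Real.rpow_zero]
  rw [e2, ← e3]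
  have h5 : (1 + v) ^ (-(1 - (a + b) / 2)) ≠ 0 := (Real.rpow_pos_of_pos (by positivity) _).ne'
  have h6 : (1 + v) ^ (-(a / 2 + b / 2)) = 1 / ((1 + v) * (1 + v) ^ (-(1 - (a + b) / 2))) := by
    rw [_root_.eq_div_iff (by positivity)]
    exact e4
  rw [h6]
  field_simp

theorem canc (c d : ℝ) (hc : 0 < c) (L : ℝ≥0∞) (h : ENNReal.ofReal c * L = ENNReal.ofReal d) :
    L = ENNReal.ofReal (c⁻¹ * d) := by
  have h1 : ENNReal.ofReal c⁻¹ * ENNReal.ofReal c = 1 := by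
    rw [← ENNReal.ofReal_mul (by positivity), inv_mul_cancel₀ hc.ne', ENNReal.ofReal_one]
  rw [ENNReal.ofReal_mul (by positivity), ← h, ← mul_assoc, h1, one_mul]

theorem t : Pool.Agent.N892.BW.S_RZ := by
  intro a b ha hb hab x hx
  have hGa : 0 < Real.Gamma (1 - a / 2) := Real.Gamma_pos_of_pos (by linarith)
  have hGb : 0 < Real.Gamma (1 - b / 2) := Real.Gamma_pos_of_pos (by linarith)
  have hG : 0 < Real.Gamma (1 - (a + b) / 2) := Real.Gamma_pos_of_pos (by linarith)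
  have hGab : 0 < Real.Gamma (a / 2 + b / 2) := Real.Gamma_pos_of_pos (by linarith)
  have hx' : 0 < ‖x‖ := norm_pos_iff.2 hx
  have hpi := Real.pi_pos
  have hmeas : Measurable fun p : ℂ × (ℝ × ℝ) => ENNReal.ofReal (K a b x p.1 p.2.1 p.2.2) := by
    apply Measurable.ennreal_ofReal
    unfold K
    fun_prop
  -- first equality
  have h1 : ENNReal.ofReal (Real.Gamma (1 - a / 2) * Real.Gamma (1 - b / 2)) *
      ∫⁻ y : ℂ, ENNReal.ofReal (‖y‖ ^ (a - 2)) * ENNReal.ofReal (‖x - y‖ ^ (b - 2)) =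
      ENNReal.ofReal (Real.pi * Real.Gamma (1 - (a + b) / 2) * ‖x‖ ^ (a + b - 2)) *
        ∫⁻ v in Ioi (0 : ℝ), ENNReal.ofReal (v ^ (a / 2 - 1) * (1 + v) ^ (-(a / 2 + b / 2))) := by
    rw [← lintegral_const_mul' _ _ ENNReal.ofReal_ne_top]
    have e1 : ∫⁻ y : ℂ, ENNReal.ofReal (Real.Gamma (1 - a / 2) * Real.Gamma (1 - b / 2)) *
        (ENNReal.ofReal (‖y‖ ^ (a - 2)) * ENNReal.ofReal (‖x - y‖ ^ (b - 2))) =
        ∫⁻ y : ℂ, ∫⁻ p, ENNReal.ofReal (K a b x y p.1 p.2)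
          ∂((volume.restrict (Ioi (0 : ℝ))).prod (volume.restrict (Ioi (0 : ℝ)))) := by
      apply lintegral_congr_ae
      have h0 : ∀ᵐ y : ℂ, y ≠ 0 := by
        rw [ae_iff]; simp
      have h0' : ∀ᵐ y : ℂ, y ≠ x := by
        rw [ae_iff]; simp
      filter_upwards [h0, h0'] with y hy hyx
      rw [step1 a b ha hb hab x y hy (sub_ne_zero.2 (Ne.symm hyx)), lintegral_prod]
      exact (hmeas.comp (measurable_const.prodMk measurable_id)).aemeasurable
    rw [e1, lintegral_lintegral_swap hmeas.aemeasurable]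
    rw [lintegral_prod_symm _ (hmeas.lintegral_prod_left').aemeasurable]
    rw [← lintegral_const_mul' _ _ ENNReal.ofReal_ne_top]
    refine setLIntegral_congr_fun measurableSet_Ioi fun v hv => ?_
    rw [mem_Ioi] at hv
    simp only
    rw [← step3 a b ha hb hab x hx v hv]
    refine setLIntegral_congr_fun measurableSet_Ioi fun t ht => ?_
    rw [mem_Ioi] at ht
    exact step2 a b x t v ht hv
  have h2 := bet (a / 2) (b / 2) (by linarith) (by linarith)
  have h3 := canc _ _ hGab _ h2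
  rw [h3, ← ENNReal.ofReal_mul (by positivity)] at h1
  have h4 := canc _ _ (mul_pos hGa hGb) _ h1
  rw [h4]
  congr 1
  rw [RB, show (a + b) / 2 = a / 2 + b / 2 by ring]
  field_simp

end Pool.Agent.N892.BW.RZ
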