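import Mathlib
import Pool.Agent.N892.BW.Stm

/-!
The two final theorems of the first part (written with the definitions of `Stm.lean`).
-/

set_option autoImplicit false

open MeasureTheory ENNReal Filter Topology Complex
open scoped ComplexConjugate

namespace Pool.Agent.N892.BW

/-- FULL: all parts together -/
def S_ALL : Prop := S_LQ ∧ S_DUA ∧ S_ASY ∧ S_GAM ∧ S_CUX ∧ S_KER

/-- first final theorem: truncations of the kernel to annuli -/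
def S_H1 : Prop := ∀ (m : ℕ) (c B ε : ℝ), 2 ≤ m → 0 < c →
  c < (m : ℝ) * (m - 1) / ((2 * m + 1) * (3 * m - 1)) → 0 < ε →
  ∃ n₀ : ℕ, ∀ n : ℕ, n₀ ≤ n → ∀ (r : ℝ) (ψ : ℂ → ℝ), 0 < r → Cut B r (r * (n : ℝ) ^ c) ψ →
  ∀ f : ℂ → ℂ, MemLp f (2 * m : ℕ) volume →
    (∀ w : ℂ, Integrable (fun z => Kn n (w - z) * (ψ (w - z) : ℂ) * f z)) ∧
    eLpNorm (fun w => ∫ z, Kn n (w - z) * (ψ (w - z) : ℂ) * f z) (2 * m : ℕ) volume ≤
      ENNReal.ofReal ((1 + ε) * ∏ j ∈ Finset.range n, ((1 - 1 / (2 * (m : ℝ)) + j) / (1 / (2 * (m : ℝ)) + j))) *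
        eLpNorm f (2 * m : ℕ) volume

/-- second final theorem: `T ^ n f` on sets separated from the support of `f` -/
def S_H2 : Prop := ∀ (m : ℕ) (c : ℝ), 2 ≤ m → 0 < c →
  c < (m : ℝ) * (m - 1) / ((2 * m + 1) * (3 * m - 1)) →
  ∃ n₀ : ℕ, ∀ n : ℕ, n₀ ≤ n → ∀ (f : SchwartzMap ℂ ℂ) (F : Set ℂ) (r : ℝ), MeasurableSet F → 0 < r →
    (∀ z ∈ F, ∀ w : ℂ, f w ≠ 0 → r ≤ ‖z - w‖ ∧ ‖z - w‖ ≤ r * (n : ℝ) ^ c) →
    eLpNorm (fun z : ℂ => ∫ ξ : ℂ,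
          Complex.exp (2 * (Real.pi : ℂ) * Complex.I * ((z.re * ξ.re + z.im * ξ.im : ℝ) : ℂ)) *
            ((starRingEnd ℂ ξ / ξ) ^ n *
              ∫ w : ℂ, Complex.exp (-(2 * (Real.pi : ℂ) * Complex.I *
                ((w.re * ξ.re + w.im * ξ.im : ℝ) : ℂ))) * f w))
        (ENNReal.ofReal (2 * m)) (volume.restrict F)
      ≤ ENNReal.ofReal ((n : ℝ) ^ (1 - 2 / (2 * (m : ℝ))) * (2 * (m : ℝ) - 1)) *
        eLpNorm (fun z : ℂ => f z) (ENNReal.ofReal (2 * m)) volume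

end Pool.Agent.N892.BW
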