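import Pool.Agent.N892.BW.Stm

/-!
Powers of the Beurling transform: Young's inequality for the truncated kernel.
-/

set_option autoImplicit false

open MeasureTheory ENNReal Filter Topology Complex Set
open scoped ComplexConjugate

namespace Pool.Agent.N892.BW.YNG

/-- the truncated kernel -/
noncomputable def kt (δ : ℝ) (x : ℂ) : ℝ≥0∞ :=
  if δ ≤ ‖x‖ then ENNReal.ofReal ((‖x‖ ^ 2)⁻¹) else 0

theorem kt_meas (δ : ℝ) : Measurable (kt δ) := by
  unfold kt
  refine Measurable.ite ?_ ?_ measurable_const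
  · exact measurableSet_le measurable_const measurable_norm
  · exact ENNReal.measurable_ofReal.comp ((measurable_norm.pow_const 2).inv)

theorem kint {m : ℕ} (hm : 2 ≤ m) : ∃ C : ℝ, 0 < C ∧ ∀ δ : ℝ, 0 < δ →
    ∫⁻ x : ℂ, kt δ x ^ (m : ℝ) ≤ ENNReal.ofReal (C * δ ^ (2 - 2 * (m : ℝ))) := by
  have hm' : (2 : ℝ) ≤ m := by exact_mod_cast hm
  set V : ℝ := (volume : Measure ℂ).real (Metric.ball 0 1) with hV
  have hV0 : 0 ≤ V := measureReal_nonneg
  refine ⟨2 * V / (2 * m - 2) + 1, ?_, ?_⟩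
  · have : 0 ≤ 2 * V / (2 * (m : ℝ) - 2) := div_nonneg (by positivity) (by linarith)
    linarith
  intro δ hδ
  set f : ℝ → ℝ := fun r => if δ ≤ r then r ^ (-(2 * (m : ℝ))) else 0 with hf
  have h1 : ∀ x : ℂ, kt δ x ^ (m : ℝ) = ENNReal.ofReal (f ‖x‖) := by
    intro x
    unfold kt
    simp only [hf]
    split_ifs with h
    · have hx : 0 < ‖x‖ := hδ.trans_le h
      rw [ENNReal.ofReal_rpow_of_nonneg (by positivity) (by linarith)]
      congr 1
      rw [Real.inv_rpow (by positivity), ← Real.rpow_natCast, ← Real.rpow_mul hx.le,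
        Real.rpow_neg hx.le]
      norm_num
    · rw [ENNReal.zero_rpow_of_pos (by linarith), ENNReal.ofReal_zero]
  have hfn : ∀ r, 0 ≤ f r := by
    intro r
    simp only [hf]
    split_ifs with h
    · have : 0 < r := hδ.trans_le h
      positivity
    · exact le_rfl
  have hind : ∀ y ∈ Ioi (0 : ℝ), y ^ (Module.finrank ℝ ℂ - 1) • f y =
      (Ici δ).indicator (fun y => y ^ (1 - 2 * (m : ℝ))) y := by
    intro y hy
    rw [Complex.finrank_real_complex, smul_eq_mul]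
    by_cases h : δ ≤ y
    · rw [indicator_of_mem (mem_Ici.mpr h)]
      simp only [hf, if_pos h]
      rw [show (2 - 1 : ℕ) = 1 from rfl, pow_one, sub_eq_add_neg, Real.rpow_add hy, Real.rpow_one]
    · rw [indicator_of_notMem (fun h' => h (mem_Ici.mp h'))]
      simp only [hf, if_neg h, mul_zero]
  have hio : IntegrableOn (fun y : ℝ => y ^ (1 - 2 * (m : ℝ))) (Ici δ) := by
    rw [integrableOn_Ici_iff_integrableOn_Ioi]
    exact integrableOn_Ioi_rpow_of_lt (by linarith) hδ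
  have hint : Integrable (fun x : ℂ => f ‖x‖) := by
    rw [integrable_fun_norm_addHaar (μ := (volume : Measure ℂ)) (f := f),
      integrableOn_congr_fun hind measurableSet_Ioi]
    exact (hio.integrable_indicator measurableSet_Ici).integrableOn
  have hval : ∫ x : ℂ, f ‖x‖ = 2 * V / (2 * m - 2) * δ ^ (2 - 2 * (m : ℝ)) := by
    rw [integral_fun_norm_addHaar (volume : Measure ℂ) f,
      setIntegral_congr_fun measurableSet_Ioi hind, setIntegral_indicator measurableSet_Ici]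
    have h2 : Ioi (0 : ℝ) ∩ Ici δ = Ici δ := by
      ext y
      simp only [mem_inter_iff, mem_Ioi, mem_Ici]
      constructor
      · exact fun h => h.2
      · exact fun h => ⟨hδ.trans_le h, h⟩
    rw [h2, integral_Ici_eq_integral_Ioi, integral_Ioi_rpow_of_lt (by linarith) hδ,
      Complex.finrank_real_complex]
    rw [show (1 - 2 * (m : ℝ) + 1) = 2 - 2 * (m : ℝ) by ring]
    have h3 : (2 * (m : ℝ) - 2) ≠ 0 := by
      have : 0 < 2 * (m : ℝ) - 2 := by linarith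
      exact this.ne'
    have h4 : (2 - 2 * (m : ℝ)) ≠ 0 := by
      have : 2 - 2 * (m : ℝ) < 0 := by linarith
      exact this.ne
    have h5 : -δ ^ (2 - 2 * (m : ℝ)) / (2 - 2 * (m : ℝ)) =
        δ ^ (2 - 2 * (m : ℝ)) / (2 * (m : ℝ) - 2) := by
      rw [div_eq_div_iff h4 h3]
      ring
    simp only [nsmul_eq_mul, smul_eq_mul]
    rw [← hV, h5]
    push_cast
    ring
  simp only [h1]
  rw [← ofReal_integral_eq_lintegral_ofReal hint (Eventually.of_forall fun x => hfn _), hval]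
  apply ENNReal.ofReal_le_ofReal
  have : 0 < δ ^ (2 - 2 * (m : ℝ)) := by positivity
  nlinarith

theorem t : Pool.Agent.N892.BW.S_YNG := by
  intro m hm
  obtain ⟨C0, hC0, hk⟩ := kint hm
  have hm' : (2 : ℝ) ≤ m := by exact_mod_cast hm
  have hm0 : (m : ℝ) ≠ 0 := by linarith
  refine ⟨C0 ^ (1 / (m : ℝ)), by positivity, ?_⟩
  intro δ hδ g hg
  set k : ℂ → ℝ≥0∞ := kt δ with hkdef
  have hkm : Measurable k := kt_meas δ
  set q : ℝ := qq m with hq
  have hq1 : 2 * (m : ℝ) - 1 ≠ 0 := by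
    have : 0 < 2 * (m : ℝ) - 1 := by linarith
    exact this.ne'
  have hqv : q = 2 * (m : ℝ) / (2 * (m : ℝ) - 1) := rfl
  have hq0 : 0 < q := by
    rw [hqv]
    exact div_pos (by linarith) (by linarith)
  set G : ℝ≥0∞ := ∫⁻ z, g z ^ q with hG
  set Kc : ℝ≥0∞ := ∫⁻ x, k x ^ (m : ℝ) with hKc
  have hgq : Measurable fun z => g z ^ q := hg.pow_const q
  have hkq : Measurable fun z => k z ^ (m : ℝ) := hkm.pow_const _
  have hksub : Measurable fun w : ℂ × ℂ => k (w.1 - w.2) :=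
    hkm.comp (measurable_fst.sub measurable_snd)
  have hmeas : Measurable fun w : ℂ × ℂ => g w.1 * g w.2 * k (w.1 - w.2) :=
    ((hg.comp measurable_fst).mul (hg.comp measurable_snd)).mul hksub
  have h1 : ∫⁻ z, ∫⁻ z', (if δ ≤ ‖z - z'‖ then g z * g z' * ENNReal.ofReal ((‖z - z'‖ ^ 2)⁻¹) else 0)
      = ∫⁻ w : ℂ × ℂ, g w.1 * g w.2 * k (w.1 - w.2) ∂((volume : Measure ℂ).prod volume) := by
    rw [lintegral_prod _ hmeas.aemeasurable]
    refine lintegral_congr fun z => lintegral_congr fun z' => ?_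
    simp only [hkdef, kt]
    split_ifs
    · rfl
    · rw [mul_zero]
  rw [h1]
  set F : Fin 3 → ℂ × ℂ → ℝ≥0∞ := ![fun w => g w.1 ^ q * g w.2 ^ q,
    fun w => g w.1 ^ q * k (w.1 - w.2) ^ (m : ℝ),
    fun w => g w.2 ^ q * k (w.1 - w.2) ^ (m : ℝ)] with hF
  set P : Fin 3 → ℝ := ![1 - 1 / (m : ℝ), 1 / (2 * (m : ℝ)), 1 / (2 * (m : ℝ))] with hP
  have hP0 : 0 ≤ 1 - 1 / (m : ℝ) := by
    rw [sub_nonneg, div_le_one (by linarith)]
    linarith
  have hP1 : 0 ≤ 1 / (2 * (m : ℝ)) := by positivity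
  have hFm : ∀ i ∈ Finset.univ, AEMeasurable (F i) ((volume : Measure ℂ).prod volume) := by
    intro i _
    have m0 : Measurable fun w : ℂ × ℂ => g w.1 ^ q * g w.2 ^ q :=
      (hgq.comp measurable_fst).mul (hgq.comp measurable_snd)
    have m1 : Measurable fun w : ℂ × ℂ => g w.1 ^ q * k (w.1 - w.2) ^ (m : ℝ) :=
      (hgq.comp measurable_fst).mul (hksub.pow_const _)
    have m2 : Measurable fun w : ℂ × ℂ => g w.2 ^ q * k (w.1 - w.2) ^ (m : ℝ) :=
      (hgq.comp measurable_snd).mul (hksub.pow_const _)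
    fin_cases i
    · exact m0.aemeasurable
    · exact m1.aemeasurable
    · exact m2.aemeasurable
  have hold := ENNReal.lintegral_prod_norm_pow_le (μ := (volume : Measure ℂ).prod volume)
    Finset.univ hFm (p := P) (by
      rw [Fin.sum_univ_three]
      change 1 - 1 / (m : ℝ) + 1 / (2 * (m : ℝ)) + 1 / (2 * (m : ℝ)) = 1
      field_simp
      ring) (by
      intro i _
      fin_cases i
      · exact hP0
      · exact hP1
      · exact hP1)
  have hpt : ∀ w : ℂ × ℂ, g w.1 * g w.2 * k (w.1 - w.2) = ∏ i, F i w ^ P i := by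
    intro w
    rw [Fin.prod_univ_three]
    change _ = (g w.1 ^ q * g w.2 ^ q) ^ (1 - 1 / (m : ℝ)) *
      (g w.1 ^ q * k (w.1 - w.2) ^ (m : ℝ)) ^ (1 / (2 * (m : ℝ))) *
      (g w.2 ^ q * k (w.1 - w.2) ^ (m : ℝ)) ^ (1 / (2 * (m : ℝ)))
    rw [ENNReal.mul_rpow_of_nonneg _ _ hP0, ENNReal.mul_rpow_of_nonneg _ _ hP1,
      ENNReal.mul_rpow_of_nonneg _ _ hP1]
    have e1 : ∀ a : ℝ≥0∞, (a ^ q) ^ (1 - 1 / (m : ℝ)) * (a ^ q) ^ (1 / (2 * (m : ℝ))) = a := by
      intro a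
      rw [← ENNReal.rpow_add_of_nonneg _ _ hP0 hP1, ← ENNReal.rpow_mul]
      have : q * (1 - 1 / (m : ℝ) + 1 / (2 * (m : ℝ))) = 1 := by
        rw [hqv]
        field_simp
        ring
      rw [this, ENNReal.rpow_one]
    have e2 : ∀ a : ℝ≥0∞, (a ^ (m : ℝ)) ^ (1 / (2 * (m : ℝ))) * (a ^ (m : ℝ)) ^ (1 / (2 * (m : ℝ)))
        = a := by
      intro a
      rw [← ENNReal.rpow_add_of_nonneg _ _ hP1 hP1, ← ENNReal.rpow_mul]
      have : (m : ℝ) * (1 / (2 * (m : ℝ)) + 1 / (2 * (m : ℝ))) = 1 := by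
        field_simp
        ring
      rw [this, ENNReal.rpow_one]
    calc g w.1 * g w.2 * k (w.1 - w.2) =
        ((g w.1 ^ q) ^ (1 - 1 / (m : ℝ)) * (g w.1 ^ q) ^ (1 / (2 * (m : ℝ)))) *
        ((g w.2 ^ q) ^ (1 - 1 / (m : ℝ)) * (g w.2 ^ q) ^ (1 / (2 * (m : ℝ)))) *
        ((k (w.1 - w.2) ^ (m : ℝ)) ^ (1 / (2 * (m : ℝ))) *
          (k (w.1 - w.2) ^ (m : ℝ)) ^ (1 / (2 * (m : ℝ)))) := by rw [e1, e1, e2]
      _ = _ := by ring
  have hI0 : ∫⁻ w, F 0 w ∂((volume : Measure ℂ).prod volume) = G * G :=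
    lintegral_prod_mul hgq.aemeasurable hgq.aemeasurable
  have hI1 : ∫⁻ w, F 1 w ∂((volume : Measure ℂ).prod volume) = G * Kc := by
    rw [lintegral_prod _ (hFm 1 (Finset.mem_univ _))]
    have : ∀ x : ℂ, ∫⁻ y, F 1 (x, y) = g x ^ q * Kc := by
      intro x
      change ∫⁻ y, g x ^ q * k (x - y) ^ (m : ℝ) = _
      have hk1 : Measurable fun y => k (x - y) ^ (m : ℝ) :=
        hkq.comp (measurable_const.sub measurable_id)
      rw [lintegral_const_mul _ hk1]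
      rw [lintegral_sub_left_eq_self (fun y => k y ^ (m : ℝ)) x]
    simp only [this]
    rw [lintegral_mul_const _ hgq]
  have hI2 : ∫⁻ w, F 2 w ∂((volume : Measure ℂ).prod volume) = G * Kc := by
    rw [lintegral_prod_symm _ (hFm 2 (Finset.mem_univ _))]
    have : ∀ y : ℂ, ∫⁻ x, F 2 (x, y) = g y ^ q * Kc := by
      intro y
      change ∫⁻ x, g y ^ q * k (x - y) ^ (m : ℝ) = _
      have hk1 : Measurable fun x => k (x - y) ^ (m : ℝ) :=
        hkq.comp (measurable_id.sub measurable_const)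
      rw [lintegral_const_mul _ hk1]
      rw [lintegral_sub_right_eq_self (fun y => k y ^ (m : ℝ)) y]
    simp only [this]
    rw [lintegral_mul_const _ hgq]
  rw [lintegral_congr hpt]
  refine hold.trans ?_
  rw [Fin.prod_univ_three, hI0, hI1, hI2]
  change (G * G) ^ (1 - 1 / (m : ℝ)) * (G * Kc) ^ (1 / (2 * (m : ℝ))) *
    (G * Kc) ^ (1 / (2 * (m : ℝ))) ≤ _
  rw [ENNReal.mul_rpow_of_nonneg _ _ hP0, ENNReal.mul_rpow_of_nonneg _ _ hP1]
  have hE : G ^ (1 - 1 / (m : ℝ)) * G ^ (1 - 1 / (m : ℝ)) * (G ^ (1 / (2 * (m : ℝ))) *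
      G ^ (1 / (2 * (m : ℝ)))) = G ^ (2 / q) := by
    rw [← ENNReal.rpow_add_of_nonneg _ _ hP0 hP0, ← ENNReal.rpow_add_of_nonneg _ _ hP1 hP1,
      ← ENNReal.rpow_add_of_nonneg _ _ (add_nonneg hP0 hP0) (add_nonneg hP1 hP1)]
    congr 1
    rw [hqv]
    field_simp
    ring
  have hK1 : Kc ^ (1 / (2 * (m : ℝ))) * Kc ^ (1 / (2 * (m : ℝ))) = Kc ^ (1 / (m : ℝ)) := by
    rw [← ENNReal.rpow_add_of_nonneg _ _ hP1 hP1]
    congr 1
    field_simp
    ring
  have hK2 : Kc ^ (1 / (m : ℝ)) ≤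
      ENNReal.ofReal (C0 ^ (1 / (m : ℝ)) * δ ^ (-2 + 2 / (m : ℝ))) := by
    refine (ENNReal.rpow_le_rpow (hk δ hδ) (by positivity)).trans (le_of_eq ?_)
    rw [ENNReal.ofReal_rpow_of_nonneg (by positivity) (by positivity),
      Real.mul_rpow hC0.le (by positivity), ← Real.rpow_mul hδ.le]
    congr 3
    field_simp
    ring
  calc G ^ (1 - 1 / (m : ℝ)) * G ^ (1 - 1 / (m : ℝ)) *
      (G ^ (1 / (2 * (m : ℝ))) * Kc ^ (1 / (2 * (m : ℝ)))) *
      (G ^ (1 / (2 * (m : ℝ))) * Kc ^ (1 / (2 * (m : ℝ)))) =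
      (Kc ^ (1 / (2 * (m : ℝ))) * Kc ^ (1 / (2 * (m : ℝ)))) *
      (G ^ (1 - 1 / (m : ℝ)) * G ^ (1 - 1 / (m : ℝ)) * (G ^ (1 / (2 * (m : ℝ))) *
      G ^ (1 / (2 * (m : ℝ))))) := by ring
    _ = Kc ^ (1 / (m : ℝ)) * G ^ (2 / q) := by rw [hE, hK1]
    _ ≤ _ := mul_le_mul_left hK2 _

end Pool.Agent.N892.BW.YNG
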