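import Mathlib
import Pool.Agent.N892.BW.Stm
import Pool.Agent.N892.BW.StmFix
import Pool.Agent.N892.BW.StmH
import Pool.Agent.N892.BW.RZ
import Pool.Agent.N892.BW.CONV
import Pool.Agent.N892.BW.FOUR
import Pool.Agent.N892.BW.PAL
import Pool.Agent.N892.BW.MZF
import Pool.Agent.N892.BW.MZC
import Pool.Agent.N892.BW.AVG
import Pool.Agent.N892.BW.LIN
import Pool.Agent.N892.BW.IBP
import Pool.Agent.N892.BW.JJ
import Pool.Agent.N892.BW.YNG
import Pool.Agent.N892.BW.DEC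
import Pool.Agent.N892.BW.INT
import Pool.Agent.N892.BW.JEN
import Pool.Agent.N892.BW.CELL
import Pool.Agent.N892.BW.LAY
import Pool.Agent.N892.BW.FIN
import Pool.Agent.N892.BW.LQ
import Pool.Agent.N892.BW.DUA
import Pool.Agent.N892.BW.ASY

/-!
Project BW (helper892), part H1 (helper574): assembly of the first final theorem.
-/

set_option autoImplicit false

open MeasureTheory ENNReal Filter Topology Complex
open scoped ComplexConjugate

namespace Pool.Agent.N892.BW.H1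

theorem pit : S_PIT := by
  intro m hm F hF
  have h1 := FOUR.t m (by omega) F hF
  have h2 := CONV.t RZ.t m hm (fun u => ‖F u‖ₑ) hF.1.enorm
  refine h1.trans ((mul_le_mul_right h2 _).trans (le_of_eq ?_))
  rw [← mul_assoc, ← ENNReal.ofReal_mul (by positivity)]
  congr 2
  have h3 : Real.pi ^ (2 * m) = Real.pi ^ (2 * m - 2) * Real.pi ^ 2 := by
    rw [← pow_add]
    congr 1
    omega
  rw [h3]
  ring

theorem lq : S_LQ :=
  LQ.t (CELL.t (MZC.t (PAL.t pit) MZF.t) AVG.t LIN.t) (INT.t DEC.t2 YNG.t) LAY.t JEN.t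
    (JJ.t IBP.t) FIN.t

theorem Cn_pos (m : ℕ) (hm : 2 ≤ m) (n : ℕ) : 0 < Cn (2 * (m : ℝ)) n := by
  have hm' : (2 : ℝ) ≤ m := by exact_mod_cast hm
  unfold Cn
  refine Finset.prod_pos fun j _ => ?_
  have h1 : 1 / (2 * (m : ℝ)) < 1 := by
    rw [div_lt_one (by linarith)]
    linarith
  have h2 : 0 < 1 / (2 * (m : ℝ)) := by positivity
  have h3 : (0 : ℝ) ≤ j := Nat.cast_nonneg j
  exact div_pos (by linarith) (by linarith)

theorem AA_nonneg (m : ℕ) (hm : 2 ≤ m) (n : ℕ) : 0 ≤ AA m n := by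
  have hm' : (2 : ℝ) ≤ m := by exact_mod_cast hm
  unfold AA GA
  have h1 : 1 / (2 * (m : ℝ)) < 1 := by
    rw [div_lt_one (by linarith)]
    linarith
  have h2 : 0 < 1 / (2 * (m : ℝ)) := by positivity
  have h3 := Real.Gamma_pos_of_pos h2
  have h4 : 0 < Real.Gamma (1 - 1 / (2 * (m : ℝ))) := Real.Gamma_pos_of_pos (by linarith)
  positivity

/-- integrability of the integrand -/
theorem integ {n : ℕ} (hn : 1 ≤ n) {B r s : ℝ} (hr : 0 < r) {ψ : ℂ → ℝ} (hψ : Cut B r s ψ)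
    {m : ℕ} (hm : 2 ≤ m) {f : ℂ → ℂ} (hf : MemLp f (2 * m : ℕ) volume) (w : ℂ) :
    Integrable (fun z => kk n ψ (w - z) * f z) := by
  have hk : Measurable fun z => kk n ψ (w - z) :=
    (DUA.measurable_kk n hψ.1.continuous).comp (measurable_const.sub measurable_id)
  have hsupp : Function.support (fun z => kk n ψ (w - z) * f z) ⊆ Metric.closedBall w s := by
    intro z hz
    rw [Metric.mem_closedBall, dist_comm, dist_eq_norm]
    by_contra hcon
    apply hz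
    show kk n ψ (w - z) * f z = 0
    rw [DUA.kk_supp n hψ (not_le.1 hcon), zero_mul]
  rw [← integrableOn_iff_integrable_of_support_subset hsupp]
  have : IsFiniteMeasure (volume.restrict (Metric.closedBall w s)) :=
    ⟨by rw [Measure.restrict_apply_univ]; exact measure_closedBall_lt_top⟩
  have h1 : MemLp f 1 (volume.restrict (Metric.closedBall w s)) := by
    refine (hf.restrict _).mono_exponent ?_
    have : (1 : ℕ) ≤ 2 * m := by omega
    exact_mod_cast this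
  rw [memLp_one_iff_integrable] at h1
  refine (h1.norm.const_mul ((n : ℝ) / Real.pi / r ^ 2)).mono'
    (hk.aestronglyMeasurable.mul h1.aestronglyMeasurable) (ae_of_all _ fun z => ?_)
  rw [norm_mul]
  exact mul_le_mul_of_nonneg_right (DUA.kk_bd hn hr hψ _) (norm_nonneg _)

theorem t : S_H1 := by
  intro m c B ε hm hc hcm hε
  have hm' : (2 : ℝ) ≤ m := by exact_mod_cast hm
  set ε₁ : ℝ := min 1 (ε / 3) with hε₁
  have he0 : 0 < ε₁ := lt_min one_pos (by linarith)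
  have he1 : ε₁ ≤ 1 := min_le_left _ _
  have he2 : ε₁ ≤ ε / 3 := min_le_right _ _
  have he3 : (1 + ε₁) * (1 + ε₁) ≤ 1 + ε := by nlinarith
  obtain ⟨n₁, hn₁⟩ := lq m c B hm hc hcm ε₁ he0
  have hasy : ∀ᶠ n : ℕ in atTop, AA m n / Cn (2 * m) n < 1 + ε₁ :=
    (ASY.t m hm).eventually_lt_const (by linarith)
  obtain ⟨n₂, hn₂⟩ := eventually_atTop.1 hasy
  refine ⟨max (max n₁ n₂) 1, fun n hn r ψ hr hψ f hf => ?_⟩
  have hn1 : n₁ ≤ n := (le_max_left n₁ n₂).trans ((le_max_left _ _).trans hn)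
  have hn2 : n₂ ≤ n := (le_max_right n₁ n₂).trans ((le_max_left _ _).trans hn)
  have hn3 : 1 ≤ n := (le_max_right _ _).trans hn
  have hCn := Cn_pos m hm n
  have hAA := AA_nonneg m hm n
  have hA1 : AA m n ≤ (1 + ε₁) * Cn (2 * (m : ℝ)) n := by
    have h := hn₂ n hn2
    rw [div_lt_iff₀ hCn] at h
    exact h.le
  set A : ℝ := (1 + ε₁) * AA m n with hA
  have hA0 : 0 ≤ A := mul_nonneg (by linarith) hAA
  have hA2 : A ≤ (1 + ε) * ∏ j ∈ Finset.range n,
      ((1 - 1 / (2 * (m : ℝ)) + j) / (1 / (2 * (m : ℝ)) + j)) := by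
    change A ≤ (1 + ε) * Cn (2 * (m : ℝ)) n
    calc A ≤ (1 + ε₁) * ((1 + ε₁) * Cn (2 * (m : ℝ)) n) :=
          mul_le_mul_of_nonneg_left hA1 (by linarith)
      _ = (1 + ε₁) * (1 + ε₁) * Cn (2 * (m : ℝ)) n := by ring
      _ ≤ (1 + ε) * Cn (2 * (m : ℝ)) n := mul_le_mul_of_nonneg_right he3 hCn.le
  have hdual := DUA.t m n B r ((n : ℝ) ^ c) A hm hn3 hr hA0
    (fun ψ hψ g hg => hn₁ n hn1 ψ hψ g hg) ψ hψ
  refine ⟨fun w => integ hn3 hr hψ hm hf w, ?_⟩
  -- a measurable representative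
  obtain ⟨f', hf'm, hff'⟩ := hf.1
  have hf'2 : MemLp f' (2 * m : ℕ) volume := (memLp_congr_ae hff').1 hf
  have hSo : (fun w => ∫ z, Kn n (w - z) * (ψ (w - z) : ℂ) * f z) = So n ψ f' := by
    funext w
    unfold So kk
    refine integral_congr_ae ?_
    filter_upwards [hff'] with z hz
    rw [hz]
  rw [hSo, eLpNorm_congr_ae hff']
  have hp0 : ((2 * m : ℕ) : ℝ≥0∞) ≠ 0 := by
    have : 2 * m ≠ 0 := by omega
    exact_mod_cast this
  have hpt : ((2 * m : ℕ) : ℝ≥0∞) ≠ ⊤ := ENNReal.natCast_ne_top _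
  have hE : ∀ g : ℂ → ℂ, eLpNorm g ((2 * m : ℕ) : ℝ≥0∞) volume =
      (∫⁻ z, ‖g z‖ₑ ^ (2 * m)) ^ (1 / ((2 * m : ℕ) : ℝ)) := by
    intro g
    rw [eLpNorm_eq_lintegral_rpow_enorm_toReal hp0 hpt, ENNReal.toReal_natCast]
    simp only [ENNReal.rpow_natCast]
  have hfin : ∫⁻ z, ‖f' z‖ₑ ^ (2 * m) < ∞ := by
    have h1 := hf'2.2
    rw [hE] at h1
    by_contra hcon
    rw [not_lt, top_le_iff] at hcon
    rw [hcon, ENNReal.top_rpow_of_pos (by positivity)] at h1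
    exact lt_irrefl _ h1
  have hmain := hdual f' hf'm.measurable hfin
  rw [hE, hE]
  have hpos : (0 : ℝ) < ((2 * m : ℕ) : ℝ) := by
    have : 0 < 2 * m := by omega
    exact_mod_cast this
  calc (∫⁻ w, ‖So n ψ f' w‖ₑ ^ (2 * m)) ^ (1 / ((2 * m : ℕ) : ℝ))
      ≤ (ENNReal.ofReal (A ^ (2 * m)) * ∫⁻ z, ‖f' z‖ₑ ^ (2 * m)) ^ (1 / ((2 * m : ℕ) : ℝ)) :=
        ENNReal.rpow_le_rpow hmain (by positivity)
    _ = ENNReal.ofReal A * (∫⁻ z, ‖f' z‖ₑ ^ (2 * m)) ^ (1 / ((2 * m : ℕ) : ℝ)) := by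
        rw [ENNReal.mul_rpow_of_nonneg _ _ (by positivity), ENNReal.ofReal_pow hA0,
          ← ENNReal.rpow_natCast, ← ENNReal.rpow_mul, mul_one_div_cancel hpos.ne',
          ENNReal.rpow_one]
    _ ≤ _ := mul_le_mul_left (ENNReal.ofReal_le_ofReal hA2) _

end Pool.Agent.N892.BW.H1
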