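import Mathlib
import Pool.Agent.N892.BW.Stm2
import Pool.Agent.N892.BW.StmFix
import Pool.Agent.N892.BW.LQ
import Pool.Agent.N892.BW.FIN

/-!
LQT, part A: Minkowski inequality, finite bound, inner part and self-improvement for the functional with
local square averages. (helper862, after LQ by helper615)
-/

set_option autoImplicit false

open MeasureTheory ENNReal Filter Topology Complex
open scoped ComplexConjugate

namespace Pool.Agent.N892.BW.LQT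

/-- measurability of the local average -/
theorem avg_meas {χ : ℂ → ℝ≥0∞} (hχ : Measurable χ) {a : ℂ → ℂ} (ha : Measurable a) :
    Measurable fun w => ∫⁻ y, χ y * ‖a (w + y)‖ₑ ^ 2 := by
  have h1 : Measurable (Function.uncurry fun w y : ℂ => χ y * ‖a (w + y)‖ₑ ^ 2) :=
    (hχ.comp measurable_snd).mul (((ha.comp (measurable_fst.add measurable_snd)).enorm).pow_const 2)
  exact h1.lintegral_prod_right'

theorem wd {χ : ℂ → ℝ≥0∞} (hχ : Measurable χ) {a : ℂ → ℂ} (ha : Measurable a) (w : ℂ) :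
    ∫⁻ y, χ y * ‖a (w + y)‖ₑ ^ 2 = ∫⁻ y, ‖a (w + y)‖ₑ ^ (2 : ℝ) ∂(volume.withDensity χ) := by
  have hm : Measurable fun y => a (w + y) := ha.comp (measurable_const_add w)
  rw [lintegral_withDensity_eq_lintegral_mul _ hχ (hm.enorm.pow_const (2 : ℝ))]
  refine lintegral_congr fun y => ?_
  rw [Pi.mul_apply, ENNReal.rpow_two]

theorem rp (x : ℝ≥0∞) (q : ℝ) : x ^ (q / 2) = (x ^ (1 / 2 : ℝ)) ^ q := by
  rw [← ENNReal.rpow_mul]
  congr 1
  ring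

/-- Minkowski inequality in one point -/
theorem mink1 {χ : ℂ → ℝ≥0∞} (hχ : Measurable χ) {a b : ℂ → ℂ} (ha : Measurable a)
    (hb : Measurable b) (w : ℂ) :
    (∫⁻ y, χ y * ‖a (w + y) + b (w + y)‖ₑ ^ 2) ^ (1 / 2 : ℝ) ≤
      (∫⁻ y, χ y * ‖a (w + y)‖ₑ ^ 2) ^ (1 / 2 : ℝ) +
        (∫⁻ y, χ y * ‖b (w + y)‖ₑ ^ 2) ^ (1 / 2 : ℝ) := by
  have h0 := wd hχ (ha.add hb) w
  simp only [Pi.add_apply] at h0
  rw [h0, wd hχ ha w, wd hχ hb w]
  have hma : Measurable fun y => a (w + y) := ha.comp (measurable_const_add w)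
  have hmb : Measurable fun y => b (w + y) := hb.comp (measurable_const_add w)
  refine le_trans ?_ (ENNReal.lintegral_Lp_add_le (μ := volume.withDensity χ)
    hma.enorm.aemeasurable hmb.enorm.aemeasurable (by norm_num : (1 : ℝ) ≤ 2))
  refine ENNReal.rpow_le_rpow (lintegral_mono fun y => ENNReal.rpow_le_rpow ?_ (by norm_num))
    (by norm_num)
  exact enorm_add_le _ _

/-- Minkowski inequality -/
theorem mink {χ : ℂ → ℝ≥0∞} (hχ : Measurable χ) {a b : ℂ → ℂ} (ha : Measurable a)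
    (hb : Measurable b) {q : ℝ} (hq : 1 ≤ q) :
    (∫⁻ w, (∫⁻ y, χ y * ‖a (w + y) + b (w + y)‖ₑ ^ 2) ^ (q / 2)) ^ (1 / q) ≤
      (∫⁻ w, (∫⁻ y, χ y * ‖a (w + y)‖ₑ ^ 2) ^ (q / 2)) ^ (1 / q) +
        (∫⁻ w, (∫⁻ y, χ y * ‖b (w + y)‖ₑ ^ 2) ^ (q / 2)) ^ (1 / q) := by
  have hq0 : 0 < q := by linarith
  simp only [rp _ q]
  refine le_trans ?_ (ENNReal.lintegral_Lp_add_le
    ((avg_meas hχ ha).pow_const (1 / 2 : ℝ)).aemeasurable
    ((avg_meas hχ hb).pow_const (1 / 2 : ℝ)).aemeasurable hq)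
  refine ENNReal.rpow_le_rpow (lintegral_mono fun w => ENNReal.rpow_le_rpow ?_ hq0.le)
    (by positivity)
  exact mink1 hχ ha hb w

/-- Young's inequality -/
theorem young {p q : ℝ} (hpq : p.HolderConjugate q) {k g : ℂ → ℝ≥0∞} (hkm : Measurable k)
    (hgm : Measurable g) :
    ∫⁻ w, (∫⁻ z, k (w - z) * g z) ^ q ≤ (∫⁻ z, k z) ^ q * ∫⁻ z, g z ^ q := by
  have hq0 : 0 < q := hpq.symm.pos
  have hq1 : 1 < q := hpq.symm.lt
  set K1 : ℝ≥0∞ := ∫⁻ z, k z with hK1def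
  have hs : ∀ w, ∫⁻ z, k (w - z) = K1 := by
    intro w
    exact lintegral_sub_left_eq_self (μ := (volume : Measure ℂ)) k w
  have hs' : ∀ z, ∫⁻ w, k (w - z) = K1 := by
    intro z
    exact lintegral_sub_right_eq_self (μ := (volume : Measure ℂ)) k z
  have h1 : ∀ w, (∫⁻ z, k (w - z) * g z) ^ q ≤ K1 ^ (q - 1) * ∫⁻ z, k (w - z) * g z ^ q := by
    intro w
    have := FIN.hold p q hpq (fun z => k (w - z)) g
      (hkm.comp (measurable_const.sub measurable_id)) hgm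
    rw [hs w] at this
    exact this
  have hmeas2 : Measurable (Function.uncurry fun w z : ℂ => k (w - z) * g z ^ q) :=
    (hkm.comp (measurable_fst.sub measurable_snd)).mul ((hgm.comp measurable_snd).pow_const _)
  calc ∫⁻ w, (∫⁻ z, k (w - z) * g z) ^ q
      ≤ ∫⁻ w, K1 ^ (q - 1) * ∫⁻ z, k (w - z) * g z ^ q := lintegral_mono h1
    _ = K1 ^ (q - 1) * ∫⁻ w, ∫⁻ z, k (w - z) * g z ^ q := by
        rw [lintegral_const_mul]
        exact hmeas2.lintegral_prod_right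
    _ = K1 ^ (q - 1) * ∫⁻ z, ∫⁻ w, k (w - z) * g z ^ q := by
        rw [lintegral_lintegral_swap hmeas2.aemeasurable]
    _ = K1 ^ (q - 1) * ∫⁻ z, K1 * g z ^ q := by
        congr 1
        apply lintegral_congr
        intro z
        have hmz : Measurable (fun w : ℂ => k (w - z)) :=
          hkm.comp (measurable_id.sub measurable_const)
        rw [lintegral_mul_const _ hmz, hs' z]
    _ = K1 ^ (q - 1) * (K1 * ∫⁻ z, g z ^ q) := by
        rw [lintegral_const_mul _ (hgm.pow_const _)]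
    _ = K1 ^ q * ∫⁻ z, g z ^ q := by
        rw [← mul_assoc]
        congr 1
        conv_lhs => rw [← ENNReal.rpow_one K1, ← ENNReal.rpow_mul, one_mul]
        rw [← ENNReal.rpow_add_of_nonneg _ _ (by linarith) (by norm_num)]
        congr 1
        ring

/-- a finite bound -/
theorem fin {m n : ℕ} (hm : 2 ≤ m) (hn : 1 ≤ n) {B D : ℝ} {ψ : ℂ → ℝ} (hψ : Cut B 1 D ψ)
    {l : ℝ} (hl : l ≤ 1) {χ : ℂ → ℝ≥0∞} (hχ : Mol l χ) :
    ∃ K : ℝ, 0 ≤ K ∧ ∀ g : ℂ → ℂ, Nice g →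
      ∫⁻ w, (∫⁻ y, χ y * ‖So n ψ g (w + y)‖ₑ ^ 2) ^ (qq m / 2) ≤
        ENNReal.ofReal (K ^ (qq m)) * ∫⁻ z, ‖g z‖ₑ ^ (qq m) := by
  have hpq := FIN.qq_conj m hm
  have hq0 : 0 < qq m := hpq.symm.pos
  obtain ⟨hχm, hχs, hχi⟩ := hχ
  obtain ⟨k, hk⟩ : ∃ k : ℂ → ℝ≥0∞, k = (Metric.closedBall (0 : ℂ) (D + 1)).indicator
      (fun _ => ENNReal.ofReal ((n : ℝ) / Real.pi)) := ⟨_, rfl⟩
  have hkm : Measurable k := by
    rw [hk]
    exact measurable_const.indicator Metric.isClosed_closedBall.measurableSet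
  have hK1 : ∫⁻ z, k z ≠ ⊤ := by
    rw [hk, lintegral_indicator Metric.isClosed_closedBall.measurableSet, setLIntegral_const]
    exact (ENNReal.mul_lt_top ENNReal.ofReal_lt_top
      (isCompact_closedBall (0 : ℂ) (D + 1)).measure_lt_top).ne
  refine ⟨(∫⁻ z, k z).toReal, ENNReal.toReal_nonneg, ?_⟩
  intro g hg
  rw [← ENNReal.ofReal_rpow_of_nonneg ENNReal.toReal_nonneg hq0.le, ENNReal.ofReal_toReal hK1]
  refine le_trans (lintegral_mono fun w => ?_) (young hpq hkm hg.1.enorm)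
  obtain ⟨V, hV⟩ : ∃ V : ℝ≥0∞, V = ∫⁻ z, k (w - z) * ‖g z‖ₑ := ⟨_, rfl⟩
  rw [← hV]
  have h1 : ∀ y, χ y * ‖So n ψ g (w + y)‖ₑ ^ 2 ≤ χ y * V ^ 2 := by
    intro y
    by_cases hy : l < ‖y‖
    · rw [hχs y hy, zero_mul, zero_mul]
    · rw [not_lt] at hy
      refine mul_le_mul' le_rfl (pow_le_pow_left' ?_ 2)
      unfold So
      refine (enorm_integral_le_lintegral_enorm _).trans ?_
      rw [hV]
      refine lintegral_mono fun z => ?_
      rw [enorm_mul]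
      refine mul_le_mul' ?_ le_rfl
      rw [hk]
      by_cases hz : w - z ∈ Metric.closedBall (0 : ℂ) (D + 1)
      · rw [Set.indicator_of_mem hz, ← ofReal_norm]
        exact ENNReal.ofReal_le_ofReal (LQ.kk_bd hn hψ _)
      · rw [Set.indicator_of_notMem hz]
        have h2 : ψ (w + y - z) = 0 := by
          by_contra hcon
          have h3 := (hψ.2.2.1 _ hcon).2
          apply hz
          rw [mem_closedBall_zero_iff]
          have h4 : w - z = (w + y - z) - y := by ring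
          calc ‖w - z‖ = ‖(w + y - z) - y‖ := by rw [← h4]
            _ ≤ ‖w + y - z‖ + ‖y‖ := norm_sub_le _ _
            _ ≤ D + 1 := by linarith
        unfold kk
        rw [h2, Complex.ofReal_zero, mul_zero, enorm_zero]
  have h2 : ∫⁻ y, χ y * ‖So n ψ g (w + y)‖ₑ ^ 2 ≤ V ^ 2 := by
    refine (lintegral_mono h1).trans ?_
    rw [lintegral_mul_const _ hχm, hχi, one_mul]
  refine (ENNReal.rpow_le_rpow h2 (by positivity)).trans (le_of_eq ?_)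
  rw [← ENNReal.rpow_natCast, ← ENNReal.rpow_mul]
  congr 1
  push_cast
  ring

/-- the estimate of the inner part -/
theorem inner {m n : ℕ} {ψ : ℂ → ℝ} {χ : ℂ → ℝ} {R δ E off : ℝ} (hq : 1 ≤ qq m)
    (hE : 0 ≤ E) (hoff : 0 ≤ off)
    (hcell : ∀ (a : ℂ) (g : ℂ → ℂ), Nice g → (∀ z, g z ≠ 0 → ‖z - a‖ ≤ R) →
      (∫⁻ w, (∫⁻ y, ENNReal.ofReal (χ y) * ‖So n ψ g (w + y)‖ₑ ^ 2) ^ (qq m / 2)) ^ (1 / qq m) ≤
        ENNReal.ofReal E * (∫⁻ z, ‖g z‖ₑ ^ (qq m)) ^ (1 / qq m))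
    (hint : ∀ (cell : ℂ → ℤ × ℤ) (g : ℂ → ℂ), Measurable cell → Nice g →
      (∀ z z', g z ≠ 0 → g z' ≠ 0 → cell z ≠ cell z' → δ ≤ ‖z - z'‖) →
      ∫⁻ w, (∫⁻ y, ENNReal.ofReal (χ y) * ‖So n ψ g (w + y)‖ₑ ^ 2) ^ (qq m / 2) ≤
        (∑' Q : ℤ × ℤ, ∫⁻ w, (∫⁻ y, ENNReal.ofReal (χ y) *
          ‖So n ψ (pc cell g Q) (w + y)‖ₑ ^ 2) ^ (qq m / 2)) +
        ENNReal.ofReal off * ∫⁻ z, ‖g z‖ₑ ^ (qq m))
    {g : ℂ → ℂ} (hg : Nice g) {cell : ℂ → ℤ × ℤ} {I : Set ℂ} (hcm : Measurable cell)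
    (hI : MeasurableSet I) (hsep : ∀ z ∈ I, ∀ z' ∈ I, cell z ≠ cell z' → δ ≤ ‖z - z'‖)
    (hdiam : ∀ z z', cell z = cell z' → ‖z - z'‖ ≤ R) :
    ∫⁻ w, (∫⁻ y, ENNReal.ofReal (χ y) * ‖So n ψ (I.indicator g) (w + y)‖ₑ ^ 2) ^ (qq m / 2) ≤
      ENNReal.ofReal ((E + off ^ (1 / qq m)) ^ (qq m)) * ∫⁻ z, ‖g z‖ₑ ^ (qq m) := by
  have hq0 : 0 < qq m := by linarith
  obtain ⟨q, hqe⟩ : ∃ q, q = qq m := ⟨_, rfl⟩
  rw [← hqe] at hq hq0 hcell hint ⊢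
  obtain ⟨gi, hgi⟩ : ∃ gi, gi = I.indicator g := ⟨_, rfl⟩
  have hgiN : Nice gi := hgi ▸ LQ.nice_ind hg hI
  rw [← hgi]
  have hgi0 : ∀ z, gi z ≠ 0 → z ∈ I := by
    intro z hz
    rw [hgi] at hz
    exact Set.mem_of_indicator_ne_zero hz
  refine (hint cell gi hcm hgiN fun z z' h1 h2 h3 => hsep z (hgi0 z h1) z' (hgi0 z' h2) h3).trans ?_
  have hpc : ∀ Q, Nice (pc cell gi Q) := fun Q =>
    LQ.nice_ind hgiN (hcm (measurableSet_singleton Q))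
  have hQ : ∀ Q : ℤ × ℤ, ∫⁻ w, (∫⁻ y, ENNReal.ofReal (χ y) *
      ‖So n ψ (pc cell gi Q) (w + y)‖ₑ ^ 2) ^ (q / 2) ≤
        ENNReal.ofReal E ^ q * ∫⁻ z, ‖pc cell gi Q z‖ₑ ^ q := by
    intro Q
    have h1 : ∃ a : ℂ, ∀ z, pc cell gi Q z ≠ 0 → ‖z - a‖ ≤ R := by
      by_cases h : ∃ z0, pc cell gi Q z0 ≠ 0
      · obtain ⟨z0, h0⟩ := h
        refine ⟨z0, fun z hz => hdiam z z0 ?_⟩
        have e1 : z ∈ {z' | cell z' = Q} := Set.mem_of_indicator_ne_zero (f := gi) hz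
        have e2 : z0 ∈ {z' | cell z' = Q} := Set.mem_of_indicator_ne_zero (f := gi) h0
        have e1' : cell z = Q := e1
        have e2' : cell z0 = Q := e2
        rw [e1', e2']
      · exact ⟨0, fun z hz => absurd ⟨z, hz⟩ h⟩
    obtain ⟨a, ha⟩ := h1
    have h2 := ENNReal.rpow_le_rpow (hcell a _ (hpc Q) ha) hq0.le
    rw [one_div, ENNReal.rpow_inv_rpow hq0.ne', ENNReal.mul_rpow_of_nonneg _ _ hq0.le,
      ENNReal.rpow_inv_rpow hq0.ne'] at h2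
    exact h2
  have hsum : ∑' Q : ℤ × ℤ, ∫⁻ z, ‖pc cell gi Q z‖ₑ ^ q = ∫⁻ z, ‖gi z‖ₑ ^ q := by
    rw [← lintegral_tsum fun Q => ((hpc Q).1.enorm.pow_const q).aemeasurable]
    refine lintegral_congr fun z => ?_
    rw [tsum_eq_single (cell z)]
    · unfold pc
      rw [Set.indicator_of_mem (show z ∈ {z' | cell z' = cell z} from rfl)]
    · intro Q hQ
      unfold pc
      rw [Set.indicator_of_notMem (show z ∉ {z' | cell z' = Q} from fun h => hQ h.symm),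
        enorm_zero, ENNReal.zero_rpow_of_pos hq0]
  have hle : ∫⁻ z, ‖gi z‖ₑ ^ q ≤ ∫⁻ z, ‖g z‖ₑ ^ q := by
    refine lintegral_mono fun z => ENNReal.rpow_le_rpow ?_ hq0.le
    rw [hgi]
    by_cases h : z ∈ I
    · rw [Set.indicator_of_mem h]
    · rw [Set.indicator_of_notMem h, enorm_zero]
      exact zero_le
  calc _ ≤ (∑' Q : ℤ × ℤ, ENNReal.ofReal E ^ q * ∫⁻ z, ‖pc cell gi Q z‖ₑ ^ q) +
        ENNReal.ofReal off * ∫⁻ z, ‖gi z‖ₑ ^ q := add_le_add (ENNReal.tsum_le_tsum hQ) le_rfl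
    _ = (ENNReal.ofReal E ^ q + ENNReal.ofReal off) * ∫⁻ z, ‖gi z‖ₑ ^ q := by
        rw [ENNReal.tsum_mul_left, hsum, add_mul]
    _ ≤ ENNReal.ofReal ((E + off ^ (1 / q)) ^ q) * ∫⁻ z, ‖g z‖ₑ ^ q := by
        refine mul_le_mul' ?_ hle
        rw [ENNReal.ofReal_rpow_of_nonneg hE hq0.le, ← ENNReal.ofReal_add (by positivity) hoff]
        refine ENNReal.ofReal_le_ofReal ?_
        have h1 := Real.add_rpow_le_rpow_add hE (Real.rpow_nonneg hoff (1 / q)) hq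
        have h2 : (off ^ (1 / q)) ^ q = off := by
          rw [← Real.rpow_mul hoff, one_div, inv_mul_cancel₀ hq0.ne', Real.rpow_one]
        rwa [h2] at h1

/-- self-improvement for an abstract seminorm -/
theorem improve {N : (ℂ → ℂ) → ℝ≥0∞} {q M η K' : ℝ} (hq : 1 ≤ q) (hM : 0 ≤ M) (hη : 0 < η)
    (hadd : ∀ g, Nice g → ∀ I, MeasurableSet I →
      (N g) ^ (1 / q) ≤ (N (I.indicator g)) ^ (1 / q) + (N (Iᶜ.indicator g)) ^ (1 / q))
    (hin : ∀ g, Nice g → ∃ I, MeasurableSet I ∧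
      ∫⁻ z in Iᶜ, ‖g z‖ₑ ^ q ≤ ENNReal.ofReal (2 * η) * ∫⁻ z, ‖g z‖ₑ ^ q ∧
      N (I.indicator g) ≤ ENNReal.ofReal (M ^ q) * ∫⁻ z, ‖g z‖ₑ ^ q)
    (hfin : ∃ K, 0 ≤ K ∧ ∀ g, Nice g → N g ≤ ENNReal.ofReal (K ^ q) * ∫⁻ z, ‖g z‖ₑ ^ q)
    (hρ : (2 * η) ^ (1 / q) < 1) (hK' : M + K' * (2 * η) ^ (1 / q) < K') :
    ∀ g, Nice g → N g ≤ ENNReal.ofReal (K' ^ q) * ∫⁻ z, ‖g z‖ₑ ^ q := by
  have hq0 : 0 < q := by linarith
  obtain ⟨ρ, hρe⟩ : ∃ ρ, ρ = (2 * η) ^ (1 / q) := ⟨_, rfl⟩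
  have hρ0 : 0 < ρ := by rw [hρe]; positivity
  rw [← hρe] at hρ hK'
  obtain ⟨S, hS⟩ : ∃ S : Set ℝ, S = {K | 0 ≤ K ∧ ∀ g, Nice g →
      N g ≤ ENNReal.ofReal (K ^ q) * ∫⁻ z, ‖g z‖ₑ ^ q} := ⟨_, rfl⟩
  have hne : S.Nonempty := by
    obtain ⟨K, hK⟩ := hfin
    exact ⟨K, hS ▸ hK⟩
  have hbdd : BddBelow S := ⟨0, fun K hK => by rw [hS] at hK; exact hK.1⟩
  have hstep : ∀ K ∈ S, M + K * ρ ∈ S := by
    intro K hK
    rw [hS] at hK ⊢
    obtain ⟨hK0, hK⟩ := hK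
    refine ⟨by positivity, fun g hg => ?_⟩
    obtain ⟨I, hI, h1, h2⟩ := hin g hg
    have h3 := hK _ (LQ.nice_ind hg hI.compl)
    have h4 : ∫⁻ z, ‖(Iᶜ.indicator g) z‖ₑ ^ q = ∫⁻ z in Iᶜ, ‖g z‖ₑ ^ q := by
      rw [← lintegral_indicator hI.compl]
      refine lintegral_congr fun z => ?_
      by_cases h : z ∈ Iᶜ
      · rw [Set.indicator_of_mem h, Set.indicator_of_mem h]
      · rw [Set.indicator_of_notMem h, Set.indicator_of_notMem h, enorm_zero,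
          ENNReal.zero_rpow_of_pos hq0]
    obtain ⟨G, hG⟩ : ∃ G, G = ∫⁻ z, ‖g z‖ₑ ^ q := ⟨_, rfl⟩
    rw [h4] at h3
    rw [← hG] at h1 h2 ⊢
    have h5 := hadd g hg I hI
    have h6 : (N (I.indicator g)) ^ (1 / q) ≤ ENNReal.ofReal M * G ^ (1 / q) := by
      refine (ENNReal.rpow_le_rpow h2 (by positivity)).trans (le_of_eq ?_)
      rw [ENNReal.mul_rpow_of_nonneg _ _ (by positivity), ← ENNReal.ofReal_rpow_of_nonneg hM hq0.le,
        one_div, ENNReal.rpow_rpow_inv hq0.ne']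
    have h7 : (N (Iᶜ.indicator g)) ^ (1 / q) ≤ ENNReal.ofReal (K * ρ) * G ^ (1 / q) := by
      have h8 : N (Iᶜ.indicator g) ≤
          ENNReal.ofReal (K ^ q) * (ENNReal.ofReal (2 * η) * G) :=
        h3.trans (mul_le_mul' le_rfl h1)
      refine (ENNReal.rpow_le_rpow h8 (by positivity)).trans (le_of_eq ?_)
      rw [ENNReal.mul_rpow_of_nonneg _ _ (by positivity), ENNReal.mul_rpow_of_nonneg _ _
        (by positivity), ← ENNReal.ofReal_rpow_of_nonneg hK0 hq0.le,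
        ENNReal.ofReal_rpow_of_nonneg (show (0 : ℝ) ≤ 2 * η by positivity)
          (show (0 : ℝ) ≤ 1 / q by positivity), ← hρe, one_div,
        ENNReal.rpow_rpow_inv hq0.ne', ENNReal.ofReal_mul hK0, mul_assoc]
    have h9 : (N g) ^ (1 / q) ≤ ENNReal.ofReal (M + K * ρ) * G ^ (1 / q) := by
      rw [ENNReal.ofReal_add hM (by positivity), add_mul]
      exact h5.trans (add_le_add h6 h7)
    have h10 := ENNReal.rpow_le_rpow h9 hq0.le
    rw [one_div, ENNReal.rpow_inv_rpow hq0.ne', ENNReal.mul_rpow_of_nonneg _ _ hq0.le,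
      ENNReal.rpow_inv_rpow hq0.ne', ENNReal.ofReal_rpow_of_nonneg (by positivity) hq0.le] at h10
    exact h10
  obtain ⟨K0, hK0⟩ : ∃ K0, K0 = sInf S := ⟨_, rfl⟩
  have h1 : K0 ≤ M + K0 * ρ := by
    have h2 : (K0 - M) / ρ ≤ K0 := by
      rw [hK0]
      refine le_csInf hne fun K hK => ?_
      rw [div_le_iff₀ hρ0]
      have := csInf_le hbdd (hstep K hK)
      linarith
    rw [div_le_iff₀ hρ0] at h2
    linarith
  have h2 : K0 < K' := by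
    have h3 : K0 * (1 - ρ) < K' * (1 - ρ) := by nlinarith
    exact lt_of_mul_lt_mul_right h3 (by linarith)
  rw [hK0] at h2
  obtain ⟨K, hK, hKK⟩ := exists_lt_of_csInf_lt hne h2
  rw [hS] at hK
  intro g hg
  refine (hK.2 g hg).trans (mul_le_mul' (ENNReal.ofReal_le_ofReal ?_) le_rfl)
  exact Real.rpow_le_rpow hK.1 hKK.le hq0.le

/-- the choice of the exponents -/
theorem num {m : ℕ} (hm : 2 ≤ m) :
    ∃ τ c1 : ℝ, 0 < τ ∧ τ ≤ 1 / 40 ∧ 0 < c1 ∧ c1 ≤ 1 / 2 ∧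
      1 - 2 * c1 - (1 / 2 + c1) / m ≤ (1 - 1 / (m : ℝ)) - τ ∧
      1 / 10 + (τ + 1 / 2 + c1) * (1 - 1 / (m : ℝ)) + 2 * (1 / 20) / qq m ≤
        (1 - 1 / (m : ℝ)) - τ := by
  have h1 : (2 : ℝ) ≤ m := by exact_mod_cast hm
  have hm0 : (0 : ℝ) < m := by linarith
  obtain ⟨-, -, h2⟩ := LQ.qq_facts hm
  refine ⟨1 / 400, 1 / (2 * (2 * m + 1)) + 1 / 400, by norm_num, by norm_num, by positivity,
    ?_, ?_, ?_⟩
  · have h3 : 1 / (2 * (2 * (m : ℝ) + 1)) ≤ 1 / 4 := by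
      rw [div_le_div_iff₀ (by positivity) (by norm_num)]
      linarith
    linarith
  · have h3 : 1 - 2 * (1 / (2 * (2 * (m : ℝ) + 1)) + 1 / 400) -
        (1 / 2 + (1 / (2 * (2 * (m : ℝ) + 1)) + 1 / 400)) / m =
        (1 - 1 / (m : ℝ)) - 1 / 400 * (2 + 1 / m) := by
      field_simp
      ring
    rw [h3]
    have h4 : 0 < 1 / (m : ℝ) := by positivity
    nlinarith
  · have h3 : 2 * (1 / 20 : ℝ) / qq m = 1 / 20 * ((2 * m - 1) / m) := by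
      rw [mul_comm 2 (1 / 20 : ℝ), mul_div_assoc, h2]
    have h4 : 1 / 10 + (1 / 400 + 1 / 2 + (1 / (2 * (2 * (m : ℝ) + 1)) + 1 / 400)) *
        (1 - 1 / (m : ℝ)) + 1 / 20 * ((2 * m - 1) / m) =
        (1 - 1 / (m : ℝ)) - 1 / 400 - (((m - 1) / (2 * m + 1) - 1 / 10 -
          1 / 20 * ((2 * m - 1) / m)) - 1 / 400 - 1 / 200 * (1 - 1 / m)) := by
      field_simp
      ring
    rw [h3, h4]
    have h5 : 0 < 1 / (m : ℝ) := by positivity
    have h6 : (1 : ℝ) / 40 ≤ (m - 1) / (2 * m + 1) - 1 / 10 - 1 / 20 * ((2 * m - 1) / m) := by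
      have h7 : (m - 1 : ℝ) / (2 * m + 1) - 1 / 10 - 1 / 20 * ((2 * m - 1) / m) - 1 / 40 =
          ((m - 2) * (22 * m - 1)) / (40 * m * (2 * m + 1)) := by
        field_simp
        ring
      have h8 : 0 ≤ ((m - 2 : ℝ) * (22 * m - 1)) / (40 * m * (2 * m + 1)) := by
        apply div_nonneg _ (by positivity)
        apply mul_nonneg <;> linarith
      linarith
    linarith

theorem off_bd {N : ℝ} (hN : 1 ≤ N) {m : ℕ} (hm : 2 ≤ m) {c c2 c1 τ CI CJ q : ℝ} (hCI : 0 < CI)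
    (hCJ : 0 < CJ) (hq : 1 ≤ q)
    (h : c2 + (τ + 1 / 2 + c1) * (1 - 1 / (m : ℝ)) + 2 * c / q ≤ (1 - 1 / (m : ℝ)) - τ) :
    (CI * (CJ / (N ^ (-c2)) ^ 2) ^ (q / 2) *
      ((N ^ (-τ) * (N ^ (-(1 / 2) - c1) / 16)) ^ (-2 + 2 / (m : ℝ))) ^ (q / 2) *
        (N ^ c) ^ 2) ^ (1 / q) ≤
      (CI ^ (1 / q) * CJ ^ (1 / 2 : ℝ) * 16) * (N ^ (1 - 1 / (m : ℝ)) * N ^ (-τ)) := by
  have hN0 : 0 < N := by linarith
  have hq0 : 0 < q := by linarith
  have hm1 : (2 : ℝ) ≤ m := by exact_mod_cast hm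
  have hP : ∀ x : ℝ, 0 < N ^ x := fun x => Real.rpow_pos_of_pos hN0 x
  have e1 : ∀ X : ℝ, 0 ≤ X → (X ^ (q / 2)) ^ (1 / q) = X ^ (1 / 2 : ℝ) := by
    intro X hX
    rw [← Real.rpow_mul hX]
    congr 1
    field_simp
  have e2 : (CJ / (N ^ (-c2)) ^ 2) ^ (1 / 2 : ℝ) = CJ ^ (1 / 2 : ℝ) * N ^ c2 := by
    rw [Real.div_rpow hCJ.le (by positivity), ← Real.rpow_natCast, ← Real.rpow_mul hN0.le,
      ← Real.rpow_mul hN0.le, div_eq_mul_inv, ← Real.rpow_neg hN0.le]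
    congr 2
    push_cast
    ring
  have e3 : ((N ^ (-τ) * (N ^ (-(1 / 2) - c1) / 16)) ^ (-2 + 2 / (m : ℝ))) ^ (1 / 2 : ℝ) ≤
      16 * N ^ ((τ + 1 / 2 + c1) * (1 - 1 / (m : ℝ))) := by
    have f1 : N ^ (-τ) * (N ^ (-(1 / 2) - c1) / 16) = N ^ (-(τ + 1 / 2 + c1)) * 16⁻¹ := by
      rw [← mul_div_assoc, ← Real.rpow_add hN0, div_eq_mul_inv]
      congr 2
      ring
    have f2 : (-2 + 2 / (m : ℝ)) * (1 / 2) = -(1 - 1 / (m : ℝ)) := by ring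
    rw [f1, ← Real.rpow_mul (by positivity), f2, Real.mul_rpow (hP _).le (by norm_num),
      ← Real.rpow_mul hN0.le, Real.inv_rpow (by norm_num), ← Real.rpow_neg (by norm_num), neg_neg,
      neg_mul_neg, mul_comm]
    refine mul_le_mul_of_nonneg_right ?_ (hP _).le
    have f3 : (16 : ℝ) ^ (1 - 1 / (m : ℝ)) ≤ (16 : ℝ) ^ (1 : ℝ) := by
      refine Real.rpow_le_rpow_of_exponent_le (by norm_num) ?_
      have : 0 < 1 / (m : ℝ) := by positivity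
      linarith
    rwa [Real.rpow_one] at f3
  have e4 : ((N ^ c) ^ 2) ^ (1 / q) = N ^ (2 * c / q) := by
    rw [← Real.rpow_natCast, ← Real.rpow_mul hN0.le, ← Real.rpow_mul hN0.le]
    congr 1
    push_cast
    ring
  rw [Real.mul_rpow (by positivity) (by positivity), Real.mul_rpow (by positivity) (by positivity),
    Real.mul_rpow (by positivity) (by positivity), e1 _ (by positivity), e1 _ (by positivity), e2,
    e4]
  calc CI ^ (1 / q) * (CJ ^ (1 / 2 : ℝ) * N ^ c2) *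
        ((N ^ (-τ) * (N ^ (-(1 / 2) - c1) / 16)) ^ (-2 + 2 / (m : ℝ))) ^ (1 / 2 : ℝ) *
          N ^ (2 * c / q)
      ≤ CI ^ (1 / q) * (CJ ^ (1 / 2 : ℝ) * N ^ c2) *
        (16 * N ^ ((τ + 1 / 2 + c1) * (1 - 1 / (m : ℝ)))) * N ^ (2 * c / q) := by gcongr
    _ = (CI ^ (1 / q) * CJ ^ (1 / 2 : ℝ) * 16) *
        N ^ (c2 + (τ + 1 / 2 + c1) * (1 - 1 / (m : ℝ)) + 2 * c / q) := by
        rw [Real.rpow_add hN0 (c2 + _), Real.rpow_add hN0 c2]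
        ring
    _ ≤ _ := by
        rw [← Real.rpow_add hN0]
        refine mul_le_mul_of_nonneg_left (Real.rpow_le_rpow_of_exponent_le hN ?_) (by positivity)
        linarith

end Pool.Agent.N892.BW.LQT
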