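import Mathlib
import Pool.Agent.N892.BW.LQT_A
import Pool.Agent.N892.BW.H1

/-!
LQT: the dual bound with local square averages. (helper862, after LQ by helper615)
-/

set_option autoImplicit false

open MeasureTheory ENNReal Filter Topology Complex
open scoped ComplexConjugate

namespace Pool.Agent.N892.BW.LQT

/-- the final theorem, for one `n` -/
theorem one (hL : S_LAY) {m : ℕ} (hm : 2 ≤ m) {B : ℝ}
    {χ : ℂ → ℝ} (hχd : ContDiff ℝ 2 χ) (hχ0 : ∀ y, 0 ≤ χ y) (hχs : ∀ y, 1 < ‖y‖ → χ y = 0)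
    (hχi : ∫ y, χ y = 1) {CJ CI CC e η τ c1 κ : ℝ} (hCJ : 0 < CJ) (hCI : 0 < CI) (hCC : 0 < CC)
    (he0 : 0 < e) (he1 : e ≤ 1)
    (hJJ : ∀ (n : ℕ) (l D : ℝ) (ψ : ℂ → ℝ), 1 ≤ n → 0 < l → l ≤ 1 →
      Cut B 1 D ψ → ∀ z z' w : ℂ, z ≠ z' →
      ‖∫ y, (sc χ l y : ℂ) * (kk n ψ (w + y - z) * conj (kk n ψ (w + y - z')))‖ ≤
        CJ / (l ^ 2 * ‖z - z'‖ ^ 2))
    (hINT : ∀ (n : ℕ) (ψ : ℂ → ℝ) (l D CJ δ : ℝ) (χ : ℂ → ℝ) (cell : ℂ → ℤ × ℤ) (g : ℂ → ℂ),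
      1 ≤ n → 0 < l → l ≤ 1 → 1 ≤ D → 0 ≤ CJ → 0 < δ → Measurable χ → (∀ y, 0 ≤ χ y) →
      (∀ y, l < ‖y‖ → χ y = 0) →
      (∫ y, χ y = 1) → (∃ B, Cut B 1 D ψ) → Measurable cell → Nice g →
      (∀ z z', g z ≠ 0 → g z' ≠ 0 → cell z ≠ cell z' → δ ≤ ‖z - z'‖) →
      (∀ z z' w : ℂ, z ≠ z' →
        ‖∫ y, (χ y : ℂ) * (kk n ψ (w + y - z) * conj (kk n ψ (w + y - z')))‖ ≤
          CJ * (‖z - z'‖ ^ 2)⁻¹) →
      ∫⁻ w, (∫⁻ y, ENNReal.ofReal (χ y) * ‖So n ψ g (w + y)‖ₑ ^ 2) ^ (qq m / 2) ≤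
        (∑' Q : ℤ × ℤ, ∫⁻ w, (∫⁻ y, ENNReal.ofReal (χ y) *
          ‖So n ψ (pc cell g Q) (w + y)‖ₑ ^ 2) ^ (qq m / 2)) +
        ENNReal.ofReal (CI * CJ ^ (qq m / 2) * (δ ^ (-2 + 2 / (m : ℝ))) ^ (qq m / 2) * D ^ 2) *
          ∫⁻ z, ‖g z‖ₑ ^ (qq m))
    (hCELL : ∀ (n : ℕ) (R l T D : ℝ) (ψ : ℂ → ℝ) (χ : ℂ → ℝ≥0∞) (a : ℂ) (g : ℂ → ℂ),
      1 ≤ n → 0 < R → R ≤ 1 / 8 → (n : ℝ) * R ^ 2 ≤ 1 / 4 → 0 < l → l ≤ η → 1 ≤ D → 0 < T →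
      T * D ≤ η * n → (n : ℝ) * l ≤ η * T → Cut B 1 D ψ → Mol l χ → Nice g →
      (∀ z, g z ≠ 0 → ‖z - a‖ ≤ R) →
      (∫⁻ w, (∫⁻ y, χ y * ‖So n ψ g (w + y)‖ₑ ^ 2) ^ (qq m / 2)) ^ (1 / qq m) ≤
        ENNReal.ofReal ((1 + e / 8) * AA m n + CC * n * (R + n * R ^ 2) * R ^ (1 / (m : ℝ))) *
          (∫⁻ z, ‖g z‖ₑ ^ (qq m)) ^ (1 / qq m))
    (hτ : 0 < τ) (hτ1 : τ ≤ 1 / 40) (hc1 : 0 < c1) (hc1' : c1 ≤ 1 / 2)
    (hx1 : 1 - 2 * c1 - (1 / 2 + c1) / m ≤ (1 - 1 / (m : ℝ)) - τ)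
    (hx2 : 1 / 10 + (τ + 1 / 2 + c1) * (1 - 1 / (m : ℝ)) + 2 * (1 / 20) / qq m ≤
        (1 - 1 / (m : ℝ)) - τ)
    (hκη : κ ≤ η) (hκ1 : κ ≤ 1 / 2)
    (hκA : (CC + CI ^ (1 / qq m) * CJ ^ (1 / 2 : ℝ) * 16) * κ ≤ e / 8 * GA m)
    (hκe : 2 * κ ≤ (e / 8) ^ qq m)
    {n : ℕ} (hn : 1 ≤ n) (hnκ : (n : ℝ) ^ (-τ) ≤ κ) (ψ : ℂ → ℝ)
    (hψ : Cut B 1 ((n : ℝ) ^ (1 / 20 : ℝ)) ψ) :
    ∀ g : ℂ → ℂ, Nice g →
      ∫⁻ w, (∫⁻ y, ENNReal.ofReal (sc χ ((n : ℝ) ^ (-(1 / 10) : ℝ)) y) *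
        ‖So n ψ g (w + y)‖ₑ ^ 2) ^ (qq m / 2) ≤
      ENNReal.ofReal (((1 + e) * AA m n) ^ (qq m)) * ∫⁻ z, ‖g z‖ₑ ^ (qq m) := by
  obtain ⟨hq1, hq2, -⟩ := LQ.qq_facts hm
  have hq0 : 0 < qq m := by linarith
  have hGA := LQ.GA_pos hm
  have hN : (1 : ℝ) ≤ n := by exact_mod_cast hn
  have hN0 : (0 : ℝ) < n := by linarith
  have hP : ∀ x : ℝ, 0 < (n : ℝ) ^ x := fun x => Real.rpow_pos_of_pos hN0 x
  have hcont : Continuous ψ := hψ.1.continuous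
  obtain ⟨x, hx⟩ : ∃ x : ℝ, x = (n : ℝ) ^ (-τ) := ⟨_, rfl⟩
  have hx0 : 0 < x := by rw [hx]; exact hP _
  have hxκ : x ≤ κ := hx ▸ hnκ
  obtain ⟨l, hl⟩ : ∃ l : ℝ, l = (n : ℝ) ^ (-(1 / 10) : ℝ) := ⟨_, rfl⟩
  have hl0 : 0 < l := by rw [hl]; exact hP _
  have hlx : l ≤ x := by
    rw [hl, hx]
    exact Real.rpow_le_rpow_of_exponent_le hN (by linarith)
  have hyx : (n : ℝ) ^ (-(1 / 40) : ℝ) ≤ x := by
    rw [hx]
    exact Real.rpow_le_rpow_of_exponent_le hN (by linarith)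
  obtain ⟨T, hT⟩ : ∃ T : ℝ, T = (n : ℝ) ^ (37 / 40 : ℝ) := ⟨_, rfl⟩
  have hT0 : 0 < T := by rw [hT]; exact hP _
  obtain ⟨u, hu⟩ : ∃ u : ℝ, u = (n : ℝ) ^ (-(1 / 2) - c1) := ⟨_, rfl⟩
  have hu0 : 0 < u := by rw [hu]; exact hP _
  have hu1 : u ≤ 1 := by
    rw [hu]
    exact Real.rpow_le_one_of_one_le_of_nonpos hN (by linarith)
  obtain ⟨D, hD⟩ : ∃ D : ℝ, D = (n : ℝ) ^ (1 / 20 : ℝ) := ⟨_, rfl⟩
  have hD1 : 1 ≤ D := by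
    rw [hD]
    exact Real.one_le_rpow hN (by norm_num)
  rw [← hD] at hψ
  rw [← hl]
  -- the conditions of CELL
  have hnR : (n : ℝ) * (u / 8) ^ 2 ≤ 1 / 4 := by
    have h1 : (n : ℝ) * u ^ 2 ≤ 1 := by
      have h2 : (n : ℝ) * u ^ 2 = (n : ℝ) ^ (-(2 * c1)) := by
        rw [hu, ← Real.rpow_natCast ((n : ℝ) ^ (-(1 / 2) - c1)), ← Real.rpow_mul hN0.le]
        conv_lhs => rw [← Real.rpow_one (n : ℝ), ← Real.rpow_mul hN0.le, ← Real.rpow_add hN0]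
        congr 1
        push_cast
        ring
      rw [h2]
      exact Real.rpow_le_one_of_one_le_of_nonpos hN (by linarith)
    rw [div_pow, ← mul_div_assoc]
    linarith
  have hTD : T * D ≤ η * n := by
    have h1 : T * D = (n : ℝ) ^ (-(1 / 40) : ℝ) * n := by
      rw [hT, hD, ← Real.rpow_add hN0]
      conv_rhs => rw [mul_comm, ← Real.rpow_one (n : ℝ), ← Real.rpow_mul hN0.le,
        ← Real.rpow_add hN0]
      congr 1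
      norm_num
    rw [h1]
    exact mul_le_mul_of_nonneg_right (hyx.trans (hxκ.trans hκη)) hN0.le
  have hnl : (n : ℝ) * l ≤ η * T := by
    have h1 : (n : ℝ) * l = (n : ℝ) ^ (-(1 / 40) : ℝ) * T := by
      rw [hT, hl, ← Real.rpow_add hN0]
      conv_lhs => rw [← Real.rpow_one (n : ℝ), ← Real.rpow_mul hN0.le, ← Real.rpow_add hN0]
      congr 1
      norm_num
    rw [h1]
    exact mul_le_mul_of_nonneg_right (hyx.trans (hxκ.trans hκη)) hT0.le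
  -- the constants
  obtain ⟨E, hE⟩ : ∃ E : ℝ, E = (1 + e / 8) * AA m n +
      CC * n * (u / 8 + n * (u / 8) ^ 2) * (u / 8) ^ (1 / (m : ℝ)) := ⟨_, rfl⟩
  have hAA : 0 < AA m n := mul_pos (hP _) hGA
  have hE0 : 0 ≤ E := by rw [hE]; positivity
  obtain ⟨off, hoff⟩ : ∃ off : ℝ, off = CI * (CJ / l ^ 2) ^ (qq m / 2) *
      ((x * (u / 16)) ^ (-2 + 2 / (m : ℝ))) ^ (qq m / 2) * D ^ 2 := ⟨_, rfl⟩
  have hoff0 : 0 ≤ off := by rw [hoff]; positivity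
  have hM : E + off ^ (1 / qq m) ≤ (1 + e / 4) * AA m n := by
    have h1 : CC * n * (u / 8 + n * (u / 8) ^ 2) * (u / 8) ^ (1 / (m : ℝ)) ≤
        CC * ((n : ℝ) ^ (1 - 1 / (m : ℝ)) * (n : ℝ) ^ (-τ)) :=
      LQ.err_bd hN hm hCC.le hc1' hx1 (by rw [hu])
    have h2 : off ^ (1 / qq m) ≤ (CI ^ (1 / qq m) * CJ ^ (1 / 2 : ℝ) * 16) *
        ((n : ℝ) ^ (1 - 1 / (m : ℝ)) * (n : ℝ) ^ (-τ)) := by
      rw [hoff, hl, hx, hu, hD]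
      exact off_bd hN hm hCI hCJ hq1 hx2
    have h3 : (CC + CI ^ (1 / qq m) * CJ ^ (1 / 2 : ℝ) * 16) * x ≤ e / 8 * GA m :=
      (mul_le_mul_of_nonneg_left hxκ (by positivity)).trans hκA
    have h4 := mul_le_mul_of_nonneg_left h3 (hP (1 - 1 / (m : ℝ))).le
    have h5 : (n : ℝ) ^ (1 - 1 / (m : ℝ)) * (e / 8 * GA m) = e / 8 * AA m n := by
      unfold AA
      ring
    rw [h5] at h4
    rw [← hx] at h1 h2
    rw [hE]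
    linarith
  have hMol : Mol l fun y => ENNReal.ofReal (sc χ l y) :=
    LQ.sc_mol hχd.continuous hχ0 hχs hχi hl0
  obtain ⟨N, hNN⟩ : ∃ N : (ℂ → ℂ) → ℝ≥0∞, N = fun g => ∫⁻ w, (∫⁻ y, ENNReal.ofReal (sc χ l y) *
    ‖So n ψ g (w + y)‖ₑ ^ 2) ^ (qq m / 2) := ⟨_, rfl⟩
  -- the inner part
  have hinner : ∀ g : ℂ → ℂ, Nice g → ∃ I, MeasurableSet I ∧
      ∫⁻ z in Iᶜ, ‖g z‖ₑ ^ (qq m) ≤ ENNReal.ofReal (2 * x) * ∫⁻ z, ‖g z‖ₑ ^ (qq m) ∧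
      N (I.indicator g) ≤
        ENNReal.ofReal (((1 + e / 4) * AA m n) ^ (qq m)) * ∫⁻ z, ‖g z‖ₑ ^ (qq m) := by
    intro g hg
    obtain ⟨cell, I, hcm, hI, h1, h2, h3⟩ := hL (qq m) (u / 16) x g hq0 (by positivity) hx0
      (by linarith) hg
    refine ⟨I, hI, h1, ?_⟩
    rw [hNN]
    refine (inner (χ := sc χ l) (R := u / 8) (δ := x * (u / 16)) (E := E) (off := off) hq1 hE0 hoff0
      ?_ ?_ hg hcm hI h2 ?_).trans ?_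
    · intro a g' hg' ha
      rw [hE]
      exact hCELL n (u / 8) l T D ψ _ a g' hn (by positivity) (by linarith) hnR hl0
        (hlx.trans (hxκ.trans hκη)) hD1 hT0 hTD hnl hψ hMol hg' ha
    · intro cell' g' hcm' hg' hsep'
      rw [hoff]
      refine hINT n ψ l D (CJ / l ^ 2) (x * (u / 16)) (sc χ l) cell' g' hn hl0
        (by linarith) hD1 (by positivity) (by positivity) (LQ.sc_cont hχd.continuous l).measurable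
        (LQ.sc_nonneg hχ0 l) (LQ.sc_supp hχs hl0) (LQ.sc_int hχi hl0) ⟨B, hψ⟩ hcm' hg' hsep' ?_
      intro z z' w hzz
      refine (hJJ n l D ψ hn hl0 (by linarith) hψ z z' w hzz).trans (le_of_eq ?_)
      rw [div_mul_eq_div_div, div_eq_mul_inv]
    · intro z z' hzz
      have := h3 z z' hzz
      linarith
    · refine mul_le_mul' (ENNReal.ofReal_le_ofReal ?_) le_rfl
      exact Real.rpow_le_rpow (by positivity) hM hq0.le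
  have hρ : (2 * x) ^ (1 / qq m) ≤ e / 8 := by
    have h1 : (2 * x) ^ (1 / qq m) ≤ ((e / 8) ^ qq m) ^ (1 / qq m) :=
      Real.rpow_le_rpow (by positivity) (by linarith) (by positivity)
    rwa [← Real.rpow_mul (by positivity), mul_one_div_cancel hq0.ne', Real.rpow_one] at h1
  have hadd : ∀ g, Nice g → ∀ I, MeasurableSet I →
      (N g) ^ (1 / qq m) ≤ (N (I.indicator g)) ^ (1 / qq m) +
        (N (Iᶜ.indicator g)) ^ (1 / qq m) := by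
    intro g hg I hI
    rw [hNN]
    beta_reduce
    simp only [LQ.So_add hn hψ hg hI]
    exact mink hMol.1 (LQ.So_meas hcont (LQ.nice_ind hg hI))
      (LQ.So_meas hcont (LQ.nice_ind hg hI.compl)) hq1
  have hfin : ∃ K, 0 ≤ K ∧ ∀ g, Nice g →
      N g ≤ ENNReal.ofReal (K ^ qq m) * ∫⁻ z, ‖g z‖ₑ ^ (qq m) := by
    rw [hNN]
    exact fin hm hn hψ (by linarith) hMol
  have hfinal := improve (N := N) (M := (1 + e / 4) * AA m n) (K' := (1 + e) * AA m n) (η := x)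
    hq1 (by positivity) hx0 hadd hinner hfin (by linarith) ?_
  · rw [hNN] at hfinal
    exact hfinal
  have h1 : (1 + e) * AA m n * (2 * x) ^ (1 / qq m) ≤ (1 + e) * AA m n * (e / 8) :=
    mul_le_mul_of_nonneg_left hρ (by positivity)
  have h2 : (1 + e / 4) + (1 + e) * (e / 8) < 1 + e := by nlinarith
  nlinarith

/-- LQT -/
theorem t : Pool.Agent.N892.BW.S_LQT := by
  obtain ⟨χ, hχd, hχ0, hχs, hχi, hJJ⟩ := JJ.t IBP.t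
  refine ⟨χ, ⟨hχd, hχ0, hχs, hχi⟩, ?_⟩
  intro m B ε hm hε
  obtain ⟨CJ, hCJ, hJJ⟩ := hJJ B
  obtain ⟨CI, hCI, hINT⟩ := INT.t DEC.t2 YNG.t m hm
  obtain ⟨CC, hCC, hCELL⟩ := CELL.t (MZC.t (PAL.t H1.pit) MZF.t) AVG.t LIN.t m B hm
  obtain ⟨e, he⟩ : ∃ e, e = min ε 1 := ⟨_, rfl⟩
  have he0 : 0 < e := by rw [he]; exact lt_min hε one_pos
  have he1 : e ≤ 1 := by rw [he]; exact min_le_right _ _
  have heε : e ≤ ε := by rw [he]; exact min_le_left _ _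
  obtain ⟨η, hη, hCELL⟩ := hCELL (e / 8) (by positivity)
  obtain ⟨τ, c1, hτ, hτ1, hc1, hc1', hx1, hx2⟩ := num hm
  have hGA := LQ.GA_pos hm
  obtain ⟨hq1, hq2, -⟩ := LQ.qq_facts hm
  obtain ⟨κ, hκ0, hκη, hκ1, hκA, hκe⟩ := LQ.kappa (η := η) (e := e) (G := GA m)
    (A := CC + CI ^ (1 / qq m) * CJ ^ (1 / 2 : ℝ) * 16) (q := qq m) hη he0 hGA (by positivity)
  have hlim : ∀ᶠ n : ℕ in atTop, (n : ℝ) ^ (-τ) ≤ κ :=
    ((tendsto_rpow_neg_atTop hτ).comp tendsto_natCast_atTop_atTop).eventually_le_const hκ0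
  obtain ⟨n₀, hn₀⟩ := eventually_atTop.1 (hlim.and (eventually_ge_atTop 1))
  refine ⟨n₀, fun n hn ψ hψ g hg => ?_⟩
  obtain ⟨h1, h2⟩ := hn₀ n hn
  have h3 := one LAY.t hm hχd hχ0 hχs hχi hCJ hCI hCC he0 he1 hJJ hINT hCELL hτ hτ1 hc1 hc1' hx1
    hx2 hκη hκ1 hκA hκe h2 h1 ψ hψ g hg
  refine h3.trans (mul_le_mul' (ENNReal.ofReal_le_ofReal ?_) le_rfl)
  have hAA : 0 ≤ AA m n := mul_nonneg (Real.rpow_nonneg (Nat.cast_nonneg n) _) hGA.le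
  refine Real.rpow_le_rpow (by positivity) ?_ (by linarith)
  exact mul_le_mul_of_nonneg_right (by linarith) hAA

end Pool.Agent.N892.BW.LQT
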