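import Pool.Agent.N892.BW.Stm4
import Pool.Agent.Y282.RB.F
import Pool.Agent.Y282.RB.F1
import Pool.Agent.Y282.RB.A2
import Pool.Agent.Y282.RB.A3
import Pool.Agent.Y282.RB.K2

/-!
The lower bound for the norm of the powers of the Beurling transform.
-/

set_option autoImplicit false

open MeasureTheory

namespace Pool.Agent.N892.BW.LWB

lemma const_eq (n : ℕ) (p : ℝ) :
    ∏ j ∈ Finset.range n, ((1 - 1 / p + j) / (1 / p + j)) = Pool.Agent.Y282.RB.Cn p n := by
  unfold Pool.Agent.Y282.RB.Cn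
  refine Finset.prod_congr rfl fun j _ => ?_
  congr 1 <;> ring

theorem t : Pool.Agent.N892.BW.S_LWB := by
  intro n p c hn hp hc hf
  by_contra hlt
  rw [not_le, const_eq] at hlt
  obtain ⟨g, hg, hs, hlt'⟩ := Pool.Agent.Y282.RB.F.main Pool.Agent.Y282.RB.A2.main
    Pool.Agent.Y282.RB.A3.main Pool.Agent.Y282.RB.F1.main n p c hn (by linarith) hc hlt
  obtain ⟨f, hf1, -⟩ := Pool.Agent.Y282.RB.K2.main n g hg hs
  have h5 := hf f
  have hT : TS n f = Pool.Agent.Y282.RB.Tn n f := rfl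
  rw [hT] at h5
  have h6 : (fun z : ℂ => f z) = Pool.Agent.Y282.RB.rad n g := hf1
  rw [h6, hf1] at h5
  exact absurd h5 (not_le.2 hlt')

end Pool.Agent.N892.BW.LWB
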