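import Pool.Agent.N892.BW.Stm2
import Pool.Agent.N892.BW.FIN

/-! MUL: Fourier multipliers with smooth symbols on an annulus (helper344). -/

set_option autoImplicit false

open MeasureTheory ENNReal Filter Topology Complex
open scoped ComplexConjugate ContDiff FourierTransform

namespace Pool.Agent.N892.BW.MUL

/-! ### Young's inequality -/

theorem yng (m : ℕ) (hm : 1 ≤ m) (G f : ℂ → ℂ) (hG : Measurable G) (hf : Measurable f) :
    ∫⁻ x, ‖∫ z, G (x - z) * f z‖ₑ ^ (2 * m) ≤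
      (∫⁻ z, ‖G z‖ₑ) ^ (2 * m) * ∫⁻ z, ‖f z‖ₑ ^ (2 * m) := by
  have h1m : (1 : ℝ) ≤ m := by exact_mod_cast hm
  simp only [← ENNReal.rpow_natCast]
  set q : ℝ := ((2 * m : ℕ) : ℝ) with hq
  have hq1 : 1 < q := by rw [hq]; push_cast; linarith
  have hq0 : 0 < q := by linarith
  have hpq : (Real.conjExponent q).HolderConjugate q := (Real.HolderConjugate.conjExponent hq1).symm
  set K1 : ℝ≥0∞ := ∫⁻ z, ‖G z‖ₑ with hK1def
  have hs : ∀ w, ∫⁻ z, ‖G (w - z)‖ₑ = K1 := fun w =>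
    lintegral_sub_left_eq_self (μ := (volume : Measure ℂ)) (fun z => ‖G z‖ₑ) w
  have hs' : ∀ z, ∫⁻ w, ‖G (w - z)‖ₑ = K1 := fun z =>
    lintegral_sub_right_eq_self (μ := (volume : Measure ℂ)) (fun z => ‖G z‖ₑ) z
  have h1 : ∀ w, ‖∫ z, G (w - z) * f z‖ₑ ^ q ≤
      K1 ^ (q - 1) * ∫⁻ z, ‖G (w - z)‖ₑ * ‖f z‖ₑ ^ q := by
    intro w
    have ha : ‖∫ z, G (w - z) * f z‖ₑ ≤ ∫⁻ z, ‖G (w - z)‖ₑ * ‖f z‖ₑ := by
      refine (enorm_integral_le_lintegral_enorm _).trans (le_of_eq ?_)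
      apply lintegral_congr
      intro z
      rw [enorm_mul]
    refine (ENNReal.rpow_le_rpow ha hq0.le).trans ?_
    have := FIN.hold _ q hpq (fun z => ‖G (w - z)‖ₑ) (fun z => ‖f z‖ₑ)
      (hG.comp (measurable_const.sub measurable_id)).enorm hf.enorm
    rw [hs w] at this
    exact this
  have hmeas2 : Measurable (Function.uncurry fun w z : ℂ => ‖G (w - z)‖ₑ * ‖f z‖ₑ ^ q) := by
    apply Measurable.mul
    · exact (hG.comp (measurable_fst.sub measurable_snd)).enorm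
    · exact ((hf.comp measurable_snd).enorm).pow_const _
  calc ∫⁻ w, ‖∫ z, G (w - z) * f z‖ₑ ^ q
      ≤ ∫⁻ w, K1 ^ (q - 1) * ∫⁻ z, ‖G (w - z)‖ₑ * ‖f z‖ₑ ^ q := lintegral_mono h1
    _ = K1 ^ (q - 1) * ∫⁻ w, ∫⁻ z, ‖G (w - z)‖ₑ * ‖f z‖ₑ ^ q := by
        rw [lintegral_const_mul]
        exact hmeas2.lintegral_prod_right
    _ = K1 ^ (q - 1) * ∫⁻ z, ∫⁻ w, ‖G (w - z)‖ₑ * ‖f z‖ₑ ^ q := by
        rw [lintegral_lintegral_swap hmeas2.aemeasurable]
    _ = K1 ^ (q - 1) * ∫⁻ z, K1 * ‖f z‖ₑ ^ q := by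
        congr 1
        apply lintegral_congr
        intro z
        have hmz : Measurable (fun w : ℂ => ‖G (w - z)‖ₑ) :=
          (hG.comp (measurable_id.sub measurable_const)).enorm
        rw [lintegral_mul_const _ hmz, hs' z]
    _ = K1 ^ (q - 1) * (K1 * ∫⁻ z, ‖f z‖ₑ ^ q) := by
        rw [lintegral_const_mul _ (hf.enorm.pow_const _)]
    _ = K1 ^ q * ∫⁻ z, ‖f z‖ₑ ^ q := by
        rw [← mul_assoc]
        congr 1
        conv_lhs => rw [← ENNReal.rpow_one K1, ← ENNReal.rpow_mul, one_mul]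
        rw [← ENNReal.rpow_add_of_nonneg _ _ (by linarith) (by norm_num)]
        congr 1
        ring

/-! ### cut-off functions -/

noncomputable def bp : ContDiffBump (0 : ℂ) := ⟨1, 2, by norm_num, by norm_num⟩

noncomputable def th (x : ℂ) : ℂ := ((bp x : ℝ) : ℂ)

theorem th_smooth : ContDiff ℝ ∞ th := Complex.ofRealCLM.contDiff.comp bp.contDiff

theorem th_one (x : ℂ) (h : ‖x‖ ≤ 1) : th x = 1 := by
  unfold th
  rw [bp.one_of_mem_closedBall (by rw [mem_closedBall_zero_iff]; exact h), Complex.ofReal_one]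

theorem th_zero (x : ℂ) (h : 2 ≤ ‖x‖) : th x = 0 := by
  unfold th
  rw [bp.zero_of_le_dist (by rw [dist_zero_right]; exact h), Complex.ofReal_zero]

theorem th_supp : HasCompactSupport th := by
  refine HasCompactSupport.intro (isCompact_closedBall (0 : ℂ) 2) fun x hx => th_zero x ?_
  rw [mem_closedBall_zero_iff, not_le] at hx
  exact hx.le

theorem th_bound : ∃ B : ℝ, 0 ≤ B ∧ ∀ k ≤ 4, ∀ x, ‖iteratedFDeriv ℝ k th x‖ ≤ B := by
  have h : ∀ k : ℕ, ∃ B : ℝ, ∀ x, ‖iteratedFDeriv ℝ k th x‖ ≤ B := by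
    intro k
    have hc : Continuous (iteratedFDeriv ℝ k th) :=
      th_smooth.continuous_iteratedFDeriv (by exact_mod_cast le_top)
    exact hc.bounded_above_of_compact_support (th_supp.iteratedFDeriv k)
  choose B hB using h
  refine ⟨∑ k ∈ Finset.range 5, |B k|, Finset.sum_nonneg fun _ _ => abs_nonneg _, ?_⟩
  intro k hk x
  refine (hB k x).trans ((le_abs_self _).trans ?_)
  exact Finset.single_le_sum (f := fun k => |B k|) (fun _ _ => abs_nonneg _)
    (Finset.mem_range.2 (by omega))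

theorem sc_bound {g : ℂ → ℂ} (hg : ContDiff ℝ ∞ g) {B : ℝ} {k : ℕ}
    (hB : ∀ x, ‖iteratedFDeriv ℝ k g x‖ ≤ B) (c : ℝ) (x : ℂ) :
    ‖iteratedFDeriv ℝ k (fun x => g (c • x)) x‖ ≤ |c| ^ k * B := by
  have h1 := congrFun (iteratedFDeriv_comp_const_smul (𝕜 := ℝ) (i := k) (f := g) c
    (hg.of_le (by exact_mod_cast le_top))) x
  rw [h1, norm_smul, norm_pow, Real.norm_eq_abs]
  exact mul_le_mul_of_nonneg_left (hB _) (by positivity)

/-- Leibniz rule -/
theorem leib {f g : ℂ → ℂ} {s : Set ℂ} (hs : IsOpen s) (hf : ContDiffOn ℝ ∞ f s)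
    (hg : ContDiffOn ℝ ∞ g s) {x : ℂ} (hx : x ∈ s) {P Q L : ℝ} (hP : 0 ≤ P) (hQ : 0 ≤ Q)
    (hL : 0 ≤ L) (h1 : ∀ k ≤ 4, ‖iteratedFDeriv ℝ k f x‖ ≤ P * L ^ k)
    (h2 : ∀ k ≤ 4, ‖iteratedFDeriv ℝ k g x‖ ≤ Q * L ^ k) (k : ℕ) (hk : k ≤ 4) :
    ‖iteratedFDeriv ℝ k (fun y => f y * g y) x‖ ≤ 16 * P * Q * L ^ k := by
  have h3 := norm_iteratedFDerivWithin_mul_le (𝕜 := ℝ) hf hg hs.uniqueDiffOn hx (n := k)
    (by exact_mod_cast le_top)
  rw [iteratedFDerivWithin_of_isOpen k hs hx] at h3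
  refine h3.trans ?_
  calc _ ≤ ∑ i ∈ Finset.range (k + 1), (k.choose i : ℝ) * (P * Q * L ^ k) := by
        refine Finset.sum_le_sum fun i hi => ?_
        have hi' : i ≤ k := by
          have := Finset.mem_range.1 hi
          omega
        rw [iteratedFDerivWithin_of_isOpen i hs hx, iteratedFDerivWithin_of_isOpen (k - i) hs hx,
          mul_assoc]
        refine mul_le_mul_of_nonneg_left ?_ (Nat.cast_nonneg _)
        calc _ ≤ (P * L ^ i) * (Q * L ^ (k - i)) :=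
              mul_le_mul (h1 i (by omega)) (h2 (k - i) (by omega)) (norm_nonneg _) (by positivity)
          _ = P * Q * (L ^ i * L ^ (k - i)) := by ring
          _ = P * Q * L ^ k := by rw [← pow_add, Nat.add_sub_cancel' hi']
    _ = 2 ^ k * (P * Q * L ^ k) := by
        rw [← Finset.sum_mul, ← Nat.cast_sum, Nat.sum_range_choose]
        push_cast
        ring
    _ ≤ 16 * (P * Q * L ^ k) := by
        refine mul_le_mul_of_nonneg_right ?_ (by positivity)
        calc (2 : ℝ) ^ k ≤ 2 ^ 4 := pow_le_pow_right₀ (by norm_num) hk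
          _ = 16 := by norm_num
    _ = _ := by ring

theorem one_sub_bound {B : ℝ} (hB : ∀ k ≤ 4, ∀ x, ‖iteratedFDeriv ℝ k th x‖ ≤ B) (k : ℕ)
    (hk : k ≤ 4) (x : ℂ) : ‖iteratedFDeriv ℝ k (fun x => 1 - th x) x‖ ≤ 1 + B := by
  have h1 : iteratedFDeriv ℝ k (fun x => (1 : ℂ) - th x) x =
      iteratedFDeriv ℝ k (fun _ : ℂ => (1 : ℂ)) x - iteratedFDeriv ℝ k th x := by
    have := iteratedFDeriv_sub (𝕜 := ℝ) (i := k) (f := fun _ : ℂ => (1 : ℂ)) (g := th)
      contDiff_const (th_smooth.of_le (by exact_mod_cast le_top))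
    exact congrFun this x
  rw [h1]
  refine (norm_sub_le _ _).trans (add_le_add ?_ (hB k hk x))
  rcases Nat.eq_zero_or_pos k with rfl | hk0
  · rw [norm_iteratedFDeriv_zero, norm_one]
  · rw [iteratedFDeriv_const_of_ne (by omega)]
    simp

/-- the cut-off function of the annulus -/
noncomputable def et (a b : ℝ) (ξ : ℂ) : ℂ :=
  th (b⁻¹ • ξ) * (fun x => 1 - th x) ((2 * a⁻¹) • ξ)

theorem et_smooth (a b : ℝ) : ContDiff ℝ ∞ (et a b) := by
  unfold et
  exact (th_smooth.comp (contDiff_const_smul _)).mul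
    ((contDiff_const.sub th_smooth).comp (contDiff_const_smul _))

theorem nsm {c : ℝ} (hc : 0 < c) (x : ℂ) : ‖c • x‖ = c * ‖x‖ := by
  rw [norm_smul, Real.norm_eq_abs, abs_of_pos hc]

theorem et_one {a b : ℝ} (ha : 0 < a) (hb : 0 < b) {ξ : ℂ} (h1 : a ≤ ‖ξ‖) (h2 : ‖ξ‖ ≤ b) :
    et a b ξ = 1 := by
  unfold et
  have e1 : ‖b⁻¹ • ξ‖ ≤ 1 := by
    rw [nsm (inv_pos.2 hb), ← div_eq_inv_mul, div_le_one hb]
    exact h2
  have e2 : 2 ≤ ‖(2 * a⁻¹) • ξ‖ := by
    rw [nsm (by positivity), mul_assoc, ← div_eq_inv_mul]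
    have : 1 ≤ ‖ξ‖ / a := by rwa [one_le_div ha]
    linarith
  simp only [th_one _ e1, th_zero _ e2]
  norm_num

theorem et_supp {a b : ℝ} (ha : 0 < a) (hb : 0 < b) {ξ : ℂ} (h : et a b ξ ≠ 0) :
    a / 2 < ‖ξ‖ ∧ ‖ξ‖ < 2 * b := by
  unfold et at h
  constructor
  · by_contra hc
    rw [not_lt] at hc
    apply right_ne_zero_of_mul h
    have e2 : ‖(2 * a⁻¹) • ξ‖ ≤ 1 := by
      rw [nsm (by positivity), mul_assoc, ← div_eq_inv_mul]
      have : ‖ξ‖ / a ≤ 1 / 2 := by rw [div_le_iff₀ ha]; linarith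
      linarith
    simp only [th_one _ e2]
    norm_num
  · by_contra hc
    rw [not_lt] at hc
    apply left_ne_zero_of_mul h
    apply th_zero
    rw [nsm (inv_pos.2 hb), ← div_eq_inv_mul, le_div_iff₀ hb]
    exact hc

theorem et_bound : ∃ B : ℝ, 0 ≤ B ∧ ∀ (a b L : ℝ), 0 < a → a ≤ b → 1 / a ≤ L → ∀ k ≤ 4, ∀ ξ,
    ‖iteratedFDeriv ℝ k (et a b) ξ‖ ≤ B * L ^ k := by
  obtain ⟨B, hB0, hB⟩ := th_bound
  refine ⟨16 * B * (16 * (1 + B)), by positivity, ?_⟩
  intro a b L ha hab hL k hk ξ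
  have hb : 0 < b := ha.trans_le hab
  have hL0 : 0 < L := lt_of_lt_of_le (by positivity) hL
  refine leib (s := Set.univ) isOpen_univ ?_ ?_ (Set.mem_univ ξ) hB0 (by positivity) hL0.le ?_ ?_
    k hk
  · exact (th_smooth.comp (contDiff_const_smul _)).contDiffOn
  · exact ((contDiff_const.sub th_smooth).comp (contDiff_const_smul _)).contDiffOn
  · intro j hj
    refine (sc_bound th_smooth (hB j hj) b⁻¹ ξ).trans ?_
    rw [mul_comm, abs_of_pos (inv_pos.2 hb)]
    refine mul_le_mul_of_nonneg_left (pow_le_pow_left₀ (inv_pos.2 hb).le ?_ j) hB0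
    refine le_trans ?_ hL
    rw [one_div]
    exact inv_anti₀ ha hab
  · intro j hj
    refine (sc_bound (contDiff_const.sub th_smooth) (one_sub_bound hB j hj) (2 * a⁻¹) ξ).trans ?_
    rw [abs_of_pos (by positivity)]
    have h1 : (2 * a⁻¹) ^ j ≤ 16 * L ^ j := by
      rw [mul_pow]
      refine mul_le_mul ?_ ?_ (by positivity) (by norm_num)
      · calc (2 : ℝ) ^ j ≤ 2 ^ 4 := pow_le_pow_right₀ (by norm_num) hj
          _ = 16 := by norm_num
      · rw [one_div] at hL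
        exact pow_le_pow_left₀ (by positivity) hL j
    calc (2 * a⁻¹) ^ j * (1 + B) ≤ (16 * L ^ j) * (1 + B) :=
          mul_le_mul_of_nonneg_right h1 (by positivity)
      _ = _ := by ring

/-! ### the kernel -/

theorem inner_eq (x ξ : ℂ) : (inner ℝ x ξ : ℝ) = x.re * ξ.re + x.im * ξ.im := by
  rw [Complex.inner]
  simp
  ring

theorem Fi_eq (f : ℂ → ℂ) (x : ℂ) : Fi f x = 𝓕 f (-x) := by
  rw [Real.fourier_eq']
  unfold Fi e2
  refine integral_congr_ae (Eventually.of_forall fun v => ?_)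
  simp only [smul_eq_mul]
  rw [inner_eq]
  congr 2
  rw [Complex.neg_re, Complex.neg_im]
  push_cast
  ring

theorem int_inv : Integrable (fun y : ℂ => (1 + ‖y‖ ^ 4)⁻¹) := by
  have h := (integrable_one_add_norm (E := ℂ) (μ := (volume : Measure ℂ)) (r := 4) (by
    rw [Complex.finrank_real_complex]; norm_num)).const_mul 8
  refine h.mono' ?_ (Eventually.of_forall fun y => ?_)
  · apply Measurable.aestronglyMeasurable
    fun_prop
  · have h0 : 0 ≤ ‖y‖ := norm_nonneg y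
    rw [Real.norm_of_nonneg (by positivity), Real.rpow_neg (by positivity)]
    have e : (1 + ‖y‖) ^ (4 : ℝ) = (1 + ‖y‖) ^ 4 := by
      rw [← Real.rpow_natCast]
      norm_num
    rw [e, inv_eq_one_div, ← div_eq_mul_inv, div_le_div_iff₀ (by positivity) (by positivity)]
    nlinarith [sq_nonneg (‖y‖ - 1), sq_nonneg (‖y‖ ^ 2 - 1), mul_nonneg h0 (sq_nonneg (‖y‖ - 1)),
      mul_nonneg (mul_nonneg h0 h0) (sq_nonneg (‖y‖ - 1))]

theorem l1 : ∃ C : ℝ, 0 ≤ C ∧ ∀ (f : ℂ → ℂ) (R D : ℝ), 0 ≤ R → 0 ≤ D → ContDiff ℝ ∞ f →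
    (∀ v, f v ≠ 0 → ‖v‖ ≤ R) → (∀ k ≤ 4, ∀ v, ‖iteratedFDeriv ℝ k f v‖ ≤ D) →
    ∫ x, ‖Fi f x‖ ≤ C * (R ^ 2 * D) := by
  refine ⟨81 * Real.pi * ∫ y : ℂ, (1 + ‖y‖ ^ 4)⁻¹, by positivity, ?_⟩
  intro f R D hR hD hf hs hD4
  have hpi := Real.pi_pos
  have hcs : HasCompactSupport f := by
    refine HasCompactSupport.intro (isCompact_closedBall (0 : ℂ) R) fun x hx => ?_
    by_contra hne
    exact hx (by rw [mem_closedBall_zero_iff]; exact hs x hne)
  have hts : tsupport f ⊆ Metric.closedBall 0 R := by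
    refine closure_minimal (fun x hx => ?_) Metric.isClosed_closedBall
    rw [mem_closedBall_zero_iff]
    exact hs x hx
  have hint : ∀ k ≤ 4, ∫ v, ‖iteratedFDeriv ℝ k f v‖ ≤ D * (Real.pi * R ^ 2) := by
    intro k hk
    have hle : ∀ v, ‖iteratedFDeriv ℝ k f v‖ ≤ (Metric.closedBall (0 : ℂ) R).indicator (fun _ => D) v := by
      intro v
      by_cases hv : v ∈ Metric.closedBall (0 : ℂ) R
      · rw [Set.indicator_of_mem hv]
        exact hD4 k hk v
      · rw [Set.indicator_of_notMem hv]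
        have : iteratedFDeriv ℝ k f v = 0 := by
          by_contra hne
          exact hv (hts (support_iteratedFDeriv_subset (𝕜 := ℝ) k hne))
        rw [this, norm_zero]
    calc ∫ v, ‖iteratedFDeriv ℝ k f v‖ ≤ ∫ v, (Metric.closedBall (0 : ℂ) R).indicator (fun _ => D) v := by
          refine integral_mono_of_nonneg (Eventually.of_forall fun _ => norm_nonneg _) ?_
            (Eventually.of_forall hle)
          rw [integrable_indicator_iff Metric.isClosed_closedBall.measurableSet]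
          exact integrableOn_const (isCompact_closedBall (0 : ℂ) R).measure_lt_top.ne
      _ = D * (Real.pi * R ^ 2) := by
          rw [integral_indicator Metric.isClosed_closedBall.measurableSet, setIntegral_const,
            Measure.real, Complex.volume_closedBall]
          simp [hR]
          ring
  have key : ∀ j : ℕ, j ≤ 4 → ∀ w, ‖w‖ ^ j * ‖𝓕 f w‖ ≤
      2 ^ j * (((j : ℝ) + 1) * (D * (Real.pi * R ^ 2))) := by
    intro j hj w
    have h := Real.pow_mul_norm_iteratedFDeriv_fourier_le (V := ℂ) (f := f) (K := 0) (N := 4)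
      (hf.of_le (by exact_mod_cast le_top)) (fun k n _ hn => by
        have hc : Continuous (fun v : ℂ => ‖v‖ ^ k * ‖iteratedFDeriv ℝ n f v‖) :=
          (continuous_norm.pow k).mul
            (hf.continuous_iteratedFDeriv (by exact_mod_cast le_top)).norm
        exact hc.integrable_of_hasCompactSupport ((hcs.iteratedFDeriv n).norm.mul_left))
      (k := 0) (n := j) le_rfl (by exact_mod_cast hj) w
    rw [norm_iteratedFDeriv_zero] at h
    refine h.trans ?_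
    rw [pow_zero, one_mul]
    have e : ((2 : ℝ) * ((0 : ℕ) : ℝ) + 2) = 2 := by norm_num
    rw [e]
    refine mul_le_mul_of_nonneg_left ?_ (by positivity)
    refine (Finset.sum_le_card_nsmul _ _ (D * (Real.pi * R ^ 2)) ?_).trans (le_of_eq ?_)
    · rintro ⟨p1, p2⟩ hp
      rw [Finset.mem_product, Finset.mem_range, Finset.mem_range] at hp
      have hp1 : p1 = 0 := by
        have := hp.1
        simp only at this
        omega
      have hp2 : p2 ≤ 4 := by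
        have := hp.2
        simp only at this
        omega
      subst hp1
      simp only [pow_zero, one_mul]
      exact hint p2 hp2
    · rw [Finset.card_product, Finset.card_range, Finset.card_range, nsmul_eq_mul]
      push_cast
      ring
  have hpt : ∀ x, ‖Fi f x‖ ≤ 81 * (D * (Real.pi * R ^ 2)) * (1 + ‖x‖ ^ 4)⁻¹ := by
    intro x
    rw [Fi_eq]
    have h0 := key 0 (by norm_num) (-x)
    have h4 := key 4 le_rfl (-x)
    rw [norm_neg] at h0 h4
    rw [← div_eq_mul_inv, le_div_iff₀ (by positivity)]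
    norm_num at h0 h4
    nlinarith
  calc ∫ x, ‖Fi f x‖ ≤ ∫ x : ℂ, 81 * (D * (Real.pi * R ^ 2)) * (1 + ‖x‖ ^ 4)⁻¹ :=
        integral_mono_of_nonneg (Eventually.of_forall fun _ => norm_nonneg _)
          (int_inv.const_mul _) (Eventually.of_forall hpt)
    _ = 81 * (D * (Real.pi * R ^ 2)) * ∫ y : ℂ, (1 + ‖y‖ ^ 4)⁻¹ := integral_const_mul _ _
    _ = _ := by ring

/-- scaling -/
theorem scal (ν : ℂ → ℂ) {s : ℝ} (hs : 0 < s) :
    ∫ y, ‖Fi (fun v => ν (s • v)) y‖ = ∫ x, ‖Fi ν x‖ := by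
  have h1 : ∀ y, Fi (fun v => ν (s • v)) y = (s ^ 2)⁻¹ • Fi ν (s⁻¹ • y) := by
    intro y
    have e : ∀ v : ℂ, e2 y v * ν (s • v) = (fun u => e2 (s⁻¹ • y) u * ν u) (s • v) := by
      intro v
      simp only
      congr 1
      unfold e2
      congr 2
      have : (s⁻¹ • y).re * (s • v).re + (s⁻¹ • y).im * (s • v).im = y.re * v.re + y.im * v.im := by
        rw [Complex.smul_re, Complex.smul_re, Complex.smul_im, Complex.smul_im, smul_eq_mul,
          smul_eq_mul, smul_eq_mul, smul_eq_mul]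
        field_simp
      rw [this]
    have h5 := Measure.integral_comp_smul (volume : Measure ℂ)
      (fun u => e2 (s⁻¹ • y) u * ν u) s
    rw [Complex.finrank_real_complex, abs_of_pos (by positivity)] at h5
    exact (integral_congr_ae (Eventually.of_forall e)).trans h5
  simp_rw [h1, norm_smul]
  rw [integral_const_mul, Measure.integral_comp_smul (volume : Measure ℂ) (fun y => ‖Fi ν y‖) s⁻¹,
    Complex.finrank_real_complex, Real.norm_eq_abs, abs_of_pos (by positivity),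
    abs_of_pos (by positivity), smul_eq_mul, ← mul_assoc]
  have : (s ^ 2)⁻¹ * ((s⁻¹) ^ 2)⁻¹ = 1 := by
    field_simp
  rw [this, one_mul]

theorem nu_bound : ∃ B : ℝ, 0 ≤ B ∧ ∀ (a b L δ : ℝ) (μ : ℂ → ℂ), 0 < a → a ≤ b → 1 / a ≤ L →
    0 ≤ δ → ContDiffOn ℝ ∞ μ {ξ | ξ ≠ 0} →
    (∀ k : ℕ, k ≤ 4 → ∀ ξ : ℂ, a / 2 ≤ ‖ξ‖ → ‖ξ‖ ≤ 2 * b → ‖iteratedFDeriv ℝ k μ ξ‖ ≤ δ * L ^ k) →
    ContDiff ℝ ∞ (fun ξ => et a b ξ * μ ξ) ∧ ∀ k ≤ 4, ∀ ξ,
      ‖iteratedFDeriv ℝ k (fun ξ => et a b ξ * μ ξ) ξ‖ ≤ B * δ * L ^ k := by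
  obtain ⟨B, hB0, hB⟩ := et_bound
  refine ⟨16 * B, by positivity, ?_⟩
  intro a b L δ μ ha hab hL hδ hμ hD
  have hb : 0 < b := ha.trans_le hab
  have hL0 : 0 < L := lt_of_lt_of_le (by positivity) hL
  have hopen : IsOpen {ξ : ℂ | ξ ≠ 0} := isOpen_ne
  have hsupp : ∀ ξ, et a b ξ * μ ξ ≠ 0 → a / 2 ≤ ‖ξ‖ ∧ ‖ξ‖ ≤ 2 * b := by
    intro ξ hξ
    have := et_supp ha hb (left_ne_zero_of_mul hξ)
    exact ⟨this.1.le, this.2.le⟩
  constructor
  · rw [contDiff_iff_contDiffAt]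
    intro ξ
    by_cases h0 : ξ = 0
    · have hev : (fun ξ => et a b ξ * μ ξ) =ᶠ[𝓝 ξ] fun _ => 0 := by
        have hball : Metric.ball (0 : ℂ) (a / 2) ∈ 𝓝 ξ := by
          rw [h0]
          exact Metric.ball_mem_nhds _ (by positivity)
        filter_upwards [hball] with x hx
        by_contra hne
        rw [mem_ball_zero_iff] at hx
        exact absurd (hsupp x hne).1 (not_le.2 hx)
      exact contDiffAt_const.congr_of_eventuallyEq hev
    · exact (et_smooth a b).contDiffAt.mul (hμ.contDiffAt (hopen.mem_nhds h0))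
  · intro k hk ξ
    by_cases hreg : a / 2 ≤ ‖ξ‖ ∧ ‖ξ‖ ≤ 2 * b
    · have hξ0 : ξ ∈ {ξ : ℂ | ξ ≠ 0} := by
        intro h0
        rw [h0, norm_zero] at hreg
        linarith [hreg.1]
      have := leib hopen (et_smooth a b).contDiffOn hμ hξ0 hB0 hδ hL0.le
        (fun j hj => hB a b L ha hab hL j hj ξ) (fun j hj => hD j hj ξ hreg.1 hreg.2) k hk
      exact this
    · have hcl : IsClosed {ξ : ℂ | a / 2 ≤ ‖ξ‖ ∧ ‖ξ‖ ≤ 2 * b} :=
        (isClosed_le continuous_const continuous_norm).inter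
          (isClosed_le continuous_norm continuous_const)
      have : iteratedFDeriv ℝ k (fun ξ => et a b ξ * μ ξ) ξ = 0 := by
        by_contra hne
        exact hreg ((closure_minimal (fun x hx => hsupp x hx) hcl)
          (support_iteratedFDeriv_subset (𝕜 := ℝ) k hne))
      rw [this, norm_zero]
      positivity

theorem t (h1 : S_BAS) (h2 : S_CNV) : S_MUL := by
  obtain ⟨B, hB0, hB⟩ := nu_bound
  obtain ⟨C, hC0, hC⟩ := l1
  refine ⟨6, 4 * C * B, by positivity, ?_⟩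
  intro n a b δ μ hn ha hab hbn hδ hμ hD h hh m hm
  have hb : 0 < b := ha.trans_le hab
  have hn1 : (1 : ℝ) ≤ n := by exact_mod_cast hn
  have hn0 : (0 : ℝ) < n := by linarith
  set L : ℝ := (n : ℝ) ^ 2 / a with hL
  have hL0 : 0 < L := by positivity
  have hL1 : 1 / a ≤ L := by
    rw [hL]
    exact div_le_div_of_nonneg_right (one_le_pow₀ hn1) ha.le
  obtain ⟨hν, hνD⟩ := hB a b L δ μ ha hab hL1 hδ hμ hD
  set ν : ℂ → ℂ := fun ξ => et a b ξ * μ ξ with hνdef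
  have hνs : ∀ ξ, ν ξ ≠ 0 → a / 2 ≤ ‖ξ‖ ∧ ‖ξ‖ ≤ 2 * b := by
    intro ξ hξ
    have := et_supp ha hb (left_ne_zero_of_mul hξ)
    exact ⟨this.1.le, this.2.le⟩
  have hνB : Bd 0 (2 * b) ν := ⟨hν, fun ξ hξ => ⟨norm_nonneg _, (hνs ξ hξ).2⟩⟩
  have hhB : Bd 0 (2 * b) h := ⟨hh.1, fun ξ hξ => ⟨norm_nonneg _, by
    have := (hh.2 ξ hξ).2
    linarith⟩⟩
  have hνh : (fun ξ => μ ξ * h ξ) = fun ξ => ν ξ * h ξ := by
    funext ξ
    by_cases h0 : h ξ = 0
    · rw [h0, mul_zero, mul_zero]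
    · obtain ⟨g1, g2⟩ := hh.2 ξ h0
      rw [hνdef]
      simp only
      rw [et_one ha hb g1 g2, one_mul]
  obtain ⟨bc, -, ⟨-, bi, -⟩, -, -⟩ := h1 (2 * b) ν hνB
  obtain ⟨hc, -, -, -, -⟩ := h1 (2 * b) h hhB
  have hL1n : ∫ x, ‖Fi ν x‖ ≤ 4 * C * B * (n : ℝ) ^ 6 * δ := by
    have hs : 0 < L⁻¹ := inv_pos.2 hL0
    rw [← scal ν hs]
    have := hC (fun v => ν (L⁻¹ • v)) (2 * (n : ℝ) ^ 3) (B * δ) (by positivity) (by positivity)
      (hν.comp (contDiff_const_smul _)) (by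
        intro v hv
        have g := (hνs _ hv).2
        rw [nsm hs, ← div_eq_inv_mul, div_le_iff₀ hL0] at g
        refine g.trans ?_
        rw [hL]
        calc 2 * b * ((n : ℝ) ^ 2 / a) ≤ 2 * (a * n) * ((n : ℝ) ^ 2 / a) := by gcongr
          _ = 2 * (n : ℝ) ^ 3 := by field_simp) (by
        intro k hk v
        have g := sc_bound (k := k) hν (hνD k hk) L⁻¹ v
        refine g.trans (le_of_eq ?_)
        rw [abs_of_pos hs, inv_pow]
        field_simp)
    refine this.trans (le_of_eq ?_)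
    ring
  have hK : ∫⁻ x, ‖Fi ν x‖ₑ ≤ ENNReal.ofReal (4 * C * B * (n : ℝ) ^ 6 * δ) := by
    rw [← ofReal_integral_norm_eq_lintegral_enorm bi]
    exact ENNReal.ofReal_le_ofReal hL1n
  unfold Nm
  rw [hνh]
  have hconv : ∀ x, Fi (fun ξ => ν ξ * h ξ) x = ∫ z, Fi ν (x - z) * Fi h z :=
    fun x => (h2 (2 * b) ν h hνB hhB x).2
  simp_rw [hconv]
  refine (yng m hm (Fi ν) (Fi h) bc.measurable hc.measurable).trans ?_
  refine mul_le_mul_left ?_ _
  rw [ENNReal.ofReal_pow (by positivity)]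
  exact pow_le_pow_left₀ bot_le hK _

end Pool.Agent.N892.BW.MUL
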