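import Pool.Agent.N892.BW.Stm2

/-!
# Project BW, part NEA: the part of the kernel near the origin does not see the low frequencies

`MM n Ψ y = ∫ sy n u • Ψ (y - u) du` for a Schwartz function `Ψ` with values in a Banach space. The
rotations of the plane give `2 i n MM n Ψ y = MM n (RR Ψ) y - (MM n Ψ' y) (i y)`, and hence
`‖MM n Ψ y‖ ≤ C ((1 + ‖y‖) / n) ^ j` for every `j`.
-/

set_option autoImplicit false

open MeasureTheory ENNReal Filter Topology Complex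
open scoped ComplexConjugate ContDiff SchwartzMap FourierTransform

namespace Pool.Agent.N892.BW.NEA

open Pool.Agent.N892.BW

/-! ### the symbol -/

theorem sy_mul (n : ℕ) (c u : ℂ) : sy n (c * u) = sy n c * sy n u := by
  unfold sy
  rw [map_mul, mul_div_mul_comm, mul_pow]

theorem sy_real (n : ℕ) (s : ℝ) (hs : 0 < s) : sy n (s : ℂ) = 1 := by
  unfold sy
  rw [Complex.conj_ofReal, div_self (by exact_mod_cast hs.ne'), one_pow]

theorem sy_exp (n : ℕ) (t : ℝ) :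
    sy n (Complex.exp (-((t : ℂ) * Complex.I))) = Complex.exp (2 * Complex.I * n * t) := by
  unfold sy
  rw [← Complex.exp_conj, ← Complex.exp_sub, ← Complex.exp_nat_mul]
  congr 1
  rw [map_neg, map_mul, Complex.conj_ofReal, Complex.conj_I]
  ring

theorem sy_norm (n : ℕ) (u : ℂ) : ‖sy n u‖ ≤ 1 := by
  unfold sy
  rw [norm_pow, norm_div, Complex.norm_conj]
  exact pow_le_one₀ (by positivity) (div_self_le_one _)

theorem sy_meas (n : ℕ) : Measurable (sy n) := by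
  unfold sy
  exact (Complex.continuous_conj.measurable.div measurable_id).pow_const n

/-! ### the weight -/

/-- the weight -/
noncomputable def wt (u : ℂ) : ℝ := (1 + ‖u‖) ^ (-(3 : ℝ))

theorem wt_int : Integrable wt := by
  refine integrable_one_add_norm ?_
  rw [Complex.finrank_real_complex]
  norm_num

theorem wt_eq (u : ℂ) : wt u = ((1 + ‖u‖) ^ 3)⁻¹ := by
  unfold wt
  rw [Real.rpow_neg (by positivity)]
  congr 1
  exact_mod_cast Real.rpow_natCast (1 + ‖u‖) 3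

theorem one_add_le (y u : ℂ) : 1 + ‖u‖ ≤ (1 + ‖y‖) * (1 + ‖y - u‖) := by
  have h : ‖u‖ ≤ ‖y‖ + ‖y - u‖ := by
    calc ‖u‖ = ‖y - (y - u)‖ := by congr 1; ring
      _ ≤ ‖y‖ + ‖y - u‖ := norm_sub_le _ _
  nlinarith [norm_nonneg y, norm_nonneg (y - u), mul_nonneg (norm_nonneg y) (norm_nonneg (y - u))]

section vec

set_option linter.unusedSectionVars false

variable {F : Type} [NormedAddCommGroup F] [NormedSpace ℝ F] [NormedSpace ℂ F] [SMulCommClass ℝ ℂ F]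

theorem decay (Ψ : 𝓢(ℂ, F)) (p : ℕ) : ∃ C : ℝ, 0 ≤ C ∧ ∀ w, ‖Ψ w‖ * (1 + ‖w‖) ^ p ≤ C := by
  refine ⟨2 ^ p * ((Finset.Iic (p, 0)).sup fun m => SchwartzMap.seminorm ℝ m.1 m.2) Ψ,
    mul_nonneg (by positivity) (apply_nonneg _ _), fun w => ?_⟩
  have h := SchwartzMap.one_add_le_sup_seminorm_apply (𝕜 := ℝ) (m := (p, 0)) (k := p) (n := 0)
    le_rfl le_rfl Ψ w
  rw [norm_iteratedFDeriv_zero] at h
  rw [mul_comm]
  exact h

/-- a uniform bound of the translates -/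
theorem decay_wt (Ψ : 𝓢(ℂ, F)) : ∃ C : ℝ, 0 ≤ C ∧ ∀ y u : ℂ,
    ‖Ψ (y - u)‖ ≤ C * (1 + ‖y‖) ^ 3 * wt u := by
  obtain ⟨C, hC, h⟩ := decay Ψ 3
  refine ⟨C, hC, fun y u => ?_⟩
  have h1 := h (y - u)
  have h2 : (1 + ‖u‖) ^ 3 ≤ ((1 + ‖y‖) * (1 + ‖y - u‖)) ^ 3 :=
    pow_le_pow_left₀ (by positivity) (one_add_le y u) 3
  rw [wt_eq, ← div_eq_mul_inv, le_div_iff₀ (by positivity)]
  calc ‖Ψ (y - u)‖ * (1 + ‖u‖) ^ 3 ≤ ‖Ψ (y - u)‖ * ((1 + ‖y‖) * (1 + ‖y - u‖)) ^ 3 :=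
        mul_le_mul_of_nonneg_left h2 (norm_nonneg _)
    _ = (‖Ψ (y - u)‖ * (1 + ‖y - u‖) ^ 3) * (1 + ‖y‖) ^ 3 := by ring
    _ ≤ C * (1 + ‖y‖) ^ 3 := mul_le_mul_of_nonneg_right h1 (by positivity)

/-- the convolution with the symbol -/
noncomputable def MM (n : ℕ) (Ψ : 𝓢(ℂ, F)) (y : ℂ) : F := ∫ u, sy n u • Ψ (y - u)

theorem meas (n : ℕ) (Ψ : 𝓢(ℂ, F)) (y : ℂ) :
    AEStronglyMeasurable (fun u => sy n u • Ψ (y - u)) volume :=
  (sy_meas n).aestronglyMeasurable.smul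
    (Ψ.continuous.comp (continuous_const.sub continuous_id)).aestronglyMeasurable

theorem norm_sy_smul (n : ℕ) (u : ℂ) (v : F) : ‖sy n u • v‖ ≤ ‖v‖ := by
  rw [norm_smul]
  exact mul_le_of_le_one_left (norm_nonneg _) (sy_norm n u)

theorem integ (n : ℕ) (Ψ : 𝓢(ℂ, F)) (y : ℂ) : Integrable (fun u => sy n u • Ψ (y - u)) := by
  obtain ⟨C, hC, h⟩ := decay_wt Ψ
  refine Integrable.mono' (wt_int.const_mul (C * (1 + ‖y‖) ^ 3)) (meas n Ψ y)
    (Eventually.of_forall fun u => ?_)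
  exact (norm_sy_smul n u _).trans (h y u)

/-- the trivial bound -/
theorem MM_bound (Ψ : 𝓢(ℂ, F)) : ∃ C : ℝ, 0 ≤ C ∧ ∀ (n : ℕ) (y : ℂ), ‖MM n Ψ y‖ ≤ C := by
  have hint : Integrable (fun w => ‖Ψ w‖) := by
    obtain ⟨C, hC, h⟩ := decay_wt Ψ
    refine Integrable.mono' (wt_int.const_mul (C * (1 + ‖(0 : ℂ)‖) ^ 3))
      Ψ.continuous.norm.aestronglyMeasurable (Eventually.of_forall fun u => ?_)
    have h1 := h 0 (-u)
    rw [zero_sub, neg_neg] at h1
    rw [norm_norm]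
    have h2 : wt (-u) = wt u := by unfold wt; rw [norm_neg]
    rwa [h2] at h1
  refine ⟨∫ w, ‖Ψ w‖, integral_nonneg fun _ => norm_nonneg _, fun n y => ?_⟩
  unfold MM
  refine (norm_integral_le_of_norm_le (g := fun u => ‖Ψ (y - u)‖) ?_
    (Eventually.of_forall fun u => norm_sy_smul n u _)).trans (le_of_eq ?_)
  · exact hint.comp_sub_left y
  · exact integral_sub_left_eq_self (fun w => ‖Ψ w‖) volume y

/-- the derivative of a Schwartz function -/
noncomputable def dd (Ψ : 𝓢(ℂ, F)) : 𝓢(ℂ, ℂ →L[ℝ] F) := SchwartzMap.fderivCLM ℝ ℂ F Ψ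

theorem dd_apply (Ψ : 𝓢(ℂ, F)) (w : ℂ) : dd Ψ w = fderiv ℝ Ψ w := rfl

theorem hasFDerivAt_MM [CompleteSpace F] (n : ℕ) (Ψ : 𝓢(ℂ, F)) (y : ℂ) :
    HasFDerivAt (MM n Ψ) (MM n (dd Ψ) y) y := by
  obtain ⟨C, hC, h⟩ := decay_wt (dd Ψ)
  refine hasFDerivAt_integral_of_dominated_of_fderiv_le (s := Metric.ball y 1)
    (F' := fun x u => sy n u • dd Ψ (x - u))
    (bound := fun u => C * (2 + ‖y‖) ^ 3 * wt u) (Metric.ball_mem_nhds y one_pos)
    (Eventually.of_forall fun x => meas n Ψ x) (integ n Ψ y) (meas n (dd Ψ) y)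
    (Eventually.of_forall fun u x hx => ?_) (wt_int.const_mul _)
    (Eventually.of_forall fun u x _ => ?_)
  · refine (norm_sy_smul n u _).trans ((h x u).trans ?_)
    have hx' : ‖x - y‖ < 1 := by rw [← dist_eq_norm]; exact hx
    have h1 : ‖x‖ ≤ 1 + ‖y‖ := by
      calc ‖x‖ = ‖(x - y) + y‖ := by congr 1; ring
        _ ≤ ‖x - y‖ + ‖y‖ := norm_add_le _ _
        _ ≤ 1 + ‖y‖ := by linarith
    have h2 : 0 ≤ wt u := by unfold wt; positivity
    refine mul_le_mul_of_nonneg_right (mul_le_mul_of_nonneg_left ?_ hC) h2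
    exact pow_le_pow_left₀ (by positivity) (by linarith) 3
  · have h1 : HasFDerivAt (fun x : ℂ => Ψ (x - u)) (fderiv ℝ Ψ (x - u)) x := by
      have h2 := (Ψ.hasFDerivAt (x - u)).comp x ((hasFDerivAt_id x).sub_const u)
      rw [ContinuousLinearMap.comp_id] at h2
      exact h2
    exact h1.const_smul (sy n u)

/-- rotational derivative -/
noncomputable def RR (Ψ : 𝓢(ℂ, F)) : 𝓢(ℂ, F) :=
  SchwartzMap.bilinLeftCLM (ContinuousLinearMap.id ℝ (ℂ →L[ℝ] F))
    (ContinuousLinearMap.mul ℝ ℂ Complex.I).hasTemperateGrowth (dd Ψ)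

theorem RR_apply (Ψ : 𝓢(ℂ, F)) (w : ℂ) : RR Ψ w = fderiv ℝ Ψ w (Complex.I * w) := rfl

/-- the rotation by the angle `t` -/
theorem rot_integral (f : ℂ → F) (t : ℝ) :
    ∫ v, f (Complex.exp ((t : ℂ) * Complex.I) * v) = ∫ u, f u := by
  have h := (rotation (Circle.exp t)).measurePreserving.integral_comp
    (rotation (Circle.exp t)).toHomeomorph.measurableEmbedding f
  simp only [rotation_apply, Circle.coe_exp] at h
  exact h

theorem rot_MM (n : ℕ) (Ψ : 𝓢(ℂ, F)) (y : ℂ) (t : ℝ) :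
    ∫ u, sy n u • Ψ (y - Complex.exp ((t : ℂ) * Complex.I) * u) =
      Complex.exp (2 * Complex.I * n * t) • MM n Ψ y := by
  have h := rot_integral (fun u => sy n (Complex.exp (-((t : ℂ) * Complex.I)) * u) • Ψ (y - u)) t
  have e1 : ∀ v : ℂ, Complex.exp (-((t : ℂ) * Complex.I)) *
      (Complex.exp ((t : ℂ) * Complex.I) * v) = v := by
    intro v
    rw [← mul_assoc, ← Complex.exp_add, neg_add_cancel, Complex.exp_zero, one_mul]
  simp only [e1] at h
  rw [h, MM, ← integral_smul]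
  refine integral_congr_ae (Eventually.of_forall fun u => ?_)
  simp only [sy_mul, sy_exp, mul_smul]

theorem hasDerivAt_rot (n : ℕ) (Ψ : 𝓢(ℂ, F)) (y : ℂ) :
    HasDerivAt (fun t : ℝ => ∫ u, sy n u • Ψ (y - Complex.exp ((t : ℂ) * Complex.I) * u))
      (∫ u, sy n u • (-(fderiv ℝ Ψ (y - u) (Complex.I * u)))) 0 := by
  obtain ⟨C, hC, h⟩ := decay (dd Ψ) 4
  have hcont : ∀ t : ℝ, Continuous fun u : ℂ => Complex.exp ((t : ℂ) * Complex.I) * u :=
    fun t => continuous_const.mul continuous_id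
  have hb : ∀ (t : ℝ) (u : ℂ), ‖Complex.exp ((t : ℂ) * Complex.I) * u‖ = ‖u‖ := by
    intro t u
    rw [norm_mul, Complex.norm_exp_ofReal_mul_I, one_mul]
  have key := hasDerivAt_integral_of_dominated_loc_of_deriv_le (μ := (volume : Measure ℂ))
    (F := fun (t : ℝ) u => sy n u • Ψ (y - Complex.exp ((t : ℂ) * Complex.I) * u))
    (F' := fun (t : ℝ) u => sy n u • (-(fderiv ℝ Ψ (y - Complex.exp ((t : ℂ) * Complex.I) * u)
      (Complex.I * (Complex.exp ((t : ℂ) * Complex.I) * u))))) (x₀ := 0) (s := Set.univ)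
    (bound := fun u => C * (1 + ‖y‖) ^ 4 * wt u) univ_mem
    (Eventually.of_forall fun t => (sy_meas n).aestronglyMeasurable.smul
      (Ψ.continuous.comp (continuous_const.sub (hcont t))).aestronglyMeasurable)
    (by
      have := integ n Ψ y
      simpa using this)
    ((sy_meas n).aestronglyMeasurable.smul (Continuous.aestronglyMeasurable (Continuous.neg
      (((dd Ψ).continuous.comp (continuous_const.sub (hcont 0))).clm_apply
        (continuous_const.mul (hcont 0))))))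
    (Eventually.of_forall fun u t _ => ?_) (wt_int.const_mul _)
    (Eventually.of_forall fun u t _ => ?_)
  · have h2 := key.2
    simpa using h2
  · refine (norm_sy_smul n u _).trans ?_
    rw [norm_neg]
    refine (ContinuousLinearMap.le_opNorm _ _).trans ?_
    rw [norm_mul, Complex.norm_I, one_mul, hb]
    have h1 := h (y - Complex.exp ((t : ℂ) * Complex.I) * u)
    rw [dd_apply] at h1
    have h2 := one_add_le y (Complex.exp ((t : ℂ) * Complex.I) * u)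
    rw [hb] at h2
    have h3 : (1 + ‖u‖) ^ 4 ≤
        ((1 + ‖y‖) * (1 + ‖y - Complex.exp ((t : ℂ) * Complex.I) * u‖)) ^ 4 :=
      pow_le_pow_left₀ (by positivity) h2 4
    rw [wt_eq, ← div_eq_mul_inv, le_div_iff₀ (by positivity)]
    set A := ‖fderiv ℝ Ψ (y - Complex.exp ((t : ℂ) * Complex.I) * u)‖
    calc A * ‖u‖ * (1 + ‖u‖) ^ 3 ≤ A * (1 + ‖u‖) * (1 + ‖u‖) ^ 3 := by
          refine mul_le_mul_of_nonneg_right (mul_le_mul_of_nonneg_left ?_ (norm_nonneg _))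
            (by positivity)
          linarith
      _ = A * (1 + ‖u‖) ^ 4 := by ring
      _ ≤ A * ((1 + ‖y‖) * (1 + ‖y - Complex.exp ((t : ℂ) * Complex.I) * u‖)) ^ 4 :=
          mul_le_mul_of_nonneg_left h3 (norm_nonneg _)
      _ = (A * (1 + ‖y - Complex.exp ((t : ℂ) * Complex.I) * u‖) ^ 4) * (1 + ‖y‖) ^ 4 := by ring
      _ ≤ C * (1 + ‖y‖) ^ 4 := mul_le_mul_of_nonneg_right h1 (by positivity)
  · have h1 : HasDerivAt (fun t : ℝ => y - Complex.exp ((t : ℂ) * Complex.I) * u)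
        (-(Complex.I * (Complex.exp ((t : ℂ) * Complex.I) * u))) t := by
      have h2 : HasDerivAt (fun t : ℝ => (t : ℂ) * Complex.I) (1 * Complex.I) t :=
        (Complex.ofRealCLM.hasDerivAt (x := t)).mul_const Complex.I
      have h3 := ((h2.cexp).mul_const u).const_sub y
      have e : -(Complex.exp ((t : ℂ) * Complex.I) * (1 * Complex.I) * u) =
          -(Complex.I * (Complex.exp ((t : ℂ) * Complex.I) * u)) := by ring
      rw [← e]
      exact h3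
    have h4 := (Ψ.hasFDerivAt (y - Complex.exp ((t : ℂ) * Complex.I) * u)).comp_hasDerivAt t h1
    rw [map_neg] at h4
    exact h4.const_smul (sy n u)

/-- the basic identity -/
theorem identity [CompleteSpace F] (n : ℕ) (Ψ : 𝓢(ℂ, F)) (y : ℂ) :
    (2 * Complex.I * n : ℂ) • MM n Ψ y = MM n (RR Ψ) y - (MM n (dd Ψ) y) (Complex.I * y) := by
  have h1 := hasDerivAt_rot n Ψ y
  have h2 : HasDerivAt (fun t : ℝ => Complex.exp (2 * Complex.I * n * t) • MM n Ψ y)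
      ((2 * Complex.I * n : ℂ) • MM n Ψ y) 0 := by
    have h3 : HasDerivAt (fun t : ℝ => 2 * Complex.I * n * (t : ℂ)) (2 * Complex.I * n * 1) 0 :=
      (Complex.ofRealCLM.hasDerivAt (x := (0 : ℝ))).const_mul (2 * Complex.I * n)
    have h4 := (h3.cexp).smul_const (MM n Ψ y)
    simpa using h4
  have h5 : (fun t : ℝ => ∫ u, sy n u • Ψ (y - Complex.exp ((t : ℂ) * Complex.I) * u)) =
      fun t : ℝ => Complex.exp (2 * Complex.I * n * t) • MM n Ψ y := by
    funext t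
    exact rot_MM n Ψ y t
  rw [h5] at h1
  rw [h2.unique h1]
  have h6 : (MM n (dd Ψ) y) (Complex.I * y) = ∫ u, sy n u • (dd Ψ (y - u) (Complex.I * y)) := by
    rw [MM, ContinuousLinearMap.integral_apply (integ n (dd Ψ) y)]
    rfl
  have h7 : Integrable fun u => sy n u • (dd Ψ (y - u) (Complex.I * y)) :=
    (integ n (dd Ψ) y).apply_continuousLinearMap (Complex.I * y)
  rw [h6, MM, ← integral_sub (integ n (RR Ψ) y) h7]
  refine integral_congr_ae (Eventually.of_forall fun u => ?_)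
  simp only
  rw [RR_apply, dd_apply, ← smul_sub, ← map_sub, ← map_neg]
  congr 2
  ring

/-- the decay -/
theorem MM_decay (j : ℕ) : ∀ (F : Type) [NormedAddCommGroup F] [NormedSpace ℝ F] [NormedSpace ℂ F]
    [SMulCommClass ℝ ℂ F] [CompleteSpace F] (Ψ : 𝓢(ℂ, F)), ∃ C : ℝ, 0 ≤ C ∧
    ∀ (n : ℕ) (y : ℂ), 1 ≤ n → ‖MM n Ψ y‖ ≤ C * ((1 + ‖y‖) / n) ^ j := by
  induction j with
  | zero =>
    intro F _ _ _ _ _ Ψ
    obtain ⟨C, hC, h⟩ := MM_bound Ψ
    exact ⟨C, hC, fun n y _ => by rw [pow_zero, mul_one]; exact h n y⟩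
  | succ j ih =>
    intro F _ _ _ _ _ Ψ
    obtain ⟨C₁, hC₁, h₁⟩ := ih F (RR Ψ)
    obtain ⟨C₂, hC₂, h₂⟩ := ih (ℂ →L[ℝ] F) (dd Ψ)
    refine ⟨C₁ + C₂, by positivity, fun n y hn => ?_⟩
    have hn' : (0 : ℝ) < n := by exact_mod_cast hn
    have h3 := congrArg norm (identity n Ψ y)
    rw [norm_smul] at h3
    have e : ‖(2 * Complex.I * n : ℂ)‖ = 2 * n := by simp
    rw [e] at h3
    have h4 : ‖MM n (RR Ψ) y - (MM n (dd Ψ) y) (Complex.I * y)‖ ≤
        C₁ * ((1 + ‖y‖) / n) ^ j + C₂ * ((1 + ‖y‖) / n) ^ j * ‖y‖ := by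
      refine (norm_sub_le _ _).trans (add_le_add (h₁ n y hn) ?_)
      refine (ContinuousLinearMap.le_opNorm _ _).trans ?_
      rw [norm_mul, Complex.norm_I, one_mul]
      exact mul_le_mul_of_nonneg_right (h₂ n y hn) (norm_nonneg _)
    rw [← h3] at h4
    have hP : 0 ≤ ((1 + ‖y‖) / n) ^ j := by positivity
    have h5 : 2 * n * ‖MM n Ψ y‖ ≤ (C₁ + C₂) * (1 + ‖y‖) * ((1 + ‖y‖) / n) ^ j := by
      refine h4.trans ?_
      nlinarith [mul_nonneg (mul_nonneg hC₁ (norm_nonneg y)) hP, mul_nonneg hC₂ hP]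
    have h6 : n * ‖MM n Ψ y‖ ≤ (C₁ + C₂) * (1 + ‖y‖) * ((1 + ‖y‖) / n) ^ j := by
      have : 0 ≤ n * ‖MM n Ψ y‖ := by positivity
      linarith
    rw [pow_succ]
    calc ‖MM n Ψ y‖ = (n * ‖MM n Ψ y‖) / n := by field_simp
      _ ≤ ((C₁ + C₂) * (1 + ‖y‖) * ((1 + ‖y‖) / n) ^ j) / n :=
          div_le_div_of_nonneg_right h6 hn'.le
      _ = (C₁ + C₂) * (((1 + ‖y‖) / n) ^ j * ((1 + ‖y‖) / n)) := by ring

theorem fderiv_MM [CompleteSpace F] (n : ℕ) (Ψ : 𝓢(ℂ, F)) :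
    fderiv ℝ (MM n Ψ) = MM n (dd Ψ) := by
  funext y
  exact (hasFDerivAt_MM n Ψ y).fderiv

theorem contDiff_nat (n m : ℕ) : ∀ (F : Type) [NormedAddCommGroup F] [NormedSpace ℝ F]
    [NormedSpace ℂ F] [SMulCommClass ℝ ℂ F] [CompleteSpace F] (Ψ : 𝓢(ℂ, F)),
    ContDiff ℝ m (MM n Ψ) := by
  induction m with
  | zero =>
    intro F _ _ _ _ _ Ψ
    rw [Nat.cast_zero, contDiff_zero]
    exact continuous_iff_continuousAt.2 fun y => (hasFDerivAt_MM n Ψ y).continuousAt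
  | succ m ih =>
    intro F _ _ _ _ _ Ψ
    rw [Nat.cast_succ, contDiff_succ_iff_fderiv]
    refine ⟨fun y => (hasFDerivAt_MM n Ψ y).differentiableAt, fun h => ?_, ?_⟩
    · exact absurd h (by simp)
    · rw [fderiv_MM]
      exact ih (ℂ →L[ℝ] F) (dd Ψ)

theorem contDiff_MM [CompleteSpace F] (n : ℕ) (Ψ : 𝓢(ℂ, F)) : ContDiff ℝ ∞ (MM n Ψ) :=
  contDiff_infty.2 fun m => contDiff_nat n m F Ψ

theorem iter_decay (j k : ℕ) : ∀ (F : Type) [NormedAddCommGroup F] [NormedSpace ℝ F]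
    [NormedSpace ℂ F] [SMulCommClass ℝ ℂ F] [CompleteSpace F] (Ψ : 𝓢(ℂ, F)), ∃ C : ℝ, 0 ≤ C ∧
    ∀ (n : ℕ) (y : ℂ), 1 ≤ n → ‖iteratedFDeriv ℝ k (MM n Ψ) y‖ ≤ C * ((1 + ‖y‖) / n) ^ j := by
  induction k with
  | zero =>
    intro F _ _ _ _ _ Ψ
    obtain ⟨C, hC, h⟩ := MM_decay j F Ψ
    exact ⟨C, hC, fun n y hn => by rw [norm_iteratedFDeriv_zero]; exact h n y hn⟩
  | succ k ih =>
    intro F _ _ _ _ _ Ψ
    obtain ⟨C, hC, h⟩ := ih (ℂ →L[ℝ] F) (dd Ψ)
    refine ⟨C, hC, fun n y hn => ?_⟩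
    rw [← norm_iteratedFDeriv_fderiv, fderiv_MM]
    exact h n y hn

end vec

/-! ### the Fourier transform of the cut-off function -/

theorem exists_schwartz {Θ : ℂ → ℝ} (h : Cap Θ) : ∃ Φ : 𝓢(ℂ, ℂ), ∀ ζ, Φ ζ = Ft Θ ζ := by
  have h1 : ContDiff ℝ ∞ (fun x => (Θ x : ℂ)) := Complex.ofRealCLM.contDiff.comp h.1
  have h2 : HasCompactSupport (fun x => (Θ x : ℂ)) := by
    refine HasCompactSupport.intro (isCompact_closedBall (0 : ℂ) 2) fun x hx => ?_
    rw [Metric.mem_closedBall, dist_zero_right, not_le] at hx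
    rw [h.2.2.2 x hx.le, Complex.ofReal_zero]
  refine ⟨𝓕 (h2.toSchwartzMap h1), fun ζ => ?_⟩
  rw [SchwartzMap.fourier_coe, Real.fourier_eq']
  unfold Ft e2
  refine integral_congr_ae (Eventually.of_forall fun x => ?_)
  simp only
  rw [smul_eq_mul, ← Complex.exp_conj]
  congr 2
  rw [Complex.inner, map_mul, map_mul, map_mul, Complex.conj_ofReal, Complex.conj_ofReal,
    Complex.conj_I, map_ofNat]
  have e : (ζ * (starRingEnd ℂ) x).re = x.re * ζ.re + x.im * ζ.im := by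
    rw [Complex.mul_re, Complex.conj_re, Complex.conj_im]
    ring
  rw [e]
  push_cast
  ring

theorem mu_eq {Θ : ℂ → ℝ} {Φ : 𝓢(ℂ, ℂ)} (h : ∀ ζ, Φ ζ = Ft Θ ζ) (n : ℕ) (s : ℝ) (hs : 0 < s)
    (ξ : ℂ) : mu n Θ s ξ = MM n Φ (s * ξ) := by
  have hs' : (s : ℂ) ≠ 0 := by exact_mod_cast hs.ne'
  have e1 : ∀ η : ℂ, sy n (ξ - (s : ℂ)⁻¹ * η) = sy n (s * ξ - η) := by
    intro η
    have : (s : ℂ) * ξ - η = s * (ξ - (s : ℂ)⁻¹ * η) := by
      field_simp
    rw [this, sy_mul, sy_real n s hs, one_mul]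
  have h1 := Measure.integral_comp_smul (volume : Measure ℂ)
    (fun η : ℂ => Φ η * sy n (s * ξ - η)) s
  have h2 : ∀ ζ : ℂ, ((s : ℂ) ^ 2 * Ft Θ ((s : ℂ) * ζ)) * sy n (ξ - ζ) =
      (s : ℂ) ^ 2 * (Φ (s • ζ) * sy n (s * ξ - s • ζ)) := by
    intro ζ
    rw [← h, ← e1, Complex.real_smul, ← mul_assoc (s : ℂ)⁻¹, inv_mul_cancel₀ hs', one_mul, mul_assoc]
  unfold mu
  simp only [h2]
  rw [integral_const_mul, h1, Complex.finrank_real_complex, abs_of_pos (by positivity),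
    Complex.real_smul]
  have h3 : (s : ℂ) ^ 2 * ((((s ^ 2)⁻¹ : ℝ) : ℂ) * ∫ η : ℂ, Φ η * sy n (s * ξ - η)) =
      ∫ η : ℂ, Φ η * sy n (s * ξ - η) := by
    push_cast
    field_simp
  rw [h3, ← integral_sub_left_eq_self _ volume ((s : ℂ) * ξ)]
  unfold MM
  refine integral_congr_ae (Eventually.of_forall fun u => ?_)
  simp only
  rw [_root_.sub_sub_cancel, smul_eq_mul, mul_comm]

/-- NEA: the part of the kernel near the origin does not see the frequencies `‖ξ‖ ≤ 2 b` -/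
theorem t : Pool.Agent.N892.BW.S_NEA := by
  intro Θ hΘ
  obtain ⟨Φ, hΦ⟩ := exists_schwartz hΘ
  have hmu : ∀ (n : ℕ) (s : ℝ), 0 < s →
      mu n Θ s = MM n Φ ∘ (ContinuousLinearMap.mul ℝ ℂ (s : ℂ)) := by
    intro n s hs
    funext ξ
    exact mu_eq hΦ n s hs ξ
  refine ⟨fun n s hs => ?_, fun N => ?_⟩
  · rw [hmu n s hs]
    exact (contDiff_MM n Φ).comp (ContinuousLinearMap.contDiff _)
  · choose C hC hCb using fun k => iter_decay (100 * N) k ℂ Φ
    refine ⟨(∑ k ∈ Finset.range 5, C k) * 3 ^ (100 * N), mul_nonneg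
      (Finset.sum_nonneg fun k _ => hC k) (by positivity), ?_⟩
    intro n a b hn ha hab _ k hk ξ hξ
    have hn' : (1 : ℝ) ≤ n := by exact_mod_cast hn
    have hn0 : (0 : ℝ) < n := by linarith
    have hb : 0 < b := by linarith
    set q : ℝ := (n : ℝ) ^ (99 / 100 : ℝ) with hq
    have hq0 : 0 < q := Real.rpow_pos_of_pos hn0 _
    have hq1 : 1 ≤ q := Real.one_le_rpow hn' (by norm_num)
    have hqn : q ≤ n := by
      calc q ≤ (n : ℝ) ^ (1 : ℝ) := Real.rpow_le_rpow_of_exponent_le hn' (by norm_num)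
        _ = n := Real.rpow_one _
    have hs : 0 < q / b := by positivity
    rw [hmu n _ hs, ContinuousLinearMap.iteratedFDeriv_comp_right _ (contDiff_MM n Φ) ξ
      (by exact_mod_cast le_top)]
    refine (ContinuousMultilinearMap.norm_compContinuousLinearMap_le _ _).trans ?_
    rw [Finset.prod_const, Finset.card_univ, Fintype.card_fin]
    set y : ℂ := (ContinuousLinearMap.mul ℝ ℂ ((q / b : ℝ) : ℂ)) ξ with hy
    have hyn : ‖y‖ ≤ 2 * q := by
      have : y = ((q / b : ℝ) : ℂ) * ξ := rfl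
      rw [this, norm_mul, Complex.norm_real, Real.norm_eq_abs, abs_of_pos hs]
      calc q / b * ‖ξ‖ ≤ q / b * (2 * b) := mul_le_mul_of_nonneg_left hξ hs.le
        _ = 2 * q := by field_simp
    have hL : ‖ContinuousLinearMap.mul ℝ ℂ ((q / b : ℝ) : ℂ)‖ ≤ (n : ℝ) ^ 2 / a := by
      refine (ContinuousLinearMap.opNorm_mul_apply_le ℝ ℂ _).trans ?_
      rw [Complex.norm_real, Real.norm_eq_abs, abs_of_pos hs]
      exact div_le_div₀ (by positivity) (by nlinarith) ha hab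
    have h1 := hCb k n y hn
    have h2 : ((1 + ‖y‖) / n) ^ (100 * N) ≤ 3 ^ (100 * N) * ((n : ℝ) ^ N)⁻¹ := by
      have h3 : (1 + ‖y‖) / n ≤ 3 * (q / n) := by
        rw [← mul_div_assoc]
        exact div_le_div_of_nonneg_right (by linarith) hn0.le
      have h4 : (q / n) ^ (100 * N) = ((n : ℝ) ^ N)⁻¹ := by
        have h5 : (q / n) ^ 100 = (n : ℝ)⁻¹ := by
          have h6 : q ^ 100 = (n : ℝ) ^ 99 := by
            rw [hq, ← Real.rpow_natCast, ← Real.rpow_mul hn0.le]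
            norm_num
          rw [div_pow, h6]
          field_simp
        rw [pow_mul, h5, inv_pow]
      calc ((1 + ‖y‖) / n) ^ (100 * N) ≤ (3 * (q / n)) ^ (100 * N) :=
            pow_le_pow_left₀ (by positivity) h3 _
        _ = 3 ^ (100 * N) * ((n : ℝ) ^ N)⁻¹ := by rw [mul_pow, h4]
    have h7 : C k ≤ ∑ k ∈ Finset.range 5, C k :=
      Finset.single_le_sum (fun k _ => hC k) (Finset.mem_range.2 (by omega))
    have h8 : ‖iteratedFDeriv ℝ k (MM n Φ) y‖ ≤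
        (∑ k ∈ Finset.range 5, C k) * 3 ^ (100 * N) * ((n : ℝ) ^ N)⁻¹ := by
      refine h1.trans ?_
      calc C k * ((1 + ‖y‖) / n) ^ (100 * N) ≤
            (∑ k ∈ Finset.range 5, C k) * (3 ^ (100 * N) * ((n : ℝ) ^ N)⁻¹) :=
            mul_le_mul h7 h2 (by positivity) (Finset.sum_nonneg fun k _ => hC k)
        _ = _ := by ring
    refine mul_le_mul h8 (pow_le_pow_left₀ (norm_nonneg _) hL k) (by positivity) ?_
    exact mul_nonneg (mul_nonneg (Finset.sum_nonneg fun k _ => hC k) (by positivity))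
      (by positivity)

end Pool.Agent.N892.BW.NEA
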