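import Pool.Agent.N892.BW.Stm4
import Pool.Agent.N892.BW.GAM

/-!
Project BW (helper892), part NUI: the numerical inequality for quotients of Gamma values.
-/

set_option autoImplicit false

open Filter Topology Finset

namespace Pool.Agent.N892.BW.NUI

open Pool.Agent.N892.BW.GAM

lemma tt_anti {x : ℝ} (h0 : 0 < x) (h1 : x < 1 / 2) {N n : ℕ} (hN : 1 ≤ N) (hn : N ≤ n) :
    tt x n ≤ tt x N := by
  induction n, hn using Nat.le_induction with
  | base => exact le_rfl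
  | succ n hn ih => exact (tt_succ_lt h0 h1 (n := n) (by omega)).le.trans ih

lemma gs_le {x : ℝ} (h0 : 0 < x) (h1 : x < 1 / 2) {N : ℕ} (hN : 1 ≤ N) : Gs x ≤ tt x N := by
  have hlim : Tendsto (fun n : ℕ => Real.GammaSeq x n / Real.GammaSeq (1 - x) n) atTop
      (𝓝 (Real.Gamma x / Real.Gamma (1 - x))) :=
    (Real.GammaSeq_tendsto_Gamma x).div (Real.GammaSeq_tendsto_Gamma (1 - x))
      (Real.Gamma_pos_of_pos (by linarith)).ne'
  have hlim2 : Tendsto (fun n : ℕ => tt x N * (1 + 1 / (n : ℝ)) ^ (1 - 2 * x)) atTop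
      (𝓝 (tt x N * (1 + 0) ^ (1 - 2 * x))) := by
    refine Tendsto.const_mul _ ?_
    refine Tendsto.rpow_const ?_ (Or.inl (by norm_num))
    exact tendsto_const_nhds.add tendsto_one_div_atTop_nhds_zero_nat
  rw [add_zero, Real.one_rpow, mul_one] at hlim2
  refine le_of_tendsto_of_tendsto hlim hlim2 ?_
  filter_upwards [eventually_ge_atTop N] with n hnN
  have hn : 1 ≤ n := hN.trans hnN
  have hn0 : (1 : ℝ) ≤ n := by exact_mod_cast hn
  have hnp : (0 : ℝ) < n := by linarith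
  have hp2 : 0 < (n : ℝ) ^ (1 - 2 * x) := Real.rpow_pos_of_pos hnp _
  have hp1 : 0 < ((n : ℝ) + 1) ^ (1 - 2 * x) := Real.rpow_pos_of_pos (by linarith) _
  have e1 : Real.GammaSeq x n / Real.GammaSeq (1 - x) n = s x (n + 1) / (n : ℝ) ^ (1 - 2 * x) := by
    unfold Real.GammaSeq s
    rw [Finset.prod_div_distrib]
    have hq1 : 0 < ∏ j ∈ range (n + 1), (x + (j : ℝ)) :=
      Finset.prod_pos fun j _ => by positivity
    have hq2 : 0 < ∏ j ∈ range (n + 1), (1 - x + (j : ℝ)) :=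
      Finset.prod_pos fun j _ => by
        have : (0 : ℝ) ≤ j := Nat.cast_nonneg j
        linarith
    have hf : (0 : ℝ) < (n.factorial : ℝ) := by exact_mod_cast Nat.factorial_pos n
    have e3 : (n : ℝ) ^ (1 - x) = (n : ℝ) ^ x * (n : ℝ) ^ (1 - 2 * x) := by
      rw [← Real.rpow_add hnp]
      congr 1
      ring
    have hp3 : 0 < (n : ℝ) ^ x := Real.rpow_pos_of_pos hnp _
    rw [e3]
    field_simp
  have e2 : s x (n + 1) / (n : ℝ) ^ (1 - 2 * x) =
      tt x (n + 1) * (1 + 1 / (n : ℝ)) ^ (1 - 2 * x) := by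
    have e4 : 1 + 1 / (n : ℝ) = ((n : ℝ) + 1) / n := by field_simp
    rw [e4, Real.div_rpow (by linarith) hnp.le]
    unfold tt
    push_cast
    field_simp
  rw [e1, e2]
  have h3 : tt x (n + 1) ≤ tt x N := tt_anti h0 h1 hN (by omega)
  have h4 : 0 ≤ (1 + 1 / (n : ℝ)) ^ (1 - 2 * x) := Real.rpow_nonneg (by positivity) _
  exact mul_le_mul_of_nonneg_right h3 h4

/-- the first two terms of the series of the logarithmic differences -/
noncomputable def E (u c : ℝ) : ℝ := 2 / 3 * c ^ 3 * (u - u ^ 3) + 2 / 5 * c ^ 5 * (u - u ^ 5)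

lemma log_ratio {u c : ℝ} (hu0 : 0 ≤ u) (hu1 : u ≤ 1) (hc0 : 0 < c) (hc1 : c < 1) :
    Real.log ((1 + u * c) / (1 - u * c)) + E u c ≤ u * Real.log ((1 + c) / (1 - c)) := by
  have h0 : 0 ≤ u * c := by positivity
  have h1 : u * c < 1 := by nlinarith
  rw [Real.log_div (by linarith) (by linarith), Real.log_div (by linarith) (by linarith)]
  have hs1 := Real.hasSum_log_sub_log_of_abs_lt_one (x := u * c) (by rw [abs_of_nonneg h0]; exact h1)
  have hs2 := (Real.hasSum_log_sub_log_of_abs_lt_one (x := c)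
    (by rw [abs_of_pos hc0]; exact hc1)).mul_left u
  have hs := hs2.sub hs1
  have h3 := sum_le_hasSum (Finset.range 3) (fun k _ => ?_) hs
  · rw [Finset.sum_range_succ, Finset.sum_range_succ, Finset.sum_range_one] at h3
    unfold E
    norm_num at h3
    nlinarith [h3]
  · show 0 ≤ u * ((2 : ℝ) * (1 / (2 * k + 1)) * c ^ (2 * k + 1)) -
      (2 : ℝ) * (1 / (2 * k + 1)) * (u * c) ^ (2 * k + 1)
    have h2 : u ^ (2 * k + 1) ≤ u := pow_le_of_le_one hu0 hu1 (by omega)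
    rw [mul_pow]
    have h4 : (2 : ℝ) * (1 / (2 * k + 1)) * (u ^ (2 * k + 1) * c ^ (2 * k + 1))
        ≤ (2 : ℝ) * (1 / (2 * k + 1)) * (u * c ^ (2 * k + 1)) := by gcongr
    linarith [h4, (by ring : (2 : ℝ) * (1 / (2 * k + 1)) * (u * c ^ (2 * k + 1)) =
      u * ((2 : ℝ) * (1 / (2 * k + 1)) * c ^ (2 * k + 1)))]

lemma tt_succ_le {x : ℝ} (h0 : 0 < x) (h1 : x < 1 / 2) {n : ℕ} (hn : 1 ≤ n) :
    tt x (n + 1) ≤ tt x n * Real.exp (-E (1 - 2 * x) (1 / (2 * n + 1))) := by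
  have hn0 : (1 : ℝ) ≤ n := by exact_mod_cast hn
  have hlog := log_ratio (u := 1 - 2 * x) (c := 1 / (2 * n + 1)) (by linarith)
    (by linarith) (by positivity) (by rw [div_lt_one (by positivity)]; linarith)
  have e1 : (1 + (1 - 2 * x) * (1 / (2 * (n : ℝ) + 1))) / (1 - (1 - 2 * x) * (1 / (2 * n + 1))) =
      (1 - x + n) / (x + n) := by
    have h5 : (1 - (1 - 2 * x) * (1 / (2 * (n : ℝ) + 1))) = 2 * (x + n) / (2 * n + 1) := by
      field_simp
      ring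
    have h6 : (1 + (1 - 2 * x) * (1 / (2 * (n : ℝ) + 1))) = 2 * (1 - x + n) / (2 * n + 1) := by
      field_simp
      ring
    rw [h5, h6]
    field_simp
  have e2 : (1 + 1 / (2 * (n : ℝ) + 1)) / (1 - 1 / (2 * n + 1)) = ((n : ℝ) + 1) / n := by
    have h5 : (1 - (1 / (2 * (n : ℝ) + 1))) = 2 * n / (2 * n + 1) := by
      field_simp
      ring
    have h6 : (1 + (1 / (2 * (n : ℝ) + 1))) = 2 * (n + 1) / (2 * n + 1) := by
      field_simp
      ring
    rw [h5, h6]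
    field_simp
  rw [e1, e2] at hlog
  have hA : 0 < (1 - x + n) / (x + (n : ℝ)) := by
    have : 0 < 1 - x + (n : ℝ) := by linarith
    positivity
  have hB : 0 < ((n : ℝ) + 1) / n := by positivity
  set e : ℝ := E (1 - 2 * x) (1 / (2 * n + 1)) with he
  have h2 : (1 - x + n) / (x + (n : ℝ)) ≤ (((n : ℝ) + 1) / n) ^ (1 - 2 * x) * Real.exp (-e) := by
    have hP : 0 < (((n : ℝ) + 1) / n) ^ (1 - 2 * x) := Real.rpow_pos_of_pos hB _
    rw [← Real.log_le_log_iff hA (by positivity), Real.log_mul hP.ne' (Real.exp_pos _).ne',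
      Real.log_rpow hB, Real.log_exp]
    linarith
  rw [Real.div_rpow (by linarith) (by linarith)] at h2
  have hp1 : 0 < ((n : ℝ) + 1) ^ (1 - 2 * x) := Real.rpow_pos_of_pos (by linarith) _
  have hp2 : 0 < (n : ℝ) ^ (1 - 2 * x) := Real.rpow_pos_of_pos (by linarith) _
  have hs := s_pos h0 h1 n
  unfold tt
  have hs1 : s x (n + 1) = s x n * ((1 - x + n) / (x + n)) := by
    unfold s
    rw [Finset.prod_range_succ]
  rw [hs1]
  push_cast
  rw [div_le_iff₀ hp1]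
  calc s x n * ((1 - x + n) / (x + n))
      ≤ s x n * (((n : ℝ) + 1) ^ (1 - 2 * x) / (n : ℝ) ^ (1 - 2 * x) * Real.exp (-e)) := by gcongr
    _ = s x n / (n : ℝ) ^ (1 - 2 * x) * Real.exp (-e) * ((n : ℝ) + 1) ^ (1 - 2 * x) := by
        field_simp

lemma tt_le_exp {x : ℝ} (h0 : 0 < x) (h1 : x < 1 / 2) (n : ℕ) :
    tt x (n + 1) ≤ (1 - x) / x *
      Real.exp (-∑ k ∈ range n, E (1 - 2 * x) (1 / (2 * ((k : ℝ) + 1) + 1))) := by
  induction n with
  | zero =>
    unfold tt s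
    rw [Finset.prod_range_one]
    simp
  | succ n ih =>
    rw [Finset.sum_range_succ, neg_add, Real.exp_add, ← mul_assoc]
    have h2 := tt_succ_le h0 h1 (n := n + 1) (by omega)
    push_cast at h2
    refine h2.trans ?_
    exact mul_le_mul_of_nonneg_right ih (Real.exp_pos _).le

/-- the lower bound for the sum of the first ten differences -/
noncomputable def P (u : ℝ) : ℝ := 3418 / 100000 * (u - u ^ 3) + 1808 / 1000000 * (u - u ^ 5)

lemma P_le {u : ℝ} (hu0 : 0 ≤ u) (hu1 : u ≤ 1) :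
    P u ≤ ∑ k ∈ range 10, E u (1 / (2 * ((k : ℝ) + 1) + 1)) := by
  have h3 : 0 ≤ u - u ^ 3 := by
    have := pow_le_of_le_one hu0 hu1 (n := 3) (by omega)
    linarith
  have h5 : 0 ≤ u - u ^ 5 := by
    have := pow_le_of_le_one hu0 hu1 (n := 5) (by omega)
    linarith
  unfold P E
  generalize u - u ^ 3 = X at *
  generalize u - u ^ 5 = Y at *
  simp only [Finset.sum_range_succ, Finset.sum_range_zero]
  norm_num
  linarith

lemma gs_le_exp {x : ℝ} (h0 : 0 < x) (h1 : x < 1 / 2) :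
    Gs x ≤ (1 - x) / x * Real.exp (-P (1 - 2 * x)) := by
  have h2 := gs_le h0 h1 (N := 11) (by norm_num)
  have h3 := tt_le_exp h0 h1 10
  have h4 := P_le (u := 1 - 2 * x) (by linarith) (by linarith)
  refine (h2.trans h3).trans ?_
  have : 0 < (1 - x) / x := by
    have : 0 < 1 - x := by linarith
    positivity
  gcongr

lemma ga_eq (m : ℕ) : GA m = Gs (1 / (2 * (m : ℝ))) := rfl

/-- the reduction to an inequality for logarithms -/
lemma key (hG : S_GLC) (m : ℕ) (hm : 1 ≤ m) (p t : ℝ) (hp : 2 < p) (ht0 : 0 ≤ t) (ht1 : t ≤ 1)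
    (hs : 1 / p = (1 + t / m) / (2 * (m + 1)))
    (hR : Real.log (1 + t / m) - t * Real.log (1 + 1 / m) < P (1 - 2 / p)) :
    ∃ (m : ℕ) (θ : ℝ), 1 ≤ m ∧ 0 ≤ θ ∧ θ ≤ 1 ∧ 1 / p = (1 - θ) / (2 * m) + θ / (2 * (m + 1)) ∧
      GA m ^ (1 - θ) * GA (m + 1) ^ θ < p - 1 := by
  have hm0 : (1 : ℝ) ≤ m := by exact_mod_cast hm
  have hmp : (0 : ℝ) < m := by linarith
  have hp0 : 0 < p := by linarith
  have hs0 : (0 : ℝ) < 1 / p := by positivity
  have hs1 : 1 / p < 1 / 2 := by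
    rw [div_lt_div_iff₀ hp0 (by norm_num)]
    linarith
  have hst : (1 - (1 - t)) * (1 / (2 * (m : ℝ))) + (1 - t) * (1 / (2 * (m + 1))) = 1 / p := by
    rw [hs]
    field_simp
    ring
  refine ⟨m, 1 - t, hm, by linarith, by linarith, ?_, ?_⟩
  · rw [← hst]
    ring
  have h1 := hG (1 / (2 * (m : ℝ))) (1 / (2 * ((m : ℝ) + 1))) (1 - t) (by positivity) (by gcongr; linarith)
    (by gcongr; linarith) (by linarith) (by linarith)
  rw [hst] at h1
  rw [ga_eq, ga_eq]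
  push_cast
  refine lt_of_le_of_lt h1 ?_
  have h2 := gs_le_exp hs0 hs1
  have e0 : (1 - 1 / p) / (1 / p) = p - 1 := by field_simp
  have e1 : 1 - 2 * (1 / p) = 1 - 2 / p := by ring
  rw [e0, e1] at h2
  have hpp : 0 < p - 1 := by linarith
  have h3 : 1 / p / ((1 / (2 * (m : ℝ))) ^ (1 - (1 - t)) * (1 / (2 * ((m : ℝ) + 1))) ^ (1 - t)) =
      Real.exp (Real.log (1 + t / m) - t * Real.log (1 + 1 / m)) := by
    have hr : 0 < 1 + 1 / (m : ℝ) := by positivity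
    have hr2 : 0 < 1 + t / (m : ℝ) := by positivity
    rw [Real.exp_sub, Real.exp_log hr2, mul_comm t, Real.exp_mul, Real.exp_log hr]
    have hb : (0 : ℝ) < 1 / (2 * ((m : ℝ) + 1)) := by positivity
    have e2 : 1 / (2 * (m : ℝ)) = (1 + 1 / m) * (1 / (2 * ((m : ℝ) + 1))) := by
      field_simp
    rw [e2, Real.mul_rpow hr.le hb.le, mul_assoc, ← Real.rpow_add hb]
    have e3 : 1 - (1 - t) + (1 - t) = 1 := by ring
    have e4 : 1 - (1 - t) = t := by ring
    rw [e3, e4, Real.rpow_one, hs]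
    have hrt : 0 < (1 + 1 / (m : ℝ)) ^ t := Real.rpow_pos_of_pos hr _
    field_simp
  rw [h3]
  calc Gs (1 / p) * Real.exp (Real.log (1 + t / m) - t * Real.log (1 + 1 / m))
      ≤ ((p - 1) * Real.exp (-P (1 - 2 / p))) *
        Real.exp (Real.log (1 + t / m) - t * Real.log (1 + 1 / m)) := by gcongr
    _ = (p - 1) * Real.exp (-P (1 - 2 / p) + (Real.log (1 + t / m) - t * Real.log (1 + 1 / m))) := by
        rw [mul_assoc, ← Real.exp_add]
    _ < (p - 1) * 1 := by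
        gcongr
        rw [Real.exp_lt_one_iff]
        linarith
    _ = p - 1 := mul_one _

/-- every `p` between `2 m` and `2 (m + 1)` -/
lemma key2 (hG : S_GLC) (m : ℕ) (hm : 1 ≤ m) (p : ℝ) (hp : 2 < p) (h1 : 2 * (m : ℝ) ≤ p)
    (h2 : p ≤ 2 * ((m : ℝ) + 1))
    (hR : ∀ t : ℝ, 0 ≤ t → t ≤ 1 → t = m * (2 * ((m : ℝ) + 1) / p - 1) →
      1 + t / m = 2 * ((m : ℝ) + 1) / p →
      Real.log (1 + t / m) - t * Real.log (1 + 1 / m) < P (1 - 2 / p)) :
    ∃ (m : ℕ) (θ : ℝ), 1 ≤ m ∧ 0 ≤ θ ∧ θ ≤ 1 ∧ 1 / p = (1 - θ) / (2 * m) + θ / (2 * (m + 1)) ∧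
      GA m ^ (1 - θ) * GA (m + 1) ^ θ < p - 1 := by
  have hm0 : (1 : ℝ) ≤ m := by exact_mod_cast hm
  have hmp : (0 : ℝ) < m := by linarith
  have hp0 : 0 < p := by linarith
  set t : ℝ := m * (2 * ((m : ℝ) + 1) / p - 1) with ht
  have e1 : 1 + t / m = 2 * ((m : ℝ) + 1) / p := by
    rw [ht]
    field_simp
    ring
  have h3 : 1 ≤ 2 * ((m : ℝ) + 1) / p := by
    rw [le_div_iff₀ hp0]
    linarith
  have ht0 : 0 ≤ t := by
    rw [ht]
    exact mul_nonneg hmp.le (by linarith)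
  have ht1 : t ≤ 1 := by
    rw [ht]
    have h4 : 2 * ((m : ℝ) + 1) / p ≤ 2 * ((m : ℝ) + 1) / (2 * m) := by gcongr
    have h5 : m * (2 * ((m : ℝ) + 1) / (2 * m) - 1) = 1 := by
      field_simp
      ring
    calc m * (2 * ((m : ℝ) + 1) / p - 1) ≤ m * (2 * ((m : ℝ) + 1) / (2 * m) - 1) := by gcongr
      _ = 1 := h5
  refine key hG m hm p t hp ht0 ht1 ?_ (hR t ht0 ht1 rfl e1)
  rw [e1]
  field_simp

/-- the logarithmic form of the inequality of Hoeffding -/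
lemma hoe_log (hH : S_HOE) (m : ℕ) (hm : 1 ≤ m) (t : ℝ) (ht0 : 0 ≤ t) (ht1 : t ≤ 1) :
    Real.log (1 + t / m) - t * Real.log (1 + 1 / m) ≤ Real.log (1 + 1 / m) ^ 2 / 8 := by
  have hm0 : (1 : ℝ) ≤ m := by exact_mod_cast hm
  have hmp : (0 : ℝ) < m := by linarith
  have hr0 : (0 : ℝ) < 1 / m := by positivity
  have hr : 0 < 1 + 1 / (m : ℝ) := by positivity
  have hr2 : 0 < 1 + t / (m : ℝ) := by positivity
  have h1 := hH (1 + 1 / m) t (by linarith) ht0 ht1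
  have e1 : 1 + t * (1 + 1 / (m : ℝ) - 1) = 1 + t / m := by ring
  rw [e1] at h1
  have hrt : 0 < (1 + 1 / (m : ℝ)) ^ t := Real.rpow_pos_of_pos hr _
  have h2 := Real.log_le_log hr2 h1
  rw [Real.log_mul hrt.ne' (Real.exp_pos _).ne', Real.log_rpow hr, Real.log_exp] at h2
  linarith

lemma log32_lo : (40546 : ℝ) / 100000 ≤ Real.log (3 / 2) := by
  have h := Real.sum_range_le_log_div (x := 1 / 5) (by norm_num) (by norm_num) 3
  have e : ((1 : ℝ) + 1 / 5) / (1 - 1 / 5) = 3 / 2 := by norm_num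
  rw [e] at h
  simp only [Finset.sum_range_succ, Finset.sum_range_zero] at h
  norm_num at h
  linarith

lemma log32_hi : Real.log (3 / 2) ≤ (40547 : ℝ) / 100000 := by
  have h := Real.log_div_le_sum_range_add (x := 1 / 5) (by norm_num) (by norm_num) 4
  have e : ((1 : ℝ) + 1 / 5) / (1 - 1 / 5) = 3 / 2 := by norm_num
  rw [e] at h
  simp only [Finset.sum_range_succ, Finset.sum_range_zero] at h
  norm_num at h
  linarith

lemma log43_hi : Real.log (4 / 3) ≤ (288 : ℝ) / 1000 := by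
  have h := Real.log_div_le_sum_range_add (x := 1 / 7) (by norm_num) (by norm_num) 3
  have e : ((1 : ℝ) + 1 / 7) / (1 - 1 / 7) = 4 / 3 := by norm_num
  rw [e] at h
  simp only [Finset.sum_range_succ, Finset.sum_range_zero] at h
  norm_num at h
  linarith

lemma log1211_hi : Real.log (12 / 11) ≤ (8702 : ℝ) / 100000 := by
  have h := Real.log_div_le_sum_range_add (x := 1 / 23) (by norm_num) (by norm_num) 3
  have e : ((1 : ℝ) + 1 / 23) / (1 - 1 / 23) = 12 / 11 := by norm_num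
  rw [e] at h
  simp only [Finset.sum_range_succ, Finset.sum_range_zero] at h
  norm_num at h
  linarith

lemma log4340_lo : (7232 : ℝ) / 100000 ≤ Real.log (43 / 40) := by
  have h := Real.sum_range_le_log_div (x := 3 / 83) (by norm_num) (by norm_num) 3
  have e : ((1 : ℝ) + 3 / 83) / (1 - 3 / 83) = 43 / 40 := by norm_num
  rw [e] at h
  simp only [Finset.sum_range_succ, Finset.sum_range_zero] at h
  norm_num at h
  linarith

/-- the tangent of the logarithm -/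
lemma log_tangent {x y : ℝ} (hx : 0 < x) (hy : 0 < y) : Real.log x ≤ Real.log y + x / y - 1 := by
  have h := Real.log_le_sub_one_of_pos (x := x / y) (by positivity)
  rw [Real.log_div hx.ne' hy.ne'] at h
  linarith

/-- `m ≥ 4` -/
lemma case4 (hG : S_GLC) (hH : S_HOE) (m : ℕ) (hm : 4 ≤ m) (p : ℝ) (h1 : 2 * (m : ℝ) ≤ p)
    (h2 : p ≤ 2 * ((m : ℝ) + 1)) :
    ∃ (m : ℕ) (θ : ℝ), 1 ≤ m ∧ 0 ≤ θ ∧ θ ≤ 1 ∧ 1 / p = (1 - θ) / (2 * m) + θ / (2 * (m + 1)) ∧
      GA m ^ (1 - θ) * GA (m + 1) ^ θ < p - 1 := by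
  have hm0 : (4 : ℝ) ≤ m := by exact_mod_cast hm
  have hmp : (0 : ℝ) < m := by linarith
  have hp0 : 0 < p := by linarith
  refine key2 hG m (by omega) p (by linarith) h1 h2 fun t ht0 ht1 _ _ => ?_
  refine lt_of_le_of_lt (hoe_log hH m (by omega) t ht0 ht1) ?_
  have hL0 : 0 ≤ Real.log (1 + 1 / (m : ℝ)) := Real.log_nonneg (by
    have : (0 : ℝ) < 1 / m := by positivity
    linarith)
  have hL1 : Real.log (1 + 1 / (m : ℝ)) ≤ 1 / m := by
    have := Real.log_le_sub_one_of_pos (x := 1 + 1 / (m : ℝ)) (by positivity)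
    linarith
  have hL2 : Real.log (1 + 1 / (m : ℝ)) ^ 2 ≤ (1 / (m : ℝ)) ^ 2 := by gcongr
  have hv0 : 1 / ((m : ℝ) + 1) ≤ 2 / p := by
    rw [div_le_div_iff₀ (by positivity) hp0]
    linarith
  have hv1 : 2 / p ≤ 1 / 4 := by
    rw [div_le_div_iff₀ hp0 (by norm_num)]
    linarith
  have hv2 : 0 < 2 / p := by positivity
  generalize 2 / p = v at *
  have hP : 448 / 10000 * v ≤ P (1 - v) := by
    unfold P
    have h5 : 0 ≤ (1 - v) - (1 - v) ^ 5 := by
      have := pow_le_of_le_one (a := 1 - v) (by linarith) (by linarith) (n := 5) (by omega)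
      linarith
    have h3 : 21 / 16 * v ≤ (1 - v) - (1 - v) ^ 3 := by
      have e : (1 - v) - (1 - v) ^ 3 - 21 / 16 * v = v * ((1 - v) * (2 - v) - 21 / 16) := by ring
      have : 0 ≤ v * ((1 - v) * (2 - v) - 21 / 16) := mul_nonneg hv2.le (by nlinarith)
      linarith
    nlinarith
  have h6 : (1 / (m : ℝ)) ^ 2 / 8 < 448 / 10000 * (1 / ((m : ℝ) + 1)) := by
    rw [div_pow, one_pow, div_div, mul_one_div, div_lt_div_iff₀ (by positivity) (by positivity)]
    nlinarith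
  have h7 : 448 / 10000 * (1 / ((m : ℝ) + 1)) ≤ 448 / 10000 * v := by gcongr
  linarith

/-- `m = 3` -/
lemma case3 (hG : S_GLC) (hH : S_HOE) (p : ℝ) (h1 : 6 ≤ p) (h2 : p ≤ 8) :
    ∃ (m : ℕ) (θ : ℝ), 1 ≤ m ∧ 0 ≤ θ ∧ θ ≤ 1 ∧ 1 / p = (1 - θ) / (2 * m) + θ / (2 * (m + 1)) ∧
      GA m ^ (1 - θ) * GA (m + 1) ^ θ < p - 1 := by
  have hp0 : 0 < p := by linarith
  refine key2 hG 3 (by omega) p (by linarith) (by norm_num; linarith) (by norm_num; linarith)
    fun t ht0 ht1 _ _ => ?_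
  refine lt_of_le_of_lt (hoe_log hH 3 (by omega) t ht0 ht1) ?_
  have e : (1 : ℝ) + 1 / ((3 : ℕ) : ℝ) = 4 / 3 := by norm_num
  rw [e]
  have hL0 : 0 ≤ Real.log (4 / 3) := Real.log_nonneg (by norm_num)
  have hL2 : Real.log (4 / 3) ^ 2 ≤ ((288 : ℝ) / 1000) ^ 2 := by
    have := log43_hi
    gcongr
  have hv1 : 2 / p ≤ 1 / 3 := by
    rw [div_le_div_iff₀ hp0 (by norm_num)]
    linarith
  have hv2 : 1 / 4 ≤ 2 / p := by
    rw [div_le_div_iff₀ (by norm_num) hp0]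
    linarith
  generalize 2 / p = v at *
  have hP : 3418 / 100000 * (328 / 1000) ≤ P (1 - v) := by
    unfold P
    have h5 : 0 ≤ (1 - v) - (1 - v) ^ 5 := by
      have := pow_le_of_le_one (a := 1 - v) (by linarith) (by linarith) (n := 5) (by omega)
      linarith
    have h3 : 328 / 1000 ≤ (1 - v) - (1 - v) ^ 3 := by
      have e : (1 - v) - (1 - v) ^ 3 - 21 / 64 =
        (v - 1 / 4) * ((1 - v) ^ 2 + 3 / 4 * (1 - v) - 7 / 16) := by ring
      have : 0 ≤ (v - 1 / 4) * ((1 - v) ^ 2 + 3 / 4 * (1 - v) - 7 / 16) :=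
        mul_nonneg (by linarith) (by nlinarith)
      linarith
    nlinarith
  norm_num at hL2 hP
  linarith

/-- `11 / 2 ≤ p ≤ 6` -/
lemma case2a (hG : S_GLC) (p : ℝ) (h1 : 11 / 2 ≤ p) (h2 : p ≤ 6) :
    ∃ (m : ℕ) (θ : ℝ), 1 ≤ m ∧ 0 ≤ θ ∧ θ ≤ 1 ∧ 1 / p = (1 - θ) / (2 * m) + θ / (2 * (m + 1)) ∧
      GA m ^ (1 - θ) * GA (m + 1) ^ θ < p - 1 := by
  have hp0 : 0 < p := by linarith
  refine key2 hG 2 (by omega) p (by linarith) (by norm_num; linarith) (by norm_num; linarith)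
    fun t ht0 ht1 ht _ => ?_
  have e : (1 : ℝ) + 1 / ((2 : ℕ) : ℝ) = 3 / 2 := by norm_num
  rw [e]
  have hv1 : 2 / p ≤ 4 / 11 := by
    rw [div_le_div_iff₀ hp0 (by norm_num)]
    linarith
  have hv2 : 1 / 3 ≤ 2 / p := by
    rw [div_le_div_iff₀ (by norm_num) hp0]
    linarith
  have ht2 : t = 6 * (2 / p) - 2 := by
    rw [ht]
    push_cast
    ring
  push_cast
  generalize 2 / p = v at *
  have hP : 3418 / 100000 * (3703 / 10000) + 1808 / 1000000 * (52 / 100) ≤ P (1 - v) := by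
    unfold P
    have h3 : 3703 / 10000 ≤ (1 - v) - (1 - v) ^ 3 := by
      have e : (1 - v) - (1 - v) ^ 3 - 10 / 27 =
        (v - 1 / 3) * ((1 - v) ^ 2 + 2 / 3 * (1 - v) - 5 / 9) := by ring
      have : 0 ≤ (v - 1 / 3) * ((1 - v) ^ 2 + 2 / 3 * (1 - v) - 5 / 9) :=
        mul_nonneg (by linarith) (by nlinarith)
      linarith
    have h5 : 52 / 100 ≤ (1 - v) - (1 - v) ^ 5 := by
      have e : (1 - v) - (1 - v) ^ 5 = ((1 - v) - (1 - v) ^ 3) * (1 + (1 - v) ^ 2) := by ring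
      rw [e]
      have h6 : 1 + (7 / 11) ^ 2 ≤ 1 + (1 - v) ^ 2 := by
        have : (7 : ℝ) / 11 ≤ 1 - v := by linarith
        gcongr
      calc (52 : ℝ) / 100 ≤ (3703 / 10000) * (1 + (7 / 11) ^ 2) := by norm_num
        _ ≤ ((1 - v) - (1 - v) ^ 3) * (1 + (1 - v) ^ 2) := by gcongr
    nlinarith
  have hlog := log_tangent (x := 1 + t / 2) (y := 12 / 11) (by positivity) (by norm_num)
  have h4 := log1211_hi
  have h5 := mul_le_mul_of_nonneg_left log32_lo ht0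
  have ht3 : t ≤ 2 / 11 := by linarith
  norm_num at hP hlog h4 h5 ⊢
  linarith

/-- `4 ≤ p ≤ 43 / 10` -/
lemma case2b (hG : S_GLC) (p : ℝ) (h1 : 4 ≤ p) (h2 : p ≤ 43 / 10) :
    ∃ (m : ℕ) (θ : ℝ), 1 ≤ m ∧ 0 ≤ θ ∧ θ ≤ 1 ∧ 1 / p = (1 - θ) / (2 * m) + θ / (2 * (m + 1)) ∧
      GA m ^ (1 - θ) * GA (m + 1) ^ θ < p - 1 := by
  have hp0 : 0 < p := by linarith
  refine key2 hG 2 (by omega) p (by linarith) (by norm_num; linarith) (by norm_num; linarith)
    fun t ht0 ht1 ht _ => ?_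
  have e : (1 : ℝ) + 1 / ((2 : ℕ) : ℝ) = 3 / 2 := by norm_num
  rw [e]
  have hv1 : 2 / p ≤ 1 / 2 := by
    rw [div_le_div_iff₀ hp0 (by norm_num)]
    linarith
  have hv2 : 20 / 43 ≤ 2 / p := by
    rw [div_le_div_iff₀ (by norm_num) hp0]
    linarith
  have ht2 : t = 6 * (2 / p) - 2 := by
    rw [ht]
    push_cast
    ring
  push_cast
  generalize 2 / p = v at *
  have hP : 3418 / 100000 * (375 / 1000) + 1808 / 1000000 * (45 / 100) ≤ P (1 - v) := by
    unfold P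
    have h3 : 375 / 1000 ≤ (1 - v) - (1 - v) ^ 3 := by
      have e : (1 - v) - (1 - v) ^ 3 - 3 / 8 =
        (1 / 2 - v) * (3 / 4 - (1 - v) ^ 2 - 1 / 2 * (1 - v)) := by ring
      have : 0 ≤ (1 / 2 - v) * (3 / 4 - (1 - v) ^ 2 - 1 / 2 * (1 - v)) :=
        mul_nonneg (by linarith) (by nlinarith)
      linarith
    have h5 : 45 / 100 ≤ (1 - v) - (1 - v) ^ 5 := by
      have e : (1 - v) - (1 - v) ^ 5 = ((1 - v) - (1 - v) ^ 3) * (1 + (1 - v) ^ 2) := by ring
      rw [e]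
      have h6 : 1 + (1 / 2) ^ 2 ≤ 1 + (1 - v) ^ 2 := by
        have : (1 : ℝ) / 2 ≤ 1 - v := by linarith
        gcongr
      calc (45 : ℝ) / 100 ≤ (375 / 1000) * (1 + (1 / 2) ^ 2) := by norm_num
        _ ≤ ((1 - v) - (1 - v) ^ 3) * (1 + (1 - v) ^ 2) := by gcongr
    nlinarith
  have e2 : 1 + t / 2 = 3 / 2 * (2 * v) := by
    rw [ht2]
    ring
  have hlog := log_tangent (x := 2 * v) (y := (43 / 40)⁻¹) (by linarith) (by norm_num)
  rw [Real.log_inv] at hlog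
  rw [e2, Real.log_mul (by norm_num) (by linarith)]
  have h4 := log4340_lo
  have h5 := mul_le_mul_of_nonneg_left log32_hi (show 0 ≤ 1 - t by linarith)
  norm_num at hP hlog h4 h5 ⊢
  linarith

/-- `77 / 20 ≤ p ≤ 4` -/
lemma case1 (hG : S_GLC) (p : ℝ) (h1 : 77 / 20 ≤ p) (h2 : p ≤ 4) :
    ∃ (m : ℕ) (θ : ℝ), 1 ≤ m ∧ 0 ≤ θ ∧ θ ≤ 1 ∧ 1 / p = (1 - θ) / (2 * m) + θ / (2 * (m + 1)) ∧
      GA m ^ (1 - θ) * GA (m + 1) ^ θ < p - 1 := by
  have hp0 : 0 < p := by linarith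
  refine key2 hG 1 (by omega) p (by linarith) (by norm_num; linarith) (by norm_num; linarith)
    fun t ht0 ht1 ht _ => ?_
  have e : (1 : ℝ) + 1 / ((1 : ℕ) : ℝ) = 2 := by norm_num
  rw [e]
  have hv1 : 2 / p ≤ 40 / 77 := by
    rw [div_le_div_iff₀ hp0 (by norm_num)]
    linarith
  have hv2 : 1 / 2 ≤ 2 / p := by
    rw [div_le_div_iff₀ (by norm_num) hp0]
    linarith
  have ht2 : t = 2 * (2 / p) - 1 := by
    rw [ht]
    push_cast
    ring
  push_cast
  generalize 2 / p = v at *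
  have hP : 3418 / 100000 * (369 / 1000) ≤ P (1 - v) := by
    unfold P
    have h5 : 0 ≤ (1 - v) - (1 - v) ^ 5 := by
      have := pow_le_of_le_one (a := 1 - v) (by linarith) (by linarith) (n := 5) (by omega)
      linarith
    have h3 : 369 / 1000 ≤ (1 - v) - (1 - v) ^ 3 := by
      have e : (1 - v) - (1 - v) ^ 3 - (37 / 77 - (37 / 77) ^ 3) =
        (40 / 77 - v) * (1 - (37 / 77) ^ 2 - (1 - v) ^ 2 - 37 / 77 * (1 - v)) := by ring
      have : 0 ≤ (40 / 77 - v) * (1 - (37 / 77) ^ 2 - (1 - v) ^ 2 - 37 / 77 * (1 - v)) :=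
        mul_nonneg (by linarith) (by nlinarith)
      norm_num at e this ⊢
      linarith
    nlinarith
  have hlog := Real.log_le_sub_one_of_pos (x := 1 + t / 1) (by positivity)
  have h4 := Real.log_two_gt_d9
  have h5 := mul_le_mul_of_nonneg_left h4.le ht0
  have ht3 : t ≤ 3 / 77 := by linarith
  norm_num at hP hlog h5 ⊢
  linarith

theorem t (h1 : Pool.Agent.N892.BW.S_GLC) (h2 : Pool.Agent.N892.BW.S_HOE) :
    Pool.Agent.N892.BW.S_NUI := by
  intro p hp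
  rcases hp with ⟨ha, hb⟩ | ha
  · rcases le_total p 4 with h | h
    · exact case1 h1 p ha h
    · exact case2b h1 p h hb
  · rcases le_total p 6 with h | h
    · exact case2a h1 p ha h
    · rcases le_total p 8 with h' | h'
      · exact case3 h1 h2 p h h'
      · have hf := Nat.floor_le (show 0 ≤ p / 2 by linarith)
        have hl := Nat.lt_floor_add_one (p / 2)
        have h4 : 4 ≤ ⌊p / 2⌋₊ := Nat.le_floor (by push_cast; linarith)
        exact case4 h1 h2 ⌊p / 2⌋₊ h4 p (by linarith) (by linarith)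

end Pool.Agent.N892.BW.NUI
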