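import Pool.Agent.N892.BW.Stm2

/-!
# A numerical inequality (by helper769)
-/

set_option autoImplicit false

open Filter Topology Complex
open scoped ComplexConjugate

namespace Pool.Agent.N892.BW.NUM

lemma taylor (K M : ℝ) (hM : 0 ≤ M) (k : ℕ) : ∃ D : ℝ, 0 ≤ D ∧ ∀ s h x : ℝ, 0 ≤ s → 0 ≤ s + h →
    s + h ≤ (1 + M) * s → h ^ 2 ≤ K ^ 2 * (x ^ 2 * s) →
    (s + h) ^ (k + 1) ≤ s ^ (k + 1) + ((k : ℝ) + 1) * (s ^ k * h) + D * (x ^ 2 * s ^ k) := by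
  induction k with
  | zero => exact ⟨0, le_rfl, fun s h x _ _ _ _ => by simp⟩
  | succ k ih =>
    obtain ⟨D, hD, H⟩ := ih
    refine ⟨((k : ℝ) + 1) * K ^ 2 + D * (1 + M), by positivity, fun s h x hs hsh h1 h2 => ?_⟩
    have h3 := H s h x hs hsh h1 h2
    have h4 := mul_le_mul_of_nonneg_left h3 hsh
    have h5 : (s + h) ^ (k + 1 + 1) = (s + h) * (s + h) ^ (k + 1) := by ring
    have hsk : 0 ≤ s ^ k := pow_nonneg hs k
    have h6 : ((k : ℝ) + 1) * (s ^ k * h ^ 2) ≤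
        ((k : ℝ) + 1) * (s ^ k * (K ^ 2 * (x ^ 2 * s))) := by gcongr
    have h7 : D * (x ^ 2 * s ^ k) * (s + h) ≤ D * (x ^ 2 * s ^ k) * ((1 + M) * s) := by gcongr
    rw [h5]
    push_cast
    calc _ ≤ _ := h4
      _ = s ^ (k + 1 + 1) + ((k : ℝ) + 1 + 1) * (s ^ (k + 1) * h) +
          ((k : ℝ) + 1) * (s ^ k * h ^ 2) + D * (x ^ 2 * s ^ k) * (s + h) := by ring
      _ ≤ s ^ (k + 1 + 1) + ((k : ℝ) + 1 + 1) * (s ^ (k + 1) * h) +
          ((k : ℝ) + 1) * (s ^ k * (K ^ 2 * (x ^ 2 * s))) +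
          D * (x ^ 2 * s ^ k) * ((1 + M) * s) := by linarith
      _ = _ := by ring

theorem t : Pool.Agent.N892.BW.S_NUM := by
  intro m ε hm hε
  obtain ⟨k, rfl⟩ : ∃ k, m = k + 1 := ⟨m - 1, by omega⟩
  obtain ⟨lam, hl0, hl⟩ : ∃ lam : ℝ, 0 < lam ∧
      (1 + lam) ^ (2 * (k + 1)) + 2 * ((k : ℝ) + 1) * lam ^ (2 * k + 1) ≤ 1 + ε := by
    have hc : Continuous (fun l : ℝ => (1 + l) ^ (2 * (k + 1)) +
      2 * ((k : ℝ) + 1) * l ^ (2 * k + 1)) := by fun_prop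
    have h0 := hc.tendsto 0
    have h2 : ∀ᶠ l in 𝓝 (0 : ℝ), (1 + l) ^ (2 * (k + 1)) +
        2 * ((k : ℝ) + 1) * l ^ (2 * k + 1) < 1 + ε := by
      refine h0.eventually_lt_const ?_
      simp only [add_zero, one_pow, ne_eq, Nat.add_eq_zero_iff, mul_eq_zero, OfNat.ofNat_ne_zero,
        false_or, one_ne_zero, and_false, not_false_eq_true, zero_pow, mul_zero]
      linarith
    have h3 : ∀ᶠ l in 𝓝[>] (0 : ℝ), (1 + l) ^ (2 * (k + 1)) +
        2 * ((k : ℝ) + 1) * l ^ (2 * k + 1) < 1 + ε := nhdsWithin_le_nhds h2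
    obtain ⟨l, hl, hl'⟩ := (h3.and self_mem_nhdsWithin).exists
    exact ⟨l, hl', hl.le⟩
  obtain ⟨D, hD, H⟩ := taylor (2 + lam⁻¹) (2 * lam⁻¹ + lam⁻¹ ^ 2) (by positivity) k
  refine ⟨D + ((k : ℝ) + 1), by positivity, fun a b => ?_⟩
  have hx : 0 ≤ ‖a‖ := norm_nonneg a
  have hy : 0 ≤ ‖b‖ := norm_nonneg b
  have hell : |(conj b * a).re| ≤ ‖a‖ * ‖b‖ := by
    refine (Complex.abs_re_le_norm _).trans (le_of_eq ?_)
    rw [norm_mul, Complex.norm_conj, mul_comm]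
  have hsq : ‖b + a‖ ^ 2 = ‖b‖ ^ 2 + (2 * (conj b * a).re + ‖a‖ ^ 2) := by
    rw [← Complex.normSq_eq_norm_sq, ← Complex.normSq_eq_norm_sq, ← Complex.normSq_eq_norm_sq,
      Complex.normSq_apply, Complex.normSq_apply, Complex.normSq_apply, Complex.mul_re,
      Complex.conj_re, Complex.conj_im, Complex.add_re, Complex.add_im]
    ring
  have htri : ‖b + a‖ ≤ ‖b‖ + ‖a‖ := norm_add_le _ _
  have hba : 0 ≤ ‖b + a‖ := norm_nonneg _
  have e0 : 2 * (k + 1) - 2 = 2 * k := by omega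
  rw [e0]
  push_cast
  generalize (conj b * a).re = ell at *
  generalize ‖b + a‖ = z at *
  generalize ‖a‖ = x at *
  generalize ‖b‖ = y at *
  obtain ⟨hell1, hell2⟩ := abs_le.1 hell
  rcases le_or_gt y (lam * x) with hyx | hyx
  · have h1 : z ^ (2 * (k + 1)) ≤ (1 + lam) ^ (2 * (k + 1)) * x ^ (2 * (k + 1)) := by
      rw [← mul_pow]
      exact pow_le_pow_left₀ hba (by linarith) _
    have h2 : y ^ (2 * k) * (x * y) ≤ lam ^ (2 * k + 1) * x ^ (2 * (k + 1)) := by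
      have : y ^ (2 * k + 1) ≤ (lam * x) ^ (2 * k + 1) := pow_le_pow_left₀ hy hyx _
      calc y ^ (2 * k) * (x * y) = y ^ (2 * k + 1) * x := by ring
        _ ≤ (lam * x) ^ (2 * k + 1) * x := by gcongr
        _ = _ := by ring
    have h3 : -(y ^ (2 * k) * (x * y)) ≤ y ^ (2 * k) * ell := by
      rw [← mul_neg]
      exact mul_le_mul_of_nonneg_left hell1 (by positivity)
    have h4 : ((1 + lam) ^ (2 * (k + 1)) + 2 * ((k : ℝ) + 1) * lam ^ (2 * k + 1)) *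
        x ^ (2 * (k + 1)) ≤ (1 + ε) * x ^ (2 * (k + 1)) := by gcongr
    have h5 : 0 ≤ y ^ (2 * (k + 1)) := by positivity
    have h6 : 0 ≤ (D + ((k : ℝ) + 1)) * (x ^ 2 * y ^ (2 * k)) := by positivity
    have h7 : 2 * ((k : ℝ) + 1) * -(lam ^ (2 * k + 1) * x ^ (2 * (k + 1))) ≤
        2 * ((k : ℝ) + 1) * (y ^ (2 * k) * ell) := by
      have : (0 : ℝ) ≤ 2 * ((k : ℝ) + 1) := by positivity
      refine mul_le_mul_of_nonneg_left ?_ this
      linarith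
    linarith
  · have hxy : x ≤ lam⁻¹ * y := by
      rw [inv_mul_eq_div, le_div_iff₀ hl0]
      linarith
    have hc0 : 0 < lam⁻¹ := inv_pos.2 hl0
    generalize lam⁻¹ = c at *
    have h1 : y ^ 2 + (2 * ell + x ^ 2) ≤ (1 + (2 * c + c ^ 2)) * y ^ 2 := by
      nlinarith [mul_nonneg hx hy, mul_le_mul_of_nonneg_right hxy hy, mul_le_mul hxy hxy hx (by positivity)]
    have h2 : (2 * ell + x ^ 2) ^ 2 ≤ (2 + c) ^ 2 * (x ^ 2 * y ^ 2) := by
      have e1 : (2 + c) ^ 2 * (x ^ 2 * y ^ 2) = ((2 + c) * (x * y)) ^ 2 := by ring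
      rw [e1]
      apply sq_le_sq'
      · nlinarith [mul_nonneg hx hy, mul_nonneg hc0.le (mul_nonneg hx hy), sq_nonneg x]
      · nlinarith [mul_nonneg hx hy, mul_le_mul_of_nonneg_left hxy hx]
    have h3 := H (y ^ 2) (2 * ell + x ^ 2) x (by positivity) (by rw [← hsq]; positivity) h1 h2
    rw [← hsq, ← pow_mul, ← pow_mul, ← pow_mul] at h3
    have h4 : 0 ≤ (1 + ε) * x ^ (2 * (k + 1)) := by positivity
    have h5 : ((k : ℝ) + 1) * (y ^ (2 * k) * (2 * ell + x ^ 2)) =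
        2 * ((k : ℝ) + 1) * (y ^ (2 * k) * ell) + ((k : ℝ) + 1) * (x ^ 2 * y ^ (2 * k)) := by ring
    rw [h5] at h3
    linarith

end Pool.Agent.N892.BW.NUM
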