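import Pool.Agent.N892.BW.Stm2

/-!
BW2/PGL (helper562): interpolation for families of convolution operators.
-/

set_option autoImplicit false

open MeasureTheory ENNReal Filter Topology Complex Set

namespace Pool.Agent.N892.BW.PGL

/-- convolution -/
noncomputable def V (G g : ℂ → ℂ) (x : ℂ) : ℂ := ∫ z, G (x - z) * g z

theorem V_meas {G g : ℂ → ℂ} (hG : Continuous G) (hg : Measurable g) : Measurable (V G g) := by
  have h : StronglyMeasurable (fun p : ℂ × ℂ => G (p.1 - p.2) * g p.2) := by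
    refine Measurable.stronglyMeasurable ?_
    exact (hG.measurable.comp (measurable_fst.sub measurable_snd)).mul (hg.comp measurable_snd)
  exact h.integral_prod_right'.measurable

theorem V_int {G g : ℂ → ℂ} (hG : Integrable G) (hg : Measurable g) {M : ℝ}
    (hM : ∀ x, ‖g x‖ ≤ M) (x : ℂ) : Integrable (fun z => G (x - z) * g z) := by
  have h1 : Integrable (fun z => G (x - z)) := hG.comp_sub_left x
  exact h1.mul_bdd hg.aestronglyMeasurable (Eventually.of_forall hM)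

theorem V_bd {G g : ℂ → ℂ} (hG : Integrable G) {c s : ℝ} (hc : ∫ x, ‖G x‖ ≤ c) (hs : 0 ≤ s)
    (hg : ∀ x, ‖g x‖ ≤ s) (x : ℂ) : ‖V G g x‖ ≤ c * s := by
  unfold V
  calc ‖∫ z, G (x - z) * g z‖ ≤ ∫ z, ‖G (x - z)‖ * s := by
        refine norm_integral_le_of_norm_le ((hG.comp_sub_left x).norm.mul_const s)
          (Eventually.of_forall fun z => ?_)
        rw [norm_mul]
        exact mul_le_mul_of_nonneg_left (hg z) (norm_nonneg _)
    _ = (∫ z, ‖G z‖) * s := by
        rw [integral_mul_const]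
        congr 1
        exact integral_sub_left_eq_self (fun z => ‖G z‖) volume x
    _ ≤ c * s := mul_le_mul_of_nonneg_right hc hs

/-- the large part -/
noncomputable def hi (s : ℝ) (f : ℂ → ℂ) : ℂ → ℂ := {x | s < ‖f x‖}.indicator f

theorem hi_set {s : ℝ} {f : ℂ → ℂ} (hf : Measurable f) : MeasurableSet {x | s < ‖f x‖} :=
  measurableSet_lt measurable_const hf.norm

theorem hi_meas {s : ℝ} {f : ℂ → ℂ} (hf : Measurable f) : Measurable (hi s f) :=
  hf.indicator (hi_set hf)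

theorem hi_le (s : ℝ) (f : ℂ → ℂ) (x : ℂ) : ‖hi s f x‖ ≤ ‖f x‖ := by
  unfold hi
  exact norm_indicator_le_norm_self f x

theorem hi_lo {s : ℝ} (hs : 0 ≤ s) (f : ℂ → ℂ) (x : ℂ) : ‖f x - hi s f x‖ ≤ s := by
  unfold hi
  by_cases h : s < ‖f x‖
  · rw [indicator_of_mem (by exact h), sub_self, norm_zero]
    exact hs
  · rw [indicator_of_notMem (by exact h), sub_zero]
    exact not_lt.1 h

theorem hi_nic {s : ℝ} {f : ℂ → ℂ} (hf : Nic2 f) : Nic2 (hi s f) := by
  obtain ⟨h1, h2, M, h3⟩ := hf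
  exact ⟨hi_meas h1, h2.indicator (hi_set h1), M, fun x => (hi_le s f x).trans (h3 x)⟩

/-- the level sets -/
theorem level {G f : ℂ → ℂ} (hG : Continuous G) (hI : Integrable G) {c t : ℝ} (hc : 0 < c)
    (hGc : ∫ x, ‖G x‖ ≤ c) (ht : 0 < t) (hf : Nic2 f) :
    volume {x | t < ‖V G f x‖} ≤
      ENNReal.ofReal (4 / t ^ 2) * ∫⁻ x, ‖V G (hi (t / (2 * c)) f) x‖ₑ ^ 2 := by
  have hs : 0 ≤ t / (2 * c) := by positivity
  obtain ⟨h1, h2, M, h3⟩ := hf
  set f1 := hi (t / (2 * c)) f with hf1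
  have m1 : Measurable f1 := hi_meas h1
  have hsub : ∀ x, V G f x = V G f1 x + V G (fun z => f z - f1 z) x := by
    intro x
    have a1 : Integrable (fun z => G (x - z) * f1 z) :=
      V_int hI m1 (M := M) (fun x => (hi_le _ f x).trans (h3 x)) x
    have a2 : Integrable (fun z => G (x - z) * (f z - f1 z)) :=
      V_int hI (g := fun z => f z - f1 z) (h1.sub m1) (M := t / (2 * c)) (hi_lo hs f) x
    show ∫ z, G (x - z) * f z = (∫ z, G (x - z) * f1 z) + ∫ z, G (x - z) * (f z - f1 z)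
    rw [← integral_add a1 a2]
    congr 1
    funext z
    ring
  have hset : {x | t < ‖V G f x‖} ⊆ {x | ENNReal.ofReal ((t / 2) ^ 2) ≤ ‖V G f1 x‖ₑ ^ 2} := by
    intro x hx
    have hx' : t < ‖V G f x‖ := hx
    have h4 := V_bd hI hGc hs (g := fun z => f z - f1 z) (hi_lo hs f) x
    have h5 : c * (t / (2 * c)) = t / 2 := by field_simp
    rw [h5] at h4
    rw [hsub] at hx'
    have h6 := norm_add_le (V G f1 x) (V G (fun z => f z - f1 z) x)
    have h7 : t / 2 ≤ ‖V G f1 x‖ := by linarith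
    show ENNReal.ofReal ((t / 2) ^ 2) ≤ ‖V G f1 x‖ₑ ^ 2
    rw [← ofReal_norm, ← ENNReal.ofReal_pow (norm_nonneg _)]
    exact ENNReal.ofReal_le_ofReal (pow_le_pow_left₀ (by positivity) h7 2)
  have hm : Measurable (fun x => ‖V G f1 x‖ₑ ^ 2) := (V_meas hG m1).enorm.pow_const 2
  have h8 := mul_meas_ge_le_lintegral (μ := volume) hm (ENNReal.ofReal ((t / 2) ^ 2))
  calc volume {x | t < ‖V G f x‖} ≤ volume {x | ENNReal.ofReal ((t / 2) ^ 2) ≤ ‖V G f1 x‖ₑ ^ 2} :=
        measure_mono hset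
    _ = ENNReal.ofReal (4 / t ^ 2) * (ENNReal.ofReal ((t / 2) ^ 2) *
          volume {x | ENNReal.ofReal ((t / 2) ^ 2) ≤ ‖V G f1 x‖ₑ ^ 2}) := by
        rw [← mul_assoc, ← ENNReal.ofReal_mul (by positivity)]
        have : 4 / t ^ 2 * (t / 2) ^ 2 = 1 := by field_simp; norm_num
        rw [this, ENNReal.ofReal_one, one_mul]
    _ ≤ _ := by gcongr

theorem enorm_pow_eq (z : ℂ) (k : ℕ) : ‖z‖ₑ ^ k = ENNReal.ofReal (‖z‖ ^ ((k : ℕ) : ℝ)) := by
  rw [Real.rpow_natCast, ENNReal.ofReal_pow (norm_nonneg _), ofReal_norm]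

/-- the truncated square integral as a measure -/
theorem hi_sq {s : ℝ} {f : ℂ → ℂ} (hf : Measurable f) :
    ∫⁻ x, ‖hi s f x‖ₑ ^ 2 = (volume.withDensity fun x => ‖f x‖ₑ ^ 2) {x | s < ‖f x‖} := by
  rw [withDensity_apply _ (hi_set hf), ← lintegral_indicator (hi_set hf)]
  refine lintegral_congr fun x => ?_
  unfold hi
  by_cases h : s < ‖f x‖
  · rw [indicator_of_mem (by exact h), indicator_of_mem (by exact h)]
  · rw [indicator_of_notMem (by exact h), indicator_of_notMem (by exact h)]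
    simp

theorem main {m : ℕ} (hm : 2 ≤ m) {c : ℝ} (hc : 0 < c) {L : ℕ} {G : ℕ → ℂ → ℂ}
    (hG : ∀ i, i < L → Continuous (G i) ∧ Integrable (G i) ∧ ∫ x, ‖G i x‖ ≤ c)
    (h2 : ∀ g, Nic2 g →
      (∑ i ∈ Finset.range L, (∫⁻ x, ‖V (G i) g x‖ₑ ^ 2)) ≤ ENNReal.ofReal c * ∫⁻ x, ‖g x‖ₑ ^ 2)
    {f : ℂ → ℂ} (hf : Nic2 f) :
    (∑ i ∈ Finset.range L, Nm m (V (G i) f)) ≤
      ENNReal.ofReal (2 * m * (4 * c) * (1 / (2 * m - 2) * (2 * c) ^ (2 * m - 2))) * Nm m f := by
  have hmR : (2 : ℝ) ≤ m := by exact_mod_cast hm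
  have hp : (0 : ℝ) < 2 * m := by linarith
  have hr : (0 : ℝ) < 2 * m - 2 := by linarith
  set ν : Measure ℂ := volume.withDensity fun x => ‖f x‖ₑ ^ 2 with hν
  have hfm : Measurable f := hf.1
  -- layer cake for every term
  have e1 : ∀ i ∈ Finset.range L, Nm m (V (G i) f) = ENNReal.ofReal (2 * m) *
      ∫⁻ t in Ioi (0 : ℝ), volume {x | t < ‖V (G i) f x‖} * ENNReal.ofReal (t ^ ((2 * m : ℝ) - 1)) := by
    intro i hi
    have hi' := hG i (Finset.mem_range.1 hi)
    rw [← lintegral_rpow_eq_lintegral_meas_lt_mul volume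
      (Eventually.of_forall fun x => norm_nonneg _)
      (V_meas hi'.1 hfm).norm.aemeasurable hp]
    unfold Nm
    refine lintegral_congr fun x => ?_
    rw [enorm_pow_eq]
    push_cast
    rfl
  rw [Finset.sum_congr rfl e1, ← Finset.mul_sum]
  have hanti : ∀ i, Measurable fun t : ℝ => volume {x | t < ‖V (G i) f x‖} := by
    intro i
    refine Antitone.measurable ?_
    intro s t hst
    exact measure_mono fun x hx => lt_of_le_of_lt hst hx
  have e0 : ∑ i ∈ Finset.range L, ∫⁻ t in Ioi (0 : ℝ), volume {x | t < ‖V (G i) f x‖} *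
      ENNReal.ofReal (t ^ ((2 * m : ℝ) - 1)) = ∫⁻ t in Ioi (0 : ℝ), ∑ i ∈ Finset.range L,
        volume {x | t < ‖V (G i) f x‖} * ENNReal.ofReal (t ^ ((2 * m : ℝ) - 1)) :=
    (lintegral_finsetSum (μ := volume.restrict (Ioi (0 : ℝ))) (Finset.range L)
      (f := fun i t => volume {x | t < ‖V (G i) f x‖} * ENNReal.ofReal (t ^ ((2 * m : ℝ) - 1)))
      (fun i _ => (hanti i).mul (by fun_prop))).symm
  rw [e0]
  -- the bound under the integral
  have e2 : ∀ t ∈ Ioi (0 : ℝ), ∑ i ∈ Finset.range L,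
      volume {x | t < ‖V (G i) f x‖} * ENNReal.ofReal (t ^ ((2 * m : ℝ) - 1)) ≤
      ENNReal.ofReal (4 * c) * (ν {x | t < 2 * c * ‖f x‖} *
        ENNReal.ofReal (t ^ ((2 * m - 2 : ℝ) - 1))) := by
    intro t ht
    have ht0 : 0 < t := ht
    rw [← Finset.sum_mul]
    have e3 : ∑ i ∈ Finset.range L, volume {x | t < ‖V (G i) f x‖} ≤
        ENNReal.ofReal (4 / t ^ 2) * (ENNReal.ofReal c * ν {x | t < 2 * c * ‖f x‖}) := by
      calc ∑ i ∈ Finset.range L, volume {x | t < ‖V (G i) f x‖}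
          ≤ ∑ i ∈ Finset.range L, ENNReal.ofReal (4 / t ^ 2) *
              ∫⁻ x, ‖V (G i) (hi (t / (2 * c)) f) x‖ₑ ^ 2 := by
            refine Finset.sum_le_sum fun i hi => ?_
            have hi' := hG i (Finset.mem_range.1 hi)
            exact level hi'.1 hi'.2.1 hc hi'.2.2 ht0 hf
        _ ≤ ENNReal.ofReal (4 / t ^ 2) * (ENNReal.ofReal c *
              ∫⁻ x, ‖hi (t / (2 * c)) f x‖ₑ ^ 2) := by
            rw [← Finset.mul_sum]
            gcongr
            exact h2 _ (hi_nic hf)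
        _ = _ := by
            rw [hi_sq hfm]
            congr 3
            ext x
            simp only [Set.mem_ofPred_eq]
            rw [div_lt_iff₀ (by positivity)]
            constructor
            · intro h; linarith
            · intro h; linarith
    calc (∑ i ∈ Finset.range L, volume {x | t < ‖V (G i) f x‖}) *
          ENNReal.ofReal (t ^ ((2 * m : ℝ) - 1))
        ≤ (ENNReal.ofReal (4 / t ^ 2) * (ENNReal.ofReal c * ν {x | t < 2 * c * ‖f x‖})) *
          ENNReal.ofReal (t ^ ((2 * m : ℝ) - 1)) := by gcongr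
      _ = (ENNReal.ofReal (4 / t ^ 2) * ENNReal.ofReal c * ENNReal.ofReal (t ^ ((2 * m : ℝ) - 1))) *
          ν {x | t < 2 * c * ‖f x‖} := by ring
      _ = (ENNReal.ofReal (4 * c) * ENNReal.ofReal (t ^ ((2 * m - 2 : ℝ) - 1))) *
          ν {x | t < 2 * c * ‖f x‖} := by
          congr 1
          rw [← ENNReal.ofReal_mul (by positivity), ← ENNReal.ofReal_mul (by positivity),
            ← ENNReal.ofReal_mul (by positivity)]
          congr 1
          have h5 : t ^ ((2 * m : ℝ) - 1) = t ^ ((2 * m - 2 : ℝ) - 1) * t ^ 2 := by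
            rw [← Real.rpow_natCast t 2, ← Real.rpow_add ht0]
            congr 1
            push_cast
            ring
          rw [h5]
          field_simp
      _ = _ := by ring
  have e4 : ∫⁻ t in Ioi (0 : ℝ), ∑ i ∈ Finset.range L,
      volume {x | t < ‖V (G i) f x‖} * ENNReal.ofReal (t ^ ((2 * m : ℝ) - 1)) ≤
      ENNReal.ofReal (4 * c) * ∫⁻ t in Ioi (0 : ℝ), ν {x | t < 2 * c * ‖f x‖} *
        ENNReal.ofReal (t ^ ((2 * m - 2 : ℝ) - 1)) := by
    refine (setLIntegral_mono' measurableSet_Ioi e2).trans (le_of_eq ?_)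
    rw [lintegral_const_mul' _ _ ENNReal.ofReal_ne_top]
  -- layer cake for `f`
  have e5 : ENNReal.ofReal (2 * m - 2) * ∫⁻ t in Ioi (0 : ℝ), ν {x | t < 2 * c * ‖f x‖} *
      ENNReal.ofReal (t ^ ((2 * m - 2 : ℝ) - 1)) =
      ENNReal.ofReal ((2 * c) ^ (2 * m - 2)) * Nm m f := by
    rw [← lintegral_rpow_eq_lintegral_meas_lt_mul ν
      (Eventually.of_forall fun x => by positivity)
      ((hfm.norm.const_mul (2 * c)).aemeasurable) hr, hν,
      lintegral_withDensity_eq_lintegral_mul _ (hfm.enorm.pow_const 2) (by fun_prop)]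
    unfold Nm
    rw [← lintegral_const_mul' _ _ ENNReal.ofReal_ne_top]
    refine lintegral_congr fun x => ?_
    rw [Pi.mul_apply]
    have h6 : ((2 * c * ‖f x‖) ^ (2 * m - 2 : ℝ)) = (2 * c) ^ (2 * m - 2) * ‖f x‖ ^ (2 * m - 2) := by
      have h7 : (2 * m - 2 : ℝ) = ((2 * m - 2 : ℕ) : ℝ) := by
        rw [Nat.cast_sub (by omega)]
        push_cast
        ring
      rw [h7, Real.rpow_natCast, mul_pow]
    rw [h6, ENNReal.ofReal_mul (by positivity), ENNReal.ofReal_pow (norm_nonneg _),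
      ofReal_norm]
    have h8 : 2 * m = 2 + (2 * m - 2) := by omega
    calc ‖f x‖ₑ ^ 2 * (ENNReal.ofReal ((2 * c) ^ (2 * m - 2)) * ‖f x‖ₑ ^ (2 * m - 2))
        = ENNReal.ofReal ((2 * c) ^ (2 * m - 2)) * (‖f x‖ₑ ^ 2 * ‖f x‖ₑ ^ (2 * m - 2)) := by ring
      _ = ENNReal.ofReal ((2 * c) ^ (2 * m - 2)) * ‖f x‖ₑ ^ (2 + (2 * m - 2)) := by rw [pow_add]
      _ = _ := by rw [← h8]
  have e6 : ∫⁻ t in Ioi (0 : ℝ), ν {x | t < 2 * c * ‖f x‖} *
      ENNReal.ofReal (t ^ ((2 * m - 2 : ℝ) - 1)) =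
      ENNReal.ofReal (1 / (2 * m - 2)) * (ENNReal.ofReal ((2 * c) ^ (2 * m - 2)) * Nm m f) := by
    rw [← e5, ← mul_assoc, ← ENNReal.ofReal_mul (by positivity), one_div,
      inv_mul_cancel₀ hr.ne', ENNReal.ofReal_one, one_mul]
  rw [e6] at e4
  refine (mul_le_mul_right e4 _).trans (le_of_eq ?_)
  have e7 : ENNReal.ofReal (2 * (m : ℝ) * (4 * c) * (1 / (2 * m - 2) * (2 * c) ^ (2 * m - 2))) =
      ENNReal.ofReal (2 * (m : ℝ)) * (ENNReal.ofReal (4 * c) *
        (ENNReal.ofReal (1 / (2 * (m : ℝ) - 2)) * ENNReal.ofReal ((2 * c) ^ (2 * m - 2)))) := by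
    rw [← ENNReal.ofReal_mul (by positivity), ← ENNReal.ofReal_mul (by positivity),
      ← ENNReal.ofReal_mul (by positivity)]
    congr 1
    ring
  rw [e7]
  ring

theorem t : Pool.Agent.N892.BW.S_PGL := by
  intro m C hm hC
  rcases Nat.lt_or_ge m 2 with h | h
  · have hm1 : m = 1 := by omega
    subst hm1
    refine ⟨C, hC, ?_⟩
    intro L G _ h2 f hf
    exact h2 f hf
  · have hmR : (2 : ℝ) ≤ m := by exact_mod_cast h
    have hr : (0 : ℝ) < 2 * m - 2 := by linarith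
    refine ⟨2 * m * (4 * (C + 1)) * (1 / (2 * m - 2) * (2 * (C + 1)) ^ (2 * m - 2)), by positivity, ?_⟩
    intro L G hG h2 f hf
    refine main h (by linarith : 0 < C + 1) (L := L) (G := G) ?_ ?_ hf
    · intro i hi
      exact ⟨(hG i hi).1, (hG i hi).2.1, (hG i hi).2.2.trans (by linarith)⟩
    · intro g hg
      refine (h2 g hg).trans ?_
      gcongr
      linarith

end Pool.Agent.N892.BW.PGL
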