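import Pool.Agent.N892.BW.Stm2
import Pool.Agent.H153R4.Pl

/-!
# Project BW, part PLT: the bound in the square mean (helper281)
-/

set_option autoImplicit false

open MeasureTheory ENNReal Filter Topology Complex
open scoped ComplexConjugate ContDiff FourierTransform Convolution

namespace Pool.Agent.N892.BW.PLT

theorem memLp_of_bdd {g : ℂ → ℂ} (hi : Integrable g) {M : ℝ} (hM : ∀ x, ‖g x‖ ≤ M) :
    MemLp g 2 := by
  rw [memLp_two_iff_integrable_sq_norm hi.aestronglyMeasurable]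
  refine (hi.norm.const_mul M).mono' (hi.aestronglyMeasurable.norm.pow 2)
    (Eventually.of_forall fun x => ?_)
  rw [Real.norm_eq_abs, abs_of_nonneg (by positivity), sq]
  exact mul_le_mul_of_nonneg_right (hM x) (norm_nonneg _)

theorem four_e2 (g : ℂ → ℂ) (ξ : ℂ) : 𝓕 g ξ = ∫ x, conj (e2 x ξ) * g x := by
  rw [Real.fourier_eq']
  refine integral_congr_ae (Eventually.of_forall fun x => ?_)
  simp only [smul_eq_mul]
  congr 1
  unfold e2
  rw [← Complex.exp_conj]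
  congr 1
  rw [Complex.inner]
  simp only [map_mul, Complex.conj_ofReal, Complex.conj_I, map_ofNat, Complex.mul_re,
    Complex.conj_re, Complex.conj_im]
  push_cast
  ring

theorem conv_apply (F H : ℂ → ℂ) (x : ℂ) :
    (F ⋆[ContinuousLinearMap.mul ℂ ℂ] H) x = ∫ y, F y * H (x - y) := rfl

/-- one multiplier -/
theorem one (hB : S_BAS) {b : ℝ} {μ : ℂ → ℂ} (hμ : Bd 0 b μ) {g : ℂ → ℂ} (hg : Nic2 g) :
    ∫⁻ x, ‖∫ z, Fi μ (x - z) * g z‖ₑ ^ 2 = ∫⁻ ξ, ‖μ ξ‖ₑ ^ 2 * ‖𝓕 g ξ‖ₑ ^ 2 := by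
  obtain ⟨_, _, hN, hinv, _⟩ := hB b μ hμ
  obtain ⟨_, hNi, M', hM'⟩ := hN
  obtain ⟨_, hgi, M, hM⟩ := hg
  set F : ℂ → ℂ := g ⋆[ContinuousLinearMap.mul ℂ ℂ] (Fi μ) with hF
  have hFx : ∀ x, ∫ z, Fi μ (x - z) * g z = F x := by
    intro x
    rw [hF, conv_apply]
    refine integral_congr_ae (Eventually.of_forall fun z => ?_)
    exact mul_comm _ _
  have hFi : Integrable F := hgi.integrable_convolution (ContinuousLinearMap.mul ℂ ℂ) hNi
  have hFb : ∀ x, ‖F x‖ ≤ ∫ y, ‖g y‖ * M' := by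
    intro x
    rw [hF, conv_apply]
    refine (norm_integral_le_integral_norm _).trans ?_
    refine integral_mono_of_nonneg (Eventually.of_forall fun y => norm_nonneg _)
      (hgi.norm.mul_const _) (Eventually.of_forall fun y => ?_)
    simp only
    rw [norm_mul]
    exact mul_le_mul_of_nonneg_left (hM' _) (norm_nonneg _)
  have hF2 : MemLp F 2 := memLp_of_bdd hFi hFb
  have hmu : ∀ ξ, 𝓕 (Fi μ) ξ = μ ξ := fun ξ => by rw [four_e2, ← hinv ξ]
  simp_rw [hFx]
  rw [← Pool.Agent.H153R4.plancherel F hFi hF2]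
  refine lintegral_congr fun ξ => ?_
  rw [hF, Real.fourier_mul_convolution_eq hgi hNi, hmu, enorm_mul, mul_pow, mul_comm]

theorem t (hB : Pool.Agent.N892.BW.S_BAS) : Pool.Agent.N892.BW.S_PLT := by
  intro b L μ C hμ hC g hg
  have h1 : ∀ i, ∫⁻ x, ‖∫ z, Fi (μ i) (x - z) * g z‖ₑ ^ 2 =
      ∫⁻ ξ, ‖μ i ξ‖ₑ ^ 2 * ‖𝓕 g ξ‖ₑ ^ 2 := fun i => one hB (hμ i) hg
  simp_rw [h1]
  have hgi := hg.2.1
  obtain ⟨M, hM⟩ := hg.2.2
  have hc : Continuous (𝓕 g) :=
    VectorFourier.fourierIntegral_continuous (L := innerₗ ℂ) Real.continuous_fourierChar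
      continuous_inner hgi
  rw [← lintegral_finsetSum]
  · rw [← Pool.Agent.H153R4.plancherel g hgi (memLp_of_bdd hgi hM), ← lintegral_const_mul]
    · refine lintegral_mono fun ξ => ?_
      simp only
      rw [← Finset.sum_mul]
      refine mul_le_mul_left ?_ _
      have h2 : ∀ i, ‖μ i ξ‖ₑ ^ 2 = ENNReal.ofReal (‖μ i ξ‖ ^ 2) := by
        intro i
        rw [ENNReal.ofReal_pow (norm_nonneg _), ofReal_norm]
      simp_rw [h2]
      rw [← ENNReal.ofReal_sum_of_nonneg (fun i _ => by positivity)]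
      exact ENNReal.ofReal_le_ofReal (hC ξ)
    · exact hc.enorm.measurable.pow_const _
  · intro i _
    exact ((hμ i).1.continuous.enorm.measurable.pow_const _).mul
      (hc.enorm.measurable.pow_const _)

end Pool.Agent.N892.BW.PLT
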