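import Pool.Agent.N892.BW.Stm4
import Pool.Agent.H153R4.Pl

/-!
# Project BW, part PLZ: Plancherel for `T ^ n` (helper360)
-/

set_option autoImplicit false

open MeasureTheory ENNReal Filter Topology Complex
open scoped ComplexConjugate ContDiff FourierTransform

namespace Pool.Agent.N892.BW.PLZ

theorem four_eq (g : ℂ → ℂ) (ξ : ℂ) : 𝓕 g ξ = ∫ w : ℂ, Complex.exp (-(2 * (Real.pi : ℂ) * Complex.I *
        ((w.re * ξ.re + w.im * ξ.im : ℝ) : ℂ))) * g w := by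
  rw [Real.fourier_eq']
  refine integral_congr_ae (Eventually.of_forall fun x => ?_)
  simp only [smul_eq_mul]
  congr 1
  congr 1
  rw [Complex.inner]
  simp only [Complex.mul_re, Complex.conj_re, Complex.conj_im]
  push_cast
  ring

/-- the Fourier transform of `T ^ n f` -/
noncomputable def G (n : ℕ) (f : SchwartzMap ℂ ℂ) (ξ : ℂ) : ℂ :=
  (starRingEnd ℂ ξ / ξ) ^ n * 𝓕 (fun z : ℂ => f z) ξ

theorem TS_eq (n : ℕ) (f : SchwartzMap ℂ ℂ) (z : ℂ) : TS n f z = 𝓕 (G n f) (-z) := by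
  rw [four_eq, TS]
  refine integral_congr_ae (Eventually.of_forall fun ξ => ?_)
  simp only [G, four_eq]
  congr 1
  congr 1
  simp only [Complex.neg_re, Complex.neg_im]
  push_cast
  ring

theorem norm_sym (n : ℕ) (ξ : ℂ) : ‖(starRingEnd ℂ ξ / ξ) ^ n‖ ≤ 1 := by
  rw [norm_pow, norm_div]
  refine pow_le_one₀ (by positivity) ?_
  rw [RCLike.norm_conj]
  exact div_self_le_one _

theorem norm_G (n : ℕ) (f : SchwartzMap ℂ ℂ) (ξ : ℂ) : ‖G n f ξ‖ ≤ ‖𝓕 (fun z : ℂ => f z) ξ‖ := by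
  rw [G, norm_mul]
  exact mul_le_of_le_one_left (norm_nonneg _) (norm_sym n ξ)

theorem four_S (f : SchwartzMap ℂ ℂ) : (𝓕 (fun z : ℂ => f z) : ℂ → ℂ) = fun ξ => (𝓕 f) ξ := by
  funext ξ
  rw [SchwartzMap.fourier_coe]

theorem meas_G (n : ℕ) (f : SchwartzMap ℂ ℂ) : Measurable (G n f) := by
  have h1 : Continuous (𝓕 (fun z : ℂ => f z) : ℂ → ℂ) := by
    rw [four_S]; exact (𝓕 f).continuous
  have h2 : Measurable fun ξ : ℂ => (starRingEnd ℂ ξ / ξ) ^ n := by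
    have : Measurable fun ξ : ℂ => starRingEnd ℂ ξ := continuous_conj.measurable
    exact (this.div measurable_id).pow_const _
  exact h2.mul h1.measurable

theorem sq_le (n : ℕ) (f : SchwartzMap ℂ ℂ) :
    ∫⁻ z, ‖TS n f z‖ₑ ^ 2 ≤ ∫⁻ z, ‖f z‖ₑ ^ 2 := by
  have hI : Integrable (𝓕 (fun z : ℂ => f z) : ℂ → ℂ) := by
    rw [four_S]; exact (𝓕 f).integrable
  have hL : MemLp (𝓕 (fun z : ℂ => f z) : ℂ → ℂ) 2 := by
    rw [four_S]; exact (𝓕 f).memLp 2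
  have hGI : Integrable (G n f) :=
    hI.mono (meas_G n f).aestronglyMeasurable (Eventually.of_forall (norm_G n f))
  have hGL : MemLp (G n f) 2 :=
    hL.mono (meas_G n f).aestronglyMeasurable (Eventually.of_forall (norm_G n f))
  calc ∫⁻ z, ‖TS n f z‖ₑ ^ 2 = ∫⁻ z, ‖𝓕 (G n f) (-z)‖ₑ ^ 2 := by
        refine lintegral_congr fun z => ?_
        rw [TS_eq]
    _ = ∫⁻ z, ‖𝓕 (G n f) z‖ₑ ^ 2 := lintegral_neg_eq_self (fun z => ‖𝓕 (G n f) z‖ₑ ^ 2)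
    _ = ∫⁻ ξ, ‖G n f ξ‖ₑ ^ 2 := Pool.Agent.H153R4.plancherel _ hGI hGL
    _ ≤ ∫⁻ ξ, ‖𝓕 (fun z : ℂ => f z) ξ‖ₑ ^ 2 := by
        refine lintegral_mono fun ξ => ?_
        have := norm_G n f ξ
        have h3 : ‖G n f ξ‖ₑ ≤ ‖𝓕 (fun z : ℂ => f z) ξ‖ₑ := enorm_le_iff_norm_le.2 this
        gcongr
    _ = ∫⁻ z, ‖f z‖ₑ ^ 2 := Pool.Agent.H153R4.plancherel _ f.integrable (f.memLp 2)

theorem t : Pool.Agent.N892.BW.S_PLZ := by
  intro n f
  have h2 : (ENNReal.ofReal 2 : ℝ≥0∞) = 2 := by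
    rw [ENNReal.ofReal_ofNat]
  rw [h2, eLpNorm_eq_lintegral_rpow_enorm_toReal (by norm_num) (by norm_num),
    eLpNorm_eq_lintegral_rpow_enorm_toReal (by norm_num) (by norm_num)]
  refine ENNReal.rpow_le_rpow ?_ (by norm_num)
  simp only [ENNReal.toReal_ofNat]
  have := sq_le n f
  simpa only [← ENNReal.rpow_natCast, Nat.cast_ofNat] using this

end Pool.Agent.N892.BW.PLZ
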