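import Mathlib
import Pool.Agent.N892.BW.Stm2

/-!
# PRD: products and conjugates of band-limited functions
-/

set_option autoImplicit false

open MeasureTheory ENNReal Filter Topology Complex
open scoped ComplexConjugate ContDiff Convolution

namespace Pool.Agent.N892.BW.PRD

theorem e2_add (x ξ η : ℂ) : e2 x (ξ + η) = e2 x ξ * e2 x η := by
  unfold e2
  rw [← Complex.exp_add]
  congr 1
  simp only [Complex.add_re, Complex.add_im]
  push_cast
  ring

theorem e2_conj (x ξ : ℂ) : conj (e2 x ξ) = e2 x (-ξ) := by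
  unfold e2
  rw [← Complex.exp_conj]
  congr 1
  simp only [map_mul, Complex.conj_ofReal, Complex.conj_I, Complex.neg_re, Complex.neg_im, map_ofNat]
  push_cast
  ring

theorem e2_cont (x : ℂ) : Continuous (e2 x) := by
  unfold e2
  fun_prop

theorem Bd.cs {a b : ℝ} {h : ℂ → ℂ} (hh : Bd a b h) : HasCompactSupport h := by
  refine HasCompactSupport.of_support_subset_isCompact (isCompact_closedBall (0 : ℂ) b) ?_
  intro ξ hξ
  rw [mem_closedBall_zero_iff]
  exact (hh.2 ξ hξ).2

theorem part1 (a₁ b₁ b₂ : ℝ) (h₁ h₂ : ℂ → ℂ) (H₁ : Bd a₁ b₁ h₁) (H₂ : Bd 0 b₂ h₂) : ∃ h₃ : ℂ → ℂ,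
    Bd (a₁ - b₂) (b₁ + b₂) h₃ ∧ ∀ x, Fi h₁ x * Fi h₂ x = Fi h₃ x := by
  have c1 := Bd.cs H₁
  have c2 := Bd.cs H₂
  refine ⟨h₁ ⋆[ContinuousLinearMap.mul ℝ ℂ, volume] h₂, ⟨?_, ?_⟩, ?_⟩
  · exact c2.contDiff_convolution_right _ (H₁.1.continuous.locallyIntegrable) H₂.1
  · intro ξ hξ
    have h3 : ∃ t, h₁ t * h₂ (ξ - t) ≠ 0 := by
      by_contra hcon
      push Not at hcon
      apply hξ
      unfold convolution
      simp only [ContinuousLinearMap.mul_apply', hcon, integral_zero]
    obtain ⟨t, ht⟩ := h3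
    have h4 := H₁.2 t (left_ne_zero_of_mul ht)
    have h5 := H₂.2 (ξ - t) (right_ne_zero_of_mul ht)
    have h6 : ‖t‖ ≤ ‖ξ‖ + ‖ξ - t‖ := by
      have := norm_sub_le ξ (ξ - t)
      rwa [_root_.sub_sub_cancel] at this
    have h7 : ‖ξ‖ ≤ ‖t‖ + ‖ξ - t‖ := by
      have := norm_add_le t (ξ - t)
      rwa [_root_.add_sub_cancel] at this
    constructor <;> linarith [h4.1, h4.2, h5.2]
  · intro x
    have i1 : Integrable (fun t => e2 x t * h₁ t) :=
      ((e2_cont x).mul H₁.1.continuous).integrable_of_hasCompactSupport c1.mul_left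
    have i2 : Integrable (fun t => e2 x t * h₂ t) :=
      ((e2_cont x).mul H₂.1.continuous).integrable_of_hasCompactSupport c2.mul_left
    have h8 := integral_convolution (ContinuousLinearMap.mul ℝ ℂ) i1 i2
    simp only [ContinuousLinearMap.mul_apply'] at h8
    unfold Fi
    rw [← h8]
    apply integral_congr_ae
    filter_upwards with ξ
    unfold convolution
    simp only [ContinuousLinearMap.mul_apply']
    rw [← integral_const_mul]
    apply integral_congr_ae
    filter_upwards with t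
    have h9 : e2 x ξ = e2 x t * e2 x (ξ - t) := by
      rw [← e2_add, _root_.add_sub_cancel]
    rw [h9]
    ring

theorem part2 (a b : ℝ) (h : ℂ → ℂ) (H : Bd a b h) : ∃ h' : ℂ → ℂ, Bd a b h' ∧
    ∀ x, conj (Fi h x) = Fi h' x := by
  refine ⟨fun ξ => conj (h (-ξ)), ⟨?_, ?_⟩, ?_⟩
  · exact Complex.conjCLE.contDiff.comp (H.1.comp contDiff_neg)
  · intro ξ hξ
    have h1 : h (-ξ) ≠ 0 := by
      intro h0
      apply hξ
      simp only [h0, map_zero]
    have h2 := H.2 (-ξ) h1
    rwa [norm_neg] at h2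
  · intro x
    unfold Fi
    rw [← integral_conj, ← integral_neg_eq_self]
    apply integral_congr_ae
    filter_upwards with ξ
    rw [map_mul, e2_conj, neg_neg]

theorem t : Pool.Agent.N892.BW.S_PRD := ⟨part1, part2⟩

end Pool.Agent.N892.BW.PRD
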