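import Pool.Agent.N892.BW.Stm4

/-!
Powers of the Beurling transform, part REA: real exponents by interpolation.
-/

set_option autoImplicit false

open MeasureTheory ENNReal Filter Topology Complex

namespace Pool.Agent.N892.BW.REA

lemma Qn_pos (n : ℕ) {s : ℝ} (h0 : 0 < s) (h1 : s ≤ 1 / 2) : 0 < Qn n s := by
  unfold Qn
  apply Finset.prod_pos
  intro j _
  have : (0 : ℝ) ≤ j := Nat.cast_nonneg j
  apply div_pos <;> linarith

lemma Qn_half (n : ℕ) : Qn n (1 / 2) = 1 := by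
  unfold Qn
  apply Finset.prod_eq_one
  intro j _
  have : (0 : ℝ) ≤ j := Nat.cast_nonneg j
  have e : (1 : ℝ) - 1 / 2 + j = 1 / 2 + j := by ring
  rw [e]
  exact div_self (by positivity)

theorem t (h1 : S_FUL) (h2 : S_PLZ) (h3 : S_RTT) (h4 : S_AMG) (h5 : S_HOE) : S_REA := by
  intro p ε hp hε
  obtain ⟨m, hm⟩ : ∃ m : ℕ, m = ⌊p / 2⌋₊ := ⟨_, rfl⟩
  have hm1 : 1 ≤ m := by
    rw [hm]
    apply Nat.le_floor
    push_cast
    linarith
  have hmr : (1 : ℝ) ≤ m := by exact_mod_cast hm1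
  have hmp : 2 * (m : ℝ) ≤ p := by
    have := Nat.floor_le (show (0 : ℝ) ≤ p / 2 by linarith)
    rw [← hm] at this
    linarith
  have hpm : p < 2 * ((m : ℝ) + 1) := by
    have := Nat.lt_floor_add_one (p / 2)
    rw [← hm] at this
    linarith
  obtain ⟨s₀, hs₀⟩ : ∃ s₀ : ℝ, s₀ = 1 / (2 * (m : ℝ)) := ⟨_, rfl⟩
  obtain ⟨s₁, hs₁⟩ : ∃ s₁ : ℝ, s₁ = 1 / (2 * ((m : ℝ) + 1)) := ⟨_, rfl⟩
  have hs₁0 : 0 < s₁ := by rw [hs₁]; positivity
  have hs₀0 : 0 < s₀ := by rw [hs₀]; positivity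
  have h01 : s₁ < s₀ := by
    rw [hs₀, hs₁]
    apply one_div_lt_one_div_of_lt <;> linarith
  have hs₀h : s₀ ≤ 1 / 2 := by
    rw [hs₀]
    apply one_div_le_one_div_of_le <;> linarith
  have hsp0 : 1 / p ≤ s₀ := by
    rw [hs₀]
    exact one_div_le_one_div_of_le (by positivity) hmp
  have hsp1 : s₁ ≤ 1 / p := by
    rw [hs₁]
    exact one_div_le_one_div_of_le (by linarith) hpm.le
  obtain ⟨θ, hθ⟩ : ∃ θ : ℝ, θ = (s₀ - 1 / p) / (s₀ - s₁) := ⟨_, rfl⟩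
  have hd : 0 < s₀ - s₁ := by linarith
  have hθ0 : 0 ≤ θ := by rw [hθ]; apply div_nonneg <;> linarith
  have hθ1 : θ ≤ 1 := by rw [hθ, div_le_one hd]; linarith
  have hs : (1 - θ) * s₀ + θ * s₁ = 1 / p := by
    have h6 : θ * (s₀ - s₁) = s₀ - 1 / p := by
      rw [hθ, div_mul_cancel₀ _ hd.ne']
    linarith
  have hs' : 1 / p = (1 - θ) / (2 * (m : ℝ)) + θ / (2 * ((m : ℝ) + 1)) := by
    rw [← hs, hs₀, hs₁]
    ring
  -- the two exponents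
  have H0 : ∃ n₀ : ℕ, ∀ n : ℕ, n₀ ≤ n → ∀ f : SchwartzMap ℂ ℂ,
      eLpNorm (TS n f) (ENNReal.ofReal (2 * m)) volume ≤
        ENNReal.ofReal ((1 + ε) * Qn n s₀) *
          eLpNorm (fun z : ℂ => f z) (ENNReal.ofReal (2 * m)) volume := by
    rcases hm1.lt_or_eq with hm2 | hm2
    · obtain ⟨n₀, hn₀⟩ := h1 m ε hm2 hε
      refine ⟨n₀, fun n hn f => ?_⟩
      have := hn₀ n hn f
      rw [hs₀]
      exact this
    · refine ⟨0, fun n _ f => ?_⟩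
      have h6 : s₀ = 1 / 2 := by
        rw [hs₀, ← hm2]
        norm_num
      have h7 : (2 * (m : ℝ)) = 2 := by
        rw [← hm2]
        norm_num
      rw [h6, Qn_half, h7, mul_one]
      refine (h2 n f).trans ?_
      have h8 : (1 : ℝ≥0∞) ≤ ENNReal.ofReal (1 + ε) := by
        rw [← ENNReal.ofReal_one]
        exact ENNReal.ofReal_le_ofReal (by linarith)
      calc eLpNorm (fun z : ℂ => f z) (ENNReal.ofReal 2) volume
          = 1 * eLpNorm (fun z : ℂ => f z) (ENNReal.ofReal 2) volume := (one_mul _).symm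
        _ ≤ _ := mul_le_mul_left h8 _
  obtain ⟨N₀, hN₀⟩ := H0
  obtain ⟨N₁, hN₁⟩ := h1 (m + 1) ε (by omega) hε
  refine ⟨max N₀ N₁, fun n hn f => ?_⟩
  have hQ0 := Qn_pos n hs₀0 hs₀h
  have hQ1 := Qn_pos n hs₁0 (h01.le.trans hs₀h)
  have hK0 : 0 < (1 + ε) * Qn n s₀ := by positivity
  have hK1 : 0 < (1 + ε) * Qn n s₁ := by positivity
  have key := h3 n (2 * m) (2 * ((m : ℝ) + 1)) p θ ((1 + ε) * Qn n s₀) ((1 + ε) * Qn n s₁)
    (by linarith) (by linarith) hθ0 hθ1 hs' hK0 hK1 (hN₀ n ((le_max_left _ _).trans hn)) (by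
      intro g
      have := hN₁ n ((le_max_right _ _).trans hn) g
      push_cast at this
      rw [hs₁]
      exact this) f
  refine key.trans ?_
  apply mul_le_mul_left
  apply ENNReal.ofReal_le_ofReal
  -- the constants
  have e1 : ((1 + ε) * Qn n s₀) ^ (1 - θ) * ((1 + ε) * Qn n s₁) ^ θ =
      (1 + ε) * (Qn n s₀ ^ (1 - θ) * Qn n s₁ ^ θ) := by
    rw [Real.mul_rpow (by positivity) hQ0.le, Real.mul_rpow (by positivity) hQ1.le]
    have h6 : (1 + ε) ^ (1 - θ) * (1 + ε) ^ θ = 1 + ε := by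
      rw [← Real.rpow_add (by positivity)]
      have : 1 - θ + θ = 1 := by ring
      rw [this, Real.rpow_one]
    calc (1 + ε) ^ (1 - θ) * Qn n s₀ ^ (1 - θ) * ((1 + ε) ^ θ * Qn n s₁ ^ θ)
        = ((1 + ε) ^ (1 - θ) * (1 + ε) ^ θ) * (Qn n s₀ ^ (1 - θ) * Qn n s₁ ^ θ) := by ring
      _ = _ := by rw [h6]
  rw [e1]
  have h6 := h4 n s₀ s₁ θ hs₁0 h01.le hs₀h hθ0 hθ1
  rw [hs] at h6
  -- the ratio
  have hr : s₀ / s₁ = 1 + 1 / (m : ℝ) := by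
    rw [hs₀, hs₁]
    field_simp
  have hr1 : 1 ≤ s₀ / s₁ := by
    rw [le_div_iff₀ hs₁0]
    linarith
  have hR : 1 / p / (s₀ ^ (1 - θ) * s₁ ^ θ) ≤ Real.exp (Real.log (1 + 1 / (m : ℝ)) ^ 2 / 8) := by
    have h7 := h5 (s₀ / s₁) (1 - θ) hr1 (by linarith) (by linarith)
    rw [← hr]
    have h8 : s₀ ^ (1 - θ) * s₁ ^ θ = s₁ * (s₀ / s₁) ^ (1 - θ) := by
      rw [Real.div_rpow hs₀0.le hs₁0.le]
      have h9 : s₁ = s₁ ^ (1 - θ) * s₁ ^ θ := by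
        rw [← Real.rpow_add hs₁0]
        have : 1 - θ + θ = 1 := by ring
        rw [this, Real.rpow_one]
      have h10 : s₁ ^ (1 - θ) ≠ 0 := (Real.rpow_pos_of_pos hs₁0 _).ne'
      have h11 : s₁ * (s₀ ^ (1 - θ) / s₁ ^ (1 - θ)) =
          (s₁ ^ (1 - θ) * s₁ ^ θ) * (s₀ ^ (1 - θ) / s₁ ^ (1 - θ)) := by rw [← h9]
      rw [h11]
      field_simp
    have h12 : 1 / p = s₁ * (1 + (1 - θ) * (s₀ / s₁ - 1)) := by
      rw [← hs]
      field_simp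
      ring
    have h13 : 0 < (s₀ / s₁) ^ (1 - θ) := Real.rpow_pos_of_pos (by positivity) _
    rw [h8, div_le_iff₀ (by positivity)]
    calc 1 / p = s₁ * (1 + (1 - θ) * (s₀ / s₁ - 1)) := h12
      _ ≤ s₁ * ((s₀ / s₁) ^ (1 - θ) * Real.exp (Real.log (s₀ / s₁) ^ 2 / 8)) :=
        mul_le_mul_of_nonneg_left h7 hs₁0.le
      _ = _ := by ring
  have hsp : 0 < 1 / p := by positivity
  have hQs := Qn_pos n hsp (hsp0.trans hs₀h)
  rw [← hm]
  have e2 : (∏ j ∈ Finset.range n, ((1 - 1 / p + j) / (1 / p + j))) = Qn n (1 / p) := rfl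
  rw [e2]
  calc (1 + ε) * (Qn n s₀ ^ (1 - θ) * Qn n s₁ ^ θ)
      ≤ (1 + ε) * (Qn n (1 / p) * (1 / p / (s₀ ^ (1 - θ) * s₁ ^ θ))) :=
        mul_le_mul_of_nonneg_left h6 (by positivity)
    _ ≤ (1 + ε) * (Qn n (1 / p) * Real.exp (Real.log (1 + 1 / (m : ℝ)) ^ 2 / 8)) := by
        apply mul_le_mul_of_nonneg_left _ (by positivity)
        exact mul_le_mul_of_nonneg_left hR hQs.le
    _ = _ := by ring

end Pool.Agent.N892.BW.REA
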