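import Pool.Agent.N892.BW.Stm4
import Pool.Agent.N892.BW.ASY

/-! # Project BW, part REB (helper58): real exponents, the weaker conjecture -/

set_option autoImplicit false

open MeasureTheory ENNReal Filter Topology Complex

namespace Pool.Agent.N892.BW.REB

theorem GA_pos {m : ℕ} (hm : 1 ≤ m) : 0 < GA m := by
  unfold GA
  have h1 : (1 : ℝ) ≤ m := by exact_mod_cast hm
  apply div_pos (Real.Gamma_pos_of_pos (by positivity)) (Real.Gamma_pos_of_pos _)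
  rw [sub_pos, div_lt_one (by positivity)]
  linarith

theorem Cn_pos {m : ℕ} (hm : 2 ≤ m) (n : ℕ) : 0 < Cn (2 * m) n := by
  unfold Cn
  have h1 : (2 : ℝ) ≤ m := by exact_mod_cast hm
  refine Finset.prod_pos fun j _ => ?_
  have h2 : (1 : ℝ) / (2 * m) ≤ 1 / 4 := one_div_le_one_div_of_le (by norm_num) (by linarith)
  have h3 : (0 : ℝ) < 1 / (2 * m) := by positivity
  have h4 : (0 : ℝ) ≤ j := Nat.cast_nonneg j
  exact div_pos (by linarith) (by linarith)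

theorem AA_one (n : ℕ) : AA 1 n = 1 := by
  unfold AA GA
  have h : (1 : ℝ) - 1 / (2 * ((1 : ℕ) : ℝ)) = 1 / (2 * ((1 : ℕ) : ℝ)) := by norm_num
  rw [h, div_self (Real.Gamma_pos_of_pos (by norm_num)).ne']
  norm_num

/-- the bound for the exponent `2 m`, all `m ≥ 1` -/
theorem ev (h1 : S_FUL) (h2 : S_PLZ) {m : ℕ} (hm : 1 ≤ m) {ε : ℝ} (hε : 0 < ε) :
    ∃ n₀ : ℕ, ∀ n : ℕ, n₀ ≤ n → ∀ f : SchwartzMap ℂ ℂ,
      eLpNorm (TS n f) (ENNReal.ofReal (2 * m)) volume ≤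
        ENNReal.ofReal ((1 + ε) ^ 2 * AA m n) *
          eLpNorm (fun z : ℂ => f z) (ENNReal.ofReal (2 * m)) volume := by
  rcases Nat.lt_or_ge 1 m with hm2 | hm1
  · obtain ⟨n₀, hn₀⟩ := h1 m ε hm2 hε
    have h3 := ASY.t m hm2
    have h4 : ∀ᶠ n : ℕ in atTop, 1 / (1 + ε) < AA m n / Cn (2 * m) n := by
      refine h3.eventually (lt_mem_nhds ?_)
      rw [div_lt_one (by linarith)]
      linarith
    obtain ⟨n₁, hn₁⟩ := eventually_atTop.1 h4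
    refine ⟨max n₀ n₁, fun n hn f => ?_⟩
    have hC := Cn_pos hm2 n
    have h5 := hn₁ n ((le_max_right _ _).trans hn)
    have h6 : Cn (2 * m) n ≤ (1 + ε) * AA m n := by
      rw [div_lt_div_iff₀ (by linarith) hC] at h5
      linarith
    refine (hn₀ n ((le_max_left _ _).trans hn) f).trans
      (mul_le_mul' (ENNReal.ofReal_le_ofReal ?_) le_rfl)
    calc (1 + ε) * Cn (2 * m) n ≤ (1 + ε) * ((1 + ε) * AA m n) :=
          mul_le_mul_of_nonneg_left h6 (by linarith)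
      _ = (1 + ε) ^ 2 * AA m n := by ring
  · obtain rfl : m = 1 := le_antisymm hm1 hm
    refine ⟨0, fun n _ f => ?_⟩
    rw [AA_one, Nat.cast_one, mul_one, mul_one]
    refine (h2 n f).trans ?_
    have h3 : (1 : ℝ≥0∞) ≤ ENNReal.ofReal ((1 + ε) ^ 2) := by
      rw [ENNReal.one_le_ofReal]
      nlinarith
    calc eLpNorm (fun z : ℂ => f z) (ENNReal.ofReal 2) volume
        = 1 * eLpNorm (fun z : ℂ => f z) (ENNReal.ofReal 2) volume := (one_mul _).symm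
      _ ≤ _ := mul_le_mul' h3 le_rfl

theorem t (h1 : S_FUL) (h2 : S_PLZ) (h3 : S_RTT) (h4 : S_NUI) : S_REB := by
  intro p hp
  obtain ⟨m, θ, hm, hθ0, hθ1, he, hG⟩ := h4 p hp
  have hp0 : 0 < p := by
    rcases hp with ⟨h, -⟩ | h <;> linarith
  have hm0 : (1 : ℝ) ≤ m := by exact_mod_cast hm
  have hGa : 0 < GA m := GA_pos hm
  have hGb : 0 < GA (m + 1) := GA_pos (by omega)
  obtain ⟨G, hGdef⟩ : ∃ G : ℝ, G = GA m ^ (1 - θ) * GA (m + 1) ^ θ := ⟨_, rfl⟩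
  have hG0 : 0 < G := by
    rw [hGdef]
    exact mul_pos (Real.rpow_pos_of_pos hGa _) (Real.rpow_pos_of_pos hGb _)
  rw [← hGdef] at hG
  obtain ⟨r, hr⟩ : ∃ r : ℝ, r = (p - 1) / G := ⟨_, rfl⟩
  have hr1 : 1 < r := by
    rw [hr, lt_div_iff₀ hG0]
    linarith
  have hrG : r * G = p - 1 := by
    rw [hr, div_mul_cancel₀ _ hG0.ne']
  obtain ⟨ε, hε⟩ : ∃ ε : ℝ, ε = min ((r - 1) / 3) 1 := ⟨_, rfl⟩
  have e0 : 0 < ε := by
    rw [hε]
    exact lt_min (by linarith) one_pos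
  have e1 : ε ≤ (r - 1) / 3 := by rw [hε]; exact min_le_left _ _
  have e2 : ε ≤ 1 := by rw [hε]; exact min_le_right _ _
  have e3 : (1 + ε) ^ 2 ≤ r := by nlinarith
  obtain ⟨n₀, hn₀⟩ := ev h1 h2 hm e0
  obtain ⟨n₁, hn₁⟩ := ev h1 h2 (m := m + 1) (by omega) e0
  refine ⟨max (max n₀ n₁) 1, fun n hn f => ?_⟩
  have hn1 : 1 ≤ n := (le_max_right _ _).trans hn
  have hnp : (0 : ℝ) < n := by exact_mod_cast hn1
  have ha := hn₀ n (((le_max_left _ _).trans (le_max_left _ _)).trans hn)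
  have hb := hn₁ n (((le_max_right _ _).trans (le_max_left _ _)).trans hn)
  have hs : (0 : ℝ) < (1 + ε) ^ 2 := by positivity
  have hK0 : 0 < (1 + ε) ^ 2 * AA m n :=
    mul_pos hs (mul_pos (Real.rpow_pos_of_pos hnp _) hGa)
  have hK1 : 0 < (1 + ε) ^ 2 * AA (m + 1) n :=
    mul_pos hs (mul_pos (Real.rpow_pos_of_pos hnp _) hGb)
  have hmain := h3 n (2 * m) (2 * ((m + 1 : ℕ) : ℝ)) p θ _ _ (by linarith)
    (by push_cast; linarith) hθ0 hθ1 (by push_cast; exact he) hK0 hK1 ha hb f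
  refine hmain.trans (mul_le_mul' (ENNReal.ofReal_le_ofReal ?_) le_rfl)
  have hx : (1 - θ) * (1 - 1 / (m : ℝ)) + θ * (1 - 1 / ((m + 1 : ℕ) : ℝ)) = 1 - 2 / p := by
    have h5 : (2 : ℝ) / p = (1 - θ) / m + θ / (m + 1) := by
      have h6 : (2 : ℝ) / p = 2 * (1 / p) := by ring
      rw [h6, he]
      have h7 : (m : ℝ) ≠ 0 := by positivity
      have h8 : (m : ℝ) + 1 ≠ 0 := by positivity
      field_simp
    rw [h5]
    push_cast
    ring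
  have hK : ((1 + ε) ^ 2 * AA m n) ^ (1 - θ) * ((1 + ε) ^ 2 * AA (m + 1) n) ^ θ =
      (1 + ε) ^ 2 * ((n : ℝ) ^ (1 - 2 / p) * G) := by
    unfold AA
    have p1 : (0 : ℝ) ≤ (n : ℝ) ^ (1 - 1 / (m : ℝ)) := (Real.rpow_pos_of_pos hnp _).le
    have p2 : (0 : ℝ) ≤ (n : ℝ) ^ (1 - 1 / ((m + 1 : ℕ) : ℝ)) := (Real.rpow_pos_of_pos hnp _).le
    rw [Real.mul_rpow hs.le (mul_nonneg p1 hGa.le), Real.mul_rpow p1 hGa.le,
      Real.mul_rpow hs.le (mul_nonneg p2 hGb.le), Real.mul_rpow p2 hGb.le,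
      ← Real.rpow_mul hnp.le, ← Real.rpow_mul hnp.le]
    have q1 : ((1 + ε) ^ 2) ^ (1 - θ) * ((1 + ε) ^ 2) ^ θ = (1 + ε) ^ 2 := by
      rw [← Real.rpow_add hs]
      rw [sub_add_cancel, Real.rpow_one]
    have q2 : (n : ℝ) ^ ((1 - 1 / (m : ℝ)) * (1 - θ)) *
        (n : ℝ) ^ ((1 - 1 / ((m + 1 : ℕ) : ℝ)) * θ) = (n : ℝ) ^ (1 - 2 / p) := by
      rw [← Real.rpow_add hnp]
      congr 1
      rw [← hx]
      ring
    calc ((1 + ε) ^ 2) ^ (1 - θ) * ((n : ℝ) ^ ((1 - 1 / (m : ℝ)) * (1 - θ)) * GA m ^ (1 - θ)) *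
          (((1 + ε) ^ 2) ^ θ * ((n : ℝ) ^ ((1 - 1 / ((m + 1 : ℕ) : ℝ)) * θ) * GA (m + 1) ^ θ))
        = (((1 + ε) ^ 2) ^ (1 - θ) * ((1 + ε) ^ 2) ^ θ) *
          (((n : ℝ) ^ ((1 - 1 / (m : ℝ)) * (1 - θ)) *
            (n : ℝ) ^ ((1 - 1 / ((m + 1 : ℕ) : ℝ)) * θ)) *
            (GA m ^ (1 - θ) * GA (m + 1) ^ θ)) := by ring
      _ = _ := by rw [q1, q2, ← hGdef]
  rw [hK]
  have hnn : (0 : ℝ) ≤ (n : ℝ) ^ (1 - 2 / p) := (Real.rpow_pos_of_pos hnp _).le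
  calc (1 + ε) ^ 2 * ((n : ℝ) ^ (1 - 2 / p) * G)
      = (n : ℝ) ^ (1 - 2 / p) * ((1 + ε) ^ 2 * G) := by ring
    _ ≤ (n : ℝ) ^ (1 - 2 / p) * (r * G) :=
        mul_le_mul_of_nonneg_left (mul_le_mul_of_nonneg_right e3 hG0.le) hnn
    _ = _ := by rw [hrG]

end Pool.Agent.N892.BW.REB
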