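import Pool.Agent.N892.BW.KER_G

/-!
BW/KER: the kernel of the Fourier multiplier `(conj ξ / ξ) ^ n` off the support. By helper73.
-/

set_option autoImplicit false

open MeasureTheory Filter Topology Complex Set
open scoped ComplexConjugate FourierTransform SchwartzMap

namespace Pool.Agent.N892.BW.KER

theorem gam1 (k : ℕ) {a : ℝ} (ha : 0 < a) :
    ∫ s in Ioi (0 : ℝ), s ^ k * Real.exp (-(a * s)) = k.factorial / a ^ (k + 1) := by
  have h1 := Real.integral_rpow_mul_exp_neg_mul_Ioi (a := (k : ℝ) + 1) (r := a) (by positivity) ha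
  rw [Real.Gamma_nat_eq_factorial] at h1
  have h2 : ((1 : ℝ) / a) ^ ((k : ℝ) + 1) = 1 / a ^ (k + 1) := by
    have : ((k : ℝ) + 1) = ((k + 1 : ℕ) : ℝ) := by push_cast; ring
    rw [this, Real.rpow_natCast, div_pow, one_pow]
  rw [h2] at h1
  rw [div_eq_mul_one_div, mul_comm, ← h1]
  refine setIntegral_congr_fun measurableSet_Ioi fun s hs => ?_
  rw [add_sub_cancel_right, Real.rpow_natCast]

theorem gam1i (k : ℕ) {a : ℝ} (ha : 0 < a) :
    IntegrableOn (fun s : ℝ => s ^ k * Real.exp (-(a * s))) (Ioi 0) :=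
  Integrable.of_integral_ne_zero (by rw [gam1 k ha]; positivity)

theorem gam2 (k : ℕ) {a : ℝ} (ha : 0 < a) :
    ∫ s in Ioi (0 : ℝ), s⁻¹ ^ (k + 2) * Real.exp (-(a / s)) = k.factorial / a ^ (k + 1) := by
  have h1 := integral_comp_rpow_Ioi (fun y : ℝ => y ^ k * Real.exp (-(a * y)))
    (p := -1) (by norm_num)
  rw [← gam1 k ha, ← h1]
  refine setIntegral_congr_fun measurableSet_Ioi fun s hs => ?_
  have hs' : (0 : ℝ) < s := hs
  simp only [smul_eq_mul]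
  rw [abs_neg, abs_one, one_mul, Real.rpow_neg_one]
  have h2 : s ^ ((-1 : ℝ) - 1) = s⁻¹ ^ 2 := by
    have : (-1 : ℝ) - 1 = -((2 : ℕ) : ℝ) := by norm_num
    rw [this, Real.rpow_neg hs'.le, Real.rpow_natCast, inv_pow]
  rw [h2, div_eq_mul_inv, pow_add]
  ring

theorem gam2i (k : ℕ) {a : ℝ} (ha : 0 < a) :
    IntegrableOn (fun s : ℝ => s⁻¹ ^ (k + 2) * Real.exp (-(a / s))) (Ioi 0) :=
  Integrable.of_integral_ne_zero (by rw [gam2 k ha]; positivity)

/-- the character -/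
noncomputable def EE (x ξ : ℂ) : ℂ := Complex.exp (2 * (Real.pi : ℂ) * I * (br x ξ : ℂ))

theorem norm_EE (x ξ : ℂ) : ‖EE x ξ‖ = 1 := by
  unfold EE
  rw [Complex.norm_exp]
  have : (2 * (Real.pi : ℂ) * I * (br x ξ : ℂ)).re = 0 := by
    simp only [Complex.mul_re, Complex.mul_im, Complex.ofReal_re, Complex.ofReal_im,
      Complex.I_re, Complex.I_im, Complex.re_ofNat, Complex.im_ofNat]
    ring
  rw [this, Real.exp_zero]

theorem EE_sub (z w ξ : ℂ) : EE (z - w) ξ =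
    EE z ξ * Complex.exp (-(2 * (Real.pi : ℂ) * I * (((w.re * ξ.re + w.im * ξ.im : ℝ)) : ℂ))) := by
  unfold EE br
  rw [← Complex.exp_add]
  congr 1
  rw [Complex.sub_re, Complex.sub_im]
  push_cast
  ring

theorem inner_eq (x ξ : ℂ) : (inner ℝ x ξ : ℝ) = x.re * ξ.re + x.im * ξ.im := by
  rw [Complex.inner]
  simp
  ring

theorem Ft_eq (f : 𝓢(ℂ, ℂ)) (ξ : ℂ) : (∫ x : ℂ, Complex.exp (-(2 * (Real.pi : ℂ) * Complex.I *
    (((x.re * ξ.re + x.im * ξ.im : ℝ)) : ℂ))) * f x) = (𝓕 f : 𝓢(ℂ, ℂ)) ξ := by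
  rw [SchwartzMap.fourier_coe, Real.fourier_eq']
  refine integral_congr_ae (Eventually.of_forall fun x => ?_)
  simp only [smul_eq_mul]
  rw [inner_eq]
  congr 2
  push_cast
  ring

/-- the subordinated symbol -/
noncomputable def hh (k : ℕ) (ξ : ℂ) (s : ℝ) : ℂ :=
  ((s ^ k : ℝ) : ℂ) * (conj ξ ^ (2 * (k + 1)) * ((Real.exp (-(Real.pi * s * ‖ξ‖ ^ 2)) : ℝ) : ℂ))

theorem hh_eq (k : ℕ) (ξ : ℂ) (s : ℝ) : hh k ξ s =
    conj ξ ^ (2 * (k + 1)) * ((s ^ k * Real.exp (-((Real.pi * ‖ξ‖ ^ 2) * s)) : ℝ) : ℂ) := by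
  unfold hh
  have : Real.pi * s * ‖ξ‖ ^ 2 = (Real.pi * ‖ξ‖ ^ 2) * s := by ring
  rw [this, Complex.ofReal_mul]
  ring

theorem hh_int (k : ℕ) {ξ : ℂ} (hξ : ξ ≠ 0) : IntegrableOn (hh k ξ) (Ioi 0) := by
  have ha : 0 < Real.pi * ‖ξ‖ ^ 2 := by have := norm_pos_iff.2 hξ; positivity
  have h1 := ((gam1i k ha).ofReal (𝕜 := ℂ)).const_mul (conj ξ ^ (2 * (k + 1)))
  refine h1.congr (Eventually.of_forall fun s => ?_)
  exact (hh_eq k ξ s).symm

theorem conj_div (ξ : ℂ) (hξ : ξ ≠ 0) (k : ℕ) :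
    conj ξ ^ (2 * (k + 1)) / (((‖ξ‖ ^ 2 : ℝ) : ℂ)) ^ (k + 1) = (conj ξ / ξ) ^ (k + 1) := by
  have h1 : ((‖ξ‖ ^ 2 : ℝ) : ℂ) = ξ * conj ξ := by
    rw [Complex.mul_conj, Complex.normSq_eq_norm_sq]
  have h2 : conj ξ ≠ 0 := (map_ne_zero _).2 hξ
  rw [h1, pow_mul, ← div_pow]
  congr 1
  field_simp

theorem hh_integral (k : ℕ) {ξ : ℂ} (hξ : ξ ≠ 0) : ∫ s in Ioi (0 : ℝ), hh k ξ s =
    ((k.factorial : ℂ) / (Real.pi : ℂ) ^ (k + 1)) * (conj ξ / ξ) ^ (k + 1) := by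
  have ha : 0 < Real.pi * ‖ξ‖ ^ 2 := by have := norm_pos_iff.2 hξ; positivity
  simp only [hh_eq]
  rw [integral_const_mul, integral_complex_ofReal, gam1 k ha, ← conj_div ξ hξ]
  push_cast
  rw [mul_pow]
  have hπ : (Real.pi : ℂ) ≠ 0 := by exact_mod_cast Real.pi_ne_zero
  have h2 : (‖ξ‖ : ℂ) ≠ 0 := by exact_mod_cast (norm_pos_iff.2 hξ).ne'
  field_simp

theorem hh_norm (k : ℕ) {ξ : ℂ} (hξ : ξ ≠ 0) : ∫ s in Ioi (0 : ℝ), ‖hh k ξ s‖ =
    (k.factorial : ℝ) / Real.pi ^ (k + 1) := by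
  have hn := norm_pos_iff.2 hξ
  have ha : 0 < Real.pi * ‖ξ‖ ^ 2 := by positivity
  have h1 : ∫ s in Ioi (0 : ℝ), ‖hh k ξ s‖ = ∫ s in Ioi (0 : ℝ),
      ‖ξ‖ ^ (2 * (k + 1)) * (s ^ k * Real.exp (-((Real.pi * ‖ξ‖ ^ 2) * s))) := by
    refine setIntegral_congr_fun measurableSet_Ioi fun s hs => ?_
    have hs' : (0 : ℝ) < s := hs
    rw [hh_eq, norm_mul, norm_pow, Complex.norm_conj, Complex.norm_real, Real.norm_eq_abs,
      abs_of_pos (by positivity)]
  rw [h1, integral_const_mul, gam1 k ha, mul_pow, ← pow_mul]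
  field_simp

theorem EE_cont : Continuous fun p : ℂ × ℂ => EE p.1 p.2 := by
  unfold EE br
  fun_prop

theorem int1 (k : ℕ) (z : ℂ) (F : 𝓢(ℂ, ℂ)) :
    Integrable (Function.uncurry fun (ξ : ℂ) (s : ℝ) => EE z ξ * F ξ * hh k ξ s)
      ((volume : Measure ℂ).prod (volume.restrict (Ioi (0 : ℝ)))) := by
  have hF : Continuous F := F.continuous
  have hcont : Continuous (Function.uncurry fun (ξ : ℂ) (s : ℝ) => EE z ξ * F ξ * hh k ξ s) := by
    unfold EE br hh Function.uncurry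
    fun_prop
  rw [integrable_prod_iff hcont.aestronglyMeasurable]
  have h0 : ∀ᵐ ξ : ℂ, ξ ≠ 0 := by
    rw [ae_iff]
    simp
  refine ⟨?_, ?_⟩
  · filter_upwards [h0] with ξ hξ
    exact (hh_int k hξ).const_mul (EE z ξ * F ξ)
  · have h1 : Integrable (fun ξ : ℂ => ‖F ξ‖ * ((k.factorial : ℝ) / Real.pi ^ (k + 1))) :=
      F.integrable.norm.mul_const _
    refine h1.congr ?_
    filter_upwards [h0] with ξ hξ
    simp only [Function.uncurry_apply_pair, norm_mul, norm_EE, one_mul]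
    rw [integral_const_mul, hh_norm k hξ]

theorem step1 (k : ℕ) (z : ℂ) (f : 𝓢(ℂ, ℂ)) :
    ((k.factorial : ℂ) / (Real.pi : ℂ) ^ (k + 1)) * TT (k + 1) f z =
      ∫ s in Ioi (0 : ℝ), ∫ ξ, EE z ξ * (𝓕 f : 𝓢(ℂ, ℂ)) ξ * hh k ξ s := by
  rw [← integral_integral_swap (int1 k z (𝓕 f))]
  unfold TT
  rw [← integral_const_mul]
  have h0 : ∀ᵐ ξ : ℂ, ξ ≠ 0 := by
    rw [ae_iff]
    simp
  refine integral_congr_ae ?_
  filter_upwards [h0] with ξ hξ
  rw [integral_const_mul, hh_integral k hξ, Ft_eq]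
  unfold EE br
  ring

theorem gint (k : ℕ) {s : ℝ} (hs : 0 < s) : Integrable fun ξ : ℂ =>
    conj ξ ^ (2 * (k + 1)) * ((Real.exp (-(Real.pi * s * ‖ξ‖ ^ 2)) : ℝ) : ℂ) := by
  refine (Gk_int (2 * (k + 1)) hs 0 0).congr (Eventually.of_forall fun ξ => ?_)
  unfold Gk ph br
  simp only [Complex.zero_re, Complex.zero_im, zero_mul, add_zero, Complex.ofReal_zero, mul_zero,
    zero_sub]
  rw [Complex.ofReal_exp, Complex.ofReal_neg]

theorem step2 (k : ℕ) (z : ℂ) (f : 𝓢(ℂ, ℂ)) {s : ℝ} (hs : 0 < s) :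
    ∫ ξ, EE z ξ * (𝓕 f : 𝓢(ℂ, ℂ)) ξ * hh k ξ s =
      ((s ^ k : ℝ) : ℂ) * ∫ w, f w * ((I * conj (z - w) / s) ^ (2 * (k + 1)) *
        ((s : ℂ)⁻¹ * ((Real.exp (-(Real.pi * ‖z - w‖ ^ 2 / s)) : ℝ) : ℂ))) := by
  have hf : Continuous f := f.continuous
  have hint : Integrable (Function.uncurry fun (ξ w : ℂ) => EE (z - w) ξ *
      ((conj ξ ^ (2 * (k + 1)) * ((Real.exp (-(Real.pi * s * ‖ξ‖ ^ 2)) : ℝ) : ℂ)) * f w))
      ((volume : Measure ℂ).prod volume) := by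
    have h1 := (gint k hs).mul_prod (SchwartzMap.integrable f (μ := volume))
    have hc : Continuous fun p : ℂ × ℂ => EE (z - p.2) p.1 := by
      unfold EE br
      fun_prop
    refine h1.bdd_mul (c := 1) hc.aestronglyMeasurable (Eventually.of_forall fun p => ?_)
    rw [norm_EE]
  have h2 : ∫ ξ, EE z ξ * (𝓕 f : 𝓢(ℂ, ℂ)) ξ * hh k ξ s = ((s ^ k : ℝ) : ℂ) *
      ∫ ξ, ∫ w, EE (z - w) ξ * ((conj ξ ^ (2 * (k + 1)) *
        ((Real.exp (-(Real.pi * s * ‖ξ‖ ^ 2)) : ℝ) : ℂ)) * f w) := by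
    rw [← integral_const_mul]
    refine integral_congr_ae (Eventually.of_forall fun ξ => ?_)
    simp only
    rw [← Ft_eq, ← integral_const_mul, ← integral_const_mul, ← integral_mul_const]
    refine integral_congr_ae (Eventually.of_forall fun w => ?_)
    simp only
    rw [EE_sub]
    unfold hh
    ring
  rw [h2, integral_integral_swap hint]
  congr 1
  refine integral_congr_ae (Eventually.of_forall fun w => ?_)
  simp only
  rw [← hecke hs (z - w) (2 * (k + 1)), ← integral_const_mul]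
  refine integral_congr_ae (Eventually.of_forall fun ξ => ?_)
  simp only [EE]
  ring

theorem pow_id (k : ℕ) {s : ℝ} (hs : 0 < s) (x : ℂ) :
    ((s ^ k : ℝ) : ℂ) * ((I * conj x / s) ^ (2 * (k + 1)) * ((s : ℂ)⁻¹ *
      ((Real.exp (-(Real.pi * ‖x‖ ^ 2 / s)) : ℝ) : ℂ))) =
    ((-1) ^ (k + 1) * conj x ^ (2 * (k + 1))) *
      ((s⁻¹ ^ (k + 1 + 2) * Real.exp (-((Real.pi * ‖x‖ ^ 2) / s)) : ℝ) : ℂ) := by
  have hs0 : (s : ℂ) ≠ 0 := by exact_mod_cast hs.ne'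
  have h1 : (I * conj x / s) ^ (2 * (k + 1)) =
      (-1) ^ (k + 1) * conj x ^ (2 * (k + 1)) * ((s : ℂ)⁻¹) ^ (2 * (k + 1)) := by
    rw [div_eq_mul_inv, mul_pow, mul_pow, pow_mul I, I_sq]
  rw [h1]
  push_cast
  have h2 : (s : ℂ) ^ k * ((s : ℂ)⁻¹ ^ (2 * (k + 1)) * (s : ℂ)⁻¹) = (s : ℂ)⁻¹ ^ (k + 1 + 2) := by
    rw [← pow_succ, show 2 * (k + 1) + 1 = k + (k + 1 + 2) by ring, pow_add, ← mul_assoc,
      ← mul_pow, mul_inv_cancel₀ hs0, one_pow, one_mul]
  rw [← h2]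
  ring

theorem int3 (k : ℕ) (z : ℂ) (f : 𝓢(ℂ, ℂ)) {ρ : ℝ} (hρ : 0 < ρ)
    (hz : ∀ w, f w ≠ 0 → ρ ≤ ‖z - w‖) :
    Integrable (Function.uncurry fun (w : ℂ) (s : ℝ) => f w *
      (((-1) ^ (k + 1) * conj (z - w) ^ (2 * (k + 1))) *
      ((s⁻¹ ^ (k + 1 + 2) * Real.exp (-((Real.pi * ‖z - w‖ ^ 2) / s)) : ℝ) : ℂ)))
      ((volume : Measure ℂ).prod (volume.restrict (Ioi (0 : ℝ)))) := by
  have hf : Continuous f := f.continuous
  have hmeas : Measurable (Function.uncurry fun (w : ℂ) (s : ℝ) => f w *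
      (((-1) ^ (k + 1) * conj (z - w) ^ (2 * (k + 1))) *
      ((s⁻¹ ^ (k + 1 + 2) * Real.exp (-((Real.pi * ‖z - w‖ ^ 2) / s)) : ℝ) : ℂ))) := by
    unfold Function.uncurry
    refine (hf.measurable.comp measurable_fst).mul (Measurable.mul ?_ ?_)
    · have : Continuous fun p : ℂ × ℝ => (-1) ^ (k + 1) * conj (z - p.1) ^ (2 * (k + 1)) := by
        fun_prop
      exact this.measurable
    · refine Complex.measurable_ofReal.comp ?_
      refine (measurable_snd.inv.pow_const _).mul (Real.measurable_exp.comp ?_)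
      refine Measurable.neg (Measurable.div ?_ measurable_snd)
      have : Continuous fun p : ℂ × ℝ => Real.pi * ‖z - p.1‖ ^ 2 := by fun_prop
      exact this.measurable
  rw [integrable_prod_iff hmeas.aestronglyMeasurable]
  refine ⟨Eventually.of_forall fun w => ?_, ?_⟩
  · by_cases hw : f w = 0
    · simp only [Function.uncurry_apply_pair, hw, zero_mul]
      exact integrable_zero _ _ _
    · have h1 : 0 < ‖z - w‖ := hρ.trans_le (hz w hw)
      have h2 : 0 < Real.pi * ‖z - w‖ ^ 2 := by positivity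
      exact (((gam2i (k + 1) h2).ofReal (𝕜 := ℂ)).const_mul
        ((-1) ^ (k + 1) * conj (z - w) ^ (2 * (k + 1)))).const_mul (f w)
  · have h1 : Integrable (fun w : ℂ => ‖f w‖ *
        (((k + 1).factorial : ℝ) / (Real.pi ^ (k + 2) * ρ ^ 2))) := f.integrable.norm.mul_const _
    refine Integrable.mono' h1 ?_ (Eventually.of_forall fun w => ?_)
    · exact (hmeas.norm.aestronglyMeasurable.integral_prod_right')
    · rw [Real.norm_eq_abs, abs_of_nonneg (integral_nonneg fun s => norm_nonneg _)]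
      by_cases hw : f w = 0
      · simp only [Function.uncurry_apply_pair, hw, zero_mul, norm_zero, integral_zero]
        exact le_rfl
      · have h3 : 0 < ‖z - w‖ := hρ.trans_le (hz w hw)
        have h2 : 0 < Real.pi * ‖z - w‖ ^ 2 := by positivity
        have h4 : ∫ s in Ioi (0 : ℝ), ‖Function.uncurry (fun (w : ℂ) (s : ℝ) => f w *
            (((-1) ^ (k + 1) * conj (z - w) ^ (2 * (k + 1))) *
            ((s⁻¹ ^ (k + 1 + 2) * Real.exp (-((Real.pi * ‖z - w‖ ^ 2) / s)) : ℝ) : ℂ))) (w, s)‖ =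
            ∫ s in Ioi (0 : ℝ), ‖f w‖ * ‖z - w‖ ^ (2 * (k + 1)) *
              (s⁻¹ ^ (k + 1 + 2) * Real.exp (-((Real.pi * ‖z - w‖ ^ 2) / s))) := by
          refine setIntegral_congr_fun measurableSet_Ioi fun s hs => ?_
          have hs' : (0 : ℝ) < s := hs
          simp only [Function.uncurry_apply_pair]
          rw [norm_mul, norm_mul, norm_mul, norm_pow, norm_neg, norm_one, one_pow, one_mul,
            norm_pow, Complex.norm_conj, Complex.norm_real, Real.norm_eq_abs,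
            abs_of_pos (by positivity)]
          ring
        rw [h4, integral_const_mul, gam2 (k + 1) h2]
        have h5 : ‖z - w‖ ^ (2 * (k + 1)) * (((k + 1).factorial : ℝ) /
            (Real.pi * ‖z - w‖ ^ 2) ^ (k + 1 + 1)) =
            ((k + 1).factorial : ℝ) / (Real.pi ^ (k + 2) * ‖z - w‖ ^ 2) := by
          rw [mul_pow, ← pow_mul]
          have h6 : ‖z - w‖ ^ (2 * (k + 1 + 1)) = ‖z - w‖ ^ (2 * (k + 1)) * ‖z - w‖ ^ 2 := by
            rw [← pow_add]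
            congr 1
          rw [h6]
          field_simp
        rw [mul_assoc, h5]
        refine mul_le_mul_of_nonneg_left ?_ (norm_nonneg _)
        refine div_le_div_of_nonneg_left (by positivity) (by positivity) ?_
        refine mul_le_mul_of_nonneg_left ?_ (by positivity)
        exact pow_le_pow_left₀ hρ.le (hz w hw) 2

theorem kn_id (k : ℕ) {x : ℂ} (hx : x ≠ 0) :
    ((-1) ^ (k + 1) * conj x ^ (2 * (k + 1))) *
      ((((k + 1).factorial : ℝ) / (Real.pi * ‖x‖ ^ 2) ^ (k + 1 + 1) : ℝ) : ℂ) =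
    ((k.factorial : ℂ) / (Real.pi : ℂ) ^ (k + 1)) * Kn (k + 1) x := by
  have h1 : ((‖x‖ : ℂ)) ^ 2 = x * conj x := by
    rw [Complex.mul_conj, Complex.normSq_eq_norm_sq]
    push_cast
    rfl
  have h2 : conj x ≠ 0 := (map_ne_zero _).2 hx
  have hπ : (Real.pi : ℂ) ≠ 0 := by exact_mod_cast Real.pi_ne_zero
  unfold Kn
  push_cast
  rw [h1, Nat.factorial_succ]
  push_cast
  have h3 : conj x ^ (2 * (k + 1)) = conj x ^ k * conj x ^ (k + 1 + 1) := by
    rw [← pow_add]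
    congr 1
    ring
  rw [h3, mul_pow, mul_pow]
  field_simp
  rw [pow_succ (Real.pi : ℂ) (k + 1)]
  ring

/-- **KER** -/
theorem t : Pool.Agent.N892.BW.S_KER := by
  intro n hn f z hz
  obtain ⟨k, rfl⟩ : ∃ k, n = k + 1 := ⟨n - 1, by omega⟩
  obtain ⟨ρ, hρ, hball⟩ : ∃ ρ > 0, Metric.ball z ρ ⊆ (tsupport f)ᶜ :=
    Metric.isOpen_iff.1 (isClosed_tsupport f).isOpen_compl z hz
  have hsep : ∀ w, f w ≠ 0 → ρ ≤ ‖z - w‖ := by
    intro w hw
    by_contra hn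
    push Not at hn
    have h1 : w ∈ Metric.ball z ρ := by rw [Metric.mem_ball, dist_comm, dist_eq_norm]; exact hn
    exact hball h1 (subset_tsupport f hw)
  have hC : ((k.factorial : ℂ) / (Real.pi : ℂ) ^ (k + 1)) ≠ 0 := by
    have hπ : (Real.pi : ℂ) ≠ 0 := by exact_mod_cast Real.pi_ne_zero
    have : (k.factorial : ℂ) ≠ 0 := by exact_mod_cast k.factorial_ne_zero
    positivity
  refine mul_left_cancel₀ hC ?_
  rw [step1, ← integral_const_mul]
  have h1 : ∫ s in Ioi (0 : ℝ), ∫ ξ, EE z ξ * (𝓕 f : 𝓢(ℂ, ℂ)) ξ * hh k ξ s =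
      ∫ s in Ioi (0 : ℝ), ∫ w, f w * (((-1) ^ (k + 1) * conj (z - w) ^ (2 * (k + 1))) *
      ((s⁻¹ ^ (k + 1 + 2) * Real.exp (-((Real.pi * ‖z - w‖ ^ 2) / s)) : ℝ) : ℂ)) := by
    refine setIntegral_congr_fun measurableSet_Ioi fun s hs => ?_
    have hs' : (0 : ℝ) < s := hs
    rw [step2 k z f hs', ← integral_const_mul]
    refine integral_congr_ae (Eventually.of_forall fun w => ?_)
    simp only
    rw [← pow_id k hs' (z - w)]
    ring
  rw [h1, ← integral_integral_swap (int3 k z f hρ hsep)]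
  refine integral_congr_ae (Eventually.of_forall fun w => ?_)
  simp only
  by_cases hw : f w = 0
  · simp [hw]
  · have h3 : 0 < ‖z - w‖ := hρ.trans_le (hsep w hw)
    have h2 : 0 < Real.pi * ‖z - w‖ ^ 2 := by positivity
    rw [integral_const_mul, integral_const_mul, integral_complex_ofReal, gam2 (k + 1) h2,
      kn_id k (norm_pos_iff.1 h3)]
    ring

end Pool.Agent.N892.BW.KER
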