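import Pool.Agent.N892.BW.Stm2
import Pool.Agent.N892.BW.KER

/-!
BW/REP: the symbol of the truncated kernel. By helper774.
-/

set_option autoImplicit false

open MeasureTheory Filter Topology Complex
open scoped ComplexConjugate ContDiff FourierTransform SchwartzMap

namespace Pool.Agent.N892.BW.REP

theorem norm_e2 (x ξ : ℂ) : ‖e2 x ξ‖ = 1 := KER.norm_EE x ξ

theorem e2_cont : Continuous fun p : ℂ × ℂ => e2 p.1 p.2 := KER.EE_cont

theorem conj_e2 (x ξ : ℂ) : conj (e2 x ξ) =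
    Complex.exp (-(2 * (Real.pi : ℂ) * Complex.I * ((x.re * ξ.re + x.im * ξ.im : ℝ) : ℂ))) := by
  rw [e2, ← Complex.exp_conj]
  congr 1
  simp only [map_mul, Complex.conj_ofReal, Complex.conj_I, map_ofNat]
  ring

theorem e2_sub_left (x u ξ : ℂ) : e2 (x - u) ξ = e2 x ξ * conj (e2 u ξ) := by
  rw [conj_e2, e2, e2, ← Complex.exp_add]
  congr 1
  simp only [Complex.sub_re, Complex.sub_im]
  push_cast
  ring

theorem e2_sub_right (x η ξ : ℂ) : e2 x (η - ξ) = e2 x η * conj (e2 x ξ) := by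
  rw [conj_e2, e2, e2, ← Complex.exp_add]
  congr 1
  simp only [Complex.sub_re, Complex.sub_im]
  push_cast
  ring

theorem e2_mul_conj (x ξ : ℂ) : e2 x ξ * conj (e2 x ξ) = 1 := by
  rw [Complex.mul_conj, Complex.normSq_eq_norm_sq, norm_e2]
  norm_num

theorem e2_mul_sub (x η ξ : ℂ) : e2 x ξ * e2 x (η - ξ) = e2 x η := by
  rw [e2_sub_right, mul_comm (e2 x η), ← mul_assoc, e2_mul_conj, one_mul]

/-- `Fi h` is a Schwartz function -/
theorem Fi_schwartz (h : 𝓢(ℂ, ℂ)) (x : ℂ) : Fi h x = (𝓕⁻ h : 𝓢(ℂ, ℂ)) x := by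
  rw [SchwartzMap.fourierInv_coe, Real.fourierInv_eq', Fi]
  refine integral_congr_ae (Eventually.of_forall fun ξ => ?_)
  simp only [smul_eq_mul]
  rw [KER.inner_eq, e2]
  congr 2
  push_cast
  ring

theorem Fi_smooth {h : ℂ → ℂ} (hs : ContDiff ℝ ∞ h) (hc : HasCompactSupport h) :
    ContDiff ℝ ∞ (Fi h) := by
  have h1 : Fi h = ((𝓕⁻ (hc.toSchwartzMap hs) : 𝓢(ℂ, ℂ)) : ℂ → ℂ) := by
    funext x
    rw [← Fi_schwartz]
    rfl
  rw [h1]
  exact (𝓕⁻ (hc.toSchwartzMap hs) : 𝓢(ℂ, ℂ)).smooth ⊤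

theorem Ft_schwartz {Ψ : ℂ → ℝ} (hs : ContDiff ℝ ∞ Ψ) (hc : HasCompactSupport Ψ) :
    ∃ F : 𝓢(ℂ, ℂ), ∀ ζ, Ft Ψ ζ = F ζ := by
  have hs' : ContDiff ℝ ∞ (fun x => (Ψ x : ℂ)) := Complex.ofRealCLM.contDiff.comp hs
  have hc' : HasCompactSupport (fun x => (Ψ x : ℂ)) := by
    refine hc.comp_left (g := fun t : ℝ => (t : ℂ)) ?_
    simp
  refine ⟨𝓕 (hc'.toSchwartzMap hs'), fun ζ => ?_⟩
  rw [← KER.Ft_eq, Ft]
  refine integral_congr_ae (Eventually.of_forall fun x => ?_)
  simp only [HasCompactSupport.toSchwartzMap_toFun, conj_e2]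

theorem Ft_int {Ψ : ℂ → ℝ} (hs : ContDiff ℝ ∞ Ψ) (hc : HasCompactSupport Ψ) :
    Integrable (Ft Ψ) := by
  obtain ⟨F, hF⟩ := Ft_schwartz hs hc
  have : Ft Ψ = F := funext hF
  rw [this]
  exact F.integrable

theorem sy_meas (n : ℕ) : Measurable (sy n) := by
  have : Measurable fun ξ : ℂ => conj ξ / ξ :=
    (Complex.continuous_conj.measurable).div measurable_id
  exact this.pow_const n

theorem sy_norm (n : ℕ) (ξ : ℂ) : ‖sy n ξ‖ ≤ 1 := by
  rw [sy, norm_pow, norm_div, Complex.norm_conj]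
  refine pow_le_one₀ (by positivity) ?_
  exact div_self_le_one _

theorem Ft_scale (Θ : ℂ → ℝ) {s : ℝ} (hs : 0 < s) (ζ : ℂ) :
    Ft (fun x => Θ (((s⁻¹ : ℝ) : ℂ) * x)) ζ = (s : ℂ) ^ 2 * Ft Θ ((s : ℂ) * ζ) := by
  have h1 := Measure.integral_comp_smul (volume : Measure ℂ)
    (fun x : ℂ => conj (e2 x ((s : ℂ) * ζ)) * (Θ x : ℂ)) (s⁻¹)
  rw [Complex.finrank_real_complex] at h1
  have h2 : |((s⁻¹ ^ 2)⁻¹ : ℝ)| = s ^ 2 := by
    rw [inv_pow, inv_inv, abs_of_pos (by positivity)]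
  rw [h2] at h1
  have h3 : ∀ x : ℂ, conj (e2 (s⁻¹ • x) ((s : ℂ) * ζ)) = conj (e2 x ζ) := by
    intro x
    congr 1
    unfold e2
    congr 3
    simp only [Complex.real_smul, Complex.mul_re, Complex.mul_im, Complex.ofReal_re,
      Complex.ofReal_im]
    field_simp
    ring
  unfold Ft
  rw [show ((s : ℂ) ^ 2) * ∫ x, conj (e2 x ((s : ℂ) * ζ)) * (Θ x : ℂ) =
    (s ^ 2) • ∫ x, conj (e2 x ((s : ℂ) * ζ)) * (Θ x : ℂ) by
      rw [Complex.real_smul]; push_cast; rfl]
  rw [← h1]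
  refine integral_congr_ae (Eventually.of_forall fun x => ?_)
  simp only
  rw [h3, Complex.real_smul]

theorem fub1 {ψ : ℂ → ℝ} (hψ : ContDiff ℝ ∞ ψ) (hψc : HasCompactSupport ψ) {h : ℂ → ℂ}
    (hh : Integrable h) (x ξ : ℂ) :
    ∫ w, conj (e2 w ξ) * ((ψ (x - w) : ℂ) * Fi h w) =
      ∫ η, h η * (e2 x (η - ξ) * Ft ψ (η - ξ)) := by
  have hψi : Integrable (fun w => ((ψ (x - w) : ℝ) : ℂ)) := by
    have h1 : Integrable ψ := hψ.continuous.integrable_of_hasCompactSupport hψc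
    exact (h1.comp_sub_left x).ofReal
  have hint : Integrable (Function.uncurry fun (w η : ℂ) => (conj (e2 w ξ) * e2 w η) *
      (((ψ (x - w) : ℝ) : ℂ) * h η)) ((volume : Measure ℂ).prod volume) := by
    have h1 := hψi.mul_prod hh
    have hc : Continuous fun p : ℂ × ℂ => conj (e2 p.1 ξ) * e2 p.1 p.2 := by
      have h2 : Continuous fun p : ℂ × ℂ => e2 p.1 ξ :=
        e2_cont.comp (continuous_fst.prodMk continuous_const)
      exact (Complex.continuous_conj.comp h2).mul e2_cont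
    refine h1.bdd_mul (c := 1) hc.aestronglyMeasurable (Eventually.of_forall fun p => ?_)
    rw [norm_mul, Complex.norm_conj, norm_e2, norm_e2, one_mul]
  have h2 : ∫ w, conj (e2 w ξ) * ((ψ (x - w) : ℂ) * Fi h w) =
      ∫ w, ∫ η, (conj (e2 w ξ) * e2 w η) * (((ψ (x - w) : ℝ) : ℂ) * h η) := by
    refine integral_congr_ae (Eventually.of_forall fun w => ?_)
    simp only [Fi]
    rw [← integral_const_mul, ← integral_const_mul]
    refine integral_congr_ae (Eventually.of_forall fun η => ?_)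
    simp only
    ring
  rw [h2, integral_integral_swap hint]
  refine integral_congr_ae (Eventually.of_forall fun η => ?_)
  simp only
  have h3 : ∀ w : ℂ, (conj (e2 w ξ) * e2 w η) * (((ψ (x - w) : ℝ) : ℂ) * h η) =
      h η * (e2 (x - (x - w)) (η - ξ) * ((ψ (x - w) : ℝ) : ℂ)) := by
    intro w
    rw [sub_sub_cancel, e2_sub_right]
    ring
  simp only [h3]
  rw [integral_const_mul]
  congr 1
  rw [integral_sub_left_eq_self (fun u => e2 (x - u) (η - ξ) * ((ψ u : ℝ) : ℂ)) volume x, Ft,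
    ← integral_const_mul]
  refine integral_congr_ae (Eventually.of_forall fun u => ?_)
  simp only
  rw [e2_sub_left]
  ring

theorem fub2 (n : ℕ) {F h : ℂ → ℂ} (hF : Integrable F) (hh : Integrable h) (x : ℂ) :
    ∫ ξ, e2 x ξ * (sy n ξ * ∫ η, h η * (e2 x (η - ξ) * F (η - ξ))) =
      ∫ η, e2 x η * ((∫ ζ, F ζ * sy n (η - ζ)) * h η) := by
  have hF' : Integrable (fun z => F (-z)) := hF.comp_neg
  have h0 := hh.convolution_integrand (ContinuousLinearMap.mul ℝ ℂ) hF' (μ := volume) (ν := volume)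
  have hint : Integrable (Function.uncurry fun (ξ η : ℂ) => (sy n ξ * e2 x η) *
      (h η * F (η - ξ))) ((volume : Measure ℂ).prod volume) := by
    have hc : Measurable fun p : ℂ × ℂ => sy n p.1 * e2 x p.2 := by
      have h2 : Continuous fun p : ℂ × ℂ => e2 x p.2 :=
        e2_cont.comp (continuous_const.prodMk continuous_snd)
      exact ((sy_meas n).comp measurable_fst).mul h2.measurable
    have h1 := h0.bdd_mul (c := 1) hc.aestronglyMeasurable (Eventually.of_forall fun p => by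
      rw [norm_mul, norm_e2, mul_one]; exact sy_norm n p.1)
    refine h1.congr (Eventually.of_forall fun p => ?_)
    simp only [Function.uncurry, ContinuousLinearMap.mul_apply']
    rw [neg_sub]
  have h2 : ∫ ξ, e2 x ξ * (sy n ξ * ∫ η, h η * (e2 x (η - ξ) * F (η - ξ))) =
      ∫ ξ, ∫ η, (sy n ξ * e2 x η) * (h η * F (η - ξ)) := by
    refine integral_congr_ae (Eventually.of_forall fun ξ => ?_)
    simp only
    rw [← integral_const_mul, ← integral_const_mul]
    refine integral_congr_ae (Eventually.of_forall fun η => ?_)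
    simp only
    rw [← e2_mul_sub x η ξ]
    ring
  rw [h2, integral_integral_swap hint]
  refine integral_congr_ae (Eventually.of_forall fun η => ?_)
  simp only
  have h3 : ∫ ξ, (sy n ξ * e2 x η) * (h η * F (η - ξ)) =
      (e2 x η * h η) * ∫ ξ, sy n ξ * F (η - ξ) := by
    rw [← integral_const_mul]
    refine integral_congr_ae (Eventually.of_forall fun ξ => ?_)
    simp only
    ring
  rw [h3, ← integral_sub_left_eq_self (fun ξ => sy n ξ * F (η - ξ)) volume η]
  have h4 : ∫ ζ, sy n (η - ζ) * F (η - (η - ζ)) = ∫ ζ, F ζ * sy n (η - ζ) := by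
    refine integral_congr_ae (Eventually.of_forall fun ζ => ?_)
    simp only
    rw [sub_sub_cancel]
    ring
  rw [h4]
  ring

/-- **REP**, without hypotheses -/
theorem t0 : Pool.Agent.N892.BW.S_REP := by
  intro Θ hΘ n r s a b h hn hr hrs ha hh x
  obtain ⟨hΘs, hΘ01, hΘ1, hΘ0⟩ := hΘ
  obtain ⟨hhs, hhb⟩ := hh
  have hs : 0 < s := by linarith
  have hΘc : HasCompactSupport Θ := by
    refine HasCompactSupport.intro (isCompact_closedBall (0 : ℂ) 2) fun y hy => ?_
    rw [Metric.mem_closedBall, dist_zero_right] at hy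
    push Not at hy
    exact hΘ0 y hy.le
  have hhc : HasCompactSupport h := by
    refine HasCompactSupport.intro (isCompact_closedBall (0 : ℂ) b) fun y hy => ?_
    rw [Metric.mem_closedBall, dist_zero_right] at hy
    by_contra hne
    exact hy (hhb y hne).2
  have hhi : Integrable h := hhs.continuous.integrable_of_hasCompactSupport hhc
  -- rescaled functions
  have hsc : ∀ c : ℝ, 0 < c → ContDiff ℝ ∞ (fun y : ℂ => Θ (((c⁻¹ : ℝ) : ℂ) * y)) ∧
      (∀ y : ℂ, ‖y‖ ≤ c → Θ (((c⁻¹ : ℝ) : ℂ) * y) = 1) ∧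
      (∀ y : ℂ, 2 * c ≤ ‖y‖ → Θ (((c⁻¹ : ℝ) : ℂ) * y) = 0) ∧
      HasCompactSupport (fun y : ℂ => Θ (((c⁻¹ : ℝ) : ℂ) * y)) := by
    intro c hc
    have hnorm : ∀ y : ℂ, ‖(((c⁻¹ : ℝ) : ℂ) * y)‖ = c⁻¹ * ‖y‖ := by
      intro y
      rw [norm_mul, Complex.norm_real, Real.norm_eq_abs, abs_of_pos (by positivity)]
    have h0 : ∀ y : ℂ, 2 * c ≤ ‖y‖ → Θ (((c⁻¹ : ℝ) : ℂ) * y) = 0 := by
      intro y hy
      refine hΘ0 _ ?_
      rw [hnorm, inv_mul_eq_div, le_div_iff₀ hc]
      exact hy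
    refine ⟨hΘs.comp (contDiff_const.mul contDiff_id), ?_, h0, ?_⟩
    · intro y hy
      refine hΘ1 _ ?_
      rw [hnorm, inv_mul_eq_div, div_le_one hc]
      exact hy
    · refine HasCompactSupport.intro (isCompact_closedBall (0 : ℂ) (2 * c)) fun y hy => ?_
      rw [Metric.mem_closedBall, dist_zero_right] at hy
      push Not at hy
      exact h0 y hy.le
  obtain ⟨hs1, hs2, hs3, hs4⟩ := hsc s hs
  obtain ⟨hr1, hr2, hr3, hr4⟩ := hsc r hr
  set ψ : ℂ → ℝ := fun x => Θ (((s⁻¹ : ℝ) : ℂ) * x) - Θ (((r⁻¹ : ℝ) : ℂ) * x) with hψdef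
  have hψs : ContDiff ℝ ∞ ψ := hs1.sub hr1
  have hψ0 : ∀ y : ℂ, 2 * s ≤ ‖y‖ → ψ y = 0 := by
    intro y hy
    simp only [hψdef]
    rw [hs3 y hy, hr3 y (by linarith), sub_zero]
  have hψ1 : ∀ y : ℂ, ‖y‖ ≤ r → ψ y = 0 := by
    intro y hy
    simp only [hψdef]
    rw [hs2 y (by linarith), hr2 y hy, sub_self]
  have hψc : HasCompactSupport ψ := by
    refine HasCompactSupport.intro (isCompact_closedBall (0 : ℂ) (2 * s)) fun y hy => ?_
    rw [Metric.mem_closedBall, dist_zero_right] at hy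
    push Not at hy
    exact hψ0 y hy.le
  have hFs : ContDiff ℝ ∞ (Fi h) := Fi_smooth hhs hhc
  -- the function g
  have hgs : ContDiff ℝ ∞ (fun w => ((ψ (x - w) : ℝ) : ℂ) * Fi h w) := by
    refine ContDiff.mul ?_ hFs
    exact Complex.ofRealCLM.contDiff.comp (hψs.comp (contDiff_const.sub contDiff_id))
  have hgc : HasCompactSupport (fun w => ((ψ (x - w) : ℝ) : ℂ) * Fi h w) := by
    refine HasCompactSupport.intro (isCompact_closedBall x (2 * s)) fun y hy => ?_
    rw [Metric.mem_closedBall, dist_comm, dist_eq_norm] at hy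
    push Not at hy
    rw [hψ0 _ hy.le, Complex.ofReal_zero, zero_mul]
  have hgt : x ∉ tsupport (fun w => ((ψ (x - w) : ℝ) : ℂ) * Fi h w) := by
    rw [notMem_tsupport_iff_eventuallyEq]
    filter_upwards [Metric.ball_mem_nhds x hr] with y hy
    rw [Metric.mem_ball, dist_comm, dist_eq_norm] at hy
    rw [hψ1 _ hy.le, Complex.ofReal_zero, zero_mul]
    rfl
  have hker := KER.t n hn (hgc.toSchwartzMap hgs) x hgt
  have hA : So n ψ (Fi h) x = ∫ w, Kn n (x - w) * (hgc.toSchwartzMap hgs) w := by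
    unfold So kk
    refine integral_congr_ae (Eventually.of_forall fun w => ?_)
    simp only [HasCompactSupport.toSchwartzMap_toFun]
    ring
  have hB : TT n (hgc.toSchwartzMap hgs) x =
      ∫ ξ, e2 x ξ * (sy n ξ * ∫ η, h η * (e2 x (η - ξ) * Ft ψ (η - ξ))) := by
    unfold TT
    refine integral_congr_ae (Eventually.of_forall fun ξ => ?_)
    simp only
    rw [← fub1 hψs hψc hhi x ξ]
    simp only [conj_e2]
    rfl
  rw [hA, ← hker, hB, fub2 n (Ft_int hψs hψc) hhi x]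
  unfold Fi
  refine integral_congr_ae (Eventually.of_forall fun η => ?_)
  simp only
  congr 2
  -- the symbol
  have hFt : ∀ ζ, Ft ψ ζ = (s : ℂ) ^ 2 * Ft Θ ((s : ℂ) * ζ) - (r : ℂ) ^ 2 * Ft Θ ((r : ℂ) * ζ) := by
    intro ζ
    rw [← Ft_scale Θ hs, ← Ft_scale Θ hr]
    unfold Ft
    rw [← integral_sub]
    · refine integral_congr_ae (Eventually.of_forall fun y => ?_)
      simp only [hψdef]
      push_cast
      ring
    · have h1 : Integrable (fun y : ℂ => ((Θ (((s⁻¹ : ℝ) : ℂ) * y) : ℝ) : ℂ)) :=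
        (hs1.continuous.integrable_of_hasCompactSupport hs4).ofReal
      refine h1.bdd_mul (c := 1) ?_ (Eventually.of_forall fun p => ?_)
      · have h2 : Continuous fun p : ℂ => e2 p ζ :=
          e2_cont.comp (continuous_id.prodMk continuous_const)
        exact (Complex.continuous_conj.comp h2).aestronglyMeasurable
      · rw [Complex.norm_conj, norm_e2]
    · have h1 : Integrable (fun y : ℂ => ((Θ (((r⁻¹ : ℝ) : ℂ) * y) : ℝ) : ℂ)) :=
        (hr1.continuous.integrable_of_hasCompactSupport hr4).ofReal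
      refine h1.bdd_mul (c := 1) ?_ (Eventually.of_forall fun p => ?_)
      · have h2 : Continuous fun p : ℂ => e2 p ζ :=
          e2_cont.comp (continuous_id.prodMk continuous_const)
        exact (Complex.continuous_conj.comp h2).aestronglyMeasurable
      · rw [Complex.norm_conj, norm_e2]
  have hmi : ∀ c : ℝ, 0 < c → ContDiff ℝ ∞ (fun y : ℂ => Θ (((c⁻¹ : ℝ) : ℂ) * y)) →
      HasCompactSupport (fun y : ℂ => Θ (((c⁻¹ : ℝ) : ℂ) * y)) →
      Integrable (fun ζ => ((c : ℂ) ^ 2 * Ft Θ ((c : ℂ) * ζ)) * sy n (η - ζ)) := by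
    intro c hc h1 h2
    have h3 := Ft_int h1 h2
    have h4 : Ft (fun y : ℂ => Θ (((c⁻¹ : ℝ) : ℂ) * y)) =
        fun ζ => (c : ℂ) ^ 2 * Ft Θ ((c : ℂ) * ζ) := funext fun ζ => Ft_scale Θ hc ζ
    rw [h4] at h3
    have h5 : Measurable fun ζ : ℂ => sy n (η - ζ) :=
      (sy_meas n).comp (measurable_const.sub measurable_id)
    have h6 := h3.bdd_mul (c := 1) h5.aestronglyMeasurable
      (Eventually.of_forall fun ζ => sy_norm n (η - ζ))
    refine h6.congr (Eventually.of_forall fun ζ => ?_)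
    simp only
    ring
  unfold mu
  rw [← integral_sub (hmi s hs hs1 hs4) (hmi r hr hr1 hr4)]
  refine integral_congr_ae (Eventually.of_forall fun ζ => ?_)
  simp only
  rw [hFt]
  ring

/-- **REP** -/
theorem t (_h1 : Pool.Agent.N892.BW.S_BAS) : Pool.Agent.N892.BW.S_REP := t0

end Pool.Agent.N892.BW.REP
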