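import Pool.Agent.N892.BW.Stm3

/-!
Powers of the Beurling transform, third part: REV, the reverse square function inequality (helper826).
-/

set_option autoImplicit false

open MeasureTheory ENNReal Filter Topology Complex
open scoped ComplexConjugate ContDiff

namespace Pool.Agent.N892.BW.REV

open Pool.Agent.N892.BW

theorem bd_zero {a b : ℝ} {h : ℂ → ℂ} (hh : Bd a b h) : Bd 0 b h :=
  ⟨hh.1, fun ξ hξ => ⟨norm_nonneg _, (hh.2 ξ hξ).2⟩⟩

theorem Fi_zero : Fi (fun _ => 0) = fun _ => 0 := by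
  funext x
  unfold Fi
  simp

theorem Nm_zero {m : ℕ} (hm : 1 ≤ m) : Nm m (fun _ => 0) = 0 := by
  unfold Nm
  simp
  omega

theorem nm_lt {m : ℕ} (hm : 1 ≤ m) {f : ℂ → ℂ} (hf : Nic2 f) : Nm m f < ⊤ := by
  obtain ⟨h1, h2, M, hM⟩ := hf
  have hM0 : 0 ≤ M := (norm_nonneg _).trans (hM 0)
  have h3 : Nm m f ≤ ∫⁻ x, ENNReal.ofReal (M ^ (2 * m - 1)) * ‖f x‖ₑ := by
    unfold Nm
    refine lintegral_mono fun x => ?_
    have e : ‖f x‖ₑ ^ (2 * m) = ‖f x‖ₑ ^ (2 * m - 1) * ‖f x‖ₑ := by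
      rw [← pow_succ]
      congr 1
      omega
    show ‖f x‖ₑ ^ (2 * m) ≤ _
    rw [e]
    refine mul_le_mul_left ?_ _
    rw [ENNReal.ofReal_pow hM0]
    refine pow_le_pow_left' ?_ _
    rw [← ofReal_norm]
    exact ENNReal.ofReal_le_ofReal (hM x)
  refine h3.trans_lt ?_
  rw [lintegral_const_mul _ h1.enorm]
  exact ENNReal.mul_lt_top ENNReal.ofReal_lt_top h2.2

theorem sm_zero (H : ℕ → ℂ → ℂ) : sm H 0 = fun _ => 0 := by
  funext ξ
  simp [sm]

theorem sm_succ (H : ℕ → ℂ → ℂ) (k : ℕ) : sm H (k + 1) = fun ξ => sm H k ξ + H k ξ := by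
  funext ξ
  simp [sm, Finset.sum_range_succ]

theorem sum_pow_le (s : Finset ℕ) (x : ℕ → ℝ≥0∞) (m : ℕ) (hm : 1 ≤ m) :
    ∑ k ∈ s, x k ^ m ≤ (∑ k ∈ s, x k) ^ m := by
  obtain ⟨n, rfl⟩ : ∃ n, m = n + 1 := ⟨m - 1, by omega⟩
  calc ∑ k ∈ s, x k ^ (n + 1) = ∑ k ∈ s, x k ^ n * x k := by simp [pow_succ]
    _ ≤ ∑ k ∈ s, (∑ j ∈ s, x j) ^ n * x k := by
        refine Finset.sum_le_sum fun k hk => ?_
        gcongr
        exact Finset.single_le_sum (f := x) (fun _ _ => zero_le) hk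
    _ = (∑ k ∈ s, x k) ^ (n + 1) := by rw [← Finset.mul_sum, pow_succ]

/-- absorption -/
theorem absorb {x s c θ : ℝ} {m : ℕ} (hm : 1 ≤ m) (hs : 0 ≤ s) (hc : 0 ≤ c) (hθ : θ = 1 / (m : ℝ))
    (h : x ≤ 2 * s + c * (s ^ θ * x ^ (1 - θ))) : x ≤ (4 + (2 * c) ^ m) * s := by
  have hp : 0 ≤ (2 * c) ^ m * s := by positivity
  by_cases h4 : x ≤ 4 * s
  · nlinarith
  push Not at h4
  have hx : 0 < x := by linarith
  have hm0 : (m : ℝ) ≠ 0 := by
    have : m ≠ 0 := by omega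
    exact_mod_cast this
  have e1 : x ^ θ * x ^ (1 - θ) = x := by
    rw [← Real.rpow_add hx]
    simp
  have h5 : 0 < x ^ (1 - θ) := Real.rpow_pos_of_pos hx _
  have h6 : x ^ θ ≤ 2 * c * s ^ θ := by
    refine le_of_mul_le_mul_right ?_ h5
    nlinarith
  have h7 : (x ^ θ) ^ m ≤ (2 * c * s ^ θ) ^ m := pow_le_pow_left₀ (by positivity) h6 m
  have e2 : ∀ y : ℝ, 0 ≤ y → (y ^ θ) ^ m = y := fun y hy => by
    rw [← Real.rpow_natCast, ← Real.rpow_mul hy, hθ, one_div_mul_cancel hm0, Real.rpow_one]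
  rw [mul_pow, e2 x hx.le, e2 s hs] at h7
  nlinarith

variable {m M : ℕ} {a b : ℕ → ℝ} {H : ℕ → ℂ → ℂ}

theorem step (hm : 1 ≤ m) (hS : Sep m M a b H) {k : ℕ} (hk : k < M) : b k ≤ a (k + 1) := by
  obtain ⟨h1, h2, h3, h4⟩ := hS k hk
  have : (1 : ℝ) ≤ m := by exact_mod_cast hm
  nlinarith

theorem mono_ab (hm : 1 ≤ m) (hS : Sep m M a b H) {j k : ℕ} (hjk : j ≤ k) (hk : k < M) :
    a j ≤ a k ∧ b j ≤ b k := by
  induction k, hjk using Nat.le_induction with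
  | base => exact ⟨le_rfl, le_rfl⟩
  | succ n hn ih =>
    obtain ⟨h1, h2⟩ := ih (by omega)
    have h3 := step hm hS (by omega : n < M)
    have h4 := (hS n (by omega)).2.1
    have h5 := (hS (n + 1) hk).2.1
    exact ⟨by linarith, by linarith⟩

theorem sm_bd (hm : 1 ≤ m) (hS : Sep m M a b H) {k : ℕ} (hk : k < M) : Bd 0 (b k) (sm H (k + 1)) := by
  constructor
  · unfold sm
    exact ContDiff.sum fun j hj => (hS j (by have := Finset.mem_range.1 hj; omega)).2.2.1.1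
  · intro ξ hξ
    refine ⟨norm_nonneg _, ?_⟩
    unfold sm at hξ
    obtain ⟨j, hj, hj0⟩ := Finset.exists_ne_zero_of_sum_ne_zero hξ
    have hj' := Finset.mem_range.1 hj
    exact (((hS j (by omega)).2.2.1.2 ξ hj0).2).trans (mono_ab hm hS (by omega : j ≤ k) hk).2

theorem sm_bd' (hm : 1 ≤ m) (hS : Sep m M a b H) : ∃ b₀ : ℝ, Bd 0 b₀ (sm H M) := by
  rcases M with _ | k
  · refine ⟨0, ?_, ?_⟩
    · rw [sm_zero]
      exact contDiff_const
    · intro ξ hξ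
      rw [sm_zero] at hξ
      exact absurd rfl hξ
  · exact ⟨b k, sm_bd hm hS (Nat.lt_succ_self k)⟩

theorem tail_bd (hm : 1 ≤ m) (hS : Sep m M a b H) {k : ℕ} (hk : k < M) :
    Bd (2 * b k) (b (M - 1)) (fun ξ => ∑ j ∈ Finset.Ico (k + 1) M, H j ξ) := by
  constructor
  · exact ContDiff.sum fun j hj => (hS j (Finset.mem_Ico.1 hj).2).2.2.1.1
  · intro ξ hξ
    obtain ⟨j, hj, hj0⟩ := Finset.exists_ne_zero_of_sum_ne_zero hξ
    obtain ⟨h1, h2⟩ := Finset.mem_Ico.1 hj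
    have h3 := (hS j h2).2.2.1.2 ξ hj0
    have h4 := (mono_ab hm hS h1 h2).1
    have h5 := (hS k hk).2.2.2
    have h6 : 0 < b k := (hS k hk).1.trans_le (hS k hk).2.1
    have h7 : (1 : ℝ) ≤ m := by exact_mod_cast hm
    refine ⟨by nlinarith, h3.2.trans (mono_ab hm hS (by omega : j ≤ M - 1) (by omega)).2⟩

theorem stepA (hm : 1 ≤ m) {C : ℝ} (hE : ∀ (b a' b' : ℝ) (h₁ h₂ : ℂ → ℂ), 0 ≤ b →
      (2 * (m : ℝ) - 1) * b < a' → Bd 0 b h₁ → Bd a' b' h₂ →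
      Nm m (Fi (fun ξ => h₁ ξ + h₂ ξ)) ≤ (Nm m (Fi h₁) + ENNReal.ofReal (1 + 1) * Nm m (Fi h₂)) +
        ENNReal.ofReal C * ∫⁻ x, ‖Fi h₂ x‖ₑ ^ 2 * ‖Fi h₁ x‖ₑ ^ (2 * m - 2))
    (hS : Sep m M a b H) : ∀ k, k ≤ M →
    Nm m (Fi (sm H k)) ≤ ENNReal.ofReal (1 + 1) * ∑ j ∈ Finset.range k, Nm m (Fi (H j)) +
      ENNReal.ofReal C * ∑ j ∈ Finset.range k, ∫⁻ x, ‖Fi (H j) x‖ₑ ^ 2 * ‖Fi (sm H j) x‖ₑ ^ (2 * m - 2) := by
  intro k
  induction k with
  | zero =>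
    intro _
    rw [sm_zero, Fi_zero, Nm_zero hm]
    exact zero_le
  | succ k ih =>
    intro hk
    have hk' : k < M := by omega
    have ihk := ih hk'.le
    have hkey : Nm m (Fi (fun ξ => sm H k ξ + H k ξ)) ≤
        (Nm m (Fi (sm H k)) + ENNReal.ofReal (1 + 1) * Nm m (Fi (H k))) +
        ENNReal.ofReal C * ∫⁻ x, ‖Fi (H k) x‖ₑ ^ 2 * ‖Fi (sm H k) x‖ₑ ^ (2 * m - 2) := by
      rcases k with _ | l
      · refine hE 0 (a 0) (b 0) (sm H 0) (H 0) le_rfl (by simpa using (hS 0 hk').1) ?_ (hS 0 hk').2.2.1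
        refine ⟨?_, ?_⟩
        · rw [sm_zero]
          exact contDiff_const
        · intro ξ hξ
          rw [sm_zero] at hξ
          exact absurd rfl hξ
      · have hl : l < M := by omega
        have h6 : 0 < b l := (hS l hl).1.trans_le (hS l hl).2.1
        have h7 : (1 : ℝ) ≤ m := by exact_mod_cast hm
        have h5 := (hS l hl).2.2.2
        exact hE (b l) (a (l + 1)) (b (l + 1)) (sm H (l + 1)) (H (l + 1)) h6.le (by nlinarith)
          (sm_bd hm hS hl) (hS (l + 1) hk').2.2.1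
    rw [sm_succ, Finset.sum_range_succ, Finset.sum_range_succ]
    refine hkey.trans ?_
    refine (add_le_add_left (add_le_add_left ihk _) _).trans (le_of_eq ?_)
    ring

theorem stepB (hm : 1 ≤ m) (hf : ∀ k, k < M → Measurable (Fi (H k))) :
    ∑ j ∈ Finset.range M, Nm m (Fi (H j)) ≤ Sq m M H := by
  unfold Nm Sq
  rw [← lintegral_finsetSum _ fun j hj =>
    ((hf j (Finset.mem_range.1 hj)).enorm.pow_const (2 * m))]
  refine lintegral_mono fun x => ?_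
  have := sum_pow_le (Finset.range M) (fun k => ‖Fi (H k) x‖ₑ ^ 2) m hm
  refine le_trans (le_of_eq ?_) this
  refine Finset.sum_congr rfl fun k _ => ?_
  rw [← pow_mul]

theorem stepC (hm : 1 ≤ m) (hf : ∀ k, k < M → Measurable (Fi (H k))) {W : ℂ → ℝ≥0∞} {K : ℝ≥0∞} {X : ℝ≥0∞}
    (hW : Measurable W) (hu : ∀ k, k < M → ∀ x, ‖Fi (sm H k) x‖ₑ ≤ W x)
    (hX : ∫⁻ x, W x ^ (2 * (m : ℝ)) ≤ K * X) :
    ∑ j ∈ Finset.range M, (∫⁻ x, ‖Fi (H j) x‖ₑ ^ 2 * ‖Fi (sm H j) x‖ₑ ^ (2 * m - 2)) ≤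
      (Sq m M H) ^ (1 / (m : ℝ)) * (K * X) ^ (1 - 1 / (m : ℝ)) := by
  have h1 : ∑ j ∈ Finset.range M, (∫⁻ x, ‖Fi (H j) x‖ₑ ^ 2 * ‖Fi (sm H j) x‖ₑ ^ (2 * m - 2)) ≤
      ∫⁻ x, (∑ j ∈ Finset.range M, ‖Fi (H j) x‖ₑ ^ 2) * W x ^ (2 * m - 2) := by
    have h2 : ∫⁻ x, (∑ j ∈ Finset.range M, ‖Fi (H j) x‖ₑ ^ 2) * W x ^ (2 * m - 2) =
        ∑ j ∈ Finset.range M, ∫⁻ x, ‖Fi (H j) x‖ₑ ^ 2 * W x ^ (2 * m - 2) := by
      have hmeas : ∀ j ∈ Finset.range M, Measurable fun x => ‖Fi (H j) x‖ₑ ^ 2 * W x ^ (2 * m - 2) :=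
        fun j hj => ((hf j (Finset.mem_range.1 hj)).enorm.pow_const 2).mul (hW.pow_const _)
      rw [← lintegral_finsetSum _ hmeas]
      refine lintegral_congr fun x => ?_
      rw [Finset.sum_mul]
    rw [h2]
    refine Finset.sum_le_sum fun j hj => lintegral_mono fun x => ?_
    gcongr
    exact hu j (Finset.mem_range.1 hj) x
  refine h1.trans ?_
  rcases Nat.lt_or_ge 1 m with hm2 | hm2
  · -- Hoelder
    have hm2' : (1 : ℝ) < m := by exact_mod_cast hm2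
    have hm0 : (0 : ℝ) < m := by linarith
    have hm1 : (m : ℝ) - 1 ≠ 0 := by
      intro h
      linarith
    set q : ℝ := (m : ℝ) / (m - 1) with hq
    have hpq : (m : ℝ).HolderConjugate q := by
      rw [Real.holderConjugate_iff]
      refine ⟨hm2', ?_⟩
      rw [hq]
      field_simp
      ring
    have hS : Measurable fun x => ∑ j ∈ Finset.range M, ‖Fi (H j) x‖ₑ ^ 2 :=
      Finset.measurable_sum _ fun j hj => (hf j (Finset.mem_range.1 hj)).enorm.pow_const 2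
    have hH := ENNReal.lintegral_mul_le_Lp_mul_Lq (volume : Measure ℂ) hpq
      (f := fun x => ∑ j ∈ Finset.range M, ‖Fi (H j) x‖ₑ ^ 2) (g := fun x => W x ^ (2 * m - 2))
      hS.aemeasurable (hW.pow_const _).aemeasurable
    refine (le_of_eq ?_).trans (hH.trans ?_)
    · rfl
    · have e1 : ∫⁻ x, (∑ j ∈ Finset.range M, ‖Fi (H j) x‖ₑ ^ 2) ^ (m : ℝ) = Sq m M H := by
        unfold Sq
        refine lintegral_congr fun x => ?_
        rw [ENNReal.rpow_natCast]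
      have e2 : ∫⁻ x, (W x ^ (2 * m - 2)) ^ q = ∫⁻ x, W x ^ (2 * (m : ℝ)) := by
        refine lintegral_congr fun x => ?_
        rw [← ENNReal.rpow_natCast, ← ENNReal.rpow_mul]
        congr 1
        rw [Nat.cast_sub (by omega), hq]
        push_cast
        field_simp
      have e3 : 1 / q = 1 - 1 / (m : ℝ) := by
        rw [hq]
        field_simp
      rw [e1, e2, e3]
      gcongr
      rw [sub_nonneg, div_le_one hm0]
      exact hm2'.le
  · have hm1 : m = 1 := by omega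
    subst hm1
    simp [Sq]

theorem t (h1 : S_BAS) (h2 : S_ENU) (h3 : S_LOW) (h4 : S_HLM) : S_REV := by
  intro m hm
  have hm1 : (1 : ℝ) ≤ m := by exact_mod_cast hm
  have hm0 : (0 : ℝ) < m := by linarith
  obtain ⟨C₁, hC₁, hE⟩ := h2 m 1 hm one_pos
  obtain ⟨C₂, hC₂, hL⟩ := h3
  obtain ⟨C₃, hC₃, hX⟩ := h4 (2 * (m : ℝ)) (by linarith)
  have hK : 0 ≤ C₂ ^ (2 * m) * C₃ := by positivity
  refine ⟨4 + (2 * (C₁ * (C₂ ^ (2 * m) * C₃) ^ (1 - 1 / (m : ℝ)))) ^ m, by positivity, ?_⟩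
  intro M a b H hS
  have hfm : ∀ k, k < M → Measurable (Fi (H k)) := fun k hk =>
    (h1 (b k) (H k) (bd_zero (hS k hk).2.2.1)).1.measurable
  obtain ⟨b₀, hb₀⟩ := sm_bd' hm hS
  have hum : Measurable fun z => ‖Fi (sm H M) z‖ₑ := (h1 b₀ _ hb₀).1.measurable.enorm
  have hfin : Nm m (Fi (sm H M)) ≠ ⊤ := (nm_lt hm (h1 b₀ _ hb₀).2.2.1).ne
  obtain ⟨hmx, hmx2⟩ := hX _ hum
  have hA := stepA hm hE hS M le_rfl
  have hB := stepB hm hfm (M := M) (H := H)
  have hC := stepC hm hfm (M := M) (H := H)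
    (W := fun x => ENNReal.ofReal C₂ * mx (fun z => ‖Fi (sm H M) z‖ₑ) x)
    (K := ENNReal.ofReal (C₂ ^ (2 * m) * C₃)) (X := Nm m (Fi (sm H M)))
    (hmx.const_mul _) (by
      intro k hk x
      rcases k with _ | l
      · rw [sm_zero, Fi_zero]
        simp
      · have hl : l < M := by omega
        have h6 : 0 < b l := (hS l hl).1.trans_le (hS l hl).2.1
        have h7 := hL (b l) (b (M - 1)) (sm H (l + 1)) (fun ξ => ∑ j ∈ Finset.Ico (l + 1) M, H j ξ) x 0 h6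
          (sm_bd hm hS hl) (tail_bd hm hS hl)
        have e : (fun ξ => sm H (l + 1) ξ + ∑ j ∈ Finset.Ico (l + 1) M, H j ξ) = sm H M := by
          funext ξ
          exact Finset.sum_range_add_sum_Ico (fun j => H j ξ) (by omega)
        rw [e] at h7
        simpa using h7) (by
      simp only [ENNReal.mul_rpow_of_nonneg _ _ (by positivity : (0 : ℝ) ≤ 2 * (m : ℝ))]
      rw [lintegral_const_mul _ (hmx.pow_const _)]
      have e1 : ENNReal.ofReal C₂ ^ (2 * (m : ℝ)) = ENNReal.ofReal (C₂ ^ (2 * m)) := by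
        rw [ENNReal.ofReal_pow hC₂, ← ENNReal.rpow_natCast]
        push_cast
        rfl
      rw [e1, ENNReal.ofReal_mul (by positivity), mul_assoc]
      refine mul_le_mul_right (hmx2.trans (le_of_eq ?_)) _
      congr 1
      unfold Nm
      refine lintegral_congr fun x => ?_
      rw [← ENNReal.rpow_natCast]
      push_cast
      rfl)
  have hD : Nm m (Fi (sm H M)) ≤ ENNReal.ofReal (1 + 1) * Sq m M H +
      ENNReal.ofReal C₁ * ((Sq m M H) ^ (1 / (m : ℝ)) *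
        (ENNReal.ofReal (C₂ ^ (2 * m) * C₃) * Nm m (Fi (sm H M))) ^ (1 - 1 / (m : ℝ))) :=
    hA.trans (add_le_add (mul_le_mul_right hB _) (mul_le_mul_right hC _))
  by_cases hStop : Sq m M H = ⊤
  · rw [hStop, ENNReal.mul_top]
    · exact le_top
    · rw [Ne, ENNReal.ofReal_eq_zero, not_le]
      positivity
  · generalize Nm m (Fi (sm H M)) = X at hD hfin ⊢
    generalize Sq m M H = S at hD hStop ⊢
    lift X to NNReal using hfin
    lift S to NNReal using hStop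
    have hθ : 0 ≤ 1 - 1 / (m : ℝ) := by
      rw [sub_nonneg, div_le_one hm0]
      exact hm1
    have e1 : (X : ℝ≥0∞) = ENNReal.ofReal (X : ℝ) := (ENNReal.ofReal_coe_nnreal).symm
    have e2 : (S : ℝ≥0∞) = ENNReal.ofReal (S : ℝ) := (ENNReal.ofReal_coe_nnreal).symm
    rw [e1, e2, ← ENNReal.ofReal_mul hK, ENNReal.ofReal_rpow_of_nonneg S.coe_nonneg (by positivity),
      ENNReal.ofReal_rpow_of_nonneg (by positivity) hθ,
      ← ENNReal.ofReal_mul (p := (S : ℝ) ^ (1 / (m : ℝ))) (by positivity),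
      ← ENNReal.ofReal_mul hC₁, ← ENNReal.ofReal_mul (by norm_num), ← ENNReal.ofReal_add (by positivity)
        (by positivity), ENNReal.ofReal_le_ofReal_iff (by positivity)] at hD
    rw [e1, e2, ← ENNReal.ofReal_mul (by positivity)]
    refine ENNReal.ofReal_le_ofReal ?_
    refine absorb hm S.coe_nonneg (by positivity) rfl ?_
    refine hD.trans (le_of_eq ?_)
    rw [Real.mul_rpow hK X.coe_nonneg]
    ring

end Pool.Agent.N892.BW.REV
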