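import Pool.Agent.N892.BW.RTT_E

/-!
BW4/RTT: interpolation of Riesz and Thorin for `T ^ n` on Schwartz functions. By helper310.
-/

set_option autoImplicit false

open MeasureTheory Filter Topology Complex Set
open scoped ComplexConjugate ENNReal SchwartzMap ContDiff

namespace Pool.Agent.N892.BW.RTT

/-- the step function of the averages -/
noncomputable def St (N : ℕ) (p : ℝ) (h : ℂ → ℂ) (x : ℂ) : ℝ≥0∞ :=
  ∑ m ∈ Bx (MM N), (Ec (LL N) m).indicator (fun _ => ‖Av (LL N) m h‖ₑ ^ p) x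

theorem St_meas (N : ℕ) (p : ℝ) (h : ℂ → ℂ) : Measurable (St N p h) := by
  unfold St
  exact Finset.measurable_fun_sum _ fun m _ => measurable_const.indicator (Ec_meas _ m)

theorem St_int (N : ℕ) (p : ℝ) (h : ℂ → ℂ) : ∫⁻ x, St N p h x =
    (∑ m ∈ Bx (MM N), ‖Av (LL N) m h‖ₑ ^ p) * (cc (LL N))⁻¹ := by
  unfold St
  rw [lintegral_finsetSum _ fun m _ => measurable_const.indicator (Ec_meas _ m), Finset.sum_mul]
  refine Finset.sum_congr rfl fun m _ => ?_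
  rw [lintegral_indicator (Ec_meas _ m), setLIntegral_const, Ec_vol (LL_pos N)]

theorem Ec_near {L : ℝ} (hL : 0 < L) {n : ℤ × ℤ} {x y : ℂ} (hx : x ∈ Ec L n) (hy : y ∈ Ec L n) :
    ‖y - x‖ ≤ 4 / L := by
  obtain ⟨d1, d2, d3, d4⟩ := Ec_bd hx
  obtain ⟨e1, e2, e3, e4⟩ := Ec_bd hy
  have f1 : |L * (y - x).re| ≤ 2 := by
    rw [Complex.sub_re, abs_le]
    constructor <;> nlinarith
  have f2 : |L * (y - x).im| ≤ 2 := by
    rw [Complex.sub_im, abs_le]
    constructor <;> nlinarith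
  rw [abs_mul, abs_of_pos hL] at f1 f2
  rw [le_div_iff₀ hL]
  have f3 := Complex.norm_le_abs_re_add_abs_im (y - x)
  nlinarith

theorem St_eq {N : ℕ} {x : ℂ} (hx : ‖x‖ + 1 ≤ N) (p : ℝ) (h : ℂ → ℂ) :
    St N p h x = ‖Av (LL N) (⌊LL N * x.re⌋, ⌊LL N * x.im⌋) h‖ₑ ^ p := by
  unfold St
  set m0 : ℤ × ℤ := (⌊LL N * x.re⌋, ⌊LL N * x.im⌋) with hm0
  have hmem : x ∈ Ec (LL N) m0 := ⟨rfl, rfl⟩
  obtain ⟨b1, b2⟩ := box_ok hx
  have hb : m0 ∈ Bx (MM N) := by
    unfold Bx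
    rw [Finset.mem_product, Finset.mem_Ico, Finset.mem_Ico]
    have c1 := neg_abs_le (LL N * x.re)
    have c2 := le_abs_self (LL N * x.re)
    have c3 := neg_abs_le (LL N * x.im)
    have c4 := le_abs_self (LL N * x.im)
    refine ⟨⟨?_, ?_⟩, ?_, ?_⟩
    · rw [Int.le_floor]; push_cast; linarith
    · rw [Int.floor_lt]; push_cast; linarith
    · rw [Int.le_floor]; push_cast; linarith
    · rw [Int.floor_lt]; push_cast; linarith
  rw [Finset.sum_eq_single m0]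
  · rw [Set.indicator_of_mem hmem]
  · intro m _ hm
    refine Set.indicator_of_notMem (fun hc => hm ?_) _
    exact Prod.ext hc.1.symm hc.2.symm
  · intro hc
    exact absurd hb hc

theorem St_lim {h : ℂ → ℂ} (hh : Continuous h) (p : ℝ) (x : ℂ) :
    Tendsto (fun N => St N p h x) atTop (𝓝 (‖h x‖ₑ ^ p)) := by
  have h1 : Tendsto (fun N : ℕ => Av (LL N) (⌊LL N * x.re⌋, ⌊LL N * x.im⌋) h) atTop (𝓝 (h x)) := by
    rw [Metric.tendsto_atTop]
    intro ε hε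
    obtain ⟨δ, hδ, hfδ⟩ := Metric.continuous_iff.1 hh x (ε / 2) (by positivity)
    obtain ⟨N0, hN0⟩ := exists_nat_gt (4 / δ)
    refine ⟨N0, fun N hN => ?_⟩
    have hNr : (N0 : ℝ) ≤ N := by exact_mod_cast hN
    have h2 : 4 / δ < N := hN0.trans_le hNr
    rw [dist_eq_norm]
    refine (Av_close (LL_pos N) _ hh (h x) (ε := ε / 2) fun y hy => ?_).trans_lt (by linarith)
    rw [← dist_eq_norm]
    refine (hfδ y ?_).le
    rw [dist_eq_norm]
    refine (Ec_near (LL_pos N) (x := x) ⟨rfl, rfl⟩ hy).trans_lt ?_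
    rw [div_lt_iff₀ (LL_pos N)]
    rw [div_lt_iff₀ hδ] at h2
    have : (N : ℝ) ≤ LL N := by unfold LL; linarith
    nlinarith
  have h2 : Tendsto (fun N : ℕ => ‖Av (LL N) (⌊LL N * x.re⌋, ⌊LL N * x.im⌋) h‖ₑ ^ p) atTop
      (𝓝 (‖h x‖ₑ ^ p)) :=
    ((ENNReal.continuous_rpow_const (y := p)).tendsto _).comp ((continuous_enorm.tendsto _).comp h1)
  refine h2.congr' ?_
  obtain ⟨N0, hN0⟩ := exists_nat_gt (‖x‖ + 1)
  filter_upwards [eventually_ge_atTop N0] with N hN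
  have hNr : (N0 : ℝ) ≤ N := by exact_mod_cast hN
  exact (St_eq (hN0.le.trans hNr) p h).symm

theorem main {n : ℕ} {p₀ p₁ p θ K₀ K₁ : ℝ} (hp0 : 2 ≤ p₀) (hlt0 : p₀ < p) (hlt1 : p < p₁)
    (hth : 1 / p = (1 - θ) / p₀ + θ / p₁) (hK0 : 0 < K₀) (hK1 : 0 < K₁) (B0 : Bo n p₀ K₀)
    (B1 : Bo n p₁ K₁) : Bo n p (K₀ ^ (1 - θ) * K₁ ^ θ) := by
  intro f
  have hcont := TS_cont n f
  have hle : ∀ N, ∫⁻ x, St N p (TS n f) x ≤
      ENNReal.ofReal (K₀ ^ (1 - θ) * K₁ ^ θ) ^ p * ∫⁻ x, ‖f x‖ₑ ^ p := by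
    intro N
    rw [St_int]
    obtain ⟨c0, ct⟩ := cc_ne (LL_pos N)
    have h1 := disc2 (LL_pos N) hp0 hlt0 hlt1 hth hK0 hK1 B0 B1 (Bx (MM N)) f
    calc _ ≤ (ENNReal.ofReal (K₀ ^ (1 - θ) * K₁ ^ θ) ^ p * (cc (LL N) * ∫⁻ x, ‖f x‖ₑ ^ p)) *
          (cc (LL N))⁻¹ := mul_le_mul_left h1 _
      _ = ENNReal.ofReal (K₀ ^ (1 - θ) * K₁ ^ θ) ^ p * ((cc (LL N) * (cc (LL N))⁻¹) *
          ∫⁻ x, ‖f x‖ₑ ^ p) := by ring
      _ = _ := by rw [ENNReal.mul_inv_cancel c0 ct, one_mul]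
  calc ∫⁻ x, ‖TS n f x‖ₑ ^ p = ∫⁻ x, liminf (fun N => St N p (TS n f) x) atTop := by
        refine lintegral_congr fun x => ?_
        exact (St_lim hcont p x).liminf_eq.symm
    _ ≤ liminf (fun N => ∫⁻ x, St N p (TS n f) x) atTop :=
        lintegral_liminf_le fun N => St_meas N p _
    _ ≤ _ := by
        refine (liminf_le_liminf (Eventually.of_forall hle)).trans ?_
        rw [liminf_const]

theorem t : Pool.Agent.N892.BW.S_RTT := by
  intro n p₀ p₁ p θ K₀ K₁ hp0 hlt hθ0 hθ1 hth hK0 hK1 H0 H1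
  have hp00 : 0 < p₀ := by linarith
  have hp10 : 0 < p₁ := by linarith
  rcases hθ0.eq_or_lt with h | h
  · rw [← h, sub_zero, Real.rpow_one, Real.rpow_zero, mul_one]
    have hp : p = p₀ := by
      rw [← h] at hth
      simp only [sub_zero, zero_div, add_zero] at hth
      have := congrArg (fun t : ℝ => t⁻¹) hth
      simpa using this
    rw [hp]
    exact H0
  rcases hθ1.eq_or_lt with h' | h'
  · rw [h', sub_self, Real.rpow_one, Real.rpow_zero, one_mul]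
    have hp : p = p₁ := by
      rw [h'] at hth
      simp only [sub_self, zero_div, zero_add] at hth
      have := congrArg (fun t : ℝ => t⁻¹) hth
      simpa using this
    rw [hp]
    exact H1
  have hlt' : 1 / p₁ < 1 / p₀ := one_div_lt_one_div_of_lt hp00 hlt
  have e1 : 1 / p < 1 / p₀ := by
    rw [hth, div_eq_mul_one_div (1 - θ), div_eq_mul_one_div θ]
    nlinarith
  have e2 : 1 / p₁ < 1 / p := by
    rw [hth, div_eq_mul_one_div (1 - θ), div_eq_mul_one_div θ]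
    nlinarith
  have hp' : 0 < p := by
    have : 0 < 1 / p := lt_trans (by positivity) e2
    exact one_div_pos.1 this
  have e3 : p₀ < p := lt_of_one_div_lt_one_div hp' (by simpa using e1) |> fun h => by simpa using h
  have e4 : p < p₁ := lt_of_one_div_lt_one_div hp10 (by simpa using e2) |> fun h => by simpa using h
  have B0 : Bo n p₀ K₀ := (Bo_iff n hp00).2 H0
  have B1 : Bo n p₁ K₁ := (Bo_iff n hp10).2 H1
  exact (Bo_iff n hp').1 (main hp0 e3 e4 hth hK0 hK1 B0 B1)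

end Pool.Agent.N892.BW.RTT
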