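import Pool.Agent.N892.BW.SPL_A

/-!
Project BW, part SPL: splitting into separated windows (helper31).
-/

set_option autoImplicit false

open MeasureTheory ENNReal Filter Topology Complex
open scoped ComplexConjugate ContDiff

namespace Pool.Agent.N892.BW.SPL

open Pool.Agent.N892.BW

/-! ### pigeonhole -/

theorem sum_blocks (N : ℕ → ℝ≥0∞) (J Mp : ℕ) :
    ∑ i ∈ Finset.range (Mp * J), N i =
      ∑ o ∈ Finset.range J, ∑ k ∈ Finset.range Mp, N (k * J + o) := by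
  rw [Finset.sum_comm]
  induction Mp with
  | zero => simp
  | succ M ih =>
    rw [Nat.succ_mul, Finset.sum_range_add, ih, Finset.sum_range_succ]

theorem pigeon (N : ℕ → ℝ≥0∞) (J Mp : ℕ) (hJ : 1 ≤ J) (A : ℝ≥0∞)
    (h : ∑ i ∈ Finset.range (Mp * J), N i ≤ A) :
    ∃ o < J, (J : ℝ≥0∞) * ∑ k ∈ Finset.range Mp, N (k * J + o) ≤ A := by
  obtain ⟨o, ho, hmin⟩ := Finset.exists_min_image (Finset.range J)
    (fun o => ∑ k ∈ Finset.range Mp, N (k * J + o)) ⟨0, Finset.mem_range.2 hJ⟩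
  refine ⟨o, Finset.mem_range.1 ho, ?_⟩
  rw [sum_blocks] at h
  refine le_trans ?_ h
  calc (J : ℝ≥0∞) * ∑ k ∈ Finset.range Mp, N (k * J + o)
      = ∑ _o' ∈ Finset.range J, ∑ k ∈ Finset.range Mp, N (k * J + o) := by
        rw [Finset.sum_const, Finset.card_range, nsmul_eq_mul]
    _ ≤ _ := Finset.sum_le_sum hmin

theorem pow_sum (M p : ℕ) (hM : 1 ≤ M) (x : ℕ → ℝ≥0∞) :
    (∑ k ∈ Finset.range M, x k) ^ p ≤ (M : ℝ≥0∞) ^ p * ∑ k ∈ Finset.range M, x k ^ p := by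
  obtain ⟨k0, hk0, hmax⟩ := Finset.exists_max_image (Finset.range M) x ⟨0, Finset.mem_range.2 hM⟩
  calc (∑ k ∈ Finset.range M, x k) ^ p ≤ ((M : ℝ≥0∞) * x k0) ^ p := by
        gcongr
        calc ∑ k ∈ Finset.range M, x k ≤ ∑ k ∈ Finset.range M, x k0 := Finset.sum_le_sum hmax
          _ = _ := by rw [Finset.sum_const, Finset.card_range, nsmul_eq_mul]
    _ = (M : ℝ≥0∞) ^ p * x k0 ^ p := mul_pow _ _ _
    _ ≤ _ := by
        gcongr
        exact Finset.single_le_sum (f := fun k => x k ^ p) (fun _ _ => bot_le) hk0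

/-! ### windows -/

def lo (J o : ℕ) : ℕ → ℕ
  | 0 => 0
  | k + 1 => k * J + o + 1

def hi (J o Mp k : ℕ) : ℕ := if k < Mp then k * J + o else Mp * J

theorem tele (J o Mp : ℕ) (u : ℕ → ℂ) :
    u (Mp * J) - u 0 = ∑ k ∈ Finset.range Mp, (u (k * J + o + 1) - u (k * J + o)) +
      ∑ k ∈ Finset.range (Mp + 1), (u (hi J o Mp k) - u (lo J o k)) := by
  rw [Finset.sum_sub_distrib, Finset.sum_sub_distrib,
    Finset.sum_range_succ (fun k => u (hi J o Mp k)),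
    Finset.sum_range_succ' (fun k => u (lo J o k))]
  have e1 : ∑ k ∈ Finset.range Mp, u (hi J o Mp k) = ∑ k ∈ Finset.range Mp, u (k * J + o) :=
    Finset.sum_congr rfl fun k hk => by
      unfold hi
      rw [if_pos (Finset.mem_range.1 hk)]
  have e2 : hi J o Mp Mp = Mp * J := by
    unfold hi
    rw [if_neg (lt_irrefl _)]
  rw [e1, e2]
  show _ = _ + (_ - (∑ k ∈ Finset.range Mp, u (k * J + o + 1) + u 0))
  ring

theorem hi_le (J o Mp k : ℕ) (hk : k < Mp + 1) : hi J o Mp k ≤ k * J + o := by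
  unfold hi
  split_ifs with h
  · exact le_rfl
  · have : k = Mp := by omega
    rw [this]
    omega

theorem lo_le_hi (J o Mp k : ℕ) (hJo : o < J) (hk : k < Mp + 1) : lo J o k ≤ hi J o Mp k := by
  cases k with
  | zero => exact Nat.zero_le _
  | succ j =>
    show j * J + o + 1 ≤ _
    unfold hi
    split_ifs with h
    · have : (j + 1) * J = j * J + J := Nat.succ_mul _ _
      omega
    · have h1 : Mp = j + 1 := by omega
      rw [h1]
      have : (j + 1) * J = j * J + J := Nat.succ_mul _ _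
      omega

theorem hi_lt (J o Mp k : ℕ) (hJo : o < J) (hk : k < Mp + 1) : hi J o Mp k + 1 ≤ lo J o k + J := by
  have h := hi_le J o Mp k hk
  cases k with
  | zero =>
    rw [Nat.zero_mul] at h
    show _ ≤ 0 + J
    omega
  | succ j =>
    have : (j + 1) * J = j * J + J := Nat.succ_mul _ _
    show _ ≤ j * J + o + 1 + J
    omega

theorem bd_mul {a b : ℝ} {h μ : ℂ → ℂ} (hh : Bd a b h) (hμ : ContDiff ℝ ∞ μ) :
    Bd a b (fun ξ => μ ξ * h ξ) :=
  ⟨hμ.mul hh.1, fun ξ hξ => hh.2 ξ (right_ne_zero_of_mul hξ)⟩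

theorem D_smooth (β β' : ℝ) : ContDiff ℝ ∞ (D β β') := (th_smooth _).sub (th_smooth _)

theorem sq_sum {be : ℕ → ℝ} (be0 : ∀ i, 0 < be i) (be2 : ∀ i, 2 * be i ≤ be (i + 1)) (L : ℕ)
    (ξ : ℂ) : ∑ i ∈ Finset.range L, ‖D (be i) (be (i + 1)) ξ‖ ^ 2 ≤ 1 := by
  have h1 : ∀ i, ‖D (be i) (be (i + 1)) ξ‖ ^ 2 ≤ (D (be i) (be (i + 1)) ξ).re := by
    intro i
    obtain ⟨r, hr0, hr1, hr⟩ := D_real (be0 i) (be2 i) ξ
    rw [hr, Complex.norm_real, Real.norm_eq_abs, abs_of_nonneg hr0, Complex.ofReal_re]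
    nlinarith
  refine (Finset.sum_le_sum fun i _ => h1 i).trans ?_
  have h2 : ∑ i ∈ Finset.range L, (D (be i) (be (i + 1)) ξ).re =
      (th (be L) ξ - th (be 0) ξ).re := by
    rw [← Finset.sum_range_sub (fun i => th (be i) ξ), Complex.re_sum]
    rfl
  rw [h2]
  obtain ⟨r, hr0, hr1, hr⟩ := th_real (be L) ξ
  obtain ⟨s, hs0, hs1, hs⟩ := th_real (be 0) ξ
  rw [hr, hs, Complex.sub_re, Complex.ofReal_re, Complex.ofReal_re]
  linarith

theorem Fi_sum (M : ℕ) {a b : ℝ} (F : ℕ → ℂ → ℂ) (hF : ∀ k, Bd a b (F k)) (x : ℂ) :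
    Fi (fun ξ => ∑ k ∈ Finset.range M, F k ξ) x = ∑ k ∈ Finset.range M, Fi (F k) x := by
  unfold Fi
  rw [← integral_finsetSum _ fun k _ => bd_int (hF k) x]
  refine integral_congr_ae (Eventually.of_forall fun ξ => ?_)
  show _ * (∑ k ∈ Finset.range M, F k ξ) = _
  rw [Finset.mul_sum]

theorem nm_sum (h1 : S_BAS) (m M : ℕ) (hM : 1 ≤ M) {a b : ℝ} (ha : 0 ≤ a) (F : ℕ → ℂ → ℂ)
    (hF : ∀ k, Bd a b (F k)) :
    Nm m (Fi (fun ξ => ∑ k ∈ Finset.range M, F k ξ)) ≤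
      (M : ℝ≥0∞) ^ (2 * m) * ∑ k ∈ Finset.range M, Nm m (Fi (F k)) := by
  have hc : ∀ k, Measurable fun x => ‖Fi (F k) x‖ₑ ^ (2 * m) := fun k =>
    ((h1 b (F k) (bd_mono (hF k) ha le_rfl)).1.measurable.enorm).pow_const _
  calc Nm m (Fi (fun ξ => ∑ k ∈ Finset.range M, F k ξ))
      ≤ ∫⁻ x, (M : ℝ≥0∞) ^ (2 * m) * ∑ k ∈ Finset.range M, ‖Fi (F k) x‖ₑ ^ (2 * m) := by
        refine lintegral_mono fun x => ?_
        show ‖Fi (fun ξ => ∑ k ∈ Finset.range M, F k ξ) x‖ₑ ^ (2 * m) ≤ _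
        rw [Fi_sum M F hF]
        refine le_trans ?_ (pow_sum M (2 * m) hM _)
        gcongr
        exact enorm_sum_le _ _
    _ = _ := by
        rw [lintegral_const_mul _ (Finset.measurable_sum _ fun k _ => hc k),
          lintegral_finsetSum _ fun k _ => hc k]
        rfl

/-- **SPL.** -/
theorem t (h1 : S_BAS) (h2 : S_CNV) (h3 : S_PLT) (h4 : S_PGL) : S_SPL := by
  intro m K κ hm hK hκ
  have hA := A1_nonneg
  have hC0 : 0 < 2 * A1 + 2 := by linarith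
  obtain ⟨C', hC', hP⟩ := h4 m (2 * A1 + 2) hm hC0.le
  obtain ⟨Mp, hMp⟩ : ∃ Mp : ℕ, 50 * K + 1 ≤ Mp := exists_nat_ge _
  obtain ⟨J, hJ⟩ : ∃ J : ℕ, (Mp : ℝ) ^ (2 * m) * C' / κ ^ (2 * m) + 1 ≤ J := exists_nat_ge _
  have hJ1' : (1 : ℝ) ≤ J := by
    have : 0 ≤ (Mp : ℝ) ^ (2 * m) * C' / κ ^ (2 * m) := by positivity
    linarith
  have hJ1 : 1 ≤ J := by exact_mod_cast hJ1'
  have hMp1 : 1 ≤ Mp := by
    have : (1 : ℝ) ≤ Mp := by linarith
    exact_mod_cast this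
  have hJ0 : (0 : ℝ) < J := by linarith
  have hτ0 : (0 : ℝ) < 1 / (100 * J) := by positivity
  refine ⟨1 / (100 * J), 2 * A1 + 2, Mp + 1, 2 ^ (100 * J), hτ0, hC0, ?_⟩
  intro n h hn hh
  have hn0 : (0 : ℝ) ≤ n := Nat.cast_nonneg _
  have hn1 : (1 : ℝ) ≤ n := by
    have : 1 ≤ n := le_trans Nat.one_le_two_pow hn
    exact_mod_cast this
  obtain ⟨y, hy⟩ : ∃ y : ℝ, y = (n : ℝ) ^ (1 / (100 * J) : ℝ) := ⟨_, rfl⟩
  have hy2 : 2 ≤ y := by
    have h5 : ((2 : ℝ) ^ (100 * J : ℕ)) ^ (1 / (100 * J) : ℝ) ≤ (n : ℝ) ^ (1 / (100 * J) : ℝ) :=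
      Real.rpow_le_rpow (by positivity) (by exact_mod_cast hn) hτ0.le
    rw [← Real.rpow_natCast, ← Real.rpow_mul (by norm_num)] at h5
    have e : ((100 * J : ℕ) : ℝ) * (1 / (100 * J) : ℝ) = 1 := by
      push_cast
      field_simp
    rw [e, Real.rpow_one, ← hy] at h5
    exact h5
  obtain ⟨ga, hga⟩ : ∃ ga : ℝ, ga = y ^ 2 := ⟨_, rfl⟩
  have hga2 : 2 * y ≤ ga := by nlinarith
  have hga4 : 4 ≤ ga := by nlinarith
  have hga0 : 0 < ga := by linarith
  have hgar : ga = (n : ℝ) ^ (1 / (50 * J) : ℝ) := by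
    rw [hga, hy, ← Real.rpow_natCast, ← Real.rpow_mul hn0]
    congr 1
    push_cast
    field_simp
    norm_num
  have hJ50 : (n : ℝ) ^ (1 / 50 : ℝ) = ga ^ J := by
    rw [hgar, ← Real.rpow_natCast, ← Real.rpow_mul hn0]
    congr 1
    field_simp
  obtain ⟨be, hbe⟩ : ∃ be : ℕ → ℝ, ∀ i, be i = ga ^ i / ga := ⟨fun i => ga ^ i / ga, fun _ => rfl⟩
  have be0 : ∀ i, 0 < be i := fun i => by
    rw [hbe]
    positivity
  have bes : ∀ i, be (i + 1) = ga * be i := fun i => by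
    rw [hbe, hbe, pow_succ]
    ring
  have be2 : ∀ i, 2 * be i ≤ be (i + 1) := fun i => by
    rw [bes]
    nlinarith [be0 i]
  have bem : Monotone be := monotone_nat_of_le_succ fun i => by
    have := be2 i
    have := be0 i
    linarith
  have beL : (n : ℝ) ^ K ≤ be (Mp * J) := by
    rw [hbe, le_div_iff₀ hga0, ← Real.rpow_natCast ga, hgar, ← Real.rpow_mul hn0,
      ← Real.rpow_add (by linarith)]
    apply Real.rpow_le_rpow_of_exponent_le hn1
    have e : (1 / (50 * J) : ℝ) * ((Mp * J : ℕ) : ℝ) = Mp / 50 := by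
      push_cast
      field_simp
    rw [e]
    have e2 : (1 / (50 * J) : ℝ) ≤ 1 / 50 := by
      apply one_div_le_one_div_of_le (by norm_num)
      linarith
    linarith
  have hh0 : Bd 0 ((n : ℝ) ^ K) h := bd_mono hh zero_le_one le_rfl
  -- the family of all windows
  obtain ⟨-, -, hnic, -, -⟩ := h1 _ h hh0
  obtain ⟨μ, hμ⟩ : ∃ μ : ℕ → ℂ → ℂ, ∀ i, μ i =
      if i < Mp * J then D (be i) (be (i + 1)) else fun _ => 0 := ⟨_, fun _ => rfl⟩
  have hμ1 : ∀ i, i < Mp * J → μ i = D (be i) (be (i + 1)) := fun i hi => by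
    rw [hμ, if_pos hi]
  have hμbd : ∀ i, Bd 0 (2 * be (Mp * J)) (μ i) := by
    intro i
    by_cases hi : i < Mp * J
    · rw [hμ1 i hi]
      refine bd_mono (D_bd (be0 i) (bem (Nat.le_succ i))) (be0 i).le ?_
      have := bem (Nat.succ_le_of_lt hi)
      linarith
    · rw [hμ, if_neg hi]
      exact ⟨contDiff_const, fun ξ hξ => absurd rfl hξ⟩
  have hsq : ∀ ξ, ∑ i ∈ Finset.range (Mp * J), ‖μ i ξ‖ ^ 2 ≤ 2 * A1 + 2 := by
    intro ξ
    have e : ∑ i ∈ Finset.range (Mp * J), ‖μ i ξ‖ ^ 2 =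
        ∑ i ∈ Finset.range (Mp * J), ‖D (be i) (be (i + 1)) ξ‖ ^ 2 :=
      Finset.sum_congr rfl fun i hi => by rw [hμ1 i (Finset.mem_range.1 hi)]
    rw [e]
    have := sq_sum be0 be2 (Mp * J) ξ
    linarith
  have hsum := hP (Mp * J) (fun i => Fi (μ i))
    (fun i hi => by
      show Continuous (Fi (μ i)) ∧ Integrable (Fi (μ i)) ∧ ∫ x, ‖Fi (μ i) x‖ ≤ 2 * A1 + 2
      rw [hμ1 i hi]
      exact int_D h1 (be0 i) (bem (Nat.le_succ i)))
    (h3 (2 * be (Mp * J)) (Mp * J) μ (2 * A1 + 2) hμbd hsq) (Fi h) hnic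
  have hsum2 : ∑ i ∈ Finset.range (Mp * J), Nm m (Fi (fun ξ => D (be i) (be (i + 1)) ξ * h ξ)) ≤
      ENNReal.ofReal C' * Nm m (Fi h) := by
    refine le_trans (le_of_eq ?_) hsum
    refine Finset.sum_congr rfl fun i hi => ?_
    congr 1
    funext x
    have h6 := h2 (max (2 * be (Mp * J)) ((n : ℝ) ^ K)) (μ i) h
      (bd_mono (hμbd i) le_rfl (le_max_left _ _)) (bd_mono hh0 le_rfl (le_max_right _ _)) x
    rw [← h6.2, hμ1 i (Finset.mem_range.1 hi)]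
  obtain ⟨o, ho, hpig⟩ := pigeon _ J Mp hJ1 _ hsum2
  have hbdk : ∀ k, Bd 1 ((n : ℝ) ^ K)
      (fun ξ => D (be (k * J + o)) (be (k * J + o + 1)) ξ * h ξ) :=
    fun k => bd_mul hh (D_smooth _ _)
  refine ⟨fun k ξ => D (be (lo J o k)) (be (hi J o Mp k)) ξ * h ξ, fun k => be (lo J o k),
    fun k => 2 * be (hi J o Mp k),
    fun ξ => ∑ k ∈ Finset.range Mp, D (be (k * J + o)) (be (k * J + o + 1)) ξ * h ξ,
    ?_, ?_, ?_, ?_⟩
  · -- the identity
    intro ξ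
    by_cases hξ : h ξ = 0
    · simp [hξ]
    · obtain ⟨g1, g2⟩ := hh.2 ξ hξ
      have e0 : th (be 0) ξ = 0 := by
        apply th_zero (be0 0)
        rw [hbe, pow_zero]
        have : 2 * (1 / ga) ≤ 1 := by
          rw [mul_one_div, div_le_one hga0]
          linarith
        linarith
      have eL : th (be (Mp * J)) ξ = 1 := th_one (be0 _) (g2.trans beL)
      have h7 := tele J o Mp (fun i => th (be i) ξ)
      rw [e0, eL, sub_zero] at h7
      show h ξ = ∑ k ∈ Finset.range Mp, D (be (k * J + o)) (be (k * J + o + 1)) ξ * h ξ +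
        ∑ k ∈ Finset.range (Mp + 1), D (be (lo J o k)) (be (hi J o Mp k)) ξ * h ξ
      rw [← Finset.sum_mul, ← Finset.sum_mul, ← add_mul]
      have h8 : ∑ k ∈ Finset.range Mp, D (be (k * J + o)) (be (k * J + o + 1)) ξ +
          ∑ k ∈ Finset.range (Mp + 1), D (be (lo J o k)) (be (hi J o Mp k)) ξ = 1 := h7.symm
      rw [h8, one_mul]
  · refine ⟨?_, fun ξ hξ => ?_⟩
    · exact ContDiff.sum fun k _ => (hbdk k).1
    · obtain ⟨k, -, hk⟩ := Finset.exists_ne_zero_of_sum_ne_zero hξ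
      exact (hbdk k).2 ξ hk
  · -- the rest is small
    refine (nm_sum h1 m Mp hMp1 zero_le_one _ hbdk).trans ?_
    have e1 : ((Mp : ℝ≥0∞)) ^ (2 * m) = ENNReal.ofReal ((Mp : ℝ) ^ (2 * m) / J) * (J : ℝ≥0∞) := by
      have e2 : (J : ℝ≥0∞) = ENNReal.ofReal (J : ℝ) := (ENNReal.ofReal_natCast J).symm
      rw [e2, ← ENNReal.ofReal_mul (by positivity), div_mul_cancel₀ _ hJ0.ne',
        ENNReal.ofReal_pow (Nat.cast_nonneg _), ENNReal.ofReal_natCast]
    rw [e1, mul_assoc]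
    refine (mul_le_mul_right hpig _).trans ?_
    rw [← mul_assoc, ← ENNReal.ofReal_mul (by positivity)]
    gcongr
    have hκ0 : 0 < κ ^ (2 * m) := by positivity
    have h9 : (Mp : ℝ) ^ (2 * m) * C' / κ ^ (2 * m) ≤ J := by linarith
    rw [div_le_iff₀ hκ0] at h9
    rw [div_mul_eq_mul_div, div_le_iff₀ hJ0]
    linarith
  · intro k hk
    have hlh := lo_le_hi J o Mp k ho hk
    have hlt := hi_lt J o Mp k ho hk
    have hle := hi_le J o Mp k hk
    refine ⟨bd_mul hh (D_smooth _ _), ⟨(D_smooth _ _).mul hh.1, fun ξ hξ =>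
      (D_bd (be0 _) (bem hlh)).2 ξ (left_ne_zero_of_mul hξ)⟩, be0 _, ?_, ?_, ?_, ?_⟩
    · show be (lo J o k) ≤ 2 * be (hi J o Mp k)
      have := bem hlh
      have := be0 (hi J o Mp k)
      linarith
    · show 2 * be (hi J o Mp k) ≤ be (lo J o k) * (n : ℝ) ^ (1 / 50 : ℝ)
      rw [hJ50]
      calc 2 * be (hi J o Mp k) ≤ be (hi J o Mp k + 1) := be2 _
        _ ≤ be (lo J o k + J) := bem hlt
        _ = be (lo J o k) * ga ^ J := by
            rw [hbe, hbe, pow_add]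
            ring
    · show 2 * be (hi J o Mp k) * (n : ℝ) ^ (1 / (100 * J) : ℝ) ≤ be (k * J + o + 1)
      rw [← hy, bes]
      have h10 := bem hle
      have h11 := be0 (hi J o Mp k)
      calc 2 * be (hi J o Mp k) * y = 2 * y * be (hi J o Mp k) := by ring
        _ ≤ ga * be (k * J + o) := by
            apply mul_le_mul hga2 h10 h11.le hga0.le
    · exact nm_D h1 h2 hm (be0 _) (bem hlh) hh0

end Pool.Agent.N892.BW.SPL
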