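import Pool.Agent.N892.BW.Stm3
import Pool.Agent.N892.BW.SPL

/-!
Project BW, part SPT: splitting into separated windows for all spectra (helper945), by the
construction of SPL (helper31).
-/

set_option autoImplicit false

open MeasureTheory ENNReal Filter Topology Complex
open scoped ComplexConjugate ContDiff

namespace Pool.Agent.N892.BW.SPT

open Pool.Agent.N892.BW

theorem lp_eq (β : ℝ) (ξ : ℂ) : lp β ξ = SPL.th β ξ := by
  unfold lp SPL.th
  rw [Complex.real_smul]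
  rfl

theorem bp_eq (β : ℕ → ℝ) (i : ℕ) (ξ : ℂ) : bp β i ξ = SPL.D (β i) (β (i + 1)) ξ := by
  unfold bp SPL.D
  rw [lp_eq, lp_eq]

theorem pow_sum_le (J m : ℕ) (hm : 1 ≤ m) (x : ℕ → ℝ≥0∞) :
    ∑ o ∈ Finset.range J, x o ^ m ≤ (∑ o ∈ Finset.range J, x o) ^ m := by
  obtain ⟨p, rfl⟩ : ∃ p, m = p + 1 := ⟨m - 1, by omega⟩
  calc ∑ o ∈ Finset.range J, x o ^ (p + 1)
      ≤ ∑ o ∈ Finset.range J, (∑ o ∈ Finset.range J, x o) ^ p * x o := by
        refine Finset.sum_le_sum fun o ho => ?_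
        rw [pow_succ]
        gcongr
        exact Finset.single_le_sum (f := x) (fun _ _ => bot_le) ho
    _ = _ := by rw [← Finset.mul_sum, pow_succ]

/-- pigeonhole for the powers of the partial square functions -/
theorem pigeon2 (J Mp m : ℕ) (hJ : 1 ≤ J) (hm : 1 ≤ m) (N : ℕ → ℂ → ℝ≥0∞)
    (hN : ∀ i, Measurable (N i)) (A : ℝ≥0∞)
    (h : ∫⁻ x, (∑ i ∈ Finset.range (Mp * J), N i x) ^ m ≤ A) :
    ∃ o < J, (J : ℝ≥0∞) * ∫⁻ x, (∑ k ∈ Finset.range Mp, N (k * J + o) x) ^ m ≤ A := by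
  obtain ⟨o, ho, hmin⟩ := Finset.exists_min_image (Finset.range J)
    (fun o => ∫⁻ x, (∑ k ∈ Finset.range Mp, N (k * J + o) x) ^ m) ⟨0, Finset.mem_range.2 hJ⟩
  refine ⟨o, Finset.mem_range.1 ho, le_trans ?_ h⟩
  calc (J : ℝ≥0∞) * ∫⁻ x, (∑ k ∈ Finset.range Mp, N (k * J + o) x) ^ m
      = ∑ _o' ∈ Finset.range J, ∫⁻ x, (∑ k ∈ Finset.range Mp, N (k * J + o) x) ^ m := by
        rw [Finset.sum_const, Finset.card_range, nsmul_eq_mul]
    _ ≤ ∑ o' ∈ Finset.range J, ∫⁻ x, (∑ k ∈ Finset.range Mp, N (k * J + o') x) ^ m :=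
        Finset.sum_le_sum hmin
    _ = ∫⁻ x, ∑ o' ∈ Finset.range J, (∑ k ∈ Finset.range Mp, N (k * J + o') x) ^ m := by
        rw [lintegral_finsetSum _ fun o' _ =>
          (Finset.measurable_sum _ fun k _ => hN (k * J + o')).pow_const m]
    _ ≤ ∫⁻ x, (∑ i ∈ Finset.range (Mp * J), N i x) ^ m := by
        refine lintegral_mono fun x => ?_
        show ∑ o' ∈ Finset.range J, (∑ k ∈ Finset.range Mp, N (k * J + o') x) ^ m ≤
          (∑ i ∈ Finset.range (Mp * J), N i x) ^ m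
        rw [SPL.sum_blocks (fun i => N i x)]
        exact pow_sum_le J m hm _

/-- **SPT.** -/
theorem t (h1 : S_BAS) (h2 : S_LPS) (h3 : S_REV) : S_SPT := by
  intro m κ hm hκ
  have hm1 : 1 ≤ m := by omega
  obtain ⟨C1, hC1, hLPS⟩ := h2 m hm1
  obtain ⟨C2, hC2, hREV⟩ := h3 m hm1
  obtain ⟨J, hJ⟩ : ∃ J : ℕ, C1 * C2 / κ ^ (2 * m) + 2 ≤ J := exists_nat_ge _
  have hJ2' : (2 : ℝ) ≤ J := by
    have : 0 ≤ C1 * C2 / κ ^ (2 * m) := by positivity
    linarith
  have hJ2 : 2 ≤ J := by exact_mod_cast hJ2'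
  have hJ1 : 1 ≤ J := by omega
  have hJ0 : (0 : ℝ) < J := by linarith
  have hτ0 : (0 : ℝ) < 1 / (100 * J) := by positivity
  refine ⟨1 / (100 * J), (8 * m + 8) ^ (100 * J), hτ0, ?_, ?_⟩
  · rw [div_le_div_iff₀ (by positivity) (by norm_num)]
    linarith
  intro n lam h hn hh
  have hn0 : (0 : ℝ) ≤ n := Nat.cast_nonneg _
  have hn1 : (1 : ℝ) ≤ n := by
    have : 1 ≤ n := le_trans (Nat.one_le_pow _ _ (by omega)) hn
    exact_mod_cast this
  obtain ⟨y, hy⟩ : ∃ y : ℝ, y = (n : ℝ) ^ (1 / (100 * J) : ℝ) := ⟨_, rfl⟩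
  have hy8 : 8 * (m : ℝ) + 8 ≤ y := by
    have h5 : ((8 * (m : ℝ) + 8) ^ (100 * J : ℕ)) ^ (1 / (100 * J) : ℝ) ≤
        (n : ℝ) ^ (1 / (100 * J) : ℝ) :=
      Real.rpow_le_rpow (by positivity) (by exact_mod_cast hn) hτ0.le
    rw [← Real.rpow_natCast, ← Real.rpow_mul (by positivity)] at h5
    have e : ((100 * J : ℕ) : ℝ) * (1 / (100 * J) : ℝ) = 1 := by
      push_cast
      field_simp
    rw [e, Real.rpow_one, ← hy] at h5
    exact h5
  have hmR : (0 : ℝ) ≤ m := Nat.cast_nonneg _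
  have hy2 : 2 ≤ y := by linarith
  obtain ⟨ga, hga⟩ : ∃ ga : ℝ, ga = y ^ 2 := ⟨_, rfl⟩
  have hga2 : 2 * y ≤ ga := by nlinarith
  have hga8 : 8 * (m : ℝ) ≤ ga := by nlinarith
  have hga4 : 4 ≤ ga := by nlinarith
  have hga0 : 0 < ga := by linarith
  have hgar : ga = (n : ℝ) ^ (1 / (50 * J) : ℝ) := by
    rw [hga, hy, ← Real.rpow_natCast, ← Real.rpow_mul hn0]
    congr 1
    push_cast
    field_simp
    norm_num
  have hJ50 : (n : ℝ) ^ (1 / 50 : ℝ) = ga ^ J := by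
    rw [hgar, ← Real.rpow_natCast, ← Real.rpow_mul hn0]
    congr 1
    field_simp
  obtain ⟨be, hbe⟩ : ∃ be : ℕ → ℝ, ∀ i, be i = ga ^ i / ga := ⟨fun i => ga ^ i / ga, fun _ => rfl⟩
  have be0 : ∀ i, 0 < be i := fun i => by
    rw [hbe]
    positivity
  have bes : ∀ i, be (i + 1) = ga * be i := fun i => by
    rw [hbe, hbe, pow_succ]
    ring
  have be2 : ∀ i, 2 * be i ≤ be (i + 1) := fun i => by
    rw [bes]
    nlinarith [be0 i]
  have bem : Monotone be := monotone_nat_of_le_succ fun i => by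
    have := be2 i
    have := be0 i
    linarith
  obtain ⟨Mp, hMp⟩ : ∃ Mp : ℕ, lam * ga < ga ^ Mp :=
    pow_unbounded_of_one_lt _ (by linarith)
  have beL : lam ≤ be (Mp * J) := by
    have h5 : lam ≤ be Mp := by
      rw [hbe, le_div_iff₀ hga0]
      exact hMp.le
    refine h5.trans (bem ?_)
    exact Nat.le_mul_of_pos_right _ hJ1
  have hbd0 : ∀ i, Bd 0 lam (fun ξ => bp be i ξ * h ξ) := by
    intro i
    have e : (fun ξ => bp be i ξ * h ξ) = fun ξ => SPL.D (be i) (be (i + 1)) ξ * h ξ := by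
      funext ξ
      rw [bp_eq]
    rw [e]
    exact SPL.bd_mono (SPL.bd_mul hh (SPL.D_smooth _ _)) zero_le_one le_rfl
  have hN : ∀ i, Measurable fun x => ‖Fi (fun ξ => bp be i ξ * h ξ) x‖ₑ ^ 2 := fun i =>
    ((h1 lam _ (hbd0 i)).1.measurable.enorm).pow_const _
  have hh0 : Bd 0 lam h := SPL.bd_mono hh zero_le_one le_rfl
  have hsum := hLPS (Mp * J) be lam h (be0 0) be2 hh0
  obtain ⟨o, ho, hpig⟩ := pigeon2 J Mp m hJ1 hm1
    (fun i x => ‖Fi (fun ξ => bp be i ξ * h ξ) x‖ₑ ^ 2) hN _ hsum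
  have hbdk : ∀ k, Bd 1 lam (fun ξ => SPL.D (be (k * J + o)) (be (k * J + o + 1)) ξ * h ξ) :=
    fun k => SPL.bd_mul hh (SPL.D_smooth _ _)
  refine ⟨Mp + 1, fun k ξ => SPL.D (be (SPL.lo J o k)) (be (SPL.hi J o Mp k)) ξ * h ξ,
    fun k => be (SPL.lo J o k), fun k => 2 * be (SPL.hi J o Mp k),
    sm (fun k ξ => SPL.D (be (k * J + o)) (be (k * J + o + 1)) ξ * h ξ) Mp, ?_, ?_, ?_, ?_, ?_⟩
  · -- the identity
    intro ξ
    by_cases hξ : h ξ = 0
    · simp [sm, hξ]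
    · obtain ⟨g1, g2⟩ := hh.2 ξ hξ
      have e0 : SPL.th (be 0) ξ = 0 := by
        apply SPL.th_zero (be0 0)
        rw [hbe, pow_zero]
        have : 2 * (1 / ga) ≤ 1 := by
          rw [mul_one_div, div_le_one hga0]
          linarith
        linarith
      have eL : SPL.th (be (Mp * J)) ξ = 1 := SPL.th_one (be0 _) (g2.trans beL)
      have h7 := SPL.tele J o Mp (fun i => SPL.th (be i) ξ)
      rw [e0, eL, sub_zero] at h7
      show h ξ = ∑ k ∈ Finset.range Mp, SPL.D (be (k * J + o)) (be (k * J + o + 1)) ξ * h ξ +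
        ∑ k ∈ Finset.range (Mp + 1), SPL.D (be (SPL.lo J o k)) (be (SPL.hi J o Mp k)) ξ * h ξ
      rw [← Finset.sum_mul, ← Finset.sum_mul, ← add_mul]
      have h8 : ∑ k ∈ Finset.range Mp, SPL.D (be (k * J + o)) (be (k * J + o + 1)) ξ +
          ∑ k ∈ Finset.range (Mp + 1), SPL.D (be (SPL.lo J o k)) (be (SPL.hi J o Mp k)) ξ = 1 :=
        h7.symm
      rw [h8, one_mul]
  · refine ⟨?_, fun ξ hξ => ?_⟩
    · exact ContDiff.sum fun k _ => (hbdk k).1
    · obtain ⟨k, -, hk⟩ := Finset.exists_ne_zero_of_sum_ne_zero hξ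
      exact (hbdk k).2 ξ hk
  · -- the rest is small
    have hsep : Sep m Mp (fun k => be (k * J + o)) (fun k => 2 * be (k * J + o + 1))
        (fun k ξ => SPL.D (be (k * J + o)) (be (k * J + o + 1)) ξ * h ξ) := by
      intro k _
      have hb1 := be0 (k * J + o + 1)
      refine ⟨be0 _, ?_, ?_, ?_⟩
      · have := bem (Nat.le_succ (k * J + o))
        show be (k * J + o) ≤ 2 * be (k * J + o + 1)
        have h6 : be (k * J + o) ≤ be (k * J + o + 1) := this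
        linarith
      · exact ⟨(SPL.D_smooth _ _).mul hh.1, fun ξ hξ =>
          (SPL.D_bd (be0 _) (bem (Nat.le_succ _))).2 ξ (left_ne_zero_of_mul hξ)⟩
      · show 4 * (m : ℝ) * (2 * be (k * J + o + 1)) ≤ be ((k + 1) * J + o)
        have h6 : k * J + o + 1 + 1 ≤ (k + 1) * J + o := by
          have : (k + 1) * J = k * J + J := Nat.succ_mul _ _
          omega
        calc 4 * (m : ℝ) * (2 * be (k * J + o + 1)) = 8 * (m : ℝ) * be (k * J + o + 1) := by ring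
          _ ≤ ga * be (k * J + o + 1) := mul_le_mul_of_nonneg_right hga8 hb1.le
          _ = be (k * J + o + 1 + 1) := (bes _).symm
          _ ≤ _ := bem h6
    have hrev := hREV Mp _ _ _ hsep
    refine hrev.trans ?_
    have e3 : Sq m Mp (fun k ξ => SPL.D (be (k * J + o)) (be (k * J + o + 1)) ξ * h ξ) =
        ∫⁻ x, (∑ k ∈ Finset.range Mp, ‖Fi (fun ξ => bp be (k * J + o) ξ * h ξ) x‖ₑ ^ 2) ^ m := by
      unfold Sq
      refine lintegral_congr fun x => ?_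
      congr 1
    rw [e3]
    have e1 : ENNReal.ofReal C2 = ENNReal.ofReal (C2 / J) * (J : ℝ≥0∞) := by
      have e2 : (J : ℝ≥0∞) = ENNReal.ofReal (J : ℝ) := (ENNReal.ofReal_natCast J).symm
      rw [e2, ← ENNReal.ofReal_mul (by positivity), div_mul_cancel₀ _ hJ0.ne']
    rw [e1, mul_assoc]
    refine (mul_le_mul_right hpig _).trans ?_
    rw [← mul_assoc, ← ENNReal.ofReal_mul (by positivity)]
    gcongr
    have hκ0 : 0 < κ ^ (2 * m) := by positivity
    have h9 : C1 * C2 / κ ^ (2 * m) ≤ J := by linarith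
    rw [div_le_iff₀ hκ0] at h9
    rw [div_mul_eq_mul_div, div_le_iff₀ hJ0]
    linarith
  · -- separation of the windows
    intro k hk
    have hlh := SPL.lo_le_hi J o Mp k ho hk
    have hle := SPL.hi_le J o Mp k hk
    have h11 := be0 (SPL.hi J o Mp k)
    have h10 := bem hle
    refine ⟨be0 _, ?_, ⟨(SPL.D_smooth _ _).mul hh.1, fun ξ hξ =>
      (SPL.D_bd (be0 _) (bem hlh)).2 ξ (left_ne_zero_of_mul hξ)⟩, ?_⟩
    · show be (SPL.lo J o k) ≤ 2 * be (SPL.hi J o Mp k)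
      have := bem hlh
      linarith
    · show 4 * (m : ℝ) * (2 * be (SPL.hi J o Mp k)) ≤ be (k * J + o + 1)
      rw [bes]
      calc 4 * (m : ℝ) * (2 * be (SPL.hi J o Mp k)) = 8 * (m : ℝ) * be (SPL.hi J o Mp k) := by ring
        _ ≤ ga * be (k * J + o) := mul_le_mul hga8 h10 h11.le hga0.le
  · intro k hk
    have hlh := SPL.lo_le_hi J o Mp k ho hk
    have hlt := SPL.hi_lt J o Mp k ho hk
    have hle := SPL.hi_le J o Mp k hk
    refine ⟨SPL.bd_mul hh (SPL.D_smooth _ _), ?_, ?_⟩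
    · show 2 * be (SPL.hi J o Mp k) ≤ be (SPL.lo J o k) * (n : ℝ) ^ (1 / 50 : ℝ)
      rw [hJ50]
      calc 2 * be (SPL.hi J o Mp k) ≤ be (SPL.hi J o Mp k + 1) := be2 _
        _ ≤ be (SPL.lo J o k + J) := bem hlt
        _ = be (SPL.lo J o k) * ga ^ J := by
            rw [hbe, hbe, pow_add]
            ring
    · show 2 * be (SPL.hi J o Mp k) * (n : ℝ) ^ (1 / (100 * J) : ℝ) ≤ be (k * J + o + 1)
      rw [← hy, bes]
      have h10 := bem hle
      have h11 := be0 (SPL.hi J o Mp k)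
      calc 2 * be (SPL.hi J o Mp k) * y = 2 * y * be (SPL.hi J o Mp k) := by ring
        _ ≤ ga * be (k * J + o) := by
            apply mul_le_mul hga2 h10 h11.le hga0.le

end Pool.Agent.N892.BW.SPT
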