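import Pool.Agent.N892.BW.Stm2

/-!
Powers of the Beurling transform, second part: STR (helper667).
-/

set_option autoImplicit false

open MeasureTheory ENNReal Filter Topology Complex
open scoped ComplexConjugate ContDiff

namespace Pool.Agent.N892.BW.STR

open Pool.Agent.N892.BW

theorem bd_zero {a b : ℝ} {h : ℂ → ℂ} (hh : Bd a b h) : Bd 0 b h :=
  ⟨hh.1, fun ξ hξ => ⟨norm_nonneg _, (hh.2 ξ hξ).2⟩⟩

theorem cut_mono {B r s s' : ℝ} {ψ : ℂ → ℝ} (h : Cut B r s ψ) (hs : s ≤ s') : Cut B r s' ψ :=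
  ⟨h.1, h.2.1, fun x hx => ⟨(h.2.2.1 x hx).1, (h.2.2.1 x hx).2.trans hs⟩, h.2.2.2⟩

theorem meas_Fi {g : ℂ → ℂ} (hg : Measurable g) : Measurable (Fi g) := by
  have h : StronglyMeasurable (Function.uncurry fun x ξ : ℂ => e2 x ξ * g ξ) := by
    apply Measurable.stronglyMeasurable
    unfold Function.uncurry e2
    fun_prop
  exact (h.integral_prod_right).measurable

theorem meas_sy (n : ℕ) : Measurable (sy n) := by
  unfold sy
  fun_prop

theorem meas_Kn (n : ℕ) : Measurable (Kn n) := by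
  unfold Kn
  fun_prop

theorem meas_So {n : ℕ} {B r s : ℝ} {ψ : ℂ → ℝ} (hψ : Cut B r s ψ) {g : ℂ → ℂ} (hg : Measurable g) :
    Measurable (So n ψ g) := by
  have hm : Measurable ψ := hψ.1.continuous.measurable
  have hk : Measurable (kk n ψ) := by
    unfold kk
    exact (meas_Kn n).mul (Complex.measurable_ofReal.comp hm)
  have h : StronglyMeasurable (Function.uncurry fun w z : ℂ => kk n ψ (w - z) * g z) := by
    apply Measurable.stronglyMeasurable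
    unfold Function.uncurry
    exact (hk.comp (measurable_fst.sub measurable_snd)).mul (hg.comp measurable_snd)
  exact (h.integral_prod_right).measurable

theorem nm_lt {m : ℕ} (hm : 1 ≤ m) {f : ℂ → ℂ} (hf : Nic2 f) : Nm m f < ⊤ := by
  obtain ⟨h1, h2, M, hM⟩ := hf
  have hM0 : 0 ≤ M := (norm_nonneg _).trans (hM 0)
  have h3 : Nm m f ≤ ∫⁻ x, ENNReal.ofReal (M ^ (2 * m - 1)) * ‖f x‖ₑ := by
    unfold Nm
    refine lintegral_mono fun x => ?_
    have e : ‖f x‖ₑ ^ (2 * m) = ‖f x‖ₑ ^ (2 * m - 1) * ‖f x‖ₑ := by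
      rw [← pow_succ]
      congr 1
      omega
    show ‖f x‖ₑ ^ (2 * m) ≤ _
    rw [e]
    refine mul_le_mul_left ?_ _
    rw [ENNReal.ofReal_pow hM0]
    refine pow_le_pow_left' ?_ _
    rw [← ofReal_norm]
    exact ENNReal.ofReal_le_ofReal (hM x)
  refine h3.trans_lt ?_
  rw [lintegral_const_mul _ h1.enorm]
  exact ENNReal.mul_lt_top ENNReal.ofReal_lt_top h2.2

/-- Minkowski -/
theorem mink {m : ℕ} (hm : 1 ≤ m) {u v : ℂ → ℂ} (hu : Measurable u) (hv : Measurable v) :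
    (Nm m u) ^ (1 / (2 * (m : ℝ))) ≤ (Nm m v) ^ (1 / (2 * (m : ℝ))) +
      (Nm m (fun x => u x - v x)) ^ (1 / (2 * (m : ℝ))) := by
  have hm1 : (1 : ℝ) ≤ m := by exact_mod_cast hm
  have key := ENNReal.lintegral_Lp_add_le (μ := (volume : Measure ℂ)) (p := 2 * (m : ℝ))
    (f := fun x => ‖v x‖ₑ) (g := fun x => ‖u x - v x‖ₑ) hv.enorm.aemeasurable
    (hu.sub hv).enorm.aemeasurable (by linarith)
  have e : ∀ x : ℝ≥0∞, x ^ (2 * m) = x ^ (2 * (m : ℝ)) := fun x => by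
    rw [← ENNReal.rpow_natCast]
    push_cast
    rfl
  unfold Nm
  simp only [e]
  refine le_trans ?_ key
  refine ENNReal.rpow_le_rpow (lintegral_mono fun x => ?_) (by positivity)
  refine ENNReal.rpow_le_rpow ?_ (by positivity)
  show ‖u x‖ₑ ≤ ‖v x‖ₑ + ‖u x - v x‖ₑ
  have h1 : u x = v x + (u x - v x) := by ring
  calc ‖u x‖ₑ = ‖v x + (u x - v x)‖ₑ := by rw [← h1]
    _ ≤ _ := enorm_add_le _ _

theorem root {m : ℕ} (hm : 1 ≤ m) {A : ℝ} (hA : 0 ≤ A) (L : ℝ≥0∞) :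
    (ENNReal.ofReal (A ^ (2 * m)) * L) ^ (1 / (2 * (m : ℝ))) =
      ENNReal.ofReal A * L ^ (1 / (2 * (m : ℝ))) := by
  have hm1 : (1 : ℝ) ≤ m := by exact_mod_cast hm
  rw [ENNReal.mul_rpow_of_nonneg _ _ (by positivity), ENNReal.ofReal_rpow_of_nonneg (by positivity)
    (by positivity)]
  congr 2
  have e : A ^ (2 * m) = A ^ (2 * (m : ℝ)) := by
    rw [← Real.rpow_natCast]
    push_cast
    rfl
  rw [e, ← Real.rpow_mul hA]
  have h2 : 2 * (m : ℝ) * (1 / (2 * (m : ℝ))) = 1 := by field_simp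
  rw [h2, Real.rpow_one]

theorem aa_nonneg {m n : ℕ} (hm : 2 ≤ m) : 0 ≤ AA m n := by
  have hm1 : (2 : ℝ) ≤ m := by exact_mod_cast hm
  have h1 : 0 < 1 / (2 * (m : ℝ)) := by positivity
  have h2 : 0 < 1 - 1 / (2 * (m : ℝ)) := by
    have : 1 / (2 * (m : ℝ)) < 1 := by
      rw [div_lt_one (by positivity)]
      linarith
    linarith
  have := Real.Gamma_pos_of_pos h1
  have := Real.Gamma_pos_of_pos h2
  unfold AA GA
  positivity

theorem t (h1 : S_BAS) (h2 : S_LOC) (h3 : S_LQT) (h4 : S_DUT) : S_STR := by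
  obtain ⟨χ₀, hχ, h3⟩ := h3
  obtain ⟨B, h2⟩ := h2
  obtain ⟨C, n₁, hC, h2⟩ := h2 1
  refine ⟨χ₀, hχ, fun m ε hm hε => ?_⟩
  obtain ⟨n₀, h3⟩ := h3 m B ε hm hε
  refine ⟨max (max n₀ n₁) (max ⌈C⌉₊ (2 ^ 100)), fun n a b hn ha hab hb h hh => ?_⟩
  have hn0 : n₀ ≤ n := (le_max_left _ _).trans ((le_max_left _ _).trans hn)
  have hn1 : n₁ ≤ n := (le_max_right _ _).trans ((le_max_left _ _).trans hn)
  have hnC : C ≤ n := Nat.ceil_le.1 ((le_max_left _ _).trans ((le_max_right _ _).trans hn))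
  have hn2 : 2 ^ 100 ≤ n := (le_max_right _ _).trans ((le_max_right _ _).trans hn)
  have hn2' : (2 : ℝ) ^ (100 : ℕ) ≤ n := by exact_mod_cast hn2
  have hnpos : 1 ≤ n := le_trans (Nat.one_le_two_pow) hn2
  have hnr : (1 : ℝ) ≤ n := by exact_mod_cast hnpos
  have hnr0 : (0 : ℝ) < n := by linarith
  have hb0 : 0 < b := ha.trans_le hab
  have hm1 : 1 ≤ m := by omega
  have hban : b ≤ a * n := by
    refine hb.trans (mul_le_mul_of_nonneg_left ?_ ha.le)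
    calc (n : ℝ) ^ (1 / 50 : ℝ) ≤ (n : ℝ) ^ (1 : ℝ) :=
          Real.rpow_le_rpow_of_exponent_le hnr (by norm_num)
      _ = n := Real.rpow_one _
  obtain ⟨ψ, hψ, herr⟩ := h2 n a b hn1 ha hab hban
  have hr : 0 < (n : ℝ) ^ (99 / 100 : ℝ) / b := by positivity
  -- the outer radius
  have hout : 2 * (n : ℝ) ^ (101 / 100 : ℝ) / a ≤
      (n : ℝ) ^ (99 / 100 : ℝ) / b * (n : ℝ) ^ (1 / 20 : ℝ) := by
    have e1 : (n : ℝ) ^ (99 / 100 : ℝ) / b * (n : ℝ) ^ (1 / 20 : ℝ) =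
        (n : ℝ) ^ (104 / 100 : ℝ) / b := by
      rw [div_mul_eq_mul_div, ← Real.rpow_add hnr0]
      norm_num
    have e2 : (2 : ℝ) ≤ (n : ℝ) ^ (1 / 100 : ℝ) := by
      calc (2 : ℝ) = ((2 : ℝ) ^ (100 : ℕ)) ^ (1 / 100 : ℝ) := by
            rw [← Real.rpow_natCast, ← Real.rpow_mul (by norm_num)]
            norm_num
        _ ≤ (n : ℝ) ^ (1 / 100 : ℝ) := Real.rpow_le_rpow (by positivity) hn2' (by norm_num)
    rw [e1, div_le_div_iff₀ ha hb0]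
    have e3 : (n : ℝ) ^ (104 / 100 : ℝ) =
        (n : ℝ) ^ (1 / 100 : ℝ) * ((n : ℝ) ^ (101 / 100 : ℝ) * (n : ℝ) ^ (1 / 50 : ℝ)) := by
      rw [← Real.rpow_add hnr0, ← Real.rpow_add hnr0]
      norm_num
    rw [e3]
    have e4 : 0 < (n : ℝ) ^ (101 / 100 : ℝ) := by positivity
    have e5 : 0 < (n : ℝ) ^ (1 / 50 : ℝ) := by positivity
    calc 2 * (n : ℝ) ^ (101 / 100 : ℝ) * b ≤
          2 * (n : ℝ) ^ (101 / 100 : ℝ) * (a * (n : ℝ) ^ (1 / 50 : ℝ)) :=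
          mul_le_mul_of_nonneg_left hb (by positivity)
      _ = 2 * ((n : ℝ) ^ (101 / 100 : ℝ) * (n : ℝ) ^ (1 / 50 : ℝ) * a) := by ring
      _ ≤ (n : ℝ) ^ (1 / 100 : ℝ) * ((n : ℝ) ^ (101 / 100 : ℝ) * (n : ℝ) ^ (1 / 50 : ℝ) * a) :=
          mul_le_mul_of_nonneg_right e2 (by positivity)
      _ = _ := by ring
  have hlr : (n : ℝ) ^ (-(1 / 10) : ℝ) * ((n : ℝ) ^ (99 / 100 : ℝ) / b) =
      (n : ℝ) ^ (89 / 100 : ℝ) / b := by
    rw [← mul_div_assoc, ← Real.rpow_add hnr0]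
    norm_num
  obtain ⟨-, -, hnic, -, -⟩ := h1 b h (bd_zero hh)
  have hA : 0 ≤ (1 + ε) * AA m n := mul_nonneg (by linarith) (aa_nonneg hm)
  have hmain := h4 χ₀ m n B ((n : ℝ) ^ (99 / 100 : ℝ) / b) ((n : ℝ) ^ (1 / 20 : ℝ))
    ((1 + ε) * AA m n) ((n : ℝ) ^ (-(1 / 10) : ℝ)) hχ hm hnpos hr hA (by positivity)
    (fun ψ hψ g hg => h3 n hn0 ψ hψ g hg) ψ (cut_mono hψ hout) (Fi h) hnic.1 (nm_lt hm1 hnic)
  rw [hlr] at hmain
  have hTn : Measurable (Tn n h) := (meas_sy n).mul hh.1.continuous.measurable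
  refine (mink hm1 (meas_Fi hTn) (meas_So (n := n) hψ hnic.1)).trans (add_le_add ?_ ?_)
  · rw [← root hm1 hA]
    exact ENNReal.rpow_le_rpow hmain (by positivity)
  · refine ENNReal.rpow_le_rpow ?_ (by positivity)
    refine (herr h hh m hm1).trans ?_
    have h5 : (C * ((n : ℝ) ^ 1)⁻¹) ^ (2 * m) ≤ 1 := by
      apply pow_le_one₀ (by positivity)
      rw [pow_one, ← div_eq_mul_inv, div_le_one hnr0]
      exact hnC
    calc ENNReal.ofReal ((C * ((n : ℝ) ^ 1)⁻¹) ^ (2 * m)) * Nm m (Fi h) ≤ 1 * Nm m (Fi h) := by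
          refine mul_le_mul_left ?_ _
          exact ENNReal.ofReal_le_one.2 h5
      _ = Nm m (Fi h) := one_mul _

end Pool.Agent.N892.BW.STR
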