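import Mathlib
import Pool.Agent.N892.BW.Stm2

/-!
Project BW, part SUP, first file: basic facts, Jensen, differences of band-limited functions (helper756).
-/

set_option autoImplicit false

open MeasureTheory ENNReal Filter Topology Complex
open scoped ComplexConjugate ContDiff FourierTransform

namespace Pool.Agent.N892.BW.SUP

theorem norm_e2 (x ξ : ℂ) : ‖e2 x ξ‖ = 1 := by
  unfold e2
  rw [show (2 * (Real.pi : ℂ) * Complex.I * ((x.re * ξ.re + x.im * ξ.im : ℝ) : ℂ)) =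
    ((2 * Real.pi * (x.re * ξ.re + x.im * ξ.im) : ℝ) : ℂ) * Complex.I by push_cast; ring]
  exact Complex.norm_exp_ofReal_mul_I _

theorem cont_e2 (x : ℂ) : Continuous (e2 x) := by
  unfold e2
  fun_prop

theorem Bd_mono {a b a' b' : ℝ} {h : ℂ → ℂ} (H : Bd a b h) (ha : a' ≤ a) (hb : b ≤ b') :
    Bd a' b' h :=
  ⟨H.1, fun ξ hξ => ⟨ha.trans (H.2 ξ hξ).1, (H.2 ξ hξ).2.trans hb⟩⟩

theorem Bd_zero {a b : ℝ} {h : ℂ → ℂ} (H : Bd a b h) : Bd 0 b h :=
  ⟨H.1, fun ξ hξ => ⟨norm_nonneg _, (H.2 ξ hξ).2⟩⟩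

theorem Bd_cs {a b : ℝ} {h : ℂ → ℂ} (H : Bd a b h) : HasCompactSupport h := by
  refine HasCompactSupport.intro (isCompact_closedBall (0 : ℂ) b) (fun ξ hξ => ?_)
  by_contra hne
  apply hξ
  rw [mem_closedBall_zero_iff]
  exact (H.2 ξ hne).2

theorem Bd_int {a b : ℝ} {h : ℂ → ℂ} (H : Bd a b h) (x : ℂ) : Integrable (fun ξ => e2 x ξ * h ξ) :=
  Continuous.integrable_of_hasCompactSupport ((cont_e2 x).mul H.1.continuous) (Bd_cs H).mul_left

theorem Fi_add {a b a' b' : ℝ} {h g : ℂ → ℂ} (H : Bd a b h) (G : Bd a' b' g) (x : ℂ) :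
    Fi (fun ξ => h ξ + g ξ) x = Fi h x + Fi g x := by
  unfold Fi
  rw [← integral_add (Bd_int H x) (Bd_int G x)]
  congr 1
  funext ξ
  ring

/-- Jensen and Hoelder -/
theorem jens {m : ℕ} (hm : 1 ≤ m) {W P : ℂ → ℝ≥0∞} (hW : Measurable W) (hP : Measurable P) :
    (∫⁻ z, W z * P z) ^ m ≤ (∫⁻ z, W z) ^ (m - 1) * ∫⁻ z, W z * P z ^ m := by
  set μ : Measure ℂ := volume.withDensity W with hμ
  have h0 : μ Set.univ = ∫⁻ z, W z := by
    rw [hμ, withDensity_apply _ MeasurableSet.univ, Measure.restrict_univ]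
  have hm' : (1 : ℝ) ≤ m := by exact_mod_cast hm
  have hm0 : (m : ℝ) ≠ 0 := by positivity
  have h4 := eLpNorm'_le_eLpNorm'_mul_rpow_measure_univ (μ := μ) one_pos hm'
    hP.aestronglyMeasurable
  unfold eLpNorm' at h4
  simp only [enorm_eq_self, ENNReal.rpow_one, div_one] at h4
  have h5 := pow_le_pow_left' h4 m
  rw [mul_pow, ← ENNReal.rpow_natCast (_ ^ (1 / (m : ℝ))) m, ← ENNReal.rpow_mul,
    one_div_mul_cancel hm0, ENNReal.rpow_one, ← ENNReal.rpow_natCast (_ ^ (1 - 1 / (m : ℝ))) m,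
    ← ENNReal.rpow_mul, h0, show (1 - 1 / (m : ℝ)) * m = ((m - 1 : ℕ) : ℝ) by
      rw [Nat.cast_sub hm, sub_mul, one_div_mul_cancel hm0, Nat.cast_one, one_mul],
    ENNReal.rpow_natCast] at h5
  have e1 : ∫⁻ z, W z * P z = ∫⁻ z, P z ∂μ := by
    rw [hμ, lintegral_withDensity_eq_lintegral_mul _ hW hP]
    rfl
  have e2 : ∫⁻ z, W z * P z ^ m = ∫⁻ z, P z ^ (m : ℝ) ∂μ := by
    rw [hμ, lintegral_withDensity_eq_lintegral_mul _ hW (hP.pow_const (m : ℝ))]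
    refine lintegral_congr fun y => ?_
    rw [Pi.mul_apply, ENNReal.rpow_natCast]
  rw [e1, e2, mul_comm]
  exact h5

/-- convolution with an integrable function -/
theorem young {m : ℕ} (hm : 1 ≤ m) {W P : ℂ → ℝ≥0∞} (hW : Measurable W) (hP : Measurable P) :
    ∫⁻ x, (∫⁻ z, W (x - z) * P z) ^ m ≤ (∫⁻ z, W z) ^ m * ∫⁻ z, P z ^ m := by
  have h1 : ∀ x, (∫⁻ z, W (x - z) * P z) ^ m ≤
      (∫⁻ z, W z) ^ (m - 1) * ∫⁻ z, W (x - z) * P z ^ m := by
    intro x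
    have h2 := jens hm (W := fun z => W (x - z)) (P := P) (hW.comp (measurable_const.sub measurable_id)) hP
    rw [lintegral_sub_left_eq_self W x] at h2
    exact h2
  refine (lintegral_mono h1).trans ?_
  have hmeas : Measurable (Function.uncurry fun x z : ℂ => W (x - z) * P z ^ m) :=
    (hW.comp (measurable_fst.sub measurable_snd)).mul ((hP.comp measurable_snd).pow_const m)
  rw [lintegral_const_mul _ (hmeas.lintegral_prod_right), lintegral_lintegral_swap hmeas.aemeasurable]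
  have h3 : ∀ z : ℂ, ∫⁻ x, W (x - z) * P z ^ m = (∫⁻ x, W x) * P z ^ m := by
    intro z
    have hm1 : Measurable fun x : ℂ => W (x - z) := hW.comp (measurable_id.sub_const z)
    rw [lintegral_mul_const _ hm1, lintegral_sub_right_eq_self W z]
  rw [lintegral_congr h3, lintegral_const_mul _ (hP.pow_const m), ← mul_assoc, ← pow_succ,
    Nat.sub_add_cancel hm]

/-- averages with a probability density -/
theorem aver {m : ℕ} (hm : 1 ≤ m) {p P : ℂ → ℝ≥0∞} (hp : Measurable p) (hP : Measurable P)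
    (h1 : ∫⁻ y, p y = 1) : ∫⁻ z, (∫⁻ y, p y * P (z + y)) ^ m ≤ ∫⁻ z, P z ^ m := by
  have h2 : ∀ z, (∫⁻ y, p y * P (z + y)) ^ m ≤ ∫⁻ y, p y * P (z + y) ^ m := by
    intro z
    have h3 := jens hm (W := p) (P := fun y => P (z + y)) hp (hP.comp (measurable_const_add z))
    rwa [h1, one_pow, one_mul] at h3
  refine (lintegral_mono h2).trans ?_
  have hmeas : Measurable (Function.uncurry fun z y : ℂ => p y * P (z + y) ^ m) :=
    (hp.comp measurable_snd).mul ((hP.comp (measurable_fst.add measurable_snd)).pow_const m)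
  rw [lintegral_lintegral_swap hmeas.aemeasurable]
  have h3 : ∀ y : ℂ, ∫⁻ z, p y * P (z + y) ^ m = p y * ∫⁻ z, P z ^ m := by
    intro y
    have hm1 : Measurable fun z : ℂ => P (z + y) ^ m :=
      (hP.comp (measurable_add_const y)).pow_const m
    rw [lintegral_const_mul _ hm1, lintegral_add_right_eq_self (fun z => P z ^ m) y]
  rw [lintegral_congr h3, lintegral_mul_const _ hp, h1, one_mul]

/-! ### scaling -/

theorem lint_scale {t : ℝ} (ht : t ≠ 0) (F : ℂ → ℝ≥0∞) :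
    ∫⁻ w : ℂ, F ((t : ℂ) * w) = ENNReal.ofReal ((t ^ 2)⁻¹) * ∫⁻ w, F w := by
  have h1 : Measure.map (fun w : ℂ => t • w) volume =
      ENNReal.ofReal |(t ^ (Module.finrank ℝ ℂ))⁻¹| • (volume : Measure ℂ) :=
    Measure.map_addHaar_smul volume ht
  have h2 : MeasurableEmbedding (fun w : ℂ => t • w) :=
    (Homeomorph.smulOfNeZero t ht).measurableEmbedding
  have h3 := h2.lintegral_map F (μ := (volume : Measure ℂ))
  rw [h1, lintegral_smul_measure] at h3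
  have h4 : |(t ^ (Module.finrank ℝ ℂ))⁻¹| = (t ^ 2)⁻¹ := by
    rw [Complex.finrank_real_complex]
    exact abs_of_nonneg (by positivity)
  rw [h4] at h3
  rw [smul_eq_mul] at h3
  rw [h3]
  refine lintegral_congr fun w => ?_
  rw [Complex.real_smul]

theorem int_scale {t : ℝ} (F : ℂ → ℂ) :
    ∫ w : ℂ, F ((t : ℂ) * w) = ((t : ℂ) ^ 2)⁻¹ * ∫ w, F w := by
  have h := Measure.integral_comp_smul (volume : Measure ℂ) F t
  rw [Complex.finrank_real_complex, abs_of_nonneg (by positivity)] at h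
  simp only [Complex.real_smul] at h
  rw [h]
  push_cast
  rfl

theorem e2_scale (t : ℝ) (x w : ℂ) : e2 x ((t : ℂ) * w) = e2 ((t : ℂ) * x) w := by
  unfold e2
  congr 2
  norm_cast
  simp only [Complex.mul_re, Complex.mul_im, Complex.ofReal_re, Complex.ofReal_im]
  ring

theorem Fi_scale {t : ℝ} (ht : t ≠ 0) (h : ℂ → ℂ) (x : ℂ) :
    Fi (fun ξ => h ((t : ℂ) * ξ)) x = ((t : ℂ) ^ 2)⁻¹ * Fi h (((t⁻¹ : ℝ) : ℂ) * x) := by
  unfold Fi
  rw [← int_scale (t := t) (fun ξ => e2 (((t⁻¹ : ℝ) : ℂ) * x) ξ * h ξ)]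
  congr 1
  funext ξ
  rw [← e2_scale]
  congr 2
  rw [← mul_assoc, ← Complex.ofReal_mul, inv_mul_cancel₀ ht, Complex.ofReal_one, one_mul]

/-! ### differences -/

theorem Fi_schwartz {b : ℝ} {h : ℂ → ℂ} (H : Bd 0 b h) : ∃ g : SchwartzMap ℂ ℂ, ∀ x, g x = Fi h x := by
  refine ⟨𝓕⁻ ((Bd_cs H).toSchwartzMap H.1), fun x => ?_⟩
  rw [SchwartzMap.fourierInv_coe, Real.fourierInv_eq']
  unfold Fi e2
  congr 1
  funext ξ
  rw [smul_eq_mul]
  have e1 : ((Bd_cs H).toSchwartzMap H.1) ξ = h ξ := rfl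
  rw [e1]
  congr 2
  have e3 : inner ℝ ξ x = x.re * ξ.re + x.im * ξ.im := by
    rw [Complex.inner]
    simp only [Complex.mul_re, Complex.conj_re, Complex.conj_im]
    ring
  rw [e3]
  push_cast
  ring

theorem diff_bound (g : SchwartzMap ℂ ℂ) : ∃ K : ℝ≥0∞, K ≠ ⊤ ∧
    ∀ y : ℂ, ∫⁻ t, ‖g (t + y) - g t‖ₑ ≤ K * ‖y‖ₑ := by
  obtain ⟨D, hD⟩ : ∃ D : SchwartzMap ℂ (ℂ →L[ℝ] ℂ), ∀ x, D x = fderiv ℝ g x :=
    ⟨SchwartzMap.fderivCLM ℝ ℂ ℂ g, fun x => SchwartzMap.fderivCLM_apply ℝ g x⟩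
  refine ⟨∫⁻ t, ‖D t‖ₑ, (D.integrable (μ := volume)).2.ne, fun y => ?_⟩
  have hc : Continuous D := D.continuous
  have h1 : ∀ t, ‖g (t + y) - g t‖ₑ ≤ ∫⁻ s in Set.Ioc (0 : ℝ) 1, ‖D (t + s • y)‖ₑ * ‖y‖ₑ := by
    intro t
    have hd : ∀ s : ℝ, HasDerivAt (fun s : ℝ => g (t + s • y)) (D (t + s • y) y) s := by
      intro s
      have e1 : HasFDerivAt g (D (t + s • y)) (t + s • y) := by
        rw [hD]
        exact (g.differentiableAt).hasFDerivAt
      have e2 : HasDerivAt (fun s : ℝ => t + s • y) y s := by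
        simpa using ((hasDerivAt_id s).smul_const y).const_add t
      exact e1.comp_hasDerivAt s e2
    have hi : ∫ s in (0 : ℝ)..1, D (t + s • y) y = g (t + (1 : ℝ) • y) - g (t + (0 : ℝ) • y) := by
      apply intervalIntegral.integral_eq_sub_of_hasDerivAt (fun s _ => hd s)
      apply Continuous.intervalIntegrable
      exact (hc.comp (by fun_prop)).clm_apply continuous_const
    rw [one_smul, zero_smul, add_zero] at hi
    rw [← hi, intervalIntegral.integral_of_le zero_le_one]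
    refine (enorm_integral_le_lintegral_enorm _).trans (lintegral_mono fun s => ?_)
    exact ContinuousLinearMap.le_opENorm _ _
  have hmeas : Measurable (Function.uncurry fun (t : ℂ) (s : ℝ) => ‖D (t + s • y)‖ₑ * ‖y‖ₑ) := by
    have : Continuous (Function.uncurry fun (t : ℂ) (s : ℝ) => D (t + s • y)) :=
      hc.comp (by fun_prop)
    exact this.measurable.enorm.mul_const _
  refine (lintegral_mono h1).trans ?_
  rw [lintegral_lintegral_swap hmeas.aemeasurable]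
  have h2 : ∀ s : ℝ, ∫⁻ t, ‖D (t + s • y)‖ₑ * ‖y‖ₑ = (∫⁻ t, ‖D t‖ₑ) * ‖y‖ₑ := by
    intro s
    have hm1 : Measurable fun t : ℂ => ‖D (t + s • y)‖ₑ :=
      (hc.comp (continuous_add_const (s • y))).measurable.enorm
    rw [lintegral_mul_const _ hm1, lintegral_add_right_eq_self (fun t => ‖D t‖ₑ) (s • y)]
  rw [lintegral_congr h2]
  simp

/-- smooth cut-off function -/
theorem cut_off : ∃ θ : ℂ → ℂ, Bd 0 2 θ ∧ ∀ ξ, ‖ξ‖ ≤ 1 → θ ξ = 1 := by
  let f : ContDiffBump (0 : ℂ) := ⟨1, 2, one_pos, one_lt_two⟩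
  refine ⟨fun ξ => ((f ξ : ℝ) : ℂ), ⟨?_, fun ξ hξ => ⟨norm_nonneg _, ?_⟩⟩, fun ξ hξ => ?_⟩
  · exact Complex.ofRealCLM.contDiff.comp f.contDiff
  · by_contra hlt
    push Not at hlt
    apply hξ
    have : f ξ = 0 := f.zero_of_le_dist (by rw [dist_zero_right]; exact hlt.le)
    show ((f ξ : ℝ) : ℂ) = 0
    rw [this, Complex.ofReal_zero]
  · have : f ξ = 1 := f.one_of_mem_closedBall (by rw [mem_closedBall_zero_iff]; exact hξ)
    show ((f ξ : ℝ) : ℂ) = 1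
    rw [this, Complex.ofReal_one]

/-- the reproducing kernels of the discs -/
theorem kernel : ∃ K : ℝ≥0∞, K ≠ ⊤ ∧ ∀ b : ℝ, 0 < b → ∃ μ : ℂ → ℂ, Bd 0 (4 * b) μ ∧
    (∀ ξ, ‖ξ‖ ≤ 2 * b → μ ξ = 1) ∧
    ∀ y : ℂ, ∫⁻ t, ‖Fi μ (t + y) - Fi μ t‖ₑ ≤ K * ENNReal.ofReal b * ‖y‖ₑ := by
  obtain ⟨θ, hθ, hθ1⟩ := cut_off
  obtain ⟨g, hg⟩ := Fi_schwartz hθ
  obtain ⟨K, hK, hK2⟩ := diff_bound g
  refine ⟨2 * K, ENNReal.mul_ne_top (by norm_num) hK, fun b hb => ?_⟩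
  have hb2 : (0 : ℝ) < 2 * b := by positivity
  have hn : ∀ ξ : ℂ, ‖(((2 * b)⁻¹ : ℝ) : ℂ) * ξ‖ = ‖ξ‖ / (2 * b) := by
    intro ξ
    rw [norm_mul, Complex.norm_real, Real.norm_of_nonneg (by positivity), div_eq_inv_mul]
  refine ⟨fun ξ => θ ((((2 * b)⁻¹ : ℝ) : ℂ) * ξ), ⟨?_, fun ξ hξ => ⟨norm_nonneg _, ?_⟩⟩,
    fun ξ hξ => ?_, fun y => ?_⟩
  · exact hθ.1.comp (contDiff_const.mul contDiff_id)
  · have := (hθ.2 _ hξ).2
    rw [hn, div_le_iff₀ hb2] at this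
    linarith
  · apply hθ1
    rw [hn, div_le_one hb2]
    exact hξ
  · have h1 : ∀ t, Fi (fun ξ => θ ((((2 * b)⁻¹ : ℝ) : ℂ) * ξ)) t =
        ((2 * b : ℝ) : ℂ) ^ 2 * g (((2 * b : ℝ) : ℂ) * t) := by
      intro t
      rw [Fi_scale (inv_ne_zero hb2.ne') θ t, inv_inv, hg]
      congr 1
      push_cast
      rw [inv_pow, inv_inv]
    have h2 : ∀ t, ‖Fi (fun ξ => θ ((((2 * b)⁻¹ : ℝ) : ℂ) * ξ)) (t + y) -
        Fi (fun ξ => θ ((((2 * b)⁻¹ : ℝ) : ℂ) * ξ)) t‖ₑ =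
        ENNReal.ofReal ((2 * b) ^ 2) *
          ‖g (((2 * b : ℝ) : ℂ) * t + ((2 * b : ℝ) : ℂ) * y) - g (((2 * b : ℝ) : ℂ) * t)‖ₑ := by
      intro t
      rw [h1, h1, ← mul_sub, enorm_mul, mul_add]
      congr 1
      rw [← ofReal_norm, norm_pow, Complex.norm_real, Real.norm_of_nonneg hb2.le]
    rw [lintegral_congr h2, lintegral_const_mul' _ _ ENNReal.ofReal_ne_top,
      lint_scale hb2.ne' (fun t => ‖g (t + ((2 * b : ℝ) : ℂ) * y) - g t‖ₑ), ← mul_assoc,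
      ← ENNReal.ofReal_mul (by positivity), mul_inv_cancel₀ (by positivity), ENNReal.ofReal_one,
      one_mul]
    refine (hK2 _).trans (le_of_eq ?_)
    rw [enorm_mul, ← ofReal_norm ((2 * b : ℝ) : ℂ), Complex.norm_real,
      Real.norm_of_nonneg hb2.le, ENNReal.ofReal_mul (by norm_num)]
    rw [show ENNReal.ofReal 2 = 2 by norm_num]
    ring

end Pool.Agent.N892.BW.SUP
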