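import Mathlib
import Pool.Agent.N892.BW.Stm2
import Pool.Agent.N892.BW.SUP_A

/-!
Project BW, part SUP, second file: the local averages of the low and of the high part (helper756).
-/

set_option autoImplicit false

open MeasureTheory ENNReal Filter Topology Complex
open scoped ComplexConjugate ContDiff FourierTransform

namespace Pool.Agent.N892.BW.SUP

theorem sq_rep (hP : S_PRD) {b : ℝ} {h : ℂ → ℂ} (H : Bd 0 b h) : ∃ h4 : ℂ → ℂ, Bd 0 (2 * b) h4 ∧
    ∀ x, ((‖Fi h x‖ ^ 2 : ℝ) : ℂ) = Fi h4 x := by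
  obtain ⟨h', H', e'⟩ := hP.2 0 b h H
  obtain ⟨h4, H4, e4⟩ := hP.1 0 b b h h' H H'
  refine ⟨h4, Bd_mono (Bd_zero H4) le_rfl (by linarith), fun x => ?_⟩
  rw [← e4, ← e', Complex.mul_conj, Complex.normSq_eq_norm_sq]

/-- the abstract form: `Q` is reproduced by the kernel `G` -/
theorem low0 {m : ℕ} (hm : 1 ≤ m) {G Q : ℂ → ℂ} (hG : Continuous G) (hQ : Continuous Q)
    (hrep : ∀ x, Integrable (fun z => G (x - z) * Q z) ∧ Q x = ∫ z, G (x - z) * Q z)
    {p : ℂ → ℝ≥0∞} (hp : Measurable p) (hp1 : ∫⁻ y, p y = 1) {κ : ℝ≥0∞}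
    (hκ : ∫⁻ y, p y * ∫⁻ t, ‖G (t + y) - G t‖ₑ ≤ κ) :
    (∫⁻ x, ‖Q x‖ₑ ^ m) ^ (1 / (m : ℝ)) ≤
      (∫⁻ z, (∫⁻ y, p y * ‖Q (z + y)‖ₑ) ^ m) ^ (1 / (m : ℝ)) +
        κ * (∫⁻ x, ‖Q x‖ₑ ^ m) ^ (1 / (m : ℝ)) := by
  obtain ⟨P, hPdef⟩ : ∃ P : ℂ → ℝ≥0∞, ∀ x, P x = ‖Q x‖ₑ := ⟨_, fun x => rfl⟩
  have hPm : Measurable P := by
    have : P = fun x => ‖Q x‖ₑ := funext hPdef
    rw [this]
    exact hQ.measurable.enorm
  obtain ⟨W, hW⟩ : ∃ W : ℂ → ℝ≥0∞, ∀ t, W t = ∫⁻ y, p y * ‖G (t + y) - G t‖ₑ :=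
    ⟨_, fun x => rfl⟩
  have hD : Continuous fun q : ℂ × ℂ => G (q.1 + q.2) - G q.1 :=
    (hG.comp (continuous_fst.add continuous_snd)).sub (hG.comp continuous_fst)
  have hWj : Measurable (Function.uncurry fun t y : ℂ => p y * ‖G (t + y) - G t‖ₑ) :=
    (hp.comp measurable_snd).mul hD.measurable.enorm
  have hWm : Measurable W := by
    have : W = fun t => ∫⁻ y, p y * ‖G (t + y) - G t‖ₑ := funext hW
    rw [this]
    exact hWj.lintegral_prod_right
  have hWi : ∫⁻ t, W t ≤ κ := by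
    simp only [hW]
    rw [lintegral_lintegral_swap hWj.aemeasurable]
    refine le_trans (le_of_eq ?_) hκ
    refine lintegral_congr fun y => ?_
    have hc1 : Continuous fun t : ℂ => G (t + y) - G t :=
      (hG.comp (continuous_add_const y)).sub hG
    rw [lintegral_const_mul _ hc1.measurable.enorm]
  have hPx : ∀ x : ℂ, Measurable fun y : ℂ => P (x + y) := fun x =>
    hPm.comp (measurable_const_add x)
  have hpt : ∀ x, P x ≤ (∫⁻ y, p y * P (x + y)) + ∫⁻ z, W (x - z) * P z := by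
    intro x
    have h1 : ∀ y, P x ≤ P (x + y) + ∫⁻ z, ‖G (x - z + y) - G (x - z)‖ₑ * P z := by
      intro y
      have e : Q x = Q (x + y) - ∫ z, (G (x - z + y) - G (x - z)) * Q z := by
        have e5 : ∀ z, (G (x - z + y) - G (x - z)) * Q z =
            G (x + y - z) * Q z - G (x - z) * Q z := by
          intro z
          rw [show x - z + y = x + y - z by ring]
          ring
        rw [integral_congr_ae (Eventually.of_forall e5), integral_sub (hrep (x + y)).1 (hrep x).1,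
          ← (hrep (x + y)).2, ← (hrep x).2]
        ring
      rw [hPdef x, hPdef (x + y), e]
      refine (enorm_sub_le).trans ?_
      gcongr
      refine (enorm_integral_le_lintegral_enorm _).trans (le_of_eq ?_)
      refine lintegral_congr fun z => ?_
      rw [enorm_mul, hPdef z]
    have hcj : Continuous fun q : ℂ × ℂ => G (x - q.2 + q.1) - G (x - q.2) :=
      (hG.comp ((continuous_const.sub continuous_snd).add continuous_fst)).sub
        (hG.comp (continuous_const.sub continuous_snd))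
    have hj : Measurable (Function.uncurry fun y z : ℂ =>
        p y * (‖G (x - z + y) - G (x - z)‖ₑ * P z)) :=
      (hp.comp measurable_fst).mul (Measurable.mul hcj.measurable.enorm (hPm.comp measurable_snd))
    calc P x = ∫⁻ y, p y * P x := by rw [lintegral_mul_const _ hp, hp1, one_mul]
      _ ≤ ∫⁻ y, (p y * P (x + y) + p y * ∫⁻ z, ‖G (x - z + y) - G (x - z)‖ₑ * P z) := by
          refine lintegral_mono fun y => ?_
          rw [← mul_add]
          gcongr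
          exact h1 y
      _ = (∫⁻ y, p y * P (x + y)) +
          ∫⁻ y, p y * ∫⁻ z, ‖G (x - z + y) - G (x - z)‖ₑ * P z :=
          lintegral_add_left (hp.mul (hPx x)) _
      _ = (∫⁻ y, p y * P (x + y)) + ∫⁻ z, W (x - z) * P z := by
          congr 1
          have e6 : ∀ y, p y * ∫⁻ z, ‖G (x - z + y) - G (x - z)‖ₑ * P z =
              ∫⁻ z, p y * (‖G (x - z + y) - G (x - z)‖ₑ * P z) := by
            intro y
            have hc2 : Continuous fun z : ℂ => G (x - z + y) - G (x - z) :=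
              (hG.comp ((continuous_const.sub continuous_id).add continuous_const)).sub
                (hG.comp (continuous_const.sub continuous_id))
            have hm2 : Measurable fun z : ℂ => ‖G (x - z + y) - G (x - z)‖ₑ * P z :=
              Measurable.mul hc2.measurable.enorm hPm
            rw [lintegral_const_mul _ hm2]
          rw [lintegral_congr e6, lintegral_lintegral_swap hj.aemeasurable]
          refine lintegral_congr fun z => ?_
          rw [hW]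
          have hc3 : Continuous fun y : ℂ => G (x - z + y) - G (x - z) :=
            (hG.comp (continuous_const.add continuous_id)).sub continuous_const
          have hm3 : Measurable fun y : ℂ => p y * ‖G (x - z + y) - G (x - z)‖ₑ :=
            hp.mul hc3.measurable.enorm
          rw [← lintegral_mul_const _ hm3]
          refine lintegral_congr fun y => ?_
          ring
  have hm' : (1 : ℝ) ≤ m := by exact_mod_cast hm
  have hm0 : (m : ℝ) ≠ 0 := by positivity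
  have hmi : (0 : ℝ) ≤ 1 / (m : ℝ) := by positivity
  obtain ⟨A, hA⟩ : ∃ A : ℂ → ℝ≥0∞, ∀ x, A x = ∫⁻ y, p y * P (x + y) := ⟨_, fun x => rfl⟩
  obtain ⟨D, hDd⟩ : ∃ D : ℂ → ℝ≥0∞, ∀ x, D x = ∫⁻ z, W (x - z) * P z := ⟨_, fun x => rfl⟩
  have hAm : Measurable A := by
    have : A = fun x => ∫⁻ y, p y * P (x + y) := funext hA
    rw [this]
    have hj : Measurable (Function.uncurry fun x y : ℂ => p y * P (x + y)) :=
      (hp.comp measurable_snd).mul (hPm.comp (measurable_fst.add measurable_snd))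
    exact hj.lintegral_prod_right
  have hDm : Measurable D := by
    have : D = fun x => ∫⁻ z, W (x - z) * P z := funext hDd
    rw [this]
    have hj : Measurable (Function.uncurry fun x z : ℂ => W (x - z) * P z) :=
      (hWm.comp (measurable_fst.sub measurable_snd)).mul (hPm.comp measurable_snd)
    exact hj.lintegral_prod_right
  have hmink := ENNReal.lintegral_Lp_add_le (μ := (volume : Measure ℂ)) (p := (m : ℝ))
    hAm.aemeasurable hDm.aemeasurable hm'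
  simp only [ENNReal.rpow_natCast] at hmink
  simp only [← hPdef, ← hA]
  have h7 : ∫⁻ x, P x ^ m ≤ ∫⁻ x, (A + D) x ^ m := by
    refine lintegral_mono fun x => ?_
    gcongr
    rw [Pi.add_apply, hA, hDd]
    exact hpt x
  have h8 : (∫⁻ x, D x ^ m) ^ (1 / (m : ℝ)) ≤ κ * (∫⁻ x, P x ^ m) ^ (1 / (m : ℝ)) := by
    have h9 : ∫⁻ x, D x ^ m ≤ κ ^ m * ∫⁻ x, P x ^ m := by
      simp only [hDd]
      refine (young hm hWm hPm).trans ?_
      gcongr
    refine (ENNReal.rpow_le_rpow h9 hmi).trans (le_of_eq ?_)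
    rw [ENNReal.mul_rpow_of_nonneg _ _ hmi, ← ENNReal.rpow_natCast _ m, ← ENNReal.rpow_mul,
      mul_one_div_cancel hm0, ENNReal.rpow_one]
  refine (ENNReal.rpow_le_rpow h7 hmi).trans (hmink.trans ?_)
  gcongr

theorem low (hB : S_BAS) (hC : S_CNV) (hP : S_PRD) : ∃ K : ℝ≥0∞, K ≠ ⊤ ∧
    ∀ (m : ℕ), 1 ≤ m → ∀ (b : ℝ), 0 < b → ∀ h : ℂ → ℂ, Bd 0 b h →
    ∀ p : ℂ → ℝ≥0∞, Measurable p → ∫⁻ y, p y = 1 →
    (Nm m (Fi h)) ^ (1 / (m : ℝ)) ≤
      (∫⁻ z, (∫⁻ y, p y * ‖Fi h (z + y)‖ₑ ^ 2) ^ m) ^ (1 / (m : ℝ)) +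
      (K * ENNReal.ofReal b * ∫⁻ y, p y * ‖y‖ₑ) * (Nm m (Fi h)) ^ (1 / (m : ℝ)) := by
  obtain ⟨K, hK, hKer⟩ := kernel
  refine ⟨K, hK, fun m hm b hb h H p hp hp1 => ?_⟩
  obtain ⟨μ, hμ, hμ1, hμ2⟩ := hKer b hb
  obtain ⟨h4, H4, e4⟩ := sq_rep hP H
  have hrep : (fun ξ => μ ξ * h4 ξ) = h4 := by
    funext ξ
    by_cases h0 : h4 ξ = 0
    · rw [h0, mul_zero]
    · rw [hμ1 ξ (H4.2 ξ h0).2, one_mul]
  have hcnv : ∀ x, Integrable (fun z => Fi μ (x - z) * Fi h4 z) ∧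
      Fi h4 x = ∫ z, Fi μ (x - z) * Fi h4 z := by
    intro x
    have h1 := hC (4 * b) μ h4 hμ (Bd_mono H4 le_rfl (by linarith)) x
    rw [hrep] at h1
    exact h1
  have hPe : ∀ x, ‖Fi h x‖ₑ ^ 2 = ‖Fi h4 x‖ₑ := by
    intro x
    rw [← e4 x, ← ofReal_norm (((‖Fi h x‖ ^ 2 : ℝ) : ℂ)), Complex.norm_real,
      Real.norm_of_nonneg (by positivity), ENNReal.ofReal_pow (norm_nonneg _), ofReal_norm]
  have hNm : Nm m (Fi h) = ∫⁻ x, ‖Fi h4 x‖ₑ ^ m := by
    unfold Nm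
    refine lintegral_congr fun x => ?_
    rw [← hPe, ← pow_mul]
  rw [hNm]
  simp only [hPe]
  refine low0 hm (hB _ μ hμ).1 (hB _ h4 H4).1 hcnv hp hp1 ?_
  have hm0 : Measurable fun y : ℂ => p y * ‖y‖ₑ := hp.mul measurable_enorm
  rw [← lintegral_const_mul _ hm0]
  refine lintegral_mono fun y => ?_
  calc p y * ∫⁻ t, ‖Fi μ (t + y) - Fi μ t‖ₑ ≤ p y * (K * ENNReal.ofReal b * ‖y‖ₑ) := by
        gcongr
        exact hμ2 y
    _ = K * ENNReal.ofReal b * (p y * ‖y‖ₑ) := by ring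

/-- the abstract form of the additivity -/
theorem high0 {s : ℂ → ℝ} {U V : ℂ → ℂ} (hs0 : ∀ y, 0 ≤ s y)
    (hiu : Integrable fun y => s y * ‖U y‖ ^ 2) (hiv : Integrable fun y => s y * ‖V y‖ ^ 2)
    (hmixI : Integrable fun y => ((s y : ℝ) : ℂ) * (V y * conj (U y)))
    (hmix : ∫ y, ((s y : ℝ) : ℂ) * (V y * conj (U y)) = 0) :
    ∫⁻ y, ENNReal.ofReal (s y) * ‖U y + V y‖ₑ ^ 2 =
      (∫⁻ y, ENNReal.ofReal (s y) * ‖U y‖ₑ ^ 2) + ∫⁻ y, ENNReal.ofReal (s y) * ‖V y‖ₑ ^ 2 := by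
  have hreI : Integrable fun y => (((s y : ℝ) : ℂ) * (V y * conj (U y))).re := hmixI.re
  have hre : ∫ y, (((s y : ℝ) : ℂ) * (V y * conj (U y))).re = 0 := by
    have := Complex.reCLM.integral_comp_comm hmixI
    rw [hmix] at this
    simpa using this
  have hconv : ∀ (g : ℂ → ℂ), Integrable (fun y => s y * ‖g y‖ ^ 2) →
      ∫⁻ y, ENNReal.ofReal (s y) * ‖g y‖ₑ ^ 2 = ENNReal.ofReal (∫ y, s y * ‖g y‖ ^ 2) := by
    intro g hg
    rw [ofReal_integral_eq_lintegral_ofReal hg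
      (Eventually.of_forall fun y => mul_nonneg (hs0 y) (by positivity))]
    refine lintegral_congr fun y => ?_
    rw [ENNReal.ofReal_mul (hs0 y), ENNReal.ofReal_pow (norm_nonneg _), ofReal_norm]
  have hkey : ∀ y, s y * ‖U y + V y‖ ^ 2 =
      (s y * ‖U y‖ ^ 2 + s y * ‖V y‖ ^ 2) + 2 * (((s y : ℝ) : ℂ) * (V y * conj (U y))).re := by
    intro y
    rw [← Complex.normSq_eq_norm_sq, ← Complex.normSq_eq_norm_sq, ← Complex.normSq_eq_norm_sq,
      add_comm (U y) (V y), Complex.normSq_add, Complex.re_ofReal_mul]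
    ring
  have hi2 : Integrable fun y => (s y * ‖U y‖ ^ 2 + s y * ‖V y‖ ^ 2) +
      2 * (((s y : ℝ) : ℂ) * (V y * conj (U y))).re := (hiu.add hiv).add (hreI.const_mul 2)
  have hiw : Integrable (fun y => s y * ‖U y + V y‖ ^ 2) := by
    simp only [hkey]
    exact hi2
  rw [hconv (fun y => U y + V y) hiw, hconv _ hiu, hconv _ hiv, ← ENNReal.ofReal_add
    (integral_nonneg fun y => mul_nonneg (hs0 y) (by positivity))
    (integral_nonneg fun y => mul_nonneg (hs0 y) (by positivity))]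
  congr 1
  have e1 : ∫ y, s y * ‖U y + V y‖ ^ 2 = ∫ y, ((s y * ‖U y‖ ^ 2 + s y * ‖V y‖ ^ 2) +
      2 * (((s y : ℝ) : ℂ) * (V y * conj (U y))).re) := by
    simp only [hkey]
  have hi3 : Integrable fun y => s y * ‖U y‖ ^ 2 + s y * ‖V y‖ ^ 2 := hiu.add hiv
  rw [e1, integral_add hi3 (hreI.const_mul 2), integral_add hiu hiv, integral_const_mul, hre]
  ring

theorem high (hB : S_BAS) (hC : S_CNV) (hP : S_PRD) {χ : ℂ → ℝ} {k : ℂ → ℂ} (hk : Bd 0 1 k)
    (hχ : ∀ x, Fi k x = (χ x : ℂ)) (hpos : ∀ x, 0 ≤ χ x) (heven : ∀ x, χ (-x) = χ x)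
    {ρ b a' b' : ℝ} (hρ : 0 < ρ) (hab : b + 1 / ρ < a') {h₁ h₂ : ℂ → ℂ}
    (H₁ : Bd 0 b h₁) (H₂ : Bd a' b' h₂) (z : ℂ) :
    ∫⁻ y, ENNReal.ofReal (sc χ ρ y) * ‖Fi (fun ξ => h₁ ξ + h₂ ξ) (z + y)‖ₑ ^ 2 =
      (∫⁻ y, ENNReal.ofReal (sc χ ρ y) * ‖Fi h₁ (z + y)‖ₑ ^ 2) +
        ∫⁻ y, ENNReal.ofReal (sc χ ρ y) * ‖Fi h₂ (z + y)‖ₑ ^ 2 := by
  -- the scaled density
  have hkr : Bd 0 (1 / ρ) (fun ξ => k ((ρ : ℂ) * ξ)) := by
    refine ⟨hk.1.comp (contDiff_const.mul contDiff_id), fun ξ hξ => ⟨norm_nonneg _, ?_⟩⟩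
    have := (hk.2 _ hξ).2
    rw [norm_mul, Complex.norm_real, Real.norm_of_nonneg hρ.le] at this
    rw [le_div_iff₀ hρ]
    linarith
  have hks : ∀ y, Fi (fun ξ => k ((ρ : ℂ) * ξ)) y = ((sc χ ρ y : ℝ) : ℂ) := by
    intro y
    rw [Fi_scale hρ.ne', hχ]
    unfold sc
    push_cast
    rfl
  have hse : ∀ y, sc χ ρ (-y) = sc χ ρ y := by
    intro y
    unfold sc
    rw [mul_neg, heven]
  have hs0 : ∀ y, 0 ≤ sc χ ρ y := fun y => mul_nonneg (by positivity) (hpos _)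
  obtain ⟨hkc, -, ⟨-, hki, -⟩, -, -⟩ := hB (1 / ρ) _ hkr
  have hsc : Continuous (sc χ ρ) := by
    have : sc χ ρ = fun y => (Fi (fun ξ => k ((ρ : ℂ) * ξ)) y).re := by
      funext y
      rw [hks, Complex.ofReal_re]
    rw [this]
    exact Complex.continuous_re.comp hkc
  have hsi : Integrable (sc χ ρ) := by
    have : sc χ ρ = fun y => (Fi (fun ξ => k ((ρ : ℂ) * ξ)) y).re := by
      funext y
      rw [hks, Complex.ofReal_re]
    rw [this]
    exact hki.re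
  obtain ⟨huc, -, ⟨-, -, ⟨Mu, hMu⟩⟩, -, -⟩ := hB b h₁ H₁
  obtain ⟨hvc, -, ⟨-, -, ⟨Mv, hMv⟩⟩, -, -⟩ := hB b' h₂ (Bd_zero H₂)
  -- integrability
  have hint : ∀ (f : ℂ → ℝ) (M : ℝ), Continuous f → (∀ x, |f x| ≤ M) →
      Integrable (fun y => sc χ ρ y * f (z + y)) := by
    intro f M hf hM
    refine (hsi.mul_const M).mono' (hsc.mul (hf.comp (continuous_const_add z))).aestronglyMeasurable ?_
    refine Eventually.of_forall fun y => ?_
    rw [norm_mul, Real.norm_of_nonneg (hs0 y), Real.norm_eq_abs]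
    exact mul_le_mul_of_nonneg_left (hM _) (hs0 y)
  have hsq : ∀ (g : ℂ → ℂ) (M : ℝ), (∀ x, ‖g x‖ ≤ M) → ∀ x, |‖g x‖ ^ 2| ≤ M ^ 2 := by
    intro g M hM x
    rw [abs_of_nonneg (by positivity)]
    exact pow_le_pow_left₀ (norm_nonneg _) (hM x) 2
  have hiu := hint (fun x => ‖Fi h₁ x‖ ^ 2) (Mu ^ 2) (huc.norm.pow 2) (hsq _ _ hMu)
  have hiv := hint (fun x => ‖Fi h₂ x‖ ^ 2) (Mv ^ 2) (hvc.norm.pow 2) (hsq _ _ hMv)
  -- the mixed term
  obtain ⟨h', H', e'⟩ := hP.2 0 b h₁ H₁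
  obtain ⟨h3, H3, e3⟩ := hP.1 a' b' b h₂ h' H₂ H'
  have hprod : ∀ x, Fi h₂ x * conj (Fi h₁ x) = Fi h3 x := by
    intro x
    rw [e', e3]
  have hzero : (fun ξ => k ((ρ : ℂ) * ξ) * h3 ξ) = fun _ => 0 := by
    funext ξ
    by_cases h0 : h3 ξ = 0
    · rw [h0, mul_zero]
    · by_cases h5 : k ((ρ : ℂ) * ξ) = 0
      · rw [h5, zero_mul]
      · exfalso
        have h6 := (hkr.2 ξ h5).2
        have h7 := (H3.2 ξ h0).1
        linarith
  obtain ⟨hcI, hcE⟩ := hC (max (1 / ρ) (b' + b)) _ _ (Bd_mono hkr le_rfl (le_max_left _ _))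
    (Bd_mono (Bd_zero H3) le_rfl (le_max_right _ _)) z
  have hshift : ∀ y, Fi (fun ξ => k ((ρ : ℂ) * ξ)) (z - (z + y)) * Fi h3 (z + y) =
      ((sc χ ρ y : ℝ) : ℂ) * (Fi h₂ (z + y) * conj (Fi h₁ (z + y))) := by
    intro y
    rw [hprod, hks, show z - (z + y) = -y by ring, hse]
  have hmixI : Integrable fun y => ((sc χ ρ y : ℝ) : ℂ) * (Fi h₂ (z + y) * conj (Fi h₁ (z + y))) := by
    have := hcI.comp_add_left z
    exact this.congr (Eventually.of_forall hshift)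
  have hmix : ∫ y, ((sc χ ρ y : ℝ) : ℂ) * (Fi h₂ (z + y) * conj (Fi h₁ (z + y))) = 0 := by
    rw [← integral_congr_ae (Eventually.of_forall hshift),
      integral_add_left_eq_self (fun y => Fi (fun ξ => k ((ρ : ℂ) * ξ)) (z - y) * Fi h3 y) z,
      ← hcE, hzero]
    unfold Fi
    simp
  have hsum : ∀ y, Fi (fun ξ => h₁ ξ + h₂ ξ) (z + y) = Fi h₁ (z + y) + Fi h₂ (z + y) := fun y =>
    Fi_add H₁ H₂ (z + y)
  simp only [hsum]
  exact high0 hs0 hiu hiv hmixI hmix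

end Pool.Agent.N892.BW.SUP
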