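import Mathlib
import Pool.Agent.N892.BW.Stm2
import Pool.Agent.N892.BW.SUP_A
import Pool.Agent.N892.BW.SUP_B

/-!
Project BW, part SUP: the lower energy inequality (helper756).
-/

set_option autoImplicit false

open MeasureTheory ENNReal Filter Topology Complex
open scoped ComplexConjugate ContDiff FourierTransform

namespace Pool.Agent.N892.BW.SUP

/-- the density with compact spectrum -/
theorem cons (hB : S_BAS) (hP : S_PRD) : ∃ (χ : ℂ → ℝ) (k : ℂ → ℂ), Bd 0 1 k ∧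
    (∀ x, Fi k x = (χ x : ℂ)) ∧ (∀ x, χ (-x) = χ x) ∧ Den χ := by
  let f : ContDiffBump (0 : ℂ) := ⟨1 / 4, 1 / 2, by norm_num, by norm_num⟩
  obtain ⟨h0, hh0⟩ : ∃ h0 : ℂ → ℂ, ∀ ξ, h0 ξ = ((f ξ : ℝ) : ℂ) := ⟨_, fun _ => rfl⟩
  have H0 : Bd 0 (1 / 2) h0 := by
    refine ⟨?_, fun ξ hξ => ⟨norm_nonneg _, ?_⟩⟩
    · have : h0 = fun ξ => ((f ξ : ℝ) : ℂ) := funext hh0
      rw [this]
      exact Complex.ofRealCLM.contDiff.comp f.contDiff
    · by_contra hlt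
      push Not at hlt
      apply hξ
      have : f ξ = 0 := f.zero_of_le_dist (by rw [dist_zero_right]; exact hlt.le)
      rw [hh0, this, Complex.ofReal_zero]
  have hev : ∀ ξ, h0 (-ξ) = h0 ξ := by
    intro ξ
    rw [hh0, hh0, f.neg]
  obtain ⟨h4, H4, e4⟩ := sq_rep hP H0
  obtain ⟨hgc, -, ⟨-, hgi, ⟨M, hM⟩⟩, -, hpl⟩ := hB (1 / 2) h0 H0
  -- the mass
  have hJt : (∫⁻ ξ, ‖h0 ξ‖ₑ ^ 2) ≠ ⊤ := by
    have hi : Integrable fun ξ => h0 ξ * h0 ξ :=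
      Continuous.integrable_of_hasCompactSupport (H0.1.continuous.mul H0.1.continuous)
        (Bd_cs H0).mul_left
    have h2 := hi.2.ne
    have h3 : ∫⁻ ξ, ‖h0 ξ‖ₑ ^ 2 = ∫⁻ ξ, ‖h0 ξ * h0 ξ‖ₑ :=
      lintegral_congr fun ξ => by rw [enorm_mul, sq]
    rw [h3]
    exact h2
  have hJ0 : (∫⁻ ξ, ‖h0 ξ‖ₑ ^ 2) ≠ 0 := by
    have h1 : volume (Metric.ball (0 : ℂ) (1 / 4)) ≤ ∫⁻ ξ, ‖h0 ξ‖ₑ ^ 2 := by
      calc volume (Metric.ball (0 : ℂ) (1 / 4)) = ∫⁻ ξ in Metric.ball (0 : ℂ) (1 / 4), 1 := by simp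
        _ ≤ ∫⁻ ξ in Metric.ball (0 : ℂ) (1 / 4), ‖h0 ξ‖ₑ ^ 2 := by
            refine setLIntegral_mono' Metric.isOpen_ball.measurableSet fun ξ hξ => ?_
            have : f ξ = 1 := f.one_of_mem_closedBall (Metric.ball_subset_closedBall hξ)
            rw [hh0, this, Complex.ofReal_one, enorm_one, one_pow]
        _ ≤ ∫⁻ ξ, ‖h0 ξ‖ₑ ^ 2 := setLIntegral_le_lintegral _ _
    have h2 : 0 < volume (Metric.ball (0 : ℂ) (1 / 4)) := Metric.measure_ball_pos _ _ (by norm_num)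
    exact (h2.trans_le h1).ne'
  obtain ⟨I, hI⟩ : ∃ I : ℝ, I = (∫⁻ ξ, ‖h0 ξ‖ₑ ^ 2).toReal := ⟨_, rfl⟩
  have hI0 : 0 < I := by
    rw [hI]
    exact ENNReal.toReal_pos hJ0 hJt
  have hk : Bd 0 1 (fun ξ => ((I⁻¹ : ℝ) : ℂ) * h4 ξ) := by
    refine ⟨contDiff_const.mul H4.1, fun ξ hξ => ⟨norm_nonneg _, ?_⟩⟩
    have : h4 ξ ≠ 0 := right_ne_zero_of_mul hξ
    have := (H4.2 ξ this).2
    linarith
  have hkχ : ∀ x, Fi (fun ξ => ((I⁻¹ : ℝ) : ℂ) * h4 ξ) x = ((I⁻¹ * ‖Fi h0 x‖ ^ 2 : ℝ) : ℂ) := by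
    intro x
    rw [Complex.ofReal_mul, e4]
    unfold Fi
    rw [← integral_const_mul]
    congr 1
    funext ξ
    ring
  refine ⟨fun x => I⁻¹ * ‖Fi h0 x‖ ^ 2, _, hk, hkχ, ?_, ?_, ?_, ?_, ?_⟩
  · intro x
    have : Fi h0 (-x) = Fi h0 x := by
      unfold Fi
      rw [← integral_neg_eq_self]
      congr 1
      funext ξ
      rw [hev]
      congr 1
      unfold e2
      congr 2
      norm_cast
      simp only [Complex.neg_re, Complex.neg_im]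
      ring
    simp only [this]
  · exact (measurable_const.mul (hgc.norm.pow 2).measurable)
  · intro y
    positivity
  · have h8 : ∫ a, ‖Fi h0 a‖ ^ 2 = (∫⁻ a, ENNReal.ofReal (‖Fi h0 a‖ ^ 2)).toReal :=
      integral_eq_lintegral_of_nonneg_ae (Eventually.of_forall fun y => sq_nonneg _)
        (hgc.norm.pow 2).aestronglyMeasurable
    rw [integral_const_mul, h8]
    have h5 : ∫⁻ x, ENNReal.ofReal (‖Fi h0 x‖ ^ 2) = ∫⁻ ξ, ‖h0 ξ‖ₑ ^ 2 := by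
      rw [← hpl]
      refine lintegral_congr fun x => ?_
      rw [ENNReal.ofReal_pow (norm_nonneg _), ofReal_norm]
    rw [h5, ← hI, inv_mul_cancel₀ hI0.ne']
  · obtain ⟨C, hC⟩ := (hB 1 _ hk).2.1 4
    have hjap : Integrable fun x : ℂ => (1 + ‖x‖) ^ (-(3 : ℝ)) := by
      apply integrable_one_add_norm
      rw [Complex.finrank_real_complex]
      norm_num
    refine (hjap.const_mul C).mono' ((continuous_norm.mul
      (continuous_const.mul (hgc.norm.pow 2))).aestronglyMeasurable) ?_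
    refine Eventually.of_forall fun x => ?_
    have h6 := hC x
    rw [hkχ, Complex.norm_real, Real.norm_of_nonneg (by positivity)] at h6
    rw [Real.norm_of_nonneg (by positivity), Real.rpow_neg (by positivity),
      show (3 : ℝ) = ((3 : ℕ) : ℝ) by norm_num, Real.rpow_natCast, ← div_eq_mul_inv,
      le_div_iff₀ (by positivity)]
    have h7 : ‖x‖ ≤ 1 + ‖x‖ := by linarith
    have h8 : 0 ≤ I⁻¹ * ‖Fi h0 x‖ ^ 2 := by positivity
    calc ‖x‖ * (I⁻¹ * ‖Fi h0 x‖ ^ 2) * (1 + ‖x‖) ^ 3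
        ≤ (1 + ‖x‖) * (I⁻¹ * ‖Fi h0 x‖ ^ 2) * (1 + ‖x‖) ^ 3 := by gcongr
      _ = I⁻¹ * ‖Fi h0 x‖ ^ 2 * (1 + ‖x‖) ^ 4 := by ring
      _ ≤ C := h6

/-- the numerical step -/
theorem numer {m : ℕ} (hm : 1 ≤ m) {X Y : ℝ≥0∞} (hX : X ≠ ⊤) {κ : ℝ} (hκ : 0 ≤ κ)
    (h : X ^ (1 / (m : ℝ)) ≤ Y ^ (1 / (m : ℝ)) + ENNReal.ofReal κ * X ^ (1 / (m : ℝ))) :
    X ≤ Y + ENNReal.ofReal (m * κ) * X := by
  have hm' : (1 : ℝ) ≤ m := by exact_mod_cast hm
  have hm0 : (m : ℝ) ≠ 0 := by positivity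
  by_cases hY : Y = ⊤
  · rw [hY, top_add]
    exact le_top
  by_cases hk1 : 1 ≤ κ
  · have h1 : (1 : ℝ≥0∞) ≤ ENNReal.ofReal (m * κ) := by
      rw [ENNReal.one_le_ofReal]
      nlinarith
    calc X = 1 * X := (one_mul X).symm
      _ ≤ ENNReal.ofReal (m * κ) * X := by gcongr
      _ ≤ Y + ENNReal.ofReal (m * κ) * X := le_add_self
  push Not at hk1
  have hpos : (0 : ℝ) ≤ 1 / (m : ℝ) := by positivity
  have hXr : X ^ (1 / (m : ℝ)) ≠ ⊤ := ENNReal.rpow_ne_top_of_nonneg hpos hX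
  have hYr : Y ^ (1 / (m : ℝ)) ≠ ⊤ := ENNReal.rpow_ne_top_of_nonneg hpos hY
  obtain ⟨x, hx0, hx⟩ : ∃ x : ℝ, 0 ≤ x ∧ X ^ (1 / (m : ℝ)) = ENNReal.ofReal x :=
    ⟨_, ENNReal.toReal_nonneg, (ENNReal.ofReal_toReal hXr).symm⟩
  obtain ⟨y, hy0, hy⟩ : ∃ y : ℝ, 0 ≤ y ∧ Y ^ (1 / (m : ℝ)) = ENNReal.ofReal y :=
    ⟨_, ENNReal.toReal_nonneg, (ENNReal.ofReal_toReal hYr).symm⟩
  have hXx : X = ENNReal.ofReal (x ^ m) := by
    rw [ENNReal.ofReal_pow hx0, ← hx, ← ENNReal.rpow_natCast, ← ENNReal.rpow_mul,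
      one_div_mul_cancel hm0, ENNReal.rpow_one]
  have hYy : Y = ENNReal.ofReal (y ^ m) := by
    rw [ENNReal.ofReal_pow hy0, ← hy, ← ENNReal.rpow_natCast, ← ENNReal.rpow_mul,
      one_div_mul_cancel hm0, ENNReal.rpow_one]
  rw [hx, hy, ← ENNReal.ofReal_mul hκ, ← ENNReal.ofReal_add hy0 (mul_nonneg hκ hx0),
    ENNReal.ofReal_le_ofReal_iff (add_nonneg hy0 (mul_nonneg hκ hx0))] at h
  rw [hXx, hYy, ← ENNReal.ofReal_mul (by positivity), ← ENNReal.ofReal_add (by positivity)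
    (by positivity)]
  apply ENNReal.ofReal_le_ofReal
  have h2 : (1 - κ) * x ≤ y := by linarith
  have h3 : ((1 - κ) * x) ^ m ≤ y ^ m :=
    pow_le_pow_left₀ (mul_nonneg (by linarith) hx0) h2 m
  have h4 : 1 - m * κ ≤ (1 - κ) ^ m := by
    have := one_add_mul_le_pow (a := -κ) (by linarith) m
    calc 1 - m * κ = 1 + m * (-κ) := by ring
      _ ≤ (1 + -κ) ^ m := this
      _ = (1 - κ) ^ m := by ring
  rw [mul_pow] at h3
  have h5 : (1 - m * κ) * x ^ m ≤ (1 - κ) ^ m * x ^ m :=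
    mul_le_mul_of_nonneg_right h4 (pow_nonneg hx0 m)
  nlinarith

/-- **SUP.** -/
theorem t (hB : Pool.Agent.N892.BW.S_BAS) (hC : Pool.Agent.N892.BW.S_CNV)
    (hP : Pool.Agent.N892.BW.S_PRD) : Pool.Agent.N892.BW.S_SUP := by
  obtain ⟨χ, k, hk, hkχ, hev, hD⟩ := cons hB hP
  obtain ⟨K, hK, hlow⟩ := low hB hC hP
  refine ⟨χ, hD, fun m hm => ?_⟩
  obtain ⟨hχm, hχ0, hχ1, hχM⟩ := hD
  have hχi : Integrable χ := by
    by_contra hne
    rw [integral_undef hne] at hχ1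
    exact zero_ne_one hχ1
  have hχl : ∫⁻ y, ENNReal.ofReal (χ y) = 1 := by
    rw [← ofReal_integral_eq_lintegral_ofReal hχi (Eventually.of_forall hχ0), hχ1,
      ENNReal.ofReal_one]
  obtain ⟨M1, hM1⟩ : ∃ M1 : ℝ≥0∞, M1 = ∫⁻ y, ENNReal.ofReal (χ y) * ‖y‖ₑ := ⟨_, rfl⟩
  have hM1t : M1 ≠ ⊤ := by
    have h1 : M1 = ∫⁻ y, ‖‖y‖ * χ y‖ₑ := by
      rw [hM1]
      refine lintegral_congr fun y => ?_
      rw [enorm_mul, enorm_norm, mul_comm, ← ofReal_norm (χ y), Real.norm_of_nonneg (hχ0 y)]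
    rw [h1]
    exact hχM.2.ne
  have hm1 : (1 : ℝ) ≤ m := by exact_mod_cast hm
  obtain ⟨C0, hC0, hC0e⟩ : ∃ C0 : ℝ, 0 ≤ C0 ∧ ENNReal.ofReal C0 = K * M1 :=
    ⟨(K * M1).toReal, ENNReal.toReal_nonneg, ENNReal.ofReal_toReal (ENNReal.mul_ne_top hK hM1t)⟩
  refine ⟨m * C0, by positivity, fun ρ b a' b' h₁ h₂ hρ hb hab H₁ H₂ => ?_⟩
  -- the scaled density
  have hs0 : ∀ y, 0 ≤ sc χ ρ y := fun y => mul_nonneg (by positivity) (hχ0 _)
  have hρi : (0 : ℝ) < ρ⁻¹ := inv_pos.2 hρ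
  have hsm : Measurable (sc χ ρ) := by
    have : Measurable fun y : ℂ => ((ρ⁻¹ : ℝ) : ℂ) * y := measurable_const_mul _
    exact measurable_const.mul (hχm.comp this)
  have hpm : Measurable fun y => ENNReal.ofReal (sc χ ρ y) := hsm.ennreal_ofReal
  have hp1 : ∫⁻ y, ENNReal.ofReal (sc χ ρ y) = 1 := by
    have h1 : ∀ y, ENNReal.ofReal (sc χ ρ y) =
        ENNReal.ofReal ((ρ ^ 2)⁻¹) * ENNReal.ofReal (χ (((ρ⁻¹ : ℝ) : ℂ) * y)) := by
      intro y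
      unfold sc
      rw [ENNReal.ofReal_mul (by positivity)]
    rw [lintegral_congr h1, lintegral_const_mul' _ _ ENNReal.ofReal_ne_top,
      lint_scale hρi.ne' (fun y => ENNReal.ofReal (χ y)), hχl, mul_one,
      ← ENNReal.ofReal_mul (by positivity), inv_pow, inv_inv, inv_mul_cancel₀ (by positivity),
      ENNReal.ofReal_one]
  have hp2 : ∫⁻ y, ENNReal.ofReal (sc χ ρ y) * ‖y‖ₑ = ENNReal.ofReal ρ * M1 := by
    have h1 : ∀ y : ℂ, ENNReal.ofReal (sc χ ρ y) * ‖y‖ₑ =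
        ENNReal.ofReal ((ρ ^ 2)⁻¹ * ρ) * (ENNReal.ofReal (χ (((ρ⁻¹ : ℝ) : ℂ) * y)) *
          ‖((ρ⁻¹ : ℝ) : ℂ) * y‖ₑ) := by
      intro y
      unfold sc
      have h2 : ‖y‖ₑ = ENNReal.ofReal ρ * ‖((ρ⁻¹ : ℝ) : ℂ) * y‖ₑ := by
        rw [enorm_mul, ← ofReal_norm ((ρ⁻¹ : ℝ) : ℂ), Complex.norm_real,
          Real.norm_of_nonneg hρi.le, ← mul_assoc, ← ENNReal.ofReal_mul hρ.le,
          mul_inv_cancel₀ hρ.ne', ENNReal.ofReal_one, one_mul]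
      rw [ENNReal.ofReal_mul (by positivity), ENNReal.ofReal_mul (by positivity)]
      conv_lhs => rw [h2]
      ring
    rw [lintegral_congr h1, lintegral_const_mul' _ _ ENNReal.ofReal_ne_top,
      lint_scale hρi.ne' (fun y => ENNReal.ofReal (χ y) * ‖y‖ₑ), ← hM1, ← mul_assoc,
      ← ENNReal.ofReal_mul (by positivity)]
    congr 2
    field_simp
  -- abbreviations
  obtain ⟨A, hA⟩ : ∃ A : (ℂ → ℂ) → ℂ → ℝ≥0∞, ∀ f z, A f z =
      ∫⁻ y, ENNReal.ofReal (sc χ ρ y) * ‖f (z + y)‖ₑ ^ 2 := ⟨_, fun f z => rfl⟩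
  have hLs : ∀ f, Ls m χ ρ f = ∫⁻ z, A f z ^ m := by
    intro f
    unfold Ls
    simp only [hA]
  have hAm : ∀ f : ℂ → ℂ, Continuous f → Measurable (A f) := by
    intro f hf
    have h1 : A f = fun z => ∫⁻ y, ENNReal.ofReal (sc χ ρ y) * ‖f (z + y)‖ₑ ^ 2 := funext (hA f)
    rw [h1]
    have hj : Measurable (Function.uncurry fun z y : ℂ =>
        ENNReal.ofReal (sc χ ρ y) * ‖f (z + y)‖ₑ ^ 2) :=
      (hpm.comp measurable_snd).mul
        ((hf.measurable.comp (measurable_fst.add measurable_snd)).enorm.pow_const 2)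
    exact hj.lintegral_prod_right
  obtain ⟨huc, -, ⟨hum, hui, ⟨Mu, hMu⟩⟩, -, -⟩ := hB b h₁ H₁
  have hvc : Continuous (Fi h₂) := (hB b' h₂ (Bd_zero H₂)).1
  have hwc : Continuous (Fi fun ξ => h₁ ξ + h₂ ξ) := by
    have : (Fi fun ξ => h₁ ξ + h₂ ξ) = fun x => Fi h₁ x + Fi h₂ x := funext (Fi_add H₁ H₂)
    rw [this]
    exact huc.add hvc
  -- the low part
  have hL : Nm m (Fi h₁) ≤ Ls m χ ρ (Fi h₁) + ENNReal.ofReal (m * C0 * (ρ * b)) * Nm m (Fi h₁) := by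
    rcases hb.eq_or_lt with hb0 | hb0
    · have h1 : ∀ x, Fi h₁ x = 0 := by
        intro x
        unfold Fi
        have h2 : (fun ξ => e2 x ξ * h₁ ξ) =ᵐ[volume] fun _ => 0 := by
          have h3 : ∀ᵐ ξ : ℂ, ξ ≠ 0 := by
            rw [ae_iff]
            simp
          filter_upwards [h3] with ξ hξ
          have : h₁ ξ = 0 := by
            by_contra hne
            have h4 := (H₁.2 ξ hne).2
            rw [← hb0] at h4
            exact hξ (norm_le_zero_iff.1 h4)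
          rw [this, mul_zero]
        rw [integral_congr_ae h2, integral_zero]
      have h5 : Nm m (Fi h₁) = 0 := by
        unfold Nm
        have h6 : ∀ x, ‖Fi h₁ x‖ₑ ^ (2 * m) = 0 := by
          intro x
          rw [h1, enorm_zero]
          exact zero_pow (by omega)
        rw [lintegral_congr h6, lintegral_zero]
      rw [h5]
      exact zero_le
    · have hX : Nm m (Fi h₁) ≠ ⊤ := by
        have hMu0 : 0 ≤ Mu := (norm_nonneg _).trans (hMu 0)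
        have h1 : Nm m (Fi h₁) ≤ ∫⁻ x, ENNReal.ofReal (Mu ^ (2 * m - 1)) * ‖Fi h₁ x‖ₑ := by
          unfold Nm
          refine lintegral_mono fun x => ?_
          obtain ⟨j, hj⟩ : ∃ j, 2 * m = j + 1 := ⟨2 * m - 1, by omega⟩
          rw [hj, Nat.add_sub_cancel, pow_succ, ENNReal.ofReal_pow hMu0]
          gcongr
          rw [← ofReal_norm]
          exact ENNReal.ofReal_le_ofReal (hMu x)
        refine ne_top_of_le_ne_top ?_ h1
        rw [lintegral_const_mul' _ _ ENNReal.ofReal_ne_top]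
        exact ENNReal.mul_ne_top ENNReal.ofReal_ne_top hui.2.ne
      have h2 := hlow m hm b hb0 h₁ H₁ _ hpm hp1
      rw [hp2] at h2
      have h3 : K * ENNReal.ofReal b * (ENNReal.ofReal ρ * M1) = ENNReal.ofReal (C0 * (ρ * b)) := by
        rw [ENNReal.ofReal_mul hC0, hC0e, ENNReal.ofReal_mul hρ.le]
        ring
      rw [h3] at h2
      have h4 := numer hm hX (κ := C0 * (ρ * b)) (by positivity) h2
      rw [mul_assoc]
      exact h4
  -- the sum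
  have hS : Ls m χ ρ (Fi h₁) + Ls m χ ρ (Fi h₂) ≤ Nm m (Fi fun ξ => h₁ ξ + h₂ ξ) := by
    have h1 : ∀ z, A (Fi fun ξ => h₁ ξ + h₂ ξ) z = A (Fi h₁) z + A (Fi h₂) z := by
      intro z
      rw [hA, hA, hA]
      exact high hB hC hP hk hkχ hχ0 hev hρ hab H₁ H₂ z
    have h2 : ∫⁻ z, A (Fi fun ξ => h₁ ξ + h₂ ξ) z ^ m ≤ Nm m (Fi fun ξ => h₁ ξ + h₂ ξ) := by
      have h3 := aver hm hpm (P := fun x => ‖Fi (fun ξ => h₁ ξ + h₂ ξ) x‖ₑ ^ 2)
        (hwc.measurable.enorm.pow_const 2) hp1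
      simp only [← hA] at h3
      refine h3.trans (le_of_eq ?_)
      unfold Nm
      refine lintegral_congr fun x => ?_
      rw [← pow_mul]
    refine le_trans ?_ h2
    rw [hLs, hLs, ← lintegral_add_left ((hAm _ huc).pow_const m)]
    refine lintegral_mono fun z => ?_
    rw [h1]
    have h4 := ENNReal.add_rpow_le_rpow_add (A (Fi h₁) z) (A (Fi h₂) z) hm1
    simp only [ENNReal.rpow_natCast] at h4
    exact h4
  calc Nm m (Fi h₁) + Ls m χ ρ (Fi h₂)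
      ≤ (Ls m χ ρ (Fi h₁) + ENNReal.ofReal (m * C0 * (ρ * b)) * Nm m (Fi h₁)) +
          Ls m χ ρ (Fi h₂) := by gcongr
    _ = (Ls m χ ρ (Fi h₁) + Ls m χ ρ (Fi h₂)) +
          ENNReal.ofReal (m * C0 * (ρ * b)) * Nm m (Fi h₁) := by ring
    _ ≤ Nm m (Fi fun ξ => h₁ ξ + h₂ ξ) + ENNReal.ofReal (m * C0 * (ρ * b)) * Nm m (Fi h₁) := by
        gcongr

end Pool.Agent.N892.BW.SUP
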