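import Mathlib
import Pool.Agent.N892.BW.Stm3
import Pool.Agent.N892.BW.SUP_A

/-!
Project BW, part SUQ, first file: convexity with a quadratic error, moments (helper400).
-/

set_option autoImplicit false

open MeasureTheory ENNReal Filter Topology Complex
open scoped ComplexConjugate ContDiff FourierTransform

namespace Pool.Agent.N892.BW.SUQ

/-! ### numerical inequalities -/

theorem bern {m : ℕ} (hm : 1 ≤ m) {v q : ℝ} (hv : 0 ≤ v) (hq : 0 ≤ q) :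
    v ^ m + m * (v ^ (m - 1) * q) ≤ q ^ m + m * v ^ m := by
  obtain ⟨n, rfl⟩ : ∃ n, m = n + 1 := ⟨m - 1, by omega⟩
  rw [Nat.add_sub_cancel]
  rcases hv.eq_or_lt with h0 | h0
  · rw [← h0]
    rcases Nat.eq_zero_or_pos n with h1 | h1
    · subst h1
      simp
    · rw [zero_pow (by omega), zero_pow (by omega)]
      have : 0 ≤ q ^ (n + 1) := by positivity
      simp only [zero_mul, mul_zero, add_zero]
      exact this
  · have h1 := one_add_mul_le_pow (a := q / v - 1) (by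
      have : 0 ≤ q / v := by positivity
      linarith) (n + 1)
    have h2 : 1 + (q / v - 1) = q / v := by ring
    rw [h2] at h1
    have h3 := mul_le_mul_of_nonneg_left h1 (pow_nonneg hv (n + 1))
    rw [div_pow, mul_div_cancel₀ _ (by positivity)] at h3
    have h4 : v ^ (n + 1) * (1 + ((n + 1 : ℕ) : ℝ) * (q / v - 1)) =
        v ^ (n + 1) + ((n + 1 : ℕ) : ℝ) * (v ^ n * q) - ((n + 1 : ℕ) : ℝ) * v ^ (n + 1) := by
      have h5 : v ^ (n + 1) * (q / v) = v ^ n * q := by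
        field_simp
        ring
      linear_combination ((n + 1 : ℕ) : ℝ) * h5
    rw [h4] at h3
    linarith

theorem bernE {m : ℕ} (hm : 1 ≤ m) {V Q : ℝ≥0∞} (hV : V ≠ ⊤) :
    V ^ m + m * (V ^ (m - 1) * Q) ≤ Q ^ m + m * V ^ m := by
  by_cases hQ : Q = ⊤
  · rw [hQ, ENNReal.top_pow (by omega), top_add]
    exact le_top
  · lift V to NNReal using hV
    lift Q to NNReal using hQ
    have h := bern hm (v := V) (q := Q) V.2 Q.2
    exact_mod_cast h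

theorem quad {m : ℕ} (hm : 1 ≤ m) {a a' d : ℝ} (ha : 0 ≤ a) (ha' : 0 ≤ a') (hd : |a - a'| ≤ d) :
    (a ^ 2) ^ m + (a' ^ 2) ^ m ≤ (a ^ 2) ^ (m - 1) * a' ^ 2 + (a' ^ 2) ^ (m - 1) * a ^ 2 +
      m * (d ^ 2 * (a + a') ^ (2 * m - 2)) := by
  obtain ⟨n, rfl⟩ : ∃ n, m = n + 1 := ⟨m - 1, by omega⟩
  rw [Nat.add_sub_cancel, show 2 * (n + 1) - 2 = 2 * n by omega]
  have h1 : (a ^ 2) ^ (n + 1) + (a' ^ 2) ^ (n + 1) - (a ^ 2) ^ n * a' ^ 2 - (a' ^ 2) ^ n * a ^ 2 =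
      ((a ^ 2) ^ n - (a' ^ 2) ^ n) * (a ^ 2 - a' ^ 2) := by ring
  have h2 := abs_pow_sub_pow_le (a ^ 2) (a' ^ 2) n
  have hd0 : 0 ≤ d := (abs_nonneg _).trans hd
  have h3 : |a ^ 2 - a' ^ 2| ≤ d * (a + a') := by
    have : a ^ 2 - a' ^ 2 = (a - a') * (a + a') := by ring
    rw [this, abs_mul, abs_of_nonneg (add_nonneg ha ha')]
    exact mul_le_mul_of_nonneg_right hd (add_nonneg ha ha')
  have h4 : ((a ^ 2) ^ n - (a' ^ 2) ^ n) * (a ^ 2 - a' ^ 2) ≤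
      ((n + 1 : ℕ) : ℝ) * (d ^ 2 * (a + a') ^ (2 * n)) := by
    refine (le_abs_self _).trans ?_
    rw [abs_mul]
    rcases Nat.eq_zero_or_pos n with h0 | h0
    · subst h0
      simp
      positivity
    · have h5 : max |a ^ 2| |a' ^ 2| ≤ (a + a') ^ 2 := by
        rw [abs_of_nonneg (by positivity), abs_of_nonneg (by positivity)]
        refine max_le ?_ ?_
        · nlinarith [mul_nonneg ha ha', sq_nonneg a']
        · nlinarith [mul_nonneg ha ha', sq_nonneg a]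
      have h6 : |(a ^ 2) ^ n - (a' ^ 2) ^ n| ≤ d * (a + a') * n * ((a + a') ^ 2) ^ (n - 1) := by
        refine h2.trans ?_
        gcongr
      have h7 : d * (a + a') * n * ((a + a') ^ 2) ^ (n - 1) * (d * (a + a')) =
          n * (d ^ 2 * (a + a') ^ (2 * n)) := by
        have h8 : (a + a') ^ (2 * n) = ((a + a') ^ 2) ^ (n - 1) * (a + a') ^ 2 := by
          rw [← pow_mul, ← pow_add]
          congr 1
          omega
        rw [h8]
        ring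
      calc |(a ^ 2) ^ n - (a' ^ 2) ^ n| * |a ^ 2 - a' ^ 2|
          ≤ d * (a + a') * n * ((a + a') ^ 2) ^ (n - 1) * (d * (a + a')) :=
            mul_le_mul h6 h3 (abs_nonneg _) (by positivity)
        _ = n * (d ^ 2 * (a + a') ^ (2 * n)) := h7
        _ ≤ ((n + 1 : ℕ) : ℝ) * (d ^ 2 * (a + a') ^ (2 * n)) := by
            refine mul_le_mul_of_nonneg_right ?_ (by positivity)
            push_cast
            linarith
  linarith

theorem quadE {m : ℕ} (hm : 1 ≤ m) (u u' : ℂ) :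
    (‖u‖ₑ ^ 2) ^ m + (‖u'‖ₑ ^ 2) ^ m ≤ (‖u‖ₑ ^ 2) ^ (m - 1) * ‖u'‖ₑ ^ 2 +
      (‖u'‖ₑ ^ 2) ^ (m - 1) * ‖u‖ₑ ^ 2 +
      m * (‖u' - u‖ₑ ^ 2 * (‖u‖ₑ + ‖u'‖ₑ) ^ (2 * m - 2)) := by
  have h := quad hm (norm_nonneg u) (norm_nonneg u') (d := ‖u' - u‖) (by
    rw [abs_sub_comm]
    exact abs_norm_sub_norm_le u' u)
  simp only [enorm_eq_nnnorm]
  simp only [← coe_nnnorm] at h
  exact_mod_cast h

theorem two_sq (x y : ℝ≥0∞) : (x + y) ^ 2 ≤ 2 * x ^ 2 + 2 * y ^ 2 := by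
  by_cases hx : x = ⊤
  · subst hx
    simp [ENNReal.mul_top]
  by_cases hy : y = ⊤
  · subst hy
    simp [ENNReal.mul_top]
  lift x to NNReal using hx
  lift y to NNReal using hy
  have h : ((x : ℝ) + y) ^ 2 ≤ 2 * (x : ℝ) ^ 2 + 2 * (y : ℝ) ^ 2 := by
    nlinarith [sq_nonneg ((x : ℝ) - y)]
  exact_mod_cast h

theorem amgm {m : ℕ} (hm : 1 ≤ m) (x y : ℝ≥0∞) : x ^ (m - 1) * y ≤ x ^ m + y ^ m := by
  obtain ⟨n, rfl⟩ : ∃ n, m = n + 1 := ⟨m - 1, by omega⟩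
  rw [Nat.add_sub_cancel]
  rcases le_total x y with h | h
  · calc x ^ n * y ≤ y ^ n * y := by gcongr
      _ = y ^ (n + 1) := (pow_succ y n).symm
      _ ≤ x ^ (n + 1) + y ^ (n + 1) := le_add_self
  · calc x ^ n * y ≤ x ^ n * x := by gcongr
      _ = x ^ (n + 1) := (pow_succ x n).symm
      _ ≤ x ^ (n + 1) + y ^ (n + 1) := le_self_add

/-! ### convexity with a quadratic error -/

theorem conv_err {m : ℕ} (hm : 1 ≤ m) {u : ℂ → ℂ} (hu : Continuous u)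
    (hfin : ∫⁻ x, ‖u x‖ₑ ^ (2 * m) ≠ ⊤) {p : ℂ → ℝ≥0∞} (hp : Measurable p)
    (hp1 : ∫⁻ y, p y = 1) (hev : ∀ y, p (-y) = p y) :
    ∫⁻ x, ‖u x‖ₑ ^ (2 * m) ≤ (∫⁻ x, (∫⁻ y, p y * ‖u (x + y)‖ₑ ^ 2) ^ m) +
      m * m * ∫⁻ x, ∫⁻ y, p y * (‖u (x + y) - u x‖ₑ ^ 2 *
        (‖u x‖ₑ + ‖u (x + y)‖ₑ) ^ (2 * m - 2)) := by
  obtain ⟨V, hV⟩ : ∃ V : ℂ → ℝ≥0∞, ∀ x, V x = ‖u x‖ₑ ^ 2 := ⟨_, fun _ => rfl⟩
  have hVm : Measurable V := by
    have : V = fun x => ‖u x‖ₑ ^ 2 := funext hV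
    rw [this]
    exact hu.measurable.enorm.pow_const 2
  have hVt : ∀ x, V x ≠ ⊤ := by
    intro x
    rw [hV]
    exact ENNReal.pow_ne_top enorm_ne_top
  obtain ⟨I, hI⟩ : ∃ I : ℝ≥0∞, I = ∫⁻ x, V x ^ m := ⟨_, rfl⟩
  have hI' : ∫⁻ x, ‖u x‖ₑ ^ (2 * m) = I := by
    rw [hI]
    refine lintegral_congr fun x => ?_
    rw [hV, ← pow_mul]
  have hIt : I ≠ ⊤ := by rwa [hI'] at hfin
  -- measurability on the product
  have hadd : Measurable fun q : ℂ × ℂ => q.1 + q.2 := measurable_fst.add measurable_snd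
  have hVa : Measurable fun q : ℂ × ℂ => V (q.1 + q.2) := hVm.comp hadd
  have hVf : Measurable fun q : ℂ × ℂ => V q.1 := hVm.comp measurable_fst
  have hpS : Measurable fun q : ℂ × ℂ => p q.2 := hp.comp measurable_snd
  obtain ⟨Er, hEr⟩ : ∃ Er : ℂ → ℂ → ℝ≥0∞, ∀ x y, Er x y = ‖u (x + y) - u x‖ₑ ^ 2 *
        (‖u x‖ₑ + ‖u (x + y)‖ₑ) ^ (2 * m - 2) := ⟨_, fun _ _ => rfl⟩
  have hErm : Measurable fun q : ℂ × ℂ => Er q.1 q.2 := by
    have h1 : (fun q : ℂ × ℂ => Er q.1 q.2) = fun q : ℂ × ℂ => ‖u (q.1 + q.2) - u q.1‖ₑ ^ 2 *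
        (‖u q.1‖ₑ + ‖u (q.1 + q.2)‖ₑ) ^ (2 * m - 2) := funext fun q => hEr q.1 q.2
    rw [h1]
    have c1 : Measurable fun q : ℂ × ℂ => u (q.1 + q.2) := hu.measurable.comp hadd
    have c2 : Measurable fun q : ℂ × ℂ => u q.1 := hu.measurable.comp measurable_fst
    exact ((c1.sub c2).enorm.pow_const 2).mul ((c2.enorm.add c1.enorm).pow_const _)
  simp only [← hEr, ← hV]
  rw [hI']
  -- the mixed integral
  obtain ⟨J, hJ⟩ : ∃ J : ℝ≥0∞, J = ∫⁻ x, ∫⁻ y, p y * (V x ^ (m - 1) * V (x + y)) := ⟨_, rfl⟩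
  have hsw : ∀ F : ℂ → ℂ → ℝ≥0∞, Measurable (fun q : ℂ × ℂ => F q.1 q.2) →
      ∫⁻ x, ∫⁻ y, p y * F x y = ∫⁻ y, p y * ∫⁻ x, F x y := by
    intro F hF
    have h1 : Measurable (Function.uncurry fun x y : ℂ => p y * F x y) := hpS.mul hF
    rw [lintegral_lintegral_swap h1.aemeasurable]
    refine lintegral_congr fun y => ?_
    have hFy : Measurable fun x : ℂ => F x y := hF.comp (measurable_id.prodMk measurable_const)
    rw [lintegral_const_mul _ hFy]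
  have hI1 : ∫⁻ x, ∫⁻ y, p y * V x ^ m = I := by
    rw [hsw (fun x _ => V x ^ m) (hVf.pow_const m), ← hI, lintegral_mul_const _ hp, hp1, one_mul]
  have hI2 : ∫⁻ x, ∫⁻ y, p y * V (x + y) ^ m = I := by
    rw [hsw (fun x y => V (x + y) ^ m) (hVa.pow_const m)]
    have h1 : ∀ y : ℂ, p y * ∫⁻ x, V (x + y) ^ m = p y * I := by
      intro y
      rw [lintegral_add_right_eq_self (fun z => V z ^ m) y, ← hI]
    rw [lintegral_congr h1, lintegral_mul_const _ hp, hp1, one_mul]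
  have hJ2 : ∫⁻ x, ∫⁻ y, p y * (V (x + y) ^ (m - 1) * V x) = J := by
    rw [hsw (fun x y => V (x + y) ^ (m - 1) * V x) ((hVa.pow_const _).mul hVf), hJ,
      hsw (fun x y => V x ^ (m - 1) * V (x + y)) ((hVf.pow_const _).mul hVa)]
    rw [← lintegral_neg_eq_self (fun y : ℂ => p y * ∫⁻ x, V x ^ (m - 1) * V (x + y))]
    refine lintegral_congr fun y => ?_
    rw [hev]
    congr 1
    rw [← lintegral_add_right_eq_self (fun x => V x ^ (m - 1) * V (x + -y)) y]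
    refine lintegral_congr fun x => ?_
    rw [add_neg_cancel_right]
  have hJt : J ≠ ⊤ := by
    have h1 : J ≤ I + I := by
      calc J ≤ ∫⁻ x, ∫⁻ y, (p y * V x ^ m + p y * V (x + y) ^ m) := by
            rw [hJ]
            refine lintegral_mono fun x => lintegral_mono fun y => ?_
            rw [← mul_add]
            gcongr
            exact amgm hm _ _
        _ = I + I := by
            have h2 : ∀ x, ∫⁻ y, (p y * V x ^ m + p y * V (x + y) ^ m) =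
                (∫⁻ y, p y * V x ^ m) + ∫⁻ y, p y * V (x + y) ^ m := by
              intro x
              exact lintegral_add_left (hp.mul_const _) _
            have h3 : Measurable fun x : ℂ => ∫⁻ y, p y * V x ^ m :=
              Measurable.lintegral_prod_right' (f := fun q : ℂ × ℂ => p q.2 * V q.1 ^ m)
                (hpS.mul (hVf.pow_const m))
            rw [lintegral_congr h2, lintegral_add_left h3, hI1, hI2]
    exact ne_top_of_le_ne_top (ENNReal.add_ne_top.2 ⟨hIt, hIt⟩) h1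
  -- first inequality
  obtain ⟨Ls, hLs⟩ : ∃ Ls : ℝ≥0∞, Ls = ∫⁻ x, (∫⁻ y, p y * V (x + y)) ^ m := ⟨_, rfl⟩
  rw [← hLs]
  have hQm : Measurable fun x : ℂ => ∫⁻ y, p y * V (x + y) :=
    Measurable.lintegral_prod_right' (f := fun q : ℂ × ℂ => p q.2 * V (q.1 + q.2)) (hpS.mul hVa)
  have hA : I + m * J ≤ Ls + m * I := by
    have h1 : ∀ x, V x ^ m + m * (V x ^ (m - 1) * ∫⁻ y, p y * V (x + y)) ≤
        (∫⁻ y, p y * V (x + y)) ^ m + m * V x ^ m := fun x => bernE hm (hVt x)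
    have h2 := lintegral_mono (μ := (volume : Measure ℂ)) h1
    have hq1 : Measurable fun x : ℂ => V x ^ (m - 1) * ∫⁻ y, p y * V (x + y) :=
      (hVm.pow_const _).mul hQm
    rw [lintegral_add_left (hVm.pow_const m), lintegral_add_left (hQm.pow_const m),
      lintegral_const_mul _ hq1, lintegral_const_mul _ (hVm.pow_const m),
      ← hI, ← hLs] at h2
    have h3 : ∫⁻ x, V x ^ (m - 1) * ∫⁻ y, p y * V (x + y) = J := by
      rw [hJ]
      refine lintegral_congr fun x => ?_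
      have hpx : Measurable fun y : ℂ => p y * V (x + y) :=
        hp.mul (hVm.comp (measurable_const_add x))
      rw [← lintegral_const_mul _ hpx]
      refine lintegral_congr fun y => ?_
      ring
    rw [h3] at h2
    exact h2
  -- second inequality
  obtain ⟨R, hR⟩ : ∃ R : ℝ≥0∞, R = ∫⁻ x, ∫⁻ y, p y * Er x y := ⟨_, rfl⟩
  rw [← hR]
  have hB : I + I ≤ J + J + m * R := by
    have h1 : ∀ x y, p y * V x ^ m + p y * V (x + y) ^ m ≤
        p y * (V x ^ (m - 1) * V (x + y)) + p y * (V (x + y) ^ (m - 1) * V x) +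
          m * (p y * Er x y) := by
      intro x y
      have h2 := quadE hm (u x) (u (x + y))
      rw [← hEr, ← hV, ← hV] at h2
      calc p y * V x ^ m + p y * V (x + y) ^ m = p y * (V x ^ m + V (x + y) ^ m) := by ring
        _ ≤ p y * (V x ^ (m - 1) * V (x + y) + V (x + y) ^ (m - 1) * V x + m * Er x y) := by
            gcongr
        _ = _ := by ring
    have h2 := lintegral_mono (μ := (volume : Measure ℂ)) fun x =>
      lintegral_mono (μ := (volume : Measure ℂ)) (h1 x)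
    have g1 : Measurable fun q : ℂ × ℂ => p q.2 * V q.1 ^ m := hpS.mul (hVf.pow_const m)
    have g2 : Measurable fun q : ℂ × ℂ => p q.2 * (V q.1 ^ (m - 1) * V (q.1 + q.2)) :=
      hpS.mul ((hVf.pow_const _).mul hVa)
    have g3 : Measurable fun q : ℂ × ℂ => p q.2 * (V (q.1 + q.2) ^ (m - 1) * V q.1) :=
      hpS.mul ((hVa.pow_const _).mul hVf)
    have g4 : Measurable fun q : ℂ × ℂ => p q.2 * Er q.1 q.2 := hpS.mul hErm
    have s1 : ∀ (F : ℂ × ℂ → ℝ≥0∞), Measurable F → ∀ x : ℂ, Measurable fun y => F (x, y) :=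
      fun F hF x => hF.comp (measurable_const.prodMk measurable_id)
    have k1 : Measurable fun x : ℂ => ∫⁻ y, p y * V x ^ m := g1.lintegral_prod_right'
    have k2 : Measurable fun x : ℂ => ∫⁻ y, p y * (V x ^ (m - 1) * V (x + y)) :=
      g2.lintegral_prod_right'
    have k3 : Measurable fun x : ℂ => ∫⁻ y, p y * (V (x + y) ^ (m - 1) * V x) :=
      g3.lintegral_prod_right'
    have k4 : Measurable fun x : ℂ => ∫⁻ y, p y * Er x y := g4.lintegral_prod_right'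
    have j2 : ∀ x : ℂ, Measurable fun y => p y * (V x ^ (m - 1) * V (x + y)) := s1 _ g2
    have j3 : ∀ x : ℂ, Measurable fun y => p y * (V (x + y) ^ (m - 1) * V x) := s1 _ g3
    have j4 : ∀ x : ℂ, Measurable fun y => p y * Er x y := s1 _ g4
    have e1 : ∫⁻ x, ∫⁻ y, (p y * V x ^ m + p y * V (x + y) ^ m) = I + I := by
      have h3 : ∀ x, ∫⁻ y, (p y * V x ^ m + p y * V (x + y) ^ m) =
          (∫⁻ y, p y * V x ^ m) + ∫⁻ y, p y * V (x + y) ^ m := fun x =>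
        lintegral_add_left (hp.mul_const _) _
      rw [lintegral_congr h3, lintegral_add_left k1, hI1, hI2]
    have e2 : ∫⁻ x, ∫⁻ y, (p y * (V x ^ (m - 1) * V (x + y)) +
        p y * (V (x + y) ^ (m - 1) * V x) + m * (p y * Er x y)) = J + J + m * R := by
      have h3 : ∀ x, ∫⁻ y, (p y * (V x ^ (m - 1) * V (x + y)) +
          p y * (V (x + y) ^ (m - 1) * V x) + m * (p y * Er x y)) =
          (∫⁻ y, p y * (V x ^ (m - 1) * V (x + y))) + (∫⁻ y, p y * (V (x + y) ^ (m - 1) * V x)) +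
            m * ∫⁻ y, p y * Er x y := by
        intro x
        have j5 : Measurable fun y : ℂ => p y * (V x ^ (m - 1) * V (x + y)) +
          p y * (V (x + y) ^ (m - 1) * V x) := (j2 x).add (j3 x)
        rw [lintegral_add_left j5, lintegral_add_left (j2 x),
          lintegral_const_mul _ (j4 x)]
      have k5 : Measurable fun x : ℂ => (∫⁻ y, p y * (V x ^ (m - 1) * V (x + y))) +
          ∫⁻ y, p y * (V (x + y) ^ (m - 1) * V x) := k2.add k3
      rw [lintegral_congr h3, lintegral_add_left k5, lintegral_add_left k2,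
        lintegral_const_mul _ k4, ← hJ, hJ2, ← hR]
    rw [e1, e2] at h2
    exact h2
  -- combination
  by_cases hRt : R = ⊤
  · rw [hRt]
    have hm0 : (m : ℝ≥0∞) * m ≠ 0 := by
      have : m ≠ 0 := by omega
      simp [this]
    rw [ENNReal.mul_top hm0, add_top]
    exact le_top
  by_cases hLt : Ls = ⊤
  · rw [hLt, top_add]
    exact le_top

  lift I to NNReal using hIt
  lift J to NNReal using hJt
  lift R to NNReal using hRt
  lift Ls to NNReal using hLt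
  have hA' : (I : ℝ) + m * J ≤ Ls + m * I := by exact_mod_cast hA
  have hB' : (I : ℝ) + I ≤ J + J + m * R := by exact_mod_cast hB
  have hm1 : (1 : ℝ) ≤ m := by exact_mod_cast hm
  have hR0 : (0 : ℝ) ≤ R := R.2
  have h9 : (I : ℝ) ≤ Ls + m * m * R := by
    nlinarith [mul_le_mul_of_nonneg_left hB' (by linarith : (0 : ℝ) ≤ m), mul_nonneg (mul_nonneg
      (by linarith : (0 : ℝ) ≤ m) (by linarith : (0 : ℝ) ≤ m)) hR0]
  exact_mod_cast h9

/-! ### moments -/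

theorem rad_int {χ : ℂ → ℝ} (hχ0 : ∀ y, 0 ≤ χ y) {L : ℕ} {C : ℝ}
    (hC : ∀ y, χ y * (1 + ‖y‖) ^ (L + 5) ≤ C) :
    ∫⁻ y : ℂ, ENNReal.ofReal (χ y) * ENNReal.ofReal (‖y‖ ^ 2 * (1 + ‖y‖) ^ L) ≠ ⊤ := by
  have hjap : Integrable fun x : ℂ => (1 + ‖x‖) ^ (-(3 : ℝ)) := by
    apply integrable_one_add_norm
    rw [Complex.finrank_real_complex]
    norm_num
  have h1 : ∫⁻ y : ℂ, ENNReal.ofReal (χ y) * ENNReal.ofReal (‖y‖ ^ 2 * (1 + ‖y‖) ^ L) ≤
      ∫⁻ y : ℂ, ENNReal.ofReal C * ENNReal.ofReal ((1 + ‖y‖) ^ (-(3 : ℝ))) := by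
    refine lintegral_mono fun y => ?_
    rw [← ENNReal.ofReal_mul (hχ0 y)]
    have hC0 : 0 ≤ C := by
      have h0 : 0 ≤ χ y * (1 + ‖y‖) ^ (L + 5) := mul_nonneg (hχ0 y) (by positivity)
      exact h0.trans (hC y)
    rw [← ENNReal.ofReal_mul hC0]
    apply ENNReal.ofReal_le_ofReal
    rw [Real.rpow_neg (by positivity), show (3 : ℝ) = ((3 : ℕ) : ℝ) by norm_num,
      Real.rpow_natCast, ← div_eq_mul_inv, le_div_iff₀ (by positivity)]
    have h7 : ‖y‖ ^ 2 ≤ (1 + ‖y‖) ^ 2 := by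
      have := norm_nonneg y
      gcongr
      linarith
    calc χ y * (‖y‖ ^ 2 * (1 + ‖y‖) ^ L) * (1 + ‖y‖) ^ 3
        ≤ χ y * ((1 + ‖y‖) ^ 2 * (1 + ‖y‖) ^ L) * (1 + ‖y‖) ^ 3 := by
          have := hχ0 y
          gcongr
      _ = χ y * (1 + ‖y‖) ^ (L + 5) := by ring
      _ ≤ C := hC y
  refine ne_top_of_le_ne_top ?_ h1
  rw [lintegral_const_mul' _ _ ENNReal.ofReal_ne_top]
  refine ENNReal.mul_ne_top ENNReal.ofReal_ne_top ?_
  have h2 := hjap.2.ne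
  have h3 : ∫⁻ y : ℂ, ENNReal.ofReal ((1 + ‖y‖) ^ (-(3 : ℝ))) =
      ∫⁻ y : ℂ, ‖(1 + ‖y‖) ^ (-(3 : ℝ))‖ₑ := by
    refine lintegral_congr fun y => ?_
    rw [← ofReal_norm, Real.norm_of_nonneg (by positivity)]
  rw [h3]
  exact h2

theorem moment {χ : ℂ → ℝ} (hχ0 : ∀ y, 0 ≤ χ y) (hχm : Measurable χ) {L : ℕ}
    (hfin : ∫⁻ y : ℂ, ENNReal.ofReal (χ y) * ENNReal.ofReal (‖y‖ ^ 2 * (1 + ‖y‖) ^ L) ≠ ⊤) :
    ∃ K : ℝ, 0 ≤ K ∧ ∀ ρ β : ℝ, 0 < ρ → 0 ≤ β → ρ * β ≤ 1 →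
      ∫⁻ y : ℂ, ENNReal.ofReal (sc χ ρ y) * ENNReal.ofReal (‖y‖ ^ 2 * (1 + β * ‖y‖) ^ L) ≤
        ENNReal.ofReal (K * ρ ^ 2) := by
  refine ⟨_, ENNReal.toReal_nonneg (a := ∫⁻ y : ℂ, ENNReal.ofReal (χ y) *
    ENNReal.ofReal (‖y‖ ^ 2 * (1 + ‖y‖) ^ L)), fun ρ β hρ hβ hρβ => ?_⟩
  obtain ⟨g, hg⟩ : ∃ g : ℂ → ℝ≥0∞, ∀ y, g y = ENNReal.ofReal (χ y) *
    ENNReal.ofReal (‖y‖ ^ 2 * (1 + ‖y‖) ^ L) := ⟨_, fun _ => rfl⟩
  simp only [← hg] at hfin ⊢
  have h1 : ∀ y : ℂ, ENNReal.ofReal (sc χ ρ y) * ENNReal.ofReal (‖y‖ ^ 2 * (1 + β * ‖y‖) ^ L) ≤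
      g (((ρ⁻¹ : ℝ) : ℂ) * y) := by
    intro y
    rw [hg]
    have hn : ‖((ρ⁻¹ : ℝ) : ℂ) * y‖ = ‖y‖ / ρ := by
      rw [norm_mul, Complex.norm_real, Real.norm_of_nonneg (by positivity), div_eq_inv_mul]
    rw [hn]
    unfold sc
    rw [ENNReal.ofReal_mul (by positivity), mul_comm (ENNReal.ofReal (ρ ^ 2)⁻¹), mul_assoc,
      ← ENNReal.ofReal_mul (by positivity)]
    refine mul_le_mul' le_rfl (ENNReal.ofReal_le_ofReal ?_)
    have hy := norm_nonneg y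
    have h2 : β * ‖y‖ ≤ ‖y‖ / ρ := by
      rw [le_div_iff₀ hρ]
      nlinarith
    calc (ρ ^ 2)⁻¹ * (‖y‖ ^ 2 * (1 + β * ‖y‖) ^ L)
        ≤ (ρ ^ 2)⁻¹ * (‖y‖ ^ 2 * (1 + ‖y‖ / ρ) ^ L) := by gcongr
      _ = (‖y‖ / ρ) ^ 2 * (1 + ‖y‖ / ρ) ^ L := by
          field_simp
  refine (lintegral_mono h1).trans ?_
  rw [SUP.lint_scale (inv_pos.2 hρ).ne' g, mul_comm, ENNReal.ofReal_mul ENNReal.toReal_nonneg,
    ENNReal.ofReal_toReal hfin, inv_pow, inv_inv]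

/-- the mass of the kernels -/
theorem PP_mass : ∃ cP : ℝ, 0 ≤ cP ∧ ∀ β : ℝ, 0 < β → ∫⁻ x, PP β x ≤ ENNReal.ofReal cP := by
  have hjap : Integrable fun x : ℂ => (1 + ‖x‖) ^ (-(4 : ℝ)) := by
    apply integrable_one_add_norm
    rw [Complex.finrank_real_complex]
    norm_num
  obtain ⟨g, hg⟩ : ∃ g : ℂ → ℝ≥0∞, ∀ y, g y = ENNReal.ofReal (((1 + ‖y‖) ^ 4)⁻¹) :=
    ⟨_, fun _ => rfl⟩
  have hfin : ∫⁻ y, g y ≠ ⊤ := by
    have h3 : ∫⁻ y : ℂ, g y = ∫⁻ y : ℂ, ‖(1 + ‖y‖) ^ (-(4 : ℝ))‖ₑ := by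
      refine lintegral_congr fun y => ?_
      rw [← ofReal_norm, Real.norm_of_nonneg (by positivity), hg,
        Real.rpow_neg (by positivity), show (4 : ℝ) = ((4 : ℕ) : ℝ) by norm_num,
        Real.rpow_natCast]
    rw [h3]
    exact hjap.2.ne
  refine ⟨_, ENNReal.toReal_nonneg (a := ∫⁻ y, g y), fun β hβ => ?_⟩
  rw [ENNReal.ofReal_toReal hfin]
  have h1 : ∀ x : ℂ, PP β x = ENNReal.ofReal (β ^ 2) * g ((β : ℂ) * x) := by
    intro x
    unfold PP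
    rw [hg, ENNReal.ofReal_mul (by positivity), norm_mul, Complex.norm_real,
      Real.norm_of_nonneg hβ.le]
  rw [lintegral_congr h1, lintegral_const_mul' _ _ ENNReal.ofReal_ne_top,
    SUP.lint_scale hβ.ne' g, ← mul_assoc, ← ENNReal.ofReal_mul (by positivity),
    mul_inv_cancel₀ (by positivity), ENNReal.ofReal_one, one_mul]

theorem PP_meas (β : ℝ) : Measurable (PP β) := by
  unfold PP
  refine Measurable.ennreal_ofReal ?_
  fun_prop

theorem cv_meas {f g : ℂ → ℝ≥0∞} (hf : Measurable f) (hg : Measurable g) : Measurable (cv f g) := by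
  have h : Measurable fun q : ℂ × ℂ => f q.2 * g (q.1 - q.2) :=
    (hf.comp measurable_snd).mul (hg.comp (measurable_fst.sub measurable_snd))
  exact h.lintegral_prod_right'

/-- the square of an average -/
theorem cv_sq {cP : ℝ} (hcP : ∀ β : ℝ, 0 < β → ∫⁻ x, PP β x ≤ ENNReal.ofReal cP) {β : ℝ}
    (hβ : 0 < β) {f : ℂ → ℂ} (hf : Continuous f) (x : ℂ) :
    (cv (PP β) (fun z => ‖f z‖ₑ) x) ^ 2 ≤
      ENNReal.ofReal cP * cv (PP β) (fun z => ‖f z‖ₑ ^ 2) x := by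
  unfold cv
  have hm : Measurable fun y : ℂ => ‖f (x - y)‖ₑ :=
    (hf.comp (continuous_const.sub continuous_id)).measurable.enorm
  have h1 := SUP.jens (m := 2) (by norm_num) (PP_meas β) hm
  rw [show 2 - 1 = 1 by norm_num, pow_one] at h1
  refine h1.trans ?_
  gcongr
  exact hcP β hβ

end Pool.Agent.N892.BW.SUQ
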