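import Mathlib
import Pool.Agent.N892.BW.Stm3
import Pool.Agent.N892.BW.SUP
import Pool.Agent.N892.BW.SUQ_A

/-!
Project BW, part SUQ: the lower energy inequality for any number of windows (helper400).
-/

set_option autoImplicit false

open MeasureTheory ENNReal Filter Topology Complex
open scoped ComplexConjugate ContDiff FourierTransform

namespace Pool.Agent.N892.BW.SUQ

/-- the upper end of the spectrum of the sum of the first `k` windows -/
def bt (b : ℕ → ℝ) : ℕ → ℝ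
  | 0 => 0
  | k + 1 => b k

theorem sm_zero (H : ℕ → ℂ → ℂ) : sm H 0 = fun _ => 0 := by
  funext ξ
  simp [sm]

theorem sm_succ (H : ℕ → ℂ → ℂ) (k : ℕ) : sm H (k + 1) = fun ξ => sm H k ξ + H k ξ := by
  funext ξ
  unfold sm
  rw [Finset.sum_range_succ]

section

variable {m M : ℕ} {a b : ℕ → ℝ} {H : ℕ → ℂ → ℂ}

theorem bt_nonneg (hS : Sep m M a b H) {k : ℕ} (hk : k ≤ M) : 0 ≤ bt b k := by
  cases k with
  | zero => exact le_rfl
  | succ k =>
    obtain ⟨h1, h2, -, -⟩ := hS k (by omega)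
    exact h1.le.trans h2

theorem bt_pos (hS : Sep m M a b H) {k : ℕ} (hk : k < M) : 0 < bt b (k + 1) := by
  obtain ⟨h1, h2, -, -⟩ := hS k hk
  exact h1.trans_le h2

/-- the gap -/
theorem bt_gap (hm : 1 ≤ m) (hS : Sep m M a b H) {k : ℕ} (hk : k < M) : 2 * bt b k ≤ a k := by
  cases k with
  | zero =>
    obtain ⟨h1, -, -, -⟩ := hS 0 hk
    show 2 * 0 ≤ a 0
    linarith
  | succ k =>
    obtain ⟨h1, h2, -, h4⟩ := hS k (by omega)
    have hm1 : (1 : ℝ) ≤ m := by exact_mod_cast hm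
    show 2 * b k ≤ a (k + 1)
    have : 0 < b k := h1.trans_le h2
    nlinarith

theorem bt_step (hm : 1 ≤ m) (hS : Sep m M a b H) {k : ℕ} (hk : k < M) :
    2 * bt b k ≤ bt b (k + 1) := by
  obtain ⟨-, h2, -, -⟩ := hS k hk
  exact (bt_gap hm hS hk).trans h2

theorem Bd_sm (hm : 1 ≤ m) (hS : Sep m M a b H) : ∀ k, k ≤ M → Bd 0 (bt b k) (sm H k) := by
  intro k
  induction k with
  | zero =>
    intro _
    rw [sm_zero]
    exact ⟨contDiff_const, fun ξ h => absurd rfl h⟩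
  | succ k ih =>
    intro hk
    have h1 := ih (by omega)
    obtain ⟨-, -, h3, -⟩ := hS k (by omega)
    rw [sm_succ]
    refine ⟨h1.1.add h3.1, fun ξ hξ => ⟨norm_nonneg _, ?_⟩⟩
    by_cases h4 : sm H k ξ = 0
    · have hξ' : sm H k ξ + H k ξ ≠ 0 := hξ
      rw [h4, zero_add] at hξ'
      exact (h3.2 ξ hξ').2
    · have h5 := (h1.2 ξ h4).2
      have h6 := bt_step hm hS (k := k) (by omega)
      have h7 := bt_nonneg hS (k := k) (by omega)
      linarith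

theorem bt_mono (hm : 1 ≤ m) (hS : Sep m M a b H) {k : ℕ} :
    ∀ d, k + d ≤ M → bt b k ≤ bt b (k + d) := by
  intro d
  induction d with
  | zero =>
    intro _
    exact le_rfl
  | succ d ih =>
    intro h
    have h1 := ih (by omega)
    have h2 := bt_step hm hS (k := k + d) (by omega)
    have h3 := bt_nonneg hS (k := k + d) (by omega)
    have h4 : bt b (k + d) ≤ bt b (k + d + 1) := by linarith
    exact h1.trans h4

theorem Bd_rest (hm : 1 ≤ m) (hS : Sep m M a b H) {k : ℕ} :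
    ∀ d, k + d ≤ M → Bd (2 * bt b k) (bt b (k + d)) (fun ξ => sm H (k + d) ξ - sm H k ξ) := by
  intro d
  induction d with
  | zero =>
    intro h
    have h1 := (Bd_sm hm hS k (by omega)).1
    exact ⟨h1.sub h1, fun ξ hξ => absurd (sub_self _) hξ⟩
  | succ d ih =>
    intro h
    have h1 := ih (by omega)
    obtain ⟨-, -, h3, -⟩ := hS (k + d) (by omega)
    have h4 : (fun ξ => sm H (k + (d + 1)) ξ - sm H k ξ) =
        fun ξ => (sm H (k + d) ξ - sm H k ξ) + H (k + d) ξ := by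
      funext ξ
      rw [← Nat.add_assoc, sm_succ]
      ring
    rw [h4]
    refine ⟨h1.1.add h3.1, fun ξ hξ => ?_⟩
    have h6 := bt_step hm hS (k := k + d) (by omega)
    have h7 := bt_nonneg hS (k := k + d) (by omega)
    have h8 := bt_gap hm hS (k := k + d) (by omega)
    have h9 := bt_mono hm hS (k := k) d (by omega)
    by_cases h5 : sm H (k + d) ξ - sm H k ξ = 0
    · have h10 : H (k + d) ξ ≠ 0 := by
        intro h10
        exact hξ (by show sm H (k + d) ξ - sm H k ξ + H (k + d) ξ = 0; rw [h5, h10, add_zero])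
      have h11 := h3.2 ξ h10
      exact ⟨by linarith, h11.2⟩
    · have h11 := h1.2 ξ h5
      refine ⟨h11.1, ?_⟩
      show ‖ξ‖ ≤ bt b (k + d + 1)
      linarith

theorem Fi_sm_succ (hm : 1 ≤ m) (hS : Sep m M a b H) {k : ℕ} (hk : k < M) (x : ℂ) :
    Fi (sm H (k + 1)) x = Fi (sm H k) x + Fi (H k) x := by
  obtain ⟨-, -, h3, -⟩ := hS k hk
  rw [sm_succ]
  exact SUP.Fi_add (Bd_sm hm hS k hk.le) h3 x

theorem Fi_zero (x : ℂ) : Fi (fun _ => 0) x = 0 := by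
  unfold Fi
  simp

/-- the weighted sum of the averages -/
noncomputable def RR (b : ℕ → ℝ) (H : ℕ → ℂ → ℂ) (k : ℕ) (x : ℂ) : ℝ≥0∞ :=
  ∑ j ∈ Finset.range k, ENNReal.ofReal (b j) * cv (PP (b j)) (fun z => ‖Fi (H j) z‖ₑ ^ 2) x

theorem diff_bd (hB : S_BAS) (hm : 1 ≤ m) (hS : Sep m M a b H) {C1 cP : ℝ} (hC1 : 0 ≤ C1)
    (hcP0 : 0 ≤ cP)
    (hMAJ : ∀ (b : ℝ) (h : ℂ → ℂ) (x y : ℂ), 0 < b → Bd 0 b h →
      ‖Fi h (x + y) - Fi h x‖ₑ ≤
        ENNReal.ofReal (C1 * (b * ‖y‖) * (1 + b * ‖y‖) ^ 4) * cv (PP b) (fun z => ‖Fi h z‖ₑ) x)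
    (hcP : ∀ β : ℝ, 0 < β → ∫⁻ x, PP β x ≤ ENNReal.ofReal cP) (x y : ℂ) :
    ∀ k, k ≤ M → ‖Fi (sm H k) (x + y) - Fi (sm H k) x‖ₑ ^ 2 ≤
      ENNReal.ofReal (2 * C1 ^ 2 * cP * (‖y‖ ^ 2 * (1 + bt b k * ‖y‖) ^ 8) * bt b k) *
        RR b H k x := by
  intro k
  induction k with
  | zero =>
    intro _
    rw [sm_zero, Fi_zero, Fi_zero, sub_zero, enorm_zero]
    simp
  | succ k ih =>
    intro hk
    have h1 := ih (by omega)
    obtain ⟨ha0, hab, hBd, -⟩ := hS k (by omega)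
    have hb0 : 0 < b k := ha0.trans_le hab
    have hy := norm_nonneg y
    have hbk := bt_nonneg hS (k := k) (by omega)
    have hst := bt_step hm hS (k := k) (by omega)
    have hbt : bt b (k + 1) = b k := rfl
    rw [hbt] at hst ⊢
    obtain ⟨G, hG⟩ : ∃ G : ℝ≥0∞, G = cv (PP (b k)) (fun z => ‖Fi (H k) z‖ₑ ^ 2) x := ⟨_, rfl⟩
    obtain ⟨Q, hQ⟩ : ∃ Q : ℝ≥0∞, Q = cv (PP (b k)) (fun z => ‖Fi (H k) z‖ₑ) x := ⟨_, rfl⟩
    have hQG : Q ^ 2 ≤ ENNReal.ofReal cP * G := by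
      rw [hQ, hG]
      exact cv_sq hcP hb0 (hB _ _ (SUP.Bd_zero hBd)).1 x
    have h2 := hMAJ (b k) (H k) x y hb0 (SUP.Bd_zero hBd)
    rw [← hQ] at h2
    have hRs : RR b H (k + 1) x = RR b H k x + ENNReal.ofReal (b k) * G := by
      unfold RR
      rw [Finset.sum_range_succ, hG]
    have h3 : ‖Fi (sm H (k + 1)) (x + y) - Fi (sm H (k + 1)) x‖ₑ ≤
        ‖Fi (sm H k) (x + y) - Fi (sm H k) x‖ₑ + ‖Fi (H k) (x + y) - Fi (H k) x‖ₑ := by
      rw [Fi_sm_succ hm hS (by omega), Fi_sm_succ hm hS (by omega)]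
      refine le_trans (le_of_eq ?_) (enorm_add_le _ _)
      congr 1
      ring
    have e1 : 2 * ‖Fi (sm H k) (x + y) - Fi (sm H k) x‖ₑ ^ 2 ≤
        ENNReal.ofReal (2 * C1 ^ 2 * cP * (‖y‖ ^ 2 * (1 + b k * ‖y‖) ^ 8) * b k) *
          RR b H k x := by
      calc 2 * ‖Fi (sm H k) (x + y) - Fi (sm H k) x‖ₑ ^ 2
          ≤ 2 * (ENNReal.ofReal (2 * C1 ^ 2 * cP * (‖y‖ ^ 2 * (1 + bt b k * ‖y‖) ^ 8) * bt b k) *
              RR b H k x) := mul_le_mul' le_rfl h1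
        _ = ENNReal.ofReal (2 * (2 * C1 ^ 2 * cP * (‖y‖ ^ 2 * (1 + bt b k * ‖y‖) ^ 8) * bt b k)) *
              RR b H k x := by
            rw [ENNReal.ofReal_mul (by norm_num : (0 : ℝ) ≤ 2), ← mul_assoc]
            norm_num
        _ ≤ _ := by
            refine mul_le_mul' (ENNReal.ofReal_le_ofReal ?_) le_rfl
            have h5 : (1 + bt b k * ‖y‖) ^ 8 ≤ (1 + b k * ‖y‖) ^ 8 := by
              have : bt b k ≤ b k := by linarith
              gcongr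
            calc 2 * (2 * C1 ^ 2 * cP * (‖y‖ ^ 2 * (1 + bt b k * ‖y‖) ^ 8) * bt b k)
                = 2 * C1 ^ 2 * cP * (‖y‖ ^ 2 * (1 + bt b k * ‖y‖) ^ 8) * (2 * bt b k) := by ring
              _ ≤ 2 * C1 ^ 2 * cP * (‖y‖ ^ 2 * (1 + b k * ‖y‖) ^ 8) * b k := by gcongr
    have e2 : 2 * ‖Fi (H k) (x + y) - Fi (H k) x‖ₑ ^ 2 ≤
        ENNReal.ofReal (2 * C1 ^ 2 * cP * (‖y‖ ^ 2 * (1 + b k * ‖y‖) ^ 8) * b k) *
          (ENNReal.ofReal (b k) * G) := by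
      calc 2 * ‖Fi (H k) (x + y) - Fi (H k) x‖ₑ ^ 2
          ≤ 2 * (ENNReal.ofReal (C1 * (b k * ‖y‖) * (1 + b k * ‖y‖) ^ 4) * Q) ^ 2 := by gcongr
        _ = ENNReal.ofReal (2 * (C1 * (b k * ‖y‖) * (1 + b k * ‖y‖) ^ 4) ^ 2) * Q ^ 2 := by
            rw [ENNReal.ofReal_mul (by norm_num : (0 : ℝ) ≤ 2), ENNReal.ofReal_pow (by positivity),
              mul_pow, ← mul_assoc]
            norm_num
        _ ≤ ENNReal.ofReal (2 * (C1 * (b k * ‖y‖) * (1 + b k * ‖y‖) ^ 4) ^ 2) *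
            (ENNReal.ofReal cP * G) := by gcongr
        _ = ENNReal.ofReal (2 * C1 ^ 2 * cP * (‖y‖ ^ 2 * (1 + b k * ‖y‖) ^ 8) * b k * b k) *
            G := by
            rw [← mul_assoc, ← ENNReal.ofReal_mul (by positivity)]
            congr 2
            ring
        _ = ENNReal.ofReal (2 * C1 ^ 2 * cP * (‖y‖ ^ 2 * (1 + b k * ‖y‖) ^ 8) * b k) *
          (ENNReal.ofReal (b k) * G) := by
            rw [ENNReal.ofReal_mul (by positivity), mul_assoc]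
    calc ‖Fi (sm H (k + 1)) (x + y) - Fi (sm H (k + 1)) x‖ₑ ^ 2
        ≤ (‖Fi (sm H k) (x + y) - Fi (sm H k) x‖ₑ + ‖Fi (H k) (x + y) - Fi (H k) x‖ₑ) ^ 2 := by
          gcongr
      _ ≤ 2 * ‖Fi (sm H k) (x + y) - Fi (sm H k) x‖ₑ ^ 2 +
            2 * ‖Fi (H k) (x + y) - Fi (H k) x‖ₑ ^ 2 := two_sq _ _
      _ ≤ _ := by
          rw [hRs, mul_add]
          exact add_le_add e1 e2

end

/-! ### the recursion -/

/-- the weights of the errors -/
noncomputable def SS (X : ℕ → ℝ≥0∞) : ℕ → ℝ≥0∞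
  | 0 => 0
  | k + 1 => 2⁻¹ * SS X k + X k

theorem SS_sum (X : ℕ → ℝ≥0∞) (K : ℕ) :
    (∑ k ∈ Finset.range K, SS X k) + 2 * SS X K = 2 * ∑ k ∈ Finset.range K, X k := by
  induction K with
  | zero => simp [SS]
  | succ K ih =>
    rw [Finset.sum_range_succ, Finset.sum_range_succ, mul_add, ← ih]
    show _ + _ + 2 * (2⁻¹ * SS X K + X K) = _
    rw [mul_add, ← mul_assoc, ENNReal.mul_inv_cancel (by norm_num) (by norm_num), one_mul]
    ring

theorem SS_bd {m M : ℕ} {a b : ℕ → ℝ} {H : ℕ → ℂ → ℂ} (hm : 1 ≤ m) (hS : Sep m M a b H)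
    (X : ℕ → ℝ≥0∞) : ∀ k, k ≤ M → ∑ j ∈ Finset.range k, ENNReal.ofReal (b j) * X j ≤
      ENNReal.ofReal (bt b k) * SS X k := by
  intro k
  induction k with
  | zero =>
    intro _
    simp
  | succ k ih =>
    intro hk
    have h1 := ih (by omega)
    have hst := bt_step hm hS (k := k) (by omega)
    have hbt : bt b (k + 1) = b k := rfl
    rw [hbt] at hst ⊢
    rw [Finset.sum_range_succ]
    show _ ≤ ENNReal.ofReal (b k) * (2⁻¹ * SS X k + X k)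
    rw [mul_add]
    refine add_le_add (h1.trans ?_) le_rfl
    rw [← mul_assoc]
    refine mul_le_mul' ?_ le_rfl
    have h2 : ENNReal.ofReal (bt b k) ≤ ENNReal.ofReal (b k / 2) :=
      ENNReal.ofReal_le_ofReal (by linarith)
    refine h2.trans (le_of_eq ?_)
    rw [ENNReal.ofReal_div_of_pos (by norm_num), div_eq_mul_inv]
    norm_num

/-! ### single functions -/

theorem Nm_fin (hB : S_BAS) {m : ℕ} (hm : 1 ≤ m) {b : ℝ} {h : ℂ → ℂ} (H : Bd 0 b h) :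
    Nm m (Fi h) ≠ ⊤ := by
  obtain ⟨huc, -, ⟨hum, hui, ⟨Mu, hMu⟩⟩, -, -⟩ := hB b h H
  have hMu0 : 0 ≤ Mu := (norm_nonneg _).trans (hMu 0)
  have h1 : Nm m (Fi h) ≤ ∫⁻ x, ENNReal.ofReal (Mu ^ (2 * m - 1)) * ‖Fi h x‖ₑ := by
    unfold Nm
    refine lintegral_mono fun x => ?_
    obtain ⟨j, hj⟩ : ∃ j, 2 * m = j + 1 := ⟨2 * m - 1, by omega⟩
    rw [hj, Nat.add_sub_cancel, pow_succ, ENNReal.ofReal_pow hMu0]
    gcongr
    rw [← ofReal_norm]
    exact ENNReal.ofReal_le_ofReal (hMu x)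
  refine ne_top_of_le_ne_top ?_ h1
  rw [lintegral_const_mul' _ _ ENNReal.ofReal_ne_top]
  exact ENNReal.mul_ne_top ENNReal.ofReal_ne_top hui.2.ne

/-- the scaled density -/
theorem dens {χ : ℂ → ℝ} (hD : Den χ) {ρ : ℝ} (hρ : 0 < ρ) :
    (Measurable fun y => ENNReal.ofReal (sc χ ρ y)) ∧ ∫⁻ y, ENNReal.ofReal (sc χ ρ y) = 1 := by
  obtain ⟨hχm, hχ0, hχ1, hχM⟩ := hD
  have hχi : Integrable χ := by
    by_contra hne
    rw [integral_undef hne] at hχ1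
    exact zero_ne_one hχ1
  have hχl : ∫⁻ y, ENNReal.ofReal (χ y) = 1 := by
    rw [← ofReal_integral_eq_lintegral_ofReal hχi (Eventually.of_forall hχ0), hχ1,
      ENNReal.ofReal_one]
  have hρi : (0 : ℝ) < ρ⁻¹ := inv_pos.2 hρ
  have hsm : Measurable (sc χ ρ) := by
    have : Measurable fun y : ℂ => ((ρ⁻¹ : ℝ) : ℂ) * y := measurable_const_mul _
    exact measurable_const.mul (hχm.comp this)
  refine ⟨hsm.ennreal_ofReal, ?_⟩
  have h1 : ∀ y, ENNReal.ofReal (sc χ ρ y) =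
      ENNReal.ofReal ((ρ ^ 2)⁻¹) * ENNReal.ofReal (χ (((ρ⁻¹ : ℝ) : ℂ) * y)) := by
    intro y
    unfold sc
    rw [ENNReal.ofReal_mul (by positivity)]
  rw [lintegral_congr h1, lintegral_const_mul' _ _ ENNReal.ofReal_ne_top,
    SUP.lint_scale hρi.ne' (fun y => ENNReal.ofReal (χ y)), hχl, mul_one,
    ← ENNReal.ofReal_mul (by positivity), inv_pow, inv_inv, inv_mul_cancel₀ (by positivity),
    ENNReal.ofReal_one]

/-- the energy inequality -/
theorem energy (hB : S_BAS) (hC : S_CNV) (hP : S_PRD) {χ : ℂ → ℝ} {k : ℂ → ℂ} (hk : Bd 0 1 k)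
    (hkχ : ∀ x, Fi k x = (χ x : ℂ)) (hev : ∀ x, χ (-x) = χ x) (hD : Den χ) {m : ℕ} (hm : 1 ≤ m)
    {ρ b a' b' : ℝ} (hρ : 0 < ρ) (hab : b + 1 / ρ < a') {h₁ h₂ : ℂ → ℂ}
    (H₁ : Bd 0 b h₁) (H₂ : Bd a' b' h₂) :
    Ls m χ ρ (Fi h₁) + Ls m χ ρ (Fi h₂) ≤ Nm m (Fi fun ξ => h₁ ξ + h₂ ξ) := by
  obtain ⟨hpm, hp1⟩ := dens hD hρ
  have hm1 : (1 : ℝ) ≤ m := by exact_mod_cast hm
  obtain ⟨A, hA⟩ : ∃ A : (ℂ → ℂ) → ℂ → ℝ≥0∞, ∀ f z, A f z =
      ∫⁻ y, ENNReal.ofReal (sc χ ρ y) * ‖f (z + y)‖ₑ ^ 2 := ⟨_, fun f z => rfl⟩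
  have hLs : ∀ f, Ls m χ ρ f = ∫⁻ z, A f z ^ m := by
    intro f
    unfold Ls
    simp only [hA]
  have hAm : ∀ f : ℂ → ℂ, Continuous f → Measurable (A f) := by
    intro f hf
    have h1 : A f = fun z => ∫⁻ y, ENNReal.ofReal (sc χ ρ y) * ‖f (z + y)‖ₑ ^ 2 := funext (hA f)
    rw [h1]
    have hj : Measurable (Function.uncurry fun z y : ℂ =>
        ENNReal.ofReal (sc χ ρ y) * ‖f (z + y)‖ₑ ^ 2) :=
      (hpm.comp measurable_snd).mul
        ((hf.measurable.comp (measurable_fst.add measurable_snd)).enorm.pow_const 2)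
    exact hj.lintegral_prod_right
  have huc : Continuous (Fi h₁) := (hB b h₁ H₁).1
  have hvc : Continuous (Fi h₂) := (hB b' h₂ (SUP.Bd_zero H₂)).1
  have hwc : Continuous (Fi fun ξ => h₁ ξ + h₂ ξ) := by
    have : (Fi fun ξ => h₁ ξ + h₂ ξ) = fun x => Fi h₁ x + Fi h₂ x := funext (SUP.Fi_add H₁ H₂)
    rw [this]
    exact huc.add hvc
  have h1 : ∀ z, A (Fi fun ξ => h₁ ξ + h₂ ξ) z = A (Fi h₁) z + A (Fi h₂) z := by
    intro z
    rw [hA, hA, hA]
    exact SUP.high hB hC hP hk hkχ hD.2.1 hev hρ hab H₁ H₂ z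
  have h2 : ∫⁻ z, A (Fi fun ξ => h₁ ξ + h₂ ξ) z ^ m ≤ Nm m (Fi fun ξ => h₁ ξ + h₂ ξ) := by
    have h3 := SUP.aver hm hpm (P := fun x => ‖Fi (fun ξ => h₁ ξ + h₂ ξ) x‖ₑ ^ 2)
      (hwc.measurable.enorm.pow_const 2) hp1
    simp only [← hA] at h3
    refine h3.trans (le_of_eq ?_)
    unfold Nm
    refine lintegral_congr fun x => ?_
    rw [← pow_mul]
  refine le_trans ?_ h2
  rw [hLs, hLs, ← lintegral_add_left ((hAm _ huc).pow_const m)]
  refine lintegral_mono fun z => ?_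
  rw [h1]
  have h4 := ENNReal.add_rpow_le_rpow_add (A (Fi h₁) z) (A (Fi h₂) z) hm1
  simp only [ENNReal.rpow_natCast] at h4
  exact h4

/-- the error at one step -/
theorem err_bd (hB : S_BAS) {m M : ℕ} {a b : ℕ → ℝ} {H : ℕ → ℂ → ℂ} (hm : 1 ≤ m)
    (hS : Sep m M a b H) {C1 C2 cP K : ℝ} (hC1 : 0 ≤ C1) (hC2 : 0 ≤ C2) (hcP0 : 0 ≤ cP)
    (hMAJ : ∀ (b : ℝ) (h : ℂ → ℂ) (x y : ℂ), 0 < b → Bd 0 b h →
      ‖Fi h (x + y) - Fi h x‖ₑ ≤
        ENNReal.ofReal (C1 * (b * ‖y‖) * (1 + b * ‖y‖) ^ 4) * cv (PP b) (fun z => ‖Fi h z‖ₑ) x)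
    (hLOW : ∀ (b b' : ℝ) (h₁ h₂ : ℂ → ℂ) (x y : ℂ), 0 < b → Bd 0 b h₁ → Bd (2 * b) b' h₂ →
      ‖Fi h₁ (x + y)‖ₑ ≤ ENNReal.ofReal (C2 * (1 + b * ‖y‖) ^ 4) *
        mx (fun z => ‖Fi (fun ξ => h₁ ξ + h₂ ξ) z‖ₑ) x)
    (hcP : ∀ β : ℝ, 0 < β → ∫⁻ x, PP β x ≤ ENNReal.ofReal cP)
    {χ : ℂ → ℝ} (hD : Den χ) (hev : ∀ x, χ (-x) = χ x)
    (hmom : ∀ ρ β : ℝ, 0 < ρ → 0 ≤ β → ρ * β ≤ 1 →
      ∫⁻ y : ℂ, ENNReal.ofReal (sc χ ρ y) *
        ENNReal.ofReal (‖y‖ ^ 2 * (1 + β * ‖y‖) ^ (8 + 4 * (2 * m - 2))) ≤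
        ENNReal.ofReal (K * ρ ^ 2))
    {W : ℂ → ℝ≥0∞} (hW : W = mx (fun z => ‖Fi (sm H M) z‖ₑ)) (hWm : Measurable W)
    {k : ℕ} (hk : k + 1 ≤ M) {ρ : ℝ} (hρ : 0 < ρ) (hρb : ρ * b k ≤ 1) :
    Nm m (Fi (sm H (k + 1))) ≤ Ls m χ ρ (Fi (sm H (k + 1))) +
      m * m * (ENNReal.ofReal (K * ρ ^ 2) *
        (ENNReal.ofReal (2 * C1 ^ 2 * cP * (2 * C2) ^ (2 * m - 2) * b k) *
        ∑ j ∈ Finset.range (k + 1), ENNReal.ofReal (b j) *
          ∫⁻ x, cv (PP (b j)) (fun z => ‖Fi (H j) z‖ₑ ^ 2) x * W x ^ (2 * m - 2))) := by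
  have hbk : 0 < b k := bt_pos hS (k := k) (by omega)
  have hBd := Bd_sm hm hS (k + 1) hk
  have hbt : bt b (k + 1) = b k := rfl
  rw [hbt] at hBd
  obtain ⟨u, hu⟩ : ∃ u : ℂ → ℂ, u = Fi (sm H (k + 1)) := ⟨_, rfl⟩
  have huc : Continuous u := by
    rw [hu]
    exact (hB _ _ hBd).1
  have hfin := Nm_fin hB hm hBd
  obtain ⟨hpm, hp1⟩ := dens hD hρ
  rw [← hu] at hfin ⊢
  have hpe : ∀ y, ENNReal.ofReal (sc χ ρ (-y)) = ENNReal.ofReal (sc χ ρ y) := by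
    intro y
    unfold sc
    rw [mul_neg, hev]
  have h1 := conv_err hm huc hfin hpm hp1 hpe
  refine h1.trans (add_le_add le_rfl (mul_le_mul' le_rfl ?_))
  -- the pointwise bound
  have hrest : ∀ x y, ‖u (x + y)‖ₑ ≤ ENNReal.ofReal (C2 * (1 + b k * ‖y‖) ^ 4) * W x := by
    intro x y
    obtain ⟨d, hd⟩ : ∃ d, k + 1 + d = M := ⟨M - (k + 1), by omega⟩
    have h2 := Bd_rest hm hS (k := k + 1) d (by omega)
    rw [hbt, hd] at h2
    have h3 := hLOW (b k) _ _ _ x y hbk hBd h2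
    have h4 : (fun ξ => sm H (k + 1) ξ + (sm H M ξ - sm H (k + 1) ξ)) = sm H M := by
      funext ξ
      ring
    rw [h4, ← hW, ← hu] at h3
    exact h3
  have hsum : ∀ x y, ‖u x‖ₑ + ‖u (x + y)‖ₑ ≤
      ENNReal.ofReal (2 * C2 * (1 + b k * ‖y‖) ^ 4) * W x := by
    intro x y
    have hy := norm_nonneg y
    have h2 := hrest x 0
    rw [add_zero, norm_zero, mul_zero, add_zero, one_pow, mul_one] at h2
    have h3 : ENNReal.ofReal C2 * W x ≤ ENNReal.ofReal (C2 * (1 + b k * ‖y‖) ^ 4) * W x := by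
      refine mul_le_mul' (ENNReal.ofReal_le_ofReal ?_) le_rfl
      have : (1 : ℝ) ≤ (1 + b k * ‖y‖) ^ 4 := one_le_pow₀ (by nlinarith)
      nlinarith
    calc ‖u x‖ₑ + ‖u (x + y)‖ₑ ≤ ENNReal.ofReal (C2 * (1 + b k * ‖y‖) ^ 4) * W x +
          ENNReal.ofReal (C2 * (1 + b k * ‖y‖) ^ 4) * W x :=
            add_le_add (h2.trans h3) (hrest x y)
      _ = ENNReal.ofReal (2 * C2 * (1 + b k * ‖y‖) ^ 4) * W x := by
          rw [← add_mul, ← ENNReal.ofReal_add (by positivity) (by positivity)]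
          congr 2
          ring
  have hpt : ∀ x y, ENNReal.ofReal (sc χ ρ y) * (‖u (x + y) - u x‖ₑ ^ 2 *
      (‖u x‖ₑ + ‖u (x + y)‖ₑ) ^ (2 * m - 2)) ≤
      (ENNReal.ofReal (sc χ ρ y) *
        ENNReal.ofReal (‖y‖ ^ 2 * (1 + b k * ‖y‖) ^ (8 + 4 * (2 * m - 2)))) *
      (ENNReal.ofReal (2 * C1 ^ 2 * cP * (2 * C2) ^ (2 * m - 2) * b k) *
        (RR b H (k + 1) x * W x ^ (2 * m - 2))) := by
    intro x y
    have hy := norm_nonneg y
    have h2 := diff_bd hB hm hS hC1 hcP0 hMAJ hcP x y (k + 1) hk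
    rw [← hu, hbt] at h2
    rw [mul_assoc]
    refine mul_le_mul' le_rfl ?_
    calc ‖u (x + y) - u x‖ₑ ^ 2 * (‖u x‖ₑ + ‖u (x + y)‖ₑ) ^ (2 * m - 2)
        ≤ (ENNReal.ofReal (2 * C1 ^ 2 * cP * (‖y‖ ^ 2 * (1 + b k * ‖y‖) ^ 8) * b k) *
            RR b H (k + 1) x) *
          (ENNReal.ofReal (2 * C2 * (1 + b k * ‖y‖) ^ 4) * W x) ^ (2 * m - 2) := by
          refine mul_le_mul' h2 ?_
          have := hsum x y
          gcongr
      _ = (ENNReal.ofReal (2 * C1 ^ 2 * cP * (‖y‖ ^ 2 * (1 + b k * ‖y‖) ^ 8) * b k) *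
          ENNReal.ofReal ((2 * C2 * (1 + b k * ‖y‖) ^ 4) ^ (2 * m - 2))) *
            (RR b H (k + 1) x * W x ^ (2 * m - 2)) := by
          rw [mul_pow, ENNReal.ofReal_pow (by positivity)]
          ring
      _ = (ENNReal.ofReal (‖y‖ ^ 2 * (1 + b k * ‖y‖) ^ (8 + 4 * (2 * m - 2))) *
          ENNReal.ofReal (2 * C1 ^ 2 * cP * (2 * C2) ^ (2 * m - 2) * b k)) *
            (RR b H (k + 1) x * W x ^ (2 * m - 2)) := by
          rw [← ENNReal.ofReal_mul (by positivity), ← ENNReal.ofReal_mul (by positivity)]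
          congr 2
          rw [mul_pow, ← pow_mul, pow_add]
          ring
      _ = _ := by rw [mul_assoc]
  have hwm : Measurable fun y : ℂ => ENNReal.ofReal (sc χ ρ y) *
      ENNReal.ofReal (‖y‖ ^ 2 * (1 + b k * ‖y‖) ^ (8 + 4 * (2 * m - 2))) := by
    refine hpm.mul (Measurable.ennreal_ofReal ?_)
    fun_prop
  have hGm : ∀ j, j < M → Measurable (cv (PP (b j)) (fun z => ‖Fi (H j) z‖ₑ ^ 2)) := by
    intro j hj
    obtain ⟨-, -, h3, -⟩ := hS j hj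
    exact cv_meas (PP_meas _) ((hB _ _ (SUP.Bd_zero h3)).1.measurable.enorm.pow_const 2)
  calc ∫⁻ x, ∫⁻ y, ENNReal.ofReal (sc χ ρ y) * (‖u (x + y) - u x‖ₑ ^ 2 *
      (‖u x‖ₑ + ‖u (x + y)‖ₑ) ^ (2 * m - 2))
      ≤ ∫⁻ x, ENNReal.ofReal (K * ρ ^ 2) *
        (ENNReal.ofReal (2 * C1 ^ 2 * cP * (2 * C2) ^ (2 * m - 2) * b k) *
        (RR b H (k + 1) x * W x ^ (2 * m - 2))) := by
        refine lintegral_mono fun x => ?_
        refine (lintegral_mono (hpt x)).trans ?_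
        rw [lintegral_mul_const _ hwm]
        exact mul_le_mul' (hmom ρ (b k) hρ hbk.le hρb) le_rfl
    _ = ENNReal.ofReal (K * ρ ^ 2) *
        (ENNReal.ofReal (2 * C1 ^ 2 * cP * (2 * C2) ^ (2 * m - 2) * b k) *
        ∫⁻ x, RR b H (k + 1) x * W x ^ (2 * m - 2)) := by
        rw [lintegral_const_mul' _ _ ENNReal.ofReal_ne_top,
          lintegral_const_mul' _ _ ENNReal.ofReal_ne_top]
    _ = _ := by
        congr 2
        have h2 : ∀ x, RR b H (k + 1) x * W x ^ (2 * m - 2) =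
            ∑ j ∈ Finset.range (k + 1), ENNReal.ofReal (b j) *
              (cv (PP (b j)) (fun z => ‖Fi (H j) z‖ₑ ^ 2) x * W x ^ (2 * m - 2)) := by
          intro x
          unfold RR
          rw [Finset.sum_mul]
          refine Finset.sum_congr rfl fun j _ => ?_
          ring
        rw [lintegral_congr h2, lintegral_finsetSum']
        · refine Finset.sum_congr rfl fun j _ => ?_
          rw [lintegral_const_mul' _ _ ENNReal.ofReal_ne_top]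
        · intro j hj
          have hj' : j < M := by
            have := Finset.mem_range.1 hj
            omega
          exact (((hGm j hj').mul (hWm.pow_const _)).const_mul _).aemeasurable

/-- the sum of all the averages against the maximal function -/
theorem X_sum (hB : S_BAS) (h4 : S_HLM) (h5 : S_DMX) (h8 : S_LPF) {m : ℕ} (hm : 1 ≤ m) :
    ∃ C3 : ℝ, 0 ≤ C3 ∧ ∀ (M : ℕ) (a b : ℕ → ℝ) (H : ℕ → ℂ → ℂ), Sep m M a b H →
      Measurable (mx (fun z => ‖Fi (sm H M) z‖ₑ)) ∧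
      ∑ j ∈ Finset.range M, (∫⁻ x, cv (PP (b j)) (fun z => ‖Fi (H j) z‖ₑ ^ 2) x *
        (mx (fun z => ‖Fi (sm H M) z‖ₑ) x) ^ (2 * m - 2)) ≤
        ENNReal.ofReal C3 * Nm m (Fi (sm H M)) := by
  have hm1 : (1 : ℝ) ≤ m := by exact_mod_cast hm
  obtain ⟨Ch, hCh, hH⟩ := h4 (2 * m) (by linarith)
  obtain ⟨Cd, hCd, hDm⟩ := h5 m hm
  obtain ⟨Cl, hCl, hL⟩ := h8 m hm
  refine ⟨Ch + Cd * Cl, by positivity, fun M a b H hS => ?_⟩
  have hwc : Continuous (Fi (sm H M)) := (hB _ _ (Bd_sm hm hS M le_rfl)).1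
  obtain ⟨W, hW⟩ : ∃ W : ℂ → ℝ≥0∞, W = mx (fun z => ‖Fi (sm H M) z‖ₑ) := ⟨_, rfl⟩
  obtain ⟨hWm, hWi⟩ := hH (fun z => ‖Fi (sm H M) z‖ₑ) hwc.measurable.enorm
  rw [← hW] at hWm hWi ⊢
  refine ⟨hWm, ?_⟩
  have hfc : ∀ j, j < M → Continuous (Fi (H j)) := by
    intro j hj
    obtain ⟨-, -, h3, -⟩ := hS j hj
    exact (hB _ _ (SUP.Bd_zero h3)).1
  obtain ⟨G, hG⟩ : ∃ G : ℕ → ℂ → ℝ≥0∞, ∀ j x, G j x =
      cv (PP (b j)) (fun z => ‖Fi (H j) z‖ₑ ^ 2) x := ⟨_, fun _ _ => rfl⟩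
  have hGm : ∀ j, j < M → Measurable (G j) := by
    intro j hj
    have h1 : G j = cv (PP (b j)) (fun z => ‖Fi (H j) z‖ₑ ^ 2) := funext (hG j)
    rw [h1]
    exact cv_meas (PP_meas _) ((hfc j hj).measurable.enorm.pow_const 2)
  simp only [← hG]
  -- the square function
  have hsq : ∫⁻ x, (∑ j ∈ Finset.range M, G j x) ^ m ≤
      ENNReal.ofReal (Cd * Cl) * Nm m (Fi (sm H M)) := by
    have h1 := hDm M (fun i => if i < M then b i else 1)
      (fun i x => if i < M then ‖Fi (H i) x‖ₑ ^ 2 else 0) (fun i => by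
        by_cases hi : i < M
        · simp only [hi, if_true]
          exact bt_pos hS hi
        · simp only [hi, if_false]
          norm_num) (fun i => by
        by_cases hi : i < M
        · simp only [hi, if_true]
          exact (hfc i hi).measurable.enorm.pow_const 2
        · simp only [hi, if_false]
          exact measurable_const)
    have h2 : ∫⁻ x, (∑ i ∈ Finset.range M, cv (PP (if i < M then b i else 1))
        ((fun (i : ℕ) (x : ℂ) => if i < M then ‖Fi (H i) x‖ₑ ^ 2 else 0) i) x) ^ m =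
        ∫⁻ x, (∑ j ∈ Finset.range M, G j x) ^ m := by
      refine lintegral_congr fun x => ?_
      congr 1
      refine Finset.sum_congr rfl fun j hj => ?_
      have hj' := Finset.mem_range.1 hj
      simp only [hj', if_true]
      rw [hG]
    have h3 : ∫⁻ x, (∑ i ∈ Finset.range M,
        (fun (i : ℕ) (x : ℂ) => if i < M then ‖Fi (H i) x‖ₑ ^ 2 else 0) i x) ^ m = Sq m M H := by
      unfold Sq
      refine lintegral_congr fun x => ?_
      congr 1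
      refine Finset.sum_congr rfl fun j hj => ?_
      have hj' := Finset.mem_range.1 hj
      simp only [hj', if_true]
    rw [← h2]
    refine h1.trans ?_
    rw [h3, ENNReal.ofReal_mul hCd.le, mul_assoc]
    exact mul_le_mul' le_rfl (hL M a b H hS)
  -- the maximal function
  have hmx : ∫⁻ x, (W x ^ 2) ^ m ≤ ENNReal.ofReal Ch * Nm m (Fi (sm H M)) := by
    have h1 : ∀ c : ℝ≥0∞, c ^ (2 * (m : ℝ)) = c ^ (2 * m) := by
      intro c
      rw [← ENNReal.rpow_natCast]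
      congr 1
      push_cast
      rfl
    simp only [h1] at hWi
    have h2 : ∫⁻ x, (W x ^ 2) ^ m = ∫⁻ x, W x ^ (2 * m) := by
      refine lintegral_congr fun x => ?_
      rw [← pow_mul]
    rw [h2]
    exact hWi
  have hGW : ∀ j, j < M → Measurable fun x => G j x * W x ^ (2 * m - 2) := fun j hj =>
    (hGm j hj).mul (hWm.pow_const _)
  calc ∑ j ∈ Finset.range M, (∫⁻ x, G j x * W x ^ (2 * m - 2))
      = ∫⁻ x, ∑ j ∈ Finset.range M, G j x * W x ^ (2 * m - 2) := by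
        rw [lintegral_finsetSum']
        intro j hj
        exact (hGW j (Finset.mem_range.1 hj)).aemeasurable
    _ ≤ ∫⁻ x, ((W x ^ 2) ^ m + (∑ j ∈ Finset.range M, G j x) ^ m) := by
        refine lintegral_mono fun x => ?_
        rw [← Finset.sum_mul, mul_comm, show 2 * m - 2 = 2 * (m - 1) by omega, pow_mul]
        exact amgm hm _ _
    _ = (∫⁻ x, (W x ^ 2) ^ m) + ∫⁻ x, (∑ j ∈ Finset.range M, G j x) ^ m :=
        lintegral_add_left ((hWm.pow_const 2).pow_const m) _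
    _ ≤ ENNReal.ofReal Ch * Nm m (Fi (sm H M)) +
          ENNReal.ofReal (Cd * Cl) * Nm m (Fi (sm H M)) := add_le_add hmx hsq
    _ = ENNReal.ofReal (Ch + Cd * Cl) * Nm m (Fi (sm H M)) := by
        rw [ENNReal.ofReal_add hCh (by positivity), add_mul]

/-- **SUQ.** -/
theorem t (h1 : Pool.Agent.N892.BW.S_BAS) (h2 : Pool.Agent.N892.BW.S_CNV)
    (h3 : Pool.Agent.N892.BW.S_PRD) (h4 : Pool.Agent.N892.BW.S_HLM)
    (h5 : Pool.Agent.N892.BW.S_DMX) (h6 : Pool.Agent.N892.BW.S_MAJ)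
    (h7 : Pool.Agent.N892.BW.S_LOW) (h8 : Pool.Agent.N892.BW.S_LPF) :
    Pool.Agent.N892.BW.S_SUQ := by
  obtain ⟨χ, k, hk, hkχ, hev, hD⟩ := SUP.cons h1 h3
  obtain ⟨C1, hC1, hMAJ⟩ := h6
  obtain ⟨C2, hC2, hLOW⟩ := h7
  obtain ⟨cP, hcP0, hcP⟩ := PP_mass
  refine ⟨χ, hD, fun m hm => ?_⟩
  obtain ⟨C3, hC3, hX⟩ := X_sum h1 h4 h5 h8 hm
  obtain ⟨Cd, hCd⟩ := (h1 1 k hk).2.1 (8 + 4 * (2 * m - 2) + 5)
  have hfin := rad_int hD.2.1 (L := 8 + 4 * (2 * m - 2)) (C := Cd) (fun y => by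
    have h9 := hCd y
    rw [hkχ, Complex.norm_real, Real.norm_of_nonneg (hD.2.1 y)] at h9
    exact h9)
  obtain ⟨K, hK, hmom⟩ := moment hD.2.1 hD.1 hfin
  obtain ⟨D, hDd⟩ : ∃ D : ℝ, D = m * m * (K * (2 * C1 ^ 2 * cP * (2 * C2) ^ (2 * m - 2))) :=
    ⟨_, rfl⟩
  have hD0 : 0 ≤ D := by
    rw [hDd]
    positivity
  refine ⟨2 * D * C3, by positivity, fun M a b ρ H η hη0 hη1 hS hρ hρ0 hρk => ?_⟩
  obtain ⟨hWm, hXs⟩ := hX M a b H hS
  obtain ⟨W, hW⟩ : ∃ W : ℂ → ℝ≥0∞, W = mx (fun z => ‖Fi (sm H M) z‖ₑ) := ⟨_, rfl⟩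
  obtain ⟨X, hXd⟩ : ∃ X : ℕ → ℝ≥0∞, ∀ j, X j =
      ∫⁻ x, cv (PP (b j)) (fun z => ‖Fi (H j) z‖ₑ ^ 2) x * W x ^ (2 * m - 2) := ⟨_, fun _ => rfl⟩
  rw [← hW] at hWm hXs
  simp only [← hXd] at hXs
  have hstep : ∀ j, j < M → Nm m (Fi (sm H j)) + Ls m χ (ρ j) (Fi (H j)) ≤
      Nm m (Fi (sm H (j + 1))) + ENNReal.ofReal (D * η) * SS X j := by
    intro j hj
    obtain ⟨-, -, hBj, -⟩ := hS j hj
    have hgap : bt b j + 1 / ρ j < a j := by
      cases j with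
      | zero =>
        show (0 : ℝ) + 1 / ρ 0 < a 0
        rw [zero_add]
        exact hρ0
      | succ i => exact (hρk i hj).2
    have hA : Ls m χ (ρ j) (Fi (sm H j)) + Ls m χ (ρ j) (Fi (H j)) ≤
        Nm m (Fi (sm H (j + 1))) := by
      have h9 := energy h1 h2 h3 hk hkχ hev hD hm (hρ j) hgap (Bd_sm hm hS j hj.le) hBj
      rw [sm_succ]
      exact h9
    cases j with
    | zero =>
      have h9 : Nm m (Fi (sm H 0)) = 0 := by
        unfold Nm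
        have h10 : ∀ x, ‖Fi (sm H 0) x‖ₑ ^ (2 * m) = 0 := by
          intro x
          rw [sm_zero, Fi_zero, enorm_zero]
          exact zero_pow (by omega)
        rw [lintegral_congr h10, lintegral_zero]
      rw [h9, zero_add]
      exact (le_add_self.trans hA).trans le_self_add
    | succ i =>
      obtain ⟨hρb, -⟩ := hρk i hj
      have hbi : 0 < b i := bt_pos hS (k := i) (by omega)
      have hE := err_bd h1 hm hS hC1 hC2 hcP0 (fun b h x y hb hh => (hMAJ b h x y hb hh).2) hLOW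
        hcP hD hev hmom hW hWm (k := i) (by omega) (hρ (i + 1)) (hρb.trans hη1)
      simp only [← hXd] at hE
      have hE2 : (m : ℝ≥0∞) * m * (ENNReal.ofReal (K * ρ (i + 1) ^ 2) *
          (ENNReal.ofReal (2 * C1 ^ 2 * cP * (2 * C2) ^ (2 * m - 2) * b i) *
          ∑ j ∈ Finset.range (i + 1), ENNReal.ofReal (b j) * X j)) ≤
          ENNReal.ofReal (D * η) * SS X (i + 1) := by
        have h9 := SS_bd hm hS X (i + 1) (by omega)
        have hbt : bt b (i + 1) = b i := rfl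
        rw [hbt] at h9
        calc (m : ℝ≥0∞) * m * (ENNReal.ofReal (K * ρ (i + 1) ^ 2) *
            (ENNReal.ofReal (2 * C1 ^ 2 * cP * (2 * C2) ^ (2 * m - 2) * b i) *
            ∑ j ∈ Finset.range (i + 1), ENNReal.ofReal (b j) * X j))
            ≤ (m : ℝ≥0∞) * m * (ENNReal.ofReal (K * ρ (i + 1) ^ 2) *
            (ENNReal.ofReal (2 * C1 ^ 2 * cP * (2 * C2) ^ (2 * m - 2) * b i) *
            (ENNReal.ofReal (b i) * SS X (i + 1)))) := by gcongr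
          _ = ENNReal.ofReal (D * (ρ (i + 1) * b i) ^ 2) * SS X (i + 1) := by
              rw [← ENNReal.ofReal_natCast m, ← mul_assoc, ← mul_assoc, ← mul_assoc,
                ← ENNReal.ofReal_mul (by positivity), ← ENNReal.ofReal_mul (by positivity),
                ← ENNReal.ofReal_mul (by positivity), ← ENNReal.ofReal_mul (by positivity), hDd]
              congr 2
              ring
          _ ≤ ENNReal.ofReal (D * η) * SS X (i + 1) := by
              refine mul_le_mul' (ENNReal.ofReal_le_ofReal ?_) le_rfl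
              have h10 : (ρ (i + 1) * b i) ^ 2 ≤ η := by
                have h11 : 0 ≤ ρ (i + 1) * b i := mul_nonneg (hρ _).le hbi.le
                nlinarith
              exact mul_le_mul_of_nonneg_left h10 hD0
      calc Nm m (Fi (sm H (i + 1))) + Ls m χ (ρ (i + 1)) (Fi (H (i + 1)))
          ≤ (Ls m χ (ρ (i + 1)) (Fi (sm H (i + 1))) + ENNReal.ofReal (D * η) * SS X (i + 1)) +
              Ls m χ (ρ (i + 1)) (Fi (H (i + 1))) :=
            add_le_add (hE.trans (add_le_add le_rfl hE2)) le_rfl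
        _ = (Ls m χ (ρ (i + 1)) (Fi (sm H (i + 1))) + Ls m χ (ρ (i + 1)) (Fi (H (i + 1)))) +
              ENNReal.ofReal (D * η) * SS X (i + 1) := by ring
        _ ≤ Nm m (Fi (sm H (i + 1 + 1))) + ENNReal.ofReal (D * η) * SS X (i + 1) :=
            add_le_add hA le_rfl
  have hind : ∀ n, n ≤ M → ∑ j ∈ Finset.range n, Ls m χ (ρ j) (Fi (H j)) ≤
      Nm m (Fi (sm H n)) + ENNReal.ofReal (D * η) * ∑ j ∈ Finset.range n, SS X j := by
    intro n
    induction n with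
    | zero =>
      intro _
      simp
    | succ n ih =>
      intro hn
      have h9 := ih (by omega)
      have h10 := hstep n (by omega)
      rw [Finset.sum_range_succ, Finset.sum_range_succ, mul_add]
      calc ∑ j ∈ Finset.range n, Ls m χ (ρ j) (Fi (H j)) + Ls m χ (ρ n) (Fi (H n))
          ≤ (Nm m (Fi (sm H n)) + ENNReal.ofReal (D * η) * ∑ j ∈ Finset.range n, SS X j) +
              Ls m χ (ρ n) (Fi (H n)) := add_le_add h9 le_rfl
        _ = (Nm m (Fi (sm H n)) + Ls m χ (ρ n) (Fi (H n))) +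
              ENNReal.ofReal (D * η) * ∑ j ∈ Finset.range n, SS X j := by ring
        _ ≤ (Nm m (Fi (sm H (n + 1))) + ENNReal.ofReal (D * η) * SS X n) +
              ENNReal.ofReal (D * η) * ∑ j ∈ Finset.range n, SS X j := add_le_add h10 le_rfl
        _ = _ := by ring
  have hfinal := hind M le_rfl
  have hSS : ∑ j ∈ Finset.range M, SS X j ≤ 2 * (ENNReal.ofReal C3 * Nm m (Fi (sm H M))) := by
    have h9 := SS_sum X M
    calc ∑ j ∈ Finset.range M, SS X j ≤ (∑ j ∈ Finset.range M, SS X j) + 2 * SS X M := le_self_add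
      _ = 2 * ∑ j ∈ Finset.range M, X j := h9
      _ ≤ _ := mul_le_mul' le_rfl hXs
  refine hfinal.trans ?_
  calc Nm m (Fi (sm H M)) + ENNReal.ofReal (D * η) * ∑ j ∈ Finset.range M, SS X j
      ≤ Nm m (Fi (sm H M)) + ENNReal.ofReal (D * η) *
          (2 * (ENNReal.ofReal C3 * Nm m (Fi (sm H M)))) :=
        add_le_add le_rfl (mul_le_mul' le_rfl hSS)
    _ = ENNReal.ofReal (1 + 2 * D * C3 * η) * Nm m (Fi (sm H M)) := by
        have e2 : (2 : ℝ≥0∞) = ENNReal.ofReal 2 := by norm_num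
        rw [e2, ← mul_assoc, ← mul_assoc, ← ENNReal.ofReal_mul (by positivity),
          ← ENNReal.ofReal_mul (by positivity), ENNReal.ofReal_add (by norm_num) (by positivity),
          add_mul, ENNReal.ofReal_one, one_mul]
        congr 3
        ring

end Pool.Agent.N892.BW.SUQ
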