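import Pool.Agent.N892.BW.Stm2

/-!
Powers of the Beurling transform, part VAN: orthogonality of high frequencies (helper749)
-/

set_option autoImplicit false

open MeasureTheory ENNReal Filter Topology Complex
open scoped ComplexConjugate ContDiff

namespace Pool.Agent.N892.BW.VAN

open Pool.Agent.N892.BW

lemma weak {a b : ℝ} {h : ℂ → ℂ} (hB : Bd a b h) : Bd 0 b h :=
  ⟨hB.1, fun ξ hξ => ⟨norm_nonneg ξ, (hB.2 ξ hξ).2⟩⟩

lemma pw (h2 : S_PRD) {b : ℝ} {h : ℂ → ℂ} (hh : Bd 0 b h) : ∀ (j : ℕ) (B : ℝ) (H : ℂ → ℂ),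
    Bd 0 B H → ∃ H' : ℂ → ℂ, Bd 0 (B + j * b) H' ∧ ∀ x, Fi h x ^ j * Fi H x = Fi H' x := by
  intro j
  induction j with
  | zero =>
    intro B H hH
    refine ⟨H, ?_, fun x => ?_⟩
    · rw [Nat.cast_zero, zero_mul, add_zero]
      exact hH
    · rw [pow_zero, one_mul]
  | succ j ih =>
    intro B H hH
    obtain ⟨H1, hB1, e1⟩ := ih B H hH
    obtain ⟨H2, hB2, e2'⟩ := h2.1 0 (B + j * b) b H1 h hB1 hh
    refine ⟨H2, ?_, fun x => ?_⟩
    · have e : B + ((j + 1 : ℕ) : ℝ) * b = B + j * b + b := by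
        push_cast
        ring
      rw [e]
      exact weak hB2
    · rw [← e2', ← e1]
      ring

lemma norm_e2 (x ξ : ℂ) : ‖e2 x ξ‖ = 1 := by
  unfold e2
  have e : 2 * (Real.pi : ℂ) * Complex.I * ((x.re * ξ.re + x.im * ξ.im : ℝ) : ℂ) =
      ((2 * Real.pi * (x.re * ξ.re + x.im * ξ.im) : ℝ) : ℂ) * Complex.I := by
    push_cast
    ring
  rw [e]
  exact Complex.norm_exp_ofReal_mul_I _

lemma cont_e2 : Continuous (fun p : ℂ × ℂ => e2 p.1 p.2) := by
  unfold e2
  have h1 : Continuous (fun p : ℂ × ℂ => p.1.re * p.2.re + p.1.im * p.2.im) :=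
    ((Complex.continuous_re.comp continuous_fst).mul (Complex.continuous_re.comp continuous_snd)).add
      ((Complex.continuous_im.comp continuous_fst).mul (Complex.continuous_im.comp continuous_snd))
  exact Complex.continuous_exp.comp (continuous_const.mul (Complex.continuous_ofReal.comp h1))

lemma conj_e2 (x ξ : ℂ) : conj (e2 x (-ξ)) = e2 x ξ := by
  unfold e2
  rw [← Complex.exp_conj]
  congr 1
  simp only [map_mul, Complex.conj_ofReal, Complex.conj_I, Complex.neg_re, Complex.neg_im, map_ofNat]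
  push_cast
  ring

lemma int_H {a b : ℝ} {H : ℂ → ℂ} (hH : Bd a b H) : Integrable H := by
  have hc : Continuous H := hH.1.continuous
  refine hc.integrable_of_hasCompactSupport ?_
  refine HasCompactSupport.intro (isCompact_closedBall (0 : ℂ) b) fun ξ hξ => ?_
  by_contra h
  apply hξ
  rw [mem_closedBall_zero_iff]
  exact (hH.2 ξ h).2

/-- the bilinear form -/
lemma bil (h1 : S_BAS) {b B : ℝ} {H h : ℂ → ℂ} (hH : Bd 0 B H) (hh : Bd 0 b h) :
    ∫ x, Fi H x * Fi h x = ∫ ξ, H ξ * h (-ξ) := by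
  obtain ⟨-, -, ⟨-, hv, -⟩, hinv, -⟩ := h1 b h hh
  have e1 : ∀ x, Fi H x * Fi h x = ∫ ξ, e2 x ξ * H ξ * Fi h x := fun x => by
    rw [integral_mul_const]
    rfl
  have e3 : ∀ ξ, ∫ x, e2 x ξ * H ξ * Fi h x = H ξ * h (-ξ) := fun ξ => by
    rw [hinv (-ξ), ← integral_const_mul]
    refine integral_congr_ae (Filter.Eventually.of_forall fun x => ?_)
    simp only
    rw [conj_e2]
    ring
  simp only [e1]
  rw [integral_integral_swap]
  · simp only [e3]
  · have hi : Integrable (fun p : ℂ × ℂ => Fi h p.1 * H p.2) (volume.prod volume) :=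
      hv.mul_prod (int_H hH)
    have hm : AEStronglyMeasurable (Function.uncurry fun x ξ : ℂ => e2 x ξ * H ξ * Fi h x)
        (volume.prod volume) := by
      have e : (Function.uncurry fun x ξ : ℂ => e2 x ξ * H ξ * Fi h x) =
          fun p : ℂ × ℂ => e2 p.1 p.2 * (Fi h p.1 * H p.2) := by
        funext p
        simp only [Function.uncurry]
        ring
      rw [e]
      exact cont_e2.aestronglyMeasurable.mul hi.aestronglyMeasurable
    refine hi.mono hm (Filter.Eventually.of_forall fun p => ?_)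
    simp only [Function.uncurry]
    rw [norm_mul, norm_mul, norm_mul, norm_e2, one_mul, mul_comm]

theorem t (h1 : S_BAS) (h2 : S_PRD) : S_VAN := by
  intro m b a' b' g₁ g₂ hm hb hab hg₁ hg₂
  obtain ⟨k, rfl⟩ : ∃ k, m = k + 1 := ⟨m - 1, by omega⟩
  obtain ⟨g', hg', e'⟩ := h2.2 0 b g₁ hg₁
  obtain ⟨H1, hH1, eH1⟩ := pw h2 hg' k b g' hg'
  obtain ⟨H, hH, eH⟩ := pw h2 hg₁ k _ H1 hH1
  have hexp : 2 * (k + 1) - 2 = 2 * k := by omega
  have key : ∀ x, ‖Fi g₁ x‖ ^ (2 * (k + 1) - 2) * (conj (Fi g₁ x) * Fi g₂ x).re =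
      (Fi H x * Fi g₂ x).re := by
    intro x
    rw [hexp, ← Complex.re_ofReal_mul, ← eH, ← eH1, ← e']
    congr 1
    rw [Complex.ofReal_pow, pow_mul, ← Complex.mul_conj', mul_pow]
    ring
  simp only [key]
  obtain ⟨-, -, ⟨hm2, hi2, -⟩, -, -⟩ := h1 b' g₂ (weak hg₂)
  obtain ⟨-, -, ⟨hm1, hi1, M, hM⟩, -, -⟩ := h1 _ H hH
  have hint : Integrable (fun x => Fi H x * Fi g₂ x) :=
    hi2.bdd_mul hm1.aestronglyMeasurable (Filter.Eventually.of_forall hM)
  have h3 : ∫ x, (Fi H x * Fi g₂ x).re = (∫ x, Fi H x * Fi g₂ x).re := integral_re hint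
  rw [h3, bil h1 hH (weak hg₂)]
  have h4 : ∀ ξ, H ξ * g₂ (-ξ) = 0 := by
    intro ξ
    by_contra h
    have i1 := (hH.2 ξ (left_ne_zero_of_mul h)).2
    have i2 := (hg₂.2 (-ξ) (right_ne_zero_of_mul h)).1
    rw [norm_neg] at i2
    push_cast at hab
    have e : b + k * b + k * b = (2 * ((k : ℝ) + 1) - 1) * b := by ring
    rw [e] at i1
    linarith
  simp only [h4, integral_zero, Complex.zero_re]

end Pool.Agent.N892.BW.VAN
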