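import Pool.Agent.N892.BW.Stm3
import Pool.Agent.N892.BW.CNV

/-!
BW, part 3, WLT: square functions in the mean with slowly varying weights (helper134).
-/

set_option autoImplicit false

open MeasureTheory ENNReal Filter Topology Complex
open scoped ComplexConjugate ContDiff

namespace Pool.Agent.N892.BW.WLT

open Pool.Agent.N892.BW

/-! ### weights -/

theorem cs {w g : ℂ → ℝ≥0∞} (hw : Measurable w) (hg : Measurable g) :
    (∫⁻ a, w a * g a) ^ 2 ≤ (∫⁻ a, w a * g a ^ 2) * ∫⁻ a, w a := by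
  have h1 := ENNReal.lintegral_mul_le_Lp_mul_Lq (volume.withDensity w) Real.HolderConjugate.two_two
    hg.aemeasurable (measurable_const (a := (1 : ℝ≥0∞))).aemeasurable
  have e1 : ∫⁻ a, (g * (fun _ : ℂ => (1 : ℝ≥0∞)) : ℂ → ℝ≥0∞) a ∂(volume.withDensity w) = ∫⁻ a, w a * g a := by
    rw [lintegral_withDensity_eq_lintegral_mul _ hw (by fun_prop)]
    simp
  have e2 : ∫⁻ a, g a ^ (2 : ℝ) ∂(volume.withDensity w) = ∫⁻ a, w a * g a ^ 2 := by
    rw [lintegral_withDensity_eq_lintegral_mul _ hw (by fun_prop)]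
    simp
  have e3 : ∫⁻ a, (1 : ℝ≥0∞) ^ (2 : ℝ) ∂(volume.withDensity w) = ∫⁻ a, w a := by
    rw [lintegral_withDensity_eq_lintegral_mul _ hw (by fun_prop)]
    simp
  rw [e1, e2, e3] at h1
  have h2 := pow_le_pow_left' h1 2
  refine h2.trans (le_of_eq ?_)
  rw [mul_pow, ← ENNReal.rpow_natCast, ← ENNReal.rpow_natCast, ← ENNReal.rpow_mul,
    ← ENNReal.rpow_mul]
  norm_num

/-- Tonelli -/
theorem ton {V H : ℂ → ℝ≥0∞} (hV : Measurable V) (hH : Measurable H) (r : ℝ) :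
    ∫⁻ u, V u * ∫⁻ x in Metric.ball u r, H x = ∫⁻ x, H x * ∫⁻ u in Metric.ball x r, V u := by
  have hS : MeasurableSet {p : ℂ × ℂ | p.2 ∈ Metric.ball p.1 r} := by
    have : Measurable fun p : ℂ × ℂ => dist p.2 p.1 := by fun_prop
    exact this measurableSet_Iio
  have e1 : ∀ u, V u * ∫⁻ x in Metric.ball u r, H x =
      ∫⁻ x, {p : ℂ × ℂ | p.2 ∈ Metric.ball p.1 r}.indicator (fun p => V p.1 * H p.2) (u, x) := by
    intro u
    rw [← lintegral_indicator Metric.isOpen_ball.measurableSet,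
      ← lintegral_const_mul _ (hH.indicator Metric.isOpen_ball.measurableSet)]
    refine lintegral_congr fun x => ?_
    by_cases hx : x ∈ Metric.ball u r
    · rw [Set.indicator_of_mem hx, Set.indicator_of_mem (show (u, x) ∈ {p : ℂ × ℂ | p.2 ∈ Metric.ball p.1 r} from hx)]
    · rw [Set.indicator_of_notMem hx, Set.indicator_of_notMem (show (u, x) ∉ {p : ℂ × ℂ | p.2 ∈ Metric.ball p.1 r} from hx), mul_zero]
  have e2 : ∀ x, H x * ∫⁻ u in Metric.ball x r, V u =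
      ∫⁻ u, {p : ℂ × ℂ | p.2 ∈ Metric.ball p.1 r}.indicator (fun p => V p.1 * H p.2) (u, x) := by
    intro x
    rw [← lintegral_indicator Metric.isOpen_ball.measurableSet,
      ← lintegral_const_mul _ (hV.indicator Metric.isOpen_ball.measurableSet)]
    refine lintegral_congr fun u => ?_
    by_cases hx : u ∈ Metric.ball x r
    · rw [Set.indicator_of_mem hx, Set.indicator_of_mem (show (u, x) ∈ {p : ℂ × ℂ | p.2 ∈ Metric.ball p.1 r} from
        Metric.mem_ball_comm.1 hx), mul_comm]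
    · rw [Set.indicator_of_notMem hx, Set.indicator_of_notMem (show (u, x) ∉ {p : ℂ × ℂ | p.2 ∈ Metric.ball p.1 r} from
        fun h => hx (Metric.mem_ball_comm.1 h)), mul_zero]
  simp only [e1, e2]
  refine lintegral_lintegral_swap ?_
  exact (((hV.comp measurable_fst).mul (hH.comp measurable_snd)).indicator hS).aemeasurable

/-- slowly varying weights -/
def SV (N : ℕ) (K₀ β₀ : ℝ) (V : ℂ → ℝ≥0∞) : Prop :=
  ∀ x y, V (x + y) ≤ ENNReal.ofReal (K₀ * (1 + β₀ * ‖y‖) ^ N) * V x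

theorem SV.ball {N : ℕ} {K₀ β₀ : ℝ} {V : ℂ → ℝ≥0∞} (h : SV N K₀ β₀ V) (hK : 0 ≤ K₀) (hβ : 0 < β₀)
    {s : ℝ} {x u : ℂ} (hxu : u ∈ Metric.ball x (s / β₀)) :
    V u ≤ ENNReal.ofReal (K₀ * (1 + s) ^ N) * V x := by
  have h1 := h x (u - x)
  rw [add_sub_cancel] at h1
  refine h1.trans ?_
  gcongr
  rw [Metric.mem_ball, dist_eq_norm] at hxu
  have h2 : β₀ * ‖u - x‖ ≤ β₀ * (s / β₀) := by gcongr
  rwa [mul_div_cancel₀ _ hβ.ne'] at h2

/-- averages, upper bound -/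
theorem upB {N : ℕ} {K₀ β₀ : ℝ} {V H : ℂ → ℝ≥0∞} (h : SV N K₀ β₀ V) (hK : 0 ≤ K₀) (hβ : 0 < β₀)
    (hV : Measurable V) (hH : Measurable H) (s : ℝ) :
    ∫⁻ u, V u * ∫⁻ x in Metric.ball u (s / β₀), H x ≤
      ENNReal.ofReal (K₀ * (1 + s) ^ N) * volume (Metric.ball (0 : ℂ) (s / β₀)) * ∫⁻ x, H x * V x := by
  have hHV : Measurable fun x => H x * V x := hH.mul hV
  rw [ton hV hH, ← lintegral_const_mul _ hHV]
  refine lintegral_mono fun x => ?_
  have h1 : ∫⁻ u in Metric.ball x (s / β₀), V u ≤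
      ENNReal.ofReal (K₀ * (1 + s) ^ N) * V x * volume (Metric.ball (0 : ℂ) (s / β₀)) := by
    refine (setLIntegral_mono measurable_const fun u hu => h.ball hK hβ hu).trans (le_of_eq ?_)
    rw [setLIntegral_const, Complex.volume_ball, Complex.volume_ball]
  calc H x * ∫⁻ u in Metric.ball x (s / β₀), V u
      ≤ H x * (ENNReal.ofReal (K₀ * (1 + s) ^ N) * V x * volume (Metric.ball (0 : ℂ) (s / β₀))) := by
        gcongr
    _ = _ := by ring

/-- averages, lower bound -/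
theorem loB {N : ℕ} {K₀ β₀ : ℝ} {V H : ℂ → ℝ≥0∞} (h : SV N K₀ β₀ V) (hK : 0 ≤ K₀) (hβ : 0 < β₀)
    (hV : Measurable V) (hH : Measurable H) (s : ℝ) :
    volume (Metric.ball (0 : ℂ) (s / β₀)) * ∫⁻ x, H x * V x ≤
      ENNReal.ofReal (K₀ * (1 + s) ^ N) * ∫⁻ u, V u * ∫⁻ x in Metric.ball u (s / β₀), H x := by
  have hHV : Measurable fun x => H x * V x := hH.mul hV
  rw [ton hV hH, ← lintegral_const_mul _ hHV, ← lintegral_const_mul']
  swap
  · exact ENNReal.ofReal_ne_top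
  refine lintegral_mono fun x => ?_
  have h1 : V x * volume (Metric.ball (0 : ℂ) (s / β₀)) ≤
      ENNReal.ofReal (K₀ * (1 + s) ^ N) * ∫⁻ u in Metric.ball x (s / β₀), V u := by
    rw [← lintegral_const_mul _ hV]
    refine le_trans (le_of_eq ?_) (setLIntegral_mono (f := fun _ => V x) (hV.const_mul _) fun u hu =>
      h.ball hK hβ (Metric.mem_ball_comm.1 hu))
    rw [setLIntegral_const, Complex.volume_ball, Complex.volume_ball]
  calc volume (Metric.ball (0 : ℂ) (s / β₀)) * (H x * V x)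
      = H x * (V x * volume (Metric.ball (0 : ℂ) (s / β₀))) := by ring
    _ ≤ H x * (ENNReal.ofReal (K₀ * (1 + s) ^ N) * ∫⁻ u in Metric.ball x (s / β₀), V u) := by gcongr
    _ = _ := by ring

/-- the kernel of the far part -/
noncomputable def Rk (K : ℕ) (β y : ℝ) : ℝ := β ^ 2 * ((1 + β * y) ^ K)⁻¹

theorem Rk_nonneg (K : ℕ) {β y : ℝ} (hβ : 0 < β) (hy : 0 ≤ y) : 0 ≤ Rk K β y := by
  unfold Rk; positivity

theorem Rk_le {K i : ℕ} (hK : 3 ≤ K) {β₀ β y : ℝ} (h0 : 0 < β₀) (hβ : 2 ^ i * β₀ ≤ β) (hy : 1 ≤ β₀ * y) :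
    Rk K β y ≤ (1 / 2) ^ i * (2 ^ K * Rk K β₀ y) := by
  unfold Rk
  obtain ⟨q, hq, rfl⟩ : ∃ q : ℝ, 2 ^ i ≤ q ∧ β = q * β₀ :=
    ⟨β / β₀, by rwa [le_div_iff₀ h0], by field_simp⟩
  set s := β₀ * y with hs
  have hq1 : 1 ≤ q := le_trans (one_le_pow₀ (by norm_num)) hq
  have hq0 : 0 < q := by linarith
  have hs0 : 0 < s := by linarith
  rw [show q * β₀ * y = q * s by rw [hs]; ring]
  have h1 : (1 + s) ^ K ≤ 2 ^ K * s ^ K := by
    rw [← mul_pow]
    exact pow_le_pow_left₀ (by linarith) (by linarith) K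
  have h2 : q ^ 3 * s ^ K ≤ (1 + q * s) ^ K := by
    have h3 : (q * s) ^ K ≤ (1 + q * s) ^ K := pow_le_pow_left₀ (by positivity) (by linarith) K
    refine le_trans ?_ h3
    rw [mul_pow q s]
    exact mul_le_mul_of_nonneg_right (pow_le_pow_right₀ hq1 hK) (by positivity)
  have h4 : q ^ 2 * (1 + s) ^ K ≤ (1 / 2) ^ i * (2 ^ K * (1 + q * s) ^ K) := by
    have h5 : q ^ 2 ≤ (1 / 2) ^ i * q ^ 3 := by
      have : (1 : ℝ) ≤ (1 / 2) ^ i * q := by
        rw [one_div, inv_pow, inv_mul_eq_div, le_div_iff₀ (by positivity), one_mul]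
        exact hq
      nlinarith [sq_nonneg q, mul_le_mul_of_nonneg_right this (sq_nonneg q)]
    calc q ^ 2 * (1 + s) ^ K ≤ ((1 / 2) ^ i * q ^ 3) * (2 ^ K * s ^ K) := by gcongr
      _ = (1 / 2) ^ i * (2 ^ K * (q ^ 3 * s ^ K)) := by ring
      _ ≤ (1 / 2) ^ i * (2 ^ K * (1 + q * s) ^ K) := by gcongr
  have hA : 0 < (1 + s) ^ K := by positivity
  have hB : 0 < (1 + q * s) ^ K := by positivity
  rw [← div_eq_mul_inv, ← div_eq_mul_inv, div_le_iff₀ hB]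
  calc (q * β₀) ^ 2 = β₀ ^ 2 * (q ^ 2 * (1 + s) ^ K) / (1 + s) ^ K := by field_simp
    _ ≤ β₀ ^ 2 * ((1 / 2) ^ i * (2 ^ K * (1 + q * s) ^ K)) / (1 + s) ^ K := by gcongr
    _ = _ := by ring

theorem sum_Rk {K : ℕ} (hK : 3 ≤ K) {β₀ y : ℝ} {β : ℕ → ℝ} (h0 : 0 < β₀) (hβ : ∀ i, 2 ^ i * β₀ ≤ β i)
    (hy : 1 ≤ β₀ * y) (L : ℕ) :
    ∑ i ∈ Finset.range L, (Rk K (β (i + 1)) y + Rk K (β i) y) ≤ 3 * 2 ^ K * Rk K β₀ y := by
  have hy0 : 0 ≤ y := by
    by_contra h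
    push Not at h
    nlinarith
  have h1 : ∀ i ∈ Finset.range L, Rk K (β (i + 1)) y + Rk K (β i) y ≤
      (1 / 2) ^ i * (3 / 2 * 2 ^ K * Rk K β₀ y) := by
    intro i _
    have a1 := Rk_le hK h0 (hβ (i + 1)) hy
    have a2 := Rk_le hK h0 (hβ i) hy
    rw [pow_succ] at a1
    nlinarith
  refine (Finset.sum_le_sum h1).trans ?_
  rw [← Finset.sum_mul]
  have h2 : ∑ i ∈ Finset.range L, (1 / 2 : ℝ) ^ i ≤ 2 := by
    have := geom_sum_eq (show (1 / 2 : ℝ) ≠ 1 by norm_num) L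
    rw [this]
    have : (0 : ℝ) < (1 / 2) ^ L := by positivity
    rw [div_le_iff_of_neg (by norm_num)]
    linarith
  have h3 : 0 ≤ 3 / 2 * 2 ^ K * Rk K β₀ y := mul_nonneg (by positivity) (Rk_nonneg K h0 hy0)
  calc _ ≤ 2 * (3 / 2 * 2 ^ K * Rk K β₀ y) := by gcongr
    _ = _ := by ring

/-- the integral of the kernel -/
theorem int_Rk : ∃ c : ℝ, 0 ≤ c ∧ ∀ β : ℝ, 0 < β →
    ∫⁻ y : ℂ, ENNReal.ofReal (Rk 3 β ‖y‖) = ENNReal.ofReal c := by
  have hi : Integrable fun y : ℂ => (1 + ‖y‖) ^ (-(3 : ℝ)) := by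
    refine integrable_one_add_norm ?_
    rw [Complex.finrank_real_complex]; norm_num
  have hi' : Integrable fun y : ℂ => ((1 + ‖y‖) ^ 3)⁻¹ := by
    refine hi.congr (Eventually.of_forall fun y => ?_)
    show (1 + ‖y‖) ^ (-(3 : ℝ)) = ((1 + ‖y‖) ^ 3)⁻¹
    rw [Real.rpow_neg (by positivity)]
    norm_cast
  refine ⟨∫ y : ℂ, ((1 + ‖y‖) ^ 3)⁻¹, integral_nonneg fun y => by positivity, fun β hβ => ?_⟩
  have h1 := Measure.integral_comp_smul (volume : Measure ℂ) (fun y : ℂ => ((1 + ‖y‖) ^ 3)⁻¹) β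
  rw [Complex.finrank_real_complex, abs_of_pos (by positivity), smul_eq_mul] at h1
  have h2 : Integrable fun y : ℂ => Rk 3 β ‖y‖ := by
    have := (hi'.comp_smul hβ.ne').const_mul (β ^ 2)
    refine this.congr (Eventually.of_forall fun y => ?_)
    show β ^ 2 * ((1 + ‖β • y‖) ^ 3)⁻¹ = Rk 3 β ‖y‖
    unfold Rk
    rw [norm_smul, Real.norm_of_nonneg hβ.le]
  rw [← ofReal_integral_eq_lintegral_ofReal h2 (Eventually.of_forall fun y => Rk_nonneg 3 hβ (norm_nonneg y))]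
  congr 1
  have h3 : ∫ y : ℂ, Rk 3 β ‖y‖ = β ^ 2 * ∫ y : ℂ, ((1 + ‖β • y‖) ^ 3)⁻¹ := by
    rw [← integral_const_mul]
    refine integral_congr_ae (Eventually.of_forall fun y => ?_)
    show Rk 3 β ‖y‖ = β ^ 2 * ((1 + ‖β • y‖) ^ 3)⁻¹
    unfold Rk
    rw [norm_smul, Real.norm_of_nonneg hβ.le]
  rw [h3, h1]
  field_simp

/-! ### symbols -/

theorem lp_one {β : ℝ} (hβ : 0 < β) {ξ : ℂ} (h : ‖ξ‖ ≤ β) : thb (((β⁻¹ : ℝ) : ℂ) * ξ) = 1 := by
  refine thb.one_of_mem_closedBall ?_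
  rw [mem_closedBall_zero_iff, norm_mul, Complex.norm_real, Real.norm_of_nonneg (by positivity)]
  show β⁻¹ * ‖ξ‖ ≤ 1
  rw [inv_mul_le_iff₀ hβ]
  linarith

theorem lp_zero {β : ℝ} (hβ : 0 < β) {ξ : ℂ} (h : 2 * β ≤ ‖ξ‖) : thb (((β⁻¹ : ℝ) : ℂ) * ξ) = 0 := by
  refine thb.zero_of_le_dist ?_
  rw [dist_zero_right, norm_mul, Complex.norm_real, Real.norm_of_nonneg (by positivity)]
  show 2 ≤ β⁻¹ * ‖ξ‖
  rw [le_inv_mul_iff₀ hβ]
  linarith

theorem lp_Bd {β B : ℝ} (hβ : 0 < β) (hB : 2 * β ≤ B) : Bd 0 B (lp β) := by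
  refine ⟨?_, fun ξ h => ⟨norm_nonneg _, ?_⟩⟩
  · unfold lp
    refine Complex.ofRealCLM.contDiff.comp (thb.contDiff.comp ?_)
    exact contDiff_const.mul contDiff_id
  · by_contra h2
    push Not at h2
    exact h (by unfold lp; rw [lp_zero hβ (by linarith)]; simp)

theorem bp_Bd {β : ℕ → ℝ} {i : ℕ} {B : ℝ} (h0 : 0 < β i) (h1 : 2 * β i ≤ β (i + 1)) (hB : 2 * β (i + 1) ≤ B) :
    Bd 0 B (bp β i) := by
  obtain ⟨a1, a2⟩ := lp_Bd (β := β (i + 1)) (B := B) (by linarith) hB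
  obtain ⟨b1, b2⟩ := lp_Bd (β := β i) (B := B) h0 (by linarith)
  refine ⟨a1.sub b1, fun ξ h => ?_⟩
  by_cases h2 : lp (β (i + 1)) ξ = 0
  · refine b2 ξ fun h3 => h ?_
    unfold bp
    rw [h2, h3, sub_zero]
  · exact a2 ξ h2

theorem sum_bp {β : ℕ → ℝ} (h0 : ∀ i, 0 < β i) (h1 : ∀ i, 2 * β i ≤ β (i + 1)) (L : ℕ) (ξ : ℂ) :
    ∑ i ∈ Finset.range L, ‖bp β i ξ‖ ^ 2 ≤ 1 := by
  set a : ℕ → ℝ := fun i => thb ((((β i)⁻¹ : ℝ) : ℂ) * ξ) with ha
  have ha0 : ∀ i, 0 ≤ a i := fun i => thb.nonneg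
  have ha1 : ∀ i, a i ≤ 1 := fun i => thb.le_one
  have hmono : ∀ i, a i ≤ a (i + 1) := by
    intro i
    by_cases h : 2 * β i ≤ ‖ξ‖
    · have : a i = 0 := lp_zero (h0 i) h
      rw [this]; exact ha0 _
    · push Not at h
      have : a (i + 1) = 1 := lp_one (h0 (i + 1)) (h.le.trans (h1 i))
      rw [this]; exact ha1 _
  have h2 : ∀ i ∈ Finset.range L, ‖bp β i ξ‖ ^ 2 ≤ a (i + 1) - a i := by
    intro i _
    have h3 : bp β i ξ = ((a (i + 1) - a i : ℝ) : ℂ) := by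
      unfold bp lp
      rw [Complex.ofReal_sub]
    rw [h3, Complex.norm_real, Real.norm_of_nonneg (by linarith [hmono i])]
    have := hmono i
    have := ha0 i
    have := ha1 (i + 1)
    nlinarith
  refine (Finset.sum_le_sum h2).trans ?_
  rw [Finset.sum_range_sub]
  linarith [ha1 L, ha0 0]

theorem Fi_lp {β : ℝ} (hβ : 0 < β) (x : ℂ) : Fi (lp β) x = ((β ^ 2 : ℝ) : ℂ) * Fi (lp 1) ((β : ℂ) * x) := by
  have h1 := Measure.integral_comp_smul (volume : Measure ℂ)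
    (fun η : ℂ => e2 ((β : ℂ) * x) η * lp 1 η) (β⁻¹)
  rw [Complex.finrank_real_complex] at h1
  have h2 : |((β⁻¹ ^ 2)⁻¹ : ℝ)| = β ^ 2 := by
    rw [inv_pow, inv_inv, abs_of_pos (by positivity)]
  rw [h2] at h1
  unfold Fi
  rw [← Complex.real_smul, ← h1]
  refine integral_congr_ae (Eventually.of_forall fun η => ?_)
  simp only
  have h3 : e2 ((β : ℂ) * x) (β⁻¹ • η) = e2 x η := by
    unfold e2
    congr 3
    simp only [Complex.real_smul, Complex.mul_re, Complex.mul_im, Complex.ofReal_re,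
      Complex.ofReal_im]
    field_simp
    ring
  have h4 : lp 1 (β⁻¹ • η) = lp β η := by
    unfold lp
    rw [inv_one, Complex.ofReal_one, one_mul, Complex.real_smul]
  rw [h3, h4]

theorem lp_ker (hB : S_BAS) (K : ℕ) : ∃ C : ℝ, 0 ≤ C ∧ ∀ β : ℝ, 0 < β → ∀ x : ℂ,
    ‖Fi (lp β) x‖ ≤ C * Rk K β ‖x‖ := by
  obtain ⟨-, hd, -⟩ := hB 2 (lp 1) (lp_Bd one_pos (by norm_num))
  obtain ⟨C, hC⟩ := hd K
  have hC0 : 0 ≤ C := le_trans (by positivity) (hC 0)
  refine ⟨C, hC0, fun β hβ x => ?_⟩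
  rw [Fi_lp hβ, norm_mul, Complex.norm_real, Real.norm_of_nonneg (by positivity)]
  have h1 := hC ((β : ℂ) * x)
  rw [norm_mul, Complex.norm_real, Real.norm_of_nonneg hβ.le] at h1
  unfold Rk
  have h2 : ‖Fi (lp 1) ((β : ℂ) * x)‖ ≤ C * ((1 + β * ‖x‖) ^ K)⁻¹ := by
    rw [← div_eq_mul_inv, le_div_iff₀ (by positivity)]
    exact h1
  calc β ^ 2 * ‖Fi (lp 1) ((β : ℂ) * x)‖ ≤ β ^ 2 * (C * ((1 + β * ‖x‖) ^ K)⁻¹) := by gcongr
    _ = _ := by ring

theorem Fi_bp {β : ℕ → ℝ} {i : ℕ} (h0 : 0 < β i) (h1 : 0 < β (i + 1)) (x : ℂ) :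
    Fi (bp β i) x = Fi (lp (β (i + 1))) x - Fi (lp (β i)) x := by
  unfold Fi bp
  have hI : ∀ b : ℝ, 0 < b → Integrable fun ξ => e2 x ξ * lp b ξ := by
    intro b hb
    refine (CNV.Bd.integrable (lp_Bd hb le_rfl)).bdd_mul (c := 1) ?_ ?_
    · exact (CNV.cont_e2.comp (by fun_prop : Continuous fun ξ : ℂ => (x, ξ))).aestronglyMeasurable
    · exact Eventually.of_forall fun z => (CNV.norm_e2 _ _).le
  rw [← integral_sub (hI _ h1) (hI _ h0)]
  simp only [mul_sub]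

/-- the sum of the kernels away from the origin -/
theorem sum_ker (hB : S_BAS) {K : ℕ} (hK : 3 ≤ K) : ∃ C : ℝ, 0 ≤ C ∧ ∀ (β₀ : ℝ) (β : ℕ → ℝ), 0 < β₀ →
    (∀ i, 2 ^ i * β₀ ≤ β i) → ∀ (L : ℕ) (y : ℂ), 1 ≤ β₀ * ‖y‖ →
    ∑ i ∈ Finset.range L, ‖Fi (bp β i) y‖ₑ ≤ ENNReal.ofReal (C * Rk K β₀ ‖y‖) := by
  obtain ⟨C, hC0, hC⟩ := lp_ker hB K
  refine ⟨C * (3 * 2 ^ K), by positivity, fun β₀ β h0 hβ L y hy => ?_⟩
  have hp : ∀ i, 0 < β i := fun i => lt_of_lt_of_le (by positivity) (hβ i)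
  have h1 : ∑ i ∈ Finset.range L, ‖Fi (bp β i) y‖ ≤ C * (3 * 2 ^ K) * Rk K β₀ ‖y‖ := by
    calc ∑ i ∈ Finset.range L, ‖Fi (bp β i) y‖
        ≤ ∑ i ∈ Finset.range L, C * (Rk K (β (i + 1)) ‖y‖ + Rk K (β i) ‖y‖) := by
          refine Finset.sum_le_sum fun i _ => ?_
          rw [Fi_bp (hp i) (hp (i + 1)), mul_add]
          exact (norm_sub_le _ _).trans (add_le_add (hC _ (hp _) _) (hC _ (hp _) _))
      _ = C * ∑ i ∈ Finset.range L, (Rk K (β (i + 1)) ‖y‖ + Rk K (β i) ‖y‖) := by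
          rw [Finset.mul_sum]
      _ ≤ C * (3 * 2 ^ K * Rk K β₀ ‖y‖) := by
          gcongr
          exact sum_Rk hK h0 hβ hy L
      _ = _ := by ring
  calc ∑ i ∈ Finset.range L, ‖Fi (bp β i) y‖ₑ = ENNReal.ofReal (∑ i ∈ Finset.range L, ‖Fi (bp β i) y‖) := by
        rw [ENNReal.ofReal_sum_of_nonneg (fun i _ => norm_nonneg _)]
        simp only [ofReal_norm]
    _ ≤ _ := ENNReal.ofReal_le_ofReal h1

/-! ### the proof -/

theorem sq4 (a b : ℝ≥0∞) : (a + b) ^ 2 ≤ 4 * (a ^ 2 + b ^ 2) := by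
  rcases le_total a b with h | h
  · calc (a + b) ^ 2 ≤ (b + b) ^ 2 := by gcongr
      _ = 4 * b ^ 2 := by ring
      _ ≤ _ := by gcongr; exact le_add_self
  · calc (a + b) ^ 2 ≤ (a + a) ^ 2 := by gcongr
      _ = 4 * a ^ 2 := by ring
      _ ≤ _ := by gcongr; exact le_self_add

theorem sumsq (s : Finset ℕ) (a : ℕ → ℝ≥0∞) : ∑ i ∈ s, a i ^ 2 ≤ (∑ i ∈ s, a i) ^ 2 := by
  induction s using Finset.induction_on with
  | empty => simp
  | insert j s hj ih =>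
    rw [Finset.sum_insert hj, Finset.sum_insert hj]
    calc a j ^ 2 + ∑ i ∈ s, a i ^ 2 ≤ a j ^ 2 + (∑ i ∈ s, a i) ^ 2 := by gcongr
      _ ≤ a j ^ 2 + (∑ i ∈ s, a i) ^ 2 + 2 * a j * ∑ i ∈ s, a i := le_self_add
      _ = _ := by ring

theorem mball {H : ℂ → ℝ≥0∞} (hH : Measurable H) (r : ℝ) :
    Measurable fun u : ℂ => ∫⁻ x in Metric.ball u r, H x := by
  have hS : MeasurableSet {p : ℂ × ℂ | p.2 ∈ Metric.ball p.1 r} := by
    have : Measurable fun p : ℂ × ℂ => dist p.2 p.1 := by fun_prop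
    exact this measurableSet_Iio
  have e1 : ∀ u, ∫⁻ x in Metric.ball u r, H x =
      ∫⁻ x, {p : ℂ × ℂ | p.2 ∈ Metric.ball p.1 r}.indicator (fun p => H p.2) (u, x) := by
    intro u
    rw [← lintegral_indicator Metric.isOpen_ball.measurableSet]
    refine lintegral_congr fun x => ?_
    by_cases hx : x ∈ Metric.ball u r
    · rw [Set.indicator_of_mem hx, Set.indicator_of_mem (show (u, x) ∈ {p : ℂ × ℂ | p.2 ∈ Metric.ball p.1 r} from hx)]
    · rw [Set.indicator_of_notMem hx, Set.indicator_of_notMem (show (u, x) ∉ {p : ℂ × ℂ | p.2 ∈ Metric.ball p.1 r} from hx)]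
  simp only [e1]
  exact ((hH.comp measurable_snd).indicator hS).lintegral_prod_right'

/-- the far part, pointwise -/
theorem far (G : ℕ → ℂ → ℂ) (f : ℂ → ℂ) (R : ℂ → ℝ≥0∞) (β₀ : ℝ) (h0 : 0 < β₀) (L : ℕ)
    (hG : ∀ i, i < L → Continuous (G i)) (hf : Measurable f)
    (hI : ∀ i, i < L → ∀ x, Integrable fun z => G i (x - z) * f z)
    (hR : ∀ y : ℂ, 1 ≤ β₀ * ‖y‖ → ∑ i ∈ Finset.range L, ‖G i y‖ₑ ≤ R y) (u x : ℂ)
    (hx : x ∈ Metric.ball u (1 / β₀)) :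
    ∑ i ∈ Finset.range L, ‖∫ z, G i (x - z) * f z‖ₑ ^ 2 ≤
      4 * ∑ i ∈ Finset.range L, ‖∫ z, G i (x - z) * (Metric.ball u (2 / β₀)).indicator f z‖ₑ ^ 2 +
      4 * (∫⁻ z, R (x - z) * ‖f z‖ₑ) ^ 2 := by
  set S := Metric.ball u (2 / β₀) with hS
  have hSm : MeasurableSet S := Metric.isOpen_ball.measurableSet
  have h1 : ∀ i ∈ Finset.range L, ‖∫ z, G i (x - z) * f z‖ₑ ^ 2 ≤
      4 * (‖∫ z, G i (x - z) * S.indicator f z‖ₑ ^ 2 + ‖∫ z in Sᶜ, G i (x - z) * f z‖ₑ ^ 2) := by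
    intro i hi
    rw [Finset.mem_range] at hi
    have e1 : ∫ z, G i (x - z) * S.indicator f z = ∫ z in S, G i (x - z) * f z := by
      rw [← integral_indicator hSm]
      refine integral_congr_ae (Eventually.of_forall fun z => ?_)
      by_cases hz : z ∈ S
      · simp only [Set.indicator_of_mem hz]
      · simp only [Set.indicator_of_notMem hz, mul_zero]
    rw [e1, ← integral_add_compl hSm (hI i hi x)]
    refine le_trans ?_ (sq4 _ _)
    gcongr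
    exact enorm_add_le _ _
  have h2 : ∑ i ∈ Finset.range L, ‖∫ z in Sᶜ, G i (x - z) * f z‖ₑ ≤ ∫⁻ z, R (x - z) * ‖f z‖ₑ := by
    calc ∑ i ∈ Finset.range L, ‖∫ z in Sᶜ, G i (x - z) * f z‖ₑ
        ≤ ∑ i ∈ Finset.range L, ∫⁻ z in Sᶜ, ‖G i (x - z)‖ₑ * ‖f z‖ₑ := by
          refine Finset.sum_le_sum fun i _ => ?_
          refine (enorm_integral_le_lintegral_enorm _).trans (le_of_eq ?_)
          simp only [enorm_mul]
      _ = ∫⁻ z in Sᶜ, ∑ i ∈ Finset.range L, ‖G i (x - z)‖ₑ * ‖f z‖ₑ := by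
          rw [lintegral_finsetSum']
          intro i hi
          rw [Finset.mem_range] at hi
          exact (((hG i hi).measurable.comp (measurable_const.sub measurable_id)).enorm.mul
            hf.enorm).aemeasurable
      _ ≤ ∫⁻ z in Sᶜ, R (x - z) * ‖f z‖ₑ := by
          refine setLIntegral_mono' hSm.compl fun z hz => ?_
          rw [← Finset.sum_mul]
          gcongr
          refine hR _ ?_
          have h3 : 2 / β₀ ≤ dist z u := by
            simpa [hS] using hz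
          have h4 : dist x u < 1 / β₀ := hx
          have h5 : dist z u ≤ dist z x + dist x u := dist_triangle _ _ _
          rw [dist_comm z x, dist_eq_norm x z] at h5
          have h6 : 1 / β₀ ≤ ‖x - z‖ := by
            have : 2 / β₀ = 1 / β₀ + 1 / β₀ := by ring
            linarith
          rwa [div_le_iff₀ h0, mul_comm] at h6
      _ ≤ _ := setLIntegral_le_lintegral _ _
  calc ∑ i ∈ Finset.range L, ‖∫ z, G i (x - z) * f z‖ₑ ^ 2
      ≤ ∑ i ∈ Finset.range L, 4 * (‖∫ z, G i (x - z) * S.indicator f z‖ₑ ^ 2 +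
          ‖∫ z in Sᶜ, G i (x - z) * f z‖ₑ ^ 2) := Finset.sum_le_sum h1
    _ = 4 * ∑ i ∈ Finset.range L, ‖∫ z, G i (x - z) * S.indicator f z‖ₑ ^ 2 +
          4 * ∑ i ∈ Finset.range L, ‖∫ z in Sᶜ, G i (x - z) * f z‖ₑ ^ 2 := by
        rw [← Finset.mul_sum, Finset.sum_add_distrib, mul_add]
    _ ≤ 4 * ∑ i ∈ Finset.range L, ‖∫ z, G i (x - z) * S.indicator f z‖ₑ ^ 2 +
          4 * (∑ i ∈ Finset.range L, ‖∫ z in Sᶜ, G i (x - z) * f z‖ₑ) ^ 2 := by
        gcongr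
        exact sumsq _ _
    _ ≤ _ := by gcongr

/-- the far part, in the mean -/
theorem farInt {N : ℕ} {K₀ β₀ C₁ c : ℝ} {V : ℂ → ℝ≥0∞} {f : ℂ → ℂ} (hβ : 0 < β₀) (hC : 0 ≤ C₁) (hK : 0 ≤ K₀)
    (hV : Measurable V) (hSV : SV N K₀ β₀ V) (hf : Measurable f)
    (hc : ∫⁻ y : ℂ, ENNReal.ofReal (Rk 3 β₀ ‖y‖) = ENNReal.ofReal c) :
    ∫⁻ x, (∫⁻ z, ENNReal.ofReal (C₁ * Rk (N + 3) β₀ ‖x - z‖) * ‖f z‖ₑ) ^ 2 * V x ≤
      (ENNReal.ofReal C₁ * ENNReal.ofReal c) * (ENNReal.ofReal K₀ * (ENNReal.ofReal C₁ * ENNReal.ofReal c)) *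
        ∫⁻ z, ‖f z‖ₑ ^ 2 * V z := by
  set R : ℂ → ℝ≥0∞ := fun y => ENNReal.ofReal (C₁ * Rk (N + 3) β₀ ‖y‖) with hRdef
  have hRm : Measurable R := by
    rw [hRdef]; unfold Rk; fun_prop
  have hR3 : ∀ y : ℂ, R y * ENNReal.ofReal (K₀ * (1 + β₀ * ‖y‖) ^ N) =
      ENNReal.ofReal K₀ * (ENNReal.ofReal C₁ * ENNReal.ofReal (Rk 3 β₀ ‖y‖)) := by
    intro y
    rw [hRdef, ← ENNReal.ofReal_mul hC, ← ENNReal.ofReal_mul hK, ← ENNReal.ofReal_mul
      (mul_nonneg hC (Rk_nonneg _ hβ (norm_nonneg y)))]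
    congr 1
    unfold Rk
    have : 0 < 1 + β₀ * ‖y‖ := by positivity
    rw [pow_add]
    field_simp
  have hR1 : ∀ y : ℂ, R y ≤ ENNReal.ofReal C₁ * ENNReal.ofReal (Rk 3 β₀ ‖y‖) := by
    intro y
    rw [hRdef, ← ENNReal.ofReal_mul hC]
    refine ENNReal.ofReal_le_ofReal (mul_le_mul_of_nonneg_left ?_ hC)
    unfold Rk
    have : 1 ≤ 1 + β₀ * ‖y‖ := by
      have : 0 ≤ β₀ * ‖y‖ := by positivity
      linarith
    have h2 : (1 + β₀ * ‖y‖) ^ 3 ≤ (1 + β₀ * ‖y‖) ^ (N + 3) := pow_le_pow_right₀ this (by omega)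
    gcongr
  have hRint : ∫⁻ y, R y ≤ ENNReal.ofReal C₁ * ENNReal.ofReal c := by
    rw [← hc, ← lintegral_const_mul' _ _ ENNReal.ofReal_ne_top]
    exact lintegral_mono hR1
  have h1 : ∀ x, (∫⁻ z, R (x - z) * ‖f z‖ₑ) ^ 2 ≤
      (ENNReal.ofReal C₁ * ENNReal.ofReal c) * ∫⁻ z, R (x - z) * ‖f z‖ₑ ^ 2 := by
    intro x
    refine (cs (w := fun z => R (x - z)) (g := fun z => ‖f z‖ₑ)
      (hRm.comp (measurable_const.sub measurable_id)) hf.enorm).trans ?_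
    rw [mul_comm]
    gcongr
    rw [lintegral_sub_left_eq_self (f := R) x]
    exact hRint
  have hjm : Measurable (Function.uncurry fun x z : ℂ => R (x - z) * ‖f z‖ₑ ^ 2 * V x) :=
    ((hRm.comp (measurable_fst.sub measurable_snd)).mul ((hf.comp measurable_snd).enorm.pow_const _)).mul
      (hV.comp measurable_fst)
  calc ∫⁻ x, (∫⁻ z, R (x - z) * ‖f z‖ₑ) ^ 2 * V x
      ≤ ∫⁻ x, (ENNReal.ofReal C₁ * ENNReal.ofReal c) * ∫⁻ z, R (x - z) * ‖f z‖ₑ ^ 2 * V x := by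
        refine lintegral_mono fun x => ?_
        have e : ∫⁻ z, R (x - z) * ‖f z‖ₑ ^ 2 * V x = (∫⁻ z, R (x - z) * ‖f z‖ₑ ^ 2) * V x :=
          lintegral_mul_const _ ((hRm.comp (measurable_const.sub measurable_id)).mul (hf.enorm.pow_const _))
        simp only
        rw [e, ← mul_assoc]
        gcongr
        exact h1 x
    _ = (ENNReal.ofReal C₁ * ENNReal.ofReal c) * ∫⁻ x, ∫⁻ z, R (x - z) * ‖f z‖ₑ ^ 2 * V x := by
        rw [lintegral_const_mul']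
        exact ENNReal.mul_ne_top ENNReal.ofReal_ne_top ENNReal.ofReal_ne_top
    _ = (ENNReal.ofReal C₁ * ENNReal.ofReal c) * ∫⁻ z, ∫⁻ x, R (x - z) * ‖f z‖ₑ ^ 2 * V x := by
        rw [lintegral_lintegral_swap hjm.aemeasurable]
    _ ≤ (ENNReal.ofReal C₁ * ENNReal.ofReal c) * ∫⁻ z, (ENNReal.ofReal K₀ * (ENNReal.ofReal C₁ * ENNReal.ofReal c)) *
          (‖f z‖ₑ ^ 2 * V z) := by
        gcongr with z
        calc ∫⁻ x, R (x - z) * ‖f z‖ₑ ^ 2 * V x
            ≤ ∫⁻ x, (‖f z‖ₑ ^ 2 * V z * (ENNReal.ofReal K₀ * ENNReal.ofReal C₁)) *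
                ENNReal.ofReal (Rk 3 β₀ ‖x - z‖) := by
              refine lintegral_mono fun x => ?_
              have h2 := hSV z (x - z)
              rw [add_sub_cancel] at h2
              calc R (x - z) * ‖f z‖ₑ ^ 2 * V x
                  ≤ R (x - z) * ‖f z‖ₑ ^ 2 * (ENNReal.ofReal (K₀ * (1 + β₀ * ‖x - z‖) ^ N) * V z) := by
                    gcongr
                _ = (R (x - z) * ENNReal.ofReal (K₀ * (1 + β₀ * ‖x - z‖) ^ N)) * (‖f z‖ₑ ^ 2 * V z) := by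
                    ring
                _ = _ := by rw [hR3]; ring
          _ = (‖f z‖ₑ ^ 2 * V z * (ENNReal.ofReal K₀ * ENNReal.ofReal C₁)) *
                ∫⁻ x : ℂ, ENNReal.ofReal (Rk 3 β₀ ‖x - z‖) := by
              rw [lintegral_const_mul]
              unfold Rk
              fun_prop
          _ = _ := by
              rw [lintegral_sub_right_eq_self (fun y : ℂ => ENNReal.ofReal (Rk 3 β₀ ‖y‖)) z, hc]
              ring
    _ = _ := by
        rw [lintegral_const_mul]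
        · ring
        · exact (hf.enorm.pow_const _).mul hV

theorem t (h1 : S_BAS) (h2 : S_CNV) (h3 : S_PLT) : S_WLT := by
  intro N K₀ hK₀
  obtain ⟨C₁, hC₁, hker⟩ := sum_ker h1 (K := N + 3) (by omega)
  obtain ⟨c, hc0, hc⟩ := int_Rk
  refine ⟨K₀ * (1 + 1) ^ N * (4 * (K₀ * (1 + 2) ^ N * 4) +
    4 * (K₀ * (1 + 1) ^ N * ((C₁ * c) * (K₀ * (C₁ * c))))), by positivity, ?_⟩
  intro β₀ L β V b h hβ₀ hβ0 hβ2 hV hSV hh
  have hβi : ∀ i, 2 ^ i * β₀ ≤ β i := by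
    intro i
    induction i with
    | zero => simpa using hβ0
    | succ i ih =>
      calc 2 ^ (i + 1) * β₀ = 2 * (2 ^ i * β₀) := by ring
        _ ≤ 2 * β i := by linarith
        _ ≤ _ := hβ2 i
  have hpos : ∀ i, 0 < β i := fun i => lt_of_lt_of_le (by positivity) (hβi i)
  have hmono : Monotone β := monotone_nat_of_le_succ fun i => by linarith [hβ2 i, hpos i]
  have hcc := hc β₀ hβ₀
  -- the functions
  set f := Fi h with hf
  obtain ⟨hfc, -, hfN, -, -⟩ := h1 b h hh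
  obtain ⟨hfm, hfi, Mf, hMf⟩ := hfN
  set B := max b (2 * β L) with hB
  have hbB : ∀ i, i < L → Bd 0 B (bp β i) := fun i hi =>
    bp_Bd (hpos i) (hβ2 i) (le_trans (by linarith [hmono (show i + 1 ≤ L by omega)]) (le_max_right _ _))
  have hhB : Bd 0 B h := ⟨hh.1, fun ξ hξ => ⟨(hh.2 ξ hξ).1, (hh.2 ξ hξ).2.trans (le_max_left _ _)⟩⟩
  set G : ℕ → ℂ → ℂ := fun i => Fi (bp β i) with hG
  have hGc : ∀ i, i < L → Continuous (G i) := fun i hi => (h1 B _ (hbB i hi)).1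
  have hconv : ∀ i, i < L → ∀ x, Integrable (fun z => G i (x - z) * f z) ∧
      Fi (fun ξ => bp β i ξ * h ξ) x = ∫ z, G i (x - z) * f z := fun i hi x => h2 B _ _ (hbB i hi) hhB x
  set R : ℂ → ℝ≥0∞ := fun y => ENNReal.ofReal (C₁ * Rk (N + 3) β₀ ‖y‖) with hR
  set F : ℂ → ℝ≥0∞ := fun x => (∫⁻ z, R (x - z) * ‖f z‖ₑ) ^ 2 with hF
  have hRm : Measurable R := by
    rw [hR]; unfold Rk; fun_prop
  have hFm : Measurable F := by
    have : Measurable (Function.uncurry fun x z : ℂ => R (x - z) * ‖f z‖ₑ) :=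
      (hRm.comp (measurable_fst.sub measurable_snd)).mul (hfm.comp measurable_snd).enorm
    exact this.lintegral_prod_right'.pow_const _
  set D : ℂ → ℝ≥0∞ := fun x => ∑ i ∈ Finset.range L, ‖Fi (fun ξ => bp β i ξ * h ξ) x‖ₑ ^ 2 with hD
  have hDi : ∀ i, i < L → Measurable fun x => ‖Fi (fun ξ => bp β i ξ * h ξ) x‖ₑ ^ 2 := by
    intro i hi
    have hbd : Bd 0 B (fun ξ => bp β i ξ * h ξ) := by
      refine ⟨(hbB i hi).1.mul hh.1, fun ξ hξ => ?_⟩
      exact hhB.2 ξ (right_ne_zero_of_mul hξ)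
    exact (h1 B _ hbd).1.measurable.enorm.pow_const _
  have hDm : Measurable D := by
    refine Finset.measurable_fun_sum _ fun i hi => ?_
    exact hDi i (Finset.mem_range.1 hi)
  -- the local estimate
  have hloc : ∀ u, (∫⁻ x in Metric.ball u (1 / β₀), D x) ≤
      4 * (∫⁻ x in Metric.ball u (2 / β₀), ‖f x‖ₑ ^ 2) + 4 * (∫⁻ x in Metric.ball u (1 / β₀), F x) := by
    intro u
    set g := (Metric.ball u (2 / β₀)).indicator f with hg
    have hSm : MeasurableSet (Metric.ball u (2 / β₀)) := Metric.isOpen_ball.measurableSet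
    have hgN : Nic2 g := by
      refine ⟨hfm.indicator hSm, hfi.indicator hSm, max Mf 0, fun x => ?_⟩
      rw [hg]
      by_cases hx : x ∈ Metric.ball u (2 / β₀)
      · rw [Set.indicator_of_mem hx]; exact (hMf x).trans (le_max_left _ _)
      · rw [Set.indicator_of_notMem hx, norm_zero]; exact le_max_right _ _
    have hnm : ∀ i, i < L → Measurable fun x => ‖∫ z, G i (x - z) * g z‖ₑ ^ 2 := by
      intro i hi
      have hj : StronglyMeasurable (Function.uncurry fun x z : ℂ => G i (x - z) * g z) :=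
        (((hGc i hi).measurable.comp (measurable_fst.sub measurable_snd)).mul
          (hgN.1.comp measurable_snd)).stronglyMeasurable
      exact (hj.integral_prod_right).measurable.enorm.pow_const _
    have hplt := h3 B L (fun i => if i < L then bp β i else 0) 1 (by
      intro i
      by_cases hi : i < L
      · simp only [if_pos hi]; exact hbB i hi
      · simp only [if_neg hi]
        exact ⟨contDiff_const, fun ξ hξ => absurd rfl hξ⟩) (by
      intro ξ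
      refine le_trans (le_of_eq ?_) (sum_bp hpos hβ2 L ξ)
      refine Finset.sum_congr rfl fun i hi => ?_
      rw [if_pos (Finset.mem_range.1 hi)]) g hgN
    have hplt2 : ∑ i ∈ Finset.range L, ∫⁻ x, ‖∫ z, G i (x - z) * g z‖ₑ ^ 2 ≤
        ∫⁻ x in Metric.ball u (2 / β₀), ‖f x‖ₑ ^ 2 := by
      calc ∑ i ∈ Finset.range L, ∫⁻ x, ‖∫ z, G i (x - z) * g z‖ₑ ^ 2
          = ∑ i ∈ Finset.range L, (∫⁻ x, ‖∫ z, Fi (if i < L then bp β i else 0) (x - z) * g z‖ₑ ^ 2) := by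
            refine Finset.sum_congr rfl fun i hi => ?_
            rw [if_pos (Finset.mem_range.1 hi)]
        _ ≤ _ := hplt
        _ = _ := by
            rw [ENNReal.ofReal_one, one_mul, ← lintegral_indicator hSm]
            refine lintegral_congr fun x => ?_
            rw [hg]
            by_cases hx : x ∈ Metric.ball u (2 / β₀)
            · rw [Set.indicator_of_mem hx, Set.indicator_of_mem hx]
            · rw [Set.indicator_of_notMem hx, Set.indicator_of_notMem hx]; simp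
    calc ∫⁻ x in Metric.ball u (1 / β₀), D x
        ≤ ∫⁻ x in Metric.ball u (1 / β₀),
            (4 * ∑ i ∈ Finset.range L, ‖∫ z, G i (x - z) * g z‖ₑ ^ 2 + 4 * F x) := by
          refine setLIntegral_mono' Metric.isOpen_ball.measurableSet fun x hx => ?_
          refine le_trans (le_of_eq ?_) (far G f R β₀ hβ₀ L hGc hfm (fun i hi x => (hconv i hi x).1)
            (fun y hy => hker β₀ β hβ₀ hβi L y hy) u x hx)
          refine Finset.sum_congr rfl fun i hi => ?_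
          rw [(hconv i (Finset.mem_range.1 hi) x).2]
      _ = (∫⁻ x in Metric.ball u (1 / β₀), 4 * ∑ i ∈ Finset.range L, ‖∫ z, G i (x - z) * g z‖ₑ ^ 2) +
            ∫⁻ x in Metric.ball u (1 / β₀), 4 * F x := by
          rw [lintegral_add_right _ (hFm.const_mul _)]
      _ ≤ (∫⁻ x, 4 * ∑ i ∈ Finset.range L, ‖∫ z, G i (x - z) * g z‖ₑ ^ 2) +
            ∫⁻ x in Metric.ball u (1 / β₀), 4 * F x :=
          add_le_add_left (setLIntegral_le_lintegral _ _) _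
      _ = 4 * (∑ i ∈ Finset.range L, (∫⁻ x, ‖∫ z, G i (x - z) * g z‖ₑ ^ 2)) +
            4 * (∫⁻ x in Metric.ball u (1 / β₀), F x) := by
          rw [lintegral_const_mul' _ _ (by norm_num), lintegral_const_mul' _ _ (by norm_num),
            lintegral_finsetSum _ fun i hi => hnm i (Finset.mem_range.1 hi)]
      _ ≤ _ := by gcongr
  -- assembly
  set I := ∫⁻ x, ‖f x‖ₑ ^ 2 * V x with hI
  set v₁ := volume (Metric.ball (0 : ℂ) (1 / β₀)) with hv₁
  have hv₂ : volume (Metric.ball (0 : ℂ) (2 / β₀)) = ENNReal.ofReal 4 * v₁ := by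
    rw [hv₁, Complex.volume_ball, Complex.volume_ball, ← mul_assoc]
    congr 1
    rw [← ENNReal.ofReal_pow (by positivity), ← ENNReal.ofReal_pow (by positivity),
      ← ENNReal.ofReal_mul (by norm_num)]
    congr 1
    ring
  have hv0 : v₁ ≠ 0 := (Metric.measure_ball_pos volume _ (by positivity)).ne'
  have hvt : v₁ ≠ ⊤ := measure_ball_lt_top.ne
  have hfar := farInt (N := N) hβ₀ hC₁ hK₀ hV hSV hfm hcc
  have hff : Measurable fun x => ‖f x‖ₑ ^ 2 := hfm.enorm.pow_const _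
  have hA := loB (H := D) hSV hK₀ hβ₀ hV hDm 1
  have hB1 := upB (H := F) hSV hK₀ hβ₀ hV hFm 1
  have hB2 := upB (H := fun x => ‖f x‖ₑ ^ 2) hSV hK₀ hβ₀ hV hff 2
  have hDV : ∫⁻ x, D x * V x = ∑ i ∈ Finset.range L,
      (∫⁻ x, ‖Fi (fun ξ => bp β i ξ * h ξ) x‖ₑ ^ 2 * V x) := by
    have hDiV : ∀ i ∈ Finset.range L, Measurable fun x =>
        ‖Fi (fun ξ => bp β i ξ * h ξ) x‖ₑ ^ 2 * V x := fun i hi => (hDi i (Finset.mem_range.1 hi)).mul hV
    rw [← lintegral_finsetSum _ hDiV]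
    refine lintegral_congr fun x => ?_
    rw [hD, Finset.sum_mul]
  rw [← hDV]
  have key : v₁ * ∫⁻ x, D x * V x ≤ v₁ * (ENNReal.ofReal (K₀ * (1 + 1) ^ N * (4 * (K₀ * (1 + 2) ^ N * 4) +
      4 * (K₀ * (1 + 1) ^ N * ((C₁ * c) * (K₀ * (C₁ * c)))))) * I) := by
    calc v₁ * ∫⁻ x, D x * V x
        ≤ ENNReal.ofReal (K₀ * (1 + 1) ^ N) * ∫⁻ u, V u * ∫⁻ x in Metric.ball u (1 / β₀), D x := hA
      _ ≤ ENNReal.ofReal (K₀ * (1 + 1) ^ N) * ∫⁻ u, (4 * (V u * ∫⁻ x in Metric.ball u (2 / β₀), ‖f x‖ₑ ^ 2) +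
            4 * (V u * ∫⁻ x in Metric.ball u (1 / β₀), F x)) := by
          gcongr with u
          calc V u * ∫⁻ x in Metric.ball u (1 / β₀), D x
              ≤ V u * (4 * (∫⁻ x in Metric.ball u (2 / β₀), ‖f x‖ₑ ^ 2) +
                  4 * (∫⁻ x in Metric.ball u (1 / β₀), F x)) := by
                gcongr
                exact hloc u
            _ = _ := by ring
      _ = ENNReal.ofReal (K₀ * (1 + 1) ^ N) * (4 * (∫⁻ u, V u * ∫⁻ x in Metric.ball u (2 / β₀), ‖f x‖ₑ ^ 2) +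
            4 * (∫⁻ u, V u * ∫⁻ x in Metric.ball u (1 / β₀), F x)) := by
          have hm2 : Measurable fun u => 4 * (V u * ∫⁻ x in Metric.ball u (2 / β₀), ‖f x‖ₑ ^ 2) :=
            (hV.mul (mball hff _)).const_mul _
          rw [lintegral_add_left hm2,
            lintegral_const_mul' _ _ (by norm_num), lintegral_const_mul' _ _ (by norm_num)]
      _ ≤ ENNReal.ofReal (K₀ * (1 + 1) ^ N) * (4 * (ENNReal.ofReal (K₀ * (1 + 2) ^ N) *
            (ENNReal.ofReal 4 * v₁) * I) +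
            4 * (ENNReal.ofReal (K₀ * (1 + 1) ^ N) * v₁ * ((ENNReal.ofReal C₁ * ENNReal.ofReal c) *
              (ENNReal.ofReal K₀ * (ENNReal.ofReal C₁ * ENNReal.ofReal c)) * I))) := by
          rw [← hv₂]
          gcongr
          · exact hB1.trans (by gcongr)
      _ = _ := by
          have e4 : (4 : ℝ≥0∞) = ENNReal.ofReal 4 := by norm_num
          rw [e4, ENNReal.ofReal_mul (p := K₀ * (1 + 1) ^ N) (by positivity),
            ENNReal.ofReal_add (by positivity) (by positivity),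
            ENNReal.ofReal_mul (p := 4) (by norm_num), ENNReal.ofReal_mul (p := 4) (by norm_num),
            ENNReal.ofReal_mul (p := K₀ * (1 + 2) ^ N) (by positivity),
            ENNReal.ofReal_mul (p := K₀ * (1 + 1) ^ N) (by positivity),
            ENNReal.ofReal_mul (p := C₁ * c) (by positivity),
            ENNReal.ofReal_mul (p := K₀) hK₀ (q := C₁ * c),
            ENNReal.ofReal_mul (p := C₁) hC₁]
          ring
  exact (ENNReal.mul_le_mul_iff_right hv0 hvt).1 key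

end Pool.Agent.N892.BW.WLT
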