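import Mathlib
import Pool.Agent.N892.BW.FTH
import Pool.Agent.N892.BW.FIN3
import Pool.Agent.N892.BW.PRD
import Pool.Agent.N892.BW.LPF
import Pool.Agent.N892.BW.SUQ
import Pool.Agent.N892.BW.INR
import Pool.Agent.N892.BW.SPT
import Pool.Agent.N892.BW.STR
import Pool.Agent.N892.BW.FNT
import Pool.Agent.N892.BW.LPS
import Pool.Agent.N892.BW.REV
import Pool.Agent.N892.BW.GSM
import Pool.Agent.N892.BW.GWT
import Pool.Agent.N892.BW.WLT
import Pool.Agent.N892.BW.LOW
import Pool.Agent.N892.BW.MAJ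
import Pool.Agent.N892.BW.DMX
import Pool.Agent.N892.BW.HLM
import Pool.Agent.N892.BW.RDM
import Pool.Agent.N892.BW.PGL
import Pool.Agent.N892.BW.HKD
import Pool.Agent.N892.BW.LOC
import Pool.Agent.N892.BW.LQT
import Pool.Agent.N892.BW.DUT
import Pool.Agent.N892.BW.MUL
import Pool.Agent.N892.BW.REP
import Pool.Agent.N892.BW.NEA
import Pool.Agent.N892.BW.FAR
import Pool.Agent.N892.BW.ENU
import Pool.Agent.N892.BW.NUM
import Pool.Agent.N892.BW.VAN
import Pool.Agent.N892.BW.CMP
import Pool.Agent.N892.BW.BAS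
import Pool.Agent.N892.BW.CNV
import Pool.Agent.N892.BW.PLT
import Pool.Agent.N892.BW.AMG
import Pool.Agent.N892.BW.ASR
import Pool.Agent.N892.BW.GLC
import Pool.Agent.N892.BW.HOE
import Pool.Agent.N892.BW.NUI
import Pool.Agent.N892.BW.PLZ
import Pool.Agent.N892.BW.RTT
import Pool.Agent.N892.BW.REA
import Pool.Agent.N892.BW.REB
import Pool.Agent.N892.BW.LWB

/-!
Assembly.
-/

set_option autoImplicit false

namespace Pool.Agent.N892.BW.ALL

open Pool.Agent.N892.BW

theorem bas : S_BAS := BAS.t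
theorem cnv : S_CNV := CNV.t bas
theorem prd : S_PRD := PRD.t
theorem plt : S_PLT := PLT.t bas
theorem num : S_NUM := NUM.t
theorem van : S_VAN := VAN.t bas prd
theorem enu : S_ENU := ENU.t bas num van
theorem cmp : S_CMP := CMP.t
theorem mul : S_MUL := MUL.t bas cnv
theorem rep : S_REP := REP.t bas
theorem nea : S_NEA := NEA.t
theorem far : S_FAR := FAR.t
theorem loc : S_LOC := LOC.t bas mul rep nea far
theorem lqt : S_LQT := LQT.t
theorem dut : S_DUT := DUT.t
theorem str : S_STR := STR.t bas loc lqt dut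
theorem hkd : S_HKD := HKD.t
theorem pgl : S_PGL := PGL.t
theorem fnt : S_FNT := FNT.t mul
theorem hlm : S_HLM := HLM.t
theorem rdm : S_RDM := RDM.t
theorem dmx : S_DMX := DMX.t hlm rdm
theorem maj : S_MAJ := MAJ.t bas cnv
theorem low : S_LOW := LOW.t bas cnv rdm
theorem wlt : S_WLT := WLT.t bas cnv plt
theorem lps : S_LPS := LPS.t bas cnv plt pgl dmx maj wlt
theorem lpf : S_LPF := LPF.t lps
theorem rev : S_REV := REV.t bas enu low hlm
theorem gwt : S_GWT := GWT.t bas cnv plt hkd rdm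
theorem gsm : S_GSM := GSM.t bas hlm gwt
theorem inr : S_INR := INR.t bas low hlm gsm
theorem suq : S_SUQ := SUQ.t bas cnv prd hlm dmx maj low lpf
theorem spt : S_SPT := SPT.t bas lps rev
theorem fth : S_FTH := FTH.t bas enu suq cmp str inr spt fnt lpf
theorem ful : S_FUL := FIN3.ta bas cnv fth
theorem fub : S_FUB := FIN3.tb ful
theorem amg : S_AMG := AMG.t
theorem asr : S_ASR := ASR.t
theorem glc : S_GLC := GLC.t amg asr
theorem hoe : S_HOE := HOE.t
theorem nui : S_NUI := NUI.t glc hoe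
theorem plz : S_PLZ := PLZ.t
theorem rtt : S_RTT := RTT.t
theorem rea : S_REA := REA.t ful plz rtt amg hoe
theorem reb : S_REB := REB.t ful plz rtt nui
theorem lwb : S_LWB := LWB.t

end Pool.Agent.N892.BW.ALL
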