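import Mathlib
import Pool.Agent.N892.BW.Stm2

/-! BW2/BAS (helper134 for helper892). -/

set_option autoImplicit false

open MeasureTheory ENNReal Filter Topology Complex
open scoped ComplexConjugate ContDiff FourierTransform SchwartzMap

namespace Pool.Agent.N892.BW.BAS

theorem hcs {a b : ℝ} {h : ℂ → ℂ} (hh : Bd a b h) : HasCompactSupport h := by
  refine HasCompactSupport.of_support_subset_isCompact (isCompact_closedBall (0 : ℂ) b) ?_
  intro ξ hξ
  rw [Metric.mem_closedBall, dist_zero_right]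
  exact (hh.2 ξ hξ).2

/-- the Schwartz function -/
noncomputable def sch {a b : ℝ} {h : ℂ → ℂ} (hh : Bd a b h) : 𝓢(ℂ, ℂ) := (hcs hh).toSchwartzMap hh.1

theorem sch_apply {a b : ℝ} {h : ℂ → ℂ} (hh : Bd a b h) (ξ : ℂ) : sch hh ξ = h ξ := rfl

theorem inner_eq (v w : ℂ) : inner ℝ v w = v.re * w.re + v.im * w.im := by
  rw [Complex.inner]
  simp only [Complex.mul_re, Complex.conj_re, Complex.conj_im]
  ring

theorem Fi_eq {a b : ℝ} {h : ℂ → ℂ} (hh : Bd a b h) (x : ℂ) : Fi h x = (𝓕⁻ (sch hh)) x := by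
  rw [SchwartzMap.fourierInv_coe, Real.fourierInv_eq']
  unfold Fi
  refine integral_congr_ae (Eventually.of_forall fun ξ => ?_)
  show e2 x ξ * h ξ = Complex.exp _ • (sch hh ξ)
  rw [sch_apply, smul_eq_mul, inner_eq]
  unfold e2
  congr 2
  push_cast
  ring

theorem Fi_fun {a b : ℝ} {h : ℂ → ℂ} (hh : Bd a b h) : Fi h = (𝓕⁻ (sch hh) : 𝓢(ℂ, ℂ)) := by
  funext x
  exact Fi_eq hh x

theorem t : Pool.Agent.N892.BW.S_BAS := by
  intro b h hh
  obtain ⟨g, hg⟩ : ∃ g : 𝓢(ℂ, ℂ), g = 𝓕⁻ (sch hh) := ⟨_, rfl⟩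
  have hF : Fi h = g := by rw [hg]; exact Fi_fun hh
  have hinv : 𝓕 g = sch hh := by rw [hg]; exact FourierTransform.fourier_fourierInv_eq _
  have hdecay : ∀ N : ℕ, ∃ C : ℝ, ∀ x, ‖Fi h x‖ * (1 + ‖x‖) ^ N ≤ C := by
    intro N
    refine ⟨2 ^ N * (Finset.Iic (N, 0)).sup (fun m => SchwartzMap.seminorm ℝ m.1 m.2) g, fun x => ?_⟩
    have h1 := SchwartzMap.one_add_le_sup_seminorm_apply (𝕜 := ℝ) (m := (N, 0)) (k := N) (n := 0) le_rfl le_rfl g x
    rw [norm_iteratedFDeriv_zero] at h1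
    rw [hF, mul_comm]
    exact h1
  refine ⟨by rw [hF]; exact g.continuous, hdecay, ⟨?_, ?_, ?_⟩, ?_, ?_⟩
  · rw [hF]; exact g.continuous.measurable
  · rw [hF]; exact g.integrable
  · obtain ⟨C, hC⟩ := hdecay 0
    exact ⟨C, fun x => by simpa using hC x⟩
  · intro ξ
    have h1 : h ξ = (𝓕 g) ξ := by rw [hinv]; rfl
    rw [h1, SchwartzMap.fourier_coe, Real.fourier_eq']
    refine integral_congr_ae (Eventually.of_forall fun x => ?_)
    show Complex.exp _ • g x = conj (e2 x ξ) * Fi h x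
    rw [hF, smul_eq_mul, inner_eq]
    congr 1
    unfold e2
    rw [← Complex.exp_conj]
    congr 1
    simp only [map_mul, Complex.conj_ofReal, Complex.conj_I, map_ofNat]
    push_cast
    ring
  · have h1 := SchwartzMap.integral_norm_sq_fourier g
    rw [hinv] at h1
    have hi : ∀ f : 𝓢(ℂ, ℂ), ∫⁻ x, ‖f x‖ₑ ^ 2 = ENNReal.ofReal (∫ x, ‖f x‖ ^ 2) := by
      intro f
      have h2 : Integrable (fun x => ‖f x‖ ^ 2) := (f.memLp 2 volume).integrable_norm_pow (by norm_num)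
      rw [ofReal_integral_eq_lintegral_ofReal h2 (Eventually.of_forall fun x => by positivity)]
      refine lintegral_congr fun x => ?_
      rw [ENNReal.ofReal_pow (norm_nonneg _), ofReal_norm]
    rw [hF, hi g, ← h1, ← hi (sch hh)]
    rfl

end Pool.Agent.N892.BW.BAS
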