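import Pool.Agent.N892.BW.Stm

/-!
CUX: existence of smooth cut-off functions of annuli with scale invariant bounds.
-/

set_option autoImplicit false

namespace Pool.Agent.N892.BW.CUX

open Pool.Agent.N892.BW

/-- a smooth bump function on the unit disc -/
noncomputable def bump : ContDiffBump (0 : ℂ) := ⟨1 / 2, 1, by norm_num, by norm_num⟩

/-- the bump function as a function -/
noncomputable def th : ℂ → ℝ := bump

lemma th_smooth (n : ℕ) : ContDiff ℝ n th := bump.contDiff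

lemma th_one (x : ℂ) (h : ‖x‖ ≤ 1 / 2) : th x = 1 := by
  apply bump.one_of_mem_closedBall
  rw [mem_closedBall_zero_iff]
  exact h

lemma th_zero (x : ℂ) (h : 1 ≤ ‖x‖) : th x = 0 := by
  apply bump.zero_of_le_dist
  rw [dist_zero_right]
  exact h

lemma th_nonneg (x : ℂ) : 0 ≤ th x := bump.nonneg

lemma th_le_one (x : ℂ) : th x ≤ 1 := bump.le_one

lemma bound (j : ℕ) : ∃ B : ℝ, ∀ x : ℂ, ‖iteratedFDeriv ℝ j th x‖ * ‖x‖ ^ j ≤ B := by
  have hc : Continuous (iteratedFDeriv ℝ j th) := (th_smooth j).continuous_iteratedFDeriv le_rfl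
  have hs : HasCompactSupport (iteratedFDeriv ℝ j th) :=
    HasCompactSupport.iteratedFDeriv bump.hasCompactSupport j
  have hc2 : Continuous fun x : ℂ => ‖iteratedFDeriv ℝ j th x‖ * ‖x‖ ^ j :=
    hc.norm.mul (continuous_norm.pow j)
  have hs2 : HasCompactSupport fun x : ℂ => ‖iteratedFDeriv ℝ j th x‖ * ‖x‖ ^ j :=
    hs.norm.mul_right
  obtain ⟨B, hB⟩ := hc2.bounded_above_of_compact_support hs2
  exact ⟨B, fun x => (le_abs_self _).trans (hB x)⟩

/-- the rescaled bump function -/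
noncomputable def tr (r : ℝ) (x : ℂ) : ℝ := th (r⁻¹ • x)

lemma tr_smooth (r : ℝ) (n : ℕ) : ContDiff ℝ n (tr r) :=
  (th_smooth n).comp (contDiff_const_smul _)

lemma norm_sm {r : ℝ} (hr : 0 < r) (x : ℂ) : ‖r⁻¹ • x‖ = ‖x‖ / r := by
  rw [norm_smul, norm_inv, Real.norm_eq_abs, abs_of_pos hr, div_eq_inv_mul]

lemma tr_bound {r : ℝ} (hr : 0 < r) (j : ℕ) (B : ℝ)
    (hB : ∀ x : ℂ, ‖iteratedFDeriv ℝ j th x‖ * ‖x‖ ^ j ≤ B) (x : ℂ) :
    ‖iteratedFDeriv ℝ j (tr r) x‖ * ‖x‖ ^ j ≤ B := by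
  have h1 := congrFun (iteratedFDeriv_comp_const_smul (𝕜 := ℝ) (i := j) (f := th) r⁻¹ (th_smooth j)) x
  have h2 : iteratedFDeriv ℝ j (tr r) x = iteratedFDeriv ℝ j (fun x => th (r⁻¹ • x)) x := rfl
  rw [h2, h1]
  refine le_trans (le_of_eq ?_) (hB (r⁻¹ • x))
  rw [norm_sm hr, norm_smul, norm_pow, norm_inv, Real.norm_eq_abs, abs_of_pos hr, div_pow, inv_pow]
  ring

theorem t : Pool.Agent.N892.BW.S_CUX := by
  obtain ⟨B1, hB1⟩ := bound 1
  obtain ⟨B2, hB2⟩ := bound 2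
  refine ⟨max (B1 + B1) (B2 + B2), ?_⟩
  intro r s hr hrs
  have hs2 : 0 < 2 * s := by linarith
  have hz : ∀ x : ℂ, r ≤ ‖x‖ → tr r x = 0 := by
    intro x hx
    apply th_zero
    rw [norm_sm hr, le_div_iff₀ hr]
    linarith
  have ho : ∀ x : ℂ, ‖x‖ ≤ r / 2 → tr r x = 1 := by
    intro x hx
    apply th_one
    rw [norm_sm hr, div_le_iff₀ hr]
    linarith
  have hz2 : ∀ x : ℂ, 2 * s ≤ ‖x‖ → tr (2 * s) x = 0 := by
    intro x hx
    apply th_zero
    rw [norm_sm hs2, le_div_iff₀ hs2]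
    linarith
  have ho2 : ∀ x : ℂ, ‖x‖ ≤ s → tr (2 * s) x = 1 := by
    intro x hx
    apply th_one
    rw [norm_sm hs2, div_le_iff₀ hs2]
    linarith
  have hder : ∀ (j : ℕ) (x : ℂ), ‖iteratedFDeriv ℝ j (fun x => tr (2 * s) x - tr r x) x‖ ≤
      ‖iteratedFDeriv ℝ j (tr (2 * s)) x‖ + ‖iteratedFDeriv ℝ j (tr r) x‖ := by
    intro j x
    have h1 : iteratedFDeriv ℝ j (fun x => tr (2 * s) x - tr r x) x =
        iteratedFDeriv ℝ j (tr (2 * s)) x - iteratedFDeriv ℝ j (tr r) x :=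
      iteratedFDeriv_sub_apply (tr_smooth (2 * s) j).contDiffAt (tr_smooth r j).contDiffAt
    rw [h1]
    exact norm_sub_le _ _
  have hder2 : ∀ (j : ℕ) (B : ℝ) (_ : ∀ x : ℂ, ‖iteratedFDeriv ℝ j th x‖ * ‖x‖ ^ j ≤ B) (x : ℂ),
      ‖iteratedFDeriv ℝ j (fun x => tr (2 * s) x - tr r x) x‖ * ‖x‖ ^ j ≤ B + B := by
    intro j B hB x
    have h1 := tr_bound hs2 j B hB x
    have h2 := tr_bound hr j B hB x
    have h3 := mul_le_mul_of_nonneg_right (hder j x) (pow_nonneg (norm_nonneg x) j)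
    rw [add_mul] at h3
    linarith
  refine ⟨fun x => tr (2 * s) x - tr r x, ⟨?_, ?_, ?_, ?_⟩, ?_⟩
  · exact (tr_smooth (2 * s) 2).sub (tr_smooth r 2)
  · intro x
    beta_reduce
    by_cases hx : r ≤ ‖x‖
    · rw [hz x hx, sub_zero]
      exact ⟨th_nonneg _, th_le_one _⟩
    · push Not at hx
      rw [ho2 x (by linarith)]
      have h1 : 0 ≤ tr r x := th_nonneg _
      have h2 : tr r x ≤ 1 := th_le_one _
      constructor <;> linarith
  · intro x hx
    constructor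
    · by_contra hcon
      push Not at hcon
      apply hx
      simp only
      rw [ho x hcon.le, ho2 x (by linarith), sub_self]
    · by_contra hcon
      push Not at hcon
      apply hx
      simp only
      rw [hz2 x hcon.le, hz x (by linarith), sub_self]
  · intro x
    constructor
    · have h1 := hder2 1 B1 hB1 x
      rw [norm_iteratedFDeriv_one, pow_one] at h1
      exact h1.trans (le_max_left _ _)
    · exact (hder2 2 B2 hB2 x).trans (le_max_right _ _)
  · intro x hx hx'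
    simp only
    rw [hz x hx, ho2 x hx', sub_zero]

end Pool.Agent.N892.BW.CUX
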