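import Pool.Agent.N892.BW.Stm

/-!
Project BW (helper892), part DEC (helper592): decomposition into cells, pointwise.
-/

set_option autoImplicit false

open MeasureTheory ENNReal Filter Topology Complex
open scoped ComplexConjugate

namespace Pool.Agent.N892.BW.DEC

open Pool.Agent.N892.BW

theorem meas_Kn (n : ℕ) : Measurable (Kn n) := by
  unfold Kn
  have h1 : Measurable (fun x : ℂ => conj x) := Complex.continuous_conj.measurable
  exact (((measurable_const.mul (h1.pow_const _))).div (measurable_id.pow_const _))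

theorem norm_Kn {n : ℕ} (hn : 1 ≤ n) {x : ℂ} (hx : x ≠ 0) :
    ‖Kn n x‖ = (n : ℝ) / (Real.pi * ‖x‖ ^ 2) := by
  obtain ⟨k, rfl⟩ : ∃ k, n = k + 1 := ⟨n - 1, by omega⟩
  unfold Kn
  have hx' : ‖x‖ ≠ 0 := norm_ne_zero_iff.2 hx
  have hpi : Real.pi ≠ 0 := Real.pi_ne_zero
  rw [Nat.add_sub_cancel, norm_div, norm_mul, norm_mul, norm_pow, norm_pow, norm_pow, norm_neg,
    norm_one, one_pow, one_mul, norm_div, Complex.norm_natCast, RCLike.norm_conj,
    Complex.norm_real, Real.norm_of_nonneg Real.pi_pos.le]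
  field_simp
  ring

theorem norm_kk {n : ℕ} (hn : 1 ≤ n) {B D : ℝ} {ψ : ℂ → ℝ} (hψ : Cut B 1 D ψ) (x : ℂ) :
    ‖kk n ψ x‖ ≤ (n : ℝ) / Real.pi := by
  unfold kk
  by_cases h : ψ x = 0
  · rw [h, Complex.ofReal_zero, mul_zero, norm_zero]
    positivity
  · have h1 := (hψ.2.2.1 x h).1
    have hx : x ≠ 0 := by
      rintro rfl
      rw [norm_zero] at h1
      linarith
    rw [norm_mul, norm_Kn hn hx, Complex.norm_real, Real.norm_of_nonneg (hψ.2.1 x).1]
    have h2 : (n : ℝ) / (Real.pi * ‖x‖ ^ 2) ≤ (n : ℝ) / Real.pi := by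
      apply div_le_div_of_nonneg_left (by positivity) Real.pi_pos
      have : (1 : ℝ) ≤ ‖x‖ ^ 2 := one_le_pow₀ h1
      nlinarith [Real.pi_pos]
    calc (n : ℝ) / (Real.pi * ‖x‖ ^ 2) * ψ x ≤ (n : ℝ) / Real.pi * 1 :=
          mul_le_mul h2 (hψ.2.1 x).2 (hψ.2.1 x).1 (by positivity)
      _ = _ := mul_one _

theorem kk_supp {n : ℕ} {B D : ℝ} {ψ : ℂ → ℝ} (hψ : Cut B 1 D ψ) {x : ℂ} (h : kk n ψ x ≠ 0) :
    ‖x‖ ≤ D := by
  unfold kk at h
  have h1 : ψ x ≠ 0 := by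
    intro h0
    rw [h0, Complex.ofReal_zero, mul_zero] at h
    exact h rfl
  exact (hψ.2.2.1 x h1).2

theorem meas_kk {n : ℕ} {B D : ℝ} {ψ : ℂ → ℝ} (hψ : Cut B 1 D ψ) : Measurable (kk n ψ) := by
  unfold kk
  exact (meas_Kn n).mul (Complex.measurable_ofReal.comp hψ.1.continuous.measurable)

/-- Fubini for the square of an integral operator with a bounded kernel. -/
theorem square (H : ℂ → ℂ → ℂ) (M0 : ℝ) (hH : Measurable (fun p : ℂ × ℂ => H p.1 p.2))
    (hM0 : ∀ y z, ‖H y z‖ ≤ M0) (χ : ℂ → ℝ) (hχm : Measurable χ) (hχ0 : ∀ y, 0 ≤ χ y)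
    (hχi : Integrable χ) (h : ℂ → ℂ) (hh : Nice h) :
    Integrable (fun p : ℂ × ℂ => h p.1 * conj (h p.2) *
      ∫ y, (χ y : ℂ) * (H y p.1 * conj (H y p.2))) ∧
    Integrable (fun y => χ y * ‖∫ z, H y z * h z‖ ^ 2) ∧
    ∫ p : ℂ × ℂ, h p.1 * conj (h p.2) * ∫ y, (χ y : ℂ) * (H y p.1 * conj (H y p.2)) =
      ((∫ y, χ y * ‖∫ z, H y z * h z‖ ^ 2 : ℝ) : ℂ) := by
  obtain ⟨hm, ⟨M, hM⟩, R, hR⟩ := hh
  have hM0' : 0 ≤ M0 := (norm_nonneg _).trans (hM0 0 0)
  have hMn : 0 ≤ M := (norm_nonneg _).trans (hM 0)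
  have hconj : Measurable (fun x : ℂ => conj x) := Complex.continuous_conj.measurable
  -- the ball
  set b : ℂ → ℝ := (Metric.closedBall (0 : ℂ) R).indicator (fun _ => 1) with hb
  have hbi : Integrable b := by
    rw [hb, integrable_indicator_iff Metric.isClosed_closedBall.measurableSet]
    exact integrableOn_const (measure_closedBall_lt_top.ne)
  have hhb : ∀ z, ‖h z‖ ≤ M * b z := by
    intro z
    by_cases hz : R < ‖z‖
    · rw [hR z hz, norm_zero]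
      have : 0 ≤ b z := Set.indicator_nonneg (fun _ _ => zero_le_one) _
      positivity
    · have h1 : b z = 1 := by
        rw [hb, Set.indicator_of_mem]
        rw [mem_closedBall_zero_iff]
        exact not_lt.1 hz
      rw [h1, mul_one]
      exact hM z
  -- the function of three variables
  set Φ : ℂ × (ℂ × ℂ) → ℂ := fun q => (χ q.1 : ℂ) * ((H q.1 q.2.1 * h q.2.1) *
    conj (H q.1 q.2.2 * h q.2.2)) with hΦ
  have hH1 : Measurable (fun q : ℂ × (ℂ × ℂ) => H q.1 q.2.1) :=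
    hH.comp (measurable_fst.prodMk (measurable_fst.comp measurable_snd))
  have hH2 : Measurable (fun q : ℂ × (ℂ × ℂ) => H q.1 q.2.2) :=
    hH.comp (measurable_fst.prodMk (measurable_snd.comp measurable_snd))
  have hh1 : Measurable (fun q : ℂ × (ℂ × ℂ) => h q.2.1) :=
    hm.comp (measurable_fst.comp measurable_snd)
  have hh2 : Measurable (fun q : ℂ × (ℂ × ℂ) => h q.2.2) :=
    hm.comp (measurable_snd.comp measurable_snd)
  have hΦm : Measurable Φ :=
    (Complex.measurable_ofReal.comp (hχm.comp measurable_fst)).mul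
      ((hH1.mul hh1).mul (hconj.comp (hH2.mul hh2)))
  have hΦi : Integrable Φ (volume.prod volume) := by
    have h1 : Integrable (fun q : ℂ × (ℂ × ℂ) => χ q.1 * ((M0 * M) ^ 2 * (b q.2.1 * b q.2.2)))
        (volume.prod volume) :=
      hχi.mul_prod ((hbi.mul_prod hbi).const_mul _)
    refine h1.mono' hΦm.aestronglyMeasurable (Eventually.of_forall fun q => ?_)
    simp only [hΦ]
    rw [norm_mul, norm_mul, RCLike.norm_conj, Complex.norm_real, Real.norm_of_nonneg (hχ0 _),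
      norm_mul, norm_mul]
    have e1 : ‖H q.1 q.2.1‖ * ‖h q.2.1‖ ≤ M0 * (M * b q.2.1) :=
      mul_le_mul (hM0 _ _) (hhb _) (norm_nonneg _) hM0'
    have e2 : ‖H q.1 q.2.2‖ * ‖h q.2.2‖ ≤ M0 * (M * b q.2.2) :=
      mul_le_mul (hM0 _ _) (hhb _) (norm_nonneg _) hM0'
    refine mul_le_mul_of_nonneg_left ?_ (hχ0 _)
    calc _ ≤ (M0 * (M * b q.2.1)) * (M0 * (M * b q.2.2)) :=
          mul_le_mul e1 e2 (by positivity) ((by positivity : (0:ℝ) ≤ _).trans e1)
      _ = _ := by ring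
  -- the inner integrals
  have hin1 : ∀ p : ℂ × ℂ, ∫ y, Φ (y, p) = h p.1 * conj (h p.2) *
      ∫ y, (χ y : ℂ) * (H y p.1 * conj (H y p.2)) := by
    intro p
    rw [← integral_const_mul]
    refine integral_congr_ae (Eventually.of_forall fun y => ?_)
    simp only [hΦ, map_mul]
    ring
  have hin2 : ∀ y : ℂ, ∫ p : ℂ × ℂ, Φ (y, p) = ((χ y * ‖∫ z, H y z * h z‖ ^ 2 : ℝ) : ℂ) := by
    intro y
    simp only [hΦ]
    rw [integral_const_mul]
    have h1 : ∫ p : ℂ × ℂ, (H y p.1 * h p.1) * conj (H y p.2 * h p.2) =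
        (∫ z, H y z * h z) * ∫ z, conj (H y z * h z) :=
      integral_prod_mul (fun z => H y z * h z) (fun z => conj (H y z * h z))
    rw [h1, integral_conj, Complex.mul_conj, Complex.normSq_eq_norm_sq]
    push_cast
    rfl
  have h1 : Integrable (fun p : ℂ × ℂ => ∫ y, Φ (y, p)) := hΦi.integral_prod_right
  have h2 : Integrable (fun y : ℂ => ∫ p : ℂ × ℂ, Φ (y, p)) := hΦi.integral_prod_left
  simp only [hin1] at h1
  simp only [hin2] at h2
  refine ⟨h1, ?_, ?_⟩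
  · have h3 := h2.re
    exact h3
  · have h3 : ∫ y : ℂ, ∫ p : ℂ × ℂ, Φ (y, p) = ∫ p : ℂ × ℂ, ∫ y : ℂ, Φ (y, p) :=
      integral_integral_swap (f := fun y p => Φ (y, p)) hΦi
    simp only [hin1, hin2] at h3
    rw [← h3]
    exact integral_ofReal

theorem nice_pc {cell : ℂ → ℤ × ℤ} (hcell : Measurable cell) {g : ℂ → ℂ} (hg : Nice g)
    (Q : ℤ × ℤ) : Nice (pc cell g Q) := by
  obtain ⟨hm, ⟨M, hM⟩, R, hR⟩ := hg
  have hS : MeasurableSet {z | cell z = Q} := hcell (measurableSet_singleton Q)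
  refine ⟨hm.indicator hS, ⟨M, fun x => ?_⟩, R, fun x hx => ?_⟩
  · unfold pc
    by_cases hx : x ∈ {z | cell z = Q}
    · rw [Set.indicator_of_mem hx]; exact hM x
    · rw [Set.indicator_of_notMem hx, norm_zero]
      exact (norm_nonneg _).trans (hM 0)
  · unfold pc
    by_cases hx' : x ∈ {z | cell z = Q}
    · rw [Set.indicator_of_mem hx']; exact hR x hx
    · rw [Set.indicator_of_notMem hx']

/-- from real integrals to integrals of nonnegative functions -/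
theorem to_lint (χ : ℂ → ℝ) (hχ0 : ∀ y, 0 ≤ χ y) (F : ℂ → ℂ)
    (h : Integrable (fun y => χ y * ‖F y‖ ^ 2)) :
    ∫⁻ y, ENNReal.ofReal (χ y) * ‖F y‖ₑ ^ 2 = ENNReal.ofReal (∫ y, χ y * ‖F y‖ ^ 2) := by
  rw [ofReal_integral_eq_lintegral_ofReal h (Eventually.of_forall fun y =>
    mul_nonneg (hχ0 y) (by positivity))]
  refine lintegral_congr fun y => ?_
  rw [ENNReal.ofReal_mul (hχ0 y), ENNReal.ofReal_pow (norm_nonneg _), ofReal_norm]

/-- DEC: decomposition into cells, pointwise; the same as `S_DEC`, with the second summand outside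
of the sum and of the integral over `y`. -/
def S_DEC2 : Prop := ∀ (n : ℕ) (ψ : ℂ → ℝ) (l D CJ δ : ℝ) (χ : ℂ → ℝ) (cell : ℂ → ℤ × ℤ) (g : ℂ → ℂ),
  1 ≤ n → 0 < l → l ≤ 1 → 1 ≤ D → 0 ≤ CJ → 0 < δ → Measurable χ → (∀ y, 0 ≤ χ y) → (∀ y, l < ‖y‖ → χ y = 0) →
  (∫ y, χ y = 1) → (∃ B, Cut B 1 D ψ) → Measurable cell → Nice g →
  (∀ z z', g z ≠ 0 → g z' ≠ 0 → cell z ≠ cell z' → δ ≤ ‖z - z'‖) →
  (∀ z z' w : ℂ, z ≠ z' →
    ‖∫ y, (χ y : ℂ) * (kk n ψ (w + y - z) * conj (kk n ψ (w + y - z')))‖ ≤ CJ * (‖z - z'‖ ^ 2)⁻¹) →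
  ∀ w : ℂ, ∫⁻ y, ENNReal.ofReal (χ y) * ‖So n ψ g (w + y)‖ₑ ^ 2 ≤
    (∑' Q : ℤ × ℤ, ∫⁻ y, ENNReal.ofReal (χ y) * ‖So n ψ (pc cell g Q) (w + y)‖ₑ ^ 2) +
    ENNReal.ofReal CJ * (∫⁻ z, ∫⁻ z', (if δ ≤ ‖z - z'‖ then
      (Metric.closedBall w (2 * D)).indicator (fun z => ‖g z‖ₑ) z *
      (Metric.closedBall w (2 * D)).indicator (fun z => ‖g z‖ₑ) z' *
        ENNReal.ofReal ((‖z - z'‖ ^ 2)⁻¹) else 0))

theorem t2 : S_DEC2 := by
  classical
  intro n ψ l D CJ δ χ cell g hn hl hl1 hD hCJ hδ hχm hχ0 hχs hχ1 hψ' hcell hg hsep hJ w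
  obtain ⟨B, hψ⟩ := hψ'
  have hconj : Measurable (fun x : ℂ => conj x) := Complex.continuous_conj.measurable
  have hχi : Integrable χ := by
    by_contra hcon
    rw [integral_undef hcon] at hχ1
    exact zero_ne_one hχ1
  set H : ℂ → ℂ → ℂ := fun y z => kk n ψ (w + y - z) with hH
  have hHm : Measurable (fun p : ℂ × ℂ => H p.1 p.2) :=
    (meas_kk hψ).comp ((measurable_const.add measurable_fst).sub measurable_snd)
  have hHb : ∀ y z, ‖H y z‖ ≤ (n : ℝ) / Real.pi := fun y z => norm_kk hn hψ _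
  have hsq := square H _ hHm hHb χ hχm hχ0 hχi
  set J : ℂ → ℂ → ℂ := fun z z' => ∫ y, (χ y : ℂ) * (H y z * conj (H y z')) with hJdef
  obtain ⟨i1, i2, i3⟩ := hsq g hg
  set Ψ : ℂ × ℂ → ℂ := fun p => g p.1 * conj (g p.2) * J p.1 p.2 with hΨ
  have i1' : Integrable Ψ := i1
  -- the cells
  set DQ : ℤ × ℤ → Set (ℂ × ℂ) := fun Q => {p | cell p.1 = Q ∧ cell p.2 = Q} with hDQ
  have hDQm : ∀ Q, MeasurableSet (DQ Q) := fun Q =>
    ((hcell.comp measurable_fst) (measurableSet_singleton Q)).inter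
      ((hcell.comp measurable_snd) (measurableSet_singleton Q))
  have hDQd : Pairwise (Function.onFun Disjoint DQ) := by
    intro Q Q' hne
    refine Set.disjoint_left.2 fun p hp hp' => hne (hp.1.symm.trans hp'.1)
  have hUm : MeasurableSet (⋃ Q, DQ Q) := MeasurableSet.iUnion hDQm
  set aQ : ℤ × ℤ → ℝ := fun Q => ∫ y, χ y * ‖∫ z, H y z * pc cell g Q z‖ ^ 2 with haQ
  have haQ0 : ∀ Q, 0 ≤ aQ Q := fun Q =>
    integral_nonneg fun y => mul_nonneg (hχ0 y) (by positivity)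
  have hQint : ∀ Q, ∫ p in DQ Q, Ψ p = (aQ Q : ℂ) := by
    intro Q
    obtain ⟨-, -, j3⟩ := hsq (pc cell g Q) (nice_pc hcell hg Q)
    rw [← j3, ← integral_indicator (hDQm Q)]
    refine integral_congr_ae (Eventually.of_forall fun p => ?_)
    simp only [hΨ, pc, hDQ]
    by_cases h1 : cell p.1 = Q
    · by_cases h2 : cell p.2 = Q
      · rw [Set.indicator_of_mem (show p ∈ {p : ℂ × ℂ | cell p.1 = Q ∧ cell p.2 = Q} from ⟨h1, h2⟩),
          Set.indicator_of_mem (show p.1 ∈ {z | cell z = Q} from h1),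
          Set.indicator_of_mem (show p.2 ∈ {z | cell z = Q} from h2)]
      · rw [Set.indicator_of_notMem (fun h : p ∈ {p : ℂ × ℂ | cell p.1 = Q ∧ cell p.2 = Q} => h2 h.2),
          Set.indicator_of_notMem (fun h : p.2 ∈ {z | cell z = Q} => h2 h)]
        simp
    · rw [Set.indicator_of_notMem (fun h : p ∈ {p : ℂ × ℂ | cell p.1 = Q ∧ cell p.2 = Q} => h1 h.1),
        Set.indicator_of_notMem (fun h : p.1 ∈ {z | cell z = Q} => h1 h)]
      simp
  have hsum : HasSum (fun Q => (aQ Q : ℂ)) (∫ p in ⋃ Q, DQ Q, Ψ p) := by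
    have := hasSum_integral_iUnion (μ := (volume : Measure (ℂ × ℂ))) hDQm hDQd i1'.integrableOn
    simp only [hQint] at this
    exact this
  have hsumr : HasSum aQ (∫ p in ⋃ Q, DQ Q, Ψ p).re := by
    have := Complex.hasSum_re hsum
    simpa using this
  have htot : (∫ p in ⋃ Q, DQ Q, Ψ p) + (∫ p in (⋃ Q, DQ Q)ᶜ, Ψ p) = ((∫ y, χ y *
      ‖∫ z, H y z * g z‖ ^ 2 : ℝ) : ℂ) := by
    rw [integral_add_compl hUm i1']
    exact i3
  have hle : (∫ y, χ y * ‖∫ z, H y z * g z‖ ^ 2) ≤ (∑' Q, aQ Q) + ‖∫ p in (⋃ Q, DQ Q)ᶜ, Ψ p‖ := by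
    have h1 := congrArg Complex.re htot
    rw [Complex.add_re, Complex.ofReal_re, ← hsumr.tsum_eq] at h1
    rw [← h1]
    have := Complex.re_le_norm (∫ p in (⋃ Q, DQ Q)ᶜ, Ψ p)
    linarith
  -- the parts of the cells
  have hQl : ∀ Q, ∫⁻ y, ENNReal.ofReal (χ y) * ‖So n ψ (pc cell g Q) (w + y)‖ₑ ^ 2 =
      ENNReal.ofReal (aQ Q) := by
    intro Q
    obtain ⟨-, j2, -⟩ := hsq (pc cell g Q) (nice_pc hcell hg Q)
    exact to_lint χ hχ0 _ j2
  have hgl : ∫⁻ y, ENNReal.ofReal (χ y) * ‖So n ψ g (w + y)‖ₑ ^ 2 =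
      ENNReal.ofReal (∫ y, χ y * ‖∫ z, H y z * g z‖ ^ 2) := to_lint χ hχ0 _ i2
  rw [hgl]
  simp only [hQl]
  rw [← ENNReal.ofReal_tsum_of_nonneg haQ0 hsumr.summable]
  refine (ENNReal.ofReal_le_ofReal hle).trans ?_
  rw [ENNReal.ofReal_add (tsum_nonneg haQ0) (norm_nonneg _)]
  refine add_le_add le_rfl ?_
  rw [ofReal_norm]
  refine (enorm_integral_le_lintegral_enorm _).trans ?_
  -- the kernel of the right side
  set K : ℂ × ℂ → ℝ≥0∞ := fun p => (if δ ≤ ‖p.1 - p.2‖ then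
      (Metric.closedBall w (2 * D)).indicator (fun z => ‖g z‖ₑ) p.1 *
      (Metric.closedBall w (2 * D)).indicator (fun z => ‖g z‖ₑ) p.2 *
        ENNReal.ofReal ((‖p.1 - p.2‖ ^ 2)⁻¹) else 0) with hK
  have hKm : Measurable K := by
    have hsub : Measurable (fun p : ℂ × ℂ => ‖p.1 - p.2‖) :=
      (measurable_fst.sub measurable_snd).norm
    have hind : Measurable ((Metric.closedBall w (2 * D)).indicator (fun z => ‖g z‖ₑ)) :=
      hg.1.enorm.indicator Metric.isClosed_closedBall.measurableSet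
    refine Measurable.ite (measurableSet_le measurable_const hsub) ?_ measurable_const
    exact ((hind.comp measurable_fst).mul (hind.comp measurable_snd)).mul
      (ENNReal.measurable_ofReal.comp ((hsub.pow_const 2).inv))
  have hfub : ∫⁻ z, ∫⁻ z', (if δ ≤ ‖z - z'‖ then
      (Metric.closedBall w (2 * D)).indicator (fun z => ‖g z‖ₑ) z *
      (Metric.closedBall w (2 * D)).indicator (fun z => ‖g z‖ₑ) z' *
        ENNReal.ofReal ((‖z - z'‖ ^ 2)⁻¹) else 0) = ∫⁻ p, K p :=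
    (lintegral_prod K hKm.aemeasurable).symm
  rw [hfub, ← lintegral_const_mul _ hKm]
  refine (lintegral_mono_ae ?_).trans (setLIntegral_le_lintegral (⋃ Q, DQ Q)ᶜ _)
  refine (ae_restrict_iff' hUm.compl).2 (Eventually.of_forall fun p hp => ?_)
  have hcp : cell p.1 ≠ cell p.2 := by
    intro h
    apply hp
    exact Set.mem_iUnion.2 ⟨cell p.2, h, rfl⟩
  by_cases hg1 : g p.1 = 0
  · simp [hΨ, hg1]
  by_cases hg2 : g p.2 = 0
  · simp [hΨ, hg2]
  have hdp := hsep p.1 p.2 hg1 hg2 hcp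
  have hne : p.1 ≠ p.2 := by
    intro h
    rw [h, sub_self, norm_zero] at hdp
    linarith
  by_cases hJ0 : J p.1 p.2 = 0
  · simp [hΨ, hJ0]
  -- the points are close to w
  have hex : ∃ y, χ y ≠ 0 ∧ H y p.1 ≠ 0 ∧ H y p.2 ≠ 0 := by
    by_contra hcon
    push Not at hcon
    apply hJ0
    simp only [hJdef]
    rw [show (fun y => (χ y : ℂ) * (H y p.1 * conj (H y p.2))) = fun _ => 0 from ?_]
    · simp
    · funext y
      by_cases e1 : χ y = 0
      · rw [e1]; simp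
      · by_cases e2 : H y p.1 = 0
        · rw [e2]; simp
        · rw [hcon y e1 e2]; simp
  obtain ⟨y, hy0, hy1, hy2⟩ := hex
  have hyl : ‖y‖ ≤ 1 := by
    by_contra h
    exact hy0 (hχs y (by linarith [not_le.1 h]))
  have hmem : ∀ z, H y z ≠ 0 → z ∈ Metric.closedBall w (2 * D) := by
    intro z hz
    rw [mem_closedBall_iff_norm]
    have h1 : ‖w + y - z‖ ≤ D := kk_supp hψ hz
    have h2 : z - w = y - (w + y - z) := by ring
    rw [h2]
    have := norm_sub_le y (w + y - z)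
    linarith
  have hJb := hJ p.1 p.2 w hne
  have hKp : K p = ‖g p.1‖ₑ * ‖g p.2‖ₑ * ENNReal.ofReal ((‖p.1 - p.2‖ ^ 2)⁻¹) := by
    simp only [hK]
    rw [if_pos hdp, Set.indicator_of_mem (hmem _ hy1), Set.indicator_of_mem (hmem _ hy2)]
  rw [hKp]
  have hJe : ‖J p.1 p.2‖ₑ ≤ ENNReal.ofReal CJ * ENNReal.ofReal ((‖p.1 - p.2‖ ^ 2)⁻¹) := by
    rw [← ENNReal.ofReal_mul hCJ, ← ofReal_norm]
    exact ENNReal.ofReal_le_ofReal hJb
  calc ‖Ψ p‖ₑ = ‖g p.1‖ₑ * ‖g p.2‖ₑ * ‖J p.1 p.2‖ₑ := by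
        simp only [hΨ]
        rw [enorm_mul, enorm_mul]
        congr 2
        rw [← ofReal_norm, RCLike.norm_conj, ofReal_norm]
    _ ≤ ‖g p.1‖ₑ * ‖g p.2‖ₑ * (ENNReal.ofReal CJ * ENNReal.ofReal ((‖p.1 - p.2‖ ^ 2)⁻¹)) := by
        gcongr
    _ = _ := by ring


/-- The statement `S_DEC`, where the second summand is inside of the sum and of the integral. -/
theorem t : Pool.Agent.N892.BW.S_DEC := by
  intro n ψ l D CJ δ χ cell g hn hl hl1 hD hCJ hδ hχm hχ0 hχs hχ1 hψ hcell hg hsep hJ w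
  refine (t2 n ψ l D CJ δ χ cell g hn hl hl1 hD hCJ hδ hχm hχ0 hχs hχ1 hψ hcell hg hsep hJ w).trans ?_
  set X : ℝ≥0∞ := ENNReal.ofReal CJ * (∫⁻ z, ∫⁻ z', (if δ ≤ ‖z - z'‖ then
      (Metric.closedBall w (2 * D)).indicator (fun z => ‖g z‖ₑ) z *
      (Metric.closedBall w (2 * D)).indicator (fun z => ‖g z‖ₑ) z' *
        ENNReal.ofReal ((‖z - z'‖ ^ 2)⁻¹) else 0)) with hX
  by_cases hX0 : X = 0
  · rw [hX0, add_zero]
    refine ENNReal.tsum_le_tsum fun Q => lintegral_mono fun y => ?_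
    exact le_add_right le_rfl
  · refine le_top.trans (top_le_iff.1 ?_).ge
    refine le_trans ?_ (ENNReal.le_tsum ((0, 0) : ℤ × ℤ))
    have h1 : (⊤ : ℝ≥0∞) = ∫⁻ _ : ℂ, X := by
      rw [lintegral_const, measure_univ_of_isAddLeftInvariant, ENNReal.mul_top hX0]
    rw [h1]
    refine lintegral_mono fun y => ?_
    exact le_add_left le_rfl

end Pool.Agent.N892.BW.DEC
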