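import Pool.Agent.N892.BW.Stm2
import Pool.Agent.N892.BW.FIN

/-!
Project BW, part 2 (helper892), GAB (helper459): low frequencies are nearly constant
-/

set_option autoImplicit false

open MeasureTheory ENNReal Filter Topology Complex
open scoped ComplexConjugate ContDiff

namespace Pool.Agent.N892.BW.GAB

open Pool.Agent.N892.BW

/-- the smooth cut-off function -/
theorem exists_cut : ∃ θ : ℂ → ℂ, ContDiff ℝ ∞ θ ∧ (∀ ξ, ‖ξ‖ ≤ 1 → θ ξ = 1) ∧
    ∀ ξ, θ ξ ≠ 0 → ‖ξ‖ ≤ 2 := by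
  let f : ContDiffBump (0 : ℂ) := ⟨1, 2, one_pos, one_lt_two⟩
  refine ⟨fun ξ => ((f ξ : ℝ) : ℂ), Complex.ofRealCLM.contDiff.comp f.contDiff, fun ξ h => ?_,
    fun ξ h => ?_⟩
  · have h1 : f ξ = 1 := f.one_of_mem_closedBall (by
      rw [Metric.mem_closedBall, dist_zero_right]
      exact h)
    change ((f ξ : ℝ) : ℂ) = 1
    rw [h1, Complex.ofReal_one]
  · by_contra hc
    apply h
    have h1 : f ξ = 0 := f.zero_of_le_dist (by
      rw [dist_zero_right]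
      exact (not_le.1 hc).le)
    change ((f ξ : ℝ) : ℂ) = 0
    rw [h1, Complex.ofReal_zero]

theorem Fi_scale (θ : ℂ → ℂ) (b : ℝ) (hb : 0 < b) (x : ℂ) :
    Fi (fun ξ => θ (b⁻¹ • ξ)) x = ((b ^ 2 : ℝ) : ℂ) * Fi θ (b • x) := by
  unfold Fi
  have h1 := MeasureTheory.Measure.integral_comp_smul (volume : Measure ℂ)
    (fun η => e2 (b • x) η * θ η) b⁻¹
  rw [Complex.finrank_real_complex] at h1
  have h2 : ∀ ξ : ℂ, e2 (b • x) (b⁻¹ • ξ) = e2 x ξ := by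
    intro ξ
    unfold e2
    congr 3
    rw [Complex.smul_re, Complex.smul_im, Complex.smul_re, Complex.smul_im, smul_eq_mul,
      smul_eq_mul, smul_eq_mul, smul_eq_mul]
    field_simp
  simp only [h2] at h1
  rw [h1]
  have h3 : |((b⁻¹) ^ 2)⁻¹| = b ^ 2 := by
    rw [inv_pow, inv_inv, abs_of_nonneg (by positivity)]
  rw [h3, Complex.real_smul]

/-- the dominating kernel -/
noncomputable def gk (C0 b : ℝ) (x : ℂ) : ℝ≥0∞ :=
  ENNReal.ofReal (b ^ 2 * (16 * C0 * ((1 + ‖b • x‖) ^ 4)⁻¹))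

theorem gk_meas (C0 b : ℝ) : Measurable (gk C0 b) := by
  unfold gk
  fun_prop

theorem gk_int (C0 : ℝ) (hC0 : 0 ≤ C0) (b : ℝ) (hb : 0 < b) :
    ∫⁻ x, gk C0 b x = ENNReal.ofReal (16 * C0 * ∫ x : ℂ, (1 + ‖x‖) ^ (-(4 : ℝ))) := by
  have h1 : Integrable (fun x : ℂ => (1 + ‖x‖) ^ (-(4 : ℝ))) := by
    apply integrable_one_add_norm
    rw [Complex.finrank_real_complex]
    norm_num
  have h2 : ∀ x : ℂ, (1 + ‖x‖) ^ (-(4 : ℝ)) = ((1 + ‖x‖) ^ 4)⁻¹ := by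
    intro x
    rw [Real.rpow_neg (by positivity)]
    congr 1
    exact_mod_cast Real.rpow_natCast (1 + ‖x‖) 4
  have h3 : Integrable (fun x : ℂ => b ^ 2 * (16 * C0 * ((1 + ‖b • x‖) ^ 4)⁻¹)) := by
    have h4 := h1.comp_smul hb.ne'
    simp only [h2] at h4
    exact (h4.const_mul (16 * C0)).const_mul (b ^ 2)
  unfold gk
  rw [← ofReal_integral_eq_lintegral_ofReal h3 (Filter.Eventually.of_forall fun x => by positivity)]
  congr 1
  rw [integral_const_mul, integral_const_mul]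
  have h4 := MeasureTheory.Measure.integral_comp_smul (volume : Measure ℂ)
    (fun x => ((1 + ‖x‖) ^ 4)⁻¹) b
  rw [h4, Complex.finrank_real_complex, abs_of_nonneg (by positivity), smul_eq_mul]
  simp only [h2]
  field_simp

/-- the pointwise bound -/
theorem main_bound (h1 : S_BAS) (h2 : S_CNV) : ∃ C1 : ℝ, 0 ≤ C1 ∧ ∀ b : ℝ, 0 < b →
    ∃ g : ℂ → ℝ≥0∞, Measurable g ∧ ∫⁻ x, g x = ENNReal.ofReal C1 ∧ ∀ h, Bd 0 b h →
      ∀ y : ℂ, ‖y‖ * b ≤ 1 → ∀ x, ‖Fi h (x + y)‖ₑ ≤ ∫⁻ z, g (x - z) * ‖Fi h z‖ₑ := by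
  obtain ⟨θ, hθ1, hθ2, hθ3⟩ := exists_cut
  have hBθ : Bd 0 2 θ := ⟨hθ1, fun ξ hξ => ⟨norm_nonneg _, hθ3 ξ hξ⟩⟩
  obtain ⟨-, hdec, -, -, -⟩ := h1 2 θ hBθ
  obtain ⟨C0, hC0⟩ := hdec 4
  have hC0' : 0 ≤ C0 := le_trans (by positivity) (hC0 0)
  refine ⟨16 * C0 * ∫ x : ℂ, (1 + ‖x‖) ^ (-(4 : ℝ)), ?_, fun b hb =>
    ⟨gk C0 b, gk_meas C0 b, gk_int C0 hC0' b hb, fun h hh y hy x => ?_⟩⟩
  · have h3 : 0 ≤ ∫ x : ℂ, (1 + ‖x‖) ^ (-(4 : ℝ)) := integral_nonneg fun x => by positivity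
    positivity
  have hBb : Bd 0 (2 * b) (fun ξ => θ (b⁻¹ • ξ)) := by
    refine ⟨hθ1.comp (contDiff_id.const_smul b⁻¹), fun ξ hξ => ⟨norm_nonneg _, ?_⟩⟩
    have h3 := hθ3 _ hξ
    rw [norm_smul, norm_inv, Real.norm_of_nonneg hb.le, inv_mul_le_iff₀ hb] at h3
    linarith
  have hBh : Bd 0 (2 * b) h := ⟨hh.1, fun ξ hξ => ⟨norm_nonneg _, by
    have := (hh.2 ξ hξ).2
    linarith⟩⟩
  have hprod : (fun ξ => θ (b⁻¹ • ξ) * h ξ) = h := by
    funext ξ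
    by_cases h0 : h ξ = 0
    · rw [h0, mul_zero]
    · rw [hθ2, one_mul]
      rw [norm_smul, norm_inv, Real.norm_of_nonneg hb.le, inv_mul_le_iff₀ hb]
      have := (hh.2 ξ h0).2
      linarith
  have h3 := (h2 (2 * b) _ h hBb hBh (x + y)).2
  rw [hprod] at h3
  rw [h3]
  refine (enorm_integral_le_lintegral_enorm _).trans (lintegral_mono fun z => ?_)
  rw [enorm_mul]
  refine mul_le_mul_left ?_ _
  rw [Fi_scale θ b hb, enorm_mul]
  unfold gk
  have h4 : ‖Fi θ (b • (x + y - z))‖ ≤ 16 * C0 * ((1 + ‖b • (x - z)‖) ^ 4)⁻¹ := by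
    have h5 := hC0 (b • (x + y - z))
    have h6 : 1 + ‖b • (x - z)‖ ≤ 2 * (1 + ‖b • (x + y - z)‖) := by
      have e1 : b • (x - z) = b • (x + y - z) - b • y := by
        rw [← smul_sub]
        congr 1
        ring
      have h7 : ‖b • (x - z)‖ ≤ ‖b • (x + y - z)‖ + ‖b • y‖ := by
        rw [e1]
        exact norm_sub_le _ _
      have h8 : ‖b • y‖ ≤ 1 := by
        rw [norm_smul, Real.norm_of_nonneg hb.le, mul_comm]
        exact hy
      have h9 := norm_nonneg (b • (x + y - z))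
      linarith
    have h7 : (1 + ‖b • (x - z)‖) ^ 4 ≤ 16 * (1 + ‖b • (x + y - z)‖) ^ 4 := by
      refine (pow_le_pow_left₀ (by positivity) h6 4).trans (le_of_eq ?_)
      ring
    have h8 : 0 < (1 + ‖b • (x - z)‖) ^ 4 := by positivity
    rw [← div_eq_mul_inv, le_div_iff₀ h8]
    calc ‖Fi θ (b • (x + y - z))‖ * (1 + ‖b • (x - z)‖) ^ 4 ≤
        ‖Fi θ (b • (x + y - z))‖ * (16 * (1 + ‖b • (x + y - z)‖) ^ 4) :=
          mul_le_mul_of_nonneg_left h7 (norm_nonneg _)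
      _ = 16 * (‖Fi θ (b • (x + y - z))‖ * (1 + ‖b • (x + y - z)‖) ^ 4) := by ring
      _ ≤ 16 * C0 := by linarith
  have h5 : ‖((b ^ 2 : ℝ) : ℂ)‖ₑ = ENNReal.ofReal (b ^ 2) := by
    rw [← ofReal_norm, Complex.norm_real, Real.norm_of_nonneg (by positivity)]
  rw [h5, ENNReal.ofReal_mul (by positivity), ← ofReal_norm]
  exact mul_le_mul_right (ENNReal.ofReal_le_ofReal h4) _

/-- Young's inequality -/
theorem young (g F : ℂ → ℝ≥0∞) (hg : Measurable g) (hF : Measurable F) (p : ℕ) (hp : 2 ≤ p) :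
    ∫⁻ x, (∫⁻ z, g (x - z) * F z) ^ p ≤ (∫⁻ z, g z) ^ p * ∫⁻ z, F z ^ p := by
  have hp1 : (1 : ℝ) < (p : ℝ) := by exact_mod_cast hp
  have hpq := (Real.HolderConjugate.conjExponent hp1).symm
  have hs : ∀ w, ∫⁻ z, g (w - z) = ∫⁻ z, g z := fun w =>
    lintegral_sub_left_eq_self (μ := (volume : Measure ℂ)) g w
  have hs' : ∀ z, ∫⁻ w, g (w - z) = ∫⁻ w, g w := fun z =>
    lintegral_sub_right_eq_self (μ := (volume : Measure ℂ)) g z
  have h1 : ∀ x, (∫⁻ z, g (x - z) * F z) ^ p ≤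
      (∫⁻ z, g z) ^ ((p : ℝ) - 1) * ∫⁻ z, g (x - z) * F z ^ (p : ℝ) := by
    intro x
    have h2 := Pool.Agent.N892.BW.FIN.hold _ (p : ℝ) hpq (fun z => g (x - z)) F
      (hg.comp (measurable_const.sub measurable_id)) hF
    rw [hs x, ENNReal.rpow_natCast] at h2
    exact h2
  have hmeas2 : Measurable (Function.uncurry fun w z : ℂ => g (w - z) * F z ^ (p : ℝ)) := by
    apply Measurable.mul
    · exact hg.comp (measurable_fst.sub measurable_snd)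
    · exact (hF.comp measurable_snd).pow_const _
  refine (lintegral_mono h1).trans ?_
  rw [lintegral_const_mul _ hmeas2.lintegral_prod_right,
    lintegral_lintegral_swap hmeas2.aemeasurable]
  have h3 : ∀ z, ∫⁻ w, g (w - z) * F z ^ (p : ℝ) = (∫⁻ w, g w) * F z ^ (p : ℝ) := by
    intro z
    have h5 : Measurable fun w => g (w - z) := hg.comp (measurable_id.sub measurable_const)
    rw [lintegral_mul_const _ h5, hs' z]
  simp only [h3]
  rw [lintegral_const_mul _ (hF.pow_const _), ← mul_assoc]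
  simp only [ENNReal.rpow_natCast]
  refine mul_le_mul_left (le_of_eq ?_) _
  have h4 : (∫⁻ z, g z) ^ ((p : ℝ) - 1) * ∫⁻ z, g z =
      (∫⁻ z, g z) ^ ((p : ℝ) - 1) * (∫⁻ z, g z) ^ (1 : ℝ) := by rw [ENNReal.rpow_one]
  rw [h4, ← ENNReal.rpow_add_of_nonneg _ _ (by linarith) zero_le_one, sub_add_cancel,
    ENNReal.rpow_natCast]

theorem t (h1 : S_BAS) (h2 : S_CNV) : Pool.Agent.N892.BW.S_GAB := by
  obtain ⟨C1, hC1, hmain⟩ := main_bound h1 h2
  intro m hm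
  refine ⟨C1 ^ (2 * m - 2), by positivity, ?_⟩
  intro b ρ v h hb hρ hρb hv hh
  obtain ⟨g, hgm, hgint, hg⟩ := hmain b hb
  have hum : Measurable (Fi h) := (h1 b h hh).1.measurable
  have hvm : Measurable v := hv.measurable
  obtain ⟨U, hU⟩ : ∃ U : ℂ → ℝ≥0∞, U = fun x => ∫⁻ z, g (x - z) * ‖Fi h z‖ₑ := ⟨_, rfl⟩
  have hUm : Measurable U := by
    rw [hU]
    have h3 : Measurable (Function.uncurry fun x z : ℂ => g (x - z) * ‖Fi h z‖ₑ) :=
      (hgm.comp (measurable_fst.sub measurable_snd)).mul (hum.comp measurable_snd).enorm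
    exact h3.lintegral_prod_right
  have hUb : ∀ y ∈ Metric.ball (0 : ℂ) ρ, ∀ x, ‖Fi h (x + y)‖ₑ ≤ U x := by
    intro y hy x
    rw [hU]
    refine hg h hh y ?_ x
    rw [Metric.mem_ball, dist_zero_right] at hy
    exact (mul_le_mul_of_nonneg_right hy.le hb.le).trans hρb
  have hYoung : ∫⁻ x, U x ^ (2 * m) ≤ ENNReal.ofReal C1 ^ (2 * m) * Nm m (Fi h) := by
    rw [hU, ← hgint]
    exact young g (fun z => ‖Fi h z‖ₑ) hgm hum.enorm (2 * m) (by omega)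
  -- averaging
  have hB0 : volume (Metric.ball (0 : ℂ) ρ) ≠ 0 := (Metric.measure_ball_pos volume 0 hρ).ne'
  have hBt : volume (Metric.ball (0 : ℂ) ρ) ≠ ⊤ := measure_ball_lt_top.ne
  have hmeas : Measurable (Function.uncurry fun x y : ℂ => ‖v (x + y)‖ₑ ^ 2) :=
    ((hvm.comp (measurable_fst.add measurable_snd)).enorm).pow_const 2
  have havm : Measurable (av ρ fun z => ‖v z‖ₑ ^ 2) := by
    unfold av
    exact (hmeas.lintegral_prod_right (ν := volume.restrict (Metric.ball (0 : ℂ) ρ))).const_mul _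
  have hI : ∀ y ∈ Metric.ball (0 : ℂ) ρ, (∫⁻ x, ‖v x‖ₑ ^ 2 * ‖Fi h x‖ₑ ^ (2 * m - 2)) ≤
      ∫⁻ x, ‖v (x + y)‖ₑ ^ 2 * U x ^ (2 * m - 2) := by
    intro y hy
    rw [← lintegral_add_right_eq_self (fun x => ‖v x‖ₑ ^ 2 * ‖Fi h x‖ₑ ^ (2 * m - 2)) y]
    exact lintegral_mono fun x => mul_le_mul_right (pow_le_pow_left' (hUb y hy x) _) _
  have hA : (∫⁻ x, ‖v x‖ₑ ^ 2 * ‖Fi h x‖ₑ ^ (2 * m - 2)) ≤
      ∫⁻ x, av ρ (fun z => ‖v z‖ₑ ^ 2) x * U x ^ (2 * m - 2) := by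
    have e1 : (∫⁻ x, ‖v x‖ₑ ^ 2 * ‖Fi h x‖ₑ ^ (2 * m - 2)) =
        (volume (Metric.ball (0 : ℂ) ρ))⁻¹ * ∫⁻ _ in Metric.ball (0 : ℂ) ρ,
          (∫⁻ x, ‖v x‖ₑ ^ 2 * ‖Fi h x‖ₑ ^ (2 * m - 2)) := by
      rw [setLIntegral_const, mul_comm _ (volume _), ← mul_assoc,
        ENNReal.inv_mul_cancel hB0 hBt, one_mul]
    rw [e1]
    refine (mul_le_mul_right (setLIntegral_mono' Metric.isOpen_ball.measurableSet hI) _).trans
      (le_of_eq ?_)
    have hm2 : Measurable (Function.uncurry fun y x : ℂ => ‖v (x + y)‖ₑ ^ 2 * U x ^ (2 * m - 2)) :=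
      (((hvm.comp (measurable_snd.add measurable_fst)).enorm).pow_const 2).mul
        ((hUm.comp measurable_snd).pow_const _)
    have hm3 : Measurable (Function.uncurry fun x y : ℂ => ‖v (x + y)‖ₑ ^ 2 * U x ^ (2 * m - 2)) :=
      hmeas.mul ((hUm.comp measurable_fst).pow_const _)
    rw [lintegral_lintegral_swap hm2.aemeasurable,
      ← lintegral_const_mul _
        (hm3.lintegral_prod_right (ν := volume.restrict (Metric.ball (0 : ℂ) ρ)))]
    refine lintegral_congr fun x => ?_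
    have h6 : Measurable fun y => ‖v (x + y)‖ₑ ^ 2 :=
      ((hvm.comp (measurable_const.add measurable_id)).enorm).pow_const 2
    rw [lintegral_mul_const _ h6, ← mul_assoc]
    rfl
  refine hA.trans ?_
  have hm0 : (0 : ℝ) < (m : ℝ) := by positivity
  have hm1 : (1 : ℝ) < (m : ℝ) := by exact_mod_cast hm
  have hpq := Real.HolderConjugate.conjExponent hm1
  have hH := ENNReal.lintegral_mul_le_Lp_mul_Lq (volume : Measure ℂ) hpq
    (f := av ρ fun z => ‖v z‖ₑ ^ 2) (g := fun x => U x ^ (2 * m - 2))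
    havm.aemeasurable (hUm.pow_const _).aemeasurable
  have hce : Real.conjExponent (m : ℝ) = (m : ℝ) / ((m : ℝ) - 1) := rfl
  have e2 : ∀ x, (U x ^ (2 * m - 2)) ^ (Real.conjExponent (m : ℝ)) = U x ^ (2 * m) := by
    intro x
    rw [← ENNReal.rpow_natCast, ← ENNReal.rpow_mul, ← ENNReal.rpow_natCast]
    congr 1
    rw [hce, Nat.cast_sub (by omega)]
    push_cast
    have h6 : (m : ℝ) - 1 ≠ 0 := by linarith
    field_simp
  have e3 : 1 / Real.conjExponent (m : ℝ) = 1 - 1 / (m : ℝ) := by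
    rw [hce]
    field_simp
  have e4 : ∀ x, (av ρ (fun z => ‖v z‖ₑ ^ 2) x) ^ (m : ℝ) = (av ρ (fun z => ‖v z‖ₑ ^ 2) x) ^ m :=
    fun x => ENNReal.rpow_natCast _ _
  simp only [e2, e4] at hH
  rw [e3] at hH
  refine hH.trans ?_
  have hexp : (0 : ℝ) ≤ 1 - 1 / (m : ℝ) := by
    rw [sub_nonneg, div_le_one hm0]
    exact hm1.le
  have h5 : (∫⁻ x, U x ^ (2 * m)) ^ (1 - 1 / (m : ℝ)) ≤
      ENNReal.ofReal (C1 ^ (2 * m - 2)) * Nm m (Fi h) ^ (1 - 1 / (m : ℝ)) := by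
    refine (ENNReal.rpow_le_rpow hYoung hexp).trans ?_
    rw [ENNReal.mul_rpow_of_nonneg _ _ hexp]
    refine mul_le_mul_left (le_of_eq ?_) _
    rw [← ENNReal.rpow_natCast, ← ENNReal.rpow_mul, ENNReal.ofReal_pow hC1,
      ← ENNReal.rpow_natCast]
    congr 1
    rw [Nat.cast_sub (by omega)]
    push_cast
    field_simp
  refine (mul_le_mul_right h5 _).trans (le_of_eq ?_)
  ring

end Pool.Agent.N892.BW.GAB
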