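import Mathlib
import Pool.Agent.N892.BW.Stm2

/-!
Interaction of two windows: assembly (helper329).
-/

set_option autoImplicit false

open MeasureTheory ENNReal Filter Topology Complex
open scoped ComplexConjugate ContDiff

namespace Pool.Agent.N892.BW.GAI

open Pool.Agent.N892.BW

lemma sy_contDiffAt (n : ℕ) (ξ : ℂ) (hξ : ξ ≠ 0) : ContDiffAt ℝ ∞ (sy n) ξ := by
  have h1 : ContDiffAt ℝ ∞ (fun z : ℂ => conj z) ξ := Complex.conjCLE.contDiff.contDiffAt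
  have h2 : ContDiffAt ℝ ∞ (fun z : ℂ => z) ξ := contDiffAt_id
  have h3 : ContDiffAt ℝ ∞ (fun z : ℂ => conj z / z) ξ := by
    have h4 : ContDiffAt ℝ ∞ (fun z : ℂ => z⁻¹) ξ := h2.inv hξ
    have h5 := h1.mul h4
    simpa only [div_eq_mul_inv] using h5
  exact h3.pow n

lemma Tn_bd (n : ℕ) (a b : ℝ) (ha : 0 < a) (h : ℂ → ℂ) (hh : Bd a b h) : Bd 0 b (Tn n h) := by
  obtain ⟨h1, h2⟩ := hh
  refine ⟨?_, ?_⟩
  · rw [contDiff_iff_contDiffAt]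
    intro ξ
    by_cases hξ : ‖ξ‖ < a
    · have h3 : Tn n h =ᶠ[𝓝 ξ] fun _ => 0 := by
        have h4 : ∀ᶠ z in 𝓝 ξ, ‖z‖ < a := (isOpen_lt continuous_norm continuous_const).mem_nhds hξ
        filter_upwards [h4] with z hz
        have h5 : h z = 0 := by
          by_contra hc
          exact absurd (h2 z hc).1 (not_le.mpr hz)
        simp [Tn, h5]
      exact (contDiffAt_const (c := (0 : ℂ))).congr_of_eventuallyEq h3
    · have hξ0 : ξ ≠ 0 := by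
        rintro rfl
        rw [norm_zero] at hξ
        exact hξ ha
      exact (sy_contDiffAt n ξ hξ0).mul h1.contDiffAt
  · intro ξ hξ
    have h3 : h ξ ≠ 0 := by
      intro hc
      exact hξ (by simp [Tn, hc])
    exact ⟨norm_nonneg _, (h2 ξ h3).2⟩

theorem t (h1 : S_BAS) (h2 : S_GAA) (h3 : S_GAB) : S_GAI := by
  intro m τ hm hτ
  set t1 : ℝ := min τ 1 with ht1
  have ht0 : 0 < t1 := lt_min hτ one_pos
  have htτ : t1 ≤ τ := min_le_left _ _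
  have ht1' : t1 ≤ 1 := min_le_right _ _
  have hσ : 0 < t1 / 4 := by positivity
  obtain ⟨C1, hC1, H1⟩ := h2 m (t1 / 4) hm hσ
  obtain ⟨C2, hC2, H2⟩ := h3 m hm
  have hmr : (2 : ℝ) ≤ m := by exact_mod_cast hm
  have hm0 : (0 : ℝ) < m := by linarith
  have hinv : 0 ≤ 1 / (m : ℝ) := by positivity
  have hinv1 : 1 / (m : ℝ) < 1 := by
    rw [div_lt_one hm0]; linarith
  refine ⟨(1 - 1 / (m : ℝ)) * t1 / 2, C2 * C1 ^ (1 / (m : ℝ)), 1, ?_, ?_, ?_⟩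
  · have : 0 < 1 - 1 / (m : ℝ) := by linarith
    positivity
  · positivity
  intro n a b b' h h' hn ha hab hban hb' hb'a hh hh'
  have hn1 : (1 : ℝ) ≤ n := by exact_mod_cast hn
  have hn0 : (0 : ℝ) < n := by linarith
  set ρ : ℝ := (n : ℝ) ^ (t1 / 2) / a with hρ
  have hp1 : (1 : ℝ) ≤ (n : ℝ) ^ (t1 / 2) := Real.one_le_rpow hn1 (by positivity)
  have hρ0 : 0 < ρ := by positivity
  have hρb : ρ * b' ≤ 1 := by
    have e1 : (n : ℝ) ^ (t1 / 2) * b' ≤ (n : ℝ) ^ τ * b' :=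
      mul_le_mul_of_nonneg_right (Real.rpow_le_rpow_of_exponent_le hn1 (by linarith)) hb'.le
    rw [hρ, div_mul_eq_mul_div, div_le_one ha]
    calc (n : ℝ) ^ (t1 / 2) * b' ≤ (n : ℝ) ^ τ * b' := e1
      _ = b' * (n : ℝ) ^ τ := mul_comm _ _
      _ ≤ a := hb'a
  have hcont : Continuous (Fi (Tn n h)) := (h1 b (Tn n h) (Tn_bd n a b ha h hh)).1
  have HB := H2 b' ρ (Fi (Tn n h)) h' hb' hρ0 hρb hcont hh'
  have HA := H1 n a b ρ h hn ha hab hban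
    (by rw [hρ]; exact div_le_div_of_nonneg_right hp1 ha.le)
    (by
      rw [hρ]
      exact div_le_div_of_nonneg_right
        (Real.rpow_le_rpow_of_exponent_le hn1 (by linarith)) ha.le) hh
  have hX : (n : ℝ) ^ (1 + t1 / 4) / (a * ρ) = (n : ℝ) ^ (1 - t1 / 4) := by
    rw [hρ, mul_div_cancel₀ _ ha.ne', ← Real.rpow_sub hn0]
    congr 1
    ring
  rw [hX] at HA
  have hnn : (0 : ℝ) ≤ C1 * ((n : ℝ) ^ (1 - t1 / 4)) ^ (2 * m - 2) := by positivity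
  have HA' : (∫⁻ x, (av ρ (fun z => ‖Fi (Tn n h) z‖ₑ ^ 2) x) ^ m) ^ (1 / (m : ℝ)) ≤
      ENNReal.ofReal (C1 ^ (1 / (m : ℝ)) *
        (n : ℝ) ^ (2 * (1 - 1 / (m : ℝ)) - (1 - 1 / (m : ℝ)) * t1 / 2)) *
        (Nm m (Fi h)) ^ (1 / (m : ℝ)) := by
    refine (ENNReal.rpow_le_rpow HA hinv).trans ?_
    rw [ENNReal.mul_rpow_of_nonneg _ _ hinv, ENNReal.ofReal_rpow_of_nonneg hnn hinv]
    apply le_of_eq
    congr 2
    rw [Real.mul_rpow hC1 (by positivity)]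
    congr 1
    rw [← Real.rpow_natCast, ← Real.rpow_mul hn0.le, ← Real.rpow_mul hn0.le]
    congr 1
    have hc : ((2 * m - 2 : ℕ) : ℝ) = 2 * (m : ℝ) - 2 := by
      rw [Nat.cast_sub (by omega)]
      push_cast
      ring
    rw [hc]
    field_simp
    ring
  calc ∫⁻ x, ‖Fi (Tn n h) x‖ₑ ^ 2 * ‖Fi h' x‖ₑ ^ (2 * m - 2)
      ≤ ENNReal.ofReal C2 * (∫⁻ x, (av ρ (fun z => ‖Fi (Tn n h) z‖ₑ ^ 2) x) ^ m) ^ (1 / (m : ℝ)) *
        (Nm m (Fi h')) ^ (1 - 1 / (m : ℝ)) := HB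
    _ ≤ ENNReal.ofReal C2 * (ENNReal.ofReal (C1 ^ (1 / (m : ℝ)) *
        (n : ℝ) ^ (2 * (1 - 1 / (m : ℝ)) - (1 - 1 / (m : ℝ)) * t1 / 2)) *
        (Nm m (Fi h)) ^ (1 / (m : ℝ))) * (Nm m (Fi h')) ^ (1 - 1 / (m : ℝ)) := by
        gcongr
    _ = _ := by
        rw [mul_assoc C2, ENNReal.ofReal_mul hC2, mul_assoc, mul_assoc, mul_assoc, mul_assoc]

end Pool.Agent.N892.BW.GAI
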