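import Mathlib
import Pool.Agent.N892.BW.StmH
import Pool.Agent.N892.BW.CUX
import Pool.Agent.N892.BW.KER
import Pool.Agent.N892.BW.GAM
import Pool.Agent.N892.BW.ASY

/-!
Final assembly of the second theorem (helper935).
-/

set_option autoImplicit false

open MeasureTheory ENNReal Filter Topology Complex
open scoped ComplexConjugate

namespace Pool.Agent.N892.BW.H2

open Pool.Agent.N892.BW

theorem ga_pos {m : ℕ} (hm : 2 ≤ m) : 0 < GA m := by
  have hm' : (2 : ℝ) ≤ m := by exact_mod_cast hm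
  unfold GA
  have h1 : (0 : ℝ) < 1 / (2 * (m : ℝ)) := by positivity
  have h2 : 1 / (2 * (m : ℝ)) < 1 := by
    rw [div_lt_one (by positivity)]
    linarith
  exact div_pos (Real.Gamma_pos_of_pos h1) (Real.Gamma_pos_of_pos (by linarith))

theorem cn_pos {m : ℕ} (hm : 2 ≤ m) (n : ℕ) : 0 < Cn (2 * m) n := by
  have hm' : (2 : ℝ) ≤ m := by exact_mod_cast hm
  unfold Cn
  refine Finset.prod_pos fun j _ => ?_
  have h1 : (0 : ℝ) < 1 / (2 * (m : ℝ)) := by positivity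
  have h2 : 1 / (2 * (m : ℝ)) < 1 := by
    rw [div_lt_one (by positivity)]
    linarith
  have hj : (0 : ℝ) ≤ j := Nat.cast_nonneg j
  exact div_pos (by linarith) (by linarith)

theorem exists_eps {m : ℕ} (hm : 2 ≤ m) :
    ∃ ε : ℝ, 0 < ε ∧ (1 + ε) ^ 2 * GA m ≤ 2 * (m : ℝ) - 1 := by
  have hG := ga_pos hm
  have hg := GAM.t m hm
  set δ : ℝ := (2 * (m : ℝ) - 1 - GA m) / (3 * GA m) with hδ
  have hδ0 : 0 < δ := div_pos (by linarith) (by positivity)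
  have hδ1 : 3 * δ * GA m = 2 * (m : ℝ) - 1 - GA m := by
    rw [hδ]
    field_simp
  refine ⟨min 1 δ, lt_min one_pos hδ0, ?_⟩
  set ε := min 1 δ with hε
  have h0 : 0 < ε := lt_min one_pos hδ0
  have h1 : ε ≤ 1 := min_le_left _ _
  have h2 : ε ≤ δ := min_le_right _ _
  have h3 : (1 + ε) ^ 2 ≤ 1 + 3 * δ := by nlinarith
  calc (1 + ε) ^ 2 * GA m ≤ (1 + 3 * δ) * GA m := by gcongr
    _ = 2 * (m : ℝ) - 1 := by rw [add_mul, hδ1]; ring

theorem cut_mono {B r s s' : ℝ} {ψ : ℂ → ℝ} (hs : s ≤ s') (h : Cut B r s ψ) : Cut B r s' ψ :=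
  ⟨h.1, h.2.1, fun x hx => ⟨(h.2.2.1 x hx).1, (h.2.2.1 x hx).2.trans hs⟩, h.2.2.2⟩

theorem pow_big {c c' : ℝ} (h : c < c') :
    ∀ᶠ n : ℕ in atTop, 4 * (n : ℝ) ^ c ≤ (n : ℝ) ^ c' := by
  have h1 : Tendsto (fun n : ℕ => (n : ℝ) ^ (c' - c)) atTop atTop :=
    (tendsto_rpow_atTop (sub_pos.2 h)).comp tendsto_natCast_atTop_atTop
  filter_upwards [h1.eventually_ge_atTop 4, eventually_ge_atTop 1] with n hn hn1
  have hn0 : (0 : ℝ) < n := by exact_mod_cast hn1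
  have h2 : (n : ℝ) ^ c' = (n : ℝ) ^ (c' - c) * (n : ℝ) ^ c := by
    rw [← Real.rpow_add hn0]
    congr 1
    ring
  rw [h2]
  have h3 : 0 ≤ (n : ℝ) ^ c := Real.rpow_nonneg hn0.le _
  exact mul_le_mul_of_nonneg_right hn h3

theorem asy_le {m : ℕ} (hm : 2 ≤ m) {ε : ℝ} (hε : 0 < ε) :
    ∀ᶠ n : ℕ in atTop, Cn (2 * m) n ≤ (1 + ε) * AA m n := by
  have h1 : (1 + ε)⁻¹ < 1 := inv_lt_one_of_one_lt₀ (by linarith)
  filter_upwards [(ASY.t m hm).eventually_const_lt h1] with n hn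
  have hC := cn_pos hm n
  rw [lt_div_iff₀ hC] at hn
  have h2 : (1 + ε) * ((1 + ε)⁻¹ * Cn (2 * m) n) ≤ (1 + ε) * AA m n :=
    mul_le_mul_of_nonneg_left hn.le (by linarith)
  rwa [← mul_assoc, mul_inv_cancel₀ (by linarith), one_mul] at h2

theorem t (h : S_H1) : S_H2 := by
  intro m c hm hc0 hc
  set β : ℝ := (m : ℝ) * (m - 1) / ((2 * m + 1) * (3 * m - 1)) with hβ
  obtain ⟨c', hcc', hc'β⟩ := exists_between hc
  obtain ⟨B, hB⟩ := CUX.t
  obtain ⟨ε, hε, hεG⟩ := exists_eps hm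
  obtain ⟨n₀, hn₀⟩ := h m c' B ε hm (hc0.trans hcc') hc'β hε
  obtain ⟨n₁, hn₁⟩ := eventually_atTop.1 ((pow_big hcc').and (asy_le hm hε))
  refine ⟨max (max n₀ n₁) 1, fun n hn f F r hF hr hsep => ?_⟩
  have hnn0 : n₀ ≤ n := (le_max_left _ _).trans ((le_max_left _ _).trans hn)
  have hnn1 : n₁ ≤ n := (le_max_right _ _).trans ((le_max_left _ _).trans hn)
  have hn1 : 1 ≤ n := (le_max_right _ _).trans hn
  obtain ⟨hpow, hasy⟩ := hn₁ n hnn1
  have hn1' : (1 : ℝ) ≤ n := by exact_mod_cast hn1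
  have hnc : (1 : ℝ) ≤ (n : ℝ) ^ c := Real.one_le_rpow hn1' hc0.le
  obtain ⟨ψ, hψ, hψ1⟩ := hB r (r * (n : ℝ) ^ c) hr (by nlinarith)
  have hψ' : Cut B (r / 2) (r / 2 * (n : ℝ) ^ c') ψ := cut_mono (by nlinarith) hψ
  have hmem : MemLp (fun z => f z) (2 * m : ℕ) volume := f.memLp _ _
  obtain ⟨-, hmain⟩ := hn₀ n hnn0 (r / 2) ψ (by positivity) hψ' (fun z => f z) hmem
  have hp : ENNReal.ofReal (2 * (m : ℝ)) = ((2 * m : ℕ) : ℝ≥0∞) := by
    rw [← ENNReal.ofReal_natCast]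
    push_cast
    rfl
  have hpt : ∀ z ∈ F, TT n f z = ∫ w, Kn n (z - w) * (ψ (z - w) : ℂ) * f w := by
    intro z hz
    have hts : z ∉ tsupport f := by
      intro hzt
      obtain ⟨w, hw, hzw⟩ := Metric.mem_closure_iff.1 hzt r hr
      have := (hsep z hz w hw).1
      rw [dist_eq_norm] at hzw
      linarith
    rw [KER.t n hn1 f z hts]
    refine integral_congr_ae (Eventually.of_forall fun w => ?_)
    show Kn n (z - w) * f w = Kn n (z - w) * (ψ (z - w) : ℂ) * f w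
    by_cases hw : f w = 0
    · rw [hw, mul_zero, mul_zero]
    · obtain ⟨h1, h2⟩ := hsep z hz w hw
      rw [hψ1 _ h1 h2, Complex.ofReal_one, mul_one]
  have h1 : eLpNorm (fun z : ℂ => TT n f z) (ENNReal.ofReal (2 * m)) (volume.restrict F) ≤
      eLpNorm (fun z => ∫ w, Kn n (z - w) * (ψ (z - w) : ℂ) * f w) (2 * m : ℕ) volume := by
    rw [hp]
    have h0 : eLpNorm (fun z : ℂ => TT n f z) ((2 * m : ℕ) : ℝ≥0∞) (volume.restrict F) =
        eLpNorm (fun z => ∫ w, Kn n (z - w) * (ψ (z - w) : ℂ) * f w) ((2 * m : ℕ) : ℝ≥0∞)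
          (volume.restrict F) := by
      refine eLpNorm_congr_ae ?_
      exact (ae_restrict_iff' hF).2 (Eventually.of_forall fun z hz => hpt z hz)
    rw [h0]
    exact eLpNorm_mono_measure _ Measure.restrict_le_self
  refine (show eLpNorm (fun z : ℂ => TT n f z) (ENNReal.ofReal (2 * m)) (volume.restrict F) ≤ _
    from h1.trans (hmain.trans ?_))
  rw [hp]
  refine mul_le_mul_left ?_ _
  refine ENNReal.ofReal_le_ofReal ?_
  have h2 : (∏ j ∈ Finset.range n, ((1 - 1 / (2 * (m : ℝ)) + j) / (1 / (2 * (m : ℝ)) + j))) =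
      Cn (2 * m) n := rfl
  rw [h2]
  have hm0 : (0 : ℝ) < m := by
    have : (2 : ℝ) ≤ m := by exact_mod_cast hm
    linarith
  have h3 : (1 : ℝ) - 2 / (2 * (m : ℝ)) = 1 - 1 / (m : ℝ) := by
    field_simp
  rw [h3]
  have h4 : 0 ≤ (n : ℝ) ^ (1 - 1 / (m : ℝ)) := Real.rpow_nonneg (by linarith) _
  calc (1 + ε) * Cn (2 * m) n ≤ (1 + ε) * ((1 + ε) * AA m n) :=
        mul_le_mul_of_nonneg_left hasy (by linarith)
    _ = (n : ℝ) ^ (1 - 1 / (m : ℝ)) * ((1 + ε) ^ 2 * GA m) := by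
        unfold AA
        ring
    _ ≤ (n : ℝ) ^ (1 - 1 / (m : ℝ)) * (2 * (m : ℝ) - 1) :=
        mul_le_mul_of_nonneg_left hεG h4

end Pool.Agent.N892.BW.H2
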