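import Pool.Agent.N892.BW.Stm

/-!
BW/KER, part 1: the Fourier transform of `conj ξ ^ m exp (-π s |ξ|²)`. By helper73.
-/

set_option autoImplicit false

open MeasureTheory Filter Topology Complex
open scoped ComplexConjugate

namespace Pool.Agent.N892.BW.KER

/-- the bracket -/
noncomputable def br (x ξ : ℂ) : ℝ := x.re * ξ.re + x.im * ξ.im

/-- the exponent -/
noncomputable def ph (s : ℝ) (x : ℂ) (α : ℝ) (ξ : ℂ) : ℂ :=
  2 * (Real.pi : ℂ) * I * (br x ξ : ℂ) + (Real.pi : ℂ) * α * conj ξ -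
    ((Real.pi * s * ‖ξ‖ ^ 2 : ℝ) : ℂ)

/-- the integrand -/
noncomputable def Gk (m : ℕ) (s : ℝ) (x : ℂ) (α : ℝ) (ξ : ℂ) : ℂ :=
  conj ξ ^ m * Complex.exp (ph s x α ξ)

theorem nsq (ξ : ℂ) : ‖ξ‖ ^ 2 = ξ.re ^ 2 + ξ.im ^ 2 := by
  rw [Complex.sq_norm, Complex.normSq_apply]
  ring

theorem gauss {s : ℝ} (hs : 0 < s) (x : ℂ) (α : ℝ) :
    ∫ ξ, Complex.exp (ph s x α ξ) = (s : ℂ)⁻¹ *
      Complex.exp (((-(Real.pi * ‖x‖ ^ 2 / s) : ℝ) : ℂ)) *
      Complex.exp ((Real.pi : ℂ) * I * conj x / s * α) := by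
  have hb : 0 < (((Real.pi * s : ℝ) : ℂ)).re := by
    rw [Complex.ofReal_re]
    positivity
  have h1 := GaussianFourier.integral_cexp_neg_mul_sum_add (ι := Fin 2) hb
    ![2 * (Real.pi : ℂ) * I * x.re + Real.pi * α, 2 * (Real.pi : ℂ) * I * x.im - Real.pi * I * α]
  have h2 := Complex.volume_preserving_equiv_pi.integral_comp'
    (fun v : Fin 2 → ℝ => cexp (-((Real.pi * s : ℝ) : ℂ) * ∑ i, (v i : ℂ) ^ 2 + ∑ i,
      ![2 * (Real.pi : ℂ) * I * x.re + Real.pi * α,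
        2 * (Real.pi : ℂ) * I * x.im - Real.pi * I * α] i * v i))
  rw [h1] at h2
  have h3 : ∫ ξ, Complex.exp (ph s x α ξ) = ∫ ξ : ℂ,
      (fun v : Fin 2 → ℝ => cexp (-((Real.pi * s : ℝ) : ℂ) * ∑ i, (v i : ℂ) ^ 2 + ∑ i,
      ![2 * (Real.pi : ℂ) * I * x.re + Real.pi * α,
        2 * (Real.pi : ℂ) * I * x.im - Real.pi * I * α] i * v i))
        (Complex.measurableEquivPi ξ) := by
    refine integral_congr_ae (Eventually.of_forall fun ξ => ?_)
    simp only [ph, br, Fin.sum_univ_two, Complex.measurableEquivPi_apply, Matrix.cons_val_zero,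
      Matrix.cons_val_one, nsq]
    congr 1
    have hc : conj ξ = (ξ.re : ℂ) - ξ.im * I := by
      apply Complex.ext <;> simp
    rw [hc]
    push_cast
    ring
  rw [h3, h2]
  have hπ : (Real.pi : ℂ) ≠ 0 := by exact_mod_cast Real.pi_ne_zero
  have hs0 : (s : ℂ) ≠ 0 := by exact_mod_cast hs.ne'
  have h4 : ((Real.pi : ℂ) / ((Real.pi * s : ℝ) : ℂ)) ^ ((Fintype.card (Fin 2) : ℂ) / 2) =
      (s : ℂ)⁻¹ := by
    rw [Fintype.card_fin]
    push_cast
    rw [div_self (two_ne_zero), Complex.cpow_one]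
    field_simp
  have h5 : (∑ i, (![2 * (Real.pi : ℂ) * I * x.re + Real.pi * α,
        2 * (Real.pi : ℂ) * I * x.im - Real.pi * I * α] : Fin 2 → ℂ) i ^ 2) /
        (4 * ((Real.pi * s : ℝ) : ℂ)) =
      ((-(Real.pi * ‖x‖ ^ 2 / s) : ℝ) : ℂ) + (Real.pi : ℂ) * I * conj x / s * α := by
    simp only [Fin.sum_univ_two, Matrix.cons_val_zero, Matrix.cons_val_one, nsq]
    have hc : conj x = (x.re : ℂ) - x.im * I := by
      apply Complex.ext <;> simp
    rw [hc]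
    push_cast
    field_simp
    ring_nf
    simp only [I_sq]
    ring
  rw [h4, h5, Complex.exp_add]
  ring

theorem norm_exp_ph (s : ℝ) (x : ℂ) (α : ℝ) (ξ : ℂ) :
    ‖Complex.exp (ph s x α ξ)‖ = Real.exp (Real.pi * α * ξ.re - Real.pi * s * ‖ξ‖ ^ 2) := by
  rw [Complex.norm_exp]
  congr 1
  unfold ph
  simp only [Complex.sub_re, Complex.add_re, Complex.ofReal_re, Complex.mul_re, Complex.mul_im,
    Complex.I_re, Complex.I_im, Complex.ofReal_im, Complex.conj_re, Complex.conj_im,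
    Complex.re_ofNat, Complex.im_ofNat]
  ring

theorem poly_bound (k : ℕ) (c σ : ℝ) (hσ : 0 < σ) : ∃ K : ℝ, 0 ≤ K ∧ ∀ t : ℝ, 0 ≤ t →
    t ^ k * Real.exp (c * t - σ * t ^ 2) ≤ K * Real.exp (-(σ / 2) * t ^ 2) := by
  refine ⟨k.factorial * Real.exp ((c + 1) ^ 2 / (2 * σ)), by positivity, fun t ht => ?_⟩
  have h1 : t ^ k ≤ k.factorial * Real.exp t := by
    have h2 := Real.pow_div_factorial_le_exp t ht k
    rw [div_le_iff₀ (by positivity)] at h2
    linarith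
  have h3 : Real.exp t * Real.exp (c * t - σ * t ^ 2) ≤
      Real.exp ((c + 1) ^ 2 / (2 * σ)) * Real.exp (-(σ / 2) * t ^ 2) := by
    rw [← Real.exp_add, ← Real.exp_add, Real.exp_le_exp]
    have h4 : (c + 1) * t ≤ (c + 1) ^ 2 / (2 * σ) + σ / 2 * t ^ 2 := by
      have h5 : (c + 1) ^ 2 / (2 * σ) + σ / 2 * t ^ 2 - (c + 1) * t =
          (c + 1 - σ * t) ^ 2 / (2 * σ) := by
        field_simp
        ring
      have h6 : 0 ≤ (c + 1 - σ * t) ^ 2 / (2 * σ) := by positivity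
      linarith
    linarith
  calc t ^ k * Real.exp (c * t - σ * t ^ 2)
      ≤ (k.factorial * Real.exp t) * Real.exp (c * t - σ * t ^ 2) :=
        mul_le_mul_of_nonneg_right h1 (Real.exp_pos _).le
    _ = k.factorial * (Real.exp t * Real.exp (c * t - σ * t ^ 2)) := by ring
    _ ≤ k.factorial * (Real.exp ((c + 1) ^ 2 / (2 * σ)) * Real.exp (-(σ / 2) * t ^ 2)) :=
        mul_le_mul_of_nonneg_left h3 (by positivity)
    _ = _ := by ring

theorem int_gauss {c : ℝ} (hc : 0 < c) : Integrable (fun ξ : ℂ => Real.exp (-c * ‖ξ‖ ^ 2)) := by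
  have h1 := (GaussianFourier.integrable_cexp_neg_mul_sq_norm_add (V := ℂ) (b := (c : ℂ))
    (by rw [Complex.ofReal_re]; exact hc) 0 0).norm
  refine h1.congr (Eventually.of_forall fun ξ => ?_)
  simp only [inner_zero_left, Complex.norm_exp]
  congr 1
  simp [← Complex.ofReal_pow]

theorem Gk_bound (m : ℕ) {s : ℝ} (hs : 0 < s) (x : ℂ) (A : ℝ) : ∃ K : ℝ, 0 ≤ K ∧
    ∀ (α : ℝ), |α| ≤ A → ∀ ξ, ‖Gk m s x α ξ‖ ≤ K * Real.exp (-(Real.pi * s / 2) * ‖ξ‖ ^ 2) := by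
  obtain ⟨K, hK, H⟩ := poly_bound m (Real.pi * A) (Real.pi * s) (by positivity)
  refine ⟨K, hK, fun α hα ξ => ?_⟩
  refine le_trans ?_ (H ‖ξ‖ (norm_nonneg _))
  unfold Gk
  rw [norm_mul, norm_pow, Complex.norm_conj, norm_exp_ph]
  refine mul_le_mul_of_nonneg_left ?_ (by positivity)
  rw [Real.exp_le_exp]
  have h1 : α * ξ.re ≤ A * ‖ξ‖ := by
    calc α * ξ.re ≤ |α * ξ.re| := le_abs_self _
      _ = |α| * |ξ.re| := abs_mul _ _
      _ ≤ A * ‖ξ‖ := mul_le_mul hα (Complex.abs_re_le_norm ξ) (abs_nonneg _)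
          ((abs_nonneg _).trans hα)
  have h2 := mul_le_mul_of_nonneg_left h1 Real.pi_pos.le
  linarith

theorem Gk_cont (m : ℕ) (s : ℝ) (x : ℂ) (α : ℝ) : Continuous (Gk m s x α) := by
  unfold Gk ph br
  fun_prop

theorem Gk_int (m : ℕ) {s : ℝ} (hs : 0 < s) (x : ℂ) (α : ℝ) : Integrable (Gk m s x α) := by
  obtain ⟨K, -, H⟩ := Gk_bound m hs x |α|
  refine Integrable.mono' ((int_gauss (c := Real.pi * s / 2) (by positivity)).const_mul K)
    (Gk_cont m s x α).aestronglyMeasurable (Eventually.of_forall fun ξ => ?_)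
  exact H α le_rfl ξ

theorem Gk_deriv (m : ℕ) {s : ℝ} (hs : 0 < s) (x : ℂ) (α : ℝ) :
    HasDerivAt (fun α : ℝ => ∫ ξ, Gk m s x α ξ) ((Real.pi : ℂ) * ∫ ξ, Gk (m + 1) s x α ξ) α := by
  obtain ⟨K, hK, H⟩ := Gk_bound (m + 1) hs x (|α| + 1)
  have key := hasDerivAt_integral_of_dominated_loc_of_deriv_le (μ := volume)
    (F := fun (α : ℝ) ξ => Gk m s x α ξ) (F' := fun (α : ℝ) ξ => (Real.pi : ℂ) * Gk (m + 1) s x α ξ)
    (x₀ := α) (s := Metric.ball α 1)
    (bound := fun ξ => Real.pi * (K * Real.exp (-(Real.pi * s / 2) * ‖ξ‖ ^ 2)))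
    (Metric.ball_mem_nhds α one_pos)
    (Eventually.of_forall fun β => (Gk_cont m s x β).aestronglyMeasurable)
    (Gk_int m hs x α) ((Gk_cont (m + 1) s x α).const_mul _).aestronglyMeasurable
    (Eventually.of_forall fun ξ β hβ => ?_)
    (((int_gauss (c := Real.pi * s / 2) (by positivity)).const_mul K).const_mul Real.pi)
    (Eventually.of_forall fun ξ β _ => ?_)
  · have h1 := key.2
    rw [integral_const_mul] at h1
    exact h1
  · rw [norm_mul, Complex.norm_real, Real.norm_eq_abs, abs_of_pos Real.pi_pos]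
    refine mul_le_mul_of_nonneg_left (H β ?_ ξ) Real.pi_pos.le
    rw [Metric.mem_ball, Real.dist_eq] at hβ
    have h2 : |β| ≤ |β - α| + |α| := by
      have := abs_add_le (β - α) α
      rwa [sub_add_cancel] at this
    linarith
  · have h1 : HasDerivAt (fun β : ℝ => ph s x β ξ) ((Real.pi : ℂ) * conj ξ) β := by
      unfold ph
      have h2 : HasDerivAt (fun β : ℝ => (β : ℂ)) 1 β := Complex.ofRealCLM.hasDerivAt
      have h3 := ((h2.const_mul (Real.pi : ℂ)).mul_const (conj ξ)).const_add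
        (2 * (Real.pi : ℂ) * I * (br x ξ : ℂ))
      have h4 := h3.sub_const (((Real.pi * s * ‖ξ‖ ^ 2 : ℝ) : ℂ))
      rw [mul_one] at h4
      exact h4
    have h5 := (h1.cexp).const_mul (conj ξ ^ m)
    unfold Gk
    refine h5.congr_deriv ?_
    rw [pow_succ]
    ring

/-- **Hecke** -/
theorem hecke_aux {s : ℝ} (hs : 0 < s) (x : ℂ) (m : ℕ) (α : ℝ) :
    ∫ ξ, Gk m s x α ξ = (I * conj x / s) ^ m * ((s : ℂ)⁻¹ *
      Complex.exp (((-(Real.pi * ‖x‖ ^ 2 / s) : ℝ) : ℂ)) *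
      Complex.exp ((Real.pi : ℂ) * I * conj x / s * α)) := by
  induction m generalizing α with
  | zero =>
    rw [pow_zero, one_mul, ← gauss hs]
    unfold Gk
    simp only [pow_zero, one_mul]
  | succ m ih =>
    have h1 := Gk_deriv m hs x α
    have h2 : HasDerivAt (fun α : ℝ => ∫ ξ, Gk m s x α ξ)
        ((I * conj x / s) ^ m * ((s : ℂ)⁻¹ *
          Complex.exp (((-(Real.pi * ‖x‖ ^ 2 / s) : ℝ) : ℂ)) *
          (Complex.exp ((Real.pi : ℂ) * I * conj x / s * α) * ((Real.pi : ℂ) * I * conj x / s))))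
        α := by
      have h3 : (fun α : ℝ => ∫ ξ, Gk m s x α ξ) = fun α : ℝ => (I * conj x / s) ^ m *
          ((s : ℂ)⁻¹ * Complex.exp (((-(Real.pi * ‖x‖ ^ 2 / s) : ℝ) : ℂ)) *
          Complex.exp ((Real.pi : ℂ) * I * conj x / s * α)) := funext ih
      rw [h3]
      have h4 : HasDerivAt (fun β : ℝ => (β : ℂ)) 1 α := Complex.ofRealCLM.hasDerivAt
      have h5 := ((h4.const_mul ((Real.pi : ℂ) * I * conj x / s)).cexp.const_mul
        ((s : ℂ)⁻¹ * Complex.exp (((-(Real.pi * ‖x‖ ^ 2 / s) : ℝ) : ℂ)))).const_mul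
        ((I * conj x / s) ^ m)
      rw [mul_one] at h5
      exact h5
    have h6 := h1.unique h2
    have hπ : (Real.pi : ℂ) ≠ 0 := by exact_mod_cast Real.pi_ne_zero
    refine mul_left_cancel₀ hπ (h6.trans ?_)
    rw [pow_succ]
    ring

/-- the Fourier transform of `conj ξ ^ m exp (-π s |ξ|²)` -/
theorem hecke {s : ℝ} (hs : 0 < s) (x : ℂ) (m : ℕ) :
    ∫ ξ : ℂ, Complex.exp (2 * (Real.pi : ℂ) * I * (br x ξ : ℂ)) *
      (conj ξ ^ m * ((Real.exp (-(Real.pi * s * ‖ξ‖ ^ 2)) : ℝ) : ℂ)) =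
      (I * conj x / s) ^ m * ((s : ℂ)⁻¹ * ((Real.exp (-(Real.pi * ‖x‖ ^ 2 / s)) : ℝ) : ℂ)) := by
  have h1 := hecke_aux hs x m 0
  rw [Complex.ofReal_zero, mul_zero, Complex.exp_zero, mul_one] at h1
  rw [Complex.ofReal_exp, ← h1]
  refine integral_congr_ae (Eventually.of_forall fun ξ => ?_)
  simp only [Gk, ph, Complex.ofReal_zero, mul_zero, zero_mul, add_zero]
  rw [Complex.exp_sub, Complex.ofReal_exp, Complex.ofReal_neg, Complex.exp_neg]
  field_simp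

end Pool.Agent.N892.BW.KER
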