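import Mathlib
import Pool.Agent.N892.BW.ALL
import Pool.Agent.Y282.RB.N

/-!
Corollaries for the final statements.
-/

set_option autoImplicit false

open MeasureTheory Filter Topology

namespace Pool.Agent.N892.BW.KLE

open Pool.Agent.N892.BW

/-- the constant of the question is at most `n ^ (1 - 2/p) (p - 1)` -/
lemma kle {n : ℕ} {p : ℝ} (hn : 1 ≤ n) (hp : 2 ≤ p) :
    ∏ j ∈ Finset.range n, ((1 - 1 / p + j) / (1 / p + j)) ≤ (n : ℝ) ^ (1 - 2 / p) * (p - 1) := by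
  have h := Pool.Agent.Y282.RB.N.main n p hn hp
  have e : ∏ j ∈ Finset.range n, ((1 - 1 / p + (j : ℝ)) / (1 / p + j)) = Pool.Agent.Y282.RB.Cn p n := by
    unfold Pool.Agent.Y282.RB.Cn
    refine Finset.prod_congr rfl fun j _ => ?_
    congr 1 <;> ring
  rw [e]
  exact h

/-- `exp (log(2)^2 / 8) < 1.062` -/
lemma num : Real.exp (Real.log 2 ^ 2 / 8) < 531 / 500 := by
  have h2 : Real.log 2 < 0.6931471808 := Real.log_two_lt_d9
  have h0 : 0 < Real.log 2 := Real.log_pos (by norm_num)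
  have h3 : Real.log 2 ^ 2 / 8 ≤ 0.06006 := by nlinarith
  have h4 : Real.exp (Real.log 2 ^ 2 / 8) ≤ Real.exp 0.06006 := Real.exp_le_exp.2 h3
  have h5 : Real.exp (0.06006 : ℝ) < 531 / 500 := by
    have := Real.exp_bound' (x := (0.06006 : ℝ)) (by norm_num) (by norm_num) (n := 4) (by norm_num)
    refine lt_of_le_of_lt this ?_
    norm_num [Finset.sum_range_succ, Nat.factorial]
  linarith

/-- all real exponents, factor `1.062` -/
theorem allp (p : ℝ) (hp : 2 ≤ p) : ∃ n₀ : ℕ, ∀ n : ℕ, n₀ ≤ n → ∀ f : SchwartzMap ℂ ℂ,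
    eLpNorm (TS n f) (ENNReal.ofReal p) volume ≤
      ENNReal.ofReal (1.062 * ((n : ℝ) ^ (1 - 2 / p) * (p - 1))) *
        eLpNorm (fun z : ℂ => f z) (ENNReal.ofReal p) volume := by
  set E : ℝ := Real.exp (Real.log (1 + 1 / (⌊p / 2⌋₊ : ℝ)) ^ 2 / 8) with hE
  have hfl : 1 ≤ ⌊p / 2⌋₊ := by
    rw [Nat.one_le_floor_iff]
    linarith
  have hfl' : (1 : ℝ) ≤ (⌊p / 2⌋₊ : ℝ) := by exact_mod_cast hfl
  have hE1 : E ≤ Real.exp (Real.log 2 ^ 2 / 8) := by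
    rw [hE]
    apply Real.exp_le_exp.2
    have h1 : 1 / (⌊p / 2⌋₊ : ℝ) ≤ 1 := by
      rw [div_le_one (by linarith)]; exact hfl'
    have h2 : 0 ≤ 1 / (⌊p / 2⌋₊ : ℝ) := by positivity
    have h3 : Real.log (1 + 1 / (⌊p / 2⌋₊ : ℝ)) ≤ Real.log 2 :=
      Real.log_le_log (by linarith) (by linarith)
    have h4 : 0 ≤ Real.log (1 + 1 / (⌊p / 2⌋₊ : ℝ)) := Real.log_nonneg (by linarith)
    have h5 : Real.log (1 + 1 / (⌊p / 2⌋₊ : ℝ)) ^ 2 ≤ Real.log 2 ^ 2 := by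
      apply pow_le_pow_left₀ h4 h3
    linarith
  have hE2 : E < 531 / 500 := lt_of_le_of_lt hE1 num
  have hE0 : 0 < E := Real.exp_pos _
  obtain ⟨ε, hε⟩ : ∃ ε : ℝ, ε = 531 / 500 / E - 1 := ⟨_, rfl⟩
  have hε0 : 0 < ε := by
    rw [hε, sub_pos, lt_div_iff₀ hE0]; linarith
  obtain ⟨n₀, hn₀⟩ := ALL.rea p ε hp hε0
  refine ⟨max n₀ 1, fun n hn f => ?_⟩
  refine (hn₀ n ((le_max_left _ _).trans hn) f).trans
    (mul_le_mul' (ENNReal.ofReal_le_ofReal ?_) le_rfl)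
  have e1 : (1 + ε) * E = 531 / 500 := by
    rw [hε]
    field_simp
    ring
  rw [← hE, e1]
  have h6 := kle (n := n) (p := p) ((le_max_right _ _).trans hn) hp
  have : (531 / 500 : ℝ) = 1.062 := by norm_num
  rw [this]
  exact mul_le_mul_of_nonneg_left h6 (by norm_num)

end Pool.Agent.N892.BW.KLE
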