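import Mathlib
import Pool.Agent.N892.BW.KLE

/-!
Real exponents `p ≥ 4`, factor `1.007`.
-/

set_option autoImplicit false

open MeasureTheory Filter Topology

namespace Pool.Agent.N892.BW.KLF

open Pool.Agent.N892.BW

lemma P_low {u : ℝ} (h1 : 23 / 43 ≤ u) (h2 : u ≤ 7 / 11) : 138 / 10000 ≤ NUI.P u := by
  have h3 : 3786 / 10000 ≤ u - u ^ 3 := by
    have e : u - u ^ 3 - ((7 / 11 : ℝ) - (7 / 11) ^ 3) =
        (7 / 11 - u) * (u ^ 2 + u * (7 / 11) + (7 / 11) ^ 2 - 1) := by ring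
    rcases le_total 0 (u ^ 2 + u * (7 / 11) + (7 / 11) ^ 2 - 1) with h | h
    · have := mul_nonneg (show 0 ≤ 7 / 11 - u by linarith) h
      norm_num at e this ⊢
      linarith
    · have e' : u - u ^ 3 - ((23 / 43 : ℝ) - (23 / 43) ^ 3) =
          (u - 23 / 43) * (1 - (u ^ 2 + u * (23 / 43) + (23 / 43) ^ 2)) := by ring
      have h5 : 0 ≤ 1 - (u ^ 2 + u * (23 / 43) + (23 / 43) ^ 2) := by nlinarith
      have := mul_nonneg (show 0 ≤ u - 23 / 43 by linarith) h5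
      norm_num at e' this ⊢
      linarith
  have h5 : u - u ^ 5 = (u - u ^ 3) * (1 + u ^ 2) := by ring
  have h6 : (3786 / 10000 : ℝ) * (1 + (23 / 43) ^ 2) ≤ u - u ^ 5 := by
    rw [h5]
    gcongr
  unfold NUI.P
  norm_num at h6 ⊢
  linarith

/-- `4.3 ≤ p ≤ 5.5`, factor `1.007` -/
theorem mid (p : ℝ) (h1 : 43 / 10 ≤ p) (h2 : p ≤ 11 / 2) : ∃ n₀ : ℕ, ∀ n : ℕ, n₀ ≤ n →
    ∀ f : SchwartzMap ℂ ℂ,
    eLpNorm (TS n f) (ENNReal.ofReal p) volume ≤
      ENNReal.ofReal (1.007 * ((n : ℝ) ^ (1 - 2 / p) * (p - 1))) *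
        eLpNorm (fun z : ℂ => f z) (ENNReal.ofReal p) volume := by
  have hp0 : 0 < p := by linarith
  have hfl : ⌊p / 2⌋₊ = 2 := by
    rw [Nat.floor_eq_iff (by linarith)]
    constructor <;> push_cast <;> linarith
  have hs0 : 0 < 1 / p := by positivity
  have hs1 : 1 / p < 1 / 2 := by
    rw [div_lt_div_iff₀ hp0 (by norm_num)]; linarith
  have hu1 : 23 / 43 ≤ 1 - 2 / p := by
    have : 2 / p ≤ 20 / 43 := by
      rw [div_le_div_iff₀ hp0 (by norm_num)]; linarith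
    linarith
  have hu2 : 1 - 2 / p ≤ 7 / 11 := by
    have : 4 / 11 ≤ 2 / p := by
      rw [div_le_div_iff₀ (by norm_num) hp0]; linarith
    linarith
  have hP := P_low hu1 hu2
  have hG := NUI.gs_le_exp hs0 hs1
  have e0 : (1 - 1 / p) / (1 / p) = p - 1 := by field_simp
  have e1 : 1 - 2 * (1 / p) = 1 - 2 / p := by ring
  rw [e0, e1] at hG
  have hGpos : 0 < Gs (1 / p) := by
    unfold Gs
    exact div_pos (Real.Gamma_pos_of_pos hs0) (Real.Gamma_pos_of_pos (by linarith))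
  set E : ℝ := Real.exp (Real.log (3 / 2) ^ 2 / 8) with hE
  have hE0 : 0 < E := Real.exp_pos _
  -- the numerical inequality
  have hnum : E * Gs (1 / p) < 1.007 * (p - 1) := by
    have hpp : 0 < p - 1 := by linarith
    calc E * Gs (1 / p) ≤ E * ((p - 1) * Real.exp (-NUI.P (1 - 2 / p))) := by gcongr
      _ = (p - 1) * Real.exp (Real.log (3 / 2) ^ 2 / 8 - NUI.P (1 - 2 / p)) := by
          have e : Real.exp (Real.log (3 / 2) ^ 2 / 8 - NUI.P (1 - 2 / p)) =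
              E * Real.exp (-NUI.P (1 - 2 / p)) := by
            rw [hE, ← Real.exp_add]
            congr 1
          rw [e]; ring
      _ ≤ (p - 1) * Real.exp (0.00676) := by
          gcongr
          have h3 := NUI.log32_hi
          have h4 : 0 < Real.log (3 / 2) := Real.log_pos (by norm_num)
          nlinarith
      _ < (p - 1) * 1.007 := by
          gcongr
          have := Real.exp_bound' (x := (0.00676 : ℝ)) (by norm_num) (by norm_num) (n := 3) (by norm_num)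
          refine lt_of_le_of_lt this ?_
          norm_num [Finset.sum_range_succ, Nat.factorial]
      _ = 1.007 * (p - 1) := by ring
  obtain ⟨r, hr⟩ : ∃ r : ℝ, r = 1.007 * (p - 1) / (E * Gs (1 / p)) := ⟨_, rfl⟩
  have hEG : 0 < E * Gs (1 / p) := mul_pos hE0 hGpos
  have hr1 : 1 < r := by
    rw [hr, lt_div_iff₀ hEG]
    linarith
  obtain ⟨ε, hε⟩ : ∃ ε : ℝ, ε = min ((r - 1) / 3) 1 := ⟨_, rfl⟩
  have hε0 : 0 < ε := by
    rw [hε]; exact lt_min (by linarith) one_pos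
  have hε3 : ε ≤ (r - 1) / 3 := by rw [hε]; exact min_le_left _ _
  have hε4 : ε ≤ 1 := by rw [hε]; exact min_le_right _ _
  obtain ⟨n₁, hn₁⟩ := ALL.rea p ε (by linarith) hε0
  have hlim := ALL.asr (1 / p) hs0 (by linarith)
  have hev : ∀ᶠ n : ℕ in atTop, (1 + ε)⁻¹ <
      (n : ℝ) ^ (1 - 2 * (1 / p)) * Gs (1 / p) / Qn n (1 / p) :=
    hlim.eventually (lt_mem_nhds (inv_lt_one_of_one_lt₀ (by linarith)))
  obtain ⟨n₂, hn₂⟩ := hev.exists_forall_of_atTop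
  refine ⟨max n₁ n₂, fun n hn f => ?_⟩
  refine (hn₁ n ((le_max_left _ _).trans hn) f).trans
    (mul_le_mul' (ENNReal.ofReal_le_ofReal ?_) le_rfl)
  have hQ : 0 < Qn n (1 / p) := by
    unfold Qn
    refine Finset.prod_pos fun j _ => ?_
    have h3 : (0 : ℝ) ≤ (j : ℝ) := Nat.cast_nonneg j
    apply div_pos <;> linarith
  have h5 := hn₂ n ((le_max_right _ _).trans hn)
  rw [lt_div_iff₀ hQ, inv_mul_lt_iff₀ (by linarith), e1] at h5
  have e2 : (∏ j ∈ Finset.range n, ((1 - 1 / p + j) / (1 / p + j))) = Qn n (1 / p) := rfl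
  have e3 : (1 : ℝ) + 1 / ((2 : ℕ) : ℝ) = 3 / 2 := by norm_num
  rw [hfl, e3, e2, ← hE]
  have hnn : 0 ≤ (n : ℝ) ^ (1 - 2 / p) := Real.rpow_nonneg (Nat.cast_nonneg n) _
  calc (1 + ε) * E * Qn n (1 / p)
      ≤ (1 + ε) * E * ((1 + ε) * ((n : ℝ) ^ (1 - 2 / p) * Gs (1 / p))) := by gcongr
    _ = (n : ℝ) ^ (1 - 2 / p) * (((1 + ε) * (1 + ε)) * (E * Gs (1 / p))) := by ring
    _ ≤ (n : ℝ) ^ (1 - 2 / p) * (r * (E * Gs (1 / p))) := by
        refine mul_le_mul_of_nonneg_left ?_ hnn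
        refine mul_le_mul_of_nonneg_right ?_ hEG.le
        nlinarith
    _ = 1.007 * ((n : ℝ) ^ (1 - 2 / p) * (p - 1)) := by
        rw [hr, div_mul_cancel₀ _ hEG.ne']
        ring

/-- `4 ≤ p`, factor `1.007` -/
theorem four (p : ℝ) (hp : 4 ≤ p) : ∃ n₀ : ℕ, ∀ n : ℕ, n₀ ≤ n → ∀ f : SchwartzMap ℂ ℂ,
    eLpNorm (TS n f) (ENNReal.ofReal p) volume ≤
      ENNReal.ofReal (1.007 * ((n : ℝ) ^ (1 - 2 / p) * (p - 1))) *
        eLpNorm (fun z : ℂ => f z) (ENNReal.ofReal p) volume := by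
  have key : ((77 / 20 ≤ p ∧ p ≤ 43 / 10) ∨ 11 / 2 ≤ p) → ∃ n₀ : ℕ, ∀ n : ℕ, n₀ ≤ n →
      ∀ f : SchwartzMap ℂ ℂ, eLpNorm (TS n f) (ENNReal.ofReal p) volume ≤
      ENNReal.ofReal (1.007 * ((n : ℝ) ^ (1 - 2 / p) * (p - 1))) *
        eLpNorm (fun z : ℂ => f z) (ENNReal.ofReal p) volume := by
    intro h
    obtain ⟨n₀, h0⟩ := ALL.reb p h
    refine ⟨n₀, fun n hn f => (h0 n hn f).trans
      (mul_le_mul' (ENNReal.ofReal_le_ofReal ?_) le_rfl)⟩
    have : 0 ≤ (n : ℝ) ^ (1 - 2 / p) * (p - 1) :=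
      mul_nonneg (Real.rpow_nonneg (Nat.cast_nonneg n) _) (by linarith)
    linarith
  rcases le_total p (43 / 10) with h | h
  · exact key (Or.inl ⟨by linarith, h⟩)
  · rcases le_total p (11 / 2) with h' | h'
    · exact mid p h h'
    · exact key (Or.inr h')

end Pool.Agent.N892.BW.KLF
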