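import Mathlib
import Pool.Agent.N892.BW.KLF

/-!
Real exponents `2 ≤ p ≤ 4`, factor `1.033`.
-/

set_option autoImplicit false

open MeasureTheory Filter Topology

namespace Pool.Agent.N892.BW.KLG

open Pool.Agent.N892.BW

/-- interpolation between `2 m` and `2 m + 2`, with a general constant -/
theorem gen (p B : ℝ) (hp0 : 0 < p) (m : ℕ) (θ : ℝ) (hm : 1 ≤ m) (hθ0 : 0 ≤ θ) (hθ1 : θ ≤ 1)
    (he : 1 / p = (1 - θ) / (2 * m) + θ / (2 * (m + 1)))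
    (hG : GA m ^ (1 - θ) * GA (m + 1) ^ θ < B) :
    ∃ n₀ : ℕ, ∀ n : ℕ, n₀ ≤ n → ∀ f : SchwartzMap ℂ ℂ,
      eLpNorm (TS n f) (ENNReal.ofReal p) volume ≤
        ENNReal.ofReal ((n : ℝ) ^ (1 - 2 / p) * B) *
          eLpNorm (fun z : ℂ => f z) (ENNReal.ofReal p) volume := by
  have h1 := ALL.ful
  have h2 := ALL.plz
  have h3 := ALL.rtt
  have hm0 : (1 : ℝ) ≤ m := by exact_mod_cast hm
  have hGa : 0 < GA m := REB.GA_pos hm
  have hGb : 0 < GA (m + 1) := REB.GA_pos (by omega)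
  obtain ⟨G, hGdef⟩ : ∃ G : ℝ, G = GA m ^ (1 - θ) * GA (m + 1) ^ θ := ⟨_, rfl⟩
  have hG0 : 0 < G := by
    rw [hGdef]
    exact mul_pos (Real.rpow_pos_of_pos hGa _) (Real.rpow_pos_of_pos hGb _)
  rw [← hGdef] at hG
  obtain ⟨r, hr⟩ : ∃ r : ℝ, r = B / G := ⟨_, rfl⟩
  have hr1 : 1 < r := by
    rw [hr, lt_div_iff₀ hG0]
    linarith
  have hrG : r * G = B := by
    rw [hr, div_mul_cancel₀ _ hG0.ne']
  obtain ⟨ε, hε⟩ : ∃ ε : ℝ, ε = min ((r - 1) / 3) 1 := ⟨_, rfl⟩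
  have e0 : 0 < ε := by
    rw [hε]
    exact lt_min (by linarith) one_pos
  have e1 : ε ≤ (r - 1) / 3 := by rw [hε]; exact min_le_left _ _
  have e2 : ε ≤ 1 := by rw [hε]; exact min_le_right _ _
  have e3 : (1 + ε) ^ 2 ≤ r := by nlinarith
  obtain ⟨n₀, hn₀⟩ := REB.ev h1 h2 hm e0
  obtain ⟨n₁, hn₁⟩ := REB.ev h1 h2 (m := m + 1) (by omega) e0
  refine ⟨max (max n₀ n₁) 1, fun n hn f => ?_⟩
  have hn1 : 1 ≤ n := (le_max_right _ _).trans hn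
  have hnp : (0 : ℝ) < n := by exact_mod_cast hn1
  have ha := hn₀ n (((le_max_left _ _).trans (le_max_left _ _)).trans hn)
  have hb := hn₁ n (((le_max_right _ _).trans (le_max_left _ _)).trans hn)
  have hs : (0 : ℝ) < (1 + ε) ^ 2 := by positivity
  have hK0 : 0 < (1 + ε) ^ 2 * AA m n :=
    mul_pos hs (mul_pos (Real.rpow_pos_of_pos hnp _) hGa)
  have hK1 : 0 < (1 + ε) ^ 2 * AA (m + 1) n :=
    mul_pos hs (mul_pos (Real.rpow_pos_of_pos hnp _) hGb)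
  have hmain := h3 n (2 * m) (2 * ((m + 1 : ℕ) : ℝ)) p θ _ _ (by linarith)
    (by push_cast; linarith) hθ0 hθ1 (by push_cast; exact he) hK0 hK1 ha hb f
  refine hmain.trans (mul_le_mul' (ENNReal.ofReal_le_ofReal ?_) le_rfl)
  have hx : (1 - θ) * (1 - 1 / (m : ℝ)) + θ * (1 - 1 / ((m + 1 : ℕ) : ℝ)) = 1 - 2 / p := by
    have h5 : (2 : ℝ) / p = (1 - θ) / m + θ / (m + 1) := by
      have h6 : (2 : ℝ) / p = 2 * (1 / p) := by ring
      rw [h6, he]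
      have h7 : (m : ℝ) ≠ 0 := by positivity
      have h8 : (m : ℝ) + 1 ≠ 0 := by positivity
      field_simp
    rw [h5]
    push_cast
    ring
  have hK : ((1 + ε) ^ 2 * AA m n) ^ (1 - θ) * ((1 + ε) ^ 2 * AA (m + 1) n) ^ θ =
      (1 + ε) ^ 2 * ((n : ℝ) ^ (1 - 2 / p) * G) := by
    unfold AA
    have p1 : (0 : ℝ) ≤ (n : ℝ) ^ (1 - 1 / (m : ℝ)) := (Real.rpow_pos_of_pos hnp _).le
    have p2 : (0 : ℝ) ≤ (n : ℝ) ^ (1 - 1 / ((m + 1 : ℕ) : ℝ)) := (Real.rpow_pos_of_pos hnp _).le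
    rw [Real.mul_rpow hs.le (mul_nonneg p1 hGa.le), Real.mul_rpow p1 hGa.le,
      Real.mul_rpow hs.le (mul_nonneg p2 hGb.le), Real.mul_rpow p2 hGb.le,
      ← Real.rpow_mul hnp.le, ← Real.rpow_mul hnp.le]
    have q1 : ((1 + ε) ^ 2) ^ (1 - θ) * ((1 + ε) ^ 2) ^ θ = (1 + ε) ^ 2 := by
      rw [← Real.rpow_add hs]
      rw [sub_add_cancel, Real.rpow_one]
    have q2 : (n : ℝ) ^ ((1 - 1 / (m : ℝ)) * (1 - θ)) *
        (n : ℝ) ^ ((1 - 1 / ((m + 1 : ℕ) : ℝ)) * θ) = (n : ℝ) ^ (1 - 2 / p) := by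
      rw [← Real.rpow_add hnp]
      congr 1
      rw [← hx]
      ring
    calc ((1 + ε) ^ 2) ^ (1 - θ) * ((n : ℝ) ^ ((1 - 1 / (m : ℝ)) * (1 - θ)) * GA m ^ (1 - θ)) *
          (((1 + ε) ^ 2) ^ θ * ((n : ℝ) ^ ((1 - 1 / ((m + 1 : ℕ) : ℝ)) * θ) * GA (m + 1) ^ θ))
        = (((1 + ε) ^ 2) ^ (1 - θ) * ((1 + ε) ^ 2) ^ θ) *
          (((n : ℝ) ^ ((1 - 1 / (m : ℝ)) * (1 - θ)) *
            (n : ℝ) ^ ((1 - 1 / ((m + 1 : ℕ) : ℝ)) * θ)) *
            (GA m ^ (1 - θ) * GA (m + 1) ^ θ)) := by ring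
      _ = _ := by rw [q1, q2, ← hGdef]
  rw [hK]
  have hnn : (0 : ℝ) ≤ (n : ℝ) ^ (1 - 2 / p) := (Real.rpow_pos_of_pos hnp _).le
  calc (1 + ε) ^ 2 * ((n : ℝ) ^ (1 - 2 / p) * G)
      = (n : ℝ) ^ (1 - 2 / p) * ((1 + ε) ^ 2 * G) := by ring
    _ ≤ (n : ℝ) ^ (1 - 2 / p) * (r * G) :=
        mul_le_mul_of_nonneg_left (mul_le_mul_of_nonneg_right e3 hG0.le) hnn
    _ = _ := by rw [hrG]

lemma GA_one : GA 1 = 1 := by
  unfold GA
  have h : (1 : ℝ) - 1 / (2 * ((1 : ℕ) : ℝ)) = 1 / (2 * ((1 : ℕ) : ℝ)) := by norm_num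
  rw [h, div_self (Real.Gamma_pos_of_pos (by norm_num)).ne']

lemma GA_two : Real.log (GA 2) ≤ 1.0849522 := by
  have h := NUI.gs_le_exp (x := 1 / 4) (by norm_num) (by norm_num)
  have e : GA 2 = Gs (1 / 4) := by
    unfold GA Gs
    norm_num
  have hpos : 0 < GA 2 := REB.GA_pos (by norm_num)
  rw [← e] at h
  have h2 := Real.log_le_log hpos h
  have e2 : (1 - 1 / 4 : ℝ) / (1 / 4) = 2 * (3 / 2) := by norm_num
  rw [e2, Real.log_mul (by norm_num) (Real.exp_pos _).ne', Real.log_exp,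
    Real.log_mul (by norm_num) (by norm_num)] at h2
  have h3 : Real.log 2 < 0.6931471808 := Real.log_two_lt_d9
  have h4 := NUI.log32_hi
  have h5 : (13665 : ℝ) / 1000000 ≤ NUI.P (1 - 2 * (1 / 4)) := by
    unfold NUI.P
    norm_num
  norm_num at h2 h3 h4 h5 ⊢
  linarith

lemma log1033 : 0.0324 ≤ Real.log 1.033 := by
  rw [Real.le_log_iff_exp_le (by norm_num)]
  have := Real.exp_bound' (x := (0.0324 : ℝ)) (by norm_num) (by norm_num) (n := 3) (by norm_num)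
  refine this.trans ?_
  norm_num [Finset.sum_range_succ, Nat.factorial]

/-- the numerical inequality -/
lemma num {w : ℝ} (h0 : 0 ≤ w) (h1 : w ≤ 1 / 2) :
    GA 2 ^ (2 * w) < 1.033 * ((1 + w) / (1 - w)) := by
  have hpos : 0 < GA 2 := REB.GA_pos (by norm_num)
  have hq : 0 < (1 + w) / (1 - w) := div_pos (by linarith) (by linarith)
  rw [← Real.log_lt_log_iff (Real.rpow_pos_of_pos hpos _) (by positivity), Real.log_rpow hpos,
    Real.log_mul (by norm_num) hq.ne']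
  have h2 := Real.sum_range_le_log_div (x := w) h0 (by linarith) 3
  simp only [Finset.sum_range_succ, Finset.sum_range_zero] at h2
  norm_num at h2
  have h3 := log1033
  have h4 := mul_le_mul_of_nonneg_left GA_two (show 0 ≤ 2 * w by linarith)
  have h5 : 3 * 0.2807 ^ 2 * w - 2 * 0.2807 ^ 3 ≤ w ^ 3 := by
    nlinarith [mul_nonneg (sq_nonneg (w - 0.2807)) (show 0 ≤ w + 2 * 0.2807 by linarith)]
  have h6 : 5 * 0.2807 ^ 4 * w - 4 * 0.2807 ^ 5 ≤ w ^ 5 := by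
    have e : w ^ 5 - (5 * 0.2807 ^ 4 * w - 4 * 0.2807 ^ 5) = (w - 0.2807) ^ 2 *
      (w ^ 3 + 2 * 0.2807 * w ^ 2 + 3 * 0.2807 ^ 2 * w + 4 * 0.2807 ^ 3) := by ring
    have : 0 ≤ (w - 0.2807) ^ 2 *
      (w ^ 3 + 2 * 0.2807 * w ^ 2 + 3 * 0.2807 ^ 2 * w + 4 * 0.2807 ^ 3) := by positivity
    linarith
  norm_num at h2 h3 h4 h5 h6 ⊢
  linarith

/-- `2 ≤ p ≤ 4`, factor `1.033` -/
theorem low (p : ℝ) (h1 : 2 ≤ p) (h2 : p ≤ 4) : ∃ n₀ : ℕ, ∀ n : ℕ, n₀ ≤ n →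
    ∀ f : SchwartzMap ℂ ℂ,
    eLpNorm (TS n f) (ENNReal.ofReal p) volume ≤
      ENNReal.ofReal (1.033 * ((n : ℝ) ^ (1 - 2 / p) * (p - 1))) *
        eLpNorm (fun z : ℂ => f z) (ENNReal.ofReal p) volume := by
  have hp0 : 0 < p := by linarith
  have hw0 : 0 ≤ 1 - 2 / p := by
    rw [sub_nonneg, div_le_one hp0]; exact h1
  have hw1 : 1 - 2 / p ≤ 1 / 2 := by
    have : 1 / 2 ≤ 2 / p := by
      rw [div_le_div_iff₀ (by norm_num) hp0]; linarith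
    linarith
  have hnum := num hw0 hw1
  have e1 : (1 + (1 - 2 / p)) / (1 - (1 - 2 / p)) = p - 1 := by
    field_simp
    ring
  rw [e1] at hnum
  obtain ⟨n₀, hn₀⟩ := gen p (1.033 * (p - 1)) hp0 1 (2 * (1 - 2 / p)) le_rfl (by linarith)
    (by linarith) (by push_cast; field_simp; ring)
    (by rw [GA_one, Real.one_rpow, one_mul]; exact hnum)
  refine ⟨n₀, fun n hn f => ?_⟩
  have := hn₀ n hn f
  have e2 : (n : ℝ) ^ (1 - 2 / p) * (1.033 * (p - 1)) =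
      1.033 * ((n : ℝ) ^ (1 - 2 / p) * (p - 1)) := by ring
  rw [e2] at this
  exact this

/-- all real exponents, factor `1.033` -/
theorem allq (p : ℝ) (hp : 2 ≤ p) : ∃ n₀ : ℕ, ∀ n : ℕ, n₀ ≤ n → ∀ f : SchwartzMap ℂ ℂ,
    eLpNorm (TS n f) (ENNReal.ofReal p) volume ≤
      ENNReal.ofReal (1.033 * ((n : ℝ) ^ (1 - 2 / p) * (p - 1))) *
        eLpNorm (fun z : ℂ => f z) (ENNReal.ofReal p) volume := by
  rcases le_total p 4 with h | h
  · exact low p hp h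
  · obtain ⟨n₀, hn₀⟩ := KLF.four p h
    refine ⟨n₀, fun n hn f => (hn₀ n hn f).trans
      (mul_le_mul' (ENNReal.ofReal_le_ofReal ?_) le_rfl)⟩
    have : 0 ≤ (n : ℝ) ^ (1 - 2 / p) * (p - 1) :=
      mul_nonneg (Real.rpow_nonneg (Nat.cast_nonneg n) _) (by linarith)
    nlinarith

/-- the numerical inequality, exact range -/
lemma num2 {w : ℝ} (h0 : 0.4708 ≤ w) (h1 : w ≤ 1 / 2) :
    GA 2 ^ (2 * w) < (1 + w) / (1 - w) := by
  have hpos : 0 < GA 2 := REB.GA_pos (by norm_num)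
  have hw : 0 < w := by norm_num at h0; linarith
  have hq : 0 < (1 + w) / (1 - w) := div_pos (by linarith) (by linarith)
  rw [← Real.log_lt_log_iff (Real.rpow_pos_of_pos hpos _) hq, Real.log_rpow hpos]
  have h2 := Real.sum_range_le_log_div (x := w) hw.le (by linarith) 4
  simp only [Finset.sum_range_succ, Finset.sum_range_zero] at h2
  norm_num at h2
  have h4 := mul_le_mul_of_nonneg_left GA_two (show 0 ≤ 2 * w by linarith)
  have a2 : (0.4708 : ℝ) ^ 2 ≤ w ^ 2 := by gcongr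
  have a4 : (0.4708 : ℝ) ^ 4 ≤ w ^ 4 := by gcongr
  have a6 : (0.4708 : ℝ) ^ 6 ≤ w ^ 6 := by gcongr
  have h5 : 0.08495221 * w ≤ w ^ 3 / 3 + w ^ 5 / 5 + w ^ 7 / 7 := by
    have e : w ^ 3 / 3 + w ^ 5 / 5 + w ^ 7 / 7 = (w ^ 2 / 3 + w ^ 4 / 5 + w ^ 6 / 7) * w := by ring
    rw [e]
    apply mul_le_mul_of_nonneg_right _ hw.le
    norm_num at a2 a4 a6 ⊢
    linarith
  norm_num at h2 h4 h5 ⊢
  linarith

/-- `3.78 ≤ p ≤ 4`, exact constant -/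
theorem exa (p : ℝ) (h1 : 3.78 ≤ p) (h2 : p ≤ 4) : ∃ n₀ : ℕ, ∀ n : ℕ, n₀ ≤ n →
    ∀ f : SchwartzMap ℂ ℂ,
    eLpNorm (TS n f) (ENNReal.ofReal p) volume ≤
      ENNReal.ofReal ((n : ℝ) ^ (1 - 2 / p) * (p - 1)) *
        eLpNorm (fun z : ℂ => f z) (ENNReal.ofReal p) volume := by
  norm_num at h1
  have hp0 : 0 < p := by linarith
  have hw0 : 0.4708 ≤ 1 - 2 / p := by
    have : 2 / p ≤ 0.5292 := by
      rw [div_le_iff₀ hp0]; norm_num; linarith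
    norm_num at this ⊢
    linarith
  have hw1 : 1 - 2 / p ≤ 1 / 2 := by
    have : 1 / 2 ≤ 2 / p := by
      rw [div_le_div_iff₀ (by norm_num) hp0]; linarith
    linarith
  have hnum := num2 hw0 hw1
  have e1 : (1 + (1 - 2 / p)) / (1 - (1 - 2 / p)) = p - 1 := by
    field_simp
    ring
  rw [e1] at hnum
  norm_num at hw0
  exact gen p (p - 1) hp0 1 (2 * (1 - 2 / p)) le_rfl (by linarith)
    (by linarith) (by push_cast; field_simp; ring)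
    (by rw [GA_one, Real.one_rpow, one_mul]; exact hnum)

end Pool.Agent.N892.BW.KLG
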