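import Pool.Agent.N892.BW.Stm2

/-!
# KTH: final assembly of part 2 (helper595), numerical part
-/

set_option autoImplicit false

open MeasureTheory ENNReal Filter Topology Complex
open scoped ComplexConjugate ContDiff

namespace Pool.Agent.N892.BW.KTH

theorem pow_add_le {p : ℕ} (hp : 1 ≤ p) {a b : ℝ} (ha : 0 ≤ a) (hb : 0 ≤ b) :
    a ^ p + b ^ p ≤ (a + b) ^ p := by
  obtain ⟨k, rfl⟩ : ∃ k, p = k + 1 := ⟨p - 1, by omega⟩
  have h1 : a ^ k ≤ (a + b) ^ k := pow_le_pow_left₀ ha (by linarith) k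
  have h2 : b ^ k ≤ (a + b) ^ k := pow_le_pow_left₀ hb (by linarith) k
  calc a ^ (k + 1) + b ^ (k + 1) = a ^ k * a + b ^ k * b := by ring
    _ ≤ (a + b) ^ k * a + (a + b) ^ k * b := by gcongr
    _ = (a + b) ^ (k + 1) := by ring

/-- Minkowski for finite sums, natural exponents -/
theorem mink_fin {p M : ℕ} (hp : 1 ≤ p) {v w g : ℕ → ℝ} {a b : ℝ} (ha : 0 ≤ a) (hb : 0 ≤ b)
    (hv0 : ∀ k, k < M → 0 ≤ v k) (hw0 : ∀ k, k < M → 0 ≤ w k) (hg0 : ∀ k, k < M → 0 ≤ g k)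
    (hv : ∀ k, k < M → v k ≤ w k + g k) (hw : ∑ k ∈ Finset.range M, w k ^ p ≤ a ^ p)
    (hg : ∑ k ∈ Finset.range M, g k ^ p ≤ b ^ p) :
    ∑ k ∈ Finset.range M, v k ^ p ≤ (a + b) ^ p := by
  have hp0 : (p : ℝ) ≠ 0 := by
    have : p ≠ 0 := by omega
    exact_mod_cast this
  have hp1 : (1 : ℝ) ≤ p := by exact_mod_cast hp
  have h1 := Real.Lp_add_le_of_nonneg (Finset.range M) (f := w) (g := g) (p := (p : ℝ)) hp1
    (fun i hi => hw0 i (Finset.mem_range.1 hi)) (fun i hi => hg0 i (Finset.mem_range.1 hi))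
  simp only [Real.rpow_natCast] at h1
  have hroot : ∀ {s c : ℝ}, 0 ≤ s → 0 ≤ c → s ≤ c ^ p → s ^ (1 / (p : ℝ)) ≤ c := by
    intro s c hs hc hsc
    calc s ^ (1 / (p : ℝ)) ≤ (c ^ p) ^ (1 / (p : ℝ)) :=
          Real.rpow_le_rpow hs hsc (by positivity)
      _ = c := by
          rw [one_div]
          exact Real.pow_rpow_inv_natCast hc (by omega)
  have hsw : 0 ≤ ∑ k ∈ Finset.range M, w k ^ p :=
    Finset.sum_nonneg fun k hk => pow_nonneg (hw0 k (Finset.mem_range.1 hk)) _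
  have hsg : 0 ≤ ∑ k ∈ Finset.range M, g k ^ p :=
    Finset.sum_nonneg fun k hk => pow_nonneg (hg0 k (Finset.mem_range.1 hk)) _
  have hswg : 0 ≤ ∑ k ∈ Finset.range M, (w k + g k) ^ p :=
    Finset.sum_nonneg fun k hk => pow_nonneg
      (add_nonneg (hw0 k (Finset.mem_range.1 hk)) (hg0 k (Finset.mem_range.1 hk))) _
  have h2 : (∑ k ∈ Finset.range M, (w k + g k) ^ p) ^ (1 / (p : ℝ)) ≤ a + b :=
    h1.trans (add_le_add (hroot hsw ha hw) (hroot hsg hb hg))
  have h3 : ∑ k ∈ Finset.range M, (w k + g k) ^ p ≤ (a + b) ^ p := by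
    have h4 := pow_le_pow_left₀ (Real.rpow_nonneg hswg _) h2 p
    rwa [one_div, Real.rpow_inv_natCast_pow hswg (by omega)] at h4
  refine le_trans (Finset.sum_le_sum fun k hk => ?_) h3
  exact pow_le_pow_left₀ (hv0 k (Finset.mem_range.1 hk)) (hv k (Finset.mem_range.1 hk)) p

/-- the numerical core -/
theorem numcore {m M : ℕ} (hm : 1 ≤ m) {e e₁ x A c C D s t : ℝ} {u v z y f P : ℕ → ℝ}
    (he : 0 < e) (he1 : e ≤ 1 / 10) (he₁ : 0 ≤ e₁) (he₁e : e₁ ≤ e) (heM : 3 * M * e₁ ≤ e)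
    (hx : 0 ≤ x) (hA : 0 ≤ A) (hAc : A ≤ c) (_hC : 0 ≤ C) (hs : 0 ≤ s)
    (ht : 0 ≤ t) (hD : 0 ≤ D)
    (hu0 : u 0 = 0) (hun : ∀ k, 0 ≤ u k) (hvn : ∀ k, k < M → 0 ≤ v k) (hzn : ∀ k, k < M → 0 ≤ z k)
    (_hyn : ∀ k, k < M → 0 ≤ y k) (hfn : ∀ k, k < M → 0 ≤ f k) (hPn : ∀ k, 0 ≤ P k)
    (hu : ∀ k, k < M → u (k + 1) ^ (2 * m) ≤ u k ^ (2 * m) + (1 + e) * v k ^ (2 * m) +
      D * f k ^ 2 * u k ^ (2 * m - 2))
    (hv : ∀ k, k < M → v k ≤ (1 + e) * A * y k + f k)
    (hy : ∀ k, k < M → y k ^ 2 ≤ z k ^ 2 + s * f k ^ 2)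
    (hP : ∀ k, k < M → P k ^ (2 * m) + z k ^ (2 * m) ≤ P (k + 1) ^ (2 * m) + t * P k ^ (2 * m))
    (hf : ∀ k, k < M → f k ≤ C * x) (hPb : ∀ k, k ≤ M → P k ≤ M * C * x)
    (hub : ∀ k, k ≤ M → u k ≤ c * P k) (hPM : P M ≤ (1 + e) * x)
    (h1 : s * C ^ 2 ≤ e₁ ^ 2) (h2 : C ≤ e₁ * A) (h3 : t * M * (M * C) ^ (2 * m) ≤ e₁ ^ (2 * m))
    (h4 : D * C ^ 2 * (M * C) ^ (2 * m - 2) * M ≤ e₁ ^ (2 * m) * c ^ 2) :
    u M ≤ ((1 + 7 * e) * A + e * c) * x := by
  have hp1 : 1 ≤ 2 * m := by omega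
  have hc : 0 ≤ c := hA.trans hAc
  have hM0 : (0 : ℝ) ≤ M := Nat.cast_nonneg _
  -- y
  have hy' : ∀ k, k < M → y k ≤ z k + e₁ * x := by
    intro k hk
    have a1 := hy k hk
    have a2 := hf k hk
    have a3 := hfn k hk
    have a4 : f k ^ 2 ≤ (C * x) ^ 2 := pow_le_pow_left₀ a3 a2 2
    have a5 : s * f k ^ 2 ≤ (e₁ * x) ^ 2 := by
      calc s * f k ^ 2 ≤ s * (C * x) ^ 2 := mul_le_mul_of_nonneg_left a4 hs
        _ = (s * C ^ 2) * x ^ 2 := by ring
        _ ≤ e₁ ^ 2 * x ^ 2 := mul_le_mul_of_nonneg_right h1 (sq_nonneg _)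
        _ = (e₁ * x) ^ 2 := by ring
    have a6 : 0 ≤ e₁ * x := mul_nonneg he₁ hx
    have a7 := hzn k hk
    apply le_of_sq_le_sq _ (by linarith)
    nlinarith [mul_nonneg a7 a6]
  -- v
  have hv' : ∀ k, k < M → v k ≤ (1 + e) * A * z k + 3 * e₁ * A * x := by
    intro k hk
    have a1 := hv k hk
    have a2 := hy' k hk
    have a3 := hf k hk
    have a4 : (1 + e) * A * y k ≤ (1 + e) * A * (z k + e₁ * x) :=
      mul_le_mul_of_nonneg_left a2 (by positivity)
    have a5 : C * x ≤ e₁ * A * x := mul_le_mul_of_nonneg_right h2 hx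
    have a6 : 0 ≤ e₁ * A * x := by positivity
    nlinarith
  -- P
  have hz : ∑ k ∈ Finset.range M, z k ^ (2 * m) ≤ ((1 + e + e₁) * x) ^ (2 * m) := by
    have a1 : ∀ j, j ≤ M → ∑ k ∈ Finset.range j, z k ^ (2 * m) ≤
        P j ^ (2 * m) + j * (t * (M * C * x) ^ (2 * m)) := by
      intro j
      induction j with
      | zero =>
        intro _
        simp only [Finset.range_zero, Finset.sum_empty, Nat.cast_zero, zero_mul, add_zero]
        exact pow_nonneg (hPn 0) _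
      | succ j ih =>
        intro hj
        rw [Finset.sum_range_succ]
        have b1 := ih (by omega)
        have b2 := hP j (by omega)
        have b3 : t * P j ^ (2 * m) ≤ t * (M * C * x) ^ (2 * m) :=
          mul_le_mul_of_nonneg_left (pow_le_pow_left₀ (hPn j) (hPb j (by omega)) _) ht
        push_cast
        linarith
    have a2 := a1 M le_rfl
    have a3 : P M ^ (2 * m) ≤ ((1 + e) * x) ^ (2 * m) := pow_le_pow_left₀ (hPn M) hPM _
    have a4 : (M : ℝ) * (t * (M * C * x) ^ (2 * m)) ≤ (e₁ * x) ^ (2 * m) := by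
      calc (M : ℝ) * (t * (M * C * x) ^ (2 * m)) = (t * M * (M * C) ^ (2 * m)) * x ^ (2 * m) := by
            ring
        _ ≤ e₁ ^ (2 * m) * x ^ (2 * m) := mul_le_mul_of_nonneg_right h3 (by positivity)
        _ = (e₁ * x) ^ (2 * m) := by ring
    have a5 := pow_add_le hp1 (a := (1 + e) * x) (b := e₁ * x) (by positivity) (by positivity)
    calc _ ≤ ((1 + e) * x) ^ (2 * m) + (e₁ * x) ^ (2 * m) := by linarith
      _ ≤ ((1 + e) * x + e₁ * x) ^ (2 * m) := a5
      _ = _ := by ring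
  -- the sum of the `v`
  have hsv : ∑ k ∈ Finset.range M, v k ^ (2 * m) ≤
      ((1 + e) * A * ((1 + e + e₁) * x) + e * A * x) ^ (2 * m) := by
    refine mink_fin hp1 (w := fun k => (1 + e) * A * z k) (g := fun _ => 3 * e₁ * A * x)
      (by positivity) (by positivity) hvn (fun k hk => mul_nonneg (by positivity) (hzn k hk))
      (fun _ _ => by positivity) hv' ?_ ?_
    · have : ∀ k, ((1 + e) * A * z k) ^ (2 * m) = ((1 + e) * A) ^ (2 * m) * z k ^ (2 * m) :=
        fun k => mul_pow _ _ _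
      simp only [this]
      rw [← Finset.mul_sum, mul_pow ((1 + e) * A)]
      exact mul_le_mul_of_nonneg_left hz (by positivity)
    · rw [Finset.sum_const, Finset.card_range, nsmul_eq_mul]
      have a1 : (M : ℝ) * (3 * e₁ * A * x) ^ (2 * m) ≤ (M * (3 * e₁ * A * x)) ^ (2 * m) := by
        rw [mul_pow (M : ℝ)]
        refine mul_le_mul_of_nonneg_right ?_ (by positivity)
        rcases Nat.eq_zero_or_pos M with h | h
        · rw [h]
          simp
        · have : (1 : ℝ) ≤ M := by exact_mod_cast h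
          exact le_self_pow₀ this (by omega)
      refine a1.trans (pow_le_pow_left₀ (by positivity) ?_ _)
      have : (M : ℝ) * (3 * e₁ * A * x) = (3 * M * e₁) * (A * x) := by ring
      rw [this, mul_assoc e]
      exact mul_le_mul_of_nonneg_right heM (by positivity)
  -- the sum of the `u`
  have hus : ∀ j, j ≤ M → u j ^ (2 * m) ≤ (1 + e) * ∑ k ∈ Finset.range j, v k ^ (2 * m) +
      j * (D * (C * x) ^ 2 * (c * (M * C * x)) ^ (2 * m - 2)) := by
    intro j
    induction j with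
    | zero =>
      intro _
      rw [hu0, zero_pow (by omega)]
      simp
    | succ j ih =>
      intro hj
      rw [Finset.sum_range_succ]
      have b1 := ih (by omega)
      have b2 := hu j (by omega)
      have b3 : D * f j ^ 2 * u j ^ (2 * m - 2) ≤
          D * (C * x) ^ 2 * (c * (M * C * x)) ^ (2 * m - 2) := by
        have c1 : f j ^ 2 ≤ (C * x) ^ 2 := pow_le_pow_left₀ (hfn j (by omega)) (hf j (by omega)) 2
        have c2 : u j ≤ c * (M * C * x) :=
          (hub j (by omega)).trans (mul_le_mul_of_nonneg_left (hPb j (by omega)) hc)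
        have c3 : u j ^ (2 * m - 2) ≤ (c * (M * C * x)) ^ (2 * m - 2) :=
          pow_le_pow_left₀ (hun j) c2 _
        exact mul_le_mul (mul_le_mul_of_nonneg_left c1 hD) c3 (pow_nonneg (hun j) _)
          (by positivity)
      push_cast
      linarith
  have h5 := hus M le_rfl
  have h6 : (M : ℝ) * (D * (C * x) ^ 2 * (c * (M * C * x)) ^ (2 * m - 2)) ≤
      (e₁ * c * x) ^ (2 * m) := by
    have b1 : x ^ (2 * m) = x ^ 2 * x ^ (2 * m - 2) := by
      rw [← pow_add]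
      congr 1
      omega
    have b2 : c ^ (2 * m) = c ^ 2 * c ^ (2 * m - 2) := by
      rw [← pow_add]
      congr 1
      omega
    calc (M : ℝ) * (D * (C * x) ^ 2 * (c * (M * C * x)) ^ (2 * m - 2)) =
          (D * C ^ 2 * (M * C) ^ (2 * m - 2) * M) * (c ^ (2 * m - 2) * (x ^ 2 * x ^ (2 * m - 2))) := by
          rw [mul_pow c, mul_pow (M * C : ℝ) x]
          ring
      _ ≤ (e₁ ^ (2 * m) * c ^ 2) * (c ^ (2 * m - 2) * (x ^ 2 * x ^ (2 * m - 2))) :=
          mul_le_mul_of_nonneg_right h4 (by positivity)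
      _ = (e₁ * c * x) ^ (2 * m) := by
          rw [mul_pow, mul_pow, b1, b2]
          ring
  have h7 : (1 + e) * ∑ k ∈ Finset.range M, v k ^ (2 * m) ≤
      ((1 + e) * ((1 + e) * A * ((1 + e + e₁) * x) + e * A * x)) ^ (2 * m) := by
    rw [mul_pow (1 + e)]
    have : 1 + e ≤ (1 + e) ^ (2 * m) := le_self_pow₀ (by linarith) (by omega)
    exact mul_le_mul this hsv
      (Finset.sum_nonneg fun k hk => pow_nonneg (hvn k (Finset.mem_range.1 hk)) _) (by positivity)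
  have h8 := pow_add_le hp1
    (a := (1 + e) * ((1 + e) * A * ((1 + e + e₁) * x) + e * A * x)) (b := e₁ * c * x)
    (by positivity) (by positivity)
  have h9 : u M ^ (2 * m) ≤
      ((1 + e) * ((1 + e) * A * ((1 + e + e₁) * x) + e * A * x) + e₁ * c * x) ^ (2 * m) := by
    linarith
  have h10 : u M ≤ (1 + e) * ((1 + e) * A * ((1 + e + e₁) * x) + e * A * x) + e₁ * c * x :=
    le_of_pow_le_pow_left₀ (by omega) (by positivity) h9
  refine h10.trans ?_
  have h11 : e₁ * c * x ≤ e * c * x :=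
    mul_le_mul_of_nonneg_right (mul_le_mul_of_nonneg_right he₁e hc) hx
  have h12 : (1 + e) * ((1 + e) * (1 + e + e₁) + e) ≤ 1 + 7 * e := by
    have : (1 + e) * (1 + e + e₁) ≤ (1 + e) * (1 + 2 * e) :=
      mul_le_mul_of_nonneg_left (by linarith) (by linarith)
    nlinarith [mul_nonneg he.le he.le, mul_nonneg (mul_nonneg he.le he.le) he.le]
  have h13 : (1 + e) * ((1 + e) * A * ((1 + e + e₁) * x) + e * A * x) =
      ((1 + e) * ((1 + e) * (1 + e + e₁) + e)) * (A * x) := by ring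
  rw [h13]
  have h14 := mul_le_mul_of_nonneg_right h12 (mul_nonneg hA hx)
  linarith

end Pool.Agent.N892.BW.KTH
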