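import Pool.Agent.N892.BW.Stm3
import Pool.Agent.N892.BW.BAS
import Pool.Agent.N892.BW.GAB

/-!
Project BW, part 3 (helper892), MAJ (helper464): pointwise bounds for band-limited functions
-/

set_option autoImplicit false

open MeasureTheory ENNReal Filter Topology Complex
open scoped ComplexConjugate ContDiff FourierTransform SchwartzMap

namespace Pool.Agent.N892.BW.MAJ

open Pool.Agent.N892.BW

theorem peetre (u v : ℂ) : 1 + ‖u‖ ≤ (1 + ‖u + v‖) * (1 + ‖v‖) := by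
  have h : ‖u‖ ≤ ‖u + v‖ + ‖v‖ := by
    calc ‖u‖ = ‖(u + v) - v‖ := by rw [add_sub_cancel_right]
      _ ≤ _ := norm_sub_le _ _
  nlinarith [norm_nonneg (u + v), norm_nonneg v]

theorem peetre' {u w : ℂ} {r : ℝ} (hr : ‖w - u‖ ≤ r) : 1 + ‖u‖ ≤ (1 + ‖w‖) * (1 + r) := by
  have h := peetre u (w - u)
  rw [add_sub_cancel] at h
  exact h.trans (mul_le_mul_of_nonneg_left (by linarith) (by positivity))

/-- decay after translation -/
theorem decay_shift {E : Type*} [NormedAddCommGroup E] {f : ℂ → E} {C : ℝ}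
    (hf : ∀ x, ‖f x‖ * (1 + ‖x‖) ^ 4 ≤ C) {u w : ℂ} {r : ℝ} (hr : ‖w - u‖ ≤ r) :
    ‖f w‖ ≤ C * (1 + r) ^ 4 * ((1 + ‖u‖) ^ 4)⁻¹ := by
  have hr0 : 0 ≤ r := (norm_nonneg _).trans hr
  have h1 := peetre' hr
  have h2 : (1 + ‖u‖) ^ 4 ≤ (1 + ‖w‖) ^ 4 * (1 + r) ^ 4 := by
    rw [← mul_pow]
    exact pow_le_pow_left₀ (by positivity) h1 4
  have h3 : 0 < (1 + ‖u‖) ^ 4 := by positivity
  rw [← div_eq_mul_inv, le_div_iff₀ h3]
  calc ‖f w‖ * (1 + ‖u‖) ^ 4 ≤ ‖f w‖ * ((1 + ‖w‖) ^ 4 * (1 + r) ^ 4) :=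
        mul_le_mul_of_nonneg_left h2 (norm_nonneg _)
    _ = ‖f w‖ * (1 + ‖w‖) ^ 4 * (1 + r) ^ 4 := by ring
    _ ≤ C * (1 + r) ^ 4 := mul_le_mul_of_nonneg_right (hf w) (by positivity)

theorem schwartz_bounds (g : 𝓢(ℂ, ℂ)) : ∃ C : ℝ, 0 ≤ C ∧ (∀ x, ‖g x‖ * (1 + ‖x‖) ^ 4 ≤ C) ∧
    ∀ x, ‖fderiv ℝ g x‖ * (1 + ‖x‖) ^ 4 ≤ C := by
  refine ⟨2 ^ 4 * (Finset.Iic (4, 1)).sup (fun m => SchwartzMap.seminorm ℝ m.1 m.2) g, ?_,
    fun x => ?_, fun x => ?_⟩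
  · positivity
  · have h1 := SchwartzMap.one_add_le_sup_seminorm_apply (𝕜 := ℝ) (m := (4, 1)) (k := 4) (n := 0)
      le_rfl (by norm_num) g x
    rw [norm_iteratedFDeriv_zero] at h1
    rw [mul_comm]
    exact h1
  · have h1 := SchwartzMap.one_add_le_sup_seminorm_apply (𝕜 := ℝ) (m := (4, 1)) (k := 4) (n := 1)
      le_rfl le_rfl g x
    rw [norm_iteratedFDeriv_one] at h1
    rw [mul_comm]
    exact h1

/-- the mean value inequality -/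
theorem mean_value (g : 𝓢(ℂ, ℂ)) {C : ℝ} (hg : ∀ x, ‖fderiv ℝ g x‖ * (1 + ‖x‖) ^ 4 ≤ C) (u v : ℂ) :
    ‖g (u + v) - g u‖ ≤ C * (1 + ‖v‖) ^ 4 * ((1 + ‖u‖) ^ 4)⁻¹ * ‖v‖ := by
  have h := Convex.norm_image_sub_le_of_norm_fderiv_le (𝕜 := ℝ) (f := g)
    (C := C * (1 + ‖v‖) ^ 4 * ((1 + ‖u‖) ^ 4)⁻¹) (s := Metric.closedBall u ‖v‖) (x := u) (y := u + v)
    (fun x _ => g.differentiableAt) (fun w hw => ?_) (convex_closedBall u ‖v‖)
    (Metric.mem_closedBall_self (norm_nonneg v)) (by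
      rw [Metric.mem_closedBall, dist_eq_norm, add_sub_cancel_left])
  · rwa [add_sub_cancel_left] at h
  · refine decay_shift (f := fun x => fderiv ℝ g x) hg ?_
    rwa [Metric.mem_closedBall, dist_eq_norm] at hw

/-- the kernel estimate -/
theorem key {b D : ℝ} (hD : 0 ≤ D) (k F : ℂ → ℂ) (x : ℂ)
    (hk : ∀ z, ‖k z‖ ≤ D * (b ^ 2 * ((1 + b * ‖x - z‖) ^ 4)⁻¹)) :
    ‖∫ z, k z * F z‖ₑ ≤ ENNReal.ofReal D * cv (PP b) (fun z => ‖F z‖ₑ) x := by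
  have e : cv (PP b) (fun z => ‖F z‖ₑ) x = ∫⁻ z, PP b (x - z) * ‖F z‖ₑ := by
    unfold cv
    rw [← lintegral_sub_left_eq_self (μ := (volume : Measure ℂ)) _ x]
    refine lintegral_congr fun z => ?_
    show PP b (x - z) * ‖F (x - (x - z))‖ₑ = PP b (x - z) * ‖F z‖ₑ
    rw [_root_.sub_sub_cancel]
  rw [e, ← lintegral_const_mul' _ _ ENNReal.ofReal_ne_top]
  refine (enorm_integral_le_lintegral_enorm _).trans (lintegral_mono fun z => ?_)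
  rw [enorm_mul, ← mul_assoc]
  refine mul_le_mul_left ?_ _
  unfold PP
  rw [← ENNReal.ofReal_mul hD, ← ofReal_norm]
  exact ENNReal.ofReal_le_ofReal (hk z)

theorem t (_h1 : S_BAS) (h2 : S_CNV) : Pool.Agent.N892.BW.S_MAJ := by
  obtain ⟨θ, hθ1, hθ2, hθ3⟩ := GAB.exists_cut
  have hBθ : Bd 0 2 θ := ⟨hθ1, fun ξ hξ => ⟨norm_nonneg _, hθ3 ξ hξ⟩⟩
  obtain ⟨g, hg⟩ : ∃ g : 𝓢(ℂ, ℂ), Fi θ = g := ⟨_, BAS.Fi_fun hBθ⟩
  obtain ⟨C, hC, hC1, hC2⟩ := schwartz_bounds g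
  refine ⟨C, hC, fun b h x y hb hh => ?_⟩
  have hBb : Bd 0 (2 * b) (fun ξ => θ (b⁻¹ • ξ)) := by
    refine ⟨hθ1.comp (contDiff_id.const_smul b⁻¹), fun ξ hξ => ⟨norm_nonneg _, ?_⟩⟩
    have h3 := hθ3 _ hξ
    rw [norm_smul, norm_inv, Real.norm_of_nonneg hb.le, inv_mul_le_iff₀ hb] at h3
    linarith
  have hBh : Bd 0 (2 * b) h := ⟨hh.1, fun ξ hξ => ⟨norm_nonneg _, by
    have := (hh.2 ξ hξ).2
    linarith⟩⟩
  have hprod : (fun ξ => θ (b⁻¹ • ξ) * h ξ) = h := by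
    funext ξ
    by_cases h0 : h ξ = 0
    · rw [h0, mul_zero]
    · rw [hθ2, one_mul]
      rw [norm_smul, norm_inv, Real.norm_of_nonneg hb.le, inv_mul_le_iff₀ hb]
      have := (hh.2 ξ h0).2
      linarith
  have hK : ∀ w, Fi (fun ξ => θ (b⁻¹ • ξ)) w = ((b ^ 2 : ℝ) : ℂ) * g (b • w) := by
    intro w
    rw [GAB.Fi_scale θ b hb, hg]
  have hrep : ∀ w, Integrable (fun z => ((b ^ 2 : ℝ) : ℂ) * g (b • (w - z)) * Fi h z) ∧
      Fi h w = ∫ z, ((b ^ 2 : ℝ) : ℂ) * g (b • (w - z)) * Fi h z := by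
    intro w
    have h3 := h2 (2 * b) _ h hBb hBh w
    rw [hprod] at h3
    simp only [hK] at h3
    exact h3
  have hbv : ‖b • y‖ = b * ‖y‖ := by rw [norm_smul, Real.norm_of_nonneg hb.le]
  have hbu : ∀ z, ‖b • (x - z)‖ = b * ‖x - z‖ := by
    intro z
    rw [norm_smul, Real.norm_of_nonneg hb.le]
  have hsum : ∀ z, b • (x + y - z) = b • (x - z) + b • y := by
    intro z
    rw [← smul_add]
    congr 1
    ring
  have hb2 : ‖((b ^ 2 : ℝ) : ℂ)‖ = b ^ 2 := by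
    rw [Complex.norm_real, Real.norm_of_nonneg (by positivity)]
  have hy0 : 0 ≤ b * ‖y‖ := by positivity
  constructor
  · rw [(hrep (x + y)).2]
    refine key (by positivity) _ _ _ fun z => ?_
    have h3 := decay_shift hC1 (u := b • (x - z)) (w := b • (x + y - z)) (r := b * ‖y‖) (by
      rw [hsum, add_sub_cancel_left, hbv])
    rw [hbu] at h3
    rw [norm_mul, hb2]
    calc b ^ 2 * ‖g (b • (x + y - z))‖ ≤
        b ^ 2 * (C * (1 + b * ‖y‖) ^ 4 * ((1 + b * ‖x - z‖) ^ 4)⁻¹) :=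
          mul_le_mul_of_nonneg_left h3 (by positivity)
      _ = _ := by ring
  · have h4 : Fi h (x + y) - Fi h x =
        ∫ z, (((b ^ 2 : ℝ) : ℂ) * (g (b • (x + y - z)) - g (b • (x - z)))) * Fi h z := by
      rw [(hrep (x + y)).2, (hrep x).2, ← integral_sub (hrep (x + y)).1 (hrep x).1]
      refine integral_congr_ae (Eventually.of_forall fun z => ?_)
      ring
    rw [h4]
    refine key (by positivity) _ _ _ fun z => ?_
    have h3 := mean_value g hC2 (b • (x - z)) (b • y)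
    rw [hbu, hbv, ← hsum] at h3
    rw [norm_mul, hb2]
    calc b ^ 2 * ‖g (b • (x + y - z)) - g (b • (x - z))‖ ≤
        b ^ 2 * (C * (1 + b * ‖y‖) ^ 4 * ((1 + b * ‖x - z‖) ^ 4)⁻¹ * (b * ‖y‖)) :=
          mul_le_mul_of_nonneg_left h3 (by positivity)
      _ = _ := by ring

end Pool.Agent.N892.BW.MAJ
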