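import Pool.Agent.N892.BW.PAL_cov

/-!
Project BW (helper892), subtask 9843 (PAL), by helper832: Pitt's inequality in inverted coordinates.
-/

set_option autoImplicit false

open MeasureTheory ENNReal Filter Topology Complex
open scoped ComplexConjugate

namespace Pool.Agent.N892.BW.PAL

theorem ex_norm (x v : ℂ) : ‖ex x v‖ = 1 := by
  unfold ex
  rw [mul_comm]
  exact Complex.norm_exp_ofReal_mul_I _

theorem ex_cont : Continuous (fun p : ℂ × ℂ => ex p.1 p.2) := by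
  unfold ex
  refine Complex.continuous_exp.comp (continuous_const.mul (Complex.continuous_ofReal.comp ?_))
  exact Complex.continuous_im.comp (continuous_fst.mul (Complex.continuous_conj.comp continuous_snd))

theorem ker_nonneg (n : ℕ) (w : ℂ) : 0 ≤ ker n w := by
  unfold ker
  positivity

theorem ker_meas (n : ℕ) : Measurable (ker n) := by
  unfold ker
  exact measurable_const.div (measurable_const.mul (measurable_norm.pow_const 2))

theorem ker_iv (n : ℕ) (hn : 1 ≤ n) {v : ℂ} (hv : v ≠ 0) :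
    (2 * (n : ℝ)) ^ 2 / ‖v‖ ^ 4 * ker n (iv n v) = ker n v := by
  unfold ker
  rw [norm_iv]
  have h1 : 0 < ‖v‖ := norm_pos_iff.2 hv
  have h2 : (0 : ℝ) < n := by exact_mod_cast hn
  have h3 := Real.pi_pos
  field_simp

/-- the function in inverted coordinates -/
noncomputable def FF (n : ℕ) (φ : ℂ → ℂ) (v : ℂ) : ℂ := ((ker n v : ℝ) : ℂ) * φ (iv n v)

theorem FF_nice (n : ℕ) (hn : 1 ≤ n) {ρ D : ℝ} (hρ : 0 < ρ) (hD : 0 < D) {φ : ℂ → ℂ} (hφ : Nice φ)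
    (hs : ∀ w, φ w ≠ 0 → ρ ≤ ‖w‖ ∧ ‖w‖ ≤ D) : Nice (FF n φ) := by
  obtain ⟨h1, ⟨M, hM⟩, _⟩ := hφ
  have hn0 : (0 : ℝ) < n := by exact_mod_cast hn
  have hM0 : 0 ≤ M := (norm_nonneg _).trans (hM 0)
  have hpi := Real.pi_pos
  have key : ∀ v, FF n φ v ≠ 0 → 2 * (n : ℝ) / D ≤ ‖v‖ ∧ ‖v‖ ≤ 2 * (n : ℝ) / ρ := by
    intro v hv
    have h2 : φ (iv n v) ≠ 0 := right_ne_zero_of_mul hv
    obtain ⟨h3, h4⟩ := hs _ h2
    rw [norm_iv] at h3 h4
    have hv0 : 0 < ‖v‖ := by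
      rw [norm_pos_iff]
      rintro rfl
      rw [norm_zero, _root_.div_zero] at h3
      linarith
    constructor
    · rw [div_le_iff₀ hD]
      rw [div_le_iff₀ hv0] at h4
      linarith
    · rw [le_div_iff₀ hρ]
      rw [le_div_iff₀ hv0] at h3
      linarith
  refine ⟨?_, ⟨n / (Real.pi * (2 * n / D) ^ 2) * M, ?_⟩, 2 * n / ρ, ?_⟩
  · exact (Complex.measurable_ofReal.comp (ker_meas n)).mul (h1.comp (iv_meas n))
  · intro v
    by_cases hv : FF n φ v = 0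
    · rw [hv, norm_zero]
      positivity
    · obtain ⟨h2, h3⟩ := key v hv
      unfold FF
      rw [norm_mul, Complex.norm_real, Real.norm_of_nonneg (ker_nonneg n v)]
      refine mul_le_mul ?_ (hM _) (norm_nonneg _) (by positivity)
      unfold ker
      have h4 : 0 < 2 * (n : ℝ) / D := by positivity
      gcongr
  · intro v hv
    by_contra hne
    exact absurd (key v hne).2 (not_le.2 hv)

theorem phi_eq (n : ℕ) (hn : 1 ≤ n) (φ : ℂ → ℂ) (x : ℂ) :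
    ∫ w, ((ker n w : ℝ) : ℂ) * φ w * ex x (iv n w) = ∫ v, FF n φ v * ex x v := by
  rw [cov2 n hn]
  refine integral_congr_ae ?_
  filter_upwards [compl_mem_ae_iff.2 (measure_singleton (0 : ℂ))] with v hv
  have hv0 : v ≠ 0 := hv
  have h := ker_iv n hn hv0
  rw [iv_iv n hn]
  unfold FF
  rw [← h]
  push_cast
  ring

theorem real_id (n m : ℕ) (hm : 2 ≤ m) (hn : 1 ≤ n) (r y : ℝ) (hr : 0 ≤ r) :
    (n / (Real.pi * r ^ 2) * y) ^ (2 * m) * r ^ (4 * m - 4) =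
      (n / Real.pi) ^ (2 * m) / (2 * (n : ℝ)) ^ 2 * ((2 * (n : ℝ)) ^ 2 / r ^ 4 * y ^ (2 * m)) := by
  have hn0 : (0 : ℝ) < n := by exact_mod_cast hn
  have hpi := Real.pi_pos
  rcases hr.lt_or_eq with h | h
  · obtain ⟨j, rfl⟩ : ∃ j, m = j + 1 := ⟨m - 1, by omega⟩
    have e : 4 * (j + 1) - 4 = 4 * j := by omega
    rw [e]
    have e2 : n / (Real.pi * r ^ 2) * y = (n / Real.pi) * y / r ^ 2 := by field_simp
    rw [e2, div_pow, mul_pow, ← pow_mul]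
    have e3 : 2 * (2 * (j + 1)) = 4 * j + 4 := by ring
    rw [e3, pow_add]
    field_simp
  · rw [← h]
    have e1 : 2 * m ≠ 0 := by omega
    simp [e1]

theorem GA_pos (m : ℕ) (hm : 2 ≤ m) : 0 < GA m := by
  have hm0 : (2 : ℝ) ≤ m := by exact_mod_cast hm
  unfold GA
  refine div_pos (Real.Gamma_pos_of_pos (by positivity)) (Real.Gamma_pos_of_pos ?_)
  rw [sub_pos, div_lt_one (by positivity)]
  linarith

theorem AA_pos (m n : ℕ) (hm : 2 ≤ m) (hn : 1 ≤ n) : 0 < AA m n := by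
  have hn0 : (0 : ℝ) < n := by exact_mod_cast hn
  unfold AA
  exact mul_pos (Real.rpow_pos_of_pos hn0 _) (GA_pos m hm)

theorem AA_pow (m n : ℕ) (hm : 2 ≤ m) (hn : 1 ≤ n) :
    4 * Real.pi ^ (2 * m) * GA m ^ (2 * m) * ((n / Real.pi) ^ (2 * m) / (2 * (n : ℝ)) ^ 2) =
      AA m n ^ (2 * m) := by
  have hn0 : (0 : ℝ) < n := by exact_mod_cast hn
  have hm0 : (2 : ℝ) ≤ m := by exact_mod_cast hm
  have hpi := Real.pi_pos
  unfold AA
  rw [mul_pow ((n : ℝ) ^ (1 - 1 / (m : ℝ)))]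
  have h1 : ((n : ℝ) ^ (1 - 1 / (m : ℝ))) ^ (2 * m) = (n : ℝ) ^ (2 * m - 2) := by
    rw [← Real.rpow_natCast, ← Real.rpow_mul hn0.le, ← Real.rpow_natCast]
    congr 1
    rw [Nat.cast_sub (by omega)]
    push_cast
    field_simp
  rw [h1]
  obtain ⟨j, rfl⟩ : ∃ j, m = j + 1 := ⟨m - 1, by omega⟩
  have e : 2 * (j + 1) - 2 = 2 * j := by omega
  rw [e, div_pow]
  have e3 : 2 * (j + 1) = 2 * j + 2 := by ring
  rw [e3, pow_add (n : ℝ)]
  field_simp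
  ring

theorem bound (h : S_PIT) (m n : ℕ) (hm : 2 ≤ m) (hn : 1 ≤ n) {ρ D : ℝ} (hρ : 0 < ρ) (hD : 0 < D)
    {φ : ℂ → ℂ} (hφ : Nice φ) (hs : ∀ w, φ w ≠ 0 → ρ ≤ ‖w‖ ∧ ‖w‖ ≤ D) :
    ∫⁻ x, ‖∫ w, ((ker n w : ℝ) : ℂ) * φ w * ex x (iv n w)‖ₑ ^ (2 * m) ≤
      ENNReal.ofReal (AA m n ^ (2 * m)) * ∫⁻ w, ‖φ w‖ₑ ^ (2 * m) := by
  have hn0 : (0 : ℝ) < n := by exact_mod_cast hn
  have hpi := Real.pi_pos
  have hGA := GA_pos m hm
  simp only [phi_eq n hn]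
  refine (h m hm _ (FF_nice n hn hρ hD hφ hs)).trans ?_
  have hpt : ∀ v : ℂ, ‖FF n φ v‖ₑ ^ (2 * m) * ‖v‖ₑ ^ (4 * m - 4) =
      ENNReal.ofReal ((n / Real.pi) ^ (2 * m) / (2 * (n : ℝ)) ^ 2) *
        (ENNReal.ofReal ((2 * (n : ℝ)) ^ 2 / ‖v‖ ^ 4) * ‖φ (iv n v)‖ₑ ^ (2 * m)) := by
    intro v
    have h1 : ‖FF n φ v‖ = n / (Real.pi * ‖v‖ ^ 2) * ‖φ (iv n v)‖ := by
      unfold FF
      rw [norm_mul, Complex.norm_real, Real.norm_of_nonneg (ker_nonneg n v)]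
      rfl
    rw [← ofReal_norm (FF n φ v), ← ofReal_norm v,
      ← ofReal_norm (φ (iv n v)), ← ENNReal.ofReal_pow (norm_nonneg _),
      ← ENNReal.ofReal_pow (norm_nonneg _), ← ENNReal.ofReal_pow (norm_nonneg _),
      ← ENNReal.ofReal_mul (by positivity), ← ENNReal.ofReal_mul (by positivity),
      ← ENNReal.ofReal_mul (by positivity), h1, real_id n m hm hn _ _ (norm_nonneg _)]
  simp only [hpt]
  rw [lintegral_const_mul' _ _ ofReal_ne_top, ← cov n hn (fun w => ‖φ w‖ₑ ^ (2 * m)), ← mul_assoc,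
    ← ENNReal.ofReal_mul (by positivity), AA_pow m n hm hn]

end Pool.Agent.N892.BW.PAL
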