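import Pool.Agent.N892.BW.Stm

/-!
Project BW (helper892), subtask 9843 (PAL), by helper832: the inversion `w ↦ 2 n / conj w`.
-/

set_option autoImplicit false

open MeasureTheory ENNReal Filter Topology Complex
open scoped ComplexConjugate

namespace Pool.Agent.N892.BW.PAL

/-- derivative of the inversion -/
noncomputable def Di (n : ℕ) (w : ℂ) : ℂ →L[ℝ] ℂ :=
  (conjCLE : ℂ →L[ℝ] ℂ).comp
    ((ContinuousLinearMap.toSpanSingleton ℂ (-(2 * (n : ℂ)) / w ^ 2)).restrictScalars ℝ)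

theorem iv_eq (n : ℕ) (w : ℂ) : iv n w = conj ((2 * (n : ℂ)) / w) := by
  unfold iv
  rw [map_div₀, map_mul, Complex.conj_natCast, show conj (2 : ℂ) = 2 from Complex.conj_ofNat 2]

theorem hasDi (n : ℕ) {w : ℂ} (hw : w ≠ 0) : HasFDerivAt (iv n) (Di n w) w := by
  have h1 : HasDerivAt (fun z : ℂ => (2 * (n : ℂ)) / z) (-(2 * (n : ℂ)) / w ^ 2) w := by
    have h := (hasDerivAt_inv hw).const_mul (2 * (n : ℂ))
    have e : -(2 * (n : ℂ)) / w ^ 2 = 2 * (n : ℂ) * -(w ^ 2)⁻¹ := by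
      rw [div_eq_mul_inv]
      ring
    rw [e]
    simpa [div_eq_mul_inv] using h
  have h2 := h1.hasFDerivAt.restrictScalars ℝ
  have h3 := (conjCLE : ℂ →L[ℝ] ℂ).hasFDerivAt.comp w h2
  have e : iv n = (conjCLE : ℂ → ℂ) ∘ (fun z : ℂ => (2 * (n : ℂ)) / z) := by
    funext z
    exact iv_eq n z
  rw [e]
  exact h3

theorem det_Di (n : ℕ) (w : ℂ) : |(Di n w).det| = (2 * (n : ℝ)) ^ 2 / ‖w‖ ^ 4 := by
  have h1 : ((Di n w : ℂ →L[ℝ] ℂ) : ℂ →ₗ[ℝ] ℂ) =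
      (conjAe.toLinearEquiv.toLinearMap) ∘ₗ (Algebra.lmul ℝ ℂ (-(2 * (n : ℂ)) / w ^ 2)) := by
    refine LinearMap.ext fun z => ?_
    simp [Di]
    ring
  have h2 : (Di n w).det = LinearMap.det ((Di n w : ℂ →L[ℝ] ℂ) : ℂ →ₗ[ℝ] ℂ) := rfl
  rw [h2, h1, LinearMap.det_comp, det_conjAe, ← Algebra.norm_apply, Algebra.norm_complex_apply,
    abs_mul, abs_neg, abs_one, one_mul, abs_of_nonneg (normSq_nonneg _), normSq_eq_norm_sq,
    norm_div, norm_neg, norm_mul, norm_pow]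
  simp only [Complex.norm_natCast, Complex.norm_ofNat]
  rw [div_pow, ← pow_mul]

theorem iv_iv (n : ℕ) (hn : 1 ≤ n) {w : ℂ} : iv n (iv n w) = w := by
  unfold iv
  have hn0 : (2 * (n : ℂ)) ≠ 0 := by
    have : (n : ℂ) ≠ 0 := by exact_mod_cast (by omega : n ≠ 0)
    exact mul_ne_zero two_ne_zero this
  rw [map_div₀, Complex.conj_conj]
  simp only [map_mul, Complex.conj_ofNat, Complex.conj_natCast]
  rw [div_div_cancel₀ hn0]

theorem norm_iv (n : ℕ) (w : ℂ) : ‖iv n w‖ = 2 * (n : ℝ) / ‖w‖ := by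
  unfold iv
  rw [norm_div, norm_mul, Complex.norm_conj]
  simp

theorem iv_ne {n : ℕ} (hn : 1 ≤ n) {w : ℂ} (hw : w ≠ 0) : iv n w ≠ 0 := by
  rw [← norm_pos_iff, norm_iv]
  have : (0 : ℝ) < n := by exact_mod_cast hn
  positivity

theorem iv_meas (n : ℕ) : Measurable (iv n) :=
  measurable_const.div Complex.continuous_conj.measurable

theorem img (n : ℕ) (hn : 1 ≤ n) : iv n '' ({0}ᶜ : Set ℂ) = {0}ᶜ := by
  ext w
  constructor
  · rintro ⟨z, hz, rfl⟩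
    exact iv_ne hn hz
  · intro hw
    exact ⟨iv n w, iv_ne hn hw, iv_iv n hn⟩

theorem inj (n : ℕ) (hn : 1 ≤ n) : Set.InjOn (iv n) ({0}ᶜ : Set ℂ) := by
  intro z _ w _ h
  have := congrArg (iv n) h
  rwa [iv_iv n hn, iv_iv n hn] at this

theorem cov (n : ℕ) (hn : 1 ≤ n) (f : ℂ → ℝ≥0∞) :
    ∫⁻ w, f w = ∫⁻ v, ENNReal.ofReal ((2 * (n : ℝ)) ^ 2 / ‖v‖ ^ 4) * f (iv n v) := by
  have h := lintegral_image_eq_lintegral_abs_det_fderiv_mul (volume : Measure ℂ)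
    (MeasurableSet.compl (measurableSet_singleton (0 : ℂ)))
    (fun x hx => (hasDi n hx).hasFDerivWithinAt) (inj n hn) f
  rw [img n hn, restrict_compl_singleton] at h
  rw [h]
  simp only [det_Di]

theorem cov2 (n : ℕ) (hn : 1 ≤ n) (f : ℂ → ℂ) :
    ∫ w, f w = ∫ v, (((2 * (n : ℝ)) ^ 2 / ‖v‖ ^ 4 : ℝ) : ℂ) * f (iv n v) := by
  have h := integral_image_eq_integral_abs_det_fderiv_smul (volume : Measure ℂ)
    (MeasurableSet.compl (measurableSet_singleton (0 : ℂ)))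
    (fun x hx => (hasDi n hx).hasFDerivWithinAt) (inj n hn) f
  rw [img n hn, restrict_compl_singleton] at h
  rw [h]
  simp only [det_Di, Complex.real_smul]

end Pool.Agent.N892.BW.PAL
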