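import Pool.Agent.N892.BW.Stm4

/-!
BW4/RTT, first file: `TS n` is linear, with continuous values. By helper310.
-/

set_option autoImplicit false

open MeasureTheory Filter Topology Complex Set
open scoped ComplexConjugate FourierTransform SchwartzMap

namespace Pool.Agent.N892.BW.RTT

theorem inner_eq (x ξ : ℂ) : (inner ℝ x ξ : ℝ) = x.re * ξ.re + x.im * ξ.im := by
  rw [Complex.inner]
  simp
  ring

theorem Ft_eq (f : 𝓢(ℂ, ℂ)) (ξ : ℂ) : (∫ x : ℂ, Complex.exp (-(2 * (Real.pi : ℂ) * Complex.I *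
    (((x.re * ξ.re + x.im * ξ.im : ℝ)) : ℂ))) * f x) = (𝓕 f : 𝓢(ℂ, ℂ)) ξ := by
  rw [SchwartzMap.fourier_coe, Real.fourier_eq']
  refine integral_congr_ae (Eventually.of_forall fun x => ?_)
  simp only [smul_eq_mul]
  rw [inner_eq]
  congr 2
  push_cast
  ring

/-- the character -/
noncomputable def EE (x ξ : ℂ) : ℂ :=
  Complex.exp (2 * (Real.pi : ℂ) * Complex.I * ((x.re * ξ.re + x.im * ξ.im : ℝ) : ℂ))

theorem norm_EE (x ξ : ℂ) : ‖EE x ξ‖ = 1 := by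
  unfold EE
  rw [Complex.norm_exp]
  have : (2 * (Real.pi : ℂ) * I * ((x.re * ξ.re + x.im * ξ.im : ℝ) : ℂ)).re = 0 := by
    simp only [Complex.mul_re, Complex.mul_im, Complex.ofReal_re, Complex.ofReal_im,
      Complex.I_re, Complex.I_im, Complex.re_ofNat, Complex.im_ofNat]
    ring
  rw [this, Real.exp_zero]

theorem EE_cont : Continuous fun p : ℂ × ℂ => EE p.1 p.2 := by
  unfold EE
  fun_prop

theorem TS_eq (n : ℕ) (f : 𝓢(ℂ, ℂ)) (z : ℂ) :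
    TS n f z = ∫ ξ : ℂ, EE z ξ * ((starRingEnd ℂ ξ / ξ) ^ n * (𝓕 f : 𝓢(ℂ, ℂ)) ξ) := by
  unfold TS EE
  refine integral_congr_ae (Eventually.of_forall fun ξ => ?_)
  simp only
  rw [Ft_eq]

theorem sym_norm (n : ℕ) (ξ : ℂ) : ‖(starRingEnd ℂ ξ / ξ) ^ n‖ ≤ 1 := by
  rw [norm_pow]
  refine pow_le_one₀ (norm_nonneg _) ?_
  rw [norm_div, RCLike.norm_conj]
  exact div_self_le_one _

theorem sym_meas (n : ℕ) : Measurable fun ξ : ℂ => (starRingEnd ℂ ξ / ξ) ^ n :=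
  ((Complex.continuous_conj.measurable).div measurable_id).pow_const n

theorem int_aux (n : ℕ) (f : 𝓢(ℂ, ℂ)) (z : ℂ) :
    Integrable fun ξ : ℂ => EE z ξ * ((starRingEnd ℂ ξ / ξ) ^ n * (𝓕 f : 𝓢(ℂ, ℂ)) ξ) := by
  have h1 : Integrable fun ξ : ℂ => (𝓕 f : 𝓢(ℂ, ℂ)) ξ := (𝓕 f : 𝓢(ℂ, ℂ)).integrable
  refine h1.norm.mono' ?_ (Eventually.of_forall fun ξ => ?_)
  · exact ((EE_cont.comp (by fun_prop : Continuous fun ξ : ℂ => (z, ξ))).aestronglyMeasurable).mul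
      ((sym_meas n).aestronglyMeasurable.mul (𝓕 f : 𝓢(ℂ, ℂ)).continuous.aestronglyMeasurable)
  · rw [norm_mul, norm_mul, norm_EE, one_mul]
    exact mul_le_of_le_one_left (norm_nonneg _) (sym_norm n ξ)

theorem TS_add (n : ℕ) (f g : 𝓢(ℂ, ℂ)) (z : ℂ) : TS n (f + g) z = TS n f z + TS n g z := by
  rw [TS_eq, TS_eq, TS_eq, ← integral_add (int_aux n f z) (int_aux n g z)]
  refine integral_congr_ae (Eventually.of_forall fun ξ => ?_)
  simp only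
  have h : (𝓕 (f + g) : 𝓢(ℂ, ℂ)) = 𝓕 f + 𝓕 g := FourierTransform.fourier_add f g
  rw [h, add_apply]
  ring

theorem TS_smul (n : ℕ) (c : ℂ) (f : 𝓢(ℂ, ℂ)) (z : ℂ) : TS n (c • f) z = c * TS n f z := by
  rw [TS_eq, TS_eq, ← integral_const_mul]
  refine integral_congr_ae (Eventually.of_forall fun ξ => ?_)
  simp only
  have h : (𝓕 (c • f) : 𝓢(ℂ, ℂ)) = c • 𝓕 f := FourierTransform.fourier_smul c f
  rw [h, smul_apply, smul_eq_mul]
  ring

theorem TS_zero (n : ℕ) (z : ℂ) : TS n 0 z = 0 := by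
  have h := TS_smul n 0 (0 : 𝓢(ℂ, ℂ)) z
  rwa [zero_smul, zero_mul] at h

theorem TS_sum {ι : Type} (n : ℕ) (S : Finset ι) (a : ι → ℂ) (f : ι → 𝓢(ℂ, ℂ)) (z : ℂ) :
    TS n (∑ i ∈ S, a i • f i) z = ∑ i ∈ S, a i * TS n (f i) z := by
  classical
  induction S using Finset.induction_on with
  | empty => rw [Finset.sum_empty, Finset.sum_empty, TS_zero]
  | insert i S hi ih => rw [Finset.sum_insert hi, Finset.sum_insert hi, TS_add, TS_smul, ih]

theorem TS_sub (n : ℕ) (f g : 𝓢(ℂ, ℂ)) (z : ℂ) : TS n (f - g) z = TS n f z - TS n g z := by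
  have h : f - g = f + (-1 : ℂ) • g := by
    rw [neg_one_smul, sub_eq_add_neg]
  rw [h, TS_add, TS_smul]
  ring

theorem TS_cont (n : ℕ) (f : 𝓢(ℂ, ℂ)) : Continuous (TS n f) := by
  have heq : TS n f = fun z => ∫ ξ : ℂ, EE z ξ * ((starRingEnd ℂ ξ / ξ) ^ n *
      (𝓕 f : 𝓢(ℂ, ℂ)) ξ) := funext fun z => TS_eq n f z
  rw [heq]
  have h1 : Integrable fun ξ : ℂ => (𝓕 f : 𝓢(ℂ, ℂ)) ξ := (𝓕 f : 𝓢(ℂ, ℂ)).integrable
  refine continuous_of_dominated (bound := fun ξ => ‖(𝓕 f : 𝓢(ℂ, ℂ)) ξ‖) (fun z => ?_)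
    (fun z => Eventually.of_forall fun ξ => ?_) h1.norm (Eventually.of_forall fun ξ => ?_)
  · exact (int_aux n f z).aestronglyMeasurable
  · rw [norm_mul, norm_mul, norm_EE, one_mul]
    exact mul_le_of_le_one_left (norm_nonneg _) (sym_norm n ξ)
  · exact (EE_cont.comp (by fun_prop : Continuous fun z : ℂ => (z, ξ))).mul continuous_const

end Pool.Agent.N892.BW.RTT
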