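import Pool.Agent.N892.BW.RTT_A

/-!
BW4/RTT, second file: cells and averages. By helper310.
-/

set_option autoImplicit false

open MeasureTheory Filter Topology Complex Set
open scoped ComplexConjugate ENNReal

namespace Pool.Agent.N892.BW.RTT

/-- the cells of the grid of mesh `1 / L` -/
def Ec (L : ℝ) (n : ℤ × ℤ) : Set ℂ := {x | ⌊L * x.re⌋ = n.1 ∧ ⌊L * x.im⌋ = n.2}

theorem Ec_meas (L : ℝ) (n : ℤ × ℤ) : MeasurableSet (Ec L n) := by
  have h1 : Measurable fun x : ℂ => ⌊L * x.re⌋ :=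
    Int.measurable_floor.comp (measurable_const.mul Complex.measurable_re)
  have h2 : Measurable fun x : ℂ => ⌊L * x.im⌋ :=
    Int.measurable_floor.comp (measurable_const.mul Complex.measurable_im)
  exact (h1 (measurableSet_singleton n.1)).inter (h2 (measurableSet_singleton n.2))

theorem Ec_disj (L : ℝ) (S : Set (ℤ × ℤ)) : S.PairwiseDisjoint (Ec L) := by
  intro m _ n _ hmn
  refine Set.disjoint_left.2 fun x hx hy => hmn ?_
  exact Prod.ext (hx.1.symm.trans hy.1) (hx.2.symm.trans hy.2)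

theorem Ec_bd {L : ℝ} {n : ℤ × ℤ} {x : ℂ} (hx : x ∈ Ec L n) :
    (n.1 : ℝ) ≤ L * x.re ∧ L * x.re < n.1 + 1 ∧ (n.2 : ℝ) ≤ L * x.im ∧ L * x.im < n.2 + 1 := by
  have h1 := hx.1
  have h2 := hx.2
  rw [Int.floor_eq_iff] at h1 h2
  exact ⟨h1.1, h1.2, h2.1, h2.2⟩

/-- the reciprocal of the area of the cells -/
noncomputable def cc (L : ℝ) : ℝ≥0∞ := ENNReal.ofReal (L ^ 2)

theorem cc_ne {L : ℝ} (hL : 0 < L) : cc L ≠ 0 ∧ cc L ≠ ∞ := by
  unfold cc
  constructor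
  · rw [Ne, ENNReal.ofReal_eq_zero, not_le]; positivity
  · exact ENNReal.ofReal_ne_top

theorem Ec_vol {L : ℝ} (hL : 0 < L) (n : ℤ × ℤ) : volume (Ec L n) = (cc L)⁻¹ := by
  have h1 : Ec L n = Complex.measurableEquivRealProd ⁻¹'
      (Set.Ico ((n.1 : ℝ) / L) ((n.1 + 1) / L) ×ˢ Set.Ico ((n.2 : ℝ) / L) ((n.2 + 1) / L)) := by
    ext x
    simp only [Ec, Set.mem_ofPred_eq, Set.mem_preimage, Set.mem_prod, Set.mem_Ico,
      Complex.measurableEquivRealProd_apply, Int.floor_eq_iff, div_le_iff₀ hL, lt_div_iff₀ hL,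
      mul_comm L]
  rw [h1, Complex.volume_preserving_equiv_real_prod.measure_preimage
    (measurableSet_Ico.prod measurableSet_Ico).nullMeasurableSet, Measure.volume_eq_prod,
    Measure.prod_prod, Real.volume_Ico, Real.volume_Ico, ← ENNReal.ofReal_mul (by
      rw [← sub_div]; simp; positivity)]
  unfold cc
  rw [← ENNReal.ofReal_inv_of_pos (by positivity)]
  congr 1
  field_simp
  ring

/-- the averages over the cells -/
noncomputable def Av (L : ℝ) (n : ℤ × ℤ) (h : ℂ → ℂ) : ℂ := ((L ^ 2 : ℝ) : ℂ) * ∫ x in Ec L n, h x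

theorem Ec_int {L : ℝ} (hL : 0 < L) (n : ℤ × ℤ) {h : ℂ → ℂ} (hh : Continuous h) :
    IntegrableOn h (Ec L n) := by
  have h1 : Ec L n ⊆ Metric.closedBall (0 : ℂ) (((|(n.1 : ℝ)| + 1) + (|(n.2 : ℝ)| + 1)) / L) := by
    intro x hx
    obtain ⟨e1, e2, e3, e4⟩ := Ec_bd hx
    rw [mem_closedBall_zero_iff]
    have f1 : |L * x.re| ≤ |(n.1 : ℝ)| + 1 := by
      rw [abs_le]
      constructor
      · have := neg_abs_le (n.1 : ℝ); linarith
      · have := le_abs_self (n.1 : ℝ); linarith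
    have f2 : |L * x.im| ≤ |(n.2 : ℝ)| + 1 := by
      rw [abs_le]
      constructor
      · have := neg_abs_le (n.2 : ℝ); linarith
      · have := le_abs_self (n.2 : ℝ); linarith
    rw [abs_mul, abs_of_pos hL] at f1 f2
    rw [le_div_iff₀ hL]
    have f3 := Complex.norm_le_abs_re_add_abs_im x
    nlinarith
  exact ((hh.locallyIntegrable (μ := volume)).integrableOn_isCompact
    (isCompact_closedBall _ _)).mono_set h1

theorem Av_sum {L : ℝ} (hL : 0 < L) (n : ℤ × ℤ) {ι : Type} (S : Finset ι) (a : ι → ℂ)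
    (h : ι → ℂ → ℂ) (hh : ∀ i, Continuous (h i)) :
    Av L n (fun x => ∑ i ∈ S, a i * h i x) = ∑ i ∈ S, a i * Av L n (h i) := by
  unfold Av
  rw [integral_finsetSum _ fun i _ => (Ec_int hL n (hh i)).const_mul (a i), Finset.mul_sum]
  refine Finset.sum_congr rfl fun i _ => ?_
  rw [integral_const_mul]
  ring

theorem Av_close {L : ℝ} (hL : 0 < L) (n : ℤ × ℤ) {h : ℂ → ℂ} (hh : Continuous h) (w : ℂ) {ε : ℝ}
    (hε : ∀ y ∈ Ec L n, ‖h y - w‖ ≤ ε) : ‖Av L n h - w‖ ≤ ε := by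
  have hvol := Ec_vol hL n
  have hreal : (volume : Measure ℂ).real (Ec L n) = (L ^ 2)⁻¹ := by
    rw [Measure.real, hvol, cc, ENNReal.toReal_inv, ENNReal.toReal_ofReal (by positivity)]
  have hlt : volume (Ec L n) < ∞ := by
    rw [hvol]
    exact ENNReal.inv_lt_top.2 (pos_iff_ne_zero.2 (cc_ne hL).1)
  have h1 : Av L n h - w = ((L ^ 2 : ℝ) : ℂ) * ∫ x in Ec L n, (h x - w) := by
    have hi : IntegrableOn (fun _ : ℂ => w) (Ec L n) := Ec_int hL n continuous_const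
    rw [integral_sub (Ec_int hL n hh) hi, setIntegral_const, hreal, mul_sub]
    unfold Av
    congr 1
    rw [Complex.real_smul]
    push_cast
    have hLc : (L : ℂ) ≠ 0 := by exact_mod_cast hL.ne'
    field_simp
  rw [h1, norm_mul, Complex.norm_real, Real.norm_of_nonneg (by positivity)]
  have h2 := norm_setIntegral_le_of_norm_le_const (μ := volume) hlt hε
  rw [hreal] at h2
  calc L ^ 2 * ‖∫ x in Ec L n, (h x - w)‖ ≤ L ^ 2 * (ε * (L ^ 2)⁻¹) :=
        mul_le_mul_of_nonneg_left h2 (by positivity)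
    _ = ε := by field_simp

theorem Av_pow {L : ℝ} (hL : 0 < L) (n : ℤ × ℤ) {h : ℂ → ℂ} (hh : Continuous h) {q : ℝ}
    (hq : 1 < q) : ‖Av L n h‖ₑ ^ q ≤ cc L * ∫⁻ x in Ec L n, ‖h x‖ₑ ^ q := by
  have hq0 : 0 < q := by linarith
  obtain ⟨c0, ct⟩ := cc_ne hL
  have hconj : q.HolderConjugate (Real.conjExponent q) := Real.HolderConjugate.conjExponent hq
  have h1 : ‖Av L n h‖ₑ ≤ cc L * ∫⁻ x in Ec L n, ‖h x‖ₑ := by
    unfold Av
    rw [enorm_mul]
    refine mul_le_mul' (le_of_eq ?_) (enorm_integral_le_lintegral_enorm _)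
    rw [cc, ← ofReal_norm, Complex.norm_real, Real.norm_of_nonneg (by positivity)]
  have h2 : ∫⁻ x in Ec L n, ‖h x‖ₑ ≤ (∫⁻ x in Ec L n, ‖h x‖ₑ ^ q) ^ (1 / q) *
      ((cc L)⁻¹) ^ (1 / Real.conjExponent q) := by
    have h3 := ENNReal.lintegral_mul_le_Lp_mul_Lq (volume.restrict (Ec L n)) hconj
      (f := fun x => ‖h x‖ₑ) (g := fun _ => 1) (hh.enorm.measurable.aemeasurable)
      aemeasurable_const
    simp only [Pi.mul_apply, mul_one, ENNReal.one_rpow, lintegral_const, one_mul,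
      Measure.restrict_apply MeasurableSet.univ, Set.univ_inter, Ec_vol hL n] at h3
    exact h3
  calc ‖Av L n h‖ₑ ^ q ≤ (cc L * ((∫⁻ x in Ec L n, ‖h x‖ₑ ^ q) ^ (1 / q) *
        ((cc L)⁻¹) ^ (1 / Real.conjExponent q))) ^ q :=
        ENNReal.rpow_le_rpow (h1.trans (mul_le_mul_right h2 _)) hq0.le
    _ = (cc L ^ q * (((cc L)⁻¹) ^ (1 / Real.conjExponent q)) ^ q) *
        ((∫⁻ x in Ec L n, ‖h x‖ₑ ^ q) ^ (1 / q)) ^ q := by
        rw [ENNReal.mul_rpow_of_nonneg _ _ hq0.le, ENNReal.mul_rpow_of_nonneg _ _ hq0.le]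
        ring
    _ = cc L * ∫⁻ x in Ec L n, ‖h x‖ₑ ^ q := by
        rw [← ENNReal.rpow_mul, ← ENNReal.rpow_mul, one_div_mul_cancel hq0.ne', ENNReal.rpow_one,
          ENNReal.inv_rpow, ← ENNReal.rpow_neg, ← ENNReal.rpow_add _ _ c0 ct]
        have h4 : q + -(1 / Real.conjExponent q * q) = 1 := by
          have h5 := hconj.inv_add_inv_eq_one
          have h6 : 1 / Real.conjExponent q = 1 - q⁻¹ := by rw [one_div]; linarith
          rw [h6]
          field_simp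
          ring
        rw [h4, ENNReal.rpow_one]

theorem Av_pow_sum {L : ℝ} (hL : 0 < L) (S : Finset (ℤ × ℤ)) {h : ℂ → ℂ} (hh : Continuous h) {q : ℝ}
    (hq : 1 < q) : ∑ n ∈ S, ‖Av L n h‖ₑ ^ q ≤ cc L * ∫⁻ x, ‖h x‖ₑ ^ q := by
  calc ∑ n ∈ S, ‖Av L n h‖ₑ ^ q ≤ ∑ n ∈ S, cc L * ∫⁻ x in Ec L n, ‖h x‖ₑ ^ q :=
        Finset.sum_le_sum fun n _ => Av_pow hL n hh hq
    _ = cc L * ∫⁻ x in ⋃ n ∈ S, Ec L n, ‖h x‖ₑ ^ q := by
        rw [lintegral_biUnion_finset (Ec_disj L _) fun n _ => Ec_meas L n, Finset.mul_sum]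
    _ ≤ cc L * ∫⁻ x, ‖h x‖ₑ ^ q := mul_le_mul_right (setLIntegral_le_lintegral _ _) _

end Pool.Agent.N892.BW.RTT
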