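import Pool.Agent.N892.BW.RTT_B

/-!
BW4/RTT, third file: smooth bumps and discrete synthesis. By helper310.
-/

set_option autoImplicit false

open MeasureTheory Filter Topology Complex Set
open scoped ComplexConjugate ENNReal SchwartzMap ContDiff

namespace Pool.Agent.N892.BW.RTT

/-- the bump of one variable -/
noncomputable def uu (t : ℝ) : ℝ := Real.smoothTransition (t + 1) - Real.smoothTransition t

theorem uu_nonneg (t : ℝ) : 0 ≤ uu t := by
  unfold uu
  exact sub_nonneg.2 (Real.smoothTransition.monotone (by linarith))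

theorem uu_zero {t : ℝ} (h : uu t ≠ 0) : |t| ≤ 1 := by
  by_contra hc
  rw [not_le, lt_abs] at hc
  apply h
  unfold uu
  rcases hc with hc | hc
  · rw [Real.smoothTransition.one_of_one_le hc.le, Real.smoothTransition.one_of_one_le (by linarith),
      sub_self]
  · rw [Real.smoothTransition.zero_of_nonpos (by linarith),
      Real.smoothTransition.zero_of_nonpos (by linarith), sub_self]

theorem uu_cont : Continuous uu := by
  unfold uu
  exact (Real.smoothTransition.continuous.comp (by fun_prop)).sub Real.smoothTransition.continuous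

theorem uu_smooth : ContDiff ℝ ∞ uu := by
  unfold uu
  exact (Real.smoothTransition.contDiff.comp (by fun_prop)).sub Real.smoothTransition.contDiff

theorem uu_int : ∫ t, uu t = 1 := by
  have h1 : ∫ t, uu t = ∫ t in (-1 : ℝ)..1, uu t := by
    rw [intervalIntegral.integral_of_le (by norm_num), ← integral_Icc_eq_integral_Ioc]
    refine (setIntegral_eq_integral_of_forall_compl_eq_zero fun t ht => ?_).symm
    by_contra hc
    exact ht (abs_le.1 (uu_zero hc))
  have hc := Real.smoothTransition.continuous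
  have hi : ∀ a b : ℝ, IntervalIntegrable Real.smoothTransition volume a b := fun a b =>
    hc.intervalIntegrable a b
  have h2 : ∫ t in (-1 : ℝ)..1, uu t = (∫ t in (-1 : ℝ)..1, Real.smoothTransition (t + 1)) -
      ∫ t in (-1 : ℝ)..1, Real.smoothTransition t := by
    unfold uu
    exact intervalIntegral.integral_sub
      ((hc.comp (by fun_prop : Continuous fun t : ℝ => t + 1)).intervalIntegrable _ _) (hi _ _)
  have h3 : (∫ t in (-1 : ℝ)..1, Real.smoothTransition (t + 1)) =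
      ∫ t in (0 : ℝ)..2, Real.smoothTransition t := by
    rw [intervalIntegral.integral_comp_add_right (fun t => Real.smoothTransition t)]
    norm_num
  have h4 : (∫ t in (0 : ℝ)..2, Real.smoothTransition t) =
      (∫ t in (0 : ℝ)..1, Real.smoothTransition t) + 1 := by
    rw [← intervalIntegral.integral_add_adjacent_intervals (hi 0 1) (hi 1 2)]
    congr 1
    have h5 : (∫ t in (1 : ℝ)..2, Real.smoothTransition t) = ∫ t in (1 : ℝ)..2, (1 : ℝ) := by
      refine intervalIntegral.integral_congr fun t ht => ?_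
      rw [Set.uIcc_of_le (by norm_num)] at ht
      exact Real.smoothTransition.one_of_one_le ht.1
    rw [h5]
    norm_num
  have h6 : (∫ t in (-1 : ℝ)..1, Real.smoothTransition t) =
      ∫ t in (0 : ℝ)..1, Real.smoothTransition t := by
    rw [← intervalIntegral.integral_add_adjacent_intervals (hi (-1) 0) (hi 0 1)]
    have h5 : (∫ t in (-1 : ℝ)..0, Real.smoothTransition t) = ∫ t in (-1 : ℝ)..0, (0 : ℝ) := by
      refine intervalIntegral.integral_congr fun t ht => ?_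
      rw [Set.uIcc_of_le (by norm_num)] at ht
      exact Real.smoothTransition.zero_of_nonpos ht.2
    rw [h5]
    norm_num
  rw [h1, h2, h3, h4, h6]
  ring

theorem uu_sum (M : ℕ) (t : ℝ) : ∑ j ∈ Finset.Ico (-(M : ℤ)) M, uu (t - j) =
    Real.smoothTransition (t + M + 1) - Real.smoothTransition (t - M + 1) := by
  induction M with
  | zero => simp
  | succ M ih =>
    have h1 : Finset.Ico (-((M + 1 : ℕ) : ℤ)) ((M + 1 : ℕ) : ℤ) =
        insert (-((M : ℤ) + 1)) (insert (M : ℤ) (Finset.Ico (-(M : ℤ)) M)) := by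
      ext j
      simp only [Finset.mem_Ico, Finset.mem_insert]
      push_cast
      omega
    have h2 : (-((M : ℤ) + 1)) ∉ insert (M : ℤ) (Finset.Ico (-(M : ℤ)) M) := by
      simp only [Finset.mem_Ico, Finset.mem_insert]
      omega
    have h3 : (M : ℤ) ∉ Finset.Ico (-(M : ℤ)) M := by
      simp only [Finset.mem_Ico]
      omega
    rw [h1, Finset.sum_insert h2, Finset.sum_insert h3, ih]
    unfold uu
    push_cast
    have e1 : t - (-((M : ℝ) + 1)) + 1 = t + (M + 1) + 1 := by ring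
    have e2 : t - (-((M : ℝ) + 1)) = t + M + 1 := by ring
    have e3 : t - ((M : ℝ) + 1) + 1 = t - M := by ring
    rw [e1, e2, e3]
    ring

theorem uu_sum_le (M : ℕ) (t : ℝ) : ∑ j ∈ Finset.Ico (-(M : ℤ)) M, uu (t - j) ≤ 1 := by
  rw [uu_sum]
  have h1 := Real.smoothTransition.le_one (t + M + 1)
  have h2 := Real.smoothTransition.nonneg (t - M + 1)
  linarith

theorem uu_sum_eq {M : ℕ} {t : ℝ} (h : |t| + 1 ≤ M) :
    ∑ j ∈ Finset.Ico (-(M : ℤ)) M, uu (t - j) = 1 := by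
  rw [uu_sum]
  have h1 := neg_abs_le t
  have h2 := le_abs_self t
  rw [Real.smoothTransition.one_of_one_le (by linarith),
    Real.smoothTransition.zero_of_nonpos (by linarith), sub_zero]

/-- the bump at the grid point `n / L` -/
noncomputable def fi (L : ℝ) (n : ℤ × ℤ) (x : ℂ) : ℝ := uu (L * x.re - n.1) * uu (L * x.im - n.2)

/-- the box of grid points -/
noncomputable def Bx (M : ℕ) : Finset (ℤ × ℤ) := Finset.Ico (-(M : ℤ)) M ×ˢ Finset.Ico (-(M : ℤ)) M

theorem fi_nonneg (L : ℝ) (n : ℤ × ℤ) (x : ℂ) : 0 ≤ fi L n x := mul_nonneg (uu_nonneg _) (uu_nonneg _)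

theorem fi_cont (L : ℝ) (n : ℤ × ℤ) : Continuous (fi L n) := by
  unfold fi
  exact (uu_cont.comp (by fun_prop)).mul (uu_cont.comp (by fun_prop))

theorem fi_sum (L : ℝ) (M : ℕ) (x : ℂ) : ∑ n ∈ Bx M, fi L n x =
    (∑ j ∈ Finset.Ico (-(M : ℤ)) M, uu (L * x.re - j)) *
      ∑ j ∈ Finset.Ico (-(M : ℤ)) M, uu (L * x.im - j) := by
  unfold Bx fi
  rw [Finset.sum_product, Finset.sum_mul_sum]

theorem fi_sum_le (L : ℝ) (M : ℕ) (x : ℂ) : ∑ n ∈ Bx M, fi L n x ≤ 1 := by
  rw [fi_sum]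
  exact mul_le_one₀ (uu_sum_le _ _) (Finset.sum_nonneg fun j _ => uu_nonneg _) (uu_sum_le _ _)

theorem fi_sum_eq {L : ℝ} {M : ℕ} {x : ℂ} (h1 : |L * x.re| + 1 ≤ M) (h2 : |L * x.im| + 1 ≤ M) :
    ∑ n ∈ Bx M, fi L n x = 1 := by
  rw [fi_sum, uu_sum_eq h1, uu_sum_eq h2, one_mul]

theorem fi_near {L : ℝ} (hL : 0 < L) {n : ℤ × ℤ} {x y : ℂ} (hx : fi L n x ≠ 0) (hy : y ∈ Ec L n) :
    ‖y - x‖ ≤ 4 / L := by
  unfold fi at hx
  have h1 := uu_zero (left_ne_zero_of_mul hx)
  have h2 := uu_zero (right_ne_zero_of_mul hx)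
  rw [abs_le] at h1 h2
  obtain ⟨e1, e2, e3, e4⟩ := Ec_bd hy
  have f1 : |L * (y - x).re| ≤ 2 := by
    rw [Complex.sub_re, abs_le]
    constructor <;> nlinarith
  have f2 : |L * (y - x).im| ≤ 2 := by
    rw [Complex.sub_im, abs_le]
    constructor <;> nlinarith
  rw [abs_mul, abs_of_pos hL] at f1 f2
  rw [le_div_iff₀ hL]
  have f3 := Complex.norm_le_abs_re_add_abs_im (y - x)
  nlinarith

theorem fi_integral {L : ℝ} (hL : 0 < L) (n : ℤ × ℤ) :
    ∫⁻ x, ENNReal.ofReal (fi L n x) = (cc L)⁻¹ := by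
  have hone : ∀ a : ℝ, ∫ t, uu (L * t - a) = L⁻¹ := by
    intro a
    have h1 : ∫ t, uu (L * t - a) = |L⁻¹| • ∫ t, uu (t - a) :=
      Measure.integral_comp_mul_left (fun t => uu (t - a)) L
    rw [h1, integral_sub_right_eq_self uu a, uu_int, abs_of_pos (inv_pos.2 hL), smul_eq_mul, mul_one]
  have hi1 : ∀ a : ℝ, Integrable fun t : ℝ => uu (L * t - a) := fun a =>
    Integrable.of_integral_ne_zero (by rw [hone]; exact (inv_pos.2 hL).ne')
  have h2 : ∫ x : ℂ, fi L n x = ∫ z : ℝ × ℝ, uu (L * z.1 - n.1) * uu (L * z.2 - n.2) := by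
    rw [← Complex.volume_preserving_equiv_real_prod.integral_comp
      Complex.measurableEquivRealProd.measurableEmbedding]
    rfl
  have h3 : ∫ x : ℂ, fi L n x = (L ^ 2)⁻¹ := by
    rw [h2, Measure.volume_eq_prod, integral_prod_mul (fun t => uu (L * t - n.1))
      (fun t => uu (L * t - n.2)), hone, hone]
    field_simp
  have h4 : Integrable (fi L n) := Integrable.of_integral_ne_zero (by
    rw [h3]; positivity)
  rw [← ofReal_integral_eq_lintegral_ofReal h4 (Eventually.of_forall (fi_nonneg L n)), h3, cc,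
    ENNReal.ofReal_inv_of_pos (by positivity)]

/-- the bumps as Schwartz functions -/
noncomputable def Fi' {L : ℝ} (hL : 0 < L) (n : ℤ × ℤ) : 𝓢(ℂ, ℂ) :=
  HasCompactSupport.toSchwartzMap (f := fun x : ℂ => ((fi L n x : ℝ) : ℂ))
    (by
      refine HasCompactSupport.intro (isCompact_closedBall (0 : ℂ)
        (((|(n.1 : ℝ)| + 1) + (|(n.2 : ℝ)| + 1)) / L)) fun x hx => ?_
      by_contra hc
      apply hx
      have hc' : fi L n x ≠ 0 := fun h => hc (by rw [h]; rfl)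
      unfold fi at hc'
      have h1 := uu_zero (left_ne_zero_of_mul hc')
      have h2 := uu_zero (right_ne_zero_of_mul hc')
      rw [mem_closedBall_zero_iff, le_div_iff₀ hL]
      have f1 : |L * x.re| ≤ |(n.1 : ℝ)| + 1 := by
        have := abs_sub_abs_le_abs_sub (L * x.re) n.1
        linarith
      have f2 : |L * x.im| ≤ |(n.2 : ℝ)| + 1 := by
        have := abs_sub_abs_le_abs_sub (L * x.im) n.2
        linarith
      rw [abs_mul, abs_of_pos hL] at f1 f2
      have f3 := Complex.norm_le_abs_re_add_abs_im x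
      nlinarith)
    (by
      have h1 : ContDiff ℝ ∞ fun x : ℂ => L * x.re - n.1 :=
        (contDiff_const.mul Complex.reCLM.contDiff).sub contDiff_const
      have h2 : ContDiff ℝ ∞ fun x : ℂ => L * x.im - n.2 :=
        (contDiff_const.mul Complex.imCLM.contDiff).sub contDiff_const
      exact Complex.ofRealCLM.contDiff.comp ((uu_smooth.comp h1).mul (uu_smooth.comp h2)))

theorem Fi'_apply {L : ℝ} (hL : 0 < L) (n : ℤ × ℤ) (x : ℂ) : Fi' hL n x = ((fi L n x : ℝ) : ℂ) := rfl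

/-- discrete synthesis -/
noncomputable def sn {L : ℝ} (hL : 0 < L) (M : ℕ) (a : ℤ × ℤ → ℂ) : 𝓢(ℂ, ℂ) :=
  ∑ n ∈ Bx M, a n • Fi' hL n

theorem sn_apply {L : ℝ} (hL : 0 < L) (M : ℕ) (a : ℤ × ℤ → ℂ) (x : ℂ) :
    sn hL M a x = ∑ n ∈ Bx M, a n * ((fi L n x : ℝ) : ℂ) := by
  unfold sn
  rw [sum_apply]
  rfl

theorem sn_norm {L : ℝ} (hL : 0 < L) (M : ℕ) (a : ℤ × ℤ → ℂ) {q : ℝ} (hq : 1 < q) :
    ∫⁻ x, ‖sn hL M a x‖ₑ ^ q ≤ (∑ n ∈ Bx M, ‖a n‖ₑ ^ q) * (cc L)⁻¹ := by
  have hq0 : 0 < q := by linarith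
  have hpt : ∀ x : ℂ, ‖sn hL M a x‖ₑ ^ q ≤
      ∑ n ∈ Bx M, ENNReal.ofReal (fi L n x) * ‖a n‖ₑ ^ q := by
    intro x
    rw [sn_apply]
    have h1 : ‖∑ n ∈ Bx M, a n * ((fi L n x : ℝ) : ℂ)‖ₑ ≤
        ∑ n ∈ Bx M, ENNReal.ofReal (fi L n x) * ‖a n‖ₑ := by
      refine (enorm_sum_le _ _).trans (Finset.sum_le_sum fun n _ => ?_)
      rw [enorm_mul, mul_comm, ← ofReal_norm ((fi L n x : ℝ) : ℂ), Complex.norm_real,
        Real.norm_of_nonneg (fi_nonneg L n x)]
    have h2 := ENNReal.inner_le_weight_mul_Lp_of_nonneg (Bx M) hq.le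
      (fun n => ENNReal.ofReal (fi L n x)) (fun n => ‖a n‖ₑ)
    have h3 : (∑ n ∈ Bx M, ENNReal.ofReal (fi L n x)) ^ (1 - q⁻¹) ≤ 1 := by
      refine ENNReal.rpow_le_one ?_ ?_
      · rw [← ENNReal.ofReal_sum_of_nonneg fun n _ => fi_nonneg L n x, ← ENNReal.ofReal_one]
        exact ENNReal.ofReal_le_ofReal (fi_sum_le L M x)
      · rw [sub_nonneg]
        exact inv_le_one_of_one_le₀ hq.le
    have h4 : ‖∑ n ∈ Bx M, a n * ((fi L n x : ℝ) : ℂ)‖ₑ ≤
        (∑ n ∈ Bx M, ENNReal.ofReal (fi L n x) * ‖a n‖ₑ ^ q) ^ q⁻¹ := by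
      refine (h1.trans h2).trans ?_
      calc _ ≤ 1 * (∑ n ∈ Bx M, ENNReal.ofReal (fi L n x) * ‖a n‖ₑ ^ q) ^ q⁻¹ :=
            mul_le_mul_left h3 _
        _ = _ := one_mul _
    calc ‖∑ n ∈ Bx M, a n * ((fi L n x : ℝ) : ℂ)‖ₑ ^ q ≤
          ((∑ n ∈ Bx M, ENNReal.ofReal (fi L n x) * ‖a n‖ₑ ^ q) ^ q⁻¹) ^ q :=
          ENNReal.rpow_le_rpow h4 hq0.le
      _ = _ := ENNReal.rpow_inv_rpow hq0.ne' _
  calc ∫⁻ x, ‖sn hL M a x‖ₑ ^ q ≤ ∫⁻ x, ∑ n ∈ Bx M, ENNReal.ofReal (fi L n x) * ‖a n‖ₑ ^ q :=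
        lintegral_mono hpt
    _ = ∑ n ∈ Bx M, ∫⁻ x, ENNReal.ofReal (fi L n x) * ‖a n‖ₑ ^ q := by
        rw [lintegral_finsetSum]
        intro n _
        exact ((fi_cont L n).measurable.ennreal_ofReal).mul_const _
    _ = ∑ n ∈ Bx M, (cc L)⁻¹ * ‖a n‖ₑ ^ q := by
        refine Finset.sum_congr rfl fun n _ => ?_
        rw [lintegral_mul_const _ (fi_cont L n).measurable.ennreal_ofReal, fi_integral hL]
    _ = (∑ n ∈ Bx M, ‖a n‖ₑ ^ q) * (cc L)⁻¹ := by
        rw [← Finset.mul_sum, mul_comm]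

end Pool.Agent.N892.BW.RTT
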