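import Pool.Agent.N892.BW.RTT_C

/-!
BW4/RTT, fourth file: approximation of Schwartz functions. By helper310.
-/

set_option autoImplicit false

open MeasureTheory Filter Topology Complex Set
open scoped ComplexConjugate ENNReal SchwartzMap ContDiff

namespace Pool.Agent.N892.BW.RTT

theorem decay4 (f : 𝓢(ℂ, ℂ)) : ∃ C : ℝ, 0 < C ∧ ∀ x y : ℂ, ‖y - x‖ ≤ 4 →
    ‖f y‖ ≤ C * (1 + ‖x‖) ^ (-2 : ℝ) := by
  obtain ⟨C0, hC0⟩ : ∃ C0 : ℝ, ∀ y : ℂ, (1 + ‖y‖) ^ 2 * ‖f y‖ ≤ C0 := by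
    refine ⟨2 ^ ((2, 0) : ℕ × ℕ).1 * (Finset.Iic ((2, 0) : ℕ × ℕ)).sup
      (fun m => SchwartzMap.seminorm ℝ m.1 m.2) f, fun y => ?_⟩
    have h := SchwartzMap.one_add_le_sup_seminorm_apply (𝕜 := ℝ) (m := (2, 0)) (k := 2) (n := 0)
      le_rfl le_rfl f y
    rw [norm_iteratedFDeriv_zero] at h
    exact h
  refine ⟨25 * |C0| + 1, by positivity, fun x y hxy => ?_⟩
  have h1 : 1 + ‖x‖ ≤ 5 * (1 + ‖y‖) := by
    have h2 : ‖x‖ ≤ ‖y‖ + ‖y - x‖ := by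
      have := norm_sub_le y (y - x)
      rwa [sub_sub_cancel] at this
    have := norm_nonneg y
    linarith
  have h0 : 0 < 1 + ‖x‖ := by positivity
  rw [Real.rpow_neg h0.le, Real.rpow_two, ← div_eq_mul_inv, le_div_iff₀ (by positivity)]
  have h3 : (1 + ‖x‖) ^ 2 ≤ 25 * (1 + ‖y‖) ^ 2 := by
    have := pow_le_pow_left₀ h0.le h1 2
    calc (1 + ‖x‖) ^ 2 ≤ (5 * (1 + ‖y‖)) ^ 2 := this
      _ = _ := by ring
  calc ‖f y‖ * (1 + ‖x‖) ^ 2 ≤ ‖f y‖ * (25 * (1 + ‖y‖) ^ 2) :=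
        mul_le_mul_of_nonneg_left h3 (norm_nonneg _)
    _ = 25 * ((1 + ‖y‖) ^ 2 * ‖f y‖) := by ring
    _ ≤ 25 * |C0| + 1 := by
        have := hC0 y
        have := le_abs_self C0
        linarith

/-- the scale -/
noncomputable def LL (N : ℕ) : ℝ := (N : ℝ) + 1

theorem LL_pos (N : ℕ) : 0 < LL N := by unfold LL; positivity

theorem LL_one (N : ℕ) : 1 ≤ LL N := by
  unfold LL
  have : (0 : ℝ) ≤ N := Nat.cast_nonneg N
  linarith

/-- the size of the box -/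
def MM (N : ℕ) : ℕ := (N + 1) ^ 2

/-- the approximation -/
noncomputable def ap (N : ℕ) (f : 𝓢(ℂ, ℂ)) : 𝓢(ℂ, ℂ) :=
  sn (LL_pos N) (MM N) (fun n => Av (LL N) n f)

theorem ap_bound {f : 𝓢(ℂ, ℂ)} {C : ℝ} (hC : ∀ x y : ℂ, ‖y - x‖ ≤ 4 →
    ‖f y‖ ≤ C * (1 + ‖x‖) ^ (-2 : ℝ)) (hC0 : 0 < C) (N : ℕ) (x : ℂ) :
    ‖ap N f x‖ ≤ C * (1 + ‖x‖) ^ (-2 : ℝ) := by
  unfold ap
  rw [sn_apply]
  have hG : 0 ≤ C * (1 + ‖x‖) ^ (-2 : ℝ) := by positivity
  have h1 : ∀ n ∈ Bx (MM N), ‖Av (LL N) n f * ((fi (LL N) n x : ℝ) : ℂ)‖ ≤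
      (C * (1 + ‖x‖) ^ (-2 : ℝ)) * fi (LL N) n x := by
    intro n _
    rw [norm_mul, Complex.norm_real, Real.norm_of_nonneg (fi_nonneg _ n x)]
    by_cases h : fi (LL N) n x = 0
    · rw [h, mul_zero, mul_zero]
    · refine mul_le_mul_of_nonneg_right ?_ (fi_nonneg _ n x)
      have h2 := Av_close (LL_pos N) n f.continuous 0 (ε := C * (1 + ‖x‖) ^ (-2 : ℝ)) fun y hy => by
        rw [sub_zero]
        refine hC x y ((fi_near (LL_pos N) h hy).trans ?_)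
        rw [div_le_iff₀ (LL_pos N)]
        have := LL_one N
        linarith
      rwa [sub_zero] at h2
  calc _ ≤ ∑ n ∈ Bx (MM N), ‖Av (LL N) n f * ((fi (LL N) n x : ℝ) : ℂ)‖ := norm_sum_le _ _
    _ ≤ ∑ n ∈ Bx (MM N), (C * (1 + ‖x‖) ^ (-2 : ℝ)) * fi (LL N) n x := Finset.sum_le_sum h1
    _ = (C * (1 + ‖x‖) ^ (-2 : ℝ)) * ∑ n ∈ Bx (MM N), fi (LL N) n x := by rw [Finset.mul_sum]
    _ ≤ (C * (1 + ‖x‖) ^ (-2 : ℝ)) * 1 := mul_le_mul_of_nonneg_left (fi_sum_le _ _ _) hG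
    _ = _ := mul_one _

theorem box_ok {N : ℕ} {x : ℂ} (h : ‖x‖ + 1 ≤ N) : |LL N * x.re| + 1 ≤ (MM N : ℝ) ∧
    |LL N * x.im| + 1 ≤ (MM N : ℝ) := by
  have h1 := Complex.abs_re_le_norm x
  have h2 := Complex.abs_im_le_norm x
  have h3 := LL_one N
  have h4 := norm_nonneg x
  have h5 : (MM N : ℝ) = LL N ^ 2 := by unfold MM LL; push_cast; ring
  have h6 : (N : ℝ) ≤ LL N := by unfold LL; linarith
  rw [abs_mul, abs_mul, abs_of_pos (LL_pos N), h5]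
  constructor <;> nlinarith

theorem ap_lim (f : 𝓢(ℂ, ℂ)) (x : ℂ) : Tendsto (fun N => ap N f x) atTop (𝓝 (f x)) := by
  rw [Metric.tendsto_atTop]
  intro ε hε
  obtain ⟨δ, hδ, hfδ⟩ := Metric.continuous_iff.1 f.continuous x (ε / 2) (by positivity)
  obtain ⟨N0, hN0⟩ := exists_nat_gt (max (4 / δ) (‖x‖ + 1))
  refine ⟨N0, fun N hN => ?_⟩
  have hNr : (N0 : ℝ) ≤ N := by exact_mod_cast hN
  have h1 : 4 / δ < N := lt_of_lt_of_le ((le_max_left _ _).trans_lt hN0) hNr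
  have h2 : ‖x‖ + 1 ≤ N := ((le_max_right _ _).trans hN0.le).trans hNr
  obtain ⟨b1, b2⟩ := box_ok h2
  have hsum := fi_sum_eq b1 b2
  have hsumC : ∑ n ∈ Bx (MM N), ((fi (LL N) n x : ℝ) : ℂ) = 1 := by
    rw [← Complex.ofReal_sum, hsum, Complex.ofReal_one]
  have h3 : ap N f x - f x = ∑ n ∈ Bx (MM N), (Av (LL N) n f - f x) * ((fi (LL N) n x : ℝ) : ℂ) := by
    unfold ap
    rw [sn_apply]
    simp only [sub_mul, Finset.sum_sub_distrib]
    rw [← Finset.mul_sum, hsumC, mul_one]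
  have h4 : ∀ n ∈ Bx (MM N), ‖(Av (LL N) n f - f x) * ((fi (LL N) n x : ℝ) : ℂ)‖ ≤
      (ε / 2) * fi (LL N) n x := by
    intro n _
    rw [norm_mul, Complex.norm_real, Real.norm_of_nonneg (fi_nonneg _ n x)]
    by_cases h : fi (LL N) n x = 0
    · rw [h, mul_zero, mul_zero]
    · refine mul_le_mul_of_nonneg_right ?_ (fi_nonneg _ n x)
      refine Av_close (LL_pos N) n f.continuous (f x) fun y hy => ?_
      rw [← dist_eq_norm]
      refine (hfδ y ?_).le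
      rw [dist_eq_norm]
      refine (fi_near (LL_pos N) h hy).trans_lt ?_
      rw [div_lt_iff₀ (LL_pos N)]
      rw [div_lt_iff₀ hδ] at h1
      have : (N : ℝ) ≤ LL N := by unfold LL; linarith
      nlinarith
  rw [dist_eq_norm, h3]
  calc _ ≤ ∑ n ∈ Bx (MM N), ‖(Av (LL N) n f - f x) * ((fi (LL N) n x : ℝ) : ℂ)‖ := norm_sum_le _ _
    _ ≤ ∑ n ∈ Bx (MM N), (ε / 2) * fi (LL N) n x := Finset.sum_le_sum h4
    _ = (ε / 2) * ∑ n ∈ Bx (MM N), fi (LL N) n x := by rw [Finset.mul_sum]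
    _ = ε / 2 := by rw [hsum, mul_one]
    _ < ε := by linarith

theorem ap_Lp (f : 𝓢(ℂ, ℂ)) {q : ℝ} (hq : 2 ≤ q) :
    Tendsto (fun N => ∫⁻ x, ‖(ap N f - f) x‖ₑ ^ q) atTop (𝓝 0) := by
  have hq0 : 0 < q := by linarith
  obtain ⟨C, hC0, hC⟩ := decay4 f
  have hlim := tendsto_lintegral_of_dominated_convergence (μ := (volume : Measure ℂ))
    (F := fun N x => ‖(ap N f - f) x‖ₑ ^ q) (f := fun _ => 0)
    (fun x => ENNReal.ofReal ((2 * C) ^ q) * ENNReal.ofReal ((1 + ‖x‖) ^ (-(2 * q)))) ?_ ?_ ?_ ?_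
  · simpa using hlim
  · intro N
    exact ((ap N f - f).continuous.enorm.measurable).pow_const q
  · intro N
    refine Eventually.of_forall fun x => ?_
    have h1 : ‖(ap N f - f) x‖ ≤ 2 * C * (1 + ‖x‖) ^ (-2 : ℝ) := by
      rw [sub_apply]
      have e1 := ap_bound hC hC0 N x
      have e2 := hC x x (by rw [sub_self, norm_zero]; norm_num)
      have e3 := norm_sub_le (ap N f x) (f x)
      linarith
    have h2 : ‖(ap N f - f) x‖ₑ ≤ ENNReal.ofReal (2 * C * (1 + ‖x‖) ^ (-2 : ℝ)) := by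
      rw [← ofReal_norm]
      exact ENNReal.ofReal_le_ofReal h1
    refine (ENNReal.rpow_le_rpow h2 hq0.le).trans (le_of_eq ?_)
    have h3 : (0 : ℝ) < 1 + ‖x‖ := by positivity
    rw [ENNReal.ofReal_rpow_of_nonneg (by positivity) hq0.le, Real.mul_rpow (by positivity)
      (by positivity), ← Real.rpow_mul h3.le, ENNReal.ofReal_mul (by positivity)]
    congr 3
    ring
  · rw [lintegral_const_mul' _ _ ENNReal.ofReal_ne_top]
    refine ENNReal.mul_ne_top ENNReal.ofReal_ne_top ?_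
    refine (finite_integral_one_add_norm ?_).ne
    rw [Complex.finrank_real_complex]
    push_cast
    linarith
  · refine Eventually.of_forall fun x => ?_
    have h1 : Tendsto (fun N => ‖(ap N f - f) x‖ₑ) atTop (𝓝 ‖(0 : ℂ)‖ₑ) := by
      have h2 : Tendsto (fun N => (ap N f - f) x) atTop (𝓝 0) := by
        have := (ap_lim f x).sub_const (f x)
        rw [sub_self] at this
        exact this
      exact (continuous_enorm.tendsto (0 : ℂ)).comp h2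
    have h3 := (ENNReal.continuous_rpow_const (y := q)).tendsto ‖(0 : ℂ)‖ₑ
    have h4 := h3.comp h1
    rw [enorm_zero, ENNReal.zero_rpow_of_pos hq0] at h4
    exact h4

end Pool.Agent.N892.BW.RTT
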