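import Pool.Agent.N892.BW.RTT_D
import Pool.Agent.R227.IT1

/-!
BW4/RTT, fifth file: the discrete inequality. By helper310.
-/

set_option autoImplicit false

open MeasureTheory Filter Topology Complex Set
open scoped ComplexConjugate ENNReal SchwartzMap ContDiff

namespace Pool.Agent.N892.BW.RTT

/-- Riesz-Thorin for finite matrices, indices in `ℤ × ℤ` -/
theorem rt3 (p₀ p₁ p h₀ h₁ : ℝ) (hp0 : 1 < p₀) (hlt0 : p₀ < p) (hlt1 : p < p₁) (hh0 : 0 ≤ h₀)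
    (hh1 : 0 ≤ h₁) (S S' : Finset (ℤ × ℤ)) (k : ℤ × ℤ → ℤ × ℤ → ℂ)
    (H0 : ∀ a : ℤ × ℤ → ℂ, ∑ m ∈ S', ‖∑ n ∈ S, a n * k m n‖ ^ p₀ ≤ h₀ ^ p₀ * ∑ n ∈ S, ‖a n‖ ^ p₀)
    (H1 : ∀ a : ℤ × ℤ → ℂ, ∑ m ∈ S', ‖∑ n ∈ S, a n * k m n‖ ^ p₁ ≤ h₁ ^ p₁ * ∑ n ∈ S, ‖a n‖ ^ p₁)
    (s : ℝ) (hs : s = (1 / p - 1 / p₁) / (1 / p₀ - 1 / p₁)) (a : ℤ × ℤ → ℂ) :
    ∑ m ∈ S', ‖∑ n ∈ S, a n * k m n‖ ^ p ≤ (h₁ ^ (1 - s) * h₀ ^ s) ^ p * ∑ n ∈ S, ‖a n‖ ^ p := by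
  have e : (ℤ × ℤ) ≃ ℤ := (Denumerable.eqv (ℤ × ℤ)).trans (Denumerable.eqv ℤ).symm
  have key := Pool.Agent.R227.IT.rt2 p₀ p₁ p h₀ h₁ hp0 hlt0 hlt1 hh0 hh1
    (S.map e.toEmbedding) (S'.map e.toEmbedding) (fun m n => k (e.symm m) (e.symm n)) ?_ ?_ s hs
    (fun n => a (e.symm n))
  · simpa only [Finset.sum_map, Equiv.coe_toEmbedding, Equiv.symm_apply_apply] using key
  · intro b
    have := H0 fun n => b (e n)
    simpa only [Finset.sum_map, Equiv.coe_toEmbedding, Equiv.symm_apply_apply] using this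
  · intro b
    have := H1 fun n => b (e n)
    simpa only [Finset.sum_map, Equiv.coe_toEmbedding, Equiv.symm_apply_apply] using this

theorem conv {ι : Type} (S : Finset ι) (x : ι → ℂ) {q : ℝ} (hq : 0 < q) :
    ENNReal.ofReal (∑ m ∈ S, ‖x m‖ ^ q) = ∑ m ∈ S, ‖x m‖ₑ ^ q := by
  rw [ENNReal.ofReal_sum_of_nonneg fun m _ => by positivity]
  refine Finset.sum_congr rfl fun m _ => ?_
  rw [← ENNReal.ofReal_rpow_of_nonneg (norm_nonneg _) hq.le, ofReal_norm]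

/-- the bound for all Schwartz functions, as an inequality between integrals -/
def Bo (n : ℕ) (q K : ℝ) : Prop := ∀ f : 𝓢(ℂ, ℂ),
  ∫⁻ x, ‖TS n f x‖ₑ ^ q ≤ ENNReal.ofReal K ^ q * ∫⁻ x, ‖f x‖ₑ ^ q

theorem Bo_iff (n : ℕ) {q K : ℝ} (hq : 0 < q) : Bo n q K ↔
    ∀ f : 𝓢(ℂ, ℂ), eLpNorm (TS n f) (ENNReal.ofReal q) volume ≤
      ENNReal.ofReal K * eLpNorm (fun z : ℂ => f z) (ENNReal.ofReal q) volume := by
  unfold Bo
  refine forall_congr' fun f => ?_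
  have hq' : ENNReal.ofReal q ≠ 0 := by
    rw [Ne, ENNReal.ofReal_eq_zero, not_le]; exact hq
  rw [eLpNorm_eq_lintegral_rpow_enorm_toReal hq' ENNReal.ofReal_ne_top,
    eLpNorm_eq_lintegral_rpow_enorm_toReal hq' ENNReal.ofReal_ne_top, ENNReal.toReal_ofReal hq.le]
  have h1 : ENNReal.ofReal K * (∫⁻ x, ‖f x‖ₑ ^ q) ^ (1 / q) =
      (ENNReal.ofReal K ^ q * ∫⁻ x, ‖f x‖ₑ ^ q) ^ (1 / q) := by
    rw [ENNReal.mul_rpow_of_nonneg _ _ (by positivity), ← ENNReal.rpow_mul, mul_one_div_cancel hq.ne',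
      ENNReal.rpow_one]
  rw [h1, ENNReal.rpow_le_rpow_iff (by positivity)]

theorem Av_TS {L L' : ℝ} (hL : 0 < L) (hL' : 0 < L') (n M : ℕ) (m : ℤ × ℤ) (a : ℤ × ℤ → ℂ) :
    Av L' m (TS n (sn hL M a)) = ∑ i ∈ Bx M, a i * Av L' m (TS n (Fi' hL i)) := by
  have h1 : TS n (sn hL M a) = fun x => ∑ i ∈ Bx M, a i * TS n (Fi' hL i) x := by
    funext x
    unfold sn
    rw [TS_sum]
  rw [h1, Av_sum hL' m (Bx M) a (fun i => TS n (Fi' hL i)) fun i => TS_cont n _]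

theorem edge {L L' : ℝ} (hL : 0 < L) (hL' : 0 < L') {n : ℕ} {q K : ℝ} (hq : 1 < q) (hK : 0 < K)
    (hB : Bo n q K) (M : ℕ) (S' : Finset (ℤ × ℤ)) (a : ℤ × ℤ → ℂ) :
    ∑ m ∈ S', ‖∑ i ∈ Bx M, a i * Av L' m (TS n (Fi' hL i))‖ ^ q ≤
      (K * (L' ^ 2 / L ^ 2) ^ (1 / q)) ^ q * ∑ i ∈ Bx M, ‖a i‖ ^ q := by
  have hq0 : 0 < q := by linarith
  have hR : 0 ≤ (K * (L' ^ 2 / L ^ 2) ^ (1 / q)) ^ q * ∑ i ∈ Bx M, ‖a i‖ ^ q := by positivity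
  rw [← ENNReal.ofReal_le_ofReal_iff hR, conv S' _ hq0, ENNReal.ofReal_mul (by positivity),
    conv (Bx M) a hq0]
  simp only [← Av_TS hL hL' n M _ a]
  have h1 := Av_pow_sum hL' S' (TS_cont n (sn hL M a)) hq
  have h2 := hB (sn hL M a)
  have h3 := sn_norm hL M a hq
  have h4 : ENNReal.ofReal ((K * (L' ^ 2 / L ^ 2) ^ (1 / q)) ^ q) =
      cc L' * (ENNReal.ofReal K ^ q * (cc L)⁻¹) := by
    rw [Real.mul_rpow hK.le (by positivity), ← Real.rpow_mul (by positivity),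
      one_div_mul_cancel hq0.ne', Real.rpow_one, cc, cc, ← ENNReal.ofReal_inv_of_pos (by positivity),
      ENNReal.ofReal_rpow_of_pos hK, ← ENNReal.ofReal_mul (by positivity),
      ← ENNReal.ofReal_mul (by positivity)]
    congr 1
    field_simp
  rw [h4]
  calc _ ≤ cc L' * ∫⁻ x, ‖TS n (sn hL M a) x‖ₑ ^ q := h1
    _ ≤ cc L' * (ENNReal.ofReal K ^ q * ((∑ i ∈ Bx M, ‖a i‖ₑ ^ q) * (cc L)⁻¹)) := by
        refine mul_le_mul_right (h2.trans (mul_le_mul_right h3 _)) _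
    _ = _ := by ring

/-- the discrete inequality for the intermediate exponent -/
theorem disc {L' : ℝ} (hL' : 0 < L') {n : ℕ} {p₀ p₁ p θ K₀ K₁ : ℝ} (hp0 : 1 < p₀)
    (hlt0 : p₀ < p) (hlt1 : p < p₁) (hth : 1 / p = (1 - θ) / p₀ + θ / p₁) (hK0 : 0 < K₀)
    (hK1 : 0 < K₁) (B0 : Bo n p₀ K₀) (B1 : Bo n p₁ K₁) (N : ℕ) (S' : Finset (ℤ × ℤ)) (f : 𝓢(ℂ, ℂ)) :
    ∑ m ∈ S', ‖Av L' m (TS n (ap N f))‖ₑ ^ p ≤
      ENNReal.ofReal (K₀ ^ (1 - θ) * K₁ ^ θ) ^ p * (cc L' * ∫⁻ x, ‖f x‖ₑ ^ p) := by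
  have hL := LL_pos N
  set L := LL N with hLdef
  have hp : 1 < p := by linarith
  have hp' : 0 < p := by linarith
  have hp00 : 0 < p₀ := by linarith
  have hp10 : 0 < p₁ := by linarith
  have hlt : 1 / p₁ < 1 / p₀ := one_div_lt_one_div_of_lt hp00 (by linarith)
  have hs : 1 - θ = (1 / p - 1 / p₁) / (1 / p₀ - 1 / p₁) := by
    rw [eq_div_iff (by linarith), hth]
    ring
  set ρ : ℝ := L' ^ 2 / L ^ 2 with hρ
  have hρ0 : 0 < ρ := by positivity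
  have key := rt3 p₀ p₁ p (K₀ * ρ ^ (1 / p₀)) (K₁ * ρ ^ (1 / p₁)) hp0 hlt0 hlt1 (by positivity)
    (by positivity) (Bx (MM N)) S' (fun m i => Av L' m (TS n (Fi' hL i)))
    (fun a => edge hL hL' hp0 hK0 B0 (MM N) S' a)
    (fun a => edge hL hL' (by linarith) hK1 B1 (MM N) S' a) (1 - θ) hs
    (fun i => Av L i f)
  simp only [← Av_TS hL hL' n (MM N) _ (fun i => Av L i f)] at key
  have hconst : ((K₁ * ρ ^ (1 / p₁)) ^ (1 - (1 - θ)) * (K₀ * ρ ^ (1 / p₀)) ^ (1 - θ)) ^ p =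
      (K₀ ^ (1 - θ) * K₁ ^ θ) ^ p * ρ := by
    rw [Real.mul_rpow hK1.le (by positivity), Real.mul_rpow hK0.le (by positivity),
      ← Real.rpow_mul hρ0.le, ← Real.rpow_mul hρ0.le]
    have e1 : K₁ ^ (1 - (1 - θ)) * ρ ^ (1 / p₁ * (1 - (1 - θ))) *
        (K₀ ^ (1 - θ) * ρ ^ (1 / p₀ * (1 - θ))) = (K₀ ^ (1 - θ) * K₁ ^ θ) * ρ ^ (1 / p) := by
      have e2 : (1 : ℝ) / p = 1 / p₁ * (1 - (1 - θ)) + 1 / p₀ * (1 - θ) := by rw [hth]; ring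
      rw [e2, Real.rpow_add hρ0, sub_sub_cancel]
      ring
    rw [e1, Real.mul_rpow (by positivity) (by positivity), ← Real.rpow_mul hρ0.le,
      one_div_mul_cancel hp'.ne', Real.rpow_one]
  rw [hconst] at key
  have h5 := ENNReal.ofReal_le_ofReal key
  rw [conv S' _ hp', ENNReal.ofReal_mul (by positivity), conv (Bx (MM N)) _ hp',
    ENNReal.ofReal_mul (by positivity)] at h5
  have h6 : ENNReal.ofReal ρ = cc L' * (cc L)⁻¹ := by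
    rw [cc, cc, ← ENNReal.ofReal_inv_of_pos (by positivity), ← ENNReal.ofReal_mul (by positivity), hρ]
    congr 1
  have h7 := Av_pow_sum hL (Bx (MM N)) f.continuous hp
  obtain ⟨c0, ct⟩ := cc_ne hL
  rw [h6, ← ENNReal.ofReal_rpow_of_pos (by positivity)] at h5
  refine h5.trans ?_
  calc ENNReal.ofReal (K₀ ^ (1 - θ) * K₁ ^ θ) ^ p * (cc L' * (cc L)⁻¹) *
        ∑ m ∈ Bx (MM N), ‖Av L m f‖ₑ ^ p
      ≤ ENNReal.ofReal (K₀ ^ (1 - θ) * K₁ ^ θ) ^ p * (cc L' * (cc L)⁻¹) *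
        (cc L * ∫⁻ x, ‖f x‖ₑ ^ p) := mul_le_mul_right h7 _
    _ = ENNReal.ofReal (K₀ ^ (1 - θ) * K₁ ^ θ) ^ p * (cc L' * (((cc L)⁻¹ * cc L) *
        ∫⁻ x, ‖f x‖ₑ ^ p)) := by ring
    _ = _ := by rw [ENNReal.inv_mul_cancel c0 ct, one_mul]

/-- the limit of the input grids -/
theorem disc2 {L' : ℝ} (hL' : 0 < L') {n : ℕ} {p₀ p₁ p θ K₀ K₁ : ℝ} (hp0 : 2 ≤ p₀)
    (hlt0 : p₀ < p) (hlt1 : p < p₁) (hth : 1 / p = (1 - θ) / p₀ + θ / p₁) (hK0 : 0 < K₀)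
    (hK1 : 0 < K₁) (B0 : Bo n p₀ K₀) (B1 : Bo n p₁ K₁) (S' : Finset (ℤ × ℤ)) (f : 𝓢(ℂ, ℂ)) :
    ∑ m ∈ S', ‖Av L' m (TS n f)‖ₑ ^ p ≤
      ENNReal.ofReal (K₀ ^ (1 - θ) * K₁ ^ θ) ^ p * (cc L' * ∫⁻ x, ‖f x‖ₑ ^ p) := by
  have hp00 : 0 < p₀ := by linarith
  have hp' : 0 < p := by linarith
  have hav : ∀ m, Tendsto (fun N => Av L' m (TS n (ap N f))) atTop (𝓝 (Av L' m (TS n f))) := by
    intro m
    have h1 : ∀ N, Av L' m (TS n (ap N f - f)) = Av L' m (TS n (ap N f)) - Av L' m (TS n f) := by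
      intro N
      have h2 : TS n (ap N f - f) = fun x => TS n (ap N f) x - TS n f x := by
        funext x
        exact TS_sub n _ _ x
      rw [h2]
      unfold Av
      rw [integral_sub (Ec_int hL' m (TS_cont n _)) (Ec_int hL' m (TS_cont n _)), mul_sub]
    have h3 : ∀ N, ‖Av L' m (TS n (ap N f - f))‖ₑ ^ p₀ ≤
        cc L' * (ENNReal.ofReal K₀ ^ p₀ * ∫⁻ x, ‖(ap N f - f) x‖ₑ ^ p₀) := by
      intro N
      refine (Av_pow hL' m (TS_cont n _) (by linarith)).trans (mul_le_mul_right ?_ _)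
      exact (setLIntegral_le_lintegral _ _).trans (B0 (ap N f - f))
    have h4 : Tendsto (fun N => cc L' * (ENNReal.ofReal K₀ ^ p₀ *
        ∫⁻ x, ‖(ap N f - f) x‖ₑ ^ p₀)) atTop (𝓝 0) := by
      have h5 := ap_Lp f hp0
      have h6 := ENNReal.Tendsto.const_mul (a := ENNReal.ofReal K₀ ^ p₀) h5
        (Or.inr (ENNReal.rpow_ne_top_of_nonneg hp00.le ENNReal.ofReal_ne_top))
      have h7 := ENNReal.Tendsto.const_mul (a := cc L') h6 (Or.inr (cc_ne hL').2)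
      simpa using h7
    have h8 : Tendsto (fun N => ‖Av L' m (TS n (ap N f - f))‖ₑ ^ p₀) atTop (𝓝 0) :=
      tendsto_of_tendsto_of_tendsto_of_le_of_le tendsto_const_nhds h4 (fun _ => zero_le) h3
    have h9 : Tendsto (fun N => ‖Av L' m (TS n (ap N f - f))‖ₑ) atTop (𝓝 0) := by
      have h10 := ((ENNReal.continuous_rpow_const (y := p₀⁻¹)).tendsto 0).comp h8
      rw [ENNReal.zero_rpow_of_pos (inv_pos.2 hp00)] at h10
      refine h10.congr fun N => ?_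
      exact ENNReal.rpow_rpow_inv hp00.ne' _
    have h11 : Tendsto (fun N => ‖Av L' m (TS n (ap N f - f))‖) atTop (𝓝 0) := by
      have h12 := (ENNReal.tendsto_toReal (a := 0) ENNReal.zero_ne_top).comp h9
      refine h12.congr fun N => ?_
      simp
    have h13 := tendsto_zero_iff_norm_tendsto_zero.2 h11
    simp only [h1] at h13
    exact tendsto_sub_nhds_zero_iff.1 h13
  have hlim : Tendsto (fun N => ∑ m ∈ S', ‖Av L' m (TS n (ap N f))‖ₑ ^ p) atTop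
      (𝓝 (∑ m ∈ S', ‖Av L' m (TS n f)‖ₑ ^ p)) := by
    refine tendsto_finsetSum _ fun m _ => ?_
    exact ((ENNReal.continuous_rpow_const (y := p)).tendsto _).comp
      ((continuous_enorm.tendsto _).comp (hav m))
  exact le_of_tendsto' hlim fun N => disc hL' (by linarith) hlt0 hlt1 hth hK0 hK1 B0 B1 N S' f

end Pool.Agent.N892.BW.RTT
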