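import Pool.Agent.N892.BW.Stm2

/-!
Project BW, part SPL: splitting into separated windows, analysis (helper31).
-/

set_option autoImplicit false

open MeasureTheory ENNReal Filter Topology Complex
open scoped ComplexConjugate ContDiff

namespace Pool.Agent.N892.BW.SPL

open Pool.Agent.N892.BW

/-! ### Young's inequality -/

theorem jen (m : ℕ) (hm : 1 ≤ m) (g F : ℂ → ℝ≥0∞) (hg : Measurable g) (hF : Measurable F) :
    (∫⁻ y, g y * F y) ^ (2 * m) ≤ (∫⁻ y, g y) ^ (2 * m - 1) * ∫⁻ y, g y * F y ^ (2 * m) := by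
  set ν : Measure ℂ := volume.withDensity g with hν
  have e1 : ∫⁻ y, g y * F y = ∫⁻ y, F y ∂ν := by
    rw [hν, lintegral_withDensity_eq_lintegral_mul _ hg hF]
    rfl
  have e2 : ∫⁻ y, g y * F y ^ (2 * m) = ∫⁻ y, F y ^ (2 * m) ∂ν := by
    rw [hν, lintegral_withDensity_eq_lintegral_mul _ hg (hF.pow_const _)]
    rfl
  have e3 : ∫⁻ y, g y = ∫⁻ _y, 1 ∂ν := by
    rw [hν, lintegral_one, withDensity_apply _ MeasurableSet.univ, Measure.restrict_univ]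
  rw [e1, e2, e3]
  have hm' : (1 : ℝ) ≤ m := by exact_mod_cast hm
  have hp : (1 : ℝ) < 2 * (m : ℝ) := by linarith
  have hpq := Real.HolderConjugate.conjExponent hp
  have h := ENNReal.lintegral_mul_le_Lp_mul_Lq ν hpq (f := F) (g := fun _ => 1) hF.aemeasurable
    aemeasurable_const
  simp only [Pi.mul_apply, mul_one, ENNReal.one_rpow] at h
  have h2 := pow_le_pow_left' h (2 * m)
  refine h2.trans (le_of_eq ?_)
  rw [mul_pow, mul_comm]
  have hc : ((2 * m : ℕ) : ℝ) = 2 * (m : ℝ) := by push_cast; ring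
  have hp0 : (2 * (m : ℝ)) ≠ 0 := by positivity
  congr 1
  · rw [← ENNReal.rpow_natCast, ← ENNReal.rpow_natCast, ← ENNReal.rpow_mul, hc]
    congr 1
    rw [Nat.cast_sub (by omega), hc, Real.conjExponent]
    have : (2 * (m : ℝ)) - 1 ≠ 0 := by linarith
    push_cast
    field_simp
  · rw [← ENNReal.rpow_natCast, ← ENNReal.rpow_mul, hc, one_div_mul_cancel hp0, ENNReal.rpow_one]
    refine lintegral_congr fun y => ?_
    rw [← ENNReal.rpow_natCast, hc]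

theorem young (m : ℕ) (hm : 1 ≤ m) (G f : ℂ → ℂ) (hG : Measurable G) (hf : Measurable f) :
    Nm m (fun x => ∫ z, G (x - z) * f z) ≤ (∫⁻ y, ‖G y‖ₑ) ^ (2 * m) * Nm m f := by
  have h1 : ∀ x, ‖∫ z, G (x - z) * f z‖ₑ ≤ ∫⁻ y, ‖G y‖ₑ * ‖f (x - y)‖ₑ := by
    intro x
    refine (enorm_integral_le_lintegral_enorm _).trans (le_of_eq ?_)
    rw [← lintegral_sub_left_eq_self (fun z => ‖G (x - z) * f z‖ₑ) x]
    refine lintegral_congr fun y => ?_
    rw [_root_.sub_sub_cancel, enorm_mul]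
  have hmeas : Measurable fun p : ℂ × ℂ => ‖G p.2‖ₑ * ‖f (p.1 - p.2)‖ₑ ^ (2 * m) :=
    (hG.comp measurable_snd).enorm.mul
      ((hf.comp (measurable_fst.sub measurable_snd)).enorm.pow_const _)
  calc Nm m (fun x => ∫ z, G (x - z) * f z)
      ≤ ∫⁻ x, (∫⁻ y, ‖G y‖ₑ) ^ (2 * m - 1) * ∫⁻ y, ‖G y‖ₑ * ‖f (x - y)‖ₑ ^ (2 * m) := by
        refine lintegral_mono fun x => ?_
        exact (pow_le_pow_left' (h1 x) _).trans (jen m hm _ _ hG.enorm
          (hf.comp (measurable_const.sub measurable_id)).enorm)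
    _ = (∫⁻ y, ‖G y‖ₑ) ^ (2 * m - 1) * ∫⁻ x, ∫⁻ y, ‖G y‖ₑ * ‖f (x - y)‖ₑ ^ (2 * m) := by
        rw [lintegral_const_mul _ hmeas.lintegral_prod_right']
    _ = (∫⁻ y, ‖G y‖ₑ) ^ (2 * m - 1) * ((∫⁻ y, ‖G y‖ₑ) * Nm m f) := by
        congr 1
        rw [lintegral_lintegral_swap hmeas.aemeasurable]
        have h2 : ∀ y, ∫⁻ x, ‖G y‖ₑ * ‖f (x - y)‖ₑ ^ (2 * m) = ‖G y‖ₑ * Nm m f := by
          intro y
          have h4 : Measurable fun x => ‖f (x - y)‖ₑ ^ (2 * m) :=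
            (hf.comp (measurable_id.sub measurable_const)).enorm.pow_const _
          rw [lintegral_const_mul _ h4, lintegral_sub_right_eq_self (fun x => ‖f x‖ₑ ^ (2 * m)) y]
          rfl
        rw [lintegral_congr h2, lintegral_mul_const _ hG.enorm]
    _ = (∫⁻ y, ‖G y‖ₑ) ^ (2 * m) * Nm m f := by
        rw [← mul_assoc, ← pow_succ]
        congr 2
        omega

/-! ### cut-off functions -/

noncomputable def bp : ContDiffBump (0 : ℂ) := ⟨1, 2, one_pos, by norm_num⟩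

noncomputable def th (β : ℝ) (ξ : ℂ) : ℂ := ((bp ((β⁻¹ : ℝ) • ξ) : ℝ) : ℂ)

theorem th_one {β : ℝ} (hβ : 0 < β) {ξ : ℂ} (h : ‖ξ‖ ≤ β) : th β ξ = 1 := by
  unfold th
  rw [bp.one_of_mem_closedBall, Complex.ofReal_one]
  rw [mem_closedBall_zero_iff, norm_smul, Real.norm_eq_abs, abs_of_pos (inv_pos.2 hβ)]
  show β⁻¹ * ‖ξ‖ ≤ 1
  rw [inv_mul_le_iff₀ hβ]
  linarith

theorem th_zero {β : ℝ} (hβ : 0 < β) {ξ : ℂ} (h : 2 * β ≤ ‖ξ‖) : th β ξ = 0 := by
  unfold th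
  rw [bp.zero_of_le_dist, Complex.ofReal_zero]
  rw [dist_zero_right, norm_smul, Real.norm_eq_abs, abs_of_pos (inv_pos.2 hβ)]
  show 2 ≤ β⁻¹ * ‖ξ‖
  rw [le_inv_mul_iff₀ hβ]
  linarith

theorem th_real (β : ℝ) (ξ : ℂ) : ∃ r : ℝ, 0 ≤ r ∧ r ≤ 1 ∧ th β ξ = r :=
  ⟨_, bp.nonneg, bp.le_one, rfl⟩

theorem th_smooth (β : ℝ) : ContDiff ℝ ∞ (th β) :=
  ofRealCLM.contDiff.comp (bp.contDiff.comp (contDiff_const_smul _))

/-- the symbol of a window -/
noncomputable def D (β β' : ℝ) (ξ : ℂ) : ℂ := th β' ξ - th β ξ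

theorem D_bd {β β' : ℝ} (hβ : 0 < β) (h : β ≤ β') : Bd β (2 * β') (D β β') := by
  refine ⟨(th_smooth _).sub (th_smooth _), fun ξ hξ => ⟨?_, ?_⟩⟩
  · by_contra hc
    push Not at hc
    apply hξ
    unfold D
    rw [th_one hβ hc.le, th_one (hβ.trans_le h) (hc.le.trans h), sub_self]
  · by_contra hc
    push Not at hc
    apply hξ
    unfold D
    rw [th_zero hβ (by linarith), th_zero (hβ.trans_le h) hc.le, sub_self]

theorem D_real {β β' : ℝ} (hβ : 0 < β) (h : 2 * β ≤ β') (ξ : ℂ) :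
    ∃ r : ℝ, 0 ≤ r ∧ r ≤ 1 ∧ D β β' ξ = r := by
  have hβ' : 0 < β' := by linarith
  unfold D
  rcases le_total ‖ξ‖ β' with h1 | h1
  · obtain ⟨r, h2, h3, h4⟩ := th_real β ξ
    refine ⟨1 - r, by linarith, by linarith, ?_⟩
    rw [th_one hβ' h1, h4]
    push_cast
    ring
  · obtain ⟨r, h2, h3, h4⟩ := th_real β' ξ
    refine ⟨r, h2, h3, ?_⟩
    rw [th_zero hβ (by linarith), h4, sub_zero]

theorem bd_mono {a b a' b' : ℝ} {h : ℂ → ℂ} (hh : Bd a b h) (ha : a' ≤ a) (hb : b ≤ b') :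
    Bd a' b' h :=
  ⟨hh.1, fun ξ hξ => ⟨ha.trans (hh.2 ξ hξ).1, (hh.2 ξ hξ).2.trans hb⟩⟩

theorem e2_cont (x : ℂ) : Continuous (e2 x) := by
  unfold e2
  fun_prop

theorem bd_int {a b : ℝ} {h : ℂ → ℂ} (hh : Bd a b h) (x : ℂ) :
    Integrable (fun ξ => e2 x ξ * h ξ) := by
  have hc : HasCompactSupport h := HasCompactSupport.intro (isCompact_closedBall 0 b)
    (fun ξ hξ => by
      by_contra hne
      exact hξ (mem_closedBall_zero_iff.2 (hh.2 ξ hne).2))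
  exact ((e2_cont x).mul hh.1.continuous).integrable_of_hasCompactSupport hc.mul_left

theorem th_bd {β : ℝ} (hβ : 0 < β) : Bd 0 (2 * β) (th β) := by
  refine ⟨th_smooth _, fun ξ hξ => ⟨norm_nonneg _, ?_⟩⟩
  by_contra hc
  push Not at hc
  exact hξ (th_zero hβ hc.le)

theorem Fi_th {β : ℝ} (hβ : 0 < β) (x : ℂ) :
    Fi (th β) x = (β ^ 2 : ℝ) • Fi (th 1) (β • x) := by
  unfold Fi
  have h := Measure.integral_comp_smul (μ := (volume : Measure ℂ))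
    (fun ξ : ℂ => e2 x ξ * th β ξ) β
  have h1 : ∀ ξ : ℂ, e2 x (β • ξ) * th β (β • ξ) = e2 (β • x) ξ * th 1 ξ := by
    intro ξ
    unfold e2 th
    rw [smul_smul, inv_mul_cancel₀ hβ.ne', inv_one]
    congr 4
    simp only [real_smul, mul_re, mul_im, ofReal_re, ofReal_im, zero_mul, sub_zero, add_zero]
    ring
  simp only [h1] at h
  rw [h, Complex.finrank_real_complex, smul_smul, abs_of_pos (by positivity),
    mul_inv_cancel₀ (by positivity), one_smul]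

/-- the `L^1` norm of the kernel -/
noncomputable def A1 : ℝ := ∫ x, ‖Fi (th 1) x‖

theorem A1_nonneg : 0 ≤ A1 := integral_nonneg fun _ => norm_nonneg _

theorem int_th {β : ℝ} (hβ : 0 < β) : ∫ x, ‖Fi (th β) x‖ = A1 := by
  have h1 : ∀ x, ‖Fi (th β) x‖ = β ^ 2 * ‖Fi (th 1) (β • x)‖ := by
    intro x
    rw [Fi_th hβ, norm_smul, Real.norm_eq_abs, abs_of_pos (by positivity)]
  simp only [h1]
  rw [integral_const_mul, Measure.integral_comp_smul (μ := (volume : Measure ℂ))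
    (fun x => ‖Fi (th 1) x‖) β, Complex.finrank_real_complex, abs_of_pos (by positivity),
    smul_eq_mul, ← mul_assoc, mul_inv_cancel₀ (by positivity), one_mul]
  rfl

theorem Fi_D {β β' : ℝ} (hβ : 0 < β) (hβ' : 0 < β') (x : ℂ) :
    Fi (D β β') x = Fi (th β') x - Fi (th β) x := by
  unfold Fi D
  rw [← integral_sub (bd_int (th_bd hβ') x) (bd_int (th_bd hβ) x)]
  refine integral_congr_ae (Eventually.of_forall fun ξ => ?_)
  show _ * (_ - _) = _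
  ring

theorem int_D (h1 : S_BAS) {β β' : ℝ} (hβ : 0 < β) (h : β ≤ β') :
    Continuous (Fi (D β β')) ∧ Integrable (Fi (D β β')) ∧ ∫ x, ‖Fi (D β β') x‖ ≤ 2 * A1 + 2 := by
  have hβ' : 0 < β' := by linarith
  obtain ⟨c1, -, ⟨-, i1, -⟩, -, -⟩ := h1 (2 * β') (D β β') (bd_mono (D_bd hβ h) hβ.le le_rfl)
  obtain ⟨-, -, ⟨-, i2, -⟩, -, -⟩ := h1 (2 * β) (th β) (th_bd hβ)
  obtain ⟨-, -, ⟨-, i3, -⟩, -, -⟩ := h1 (2 * β') (th β') (th_bd hβ')
  refine ⟨c1, i1, ?_⟩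
  calc ∫ x, ‖Fi (D β β') x‖ ≤ ∫ x, (‖Fi (th β') x‖ + ‖Fi (th β) x‖) := by
        refine integral_mono i1.norm (i3.norm.add i2.norm) fun x => ?_
        show ‖Fi (D β β') x‖ ≤ ‖Fi (th β') x‖ + ‖Fi (th β) x‖
        rw [Fi_D hβ hβ']
        exact norm_sub_le _ _
    _ = A1 + A1 := by
        rw [integral_add i3.norm i2.norm, int_th hβ, int_th hβ']
    _ ≤ _ := by linarith

theorem nm_D (h1 : S_BAS) (h2 : S_CNV) {m : ℕ} (hm : 1 ≤ m) {β β' b : ℝ} (hβ : 0 < β)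
    (h : β ≤ β') {f : ℂ → ℂ} (hf : Bd 0 b f) :
    Nm m (Fi (fun ξ => D β β' ξ * f ξ)) ≤
      ENNReal.ofReal ((2 * A1 + 2) ^ (2 * m)) * Nm m (Fi f) := by
  have hc := h2 (max (2 * β') b) (D β β') f
    (bd_mono (D_bd hβ h) hβ.le (le_max_left _ _)) (bd_mono hf le_rfl (le_max_right _ _))
  have e : Fi (fun ξ => D β β' ξ * f ξ) = fun x => ∫ z, Fi (D β β') (x - z) * Fi f z :=
    funext fun x => (hc x).2
  obtain ⟨c1, i1, j1⟩ := int_D h1 hβ h
  obtain ⟨cf, -, -, -, -⟩ := h1 b f hf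
  rw [e]
  refine (young m hm _ _ c1.measurable cf.measurable).trans ?_
  have hA := A1_nonneg
  rw [ENNReal.ofReal_pow (by linarith)]
  gcongr
  rw [← ofReal_integral_norm_eq_lintegral_enorm i1]
  exact ENNReal.ofReal_le_ofReal j1

end Pool.Agent.N892.BW.SPL
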